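import Mathlib

section

/-! Definitions for the local lifting theorem for groups with cyclic `p`-Sylow subgroup. -/

open PowerSeries IsLocalRing Finset
open scoped Polynomial

namespace Pool.Agent.MP_deef5c_ag.O

universe u

/-- complete Noetherian local rings -/
class CL (D : Type u) [CommRing D] [IsLocalRing D] : Prop where
  noeth : IsNoetherianRing D
  cpl : IsAdicComplete (maximalIdeal D) D

attribute [instance] CL.noeth CL.cpl

instance CL.field (k : Type u) [Field k] : CL k := ⟨inferInstance, inferInstance⟩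

/-- algebra endomorphisms of `D⟦X⟧`, a monoid under composition: `(φ * ψ) f = φ (ψ f)` -/
abbrev En (D : Type u) [CommRing D] : Type u := D⟦X⟧ →ₐ[D] D⟦X⟧

section Ring

variable {D : Type u} [CommRing D]

open Classical in
/-- the substitution `X ↦ a` (junk unless `D` is complete local and `a(0)` is not a unit) -/
noncomputable def sub (a : D⟦X⟧) : En D :=
  if h : ∃ φ : En D, φ X = a then h.choose else 1

/-- the substitution `X ↦ z X` -/
noncomputable def tau (z : D) : En D :=
  { rescale z with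
    commutes' := fun r => by
      show rescale z (C r) = C r
      ext n
      rw [coeff_rescale, coeff_C]
      split_ifs with h <;> simp [h] }

/-- the norm `∏_{i<q} σ^i f` -/
noncomputable def nrm (σ : En D) (q : ℕ) (f : D⟦X⟧) : D⟦X⟧ := ∏ i ∈ range q, (σ ^ i) f

/-- the sum `∑_{i<a} σ^i f` -/
noncomputable def trc (σ : En D) (a : ℕ) (f : D⟦X⟧) : D⟦X⟧ := ∑ i ∈ range a, (σ ^ i) f

/-- the operator `σ - 1` -/
noncomputable def dl (σ : En D) : Module.End D D⟦X⟧ := σ.toLinearMap - 1

/-- all coefficients of `f` lie in `J` -/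
def CIn (J : Ideal D) (f : D⟦X⟧) : Prop := ∀ a, coeff a f ∈ J

/-- the relations `σ^q = 1`, `τ σ = σ^α τ` with `τ X = z X` -/
def Rel (q α : ℕ) (z : D) (σ : En D) : Prop := σ ^ q = 1 ∧ tau z * σ = σ ^ α * tau z

/-- the relations hold modulo `J` for the substitution `X ↦ s` -/
def Good (q α : ℕ) (z : D) (J : Ideal D) (s : D⟦X⟧) : Prop :=
  CIn J ((sub s ^ q) X - X) ∧ CIn J (tau z s - (sub s ^ α) (C z * X))

/-- only monomials of degree prime to `p` occur -/
def Red (p : ℕ) (r : D[X]) : Prop := ∀ j, p ∣ j → r.coeff j = 0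

/-- `(∏ (X-b)^(e b))^p * ∑_b ∑_j c b j / (X-b)^j` -/
noncomputable def polar [DecidableEq D] (p : ℕ) (Z : Finset D) (e : D → ℕ) (c : D → ℕ → D) : D[X] :=
  ∑ b ∈ Z, (∑ j ∈ Icc 1 (p * e b), Polynomial.C (c b j) * (Polynomial.X - Polynomial.C b) ^ (p * e b - j)) *
    ∏ b' ∈ Z.erase b, (Polynomial.X - Polynomial.C b') ^ (p * e b')

end Ring

/-- `UU p d i = max_{j<i} p^(i-1-j) d j` -/
def UU (p : ℕ) (d : ℕ → ℕ) : ℕ → ℕ
  | 0 => 0
  | i + 1 => max (p * UU p d i) (d i)

section Field

variable {k : Type u} [Field k]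

/-- power series as Laurent series -/
noncomputable abbrev lc (k : Type u) [Field k] : k⟦X⟧ →+* LaurentSeries k :=
  HahnSeries.ofPowerSeries ℤ k

/-- the valuation of Laurent series, `vv k (lc k X) = exp (-1)` -/
noncomputable abbrev vv (k : Type u) [Field k] :
    Valuation (LaurentSeries k) (WithZero (Multiplicative ℤ)) := Valued.v

/-- the operator `X d/dX` on Laurent series -/
noncomputable def th (z : LaurentSeries k) : LaurentSeries k :=
  lc k X * LaurentSeries.derivative k z

open Classical in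
/-- extension of an injective endomorphism to Laurent series -/
noncomputable def lext (φ : En k) : LaurentSeries k →+* LaurentSeries k :=
  if h : Function.Injective ((lc k).comp (φ : k⟦X⟧ →+* k⟦X⟧)) then
    IsFractionRing.lift (A := k⟦X⟧) (K := LaurentSeries k) h else RingHom.id _

theorem lmap_inj {Ω : Type u} [Field Ω] (φ : k →+* Ω) :
    Function.Injective ((lc Ω).comp (PowerSeries.map φ)) := fun _ _ h =>
  PowerSeries.map_injective φ φ.injective (HahnSeries.ofPowerSeries_injective h)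

/-- coefficientwise extension of scalars of Laurent series -/
noncomputable def lmap {Ω : Type u} [Field Ω] (φ : k →+* Ω) :
    LaurentSeries k →+* LaurentSeries Ω :=
  IsFractionRing.lift (A := k⟦X⟧) (K := LaurentSeries k) (lmap_inj φ)

/-- special fibre datum of level `n`: `σ` of order `p^n` normalised by `τ : X ↦ ζ X` -/
structure Sp (p n m α : ℕ) (ζ : k) (σ : En k) : Prop where
  ord : orderOf σ = p ^ n
  mpos : 0 < m
  prim : IsPrimitiveRoot ζ m
  rel : tau ζ * σ = σ ^ α * tau ζ
  hyp : (α : k) = 1 ∨ (α : k) * ζ ^ p ^ n = 1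

/-- the norm of `X`, a coordinate of the quotient -/
noncomputable def xb (p n : ℕ) (σ : En k) : k⟦X⟧ := nrm σ (p ^ n) X

/-- `w = 1 +` last upper jump (and `0` at level `0`) -/
def IsW (p n : ℕ) (σ : En k) (w : ℕ) : Prop :=
  (n = 0 ∧ w = 0) ∨ (0 < n ∧ ((p ^ n * w : ℕ) : ℕ∞) =
    order (d⁄dX k (xb p n σ)) + order ((σ ^ p ^ (n - 1)) X - X))

/-- `σ'` (level `n`) is induced by `σ` (level `n+1`) on the coordinate `s = N_ρ X` -/
structure Desc (p n : ℕ) (σ σ' : En k) (s : k⟦X⟧) : Prop where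
  hs : s = nrm (σ ^ p ^ n) p X
  comm : sub s * σ' = σ * sub s
  hx : sub s (xb p n σ') = xb p (n + 1) σ

variable {D : Type u} [CommRing D] [Algebra k D]

/-- constant extension of a series -/
noncomputable abbrev cst (D : Type u) [CommRing D] [Algebra k D] : k⟦X⟧ →+* D⟦X⟧ :=
  PowerSeries.map (algebraMap k D)

/-- a framed family over `D` with special fibre `σ` -/
structure Fam (p n α : ℕ) (ζ : k) (σ : En k) (π : D →ₐ[k] k) (σD : En D) (x : D⟦X⟧) : Prop where
  red : PowerSeries.map (π : D →+* k) (σD X) = σ X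
  redx : PowerSeries.map (π : D →+* k) x = xb p n σ
  rel : Rel (p ^ n) α (algebraMap k D ζ) σD
  inv : σD x = x
  eig : tau (algebraMap k D ζ) x = C (algebraMap k D (ζ ^ p ^ n)) * x

/-- `x` is `g` up to a change of coordinate congruent to the identity -/
def Triv (π : D →ₐ[k] k) (g : k⟦X⟧) (x : D⟦X⟧) : Prop :=
  ∃ Φ : En D, PowerSeries.map (π : D →+* k) (Φ X) = X ∧ Φ (cst D g) = x

end Field

end Pool.Agent.MP_deef5c_ag.O

end

section

/-! Homomorphisms out of power series rings. -/

open PowerSeries IsLocalRing Finset Function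
open scoped Polynomial

namespace Pool.Agent.MP_deef5c_ag.O

universe u

section General
variable {D : Type u} [CommRing D]

theorem BaseA_haus {B : Type u} [CommRing B] (I : Ideal B) [IsHausdorff I B] {x : B}
    (h : ∀ n, x ∈ I ^ n) : x = 0 := by
  refine IsHausdorff.haus' (I := I) x fun n => ?_
  rw [SModEq.zero, smul_eq_mul, Ideal.mul_top]
  exact h n

theorem BaseA_poly {M : D⟦X⟧ → Prop} (hC : ∀ a, M (C a)) (hadd : ∀ f g, M f → M g → M (f + g))
    (hX : ∀ f, M f → M (f * X)) (p : D[X]) : M (p : D⟦X⟧) := by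
  induction p using Polynomial.induction_on with
  | C a => rw [Polynomial.coe_C]; exact hC a
  | add p q hp hq => rw [Polynomial.coe_add]; exact hadd _ _ hp hq
  | monomial n a h =>
    rw [pow_succ, ← mul_assoc, Polynomial.coe_mul, Polynomial.coe_X]
    exact hX _ h

theorem BaseA_key {B : Type u} [CommRing B] [Algebra D B] (I : Ideal B) (a : B) (ha : a ∈ I)
    (n : ℕ) (p q : D[X]) (h : ∀ m < n, p.coeff m = q.coeff m) :
    Ideal.Quotient.mk (I ^ n) (Polynomial.aeval a p) =
      Ideal.Quotient.mk (I ^ n) (Polynomial.aeval a q) := by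
  rw [Ideal.Quotient.eq, ← map_sub]
  obtain ⟨r, hr⟩ : Polynomial.X ^ n ∣ p - q :=
    Polynomial.X_pow_dvd_iff.2 fun m hm => by rw [Polynomial.coeff_sub, h m hm, sub_self]
  rw [hr, map_mul, map_pow, Polynomial.aeval_X]
  exact Ideal.mul_mem_right _ _ (Ideal.pow_mem_pow ha n)

/-- evaluation modulo a power of the ideal -/
noncomputable def BaseA_ev {B : Type u} [CommRing B] [Algebra D B] (I : Ideal B) (a : B)
    (ha : a ∈ I) (n : ℕ) : D⟦X⟧ →ₐ[D] B ⧸ I ^ n :=
  AlgHom.ofLinearMap
    ((Ideal.Quotient.mkₐ D (I ^ n)).toLinearMap ∘ₗ (Polynomial.aeval a).toLinearMap ∘ₗ trunc n)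
    (by
      have := BaseA_key I a ha n (trunc n (1 : D⟦X⟧)) 1 fun m hm => by
        rw [coeff_trunc, if_pos hm, coeff_one, Polynomial.coeff_one]
      simpa using this)
    (fun f g => by
      have := BaseA_key I a ha n (trunc n (f * g)) (trunc n f * trunc n g) fun m hm => by
        rw [coeff_trunc, if_pos hm, coeff_mul_eq_coeff_trunc_mul_trunc f g hm,
          ← Polynomial.coe_mul, Polynomial.coeff_coe]
      simpa using this)

theorem BaseA_ev_apply {B : Type u} [CommRing B] [Algebra D B] (I : Ideal B) (a : B)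
    (ha : a ∈ I) (n : ℕ) (f : D⟦X⟧) :
    BaseA_ev I a ha n f = Ideal.Quotient.mk (I ^ n) (Polynomial.aeval a (trunc n f)) := rfl

theorem BaseA_der_zero {B : Type u} [CommRing B] (I : Ideal B) [IsHausdorff I B]
    (φ : D⟦X⟧ →+* B) (hI : φ X ∈ I) (δ : D⟦X⟧ →+ B) (hC : ∀ a, δ (C a) = 0) (hX : δ X = 0)
    (hδ : ∀ f g, δ (f * g) = φ f * δ g + φ g * δ f) (f : D⟦X⟧) : δ f = 0 := by
  have hp : ∀ p : D[X], δ (p : D⟦X⟧) = 0 :=
    BaseA_poly (M := fun f => δ f = 0) hC (fun f g hf hg => by rw [map_add, hf, hg, add_zero])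
      fun f hf => by rw [hδ, hf, hX, mul_zero, mul_zero, add_zero]
  refine BaseA_haus I fun n => ?_
  have h1 := hp (Polynomial.X ^ n)
  rw [Polynomial.coe_pow, Polynomial.coe_X] at h1
  rw [eq_X_pow_mul_shift_add_trunc n f, map_add, hp, add_zero, hδ, h1, mul_zero, add_zero, map_pow]
  exact Ideal.mul_mem_right _ _ (Ideal.pow_mem_pow hI n)

/-- `f = poly + X^N g`, so both sides agree modulo `I^N` for every `N`. -/
theorem ringHom_ext_of_mem {B : Type u} [CommRing B] (I : Ideal B) [IsHausdorff I B]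
    (φ ψ : D⟦X⟧ →+* B) (hC : ∀ a, φ (C a) = ψ (C a)) (hX : φ X = ψ X) (hI : φ X ∈ I) :
    φ = ψ := by
  have hp : ∀ p : D[X], φ (p : D⟦X⟧) = ψ (p : D⟦X⟧) :=
    BaseA_poly (M := fun f => φ f = ψ f) hC (fun f g hf hg => by rw [map_add, map_add, hf, hg])
      fun f hf => by rw [map_mul, map_mul, hf, hX]
  refine RingHom.ext fun f => sub_eq_zero.1 (BaseA_haus I fun n => ?_)
  rw [eq_X_pow_mul_shift_add_trunc n f, map_add, map_add, hp, add_sub_add_right_eq_sub, map_mul,
    map_mul, map_pow, map_pow, ← hX, ← mul_sub]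
  exact Ideal.mul_mem_right _ _ (Ideal.pow_mem_pow hI n)

/-- use `IsAdicComplete.liftRingHom` on the maps `f ↦ aeval a (trunc n f) mod I^n`. -/
theorem exists_algHom {B : Type u} [CommRing B] [Algebra D B] (I : Ideal B) [IsAdicComplete I B]
    (a : B) (ha : a ∈ I) : ∃ φ : D⟦X⟧ →ₐ[D] B, φ X = a := by
  have hf : ∀ {m n : ℕ} (hle : m ≤ n),
      (Ideal.Quotient.factorPow I hle).comp (BaseA_ev (D := D) I a ha n : D⟦X⟧ →+* B ⧸ I ^ n) =
        (BaseA_ev (D := D) I a ha m : D⟦X⟧ →+* B ⧸ I ^ m) := by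
    intro m n hle
    refine RingHom.ext fun f => ?_
    have h1 := BaseA_key I a ha m (trunc n f) (trunc m f) fun j hj => by
      rw [coeff_trunc, coeff_trunc, if_pos hj, if_pos (lt_of_lt_of_le hj hle)]
    rw [RingHom.comp_apply, RingHom.coe_coe, RingHom.coe_coe, BaseA_ev_apply, BaseA_ev_apply, ← h1,
      Ideal.Quotient.factor_mk]
  obtain ⟨φ, hφ⟩ : ∃ φ : D⟦X⟧ →+* B, ∀ n f,
      Ideal.Quotient.mk (I ^ n) (φ f) = BaseA_ev (D := D) I a ha n f :=
    ⟨IsAdicComplete.liftRingHom I _ hf, fun n f => IsAdicComplete.mk_liftRingHom I _ hf n f⟩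
  refine ⟨{ φ with commutes' := fun r => ?_ }, ?_⟩
  · refine sub_eq_zero.1 (BaseA_haus I fun n => ?_)
    rw [← Ideal.Quotient.eq]
    exact (hφ n _).trans (AlgHom.commutes _ r)
  · refine sub_eq_zero.1 (BaseA_haus I fun n => ?_)
    rw [← Ideal.Quotient.eq]
    refine (hφ n X).trans ?_
    have h1 := BaseA_key I a ha n (trunc n (X : D⟦X⟧)) Polynomial.X fun j hj => by
      rw [coeff_trunc, if_pos hj, ← Polynomial.coe_X, Polynomial.coeff_coe]
    rw [BaseA_ev_apply, h1, Polynomial.aeval_X]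

/-- a derivation along `φ` is determined by its value at `X` -/
theorem der_eq {B : Type u} [CommRing B] (I : Ideal B) [IsHausdorff I B]
    (φ : D⟦X⟧ →+* B) (hI : φ X ∈ I) (δ : D⟦X⟧ →+ B) (hC : ∀ a, δ (C a) = 0)
    (hδ : ∀ f g, δ (f * g) = φ f * δ g + φ g * δ f) (f : D⟦X⟧) :
    δ f = φ (d⁄dX D f) * δ X := by
  let E : D⟦X⟧ →+ B :=
    { toFun := fun f => δ f - φ (d⁄dX D f) * δ X
      map_zero' := by simp
      map_add' := fun f g => by rw [map_add, map_add, map_add]; ring }
  have hE : ∀ f, E f = δ f - φ (d⁄dX D f) * δ X := fun _ => rfl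
  have h := BaseA_der_zero I φ hI E (fun a => by rw [hE, hC, derivative_C]; simp)
    (by rw [hE, derivative_X]; simp)
    (fun f g => by
      rw [hE, hE, hE, hδ, Derivation.leibniz, smul_eq_mul, smul_eq_mul, map_add, map_mul, map_mul]
      ring) f
  exact sub_eq_zero.1 h

theorem tau_apply (z : D) (f : D⟦X⟧) : tau z f = rescale z f := rfl

theorem tau_X (z : D) : tau z X = C z * X := by
  rw [tau_apply, rescale_X]

theorem coeff_tau (z : D) (f : D⟦X⟧) (a : ℕ) : coeff a (tau z f) = z ^ a * coeff a f := by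
  rw [tau_apply, coeff_rescale]

theorem tau_mul (a b : D) : tau a * tau b = tau (a * b) := by
  refine AlgHom.ext fun f => ?_
  rw [AlgHom.mul_apply, tau_apply, tau_apply, tau_apply, rescale_rescale, mul_comm]

theorem tau_one : tau (1 : D) = 1 := by
  refine AlgHom.ext fun f => ?_
  rw [tau_apply, rescale_one]
  rfl

theorem tau_pow (a : D) (i : ℕ) : tau a ^ i = tau (a ^ i) := by
  induction i with
  | zero => rw [pow_zero, pow_zero, tau_one]
  | succ i ih => rw [pow_succ, pow_succ, ih, tau_mul]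

theorem map_tau {D' : Type u} [CommRing D'] (φ : D →+* D') (z : D) (f : D⟦X⟧) :
    PowerSeries.map φ (tau z f) = tau (φ z) (PowerSeries.map φ f) := by
  rw [tau_apply, tau_apply, rescale_map]

theorem der_tau (z : D) (f : D⟦X⟧) : d⁄dX D (tau z f) = C z * tau z (d⁄dX D f) := by
  ext n
  rw [coeff_derivative, coeff_C_mul, coeff_tau, coeff_tau, coeff_derivative]
  ring

theorem map_der {D' : Type u} [CommRing D'] (φ : D →+* D') (f : D⟦X⟧) :
    PowerSeries.map φ (d⁄dX D f) = d⁄dX D' (PowerSeries.map φ f) := by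
  ext n
  rw [coeff_map, coeff_derivative, coeff_derivative, coeff_map]
  simp

theorem cin_iff (J : Ideal D) (f : D⟦X⟧) :
    CIn J f ↔ PowerSeries.map (Ideal.Quotient.mk J) f = 0 := by
  rw [PowerSeries.ext_iff]
  refine forall_congr' fun a => ?_
  rw [coeff_map, map_zero, Ideal.Quotient.eq_zero_iff_mem]

theorem cin_span_singleton (ε : D) (f : D⟦X⟧) :
    CIn (Ideal.span {ε}) f ↔ ∃ g, f = C ε * g := by
  constructor
  · intro h
    choose c hc using fun a => Ideal.mem_span_singleton'.1 (h a)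
    refine ⟨PowerSeries.mk c, ?_⟩
    ext n
    rw [coeff_C_mul, coeff_mk, ← hc n, mul_comm]
  · rintro ⟨g, rfl⟩ a
    rw [coeff_C_mul]
    exact Ideal.mul_mem_right _ _ (Ideal.mem_span_singleton_self ε)

theorem cin_mul {I J : Ideal D} {f g : D⟦X⟧} (hf : CIn I f) (hg : CIn J g) :
    CIn (I * J) (f * g) := by
  intro a
  rw [coeff_mul]
  exact sum_mem fun x _ => Ideal.mul_mem_mul (hf _) (hg _)

/-- a finitely generated `J`: `f = ∑ C c_i * g_i` -/
theorem cin_map [IsNoetherianRing D] (σ : En D) {J : Ideal D} {f : D⟦X⟧} (hf : CIn J f) :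
    CIn J (σ f) := by
  obtain ⟨n, s, hs⟩ := Submodule.fg_iff_exists_fin_generating_family.1 (IsNoetherian.noetherian J)
  have h1 : ∀ a, ∃ c : Fin n → D, ∑ i, c i • s i = coeff a f := fun a =>
    (Submodule.mem_span_range_iff_exists_fun D).1 (hs ▸ hf a)
  choose c hc using h1
  have h2 : f = ∑ i, s i • PowerSeries.mk fun a => c a i := by
    ext a
    rw [map_sum, ← hc a]
    exact sum_congr rfl fun i _ => by rw [coeff_smul, coeff_mk, smul_eq_mul, smul_eq_mul, mul_comm]
  intro a
  rw [h2, map_sum, map_sum]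
  refine sum_mem fun i _ => ?_
  rw [map_smul, coeff_smul, smul_eq_mul]
  exact Ideal.mul_mem_right _ _ (hs ▸ Submodule.subset_span ⟨i, rfl⟩)

end General

end Pool.Agent.MP_deef5c_ag.O

end

section

/-! Substitution into power series over complete local rings. -/

open PowerSeries IsLocalRing Finset Function
open scoped Polynomial

namespace Pool.Agent.MP_deef5c_ag.O

universe u

section Local
variable {D : Type u} [CommRing D] [IsLocalRing D]

theorem mem_max_iff (f : D⟦X⟧) : f ∈ maximalIdeal D⟦X⟧ ↔ constantCoeff f ∈ maximalIdeal D := by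
  rw [mem_maximalIdeal, mem_maximalIdeal, mem_nonunits_iff, mem_nonunits_iff,
    PowerSeries.isUnit_iff_constantCoeff]

theorem pi_eq_zero_iff {k : Type u} [Field k] (π : D →+* k) (hπ : Surjective π) (a : D) :
    π a = 0 ↔ a ∈ maximalIdeal D := by
  rw [← ker_eq_maximalIdeal π hπ, RingHom.mem_ker]

theorem order_map_residue {k : Type u} [Field k] (π : D →+* k) (hπ : Surjective π) (f : D⟦X⟧) :
    order (PowerSeries.map (residue D) f) = order (PowerSeries.map π f) := by
  have h : ∀ i, coeff i (PowerSeries.map (residue D) f) = 0 ↔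
      coeff i (PowerSeries.map π f) = 0 := fun i => by
    rw [coeff_map, coeff_map, pi_eq_zero_iff π hπ, residue_eq_zero_iff]
  exact le_antisymm (le_order _ _ fun i hi => (h i).1 (coeff_of_lt_order i hi))
    (le_order _ _ fun i hi => (h i).2 (coeff_of_lt_order i hi))

theorem isUnit_of_map {k : Type u} [Field k] (π : D →+* k) (hπ : Surjective π) (f : D⟦X⟧) :
    IsUnit f ↔ IsUnit (PowerSeries.map π f) := by
  rw [PowerSeries.isUnit_iff_constantCoeff, PowerSeries.isUnit_iff_constantCoeff,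
    ← coeff_zero_eq_constantCoeff_apply (PowerSeries.map π f), coeff_map,
    coeff_zero_eq_constantCoeff_apply, isUnit_iff_ne_zero, Ne, pi_eq_zero_iff π hπ,
    mem_maximalIdeal, mem_nonunits_iff, not_not]

omit [IsLocalRing D] in
theorem Base_en_C (σ : En D) (a : D) : σ (C a) = C a := σ.commutes a

theorem Base_coeff_mem {N : ℕ} {f : D⟦X⟧} (hf : f ∈ maximalIdeal D⟦X⟧ ^ N) (a : ℕ) :
    coeff a f ∈ maximalIdeal D ^ (N - a) := by
  induction N generalizing f a with
  | zero => simp
  | succ N ih =>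
    rw [pow_succ] at hf
    refine Submodule.mul_induction_on hf (fun g hg h hh => ?_) fun x y hx hy => ?_
    · rw [coeff_mul]
      refine sum_mem fun ij hij => ?_
      have h1 := mem_antidiagonal.1 hij
      rcases Nat.eq_zero_or_pos ij.2 with h2 | h2
      · have h3 : coeff ij.2 h ∈ maximalIdeal D := by
          rw [h2, coeff_zero_eq_constantCoeff_apply]
          exact (mem_max_iff h).1 hh
        have h4 := Ideal.mul_mem_mul (ih hg ij.1) h3
        rw [← pow_succ] at h4
        exact Ideal.pow_le_pow_right (by omega) h4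
      · exact Ideal.pow_le_pow_right (by omega) (Ideal.mul_mem_right _ _ (ih hg ij.1))
    · rw [map_add]
      exact add_mem hx hy

theorem Base_mem_pow (N : ℕ) (f : D⟦X⟧) (hf : ∀ a, coeff a f ∈ maximalIdeal D ^ (N - a)) :
    f ∈ maximalIdeal D⟦X⟧ ^ N := by
  induction N generalizing f with
  | zero => simp
  | succ N ih =>
    rw [eq_X_mul_shift_add_const f]
    refine add_mem ?_ ?_
    · rw [pow_succ']
      refine Ideal.mul_mem_mul ((mem_max_iff _).2 (by simp)) (ih _ fun a => ?_)
      have := hf (a + 1)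
      rwa [Nat.add_sub_add_right, ← coeff_mk a fun p => coeff (p + 1) f] at this
    · have h1 := hf 0
      rw [Nat.sub_zero, coeff_zero_eq_constantCoeff_apply] at h1
      have h2 := Ideal.mem_map_of_mem (C : D →+* D⟦X⟧) h1
      rw [Ideal.map_pow] at h2
      refine Ideal.pow_right_mono (Ideal.map_le_iff_le_comap.2 fun x hx => ?_) _ h2
      exact Ideal.mem_comap.2 ((mem_max_iff _).2 (by rwa [constantCoeff_C]))

/-- `f ∈ M^N` forces `coeff a f ∈ m^(N-a)`; conversely such `f` lie in `M^N`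
(write `f = ∑_{a<N} c_a X^a + X^N g`). -/
instance CL.powerSeries [CL D] : CL D⟦X⟧ := by
  have hp : IsPrecomplete (maximalIdeal D⟦X⟧) D⟦X⟧ := by
    refine ⟨fun f hf => ?_⟩
    simp only [SModEq.sub_mem, smul_eq_mul, Ideal.mul_top] at hf ⊢
    have h1 : ∀ a, ∃ L : D, ∀ n, coeff a (f (n + a)) - L ∈ maximalIdeal D ^ n := fun a => by
      have := IsPrecomplete.prec (I := maximalIdeal D) (M := D) inferInstance
        (f := fun n => coeff a (f (n + a))) fun {m n} hmn => by
          have h2 := Base_coeff_mem (hf (Nat.add_le_add_right hmn a)) a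
          rw [Nat.add_sub_cancel, map_sub] at h2
          simpa only [SModEq.sub_mem, smul_eq_mul, Ideal.mul_top] using h2
      simpa only [SModEq.sub_mem, smul_eq_mul, Ideal.mul_top] using this
    choose L hL using h1
    refine ⟨PowerSeries.mk L, fun n => Base_mem_pow n _ fun a => ?_⟩
    rcases le_total a n with h | h
    · have := hL a (n - a)
      rwa [Nat.sub_add_cancel h, ← coeff_mk a L, ← map_sub] at this
    · rw [Nat.sub_eq_zero_of_le h, pow_zero, Ideal.one_eq_top]
      trivial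
  exact ⟨inferInstance, {}⟩

variable [CL D]

theorem sub_X {a : D⟦X⟧} (ha : constantCoeff a ∈ maximalIdeal D) : sub a X = a := by
  have h : ∃ φ : En D, φ X = a := exists_algHom (maximalIdeal D⟦X⟧) a ((mem_max_iff a).2 ha)
  rw [sub, dif_pos h]
  exact h.choose_spec

theorem en_ext {φ ψ : En D} (h : φ X = ψ X) (hm : constantCoeff (φ X) ∈ maximalIdeal D) :
    φ = ψ := by
  refine AlgHom.coe_ringHom_injective (ringHom_ext_of_mem (maximalIdeal D⟦X⟧) _ _ (fun a => ?_) h
    ((mem_max_iff _).2 hm))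
  exact (φ.commutes a).trans (ψ.commutes a).symm

theorem eq_sub (φ : En D) (hm : constantCoeff (φ X) ∈ maximalIdeal D) : φ = sub (φ X) := by
  exact en_ext (sub_X hm).symm hm

/-- compatibility of substitutions with a change of coefficients; `D₀` is arbitrary -/
theorem map_en {D₀ : Type u} [CommRing D₀] (φ : D₀ →+* D) (σ₀ : En D₀) (σ : En D)
    (h : PowerSeries.map φ (σ₀ X) = σ X) (hm : constantCoeff (σ X) ∈ maximalIdeal D)
    (f : D₀⟦X⟧) : PowerSeries.map φ (σ₀ f) = σ (PowerSeries.map φ f) := by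
  have h1 : (PowerSeries.map φ).comp (σ₀ : D₀⟦X⟧ →+* D₀⟦X⟧) =
      (σ : D⟦X⟧ →+* D⟦X⟧).comp (PowerSeries.map φ) := by
    refine ringHom_ext_of_mem (maximalIdeal D⟦X⟧) _ _ (fun a => ?_) ?_ ?_
    · show PowerSeries.map φ (σ₀ (C a)) = σ (PowerSeries.map φ (C a))
      rw [Base_en_C, map_C, Base_en_C]
    · show PowerSeries.map φ (σ₀ X) = σ (PowerSeries.map φ X)
      rw [map_X, h]
    · show PowerSeries.map φ (σ₀ X) ∈ _
      rw [h]
      exact (mem_max_iff _).2 hm
  exact RingHom.congr_fun h1 f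

theorem map_en_pow {D₀ : Type u} [CommRing D₀] (φ : D₀ →+* D) (σ₀ : En D₀) (σ : En D)
    (h : PowerSeries.map φ (σ₀ X) = σ X) (hm : constantCoeff (σ X) ∈ maximalIdeal D)
    (i : ℕ) (f : D₀⟦X⟧) : PowerSeries.map φ ((σ₀ ^ i) f) = (σ ^ i) (PowerSeries.map φ f) := by
  induction i with
  | zero => rfl
  | succ i ih => rw [pow_succ', pow_succ', AlgHom.mul_apply, AlgHom.mul_apply, map_en φ σ₀ σ h hm, ih]

/-- endomorphisms with `σ X` in the maximal ideal preserve the maximal ideal -/
theorem en_mem (σ : En D) (hm : constantCoeff (σ X) ∈ maximalIdeal D) {f : D⟦X⟧}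
    (hf : constantCoeff f ∈ maximalIdeal D) : constantCoeff (σ f) ∈ maximalIdeal D := by
  rw [eq_X_mul_shift_add_const f, map_add, map_mul, Base_en_C, map_add, map_mul, constantCoeff_C]
  exact add_mem (Ideal.mul_mem_right _ _ hm) hf

/-- chain rule -/
theorem der_en (σ : En D) (hm : constantCoeff (σ X) ∈ maximalIdeal D) (f : D⟦X⟧) :
    d⁄dX D (σ f) = σ (d⁄dX D f) * d⁄dX D (σ X) := by
  refine der_eq (maximalIdeal D⟦X⟧) (σ : D⟦X⟧ →+* D⟦X⟧) ((mem_max_iff _).2 hm)
    ((d⁄dX D).toLinearMap.toAddMonoidHom.comp (σ : D⟦X⟧ →+* D⟦X⟧).toAddMonoidHom)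
    (fun a => ?_) (fun f g => ?_) f
  · show d⁄dX D (σ (C a)) = 0
    rw [Base_en_C, derivative_C]
  · show d⁄dX D (σ (f * g)) = σ f * d⁄dX D (σ g) + σ g * d⁄dX D (σ f)
    rw [map_mul, Derivation.leibniz, smul_eq_mul, smul_eq_mul]

/-- `σ f - ψ f` is divisible by `σ X - ψ X`: the ideal generated by that element is closed
(Krull intersection in the Noetherian local ring `D⟦X⟧`), or apply `ringHom_ext_of_mem` to the
quotient. -/
theorem sub_dvd (σ ψ : En D) (hσ : constantCoeff (σ X) ∈ maximalIdeal D)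
    (hψ : constantCoeff (ψ X) ∈ maximalIdeal D) (f : D⟦X⟧) : σ X - ψ X ∣ σ f - ψ f := by
  set J : Ideal D⟦X⟧ := Ideal.span {σ X - ψ X} with hJ
  have hH : IsHausdorff ((maximalIdeal D⟦X⟧).map (algebraMap D⟦X⟧ (D⟦X⟧ ⧸ J))) (D⟦X⟧ ⧸ J) :=
    IsHausdorff.map_algebraMap_iff.2 inferInstance
  have h1 : (Ideal.Quotient.mk J).comp (σ : D⟦X⟧ →+* D⟦X⟧) =
      (Ideal.Quotient.mk J).comp (ψ : D⟦X⟧ →+* D⟦X⟧) := by
    refine ringHom_ext_of_mem ((maximalIdeal D⟦X⟧).map (algebraMap D⟦X⟧ (D⟦X⟧ ⧸ J))) _ _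
      (fun a => ?_) ?_ ?_
    · show Ideal.Quotient.mk J (σ (C a)) = Ideal.Quotient.mk J (ψ (C a))
      rw [Base_en_C, Base_en_C]
    · exact Ideal.Quotient.eq.2 (Ideal.mem_span_singleton_self _)
    · exact Ideal.mem_map_of_mem _ ((mem_max_iff _).2 hσ)
  exact Ideal.mem_span_singleton.1 (Ideal.Quotient.eq.1 (RingHom.congr_fun h1 f))

end Local

end Pool.Agent.MP_deef5c_ag.O

end

section

/-! Quotients of complete Noetherian local rings. -/

open PowerSeries IsLocalRing Finset Function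
open scoped Polynomial

namespace Pool.Agent.MP_deef5c_ag.O

universe u

/-- Hausdorff by Krull's intersection theorem, Cauchy sequences lift. -/
theorem CL.of_surj {S S' : Type u} [CommRing S] [IsLocalRing S] [CL S] [CommRing S']
    [IsLocalRing S'] (φ : S →+* S') (hφ : Surjective φ) : CL S' := by
  have hN : IsNoetherianRing S' := isNoetherianRing_of_surjective S S' φ hφ
  let _ : Algebra S S' := φ.toAlgebra
  have hpre : IsPrecomplete (maximalIdeal S) S' := by
    rw [← AdicCompletion.of_surjective_iff]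
    intro y
    obtain ⟨x, rfl⟩ := AdicCompletion.map_surjective (maximalIdeal S)
      (f := Algebra.linearMap S S') hφ y
    obtain ⟨a, rfl⟩ := AdicCompletion.of_surjective (maximalIdeal S) S x
    exact ⟨φ a, (AdicCompletion.map_of (maximalIdeal S) (Algebra.linearMap S S') a).symm⟩
  have hm : (maximalIdeal S).map (algebraMap S S') = maximalIdeal S' :=
    map_maximalIdeal_of_surjective φ hφ
  have hpre' : IsPrecomplete (maximalIdeal S') S' := by
    rw [← hm, IsPrecomplete.map_algebraMap_iff]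
    exact hpre
  exact ⟨hN, { toIsHausdorff := inferInstance, toIsPrecomplete := hpre' }⟩

theorem local_quot {S : Type u} [CommRing S] [IsLocalRing S] (J : Ideal S) (hJ : J ≠ ⊤) :
    IsLocalRing (S ⧸ J) := by
  have := Ideal.Quotient.nontrivial_iff.mpr hJ
  exact IsLocalRing.of_surjective' (Ideal.Quotient.mk J) Ideal.Quotient.mk_surjective

theorem Quot_ker {S k : Type u} [CommRing S] [IsLocalRing S] [Field k] (π : S →+* k)
    (hπ : Surjective π) (J : Ideal S) (hJ : J ≠ ⊤) (a : S) (ha : a ∈ J) : π a = 0 := by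
  have h1 : RingHom.ker π = maximalIdeal S :=
    eq_maximalIdeal (RingHom.ker_isMaximal_of_surjective π hπ)
  have h2 : a ∈ RingHom.ker π := h1 ▸ le_maximalIdeal hJ ha
  exact h2

/-- a residue map factors through every proper quotient -/
theorem exists_pi_quot {S k : Type u} [CommRing S] [IsLocalRing S] [Field k] (π : S →+* k)
    (hπ : Surjective π) (J : Ideal S) (hJ : J ≠ ⊤) :
    ∃ π' : S ⧸ J →+* k, Surjective π' ∧ ∀ a, π' (Ideal.Quotient.mk J a) = π a := by
  refine ⟨Ideal.Quotient.lift J π (Quot_ker π hπ J hJ), fun y => ?_, fun a => rfl⟩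
  obtain ⟨a, rfl⟩ := hπ y
  exact ⟨Ideal.Quotient.mk J a, rfl⟩

theorem exists_piAlg_quot {S k : Type u} [CommRing S] [IsLocalRing S] [Field k] [Algebra k S]
    (π : S →ₐ[k] k) (J : Ideal S) (hJ : J ≠ ⊤) :
    ∃ π' : (S ⧸ J) →ₐ[k] k, ∀ a, π' (Ideal.Quotient.mk J a) = π a := by
  have hπ : Surjective (π : S →+* k) := fun y => ⟨algebraMap k S y, π.commutes y⟩
  exact ⟨Ideal.Quotient.liftₐ J π (Quot_ker (π : S →+* k) hπ J hJ), fun a => rfl⟩

/-- take the bottom prime of a chain of maximal length in `S ⧸ J` -/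
theorem exists_prime_dim {S : Type u} [CommRing S] [IsLocalRing S] [IsNoetherianRing S]
    (J : Ideal S) (hJ : J ≠ ⊤) :
    ∃ Q : Ideal S, Q.IsPrime ∧ J ≤ Q ∧ ringKrullDim (S ⧸ J) ≤ ringKrullDim (S ⧸ Q) := by
  have := local_quot J hJ
  let l := LTSeries.longestOf (PrimeSpectrum (S ⧸ J))
  let e := J.primeSpectrumQuotientOrderIsoZeroLocus
  let l' : LTSeries (PrimeSpectrum S) :=
    l.map (fun P => (e P).1) fun _ _ h => e.strictMono h
  have h1 : ringKrullDim (S ⧸ J) = l'.length :=
    Order.krullDim_eq_length_of_finiteDimensionalOrder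
  refine ⟨l'.head.asIdeal, l'.head.isPrime, (e l.head).2, ?_⟩
  rw [h1, ringKrullDim_quotient]
  let l'' : LTSeries (PrimeSpectrum.zeroLocus (R := S) (l'.head.asIdeal : Set S)) :=
    LTSeries.mk l'.length (fun i => ⟨l' i, l'.head_le i⟩) fun _ _ h => l'.strictMono h
  exact Order.LTSeries.length_le_krullDim l''

end Pool.Agent.MP_deef5c_ag.O

end

section

/-! Non-zero-divisors and orders. -/

open PowerSeries IsLocalRing Finset Function
open scoped Polynomial

namespace Pool.Agent.MP_deef5c_ag.O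

universe u

variable {D k : Type u} [CommRing D] [IsLocalRing D] [CL D] [Field k]

/-- a series with non-zero reduction is a non-zero-divisor modulo every ideal (pass to `D ⧸ J`, which
is trivial or Noetherian local, and use `IsWeierstrassDivisorAt.eq_zero_of_mul_eq`) -/
theorem cin_of_mul (π : D →+* k) (hπ : Surjective π) (J : Ideal D) (F g : D⟦X⟧)
    (hF : PowerSeries.map π F ≠ 0) (h : CIn J (F * g)) : CIn J g := by
  rcases eq_or_ne J ⊤ with rfl | hJ
  · exact fun _ => Submodule.mem_top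
  haveI := local_quot J hJ
  haveI : CL (D ⧸ J) := CL.of_surj (Ideal.Quotient.mk J) Ideal.Quotient.mk_surjective
  obtain ⟨π', hπ', hc⟩ := exists_pi_quot π hπ J hJ
  have e : PowerSeries.map π' (PowerSeries.map (Ideal.Quotient.mk J) F) = PowerSeries.map π F := by
    ext n
    simp only [coeff_map, hc]
  have h0 : PowerSeries.map (residue (D ⧸ J)) (PowerSeries.map (Ideal.Quotient.mk J) F) ≠ 0 := by
    intro h0
    have h1 := order_map_residue π' hπ' (PowerSeries.map (Ideal.Quotient.mk J) F)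
    rw [h0, order_zero, e, eq_comm, order_eq_top] at h1
    exact hF h1
  rw [cin_iff] at h ⊢
  rw [map_mul] at h
  refine (IsWeierstrassDivisorAt.eq_zero_of_mul_eq (IsWeierstrassDivisor.of_map_ne_zero h0)
    (r := 0) ?_ (by rw [h, Polynomial.coe_zero])).1
  rw [Polynomial.degree_zero]
  exact WithBot.bot_lt_coe _

/-- orders multiply under substitution (over a field) -/
theorem order_en (σ : En k) (d : ℕ) (hd : 0 < d) (hσ : order (σ X) = d) (f : k⟦X⟧) :
    order (σ f) = d * order f := by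
  rcases eq_or_ne f 0 with rfl | hf
  · rw [map_zero, order_zero, ENat.mul_top (by exact_mod_cast hd.ne')]
  have hu : IsUnit (divXPowOrder f) := by
    rw [isUnit_iff_constantCoeff, isUnit_iff_ne_zero]
    exact fun h => hf (constantCoeff_divXPowOrder_eq_zero_iff.1 h)
  have h0 := order_zero_of_unit (hu.map σ)
  conv_lhs => rw [← X_pow_order_mul_divXPowOrder (f := f), map_mul, map_pow, order_mul, order_pow,
    h0, hσ, add_zero]
  rw [nsmul_eq_mul, coe_toNat_order hf, mul_comm]

end Pool.Agent.MP_deef5c_ag.O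

end

section

/-! Freeness of power series over a subring of power series. -/

open PowerSeries IsLocalRing Finset Function
open scoped Polynomial

namespace Pool.Agent.MP_deef5c_ag.O

universe u

variable {D k : Type u} [CommRing D] [IsLocalRing D] [CL D] [Field k]

omit [CL D] in
theorem Qb_mem (π : D →+* k) (hπ : Surjective π) (x : D⟦X⟧) (d : ℕ) (hd : 0 < d)
    (hx : order (PowerSeries.map π x) = d) : constantCoeff x ∈ maximalIdeal D := by
  have h := coeff_of_lt_order (φ := PowerSeries.map π x) 0 (by rw [hx]; exact_mod_cast hd)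
  rw [coeff_map, coeff_zero_eq_constantCoeff_apply] at h
  exact (pi_eq_zero_iff π hπ _).mp h

omit [CL D] in
theorem Qb_ord (π : D →+* k) (hπ : Surjective π) (x : D⟦X⟧) (d : ℕ)
    (hx : order (PowerSeries.map π x) = d) : PowerSeries.map (residue D) x ≠ 0 ∧
      (PowerSeries.map (Ideal.Quotient.mk (maximalIdeal D)) x).order.toNat = d := by
  have h := (order_map_residue π hπ x).trans hx
  refine ⟨fun h0 => ?_, ?_⟩
  · rw [h0, order_zero] at h
    exact ENat.top_ne_natCast d h
  · change (PowerSeries.map (residue D) x).order.toNat = d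
    rw [h, ENat.toNat_natCast]

theorem Qb_step {x : D⟦X⟧} (hm : constantCoeff x ∈ maximalIdeal D) (g : D⟦X⟧) :
    sub x g = x * sub x (mk fun n => coeff (n + 1) g) + C (coeff 0 g) := by
  conv_lhs => rw [eq_X_mul_shift_add_const g]
  rw [map_add, map_mul, sub_X hm, coeff_zero_eq_constantCoeff_apply]
  exact congrArg _ ((sub x).commutes _)

theorem Qb_sum {x : D⟦X⟧} (hm : constantCoeff x ∈ maximalIdeal D) (d : ℕ) (g : ℕ → D⟦X⟧) :
    ∑ i ∈ range d, sub x (g i) * X ^ i =
      x * ∑ i ∈ range d, sub x (mk fun n => coeff (n + 1) (g i)) * X ^ i +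
        ((∑ i ∈ range d, Polynomial.monomial i (coeff 0 (g i)) : D[X]) : D⟦X⟧) := by
  rw [← Polynomial.coeToPowerSeries.ringHom_apply, map_sum, mul_sum, ← sum_add_distrib]
  refine sum_congr rfl fun i _ => ?_
  rw [Qb_step hm, Polynomial.coeToPowerSeries.ringHom_apply, ← Polynomial.C_mul_X_pow_eq_monomial,
    Polynomial.coe_mul, Polynomial.coe_C, Polynomial.coe_pow, Polynomial.coe_X]
  ring

/-- Weierstrass division by `x` (`exists_isWeierstrassDivision`, `order_map_residue`): `f = r₀ + x f₁`,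
`f₁ = r₁ + x f₂`, ... with `deg r_n < d`; put `g i = mk fun n => coeff i (r n)`.  Then
`f - ∑ sub x (g i) X^i ∈ (x^N)` for all `N`, and `x` lies in the maximal ideal. -/
theorem qspan (π : D →+* k) (hπ : Surjective π) (x : D⟦X⟧) (d : ℕ) (hd : 0 < d)
    (hx : order (PowerSeries.map π x) = d) (f : D⟦X⟧) :
    ∃ g : ℕ → D⟦X⟧, f = ∑ i ∈ range d, sub x (g i) * X ^ i := by
  have hm := Qb_mem π hπ x d hd hx
  obtain ⟨h0, hd'⟩ := Qb_ord π hπ x d hx
  choose q r hqr using fun f : D⟦X⟧ => exists_isWeierstrassDivision f h0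
  have hE : ∀ f : D⟦X⟧,
      f - ∑ i ∈ range d, sub x (mk fun n => (r (q^[n] f)).coeff i) * X ^ i =
        x * (q f - ∑ i ∈ range d, sub x (mk fun n => (r (q^[n] (q f))).coeff i) * X ^ i) := by
    intro f
    have h1 := (hqr f).1
    rw [hd'] at h1
    have h2 : r f = ∑ i ∈ range d, Polynomial.monomial i ((r f).coeff i) := by
      by_cases hr : r f = 0
      · simp [hr]
      · exact Polynomial.as_sum_range' _ _ ((Polynomial.natDegree_lt_iff_degree_lt hr).mpr h1)
    rw [Qb_sum hm]
    simp only [coeff_mk, iterate_succ_apply, iterate_zero, id]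
    rw [← h2, mul_sub]
    have h3 := (hqr f).2
    linear_combination h3
  have hN : ∀ (N : ℕ) (f : D⟦X⟧),
      f - ∑ i ∈ range d, sub x (mk fun n => (r (q^[n] f)).coeff i) * X ^ i ∈
        maximalIdeal D⟦X⟧ ^ N := by
    intro N
    induction N with
    | zero => simp
    | succ N ih =>
      intro f
      rw [hE, pow_succ']
      exact Ideal.mul_mem_mul ((mem_max_iff x).mpr hm) (ih _)
  refine ⟨fun i => mk fun n => (r (q^[n] f)).coeff i, sub_eq_zero.mp ?_⟩
  refine IsHausdorff.haus' (I := maximalIdeal D⟦X⟧) _ fun N => ?_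
  rw [SModEq.zero, smul_eq_mul, Ideal.mul_top]
  exact hN N f

/-- uniqueness of Weierstrass division by `x` kills the constant coefficients of the `g i`; divide by
`x` (a non-zero-divisor by the same uniqueness) and iterate -/
theorem qindep (π : D →+* k) (hπ : Surjective π) (x : D⟦X⟧) (d : ℕ) (hd : 0 < d)
    (hx : order (PowerSeries.map π x) = d) (g : ℕ → D⟦X⟧)
    (h : ∑ i ∈ range d, sub x (g i) * X ^ i = 0) : ∀ i < d, g i = 0 := by
  have hm := Qb_mem π hπ x d hd hx
  obtain ⟨h0, hd'⟩ := Qb_ord π hπ x d hx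
  have hs : ∀ g : ℕ → D⟦X⟧, ∑ i ∈ range d, sub x (g i) * X ^ i = 0 →
      ∑ i ∈ range d, sub x (mk fun n => coeff (n + 1) (g i)) * X ^ i = 0 ∧
        ∀ i < d, coeff 0 (g i) = 0 := by
    intro g h
    rw [Qb_sum hm, add_eq_zero_iff_eq_neg, ← Polynomial.coe_neg] at h
    obtain ⟨h1, h2⟩ := (IsWeierstrassDivisor.of_map_ne_zero h0).eq_zero_of_mul_eq (by
      rw [hd', Polynomial.degree_neg]
      refine (Polynomial.degree_sum_le _ _).trans_lt ?_
      refine (Finset.sup_lt_iff (WithBot.bot_lt_coe _)).mpr fun i hi => ?_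
      exact (Polynomial.degree_monomial_le _ _).trans_lt (by exact_mod_cast mem_range.mp hi)) h
    refine ⟨h1, fun i hi => ?_⟩
    have h3 := congrArg (fun P : D[X] => P.coeff i) (neg_eq_zero.mp h2)
    simpa [Polynomial.coeff_monomial, hi] using h3
  have hn : ∀ (n : ℕ) (g : ℕ → D⟦X⟧), ∑ i ∈ range d, sub x (g i) * X ^ i = 0 →
      ∀ i < d, coeff n (g i) = 0 := by
    intro n
    induction n with
    | zero => exact fun g h => (hs g h).2
    | succ n ih =>
      intro g h i hi
      have h1 := ih _ (hs g h).1 i hi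
      rwa [coeff_mk] at h1
  intro i hi
  ext n
  rw [hn n g h i hi, map_zero]

theorem sub_injective (π : D →+* k) (hπ : Surjective π) (x : D⟦X⟧) (d : ℕ) (hd : 0 < d)
    (hx : order (PowerSeries.map π x) = d) : Injective (sub x) := by
  refine (injective_iff_map_eq_zero (sub x)).mpr fun f hf => ?_
  have h := qindep π hπ x d hd hx (fun i => if i = 0 then f else 0)
    (sum_eq_zero fun i _ => by split_ifs <;> simp [hf]) 0 hd
  simpa using h

/-- an endomorphism whose reduction sends `X` to a series of order one is invertible -/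
theorem exists_inv (π : D →+* k) (hπ : Surjective π) (Φ : En D)
    (hΦ : order (PowerSeries.map π (Φ X)) = 1) : ∃ Ψ : En D, Φ * Ψ = 1 ∧ Ψ * Φ = 1 := by
  have hΦ' : order (PowerSeries.map π (Φ X)) = (1 : ℕ) := hΦ
  have he := eq_sub Φ (Qb_mem π hπ _ 1 one_pos hΦ')
  have hb : Bijective Φ := by
    rw [he]
    refine ⟨sub_injective π hπ _ 1 one_pos hΦ', fun f => ?_⟩
    obtain ⟨g, hg⟩ := qspan π hπ _ 1 one_pos hΦ' f
    exact ⟨g 0, by simpa using hg.symm⟩
  refine ⟨(AlgEquiv.ofBijective Φ hb).symm, AlgHom.ext fun f => ?_, AlgHom.ext fun f => ?_⟩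
  · exact (AlgEquiv.ofBijective Φ hb).apply_symm_apply f
  · exact (AlgEquiv.ofBijective Φ hb).symm_apply_apply f

/-- invariants: write `f = ∑ sub x (g i) X^i`; the polynomial `∑ sub x (g i) T^i - f` of degree `< d`
has the `d` distinct roots `σ^i X` in a domain -/
theorem qinv [IsDomain D] (π : D →+* k) (hπ : Surjective π) (x : D⟦X⟧) (d : ℕ) (hd : 0 < d)
    (hx : order (PowerSeries.map π x) = d) (σ : En D) (hσ : σ x = x)
    (hinj : ∀ i < d, ∀ j < d, (σ ^ i) X = (σ ^ j) X → i = j) (f : D⟦X⟧) (hf : σ f = f) :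
    ∃ g, sub x g = f := by
  have hm := Qb_mem π hπ x d hd hx
  obtain ⟨g, hg⟩ := qspan π hπ x d hd hx f
  have h1 : σ * sub x = sub x := by
    have h : (σ * sub x) X = x := by rw [AlgHom.mul_apply, sub_X hm, hσ]
    exact en_ext (h.trans (sub_X hm).symm) (by rwa [h])
  have h2 : ∀ (j : ℕ) (y : D⟦X⟧), σ y = y → (σ ^ j) y = y := by
    intro j y hy
    induction j with
    | zero => rfl
    | succ j ih => rw [pow_succ, AlgHom.mul_apply, hy, ih]
  have h3 : ∀ (j : ℕ) (y : D⟦X⟧), (σ ^ j) (sub x y) = sub x y := fun j y =>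
    h2 j _ (by rw [← AlgHom.mul_apply, h1])
  have hP : (∑ i ∈ range d, Polynomial.monomial i (sub x (g i)) - Polynomial.C f : D⟦X⟧[X]) = 0 := by
    refine Polynomial.eq_zero_of_natDegree_lt_card_of_eval_eq_zero _
      (f := fun j : Fin d => (σ ^ (j : ℕ)) X) (fun i j h => Fin.ext (hinj i i.2 j j.2 h))
      (fun j => ?_) ?_
    · have h4 := h2 j f hf
      rw [hg, map_sum] at h4
      simp only [map_mul, map_pow, h3] at h4
      rw [Polynomial.eval_sub, Polynomial.eval_C, Polynomial.eval_finsetSum, sub_eq_zero, hg, ← h4]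
      simp only [Polynomial.eval_monomial]
    · rw [Fintype.card_fin]
      refine (Polynomial.natDegree_sub_le _ _).trans_lt (max_lt ?_ (by simpa using hd))
      refine lt_of_le_of_lt (Polynomial.natDegree_sum_le_of_forall_le (n := d - 1) _ _
        fun i hi => (Polynomial.natDegree_monomial_le _).trans ?_) (by omega)
      have := mem_range.mp hi
      omega
  have h5 := congrArg (fun P : D⟦X⟧[X] => P.coeff 0) hP
  refine ⟨g 0, sub_eq_zero.mp ?_⟩
  simpa [Polynomial.coeff_monomial, hd] using h5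

end Pool.Agent.MP_deef5c_ag.O

end

section

/-! The operator th and the valuation of Laurent series. -/

open PowerSeries IsLocalRing Finset Function
open scoped Polynomial

namespace Pool.Agent.MP_deef5c_ag.O

universe u

open WithZero

variable {k : Type u} [Field k]

theorem coeff_th (z : LaurentSeries k) (a : ℤ) : (th z).coeff a = (a : k) * z.coeff a := by
  have h : lc k X = HahnSeries.single 1 1 := HahnSeries.ofPowerSeries_X
  rw [th, h, HahnSeries.coeff_single_mul, LaurentSeries.derivative_apply,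
    LaurentSeries.hasseDeriv_coeff]
  simp

theorem th_add (y z : LaurentSeries k) : th (y + z) = th y + th z := by
  simp only [th, map_add, mul_add]

theorem LauA_supp (z : LaurentSeries k) : (th z).support ⊆ z.support := by
  intro a ha
  rw [HahnSeries.mem_support] at ha ⊢
  intro h
  apply ha
  rw [coeff_th, h, mul_zero]

/-- coefficientwise, with `HahnSeries.coeff_mul` -/
theorem th_mul (y z : LaurentSeries k) : th (y * z) = y * th z + z * th y := by
  ext a
  rw [mul_comm z, HahnSeries.coeff_add, coeff_th, HahnSeries.coeff_mul,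
    HahnSeries.coeff_mul_right' z.isPWO_support (LauA_supp z),
    HahnSeries.coeff_mul_left' y.isPWO_support (LauA_supp y), mul_sum, ← sum_add_distrib]
  refine sum_congr rfl fun ij hij => ?_
  have h := (Finset.mem_antidiagonal.mp hij).2.2
  rw [coeff_th, coeff_th, ← h]
  push_cast
  ring

theorem LauA_coeff_nat (f : k⟦X⟧) (n : ℕ) : (lc k f).coeff (n : ℤ) = coeff n f :=
  LaurentSeries.coeff_coe_powerSeries f n

theorem LauA_coeff_neg (f : k⟦X⟧) {a : ℤ} (ha : a < 0) : (lc k f).coeff a = 0 := by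
  have := PowerSeries.coeff_coe f a
  rw [if_pos ha] at this
  exact this

theorem th_lc (f : k⟦X⟧) : th (lc k f) = lc k (X * d⁄dX k f) := by
  ext a
  rw [coeff_th]
  rcases lt_or_ge a 0 with ha | ha
  · rw [LauA_coeff_neg _ ha, LauA_coeff_neg _ ha, mul_zero]
  · obtain ⟨n, rfl⟩ := Int.eq_ofNat_of_zero_le ha
    rw [LauA_coeff_nat, LauA_coeff_nat]
    cases n with
    | zero => simp
    | succ n =>
      rw [coeff_succ_X_mul, coeff_derivative]
      push_cast
      ring

theorem LauA_th_one : th (1 : LaurentSeries k) = 0 := by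
  have h := th_mul (1 : LaurentSeries k) 1
  simp only [one_mul] at h
  linear_combination -h

theorem LauA_th_pow (z : LaurentSeries k) (n : ℕ) :
    th (z ^ (n + 1)) = ((n + 1 : ℕ) : LaurentSeries k) * (z ^ n * th z) := by
  induction n with
  | zero => simp
  | succ n ih =>
    rw [pow_succ, th_mul, ih]
    push_cast
    ring

theorem th_pow_char (p : ℕ) [Fact p.Prime] [CharP k p] (z : LaurentSeries k) : th (z ^ p) = 0 := by
  have hp : p ≠ 0 := (Fact.out : p.Prime).ne_zero
  obtain ⟨n, hn⟩ := Nat.exists_eq_succ_of_ne_zero hp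
  have h := LauA_th_pow z n
  have h2 : ((p : ℕ) : LaurentSeries k) = 0 := by
    rw [← map_natCast (algebraMap k (LaurentSeries k)), CharP.cast_eq_zero, map_zero]
  rw [← Nat.succ_eq_add_one, ← hn, h2, zero_mul] at h
  exact h

theorem vv_lc_le (f : k⟦X⟧) : vv k (lc k f) ≤ 1 :=
  (LaurentSeries.val_le_one_iff_eq_coe k _).mpr ⟨f, rfl⟩

theorem exists_lc_of_le {z : LaurentSeries k} (hz : vv k z ≤ 1) : ∃ f, lc k f = z :=
  (LaurentSeries.val_le_one_iff_eq_coe k _).mp hz

theorem LauA_le_iff {z : LaurentSeries k} {a : ℤ} :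
    vv k z ≤ exp a ↔ ∀ b < -a, z.coeff b = 0 := by
  have := LaurentSeries.valuation_le_iff_coeff_lt_eq_zero k (D := -a) (f := z)
  rwa [neg_neg] at this

theorem LauA_lt_iff {x : WithZero (Multiplicative ℤ)} {a : ℤ} : x < exp a ↔ x ≤ WithZero.exp (a - 1) := by
  by_cases hx : x = 0
  · subst hx
    simp
  · rw [← exp_log hx, exp_lt_exp, exp_le_exp]
    omega

theorem vv_eq_iff {z : LaurentSeries k} {a : ℤ} :
    vv k z = exp a ↔ z.coeff (-a) ≠ 0 ∧ ∀ b < -a, z.coeff b = 0 := by
  constructor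
  · intro h
    have h1 := LauA_le_iff.mp h.le
    refine ⟨fun h0 => ?_, h1⟩
    have h2 : vv k z ≤ WithZero.exp (a - 1) := by
      refine LauA_le_iff.mpr fun b hb => ?_
      rcases lt_or_eq_of_le (show b ≤ -a by omega) with h3 | h3
      · exact h1 b h3
      · rw [h3, h0]
    rw [h, exp_le_exp] at h2
    omega
  · rintro ⟨h0, h1⟩
    refine (LauA_le_iff.mpr h1).eq_or_lt.resolve_right fun h2 => h0 ?_
    exact LauA_le_iff.mp (LauA_lt_iff.mp h2) _ (by omega)

theorem vv_lc_eq {f : k⟦X⟧} {d : ℕ} : vv k (lc k f) = exp (-(d : ℤ)) ↔ order f = d := by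
  rw [vv_eq_iff, neg_neg, order_eq_nat, LauA_coeff_nat]
  refine and_congr_right fun _ => ⟨fun h i hi => ?_, fun h b hb => ?_⟩
  · rw [← LauA_coeff_nat]
    exact h _ (by exact_mod_cast hi)
  · rcases lt_or_ge b 0 with ha | ha
    · exact LauA_coeff_neg _ ha
    · obtain ⟨n, rfl⟩ := Int.eq_ofNat_of_zero_le ha
      rw [LauA_coeff_nat]
      exact h n (by exact_mod_cast hb)

theorem vv_th_le (z : LaurentSeries k) : vv k (th z) ≤ vv k z := by
  by_cases hz : vv k z = 0
  · have : z = 0 := (Valuation.zero_iff _).mp hz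
    subst this
    simp [th]
  · rw [← exp_log hz]
    refine LauA_le_iff.mpr fun b hb => ?_
    rw [coeff_th, LauA_le_iff.mp (exp_log hz).ge b hb, mul_zero]

theorem vv_th_lt {z : LaurentSeries k} (hz : vv k z ≤ 1) : vv k (th z) < 1 := by
  rw [← WithZero.exp_zero] at hz ⊢
  refine LauA_lt_iff.mpr (LauA_le_iff.mpr fun b hb => ?_)
  rw [coeff_th]
  rcases lt_or_eq_of_le (show b ≤ 0 by omega) with h | h
  · rw [LauA_le_iff.mp hz b (by omega), mul_zero]
  · simp [h]

theorem vv_th_eq {z : LaurentSeries k} {a : ℤ} (hz : vv k z = exp a) (ha : (a : k) ≠ 0) :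
    vv k (th z) = exp a := by
  obtain ⟨h0, h1⟩ := vv_eq_iff.mp hz
  refine vv_eq_iff.mpr ⟨?_, fun b hb => ?_⟩
  · rw [coeff_th]
    exact mul_ne_zero (by simpa using ha) h0
  · rw [coeff_th, h1 b hb, mul_zero]

end Pool.Agent.MP_deef5c_ag.O

end

section

/-! Extension of maps to Laurent series. -/

open PowerSeries IsLocalRing Finset Function
open scoped Polynomial

namespace Pool.Agent.MP_deef5c_ag.O

universe u

open WithZero

variable {k : Type u} [Field k]

theorem Lau_ext {B : Type u} [Field B] {f g : LaurentSeries k →+* B}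
    (h : ∀ a, f (lc k a) = g (lc k a)) : f = g :=
  IsLocalization.ringHom_ext (nonZeroDivisors k⟦X⟧) (RingHom.ext h)

theorem Lau_ex (z : LaurentSeries k) : ∃ (n : ℕ) (f : k⟦X⟧), z * lc k X ^ n = lc k f := by
  obtain ⟨⟨f, _, n, rfl⟩, h⟩ := IsLocalization.surj (Submonoid.powers (X : k⟦X⟧)) z
  exact ⟨n, f, by rw [← map_pow]; exact h⟩

theorem Lau_ne {f : k⟦X⟧} (hf : f ≠ 0) : lc k f ≠ 0 :=
  (map_ne_zero_iff _ HahnSeries.ofPowerSeries_injective).2 hf

theorem Lau_inj {φ : En k} {d : ℕ} (hd : 0 < d) (hφ : order (φ X) = d) : Injective φ := by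
  refine (injective_iff_map_eq_zero φ).2 fun f hf => ?_
  have := order_en φ d hd hφ f
  rw [hf, order_zero] at this
  by_contra h
  obtain ⟨n, hn⟩ := ENat.ne_top_iff_exists.1 (mt order_eq_top.1 h)
  rw [← hn, ← Nat.cast_mul] at this
  exact ENat.top_ne_natCast _ this

theorem Lau_cc {x : k⟦X⟧} {d : ℕ} (hd : 0 < d) (hx : order x = d) : constantCoeff x = 0 := by
  rw [← coeff_zero_eq_constantCoeff_apply]
  exact coeff_of_lt_order 0 (by rw [hx]; exact_mod_cast hd)

theorem lext_lc {φ : En k} (hφ : Injective φ) (f : k⟦X⟧) : lext φ (lc k f) = lc k (φ f) := by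
  have h : Injective ((lc k).comp (φ : k⟦X⟧ →+* k⟦X⟧)) :=
    HahnSeries.ofPowerSeries_injective.comp hφ
  rw [lext, dif_pos h]
  exact IsFractionRing.lift_algebraMap h f

theorem lext_mul {φ ψ : En k} (hφ : Injective φ) (hψ : Injective ψ) (z : LaurentSeries k) :
    lext (φ * ψ) z = lext φ (lext ψ z) := by
  have h : lext (φ * ψ) = (lext φ).comp (lext ψ) := Lau_ext fun a => by
    rw [lext_lc (φ := φ * ψ) (hφ.comp hψ), RingHom.comp_apply, lext_lc hψ, lext_lc hφ]
    rfl
  rw [h]
  rfl

theorem lext_one (z : LaurentSeries k) : lext (1 : En k) z = z := by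
  have h : lext (1 : En k) = RingHom.id _ := Lau_ext fun a => lext_lc (φ := 1) injective_id a
  rw [h]
  rfl

theorem lext_pow {φ : En k} (hφ : Injective φ) (i : ℕ) : lext (φ ^ i) = lext φ ^ i := by
  induction i with
  | zero => exact RingHom.ext lext_one
  | succ i ih =>
    refine RingHom.ext fun z => ?_
    rw [pow_succ, pow_succ, lext_mul (by rw [AlgHom.coe_pow]; exact hφ.iterate i) hφ, ih]
    rfl

theorem lext_algebraMap {φ : En k} (hφ : Injective φ) (c : k) :
    lext φ (algebraMap k _ c) = algebraMap k _ c := by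
  have h : algebraMap k (LaurentSeries k) c = lc k (algebraMap k _ c) := by
    rw [LaurentSeries.algebraMap_apply]
    exact (PowerSeries.coe_C c).symm
  rw [h, lext_lc hφ, φ.commutes]

/-- from `order_en` -/
theorem vv_lext {φ : En k} {d : ℕ} (hd : 0 < d) (hφ : order (φ X) = d) (z : LaurentSeries k) :
    vv k (lext φ z) = vv k z ^ d := by
  have h : ∀ f, vv k (lext φ (lc k f)) = vv k (lc k f) ^ d := fun f => by
    rcases eq_or_ne f 0 with rfl | hf
    · simp [hd.ne']
    · obtain ⟨n, hn⟩ := ENat.ne_top_iff_exists.1 (mt order_eq_top.1 hf)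
      rw [lext_lc (Lau_inj hd hφ), vv_lc_eq.2 hn.symm, (vv_lc_eq (d := d * n)).2
        (by rw [order_en φ d hd hφ, ← hn, Nat.cast_mul]), ← exp_nsmul]
      simp
  obtain ⟨n, f, hz⟩ := Lau_ex z
  rw [eq_div_of_mul_eq (pow_ne_zero n (Lau_ne X_ne_zero)) hz, ← map_pow]
  simp only [map_div₀, h, div_pow]

/-- chain rule: `der_en` for power series, then the quotient rule -/
theorem th_lext {φ : En k} {d : ℕ} (hd : 0 < d) (hφ : order (φ X) = d) (z : LaurentSeries k) :
    th (lext φ z) * lc k (φ X) = lext φ (th z) * th (lc k (φ X)) := by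
  have hi := Lau_inj hd hφ
  have h : ∀ f, th (lext φ (lc k f)) * lc k (φ X) = lext φ (th (lc k f)) * th (lc k (φ X)) :=
    fun f => by
      rw [lext_lc hi, th_lc, th_lc, th_lc, lext_lc hi, der_en φ (by simp [Lau_cc hd hφ])]
      simp only [map_mul]
      ring
  obtain ⟨n, f, hz⟩ := Lau_ex z
  rw [← map_pow] at hz
  have h1 := h f
  rw [← hz, map_mul, th_mul, th_mul, map_add, map_mul, map_mul] at h1
  refine mul_left_cancel₀ ((map_ne_zero (lext φ)).2 (Lau_ne (pow_ne_zero n X_ne_zero))) ?_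
  linear_combination h1 - lext φ z * h (X ^ n)

theorem lmap_lc {Ω : Type u} [Field Ω] (φ : k →+* Ω) (f : k⟦X⟧) :
    lmap φ (lc k f) = lc Ω (PowerSeries.map φ f) := by
  exact IsFractionRing.lift_algebraMap (lmap_inj φ) f

theorem coeff_lmap {Ω : Type u} [Field Ω] (φ : k →+* Ω) (z : LaurentSeries k) (a : ℤ) :
    (lmap φ z).coeff a = φ (z.coeff a) := by
  obtain ⟨n, f, hz⟩ := Lau_ex z
  have h1 := congrArg (lmap φ) hz
  rw [map_mul, map_pow, lmap_lc, lmap_lc, map_X] at h1
  have h2 := congrArg (fun y => y.coeff (a + n)) hz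
  have h3 := congrArg (fun y => y.coeff (a + n)) h1
  simp only [HahnSeries.ofPowerSeries_X, HahnSeries.single_pow, one_pow, nsmul_eq_mul, mul_one,
    HahnSeries.coeff_mul_single_add, PowerSeries.coeff_coe] at h2 h3
  rw [h2, h3]
  split_ifs <;> simp

theorem vv_lmap {Ω : Type u} [Field Ω] (φ : k →+* Ω) (z : LaurentSeries k) :
    vv Ω (lmap φ z) = vv k z := by
  rcases eq_or_ne z 0 with rfl | hz
  · simp
  · have h := (exp_log ((map_ne_zero (vv k)).2 hz)).symm
    rw [h, vv_eq_iff]
    simpa only [coeff_lmap, ne_eq, _root_.map_eq_zero] using vv_eq_iff.1 h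

theorem th_lmap {Ω : Type u} [Field Ω] (φ : k →+* Ω) (z : LaurentSeries k) :
    th (lmap φ z) = lmap φ (th z) := by
  ext a
  rw [coeff_th, coeff_lmap, coeff_lmap, coeff_th, map_mul, map_intCast]

/-- invariant Laurent series: clear denominators with a power of `x` and use `qinv` -/
theorem linv (x : k⟦X⟧) (d : ℕ) (hd : 0 < d) (hx : order x = d) (σ : En k) (hi : Injective σ)
    (hσ : σ x = x) (hinj : ∀ i < d, ∀ j < d, (σ ^ i) X = (σ ^ j) X → i = j)
    (z : LaurentSeries k) (hz : lext σ z = z) : ∃ y, lext (sub x) y = z := by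
  have h0 := Lau_cc hd hx
  have hx' : order (PowerSeries.map (RingHom.id k) x) = d := by simpa using hx
  have hs := sub_injective (RingHom.id k) surjective_id x d hd hx'
  obtain ⟨w, hw⟩ := X_dvd_iff.2 h0
  obtain ⟨n, f, h1⟩ := Lau_ex z
  have h2 : z * lc k x ^ n = lc k (f * w ^ n) := by
    rw [hw, map_mul, mul_pow, ← mul_assoc, h1, map_mul, map_pow]
  obtain ⟨g, hg⟩ := qinv (RingHom.id k) surjective_id x d hd hx' σ hσ hinj (f * w ^ n)
    (HahnSeries.ofPowerSeries_injective (Γ := ℤ) (by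
      rw [← lext_lc hi, ← h2, map_mul, map_pow, hz, lext_lc hi, hσ]))
  have h3 : x ≠ 0 := fun h => by simp [h] at hx
  refine ⟨lc k g / lc k X ^ n, ?_⟩
  rw [map_div₀, map_pow, lext_lc hs, lext_lc hs, sub_X (by simp [h0]), hg, ← h2,
    mul_div_cancel_right₀ _ (pow_ne_zero n (Lau_ne h3))]

end Pool.Agent.MP_deef5c_ag.O

end

section

/-! Artin-Schreier reduction of Laurent series. -/

open PowerSeries IsLocalRing Finset Function
open scoped Polynomial

namespace Pool.Agent.MP_deef5c_ag.O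

universe u

open WithZero

variable (p : ℕ) [Fact p.Prime] {k : Type u} [Field k] [CharP k p]

theorem AsrPow [IsAlgClosed k] (g : k⟦X⟧) : ∃ u : k⟦X⟧, g = u ^ p - u := by
  have hp : 1 < p := (Fact.out : p.Prime).one_lt
  have : CharP k⟦X⟧ p := charP_of_injective_algebraMap (algebraMap k k⟦X⟧).injective p
  have hd : ∀ {R : Type u} [CommRing R] [Nontrivial R] (c : R),
      (Polynomial.X + Polynomial.C c : R[X]).degree < (p : ℕ) := fun c => by
    rw [Polynomial.degree_X_add_C]
    exact_mod_cast hp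
  obtain ⟨c, hc⟩ := IsAlgClosed.exists_root
    (Polynomial.X ^ p - (Polynomial.X + Polynomial.C (constantCoeff g)) : k[X]) (by
      rw [Polynomial.degree_sub_eq_left_of_degree_lt (by
        rw [Polynomial.degree_X_pow]; exact hd _), Polynomial.degree_X_pow]
      exact_mod_cast (by omega : p ≠ 0))
  obtain ⟨u, hu, -⟩ := HenselianRing.is_henselian (I := Ideal.span {(X : k⟦X⟧)})
    (Polynomial.X ^ p - (Polynomial.X + Polynomial.C g)) (Polynomial.monic_X_pow_sub (hd g)) (C c)
    (by
      rw [Ideal.mem_span_singleton, X_dvd_iff]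
      simpa using hc)
    (by simp [Polynomial.derivative_X_pow])
  refine ⟨u, ?_⟩
  simp only [Polynomial.IsRoot.def, Polynomial.eval_sub, Polynomial.eval_pow, Polynomial.eval_X,
    Polynomial.eval_add, Polynomial.eval_C] at hu
  linear_combination -hu

omit [Fact p.Prime] [CharP k p] in
theorem AsrMon (n : ℕ) (c : k) : Polynomial.aeval (lc k X)⁻¹ (Polynomial.monomial n c) =
    HahnSeries.single (-(n : ℤ)) c := by
  rw [Polynomial.aeval_monomial, HahnSeries.ofPowerSeries_X, HahnSeries.inv_single,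
    HahnSeries.single_pow, LaurentSeries.algebraMap_apply, HahnSeries.C_apply,
    HahnSeries.single_mul_single]
  simp

theorem AsrInd [IsAlgClosed k] (N : ℕ) : ∀ z : LaurentSeries k,
    (∀ n < -(N : ℤ), z.coeff n = 0) → ∃ (r : k[X]) (u : LaurentSeries k), Red p r ∧
      z = Polynomial.aeval (lc k X)⁻¹ r + (u ^ p - u) := by
  have hp : 1 < p := (Fact.out : p.Prime).one_lt
  have : CharP (LaurentSeries k) p :=
    charP_of_injective_algebraMap (algebraMap k (LaurentSeries k)).injective p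
  induction N with
  | zero =>
    intro z hz
    obtain ⟨g, rfl⟩ := exists_lc_of_le (z := z) (by
      simpa using (LaurentSeries.valuation_le_iff_coeff_lt_eq_zero k (D := 0)).2
        (by simpa using hz))
    obtain ⟨u, rfl⟩ := AsrPow p g
    exact ⟨0, lc k u, fun _ _ => rfl, by simp⟩
  | succ N ih =>
    intro z hz
    set c := z.coeff (-((N + 1 : ℕ) : ℤ)) with hc
    have h1 : ∀ n < -(N : ℤ), (z - HahnSeries.single (-((N + 1 : ℕ) : ℤ)) c).coeff n = 0 := by
      intro n hn
      rw [HahnSeries.coeff_sub, HahnSeries.coeff_single]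
      split_ifs with h
      · rw [h, sub_self]
      · rw [hz n (by omega), sub_zero]
    by_cases h : p ∣ N + 1
    · obtain ⟨j, hj⟩ := h
      obtain ⟨d, hd⟩ := IsAlgClosed.exists_pow_nat_eq c (n := p) (by omega)
      have hjN : j ≤ N := by
        rcases j with _ | j
        · omega
        · nlinarith
      obtain ⟨r, u, hr, e⟩ := ih (z - HahnSeries.single (-((N + 1 : ℕ) : ℤ)) c +
        HahnSeries.single (-(j : ℤ)) d) fun n hn => by
          rw [HahnSeries.coeff_add, h1 n hn, HahnSeries.coeff_single_of_ne (by omega), add_zero]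
      refine ⟨r, u + HahnSeries.single (-(j : ℤ)) d, hr, ?_⟩
      have e2 : (HahnSeries.single (-(j : ℤ)) d : LaurentSeries k) ^ p =
          HahnSeries.single (-((N + 1 : ℕ) : ℤ)) c := by
        rw [HahnSeries.single_pow, hd, hj]
        simp
      rw [add_pow_char, e2]
      linear_combination e
    · obtain ⟨r, u, hr, e⟩ := ih _ h1
      refine ⟨r + Polynomial.monomial (N + 1) c, u, fun j hj => ?_, ?_⟩
      · rw [Polynomial.coeff_add, hr j hj, Polynomial.coeff_monomial, if_neg, add_zero]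
        rintro rfl
        exact h hj
      · rw [map_add, AsrMon]
        linear_combination e

/-- A power series is `u^p - u` (constant term: `k` algebraically closed; rest: Hensel or
`u = - ∑ g^(p^i)`).  Induction on the pole order: a leading term `c X^(-p j)` is replaced by
`c^(1/p) X^(-j)`, a leading term of order prime to `p` goes to `r`. -/
theorem asr [IsAlgClosed k] (z : LaurentSeries k) :
    ∃ (r : k[X]) (u : LaurentSeries k), Red p r ∧
      z = Polynomial.aeval (lc k X)⁻¹ r + (u ^ p - u) :=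
  AsrInd p (-z.order).toNat z fun _ hn => HahnSeries.coeff_eq_zero_of_lt_order (by omega)

omit [Fact p.Prime] [CharP k p] in
theorem AsrThC (c : k) : th (algebraMap k (LaurentSeries k) c) = 0 := by
  ext a
  rw [coeff_th, LaurentSeries.algebraMap_apply, HahnSeries.C_apply, HahnSeries.coeff_single]
  split_ifs with h <;> simp [h]

omit [Fact p.Prime] [CharP k p] in
theorem AsrTh (y : LaurentSeries k) (r : k[X]) :
    th (Polynomial.aeval y r) = Polynomial.aeval y r.derivative * th y := by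
  induction r using Polynomial.induction_on with
  | C c => simp [AsrThC]
  | add r s hr hs => rw [map_add, th_add, hr, hs, map_add, map_add, add_mul]
  | monomial n c ih =>
    rw [pow_succ, ← mul_assoc]
    generalize Polynomial.C c * Polynomial.X ^ n = s at ih
    rw [map_mul, th_mul, ih, Polynomial.derivative_mul]
    simp only [Polynomial.aeval_X, map_add, map_mul, Polynomial.derivative_X, mul_one]
    ring

/-- valuation of a reduced polynomial in `1/x` and of its image under `th` -/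
theorem vv_red (x : k⟦X⟧) (q κ : ℕ) (hq : 0 < q) (hx : order x = q)
    (hκ : order (d⁄dX k x) + 1 = ((κ + q : ℕ) : ℕ∞)) (r : k[X]) (hr : Red p r) (h0 : r ≠ 0) :
    ¬ p ∣ r.natDegree ∧
    vv k (Polynomial.aeval (lc k x)⁻¹ r) = exp ((q * r.natDegree : ℕ) : ℤ) ∧
    vv k (th (Polynomial.aeval (lc k x)⁻¹ r)) = exp (((q * r.natDegree : ℕ) : ℤ) - κ) := by
  have : (vv k).IsTrivialOn k := ⟨fun c hc => by
    rw [LaurentSeries.algebraMap_apply, ← HahnSeries.ofPowerSeries_C (Γ := ℤ)]
    exact (vv_lc_eq (d := 0)).2 (order_eq_nat.2 ⟨by simpa using hc, by simp⟩)⟩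
  have hn : ¬ p ∣ r.natDegree := fun h => Polynomial.leadingCoeff_ne_zero.2 h0 (hr _ h)
  have h1 : vv k (lc k x) = exp (-(q : ℤ)) := vv_lc_eq.2 hx
  have h2 : vv k (lc k x)⁻¹ = exp (q : ℤ) := by rw [map_inv₀, h1, ← exp_neg, neg_neg]
  have h3 : 1 < vv k (lc k x)⁻¹ := by
    rw [h2, ← exp_zero, exp_lt_exp]
    omega
  have h4 : ∀ s : k[X], s ≠ 0 →
      vv k (Polynomial.aeval (lc k x)⁻¹ s) = exp ((q * s.natDegree : ℕ) : ℤ) := fun s hs => by
    rw [Polynomial.valuation_aeval_eq_valuation_X_pow_natDegree_of_one_lt_valuation_X _ h3 hs, h2,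
      ← exp_nsmul]
    simp [mul_comm]
  refine ⟨hn, h4 r h0, ?_⟩
  obtain ⟨m, hm⟩ : ∃ m, r.natDegree = m + 1 :=
    Nat.exists_eq_succ_of_ne_zero fun h => hn (h ▸ dvd_zero p)
  have h5 : r.derivative.coeff m ≠ 0 := by
    rw [Polynomial.coeff_derivative, ← Nat.cast_succ, Nat.succ_eq_add_one, ← hm]
    exact mul_ne_zero (Polynomial.leadingCoeff_ne_zero.2 h0)
      fun h => hn ((CharP.cast_eq_zero_iff k p _).1 h)
  have h6 : r.derivative.natDegree = m :=
    le_antisymm ((Polynomial.natDegree_derivative_le r).trans (by omega))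
      (Polynomial.le_natDegree_of_ne_zero h5)
  have hx0 : lc k x ≠ 0 := fun h => by
    rw [h, map_zero] at h1
    exact exp_ne_zero h1.symm
  have h7 : th (lc k x)⁻¹ = -((lc k x)⁻¹ ^ 2 * lc k (X * d⁄dX k x)) := by
    have e := th_mul (lc k x) (lc k x)⁻¹
    have e1 := AsrThC (1 : k)
    rw [map_one] at e1
    rw [mul_inv_cancel₀ hx0, e1, th_lc] at e
    field_simp at e ⊢
    linear_combination -e
  have h8 : vv k (lc k (X * d⁄dX k x)) = exp (-((κ + q : ℕ) : ℤ)) :=
    vv_lc_eq.2 (by rw [order_mul, order_X, add_comm, hκ])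
  rw [AsrTh, map_mul, h4 _ fun h => h5 (by rw [h, Polynomial.coeff_zero]), h7, Valuation.map_neg,
    map_mul, map_pow, h2, h8, h6, hm, ← exp_nsmul, ← exp_add, ← exp_add]
  congr 1
  push_cast
  ring

end Pool.Agent.MP_deef5c_ag.O

end

section

/-! Interpolation and Hilbert 90. -/

open PowerSeries IsLocalRing Finset Function
open scoped Polynomial

namespace Pool.Agent.MP_deef5c_ag.O

universe u

namespace Abs.Aux

theorem sum_shift {M : Type u} [AddCommGroup M] (f : ℕ → M) (q : ℕ) (h : f q = f 0) :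
    ∑ i ∈ range q, f (i + 1) = ∑ i ∈ range q, f i := by
  have h1 := Finset.sum_range_succ f q
  have h2 := Finset.sum_range_succ' f q
  rw [h1, h] at h2
  exact (add_right_cancel h2).symm

theorem pow_succ_apply {A : Type u} [CommRing A] (σ : A →+* A) (i : ℕ) (a : A) :
    (σ ^ (i + 1)) a = σ ((σ ^ i) a) := by
  rw [pow_succ']
  rfl

theorem pow_add_apply {A : Type u} [CommRing A] (σ : A →+* A) (i j : ℕ) (a : A) :
    (σ ^ (i + j)) a = (σ ^ i) ((σ ^ j) a) := by
  rw [pow_add]
  rfl

theorem pow_fix {A : Type u} [CommRing A] (σ : A →+* A) {a : A} (h : σ a = a) (i : ℕ) :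
    (σ ^ i) a = a := by
  induction i with
  | zero => rfl
  | succ i ih => rw [pow_succ_apply, ih, h]

theorem pow_shift {A : Type u} [CommRing A] (σ : A →+* A) {Y e : A} (he : σ e = e)
    (hY : σ Y = Y + e) (i : ℕ) : (σ ^ i) Y = Y + (i : A) * e := by
  induction i with
  | zero => simp
  | succ i ih =>
    rw [pow_succ_apply, ih, map_add, map_mul, map_natCast, hY, he]
    push_cast
    ring

theorem prod_reindex {A : Type u} [CommRing A] (σ : A →+* A) (q : ℕ) (hσ : σ ^ q = 1) (t : A)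
    (i : ℕ) (hi : i < q) :
    ∏ j ∈ Ico 1 q, ((σ ^ i) t - (σ ^ (i + j)) t) =
      ∏ j ∈ (range q).erase i, ((σ ^ i) t - (σ ^ j) t) := by
  refine Finset.prod_nbij' (fun j => if i + j < q then i + j else i + j - q)
    (fun j => if i < j then j - i else j + q - i) ?_ ?_ ?_ ?_ ?_
  · intro j hj
    simp only [mem_Ico, mem_erase, mem_range] at hj ⊢
    split_ifs <;> omega
  · intro j hj
    simp only [mem_Ico, mem_erase, mem_range] at hj ⊢
    split_ifs <;> omega
  · intro j hj
    simp only [mem_Ico] at hj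
    split_ifs <;> omega
  · intro j hj
    simp only [mem_erase, mem_range] at hj
    split_ifs <;> omega
  · intro j hj
    simp only [mem_Ico] at hj
    split_ifs with h
    · rfl
    · have : i + j = (i + j - q) + q := by omega
      conv_lhs => rw [this, pow_add, hσ, mul_one]

end Abs.Aux

open Abs.Aux

/-- Lagrange interpolation: `a = c * ∑_j ρ^j z * ∏_{j' ≠ j} (T - Y - j' e)` over `j, j' < p`, where `c`
is an integer inverse mod `p` to `∏_{0<j'<p} (-j')`; `ρ` permutes the summands cyclically. -/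
theorem interp (p : ℕ) [Fact p.Prime] {A : Type u} [CommRing A] [CharP A p] (ρ : A →+* A)
    (hρ : ∀ a, (ρ ^ p) a = a) (Y e : A) (he : ρ e = e) (hY : ρ Y = Y + e) (z : A) :
    ∃ a : A[X], a.natDegree < p ∧ a.map ρ = a ∧ a.eval Y = e ^ (p - 1) * z := by
  classical
  have hp : p.Prime := Fact.out
  let φ : ZMod p →+* A := ZMod.castHom (dvd_refl p) A
  let S : Finset (ZMod p) := univ.erase 0
  have hS : S.card = p - 1 := by
    simp only [S]
    rw [Finset.card_erase_of_mem (mem_univ _), Finset.card_univ, ZMod.card]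
  let u : ZMod p := ∏ j ∈ S, (-j)
  have hu : u ≠ 0 := by
    refine Finset.prod_ne_zero_iff.2 fun j hj => ?_
    exact neg_ne_zero.2 (Finset.ne_of_mem_erase hj)
  let b : A[X] := Polynomial.C (φ u⁻¹ * z) *
    ∏ j ∈ S, (Polynomial.X - Polynomial.C (Y + φ j * e))
  have hφ : ∀ (ψ : A →+* A) (j : ZMod p), ψ (φ j) = φ j := fun ψ j =>
    RingHom.congr_fun (RingHom.ext_zmod (ψ.comp φ) φ) j
  have hb : b.natDegree < p := by
    have h1 : (∏ j ∈ S, (Polynomial.X - Polynomial.C (Y + φ j * e))).natDegree ≤ p - 1 := by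
      refine (Polynomial.natDegree_prod_le _ _).trans ?_
      refine (Finset.sum_le_card_nsmul _ _ 1 fun j _ => ?_).trans ?_
      · exact Polynomial.natDegree_X_sub_C_le _
      · simp [hS]
    have h2 := (Polynomial.natDegree_C_mul_le (φ u⁻¹ * z) _).trans h1
    have := hp.pos
    simp only [b]
    omega
  refine ⟨∑ i ∈ range p, b.map (ρ ^ i : A →+* A), ?_, ?_, ?_⟩
  · have : (∑ i ∈ range p, b.map (ρ ^ i : A →+* A)).natDegree ≤ p - 1 := by
      refine Polynomial.natDegree_sum_le_of_forall_le _ _ fun i _ => ?_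
      have := Polynomial.natDegree_map_le (p := b) (f := (ρ ^ i : A →+* A))
      omega
    have := hp.pos
    omega
  · rw [Polynomial.map_sum]
    have h1 : ∀ i : ℕ, (b.map (ρ ^ i : A →+* A)).map ρ = b.map (ρ ^ (i + 1) : A →+* A) := by
      intro i
      rw [Polynomial.map_map, pow_succ']
      rfl
    simp only [h1]
    refine sum_shift (fun i => b.map (ρ ^ i : A →+* A)) p ?_
    have : (ρ ^ p : A →+* A) = ρ ^ 0 := RingHom.ext fun a => hρ a
    simp only [this]
  · rw [Polynomial.eval_finsetSum, Finset.sum_eq_single 0]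
    · have h0 : (ρ ^ 0 : A →+* A) = RingHom.id A := rfl
      rw [h0, Polynomial.map_id]
      simp only [b, Polynomial.eval_mul, Polynomial.eval_C, Polynomial.eval_prod,
        Polynomial.eval_sub, Polynomial.eval_X]
      have h1 : ∀ j ∈ S, Y - (Y + φ j * e) = φ (-j) * e := by
        intro j _
        rw [map_neg]
        ring
      rw [Finset.prod_congr rfl h1, Finset.prod_mul_distrib, ← map_prod, Finset.prod_const, hS]
      have h2 : φ u⁻¹ * φ u = 1 := by rw [← map_mul, inv_mul_cancel₀ hu, map_one]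
      change φ u⁻¹ * z * (φ u * e ^ (p - 1)) = _
      linear_combination (z * e ^ (p - 1)) * h2
    · intro i hi hi0
      have hip : i < p := mem_range.1 hi
      have hne : (-(i : ZMod p)) ∈ S := by
        refine Finset.mem_erase.2 ⟨neg_ne_zero.2 ?_, mem_univ _⟩
        rw [Ne, ZMod.natCast_eq_zero_iff]
        exact fun h => hi0 (Nat.eq_zero_of_dvd_of_lt h hip)
      simp only [b, Polynomial.map_mul, Polynomial.map_prod, Polynomial.eval_mul,
        Polynomial.eval_prod]
      rw [Finset.prod_eq_zero hne, mul_zero]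
      simp only [Polynomial.map_sub, Polynomial.map_X, Polynomial.map_C, Polynomial.eval_sub,
        Polynomial.eval_X, Polynomial.eval_C]
      rw [map_add, map_mul, hφ, pow_shift ρ he hY, pow_fix ρ he, map_neg, map_natCast]
      ring
    · intro h
      exact absurd (mem_range.2 hp.pos) h

/-- additive Hilbert 90: `Y = - ∑_{i<q} (∑_{a<i} σ^a w) σ^i Θ` -/
theorem h90 {A : Type u} [CommRing A] (σ : A →+* A) (q : ℕ) (hσ : ∀ a, (σ ^ q) a = a)
    (Θ Δ w : A) (hΘ : ∑ i ∈ range q, (σ ^ i) Θ = Δ) (hw : ∑ i ∈ range q, (σ ^ i) w = 0) :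
    ∃ Y, σ Y - Y = Δ * w := by
  let T : ℕ → A := fun i => ∑ a ∈ range i, (σ ^ a) w
  have hT : ∀ i, σ (T i) = T (i + 1) - w := by
    intro i
    simp only [T]
    rw [Finset.sum_range_succ', map_sum]
    simp only [pow_succ_apply]
    have : (σ ^ 0) w = w := rfl
    rw [this, add_sub_cancel_right]
  refine ⟨-∑ i ∈ range q, T i * (σ ^ i) Θ, ?_⟩
  rw [map_neg, map_sum]
  have h1 : ∀ i ∈ range q, σ (T i * (σ ^ i) Θ) =
      T (i + 1) * (σ ^ (i + 1)) Θ - (σ ^ (i + 1)) Θ * w := by
    intro i _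
    rw [map_mul, hT, pow_succ_apply]
    ring
  rw [Finset.sum_congr rfl h1, Finset.sum_sub_distrib, ← Finset.sum_mul,
    sum_shift (fun i => T i * (σ ^ i) Θ) q, sum_shift (fun i => (σ ^ i) Θ) q, hΘ]
  · ring
  · exact hσ Θ
  · have h2 : T q = 0 := hw
    have h3 : T 0 = 0 := by simp [T]
    simp only [h2, h3, zero_mul]

/-- the identity `∑_i t_i^(q-1) / ∏_{j ≠ i} (t_i - t_j) = 1` (`Lagrange.coeff_eq_sum` in the
fraction field) for `t_i = σ^i t`, with `Θ = t^(q-1) Ξ` where `Δ = Ξ ∏_{0<j<q} (t - σ^j t)` -/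
theorem exists_trace {A : Type u} [CommRing A] [IsDomain A] (σ : A →+* A) (q : ℕ) (hq : 0 < q)
    (hσ : ∀ a, (σ ^ q) a = a) (t : A) (hinj : ∀ i < q, ∀ j < q, (σ ^ i) t = (σ ^ j) t → i = j)
    (Δ : A) (hΔ : σ Δ = Δ) (hdvd : ∏ j ∈ Ico 1 q, (t - (σ ^ j) t) ∣ Δ) :
    ∃ Θ, ∑ i ∈ range q, (σ ^ i) Θ = Δ := by
  classical
  obtain ⟨Ξ, hΞ⟩ := hdvd
  have hσ1 : σ ^ q = 1 := RingHom.ext fun a => hσ a
  refine ⟨t ^ (q - 1) * Ξ, ?_⟩
  let K := FractionRing A
  let ι : A →+* K := algebraMap A K
  have hι : Injective ι := IsFractionRing.injective A K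
  let v : ℕ → K := fun i => ι ((σ ^ i) t)
  have hv : Set.InjOn v (range q : Finset ℕ) := by
    intro i hi j hj h
    exact hinj i (by simpa using hi) j (by simpa using hj) (hι h)
  have hdeg : ((Polynomial.X : K[X]) ^ (q - 1)).degree < ((range q).card : ℕ) := by
    rw [Polynomial.degree_X_pow, card_range]
    exact_mod_cast Nat.sub_lt hq one_pos
  have hL := Lagrange.coeff_eq_sum hv hdeg
  rw [card_range, Polynomial.coeff_X_pow_self] at hL
  apply hι
  rw [map_sum, ← mul_one (ι Δ), hL, Finset.mul_sum]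
  refine Finset.sum_congr rfl fun i hi => ?_
  have hiq : i < q := mem_range.1 hi
  have h1 : Δ = (∏ j ∈ (range q).erase i, ((σ ^ i) t - (σ ^ j) t)) * (σ ^ i) Ξ := by
    rw [← prod_reindex σ q hσ1 t i hiq]
    conv_lhs => rw [← pow_fix σ hΔ i, hΞ, map_mul, map_prod]
    simp only [map_sub, pow_add_apply]
  have h2 : ∏ j ∈ (range q).erase i, (v i - v j) ≠ 0 := by
    refine Finset.prod_ne_zero_iff.2 fun j hj => sub_ne_zero.2 fun h => ?_
    have hj' := Finset.mem_erase.1 hj
    exact hj'.1 (hv (by simpa using hi) (by simpa using hj'.2) h).symm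
  have h3 : ι Δ = (∏ j ∈ (range q).erase i, (v i - v j)) * ι ((σ ^ i) Ξ) := by
    conv_lhs => rw [h1, map_mul, map_prod]
    simp only [map_sub, v]
  have h4 : ι ((σ ^ i) (t ^ (q - 1) * Ξ)) = v i ^ (q - 1) * ι ((σ ^ i) Ξ) := by
    rw [map_mul, map_mul, map_pow, map_pow]
  rw [h3, h4, Polynomial.eval_pow, Polynomial.eval_X]
  generalize ∏ j ∈ (range q).erase i, (v i - v j) = P at h2
  rw [mul_comm P, mul_assoc, mul_div_cancel₀ _ h2, mul_comm]

end Pool.Agent.MP_deef5c_ag.O

end

section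

/-! Witt vector addition modulo powers of Verschiebung. -/

open PowerSeries IsLocalRing Finset Function
open scoped Polynomial

namespace Pool.Agent.MP_deef5c_ag.O

universe u

open WittVector

variable (p : ℕ) [Fact p.Prime]

omit [Fact p.Prime] in
theorem Wv1_init {R : Type u} [CommRing R] (a : WittVector p R) (i j : ℕ) :
    (init i a).coeff j = if j < i then a.coeff j else 0 := by
  simp only [init, select, coeff_mk]
  congr

omit [Fact p.Prime] in
theorem Wv1_tail {R : Type u} [CommRing R] (a : WittVector p R) (i j : ℕ) :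
    (tail i a).coeff j = if i ≤ j then a.coeff j else 0 := by
  simp only [tail, select, coeff_mk]
  congr

theorem Wv1_low {R : Type u} [CommRing R] {a z : WittVector p R} {i : ℕ}
    (ha : ∀ j < i, a.coeff j = 0) (hz : ∀ j < i, z.coeff j = 0) :
    (∀ j < i, (a + z).coeff j = 0) ∧ (a + z).coeff i = a.coeff i + z.coeff i := by
  have e : a + z = verschiebung^[i] (a.shift i + z.shift i) := by
    rw [iterate_map_add, ← eq_iterate_verschiebung ha, ← eq_iterate_verschiebung hz]
  refine ⟨fun j hj => e ▸ iterate_verschiebung_coeff_eq_zero _ hj, ?_⟩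
  have := iterate_verschiebung_coeff (a.shift i + z.shift i) i 0
  rwa [zero_add, ← e, add_coeff_zero] at this

/-- `a = init i a + tail i a`, the tail and `z` are `V^i` of something, use `coeff_add_of_disjoint` -/
theorem wv_add {R : Type u} [CommRing R] (a z : WittVector p R) (i : ℕ)
    (hz : ∀ j < i, z.coeff j = 0) :
    (∀ j < i, (a + z).coeff j = a.coeff j) ∧ (a + z).coeff i = a.coeff i + z.coeff i := by
  obtain ⟨h1, h2⟩ := Wv1_low p (a := tail i a) (fun j hj => by rw [Wv1_tail, if_neg hj.not_ge]) hz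
  have e : ∀ j, (a + z).coeff j = (init i a).coeff j + (tail i a + z).coeff j := fun j => by
    rw [← coeff_add_of_disjoint _ _ _ fun n => (lt_or_ge n i).symm.imp
      (fun h => by rw [Wv1_init, if_neg h.not_gt]) (h1 n), ← add_assoc, init_add_tail]
  refine ⟨fun j hj => ?_, ?_⟩
  · rw [e, h1 j hj, Wv1_init, if_pos hj, add_zero]
  · rw [e, h2, Wv1_init, if_neg (lt_irrefl i), Wv1_tail, if_pos le_rfl, zero_add]

theorem wv_add_init {R : Type u} [CommRing R] (a b : WittVector p R) (i : ℕ) :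
    (a + b).coeff i = (init i a + init i b).coeff i + a.coeff i + b.coeff i := by
  obtain ⟨h1, h2⟩ := Wv1_low p (a := tail i a) (z := tail i b) (i := i)
    (fun j hj => by rw [Wv1_tail, if_neg hj.not_ge]) fun j hj => by rw [Wv1_tail, if_neg hj.not_ge]
  rw [add_assoc, ← if_pos (c := i ≤ i) le_rfl (t := a.coeff i) (e := 0), ← Wv1_tail,
    ← if_pos (c := i ≤ i) le_rfl (t := b.coeff i) (e := 0), ← Wv1_tail, ← h2,
    ← (wv_add p _ _ i h1).2, add_add_add_comm, init_add_tail, init_add_tail]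

/-- congruence modulo `V^i` is compatible with addition -/
theorem wv_congr {R : Type u} [CommRing R] {a a' b b' : WittVector p R} {i : ℕ}
    (ha : ∀ j < i, a.coeff j = a'.coeff j) (hb : ∀ j < i, b.coeff j = b'.coeff j) :
    ∀ j < i, (a + b).coeff j = (a' + b').coeff j := by
  have h : ∀ x y : WittVector p R, (∀ j < i, x.coeff j = y.coeff j) ↔
      WittVector.truncate i x = WittVector.truncate i y := fun x y =>
    ⟨fun h => TruncatedWittVector.ext fun j => by simpa using h j j.2,
      fun h j hj => by simpa using congrArg (TruncatedWittVector.coeff ⟨j, hj⟩) h⟩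
  rw [h] at ha hb ⊢
  rw [map_add, map_add, ha, hb]

end Pool.Agent.MP_deef5c_ag.O

end

section

/-! A valuation bound for Witt vector addition. -/

open PowerSeries IsLocalRing Finset Function
open scoped Polynomial

namespace Pool.Agent.MP_deef5c_ag.O

universe u

open WittVector

variable (p : ℕ) [Fact p.Prime]

/-- multiply the `j`-th coefficient by `γ^(p^j)` -/
def Wv2sc {R : Type*} [CommRing R] (γ : R) (x : WittVector p R) : WittVector p R :=
  WittVector.mk p fun j => γ ^ p ^ j * x.coeff j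

omit [Fact p.Prime] in
theorem Wv2sc_coeff {R : Type*} [CommRing R] (γ : R) (x : WittVector p R) (j : ℕ) :
    (Wv2sc p γ x).coeff j = γ ^ p ^ j * x.coeff j := rfl

theorem Wv2sc_map {R S : Type*} [CommRing R] [CommRing S] (f : R →+* S) (γ : R)
    (x : WittVector p R) :
    WittVector.map f (Wv2sc p γ x) = Wv2sc p (f γ) (WittVector.map f x) := by
  ext j
  simp only [WittVector.map_coeff, Wv2sc_coeff, map_mul, map_pow]

theorem Wv2sc_ghost {R : Type*} [CommRing R] (γ : R) (x : WittVector p R) (n : ℕ) :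
    ghostComponent n (Wv2sc p γ x) = γ ^ p ^ n * ghostComponent n x := by
  rw [ghostComponent_apply, ghostComponent_apply, aeval_wittPolynomial, aeval_wittPolynomial,
    Finset.mul_sum]
  refine Finset.sum_congr rfl fun i hi => ?_
  have hi' : i + (n - i) = n := by
    have := Finset.mem_range.1 hi
    omega
  rw [Wv2sc_coeff, mul_pow, ← pow_mul, ← pow_add, hi']
  ring

theorem Wv2sc_add_rat {R : Type*} (γ : MvPolynomial R ℚ) (x y : WittVector p (MvPolynomial R ℚ)) :
    Wv2sc p γ (x + y) = Wv2sc p γ x + Wv2sc p γ y := by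
  apply (ghostMap.bijective_of_invertible p (MvPolynomial R ℚ)).1
  rw [map_add]
  ext1 n
  simp only [Pi.add_apply, ghostMap_apply, Wv2sc_ghost, map_add, mul_add]

theorem Wv2sc_add_int {R : Type*} (γ : MvPolynomial R ℤ) (x y : WittVector p (MvPolynomial R ℤ)) :
    Wv2sc p γ (x + y) = Wv2sc p γ x + Wv2sc p γ y := by
  refine WittVector.map_injective (MvPolynomial.map (Int.castRingHom ℚ))
    (MvPolynomial.map_injective _ Int.cast_injective) ?_
  simp only [Wv2sc_map, map_add, Wv2sc_add_rat]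

theorem Wv2sc_add {R : Type*} [CommRing R] (γ : R) (x y : WittVector p R) :
    Wv2sc p γ (x + y) = Wv2sc p γ x + Wv2sc p γ y := by
  obtain ⟨γ, rfl⟩ := MvPolynomial.counit_surjective R γ
  obtain ⟨x, rfl⟩ := WittVector.map_surjective (p := p) (MvPolynomial.counit R)
    (MvPolynomial.counit_surjective R) x
  obtain ⟨y, rfl⟩ := WittVector.map_surjective (p := p) (MvPolynomial.counit R)
    (MvPolynomial.counit_surjective R) y
  rw [← map_add, ← Wv2sc_map, ← Wv2sc_map, ← Wv2sc_map, Wv2sc_add_int, map_add]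

/-- a vector with bounded coefficients agrees in low degrees with a rescaled integral vector -/
theorem Wv2_exists {L Γ : Type*} [Field L] [LinearOrderedCommGroupWithZero Γ]
    (v : Valuation L Γ) (γ : L) (hγ : γ ≠ 0) (a : WittVector p L) (i : ℕ)
    (ha : ∀ j ≤ i, v (a.coeff j) ≤ v γ ^ p ^ j) :
    ∃ a' : WittVector p v.integer,
      init (i + 1) a = init (i + 1) (Wv2sc p γ (WittVector.map v.integer.subtype a')) := by
  have hmem : ∀ j, (if j ≤ i then a.coeff j / γ ^ p ^ j else 0) ∈ v.integer := by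
    intro j
    split_ifs with hj
    · rw [Valuation.mem_integer_iff, map_div₀, map_pow]
      exact div_le_one_of_le₀ (ha j hj) zero_le
    · exact zero_mem _
  refine ⟨WittVector.mk p fun j => ⟨_, hmem j⟩, ?_⟩
  ext j
  simp only [init, select, coeff_mk]
  split_ifs with hj
  · rw [Wv2sc_coeff, WittVector.map_coeff, coeff_mk]
    have hj' : j ≤ i := by omega
    simp only [Subring.coe_subtype, if_pos hj']
    rw [mul_div_cancel₀ _ (pow_ne_zero _ hγ)]
  · rfl

omit [Fact p.Prime] in
theorem Wv2_init_coeff {R : Type*} [CommRing R] (a : WittVector p R) (i : ℕ) :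
    (init (i + 1) a).coeff i = a.coeff i := by
  simp only [init, select, coeff_mk]
  rw [if_pos (Nat.lt_succ_self i)]

/-- Multiplication by the Teichmuller lift of `γ` multiplies the `j`-th coefficient by `γ^(p^j)`;
divide by it, and note that vectors with coefficients in the valuation ring come from
`WittVector.map` of the inclusion of `v.integer`. -/
theorem wv_bound {L Γ : Type*} [Field L] [CharP L p] [LinearOrderedCommGroupWithZero Γ]
    (v : Valuation L Γ) (γ : L) (hγ : γ ≠ 0) (a b : WittVector p L) (i : ℕ)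
    (ha : ∀ j ≤ i, v (a.coeff j) ≤ v γ ^ p ^ j) (hb : ∀ j ≤ i, v (b.coeff j) ≤ v γ ^ p ^ j) :
    v ((a + b).coeff i) ≤ v γ ^ p ^ i := by
  obtain ⟨a', ha'⟩ := Wv2_exists p v γ hγ a i ha
  obtain ⟨b', hb'⟩ := Wv2_exists p v γ hγ b i hb
  rw [← Wv2_init_coeff, init_add, ha', hb', ← init_add, Wv2_init_coeff, ← Wv2sc_add, ← map_add,
    Wv2sc_coeff, WittVector.map_coeff, map_mul, map_pow]
  exact mul_le_of_le_one_right' ((Valuation.mem_integer_iff v _).1 ((a' + b').coeff i).2)

end Pool.Agent.MP_deef5c_ag.O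

end

section

/-! An additive map on Witt vectors. -/

open PowerSeries IsLocalRing Finset Function
open scoped Polynomial

namespace Pool.Agent.MP_deef5c_ag.O

universe u

theorem Wv3_ghost (p : ℕ) [Fact p.Prime] {R : Type} [CommRing R] (D : Derivation ℤ R R)
    (x : WittVector p R) (i : ℕ) :
    D (WittVector.ghostComponent i x) =
      (p : R) ^ i * ∑ j ∈ range (i + 1), x.coeff j ^ (p ^ (i - j) - 1) * D (x.coeff j) := by
  rw [WittVector.ghostComponent_apply, aeval_wittPolynomial, map_sum, Finset.mul_sum]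
  refine Finset.sum_congr rfl fun j hj => ?_
  have hji : j ≤ i := Nat.lt_succ_iff.mp (mem_range.mp hj)
  have h0 : D ((p : R) ^ j) = 0 := by
    rw [← Nat.cast_pow]; exact D.map_natCast _
  rw [D.leibniz, h0, smul_zero, add_zero, D.leibniz_pow, smul_eq_mul, smul_eq_mul, nsmul_eq_mul]
  have : (p : R) ^ i = (p : R) ^ j * (p : R) ^ (i - j) := by
    rw [← pow_add, Nat.add_sub_cancel' hji]
  rw [this]
  push_cast
  ring

theorem Wv3_univ (p : ℕ) [Fact p.Prime] {R : Type} [CommRing R] [IsDomain R] [CharZero R]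
    (D : Derivation ℤ R R) (a b : WittVector p R) (i : ℕ) :
    ∑ j ∈ range (i + 1), (a + b).coeff j ^ (p ^ (i - j) - 1) * D ((a + b).coeff j) =
      ∑ j ∈ range (i + 1), a.coeff j ^ (p ^ (i - j) - 1) * D (a.coeff j) +
      ∑ j ∈ range (i + 1), b.coeff j ^ (p ^ (i - j) - 1) * D (b.coeff j) := by
  have hp : (p : R) ^ i ≠ 0 := pow_ne_zero _ (Nat.cast_ne_zero.mpr (Fact.out : p.Prime).ne_zero)
  apply mul_left_cancel₀ hp
  rw [mul_add, ← Wv3_ghost, ← Wv3_ghost, ← Wv3_ghost, map_add, map_add]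

/-- In a torsion-free ring with a derivation, `p^i` times this sum is the derivative of the `i`-th
ghost component, which is additive.  Reduce to the ring `R' = MvPolynomial ((Bool × ℕ) × ℕ) ℤ` with
the derivation `X (s, n) ↦ X (s, n+1)` and the ring map `Φ : X ((c, j), n) ↦ δ^[n] (coeff j of a or b)`,
which satisfies `Φ ∘ D = δ ∘ Φ`; use `WittVector.map Φ`. -/
theorem wv_eta (p : ℕ) [Fact p.Prime] {L : Type u} [CommRing L] (δ : L →+ L)
    (hδ : ∀ f g, δ (f * g) = f * δ g + g * δ f) (a b : WittVector p L) (i : ℕ) :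
    ∑ j ∈ range (i + 1), (a + b).coeff j ^ (p ^ (i - j) - 1) * δ ((a + b).coeff j) =
      ∑ j ∈ range (i + 1), a.coeff j ^ (p ^ (i - j) - 1) * δ (a.coeff j) +
      ∑ j ∈ range (i + 1), b.coeff j ^ (p ^ (i - j) - 1) * δ (b.coeff j) := by
  let D : Derivation ℤ (MvPolynomial ((Bool × ℕ) × ℕ) ℤ) (MvPolynomial ((Bool × ℕ) × ℕ) ℤ) :=
    MvPolynomial.mkDerivation ℤ fun s => MvPolynomial.X (s.1, s.2 + 1)
  let Φ : MvPolynomial ((Bool × ℕ) × ℕ) ℤ →+* L :=
    MvPolynomial.eval₂Hom (Int.castRingHom L) fun s =>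
      δ^[s.2] (if s.1.1 then a.coeff s.1.2 else b.coeff s.1.2)
  have h1 : δ 1 = 0 := by
    have := hδ 1 1
    simp only [mul_one, one_mul] at this
    exact left_eq_add.mp this
  have hΦ : ∀ P, Φ (D P) = δ (Φ P) := by
    intro P
    induction P using MvPolynomial.induction_on with
    | C c =>
      have e1 : D (MvPolynomial.C c) = 0 := D.map_algebraMap c
      have e2 : Φ (MvPolynomial.C c) = c • (1 : L) := by simp [Φ]
      rw [e1, map_zero, e2, map_zsmul, h1, smul_zero]
    | add P Q hP hQ => rw [map_add, map_add, hP, hQ, map_add, map_add]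
    | mul_X P s hP =>
      have e1 : D (MvPolynomial.X s) = MvPolynomial.X (s.1, s.2 + 1) :=
        MvPolynomial.mkDerivation_X _ _ _
      have e2 : Φ (MvPolynomial.X (s.1, s.2 + 1)) = δ (Φ (MvPolynomial.X s)) := by
        simp only [Φ, MvPolynomial.eval₂Hom_X', Function.iterate_succ_apply']
      rw [D.leibniz, smul_eq_mul, smul_eq_mul, map_add, map_mul, map_mul, hP, e1, e2, map_mul, hδ]
  let A : WittVector p (MvPolynomial ((Bool × ℕ) × ℕ) ℤ) :=
    WittVector.mk p fun j => MvPolynomial.X ((true, j), 0)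
  let B : WittVector p (MvPolynomial ((Bool × ℕ) × ℕ) ℤ) :=
    WittVector.mk p fun j => MvPolynomial.X ((false, j), 0)
  have hA : WittVector.map Φ A = a := by
    ext j
    simp [A, Φ, WittVector.map_coeff]
  have hB : WittVector.map Φ B = b := by
    ext j
    simp [B, Φ, WittVector.map_coeff]
  have h0 : ∑ j ∈ range (i + 1), (A + B).coeff j ^ (p ^ (i - j) - 1) * D ((A + B).coeff j) =
      ∑ j ∈ range (i + 1), A.coeff j ^ (p ^ (i - j) - 1) * D (A.coeff j) +
      ∑ j ∈ range (i + 1), B.coeff j ^ (p ^ (i - j) - 1) * D (B.coeff j) := Wv3_univ p D A B i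
  have h := congrArg Φ h0
  simp only [map_add, map_sum, map_mul, map_pow, hΦ, ← WittVector.map_coeff] at h
  rw [hA, hB] at h
  exact h

end Pool.Agent.MP_deef5c_ag.O

end

section

/-! Pole orders in an Artin-Schreier-Witt tower. -/

open PowerSeries IsLocalRing Finset Function
open scoped Polynomial

namespace Pool.Agent.MP_deef5c_ag.O

universe u

open WittVector

theorem WaUU_mono (p : ℕ) (d : ℕ → ℕ) (j e : ℕ) : p ^ e * UU p d j ≤ UU p d (j + e) := by
  induction e with
  | zero => simp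
  | succ e ih =>
    calc p ^ (e + 1) * UU p d j = p * (p ^ e * UU p d j) := by ring
      _ ≤ p * UU p d (j + e) := Nat.mul_le_mul_left _ ih
      _ ≤ UU p d (j + e + 1) := le_max_left _ _

theorem WaUU_le (p : ℕ) (d : ℕ → ℕ) {i j : ℕ} (h : j < i) :
    p ^ (i - 1 - j) * UU p d (j + 1) ≤ UU p d i := by
  have := WaUU_mono p d (j + 1) (i - 1 - j)
  rwa [show j + 1 + (i - 1 - j) = i by omega] at this

theorem WaUU_d (p : ℕ) (d : ℕ → ℕ) (j : ℕ) : d j ≤ UU p d (j + 1) := le_max_right _ _

theorem WaUU_p (p : ℕ) (d : ℕ → ℕ) (j : ℕ) : p * UU p d j ≤ UU p d (j + 1) := le_max_left _ _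

theorem WaUU_ex (p : ℕ) (d : ℕ → ℕ) (i : ℕ) (hi : 0 < i) :
    ∃ j < i, UU p d i = p ^ (i - 1 - j) * d j := by
  induction i with
  | zero => omega
  | succ i ih =>
    rcases le_total (p * UU p d i) (d i) with h | h
    · exact ⟨i, by omega, by simp [UU, max_eq_right h]⟩
    · rcases Nat.eq_zero_or_pos i with rfl | hi'
      · refine ⟨0, by omega, ?_⟩
        simp [UU]
      · obtain ⟨j, hj, e⟩ := ih hi'
        refine ⟨j, by omega, ?_⟩
        rw [show UU p d (i + 1) = max (p * UU p d i) (d i) from rfl, max_eq_left h, e,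
          show i + 1 - 1 - j = (i - 1 - j) + 1 by omega]
        ring

theorem Wa_inj {p : ℕ} (hp : p.Prime) {a b m n : ℕ} (ha : ¬ p ∣ a) (hb : ¬ p ∣ b)
    (h : p ^ m * a = p ^ n * b) : m = n := by
  rcases lt_trichotomy m n with hl | hl | hl
  · exfalso
    obtain ⟨e, rfl⟩ := Nat.exists_eq_add_of_lt hl
    have : a = p ^ (e + 1) * b := by
      apply Nat.eq_of_mul_eq_mul_left (pow_pos hp.pos m)
      rw [h]; ring
    exact ha (this ▸ Dvd.dvd.mul_right (dvd_pow_self p (by omega)) b)
  · exact hl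
  · exfalso
    obtain ⟨e, rfl⟩ := Nat.exists_eq_add_of_lt hl
    have : b = p ^ (e + 1) * a := by
      apply Nat.eq_of_mul_eq_mul_left (pow_pos hp.pos n)
      rw [← h]; ring
    exact hb (this ▸ Dvd.dvd.mul_right (dvd_pow_self p (by omega)) a)

theorem Wa_one {L : Type*} [Field L] (δ : L →+ L)
    (hδ : ∀ f g, δ (f * g) = f * δ g + g * δ f) : δ 1 = 0 := by
  have := hδ 1 1
  simp only [mul_one, one_mul] at this
  exact left_eq_add.1 this

theorem Wa_pow {L : Type*} [Field L] (δ : L →+ L)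
    (hδ : ∀ f g, δ (f * g) = f * δ g + g * δ f) (z : L) (n : ℕ) :
    δ (z ^ (n + 1)) = ((n + 1 : ℕ) : L) * (z ^ n * δ z) := by
  induction n with
  | zero => simp
  | succ n ih =>
    rw [pow_succ z (n + 1), hδ, ih]
    push_cast
    ring

theorem Wa_frob (p : ℕ) [hp : Fact p.Prime] {L : Type*} [Field L] [CharP L p] (δ : L →+ L)
    (hδ : ∀ f g, δ (f * g) = f * δ g + g * δ f) (z : L) : δ (z ^ p) = 0 := by
  obtain ⟨n, hn⟩ : ∃ n, p = n + 1 := ⟨p - 1, by have := hp.out.pos; omega⟩
  have := Wa_pow δ hδ z n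
  rw [← hn, CharP.cast_eq_zero, zero_mul] at this
  exact this

theorem Wa_init_lt {p : ℕ} {L : Type*} [CommRing L] (y : WittVector p L) {i j : ℕ} (h : j < i) :
    (init i y).coeff j = y.coeff j := by
  simp [init, select, h]

theorem Wa_init_ge {p : ℕ} {L : Type*} [CommRing L] (y : WittVector p L) {i j : ℕ} (h : i ≤ j) :
    (init i y).coeff j = 0 := by
  simp [init, select, not_lt.2 h]

section step

variable (p : ℕ) [hp : Fact p.Prime] {L Γ : Type*} [Field L] [CharP L p]
    [LinearOrderedCommGroupWithZero Γ] (v : Valuation L Γ) (δ : L →+ L)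
    (hδ : ∀ f g, δ (f * g) = f * δ g + g * δ f) (x : L) (hx : 1 < v x)
    (y f : WittVector p L) (d : ℕ → ℕ)

include hx in
/-- the first claim from the bounds for the lower coefficients -/
theorem Wa_first (i : ℕ) (hy : ∀ j < i, v (y.coeff j) ^ p ≤ v x ^ UU p d (j + 1))
    (hf : ∀ j < i, v (f.coeff j) ≤ v x ^ d j) :
    v ((init i y + init i f).coeff i) ≤ v x ^ (p * UU p d i) := by
  have hx0 : x ≠ 0 := by
    rintro rfl
    simp at hx
  have hpp := hp.out.pos
  have key := wv_bound p v (x ^ (p * UU p d i)) (pow_ne_zero _ hx0)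
    (WittVector.map (iterateFrobenius L p i) (init i y))
    (WittVector.map (iterateFrobenius L p i) (init i f)) i ?_ ?_
  · rw [← map_add, WittVector.map_coeff, iterateFrobenius_def, map_pow, map_pow] at key
    exact (pow_le_pow_iff_left₀ zero_le zero_le (pow_pos hpp i).ne').1 key
  · intro j hj
    rw [WittVector.map_coeff]
    rcases hj.lt_or_eq with hj | rfl
    · rw [Wa_init_lt y hj, iterateFrobenius_def, map_pow, map_pow, ← pow_mul]
      have e : p ^ i = p * p ^ (i - 1) := by
        rw [← pow_succ']; congr 1; omega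
      rw [e, pow_mul]
      refine (pow_le_pow_left₀ zero_le (hy j hj) _).trans ?_
      rw [← pow_mul]
      refine pow_le_pow_right₀ hx.le ?_
      have h1 := WaUU_le p d hj
      have e2 : p ^ (i - 1) = p ^ (i - 1 - j) * p ^ j := by
        rw [← pow_add]; congr 1; omega
      calc UU p d (j + 1) * p ^ (i - 1) = (p ^ (i - 1 - j) * UU p d (j + 1)) * p ^ j := by
            rw [e2]; ring
        _ ≤ UU p d i * p ^ j := Nat.mul_le_mul_right _ h1
        _ ≤ p * UU p d i * p ^ j := Nat.mul_le_mul_right _ (Nat.le_mul_of_pos_left _ hpp)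
    · rw [Wa_init_ge y le_rfl, map_zero, map_zero]
      exact zero_le
  · intro j hj
    rw [WittVector.map_coeff]
    rcases hj.lt_or_eq with hj | rfl
    · rw [Wa_init_lt f hj, iterateFrobenius_def, map_pow, map_pow, ← pow_mul]
      refine (pow_le_pow_left₀ zero_le (hf j hj) _).trans ?_
      rw [← pow_mul]
      refine pow_le_pow_right₀ hx.le ?_
      have h1 := WaUU_le p d hj
      have h2 := WaUU_d p d j
      have e2 : p ^ i = p * p ^ (i - 1 - j) * p ^ j := by
        rw [← pow_succ', ← pow_add]; congr 1; omega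
      calc d j * p ^ i = p * (p ^ (i - 1 - j) * d j) * p ^ j := by
            rw [e2]; ring
        _ ≤ p * UU p d i * p ^ j :=
          Nat.mul_le_mul_right _ (Nat.mul_le_mul_left _ ((Nat.mul_le_mul_left _ h2).trans h1))
    · rw [Wa_init_ge f le_rfl, map_zero, map_zero]
      exact zero_le

include hx hδ in
/-- the second claim from the bounds for the lower coefficients -/
theorem Wa_second (i : ℕ) (hi : 0 < i) (hd : 0 < d 0)
    (hF : ∀ j < i, y.coeff j ^ p = (y + f).coeff j)
    (hf : ∀ j < i, (f.coeff j = 0 ∧ d j = 0) ∨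
      (¬ p ∣ d j ∧ v (f.coeff j) = v x ^ d j ∧ v (δ (f.coeff j)) = v x ^ d j))
    (hy : ∀ j < i, v (y.coeff j) ^ p ≤ v x ^ UU p d (j + 1))
    (hz : ∀ j < i, v (δ (y.coeff j)) ≤ v x ^ UU p d (j + 1)) :
    0 < UU p d i ∧ v (δ ((init i y + init i f).coeff i)) = v x ^ (p * UU p d i) := by
  have hpp := hp.out.pos
  have hU : 0 < UU p d i := by
    have h1 := WaUU_le p d hi
    have h2 := WaUU_d p d 0
    exact lt_of_lt_of_le (Nat.mul_pos (pow_pos hpp _) (lt_of_lt_of_le hd h2)) h1
  refine ⟨hU, ?_⟩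
  have hx0 : v x ^ (p * UU p d i) ≠ 0 := pow_ne_zero _ (lt_trans zero_lt_one hx).ne'
  have eta := wv_eta p δ hδ (init i y) (init i f) i
  have hlow := wv_congr p (a := init i y) (a' := y) (b := init i f) (b' := f) (i := i)
    (fun j hj => Wa_init_lt y hj) (fun j hj => Wa_init_lt f hj)
  rw [sum_range_succ, sum_range_succ, sum_range_succ, Wa_init_ge y le_rfl, Wa_init_ge f le_rfl,
    map_zero, mul_zero, add_zero, add_zero, Nat.sub_self, pow_zero, Nat.sub_self, pow_zero,
    one_mul, sum_eq_zero, zero_add] at eta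
  swap
  · intro j hj
    rw [mem_range] at hj
    rw [hlow j hj, ← hF j hj, Wa_frob p δ hδ, mul_zero]
  rw [eta]
  have hA : v (∑ j ∈ range i, (init i y).coeff j ^ (p ^ (i - j) - 1) * δ ((init i y).coeff j)) <
      v x ^ (p * UU p d i) := by
    refine v.map_sum_lt hx0 fun j hj => ?_
    rw [mem_range] at hj
    rw [Wa_init_lt y hj, map_mul, map_pow]
    refine lt_of_pow_lt_pow_left₀ p zero_le ?_
    rw [mul_pow, ← pow_mul, mul_comm (p ^ (i - j) - 1) p, pow_mul]
    refine lt_of_le_of_lt (mul_le_mul' (pow_le_pow_left₀ zero_le (hy j hj) _)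
      (pow_le_pow_left₀ zero_le (hz j hj) _)) ?_
    rw [← pow_mul, ← pow_mul, ← pow_add, ← pow_mul]
    refine pow_lt_pow_right₀ hx ?_
    have h1 := WaUU_le p d hj
    have e2 : p ^ (i - j) = p * p ^ (i - 1 - j) := by
      rw [← pow_succ']; congr 1; omega
    have h3 : UU p d (j + 1) ≤ UU p d i :=
      (Nat.le_mul_of_pos_left _ (pow_pos hpp _)).trans h1
    obtain ⟨r, hr⟩ : ∃ r, p ^ (i - j) = r + 1 := ⟨p ^ (i - j) - 1, by
      have := pow_pos hpp (i - j); omega⟩
    obtain ⟨q, hq⟩ : ∃ q, p = q + 2 := ⟨p - 2, by have := hp.out.two_le; omega⟩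
    have h4 : (r + 1) * UU p d (j + 1) ≤ p * UU p d i := by
      rw [← hr, e2, mul_assoc]
      exact Nat.mul_le_mul_left _ h1
    rw [hr, Nat.add_sub_cancel]
    generalize UU p d (j + 1) = W at *
    generalize UU p d i = U at *
    have h5 : (q + 1) * W ≤ (q + 1) * U := Nat.mul_le_mul_left _ h3
    rw [hq] at h4 ⊢
    nlinarith [Nat.zero_le (q * q * U), Nat.zero_le (q * U)]
  obtain ⟨j₀, hj₀, e₀⟩ := WaUU_ex p d i hi
  have hterm : ∀ j < i, ¬ p ∣ d j → v (f.coeff j) = v x ^ d j → v (δ (f.coeff j)) = v x ^ d j →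
      v ((init i f).coeff j ^ (p ^ (i - j) - 1) * δ ((init i f).coeff j)) =
        v x ^ (p * (p ^ (i - 1 - j) * d j)) := by
    intro j hj _ h2 h3
    rw [Wa_init_lt f hj, map_mul, map_pow, h2, h3, ← pow_succ, ← pow_mul]
    congr 1
    have e2 : p ^ (i - j) = p * p ^ (i - 1 - j) := by
      rw [← pow_succ']; congr 1; omega
    rw [Nat.sub_add_cancel (pow_pos hpp (i - j)), e2]
    ring
  have h0 : ¬ p ∣ d j₀ ∧ v (f.coeff j₀) = v x ^ d j₀ ∧ v (δ (f.coeff j₀)) = v x ^ d j₀ := by
    rcases hf j₀ hj₀ with h | h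
    · rw [h.2, mul_zero] at e₀
      omega
    · exact h
  have hB : v (∑ j ∈ range i, (init i f).coeff j ^ (p ^ (i - j) - 1) * δ ((init i f).coeff j)) =
      v x ^ (p * UU p d i) := by
    have hm := hterm j₀ hj₀ h0.1 h0.2.1 h0.2.2
    rw [← e₀] at hm
    rw [← add_sum_erase _ _ (mem_range.2 hj₀), v.map_add_eq_of_lt_left, hm]
    rw [hm]
    refine v.map_sum_lt hx0 fun j hj => ?_
    obtain ⟨hne, hj⟩ := mem_erase.1 hj
    rw [mem_range] at hj
    rcases hf j hj with h | h
    · rw [Wa_init_lt f hj, h.1, map_zero, mul_zero, map_zero]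
      exact zero_lt_iff.2 hx0
    · rw [hterm j hj h.1 h.2.1 h.2.2]
      refine pow_lt_pow_right₀ hx (Nat.mul_lt_mul_of_pos_left (lt_of_le_of_ne ?_ ?_) hpp)
      · exact (Nat.mul_le_mul_left _ (WaUU_d p d j)).trans (WaUU_le p d hj)
      · intro he
        rw [e₀] at he
        have := Wa_inj hp.out h.1 h0.1 he
        omega
  rw [v.map_add_eq_of_lt_right, hB]
  rw [hB]
  exact hA

end step

/-- Strong induction on `i`, carrying `v (y_j)^p ≤ v x ^ UU (j+1)` and `v (δ y_j) ≤ v x ^ UU (j+1)` for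
`j < i` (from `y_j^p = c_j + y_j + f_j`, `wv_add_init`, and `δ (y^p) = 0`).  First claim: apply
`wv_bound` to the images of `init i y`, `init i f` under the `i`-th power of Frobenius with
`γ = x^(p U)` (note `p^(i-1-j) UU (j+1) ≤ UU i`).  Second claim: `wv_eta` for `a = init i y`,
`b = init i f`; the lower coefficients of `a + b` are the `y_j^p`, so the left side is `δ c`.
The `b`-sum has valuation exactly `v x ^ (p U)` (the numbers `p^(i-j) d j` with `f_j ≠ 0` are
distinct, their maximum is `p U`), each term of the `a`-sum is smaller: raised to the `p`-th power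
its exponent is at most `UU (j+1) (p^(i-j) - 1 + p) < p^2 U`, as `U > 0`. -/
theorem wa (p : ℕ) [Fact p.Prime] {L Γ : Type*} [Field L] [CharP L p]
    [LinearOrderedCommGroupWithZero Γ] (v : Valuation L Γ) (δ : L →+ L)
    (hδ : ∀ f g, δ (f * g) = f * δ g + g * δ f) (x : L) (hx : 1 < v x) (i : ℕ)
    (y f : WittVector p L) (d : ℕ → ℕ) (hd : 0 < i → 0 < d 0)
    (hF : ∀ j < i, y.coeff j ^ p = (y + f).coeff j)
    (hf : ∀ j < i, (f.coeff j = 0 ∧ d j = 0) ∨
      (¬ p ∣ d j ∧ v (f.coeff j) = v x ^ d j ∧ v (δ (f.coeff j)) = v x ^ d j)) :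
    v ((init i y + init i f).coeff i) ≤ v x ^ (p * UU p d i) ∧
      (0 < i → 0 < UU p d i ∧ v (δ ((init i y + init i f).coeff i)) = v x ^ (p * UU p d i)) := by
  have hp : p.Prime := Fact.out
  have hfv : ∀ j < i, v (f.coeff j) ≤ v x ^ d j := by
    intro j hj
    rcases hf j hj with h | h
    · rw [h.1, map_zero]; exact zero_le
    · exact h.2.1.le
  have hfd : ∀ j < i, v (δ (f.coeff j)) ≤ v x ^ d j := by
    intro j hj
    rcases hf j hj with h | h
    · rw [h.1, map_zero, map_zero]; exact zero_le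
    · exact h.2.2.le
  have key : ∀ n ≤ i, ∀ j < n, v (y.coeff j) ^ p ≤ v x ^ UU p d (j + 1) ∧
      v (δ (y.coeff j)) ≤ v x ^ UU p d (j + 1) := by
    intro n
    induction n with
    | zero => intro _ j hj; omega
    | succ n ih =>
      intro hn j hj
      rcases (Nat.lt_succ_iff.1 hj).lt_or_eq with hj' | rfl
      · exact ih (by omega) j hj'
      have ih' := ih (by omega)
      have hji : j < i := by omega
      have h1 := Wa_first p v x hx y f d j (fun l hl => (ih' l hl).1)
        (fun l hl => hfv l (by omega))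
      have h2 : v (δ ((init j y + init j f).coeff j)) ≤ v x ^ (p * UU p d j) := by
        rcases Nat.eq_zero_or_pos j with rfl | hj0
        · rw [WittVector.add_coeff_zero, Wa_init_ge y le_rfl, Wa_init_ge f le_rfl, add_zero,
            map_zero, map_zero]
          exact zero_le
        · exact (Wa_second p v δ hδ x hx y f d j hj0 (hd (by omega)) (fun l hl => hF l (by omega))
            (fun l hl => hf l (by omega)) (fun l hl => (ih' l hl).1)
            (fun l hl => (ih' l hl).2)).2.le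
      have e := hF j hji
      rw [wv_add_init] at e
      have b1 : v x ^ (p * UU p d j) ≤ v x ^ UU p d (j + 1) :=
        pow_le_pow_right₀ hx.le (WaUU_p p d j)
      have b2 : v x ^ d j ≤ v x ^ UU p d (j + 1) := pow_le_pow_right₀ hx.le (WaUU_d p d j)
      constructor
      · rcases le_or_gt (v (y.coeff j)) 1 with h | h
        · exact (pow_le_one₀ zero_le h).trans (one_le_pow₀ hx.le)
        · have e' : y.coeff j ^ p - y.coeff j = (init j y + init j f).coeff j + f.coeff j := by
            rw [e]; ring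
          have hlt : v (y.coeff j) < v (y.coeff j ^ p) := by
            rw [map_pow]
            exact lt_self_pow₀ h hp.one_lt
          rw [← map_pow, ← v.map_sub_eq_of_lt_left hlt, e']
          exact v.map_add_le (h1.trans b1) ((hfv j hji).trans b2)
      · have e' := congrArg δ e
        rw [Wa_frob p δ hδ, map_add, map_add] at e'
        have e'' : δ (y.coeff j) = -(δ ((init j y + init j f).coeff j) + δ (f.coeff j)) := by
          linear_combination -e'
        rw [e'', v.map_neg]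
        exact v.map_add_le (h2.trans b1) ((hfd j hji).trans b2)
  have k1 := key i le_rfl
  exact ⟨Wa_first p v x hx y f d i (fun l hl => (k1 l hl).1) hfv, fun hi =>
    Wa_second p v δ hδ x hx y f d i hi (hd hi) hF hf (fun l hl => (k1 l hl).1)
      (fun l hl => (k1 l hl).2)⟩

end Pool.Agent.MP_deef5c_ag.O

end

section

/-! Reduced pole orders. -/

open PowerSeries IsLocalRing Finset Function
open scoped Polynomial

namespace Pool.Agent.MP_deef5c_ag.O

universe u

open WithZero

variable (p : ℕ) [Fact p.Prime] {k : Type u} [Field k] [CharP k p]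

theorem RedP_th_zero : th (0 : LaurentSeries k) = 0 := by
  ext a
  rw [coeff_th]
  simp

theorem RedP_th_sub (y z : LaurentSeries k) : th (y - z) = th y - th z := by
  have h := th_add (y - z) z
  rw [sub_add_cancel] at h
  rw [h]
  ring

theorem RedP_add_eq {y z : LaurentSeries k} {b : ℤ} (hy : vv k y = exp b) (hz : vv k z < exp b) :
    vv k (y + z) = exp b := by
  rw [← hy] at hz ⊢
  exact Valuation.map_add_eq_of_lt_left _ hz

theorem RedP_one_lt {b : ℤ} (hb : 0 < b) : (1 : WithZero (Multiplicative ℤ)) < exp b := by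
  rw [← exp_zero]
  exact exp_lt_exp.mpr hb

/-- Write `f = f₀ + u^p - u` with `f₀` from `asr`, so `th f = th f₀ - th u`, and `f₀ = 0` or
`vv f₀ = vv (th f₀) = exp λ`, `p ∤ λ`.  If `vv u ≤ 1` then `vv (th u) < 1 < exp b`.  If `vv u = exp c`,
`c > 0`, then either `p c ≤ a` and `c < b`, or `p c < λ`. In all cases `λ = b`. -/
theorem red_pole [IsAlgClosed k] (f : LaurentSeries k) (a b : ℤ) (hf : vv k f ≤ exp a)
    (hb : vv k (th f) = exp b) (hab : a < p * b) :
    ¬ (p : ℤ) ∣ b ∧ 0 < b ∧ ∃ u, vv k (f - (u ^ p - u)) = exp b := by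
  have hp : 2 ≤ p := (Fact.out : p.Prime).two_le
  have hpz : (2 : ℤ) ≤ (p : ℤ) := by exact_mod_cast hp
  have hba : b ≤ a := by
    have h1 := (vv_th_le f).trans hf
    rw [hb] at h1
    exact exp_le_exp.mp h1
  have hb0 : 0 < b := by nlinarith
  obtain ⟨r, u, hr, hz⟩ := asr p f
  have hX : order (X : k⟦X⟧) = ((1 : ℕ) : ℕ∞) := by simp [order_X]
  have hX' : order (d⁄dX k (X : k⟦X⟧)) + 1 = ((0 + 1 : ℕ) : ℕ∞) := by
    simp [derivative_X, order_one]
  set f0 := Polynomial.aeval (lc k X)⁻¹ r with hf0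
  have hf0' : f - (u ^ p - u) = f0 := by rw [hz]; ring
  have hred : r ≠ 0 → ¬ p ∣ r.natDegree ∧ vv k f0 = exp (r.natDegree : ℤ) ∧
      vv k (th f0) = exp (r.natDegree : ℤ) := by
    intro h0
    have h := vv_red p (X : k⟦X⟧) 1 0 one_pos hX hX' r hr h0
    simpa only [one_mul, Nat.cast_zero, sub_zero] using h
  have hr0 : r = 0 → f0 = 0 := by
    intro h0
    rw [hf0, h0, map_zero]
  have hu : vv k (th u) < exp b := by
    by_cases h1 : vv k u ≤ 1
    · exact (vv_th_lt h1).trans (RedP_one_lt hb0)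
    · push Not at h1
      have hu0 : vv k u ≠ 0 := (zero_lt_one.trans h1).ne'
      obtain ⟨c, hc⟩ : ∃ c : ℤ, vv k u = exp c := ⟨log (vv k u), (exp_log hu0).symm⟩
      have hc0 : 0 < c := by
        rw [hc, ← exp_zero] at h1
        exact exp_lt_exp.mp h1
      have hup : vv k (u ^ p) = exp ((p : ℤ) * c) := by
        rw [map_pow, hc, ← exp_nsmul]
        simp
      have hW : vv k (u ^ p - u) = exp ((p : ℤ) * c) := by
        rw [sub_eq_add_neg]
        refine RedP_add_eq hup ?_
        rw [Valuation.map_neg, hc]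
        exact exp_lt_exp.mpr (by nlinarith)
      by_cases h2 : (p : ℤ) * c ≤ a
      · have hcb : c < b := by nlinarith
        exact (vv_th_le u).trans_lt (by rw [hc]; exact exp_lt_exp.mpr hcb)
      · exfalso
        push Not at h2
        have h3 : vv k f0 = exp ((p : ℤ) * c) := by
          rw [← hf0', sub_eq_add_neg, add_comm]
          refine RedP_add_eq (by rw [Valuation.map_neg, hW]) ?_
          exact hf.trans_lt (exp_lt_exp.mpr h2)
        have h0 : r ≠ 0 := by
          intro h0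
          rw [hr0 h0, map_zero] at h3
          exact exp_ne_zero h3.symm
        obtain ⟨h4, h5, -⟩ := hred h0
        rw [h5] at h3
        have h6 : (r.natDegree : ℤ) = p * c := exp_injective h3
        exact h4 (Int.natCast_dvd_natCast.mp ⟨c, h6⟩)
  have hth : th f0 = th f + th u := by
    rw [← hf0', RedP_th_sub, RedP_th_sub, th_pow_char p]
    ring
  have h7 : vv k (th f0) = exp b := by
    rw [hth]
    exact RedP_add_eq hb hu
  have h0 : r ≠ 0 := by
    intro h0
    rw [hr0 h0, RedP_th_zero, map_zero] at h7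
    exact exp_ne_zero h7.symm
  obtain ⟨h4, h5, h6⟩ := hred h0
  rw [h6] at h7
  have h8 : (r.natDegree : ℤ) = b := exp_injective h7
  refine ⟨?_, hb0, u, ?_⟩
  · rw [← h8]
    exact fun h => h4 (Int.natCast_dvd_natCast.mp h)
  · rw [hf0', h5, h8]

/-- The reduced pole order at a point over a constant tower.  With `U = max (p u') (deg r)`, the series
`g = c + r(1/x) + h` has `vv g ≤ exp (q U)` and `vv (th g) = exp (q U - κ)` (`vv_red`; `p u' ≠ deg r`
unless `r = 0`); apply `red_pole`, where `p κ < (p-1) q U`. -/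
theorem loc0 [IsAlgClosed k] (x : k⟦X⟧) (q κ u' : ℕ) (hq : 0 < q) (hx : order x = q)
    (hκ : order (d⁄dX k x) + 1 = ((κ + q : ℕ) : ℕ∞)) (c h : LaurentSeries k)
    (hc : vv k c ≤ exp ((q * (p * u') : ℕ) : ℤ))
    (hc' : (u' = 0 ∧ c = 0 ∧ κ = 0) ∨
      (κ < q * u' ∧ vv k (th c) = exp (((q * (p * u') : ℕ) : ℤ) - κ)))
    (hh : vv k h ≤ 1) (r : k[X]) (hr : Red p r) (hU : 0 < max (p * u') r.natDegree) :
    ∃ (lam : ℕ) (u : LaurentSeries k), lam + κ = q * max (p * u') r.natDegree ∧ ¬ p ∣ lam ∧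
      vv k (c + Polynomial.aeval (lc k x)⁻¹ r + h - (u ^ p - u)) = exp (lam : ℤ) := by
  have hp : 2 ≤ p := (Fact.out : p.Prime).two_le
  set U := max (p * u') r.natDegree with hUdef
  set R := Polynomial.aeval (lc k x)⁻¹ r with hR
  have hU1 : p * u' ≤ U := le_max_left _ _
  have hU2 : r.natDegree ≤ U := le_max_right _ _
  have hR0 : r = 0 → R = 0 := by
    intro h0
    rw [hR, h0, map_zero]
  have hκU : p * κ < (p - 1) * (q * U) := by
    obtain ⟨p', rfl⟩ : ∃ p', p = p' + 2 := ⟨p - 2, by omega⟩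
    have e : p' + 2 - 1 = p' + 1 := by omega
    rw [e]
    rcases hc' with ⟨-, -, h0⟩ | ⟨h1, -⟩
    · rw [h0, mul_zero]
      positivity
    · have h2 : (p' + 2) * κ < (p' + 2) * (q * u') := Nat.mul_lt_mul_of_pos_left h1 (by omega)
      have h3 : q * ((p' + 2) * u') ≤ q * U := Nat.mul_le_mul_left q hU1
      nlinarith [Nat.zero_le (p' * (q * U))]
  have hκU' : ((q * U : ℕ) : ℤ) < p * (((q * U : ℕ) : ℤ) - κ) := by
    have h1 : ((p * κ : ℕ) : ℤ) < (((p - 1) * (q * U) : ℕ) : ℤ) := by exact_mod_cast hκU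
    rw [Nat.cast_mul (p - 1), Nat.cast_sub (by omega : 1 ≤ p)] at h1
    push_cast at h1 ⊢
    linarith
  have hpos : (0 : ℤ) < ((q * U : ℕ) : ℤ) - κ := by
    have hpz : (2 : ℤ) ≤ (p : ℤ) := by exact_mod_cast hp
    have h0 : (0 : ℤ) ≤ ((q * U : ℕ) : ℤ) := Int.natCast_nonneg _
    by_contra hneg
    push Not at hneg
    nlinarith
  have hle : vv k (c + R + h) ≤ exp ((q * U : ℕ) : ℤ) := by
    refine Valuation.map_add_le _ (Valuation.map_add_le _ ?_ ?_) ?_
    · refine hc.trans (exp_le_exp.mpr ?_)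
      exact_mod_cast Nat.mul_le_mul_left q hU1
    · by_cases h0 : r = 0
      · rw [hR0 h0, map_zero]
        exact zero_le
      · rw [(vv_red p x q κ hq hx hκ r hr h0).2.1]
        refine exp_le_exp.mpr ?_
        exact_mod_cast Nat.mul_le_mul_left q hU2
    · refine hh.trans ?_
      rw [← exp_zero]
      exact exp_le_exp.mpr (Int.natCast_nonneg _)
  have hth : vv k (th (c + R + h)) = exp (((q * U : ℕ) : ℤ) - κ) := by
    rw [th_add, th_add]
    refine RedP_add_eq ?_ ((vv_th_lt hh).trans (RedP_one_lt hpos))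
    rcases hc' with ⟨h1, h2, h3⟩ | ⟨h1, h2⟩
    · have hUr : U = r.natDegree := by rw [hUdef, h1]; simp
      have h0 : r ≠ 0 := by
        intro h0
        rw [h0, Polynomial.natDegree_zero] at hUr
        omega
      rw [h2, RedP_th_zero, zero_add, (vv_red p x q κ hq hx hκ r hr h0).2.2, hUr]
    · by_cases h0 : r = 0
      · have hUr : U = p * u' := by rw [hUdef, h0]; simp
        rw [hR0 h0, RedP_th_zero, add_zero, h2, hUr]
      · obtain ⟨h3, -, h4⟩ := vv_red p x q κ hq hx hκ r hr h0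
        rcases lt_trichotomy (p * u') r.natDegree with h5 | h5 | h5
        · have hUr : U = r.natDegree := max_eq_right h5.le
          rw [add_comm, hUr]
          refine RedP_add_eq h4 ?_
          rw [h2]
          refine exp_lt_exp.mpr ?_
          have h6 : q * (p * u') < q * r.natDegree := Nat.mul_lt_mul_of_pos_left h5 hq
          have h7 : ((q * (p * u') : ℕ) : ℤ) < ((q * r.natDegree : ℕ) : ℤ) := by exact_mod_cast h6
          linarith
        · exact absurd ⟨u', h5.symm⟩ h3
        · have hUr : U = p * u' := max_eq_left h5.le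
          rw [hUr]
          refine RedP_add_eq h2 ?_
          rw [h4]
          refine exp_lt_exp.mpr ?_
          have h6 : q * r.natDegree < q * (p * u') := Nat.mul_lt_mul_of_pos_left h5 hq
          have h7 : ((q * r.natDegree : ℕ) : ℤ) < ((q * (p * u') : ℕ) : ℤ) := by exact_mod_cast h6
          linarith
  obtain ⟨h1, h2, u, h3⟩ := red_pole p (c + R + h) _ _ hle hth hκU'
  obtain ⟨lam, hlam⟩ := Int.eq_ofNat_of_zero_le h2.le
  refine ⟨lam, u, ?_, ?_, ?_⟩
  · have h4 : ((lam + κ : ℕ) : ℤ) = ((q * U : ℕ) : ℤ) := by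
      rw [Nat.cast_add, ← hlam]
      ring
    exact_mod_cast h4
  · rw [hlam] at h1
    exact fun h => h1 (Int.natCast_dvd_natCast.mpr h)
  · rw [h3, hlam]

end Pool.Agent.MP_deef5c_ag.O

end

section

/-! Displacement of a Laurent series. -/

open PowerSeries IsLocalRing Finset Function
open scoped Polynomial

namespace Pool.Agent.MP_deef5c_ag.O

universe u

open WithZero

theorem Vsub_int {K Γ : Type*} [Field K] [LinearOrderedCommGroupWithZero Γ] (v : Valuation K Γ)
    (n : ℤ) : v (n : K) ≤ 1 := by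
  induction n with
  | zero => simp
  | succ n ih => push_cast at ih ⊢; exact v.map_add_le ih (by simp)
  | pred n ih => push_cast at ih ⊢; exact v.map_sub_le ih (by simp)

theorem Vsub_zpow {K Γ : Type*} [Field K] [LinearOrderedCommGroupWithZero Γ] (v : Valuation K Γ)
    {e : K} (he : v e < 1) (n : ℤ) : v ((1 + e) ^ n - 1 - n * e) ≤ v e ^ 2 := by
  have h1 : v (1 + e) = 1 := v.map_one_add_of_lt he
  have h0 : (1 + e) ≠ 0 := fun h => by simp [h] at h1
  have hn : ∀ m : ℤ, v (m * e ^ 2) ≤ v e ^ 2 := fun m => by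
    rw [map_mul, map_pow]
    exact mul_le_of_le_one_left' (Vsub_int v m)
  have key : ∀ m : ℤ, (1 + e) ^ (m + 1) - 1 - ((m + 1 : ℤ) : K) * e =
      (1 + e) * ((1 + e) ^ m - 1 - m * e) + m * e ^ 2 := fun m => by
    rw [zpow_add_one₀ h0]; push_cast; ring
  induction n with
  | zero => simp
  | succ n ih =>
    rw [key]
    exact v.map_add_le (by rwa [map_mul, h1, one_mul]) (hn _)
  | pred n ih =>
    have h2 := key (-(n : ℤ) - 1)
    rw [sub_add_cancel] at h2
    have h3 := v.map_sub_le ih (hn (-(n : ℤ) - 1))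
    rwa [h2, add_sub_cancel_right, map_mul, h1, one_mul] at h3

variable {k : Type u} [Field k]

theorem Vsub_cast {a : ℤ} (ha : (a : k) ≠ 0) : vv k (a : LaurentSeries k) = 1 := by
  have h1 : (a : LaurentSeries k) = lc k (C (a : k)) := by
    rw [map_intCast, map_intCast]
  have h2 : order (C (a : k) : k⟦X⟧) = ((0 : ℕ) : ℕ∞) :=
    order_zero_of_unit ((Ne.isUnit ha).map C)
  rw [h1, vv_lc_eq.2 h2]
  simp

/-- `z = X^(-a) u` with `u` a unit; `ρ X = X (1 + c X^l + ..)` and `ρ u - u ∈ (ρ X - X)` (`sub_dvd`) -/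
theorem vv_sub (ρ : En k) (l : ℕ) (hl : 0 < l) (hρ : order (ρ X - X) = ((l + 1 : ℕ) : ℕ∞))
    (z : LaurentSeries k) (a : ℤ) (hz : vv k z = exp a) :
    vv k (lext ρ z - z) ≤ exp (a - l) ∧ ((a : k) ≠ 0 → vv k (lext ρ z - z) = exp (a - l)) := by
  set T : LaurentSeries k := lc k X with hT
  set δ : LaurentSeries k := lc k (ρ X - X) with hδ
  have vT : vv k T = exp (-1 : ℤ) := by
    have := (vv_lc_eq (f := (X : k⟦X⟧)) (d := 1)).2 (by simp)
    rwa [Nat.cast_one] at this
  have vδ : vv k δ = WithZero.exp (-((l : ℤ) + 1)) := by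
    have := vv_lc_eq.2 hρ
    rwa [Nat.cast_add, Nat.cast_one] at this
  have hT0 : T ≠ 0 := fun h => by
    rw [h, map_zero] at vT
    exact exp_ne_zero vT.symm
  have hρX : lc k (ρ X) = T + δ := by rw [hδ, map_sub]; ring
  have hord : order (ρ X) = ((1 : ℕ) : ℕ∞) := by
    refine vv_lc_eq.1 ?_
    rw [hρX, (vv k).map_add_eq_of_lt_left (by rw [vT, vδ, exp_lt_exp]; omega), vT]
    simp
  have hc : constantCoeff (ρ X) ∈ maximalIdeal k := by
    have := coeff_of_lt_order (φ := ρ X) 0 (by rw [hord]; simp)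
    rw [coeff_zero_eq_constantCoeff_apply] at this
    rw [this]; exact zero_mem _
  have hinj : Injective ρ := by
    refine (injective_iff_map_eq_zero ρ).2 fun f hf => ?_
    have := order_en ρ 1 one_pos hord f
    rw [hf, order_zero, Nat.cast_one, one_mul] at this
    exact order_eq_top.1 this.symm
  set e : LaurentSeries k := δ / T with he
  have ve : vv k e = exp (-(l : ℤ)) := by
    rw [he, map_div₀, vT, vδ, ← exp_sub]
    congr 1; ring
  have ve1 : vv k e < 1 := by
    rw [ve, ← exp_zero, exp_lt_exp]; omega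
  have v1e : vv k (1 + e) = 1 := (vv k).map_one_add_of_lt ve1
  have hLT : lext ρ T = T * (1 + e) := by
    rw [show lext ρ T = T + δ from (lext_lc hinj X).trans hρX, he]; field_simp
  have vTa : ∀ b : ℤ, vv k (T ^ b) = exp (-b) := fun b => by
    rw [map_zpow₀, vT, ← exp_zsmul]
    congr 1; simp
  have vu : vv k (z * T ^ a) = 1 := by
    rw [map_mul, hz, vTa, ← exp_add]; simp
  obtain ⟨f, hf⟩ := exists_lc_of_le vu.le
  rw [← hf] at vu
  have hzf : z = lc k f * T ^ (-a) := by
    rw [hf, mul_assoc, ← zpow_add₀ hT0]; simp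
  have vL : vv k (lext ρ (lc k f) - lc k f) ≤ WithZero.exp (-((l : ℤ) + 1)) := by
    obtain ⟨g, hg⟩ := sub_dvd ρ 1 hc (by simp) f
    have hg' : ρ f - f = (ρ X - X) * g := hg
    rw [lext_lc hinj, ← map_sub, hg', map_mul, map_mul, ← hδ, vδ]
    exact mul_le_of_le_one_right' (vv_lc_le g)
  set A : LaurentSeries k := (lext ρ (lc k f) - lc k f) * (1 + e) ^ (-a) +
    lc k f * ((1 + e) ^ (-a) - 1 - ((-a : ℤ) : LaurentSeries k) * e) with hA
  have vA : vv k A ≤ WithZero.exp (-((l : ℤ) + 1)) := by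
    refine (vv k).map_add_le ?_ ?_
    · rwa [map_mul, map_zpow₀, v1e, one_zpow, mul_one]
    · rw [map_mul, vu, one_mul]
      refine (Vsub_zpow (vv k) ve1 (-a)).trans ?_
      rw [ve, ← exp_nsmul, exp_le_exp]
      simp only [nsmul_eq_mul]; push_cast; omega
  have hdec : lext ρ z - z = T ^ (-a) * (A - lc k f * (a * e)) := by
    rw [hzf, map_mul, map_zpow₀, hLT, mul_zpow, hA]
    push_cast; ring
  have vB : vv k (lc k f * (a * e)) = vv k (a : LaurentSeries k) * exp (-(l : ℤ)) := by
    rw [map_mul, vu, one_mul, map_mul, ve]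
  have hlt : (WithZero.exp (-((l : ℤ) + 1)) : WithZero (Multiplicative ℤ)) < exp (-(l : ℤ)) := by
    rw [exp_lt_exp]; omega
  have hex : (exp (a - l) : WithZero (Multiplicative ℤ)) = exp a * exp (-(l : ℤ)) := by
    rw [← exp_add, sub_eq_add_neg]
  rw [hdec, map_mul, vTa, neg_neg, hex]
  refine ⟨mul_le_mul_right ((vv k).map_sub_le (vA.trans hlt.le) ?_) _, fun ha => ?_⟩
  · rw [vB]
    exact mul_le_of_le_one_left' (Vsub_int _ a)
  · rw [Vsub_cast ha, one_mul] at vB
    rw [(vv k).map_sub_eq_of_lt_right (by rw [vB]; exact vA.trans_lt hlt), vB]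

end Pool.Agent.MP_deef5c_ag.O

end

section

/-! Normal form of numerators. -/

open PowerSeries IsLocalRing Finset Function
open scoped Polynomial

namespace Pool.Agent.MP_deef5c_ag.O

universe u

variable {A : Type u} [CommRing A] (p : ℕ) [Fact p.Prime]

/-- if `Z ≠ 0` has degree `a < E` then `Z * g^(p-1)` has degree `a + (p-1) E > p a` -/
theorem gl_unique (g Z : A[X]) (hg : g.Monic) (hZ : Z.degree < (g.natDegree : ℕ))
    (h : (Z ^ p - Z * g ^ (p - 1)).degree < (((p - 1) * g.natDegree : ℕ) : WithBot ℕ)) :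
    Z = 0 := by
  by_contra h0
  have : Nontrivial A := Polynomial.Nontrivial.of_polynomial_ne h0
  have hp : 1 ≤ p - 1 := by have := (Fact.out : p.Prime).two_le; omega
  rw [Polynomial.degree_eq_natDegree h0, Nat.cast_lt] at hZ
  have h1 : (Z * g ^ (p - 1)).degree = ((Z.natDegree + (p - 1) * g.natDegree : ℕ) : WithBot ℕ) := by
    rw [(hg.pow _).degree_mul, Polynomial.degree_eq_natDegree h0,
      Polynomial.degree_eq_natDegree (hg.pow _).ne_zero, hg.natDegree_pow]
    rfl
  have h2 : (Z ^ p).degree < (Z * g ^ (p - 1)).degree := by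
    rw [h1]
    refine lt_of_le_of_lt (Polynomial.degree_le_of_natDegree_le Polynomial.natDegree_pow_le) ?_
    rw [Nat.cast_lt]
    have e : p * Z.natDegree = Z.natDegree + (p - 1) * Z.natDegree := by
      obtain ⟨q, rfl⟩ : ∃ q, p = q + 1 := ⟨p - 1, by omega⟩
      simp only [Nat.add_sub_cancel]; ring
    rw [e]
    exact Nat.add_lt_add_left (Nat.mul_lt_mul_of_pos_left hZ (by omega)) _
  rw [Polynomial.degree_sub_eq_right_of_degree_lt h2, h1, Nat.cast_lt] at h
  omega

/-- downward induction on `a ≤ E`: the degree can be made `< (p-1) E + a`, adding `c X^a` to `Z` -/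
theorem gl_exists [CharP A p] (g P : A[X]) (hg : g.Monic)
    (hP : P.degree < ((p * g.natDegree : ℕ) : WithBot ℕ)) :
    ∃ Z : A[X], Z.degree < (g.natDegree : ℕ) ∧
      (P + Z ^ p - Z * g ^ (p - 1)).degree < (((p - 1) * g.natDegree : ℕ) : WithBot ℕ) := by
  have hp2 := (Fact.out : p.Prime).two_le
  have : Nontrivial A := CharP.nontrivial_of_char_ne_one (R := A) (v := p) (by omega)
  have e : ∀ a : ℕ, p * a = (p - 1) * a + a := by
    intro a
    obtain ⟨q, rfl⟩ : ∃ q, p = q + 1 := ⟨p - 1, by omega⟩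
    simp only [Nat.add_sub_cancel]; ring
  have key : ∀ n a : ℕ, a + n = g.natDegree → ∃ Z : A[X], Z.degree < (g.natDegree : ℕ) ∧
      (P + Z ^ p - Z * g ^ (p - 1)).degree < (((p - 1) * g.natDegree + a : ℕ) : WithBot ℕ) := by
    intro n
    induction n with
    | zero =>
      intro a ha
      refine ⟨0, by simp, ?_⟩
      rw [zero_pow (by omega), zero_mul, add_zero, sub_zero, show a = g.natDegree by omega, ← e]
      exact hP
    | succ n ih =>
      intro a ha
      obtain ⟨Z, hZ, hR⟩ := ih (a + 1) (by omega)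
      set R := P + Z ^ p - Z * g ^ (p - 1) with hRd
      set c := R.coeff ((p - 1) * g.natDegree + a) with hc
      have hW : (Polynomial.monomial a c).degree ≤ a := Polynomial.degree_monomial_le a c
      refine ⟨Z + Polynomial.monomial a c, ?_, ?_⟩
      · refine lt_of_le_of_lt (Polynomial.degree_add_le _ _) (max_lt hZ (lt_of_le_of_lt hW ?_))
        rw [Nat.cast_lt]; omega
      · have e1 : P + (Z + Polynomial.monomial a c) ^ p - (Z + Polynomial.monomial a c) * g ^ (p - 1)
            = (R - Polynomial.monomial a c * g ^ (p - 1)) + (Polynomial.monomial a c) ^ p := by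
          rw [add_pow_char, hRd]; ring
        rw [e1]
        refine lt_of_le_of_lt (Polynomial.degree_add_le _ _) (max_lt ?_ ?_)
        · rw [Polynomial.degree_lt_iff_coeff_zero] at hR ⊢
          intro m hm
          obtain ⟨j, rfl⟩ : ∃ j, m = j + a := ⟨m - a, by omega⟩
          rw [Polynomial.coeff_sub, Polynomial.coeff_monomial_mul]
          rcases (show (p - 1) * g.natDegree ≤ j by omega).eq_or_lt with hj | hj
          · rw [← hj, ← hc]
            conv_lhs => rw [← hg.natDegree_pow, (hg.pow _).coeff_natDegree]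
            ring
          · rw [hR _ (by omega), Polynomial.coeff_eq_zero_of_natDegree_lt
              (by rwa [hg.natDegree_pow])]
            ring
        · rw [Polynomial.monomial_pow]
          refine lt_of_le_of_lt (Polynomial.degree_monomial_le _ _) ?_
          rw [Nat.cast_lt, mul_comm a p, e]
          exact Nat.add_lt_add_right (Nat.mul_lt_mul_of_pos_left (by omega) (by omega)) _
  simpa using key g.natDegree 0 (zero_add _)

/-- descent to a subalgebra: lift `g`, `P` to `B[X]`, apply `gl_exists` there and `gl_unique` in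
`(Polynomial Ω)` to the difference of the two solutions -/
theorem gl_descend {k Ω : Type u} [Field k] [Field Ω] [Algebra k Ω] [CharP Ω p]
    (B : Subalgebra k Ω) (g P Z : (Polynomial Ω)) (hg : g.Monic) (hgB : ∀ i, g.coeff i ∈ B)
    (hPB : ∀ i, P.coeff i ∈ B) (hP : P.degree < ((p * g.natDegree : ℕ) : WithBot ℕ))
    (hZ : Z.degree < (g.natDegree : ℕ))
    (h : (P + Z ^ p - Z * g ^ (p - 1)).degree < (((p - 1) * g.natDegree : ℕ) : WithBot ℕ)) :
    ∀ i, (P + Z ^ p - Z * g ^ (p - 1)).coeff i ∈ B := by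
  have hinj : Function.Injective (algebraMap B Ω) := Subtype.val_injective
  have : CharP B p := RingHom.charP (algebraMap B Ω) hinj p
  obtain ⟨g', rfl⟩ : g ∈ Polynomial.lifts (algebraMap B Ω) :=
    (Polynomial.lifts_iff_coeff_lifts g).2 fun i => ⟨⟨_, hgB i⟩, rfl⟩
  obtain ⟨P', rfl⟩ : P ∈ Polynomial.lifts (algebraMap B Ω) :=
    (Polynomial.lifts_iff_coeff_lifts P).2 fun i => ⟨⟨_, hPB i⟩, rfl⟩
  simp only [Polynomial.coe_mapRingHom] at hg hP hZ h ⊢
  have hg' : g'.Monic := Polynomial.monic_of_injective hinj hg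
  have hd := Polynomial.natDegree_map_eq_of_injective hinj g'
  obtain ⟨Z', hZ', h'⟩ := gl_exists p g' P' hg'
    (by rwa [Polynomial.degree_map_eq_of_injective hinj, hd] at hP)
  rw [← Polynomial.degree_map_eq_of_injective hinj, ← hd] at hZ' h'
  have e : Polynomial.map (algebraMap B Ω) (P' + Z' ^ p - Z' * g' ^ (p - 1)) =
      P'.map (algebraMap B Ω) + Z'.map (algebraMap B Ω) ^ p -
        Z'.map (algebraMap B Ω) * g'.map (algebraMap B Ω) ^ (p - 1) := by
    simp
  have hz : Z - Z'.map (algebraMap B Ω) = 0 := by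
    refine gl_unique p _ _ hg (lt_of_le_of_lt (Polynomial.degree_sub_le _ _) (max_lt hZ hZ')) ?_
    rw [e] at h'
    refine lt_of_le_of_lt (le_of_eq (congrArg _ ?_))
      (lt_of_le_of_lt (Polynomial.degree_sub_le _ _) (max_lt h h'))
    rw [sub_pow_char]; ring
  intro i
  rw [sub_eq_zero.1 hz, ← e, Polynomial.coeff_map]
  exact Subtype.mem _

end Pool.Agent.MP_deef5c_ag.O

end

section

/-! Normal form of invariant Artin-Schreier terms. -/

open PowerSeries IsLocalRing Finset Function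
open scoped Polynomial

namespace Pool.Agent.MP_deef5c_ag.O

universe u

namespace Nf.Aux

section
variable {A : Type u} [CommRing A] [IsLocalRing A] {g : A[X]}

theorem ord (hg : g.IsDistinguishedAt (maximalIdeal A)) :
    ((g : A⟦X⟧).map (Ideal.Quotient.mk (maximalIdeal A))).order.toNat = g.natDegree :=
  (congrArg ENat.toNat (hg.coe_natDegree_eq_order_map (g : A⟦X⟧) 1
    (by rw [constantCoeff_one, ← Ideal.ne_top_iff_one]; exact (maximalIdeal.isMaximal A).ne_top)
    (by simp))).symm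

theorem pow (hg : g.IsDistinguishedAt (maximalIdeal A)) (n : ℕ) :
    (g ^ n).IsDistinguishedAt (maximalIdeal A) := by
  induction n with
  | zero =>
    rw [pow_zero]
    exact ⟨⟨fun h => by simp at h⟩, Polynomial.monic_one⟩
  | succ n ih => rw [pow_succ]; exact ih.mul hg

theorem div [CL A] (hg : g.IsDistinguishedAt (maximalIdeal A)) (f : A⟦X⟧) :
    ∃ (q : A⟦X⟧) (r : A[X]), r.degree < (g.natDegree : ℕ) ∧ f = g * q + r := by
  obtain ⟨h1, h2⟩ := hg.isWeierstrassDivisorAt'.isWeierstrassDivisionAt_div_mod f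
  rw [ord hg] at h1
  exact ⟨_, _, h1, h2⟩

theorem uniq [CL A] (hg : g.IsDistinguishedAt (maximalIdeal A)) {q : A⟦X⟧} {r : A[X]}
    (hr : r.degree < (g.natDegree : ℕ)) (h : (g : A⟦X⟧) * q = r) : q = 0 ∧ r = 0 :=
  hg.isWeierstrassDivisorAt'.eq_zero_of_mul_eq (by rwa [ord hg]) h

theorem fix {p : ℕ} (hp : 2 ≤ p) {h : A} (hm : h ∈ maximalIdeal A) (e : h ^ p = h) : h = 0 := by
  obtain ⟨q, rfl⟩ : ∃ q, p = q + 2 := ⟨p - 2, by omega⟩
  have hu : IsUnit (1 - h ^ (q + 1)) :=
    isUnit_one_sub_self_of_mem_nonunits _ (Ideal.pow_mem_of_mem _ hm _ (Nat.succ_pos q))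
  refine hu.mul_right_eq_zero.1 ?_
  linear_combination -e

theorem hensel [CL A] (p : ℕ) [Fact p.Prime] [CharP A p] {Q : A} (hQ : Q ∈ maximalIdeal A) :
    ∃ h ∈ maximalIdeal A, h ^ p - h = Q := by
  have hp := (Fact.out : p.Prime).two_le
  have hm : (Polynomial.X ^ p - (Polynomial.X + Polynomial.C Q) : A[X]).Monic := by
    refine Polynomial.monic_X_pow_sub ?_
    rw [Polynomial.degree_X_add_C]
    exact_mod_cast (by omega : 1 < p)
  obtain ⟨a, h1, h2⟩ := HenselianRing.is_henselian (I := maximalIdeal A) _ hm 0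
    (by simpa [zero_pow (show p ≠ 0 by omega)] using hQ) (by simp [Polynomial.derivative_X_pow])
  refine ⟨a, by simpa using h2, ?_⟩
  have h3 : a ^ p - (a + Q) = 0 := by simpa using h1
  linear_combination h3

end

theorem deg {A : Type u} [CommRing A] [Nontrivial A] {p : ℕ} (hp : 2 ≤ p) {g Z : A[X]}
    (hg : g.Monic) (hZ : Z.degree < (g.natDegree : ℕ)) :
    (Z ^ p - Z * g ^ (p - 1)).degree < ((p * g.natDegree : ℕ) : WithBot ℕ) := by
  obtain ⟨q, rfl⟩ : ∃ q, p = q + 1 := ⟨p - 1, by omega⟩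
  by_cases h0 : Z = 0
  · rw [h0, zero_pow (by omega), zero_mul, sub_zero, Polynomial.degree_zero]
    exact WithBot.bot_lt_coe _
  rw [Polynomial.degree_eq_natDegree h0, Nat.cast_lt] at hZ
  refine lt_of_le_of_lt (Polynomial.degree_sub_le _ _) (max_lt ?_ ?_)
  · refine lt_of_le_of_lt (Polynomial.degree_le_of_natDegree_le Polynomial.natDegree_pow_le) ?_
    rw [Nat.cast_lt]
    exact Nat.mul_lt_mul_of_pos_left hZ (by omega)
  · refine lt_of_le_of_lt (Polynomial.degree_le_of_natDegree_le Polynomial.natDegree_mul_le) ?_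
    rw [Nat.cast_lt, hg.natDegree_pow, Nat.add_sub_cancel, add_mul, one_mul]
    omega

variable {D k : Type u} [CommRing D] [IsLocalRing D] [Field k] (π : D →+* k) (hπ : Surjective π)
  {g : D[X]}

include hπ in
theorem dist (hg : g.IsDistinguishedAt (maximalIdeal D)) :
    (g.map π).IsDistinguishedAt (maximalIdeal k) := by
  refine ⟨⟨fun {n} h => ?_⟩, hg.monic.map π⟩
  rw [hg.monic.natDegree_map] at h
  rw [Polynomial.coeff_map, (pi_eq_zero_iff π hπ _).2 (hg.mem h)]
  exact zero_mem _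

include hπ in
theorem red (hg : g.IsDistinguishedAt (maximalIdeal D)) {q : D⟦X⟧} {r : D[X]}
    (hr : r.degree < (g.natDegree : ℕ)) (h : PowerSeries.map π ((g : D⟦X⟧) * q + r) = 0) :
    PowerSeries.map π q = 0 ∧ r.map π = 0 := by
  rw [map_add, map_mul, ← Polynomial.polynomial_map_coe, ← Polynomial.polynomial_map_coe,
    add_eq_zero_iff_eq_neg, ← Polynomial.coe_neg] at h
  obtain ⟨h1, h2⟩ := uniq (dist π hπ hg) (by
    rw [Polynomial.degree_neg, hg.monic.natDegree_map]
    exact lt_of_le_of_lt Polynomial.degree_map_le hr) h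
  exact ⟨h1, neg_eq_zero.1 h2⟩

include hπ in
theorem mem {h : D⟦X⟧} (h0 : PowerSeries.map π h = 0) : h ∈ maximalIdeal D⟦X⟧ := by
  rw [mem_max_iff, ← pi_eq_zero_iff π hπ, ← coeff_zero_eq_constantCoeff_apply, ← coeff_map, h0,
    map_zero]

include hπ in
theorem mem' {h : D⟦X⟧} (h0 : h ∈ maximalIdeal D⟦X⟧) :
    PowerSeries.map π h ∈ maximalIdeal k⟦X⟧ := by
  rw [mem_max_iff, ← pi_eq_zero_iff π hπ] at h0
  rw [mem_max_iff, ← coeff_zero_eq_constantCoeff_apply, coeff_map,
    coeff_zero_eq_constantCoeff_apply, h0]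
  exact zero_mem _

end Nf.Aux

variable {D k : Type u} [CommRing D] [IsLocalRing D] [CL D] [Field k] (p : ℕ) [Fact p.Prime]
  [CharP D p]

/-- Weierstrass division `Ψ = g^p Q + P₁`; both have zero reduction (uniqueness over `k`, where `g`
becomes `X^E`).  Hensel in the complete local ring `D⟦X⟧` gives `h^p - h = Q` with `h` in the maximal
ideal, so `h` has zero reduction.  With `Z` from `gl_exists` (zero reduction by `gl_unique` over `k`)
put `V = g h - Z`. -/
theorem nf_exists (π : D →+* k) (hπ : Surjective π) (g : D[X])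
    (hg : g.IsDistinguishedAt (maximalIdeal D)) (Ψ : D⟦X⟧) (hΨ : PowerSeries.map π Ψ = 0) :
    ∃ (V : D⟦X⟧) (P : D[X]), PowerSeries.map π V = 0 ∧ P.map π = 0 ∧
      P.degree < (((p - 1) * g.natDegree : ℕ) : WithBot ℕ) ∧
      Ψ = (P : D⟦X⟧) + (V ^ p - (g : D⟦X⟧) ^ (p - 1) * V) := by
  have hp := (Fact.out : p.Prime).two_le
  have : CharP D⟦X⟧ p := charP_of_injective_ringHom (C_injective (R := D)) p
  obtain ⟨Q, P₁, hP₁, hd⟩ := Nf.Aux.div (Nf.Aux.pow hg p) Ψ
  obtain ⟨hQ, hP⟩ := Nf.Aux.red π hπ (Nf.Aux.pow hg p) hP₁ (hd ▸ hΨ)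
  obtain ⟨h, hm, hh⟩ := Nf.Aux.hensel p (Nf.Aux.mem π hπ hQ)
  have h0 : PowerSeries.map π h = 0 := by
    refine Nf.Aux.fix hp (Nf.Aux.mem' π hπ hm) ?_
    rw [← map_pow, ← sub_eq_zero, ← map_sub, hh, hQ]
  rw [hg.monic.natDegree_pow] at hP₁
  obtain ⟨Z, hZ, hZ'⟩ := gl_exists p g P₁ hg.monic hP₁
  have e : (P₁ + Z ^ p - Z * g ^ (p - 1)).map π =
      (Z.map π) ^ p - Z.map π * (g.map π) ^ (p - 1) := by
    simp [hP]
  have hZ0 : Z.map π = 0 := by
    refine gl_unique p (g.map π) _ (hg.monic.map π) ?_ ?_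
    · rw [hg.monic.natDegree_map]
      exact lt_of_le_of_lt Polynomial.degree_map_le hZ
    · rw [hg.monic.natDegree_map, ← e]
      exact lt_of_le_of_lt Polynomial.degree_map_le hZ'
  refine ⟨g * h - Z, P₁ + Z ^ p - Z * g ^ (p - 1), ?_, ?_, hZ', ?_⟩
  · rw [map_sub, map_mul, h0, ← Polynomial.polynomial_map_coe (f := Z), hZ0]
    simp
  · rw [e, hZ0, zero_pow (by omega), zero_mul, sub_zero]
  · rw [hd, sub_pow_char, ← hh, mul_pow]
    obtain ⟨q, rfl⟩ : ∃ q, p = q + 1 := ⟨p - 1, by omega⟩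
    simp only [Polynomial.coe_pow, Polynomial.coe_sub, Polynomial.coe_add, Polynomial.coe_mul,
      Nat.add_sub_cancel]
    ring

/-- Weierstrass division `V = g h + Z`; uniqueness of the division by `g^p` gives `h^p = h`, so `h = 0`
(`h^(p-1) - 1` is a unit), then `gl_unique`. -/
theorem nf_unique (π : D →+* k) (hπ : Surjective π) (g : D[X])
    (hg : g.IsDistinguishedAt (maximalIdeal D)) (V : D⟦X⟧) (P : D[X])
    (hV : PowerSeries.map π V = 0) (hP : P.degree < (((p - 1) * g.natDegree : ℕ) : WithBot ℕ))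
    (h : V ^ p - (g : D⟦X⟧) ^ (p - 1) * V = (P : D⟦X⟧)) : V = 0 := by
  have hp := (Fact.out : p.Prime).two_le
  have : CharP D⟦X⟧ p := charP_of_injective_ringHom (C_injective (R := D)) p
  obtain ⟨a, Z, hZ, hd⟩ := Nf.Aux.div hg V
  obtain ⟨ha, _⟩ := Nf.Aux.red π hπ hg hZ (hd ▸ hV)
  have e : ((g ^ p : D[X]) : D⟦X⟧) * (a ^ p - a) =
      ((P - (Z ^ p - Z * g ^ (p - 1)) : D[X]) : D⟦X⟧) := by
    rw [Polynomial.coe_sub, ← h, hd, add_pow_char, mul_pow]
    obtain ⟨q, rfl⟩ : ∃ q, p = q + 1 := ⟨p - 1, by omega⟩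
    simp only [Polynomial.coe_pow, Polynomial.coe_sub, Polynomial.coe_mul, Nat.add_sub_cancel]
    ring
  obtain ⟨h1, h2⟩ := Nf.Aux.uniq (Nf.Aux.pow hg p) (by
    rw [hg.monic.natDegree_pow]
    refine lt_of_le_of_lt (Polynomial.degree_sub_le _ _) (max_lt (lt_of_lt_of_le hP ?_)
      (Nf.Aux.deg hp hg.monic hZ))
    exact_mod_cast Nat.mul_le_mul_right _ (Nat.sub_le p 1)) e
  have h3 : a = 0 := Nf.Aux.fix hp (Nf.Aux.mem π hπ ha) (sub_eq_zero.1 h1)
  have h4 : Z = 0 := gl_unique p g Z hg.monic hZ (sub_eq_zero.1 h2 ▸ hP)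
  rw [hd, h3, h4]
  simp

omit [CharP D p] in
theorem sub_coe {x : D⟦X⟧} (hx : constantCoeff x ∈ maximalIdeal D) (P : D[X]) :
    sub x (P : D⟦X⟧) = Polynomial.aeval x P := by
  induction P using Polynomial.induction_on with
  | C a => rw [Polynomial.coe_C, Polynomial.aeval_C]; exact (sub x).commutes a
  | add a b ha hb => rw [Polynomial.coe_add, map_add, map_add, ha, hb]
  | monomial n a ih =>
    rw [pow_succ, ← mul_assoc, Polynomial.coe_mul, map_mul, map_mul, ih, Polynomial.coe_X,
      sub_X hx, Polynomial.aeval_X]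

end Pool.Agent.MP_deef5c_ag.O

end

section

/-! The lower ramification bound in an Artin-Schreier extension of valued fields. -/

open PowerSeries IsLocalRing Finset Function
open scoped Polynomial

namespace Pool.Agent.MP_deef5c_ag.O

universe u

theorem Las_sum {E Γ ι : Type*} [Field E] [LinearOrderedCommGroupWithZero Γ] (v : Valuation E Γ)
    {p : ℕ} (hp : p ≠ 0) {c : Γ} (s : Finset ι) (f : ι → E) (h : ∀ i ∈ s, v (f i) ^ p ≤ c) :
    v (∑ i ∈ s, f i) ^ p ≤ c := by
  induction s using Finset.cons_induction with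
  | empty => simp [hp]
  | cons a s ha ih =>
    rw [sum_cons]
    rcases le_max_iff.1 (v.map_add (f a) (∑ i ∈ s, f i)) with h' | h'
    · exact (pow_le_pow_left₀ zero_le h' p).trans (h a (mem_cons_self ..))
    · exact (pow_le_pow_left₀ zero_le h' p).trans (ih fun i hi => h i (mem_cons_of_mem hi))

theorem Las_nat {E Γ : Type*} [Field E] [LinearOrderedCommGroupWithZero Γ] (v : Valuation E Γ)
    (j : ℕ) : v (j : E) ≤ 1 := by
  induction j with
  | zero => simp
  | succ j ih =>
    rw [Nat.cast_succ]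
    exact v.map_add_le ih v.map_one.le

theorem Las_diff {E Γ : Type*} [Field E] [LinearOrderedCommGroupWithZero Γ] (v : Valuation E Γ)
    {x y : E} {c : Γ} (hx : v x ≤ c) (hy : v y ≤ c) (hxy : x - y = 1) (i : ℕ) :
    v (x ^ (i + 1) - y ^ (i + 1)) ≤ c ^ i := by
  rw [← (Commute.all x y).geom_sum₂_mul, hxy, mul_one]
  refine v.map_sum_le fun a ha => ?_
  have ha' : a ≤ i := Nat.lt_succ_iff.1 (mem_range.1 ha)
  rw [v.map_mul, v.map_pow, v.map_pow, Nat.add_sub_cancel]
  calc v x ^ a * v y ^ (i - a) ≤ c ^ a * c ^ (i - a) :=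
        mul_le_mul' (pow_le_pow_left₀ zero_le hx _) (pow_le_pow_left₀ zero_le hy _)
    _ = c ^ i := by rw [← pow_add, Nat.add_sub_cancel' ha']

theorem Las_ne {p lam i j : ℕ} (hp : p.Prime) (hl : ¬ p ∣ lam) (hi : i < p) (hj : j < p)
    {a b : ℤ} (h : p * a - i * lam = p * b - j * lam) : i = j := by
  have h1 : (p : ℤ) ∣ ((i : ℤ) - j) * lam := ⟨a - b, by linarith⟩
  rcases (Nat.prime_iff_prime_int.1 hp).dvd_or_dvd h1 with h2 | h2
  · have := Int.eq_zero_of_abs_lt_dvd h2 (by rw [abs_lt]; constructor <;> omega)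
    omega
  · exact absurd (Int.natCast_dvd_natCast.1 h2) hl

/-- The terms `A_i η^i` have `v(..)^p = g^(p a_i - i lam)`, exponents pairwise distinct mod `p`, so
each has valuation at most that of the sum: `p a_i - i lam ≥ 1` for `1 ≤ i < p`.  As `v η > 1`,
`v ((η+j+1)^i - (η+j)^i) ≤ (v η)^(i-1)`; so each factor has `v(..)^p ≤ g^(lam+1)`. -/
theorem las_abs (p : ℕ) [Fact p.Prime] {E Γ : Type u} [Field E] [CharP E p]
    [LinearOrderedCommGroupWithZero Γ] (v : Valuation E Γ) (g : Γ) (hg0 : g ≠ 0) (hg1 : g < 1)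
    (lam : ℕ) (hl : ¬ p ∣ lam) (A : E[X]) (hA : A.natDegree < p)
    (hc : ∀ i, A.coeff i = 0 ∨ ∃ a : ℤ, v (A.coeff i) = g ^ a) (η : E)
    (hη : v η ^ p * g ^ lam = 1) (hint : v (A.eval η) ≤ 1) :
    v (∏ j ∈ range p, (A.eval (η + ((j + 1 : ℕ) : E)) - A.eval (η + (j : E)))) ≤ g ^ (lam + 1) := by
  have hp : p.Prime := Fact.out
  have hp0 : p ≠ 0 := hp.ne_zero
  have hgp : 0 < g := zero_lt_iff.2 hg0
  have anti := zpow_right_strictAnti₀ hgp hg1
  have hη' : v η ^ p = g ^ (-(lam : ℤ)) := by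
    rw [zpow_neg, zpow_natCast]
    exact eq_inv_of_mul_eq_one_left hη
  have hη1 : 1 ≤ v η := by
    refine (pow_le_pow_iff_left₀ zero_le zero_le hp0).1 ?_
    rw [one_pow, hη', ← zpow_zero g]
    exact anti.antitone (by omega)
  have key : ∀ i, A.coeff i = 0 ∨
      ∃ a : ℤ, v (A.coeff i * η ^ i) ^ p = g ^ ((p : ℤ) * a - i * lam) := fun i => by
    refine (hc i).imp id fun ⟨a, ha⟩ => ⟨a, ?_⟩
    rw [v.map_mul, v.map_pow, mul_pow, ← pow_mul, mul_comm i p, pow_mul, hη', ha,
      ← zpow_natCast, ← zpow_natCast, ← zpow_mul, ← zpow_mul, ← zpow_add₀ hg0]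
    congr 1
    ring
  have hev : ∀ x : E, A.eval x = ∑ i ∈ range p, A.coeff i * x ^ i := fun x =>
    Polynomial.eval_eq_sum_range' hA x
  have hle : ∀ i ∈ range p, v (A.coeff i * η ^ i) ≤ 1 := by
    obtain ⟨j, hj, hmax⟩ := exists_max_image (range p) (fun i => v (A.coeff i * η ^ i))
      ⟨0, mem_range.2 hp.pos⟩
    rcases key j with h0 | ⟨b, hb⟩
    · intro i hi
      refine (hmax i hi).trans ?_
      simp [h0]
    · have : v (A.eval η) = v (A.coeff j * η ^ j) := by
        rw [hev]
        refine v.map_sum_eq_of_lt hj fun i hi => ?_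
        obtain ⟨hi1, hi2⟩ := mem_sdiff.1 hi
        refine lt_of_le_of_ne (hmax i hi1) fun e => ?_
        rcases key i with h0 | ⟨a, ha⟩
        · rw [← e, h0, zero_mul, v.map_zero, zero_pow hp0] at hb
          exact zpow_ne_zero _ hg0 hb.symm
        · rw [e, hb] at ha
          exact hi2 (mem_singleton.2
            (Las_ne hp hl (mem_range.1 hi1) (mem_range.1 hj) (anti.injective ha).symm))
      exact fun i hi => (hmax i hi).trans (this ▸ hint)
  have hg : ∀ i, i + 1 ∈ range p → v (A.coeff (i + 1) * η ^ (i + 1)) ^ p ≤ g := fun i hi => by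
    rcases key (i + 1) with h0 | ⟨a, ha⟩
    · simp [h0, hp0]
    · have h1 : g ^ ((p : ℤ) * a - (i + 1 : ℕ) * lam) ≤ g ^ (0 : ℤ) := by
        rw [← ha, zpow_zero]
        exact pow_le_one₀ zero_le (hle _ hi)
      have h2 := anti.le_iff_ge.1 h1
      have h3 : (p : ℤ) * a - (i + 1 : ℕ) * lam ≠ 0 := fun e => by
        have := Las_ne (a := a) (b := 0) hp hl (mem_range.1 hi) hp.pos (by simpa using e)
        omega
      rw [ha, ← zpow_one g]
      simp only [zpow_one]
      nth_rewrite 2 [← zpow_one g]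
      exact anti.antitone (by omega)
  have hx : ∀ j : ℕ, v (η + (j : E)) ≤ v η := fun j =>
    v.map_add_le le_rfl ((Las_nat v j).trans hη1)
  have hF : ∀ j ∈ range p,
      v (A.eval (η + ((j + 1 : ℕ) : E)) - A.eval (η + (j : E))) ^ p ≤ g ^ (lam + 1) := by
    intro j _
    rw [hev, hev, ← sum_sub_distrib]
    refine Las_sum v hp0 _ _ fun i hi => ?_
    rw [← mul_sub]
    rcases i with _ | i
    · simp [hp0]
    · have h1 := Las_diff v (hx (j + 1)) (hx j) (by push_cast; ring) i
      have h2 : v (A.coeff (i + 1) * ((η + ((j + 1 : ℕ) : E)) ^ (i + 1) -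
          (η + (j : E)) ^ (i + 1))) * v η ≤ v (A.coeff (i + 1) * η ^ (i + 1)) := by
        rw [v.map_mul, v.map_mul, v.map_pow, mul_assoc, pow_succ (v η)]
        exact mul_le_mul_right (mul_le_mul_left h1 _) _
      have h3 := (pow_le_pow_left₀ zero_le h2 p).trans (hg i hi)
      have h4 := mul_le_mul_left h3 (g ^ lam)
      rwa [mul_pow, mul_assoc, hη, mul_one, ← pow_succ'] at h4
  refine (pow_le_pow_iff_left₀ zero_le zero_le hp0).1 ?_
  rw [map_prod, ← prod_pow]
  calc _ ≤ ∏ _j ∈ range p, g ^ (lam + 1) := prod_le_prod' hF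
    _ = _ := by rw [prod_const, card_range]

end Pool.Agent.MP_deef5c_ag.O

end

section

/-! The ramification bound at a point of the generic fibre. -/

open PowerSeries IsLocalRing Finset Function
open scoped Polynomial

namespace Pool.Agent.MP_deef5c_ag.O

universe u

open WithZero

theorem Lasc_val {Ω E : Type u} [Field Ω] [Field E] (ι : LaurentSeries Ω →+* E) :
    ∃ (Γ : Type u) (_ : LinearOrderedCommGroupWithZero Γ) (v : Valuation E Γ) (g : Γ),
      g ≠ 0 ∧ g < 1 ∧ (∀ f, v (ι (lc Ω f)) ≤ 1) ∧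
      ∀ (z : LaurentSeries Ω) (a : ℤ), vv Ω z = exp a → v (ι z) = g ^ (-a) := by
  obtain ⟨V, hV, hloc⟩ := IsLocalRing.exists_factor_valuationRing (ι.comp (lc Ω))
  have hX0 : lc Ω X ≠ 0 := fun h =>
    X_ne_zero (HahnSeries.ofPowerSeries_injective (h.trans (map_zero _).symm))
  have hg0 : V.valuation (ι (lc Ω X)) ≠ 0 := by
    rw [Valuation.ne_zero_iff]
    exact (map_ne_zero ι).2 hX0
  refine ⟨V.ValueGroup, inferInstance, V.valuation, V.valuation (ι (lc Ω X)), hg0, ?_,
    fun f => (V.valuation_le_one_iff _).2 (hV f), ?_⟩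
  · refine (V.valuation_lt_one_iff ⟨_, hV X⟩).1 ?_
    rw [mem_maximalIdeal, mem_nonunits_iff]
    intro h
    have h2 : IsUnit (X : Ω⟦X⟧) := hloc.map_nonunit X h
    rw [PowerSeries.isUnit_iff_constantCoeff] at h2
    simp at h2
  · intro z a hz
    have hX : vv Ω (lc Ω X) = exp (-1 : ℤ) := by
      have := (vv_lc_eq (k := Ω) (f := X) (d := 1)).2 (by simp)
      simpa using this
    have h1 : vv Ω (z * lc Ω X ^ a) = exp (-((0 : ℕ) : ℤ)) := by
      rw [map_mul, map_zpow₀, hz, hX, ← exp_zsmul, ← exp_add]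
      simp
    obtain ⟨f, hf⟩ := exists_lc_of_le (k := Ω) (z := z * lc Ω X ^ a) (by rw [h1]; simp)
    rw [← hf, vv_lc_eq] at h1
    have h2 : IsUnit f := by
      rw [PowerSeries.isUnit_iff_constantCoeff, isUnit_iff_ne_zero]
      have := (order_eq_nat.1 h1).1
      simpa using this
    have h3 : V.valuation (ι (lc Ω f)) = 1 :=
      (V.valuation_eq_one_iff ⟨_, hV f⟩).1
        (h2.map ((ι.comp (lc Ω)).codRestrict V.toSubring hV))
    rw [hf, map_mul, map_zpow₀, map_mul, map_zpow₀] at h3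
    rw [zpow_neg]
    exact eq_inv_of_mul_eq_one_left h3

theorem Lasc_lift {A B : Type u} [CommRing A] [CommRing B] (j : B →+* A) (ρ : A →+* A)
    (hfix : ∀ a, ρ a = a ↔ ∃ b, j b = a) {a : A[X]} (ha : a.map ρ = a) :
    a ∈ Polynomial.lifts j := by
  rw [Polynomial.lifts_iff_coeff_lifts]
  intro n
  refine (hfix _).1 ?_
  rw [← Polynomial.coeff_map, ha]

theorem Lasc_int {p : ℕ} (hp : 0 < p) {A B : Type u} [CommRing A] [CommRing B] (j : B →+* A)
    (ρ : A →+* A) (hρ : ∀ a, (ρ ^ p) a = a) (hfix : ∀ a, ρ a = a ↔ ∃ b, j b = a) (z : A) :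
    j.IsIntegralElem z := by
  let f : ℕ → A[X] := fun i => Polynomial.X - Polynomial.C ((ρ ^ i) z)
  have hm : (∏ i ∈ range p, f i).Monic :=
    Polynomial.monic_prod_of_monic _ _ fun i _ => Polynomial.monic_X_sub_C _
  have hf : (∏ i ∈ range p, f i).map ρ = ∏ i ∈ range p, f i := by
    rw [Polynomial.map_prod]
    have h1 : ∀ i ∈ range p, (f i).map ρ = f (i + 1) := by
      intro i _
      simp only [f, Polynomial.map_sub, Polynomial.map_X, Polynomial.map_C, Abs.Aux.pow_succ_apply]
    rw [prod_congr rfl h1]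
    have h2 := Finset.prod_range_succ f p
    have h3 := Finset.prod_range_succ' f p
    have h4 : f p = f 0 := by
      simp only [f, hρ]
      rfl
    rw [h2, h4] at h3
    exact ((Polynomial.monic_X_sub_C ((ρ ^ 0) z)).isRegular.right h3).symm
  obtain ⟨q, hq, -, hqm⟩ :=
    Polynomial.lifts_and_natDegree_eq_and_monic (Lasc_lift j ρ hfix hf) hm
  refine ⟨q, hqm, ?_⟩
  rw [Polynomial.eval₂_eq_eval_map, hq, Polynomial.eval_prod]
  refine prod_eq_zero (mem_range.2 hp) ?_
  simp [f]

theorem Lasc_ext {A B E : Type u} [CommRing A] [IsDomain A] [CommRing B] [Field E]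
    [IsAlgClosed E] (j : B →+* A) (hj : Injective j) (hi : ∀ z, j.IsIntegralElem z)
    (φ : B →+* E) (hφ : Injective φ) : ∃ ε : A →+* E, ∀ b, ε (j b) = φ b := by
  let _ : Algebra B A := j.toAlgebra
  let _ : Algebra B E := φ.toAlgebra
  have : IsDomain B := hj.isDomain j
  have : FaithfulSMul B A := (faithfulSMul_iff_algebraMap_injective B A).2 hj
  have : FaithfulSMul B E := (faithfulSMul_iff_algebraMap_injective B E).2 hφ
  have : Algebra.IsIntegral B A := ⟨hi⟩
  let ε : A →ₐ[B] E := IsAlgClosed.lift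
  exact ⟨ε, fun b => ε.commutes b⟩

theorem Lasc_le {A B E Γ : Type u} [CommRing A] [CommRing B] [Field E]
    [LinearOrderedCommGroupWithZero Γ] (v : Valuation E Γ) (j : B →+* A) (ε : A →+* E)
    (h : ∀ b, v (ε (j b)) ≤ 1) {z : A} (hz : j.IsIntegralElem z) : v (ε z) ≤ 1 := by
  obtain ⟨q, hq, hz⟩ := hz
  let ψ : B →+* v.integer := (ε.comp j).codRestrict v.integer h
  refine (Valuation.integer.integers v).isIntegral_iff_v_le_one.1 ⟨q.map ψ, hq.map ψ, ?_⟩
  rw [Polynomial.eval₂_map]
  have h1 : (algebraMap v.integer E).comp ψ = ε.comp j := rfl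
  rw [h1, ← Polynomial.hom_eval₂, hz, map_zero]

theorem Lasc_eta {E Γ : Type u} [Field E] [LinearOrderedCommGroupWithZero Γ] (v : Valuation E Γ)
    {p : ℕ} (hp : 1 < p) {g : Γ} (hg0 : g ≠ 0) (hg1 : g < 1) {lam : ℕ} (hl : lam ≠ 0) {η : E}
    (h : v (η ^ p - η) = g ^ (-(lam : ℤ))) : v η ^ p * g ^ lam = 1 := by
  have hgp : 0 < g := zero_lt_iff.2 hg0
  have h1 : 1 < v (η ^ p - η) := by
    rw [h, zpow_neg, zpow_natCast]
    exact (one_lt_inv₀ (pow_pos hgp _)).2 (pow_lt_one₀ zero_le hg1 hl)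
  have h2 : 1 < v η := by
    by_contra h3
    rw [not_lt] at h3
    refine absurd h1 (not_lt.2 (v.map_sub_le ?_ h3))
    rw [v.map_pow]
    exact pow_le_one₀ zero_le h3
  have h3 : v η < v (η ^ p) := by
    rw [v.map_pow]
    exact lt_self_pow₀ h2 hp
  rw [v.map_sub_eq_of_lt_left h3, v.map_pow, zpow_neg, zpow_natCast] at h
  rw [h]
  exact inv_mul_cancel₀ (pow_ne_zero _ hg0)

/-- Let `E` be an algebraic closure of `Ω((X))`.  `A` is integral over `B` (`z` is a root of
`∏_i (T - ρ^i z)`), so `lc ∘ ev` extends to `ε : A → E` (`IsAlgClosed.lift`).  Choose a valuation subring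
`V` of `E` dominating `Ω⟦X⟧` (`IsLocalRing.exists_factor_valuationRing`); it contains `ε A`; for a
Laurent series `z` with `vv z = exp a` one has `V.valuation z = g^(-a)`, `g` the value of `X`.  Put
`η = ε Y / ε (j e) - u`, so `η^p - η` has value `g^(-lam)`.  With `a` from `interp` (coefficients in the
range of `j`), `A(T) = a(e (T + u)) / e^(p-1)` has Laurent coefficients and `A(η + i) = ε (ρ^i t)`.
Apply `las_abs`. -/
theorem lasc (p : ℕ) [Fact p.Prime] {A B Ω : Type u} [CommRing A] [IsDomain A] [CharP A p]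
    [CommRing B] [Field Ω] [CharP Ω p] (j : B →+* A) (hj : Injective j) (ρ : A →+* A)
    (hρ : ∀ a, (ρ ^ p) a = a) (hfix : ∀ a, ρ a = a ↔ ∃ b, j b = a) (Y t : A) (e H G : B)
    (he : e ≠ 0) (hY : ρ Y = Y + j e) (hH : j H = Y ^ p - j e ^ (p - 1) * Y)
    (hG : j G = ∏ i ∈ range p, ((ρ ^ (i + 1)) t - (ρ ^ i) t))
    (ev : B →+* Ω⟦X⟧) (hev : Injective ev) (lam : ℕ) (hl : ¬ p ∣ lam) (u : LaurentSeries Ω)
    (hu : vv Ω (lc Ω (ev H) / lc Ω (ev e) ^ p - (u ^ p - u)) = exp (lam : ℤ)) :
    ((lam + 1 : ℕ) : ℕ∞) ≤ order (ev G) := by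
  have hp : p.Prime := Fact.out
  let K := LaurentSeries Ω
  let E := AlgebraicClosure K
  let ι : K →+* E := algebraMap K E
  let lv : B →+* K := (lc Ω).comp ev
  have hlv : Injective lv := HahnSeries.ofPowerSeries_injective.comp hev
  have hK : CharP K p := charP_of_injective_algebraMap (algebraMap Ω K).injective p
  have hE : CharP E p := charP_of_injective_algebraMap ι.injective p
  obtain ⟨Γ, _, v, g, hg0, hg1, hle, hval⟩ := Lasc_val ι
  have hi := Lasc_int hp.pos j ρ hρ hfix
  obtain ⟨ε, hε⟩ := Lasc_ext j hj hi (ι.comp lv) (ι.injective.comp hlv)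
  have hε' : ∀ b, ε (j b) = ι (lv b) := hε
  have hεj : ε.comp j = ι.comp lv := RingHom.ext hε
  have hεle : ∀ z, v (ε z) ≤ 1 := fun z =>
    Lasc_le v j ε (fun b => by rw [hε']; exact hle _) (hi z)
  have hje : ρ (j e) = j e := (hfix _).2 ⟨e, rfl⟩
  obtain ⟨a, ha1, ha2, ha3⟩ := interp p ρ hρ Y (j e) hje hY t
  obtain ⟨a', ha'⟩ := (Polynomial.mem_lifts _).1 (Lasc_lift j ρ hfix ha2)
  have hdeg : a'.natDegree < p := by
    rwa [← ha', Polynomial.natDegree_map_eq_of_injective hj] at ha1
  have hev' : ∀ i : ℕ, a.eval (Y + (i : A) * j e) = j e ^ (p - 1) * (ρ ^ i) t := by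
    intro i
    induction i with
    | zero => simpa using ha3
    | succ i ih =>
      have h1 := congrArg ρ ih
      rw [← Polynomial.eval_map_apply, ha2, map_mul, map_pow, hje, ← Abs.Aux.pow_succ_apply, map_add,
        map_mul, map_natCast, hY, hje] at h1
      rw [← h1]
      congr 1
      push_cast
      ring
  have he0 : lv e ≠ 0 := (map_ne_zero_iff lv hlv).2 he
  have he1 : ι (lv e) ≠ 0 := (map_ne_zero ι).2 he0
  let η : E := ε Y / ι (lv e) - ι u
  let A₀ : K[X] := Polynomial.C (lv e ^ (p - 1))⁻¹ *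
    (a'.map lv).comp (Polynomial.C (lv e) * (Polynomial.X + Polynomial.C u))
  have hA : ∀ i : ℕ, (A₀.map ι).eval (η + (i : E)) = ε ((ρ ^ i) t) := by
    intro i
    have h1 : ι (lv e) * (η + (i : E) + ι u) = ε (Y + (i : A) * j e) := by
      rw [map_add, map_mul, map_natCast, hε']
      have h2 : ι (lv e) * (ε Y / ι (lv e)) = ε Y := mul_div_cancel₀ _ he1
      simp only [η]
      linear_combination h2
    rw [Polynomial.eval_map]
    simp only [A₀]
    rw [Polynomial.eval₂_mul, Polynomial.eval₂_C, Polynomial.eval₂_comp, Polynomial.eval₂_mul,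
      Polynomial.eval₂_C, Polynomial.eval₂_add, Polynomial.eval₂_X, Polynomial.eval₂_C, h1,
      Polynomial.eval₂_map, ← hεj, ← Polynomial.hom_eval₂, Polynomial.eval₂_eq_eval_map, ha',
      hev', map_mul, map_pow, hε', map_inv₀, map_pow]
    exact inv_mul_cancel_left₀ (pow_ne_zero _ he1) _
  have hAdeg : (A₀.map ι).natDegree < p := by
    refine lt_of_le_of_lt Polynomial.natDegree_map_le ?_
    refine lt_of_le_of_lt (Polynomial.natDegree_C_mul_le _ _) ?_
    refine lt_of_le_of_lt Polynomial.natDegree_comp_le ?_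
    have h1 : (Polynomial.C (lv e) * (Polynomial.X + Polynomial.C u)).natDegree ≤ 1 :=
      (Polynomial.natDegree_C_mul_le _ _).trans (Polynomial.natDegree_X_add_C u).le
    calc _ ≤ a'.natDegree * 1 := Nat.mul_le_mul Polynomial.natDegree_map_le h1
      _ < p := by rwa [mul_one]
  have hc : ∀ i, (A₀.map ι).coeff i = 0 ∨ ∃ a : ℤ, v ((A₀.map ι).coeff i) = g ^ a := by
    intro i
    rw [Polynomial.coeff_map]
    by_cases h0 : A₀.coeff i = 0
    · exact Or.inl (by rw [h0, map_zero])
    · exact Or.inr ⟨_, hval _ _ (exp_log ((Valuation.ne_zero_iff _).2 h0)).symm⟩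
  have hη : η ^ p - η = ι (lc Ω (ev H) / lc Ω (ev e) ^ p - (u ^ p - u)) := by
    have h1 : ι (lv H) = ε Y ^ p - ι (lv e) ^ (p - 1) * ε Y := by
      rw [← hε', hH, map_sub, map_mul, map_pow, map_pow, hε']
    have h2 : ι (lv e) ^ p = ι (lv e) ^ (p - 1) * ι (lv e) := by
      rw [← pow_succ, Nat.sub_add_cancel hp.one_le]
    change _ = ι (lv H / lv e ^ p - (u ^ p - u))
    rw [map_sub, map_sub, map_div₀, map_pow, map_pow, h1]
    simp only [η]
    rw [sub_pow_char, div_pow, sub_div, h2, mul_div_mul_left _ _ (pow_ne_zero _ he1)]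
    ring
  have hl0 : lam ≠ 0 := fun h => hl (h ▸ dvd_zero p)
  have hη' : v η ^ p * g ^ lam = 1 :=
    Lasc_eta v hp.one_lt hg0 hg1 hl0 (by rw [hη]; exact hval _ _ hu)
  have hint : v ((A₀.map ι).eval η) ≤ 1 := by
    have := hA 0
    rw [Nat.cast_zero, add_zero] at this
    rw [this]
    exact hεle _
  have key := las_abs p v g hg0 hg1 lam hl (A₀.map ι) hAdeg hc η hη' hint
  have h1 : ∏ i ∈ range p, ((A₀.map ι).eval (η + ((i + 1 : ℕ) : E)) -
      (A₀.map ι).eval (η + (i : E))) = ι (lc Ω (ev G)) := by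
    change _ = ι (lv G)
    rw [← hε', hG, map_prod]
    refine prod_congr rfl fun i _ => ?_
    rw [hA, hA, map_sub]
  rw [h1] at key
  by_cases hG0 : ev G = 0
  · rw [hG0, order_zero]
    exact le_top
  · obtain ⟨d, hd⟩ := ENat.ne_top_iff_exists.1 (order_eq_top.not.2 hG0)
    rw [hval _ _ (vv_lc_eq.2 hd.symm), neg_neg, zpow_natCast] at key
    rw [← hd, Nat.cast_le]
    by_contra h2
    exact absurd key (not_le.2 (pow_lt_pow_right_of_lt_one₀ (zero_lt_iff.2 hg0) hg1
      (not_le.1 h2)))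

end Pool.Agent.MP_deef5c_ag.O

end

section

/-! Reduced principal parts of a rational function. -/

open PowerSeries IsLocalRing Finset Function
open scoped Polynomial

namespace Pool.Agent.MP_deef5c_ag.O

universe u

namespace Pf.Aux

variable {Ω : Type u} [Field Ω] [DecidableEq Ω]

/-- principal parts with pole orders `n b` -/
noncomputable def pol (Z : Finset Ω) (n : Ω → ℕ) (c : Ω → ℕ → Ω) : (Polynomial Ω) :=
  ∑ b ∈ Z, (∑ j ∈ Icc 1 (n b), Polynomial.C (c b j) * (Polynomial.X - Polynomial.C b) ^ (n b - j)) *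
    ∏ b' ∈ Z.erase b, (Polynomial.X - Polynomial.C b') ^ (n b')

omit [DecidableEq Ω] in
theorem natDegree_den (Z : Finset Ω) (n : Ω → ℕ) :
    (∏ b ∈ Z, (Polynomial.X - Polynomial.C b) ^ n b : (Polynomial Ω)).natDegree = ∑ b ∈ Z, n b := by
  rw [Polynomial.natDegree_prod_of_monic _ _ fun b _ => (Polynomial.monic_X_sub_C b).pow _]
  refine Finset.sum_congr rfl fun b _ => ?_
  rw [Polynomial.natDegree_pow, Polynomial.natDegree_X_sub_C, mul_one]

omit [DecidableEq Ω] in
theorem monic_den (Z : Finset Ω) (n : Ω → ℕ) :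
    (∏ b ∈ Z, (Polynomial.X - Polynomial.C b) ^ n b : (Polynomial Ω)).Monic :=
  Polynomial.monic_prod_of_monic _ _ fun b _ => (Polynomial.monic_X_sub_C b).pow _

theorem pol_deg (Z : Finset Ω) (n : Ω → ℕ) (c : Ω → ℕ → Ω) :
    (pol Z n c).degree < ((∑ b ∈ Z, n b : ℕ) : WithBot ℕ) := by
  unfold pol
  refine (Polynomial.degree_sum_le _ _).trans_lt ?_
  rw [Finset.sup_lt_iff (WithBot.bot_lt_coe _)]
  intro b hb
  rw [Finset.sum_mul]
  refine (Polynomial.degree_sum_le _ _).trans_lt ?_
  rw [Finset.sup_lt_iff (WithBot.bot_lt_coe _)]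
  intro j hj
  rw [Finset.mem_Icc] at hj
  have h1 : (Polynomial.C (c b j) * (Polynomial.X - Polynomial.C b) ^ (n b - j) *
      ∏ b' ∈ Z.erase b, (Polynomial.X - Polynomial.C b') ^ (n b') : (Polynomial Ω)).natDegree ≤
      0 + (n b - j) + ∑ b' ∈ Z.erase b, n b' := by
    refine Polynomial.natDegree_mul_le.trans (add_le_add (Polynomial.natDegree_mul_le.trans
      (add_le_add (by simp) ?_)) (natDegree_den _ _).le)
    rw [Polynomial.natDegree_pow, Polynomial.natDegree_X_sub_C, mul_one]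
  refine Polynomial.degree_le_natDegree.trans_lt ?_
  have h2 := Finset.add_sum_erase Z n hb
  exact_mod_cast (by omega : _ < ∑ b ∈ Z, n b)

omit [DecidableEq Ω] in
theorem cop (Z : Finset Ω) : Set.Pairwise (Z : Set Ω) fun i j =>
    IsCoprime (Polynomial.X - Polynomial.C i : (Polynomial Ω)) (Polynomial.X - Polynomial.C j) :=
  fun _ _ _ _ hij => Polynomial.isCoprime_X_sub_C_of_isUnit_sub (sub_ne_zero.2 hij).isUnit

theorem pol_fin (Z : Finset Ω) (n : Ω → ℕ) (c : Ω → ℕ → Ω) :
    pol Z n c = ∑ b ∈ Z, ∑ j : Fin (n b), Polynomial.C (c b (n b - j.1)) *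
      (Polynomial.X - Polynomial.C b) ^ j.1 *
        ∏ b' ∈ Z.erase b, (Polynomial.X - Polynomial.C b') ^ (n b') := by
  unfold pol
  refine Finset.sum_congr rfl fun b _ => ?_
  rw [← Finset.sum_mul]
  congr 1
  rw [Fin.sum_univ_eq_sum_range (fun j => Polynomial.C (c b (n b - j)) *
    (Polynomial.X - Polynomial.C b) ^ j)]
  refine Finset.sum_nbij' (fun j => n b - j) (fun j => n b - j) ?_ ?_ ?_ ?_ ?_
  · intro j hj; simp only [Finset.mem_Icc, Finset.mem_range] at hj ⊢; omega
  · intro j hj; simp only [Finset.mem_Icc, Finset.mem_range] at hj ⊢; omega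
  · intro j hj; simp only [Finset.mem_Icc] at hj ⊢; omega
  · intro j hj; simp only [Finset.mem_range] at hj ⊢; omega
  · intro j hj
    simp only [Finset.mem_Icc] at hj
    rw [show n b - (n b - j) = j by omega]

theorem pol_unique (Z : Finset Ω) (n : Ω → ℕ) (c c' : Ω → ℕ → Ω) (h : pol Z n c = pol Z n c')
    (b : Ω) (hb : b ∈ Z) (j : ℕ) (h1 : 1 ≤ j) (h2 : j ≤ n b) : c b j = c' b j := by
  rw [pol_fin, pol_fin] at h
  have key := Polynomial.quo_mul_prod_pow_add_sum_rem_mul_prod_pow_unique (s := Z)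
    (g := fun b => Polynomial.X - Polynomial.C b) (fun b _ => Polynomial.monic_X_sub_C b) (cop Z)
    (n := n) (q₁ := 0) (q₂ := 0) (r₁ := fun b j => Polynomial.C (c b (n b - j.1)))
    (r₂ := fun b j => Polynomial.C (c' b (n b - j.1)))
    (fun b _ j => by
      rw [Polynomial.degree_X_sub_C]; exact Polynomial.degree_C_le.trans_lt zero_lt_one)
    (fun b _ j => by
      rw [Polynomial.degree_X_sub_C]; exact Polynomial.degree_C_le.trans_lt zero_lt_one)
    (by rw [h])
  have h3 := congrFun (key.2 b hb) ⟨n b - j, by omega⟩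
  simp only [show n b - (n b - j) = j by omega] at h3
  exact Polynomial.C_injective h3

theorem pol_exists (Z : Finset Ω) (n : Ω → ℕ) (P : (Polynomial Ω))
    (hP : P.degree < ((∑ b ∈ Z, n b : ℕ) : WithBot ℕ)) :
    ∃ a : Ω → ℕ → Ω, (∀ b j, a b j ≠ 0 → b ∈ Z ∧ 1 ≤ j ∧ j ≤ n b) ∧ P = pol Z n a := by
  obtain ⟨q, r, hr, hf⟩ := Polynomial.eq_quo_mul_prod_pow_add_sum_rem_mul_prod_pow (s := Z) P
    (g := fun b => Polynomial.X - Polynomial.C b) (fun b _ => Polynomial.monic_X_sub_C b) (cop Z) n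
  let a : Ω → ℕ → Ω := fun b j =>
    if h : b ∈ Z ∧ 1 ≤ j ∧ j ≤ n b then (r b ⟨n b - j, by omega⟩).coeff 0 else 0
  have ha : pol Z n a = ∑ b ∈ Z, ∑ j : Fin (n b), r b j * (Polynomial.X - Polynomial.C b) ^ j.1 *
      ∏ b' ∈ Z.erase b, (Polynomial.X - Polynomial.C b') ^ (n b') := by
    rw [pol_fin]
    refine Finset.sum_congr rfl fun b hb => Finset.sum_congr rfl fun j _ => ?_
    have hj := j.2
    have h1 : b ∈ Z ∧ 1 ≤ n b - j.1 ∧ n b - j.1 ≤ n b := ⟨hb, by omega, by omega⟩
    have h2 : a b (n b - j.1) = (r b j).coeff 0 := by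
      simp only [a, dif_pos h1]
      congr 3
      omega
    have h3 : (r b j).degree ≤ 0 := by
      have := hr b hb j
      rw [Polynomial.degree_X_sub_C] at this
      exact Nat.WithBot.lt_one_iff_le_zero.1 this
    rw [h2, ← Polynomial.eq_C_of_degree_le_zero h3]
  refine ⟨a, fun b j h => ?_, ?_⟩
  · by_contra h1
    exact h (dif_neg h1)
  · rw [← ha] at hf
    have hq : q = 0 := by
      by_contra hq
      have h1 : q * ∏ b ∈ Z, (Polynomial.X - Polynomial.C b) ^ n b = P - pol Z n a := by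
        rw [hf]; ring
      have h2 : (P - pol Z n a).degree < ((∑ b ∈ Z, n b : ℕ) : WithBot ℕ) :=
        (Polynomial.degree_sub_le _ _).trans_lt (max_lt hP (pol_deg Z n a))
      rw [← h1, (monic_den Z n).degree_mul, Polynomial.degree_eq_natDegree (monic_den Z n).ne_zero,
        natDegree_den, Polynomial.degree_eq_natDegree hq] at h2
      have h3 : q.natDegree + ∑ b ∈ Z, n b < ∑ b ∈ Z, n b := by exact_mod_cast h2
      omega
    rw [hf, hq, zero_mul, zero_add]

theorem pol_comp (Z : Finset Ω) (n : Ω → ℕ) (a : Ω → ℕ → Ω) (ξ : Ω) (hξ : ξ ≠ 0)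
    (hZ : ∀ b, ξ * b ∈ Z ↔ b ∈ Z) (hn : ∀ b, n (ξ * b) = n b) :
    (pol Z n a).comp (Polynomial.C ξ * Polynomial.X) =
      Polynomial.C (ξ ^ ∑ b ∈ Z, n b) * pol Z n fun b j => a (ξ * b) j * ξ⁻¹ ^ j := by
  have hl : ∀ b : Ω, (Polynomial.X - Polynomial.C (ξ * b) : (Polynomial Ω)).comp
      (Polynomial.C ξ * Polynomial.X) = Polynomial.C ξ * (Polynomial.X - Polynomial.C b) := by
    intro b
    rw [Polynomial.sub_comp, Polynomial.X_comp, Polynomial.C_comp, map_mul]
    ring
  have hinj : Function.Injective fun b : Ω => ξ * b := fun _ _ h => mul_left_cancel₀ hξ h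
  have hZe : Z.image (fun b => ξ * b) = Z := by
    refine Finset.eq_of_subset_of_card_le (fun c hc => ?_) (Finset.card_image_of_injective _ hinj).ge
    obtain ⟨b, hb, rfl⟩ := Finset.mem_image.1 hc
    exact (hZ b).2 hb
  have h0 : pol Z n a = ∑ b ∈ Z, (∑ j ∈ Icc 1 (n b), Polynomial.C (a (ξ * b) j) *
      (Polynomial.X - Polynomial.C (ξ * b)) ^ (n b - j)) *
      ∏ b' ∈ Z.erase b, (Polynomial.X - Polynomial.C (ξ * b')) ^ (n b') := by
    unfold pol
    conv_lhs => rw [← hZe]
    rw [Finset.sum_image fun _ _ _ _ h => hinj h]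
    refine Finset.sum_congr rfl fun b _ => ?_
    rw [hn, ← Finset.image_erase hinj, Finset.prod_image fun _ _ _ _ h => hinj h]
    simp only [hn]
  rw [h0]
  unfold pol
  rw [Polynomial.sum_comp, Finset.mul_sum]
  refine Finset.sum_congr rfl fun b hb => ?_
  rw [Polynomial.mul_comp, Polynomial.sum_comp, Polynomial.prod_comp]
  simp only [Polynomial.mul_comp, Polynomial.pow_comp, Polynomial.C_comp, hl, mul_pow]
  rw [Finset.prod_mul_distrib, Finset.prod_pow_eq_pow_sum, Finset.sum_mul, Finset.sum_mul,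
    Finset.mul_sum]
  refine Finset.sum_congr rfl fun j hj => ?_
  rw [Finset.mem_Icc] at hj
  have h1 : ξ ^ (∑ b ∈ Z, n b) * ξ⁻¹ ^ j = ξ ^ (n b - j) * ξ ^ (∑ b' ∈ Z.erase b, n b') := by
    rw [← Finset.add_sum_erase Z n hb, show n b + ∑ b' ∈ Z.erase b, n b' =
      (n b - j) + (∑ b' ∈ Z.erase b, n b') + j by omega, pow_add, pow_add, mul_assoc, ← mul_pow,
      mul_inv_cancel₀ hξ, one_pow, mul_one]
  have h2 := congrArg (Polynomial.C (R := Ω)) h1
  simp only [map_mul, map_pow] at h2 ⊢
  linear_combination (-(Polynomial.C (a (ξ * b) j) * (Polynomial.X - Polynomial.C b) ^ (n b - j) *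
    ∏ b' ∈ Z.erase b, (Polynomial.X - Polynomial.C b') ^ (n b'))) * h2

theorem pol_smul (Z : Finset Ω) (n : Ω → ℕ) (a : Ω → ℕ → Ω) (t : Ω) :
    Polynomial.C t * pol Z n a = pol Z n fun b j => t * a b j := by
  unfold pol
  rw [Finset.mul_sum]
  refine Finset.sum_congr rfl fun b _ => ?_
  rw [← mul_assoc, Finset.mul_sum]
  simp only [map_mul, mul_assoc]

/-- the inverse of `X - b` -/
noncomputable def uu (b : Ω) : FractionRing (Polynomial Ω) :=
  (algebraMap (Polynomial Ω) (FractionRing (Polynomial Ω)) (Polynomial.X - Polynomial.C b))⁻¹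

theorem pol_frac (Z : Finset Ω) (n : Ω → ℕ) (a : Ω → ℕ → Ω) :
    algebraMap (Polynomial Ω) (FractionRing (Polynomial Ω)) (pol Z n a) =
      algebraMap (Polynomial Ω) (FractionRing (Polynomial Ω)) (∏ b ∈ Z, (Polynomial.X - Polynomial.C b) ^ n b) *
        ∑ b ∈ Z, ∑ j ∈ Icc 1 (n b),
          algebraMap (Polynomial Ω) (FractionRing (Polynomial Ω)) (Polynomial.C (a b j)) * uu b ^ j := by
  unfold pol
  rw [map_sum, Finset.mul_sum]
  refine Finset.sum_congr rfl fun b hb => ?_
  rw [Finset.sum_mul, map_sum, Finset.mul_sum]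
  refine Finset.sum_congr rfl fun j hj => ?_
  rw [Finset.mem_Icc] at hj
  have h0 : algebraMap (Polynomial Ω) (FractionRing (Polynomial Ω)) (Polynomial.X - Polynomial.C b) * uu b = 1 :=
    mul_inv_cancel₀ ((map_ne_zero_iff _ (IsFractionRing.injective _ _)).2
      (Polynomial.monic_X_sub_C b).ne_zero)
  rw [← Finset.mul_prod_erase Z _ hb]
  simp only [map_mul, map_pow]
  have h1 : algebraMap (Polynomial Ω) (FractionRing (Polynomial Ω)) (Polynomial.X - Polynomial.C b) ^ n b * uu b ^ j =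
      algebraMap (Polynomial Ω) (FractionRing (Polynomial Ω)) (Polynomial.X - Polynomial.C b) ^ (n b - j) := by
    conv_lhs => rw [show n b = (n b - j) + j by omega]
    rw [pow_add, mul_assoc, ← mul_pow, h0, one_pow, mul_one]
  rw [← h1]
  ring

section Frob

variable (p : ℕ) [Fact p.Prime] [IsAlgClosed Ω] [CharP Ω p]

/-- the inverse of Frobenius -/
noncomputable def ps : Ω →+* Ω := (frobeniusEquiv Ω p).symm

omit [DecidableEq Ω] in
theorem ps_pow (x : Ω) : ps p x ^ p = x := (frobeniusEquiv Ω p).apply_symm_apply x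

omit [DecidableEq Ω] in
theorem ps_pow' (x : Ω) : ps p (x ^ p) = x := (frobeniusEquiv Ω p).symm_apply_apply x

omit [DecidableEq Ω] in
theorem psi_succ (i : ℕ) (x : Ω) : (ps p ^ (i + 1)) x = ps p ((ps p ^ i) x) := by
  rw [pow_succ']; rfl

omit [DecidableEq Ω] in
theorem psi_pow (i : ℕ) (x : Ω) : (ps p ^ i) (x ^ p ^ i) = x := by
  induction i with
  | zero => simp
  | succ i ih => rw [psi_succ, pow_succ, pow_mul, map_pow, ih, ps_pow']

omit [DecidableEq Ω] in
theorem psi_fix (i : ℕ) (x : Ω) (hx : x ^ p = x) : (ps p ^ i) x = x := by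
  induction i with
  | zero => simp
  | succ i ih =>
    rw [psi_succ, ih]
    conv_lhs => rw [← hx]
    exact ps_pow' p x

/-- the sum `∑_{i ≥ 1} φ^i (a (p^i j))` -/
noncomputable def zz (N : ℕ) (a : ℕ → Ω) (j : ℕ) : Ω :=
  ∑ i ∈ range N, (ps p ^ (i + 1)) (a (p ^ (i + 1) * j))

omit [DecidableEq Ω] in
theorem zz_zero (N e : ℕ) (a : ℕ → Ω) (ha : ∀ j, a j ≠ 0 → j ≤ p * e) (j : ℕ) (hj : e < j) :
    zz p N a j = 0 := by
  refine Finset.sum_eq_zero fun i _ => ?_
  have hp : 0 < p := (Fact.out : p.Prime).pos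
  have : a (p ^ (i + 1) * j) = 0 := by
    by_contra h
    have h1 := ha _ h
    have h2 : p * j ≤ p ^ (i + 1) * j :=
      Nat.mul_le_mul_right _ (Nat.le_self_pow (Nat.succ_ne_zero i) p)
    have h3 : p * e < p * j := Nat.mul_lt_mul_of_pos_left hj hp
    omega
  rw [this, map_zero]

omit [DecidableEq Ω] in
theorem zz_rec (M : ℕ) (a : ℕ → Ω) (ha : ∀ j, a j ≠ 0 → j ≤ M) (j : ℕ) (hj : 1 ≤ j) :
    zz p (M + 1) a j ^ p = a (p * j) + zz p (M + 1) a (p * j) := by
  have hp : 1 < p := (Fact.out : p.Prime).one_lt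
  unfold zz
  rw [sum_pow_char, Finset.sum_range_succ', Finset.sum_range_succ]
  have h0 : a (p ^ (M + 1) * (p * j)) = 0 := by
    by_contra h
    have h1 := ha _ h
    have h2 : M + 1 < p ^ (M + 1) := Nat.lt_pow_self hp
    have h3 : p ^ (M + 1) * 1 ≤ p ^ (M + 1) * (p * j) :=
      Nat.mul_le_mul_left _ (Nat.mul_pos (by omega) hj)
    omega
  rw [h0, map_zero, add_zero, add_comm]
  congr 1
  · rw [psi_succ, ps_pow]; simp
  · refine Finset.sum_congr rfl fun i _ => ?_
    rw [psi_succ, ps_pow, pow_succ p (i + 1), mul_assoc]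

omit [DecidableEq Ω] in
theorem one_var {K : Type*} [CommRing K] (ι : Ω →+* K) (u : K) (e : ℕ) (a : ℕ → Ω)
    (ha : ∀ j, a j ≠ 0 → j ≤ p * e) :
    ∑ j ∈ Icc 1 (p * e), ι (a j) * u ^ j =
      ∑ j ∈ Icc 1 (p * e), ι (if p ∣ j then 0 else a j + zz p (p * e + 1) a j) * u ^ j +
        ∑ j ∈ Icc 1 e, (ι (zz p (p * e + 1) a j) * u ^ j) ^ p -
        ∑ j ∈ Icc 1 e, ι (zz p (p * e + 1) a j) * u ^ j := by
  have hp : 0 < p := (Fact.out : p.Prime).pos
  have h1 : ∑ j ∈ Icc 1 e, ι (zz p (p * e + 1) a j) * u ^ j =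
      ∑ j ∈ Icc 1 (p * e), ι (zz p (p * e + 1) a j) * u ^ j := by
    refine Finset.sum_subset (Finset.Icc_subset_Icc_right (Nat.le_mul_of_pos_left e hp)) ?_
    intro j hj hj'
    simp only [Finset.mem_Icc] at hj hj'
    rw [zz_zero p _ e a ha j (by omega), map_zero, zero_mul]
  have h2 : ∑ j ∈ Icc 1 e, (ι (zz p (p * e + 1) a j) * u ^ j) ^ p =
      ∑ j ∈ Icc 1 (p * e), ι (if p ∣ j then a j + zz p (p * e + 1) a j else 0) * u ^ j := by
    have h3 : ∀ j, ι (if p ∣ j then a j + zz p (p * e + 1) a j else 0) * u ^ j =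
        if p ∣ j then ι (a j + zz p (p * e + 1) a j) * u ^ j else 0 := by
      intro j; split_ifs <;> simp
    simp only [h3]
    rw [← Finset.sum_filter]
    refine Finset.sum_bij (fun j _ => p * j) ?_ ?_ ?_ ?_
    · intro j hj
      simp only [Finset.mem_Icc, Finset.mem_filter] at hj ⊢
      exact ⟨⟨Nat.mul_pos hp hj.1, Nat.mul_le_mul_left _ hj.2⟩, dvd_mul_right _ _⟩
    · intro i _ j _ h
      exact Nat.eq_of_mul_eq_mul_left hp h
    · intro j hj
      simp only [Finset.mem_Icc, Finset.mem_filter] at hj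
      obtain ⟨⟨h4, h5⟩, i, rfl⟩ := hj
      refine ⟨i, Finset.mem_Icc.2 ⟨Nat.pos_of_mul_pos_left h4, Nat.le_of_mul_le_mul_left h5 hp⟩, rfl⟩
    · intro j hj
      rw [Finset.mem_Icc] at hj
      rw [mul_pow, ← map_pow, zz_rec p (p * e) a ha j hj.1, ← pow_mul, mul_comm j p]
  rw [h1, h2, ← Finset.sum_add_distrib, ← Finset.sum_sub_distrib]
  refine Finset.sum_congr rfl fun j _ => ?_
  split_ifs <;> simp only [map_add, map_zero] <;> ring

end Frob

end Pf.Aux

open Pf.Aux in
/-- The linear map `a ↦ polar p Z e a` on families `a b j` (`b ∈ Z`, `1 ≤ j ≤ p * e b`) is injective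
(reduce modulo `(X-b)^(p e b)`) hence bijective onto the polynomials of degree `< p E`.  Let `a` be the
family of `P`, extended by zero; uniqueness gives `a b j * ξ^j = α * a (ξ b) j`.  With `φ` the inverse
of Frobenius put `c b j = ∑_{i ≥ 0} φ^i (a b (p^i j))` for `p ∤ j`, `z b j = ∑_{i ≥ 1} φ^i (a b (p^i j))`
(zero unless `j ≤ e b`), and `Z₁ = g * ∑ z b j / (X-b)^j`.  Then
`a b j = c b j + [p ∣ j] (z b (j/p))^p - z b j`. -/
theorem pf (p : ℕ) [Fact p.Prime] {Ω : Type u} [Field Ω] [IsAlgClosed Ω] [CharP Ω p]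
    [DecidableEq Ω] (Z : Finset Ω) (e : Ω → ℕ) (g P : (Polynomial Ω))
    (hg : g = ∏ b ∈ Z, (Polynomial.X - Polynomial.C b) ^ e b)
    (hP : P.degree < ((p * g.natDegree : ℕ) : WithBot ℕ))
    (ξ α : Ω) (hξ : ξ ≠ 0) (hα : α ^ p = α) (hZ : ∀ b, ξ * b ∈ Z ↔ b ∈ Z)
    (he : ∀ b, e (ξ * b) = e b)
    (hPξ : Polynomial.C α * P.comp (Polynomial.C ξ * Polynomial.X) =
      Polynomial.C (ξ ^ (p * g.natDegree)) * P) :
    ∃ (c : Ω → ℕ → Ω) (Z₁ : (Polynomial Ω)), (∀ b j, p ∣ j → c b j = 0) ∧
      (∀ b j, c b j ≠ 0 → b ∈ Z ∧ j ≤ p * e b) ∧ (∀ b j, c b j * ξ ^ j = α * c (ξ * b) j) ∧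
      Z₁.degree < (g.natDegree : ℕ) ∧ (polar p Z e c).degree < ((p * g.natDegree : ℕ) : WithBot ℕ) ∧
      P = polar p Z e c + Z₁ ^ p - Z₁ * g ^ (p - 1) := by
  have hp : 0 < p := (Fact.out : p.Prime).pos
  have hd : g.natDegree = ∑ b ∈ Z, e b := by rw [hg, natDegree_den]
  have hd' : p * g.natDegree = ∑ b ∈ Z, p * e b := by rw [hd, Finset.mul_sum]
  rw [hd'] at hP hPξ
  obtain ⟨a, ha, hPa⟩ := pol_exists Z (fun b => p * e b) P hP
  have hequi : ∀ b j, a b j * ξ ^ j = α * a (ξ * b) j := by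
    intro b j
    by_cases h : b ∈ Z ∧ 1 ≤ j ∧ j ≤ p * e b
    · rw [hPa, pol_comp Z _ a ξ hξ hZ (fun b => by simp only [he]), mul_left_comm, pol_smul] at hPξ
      have h1 := mul_left_cancel₀ (Polynomial.C_ne_zero.2 (pow_ne_zero _ hξ)) hPξ
      have h2 := pol_unique Z _ _ _ h1 b h.1 j h.2.1 h.2.2
      rw [← h2, mul_assoc, mul_assoc, ← mul_pow, inv_mul_cancel₀ hξ, one_pow, mul_one]
    · have h1 : a b j = 0 := by
        by_contra h1
        exact h (ha b j h1)
      have h2 : a (ξ * b) j = 0 := by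
        by_contra h2
        have := ha _ j h2
        rw [hZ, he] at this
        exact h this
      rw [h1, h2, zero_mul, mul_zero]
  have ha' : ∀ b j, a b j ≠ 0 → j ≤ p * e b := fun b j h => (ha b j h).2.2
  let z : Ω → ℕ → Ω := fun b j => zz p (p * e b + 1) (a b) j
  let c : Ω → ℕ → Ω := fun b j => if p ∣ j then 0 else a b j + z b j
  have hz : ∀ b j, z b j * ξ ^ j = α * z (ξ * b) j := by
    intro b j
    simp only [z, zz, he]
    rw [Finset.sum_mul, Finset.mul_sum]
    refine Finset.sum_congr rfl fun i _ => ?_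
    have h1 := congrArg (ps p ^ (i + 1)) (hequi b (p ^ (i + 1) * j))
    rw [map_mul, map_mul, psi_fix p _ α hα, mul_comm (p ^ (i + 1)) j, pow_mul, psi_pow] at h1
    rw [mul_comm (p ^ (i + 1)) j]
    exact h1
  refine ⟨c, pol Z e z, fun b j h => if_pos h, fun b j h => ?_, fun b j => ?_, ?_, ?_, ?_⟩
  · by_contra h1
    apply h
    simp only [c]
    split_ifs
    · rfl
    by_cases hb : b ∈ Z
    · have h2 : p * e b < j := by
        by_contra h2
        exact h1 ⟨hb, by omega⟩
      have h3 : a b j = 0 := by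
        by_contra h3
        have := ha' b j h3
        omega
      have h4 : e b ≤ p * e b := Nat.le_mul_of_pos_left _ hp
      rw [h3, zero_add]
      exact zz_zero p _ (e b) (a b) (ha' b) j (by omega)
    · have h3 : ∀ j, a b j = 0 := fun j => by
        by_contra h3
        exact hb (ha b j h3).1
      simp [z, zz, h3]
  · simp only [c]
    split_ifs
    · simp
    · rw [add_mul, mul_add, hequi, hz]
  · rw [hd]; exact pol_deg Z e z
  · rw [hd']; exact pol_deg Z (fun b => p * e b) c
  · have : CharP (FractionRing (Polynomial Ω)) p :=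
      charP_of_injective_algebraMap (IsFractionRing.injective (Polynomial Ω) _) p
    apply IsFractionRing.injective (Polynomial Ω) (FractionRing (Polynomial Ω))
    have hgp : (∏ b ∈ Z, (Polynomial.X - Polynomial.C b) ^ (p * e b) : (Polynomial Ω)) = g ^ p := by
      rw [hg, ← Finset.prod_pow]
      exact Finset.prod_congr rfl fun b _ => by rw [← pow_mul, mul_comm]
    have hc : polar p Z e c = pol Z (fun b => p * e b) c := rfl
    rw [hc, map_sub, map_add, map_mul, map_pow, map_pow]
    conv_lhs => rw [hPa]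
    rw [pol_frac, pol_frac, pol_frac, hgp, ← hg, mul_pow, sum_pow_char, map_pow]
    simp only [sum_pow_char]
    have h1 : ∀ b ∈ Z, _ := fun b (_ : b ∈ Z) => one_var p
      ((algebraMap (Polynomial Ω) (FractionRing (Polynomial Ω))).comp Polynomial.C) (uu b) (e b) (a b) (ha' b)
    simp only [RingHom.comp_apply] at h1
    rw [Finset.sum_congr rfl h1, Finset.sum_sub_distrib, Finset.sum_add_distrib]
    obtain ⟨q, hq⟩ : ∃ q, p = q + 1 := ⟨p - 1, by omega⟩
    have h2 : algebraMap (Polynomial Ω) (FractionRing (Polynomial Ω)) g ^ p =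
        algebraMap (Polynomial Ω) (FractionRing (Polynomial Ω)) g * algebraMap (Polynomial Ω) (FractionRing (Polynomial Ω)) g ^ (p - 1) := by
      rw [← pow_succ', Nat.sub_add_cancel hp]
    simp only [c, z]
    rw [h2]
    ring

end Pool.Agent.MP_deef5c_ag.O

end

section

/-! Tangent vectors, and Witt vectors as a base ring. -/

open PowerSeries IsLocalRing Finset Function
open scoped Polynomial

namespace Pool.Agent.MP_deef5c_ag.O

universe u

/-- a non-trivial tangent vector of a local algebra which is not a field (Nakayama: `m ≠ m^2`) -/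
theorem exists_eps {D k : Type u} [CommRing D] [IsLocalRing D] [IsNoetherianRing D] [Field k]
    [Algebra k D] (π : D →ₐ[k] k) (h : maximalIdeal D ≠ ⊥) :
    ∃ φ : D →ₐ[k] DualNumber k, (∀ a, (φ a).fst = π a) ∧ ∃ a, π a = 0 ∧ φ a ≠ 0 := by
  have hs : Surjective π := fun c => ⟨algebraMap k D c, π.commutes c⟩
  have hm : ∀ a, a ∈ maximalIdeal D ↔ π a = 0 := fun a => by
    rw [← IsLocalRing.ker_eq_maximalIdeal (π : D →+* k) hs]; rfl
  have hlt : maximalIdeal D ^ 2 < maximalIdeal D :=
    (IsLocalRing.maximalIdeal_sq_lt_maximalIdeal D).2 fun hf =>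
      h (IsLocalRing.isField_iff_maximalIdeal_eq.1 hf)
  obtain ⟨a, ha, ha2⟩ := SetLike.exists_of_lt hlt
  obtain ⟨f, hf, hW⟩ := Submodule.exists_le_ker_of_notMem
    (p := (maximalIdeal D ^ 2).restrictScalars k) (v := a)
    (by rwa [Submodule.restrictScalars_mem])
  obtain ⟨g, hg⟩ : ∃ g : D →ₗ[k] k, ∀ x, g x = f x - π x * f 1 :=
    ⟨f - f 1 • π.toLinearMap, fun x => by simp [mul_comm]⟩
  have hmul : ∀ x y, g (x * y) = π x * g y + π y * g x := fun x y => by
    have hx : x - π x • (1 : D) ∈ maximalIdeal D := (hm _).2 (by simp)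
    have hy : y - π y • (1 : D) ∈ maximalIdeal D := (hm _).2 (by simp)
    have h1 : f ((x - π x • (1 : D)) * (y - π y • (1 : D))) = 0 :=
      hW (show _ ∈ maximalIdeal D ^ 2 from pow_two (maximalIdeal D) ▸ Ideal.mul_mem_mul hx hy)
    have h2 : (x - π x • (1 : D)) * (y - π y • (1 : D)) =
        x * y - π y • x - π x • y + (π x * π y) • (1 : D) := by
      simp only [Algebra.smul_def, map_mul]
      ring
    rw [h2] at h1
    simp only [map_add, map_sub, map_smul, smul_eq_mul] at h1
    rw [hg, hg, hg, map_mul π]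
    linear_combination h1
  refine ⟨AlgHom.ofLinearMap ((TrivSqZeroExt.inlAlgHom k k k).toLinearMap ∘ₗ π.toLinearMap +
    TrivSqZeroExt.inrHom k k ∘ₗ g) ?_ fun x y => ?_, fun x => ?_, a, (hm a).1 ha, fun e => ?_⟩
  · ext <;> simp [hg]
  · ext
    · simp
    · simp [hmul, mul_comm]
  · rw [AlgHom.ofLinearMap_apply]
    simp
  · have h1 := congrArg TrivSqZeroExt.snd e
    simp [hg, (hm a).1 ha] at h1
    exact hf h1

/-- a Witt vector algebra killed by `p` is a `k`-algebra (`WittVector.quotientPEquiv`) -/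
theorem exists_kalg (p : ℕ) [Fact p.Prime] {k A : Type u} [Field k] [CharP k p] [PerfectRing k p]
    [CommRing A] (φ : WittVector p k →+* A) (hp : (p : A) = 0) :
    ∃ ι : k →+* A, ∀ w, ι (w.coeff 0) = φ w := by
  have h : ∀ w ∈ Ideal.span {(p : WittVector p k)}, φ w = 0 := fun w hw => by
    obtain ⟨c, rfl⟩ := Ideal.mem_span_singleton'.1 hw
    rw [map_mul, map_natCast, hp, mul_zero]
  refine ⟨(Ideal.Quotient.lift _ φ h).comp (WittVector.quotientPEquiv (p := p) (k := k)).symm,
    fun w => ?_⟩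
  have h1 : (WittVector.quotientPEquiv (p := p) (k := k)).symm (w.coeff 0) =
      Ideal.Quotient.mk _ w := (RingEquiv.symm_apply_eq _).2 rfl
  rw [RingHom.comp_apply, RingHom.coe_coe, h1, Ideal.Quotient.lift_mk]

/-- the Witt vectors form a complete Noetherian local ring of dimension one -/
theorem witt_cl (p : ℕ) [Fact p.Prime] (k : Type u) [Field k] [CharP k p] [PerfectRing k p] :
    CL (WittVector p k) ∧ maximalIdeal (WittVector p k) = Ideal.span {(p : WittVector p k)} ∧
      ringKrullDim (WittVector p k) = 1 := by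
  have h : maximalIdeal (WittVector p k) = Ideal.span {(p : WittVector p k)} :=
    (WittVector.irreducible p).maximalIdeal_eq
  exact ⟨⟨inferInstance, h ▸ WittVector.isAdicCompleteIdealSpanP⟩, h,
    IsDiscreteValuationRing.ringKrullDim_eq_one _⟩

end Pool.Agent.MP_deef5c_ag.O

end

section

/-! A quotient finite over the Witt vectors. -/

open PowerSeries IsLocalRing Finset Function
open scoped Polynomial

namespace Pool.Agent.MP_deef5c_ag.O

universe u

theorem FinQ_prime_eq {R : Type u} [CommRing R] [IsDomain R] [IsLocalRing R] [IsNoetherianRing R]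
    {x : R} (hx : x ≠ 0) (h : ∀ P : Ideal R, P.IsPrime → P ≠ ⊥ → x ∈ P)
    (P : Ideal R) (hP : P.IsPrime) (hxP : x ∈ P) : P = maximalIdeal R := by
  by_contra hne
  have hPm : P ≤ maximalIdeal R := le_maximalIdeal hP.ne_top
  have hfin := Ideal.finite_minimalPrimes_of_isNoetherianRing R (Ideal.span {x})
  have hns : ¬ ((maximalIdeal R : Set R) ⊆ ⋃ i ∈ (Ideal.span {x}).minimalPrimes, (i : Set R)) := by
    rw [Ideal.subset_union_prime_finite (f := fun i => i) hfin ⊥ ⊥ (fun i hi _ _ => hi.isPrime)]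
    rintro ⟨i, hi, hle⟩
    have h1 : P ≤ i := hPm.trans hle
    have h2 : i ≤ P := hi.2 ⟨hP, (Ideal.span_singleton_le_iff_mem _).mpr hxP⟩ h1
    exact hne (le_antisymm hPm (hle.trans h2))
  obtain ⟨a, ham, ha⟩ := Set.not_subset.mp hns
  have ha' : ∀ i ∈ (Ideal.span {x}).minimalPrimes, a ∉ i := fun i hi hai =>
    ha (Set.mem_biUnion hi hai)
  obtain ⟨P0, hP0, -⟩ := Ideal.exists_minimalPrimes_le (I := Ideal.span {x}) (J := P)
    ((Ideal.span_singleton_le_iff_mem _).mpr hxP)
  have ha0 : a ≠ 0 := fun e => ha' P0 hP0 (e ▸ P0.zero_mem)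
  obtain ⟨P1, hP1, -⟩ := Ideal.exists_minimalPrimes_le (I := Ideal.span {a}) (J := maximalIdeal R)
    ((Ideal.span_singleton_le_iff_mem _).mpr ham)
  have hP1p := hP1.isPrime
  have haP1 : a ∈ P1 := hP1.1.2 (Ideal.mem_span_singleton_self a)
  have hxP1 : x ∈ P1 := h P1 hP1p fun e => ha0 (by rwa [e, Ideal.mem_bot] at haP1)
  obtain ⟨P2, hP2, hle⟩ := Ideal.exists_minimalPrimes_le (I := Ideal.span {x}) (J := P1)
    ((Ideal.span_singleton_le_iff_mem _).mpr hxP1)
  have hP2p := hP2.isPrime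
  have hlt : P2 < P1 := lt_of_le_of_ne hle fun e => ha' P2 hP2 (e ▸ haP1)
  have hbot : (⊥ : Ideal R) < P2 := bot_lt_iff_ne_bot.mpr fun e => hx (by
    have : x ∈ P2 := hP2.1.2 (Ideal.mem_span_singleton_self x)
    rwa [e, Ideal.mem_bot] at this)
  have h1 := Ideal.height_le_one_of_isPrincipal_of_mem_minimalPrimes _ P1 hP1
  have h2 := Ideal.height_add_one_le_of_lt_of_isPrime hlt
  have h3 := Ideal.height_add_one_le_of_lt_of_isPrime hbot
  have h4 : (1 : ℕ∞) ≤ P2.height := le_trans le_add_self h3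
  have h5 : (1 : ℕ∞) + 1 ≤ 1 := (add_le_add h4 le_rfl).trans (h2.trans h1)
  exact absurd h5 (by decide)

theorem FinQ_approx {W R : Type u} [CommRing W] [CommRing R] [IsNoetherianRing R] [Algebra W R]
    (m : Ideal R) (h : ∀ r : R, ∃ w : W, r - algebraMap W R w ∈ m) (N : ℕ) :
    ∃ M : Submodule W R, M.FG ∧ ∀ r : R, ∃ y ∈ M, r - y ∈ m ^ N := by
  induction N with
  | zero => exact ⟨⊥, Submodule.fg_bot, fun r => ⟨0, Submodule.zero_mem _, by simp⟩⟩
  | succ N ih =>
    obtain ⟨M, hM, hr⟩ := ih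
    obtain ⟨S, hS⟩ : (m ^ N).FG := IsNoetherian.noetherian _
    have hsub : ∀ z ∈ Submodule.span W (S : Set R), z ∈ m ^ N := by
      intro z hz
      rw [← hS]
      exact Submodule.span_le_restrictScalars W R (S : Set R) hz
    have key : ∀ y ∈ Ideal.span (S : Set R),
        ∃ z ∈ Submodule.span W (S : Set R), y - z ∈ m ^ (N + 1) := by
      intro y hy
      induction hy using Submodule.span_induction with
      | mem y hy => exact ⟨y, Submodule.subset_span hy, by simp⟩
      | zero => exact ⟨0, Submodule.zero_mem _, by simp⟩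
      | add y y' _ _ hy hy' =>
        obtain ⟨z, hz, e⟩ := hy
        obtain ⟨z', hz', e'⟩ := hy'
        refine ⟨z + z', Submodule.add_mem _ hz hz', ?_⟩
        have := Ideal.add_mem _ e e'
        rwa [show y - z + (y' - z') = y + y' - (z + z') by ring] at this
      | smul r y _ hy =>
        obtain ⟨z, hz, e⟩ := hy
        obtain ⟨w, hw⟩ := h r
        refine ⟨w • z, Submodule.smul_mem _ _ hz, ?_⟩
        have h1 : z * (r - algebraMap W R w) ∈ m ^ (N + 1) := by
          rw [pow_succ]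
          exact Ideal.mul_mem_mul (hsub z hz) hw
        have := Ideal.add_mem _ (Ideal.mul_mem_left _ r e) h1
        rwa [show r * (y - z) + z * (r - algebraMap W R w) = r • y - w • z by
          rw [smul_eq_mul, Algebra.smul_def]; ring] at this
    refine ⟨M ⊔ Submodule.span W (S : Set R), hM.sup ⟨S, rfl⟩, fun r => ?_⟩
    obtain ⟨y, hy, e⟩ := hr r
    obtain ⟨z, hz, e'⟩ := key (r - y) (hS ▸ e)
    refine ⟨y + z, Submodule.add_mem_sup hy hz, ?_⟩
    rwa [show r - (y + z) = r - y - z by ring]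

theorem FinQ_mem_pi {W ι : Type*} [CommRing W] [Fintype ι] (J : Ideal W) (x : ι → W) :
    x ∈ (J • ⊤ : Submodule W (ι → W)) ↔ ∀ i, x i ∈ J := by
  classical
  constructor
  · intro hx i
    refine Submodule.smul_induction_on hx (fun r hr n _ => ?_) (fun a b ha hb => ?_)
    · exact J.mul_mem_right _ hr
    · exact J.add_mem ha hb
  · intro hx
    have e : x = ∑ i, x i • (Pi.single i (1 : W) : ι → W) := by
      ext j
      simp [Finset.sum_apply, Pi.single_apply]
    rw [e]
    exact Submodule.sum_mem _ fun i _ => Submodule.smul_mem_smul (hx i) trivial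

theorem FinQ_precomplete {W ι : Type*} [CommRing W] [Fintype ι] (I : Ideal W)
    [hI : IsPrecomplete I W] : IsPrecomplete I (ι → W) := by
  refine ⟨fun f hf => ?_⟩
  have h : ∀ i, ∃ L : W, ∀ n, f n i ≡ L [SMOD (I ^ n • ⊤ : Submodule W W)] := fun i =>
    hI.prec (f := fun n => f n i) fun {m n} hmn => by
      have := (FinQ_mem_pi _ _).mp (SModEq.sub_mem.mp (hf hmn)) i
      rw [SModEq.sub_mem, smul_eq_mul, Ideal.mul_top]
      exact this
  choose L hL using h
  refine ⟨L, fun n => SModEq.sub_mem.mpr ((FinQ_mem_pi _ _).mpr fun i => ?_)⟩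
  have := SModEq.sub_mem.mp (hL i n)
  rwa [smul_eq_mul, Ideal.mul_top] at this

theorem FinQ_finite {W R : Type u} [CommRing W] [CommRing R] [IsDomain R] [IsLocalRing R]
    [IsNoetherianRing R] [Algebra W R] (t : W) [IsPrecomplete (Ideal.span {t}) W]
    (h : ∀ r : R, ∃ w : W, r - algebraMap W R w ∈ maximalIdeal R)
    (ht : algebraMap W R t ∈ maximalIdeal R)
    (hP : ∀ P : Ideal R, P.IsPrime → algebraMap W R t ∈ P → P = maximalIdeal R) :
    Module.Finite W R := by
  have hrad : maximalIdeal R ≤ (Ideal.span {algebraMap W R t}).radical := by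
    rw [Ideal.radical_eq_sInf]
    refine le_sInf fun J hJ => ?_
    rw [hP J hJ.2 (hJ.1 (Ideal.mem_span_singleton_self _))]
  obtain ⟨N, hN⟩ := Ideal.exists_pow_le_of_le_radical_of_fg hrad (IsNoetherian.noetherian _)
  obtain ⟨M, hM, hr⟩ := FinQ_approx (W := W) (maximalIdeal R) h N
  obtain ⟨n, v, hv⟩ := Submodule.fg_iff_exists_fin_generating_family.mp hM
  have hpre := FinQ_precomplete (ι := Fin n) (Ideal.span {t})
  have hhaus : IsHausdorff (Ideal.span {t}) R := by
    rw [← IsHausdorff.map_algebraMap_iff (S := R)]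
    refine IsHausdorff.of_isLocalRing _ _ (ne_top_of_le_ne_top (maximalIdeal.isMaximal R).ne_top ?_)
    rw [Ideal.map_span, Set.image_singleton]
    exact (Ideal.span_singleton_le_iff_mem _).mpr ht
  refine Module.Finite.of_surjective (Fintype.linearCombination W v)
    (surjective_of_mkQ_comp_surjective (I := Ideal.span {t}) ?_)
  intro y
  obtain ⟨r, rfl⟩ := Submodule.mkQ_surjective _ y
  obtain ⟨z, hz, e⟩ := hr r
  rw [← hv, ← Fintype.range_linearCombination] at hz
  obtain ⟨c, rfl⟩ := hz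
  refine ⟨c, ?_⟩
  rw [LinearMap.comp_apply, Submodule.mkQ_apply, Submodule.mkQ_apply, eq_comm,
    Submodule.Quotient.eq]
  obtain ⟨s, hs⟩ := Ideal.mem_span_singleton'.mp (hN e)
  rw [← hs, mul_comm, ← Algebra.smul_def]
  exact Submodule.smul_mem_smul (Ideal.mem_span_singleton_self t) trivial

/-- Take `Q` maximal among the primes not containing `p`.  In `R₁ = R ⧸ Q` every non-zero prime
contains `p`.  If the maximal ideal were not minimal over `p`, pick (prime avoidance) `a` in it
outside the minimal primes of `p`; a prime minimal over `a` has height at most one, contains `p`,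
hence equals a minimal prime of `p`, absurd.  So `R₁ / p` is Artinian with residue field `k`, hence
finite over `k`, and `R₁` is `p`-adically separated: complete Nakayama
(`surjective_of_mkQ_comp_surjective` or a direct limit argument) gives finiteness. -/
theorem exists_fin_quot (p : ℕ) [Fact p.Prime] (k : Type u) [Field k] [CharP k p] [PerfectRing k p]
    (R : Type u) [CommRing R] [IsDomain R] [IsLocalRing R] [CL R] [Algebra (WittVector p k) R]
    (π : R →+* k) (hπ : ∀ w, π (algebraMap (WittVector p k) R w) = w.coeff 0) (hp : (p : R) ≠ 0) :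
    ∃ Q : Ideal R, Q.IsPrime ∧ (p : R) ∉ Q ∧ Module.Finite (WittVector p k) (R ⧸ Q) := by
  have hsurj : Surjective π := fun c =>
    ⟨algebraMap _ R (WittVector.teichmuller p c), by rw [hπ, WittVector.teichmuller_coeff_zero]⟩
  have hker : RingHom.ker π = maximalIdeal R :=
    eq_maximalIdeal (RingHom.ker_isMaximal_of_surjective π hsurj)
  obtain ⟨Q, ⟨hQ, hpQ⟩, hmax⟩ := set_has_maximal_iff_noetherian.mpr
    (inferInstance : IsNoetherian R R) {Q : Ideal R | Q.IsPrime ∧ (p : R) ∉ Q}
    ⟨⊥, Ideal.isPrime_bot, by simpa using hp⟩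
  refine ⟨Q, hQ, hpQ, ?_⟩
  have hsq : Surjective (Ideal.Quotient.mk Q) := Ideal.Quotient.mk_surjective
  have : Nontrivial (R ⧸ Q) := Ideal.Quotient.nontrivial_iff.mpr hQ.ne_top
  have : IsLocalRing (R ⧸ Q) := IsLocalRing.of_surjective' _ hsq
  have hloc : ∀ r ∈ maximalIdeal R, Ideal.Quotient.mk Q r ∈ maximalIdeal (R ⧸ Q) := by
    intro r hr
    have : IsLocalHom (Ideal.Quotient.mk Q) := IsLocalHom.of_surjective _ hsq
    exact map_nonunit _ r hr
  have hpm : (p : R) ∈ maximalIdeal R := by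
    rw [← hker, RingHom.mem_ker, map_natCast, CharP.cast_eq_zero]
  have hpa : algebraMap (WittVector p k) (R ⧸ Q) p = Ideal.Quotient.mk Q p := by
    rw [map_natCast, map_natCast]
  have hp0 : Ideal.Quotient.mk Q p ≠ 0 := fun e => hpQ (Ideal.Quotient.eq_zero_iff_mem.mp e)
  refine FinQ_finite (p : WittVector p k) (fun r => ?_) (hpa ▸ hloc _ hpm) (fun P hP hpP => ?_)
  · obtain ⟨r, rfl⟩ := hsq r
    refine ⟨WittVector.teichmuller p (π r), ?_⟩
    have : r - algebraMap _ R (WittVector.teichmuller p (π r)) ∈ maximalIdeal R := by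
      rw [← hker, RingHom.mem_ker, map_sub, hπ, WittVector.teichmuller_coeff_zero, sub_self]
    have h2 := hloc _ this
    rw [map_sub] at h2
    exact h2
  · refine FinQ_prime_eq hp0 (fun P' hP' hne => ?_) P hP (hpa ▸ hpP)
    by_contra hn
    have hle : Q ≤ P'.comap (Ideal.Quotient.mk Q) := fun a ha => by
      rw [Ideal.mem_comap, Ideal.Quotient.eq_zero_iff_mem.mpr ha]
      exact P'.zero_mem
    refine hmax (P'.comap (Ideal.Quotient.mk Q)) ⟨hP'.comap _, hn⟩ (lt_of_le_of_ne hle fun e => hne ?_)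
    rw [eq_bot_iff]
    intro y hy
    obtain ⟨a, rfl⟩ := hsq y
    have : a ∈ Q := by rw [e]; exact hy
    exact Ideal.Quotient.eq_zero_iff_mem.mpr this

end Pool.Agent.MP_deef5c_ag.O

end

section

/-! The normalisation of a finite extension of the Witt vectors. -/

open PowerSeries IsLocalRing Finset Function
open scoped Polynomial

namespace Pool.Agent.MP_deef5c_ag.O

universe u

theorem Dvr_prec {A M : Type u} [CommRing A] (I : Ideal A) [IsPrecomplete I A] [AddCommGroup M]
    [Module A M] [Module.Finite A M] : IsPrecomplete I M := by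
  rw [← AdicCompletion.of_surjective_iff]
  intro x
  obtain ⟨t, rfl⟩ := AdicCompletion.ofTensorProduct_surjective_of_finite I M x
  induction t with
  | zero => exact ⟨0, by simp⟩
  | tmul r m =>
    obtain ⟨r, rfl⟩ := AdicCompletion.of_surjective I A r
    refine ⟨r • m, ?_⟩
    rw [AdicCompletion.ofTensorProduct_tmul, map_smul]
    exact (algebraMap_smul (AdicCompletion I A) r _).symm
  | add a b ha hb =>
    obtain ⟨a', ha⟩ := ha
    obtain ⟨b', hb⟩ := hb
    exact ⟨a' + b', by rw [map_add, map_add, ha, hb]⟩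

theorem Dvr_pow {O : Type u} [CommRing O] (P : Ideal O) {e : ℕ} (he : e ≠ 0)
    [h : IsPrecomplete (P ^ e) O] : IsPrecomplete P O := by
  refine ⟨fun f hf => ?_⟩
  obtain ⟨L, hL⟩ := h.prec (f := fun n => f (e * n)) fun {m n} hmn => by
    rw [← pow_mul]
    exact hf (Nat.mul_le_mul_left e hmn)
  have hle : ∀ n, n ≤ e * n := fun n => Nat.le_mul_of_pos_left n (Nat.pos_of_ne_zero he)
  refine ⟨L, fun n => (hf (hle n)).trans ?_⟩
  have := hL n
  rw [← pow_mul] at this
  exact this.mono (Submodule.pow_smul_top_le P O (hle n))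

theorem Dvr_eq_pow {O : Type u} [CommRing O] [IsDedekindDomain O] (J P : Ideal O) (hJ : J ≠ ⊥)
    [hP : P.IsMaximal] (hJP : J ≤ P) [IsAdicComplete J O] : ∃ e ≠ 0, J = P ^ e := by
  classical
  obtain ⟨Q, hQ, e1⟩ := Ideal.eq_prime_pow_mul_coprime hJ P
  set e := Multiset.count P (UniqueFactorizationMonoid.normalizedFactors J) with he
  have hco : IsCoprime (P ^ e) Q := (Ideal.isCoprime_iff_sup_eq.2 hQ).pow_left
  obtain ⟨a, ha, b, hb, hab⟩ := Ideal.isCoprime_iff_exists.1 hco
  have hb' : b = 1 - a := by rw [← hab]; ring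
  have hmul : a * b ∈ J := by
    rw [e1]
    exact Ideal.mul_mem_mul ha hb
  have hunit : ∀ x ∈ J, IsUnit (1 - x) := fun x hx => by
    have := Ideal.mem_jacobson_bot.1 (IsAdicComplete.le_jacobson_bot J hx) (-1)
    rwa [show x * -1 + 1 = 1 - x by ring] at this
  obtain ⟨c, hc, hca⟩ := HenselianRing.is_henselian (I := J)
    (Polynomial.X ^ 2 - Polynomial.X : O[X]) (by monicity!) a (by
      have : (Polynomial.X ^ 2 - Polynomial.X : O[X]).eval a = -(a * b) := by
        simp only [Polynomial.eval_sub, Polynomial.eval_pow, Polynomial.eval_X, hb']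
        ring
      rw [this]
      exact J.neg_mem hmul) (by
      have h1 : (Polynomial.derivative (Polynomial.X ^ 2 - Polynomial.X : O[X])).eval a ^ 2 =
          1 - 4 * (a * b) := by
        simp [hb']
        ring
      refine IsUnit.map _ (isUnit_pow_iff two_ne_zero |>.1 ?_)
      rw [h1]
      exact hunit _ (J.mul_mem_left _ hmul))
  have hc2 : c * (c - 1) = 0 := by
    have : c ^ 2 - c = 0 := by simpa using hc
    linear_combination this
  rcases mul_eq_zero.1 hc2 with h | h
  · rw [h, zero_sub, neg_mem_iff] at hca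
    have hQt : Q = ⊤ := Ideal.eq_top_of_isUnit_mem _ hb (hb' ▸ hunit a hca)
    rw [hQt, Ideal.mul_top] at e1
    refine ⟨e, fun h0 => hP.ne_top ?_, e1⟩
    rw [h0, pow_zero, Ideal.one_eq_top] at e1
    exact top_le_iff.1 (e1 ▸ hJP)
  · exfalso
    have h1 : IsUnit a := by
      have := hunit _ hca
      rwa [sub_eq_zero.1 h, sub_sub_cancel] at this
    rw [Ideal.eq_top_of_isUnit_mem _ ha h1, Ideal.top_mul] at e1
    rw [← e1, sup_eq_left.2 hJP] at hQ
    exact hP.ne_top hQ

attribute [local instance] FractionRing.liftAlgebra FractionRing.isScalarTower_liftAlgebra in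
theorem Dvr_norm (A R : Type u) [CommRing A] [IsDedekindDomain A] [CharZero A] [CommRing R]
    [IsDomain R] [Algebra A R] [Module.Finite A R] [FaithfulSMul A R] :
    ∃ (O : Type u) (_ : CommRing O) (_ : IsDedekindDomain O) (_ : Algebra A O)
      (_ : Module.Finite A O) (_ : FaithfulSMul A O), Nonempty (R →ₐ[A] O) := by
  have : FaithfulSMul A (FractionRing R) := inferInstance
  have : FiniteDimensional (FractionRing A) (FractionRing R) := inferInstance
  have : CharZero (FractionRing A) := inferInstance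
  have : Algebra.IsSeparable (FractionRing A) (FractionRing R) := inferInstance
  exact ⟨integralClosure A (FractionRing R), inferInstance,
    IsIntegralClosure.isDedekindDomain A (FractionRing A) (FractionRing R) _, inferInstance,
    IsIntegralClosure.finite A (FractionRing A) (FractionRing R) _, inferInstance,
    ⟨IsIntegralClosure.lift A _ (FractionRing R)⟩⟩

theorem Dvr_main {A k : Type u} [CommRing A] [IsDomain A] [IsDiscreteValuationRing A]
    [IsAdicComplete (maximalIdeal A) A] [CharZero A] [Field k] [IsAlgClosed k] (ρ : A →+* k)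
    (hρ : Surjective ρ) (R : Type u) [CommRing R] [IsDomain R] [IsLocalRing R] [Algebra A R]
    [Module.Finite A R] [FaithfulSMul A R] (π : R →+* k) (hπ : ∀ w, π (algebraMap A R w) = ρ w) :
    ∃ (O : Type u) (_ : CommRing O) (_ : IsDomain O) (_ : IsDiscreteValuationRing O)
      (_ : IsAdicComplete (maximalIdeal O) O) (_ : CharZero O) (πO : O →+* k) (φ : R →+* O),
      Surjective πO ∧ ∀ a, πO (φ a) = π a := by
  obtain ⟨O, _, _, _, _, _, ⟨φ⟩⟩ := Dvr_norm A R
  have hinj : Injective (algebraMap A O) := FaithfulSMul.algebraMap_injective A O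
  obtain ⟨P, hP, hPm⟩ := Ideal.exists_ideal_over_maximal_of_isIntegral (S := O) (maximalIdeal A)
    (by rw [(RingHom.injective_iff_ker_eq_bot _).1 hinj]; exact bot_le)
  set J := (maximalIdeal A).map (algebraMap A O) with hJ
  have hJP : J ≤ P := Ideal.map_le_iff_le_comap.2 hPm.ge
  have hJ0 : J ≠ ⊥ := fun h =>
    IsDiscreteValuationRing.not_a_field A ((Ideal.map_eq_bot_iff_of_injective hinj).1 h)
  have hpre : IsPrecomplete J O :=
    IsPrecomplete.map_algebraMap_iff.2 (Dvr_prec (maximalIdeal A))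
  have : IsHausdorff J O := IsHausdorff.of_isDomain J fun h => hP.ne_top (top_le_iff.1 (h ▸ hJP))
  have : IsAdicComplete J O := {}
  obtain ⟨e, he, hJe⟩ := Dvr_eq_pow J P hJ0 hJP
  have : IsPrecomplete P O := Dvr_pow P he (h := hJe ▸ hpre)
  have : IsHausdorff P O := IsHausdorff.of_isDomain P hP.ne_top
  have hc : IsAdicComplete P O := {}
  have : IsLocalRing O := isLocalRing_of_isAdicComplete_maximal P
  have hPO : P = maximalIdeal O := eq_maximalIdeal hP
  have hnf : ¬ IsField O := fun h => hJ0 (le_bot_iff.1 (hJP.trans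
    (hPO.trans (isField_iff_maximalIdeal_eq.1 h)).le))
  have hdvr : IsDiscreteValuationRing O :=
    ((IsDiscreteValuationRing.TFAE O hnf).out 2 0).1 ‹IsDedekindDomain O›
  have hker : RingHom.ker ρ ≤ RingHom.ker ((residue O).comp (algebraMap A O)) := by
    intro a ha
    rw [ker_eq_maximalIdeal ρ hρ, ← hPm, Ideal.mem_comap, hPO] at ha
    exact (residue_eq_zero_iff _).2 ha
  set ι : k →+* ResidueField O := ρ.liftOfSurjective hρ ⟨_, hker⟩ with hι
  have hιρ : ι.comp ρ = (residue O).comp (algebraMap A O) := ρ.liftOfSurjective_comp hρ _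
  have hint : ι.IsIntegral := by
    refine RingHom.IsIntegral.tower_top ρ ι ?_
    rw [hιρ]
    exact RingHom.IsIntegral.trans _ _ (algebraMap_isIntegral_iff.2 inferInstance)
      (RingHom.isIntegral_of_surjective _ residue_surjective)
  set E := RingEquiv.ofBijective ι (IsAlgClosed.ringHom_bijective_of_isIntegral ι hint) with hE
  set πO : O →+* k := (E.symm : ResidueField O →+* k).comp (residue O) with hπO
  have h1 : ∀ w, πO (algebraMap A O w) = ρ w := fun w =>
    E.symm_apply_eq.2 (RingHom.congr_fun hιρ w).symm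
  have h2 : ∀ w, (πO.comp (φ : R →+* O)) (algebraMap A R w) = ρ w := fun w => by
    rw [← h1, ← φ.commutes]
    rfl
  have s1 : Surjective π := fun c => by
    obtain ⟨w, rfl⟩ := hρ c
    exact ⟨_, hπ w⟩
  have s2 : Surjective (πO.comp (φ : R →+* O)) := fun c => by
    obtain ⟨w, rfl⟩ := hρ c
    exact ⟨_, h2 w⟩
  refine ⟨O, inferInstance, inferInstance, hdvr, hPO ▸ hc, charZero_of_injective_algebraMap hinj,
    πO, φ, E.symm.surjective.comp residue_surjective, fun a => ?_⟩
  obtain ⟨w, hw⟩ := hρ (π a)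
  have h3 : a - algebraMap A R w ∈ RingHom.ker π := by
    rw [RingHom.mem_ker, map_sub, hπ, hw, sub_self]
  rw [ker_eq_maximalIdeal π s1, ← ker_eq_maximalIdeal _ s2, RingHom.mem_ker, map_sub, h2, hw,
    sub_eq_zero] at h3
  exact h3

/-- `W → R` is injective.  Let `O` be the integral closure of `W` in the fraction field of `R`: finite
over `W` (characteristic zero, `IsIntegralClosure.finite`) and Dedekind.  `O` is `p`-adically
complete (finite over `W`), `O / p` is Artinian; a non-trivial idempotent of `O / p` would lift to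
the domain `O` (Hensel), so `O` is local, hence a discrete valuation ring, complete because a power
of its maximal ideal lies in `(p)`.  Its residue field is finite over `k`, hence `k`.  The two maps
`R → k` have kernel the maximal ideal and agree on `W`. -/
theorem exists_dvr (p : ℕ) [Fact p.Prime] (k : Type u) [Field k] [IsAlgClosed k] [CharP k p]
    (R : Type u) [CommRing R] [IsDomain R] [IsLocalRing R] [Algebra (WittVector p k) R]
    [Module.Finite (WittVector p k) R]
    (π : R →+* k) (hπ : ∀ w, π (algebraMap (WittVector p k) R w) = w.coeff 0) (hp : (p : R) ≠ 0) :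
    ∃ (O : Type u) (_ : CommRing O) (_ : IsDomain O) (_ : IsDiscreteValuationRing O)
      (_ : IsAdicComplete (maximalIdeal O) O) (_ : CharZero O) (πO : O →+* k) (φ : R →+* O),
      Surjective πO ∧ ∀ a, πO (φ a) = π a := by
  have := (witt_cl p k).1.cpl
  have : FaithfulSMul (WittVector p k) R := by
    rw [faithfulSMul_iff_algebraMap_injective, injective_iff_map_eq_zero]
    intro w hw
    by_contra h0
    obtain ⟨n, u, rfl⟩ := WittVector.exists_eq_pow_p_mul' w h0
    rw [map_mul, map_pow, map_natCast] at hw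
    exact mul_ne_zero (pow_ne_zero _ hp) (u.isUnit.map _).ne_zero hw
  have : CharZero (WittVector p k) := by
    obtain ⟨q, hq⟩ := CharP.exists (WittVector p k)
    rcases CharP.char_is_prime_or_zero (WittVector p k) q with h | rfl
    · exfalso
      have h1 : (q : k) = 0 := by
        rw [← map_natCast (WittVector.constantCoeff : WittVector p k →+* k), CharP.cast_eq_zero,
          map_zero]
      have h2 : p = q :=
        (Nat.prime_dvd_prime_iff_eq Fact.out h).1 ((CharP.cast_eq_zero_iff k p q).1 h1)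
      subst h2
      refine hp ?_
      rw [← map_natCast (algebraMap (WittVector p k) R), CharP.cast_eq_zero, map_zero]
    · exact CharP.charP_to_charZero _
  exact Dvr_main WittVector.constantCoeff (fun c => ⟨WittVector.teichmuller p c, rfl⟩) R π hπ

end Pool.Agent.MP_deef5c_ag.O

end
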