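import Mathlib
import Pool.Agent.MP_deef5c_ag.Defs

section

/-! A finite group with a character whose sum along every non-trivial cyclic subgroup vanishes,
in a ring where no prime number vanishes, is cyclic. -/

open Finset

namespace Pool.Agent.MP_deef5c_ag

theorem cyclic_of_prime_count {H : Type*} [CommGroup H] [Fintype H] [DecidableEq H]
    (h : ∀ l : ℕ, l.Prime → #{a : H | a ^ l = 1} ≤ l) : IsCyclic H := by
  refine isCyclic_of_card_pow_eq_one_le fun n hn => ?_
  induction n using Nat.recOnMul with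
  | zero => omega
  | one => simp [Finset.filter_eq']
  | prime l hl => exact h l hl
  | mul a b iha ihb =>
    have ha : 0 < a := Nat.pos_of_mul_pos_right hn
    have hb : 0 < b := Nat.pos_of_mul_pos_left hn
    have key := Finset.card_le_mul_card_image_of_maps_to (f := fun x : H => x ^ a)
      (s := {x : H | x ^ (a * b) = 1}) (t := {y : H | y ^ b = 1})
      (fun x hx => by simpa [pow_mul] using hx) a (fun y _ => by
        by_cases hne : ({x ∈ ({x : H | x ^ (a * b) = 1} : Finset H) | x ^ a = y}).Nonempty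
        · obtain ⟨x0, hx0⟩ := hne
          refine le_trans ?_ (iha ha)
          refine Finset.card_le_card_of_injOn (fun x => x * x0⁻¹) ?_ ?_
          · intro x hx
            simp only [coe_filter, mem_filter, mem_univ, true_and, Set.mem_ofPred_eq] at hx hx0 ⊢
            rw [mul_pow, inv_pow, hx.2, hx0.2, mul_inv_cancel]
          · intro x _ x' _ hxx
            simpa using hxx
        · rw [Finset.not_nonempty_iff_eq_empty.1 hne]; simp)
    exact key.trans (Nat.mul_le_mul_left a (ihb hb))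

theorem cyclic_of_char_sums {H R : Type*} [Group H] [Finite H] [CommRing R] (lam : H →* R)
    (hs : ∀ g : H, g ≠ 1 → ∀ n : ℕ, g ^ n = 1 → ∑ j ∈ range n, lam (g ^ j) = 0)
    (hp : ∀ l : ℕ, l.Prime → (l : R) ≠ 0) : IsCyclic H := by
  classical
  have inj : Function.Injective lam := by
    rw [injective_iff_map_eq_one]
    intro g hg
    by_contra hne
    have ho : orderOf g ≠ 1 := by simpa using hne
    obtain ⟨l, hl, hd⟩ := Nat.exists_prime_and_dvd ho
    have h1 : orderOf (g ^ (orderOf g / l)) = l := orderOf_pow_orderOf_div (orderOf_pos g).ne' hd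
    have h2 : g ^ (orderOf g / l) ≠ 1 := fun h0 => by
      rw [h0, orderOf_one] at h1; exact hl.one_lt.ne h1
    have h3 := hs _ h2 l (by
      have := pow_orderOf_eq_one (g ^ (orderOf g / l))
      rwa [h1] at this)
    simp only [map_pow, hg, one_pow, sum_const, card_range, nsmul_eq_mul, mul_one] at h3
    exact hp l hl h3
  have comm : ∀ a b : H, a * b = b * a := fun a b => inj (by rw [map_mul, map_mul, mul_comm])
  let _ : CommGroup H := { (inferInstance : Group H) with mul_comm := comm }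
  have := Fintype.ofFinite H
  refine cyclic_of_prime_count fun l hl => ?_
  have := Fact.mk hl
  by_cases hex : ∃ a : H, a ≠ 1 ∧ a ^ l = 1
  · obtain ⟨a, ha1, ha⟩ := hex
    have hoa : orderOf a = l := orderOf_eq_prime ha ha1
    have hsub : ({b : H | b ^ l = 1} : Finset H) ⊆ (range l).image (fun i => (a ^ i)⁻¹) := by
      intro b hb
      rw [mem_filter] at hb
      by_contra hnb
      have h1 : ∀ i ∈ range l, ∑ j ∈ range l, lam ((a ^ i * b) ^ j) = 0 := by
        intro i hi
        refine hs _ (fun h0 => hnb (mem_image.2 ⟨i, hi, ?_⟩)) l ?_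
        · exact (eq_inv_of_mul_eq_one_right h0).symm
        · rw [mul_pow, hb.2, ← pow_mul, mul_comm i, pow_mul, ha, one_pow, one_mul]
      have h2 : ∑ i ∈ range l, ∑ j ∈ range l, lam ((a ^ i * b) ^ j) = 0 := sum_eq_zero h1
      rw [sum_comm, sum_eq_single 0] at h2
      · simp only [pow_zero, map_one, sum_const, card_range, nsmul_eq_mul, mul_one] at h2
        exact hp l hl h2
      · intro j hj hj0
        have h3 : a ^ j ≠ 1 := pow_ne_one_of_lt_orderOf hj0 (by rw [hoa]; exact mem_range.1 hj)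
        have h4 := hs _ h3 l (by rw [← pow_mul, mul_comm, pow_mul, ha, one_pow])
        calc ∑ i ∈ range l, lam ((a ^ i * b) ^ j)
            = (∑ i ∈ range l, lam ((a ^ j) ^ i)) * lam (b ^ j) := by
              rw [sum_mul]
              refine sum_congr rfl fun i _ => ?_
              rw [← map_mul, mul_pow, ← pow_mul, ← pow_mul, mul_comm i j]
          _ = 0 := by rw [h4, zero_mul]
      · intro h0
        exact absurd (mem_range.2 hl.pos) h0
    exact (card_le_card hsub).trans (card_image_le.trans (by simp))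
  · push Not at hex
    have hsub : ({b : H | b ^ l = 1} : Finset H) ⊆ {1} := by
      intro b hb
      rw [mem_filter] at hb
      rw [mem_singleton]
      by_contra hb1
      exact hex b hb1 hb.2
    exact (card_le_card hsub).trans (by simpa using hl.one_lt.le)

end Pool.Agent.MP_deef5c_ag

end

section

/-! Weierstrass division in a flat deformation `B` of a discrete valuation ring `O` over a local
Artinian ring `A`. -/

open Finset IsLocalRing

namespace Pool.Agent.MP_deef5c_ag

variable {A B O : Type*} [CommRing A] [IsLocalRing A] [IsArtinianRing A] [CommRing B] [Algebra A B]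
  [CommRing O] [IsDomain O]

theorem nilp_max : ∃ n : ℕ, maximalIdeal A ^ n = ⊥ := by
  have h := IsArtinianRing.isNilpotent_jacobson_bot (R := A)
  rw [IsLocalRing.jacobson_eq_maximalIdeal ⊥ bot_ne_top] at h
  exact h

theorem nak {M : Type*} [AddCommGroup M] [Module A M] {N P : Submodule A M}
    (h : P ≤ N ⊔ maximalIdeal A • P) : P ≤ N := by
  obtain ⟨n, hn⟩ := nilp_max (A := A)
  have key : ∀ i : ℕ, P ≤ N ⊔ maximalIdeal A ^ i • P := by
    intro i
    induction i with
    | zero => simp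
    | succ i ih =>
      refine ih.trans (sup_le le_sup_left ?_)
      refine (Submodule.smul_mono le_rfl h).trans ?_
      rw [Submodule.smul_sup, ← Submodule.mul_smul, ← pow_succ]
      exact sup_le_sup_right Submodule.smul_le_right _
  simpa [hn] using key n

/-- `B` is a deformation of `O` over `A`, and `t` lifts a uniformiser. -/
structure Setup (A : Type*) {B O : Type*} [CommRing A] [IsLocalRing A] [CommRing B] [Algebra A B]
    [CommRing O] (ψ : B →+* O) (t : B) : Prop where
  surj : Function.Surjective ψ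
  ker : RingHom.ker ψ = (maximalIdeal A).map (algebraMap A B)
  ne : ψ t ≠ 0
  nu : ¬ IsUnit (ψ t)
  res : ∀ y : O, ∃ a : A, ψ t ∣ y - ψ (algebraMap A B a)
  pw : ∀ y : O, y ≠ 0 → ∃ n : ℕ, Associated y (ψ t ^ n)

namespace Setup

variable {ψ : B →+* O} {t : B}

omit [IsArtinianRing A] [IsDomain O] in
theorem zero_of_mem (S : Setup A ψ t) {a : A} (ha : a ∈ maximalIdeal A) :
    ψ (algebraMap A B a) = 0 := by
  rw [← RingHom.mem_ker, S.ker]
  exact Ideal.mem_map_of_mem _ ha

omit [IsArtinianRing A] [IsDomain O] in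
theorem mem_smul (S : Setup A ψ t) {b : B} (hb : ψ b = 0) :
    b ∈ maximalIdeal A • (⊤ : Submodule A B) := by
  rw [Ideal.smul_top_eq_map, Submodule.restrictScalars_mem, ← S.ker]
  exact hb

omit [IsDomain O] in
theorem nilp (S : Setup A ψ t) {b : B} (hb : ψ b = 0) : IsNilpotent b := by
  obtain ⟨n, hn⟩ := nilp_max (A := A)
  have h1 : b ∈ (maximalIdeal A).map (algebraMap A B) := by rw [← S.ker]; exact hb
  have h2 := Ideal.pow_mem_pow h1 n
  rw [← Ideal.map_pow, hn, Ideal.map_bot] at h2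
  exact ⟨n, h2⟩

omit [IsArtinianRing A] [IsDomain O] in
theorem span_O (S : Setup A ψ t) (d : ℕ) (y : O) :
    ∃ a : Fin d → A, ψ t ^ d ∣ y - ∑ j, ψ (algebraMap A B (a j)) * ψ t ^ (j : ℕ) := by
  induction d generalizing y with
  | zero => exact ⟨fun _ => 0, by simp⟩
  | succ d ih =>
    obtain ⟨a0, z, hz⟩ := S.res y
    obtain ⟨a, u, hu⟩ := ih z
    refine ⟨Fin.cons a0 a, u, ?_⟩
    rw [Fin.sum_univ_succ]
    simp only [Fin.cons_zero, Fin.cons_succ, Fin.val_zero, pow_zero, mul_one, Fin.val_succ, pow_succ,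
      ← mul_assoc, ← sum_mul]
    linear_combination hz + ψ t * hu

omit [IsArtinianRing A] in
theorem coef (S : Setup A ψ t) (d : ℕ) (e : ℕ) (a : Fin d → A)
    (h : ψ t ^ e ∣ ∑ j, ψ (algebraMap A B (a j)) * ψ t ^ (j : ℕ)) (j : Fin d) (hj : (j : ℕ) < e) :
    a j ∈ maximalIdeal A := by
  induction d generalizing e with
  | zero => exact j.elim0
  | succ d ih =>
    obtain ⟨e, rfl⟩ : ∃ e', e = e' + 1 := ⟨e - 1, by omega⟩
    rw [Fin.sum_univ_succ] at h
    simp only [Fin.val_zero, pow_zero, mul_one, Fin.val_succ, pow_succ, ← mul_assoc,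
      ← sum_mul] at h
    have h0 : a 0 ∈ maximalIdeal A := by
      by_contra hu
      have hu' : IsUnit (a 0) := by simpa using hu
      have h1 : ψ t ∣ ψ (algebraMap A B (a 0)) :=
        (dvd_add_left (Dvd.intro_left _ rfl)).1 ((Dvd.intro_left _ rfl).trans h)
      exact S.nu (isUnit_of_dvd_unit h1 ((hu'.map _).map _))
    rw [S.zero_of_mem h0, zero_add, mul_dvd_mul_iff_right S.ne] at h
    refine Fin.cases (motive := fun j : Fin (d + 1) => (j : ℕ) < e + 1 → a j ∈ maximalIdeal A)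
      (fun _ => h0) (fun i hi => ?_) j hj
    exact ih e (fun i => a i.succ) h i (by simpa using hi)

/-- the division map -/
noncomputable def dv (A : Type*) [CommRing A] [Algebra A B] (t δ : B) (d : ℕ) :
    ((Fin d → A) × B) →ₗ[A] B :=
  (Fintype.linearCombination A fun j : Fin d => t ^ (j : ℕ)).coprod (LinearMap.mulLeft A δ)

omit [IsLocalRing A] [IsArtinianRing A] in
theorem dv_apply (t δ : B) (d : ℕ) (a : Fin d → A) (b : B) :
    dv A t δ d (a, b) = ∑ j, algebraMap A B (a j) * t ^ (j : ℕ) + δ * b := by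
  simp [dv, Fintype.linearCombination_apply, Algebra.smul_def]

omit [IsDomain O] in
theorem dv_surj (S : Setup A ψ t) {δ : B} {d : ℕ} (h : ψ δ ∣ ψ t ^ d) :
    Function.Surjective (dv A t δ d) := by
  rw [← LinearMap.range_eq_top, eq_top_iff]
  refine nak fun b _ => ?_
  obtain ⟨a, ha⟩ := S.span_O d (ψ b)
  obtain ⟨z, hz⟩ := h.trans ha
  obtain ⟨z, rfl⟩ := S.surj z
  rw [Submodule.mem_sup]
  refine ⟨dv A t δ d (a, z), LinearMap.mem_range_self _ _, b - dv A t δ d (a, z), S.mem_smul ?_,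
    by ring⟩
  rw [dv_apply]
  simp only [map_sub, map_add, map_sum, map_mul, map_pow]
  linear_combination hz

theorem dv_inj [Module.Flat A B] (S : Setup A ψ t) {δ : B} {d : ℕ}
    (h : Associated (ψ δ) (ψ t ^ d)) : Function.Injective (dv A t δ d) := by
  classical
  rw [← LinearMap.ker_eq_bot, eq_bot_iff]
  refine nak ?_
  rw [bot_sup_eq, ← LinearMap.ker_inf_smul_top_eq_smul_of_flat _ _ (S.dv_surj h.dvd)]
  refine le_inf le_rfl ?_
  rintro ⟨a, b⟩ hab
  rw [LinearMap.mem_ker, dv_apply] at hab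
  have h1 := congrArg ψ hab
  simp only [map_add, map_sum, map_mul, map_pow, map_zero] at h1
  have h2 : ∀ j, a j ∈ maximalIdeal A := fun j => S.coef d d a (by
    rw [eq_neg_of_add_eq_zero_left h1, dvd_neg]
    exact h.symm.dvd.mul_right _) j j.2
  simp only [S.zero_of_mem (h2 _), zero_mul, sum_const_zero, zero_add] at h1
  have h3 : ψ δ ≠ 0 := h.ne_zero_iff.2 (pow_ne_zero _ S.ne)
  have h4 := S.mem_smul ((mul_eq_zero.1 h1).resolve_left h3)
  have h5 : ((a, b) : (Fin d → A) × B) =
      ∑ j, a j • ((Pi.single j 1, 0) : (Fin d → A) × B) + LinearMap.inr A (Fin d → A) B b := by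
    ext j
    · simp [Prod.fst_sum, Pi.single_apply]
    · simp [Prod.snd_sum]
  rw [h5]
  refine add_mem (sum_mem fun j _ => Submodule.smul_mem_smul (h2 j) Submodule.mem_top) ?_
  have h6 := Submodule.mem_map_of_mem (f := LinearMap.inr A (Fin d → A) B) h4
  rw [Submodule.map_smul''] at h6
  exact Submodule.smul_mono le_rfl le_top h6

theorem nzd [Module.Flat A B] (S : Setup A ψ t) {δ : B} (h : ψ δ ≠ 0) {b : B} (hb : δ * b = 0) :
    b = 0 := by
  obtain ⟨d, hd⟩ := S.pw _ h
  have : dv A t δ d (0, b) = dv A t δ d 0 := by rw [dv_apply]; simp [hb]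
  exact congrArg Prod.snd (S.dv_inj hd this)

omit [IsDomain O] in
theorem dvd_pow (S : Setup A ψ t) {δ x : B} (h : ψ δ ≠ 0) (hx : ψ t ∣ ψ x) :
    ∃ n : ℕ, δ ∣ x ^ n := by
  obtain ⟨d, hd⟩ := S.pw _ h
  obtain ⟨z, hz⟩ := hd.dvd.trans (pow_dvd_pow_of_dvd hx d)
  obtain ⟨z, rfl⟩ := S.surj z
  obtain ⟨n, hn⟩ := S.nilp (b := x ^ d - δ * z) (by simp [hz])
  refine ⟨d * n, ?_⟩
  have h1 := sub_dvd_pow_sub_pow (x ^ d) (x ^ d - δ * z) n
  rw [hn, sub_zero, sub_sub_cancel, ← pow_mul] at h1
  exact (Dvd.intro _ rfl).trans h1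

/-- first order expansion, uniform in a finite family of endomorphisms -/
theorem expand (S : Setup A ψ t) {ι : Type*} [Finite ι] (T : ι → B →ₐ[A] B)
    (h1 : ∀ i, ψ (T i t - t) ≠ 0) (h2 : ∀ i, ψ t ∣ ψ (T i t)) (b : B) :
    ∃ b' : B, ∀ i, (T i t - t) ^ 2 ∣ T i b - b - b' * (T i t - t) := by
  have hne : ∀ i, ψ ((T i t - t) ^ 2) ≠ 0 := fun i => by
    rw [map_pow]; exact pow_ne_zero _ (h1 i)
  choose n1 hn1 using fun i => S.dvd_pow (hne i) (dvd_refl (ψ t))
  choose n2 hn2 using fun i => S.dvd_pow (hne i) (h2 i)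
  obtain ⟨N1, hN1⟩ := (Set.finite_range n1).bddAbove
  obtain ⟨N2, hN2⟩ := (Set.finite_range n2).bddAbove
  obtain ⟨⟨a, z⟩, rfl⟩ := S.dv_surj (δ := t ^ (N1 + N2)) (d := N1 + N2) (by simp) b
  refine ⟨∑ j, algebraMap A B (a j) * (t ^ ((j : ℕ) - 1) * (j : ℕ)), fun i => ?_⟩
  have e1 : (T i t - t) ^ 2 ∣ t ^ (N1 + N2) :=
    (hn1 i).trans (pow_dvd_pow _ ((hN1 ⟨i, rfl⟩).trans (Nat.le_add_right _ _)))
  have e2 : (T i t - t) ^ 2 ∣ T i t ^ (N1 + N2) :=
    (hn2 i).trans (pow_dvd_pow _ ((hN2 ⟨i, rfl⟩).trans (Nat.le_add_left _ _)))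
  have e3 : (T i t - t) ^ 2 ∣ ∑ j : Fin (N1 + N2), algebraMap A B (a j) *
      ((t + (T i t - t)) ^ (j : ℕ) - t ^ ((j : ℕ) - 1) * (T i t - t) * (j : ℕ) - t ^ (j : ℕ)) :=
    dvd_sum fun j _ => (sq_dvd_add_pow_sub_sub _ _ _).mul_left _
  have e4 := dvd_sub (dvd_add e3 (e2.mul_right (T i z))) (e1.mul_right z)
  convert e4 using 1
  rw [dv_apply]
  simp only [map_add, map_sum, map_mul, map_pow, AlgHom.commutes, add_sub_cancel, sum_mul, mul_sub,
    sum_sub_distrib]
  have : ∀ j : Fin (N1 + N2), algebraMap A B (a j) * (t ^ ((j : ℕ) - 1) * (j : ℕ)) * T i t -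
      algebraMap A B (a j) * (t ^ ((j : ℕ) - 1) * (j : ℕ)) * t =
      algebraMap A B (a j) * ((t ^ ((j : ℕ) - 1) * T i t - t ^ ((j : ℕ) - 1) * t) * (j : ℕ)) :=
    fun j => by ring
  rw [← sum_sub_distrib, sum_congr rfl fun j _ => this j]
  ring

/-- the trace of an endomorphism on the fixed scheme, modulo the maximal ideal -/
theorem trace_mod [Module.Flat A B] (S : Setup A ψ t) {δ : B} {d : ℕ}
    (h : Associated (ψ δ) (ψ t ^ d)) (T : B →ₐ[A] B)
    (U : (B ⧸ Ideal.span {δ}) →ₗ[A] (B ⧸ Ideal.span {δ}))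
    (hU : ∀ b, U (Ideal.Quotient.mk _ b) = Ideal.Quotient.mk _ (T b)) (c : A)
    (hc : ψ t ^ 2 ∣ ψ (T t) - ψ (algebraMap A B c) * ψ t) :
    LinearMap.trace A _ U - ∑ j ∈ range d, c ^ j ∈ maximalIdeal A := by
  classical
  let e : (Fin d → A) →ₗ[A] (B ⧸ Ideal.span {δ}) :=
    (Ideal.Quotient.mkₐ A (Ideal.span {δ})).toLinearMap ∘ₗ dv A t δ d ∘ₗ LinearMap.inl A _ _
  have he : ∀ a b, e a = Ideal.Quotient.mk _ (dv A t δ d (a, b)) := by
    intro a b
    change Ideal.Quotient.mk _ (dv A t δ d (a, 0)) = _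
    rw [Ideal.Quotient.eq, dv_apply, dv_apply, Ideal.mem_span_singleton]
    exact ⟨-b, by ring⟩
  have hbij : Function.Bijective e := by
    constructor
    · rw [injective_iff_map_eq_zero]
      intro a ha
      rw [he a 0, Ideal.Quotient.eq_zero_iff_mem, Ideal.mem_span_singleton] at ha
      obtain ⟨z, hz⟩ := ha
      have : dv A t δ d (a, -z) = dv A t δ d 0 := by
        rw [dv_apply] at hz ⊢
        rw [map_zero]
        linear_combination hz
      exact congrArg Prod.fst (S.dv_inj h this)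
    · intro q
      obtain ⟨b, rfl⟩ := Ideal.Quotient.mk_surjective q
      obtain ⟨⟨a, z⟩, rfl⟩ := S.dv_surj h.dvd b
      exact ⟨a, he a z⟩
  let E := LinearEquiv.ofBijective e hbij
  rw [← LinearMap.trace_conj' U E.symm, LinearMap.trace_eq_matrix_trace A (Pi.basisFun A (Fin d)),
    Matrix.trace, ← Fin.sum_univ_eq_sum_range (fun j => c ^ j), ← sum_sub_distrib]
  refine sum_mem fun j _ => ?_
  obtain ⟨⟨a, z⟩, hz⟩ := S.dv_surj h.dvd (T (t ^ (j : ℕ)))
  have h1 : E (Pi.single j 1) = Ideal.Quotient.mk _ (t ^ (j : ℕ)) := by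
    change e _ = _
    rw [he _ 0, dv_apply]
    simp [Pi.single_apply]
  have h2 : E.symm (Ideal.Quotient.mk _ (T (t ^ (j : ℕ)))) = a := by
    rw [LinearEquiv.symm_apply_eq, ← hz]
    exact (he a z).symm
  have h3 : (LinearMap.toMatrix (Pi.basisFun A (Fin d)) (Pi.basisFun A (Fin d))
      (E.symm.conj U)).diag j = a j := by
    have : E.symm (U (E (Pi.single j 1))) j = a j := by rw [h1, hU, h2]
    simpa [LinearEquiv.conj_apply] using this
  rw [h3]
  have h4 := S.coef d (j + 1) (a - Pi.single j (c ^ (j : ℕ))) ?_ j (Nat.lt_succ_self _)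
  · simpa using h4
  have h5 := congrArg ψ hz
  rw [dv_apply] at h5
  simp only [map_add, map_sum, map_mul, map_pow] at h5
  obtain ⟨y, hy⟩ := hc
  have h6 : ψ (T t) = ψ t * (ψ (algebraMap A B c) + ψ t * y) := by linear_combination hy
  have h7 : ψ t ∣ (ψ (algebraMap A B c) + ψ t * y) ^ (j : ℕ) - ψ (algebraMap A B c) ^ (j : ℕ) :=
    Dvd.dvd.trans (by simp) (sub_dvd_pow_sub_pow _ _ _)
  have h8 : ψ t ^ ((j : ℕ) + 1) ∣ ψ δ * ψ z :=
    ((pow_dvd_pow _ j.2).trans h.symm.dvd).mul_right _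
  have h7' := mul_dvd_mul_left (ψ t ^ (j : ℕ)) h7
  rw [← pow_succ] at h7'
  have h9 := dvd_sub h7' h8
  convert h9 using 1
  simp only [Pi.sub_apply, map_sub, sub_mul, sum_sub_distrib]
  rw [eq_sub_of_add_eq h5, h6, mul_pow, sum_eq_single j (fun i _ hi => by simp [hi]) (by simp)]
  simp only [Pi.single_eq_same, map_pow]
  ring

omit [IsArtinianRing A] [IsDomain O] in
theorem ker_stable (S : Setup A ψ t) (U : B →ₐ[A] B) {b : B} (hb : ψ b = 0) : ψ (U b) = 0 := by
  have h1 := Submodule.mem_map_of_mem (f := U.toLinearMap) (S.mem_smul hb)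
  rw [Submodule.map_smul''] at h1
  have h2 := Submodule.smul_mono le_rfl le_top h1
  rwa [Ideal.smul_top_eq_map, Submodule.restrictScalars_mem, ← S.ker] at h2

omit [IsArtinianRing A] [IsDomain O] in
theorem unit_O (S : Setup A ψ t) {y : O} (hy : ¬ ψ t ∣ y) : IsUnit y := by
  obtain ⟨n, hn⟩ := S.pw y (fun h => hy (h ▸ dvd_zero _))
  rcases n with _ | n
  · exact associated_one_iff_isUnit.1 (by simpa using hn)
  · exact absurd ((dvd_pow_self _ n.succ_ne_zero).trans hn.symm.dvd) hy

omit [IsDomain O] in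
theorem unit_B (S : Setup A ψ t) {b : B} (hb : IsUnit (ψ b)) : IsUnit b := by
  obtain ⟨y, hy⟩ := hb.exists_right_inv
  obtain ⟨c, rfl⟩ := S.surj y
  have h := (S.nilp (b := 1 - b * c) (by simp [hy])).isUnit_one_sub
  rw [sub_sub_cancel] at h
  exact isUnit_of_mul_isUnit_left h

omit [IsDomain O] in
theorem unit_one_sub (S : Setup A ψ t) (w : B) : IsUnit (1 - t * w) := by
  refine S.unit_B (S.unit_O fun h => S.nu (isUnit_of_dvd_one ?_))
  rw [map_sub, map_mul, map_one] at h
  simpa using dvd_add h (dvd_mul_right (ψ t) (ψ w))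

omit [IsArtinianRing A] [IsDomain O] in
theorem mem_of_dvd (S : Setup A ψ t) {a : A} (h : ψ t ∣ ψ (algebraMap A B a)) :
    a ∈ maximalIdeal A := by
  by_contra hu
  have hu' : IsUnit a := by simpa using hu
  exact S.nu (isUnit_of_dvd_unit h ((hu'.map _).map _))

theorem sep (S : Setup A ψ t) (U : B →ₐ[A] B) (h : ψ (U t - t) = 0) (b : B) :
    ψ (U b - b) = 0 := by
  by_contra hne
  obtain ⟨n, hn⟩ := S.pw _ hne
  obtain ⟨⟨a, z⟩, rfl⟩ := S.dv_surj (δ := t ^ (n + 1)) (d := n + 1) (by simp) b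
  rw [map_sub, sub_eq_zero] at h
  have h1 : ψ t ^ (n + 1) ∣ ψ t ^ n := by
    refine Dvd.dvd.trans ⟨ψ (U z) - ψ z, ?_⟩ hn.dvd
    rw [dv_apply]
    simp only [map_add, map_sub, map_sum, map_mul, map_pow, AlgHom.commutes, h]
    ring
  rw [pow_dvd_pow_iff S.ne S.nu] at h1
  omega

theorem dvd_sub_one (S : Setup A ψ t) (U : B →ₐ[A] B) (h1 : ψ (U t - t) ≠ 0)
    (h2 : ψ t ∣ ψ (U t)) (b : B) : U t - t ∣ U b - b := by
  obtain ⟨b', hb'⟩ := S.expand (fun _ : Unit => U) (fun _ => h1) (fun _ => h2) b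
  have := dvd_add ((dvd_pow_self _ two_ne_zero).trans (hb' ())) (dvd_mul_left (U t - t) b')
  rwa [sub_add_cancel] at this

/-- the trace obstruction -/
theorem trace_kill [Module.Flat A B] (S : Setup A ψ t) (U : B →ₐ[A] B) {ε : B} {d : ℕ}
    (hd : Associated (ψ ε) (ψ t ^ d)) (hst : ε ∣ U ε) (c : A)
    (hc : ψ t ^ 2 ∣ ψ (U t) - ψ (algebraMap A B c) * ψ t)
    (hu : IsUnit (∑ j ∈ range d, c ^ j)) (p : ℕ) (hp : (p : B) ∈ Ideal.span {ε, U t - t}) :
    (p : A) = 0 := by
  obtain ⟨α, β, hαβ⟩ := Ideal.mem_span_pair.1 hp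
  set I : Ideal B := Ideal.span {ε} with hI
  have h3 : I ≤ I.comap U := by
    rw [hI, Ideal.span_le, Set.singleton_subset_iff]
    exact Ideal.mem_span_singleton.2 hst
  let V : (B ⧸ I) →ₐ[A] (B ⧸ I) := Ideal.quotientMapₐ I U h3
  have hV : ∀ b, V (Ideal.Quotient.mk I b) = Ideal.Quotient.mk I (U b) := fun b => rfl
  have h4 := S.trace_mod hd U V.toLinearMap hV c hc
  have h5 : IsUnit (LinearMap.trace A _ V.toLinearMap) := by
    by_contra hnu
    have := sub_mem ((mem_maximalIdeal _).2 hnu) h4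
    rw [sub_sub_cancel] at this
    exact this hu
  let m : (B ⧸ I) → Module.End A (B ⧸ I) := fun u => LinearMap.mulLeft A u
  have h6 : (p : A) • V.toLinearMap =
      (m (Ideal.Quotient.mk I β) * V.toLinearMap) * m (Ideal.Quotient.mk I t) -
        m (Ideal.Quotient.mk I t) * (m (Ideal.Quotient.mk I β) * V.toLinearMap) := by
    refine LinearMap.ext fun q => ?_
    have e1 : (p : B ⧸ I) = Ideal.Quotient.mk I β * (V (Ideal.Quotient.mk I t) -
        Ideal.Quotient.mk I t) := by
      rw [hV, ← map_sub, ← map_mul, ← map_natCast (Ideal.Quotient.mk I), Ideal.Quotient.eq, ← hαβ,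
        add_sub_cancel_right]
      exact I.mul_mem_left _ (Ideal.subset_span rfl)
    rw [LinearMap.smul_apply, Algebra.smul_def, map_natCast, e1]
    simp only [m, LinearMap.sub_apply, Module.End.mul_apply,
      LinearMap.mulLeft_apply, AlgHom.toLinearMap_apply, map_mul]
    ring
  have h7 := congrArg (LinearMap.trace A _) h6
  rw [map_sub, LinearMap.trace_mul_comm, sub_self, map_smul, smul_eq_mul] at h7
  exact (h5.mul_left_eq_zero).1 h7

end Setup

end Pool.Agent.MP_deef5c_ag

end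

section

/-! The fixed schemes of two generators of a non-cyclic group meet only in characteristic `p`, and
the trace obstruction. -/

open Finset IsLocalRing

namespace Pool.Agent.MP_deef5c_ag

variable {A B O : Type*} [CommRing A] [IsLocalRing A] [IsArtinianRing A] [CommRing B] [Algebra A B]
  [CommRing O] [IsDomain O] {H : Type*} [Group H]

/-- a right action of `H` on the deformation, faithful on `O` modulo its kernel -/
structure Act (ψ : B →+* O) (t : B) (T : H → B →ₐ[A] B) : Prop where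
  one : ∀ b, T 1 b = b
  mul : ∀ g h b, T (g * h) b = T h (T g b)
  dich : ∀ g, ψ (T g t - t) ≠ 0 ∨ ∀ b, T g b = b
  dvd : ∀ g, ψ t ∣ ψ (T g t)

namespace Act

variable {ψ : B →+* O} {t : B} {T : H → B →ₐ[A] B}

/-- elements acting trivially modulo `J` -/
def fixSub (h : Act ψ t T) (J : Ideal B) : Subgroup H where
  carrier := {g | ∀ b, T g b - b ∈ J}
  one_mem' := fun b => by simp [h.one]
  mul_mem' := fun {g g'} hg hg' b => by
    have := add_mem (hg' (T g b)) (hg b)
    rwa [sub_add_sub_cancel, ← h.mul] at this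
  inv_mem' := fun {g} hg b => by
    have := neg_mem (hg (T g⁻¹ b))
    rwa [← h.mul, inv_mul_cancel, h.one, neg_sub] at this

theorem expand [Finite H] (S : Setup A ψ t) (h : Act ψ t T) (b : B) :
    ∃ b' : B, ∀ g, ψ (T g t - t) ≠ 0 → (T g t - t) ^ 2 ∣ T g b - b - b' * (T g t - t) := by
  obtain ⟨b', hb'⟩ := S.expand (fun g : {g : H // ψ (T g t - t) ≠ 0} => T g) (fun g => g.2)
    (fun g => h.dvd g) b
  exact ⟨b', fun g hg => hb' ⟨g, hg⟩⟩

theorem dvd_sub (S : Setup A ψ t) (h : Act ψ t T) (g : H) (b : B) :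
    T g t - t ∣ T g b - b := by
  rcases h.dich g with hg | hg
  · exact S.dvd_sub_one _ hg (h.dvd g) b
  · simp [hg]

theorem mem_fixSub (S : Setup A ψ t) (h : Act ψ t T) {J : Ideal B} {g : H}
    (hg : T g t - t ∈ J) : g ∈ h.fixSub J := fun b => J.mem_of_dvd (h.dvd_sub S g b) hg

/-- the derivative character on the common fixed scheme -/
theorem exists_char [Finite H] [Module.Flat A B] (S : Setup A ψ t) (h : Act ψ t T)
    (J : Ideal B) (hJ : h.fixSub J = ⊤) {g0 : H} (hg0 : ψ (T g0 t - t) ≠ 0) :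
    ∃ L : H →* B ⧸ J, ∀ g, ψ (T g t - t) ≠ 0 → ∀ n : ℕ, T (g ^ n) t = t →
      ∑ j ∈ range n, L (g ^ j) = 0 := by
  have htriv : ∀ g b, T g b - b ∈ J := fun g => (hJ ▸ Subgroup.mem_top g : g ∈ h.fixSub J)
  choose lam hlam using fun g : H => h.expand S (T g t)
  have cancel : ∀ g, ψ (T g t - t) ≠ 0 → ∀ x y : B,
      (T g t - t) * x = (T g t - t) ^ 2 * y → x ∈ J := by
    intro g hg x y hxy
    have := S.nzd hg (b := x - (T g t - t) * y) (by linear_combination hxy)
    rw [sub_eq_zero.1 this]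
    exact J.mul_mem_right _ (htriv g t)
  let L : H →* B ⧸ J :=
    { toFun := fun g => Ideal.Quotient.mk J (lam g)
      map_one' := by
        obtain ⟨z, hz⟩ := hlam 1 g0 hg0
        rw [h.one] at hz
        rw [← map_one (Ideal.Quotient.mk J), Ideal.Quotient.eq]
        exact cancel g0 hg0 _ (-z) (by linear_combination -hz)
      map_mul' := fun h1 h2 => by
        have e0 : ∀ b, T h2 (T (h2 * g0 * h2⁻¹) b) = T g0 (T h2 b) := fun b => by
          rw [← h.mul, ← h.mul]; simp
        have hg' : ψ (T (h2 * g0 * h2⁻¹) t - t) ≠ 0 := by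
          refine (h.dich _).resolve_right fun e => hg0 ?_
          have := e0 (T h2⁻¹ t)
          rw [e, ← h.mul, inv_mul_cancel, h.one] at this
          rw [← this, sub_self, map_zero]
        obtain ⟨z, hz⟩ := hlam h1 _ hg'
        obtain ⟨z', hz'⟩ := hlam h2 g0 hg0
        obtain ⟨z'', hz''⟩ := hlam (h1 * h2) g0 hg0
        have e1 := congrArg (T h2) hz
        simp only [map_sub, map_mul, map_pow, e0, ← h.mul h1 h2] at e1
        have e4 : T g0 (T h2 t) - T h2 t = (T g0 t - t) * (lam h2 + (T g0 t - t) * z') := by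
          linear_combination hz'
        rw [e4] at e1
        have e5 := cancel g0 hg0 (lam (h1 * h2) - T h2 (lam h1) * lam h2)
          (T h2 (lam h1) * z' + (lam h2 + (T g0 t - t) * z') ^ 2 * T h2 z - z'')
          (by linear_combination e1 - hz'')
        rw [← map_mul, Ideal.Quotient.eq]
        have e6 := add_mem e5 (J.mul_mem_right (lam h2) (htriv h2 (lam h1)))
        convert e6 using 1
        ring }
  refine ⟨L, fun g hg n hn => ?_⟩
  change ∑ j ∈ range n, Ideal.Quotient.mk J (lam (g ^ j)) = 0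
  rw [← map_sum, Ideal.Quotient.eq_zero_iff_mem]
  choose z hz using fun j : ℕ => hlam (g ^ j) g hg
  have e1 : ∑ j ∈ range n, (T (g ^ (j + 1)) t - T (g ^ j) t) = 0 := by
    rw [sum_range_sub (fun j => T (g ^ j) t), hn, pow_zero, h.one, sub_self]
  refine cancel g hg _ (-∑ j ∈ range n, z j) ?_
  rw [mul_neg, mul_sum, mul_sum, eq_neg_iff_add_eq_zero, ← sum_add_distrib, ← e1]
  refine sum_congr rfl fun j _ => ?_
  rw [pow_succ g, h.mul]
  linear_combination -hz j

theorem p_mem [Finite H] [Module.Flat A B] (S : Setup A ψ t) (h : Act ψ t T)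
    (hne : ∀ g, g ≠ 1 → ψ (T g t - t) ≠ 0) (hc : ¬ IsCyclic H)
    (J : Ideal B) (hJ : h.fixSub J = ⊤) (p : ℕ)
    (hp : ∀ l : ℕ, l.Prime → l ≠ p → IsUnit (l : A)) : (p : B) ∈ J := by
  by_contra hpJ
  obtain ⟨g0, hg0⟩ : ∃ g : H, g ≠ 1 := by
    by_contra hh
    push Not at hh
    have : Subsingleton H := ⟨fun a b => by rw [hh a, hh b]⟩
    exact hc inferInstance
  obtain ⟨L, hL⟩ := h.exists_char S J hJ (hne g0 hg0)
  refine hc (cyclic_of_char_sums L (fun g hg n hn => hL g (hne g hg) n (by rw [hn, h.one]))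
    fun l hl hl0 => ?_)
  have hl1 : (l : B) ∈ J := by
    rwa [← map_natCast (Ideal.Quotient.mk J), Ideal.Quotient.eq_zero_iff_mem] at hl0
  by_cases hlp : l = p
  · exact hpJ (hlp ▸ hl1)
  · have hu := (hp l hl hlp).map (algebraMap A B)
    rw [map_natCast] at hu
    exact hpJ (J.eq_top_of_isUnit_mem hl1 hu ▸ Submodule.mem_top)

theorem main [Finite H] [Module.Flat A B] (S : Setup A ψ t) (h : Act ψ t T)
    (hne : ∀ g, g ≠ 1 → ψ (T g t - t) ≠ 0) (hc : ¬ IsCyclic H)
    (σ γ : H) (hgen : Subgroup.closure {σ, γ} = ⊤) (hn : γ⁻¹ * σ * γ ∈ Subgroup.zpowers σ)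
    (d : ℕ) (hd : Associated (ψ (T σ t - t)) (ψ t ^ d)) (c : A)
    (hcγ : ψ t ^ 2 ∣ ψ (T γ t) - ψ (algebraMap A B c) * ψ t)
    (hu : IsUnit (∑ j ∈ range d, c ^ j)) (p : ℕ)
    (hp : ∀ l : ℕ, l.Prime → l ≠ p → IsUnit (l : A)) : (p : A) = 0 := by
  have h1 := h.p_mem S hne hc (Ideal.span {T σ t - t, T γ t - t}) (by
    rw [eq_top_iff, ← hgen, Subgroup.closure_le]
    rintro g (rfl | rfl)
    · exact h.mem_fixSub S (Ideal.subset_span (by simp))
    · exact h.mem_fixSub S (Ideal.subset_span (by simp))) p hp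
  have h2 : Subgroup.zpowers σ ≤ h.fixSub (Ideal.span {T σ t - t}) := by
    rw [Subgroup.zpowers_le]
    exact h.mem_fixSub S (Ideal.subset_span rfl)
  refine S.trace_kill (T γ) hd ?_ c hcγ hu p h1
  have := h2 hn (T γ t)
  rw [← h.mul, ← mul_assoc, ← mul_assoc, mul_inv_cancel, one_mul, h.mul] at this
  simpa [Ideal.mem_span_singleton] using this

end Act

end Pool.Agent.MP_deef5c_ag

end

section

/-! Passing from a flat lift of a scheme to the local ring of the lift at a point. -/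

open CategoryTheory AlgebraicGeometry IsLocalRing

universe u

namespace Pool.Agent.MP_deef5c_ag

@[reassoc]
theorem spec_locMap {X : Scheme.{u}} (e : X ⟶ X) (x : X) (h : e x = x) :
    Spec.map (locMap e x h) ≫ X.fromSpecStalk x = X.fromSpecStalk x ≫ e := by
  rw [locMap, Spec.map_comp, Category.assoc, Scheme.SpecMap_stalkSpecializes_fromSpecStalk,
    Scheme.SpecMap_stalkMap_fromSpecStalk]

theorem stalk_ext {X : Scheme.{u}} {x : X} {R : CommRingCat.{u}} {a b : X.presheaf.stalk x ⟶ R}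
    (h : Spec.map a ≫ X.fromSpecStalk x = Spec.map b ≫ X.fromSpecStalk x) : a = b :=
  Spec.map_injective ((cancel_mono _).1 h)

theorem exists_stalk_hom {X : Scheme.{u}} {R : CommRingCat.{u}} [IsLocalRing R] (g : Spec R ⟶ X)
    {x : X} (h : g (closedPoint R) = x) :
    ∃ θ : X.presheaf.stalk x ⟶ R, IsLocalHom θ.hom ∧ Spec.map θ ≫ X.fromSpecStalk x = g := by
  subst h
  exact ⟨Scheme.stalkClosedPointTo g, inferInstance, Scheme.Spec_stalkClosedPointTo_fromSpecStalk g⟩

/-- structure map of a local ring -/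
noncomputable def strMap {X : Scheme.{u}} {R : CommRingCat.{u}} (f : X ⟶ Spec R) (x : X) :
    R ⟶ X.presheaf.stalk x :=
  Spec.preimage (X.fromSpecStalk x ≫ f)

theorem spec_strMap {X : Scheme.{u}} {R : CommRingCat.{u}} (f : X ⟶ Spec R) (x : X) :
    Spec.map (strMap f x) = X.fromSpecStalk x ≫ f := Spec.map_preimage _

theorem strMap_eq {X : Scheme.{u}} {R : CommRingCat.{u}} (f : X ⟶ Spec R) (x : X) :
    strMap f x = StructureSheaf.toStalk R (f x) ≫ f.stalkMap x := by
  apply Spec.map_injective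
  rw [spec_strMap, Spec.map_comp, ← Scheme.SpecMap_stalkMap_fromSpecStalk, Spec.fromSpecStalk_eq']
  rfl

theorem strMap_flat {X : Scheme.{u}} {R : CommRingCat.{u}} (f : X ⟶ Spec R) [Flat f] (x : X) :
    (strMap f x).hom.Flat := by
  rw [strMap_eq, CommRingCat.hom_comp]
  refine RingHom.Flat.comp ?_ (Flat.stalkMap f x)
  have := IsLocalization.flat ((Spec.structureSheaf R).presheaf.stalk (f x)) (f x).asIdeal.primeCompl
  exact RingHom.flat_algebraMap_iff.2 this

theorem strMap_locMap {X : Scheme.{u}} {R : CommRingCat.{u}} (f : X ⟶ Spec R) (x : X) (e : X ⟶ X)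
    (h : e x = x) (he : e ≫ f = f) : strMap f x ≫ locMap e x h = strMap f x := by
  apply Spec.map_injective
  rw [Spec.map_comp, spec_strMap, spec_locMap_assoc, he]

theorem locMap_comp {X : Scheme.{u}} (e e' e'' : X ⟶ X) (x : X) (h : e x = x) (h' : e' x = x)
    (h'' : e'' x = x) (he : e'' = e' ≫ e) :
    locMap e'' x h'' = locMap e x h ≫ locMap e' x h' := by
  apply stalk_ext
  rw [Spec.map_comp, Category.assoc, spec_locMap, spec_locMap, spec_locMap_assoc, he]

theorem locMap_id {X : Scheme.{u}} (e : X ⟶ X) (x : X) (h : e x = x) (he : e = 𝟙 X) :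
    locMap e x h = 𝟙 _ := by
  apply stalk_ext
  rw [spec_locMap, he]
  simp

theorem locMap_stalkMap {X X' : Scheme.{u}} (ι : X ⟶ X') (e : X ⟶ X) (e' : X' ⟶ X') (x : X)
    (h : e x = x) (h' : e' (ι x) = ι x) (hc : ι ≫ e' = e ≫ ι) :
    locMap e' (ι x) h' ≫ ι.stalkMap x = ι.stalkMap x ≫ locMap e x h := by
  apply stalk_ext
  simp only [Spec.map_comp, Category.assoc, spec_locMap, Scheme.SpecMap_stalkMap_fromSpecStalk,
    Scheme.SpecMap_stalkMap_fromSpecStalk_assoc, spec_locMap_assoc, hc]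

theorem eq_id_of_locMap {X S : Scheme.{u}} [IsIntegral X] (f : X ⟶ S) [IsSeparated f] (e : X ⟶ X)
    (he : e ≫ f = f) (x : X) (h : e x = x) (hid : locMap e x h = 𝟙 _) : e = 𝟙 X := by
  have : IsDominant (X.fromSpecStalk x) := by
    constructor
    have h1 : genericPoint X ∈ Set.range (X.fromSpecStalk x) := by
      rw [Scheme.range_fromSpecStalk]
      exact genericPoint_specializes x
    refine Dense.mono (Set.singleton_subset_iff.2 h1) ?_
    rw [dense_iff_closure_eq]
    exact genericPoint_spec X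
  refine ext_of_isDominant_of_isSeparated f (by simp [he]) (X.fromSpecStalk x) ?_
  rw [← spec_locMap e x h, hid]
  simp

section

variable {k A : Type u} [Field k] [CommRing A] [IsLocalRing A] {π : A →+* k}
  {X X' : Scheme.{u}} {f : X ⟶ Spec (.of k)} {f' : X' ⟶ Spec (.of A)} {ι : X ⟶ X'}

omit [IsLocalRing A] in
theorem strMap_stalkMap (hι : IsPullback ι f f' (Spec.map (CommRingCat.ofHom π))) (x : X) :
    strMap f' (ι x) ≫ ι.stalkMap x = CommRingCat.ofHom π ≫ strMap f x := by
  apply Spec.map_injective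
  rw [Spec.map_comp, Spec.map_comp, spec_strMap, spec_strMap,
    Scheme.SpecMap_stalkMap_fromSpecStalk_assoc, hι.w, Category.assoc]

omit [IsLocalRing A] in
theorem closedImm (hπ : Function.Surjective π)
    (hι : IsPullback ι f f' (Spec.map (CommRingCat.ofHom π))) : IsClosedImmersion ι :=
  have : IsClosedImmersion (Spec.map (CommRingCat.ofHom π)) :=
    IsClosedImmersion.spec_of_surjective _ hπ
  MorphismProperty.of_isPullback hι.flip this

theorem ker_stalkMap (hπ : Function.Surjective π)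
    (hι : IsPullback ι f f' (Spec.map (CommRingCat.ofHom π))) (x : X) :
    RingHom.ker (ι.stalkMap x).hom = (maximalIdeal A).map (strMap f' (ι x)).hom := by
  have hk : RingHom.ker π = maximalIdeal A := IsLocalRing.ker_eq_maximalIdeal π hπ
  have hge : (maximalIdeal A).map (strMap f' (ι x)).hom ≤ RingHom.ker (ι.stalkMap x).hom := by
    rw [Ideal.map_le_iff_le_comap]
    intro a ha
    have h1 := congrArg (fun φ => φ.hom a) (strMap_stalkMap hι x)
    have h2 : π a = 0 := by rw [← RingHom.mem_ker, hk]; exact ha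
    simp only [CommRingCat.hom_comp, RingHom.comp_apply, CommRingCat.hom_ofHom, h2, map_zero] at h1
    exact h1
  refine le_antisymm ?_ hge
  set J := (maximalIdeal A).map (strMap f' (ι x)).hom with hJ
  have hJt : J ≠ ⊤ := fun h => RingHom.ker_ne_top _ (top_le_iff.1 (h ▸ hge))
  have : Nontrivial (X'.presheaf.stalk (ι x) ⧸ J) := Ideal.Quotient.nontrivial_iff.2 hJt
  have : IsLocalRing (X'.presheaf.stalk (ι x) ⧸ J) :=
    IsLocalRing.of_surjective' (Ideal.Quotient.mk J) Ideal.Quotient.mk_surjective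
  let q : X'.presheaf.stalk (ι x) ⟶ CommRingCat.of (X'.presheaf.stalk (ι x) ⧸ J) :=
    CommRingCat.ofHom (Ideal.Quotient.mk J)
  have : IsLocalHom q.hom := IsLocalHom.of_surjective _ Ideal.Quotient.mk_surjective
  let r0 : {g : A →+* (X'.presheaf.stalk (ι x) ⧸ J) // RingHom.ker π ≤ RingHom.ker g} :=
    ⟨q.hom.comp (strMap f' (ι x)).hom, fun a ha => by
      rw [hk] at ha
      exact Ideal.Quotient.eq_zero_iff_mem.2 (Ideal.mem_map_of_mem _ ha)⟩
  let r : k →+* (X'.presheaf.stalk (ι x) ⧸ J) := π.liftOfSurjective hπ r0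
  have hr : CommRingCat.ofHom π ≫ CommRingCat.ofHom r = strMap f' (ι x) ≫ q := by
    ext a
    exact π.liftOfRightInverse_comp_apply _ (Function.rightInverse_surjInv hπ) r0 a
  let g := hι.lift (Spec.map q ≫ X'.fromSpecStalk (ι x)) (Spec.map (CommRingCat.ofHom r)) (by
    rw [← Spec.map_comp, hr, Spec.map_comp, spec_strMap, Category.assoc])
  have hg : g ≫ ι = Spec.map q ≫ X'.fromSpecStalk (ι x) := hι.lift_fst _ _ _
  have := closedImm hπ hι
  have hgx : g (closedPoint _) = x := by
    apply ι.isClosedEmbedding.injective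
    rw [← Scheme.Hom.comp_apply, hg, Scheme.Hom.comp_apply, Spec_closedPoint,
      Scheme.fromSpecStalk_closedPoint]
  obtain ⟨θ, -, hθ⟩ := exists_stalk_hom g hgx
  have hq : ι.stalkMap x ≫ θ = q := by
    apply stalk_ext
    rw [Spec.map_comp, Category.assoc, Scheme.SpecMap_stalkMap_fromSpecStalk, ← Category.assoc, hθ,
      hg]
  intro b hb
  have h1 := congrArg (fun φ => φ.hom b) hq
  simp only [CommRingCat.hom_comp, RingHom.comp_apply, RingHom.mem_ker.1 hb, map_zero] at h1
  exact Ideal.Quotient.eq_zero_iff_mem.1 h1.symm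

end

end Pool.Agent.MP_deef5c_ag

end

section

/-! The local ring of a smooth curve at a rational point has a principal maximal ideal. -/

open CategoryTheory AlgebraicGeometry IsLocalRing

universe u

namespace Pool.Agent.MP_deef5c_ag

theorem principal_of_smooth {R S O : Type*} [CommRing R] [CommRing S] [CommRing O] [Algebra R S]
    [Algebra.IsStandardSmoothOfRelativeDimension 1 R S] [IsLocalRing O] [IsNoetherianRing O]
    [Algebra S O] (M : Submonoid S) [IsLocalization M O] (e : O →+* O)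
    (h1 : ∀ r : R, e (algebraMap S O (algebraMap R S r)) = algebraMap S O (algebraMap R S r))
    (h2 : ∀ y, y - e y ∈ maximalIdeal O) (h3 : ∀ y ∈ maximalIdeal O, e y = 0) :
    (maximalIdeal O).IsPrincipal := by
  have : Nontrivial S := (algebraMap S O).domain_nontrivial
  let _ : Algebra R O := ((algebraMap S O).comp (algebraMap R S)).toAlgebra
  have : IsScalarTower R S O := IsScalarTower.of_algebraMap_eq fun _ => rfl
  have := Algebra.IsStandardSmoothOfRelativeDimension.isStandardSmooth 1 (R := R) (S := S)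
  obtain ⟨ω, hω⟩ := rank_le_one_iff.1
    (Algebra.IsStandardSmoothOfRelativeDimension.rank_kaehlerDifferential (R := R) (S := S) 1).le
  let D0 : S →ₗ[R] (maximalIdeal O).Cotangent :=
    { toFun := fun s => (maximalIdeal O).toCotangent ⟨algebraMap S O s - e (algebraMap S O s), h2 _⟩
      map_add' := fun a b => by
        rw [← map_add]; congr 1; ext; simp only [map_add, Submodule.coe_add]; ring
      map_smul' := fun r a => by
        rw [RingHom.id_apply, ← algebraMap_smul O r ((maximalIdeal O).toCotangent _), ← map_smul]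
        congr 1; ext
        simp only [Algebra.smul_def r a, map_mul, h1, SetLike.val_smul, smul_eq_mul]
        change _ = algebraMap S O (algebraMap R S r) * _
        ring }
  let D : Derivation R S (maximalIdeal O).Cotangent := Derivation.mk' D0 fun a b => by
    change (maximalIdeal O).toCotangent _ = a • (maximalIdeal O).toCotangent _ +
      b • (maximalIdeal O).toCotangent _
    rw [← algebraMap_smul O a, ← algebraMap_smul O b, ← map_smul, ← map_smul, ← map_add,
      Ideal.toCotangent_eq, pow_two]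
    have := neg_mem (Ideal.mul_mem_mul (h2 (algebraMap S O a)) (h2 (algebraMap S O b)))
    convert this using 1
    simp only [map_mul, Submodule.coe_add, SetLike.val_smul, smul_eq_mul]
    ring
  obtain ⟨τ, hτ⟩ := (maximalIdeal O).toCotangent_surjective (D.liftKaehlerDifferential ω)
  refine ⟨τ, le_antisymm ?_ (by simp)⟩
  refine Submodule.le_of_le_smul_of_le_jacobson_bot (I := maximalIdeal O)
    (IsNoetherian.noetherian _) (IsLocalRing.maximalIdeal_le_jacobson _) fun y hy => ?_
  obtain ⟨⟨s, u⟩, hs⟩ := IsLocalization.surj M y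
  obtain ⟨v, hv⟩ := IsLocalization.map_units O u
  obtain ⟨a, ha⟩ := hω (KaehlerDifferential.D R S s)
  have h4 := congrArg D.liftKaehlerDifferential ha
  rw [map_smul, Derivation.liftKaehlerDifferential_comp_D, ← hτ, ← algebraMap_smul O a,
    ← map_smul] at h4
  have h5 := (Ideal.toCotangent_eq _).1 h4
  have h6 : e (algebraMap S O s) = 0 := h3 _ (hs ▸ Ideal.mul_mem_right _ _ hy)
  simp only [SetLike.val_smul, smul_eq_mul, h6, sub_zero] at h5
  have h7 : y = (↑v⁻¹ * algebraMap S O a) * τ + (-↑v⁻¹) * (algebraMap S O a * τ - algebraMap S O s) := by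
    rw [← hs, ← hv]
    have := v.inv_mul
    linear_combination (-y) * this
  rw [h7]
  refine Submodule.add_mem_sup (Ideal.mul_mem_left _ _ (Ideal.subset_span rfl)) ?_
  rw [Ideal.smul_eq_mul, ← pow_two]
  exact Ideal.mul_mem_left _ _ h5

variable {k : Type u} [Field k] {X : Scheme.{u}} {f : X ⟶ Spec (.of k)}

theorem exists_retr (s : Spec (.of k) ⟶ X) (hs : s ≫ f = 𝟙 _) {x : X}
    (hx : s (closedPoint k) = x) :
    ∃ ε : X.presheaf.stalk x ⟶ .of k, Spec.map ε ≫ X.fromSpecStalk x = s ∧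
      (∀ y, y - (strMap f x).hom (ε.hom y) ∈ maximalIdeal _) ∧
      ∀ y ∈ maximalIdeal _, ε.hom y = 0 := by
  obtain ⟨ε, hl, hε⟩ := exists_stalk_hom (R := .of k) s hx
  have h1 : strMap f x ≫ ε = 𝟙 _ := by
    apply Spec.map_injective
    rw [Spec.map_comp, spec_strMap, ← Category.assoc, hε, hs, Spec.map_id]
  refine ⟨ε, hε, fun y hy => ?_, fun y hy => ?_⟩
  · have h2 := hy.map ε.hom
    have h3 := congrArg (fun φ => φ.hom (ε.hom y)) h1
    simp only [CommRingCat.hom_comp, RingHom.comp_apply, CommRingCat.hom_id, RingHom.id_apply] at h3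
    rw [map_sub, h3, sub_self] at h2
    exact not_isUnit_zero h2
  · by_contra h
    exact hy (IsLocalHom.map_nonunit _ (IsUnit.mk0 _ h))

theorem principal_stalk [SmoothOfRelativeDimension 1 f] (s : Spec (.of k) ⟶ X) (hs : s ≫ f = 𝟙 _)
    {x : X} (hx : s (closedPoint k) = x) :
    IsNoetherianRing (X.presheaf.stalk x) ∧ (maximalIdeal (X.presheaf.stalk x)).IsPrincipal := by
  have : Smooth f := SmoothOfRelativeDimension.smooth 1 f
  have : IsLocallyNoetherian X := LocallyOfFiniteType.isLocallyNoetherian f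
  have hN : IsNoetherianRing (X.presheaf.stalk x) := inferInstance
  refine ⟨hN, ?_⟩
  obtain ⟨ε, hε, h2, h3⟩ := exists_retr s hs hx
  obtain ⟨U, hU, V, hV, hxV, e, hsm⟩ :=
    SmoothOfRelativeDimension.exists_isStandardSmoothOfRelativeDimension (n := 1) (f := f) x
  let _ := (f.appLE U V e).hom.toAlgebra
  have : Algebra.IsStandardSmoothOfRelativeDimension 1 Γ(Spec (.of k), U) Γ(X, V) := hsm
  let _ : Algebra Γ(X, V) (X.presheaf.stalk x) :=
    TopCat.Presheaf.algebra_section_stalk X.presheaf (⟨x, hxV⟩ : V)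
  have := hV.isLocalization_stalk ⟨x, hxV⟩
  have h4 : f.stalkMap x ≫ ε ≫ strMap f x = f.stalkMap x := by
    apply stalk_ext
    rw [Spec.map_comp, Spec.map_comp, Category.assoc, Category.assoc,
      Scheme.SpecMap_stalkMap_fromSpecStalk, ← Category.assoc (Spec.map ε), hε, hs, spec_strMap]
    simp
  refine principal_of_smooth (R := Γ(Spec (.of k), U)) (S := Γ(X, V))
    (hV.primeIdealOf ⟨x, hxV⟩).asIdeal.primeCompl (ε ≫ strMap f x).hom (fun r => ?_) h2
    (fun y hy => by simp [h3 y hy])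
  have h5 : algebraMap Γ(X, V) (X.presheaf.stalk x) (algebraMap Γ(Spec (.of k), U) Γ(X, V) r) =
      (f.stalkMap x).hom (((Spec (.of k)).presheaf.germ U (f x) (e hxV)).hom r) := by
    rw [Scheme.Hom.germ_stalkMap_apply]
    change (X.presheaf.germ V x hxV).hom ((f.appLE U V e).hom r) = _
    rw [Scheme.Hom.appLE, CommRingCat.hom_comp, RingHom.comp_apply,
      TopCat.Presheaf.germ_res_apply]
  rw [h5]
  exact congrArg (fun φ => φ.hom (((Spec (.of k)).presheaf.germ U (f x) (e hxV)).hom r)) h4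

end Pool.Agent.MP_deef5c_ag

end

section

/-! Reduction of an equivariant lift of a curve to the local algebraic setting. -/

open CategoryTheory AlgebraicGeometry IsLocalRing

universe u

namespace Pool.Agent.MP_deef5c_ag

theorem fix_closure {X : Scheme.{u}} {G : Type*} [Group G] (ρ : G →* Aut X) (x : X) (s : Set G)
    (hs : ∀ g ∈ s, (ρ g).hom x = x) : ∀ g ∈ Subgroup.closure s, (ρ g).hom x = x := by
  intro g hg
  induction hg using Subgroup.closure_induction with
  | mem g hg => exact hs g hg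
  | one => rw [map_one]; rfl
  | mul g h _ _ ihg ihh =>
    rw [map_mul]
    change ((ρ h).hom ≫ (ρ g).hom) x = x
    rw [Scheme.Hom.comp_apply, ihh, ihg]
  | inv g _ ih =>
    have h1 : (ρ g).hom ≫ (ρ g⁻¹).hom = 𝟙 X := by
      rw [map_inv]; exact (ρ g).hom_inv_id
    have h2 := congrArg (fun φ : X ⟶ X => φ x) h1
    simp only [Scheme.Hom.comp_apply, ih] at h2
    simpa using h2

theorem reduce {k : Type u} [Field k] {X : Scheme.{u}} [IsIntegral X] {f : X ⟶ Spec (.of k)}
    [IsSeparated f] [SmoothOfRelativeDimension 1 f] {G : Type*} [Group G] {ρ : G →* Aut X}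
    (hρ : Function.Injective ρ) (hρk : ∀ g, (ρ g).hom ≫ f = f) {s : Spec (.of k) ⟶ X}
    (hs : s ≫ f = 𝟙 _) {x : X} (hx : s (closedPoint k) = x) (K : Subgroup G)
    (hK : ∀ g ∈ K, (ρ g).hom x = x) (g0 : K) (hg0 : g0 ≠ 1)
    {A : Type u} [CommRing A] [IsLocalRing A] [IsArtinianRing A] {π : A →+* k}
    (hπ : Function.Surjective π) {X' : Scheme.{u}} {f' : X' ⟶ Spec (.of A)} [Flat f'] {ι : X ⟶ X'}
    (hι : IsPullback ι f f' (Spec.map (CommRingCat.ofHom π))) {ρ' : G →* Aut X'}
    (hρA : ∀ g, (ρ' g).hom ≫ f' = f') (hc : ∀ g, ι ≫ (ρ' g).hom = (ρ g).hom ≫ ι) :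
    ∃ (B : Type u) (_ : CommRing B) (_ : Algebra A B) (_ : Module.Flat A B)
      (ψ : B →+* X.presheaf.stalk x) (t : B) (T : K → B →ₐ[A] B), Setup A ψ t ∧ Act ψ t T ∧
      (∀ g, g ≠ 1 → ψ (T g t - t) ≠ 0) ∧ maximalIdeal _ = Ideal.span {ψ t} ∧
      ∀ (g : K) b, ψ (T g b) = (locMap (ρ g).hom x (hK g g.2)).hom (ψ b) := by
  have hK' : ∀ g : K, (ρ' g).hom (ι x) = ι x := fun g => by
    rw [← Scheme.Hom.comp_apply, hc, Scheme.Hom.comp_apply, hK g g.2]
  have hfaith : ∀ g : K, locMap (ρ g).hom x (hK g g.2) = 𝟙 _ → g = 1 := fun g hg => by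
    have h1 := eq_id_of_locMap f _ (hρk g) x _ hg
    have h2 : ρ g = ρ 1 := by rw [map_one]; exact Iso.ext h1
    exact Subtype.ext (hρ h2)
  obtain ⟨hN, hP⟩ := principal_stalk s hs hx
  obtain ⟨ε, -, hε, -⟩ := exists_retr s hs hx
  have hnf : ¬ IsField (X.presheaf.stalk x) := fun hF => hg0 (hfaith g0 (by
    ext y
    have h1 := hε y
    rw [IsLocalRing.isField_iff_maximalIdeal_eq.1 hF, Ideal.mem_bot, sub_eq_zero] at h1
    have h2 := congrArg (fun φ => φ.hom (ε.hom y)) (strMap_locMap f x _ (hK g0 g0.2) (hρk g0))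
    simp only [CommRingCat.hom_comp, RingHom.comp_apply, ← h1] at h2
    simpa using h2))
  have hD : IsDiscreteValuationRing (X.presheaf.stalk x) :=
    ((IsDiscreteValuationRing.TFAE (X.presheaf.stalk x) hnf).out 0 4).2 hP
  have := closedImm hπ hι
  have hsurj : Function.Surjective (ι.stalkMap x).hom := ι.stalkMap_surjective x
  obtain ⟨ϖ, hϖ⟩ := IsDiscreteValuationRing.exists_irreducible (X.presheaf.stalk x)
  obtain ⟨t, rfl⟩ := hsurj ϖ
  let _ : Algebra A (X'.presheaf.stalk (ι x)) := (strMap f' (ι x)).hom.toAlgebra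
  have hfl : Module.Flat A (X'.presheaf.stalk (ι x)) := strMap_flat f' (ι x)
  let T : K → X'.presheaf.stalk (ι x) →ₐ[A] X'.presheaf.stalk (ι x) := fun g =>
    { (locMap (ρ' g).hom (ι x) (hK' g)).hom with
      commutes' := fun a => congrArg (fun φ => φ.hom a) (strMap_locMap f' (ι x) _ (hK' g) (hρA g)) }
  have hT : ∀ (g : K) b, (ι.stalkMap x).hom (T g b) =
      (locMap (ρ g).hom x (hK g g.2)).hom ((ι.stalkMap x).hom b) := fun g b =>
    congrArg (fun φ => φ.hom b) (locMap_stalkMap ι _ _ x (hK g g.2) (hK' g) (hc g))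
  have hmax := hϖ.maximalIdeal_eq
  have S : Setup A (ι.stalkMap x).hom t :=
    { surj := hsurj
      ker := ker_stalkMap hπ hι x
      ne := hϖ.ne_zero
      nu := hϖ.not_isUnit
      res := fun y => by
        obtain ⟨a, ha⟩ := hπ (ε.hom y)
        refine ⟨a, ?_⟩
        have h1 := congrArg (fun φ => φ.hom a) (strMap_stalkMap hι x)
        simp only [CommRingCat.hom_comp, RingHom.comp_apply, CommRingCat.hom_ofHom, ha] at h1
        have h2 := hε y
        rw [hmax, Ideal.mem_span_singleton, ← h1] at h2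
        exact h2
      pw := fun y hy => IsDiscreteValuationRing.associated_pow_irreducible hy hϖ }
  have hone : ∀ b, T 1 b = b := fun b =>
    congrArg (fun φ => φ.hom b) (locMap_id _ (ι x) (hK' 1) (by simp; rfl))
  have hmul : ∀ g h b, T (g * h) b = T h (T g b) := fun g h b =>
    congrArg (fun φ => φ.hom b) (locMap_comp _ _ _ (ι x) (hK' g) (hK' h) (hK' (g * h))
      (by rw [Subgroup.coe_mul, map_mul]; rfl))
  have hne : ∀ g, g ≠ 1 → (ι.stalkMap x).hom (T g t - t) ≠ 0 := fun g hg h0 => hg (hfaith g (by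
    ext y
    obtain ⟨b, rfl⟩ := hsurj y
    have h1 := S.sep (T g) h0 b
    rw [map_sub, hT, sub_eq_zero] at h1
    simpa using h1))
  refine ⟨X'.presheaf.stalk (ι x), inferInstance, inferInstance, hfl, (ι.stalkMap x).hom, t, T, S,
    ⟨hone, hmul, fun g => ?_, fun g => ?_⟩, hne, hmax, hT⟩
  · by_cases hg : g = 1
    · exact Or.inr (hg ▸ hone)
    · exact Or.inl (hne g hg)
  · by_contra hnd
    have h1 := (S.unit_B (S.unit_O hnd)).map (T g⁻¹)
    rw [← hmul, mul_inv_cancel, hone] at h1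
    exact S.nu (h1.map _)

/-- the ramification index read on a uniformiser -/
theorem assoc_of_span {A B O : Type*} [CommRing A] [IsLocalRing A] [IsArtinianRing A] [CommRing B]
    [Algebra A B] [CommRing O] [IsDomain O] {H : Type*} [Group H] {ψ : B →+* O} {t : B}
    {T : H → B →ₐ[A] B} (S : Setup A ψ t) (h : Act ψ t T) (g : H) (L : O → O)
    (hL : ∀ b, ψ (T g b) = L (ψ b)) {d : ℕ}
    (hd : Ideal.span (Set.range fun y => L y - y) = Ideal.span {ψ t} ^ d) :
    Associated (ψ (T g t - t)) (ψ t ^ d) := by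
  rw [← Ideal.span_singleton_eq_span_singleton, ← Ideal.span_singleton_pow, ← hd]
  refine le_antisymm (Ideal.span_mono ?_) (Ideal.span_le.2 ?_)
  · rintro _ rfl
    exact ⟨ψ t, by simp [hL]⟩
  · rintro _ ⟨y, rfl⟩
    obtain ⟨b, rfl⟩ := S.surj y
    have := map_dvd ψ (h.dvd_sub S g b)
    rw [map_sub ψ (T g b), hL] at this
    exact Ideal.mem_span_singleton.2 this

theorem unit_of_prime_ne {k A : Type*} [Field k] [CommRing A] [IsLocalRing A] {π : A →+* k}
    (hπ : Function.Surjective π) (p : ℕ) [CharP k p] [Fact p.Prime] (l : ℕ) (hl : l.Prime)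
    (hlp : l ≠ p) : IsUnit (l : A) := by
  by_contra hu
  have h1 : (l : A) ∈ RingHom.ker π := by
    rw [IsLocalRing.ker_eq_maximalIdeal π hπ]; exact hu
  rw [RingHom.mem_ker, map_natCast, CharP.cast_eq_zero_iff k p] at h1
  exact hlp ((Nat.prime_dvd_prime_iff_eq Fact.out hl).1 h1).symm

theorem ringChar_of_eq_zero {A : Type*} [CommRing A] [Nontrivial A] (p : ℕ) [Fact p.Prime]
    (h : (p : A) = 0) : ringChar A = p :=
  have := (CharP.charP_iff_prime_eq_zero (R := A) Fact.out).2 h
  ringChar.eq A p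

end Pool.Agent.MP_deef5c_ag

end

section

/-! The fixed section of a tame element and the displacement homomorphism. -/

open Finset IsLocalRing

namespace Pool.Agent.MP_deef5c_ag

variable {A B O : Type*} [CommRing A] [IsLocalRing A] [IsArtinianRing A] [CommRing B] [Algebra A B]
  [CommRing O] [IsDomain O] {ψ : B →+* O} {t : B} {H : Type*} [Group H] {T : H → B →ₐ[A] B}

theorem Act.sub_sq (S : Setup A ψ t) (h : Act ψ t T) (g : H) {b : B} (hb : ψ t ^ 2 ∣ ψ b) :
    ∃ w, T g b - b = (T g t - t) * w ∧ ψ t ∣ ψ w := by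
  obtain ⟨u, hu⟩ := hb
  obtain ⟨u, rfl⟩ := S.surj u
  have h1 := S.mem_smul (b := b - t ^ 2 * u) (by simp [hu])
  have h2 : ∀ n ∈ maximalIdeal A • (⊤ : Submodule A B),
      ∃ w, T g n - n = (T g t - t) * w ∧ ψ w = 0 := fun n hn => by
    refine Submodule.smul_induction_on hn (fun a ha m _ => ?_) ?_
    · obtain ⟨w, hw⟩ := h.dvd_sub S g m
      refine ⟨algebraMap A B a * w, ?_, by rw [map_mul, S.zero_of_mem ha, zero_mul]⟩
      rw [Algebra.smul_def, map_mul, AlgHom.commutes]
      linear_combination algebraMap A B a * hw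
    · rintro x y ⟨w, hw, hw'⟩ ⟨v, hv, hv'⟩
      exact ⟨w + v, by rw [map_add]; linear_combination hw + hv, by rw [map_add, hw', hv', add_zero]⟩
  obtain ⟨w, hw, hw'⟩ := h2 _ h1
  obtain ⟨v, hv⟩ := h.dvd_sub S g u
  refine ⟨w + (t * (t * v) + (T g t + t) * T g u), ?_, ?_⟩
  · simp only [map_sub, map_mul, map_pow] at hw
    linear_combination hw + t ^ 2 * hv
  · simp only [map_add, map_mul, hw', zero_add]
    exact dvd_add (dvd_mul_right _ _) ((dvd_add (h.dvd g) dvd_rfl).mul_right _)

theorem Act.main_wt [Finite H] [Module.Flat A B] (S : Setup A ψ t) (h : Act ψ t T)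
    (hne : ∀ g, g ≠ 1 → ψ (T g t - t) ≠ 0) (hc : ¬ IsCyclic H) (P : Subgroup H) (γ : H)
    (hgen : Subgroup.closure (insert γ (P : Set H)) = ⊤)
    (hP : ∀ g ∈ P, ψ t ^ 2 ∣ ψ (T g t - t)) (c : A)
    (hcγ : ψ t ^ 2 ∣ ψ (T γ t) - ψ (algebraMap A B c) * ψ t) (hu : IsUnit (c - 1))
    (hφ : ∀ φ : P → ResidueField A, (∀ g g', φ (g * g') = φ g + φ g') →
      (∀ g g' : P, (g' : H) = γ * g * γ⁻¹ → φ g' = residue A c * φ g) → ∀ g, φ g = 0)
    (p : ℕ) (hp : ∀ l : ℕ, l.Prime → l ≠ p → IsUnit (l : A)) : (p : A) = 0 := by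
  set δ := T γ t - t with hδ
  have hd : Associated (ψ δ) (ψ t ^ 1) := by
    obtain ⟨z, hz⟩ := hcγ
    have e : ψ δ = ψ t * (ψ (algebraMap A B (c - 1)) + ψ t * z) := by
      simp only [hδ, map_sub, map_one]
      linear_combination hz
    rw [e, pow_one]
    refine associated_mul_unit_left _ _ (S.unit_O fun hh => ?_)
    exact S.mem_of_dvd ((dvd_add_left (dvd_mul_right _ _)).1 hh) hu
  have uniq : ∀ a : A, δ ∣ algebraMap A B a → a = 0 := by
    rintro a ⟨z, hz⟩
    have : Setup.dv A t δ 1 (fun _ => a, -z) = Setup.dv A t δ 1 0 := by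
      rw [Setup.dv_apply, map_zero]
      simp [hz]
    exact congrFun (congrArg Prod.fst (S.dv_inj hd this)) 0
  obtain ⟨ev, hev⟩ : ∃ ev : B → A, ∀ b, δ ∣ b - algebraMap A B (ev b) := by
    have : ∀ b, ∃ a : A, δ ∣ b - algebraMap A B a := fun b => by
      obtain ⟨⟨a, z⟩, rfl⟩ := S.dv_surj hd.dvd b
      exact ⟨a 0, z, by rw [Setup.dv_apply]; simp⟩
    exact ⟨_, fun b => (this b).choose_spec⟩
  have evm : ∀ w, ψ t ∣ ψ w → ev w ∈ maximalIdeal A := fun w hw => by
    have h1 := ((pow_one (ψ t)) ▸ hd.symm.dvd).trans (map_dvd ψ (hev w))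
    rw [map_sub] at h1
    exact S.mem_of_dvd ((dvd_sub_right hw).1 h1)
  let a : H → A := fun g => ev (T g t - t)
  have ha : ∀ g, δ ∣ T g t - t - algebraMap A B (a g) := fun g => hev _
  have hfix : ∀ b, δ ∣ T γ⁻¹ b - b := fun b => by
    have := h.dvd_sub S γ (T γ⁻¹ b)
    rwa [← h.mul, inv_mul_cancel, h.one, ← dvd_neg, neg_sub] at this
  have hadd : ∀ g ∈ P, ∀ g', ∃ r ∈ maximalIdeal A, a (g * g') = a g + a g' + r * a g' := by
    intro g hg g'
    obtain ⟨w, hw, hw'⟩ := h.sub_sq S g' (hP g hg)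
    refine ⟨ev w, evm w hw', sub_eq_zero.1 (uniq _ ?_)⟩
    have h1 := _root_.dvd_sub (dvd_add (dvd_add (ha g) (ha g')) (dvd_add ((ha g').mul_right w)
      ((hev w).mul_left (algebraMap A B (a g'))))) (ha (g * g'))
    convert h1 using 1
    simp only [map_sub, map_add, map_mul, h.mul] at hw ⊢
    linear_combination hw
  have hcj : ∀ g, ∃ r ∈ maximalIdeal A, a (γ * g * γ⁻¹) = c * a g + r * a g := by
    intro g
    obtain ⟨w, hw, hw'⟩ := h.sub_sq S g (b := T γ t - algebraMap A B c * t) (by simpa using hcγ)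
    refine ⟨ev w, evm w hw', sub_eq_zero.1 (uniq _ ?_)⟩
    have h1 := _root_.dvd_sub (dvd_add (dvd_add (dvd_add (hfix (T g (T γ t))) (dvd_refl δ))
      ((ha g).mul_left (algebraMap A B c))) (dvd_add ((ha g).mul_right w)
      ((hev w).mul_left (algebraMap A B (a g))))) (ha (γ * g * γ⁻¹))
    convert h1 using 1
    simp only [map_sub, map_add, map_mul, h.mul, AlgHom.commutes, hδ] at hw ⊢
    linear_combination hw
  have hJ : ∀ g : P, a g = 0 := by
    by_contra hh
    push Not at hh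
    obtain ⟨g0, hg0⟩ := hh
    let J : Ideal A := Ideal.span (Set.range fun g : P => a g)
    let b : P → J := fun g => ⟨a g, Ideal.subset_span ⟨g, rfl⟩⟩
    have : Nontrivial J := ⟨b g0, 0, fun e => hg0 (congrArg Subtype.val e)⟩
    obtain ⟨N, hN, -⟩ := (eq_top_or_exists_le_coatom (⊥ : Submodule A J)).resolve_left bot_ne_top
    obtain ⟨I, hI, ⟨e⟩⟩ := isSimpleModule_iff_quot_maximal.1 (isSimpleModule_iff_isCoatom.2 hN)
    obtain rfl := eq_maximalIdeal hI
    let l : J →ₗ[A] ResidueField A := e.toLinearMap ∘ₗ N.mkQ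
    have hl : ∀ (r : A) x, l (r • x) = residue A r * l x := fun r x => by
      rw [map_smul, Algebra.smul_def]; rfl
    have h0 := hφ (fun g => l (b g)) (fun g g' => by
      obtain ⟨r, hr, e1⟩ := hadd g g.2 g'
      rw [show b (g * g') = b g + b g' + r • b g' from Subtype.ext e1, map_add, map_add, hl,
        (residue_eq_zero_iff r).2 hr, zero_mul, add_zero]) (fun g g' hg => by
      obtain ⟨r, hr, e1⟩ := hcj g
      rw [← hg] at e1
      rw [show b g' = c • b g + r • b g from Subtype.ext e1, map_add, hl, hl,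
        (residue_eq_zero_iff r).2 hr, zero_mul, add_zero])
    refine hN.1 (eq_top_iff.2 ?_)
    rintro ⟨x, hx⟩ -
    induction hx using Submodule.span_induction with
    | mem x hx =>
      obtain ⟨g, rfl⟩ := hx
      exact (Submodule.Quotient.mk_eq_zero N).1 (e.injective ((h0 g).trans (map_zero e).symm))
    | zero => exact N.zero_mem
    | add x y hx hy ihx ihy => exact N.add_mem ihx ihy
    | smul r x hx ih => exact N.smul_mem r ih
  have h1 := h.p_mem S hne hc (Ideal.span {δ}) (by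
    rw [eq_top_iff, ← hgen, Subgroup.closure_le]
    rintro g (rfl | hg)
    · exact h.mem_fixSub S (Ideal.subset_span rfl)
    · refine h.mem_fixSub S (Ideal.mem_span_singleton.2 ?_)
      simpa [hJ ⟨g, hg⟩] using ha g) p hp
  exact uniq _ (by simpa [Ideal.mem_span_singleton] using h1)

end Pool.Agent.MP_deef5c_ag

end
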