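import Pool.Agent.MP_deef5c_ag.O.GStm
import Pool.Agent.MP_deef5c_ag.O.Stm
import Pool.Agent.Mg.Fdeef5c.G59577e
import Pool.Agent.Mg.Fdeef5c.Gbae07f

section

/-! Definitions for the passage from local to global lifts. -/

open CategoryTheory AlgebraicGeometry IsLocalRing Function
open scoped Polynomial PowerSeries

namespace Pool.Agent.MP_deef5c_ag.O

universe u

section Algebra

variable {k A K K' : Type u} [Field k] [CommRing A] [IsLocalRing A] [Field K] [Algebra k K]
  [CommRing K'] [Algebra A K']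

/-- `K'` is the unramified lift to `A(f')` of the finite separable extension `K / k(f)` -/
structure KL (π : A →+* k) (red : K' →+* K) (f : K) (f' : K') : Prop where
  flat : Module.Flat A K'
  surj : Surjective red
  ker : RingHom.ker red = (maximalIdeal A).map (algebraMap A K')
  alg : ∀ a, red (algebraMap A K' a) = algebraMap k K (π a)
  hf : red f' = f
  ex : ∀ (L' L : Type u) [CommRing L'] [Algebra A L'] [CommRing L] (r : L' →+* L), Surjective r →
    (∀ a, r a = 0 → IsNilpotent a) → ∀ j : K →+* L,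
    (∀ a, r (algebraMap A L' a) = j (algebraMap k K (π a))) → ∀ F, r F = j f →
    ∃ e : K' →ₐ[A] L', (∀ b, r (e b) = j (red b)) ∧ e f' = F
  uniq : ∀ (L' L : Type u) [CommRing L'] [Algebra A L'] [CommRing L] (r : L' →+* L),
    (∀ a, r a = 0 → IsNilpotent a) → ∀ e₁ e₂ : K' →ₐ[A] L', (∀ b, r (e₁ b) = r (e₂ b)) →
    e₁ f' = e₂ f' → e₁ = e₂
  fin : ∀ b' : K', ∃ Z : Finset K, ∀ S : Subalgebra A K', f' ∈ S →
    (∀ z ∈ Z, ∃ s ∈ S, red s = z) → b' ∈ S

/-- `j` embeds `K` in the completion at the valuation ring `O`, with uniformiser `t` -/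
structure CP (O : Subring K) (j : K →+* LaurentSeries k) (t : K) : Prop where
  alg : ∀ c, j (algebraMap k K c) = algebraMap k _ c
  mem : ∀ b, b ∈ O ↔ vv k (j b) ≤ 1
  uni : j t = lc k PowerSeries.X

/-- `O'` is a flat model of `O` -/
structure PM (red : K' →+* K) (O : Subring K) (f : K) (f' : K') (O' : Subalgebra A K') : Prop where
  mem : ∀ b, b ∈ O ↔ ∃ b' ∈ O', red b' = b
  flat : Module.Flat A (K' ⧸ Subalgebra.toSubmodule O')
  hf : f ∈ O → f' ∈ O'

/-- a right action by ring endomorphisms -/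
structure RA {G R : Type*} [Group G] (T : G → R → R) : Prop where
  one : ∀ b, T 1 b = b
  mul : ∀ g h b, T (g * h) b = T h (T g b)

/-- the local action read on power series -/
def LA {H : Type*} [Group H] (T : H → K →+* K) (j : K →+* LaurentSeries k)
    (ρx : H →* (k⟦X⟧ ≃ₐ[k] k⟦X⟧)) : Prop :=
  Injective ρx ∧ ∀ h b g, j b = lc k g → j (T h⁻¹ b) = lc k (ρx h g)

/-- the vanishing of the obstruction for a local action -/
def LC (p : ℕ) {H : Type*} [Group H] (ρx : H →* (k⟦X⟧ ≃ₐ[k] k⟦X⟧)) : Prop :=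
  IsCyclic H ∨ ∀ σ : H, orderOf σ = ordProj[p] (Nat.card H) →
    ((ordCompl[p] (Nat.card H) : ℕ) : ℕ∞) ∣ (ρx σ PowerSeries.X - PowerSeries.X).order

end Algebra

/-- local domains finite over the Witt vectors, of characteristic zero -/
structure FW (p : ℕ) [Fact p.Prime] {k : Type u} [Field k] {R : Type u} [CommRing R]
    [Algebra (WittVector p k) R] (π : R →+* k) : Prop where
  dom : IsDomain R
  fin : Module.Finite (WittVector p k) R
  alg : ∀ w, π (algebraMap (WittVector p k) R w) = w.coeff 0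
  ne : (p : R) ≠ 0

section Scheme

variable {k : Type u} [Field k] {X : Scheme.{u}} [IsIntegral X]

/-- the structure map of the function field -/
noncomputable def fa (f : X ⟶ Spec (.of k)) : k →+* X.functionField :=
  (strMap f (genericPoint X)).hom

/-- the local ring at `x` inside the function field -/
noncomputable def Ox (x : X) : Subring X.functionField :=
  (algebraMap (X.presheaf.stalk x) X.functionField).range

theorem aut_generic (e : Aut X) : e.hom (genericPoint X) = genericPoint X :=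
  genericPoint_eq_of_isOpenImmersion e.hom

/-- pull-back of rational functions -/
noncomputable def fT (e : Aut X) : X.functionField →+* X.functionField :=
  (locMap e.hom (genericPoint X) (aut_generic e)).hom

/-- the vanishing of the obstruction at a point -/
def GC (p : ℕ) {G : Type*} [Group G] (ρ : G →* Aut X) (x : X) : Prop :=
  IsCyclic (stab ρ x) ∨ ∀ σ : stab ρ x, orderOf σ = ordProj[p] (Nat.card (stab ρ x)) → ∀ d : ℕ,
    Ideal.span (Set.range fun y => (locMap (ρ σ).hom x σ.2).hom y - y) =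
      maximalIdeal (X.presheaf.stalk x) ^ d → ordCompl[p] (Nat.card (stab ρ x)) ∣ d

end Scheme

end Pool.Agent.MP_deef5c_ag.O

end

section

/-! The action on the function field. -/

open CategoryTheory AlgebraicGeometry IsLocalRing Function
open scoped Polynomial PowerSeries

namespace Pool.Agent.MP_deef5c_ag.O

universe u

variable {k : Type u} [Field k] {X : Scheme.{u}} [IsIntegral X] (f : X ⟶ Spec (.of k))

theorem fT_ra {G : Type*} [Group G] (ρ : G →* Aut X) : RA fun g b => fT (ρ g) b := by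
  refine ⟨fun b => ?_, fun g h b => ?_⟩
  · exact congrArg (fun φ => φ.hom b) (locMap_id _ (genericPoint X) (aut_generic (ρ 1))
      (by rw [map_one]; rfl))
  · exact congrArg (fun φ => φ.hom b) (locMap_comp _ _ _ (genericPoint X) (aut_generic (ρ g))
      (aut_generic (ρ h)) (aut_generic (ρ (g * h))) (by rw [map_mul]; rfl))

theorem fT_fa (e : Aut X) (he : e.hom ≫ f = f) (c : k) : fT e (fa f c) = fa f c := by
  exact congrArg (fun φ => φ.hom c) (strMap_locMap f (genericPoint X) e.hom (aut_generic e) he)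

/-- naturality of stalk maps under specialisation (`Scheme.Hom.stalkSpecializes_stalkMap`) -/
theorem fT_stalk (e : Aut X) (x : X) (y : X.presheaf.stalk (e.hom x)) :
    fT e (algebraMap _ X.functionField y) =
      algebraMap _ X.functionField ((e.hom.stalkMap x).hom y) := by
  have h : X.presheaf.stalkSpecializes (genericPoint_specializes (e.hom x)) ≫
      locMap e.hom (genericPoint X) (aut_generic e) =
      e.hom.stalkMap x ≫ X.presheaf.stalkSpecializes (genericPoint_specializes x) := by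
    apply stalk_ext
    rw [Spec.map_comp, Spec.map_comp, Category.assoc, Category.assoc,
      Scheme.SpecMap_stalkSpecializes_fromSpecStalk, spec_locMap,
      Scheme.SpecMap_stalkMap_fromSpecStalk, Scheme.SpecMap_stalkSpecializes_fromSpecStalk_assoc]
  exact congrArg (fun φ => φ.hom y) h

theorem fT_mem (e : Aut X) (x : X) (b : X.functionField) : b ∈ Ox (e.hom x) ↔ fT e b ∈ Ox x := by
  constructor
  · rintro ⟨y, rfl⟩
    exact ⟨_, (fT_stalk e x y).symm⟩
  · rintro ⟨z, hz⟩
    obtain ⟨y, rfl⟩ := (ConcreteCategory.bijective_of_isIso (e.hom.stalkMap x)).2 z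
    exact ⟨y, (fT e).injective ((fT_stalk e x y).trans hz)⟩

theorem fT_locMap (e : Aut X) (x : X) (h : e.hom x = x) (y : X.presheaf.stalk x) :
    fT e (algebraMap _ X.functionField y) =
      algebraMap _ X.functionField ((locMap e.hom x h).hom y) := by
  have h : X.presheaf.stalkSpecializes (genericPoint_specializes x) ≫
      locMap e.hom (genericPoint X) (aut_generic e) =
      locMap e.hom x h ≫ X.presheaf.stalkSpecializes (genericPoint_specializes x) := by
    apply stalk_ext
    rw [Spec.map_comp, Spec.map_comp, Category.assoc, Category.assoc,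
      Scheme.SpecMap_stalkSpecializes_fromSpecStalk, spec_locMap, spec_locMap,
      Scheme.SpecMap_stalkSpecializes_fromSpecStalk_assoc]
  exact congrArg (fun φ => φ.hom y) h

theorem fT_germ (e : Aut X) (U V : X.Opens) [Nonempty U] [Nonempty V] (h : V ≤ e.hom ⁻¹ᵁ U)
    (s : Γ(X, U)) : fT e ((X.germToFunctionField U).hom s) =
      (X.germToFunctionField V).hom ((e.hom.appLE U V h).hom s) := by
  obtain ⟨⟨x, hx⟩⟩ := id ‹Nonempty V›
  have hx' : e.hom x ∈ U := h hx
  rw [← Scheme.algebraMap_germ_eq_germToFunctionField X hx' s, fT_stalk,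
    ← Scheme.algebraMap_germ_eq_germToFunctionField X hx, Scheme.Hom.germ_stalkMap_apply,
    Scheme.Hom.appLE, CommRingCat.hom_comp, RingHom.comp_apply, TopCat.Presheaf.germ_res_apply]

theorem fa_germ (U : X.Opens) [Nonempty U] (c : k) : fa f c = (X.germToFunctionField U).hom
    ((f.appLE ⊤ U le_top).hom ((Scheme.ΓSpecIso (.of k)).inv.hom c)) := by
  have h1 : strMap f (genericPoint X) = (Scheme.ΓSpecIso (.of k)).inv ≫
      (Spec (.of k)).presheaf.germ ⊤ (f (genericPoint X)) trivial ≫
        f.stalkMap (genericPoint X) := by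
    apply Spec.map_injective
    rw [spec_strMap, ← Category.assoc, Spec.map_comp, ← Spec.fromSpecStalk_eq,
      Scheme.SpecMap_stalkMap_fromSpecStalk]
  rw [fa, h1, CommRingCat.hom_comp, RingHom.comp_apply, CommRingCat.hom_comp, RingHom.comp_apply,
    Scheme.Hom.germ_stalkMap_apply, Scheme.Hom.appLE, CommRingCat.hom_comp, RingHom.comp_apply,
    TopCat.Presheaf.germ_res_apply]

theorem fa_stalk (x : X) (c : k) :
    algebraMap _ X.functionField ((strMap f x).hom c) = fa f c := by
  have h : strMap f x ≫ X.presheaf.stalkSpecializes (genericPoint_specializes x) =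
      strMap f (genericPoint X) := by
    apply Spec.map_injective
    rw [Spec.map_comp, spec_strMap, spec_strMap,
      Scheme.SpecMap_stalkSpecializes_fromSpecStalk_assoc]
  exact congrArg (fun φ => φ.hom c) h

/-- `eq_id_of_locMap` at the generic point -/
theorem fT_faithful [IsSeparated f] (e : Aut X) (he : e.hom ≫ f = f) (h : ∀ b, fT e b = b) :
    e = 1 := by
  refine Iso.ext (eq_id_of_locMap f e.hom he (genericPoint X) (aut_generic e) ?_)
  ext b
  exact h b

/-- `Γ(X, U)` is the intersection of its localisations (`IsAffineOpen.isLocalization_stalk`,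
`PrimeSpectrum.iInf_localization_eq_bot`) -/
theorem range_germ (U : X.Opens) (hU : IsAffineOpen U) [Nonempty U] (b : X.functionField) :
    (∃ s, (X.germToFunctionField U).hom s = b) ↔ ∀ x ∈ U, b ∈ Ox x := by
  constructor
  · rintro ⟨s, rfl⟩ x hx
    exact ⟨_, Scheme.algebraMap_germ_eq_germToFunctionField X hx s⟩
  · intro h
    have hF := functionField_isFractionRing_of_isAffineOpen X U hU
    have h1 : b ∈ (⊥ : Subalgebra Γ(X, U) X.functionField) := by
      rw [← PrimeSpectrum.iInf_localization_eq_bot Γ(X, U) X.functionField, Algebra.mem_iInf]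
      intro v
      have hv : hU.fromSpec v ∈ U := by
        have : hU.fromSpec v ∈ Set.range hU.fromSpec := Set.mem_range_self v
        rwa [hU.range_fromSpec] at this
      obtain ⟨y, rfl⟩ := h _ hv
      let _ : Algebra Γ(X, U) (X.presheaf.stalk (hU.fromSpec v)) :=
        TopCat.Presheaf.algebra_section_stalk X.presheaf ⟨hU.fromSpec v, hv⟩
      have hL : IsLocalization v.asIdeal.primeCompl (X.presheaf.stalk (hU.fromSpec v)) :=
        hU.isLocalization_stalk' v hv
      obtain ⟨⟨a, s⟩, has⟩ := IsLocalization.surj v.asIdeal.primeCompl y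
      have h2 := congrArg (algebraMap (X.presheaf.stalk (hU.fromSpec v)) X.functionField) has
      have h3 : ∀ r : Γ(X, U), algebraMap (X.presheaf.stalk (hU.fromSpec v)) X.functionField
          (algebraMap Γ(X, U) (X.presheaf.stalk (hU.fromSpec v)) r) =
          algebraMap Γ(X, U) X.functionField r := fun r =>
        Scheme.algebraMap_germ_eq_germToFunctionField X hv r
      rw [map_mul, h3, h3] at h2
      have h4 : algebraMap Γ(X, U) X.functionField (s : Γ(X, U)) ≠ 0 :=
        IsFractionRing.to_map_ne_zero_of_mem_nonZeroDivisors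
          (v.asIdeal.primeCompl_le_nonZeroDivisors s.2)
      exact ⟨a, s, s.2, by rw [← h2, mul_inv_cancel_right₀ h4]⟩
    exact Algebra.mem_bot.1 h1

end Pool.Agent.MP_deef5c_ag.O

end

section

/-! Completions of discrete valuation rings containing their residue field. -/

open CategoryTheory AlgebraicGeometry IsLocalRing Function
open scoped Polynomial PowerSeries

namespace Pool.Agent.MP_deef5c_ag.O

universe u

variable {k K : Type u} [Field k] [Field K] [Algebra k K]

section Aux

open PowerSeries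

variable {O : Type u} [CommRing O]

theorem GCp_dvd [IsDomain O] (s : k →+* O) {ϖ : O} (h0 : ϖ ≠ 0) (hu : ¬IsUnit ϖ) (n : ℕ) :
    ∀ P : k[X], ϖ ^ n ∣ P.eval₂ s ϖ → Polynomial.X ^ n ∣ P := by
  induction n with
  | zero => simp
  | succ n ih =>
    intro P hP
    rw [← P.X_mul_divX_add, Polynomial.eval₂_add, Polynomial.eval₂_mul, Polynomial.eval₂_X,
      Polynomial.eval₂_C] at hP
    have hc : P.coeff 0 = 0 := by_contra fun hc => hu (isUnit_of_dvd_unit
      ((dvd_add_right (dvd_mul_right _ _)).1 ((dvd_pow_self ϖ n.succ_ne_zero).trans hP))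
      ((Ne.isUnit hc).map s))
    rw [hc, map_zero, add_zero, pow_succ', mul_dvd_mul_iff_left h0] at hP
    rw [← P.X_mul_divX_add, hc, map_zero, add_zero, pow_succ']
    exact mul_dvd_mul_left _ (ih _ hP)

theorem GCp_ext {g g' : k⟦X⟧} (h : ∀ n, X ^ n ∣ g - g') : g = g' := by
  ext n
  rw [← sub_eq_zero, ← map_sub]
  exact X_pow_dvd_iff.1 (h (n + 1)) n n.lt_succ_self

/-- `g` is the expansion of `y` -/
def GCpR (s : k →+* O) (ϖ y : O) (g : k⟦X⟧) : Prop :=
  ∀ n, ∃ P : k[X], ϖ ^ n ∣ y - P.eval₂ s ϖ ∧ X ^ n ∣ g - (P : k⟦X⟧)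

theorem GCp_hom [IsDomain O] (s : k →+* O) {ϖ : O} (h0 : ϖ ≠ 0) (hu : ¬IsUnit ϖ)
    (hres : ∀ y, ∃ c z, y = s c + ϖ * z) :
    ∃ φ : O →+* k⟦X⟧, (∀ c, φ (s c) = C c) ∧ φ ϖ = X := by
  choose c z hz using hres
  have hG : ∀ y, GCpR s ϖ y (mk fun n => c (z^[n] y)) := fun y n => by
    induction n generalizing y with
    | zero => exact ⟨0, by simp, by simp⟩
    | succ n ih =>
      obtain ⟨P, h1, h2⟩ := ih (z y)
      refine ⟨Polynomial.X * P + Polynomial.C (c y), ?_, ?_⟩
      · rw [Polynomial.eval₂_add, Polynomial.eval₂_mul, Polynomial.eval₂_X, Polynomial.eval₂_C,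
          pow_succ']
        convert mul_dvd_mul_left ϖ h1 using 1
        linear_combination hz y
      · rw [eq_X_mul_shift_add_const (mk _), pow_succ']
        convert mul_dvd_mul_left X h2 using 1
        simp [mul_sub, ← coeff_zero_eq_constantCoeff_apply]
  have hU : ∀ {y g}, GCpR s ϖ y g → (mk fun n => c (z^[n] y)) = g := fun {y g} h =>
    GCp_ext fun n => by
      obtain ⟨P, h1, h2⟩ := hG y n
      obtain ⟨Q, h3, h4⟩ := h n
      have h5 := GCp_dvd s h0 hu n (P - Q) (by
        rw [Polynomial.eval₂_sub]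
        convert dvd_sub h3 h1 using 1
        ring)
      have h6 := map_dvd (Polynomial.coeToPowerSeries.ringHom (R := k)) h5
      simp only [map_pow, map_sub, Polynomial.coeToPowerSeries.ringHom_apply,
        Polynomial.coe_X] at h6
      convert dvd_add (dvd_sub h2 h4) h6 using 1
      ring
  refine ⟨{ toFun := fun y => mk fun n => c (z^[n] y)
            map_one' := hU fun n => ⟨1, by simp, by simp⟩
            map_zero' := hU fun n => ⟨0, by simp, by simp⟩
            map_mul' := fun a b => hU fun n => ?_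
            map_add' := fun a b => hU fun n => ?_ },
    fun a => hU fun n => ⟨Polynomial.C a, by simp, by simp⟩,
    hU fun n => ⟨Polynomial.X, by simp, by simp⟩⟩
  · obtain ⟨P, h1, h2⟩ := hG a n
    obtain ⟨Q, h3, h4⟩ := hG b n
    refine ⟨P * Q, ?_, ?_⟩
    · rw [Polynomial.eval₂_mul]
      convert dvd_add (h1.mul_right b) (h3.mul_left (P.eval₂ s ϖ)) using 1
      ring
    · rw [Polynomial.coe_mul]
      convert dvd_add (h2.mul_right (mk fun n => c (z^[n] b))) (h4.mul_left P) using 1
      ring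
  · obtain ⟨P, h1, h2⟩ := hG a n
    obtain ⟨Q, h3, h4⟩ := hG b n
    refine ⟨P + Q, ?_, ?_⟩
    · rw [Polynomial.eval₂_add]
      convert dvd_add h1 h3 using 1
      ring
    · rw [Polynomial.coe_add]
      convert dvd_add h2 h4 using 1
      ring

theorem GCp_C (c : k) : lc k (C c) = algebraMap k (LaurentSeries k) c := by
  rw [LaurentSeries.algebraMap_apply]
  exact PowerSeries.coe_C c

theorem GCp_X : vv k (lc k X) < 1 := by
  rw [(vv_lc_eq (d := 1)).2 order_X, ← WithZero.exp_zero, WithZero.exp_lt_exp]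
  simp

theorem GCp_key {O : Subring K} {j : K →+* LaurentSeries k} {t : K} (h : CP O j t)
    (T : K →+* K) (hk : ∀ c, T (algebraMap k K c) = algebraMap k K c) (hO : ∀ b ∈ O, T b ∈ O)
    {a : k⟦X⟧} (ha : lc k a = j (T t)) (h0 : constantCoeff a = 0) {b : K} {g : k⟦X⟧}
    (hb : j b = lc k g) : j (T b) = lc k (sub a g) := by
  have hm : constantCoeff a ∈ maximalIdeal k := h0 ▸ zero_mem _
  have hX : lc k X ≠ 0 := Lau_ne X_ne_zero
  have ht : t ≠ 0 := fun e => hX (by rw [← h.uni, e, map_zero])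
  have he : ∀ {b g}, j b = lc k g → ∃ g', lc k g' = j (T b) := fun hb =>
    exists_lc_of_le ((h.mem _).1 (hO _ ((h.mem _).2 (hb ▸ vv_lc_le _))))
  obtain ⟨g', hg'⟩ := he hb
  rw [← hg']
  refine congrArg _ (GCp_ext fun n => ?_)
  induction n generalizing b g g' with
  | zero => simp
  | succ n ih =>
    have e := eq_X_mul_shift_add_const g
    generalize (mk fun p => coeff (p + 1) g) = g₁ at e
    generalize constantCoeff g = c at e
    have h1 : j ((b - algebraMap k K c) / t) = lc k g₁ := by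
      rw [map_div₀, map_sub, hb, h.alg, h.uni, e, map_add, GCp_C, add_sub_cancel_right, map_mul,
        mul_div_cancel_left₀ _ hX]
    obtain ⟨g₁', h2⟩ := he h1
    have h3 : g' = a * g₁' + C c := HahnSeries.ofPowerSeries_injective (Γ := ℤ) (by
      change lc k _ = lc k _
      rw [map_add, map_mul, hg', h2, ha, GCp_C, ← h.alg, ← map_mul, ← map_mul,
        mul_div_cancel₀ _ ht, map_sub, hk, ← map_add, sub_add_cancel])
    rw [h3, e, map_add, map_mul, sub_X hm, Base_en_C, add_sub_add_right_eq_sub, ← mul_sub,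
      pow_succ']
    exact mul_dvd_mul (X_dvd_iff.2 h0) (ih h1 _ h2)

end Aux

/-- `k[X] / X^n → O / m^n`, `X ↦ t`, is bijective; the inverses are compatible and
`IsAdicComplete.liftRingHom` gives `j₀ : O → k⟦X⟧` (or construct the coefficients recursively).  It is
injective, extends to `K`, and `b = t^a u` lies in `O` iff `a ≥ 0`. -/
theorem exists_cp {O : Type u} [CommRing O] [IsDomain O] [IsDiscreteValuationRing O] [Algebra O K]
    [IsFractionRing O K] (s : k →+* O) (hs : ∀ c, algebraMap O K (s c) = algebraMap k K c)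
    (hres : ∀ y : O, ∃ c, y - s c ∈ maximalIdeal O) :
    ∃ (j : K →+* LaurentSeries k) (t : K), CP (algebraMap O K).range j t := by
  obtain ⟨ϖ, hϖ⟩ := IsDiscreteValuationRing.exists_irreducible O
  have hm : ∀ y, y ∈ maximalIdeal O ↔ ϖ ∣ y := fun y => by
    rw [hϖ.maximalIdeal_eq, Ideal.mem_span_singleton]
  obtain ⟨φ, h1, h2⟩ := GCp_hom s hϖ.ne_zero hϖ.not_isUnit fun y => by
    obtain ⟨c, hc⟩ := hres y
    obtain ⟨z, hz⟩ := (hm _).1 hc
    exact ⟨c, z, by rw [← hz, add_sub_cancel]⟩
  have hi : Injective ((lc k).comp φ) := (injective_iff_map_eq_zero _).2 fun y hy => by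
    by_contra h0
    obtain ⟨n, u, rfl⟩ := IsDiscreteValuationRing.eq_unit_mul_pow_irreducible h0 hϖ
    refine Lau_ne ?_ hy
    rw [map_mul, map_pow, h2]
    exact mul_ne_zero (u.isUnit.map φ).ne_zero (pow_ne_zero _ PowerSeries.X_ne_zero)
  have hj : ∀ y, IsFractionRing.lift (K := K) hi (algebraMap O K y) = lc k (φ y) := fun y =>
    IsFractionRing.lift_algebraMap hi y
  refine ⟨IsFractionRing.lift hi, algebraMap O K ϖ, fun c => by rw [← hs, hj, h1, GCp_C],
    fun b => ⟨?_, fun hb => ?_⟩, by rw [hj, h2]⟩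
  · rintro ⟨y, rfl⟩
    exact hj y ▸ vv_lc_le _
  rcases ValuationRing.isInteger_or_isInteger O b with h | ⟨y, hy⟩
  · exact h
  by_cases hu : IsUnit y
  · obtain ⟨u, rfl⟩ := hu
    exact ⟨↑u⁻¹, by rw [map_units_inv, hy, inv_inv]⟩
  by_cases hb0 : b = 0
  · exact hb0 ▸ zero_mem _
  obtain ⟨z, rfl⟩ := (hm y).1 hu
  have e := congrArg (fun x => vv k (IsFractionRing.lift (K := K) hi (x * b))) hy
  simp only [inv_mul_cancel₀ hb0, map_one, map_mul, hj, h2] at e
  exact absurd e (mul_lt_one_of_lt_of_le (mul_lt_one_of_lt_of_le GCp_X (vv_lc_le _)) hb).ne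

/-- Let `lc (a h) = j (T h⁻¹ t)`, with zero constant term since `T h⁻¹` preserves non-units of `O`, and
`ρx h = sub (a h)`.  If `j b = lc g`, write `g = poly + X^N g₁`, `b = poly(t) + t^N b₁` with `b₁ ∈ O`; then
`j (T h⁻¹ b) ≡ sub (a h) g mod X^N`.  Multiplicativity by `en_ext`. -/
theorem exists_la {O : Subring K} {j : K →+* LaurentSeries k} {t : K} (C : CP O j t)
    {H : Type*} [Group H] (T : H → K →+* K) (hT : RA fun g b => T g b)
    (hk : ∀ g c, T g (algebraMap k K c) = algebraMap k K c) (hO : ∀ h, ∀ b ∈ O, T h b ∈ O)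
    (hfaith : ∀ h, (∀ b, T h b = b) → h = 1) :
    ∃ ρx : H →* (k⟦X⟧ ≃ₐ[k] k⟦X⟧), LA T j ρx := by
  have hX : lc k PowerSeries.X ≠ 0 := Lau_ne PowerSeries.X_ne_zero
  have ht : t ∈ O := (C.mem t).2 (C.uni ▸ vv_lc_le _)
  choose a ha using fun h : H => exists_lc_of_le ((C.mem _).1 (hO h⁻¹ t ht))
  have h0 : ∀ h, PowerSeries.constantCoeff (a h) = 0 := fun h => by_contra fun hc => by
    obtain ⟨u, hu⟩ := PowerSeries.isUnit_iff_constantCoeff.2 (Ne.isUnit hc)
    have h1 := hO h _ ((C.mem (T h⁻¹ t)⁻¹).2 (by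
      rw [map_inv₀, ← ha, ← hu, ← map_units_inv]
      exact vv_lc_le _))
    rw [map_inv₀, ← hT.mul, inv_mul_cancel, hT.one, C.mem, map_inv₀, C.uni, map_inv₀,
      inv_le_one₀ (zero_lt_iff.2 ((map_ne_zero _).2 hX))] at h1
    exact h1.not_gt GCp_X
  have hm : ∀ h, PowerSeries.constantCoeff (a h) ∈ maximalIdeal k := fun h => h0 h ▸ zero_mem _
  have key : ∀ h {b g}, j b = lc k g → j (T h⁻¹ b) = lc k (sub (a h) g) := fun h _ _ hb =>
    GCp_key C _ (hk _) (hO _) (ha h) (h0 h) hb
  have hi : Injective (lc k) := HahnSeries.ofPowerSeries_injective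
  let ρ : H →* En k :=
    { toFun := fun h => sub (a h)
      map_one' := en_ext (hi (by rw [sub_X (hm 1), ha, inv_one, hT.one, C.uni, AlgHom.one_apply]))
        (by rw [sub_X (hm 1)]; exact hm 1)
      map_mul' := fun g h => en_ext (hi (by
        rw [sub_X (hm _), ha, mul_inv_rev, hT.mul, key g (ha h).symm, AlgHom.mul_apply,
          sub_X (hm h)])) (by rw [sub_X (hm _)]; exact hm _) }
  refine ⟨(AlgEquiv.algHomUnitsEquiv k k⟦X⟧).toMonoidHom.comp ρ.toHomUnits,
    (injective_iff_map_eq_one _).2 fun h e => inv_eq_one.1 (hfaith _ fun b => ?_),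
    fun h _ _ hb => key h hb⟩
  have h1 : ∀ b, vv k (j b) ≤ 1 → T h⁻¹ b = b := fun b hb => by
    obtain ⟨g, hg⟩ := exists_lc_of_le hb
    have e' : sub (a h) g = g := DFunLike.congr_fun e g
    exact j.injective (by rw [key h hg.symm, e', hg])
  rcases le_total (vv k (j b)) 1 with hb | hb
  · exact h1 b hb
  · have h2 := h1 b⁻¹ (by rw [map_inv₀, map_inv₀]; exact inv_le_one_of_one_le₀ hb)
    rwa [map_inv₀, inv_inj] at h2

end Pool.Agent.MP_deef5c_ag.O

end

section

/-! Points of a smooth curve. -/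

open CategoryTheory AlgebraicGeometry IsLocalRing Function
open scoped Polynomial PowerSeries

namespace Pool.Agent.MP_deef5c_ag.O

universe u

namespace GPt.Aux

/-- a Noetherian local domain with principal maximal ideal has dimension at most one -/
theorem dim_of_principal {O : Type u} [CommRing O] [IsDomain O] [IsLocalRing O] [IsNoetherianRing O]
    (hP : (maximalIdeal O).IsPrincipal) : Ring.DimensionLEOne O := by
  by_cases hF : IsField O
  · refine ⟨fun {p} hp hp' => ?_⟩
    have h1 : p ≤ maximalIdeal O := IsLocalRing.le_maximalIdeal hp'.ne_top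
    rw [IsLocalRing.isField_iff_maximalIdeal_eq.1 hF] at h1
    exact absurd (le_bot_iff.1 h1) hp
  · have hD : IsDiscreteValuationRing O := ((IsDiscreteValuationRing.TFAE O hF).out 0 4).2 hP
    infer_instance

/-- a nonzero prime contained in a prime with one-dimensional localisation is equal to it -/
theorem eq_of_loc {S O : Type u} [CommRing S] [IsDomain S] [CommRing O] [IsDomain O] [IsLocalRing O]
    [Algebra S O] (m : Ideal S) [m.IsPrime] [IsLocalization.AtPrime O m] [Ring.DimensionLEOne O]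
    (p : Ideal S) [hp : p.IsPrime] (hpm : p ≤ m) (hp0 : p ≠ ⊥) : p = m := by
  have hdisj : Disjoint (m.primeCompl : Set S) (p : Set S) := by
    rw [Set.disjoint_left]
    intro a ha hap
    exact ha (hpm hap)
  have h1 : (p.map (algebraMap S O)).IsPrime :=
    IsLocalization.isPrime_of_isPrime_disjoint m.primeCompl O p hp hdisj
  have hinj : Injective (algebraMap S O) :=
    IsLocalization.injective O (Ideal.primeCompl_le_nonZeroDivisors m)
  have h2 : p.map (algebraMap S O) ≠ ⊥ := fun h =>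
    hp0 ((Ideal.map_eq_bot_iff_of_injective hinj).1 h)
  have h3 := IsLocalRing.eq_maximalIdeal (h1.isMaximal h2)
  have h4 : (p.map (algebraMap S O)).comap (algebraMap S O) = p :=
    IsLocalization.under_map_of_isPrime_disjoint m.primeCompl O hp hdisj
  rw [← h4, h3]
  exact IsLocalization.AtPrime.under_maximalIdeal O m

/-- a domain which is a field surjects onto its fraction field -/
theorem range_top_iff {O K : Type u} [CommRing O] [IsDomain O] [Field K] [Algebra O K]
    [IsFractionRing O K] : (algebraMap O K).range = ⊤ ↔ IsField O := by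
  rw [RingHom.range_eq_top]
  constructor
  · intro h
    exact (RingEquiv.ofBijective (algebraMap O K)
      ⟨IsFractionRing.injective O K, h⟩).toMulEquiv.isField (Field.toIsField K)
  · intro h b
    obtain ⟨a, c, hc, rfl⟩ := IsFractionRing.div_surjective (A := O) b
    obtain ⟨d, hd⟩ := h.mul_inv_cancel (nonZeroDivisors.ne_zero hc)
    refine ⟨a * d, ?_⟩
    have h1 : algebraMap O K c * algebraMap O K d = 1 := by rw [← map_mul, hd, map_one]
    rw [map_mul, div_eq_mul_inv, eq_inv_of_mul_eq_one_right h1]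

/-- differentials of the fraction field of a standard smooth algebra -/
theorem omega_alg {k S K : Type u} [Field k] [CommRing S] [IsDomain S] [Field K] [Algebra k S]
    [Algebra S K] [Algebra k K] [IsScalarTower k S K] [IsFractionRing S K]
    [Algebra.IsStandardSmoothOfRelativeDimension 1 k S] :
    Algebra.EssFiniteType k K ∧ Module.finrank K (KaehlerDifferential k K) = 1 := by
  have := Algebra.IsStandardSmoothOfRelativeDimension.isStandardSmooth 1 (R := k) (S := S)
  have h1 : Algebra.EssFiniteType S K := Algebra.EssFiniteType.of_isLocalization K (nonZeroDivisors S)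
  have h2 : Algebra.EssFiniteType k S := inferInstance
  refine ⟨Algebra.EssFiniteType.comp k S K, ?_⟩
  have := Algebra.FormallyEtale.of_isLocalization (Rₘ := K) (nonZeroDivisors S)
  rw [(KaehlerDifferential.isBaseChange_of_formallyEtale k S K).finrank_eq, Module.finrank,
    Algebra.IsStandardSmoothOfRelativeDimension.rank_kaehlerDifferential (R := k) (S := S) 1]
  simp

variable {k : Type u} [Field k] {X : Scheme.{u}} (f : X ⟶ Spec (.of k))

theorem closed_principal [IsAlgClosed k] [SmoothOfRelativeDimension 1 f] (x : X)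
    (hx : IsClosed {x}) :
    IsNoetherianRing (X.presheaf.stalk x) ∧ (maximalIdeal (X.presheaf.stalk x)).IsPrincipal ∧
      ∀ y, ∃ c, y - (strMap f x).hom c ∈ maximalIdeal (X.presheaf.stalk x) := by
  have : Smooth f := SmoothOfRelativeDimension.smooth 1 f
  have hs := pointOfClosedPoint_comp f x hx
  have hp := pointOfClosedPoint_apply f x hx (closedPoint k)
  obtain ⟨h1, h2⟩ := principal_stalk _ hs hp
  obtain ⟨ε, -, hε, -⟩ := exists_retr _ hs hp
  exact ⟨h1, h2, fun y => ⟨_, hε y⟩⟩

theorem closed_of_max [LocallyOfFiniteType f] {U : X.Opens} (hU : IsAffineOpen U)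
    (y : PrimeSpectrum Γ(X, U)) (hy : y.asIdeal.IsMaximal) : IsClosed {hU.fromSpec y} := by
  have : JacobsonSpace X := LocallyOfFiniteType.jacobsonSpace f
  have h1 := hU.fromSpec.isOpenEmbedding.preimage_closedPoints
  have h2 : y ∈ closedPoints (Spec Γ(X, U)) := y.isClosed_singleton_iff_isMaximal.2 hy
  rw [← h1] at h2
  exact h2

end GPt.Aux

open GPt.Aux

variable {k : Type u} [Field k] {X : Scheme.{u}} [IsIntegral X] (f : X ⟶ Spec (.of k))

theorem dim_le_one [IsAlgClosed k] [SmoothOfRelativeDimension 1 f] (U : X.Opens)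
    (hU : IsAffineOpen U) [Nonempty U] :
    IsNoetherianRing Γ(X, U) ∧ Ring.DimensionLEOne Γ(X, U) := by
  have : Smooth f := SmoothOfRelativeDimension.smooth 1 f
  have : IsLocallyNoetherian X := LocallyOfFiniteType.isLocallyNoetherian f
  refine ⟨IsLocallyNoetherian.component_noetherian ⟨U, hU⟩, ⟨fun {p} hp0 hp => ?_⟩⟩
  obtain ⟨m, hm, hpm⟩ := Ideal.exists_le_maximal p hp.ne_top
  let y : PrimeSpectrum Γ(X, U) := ⟨m, hm.isPrime⟩
  have hy : hU.fromSpec y ∈ U := (hU.isoSpec.inv _).2
  obtain ⟨hN, hP, -⟩ := closed_principal f _ (closed_of_max f hU y hm)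
  let _ : Algebra Γ(X, U) (X.presheaf.stalk (hU.fromSpec y)) :=
    TopCat.Presheaf.algebra_section_stalk X.presheaf (⟨hU.fromSpec y, hy⟩ : U)
  have h1 : IsLocalization.AtPrime (X.presheaf.stalk (hU.fromSpec y)) m :=
    hU.isLocalization_stalk' y hy
  have h2 := dim_of_principal hP
  rw [eq_of_loc (O := X.presheaf.stalk (hU.fromSpec y)) m p hpm hp0]
  exact hm

/-- A closed point is rational (`pointOfClosedPoint`), its stalk has principal maximal ideal
(`principal_stalk`, `exists_retr`), so is a field or a discrete valuation ring; use `exists_cp`.  A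
non-closed point `x` of an affine open `U` is a non-maximal prime (`X` is Jacobson), contained in a
maximal ideal whose localisation has dimension at most one, so it is the zero ideal. -/
theorem point_cases [IsAlgClosed k] [SmoothOfRelativeDimension 1 f] (x : X) :
    letI := (fa f).toAlgebra
    Ox x = ⊤ ∨ (IsClosed {x} ∧ ∃ (j : X.functionField →+* LaurentSeries k) (t : X.functionField),
      CP (Ox x) j t) := by
  let _ := (fa f).toAlgebra
  have : Smooth f := SmoothOfRelativeDimension.smooth 1 f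
  by_cases hF : IsField (X.presheaf.stalk x)
  · exact Or.inl (range_top_iff.2 hF)
  right
  have hx : IsClosed {x} := by
    obtain ⟨_, ⟨U, hU, rfl⟩, hxU, -⟩ :=
      X.isBasis_affineOpens.exists_subset_of_mem_open (Set.mem_univ x) isOpen_univ
    have : Nonempty U := ⟨⟨x, hxU⟩⟩
    obtain ⟨-, hd⟩ := dim_le_one f U hU
    have h1 := IsAffineOpen.isLocalization_stalk hU ⟨x, hxU⟩
    have h2 : (IsAffineOpen.primeIdealOf hU ⟨x, hxU⟩).asIdeal ≠ ⊥ := fun h0 => hF (by
      let _ : Algebra Γ(X, U) (X.presheaf.stalk x) :=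
        TopCat.Presheaf.algebra_section_stalk X.presheaf (⟨x, hxU⟩ : U)
      have h3 : IsLocalization.AtPrime (X.presheaf.stalk x)
        (IsAffineOpen.primeIdealOf hU ⟨x, hxU⟩).asIdeal := h1
      rw [IsLocalRing.isField_iff_maximalIdeal_eq,
        ← IsLocalization.AtPrime.map_eq_maximalIdeal (IsAffineOpen.primeIdealOf hU ⟨x, hxU⟩).asIdeal
          (X.presheaf.stalk x), h0, Ideal.map_bot])
    have h4 := closed_of_max f hU _ ((IsAffineOpen.primeIdealOf hU ⟨x, hxU⟩).isPrime.isMaximal h2)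
    rwa [IsAffineOpen.fromSpec_primeIdealOf] at h4
  obtain ⟨hN, hP, hres⟩ := closed_principal f x hx
  have hD : IsDiscreteValuationRing (X.presheaf.stalk x) :=
    ((IsDiscreteValuationRing.TFAE (X.presheaf.stalk x) hF).out 0 4).2 hP
  exact ⟨hx, exists_cp (K := X.functionField) (strMap f x).hom (fun c => fa_stalk f x c) hres⟩

/-- on a standard smooth affine open `Ω` is free of rank one; localise -/
theorem omega_rank [SmoothOfRelativeDimension 1 f] :
    letI := (fa f).toAlgebra
    Algebra.EssFiniteType k X.functionField ∧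
      Module.finrank X.functionField (KaehlerDifferential k X.functionField) = 1 := by
  let _ := (fa f).toAlgebra
  obtain ⟨U, hU, V, hV, hxV, e, hsm⟩ :=
    SmoothOfRelativeDimension.exists_isStandardSmoothOfRelativeDimension (n := 1) (f := f)
      (genericPoint X)
  obtain rfl : U = ⊤ := by
    refine eq_top_iff.2 fun z _ => ?_
    rw [Subsingleton.elim z (f (genericPoint X))]
    exact e hxV
  have : Nonempty V := ⟨⟨_, hxV⟩⟩
  let g : k →+* Γ(X, V) := (f.appLE ⊤ V e).hom.comp (Scheme.ΓSpecIso (.of k)).inv.hom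
  have hg : g.IsStandardSmoothOfRelativeDimension 1 :=
    hsm.comp (RingHom.IsStandardSmoothOfRelativeDimension.equiv
      (Scheme.ΓSpecIso (.of k)).symm.commRingCatIsoToRingEquiv)
  let _ := g.toAlgebra
  have : Algebra.IsStandardSmoothOfRelativeDimension 1 k Γ(X, V) := hg
  have : IsScalarTower k Γ(X, V) X.functionField :=
    IsScalarTower.of_algebraMap_eq fun c => fa_germ f V c
  have := functionField_isFractionRing_of_isAffineOpen X V hV
  exact omega_alg (S := Γ(X, V))

/-- if the stalk at a closed point is a field it is `k`, on which the stabiliser acts trivially -/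
theorem stab_bot [IsAlgClosed k] [SmoothOfRelativeDimension 1 f] [IsSeparated f] {G : Type*}
    [Group G] (ρ : G →* Aut X) (hρ : Injective ρ) (hρk : ∀ g, (ρ g).hom ≫ f = f) (x : X)
    (hx : IsClosed {x}) (h : Ox x = ⊤) : stab ρ x = ⊥ := by
  have hF : IsField (X.presheaf.stalk x) := range_top_iff.1 h
  obtain ⟨-, -, hres⟩ := closed_principal f x hx
  refine eq_bot_iff.2 fun g hg => ?_
  have hg' : (ρ g).hom x = x := hg
  have h0 : locMap (ρ g).hom x hg' = 𝟙 _ := by
    ext y
    obtain ⟨c, h1⟩ := hres y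
    rw [IsLocalRing.isField_iff_maximalIdeal_eq.1 hF, Ideal.mem_bot, sub_eq_zero] at h1
    have h2 := congrArg (fun φ => φ.hom c) (strMap_locMap f x _ hg' (hρk g))
    simp only [CommRingCat.hom_comp, RingHom.comp_apply, ← h1] at h2
    simpa using h2
  have h1 := eq_id_of_locMap f _ (hρk g) x _ h0
  have h2 : ρ g = ρ 1 := by rw [map_one]; exact Iso.ext h1
  exact Subgroup.mem_bot.2 (hρ h2)

end Pool.Agent.MP_deef5c_ag.O

end

section

/-! Group actions on the lifted function field and transport of local models. -/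

open CategoryTheory AlgebraicGeometry IsLocalRing Function
open scoped Polynomial PowerSeries

namespace Pool.Agent.MP_deef5c_ag.O

universe u

variable {k A K K' : Type u} [Field k] [CommRing A] [IsLocalRing A] [IsArtinianRing A] [Field K]
  [Algebra k K] [CommRing K'] [Algebra A K']

/-- `T' g` from `KL.ex` with `j = T g`, `F = f'`; the laws from `KL.uniq` -/
theorem kl_act {π : A →+* k} {red : K' →+* K} {f : K} {f' : K'} (L : KL π red f f')
    {G : Type*} [Group G] (T : G → K →+* K) (hT : RA fun g b => T g b)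
    (hk : ∀ g c, T g (algebraMap k K c) = algebraMap k K c) (hf : ∀ g, T g f = f) :
    ∃ T' : G → K' →ₐ[A] K', (RA fun g b => T' g b) ∧ (∀ g b, red (T' g b) = T g (red b)) ∧
      ∀ g, T' g f' = f' := by
  have hn : ∀ a, red a = 0 → IsNilpotent a := fun a ha => by
    obtain ⟨n, hn⟩ := IsArtinianRing.isNilpotent_jacobson_bot (R := A)
    rw [jacobson_eq_maximalIdeal ⊥ bot_ne_top] at hn
    have h1 : a ∈ (maximalIdeal A).map (algebraMap A K') := L.ker ▸ (RingHom.mem_ker.2 ha)
    have h2 := Ideal.pow_mem_pow h1 n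
    rw [← Ideal.map_pow, hn, Ideal.zero_eq_bot, Ideal.map_bot] at h2
    exact ⟨n, h2⟩
  choose T' h1 h2 using fun g => L.ex K' K red L.surj hn (T g)
    (fun a => by rw [L.alg, hk]) f' (by rw [L.hf, hf])
  refine ⟨T', ⟨fun b => ?_, fun g h b => ?_⟩, h1, h2⟩
  · have e := L.uniq K' K red hn (T' 1) (AlgHom.id A K') (fun b => (h1 1 b).trans (hT.one _))
      (h2 1)
    exact DFunLike.congr_fun e b
  · have e := L.uniq K' K red hn (T' (g * h)) ((T' h).comp (T' g)) (fun b => by
      rw [AlgHom.comp_apply, h1, h1, h1]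
      exact hT.mul g h _) (by rw [AlgHom.comp_apply, h2, h2, h2])
    exact DFunLike.congr_fun e b

theorem GMod_inv {G R : Type*} [Group G] {T : G → R → R} (hT : RA T) (g : G) (b : R) :
    T g (T g⁻¹ b) = b ∧ T g⁻¹ (T g b) = b :=
  ⟨by rw [← hT.mul, inv_mul_cancel, hT.one], by rw [← hT.mul, mul_inv_cancel, hT.one]⟩

omit [IsLocalRing A] [IsArtinianRing A] in
theorem GMod_move {red : K' →+* K} {f : K} {f' : K'} {G : Type*} [Group G]
    (T : G → K →+* K) (hT : RA fun g b => T g b) (hf : ∀ g, T g f = f) (T' : G → K' →ₐ[A] K')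
    (hT' : RA fun g b => T' g b) (hr : ∀ g b, red (T' g b) = T g (red b)) (hf' : ∀ g, T' g f' = f')
    (g : G) {O₁ O₂ : Subring K} (hO : ∀ b, b ∈ O₁ ↔ T g b ∈ O₂) {O' : Subalgebra A K'}
    (h : PM red O₁ f f' O') : PM red O₂ f f' (O'.map (T' g)) := by
  refine ⟨fun b => ⟨fun hb => ?_, ?_⟩, ?_, fun hb => ?_⟩
  · have e : T g (T g⁻¹ b) = b := (GMod_inv hT g b).1
    obtain ⟨c, hc, hc'⟩ := (h.mem (T g⁻¹ b)).1 ((hO _).2 (e.symm ▸ hb))
    exact ⟨T' g c, ⟨c, hc, rfl⟩, by rw [hr, hc', e]⟩
  · rintro ⟨_, ⟨c, hc, rfl⟩, rfl⟩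
    have := (hO _).1 ((h.mem (red c)).2 ⟨c, hc, rfl⟩)
    rw [← hr] at this
    exact this
  · let e : K' ≃ₐ[A] K' := AlgEquiv.ofAlgHom (T' g) (T' g⁻¹)
      (AlgHom.ext fun b => (GMod_inv hT' g b).1) (AlgHom.ext fun b => (GMod_inv hT' g b).2)
    have := h.flat
    exact Module.Flat.of_linearEquiv (Submodule.Quotient.equiv (Subalgebra.toSubmodule O')
      (Subalgebra.toSubmodule (O'.map (T' g))) e.toLinearEquiv rfl).symm
  · exact ⟨f', h.hf ((hO f).2 ((hf g).symm ▸ hb)), hf' g⟩

omit [IsLocalRing A] [IsArtinianRing A] in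
/-- Choose a representative `r` in each orbit and `g x` with `act (g x) x = r`; put
`O' x = (O'_r).map (T' (g x))`.  For `y = act g x`, `g y * g * (g x)⁻¹` fixes `r`. -/
theorem model {red : K' →+* K} {f : K} {f' : K'} {G : Type*} [Group G] {Y : Type u}
    (act : G → Y → Y) (h1 : ∀ x, act 1 x = x) (hm : ∀ g h x, act (g * h) x = act g (act h x))
    (T : G → K →+* K) (hT : RA fun g b => T g b) (hf : ∀ g, T g f = f) (T' : G → K' →ₐ[A] K')
    (hT' : RA fun g b => T' g b) (hr : ∀ g b, red (T' g b) = T g (red b)) (hf' : ∀ g, T' g f' = f')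
    (O : Y → Subring K) (hO : ∀ g x b, b ∈ O (act g x) ↔ T g b ∈ O x)
    (h : ∀ x, ∃ O' : Subalgebra A K', PM red (O x) f f' O' ∧
      ∀ g, act g x = x → ∀ b ∈ O', T' g b ∈ O') :
    ∃ O' : Y → Subalgebra A K', (∀ x, PM red (O x) f f' (O' x)) ∧
      ∀ g x, ∀ b ∈ O' (act g x), T' g b ∈ O' x := by
  have hi : ∀ g x, act g⁻¹ (act g x) = x := fun g x => by rw [← hm, inv_mul_cancel, h1]
  let S : Setoid Y := ⟨fun x y => ∃ g, act g x = y, fun x => ⟨1, h1 x⟩,
    fun ⟨g, e⟩ => ⟨g⁻¹, e ▸ hi g _⟩, fun ⟨g, e⟩ ⟨g', e'⟩ => ⟨g' * g, by rw [hm, e, e']⟩⟩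
  obtain ⟨r, hr1, hr2⟩ : ∃ r : Y → Y, (∀ x, ∃ g, act g x = r x) ∧ ∀ g x, r (act g x) = r x :=
    ⟨fun x => (Quotient.mk S x).out, fun x => S.symm (Quotient.mk_out (s := S) x),
      fun g x => congrArg Quotient.out (Quotient.sound (s := S) ⟨g⁻¹, hi g x⟩)⟩
  choose γ hγ using hr1
  choose P hP hP' using h
  refine ⟨fun x => (P (r x)).map (T' (γ x)), fun x =>
    GMod_move T hT hf T' hT' hr hf' (γ x) (fun b => hγ x ▸ hO (γ x) x b) (hP (r x)), ?_⟩
  rintro g x _ ⟨c, hc, rfl⟩
  rw [hr2] at hc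
  have e : act (γ (act g x) * g * (γ x)⁻¹) (r x) = r x := by
    rw [hm, hm, ← hγ x, hi, hγ, hr2, hγ]
  refine ⟨_, hP' _ _ e c hc, ?_⟩
  have e1 := hT'.mul (γ (act g x) * g * (γ x)⁻¹) (γ x) c
  have e2 := hT'.mul (γ (act g x)) g c
  rw [inv_mul_cancel_right] at e1
  exact e1.symm.trans e2

omit [IsLocalRing A] [IsArtinianRing A] in
theorem pm_top {red : K' →+* K} (hs : Surjective red) (f : K) (f' : K') :
    PM red ⊤ f f' (⊤ : Subalgebra A K') := by
  refine ⟨fun b => ⟨fun _ => ?_, fun _ => Subring.mem_top b⟩, ?_, fun _ => Algebra.mem_top⟩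
  · obtain ⟨c, hc⟩ := hs b
    exact ⟨c, Algebra.mem_top, hc⟩
  · have : Subsingleton (K' ⧸ Subalgebra.toSubmodule (⊤ : Subalgebra A K')) :=
      Submodule.Quotient.subsingleton_iff.2 Algebra.top_toSubmodule
    infer_instance

end Pool.Agent.MP_deef5c_ag.O

end

section

/-! Laurent series over an Artinian local ring. -/

open CategoryTheory AlgebraicGeometry IsLocalRing Function
open scoped Polynomial PowerSeries

namespace Pool.Agent.MP_deef5c_ag.O

universe u

open PowerSeries

variable {k A : Type u} [Field k] [CommRing A] [IsLocalRing A] [IsArtinianRing A]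

/-- power series as Laurent series -/
noncomputable def lcA (A : Type u) [CommRing A] : A⟦X⟧ →ₐ[A] LaurentSeries A :=
  { HahnSeries.ofPowerSeries ℤ A with commutes' := fun _ => rfl }

omit [IsLocalRing A] [IsArtinianRing A] in
theorem GLau_unit : IsUnit (lcA A X) :=
  IsLocalization.map_units (LaurentSeries A) (⟨X, Submonoid.mem_powers _⟩ : Submonoid.powers X)

omit [IsLocalRing A] [IsArtinianRing A] in
theorem GLau_ex (z : LaurentSeries A) : ∃ (n : ℕ) (f : A⟦X⟧), z * lcA A X ^ n = lcA A f := by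
  obtain ⟨⟨f, _, n, rfl⟩, h⟩ := IsLocalization.surj (Submonoid.powers (X : A⟦X⟧)) z
  exact ⟨n, f, by rw [← map_pow]; exact h⟩

omit [IsLocalRing A] [IsArtinianRing A] in
theorem GLau_lift {B : Type u} [CommRing B] (φ : A⟦X⟧ →+* B) (h : IsUnit (φ X)) :
    ∃ r : LaurentSeries A →+* B, ∀ g, r (lcA A g) = φ g := by
  have h1 : ∀ y : Submonoid.powers (X : A⟦X⟧), IsUnit (φ y) := by
    rintro ⟨_, n, rfl⟩
    show IsUnit (φ (X ^ n))
    rw [map_pow]
    exact h.pow n
  exact ⟨IsLocalization.lift h1, fun g => IsLocalization.lift_eq h1 g⟩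

omit [IsLocalRing A] in
theorem GLau_mem {J : Ideal A} {f : A⟦X⟧} (hf : ∀ a, coeff a f ∈ J) :
    lcA A f ∈ J.map (algebraMap A (LaurentSeries A)) := by
  obtain ⟨n, s, hs⟩ := Submodule.fg_iff_exists_fin_generating_family.1 (IsNoetherian.noetherian J)
  have h1 : ∀ a, ∃ c : Fin n → A, ∑ i, c i • s i = coeff a f := fun a =>
    (Submodule.mem_span_range_iff_exists_fun A).1 (hs ▸ hf a)
  choose c hc using h1
  have h2 : f = ∑ i, algebraMap A _ (s i) * PowerSeries.mk fun a => c a i := by
    ext a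
    rw [map_sum, ← hc a]
    exact Finset.sum_congr rfl fun i _ => by
      rw [← Algebra.smul_def, coeff_smul, coeff_mk, smul_eq_mul, smul_eq_mul, mul_comm]
  rw [h2, map_sum]
  refine sum_mem fun i _ => ?_
  rw [map_mul, AlgHom.commutes]
  exact Ideal.mul_mem_right _ _
    (Ideal.mem_map_of_mem _ (hs ▸ Submodule.subset_span ⟨i, rfl⟩))

omit [IsLocalRing A] [IsArtinianRing A] in
theorem GLau_fin (z : LaurentSeries A) :
    (support fun n : ℕ => z.coeff (-(n : ℤ) - 1)).Finite := by
  refine (Set.finite_lt_nat z.order.natAbs).subset fun n hn => ?_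
  have := HahnSeries.order_le_of_coeff_ne_zero (x := z) hn
  show n < _
  omega

/-- the coefficients of negative index -/
noncomputable def GLau_neg (A : Type u) [CommRing A] : LaurentSeries A →+ (ℕ →₀ A) where
  toFun z := Finsupp.ofSupportFinite _ (GLau_fin z)
  map_zero' := Finsupp.ext fun _ => rfl
  map_add' _ _ := Finsupp.ext fun _ => HahnSeries.coeff_add

omit [IsLocalRing A] [IsArtinianRing A] in
theorem GLau_flat {L : Type u} [CommRing L] [Algebra A L] (S : Subalgebra A L)
    (φ : L →+ (ℕ →₀ A)) (h0 : ∀ a z, φ (algebraMap A L a * z) = a • φ z) (h1 : Surjective φ)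
    (h2 : ∀ z, z ∈ S ↔ φ z = 0) : Module.Flat A (L ⧸ Subalgebra.toSubmodule S) := by
  let ψ : L →ₗ[A] (ℕ →₀ A) :=
    { φ with map_smul' := fun a z => (congrArg φ (Algebra.smul_def a z)).trans (h0 a z) }
  have h3 : Subalgebra.toSubmodule S = LinearMap.ker ψ := Submodule.ext h2
  exact Module.Flat.of_linearEquiv
    ((Submodule.quotEquivOfEq _ _ h3).trans (ψ.quotKerEquivOfSurjective h1))

omit [IsLocalRing A] [IsArtinianRing A] in
theorem GLau_neg_apply (z : LaurentSeries A) (n : ℕ) :
    GLau_neg A z n = z.coeff (-(n : ℤ) - 1) := rfl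

theorem GLau_order (e : k⟦X⟧ ≃ₐ[k] k⟦X⟧) : order (e X) = 1 := by
  have h0 : constantCoeff (e X) = 0 := by
    by_contra h
    have h1 : IsUnit (e X) := PowerSeries.isUnit_iff_constantCoeff.2 (isUnit_iff_ne_zero.2 h)
    have h2 := PowerSeries.isUnit_iff_constantCoeff.1 (h1.map e.symm)
    simp at h2
  have h1 : e X ≠ 0 := (map_ne_zero_iff _ e.injective).2 X_ne_zero
  obtain ⟨d, hd⟩ := ENat.ne_top_iff_exists.1 (mt order_eq_top.1 h1)
  have h2 := one_le_order_iff_constCoeff_eq_zero.2 h0
  have h3 := order_en (e : En k) d (by rw [← hd] at h2; exact_mod_cast h2) hd.symm (e.symm X)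
  have h4 : (e : En k) (e.symm X) = X := e.apply_symm_apply X
  rw [h4, order_X] at h3
  rw [← hd]
  exact (mul_eq_one.1 h3.symm).1

/-- `LaurentSeries A` is the localisation away from `X` (`LaurentSeries.of_powerSeries_localization`);
`ker (map π) = m A⟦X⟧` as `m` is finitely generated -/
theorem exists_lred (π : A →+* k) (hπ : Surjective π) :
    ∃ r : LaurentSeries A →+* LaurentSeries k, Surjective r ∧
      RingHom.ker r = (maximalIdeal A).map (algebraMap A (LaurentSeries A)) ∧
      ∀ g, r (lcA A g) = lc k (PowerSeries.map π g) := by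
  have hX : lc k X ≠ 0 := Lau_ne X_ne_zero
  obtain ⟨r, hr⟩ := GLau_lift ((lc k).comp (PowerSeries.map π)) (by
    rw [RingHom.comp_apply, map_X]; exact isUnit_iff_ne_zero.2 hX)
  have hr' : ∀ g, r (lcA A g) = lc k (PowerSeries.map π g) := hr
  obtain ⟨u, hu⟩ := (GLau_unit (A := A)).exists_right_inv
  refine ⟨r, fun z => ?_, le_antisymm (fun z hz => ?_) ?_, hr'⟩
  · obtain ⟨n, f, h⟩ := Lau_ex z
    obtain ⟨g, rfl⟩ := PowerSeries.map_surjective π hπ f
    refine ⟨lcA A g * u ^ n, ?_⟩
    have h1 := congrArg r hu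
    rw [map_mul, hr', map_X, map_one] at h1
    rw [map_mul, map_pow, hr', ← h, mul_assoc, ← mul_pow, h1, one_pow, mul_one]
  · obtain ⟨n, f, h⟩ := GLau_ex z
    have h1 := congrArg r h
    rw [map_mul, RingHom.mem_ker.1 hz, zero_mul, hr'] at h1
    have h2 : PowerSeries.map π f = 0 := by
      by_contra h2
      exact Lau_ne h2 h1.symm
    have h3 : z = lcA A f * u ^ n := by rw [← h, mul_assoc, ← mul_pow, hu, one_pow, mul_one]
    rw [h3]
    refine Ideal.mul_mem_right _ _ (GLau_mem fun a => (pi_eq_zero_iff π hπ _).1 ?_)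
    rw [← coeff_map, h2, map_zero]
  · rw [Ideal.map_le_iff_le_comap]
    intro a ha
    rw [Ideal.mem_comap, RingHom.mem_ker, ← (lcA A).commutes, hr', ← C_eq_algebraMap, map_C,
      (pi_eq_zero_iff π hπ a).2 ha, map_zero, map_zero]

omit [IsLocalRing A] [IsArtinianRing A] in
/-- the quotient is free on the classes of the `X^(-n)`, `n > 0`: the map to the coefficients of
negative index is onto `ℕ →₀ A` with kernel the power series -/
theorem flat_lquot :
    Module.Flat A (LaurentSeries A ⧸ Subalgebra.toSubmodule (lcA A).range) := by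
  have h1 : Surjective (GLau_neg A) := by
    intro f
    induction f using Finsupp.induction_linear with
    | zero => exact ⟨0, map_zero _⟩
    | add f g hf hg =>
      obtain ⟨a, rfl⟩ := hf
      obtain ⟨b, rfl⟩ := hg
      exact ⟨a + b, map_add _ _ _⟩
    | single n a =>
      refine ⟨HahnSeries.single (-(n : ℤ) - 1) a, Finsupp.ext fun m => ?_⟩
      rw [GLau_neg_apply]
      by_cases h : m = n
      · rw [h, HahnSeries.coeff_single_same, Finsupp.single_eq_same]
      · rw [HahnSeries.coeff_single_of_ne (by omega), Finsupp.single_eq_of_ne h]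
  refine GLau_flat _ (GLau_neg A) (fun a z => Finsupp.ext fun n => ?_) h1 fun z => ?_
  · have h : algebraMap A (LaurentSeries A) a = HahnSeries.C a := PowerSeries.coe_C a
    rw [h, HahnSeries.C_mul_eq_smul]
    exact HahnSeries.coeff_smul
  · rw [Finsupp.ext_iff]
    constructor
    · rintro ⟨g, rfl⟩ n
      exact (PowerSeries.coeff_coe g _).trans (if_pos (by omega))
    · intro h
      refine ⟨PowerSeries.mk fun n => z.coeff n, HahnSeries.ext (funext fun i => ?_)⟩
      refine (PowerSeries.coeff_coe _ i).trans ?_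
      split_ifs with hi
      · have := h (-i - 1).toNat
        rw [GLau_neg_apply, show -(((-i - 1).toNat : ℕ) : ℤ) - 1 = i by omega] at this
        exact this.symm
      · rw [coeff_mk, show ((i.natAbs : ℕ) : ℤ) = i by omega]

omit [IsLocalRing A] [IsArtinianRing A] in
theorem lcA_injective : Injective (lcA A) := by
  exact HahnSeries.ofPowerSeries_injective

omit [IsLocalRing A] [IsArtinianRing A] in
/-- an endomorphism sending `X` to a unit of the Laurent series ring extends -/
theorem exists_lextA (φ : En A) (h : IsUnit (lcA A (φ X))) :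
    ∃ ψ : LaurentSeries A →ₐ[A] LaurentSeries A, ∀ g, ψ (lcA A g) = lcA A (φ g) := by
  obtain ⟨r, hr⟩ := GLau_lift (((lcA A).comp φ : A⟦X⟧ →ₐ[A] LaurentSeries A) :
    A⟦X⟧ →+* LaurentSeries A) h
  refine ⟨{ r with commutes' := fun a => ?_ }, hr⟩
  exact ((congrArg r ((lcA A).commutes a).symm).trans (hr _)).trans (((lcA A).comp φ).commutes a)

/-- group version of `qinv` -/
theorem ginv {H : Type*} [Group H] [Fintype H] (ρx : H →* (k⟦X⟧ ≃ₐ[k] k⟦X⟧)) (hρ : Injective ρx) :
    order (∏ h, ρx h X) = (Fintype.card H : ℕ) ∧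
      ∀ g, (∀ h, ρx h g = g) → ∃ g₀, sub (∏ h, ρx h X) g₀ = g := by
  have hx : order (∏ h, ρx h X) = (Fintype.card H : ℕ) := by
    rw [order_prod]
    simp only [GLau_order, Finset.sum_const, Finset.card_univ, nsmul_one]
  refine ⟨hx, fun f hf => ?_⟩
  obtain ⟨x, hxe⟩ : ∃ x, x = ∏ h, ρx h X := ⟨_, rfl⟩
  have hinv : ∀ h, ρx h x = x := fun h => by
    rw [hxe, map_prod]
    refine Fintype.prod_equiv (Equiv.mulLeft h) _ _ fun a => ?_
    rw [Equiv.coe_mulLeft, map_mul, AlgEquiv.mul_apply]
  rw [← hxe] at hx ⊢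
  obtain ⟨d, hde⟩ : ∃ d, d = Fintype.card H := ⟨_, rfl⟩
  have hd : 0 < d := hde ▸ Fintype.card_pos
  rw [← hde] at hx
  have hm : constantCoeff x ∈ maximalIdeal k := by rw [Lau_cc hd hx]; exact zero_mem _
  have hm1 : ∀ h, constantCoeff (ρx h X) ∈ maximalIdeal k := fun h => by
    rw [Lau_cc one_pos (GLau_order _)]; exact zero_mem _
  obtain ⟨g, hg⟩ := qspan (RingHom.id k) surjective_id x d hd (by simpa using hx) f
  have h3 : ∀ (h : H) (y : k⟦X⟧), ρx h (sub x y) = sub x y := fun h y => by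
    have h0 : ((ρx h : En k) * sub x) X = x := by
      rw [AlgHom.mul_apply, sub_X hm]; exact hinv h
    exact DFunLike.congr_fun (en_ext (h0.trans (sub_X hm).symm) (by rwa [h0])) y
  have hP : (∑ i ∈ Finset.range d, Polynomial.monomial i (sub x (g i)) - Polynomial.C f :
      k⟦X⟧[X]) = 0 := by
    refine Polynomial.eq_zero_of_natDegree_lt_card_of_eval_eq_zero _
      (f := fun h : H => ρx h X) (fun i j h => hρ (AlgEquiv.ext fun y => DFunLike.congr_fun
        (en_ext (φ := (ρx i : En k)) (ψ := (ρx j : En k)) h (hm1 i)) y)) (fun j => ?_) ?_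
    · have h4 := hf j
      rw [hg, map_sum] at h4
      simp only [map_mul, map_pow, h3] at h4
      rw [Polynomial.eval_sub, Polynomial.eval_C, Polynomial.eval_finsetSum, sub_eq_zero, hg, ← h4]
      simp only [Polynomial.eval_monomial]
    · rw [← hde]
      refine (Polynomial.natDegree_sub_le _ _).trans_lt (max_lt ?_ (by simpa using hd))
      refine lt_of_le_of_lt (Polynomial.natDegree_sum_le_of_forall_le (n := d - 1) _ _
        fun i hi => (Polynomial.natDegree_monomial_le _).trans ?_) (by omega)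
      have := Finset.mem_range.mp hi
      omega
  have h5 := congrArg (fun P : k⟦X⟧[X] => P.coeff 0) hP
  refine ⟨g 0, sub_eq_zero.mp ?_⟩
  simpa [Polynomial.coeff_monomial, hd] using h5

end Pool.Agent.MP_deef5c_ag.O

end

section

/-! The flat model at a point attached to a local lift. -/

open CategoryTheory AlgebraicGeometry IsLocalRing Function
open scoped Polynomial PowerSeries

namespace Pool.Agent.MP_deef5c_ag.O

universe u

variable {k A K K' : Type u} [Field k] [CommRing A] [IsLocalRing A] [IsArtinianRing A] [Field K]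
  [Algebra k K] [CommRing K'] [Algebra A K']

theorem GLoc_nil {A : Type u} [CommRing A] [IsLocalRing A] [IsArtinianRing A] :
    ∃ N : ℕ, maximalIdeal A ^ N = ⊥ :=
  (isArtinianRing_iff_isNilpotent_maximalIdeal A).mp inferInstance

theorem GLoc_nilp {A L L' : Type u} [CommRing A] [IsLocalRing A] [IsArtinianRing A] [CommRing L]
    [CommRing L'] [Algebra A L'] {r : L' →+* L}
    (hr : RingHom.ker r = (maximalIdeal A).map (algebraMap A L')) (a : L') (ha : r a = 0) :
    IsNilpotent a := by
  obtain ⟨N, hN⟩ := GLoc_nil (A := A)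
  have h1 : a ∈ (maximalIdeal A).map (algebraMap A L') := hr ▸ RingHom.mem_ker.2 ha
  have h2 := Ideal.pow_mem_pow h1 N
  rw [← Ideal.map_pow, hN, Ideal.map_bot, Ideal.mem_bot] at h2
  exact ⟨N, h2⟩

theorem GLoc_unit {L L' : Type u} [Field L] [CommRing L'] {r : L' →+* L} (hs : Surjective r)
    (hn : ∀ a, r a = 0 → IsNilpotent a) {z : L'} (hz : r z ≠ 0) : IsUnit z := by
  obtain ⟨y, hy⟩ := hs (r z)⁻¹
  have h1 := (hn (z * y - 1) (by rw [map_sub, map_mul, hy, map_one, mul_inv_cancel₀ hz,
    sub_self])).isUnit_add_one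
  rw [sub_add_cancel] at h1
  exact isUnit_of_mul_isUnit_left h1

theorem GLoc_model {A K K' L L' : Type u} [CommRing A] [IsLocalRing A] [IsArtinianRing A]
    [CommRing K] [CommRing K'] [Algebra A K'] [CommRing L] [CommRing L'] [Algebra A L']
    (red : K' →+* K) (hs : Surjective red)
    (hk : RingHom.ker red = (maximalIdeal A).map (algebraMap A K')) (r : L' →+* L)
    (hr : RingHom.ker r = (maximalIdeal A).map (algebraMap A L')) (j : K →+* L)
    (e : K' →ₐ[A] L') (he : ∀ b, r (e b) = j (red b)) (P : Subalgebra A L')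
    (hP : Module.Flat A (L' ⧸ Subalgebra.toSubmodule P))
    (hsum : ∀ z : L', ∃ b, ∃ g ∈ P, r z = j b + r g) :
    Module.Flat A (K' ⧸ Subalgebra.toSubmodule (P.comap e)) ∧
      ∀ b, (∃ g ∈ P, r g = j b) → ∃ b' ∈ P.comap e, red b' = b := by
  have hm : ∀ z : L', r z = 0 → z ∈ maximalIdeal A • (⊤ : Submodule A L') := fun z hz => by
    rw [Ideal.smul_top_eq_map, Submodule.restrictScalars_mem, ← hr]
    exact hz
  let M : Submodule A L' := LinearMap.range e.toLinearMap ⊔ Subalgebra.toSubmodule P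
  have h1 : (⊤ : Submodule A L') ≤ M ⊔ maximalIdeal A • ⊤ := fun z _ => by
    obtain ⟨b, g, hg, hz⟩ := hsum z
    obtain ⟨b', rfl⟩ := hs b
    have h2 : z = (e b' + g) + (z - (e b' + g)) := by ring
    rw [h2]
    refine Submodule.add_mem_sup (Submodule.add_mem_sup ⟨b', rfl⟩ hg) (hm _ ?_)
    rw [map_sub, map_add, he, hz, sub_self]
  have h2 : ∀ i : ℕ, (⊤ : Submodule A L') ≤ M ⊔ maximalIdeal A ^ i • ⊤ := fun i => by
    induction i with
    | zero => rw [pow_zero, Ideal.one_eq_top, Submodule.top_smul]; exact le_sup_right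
    | succ i ih =>
      refine ih.trans (sup_le le_sup_left ((Submodule.smul_mono le_rfl h1).trans ?_))
      rw [Submodule.smul_sup, ← Submodule.mul_smul, ← pow_succ]
      exact sup_le_sup_right Submodule.smul_le_right _
  have h3 : ∀ z : L', ∃ b, ∃ g ∈ P, z = e b + g := fun z => by
    obtain ⟨N, hN⟩ := GLoc_nil (A := A)
    have h4 := h2 N (Submodule.mem_top (x := z))
    rw [hN, Submodule.bot_smul, sup_bot_eq] at h4
    obtain ⟨_, ⟨b, rfl⟩, g, hg, h5⟩ := Submodule.mem_sup.1 h4
    exact ⟨b, g, hg, h5.symm⟩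
  have h4 : ∀ z : L', r z = 0 → ∃ c, red c = 0 ∧ ∃ g ∈ P, z = e c + g := fun z hz => by
    refine Submodule.smul_induction_on (p := fun z => ∃ c, red c = 0 ∧ ∃ g ∈ P, z = e c + g)
      (hm z hz) (fun a ha y _ => ?_) ?_
    · obtain ⟨b, g, hg, rfl⟩ := h3 y
      refine ⟨a • b, ?_, a • g, P.smul_mem hg a, by rw [smul_add, map_smul]⟩
      rw [← RingHom.mem_ker, hk, Algebra.smul_def]
      exact Ideal.mul_mem_right _ _ (Ideal.mem_map_of_mem _ ha)
    · rintro _ _ ⟨c, hc, g, hg, rfl⟩ ⟨c', hc', g', hg', rfl⟩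
      exact ⟨c + c', by rw [map_add, hc, hc', add_zero], g + g', add_mem hg hg', by
        rw [map_add]; ring⟩
  refine ⟨?_, ?_⟩
  · let q : K' →ₗ[A] L' ⧸ Subalgebra.toSubmodule P :=
      (Subalgebra.toSubmodule P).mkQ ∘ₗ e.toLinearMap
    have hq : Surjective q := fun y => by
      obtain ⟨z, rfl⟩ := (Subalgebra.toSubmodule P).mkQ_surjective y
      obtain ⟨b, g, hg, rfl⟩ := h3 z
      refine ⟨b, (Submodule.Quotient.eq _).2 ?_⟩
      simpa using hg
    have hk' : Subalgebra.toSubmodule (P.comap e) = LinearMap.ker q := by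
      ext b
      simp [q]
    exact Module.Flat.of_linearEquiv
      ((Submodule.quotEquivOfEq _ _ hk').trans (q.quotKerEquivOfSurjective hq))
  · rintro b ⟨g, hg, hb⟩
    obtain ⟨b₀, rfl⟩ := hs b
    obtain ⟨c, hc, g', hg', h5⟩ := h4 (e b₀ - g) (by rw [map_sub, he, hb, sub_self])
    refine ⟨b₀ - c, ?_, by rw [map_sub, hc, sub_zero]⟩
    have h6 : e (b₀ - c) = g + g' := by
      rw [map_sub]
      linear_combination h5
    rw [Subalgebra.mem_comap, h6]
    exact add_mem hg hg'

theorem GLoc_ex {A : Type u} [CommRing A] (z : LaurentSeries A) :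
    ∃ (n : ℕ) (g : A⟦X⟧), z * lcA A PowerSeries.X ^ n = lcA A g := by
  obtain ⟨⟨g, _, n, rfl⟩, h⟩ :=
    IsLocalization.surj (Submonoid.powers (PowerSeries.X : A⟦X⟧)) z
  exact ⟨n, g, by rw [← map_pow]; exact h⟩

theorem GLoc_sum {k K : Type u} [Field k] [Field K] [Algebra k K] {O : Subring K}
    {j : K →+* LaurentSeries k} {t : K} (C : CP O j t) (z : LaurentSeries k) :
    ∃ b g, z = j b + lc k g := by
  obtain ⟨n, g, h⟩ := Lau_ex z
  have hX : lc k PowerSeries.X ≠ 0 := Lau_ne PowerSeries.X_ne_zero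
  induction n generalizing z g with
  | zero => exact ⟨0, g, by simpa using h⟩
  | succ n ih =>
    have h1 : lc k (PowerSeries.C (PowerSeries.constantCoeff g)) =
        j (algebraMap k K (PowerSeries.constantCoeff g)) := by
      rw [C.alg, LaurentSeries.algebraMap_apply]
      exact PowerSeries.coe_C _
    obtain ⟨b, g', h2⟩ := ih (z - j (algebraMap k K (PowerSeries.constantCoeff g) / t ^ (n + 1)))
      (PowerSeries.mk fun i => PowerSeries.coeff (i + 1) g) (by
        refine mul_left_cancel₀ hX ?_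
        rw [PowerSeries.eq_X_mul_shift_add_const g, map_add, map_mul, h1] at h
        have h2 := div_mul_cancel₀ (j (algebraMap k K (PowerSeries.constantCoeff g)))
          (pow_ne_zero (n + 1) hX)
        rw [map_div₀, map_pow, C.uni]
        linear_combination h - h2)
    exact ⟨algebraMap k K (PowerSeries.constantCoeff g) / t ^ (n + 1) + b, g', by
      rw [map_add]
      linear_combination h2⟩

/-- Let `L' = LaurentSeries A`, `r` from `exists_lred`, `ρ'` the local lift, `ψ h` its extension to `L'`,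
`y' = ∏ ρ' h X` lifting `y = ∏ ρx h X`.  `j f` is invariant: `y^M j f = lc (sub y g₀)` (`ginv`; `M = 0` if
`f ∈ O`), so `F = lcA (sub y' g₀') / y'^M` is an invariant lift of `j f`.  `KL.ex` gives `e : K' → L'`,
`KL.uniq` gives `e ∘ T' h⁻¹ = ψ h ∘ e`.  Put `O' = (lcA A).range.comap e`.  Since `j K + k⟦X⟧ = k((X))`
(polynomials in `1/t`) and `m` is nilpotent, `e K' + A⟦X⟧ = L'`, so `K' ⧸ O' ≃ L' ⧸ A⟦X⟧` is flat, and a
lift `b'` of `b ∈ O` can be corrected by an element of `m K'` to lie in `O'`. -/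
theorem loc_model {π : A →+* k} (hπ : Surjective π) {red : K' →+* K} {f : K} {f' : K'}
    (L : KL π red f f') {O : Subring K} {j : K →+* LaurentSeries k} {t : K} (C : CP O j t)
    {H : Type*} [Group H] [Finite H] (T : H → K →+* K) (T' : H → K' →ₐ[A] K')
    (hr : ∀ h b, red (T' h b) = T h (red b)) (hf' : ∀ h, T' h f' = f')
    {ρx : H →* (k⟦X⟧ ≃ₐ[k] k⟦X⟧)} (hρ : LA T j ρx) (hl : LocLifts ρx π) :
    ∃ O' : Subalgebra A K', PM red O f f' O' ∧ ∀ h, ∀ b ∈ O', T' h b ∈ O' := by
  classical
  haveI := Fintype.ofFinite H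
  haveI : CL A := ⟨inferInstance, inferInstance⟩
  obtain ⟨r, hrs, hrk, hrl⟩ := exists_lred π hπ
  obtain ⟨ρ', hρ'⟩ := hl
  have hn := GLoc_nilp hrk
  have hXne : ∀ h, lc k (ρx h PowerSeries.X) ≠ 0 := fun h =>
    Lau_ne ((map_ne_zero_iff _ (ρx h).injective).2 PowerSeries.X_ne_zero)
  have hψ : ∀ h, ∃ ψ : LaurentSeries A →ₐ[A] LaurentSeries A,
      ∀ g, ψ (lcA A g) = lcA A (ρ' h g) := fun h =>
    exists_lextA (ρ' h : En A) (GLoc_unit hrs hn (by
      rw [hrl]
      change lc k (PowerSeries.map π (ρ' h PowerSeries.X)) ≠ 0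
      rw [hρ', PowerSeries.map_X]
      exact hXne h))
  choose ψ hψ using hψ
  have hT : ∀ h b n g, j b * lc k PowerSeries.X ^ n = lc k g →
      j (T h⁻¹ b) * lc k (ρx h PowerSeries.X) ^ n = lc k (ρx h g) := fun h b n g hb => by
    rw [← hρ.2 h t _ C.uni, ← hρ.2 h (b * t ^ n) g (by rw [map_mul, map_pow, C.uni, hb]),
      map_mul, map_pow, map_mul, map_pow]
  have hc : ∀ h z b, r z = j b → r (ψ h z) = j (T h⁻¹ b) := fun h z b hz => by
    obtain ⟨n, g, h1⟩ := GLoc_ex z
    have h2 := congrArg r h1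
    rw [map_mul, map_pow, hrl, hrl, PowerSeries.map_X, hz] at h2
    have h3 := congrArg (fun y => r (ψ h y)) h1
    simp only [map_mul, map_pow, hψ, hrl, hρ', PowerSeries.map_X] at h3
    exact mul_right_cancel₀ (pow_ne_zero n (hXne h)) (h3.trans (hT h b n _ h2).symm)
  obtain ⟨ho, hinv⟩ := ginv ρx hρ.1
  have hd : 0 < Fintype.card H := Fintype.card_pos
  set y := ∏ h, ρx h PowerSeries.X with hy
  set y' := ∏ h, ρ' h PowerSeries.X with hy'
  have hyy : PowerSeries.map π y' = y := by
    rw [hy', map_prod]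
    exact Finset.prod_congr rfl fun h _ => by rw [hρ', PowerSeries.map_X]
  have hy1 : ∀ h, ρx h y = y := fun h => by
    rw [hy, map_prod]
    exact Fintype.prod_equiv (Equiv.mulLeft h) _ _ fun g => by
      rw [Equiv.coe_mulLeft, map_mul, AlgEquiv.mul_apply]
  have hy2 : ∀ h, ρ' h y' = y' := fun h => by
    rw [hy', map_prod]
    exact Fintype.prod_equiv (Equiv.mulLeft h) _ _ fun g => by
      rw [Equiv.coe_mulLeft, map_mul, AlgEquiv.mul_apply]
  have hm' : PowerSeries.constantCoeff y' ∈ maximalIdeal A :=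
    Qb_mem π hπ y' _ hd (by rw [hyy, ho])
  have h0 : PowerSeries.constantCoeff y = 0 := Lau_cc hd ho
  have hm : PowerSeries.constantCoeff y ∈ maximalIdeal k := by
    rw [h0]
    exact zero_mem _
  have hyne : lc k y ≠ 0 := Lau_ne fun h => by
    rw [h, PowerSeries.order_zero] at ho
    exact ENat.top_ne_natCast _ ho
  have hTf : ∀ h, T h f = f := fun h => by rw [← L.hf, ← hr, hf']
  obtain ⟨M, g₁, hg₁, hM⟩ : ∃ (M : ℕ) (g₁ : k⟦X⟧), j f * lc k y ^ M = lc k g₁ ∧
      (f ∈ O → M = 0) := by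
    by_cases hO : f ∈ O
    · obtain ⟨g, hg⟩ := exists_lc_of_le ((C.mem f).1 hO)
      exact ⟨0, g, by rw [hg, pow_zero, mul_one], fun _ => rfl⟩
    · obtain ⟨n, g, h1⟩ := Lau_ex (j f)
      obtain ⟨w, hw⟩ := PowerSeries.X_dvd_iff.2 h0
      refine ⟨n, g * w ^ n, ?_, fun h => absurd h hO⟩
      rw [hw, map_mul, mul_pow, ← mul_assoc, h1, map_mul, map_pow]
  have hjy : j (∏ h, T h⁻¹ t) = lc k y := by
    rw [hy, map_prod, map_prod]
    exact Finset.prod_congr rfl fun h _ => hρ.2 h t _ C.uni
  obtain ⟨g₀, hg₀⟩ := hinv g₁ fun h => by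
    have h1 := hρ.2 h (f * (∏ h, T h⁻¹ t) ^ M) g₁ (by rw [map_mul, map_pow, hjy, hg₁])
    rw [map_mul, map_pow, map_mul, map_pow, hTf, hρ.2 h _ _ hjy, hy1, hg₁] at h1
    exact HahnSeries.ofPowerSeries_injective (Γ := ℤ) h1.symm
  obtain ⟨g₀', rfl⟩ := PowerSeries.map_surjective π hπ g₀
  have hG : PowerSeries.map π (sub y' g₀') = g₁ := by
    rw [← hg₀]
    exact map_en π (sub y') (sub y) (by rw [sub_X hm', sub_X hm, hyy]) (by rwa [sub_X hm]) g₀'
  have hG' : ∀ h, ρ' h (sub y' g₀') = sub y' g₀' := fun h => by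
    have h1 : ((ρ' h : En A) * sub y') PowerSeries.X = y' := by
      rw [AlgHom.mul_apply, sub_X hm']
      exact hy2 h
    exact AlgHom.congr_fun (en_ext (h1.trans (sub_X hm').symm) (by rwa [h1])) g₀'
  obtain ⟨u, hu⟩ : IsUnit (lcA A y') := GLoc_unit hrs hn (by rwa [hrl, hyy])
  have hF : lcA A (sub y' g₀') * ↑u⁻¹ ^ M * lcA A y' ^ M = lcA A (sub y' g₀') := by
    rw [← hu, mul_assoc, ← mul_pow, u.inv_mul, one_pow, mul_one]
  have hF0 : M = 0 → lcA A (sub y' g₀') * ↑u⁻¹ ^ M ∈ (lcA A).range := fun h =>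
    ⟨sub y' g₀', by rw [h, pow_zero, mul_one]; rfl⟩
  generalize lcA A (sub y' g₀') * ↑u⁻¹ ^ M = F at hF hF0
  have hF1 : r F = j f := by
    have h1 := congrArg r hF
    rw [map_mul, map_pow, hrl, hrl, hyy, hG, ← hg₁] at h1
    exact mul_right_cancel₀ (pow_ne_zero M hyne) h1
  have hF2 : ∀ h, ψ h F = F := fun h => by
    have h1 := congrArg (ψ h) hF
    rw [map_mul, map_pow, hψ, hψ, hy2, hG', ← hF, ← hu] at h1
    exact (u.isUnit.pow M).mul_right_cancel h1
  obtain ⟨e, he, hef⟩ := L.ex (LaurentSeries A) (LaurentSeries k) r hrs hn j (fun a => by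
    rw [← (lcA A).commutes, hrl, C.alg, LaurentSeries.algebraMap_apply]
    change lc k (PowerSeries.map π (PowerSeries.C a)) = _
    rw [PowerSeries.map_C]
    exact PowerSeries.coe_C _) F hF1
  have hcomm : ∀ h b, e (T' h⁻¹ b) = ψ h (e b) := fun h =>
    AlgHom.congr_fun (L.uniq (LaurentSeries A) (LaurentSeries k) r hn (e.comp (T' h⁻¹))
      ((ψ h).comp e) (fun b => by
        rw [AlgHom.comp_apply, AlgHom.comp_apply, he, hr, hc h _ _ (he b)]) (by
        rw [AlgHom.comp_apply, AlgHom.comp_apply, hf', hef, hF2]))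
  obtain ⟨hfl, hmem⟩ := GLoc_model red L.surj L.ker r hrk j e he (lcA A).range flat_lquot
    fun z => by
      obtain ⟨b, g, h1⟩ := GLoc_sum C (r z)
      obtain ⟨g', rfl⟩ := PowerSeries.map_surjective π hπ g
      exact ⟨b, lcA A g', ⟨g', rfl⟩, by rw [hrl, h1]⟩
  refine ⟨(lcA A).range.comap e, ⟨fun b => ⟨fun hb => hmem b ?_, ?_⟩, hfl, fun h => ?_⟩, ?_⟩
  · obtain ⟨g, hg⟩ := exists_lc_of_le ((C.mem b).1 hb)
    obtain ⟨g', rfl⟩ := PowerSeries.map_surjective π hπ g
    exact ⟨lcA A g', ⟨g', rfl⟩, by rw [hrl, hg]⟩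
  · rintro ⟨b', ⟨g, hg⟩, rfl⟩
    have h1 : lcA A g = e b' := hg
    rw [C.mem, ← he, ← h1, hrl]
    exact vv_lc_le _
  · rw [Subalgebra.mem_comap, hef]
    exact hF0 (hM h)
  · rintro h b ⟨g, hg⟩
    have h1 : lcA A g = e b := hg
    have h2 := hcomm h⁻¹ b
    rw [inv_inv, ← h1, hψ] at h2
    exact ⟨_, h2.symm⟩

end Pool.Agent.MP_deef5c_ag.O

end
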