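import Pool.Agent.Mg.Fdeef5c.G30175f

section

/-! Identities for the cubic forms, uniqueness of roots. -/

open PowerSeries IsLocalRing Function Pool.Agent.MP_deef5c_ag.O
open scoped Polynomial

namespace Pool.Agent.MP_deef5c_ag.E

universe u

section Ring

variable {R S : Type*} [CommRing R] [CommRing S] {F : Type*} [FunLike F R S] [RingHomClass F R S]

theorem map_TT (φ : F) (x s : R) : φ (TT x s) = TT (φ x) (φ s) := by simp [TT]

theorem map_ST (φ : F) (c x s t : R) : φ (ST c x s t) = ST (φ c) (φ x) (φ s) (φ t) := by simp [ST]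

theorem map_Qf (φ : F) (u v : R) : φ (Qf u v) = Qf (φ u) (φ v) := by simp [Qf]

theorem map_ch (φ : F) (q r w T Z Y : R) :
    φ (ch q r w T Z Y) = ch (φ q) (φ r) (φ w) (φ T) (φ Z) (φ Y) := by simp [ch, map_Qf]

theorem map_NE (φ : F) (a r w T Th β ρ ω : R) : φ (NE a r w T Th β ρ ω) =
    NE (φ a) (φ r) (φ w) (φ T) (φ Th) (φ β) (φ ρ) (φ ω) := by simp [NE, map_Qf]

theorem ch_smul (q r w T Z Y u : R) : ch q r w T (u * Z) (u * Y) = u ^ 3 * ch q r w T Z Y := by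
  simp only [ch, Qf]
  ring

theorem ch_poly (q r w T Z : R) : ch q r w T Z 1 = (1 - r ^ 2) * Z ^ 3 +
    (T * w ^ 2 - 2 * r * q) * Z ^ 2 + (2 * r * w * T - q ^ 2) * Z + -(T * (1 - r ^ 2)) := by
  simp only [ch, Qf]
  ring

/-- the Moebius transformation `1 + N` preserves the cubic form -/
theorem mob {q r w : R} (h : r ^ 2 - q * w = -3) (T Z Y : R) :
    ch q r w T ((1 + r) * Z + q * Y) ((1 - r) * Y - w * Z) = -8 * ch q r w T Z Y := by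
  have h1 : r * ((1 + r) * Z + q * Y) + q * ((1 - r) * Y - w * Z) = r * Z + q * Y - 3 * Z := by
    linear_combination Z * h
  have h2 : -(w * ((1 + r) * Z + q * Y)) - r * ((1 - r) * Y - w * Z) =
      -(w * Z) - r * Y - 3 * Y := by
    linear_combination Y * h
  rw [ch, h1, h2]
  simp only [ch, Qf]
  ring

/-- the forms `Qf (l v) (l (N v))` span a module of rank two -/
theorem bic {q r w : R} (h : r ^ 2 - q * w = -3) (l m t : R) :
    (1 - r ^ 2) * Qf (l * t + m) (l * (r * t + q) + m * (-(w * t) - r)) =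
      Qf l (l * r - m * w) * Qf t (r * t + q) + Qf m (l * q - m * r) * Qf 1 (-(w * t) - r) := by
  simp only [Qf]
  linear_combination (l * m ^ 2 * q * t * w - l * m ^ 2 * r ^ 2 * t + l * m ^ 2 * t + l ^ 2 * m * q * t ^ 2 * w - l ^ 2 * m * r ^ 2 * t ^ 2 + l ^ 2 * m * t ^ 2) * h

end Ring

variable {D k : Type u} [CommRing D] [IsLocalRing D] [CL D] [Field k]

theorem nzd (π : D →+* k) (hπ : Surjective π) {F g : D⟦X⟧} (hF : PowerSeries.map π F ≠ 0)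
    (h : F * g = 0) : g = 0 := by
  have := cin_of_mul π hπ ⊥ F g hF (by rw [h]; intro a; simp)
  ext a
  simpa using this a

/-- two roots with the same reduction are equal -/
theorem ch_uniq [CharP k 3] (π : D →+* k) (hπ : Surjective π) {q r w T ξ η : D⟦X⟧}
    (hq : PowerSeries.map π q ≠ 0) (hr : PowerSeries.map π r = 0) (hw : PowerSeries.map π w = 0)
    (h1 : ch q r w T ξ 1 = 0) (h2 : ch q r w T η 1 = 0)
    (h : PowerSeries.map π ξ = PowerSeries.map π η) : ξ = η := by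
  rw [ch_poly] at h1 h2
  refine sub_eq_zero.1 (nzd π hπ (F := (1 - r ^ 2) * (ξ ^ 2 + ξ * η + η ^ 2) +
    (T * w ^ 2 - 2 * r * q) * (ξ + η) + (2 * r * w * T - q ^ 2)) ?_ (by linear_combination h1 - h2))
  have h3 : (3 : k⟦X⟧) = 0 := by
    rw [← map_ofNat (C : k →+* k⟦X⟧) 3, show (3 : k) = 0 from CharP.cast_eq_zero k 3, map_zero]
  simp only [map_add, map_sub, map_mul, map_pow, map_one, hr, hw, h]
  intro h0
  exact hq (pow_eq_zero_iff two_ne_zero |>.1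
    (by linear_combination -h0 + (PowerSeries.map π η) ^ 2 * h3))

end Pool.Agent.MP_deef5c_ag.E

end

section

/-! The filtration on power series: derivatives, substitutions, division. -/

open PowerSeries IsLocalRing Function Pool.Agent.MP_deef5c_ag.O
open scoped Polynomial

namespace Pool.Agent.MP_deef5c_ag.E

universe u

variable {A : Type u} [CommRing A] {Φ : MF A}

theorem der_mem {n : ℕ} {f : A⟦X⟧} (hf : f ∈ Φ.ps.F (n + 1)) : d⁄dX A f ∈ Φ.ps.F n := by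
  intro j
  rw [coeff_derivative]
  exact Ideal.mul_mem_right _ _ (Φ.le (hf (j + 1)) (by omega))

/-- splitting off the constant coefficient -/
theorem AFil_split (f : A⟦X⟧) : ∃ g : A⟦X⟧, f = X * g + C (constantCoeff f) ∧
    ∀ n, f ∈ Φ.ps.F (n + 1) → g ∈ Φ.ps.F n := by
  refine ⟨_, eq_X_mul_shift_add_const f, fun n hf j => ?_⟩
  rw [coeff_mk]
  exact Φ.le (hf (j + 1)) (by omega)

/-- write `f = ∑_{j<n} C c_j X^j + X^n g` -/
theorem en_memF {Ψ : MF A} {d : ℕ} (h : ∀ i, Φ.F i ≤ Ψ.F (d * i)) (σ : En A)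
    (hσ : σ X ∈ Ψ.ps.F d) {n : ℕ} {f : A⟦X⟧} (hf : f ∈ Φ.ps.F n) : σ f ∈ Ψ.ps.F (d * n) := by
  induction n generalizing f with
  | zero => exact Ψ.ps.mem_zero _
  | succ n ih =>
    obtain ⟨g, hg, hg'⟩ := AFil_split (Φ := Φ) f
    have h0 : constantCoeff f ∈ Φ.F (n + 1) := by
      simpa using hf 0
    rw [hg, map_add, map_mul, Base_en_C]
    refine add_mem (Ψ.ps.le (Ψ.ps.mul hσ (ih (hg' n hf))) (by rw [Nat.mul_succ]; omega)) ?_
    exact Ψ.C_mem (h _ h0)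

theorem en_mem1 (σ : En A) (hσ : σ X ∈ Φ.ps.F 1) {n : ℕ} {f : A⟦X⟧} (hf : f ∈ Φ.ps.F n) :
    σ f ∈ Φ.ps.F n := by
  simpa using en_memF (Ψ := Φ) (d := 1) (fun i => by simp) σ hσ hf

theorem en_mem3 (σ : En A) (hσ : σ X ∈ Φ.tri.ps.F 3) {n : ℕ} {f : A⟦X⟧} (hf : f ∈ Φ.ps.F n) :
    σ f ∈ Φ.tri.ps.F (3 * n) :=
  en_memF (fun i a ha => Φ.mem_tri.2 (by rwa [show (3 * i + 2) / 3 = i by omega])) σ hσ hf

theorem en_mem31 (σ : En A) (hσ : σ X ∈ Φ.tri.ps.F 1) {n : ℕ} {f : A⟦X⟧} (hf : f ∈ Φ.ps.F n) :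
    σ f ∈ Φ.tri.ps.F n := by
  simpa using en_memF (Ψ := Φ.tri) (d := 1)
    (fun i a ha => Φ.mem_tri.2 (Φ.le ha (by omega))) σ hσ hf

theorem AFil_sub (σ : En A) (g : A⟦X⟧) (c : A) :
    σ (X * g + C c) - (X * g + C c) = X * (σ g - g) + (σ X - X) * σ g := by
  rw [map_add, map_mul, Base_en_C]
  ring

theorem AFil_err (σ : En A) (g : A⟦X⟧) (c : A) :
    σ (X * g + C c) - (X * g + C c) - d⁄dX A (X * g + C c) * (σ X - X) =
      X * (σ g - g - d⁄dX A g * (σ X - X)) + (σ X - X) * (σ g - g) := by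
  rw [AFil_sub, map_add, Derivation.leibniz, derivative_C, derivative_X, smul_eq_mul, smul_eq_mul]
  ring

theorem AFil_one (σ : En A) (hσ : σ X - X ∈ Φ.ps.F 9) : σ X ∈ Φ.ps.F 1 := by
  have := add_mem (Φ.ps.le hσ (show 1 ≤ 9 by omega)) Φ.X_mem
  rwa [sub_add_cancel] at this

theorem AFil_a (σ : En A) (hσ : σ X - X ∈ Φ.ps.F 9) (m : ℕ) (hm : m ≤ 9) (f : A⟦X⟧) :
    σ f - f ∈ Φ.ps.F m := by
  induction m generalizing f with
  | zero => exact Φ.ps.mem_zero _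
  | succ m ih =>
    obtain ⟨g, hg, -⟩ := AFil_split (Φ := Φ) f
    rw [hg, AFil_sub]
    exact add_mem (Φ.ps.le (Φ.ps.mul Φ.X_mem (ih (by omega) g)) (by omega))
      (Ideal.mul_mem_right _ _ (Φ.ps.le hσ hm))

theorem AFil_t0 (σ : En A) (hσ : σ X - X ∈ Φ.ps.F 9) {n : ℕ} {f : A⟦X⟧} (hf : f ∈ Φ.ps.F n) :
    σ f - f ∈ Φ.ps.F (n + 8) := by
  induction n generalizing f with
  | zero => exact AFil_a σ hσ _ (by omega) f
  | succ n ih =>
    obtain ⟨g, hg, hg'⟩ := AFil_split (Φ := Φ) f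
    have h1 := hg' n hf
    rw [hg, AFil_sub]
    exact add_mem (Φ.ps.le (Φ.ps.mul Φ.X_mem (ih h1)) (by omega))
      (Φ.ps.le (Φ.ps.mul hσ (en_mem1 σ (AFil_one σ hσ) h1)) (by omega))

theorem AFil_b (σ : En A) (hσ : σ X - X ∈ Φ.ps.F 9) (m : ℕ) (hm : m ≤ 18) (f : A⟦X⟧) :
    σ f - f - d⁄dX A f * (σ X - X) ∈ Φ.ps.F m := by
  induction m generalizing f with
  | zero => exact Φ.ps.mem_zero _
  | succ m ih =>
    obtain ⟨g, hg, -⟩ := AFil_split (Φ := Φ) f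
    rw [hg, AFil_err]
    exact add_mem (Φ.ps.le (Φ.ps.mul Φ.X_mem (ih (by omega) g)) (by omega))
      (Φ.ps.le (Φ.ps.mul hσ (AFil_a σ hσ 9 le_rfl g)) (by omega))

/-- Write `f = ∑_{j<N} C c_j X^j + X^N g` with `N = n + 16`.  With `δ = σ X - X`, the element
`(X + δ)^j - X^j - j X^(j-1) δ` has weight `j + 16` (induction on `j`); each term coming from the tail
has weight at least `N`. -/
theorem taylor (σ : En A) (hσ : σ X - X ∈ Φ.ps.F 9) {n : ℕ} {f : A⟦X⟧} (hf : f ∈ Φ.ps.F n) :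
    σ f - f - d⁄dX A f * (σ X - X) ∈ Φ.ps.F (n + 16) := by
  induction n generalizing f with
  | zero => exact AFil_b σ hσ _ (by omega) f
  | succ n ih =>
    obtain ⟨g, hg, hg'⟩ := AFil_split (Φ := Φ) f
    have h1 := hg' n hf
    rw [hg, AFil_err]
    exact add_mem (Φ.ps.le (Φ.ps.mul Φ.X_mem (ih h1)) (by omega))
      (Φ.ps.le (Φ.ps.mul hσ (AFil_t0 σ hσ h1)) (by omega))

theorem taylor0 (σ : En A) (hσ : σ X - X ∈ Φ.ps.F 9) {n : ℕ} {f : A⟦X⟧} (hf : f ∈ Φ.ps.F n) :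
    σ f - f ∈ Φ.ps.F (n + 8) :=
  AFil_t0 σ hσ hf

variable [IsLocalRing A] {e : ℕ} {k : Type u} [Field k]

theorem mem_one_iff (hΦ : Φ.Loc e) {f : A⟦X⟧} :
    f ∈ Φ.ps.F 1 ↔ constantCoeff f ∈ maximalIdeal A := by
  rw [← hΦ.one]
  refine ⟨fun h => by simpa using h 0, fun h j => ?_⟩
  rcases j with _ | j
  · simpa using h
  · rw [show 1 - (j + 1) = 0 by omega]
    exact Φ.mem_zero _

theorem dvd_red (hΦ : Φ.Loc e) (π : A →+* k) (hπ : Surjective π) {n : ℕ} {f : A⟦X⟧}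
    (hf : f ∈ Φ.ps.F n) : X ^ n ∣ PowerSeries.map π f := by
  refine X_pow_dvd_iff.2 fun m hm => ?_
  rw [coeff_map, pi_eq_zero_iff π hπ, ← hΦ.one]
  exact Φ.le (hf m) (by omega)

theorem unit_coeff (π : A →+* k) (hπ : Surjective π) {d : ℕ} {f : A⟦X⟧}
    (h : coeff d (PowerSeries.map π f) ≠ 0) : IsUnit (coeff d f) := by
  rwa [coeff_map, Ne, pi_eq_zero_iff π hπ, mem_maximalIdeal, mem_nonunits_iff, not_not] at h

omit [IsLocalRing A] in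
theorem AFil_cmul {i j : ℕ} {f g : A⟦X⟧} (hf : ∀ a, coeff a f ∈ Φ.F i) (hg : ∀ a, coeff a g ∈ Φ.F j)
    (a : ℕ) : coeff a (f * g) ∈ Φ.F (i + j) := by
  rw [coeff_mul]
  exact sum_mem fun p _ => Φ.mul (hf _) (hg _)

/-- Write `α = X^d u + l` with `u` a unit and `l = ∑_{j<d} C α_j X^j`, whose coefficients lie in `F 1`.
The coefficients of index `< d` of `f` vanish (`F (e+1) = ⊥`), so `f = X^d f₁` with `f₁` of weight `n`,
and `f - α f₁ u⁻¹ = - l f₁ u⁻¹` has weight `n + d` again.  Descending induction on `i` such that all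
coefficients of `f` lie in `F i`, starting from `i = e + 1`. -/
theorem div_mem (hΦ : Φ.Loc e) {d n : ℕ} {α f : A⟦X⟧} (hα : α ∈ Φ.ps.F d) (hu : IsUnit (coeff d α))
    (hn : e ≤ n) (hf : f ∈ Φ.ps.F (n + d)) : ∃ h ∈ Φ.ps.F n, f = α * h := by
  set u : A⟦X⟧ := mk fun j => coeff (j + d) α with hudef
  have hu' : IsUnit u := by
    rw [PowerSeries.isUnit_iff_constantCoeff, ← coeff_zero_eq_constantCoeff_apply, hudef, coeff_mk,
      zero_add]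
    exact hu
  obtain ⟨v, hv⟩ := hu'.exists_right_inv
  have hXd : (X : A⟦X⟧) ^ d ∈ Φ.ps.F d := by simpa using Φ.ps.pow Φ.X_mem d
  have hl : α - X ^ d * u ∈ Φ.ps.F d := sub_mem hα (Ideal.mul_mem_right _ _ hXd)
  have hl1 : ∀ a, coeff a (α - X ^ d * u) ∈ Φ.F 1 := fun a => by
    rcases lt_or_ge a d with h | h
    · exact Φ.le (hl a) (by omega)
    · rw [map_sub, coeff_X_pow_mul', if_pos h, hudef, coeff_mk, Nat.sub_add_cancel h, sub_self]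
      exact zero_mem _
  have key : ∀ t i, i + t = e + 1 → ∀ f ∈ Φ.ps.F (n + d), (∀ a, coeff a f ∈ Φ.F i) →
      ∃ h ∈ Φ.ps.F n, f = α * h := by
    intro t
    induction t with
    | zero =>
      intro i hi f _ hfi
      refine ⟨0, zero_mem _, ?_⟩
      ext a
      have := hfi a
      rw [show i = e + 1 by omega, hΦ.top, Ideal.mem_bot] at this
      rw [this, mul_zero, map_zero]
    | succ t ih =>
      intro i hi f hf hfi
      have hdvd : X ^ d ∣ f := X_pow_dvd_iff.2 fun m hm => by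
        have := Φ.le (hf m) (show e + 1 ≤ n + d - m by omega)
        rwa [hΦ.top, Ideal.mem_bot] at this
      obtain ⟨g, rfl⟩ := hdvd
      have hc : ∀ a, coeff a g = coeff (a + d) (X ^ d * g) := fun a => (coeff_X_pow_mul g d a).symm
      have hg : g ∈ Φ.ps.F n := fun a => by
        rw [hc]
        exact Φ.le (hf (a + d)) (by omega)
      have hgi : ∀ a, coeff a g ∈ Φ.F i := fun a => by
        rw [hc]
        exact hfi _
      have hgv : g * v ∈ Φ.ps.F n := Ideal.mul_mem_right _ _ hg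
      obtain ⟨h, hh, hh'⟩ := ih (i + 1) (by omega) ((α - X ^ d * u) * (g * v))
        (Φ.ps.le (Φ.ps.mul hl hgv) (by omega)) fun a =>
          Φ.le (AFil_cmul hl1 (AFil_cmul hgi fun b => Φ.mem_zero (coeff b v)) a) (by omega)
      refine ⟨g * v - h, sub_mem hgv hh, ?_⟩
      linear_combination -hh' - X ^ d * g * hv
  exact key (e + 1) 0 (by omega) f hf fun a => Φ.mem_zero _

end Pool.Agent.MP_deef5c_ag.E

end

section

/-! The certificate read in power series. -/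

open PowerSeries IsLocalRing Function Pool.Agent.MP_deef5c_ag.O
open scoped Polynomial

namespace Pool.Agent.MP_deef5c_ag.E

universe u

variable {A k : Type u} [CommRing A] [IsLocalRing A] [Field k] {Φ : MF A}

theorem ADat_three (hΦ : Φ.Loc 16) (h3 : (3 : A) ∈ Φ.F 16) {a : A} {i : ℕ} (ha : a ∈ Φ.F (i + 1)) :
    3 * (C a : A⟦X⟧) = 0 := by
  have h1 : 3 * a ∈ Φ.F (16 + 1) := Φ.mul h3 (Φ.le ha (by omega))
  rw [hΦ.top, Ideal.mem_bot] at h1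
  rw [← map_ofNat (C : A →+* A⟦X⟧) 3, ← map_mul, h1, map_zero]

theorem ADat_red (hΦ : Φ.Loc 16) {π : A →+* k} (hπ : Surjective π) {a : A} {i : ℕ}
    (ha : a ∈ Φ.F (i + 1)) : π a = 0 := by
  have h1 : a ∈ Φ.F 1 := Φ.le ha (by omega)
  rw [hΦ.one, ← ker_eq_maximalIdeal π hπ, RingHom.mem_ker] at h1
  exact h1

omit [IsLocalRing A] in
theorem ADat_three_ps (h3 : (3 : A) ∈ Φ.F 16) : (3 : A⟦X⟧) ∈ Φ.ps.F 16 := by
  rw [← map_ofNat (C : A →+* A⟦X⟧) 3]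
  exact Φ.C_mem h3

omit [IsLocalRing A] in
theorem ADat_mc {v1 v2 u2 u3 h0 h1 : A} (h : Cert Φ v1 v2 u2 u3 h0 h1) (j : ℕ) (hj : j < 8) :
    cc v1 v2 u2 u3 h0 h1 j ∈ Φ.F (9 - j) := by
  have : HW Φ v1 1 := ⟨h.mv1⟩
  have : HW Φ v2 2 := ⟨h.mv2⟩
  have : HW Φ u2 2 := ⟨h.mu2⟩
  have : HW Φ u3 3 := ⟨h.mu3⟩
  have : HW Φ h0 3 := ⟨h.mh0⟩
  have : HW Φ h1 2 := ⟨h.mh1⟩
  interval_cases j <;> simp only [cc, cB, cC, cD, cU] <;> exact HW.of (by norm_num)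

/-- `3 * a = 0` for `a ∈ F 1` since `F 17 = ⊥`; apply `C` to these relations and to the equations.
`eqC` is `X^5 e5 + X^6 e6 + X^7 e7` up to multiples of `3 v1, 3 v2, 3 u2, 3 u3, 3 h0, 3 h1`, and `eqP` is
`x^3 p3 + x^2 p2 + x p1 + p0` exactly. -/
theorem dat_of_cert (hΦ : Φ.Loc 16) (π : A →+* k) (hπ : Surjective π) {v1 v2 u2 u3 h0 h1 : A}
    (h : Cert Φ v1 v2 u2 u3 h0 h1) :
    Dat Φ π (X ^ 3 + C v1 * X ^ 2 + C v2 * X) (C (cU h1) * X ^ 2 + C u2 * X + C u3)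
      (C h1 * X + C h0) (cc v1 v2 u2 u3 h0 h1) := by
  have : HW Φ v1 1 := ⟨h.mv1⟩
  have : HW Φ v2 2 := ⟨h.mv2⟩
  have : HW Φ u2 2 := ⟨h.mu2⟩
  have : HW Φ u3 3 := ⟨h.mu3⟩
  have : HW Φ h0 3 := ⟨h.mh0⟩
  have : HW Φ h1 2 := ⟨h.mh1⟩
  have mU : cU h1 ∈ Φ.F 2 := by
    rw [cU]
    exact HW.of (by norm_num)
  have : HW Φ (cU h1) 2 := ⟨mU⟩
  have t1 := ADat_three hΦ h.three h.mv1
  have t2 := ADat_three hΦ h.three h.mv2
  have t3 := ADat_three hΦ h.three h.mu2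
  have t4 := ADat_three hΦ h.three h.mu3
  have t5 := ADat_three hΦ h.three mU
  refine ⟨h.three, HW.of (by norm_num), HW.of (by norm_num), ADat_mc h, ?_, ?_, ?_, ?_, ?_, ?_⟩
  · simp [ADat_red hΦ hπ h.mv1, ADat_red hΦ hπ h.mv2]
  · simp [ADat_red hΦ hπ mU, ADat_red hΦ hπ h.mu2, ADat_red hΦ hπ h.mu3]
  · simp [ADat_red hΦ hπ h.mh0, ADat_red hΦ hπ h.mh1]
  · linear_combination X ^ 2 * t5 + X * t3 + t4
  · have E5 := congrArg (C : A →+* A⟦X⟧) h.e5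
    have E6 := congrArg (C : A →+* A⟦X⟧) h.e6
    have E7 := congrArg (C : A →+* A⟦X⟧) h.e7
    simp only [WW, w0, w1, w2, cc, Th, cU, cB, cC, cD, map_add, map_sub, map_mul, map_pow, map_neg,
      map_ofNat, map_zero] at E5 E6 E7 ⊢
    generalize (C v1 : A⟦X⟧) = v1 at *
    generalize (C v2 : A⟦X⟧) = v2 at *
    generalize (C u2 : A⟦X⟧) = u2 at *
    generalize (C u3 : A⟦X⟧) = u3 at *
    generalize (C h0 : A⟦X⟧) = h0 at *
    generalize (C h1 : A⟦X⟧) = h1 at *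
    linear_combination X ^ 5 * E5 + X ^ 6 * E6 + X ^ 7 * E7 +
      (-X * u3 ^ 2 - X ^ 2 * u2 * u3 - 2 * X ^ 3 * u3 * h1 + 2 * X ^ 3 * u3 * h1 ^ 2 -
        X ^ 4 * u2 * h1 + X ^ 4 * u2 * h1 ^ 2 - X ^ 5 * h1 ^ 2 + 2 * X ^ 5 * h1 ^ 3 -
        X ^ 5 * h1 ^ 4) * t3 +
      (-X ^ 2 * u3 * h1 + X ^ 2 * u3 * h1 ^ 2 - X ^ 4 * h1 ^ 2 + 2 * X ^ 4 * h1 ^ 3 -
        X ^ 4 * h1 ^ 4) * t4 +
      (-X ^ 4 * v2 ^ 2 - X ^ 4 * v2 ^ 2 * h0 + X ^ 5 * v2 ^ 2 - X ^ 5 * v2 ^ 2 * h1 -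
        X ^ 5 * v1 * v2 - X ^ 5 * v1 * v2 * h0 - 2 * X ^ 6 * v2 - 2 * X ^ 6 * v2 * h0 +
        X ^ 6 * v1 * v2 - X ^ 6 * v1 * v2 * h1 + 2 * X ^ 7 * v2 - 2 * X ^ 7 * v2 * h1 -
        X ^ 7 * v2 ^ 2 - X ^ 7 * v1 - X ^ 7 * v1 * h0 - X ^ 8 - X ^ 8 * h0 + X ^ 8 * v1 -
        X ^ 8 * v1 * h1 - X ^ 8 * v1 * v2 + X ^ 9 - X ^ 9 * h1 - 2 * X ^ 9 * v2 - X ^ 10 * v1 -
        X ^ 11) * t1 +
      (-X ^ 5 * v2 - X ^ 5 * v2 * h0 + X ^ 6 * v2 - X ^ 6 * v2 * h1 - X ^ 7 - X ^ 7 * h0 + X ^ 8 -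
        X ^ 8 * h1 - X ^ 8 * v2 - X ^ 10) * t2
  · intro x
    have P3 := congrArg (C : A →+* A⟦X⟧) h.p3
    have P2 := congrArg (C : A →+* A⟦X⟧) h.p2
    have P1 := congrArg (C : A →+* A⟦X⟧) h.p1
    have P0 := congrArg (C : A →+* A⟦X⟧) h.p0
    simp only [w0, w1, w2, cc, cB, map_add, map_sub, map_mul, map_pow, map_neg,
      map_ofNat, map_zero] at P3 P2 P1 P0 ⊢
    linear_combination x ^ 3 * P3 + x ^ 2 * P2 + x * P1 + P0

omit [IsLocalRing A] in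
theorem ADat_WW (c : ℕ → A) : WW c = X ^ 9 + C (c 7) * X ^ 7 + C (c 6) * X ^ 6 + C (c 5) * X ^ 5 +
    C (c 4) * X ^ 4 + C (c 3) * X ^ 3 + C (c 2) * X ^ 2 + C (c 1) * X + C (c 0) := by
  simp only [WW, w0, w1, w2]
  ring

omit [IsLocalRing A] in
theorem ADat_d1 (c : ℕ → A) : d⁄dX A (WW c) = 9 * X ^ 8 + 7 * C (c 7) * X ^ 6 +
    6 * C (c 6) * X ^ 5 + 5 * C (c 5) * X ^ 4 + 4 * C (c 4) * X ^ 3 + 3 * C (c 3) * X ^ 2 +
    2 * C (c 2) * X + C (c 1) := by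
  rw [ADat_WW]
  simp only [map_add, Derivation.leibniz, Derivation.leibniz_pow, derivative_C, derivative_X,
    smul_eq_mul, nsmul_eq_mul]
  push_cast
  ring

omit [IsLocalRing A] in
theorem ADat_d2 (c : ℕ → A) : d⁄dX A (d⁄dX A (WW c)) = 72 * X ^ 7 + 42 * C (c 7) * X ^ 5 +
    30 * C (c 6) * X ^ 4 + 20 * C (c 5) * X ^ 3 + 12 * C (c 4) * X ^ 2 + 6 * C (c 3) * X +
    2 * C (c 2) := by
  have h : ∀ n : ℕ, d⁄dX A (n : A⟦X⟧) = 0 := fun n => Derivation.map_natCast _ n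
  have h9 := h 9
  have h7 := h 7
  have h6 := h 6
  have h5 := h 5
  have h4 := h 4
  have h3 := h 3
  have h2 := h 2
  push_cast at h9 h7 h6 h5 h4 h3 h2
  rw [ADat_d1]
  simp only [map_add, Derivation.leibniz, Derivation.leibniz_pow, derivative_C, derivative_X,
    smul_eq_mul, nsmul_eq_mul, h9, h7, h6, h5, h4, h3, h2]
  push_cast
  ring

theorem WW_mem {π : A →+* k} {a u H : A⟦X⟧} {c : ℕ → A} (h : Dat Φ π a u H c) :
    WW c ∈ Φ.ps.F 9 := by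
  have : HW Φ (c 0) 9 := ⟨h.mc 0 (by norm_num)⟩
  have : HW Φ (c 1) 8 := ⟨h.mc 1 (by norm_num)⟩
  have : HW Φ (c 2) 7 := ⟨h.mc 2 (by norm_num)⟩
  have : HW Φ (c 3) 6 := ⟨h.mc 3 (by norm_num)⟩
  have : HW Φ (c 4) 5 := ⟨h.mc 4 (by norm_num)⟩
  have : HW Φ (c 5) 4 := ⟨h.mc 5 (by norm_num)⟩
  have : HW Φ (c 6) 3 := ⟨h.mc 6 (by norm_num)⟩
  have : HW Φ (c 7) 2 := ⟨h.mc 7 (by norm_num)⟩
  rw [ADat_WW]
  exact HW.of (by norm_num)

theorem WW_red (hΦ : Φ.Loc 16) {π : A →+* k} (hπ : Surjective π) {a u H : A⟦X⟧} {c : ℕ → A}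
    (h : Dat Φ π a u H c) : PowerSeries.map π (WW c) = X ^ 9 := by
  have hc : ∀ j < 8, π (c j) = 0 := fun j hj =>
    ADat_red hΦ hπ (i := 0) (Φ.le (h.mc j hj) (by omega))
  rw [ADat_WW]
  simp [hc]

/-- `W' = w1 + 2 X w2 + 3 (...)` (arguments `X^3`), with `(...)` of weight `8` -/
theorem WW_der {π : A →+* k} {a u H : A⟦X⟧} {c : ℕ → A} (h : Dat Φ π a u H c) :
    d⁄dX A (WW c) - (w1 c (X ^ 3) + 2 * X * w2 c (X ^ 3)) ∈ Φ.ps.F 24 := by
  have : HW Φ (c 3) 6 := ⟨h.mc 3 (by norm_num)⟩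
  have : HW Φ (c 4) 5 := ⟨h.mc 4 (by norm_num)⟩
  have : HW Φ (c 5) 4 := ⟨h.mc 5 (by norm_num)⟩
  have : HW Φ (c 6) 3 := ⟨h.mc 6 (by norm_num)⟩
  have : HW Φ (c 7) 2 := ⟨h.mc 7 (by norm_num)⟩
  have : HW Φ.ps (3 : A⟦X⟧) 16 := ⟨ADat_three_ps h.three⟩
  have e : d⁄dX A (WW c) - (w1 c (X ^ 3) + 2 * X * w2 c (X ^ 3)) =
      3 * (3 * X ^ 8 + 2 * C (c 7) * X ^ 6 + 2 * C (c 6) * X ^ 5 + C (c 5) * X ^ 4 +
        C (c 4) * X ^ 3 + C (c 3) * X ^ 2) := by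
    rw [ADat_d1]
    simp only [w1, w2]
    ring
  rw [e]
  exact HW.of (by norm_num)

/-- `W'' = 2 w2 + 3 (...)`, and `(w1 + 2 X w2)^2 + 2 W w2 = w1^2 - w0 w2 + 3 (...)` -/
theorem WW_P {π : A →+* k} {a u H : A⟦X⟧} {c : ℕ → A} (h : Dat Φ π a u H c) :
    d⁄dX A (WW c) ^ 2 + WW c * d⁄dX A (d⁄dX A (WW c)) + 3 ∈ Φ.ps.F 19 := by
  have : HW Φ (c 0) 9 := ⟨h.mc 0 (by norm_num)⟩
  have : HW Φ (c 1) 8 := ⟨h.mc 1 (by norm_num)⟩
  have : HW Φ (c 2) 7 := ⟨h.mc 2 (by norm_num)⟩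
  have : HW Φ (c 3) 6 := ⟨h.mc 3 (by norm_num)⟩
  have : HW Φ (c 4) 5 := ⟨h.mc 4 (by norm_num)⟩
  have : HW Φ (c 5) 4 := ⟨h.mc 5 (by norm_num)⟩
  have : HW Φ (c 6) 3 := ⟨h.mc 6 (by norm_num)⟩
  have : HW Φ (c 7) 2 := ⟨h.mc 7 (by norm_num)⟩
  have : HW Φ.ps (3 : A⟦X⟧) 16 := ⟨ADat_three_ps h.three⟩
  have : HW Φ.ps (WW c) 9 := ⟨WW_mem h⟩
  have : HW Φ.ps (w0 c (X ^ 3)) 9 := ⟨by
    rw [w0]
    exact HW.of (by norm_num)⟩
  have : HW Φ.ps (w1 c (X ^ 3)) 8 := ⟨by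
    rw [w1]
    exact HW.of (by norm_num)⟩
  have : HW Φ.ps (w2 c (X ^ 3)) 7 := ⟨by
    rw [w2]
    exact HW.of (by norm_num)⟩
  obtain ⟨δ, hδ⟩ : ∃ δ, δ = d⁄dX A (WW c) - (w1 c (X ^ 3) + 2 * X * w2 c (X ^ 3)) := ⟨_, rfl⟩
  have : HW Φ.ps δ 24 := ⟨hδ ▸ WW_der h⟩
  obtain ⟨ε, hε⟩ : ∃ ε : A⟦X⟧, ε = 24 * X ^ 7 + 14 * C (c 7) * X ^ 5 + 10 * C (c 6) * X ^ 4 +
    6 * C (c 5) * X ^ 3 + 4 * C (c 4) * X ^ 2 + 2 * C (c 3) * X := ⟨_, rfl⟩
  have e1 : d⁄dX A (WW c) = w1 c (X ^ 3) + 2 * X * w2 c (X ^ 3) + δ := by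
    rw [hδ]
    ring
  have e2 : d⁄dX A (d⁄dX A (WW c)) = 2 * w2 c (X ^ 3) + 3 * ε := by
    rw [ADat_d2, hε, w2]
    ring
  have e3 : WW c = w0 c (X ^ 3) + X * w1 c (X ^ 3) + X ^ 2 * w2 c (X ^ 3) := rfl
  have e : d⁄dX A (WW c) ^ 2 + WW c * d⁄dX A (d⁄dX A (WW c)) + 3 =
      δ * (2 * (w1 c (X ^ 3) + 2 * X * w2 c (X ^ 3)) + δ) + 3 * (WW c * ε) +
        3 * (w0 c (X ^ 3) * w2 c (X ^ 3) + 2 * X * w1 c (X ^ 3) * w2 c (X ^ 3) +
          2 * X ^ 2 * w2 c (X ^ 3) ^ 2) := by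
    rw [e2, e1]
    linear_combination h.eqP (X ^ 3) + 2 * w2 c (X ^ 3) * e3
  rw [e]
  exact HW.of (by norm_num)

end Pool.Agent.MP_deef5c_ag.E

end

section

/-! Cubic covers of the formal disc: the implicit function theorem. -/

open PowerSeries IsLocalRing Function Pool.Agent.MP_deef5c_ag.O
open scoped Polynomial

namespace Pool.Agent.MP_deef5c_ag.E

universe u

variable {D k : Type u} [CommRing D] [IsLocalRing D] [CL D]

theorem ACub_unit {R : Type u} [CommRing R] [IsLocalRing R] {u m : R} (hu : IsUnit u)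
    (hm : m ∈ maximalIdeal R) : IsUnit (u + m) := by
  by_contra h
  have h1 := sub_mem (show u + m ∈ maximalIdeal R from h) hm
  rw [add_sub_cancel_right] at h1
  exact h1 hu

theorem ACub_one {R : Type u} [CommRing R] [IsLocalRing R] {r : R} (hr : r ∈ maximalIdeal R) :
    IsUnit (1 - r ^ 2) := by
  rw [sub_eq_add_neg]
  exact ACub_unit isUnit_one (neg_mem (Ideal.pow_mem_of_mem _ hr 2 two_pos))

theorem ACub_inv [Field k] (π : D →+* k) (hπ : Surjective π) (g : D⟦X⟧)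
    (hord : order (PowerSeries.map π g) = (1 : ℕ)) :
    ∃ Ψ : En D, Ψ g = X ∧ Ψ X ∈ maximalIdeal D⟦X⟧ := by
  have hX := sub_X (Qb_mem π hπ g 1 one_pos hord)
  obtain ⟨Ψ, h1, h2⟩ := exists_inv π hπ (sub g) (by rw [hX]; exact hord)
  refine ⟨Ψ, ?_, fun hu => ?_⟩
  · conv_lhs => rw [← hX, ← AlgHom.mul_apply, h2]
    rfl
  · have h5 := hu.map (sub g)
    rw [← AlgHom.mul_apply, h1, AlgHom.one_apply, PowerSeries.isUnit_iff_constantCoeff,
      constantCoeff_X] at h5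
    exact not_isUnit_zero h5

/-- By `ch_poly` the form is `e₀ + ξ * (...)` with `e₀ = -T (1 - r^2)`.  All differences `φ f - ψ f` are
multiples of `d = φ X - ψ X` (`sub_dvd`), and `φ e₀ - ψ e₀ = d * unit`: write `T = X * T₁ + C T₀`
(`eq_X_mul_shift_add_const`) with `T₁` a unit, so `φ T - ψ T = d * φ T₁ + ψ X * (φ T₁ - ψ T₁)`.
Hence `d * (unit + element of the maximal ideal) = 0`; finish with `en_ext`. -/
theorem cub_uniq {q r w T ξ : D⟦X⟧} (hr : constantCoeff r ∈ maximalIdeal D)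
    (hT : constantCoeff T ∈ maximalIdeal D) (hT1 : IsUnit (coeff 1 T)) {φ ψ : En D}
    (hφ : constantCoeff (φ X) ∈ maximalIdeal D) (hψ : constantCoeff (ψ X) ∈ maximalIdeal D)
    (hξ : constantCoeff ξ ∈ maximalIdeal D) (h1 : ch (φ q) (φ r) (φ w) (φ T) ξ 1 = 0)
    (h2 : ch (ψ q) (ψ r) (ψ w) (ψ T) ξ 1 = 0) : φ = ψ := by
  obtain ⟨T₁, hT₁⟩ : ∃ T₁ : D⟦X⟧, T₁ = PowerSeries.mk fun p => coeff (p + 1) T := ⟨_, rfl⟩
  have hu : IsUnit T₁ := by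
    rw [PowerSeries.isUnit_iff_constantCoeff, ← coeff_zero_eq_constantCoeff_apply, hT₁, coeff_mk]
    exact hT1
  have eT : T = X * T₁ + C (constantCoeff T) := hT₁ ▸ eq_X_mul_shift_add_const T
  have e1 : φ T = φ X * φ T₁ + C (constantCoeff T) := by
    conv_lhs => rw [eT, map_add, map_mul, Base_en_C]
  have e2 : ψ T = ψ X * ψ T₁ + C (constantCoeff T) := by
    conv_lhs => rw [eT, map_add, map_mul, Base_en_C]
  obtain ⟨e, he⟩ := sub_dvd φ ψ hφ hψ T₁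
  obtain ⟨α, hα⟩ := sub_dvd φ ψ hφ hψ (1 - r ^ 2)
  obtain ⟨β, hβ⟩ := sub_dvd φ ψ hφ hψ (T * w ^ 2 - 2 * r * q)
  obtain ⟨γ, hγ⟩ := sub_dvd φ ψ hφ hψ (2 * r * w * T - q ^ 2)
  have hA : IsUnit (φ (1 - r ^ 2)) := (ACub_one ((mem_max_iff r).2 hr)).map φ
  have ht : IsUnit (φ T₁ + ψ X * e) :=
    ACub_unit (hu.map φ) (Ideal.mul_mem_right _ _ ((mem_max_iff _).2 hψ))
  have hm : ψ T * α - ξ * (α * ξ ^ 2 + β * ξ + γ) ∈ maximalIdeal D⟦X⟧ :=
    sub_mem (Ideal.mul_mem_right _ _ ((mem_max_iff _).2 (en_mem ψ hψ hT)))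
      (Ideal.mul_mem_right _ _ ((mem_max_iff _).2 hξ))
  have hU := ACub_unit (ht.mul hA) hm
  have e3 : φ T - ψ T = (φ X - ψ X) * (φ T₁ + ψ X * e) := by
    rw [e1, e2]
    linear_combination ψ X * he
  rw [ch_poly] at h1 h2
  simp only [map_sub, map_mul, map_pow, map_one, map_ofNat] at hα hβ hγ hU
  refine en_ext (sub_eq_zero.1 ((hU.mul_left_eq_zero).1 ?_)) hφ
  linear_combination h2 - h1 + ξ ^ 3 * hα + ξ ^ 2 * hβ + ξ * hγ - ψ T * hα -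
    (1 - φ r ^ 2) * e3

/-- Work over `D' = D⟦X⟧` (`CL.powerSeries`) with residue map `residue D ∘ constantCoeff`.  Let
`ι = PowerSeries.map C : D⟦Y⟧ → D'⟦Y⟧` and `g = ch (ι q) (ι r) (ι w) (ι T) (C X) 1`; its reduction is
`-T (1 - r^2)`, of order one, so `sub g` has an inverse `Ψ` (`exists_inv`), `Ψ g = Y`.  Take
`φ = constantCoeff ∘ Ψ ∘ ι`.  (If `φ X` were a unit then `Ψ Y` would be a unit, hence `Y = sub g (Ψ Y)`
... more simply `Ψ Y` unit gives `sub g (Ψ Y) = Y` unit.) -/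
theorem cub_ex {q r w T : D⟦X⟧} (hr : constantCoeff r ∈ maximalIdeal D)
    (hT : constantCoeff T ∈ maximalIdeal D) (hT1 : IsUnit (coeff 1 T)) :
    ∃ φ : En D, constantCoeff (φ X) ∈ maximalIdeal D ∧ ch (φ q) (φ r) (φ w) (φ T) X 1 = 0 := by
  let π : D⟦X⟧ →+* ResidueField D := (residue D).comp constantCoeff
  have hπ : Surjective π := fun y => by
    obtain ⟨a, rfl⟩ := residue_surjective y
    exact ⟨C a, by simp [π]⟩
  let ι : D⟦X⟧ →+* D⟦X⟧⟦X⟧ := PowerSeries.map (C : D →+* D⟦X⟧)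
  have hι : ∀ f, PowerSeries.map π (ι f) = PowerSeries.map (residue D) f := fun f => by
    ext n
    simp [π, ι]
  obtain ⟨g, hg⟩ : ∃ g, g = ch (ι q) (ι r) (ι w) (ι T) (C X) 1 := ⟨_, rfl⟩
  have hord : order (PowerSeries.map π g) = (1 : ℕ) := by
    have h0 : π X = 0 := by simp [π]
    have h1 : order (PowerSeries.map (residue D) T) = (1 : ℕ) := by
      refine order_eq_nat.2 ⟨?_, fun i hi => ?_⟩
      · rw [coeff_map]
        exact (hT1.map _).ne_zero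
      · rw [Nat.lt_one_iff.1 hi, coeff_map, coeff_zero_eq_constantCoeff_apply, residue_eq_zero_iff]
        exact hT
    have h2 := order_zero_of_unit ((ACub_one ((mem_max_iff r).2 hr)).map
      (PowerSeries.map (residue D)))
    rw [map_sub, map_pow, map_one] at h2
    rw [hg, map_ch, hι, hι, hι, hι, map_C, h0, map_zero, map_one, ch_poly]
    simp only [ne_eq, OfNat.ofNat_ne_zero, not_false_eq_true, zero_pow, mul_zero, zero_add]
    rw [order_neg, order_mul, h1, h2, add_zero]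
  obtain ⟨Ψ, h3, h4⟩ := ACub_inv π hπ g hord
  let χ : D⟦X⟧⟦X⟧ →+* D⟦X⟧ := (constantCoeff (R := D⟦X⟧)).comp (Ψ : D⟦X⟧⟦X⟧ →+* D⟦X⟧⟦X⟧)
  have hχ : ∀ a, χ (C a) = a := fun a => by
    change constantCoeff (Ψ (C a)) = a
    rw [Base_en_C, constantCoeff_C]
  let φ : En D :=
    { χ.comp ι with
      commutes' := fun a => by
        change χ (PowerSeries.map C (C a)) = C a
        rw [map_C, hχ] }
  have hφ : ∀ f, φ f = χ (ι f) := fun _ => rfl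
  refine ⟨φ, ?_, ?_⟩
  · rw [hφ, show ι X = X from map_X _, ← mem_max_iff]
    exact (mem_max_iff _).1 h4
  · have h5 : χ g = 0 := by
      change constantCoeff (Ψ g) = 0
      rw [h3, constantCoeff_X]
    rw [hg, map_ch, hχ, map_one] at h5
    exact h5

end Pool.Agent.MP_deef5c_ag.E

end

section

/-! The lift on the intermediate curve. -/

open PowerSeries IsLocalRing Function Pool.Agent.MP_deef5c_ag.O
open scoped Polynomial

namespace Pool.Agent.MP_deef5c_ag.E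

universe u

variable {A k : Type u} [CommRing A] [IsLocalRing A] [IsArtinianRing A] [Field k] [CharP k 3]
  {Φ : MF A}

omit [IsLocalRing A] [IsArtinianRing A] in
theorem ASlv_en (σ : En A) (c : ℕ → A) (y : A⟦X⟧) :
    σ (w0 c y) = w0 c (σ y) ∧ σ (-w1 c y) = -w1 c (σ y) ∧ σ (w2 c y) = w2 c (σ y) := by
  simp [w0, w1, w2, Base_en_C]

omit [IsArtinianRing A] in
theorem ASlv_unit (hΦ : Φ.Loc 16) {f : A⟦X⟧} (hf : f ∈ Φ.ps.F 1) : ∃ g, (1 - f) * g = 1 :=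
  (isUnit_one_sub_self_of_mem_nonunits f
    ((mem_max_iff f).2 ((mem_one_iff hΦ).1 hf))).exists_right_inv

omit [IsLocalRing A] [IsArtinianRing A] in
theorem ASlv_wt {c : ℕ → A} (hc : ∀ j < 8, c j ∈ Φ.F (9 - j)) {x : A⟦X⟧} {n : ℕ} (hn : n ≤ 3)
    (hx : x ∈ Φ.ps.F n) :
    w0 c x ∈ Φ.ps.F (3 * n) ∧ w1 c x ∈ Φ.ps.F (2 * n + 2) ∧ w2 c x ∈ Φ.ps.F (n + 4) := by
  have : HW Φ (c 0) 9 := ⟨hc 0 (by norm_num)⟩
  have : HW Φ (c 1) 8 := ⟨hc 1 (by norm_num)⟩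
  have : HW Φ (c 2) 7 := ⟨hc 2 (by norm_num)⟩
  have : HW Φ (c 3) 6 := ⟨hc 3 (by norm_num)⟩
  have : HW Φ (c 4) 5 := ⟨hc 4 (by norm_num)⟩
  have : HW Φ (c 5) 4 := ⟨hc 5 (by norm_num)⟩
  have : HW Φ (c 6) 3 := ⟨hc 6 (by norm_num)⟩
  have : HW Φ (c 7) 2 := ⟨hc 7 (by norm_num)⟩
  have : HW Φ.ps x n := ⟨hx⟩
  unfold w0 w1 w2
  exact ⟨HW.of (by omega), HW.of (by omega), HW.of (by omega)⟩

omit [IsLocalRing A] [IsArtinianRing A] in
theorem ASlv_dif {c : ℕ → A} (hc : ∀ j < 8, c j ∈ Φ.F (9 - j)) {x y : A⟦X⟧}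
    (hx : x ∈ Φ.ps.F 3) (hy : y ∈ Φ.ps.F 3) (hd : x - y ∈ Φ.ps.F 19) :
    w0 c x - w0 c y ∈ Φ.ps.F 25 ∧ w1 c x - w1 c y ∈ Φ.ps.F 24 ∧ w2 c x - w2 c y ∈ Φ.ps.F 23 := by
  have : HW Φ (c 3) 6 := ⟨hc 3 (by norm_num)⟩
  have : HW Φ (c 4) 5 := ⟨hc 4 (by norm_num)⟩
  have : HW Φ (c 5) 4 := ⟨hc 5 (by norm_num)⟩
  have : HW Φ (c 6) 3 := ⟨hc 6 (by norm_num)⟩
  have : HW Φ (c 7) 2 := ⟨hc 7 (by norm_num)⟩
  have e0 : w0 c x - w0 c y =
      (x - y) * (x ^ 2 + x * y + y ^ 2 + C (c 6) * (x + y) + C (c 3)) := by unfold w0; ring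
  have e1 : w1 c x - w1 c y = (x - y) * (C (c 7) * (x + y) + C (c 4)) := by unfold w1; ring
  have e2 : w2 c x - w2 c y = (x - y) * C (c 5) := by unfold w2; ring
  rw [e0, e1, e2]
  generalize x - y = d at hd
  have : HW Φ.ps x 3 := ⟨hx⟩
  have : HW Φ.ps y 3 := ⟨hy⟩
  have : HW Φ.ps d 19 := ⟨hd⟩
  exact ⟨HW.of (by norm_num), HW.of (by norm_num), HW.of (by norm_num)⟩

omit [IsArtinianRing A] in
theorem ASlv_mx (hΦ : Φ.Loc 16) {c : ℕ → A} (hc : ∀ j < 8, c j ∈ Φ.F (9 - j)) {x : A⟦X⟧}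
    (hx : x ∈ Φ.ps.F 1) (E : ch (w0 c x) (-w1 c x) (w2 c x) x X 1 = 0) :
    x ∈ Φ.ps.F 3 ∧ x - X ^ 3 ∈ Φ.ps.F 19 := by
  have h3 : x ∈ Φ.ps.F 3 := by
    obtain ⟨h0, h1, h2⟩ := ASlv_wt hc (by norm_num) hx
    generalize w0 c x = q at *
    generalize w1 c x = r at *
    generalize w2 c x = w at *
    have : HW Φ.ps q 3 := ⟨h0⟩
    have : HW Φ.ps r 4 := ⟨h1⟩
    have : HW Φ.ps w 5 := ⟨h2⟩
    obtain ⟨g, hg⟩ := ASlv_unit hΦ (f := (w * X - r) ^ 2) (HW.of (by norm_num))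
    have e : x = X * ((1 - r) * X + q) * ((1 + r) * X - q) * g := by
      unfold ch Qf at E
      linear_combination (-x) * hg - g * E
    rw [e]
    exact HW.of (by norm_num)
  refine ⟨h3, ?_⟩
  obtain ⟨h0, h1, h2⟩ := ASlv_wt hc le_rfl h3
  generalize w0 c x = q at *
  generalize w1 c x = r at *
  generalize w2 c x = w at *
  have e : x - X ^ 3 = x * (w * X - r) ^ 2 - X * (q - r * X) ^ 2 := by
    unfold ch Qf at E
    linear_combination -E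
  have : HW Φ.ps q 9 := ⟨h0⟩
  have : HW Φ.ps r 8 := ⟨h1⟩
  have : HW Φ.ps w 7 := ⟨h2⟩
  have : HW Φ.ps x 3 := ⟨h3⟩
  rw [e]
  exact HW.of (by norm_num)

omit [IsArtinianRing A] [CharP k 3] in
theorem ASlv_ms {π : A →+* k} {a u H : A⟦X⟧} {c : ℕ → A} (h : Dat Φ π a u H c) {x g : A⟦X⟧}
    (hx : x ∈ Φ.ps.F 3) (hd : x - X ^ 3 ∈ Φ.ps.F 19)
    (hg : (1 - (-w1 c x + w2 c x * X)) * g = 1) :
    g * ((1 + -w1 c x) * X + w0 c x * 1) - X - (WW c - WW c * d⁄dX A (WW c)) ∈ Φ.ps.F 25 := by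
  have hy : (X : A⟦X⟧) ^ 3 ∈ Φ.ps.F 3 := HW.of (by norm_num)
  obtain ⟨d0, d1, d2⟩ := ASlv_dif h.mc hx hy hd
  obtain ⟨-, h1, h2⟩ := ASlv_wt h.mc le_rfl hx
  have d3 := WW_der h
  have hW := WW_mem h
  have h3 : (3 : A⟦X⟧) ∈ Φ.ps.F 16 := by
    rw [← map_ofNat (C : A →+* A⟦X⟧) 3]
    exact Φ.C_mem h.three
  have eW : WW c = w0 c (X ^ 3) + X * w1 c (X ^ 3) + X ^ 2 * w2 c (X ^ 3) := rfl
  generalize d⁄dX A (WW c) = W' at *
  generalize WW c = W at *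
  generalize w0 c x = q at *
  generalize w1 c x = r at *
  generalize w2 c x = w at *
  generalize w0 c (X ^ 3) = q' at *
  generalize w1 c (X ^ 3) = r' at *
  generalize w2 c (X ^ 3) = w' at *
  obtain ⟨e0, rfl⟩ : ∃ e, q' = q - e := ⟨q - q', by ring⟩
  obtain ⟨e1, rfl⟩ : ∃ e, r' = r - e := ⟨r - r', by ring⟩
  obtain ⟨e2, rfl⟩ : ∃ e, w' = w - e := ⟨w - w', by ring⟩
  obtain ⟨e3, rfl⟩ : ∃ e, W' = e + (r - e1 + 2 * X * (w - e2)) := ⟨_, (sub_add_cancel _ _).symm⟩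
  rw [sub_sub_cancel] at d0 d1 d2
  rw [add_sub_cancel_right] at d3
  have e : g * ((1 + -r) * X + q * 1) - X - (W - W * (e3 + (r - e1 + 2 * X * (w - e2)))) =
      (e0 + X * e1 + X ^ 2 * e2 - 3 * X * r) * g + W * (w * X - r) ^ 2 * g +
        W * (e3 - e1 - 2 * (X * e2) + 3 * X * w) := by
    linear_combination (X + W * (1 + w * X - r)) * hg - g * eW
  have : HW Φ.ps r 8 := ⟨h1⟩
  have : HW Φ.ps w 7 := ⟨h2⟩
  have : HW Φ.ps e0 25 := ⟨d0⟩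
  have : HW Φ.ps e1 24 := ⟨d1⟩
  have : HW Φ.ps e2 23 := ⟨d2⟩
  have : HW Φ.ps e3 24 := ⟨d3⟩
  have : HW Φ.ps W 9 := ⟨hW⟩
  have : HW Φ.ps (3 : A⟦X⟧) 16 := ⟨h3⟩
  rw [e]
  exact HW.of (by norm_num)

/-- Apply `cub_ex` to `q = w0 c X`, `r = - w1 c X`, `w = w2 c X`, `T = X`: get `φ`, `x = φ X`, and
`φ (w0 c X) = w0 c x` etc.; `r^2 - q w = -3` is `eqP`.  Write again `q, r, w` for the values at `x`.  Let
`v = 1 - r - w X` (a unit), `μ = ((1 + r) X + q) v⁻¹`, `σ = sub μ`.  By `mob`, `ch_smul`, `μ` is a root of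
`ch q r w x · 1`; apply `σ` to the equation of `X` (`map_ch`) and use `cub_uniq`: `σ * φ = φ`.  Reductions:
`r, w ↦ 0`, `q ↦ xb^3` with `xb ≠ 0`.  `σ^3 X` is a root with reduction `X + 3 xb^3 = X` (`map_en` with
`sub (X + xb^3)`), so `ch_uniq`, `en_ext` give `σ^3 = 1`.  Weights: `x` has weight `1`, so `q` has weight
`3`, so `x (1 - (w X + r)^2) = X ((1 + r) X + q) ((1 - r) X - q)` gives weight `3` for `x`; then `q, r, w` have
weights `9, 8, 7`, `x - X^3` has weight `19`, `wi c x - wi c (X^3)` has weight `25 - i`.  Finally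
`(μ - X) v = q + 2 r X + w X^2 ≡ W` modulo weight `25` (`3 X w1` has weight `25`) and
`1 - v = r + w X ≡ - W'` modulo weight `23` (`WW_der`). -/
theorem slv (hΦ : Φ.Loc 16) (π : A →+* k) (hπ : Surjective π) {a u H : A⟦X⟧} {c : ℕ → A}
    (h : Dat Φ π a u H c) : ∃ x σ, SLv Φ π (WW c) x σ := by
  have hc : ∀ j < 8, c j ∈ maximalIdeal A := fun j hj => hΦ.one ▸ Φ.le (h.mc j hj) (by omega)
  have hc' : ∀ j < 8, π (c j) = 0 := fun j hj => (pi_eq_zero_iff π hπ _).2 (hc j hj)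
  have hr₀ : constantCoeff (-w1 c X) ∈ maximalIdeal A := by simpa [w1] using hc 1 (by norm_num)
  have hT : constantCoeff (X : A⟦X⟧) ∈ maximalIdeal A := by simp
  have hT1 : IsUnit (coeff 1 (X : A⟦X⟧)) := by simp
  obtain ⟨φ, hx0, E₀⟩ := cub_ex (q := w0 c X) (w := w2 c X) hr₀ hT hT1
  have E := E₀
  rw [(ASlv_en φ c X).1, (ASlv_en φ c X).2.1, (ASlv_en φ c X).2.2] at E
  generalize hx : φ X = x at E
  have hx1 : constantCoeff x ∈ maximalIdeal A := hx ▸ hx0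
  obtain ⟨h3, h19⟩ := ASlv_mx hΦ h.mc ((mem_one_iff hΦ).2 hx1) E
  obtain ⟨m0, m1, m2⟩ := ASlv_wt h.mc le_rfl h3
  have : HW Φ.ps (w0 c x) 9 := ⟨m0⟩
  have : HW Φ.ps (w1 c x) 8 := ⟨m1⟩
  have : HW Φ.ps (w2 c x) 7 := ⟨m2⟩
  obtain ⟨g, hg⟩ := ASlv_unit hΦ (f := -w1 c x + w2 c x * X) (HW.of (by norm_num))
  have hms := ASlv_ms h h3 h19 hg
  have hμ0 : constantCoeff (g * ((1 + -w1 c x) * X + w0 c x * 1)) ∈ maximalIdeal A :=
    (mem_one_iff hΦ).1 (HW.of (by norm_num))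
  have hroot : ch (w0 c x) (-w1 c x) (w2 c x) x (g * ((1 + -w1 c x) * X + w0 c x * 1)) 1 = 0 := by
    have h1 := ch_smul (w0 c x) (-w1 c x) (w2 c x) x ((1 + -w1 c x) * X + w0 c x * 1)
      ((1 - -w1 c x) * 1 - w2 c x * X) g
    rw [mob (by rw [neg_sq]; exact h.eqP x), E, mul_zero, mul_zero,
      show g * ((1 - -w1 c x) * 1 - w2 c x * X) = 1 by linear_combination hg] at h1
    exact h1
  have r0 : PowerSeries.map π (w0 c x) = PowerSeries.map π x ^ 3 := by simp [w0, hc']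
  have r1 : PowerSeries.map π (-w1 c x) = 0 := by simp [w1, hc']
  have r2 : PowerSeries.map π (w2 c x) = 0 := by simp [w2, hc']
  have rg : PowerSeries.map π g = 1 := by
    have h1 := congrArg (PowerSeries.map π) hg
    rwa [map_mul, map_sub, map_add, map_mul, r1, r2, map_one, zero_mul, add_zero, sub_zero,
      one_mul] at h1
  have rμ : PowerSeries.map π (g * ((1 + -w1 c x) * X + w0 c x * 1)) =
      X + PowerSeries.map π x ^ 3 := by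
    rw [map_mul, rg, map_add, map_mul, map_add, map_mul, r0, r1, map_one, map_X]
    ring
  have rx : X ^ 3 - PowerSeries.map π x ^ 6 * X = PowerSeries.map π x := by
    have h1 := congrArg (PowerSeries.map π) E
    rw [map_ch, r0, r1, r2, map_X, map_one, map_zero] at h1
    unfold ch Qf at h1
    linear_combination h1
  generalize g * ((1 + -w1 c x) * X + w0 c x * 1) = μ at hms hμ0 hroot rμ
  have hσ : sub μ X = μ := sub_X hμ0
  generalize sub μ = σ at hσ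
  subst hσ
  have sx : σ x = x := by
    have h1 := congrArg σ E₀
    rw [map_ch, map_one, map_zero] at h1
    have h2 : σ * φ = φ := by
      refine cub_uniq hr₀ hT hT1 (en_mem σ hμ0 hx0) hx0 hμ0 h1 ?_
      rw [(ASlv_en φ c X).1, (ASlv_en φ c X).2.1, (ASlv_en φ c X).2.2, hx]
      exact hroot
    rw [← hx]
    exact DFunLike.congr_fun h2 X
  have step : ∀ ξ, ch (w0 c x) (-w1 c x) (w2 c x) x ξ 1 = 0 →
      ch (w0 c x) (-w1 c x) (w2 c x) x (σ ξ) 1 = 0 := fun ξ hξ => by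
    have h1 := congrArg σ hξ
    rwa [map_ch, map_one, map_zero, (ASlv_en σ c x).1, (ASlv_en σ c x).2.1, (ASlv_en σ c x).2.2,
      sx] at h1
  have hb0 : constantCoeff (X + PowerSeries.map π x ^ 3) ∈ maximalIdeal k := by
    have h1 : constantCoeff (PowerSeries.map π x) = 0 := (pi_eq_zero_iff π hπ _).2 hx1
    simp [h1]
  have hb := sub_X hb0
  have hen := map_en π σ (sub (X + PowerSeries.map π x ^ 3)) (rμ.trans hb.symm) (hb.symm ▸ hb0)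
  have hbx := hen x
  rw [sx] at hbx
  have s3 : σ (σ (σ X)) = X := by
    refine ch_uniq π hπ ?_ r1 r2 (step _ (step _ hroot)) E ?_
    · rw [r0]
      refine pow_ne_zero _ fun h0 => ?_
      rw [h0] at rx
      simp at rx
    · have h1 : (3 : k⟦X⟧) = 0 := by
        rw [← map_ofNat (C : k →+* k⟦X⟧) 3, show (OfNat.ofNat 3 : k) = 0 from CharP.cast_eq_zero k 3,
          map_zero]
      rw [hen, hen, rμ, map_add, hb, map_pow, ← hbx, map_add, map_add, hb, map_pow, ← hbx, map_X]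
      linear_combination PowerSeries.map π x ^ 3 * h1
  refine ⟨x, σ, hx1, hμ0, rx, rμ, sx, (en_ext ?_ hT).symm, h19, hms⟩
  rw [pow_succ, pow_two]
  exact s3.symm

end Pool.Agent.MP_deef5c_ag.E

end

section

/-! The top curve and the lift of the first generator. -/

open PowerSeries IsLocalRing Function Pool.Agent.MP_deef5c_ag.O
open scoped Polynomial

namespace Pool.Agent.MP_deef5c_ag.E

universe u

variable {A k : Type u} [CommRing A] [IsLocalRing A] [IsArtinianRing A] [Field k] [CharP k 3]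
  {Φ : MF A}

theorem TT_unit (π : A →+* k) (hπ : Surjective π) {x : A⟦X⟧}
    (hx : constantCoeff x ∈ maximalIdeal A) :
    constantCoeff (TT x X) ∈ maximalIdeal A ∧ IsUnit (coeff 1 (TT x X)) := by
  have e : TT x X = X * ((1 + x ^ 15 * X ^ 3) * (1 + X - x - X ^ 3)) := by rw [TT, mul_assoc]
  rw [e]
  refine ⟨by simp, ?_⟩
  rw [coeff_succ_X_mul, coeff_zero_eq_constantCoeff_apply]
  simpa using isUnit_one_sub_self_of_mem_nonunits _ hx

theorem ATopA_unit {R : Type*} [CommRing R] [IsLocalRing R] {f : R} (hf : f ∈ maximalIdeal R) :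
    IsUnit (1 + f) := by
  simpa using isUnit_one_sub_self_of_mem_nonunits _ (neg_mem hf)

/-- `Sg` from `cub_ex`; `τ = sub (((1 + r) X + a) / (1 - r - w X))` (images under `Sg`), and `τ * Sg = Sg` by
`mob`, `ch_smul`, `cub_uniq`.  Weights: `Sg X` has weight `1` for `Φ.tri` (`mem_one_iff`, `Loc.tri`), so
`Sg a` has weight `3` (`en_mem31`); `TT (Sg x) (Sg X) = Sg X * unit`, and
`T (1 - (w X + r)^2) = X ((1 + r) X + a) ((1 - r) X - a)` has weight `3`.  The reduced equation is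
`X^3 - s^6 X = TT xb s`, with `X^3 ∣ s` (`dvd_red`), and `xb = s^3 - xb^6 s` (apply the reduction `sub s` of
`Sg` to `rx`, `map_en`) is divisible by `X^4`; so `s ≡ X^3` modulo `X^4`. -/
theorem top_a (hΦ : Φ.Loc 16) (π : A →+* k) (hπ : Surjective π) {W x : A⟦X⟧} {σ : En A}
    (S : SLv Φ π W x σ) {c : k} {a r w β ρ ω : A⟦X⟧} (h : DL Φ π c x σ a r w β ρ ω) :
    ∃ Sg τ : En A, constantCoeff (Sg X) ∈ maximalIdeal A ∧ constantCoeff (τ X) ∈ maximalIdeal A ∧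
      ch (Sg a) (Sg r) (Sg w) (Sg (TT x X)) X 1 = 0 ∧ τ * Sg = Sg ∧
      PowerSeries.map π (τ X) = X + PowerSeries.map π (Sg X) ^ 3 ∧ Sg X ∈ Φ.tri.ps.F 3 ∧
      X ^ 4 ∣ PowerSeries.map π (Sg X) - X ^ 3 := by
  have m1 : ∀ {n : ℕ} {f : A⟦X⟧}, f ∈ Φ.ps.F (n + 1) → constantCoeff f ∈ maximalIdeal A :=
    fun hf => (mem_one_iff hΦ).1 (Φ.ps.le hf (by omega))
  obtain ⟨hT, hT1⟩ := TT_unit π hπ S.x0
  obtain ⟨Sg, hs, hc⟩ := cub_ex (q := a) (w := w) (m1 h.mr) hT hT1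
  have hX : (X : A⟦X⟧) ∈ maximalIdeal A⟦X⟧ := (mem_max_iff _).2 (by simp)
  have ms : Sg X ∈ maximalIdeal A⟦X⟧ := (mem_max_iff _).2 hs
  have mx : Sg x ∈ maximalIdeal A⟦X⟧ := (mem_max_iff _).2 (en_mem Sg hs S.x0)
  have ma : Sg a ∈ maximalIdeal A⟦X⟧ := (mem_max_iff _).2 (en_mem Sg hs (m1 h.ma))
  have mr : Sg r ∈ maximalIdeal A⟦X⟧ := (mem_max_iff _).2 (en_mem Sg hs (m1 h.mr))
  have mt : Sg w * X + Sg r ∈ maximalIdeal A⟦X⟧ := add_mem (Ideal.mul_mem_left _ _ hX) mr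
  have rel : Sg r ^ 2 - Sg a * Sg w = -3 := by
    have := congrArg Sg h.rel
    rwa [map_sub, map_pow, map_mul, map_neg, map_ofNat] at this
  obtain ⟨v, hv⟩ := (ATopA_unit (neg_mem mt)).exists_right_inv
  obtain ⟨ξ, hξ⟩ : ∃ ξ, ξ = ((1 + Sg r) * X + Sg a) * v := ⟨_, rfl⟩
  have e1 : (1 + -(Sg w * X + Sg r)) * ξ = (1 + Sg r) * X + Sg a * 1 := by
    linear_combination (1 + -(Sg w * X + Sg r)) * hξ + ((1 + Sg r) * X + Sg a) * hv
  have mξ : constantCoeff ξ ∈ maximalIdeal A := (mem_max_iff _).1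
    (hξ ▸ Ideal.mul_mem_right _ _ (add_mem (Ideal.mul_mem_left _ _ hX) ma))
  have hτ : sub ξ X = ξ := sub_X mξ
  have c2 : ch (Sg a) (Sg r) (Sg w) (Sg (TT x X)) ξ 1 = 0 := by
    have e2 := mob rel (Sg (TT x X)) X 1
    have e3 : (1 - Sg r) * 1 - Sg w * X = (1 + -(Sg w * X + Sg r)) * 1 := by ring
    rw [hc, mul_zero, ← e1, e3, ch_smul] at e2
    exact ((ATopA_unit (neg_mem mt)).pow 3).mul_right_eq_zero.1 e2
  have c1 := congrArg (sub ξ) hc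
  rw [map_ch, hτ, map_one, map_zero] at c1
  have hb0 : constantCoeff (PowerSeries.map π (Sg X)) ∈ maximalIdeal k := by
    rw [← coeff_zero_eq_constantCoeff_apply, coeff_map, coeff_zero_eq_constantCoeff_apply,
      (pi_eq_zero_iff π hπ _).2 hs]
    exact zero_mem _
  have hb := sub_X hb0
  have red := map_en π Sg (sub (PowerSeries.map π (Sg X))) hb.symm (hb.symm ▸ hb0)
  have ra : PowerSeries.map π (Sg a) = PowerSeries.map π (Sg X) ^ 3 := by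
    rw [red a, h.ra, map_pow, hb]
  have rr : PowerSeries.map π (Sg r) = 0 := by rw [red r, h.rr, map_zero]
  have rw' : PowerSeries.map π (Sg w) = 0 := by rw [red w, h.rw', map_zero]
  have w3 : Sg X ∈ Φ.tri.ps.F 3 := by
    have w1 : Sg X ∈ Φ.tri.ps.F 1 := (mem_one_iff hΦ.tri).2 hs
    have : HW Φ.tri.ps (Sg a) 3 := ⟨en_mem31 Sg w1 h.ma⟩
    have u1 := ATopA_unit (Ideal.mul_mem_left _ (Sg x ^ 15) (Ideal.pow_mem_of_mem _ ms 3 three_pos))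
    have u2 := ATopA_unit (sub_mem (sub_mem ms mx) (Ideal.pow_mem_of_mem _ ms 3 three_pos))
    have u3 := ATopA_unit (neg_mem (Ideal.pow_mem_of_mem _ mt 2 two_pos))
    refine (Ideal.mul_unit_mem_iff_mem _ ((u1.mul u2).mul u3)).1 ?_
    have e4 : Sg X * ((1 + Sg x ^ 15 * Sg X ^ 3) * (1 + (Sg X - Sg x - Sg X ^ 3)) *
        (1 + -(Sg w * X + Sg r) ^ 2)) = X ^ 3 - X * (Sg r * X + Sg a) ^ 2 := by
      rw [map_TT] at hc
      simp only [ch, Qf, TT] at hc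
      linear_combination -hc
    rw [e4]
    exact HW.of (by norm_num)
  refine ⟨Sg, sub ξ, hs, hτ.symm ▸ mξ, hc, ?_, ?_, w3, ?_⟩
  · exact cub_uniq (m1 h.mr) hT hT1 (en_mem (sub ξ) (hτ.symm ▸ mξ) hs) hs mξ c1 c2
  · have e5 := congrArg (PowerSeries.map π) e1
    simpa [hτ, ra, rr, rw'] using e5
  · have e6 := congrArg (PowerSeries.map π) hc
    rw [map_TT, map_ch, map_TT, ra, rr, rw', map_X, map_one, map_zero] at e6
    have e7 := congrArg (sub (PowerSeries.map π (Sg X))) S.rx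
    rw [map_sub, map_mul, map_pow, map_pow, hb, ← red] at e7
    have d3 := dvd_red hΦ.tri π hπ w3
    generalize PowerSeries.map π (Sg X) = s at e6 e7 d3 ⊢
    generalize PowerSeries.map π (Sg x) = y at e6 e7
    simp only [ch, Qf, TT] at e6
    have e8 : s - X ^ 3 = s ^ 2 * (-(X * s ^ 4) - y ^ 15 * s ^ 2 * (1 + s - y - s ^ 3) - 1 + s ^ 2
        + (s ^ 2 - y ^ 6)) := by linear_combination -e6 - s * e7
    rw [e8]
    refine Dvd.dvd.mul_right ?_ _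
    have d6 := pow_dvd_pow_of_dvd d3 2
    rw [← pow_mul] at d6
    exact (pow_dvd_pow _ (by norm_num)).trans d6

end Pool.Agent.MP_deef5c_ag.E

end
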