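import Pool.Agent.Mg.Fdeef5c.G30175f
import Pool.Agent.Mg.Fdeef5c.G739345
import Pool.Agent.MP_deef5c_ag.E.PDef
import Pool.Agent.Mg.Fdeef5c.Gbe004d

section

/-! Definitions for the construction of the curve. -/

open CategoryTheory AlgebraicGeometry IsLocalRing Function Pool.Agent.MP_deef5c_ag.O
open scoped Polynomial PowerSeries

namespace Pool.Agent.MP_deef5c_ag.E

universe u

variable {k : Type u} [Field k]

/-- the relations of the first chart -/
def R1 {B : Type u} [CommRing B] (c w y₁ y₂ : B) : Prop :=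
  y₂ ^ 3 - y₂ = w ^ 8 ∧ y₁ ^ 3 - y₁ = c ^ 3 * w ^ 8 + w ^ 7

/-- the relations of the second chart -/
def R2 {B : Type u} [CommRing B] (x s t : B) : Prop :=
  s ^ 3 - x ^ 6 * s = x ∧ t ^ 3 - s ^ 6 * t = TT x s

/-- presentation of the first chart -/
structure P1 (c : k) {B : Type u} [CommRing B] [Algebra k B] (w y₁ y₂ : B) : Prop where
  rel : R1 (algebraMap k B c) w y₁ y₂
  gen : Algebra.adjoin k {w, y₁, y₂} = ⊤
  univ : ∀ (R : Type u) [CommRing R] [Algebra k R] (w' y₁' y₂' : R), R1 (algebraMap k R c) w' y₁' y₂' →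
    ∃ φ : B →ₐ[k] R, φ w = w' ∧ φ y₁ = y₁' ∧ φ y₂ = y₂'

/-- presentation of the second chart -/
structure P2 (k : Type u) [Field k] {B : Type u} [CommRing B] [Algebra k B] (x s t : B) : Prop where
  rel : R2 x s t
  gen : Algebra.adjoin k {x, s, t} = ⊤
  univ : ∀ (R : Type u) [CommRing R] [Algebra k R] (x' s' t' : R), R2 x' s' t' →
    ∃ φ : B →ₐ[k] R, φ x = x' ∧ φ s = s' ∧ φ t = t'

/-- the Jacobian with respect to `x`, `s` in characteristic three -/
def JJ {B : Type u} [CommRing B] (x s : B) : B := (1 + x ^ 15 * s ^ 3) * (1 - s + x)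

/-- two affine charts, integral over `k[w]` and `k[x]`, with `w x = 1` on the overlap `L` -/
structure TC (k : Type u) [Field k] {B₁ B₂ : Type u} (L : Type u) [CommRing B₁] [CommRing B₂]
    [CommRing L] [Algebra k B₁] [Algebra k B₂] [Algebra k L] [Algebra B₁ L] [Algebra B₂ L]
    (w : B₁) (x : B₂) : Prop where
  t1 : IsScalarTower k B₁ L
  t2 : IsScalarTower k B₂ L
  l1 : IsLocalization.Away w L
  l2 : IsLocalization.Away x L
  inv : algebraMap B₁ L w * algebraMap B₂ L x = 1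
  f1 : Algebra.FiniteType k B₁
  f2 : Algebra.FiniteType k B₂
  i1 : ∀ b : B₁, IsIntegral (Algebra.adjoin k {w}) b
  i2 : ∀ b : B₂, IsIntegral (Algebra.adjoin k {x}) b

/-- `Spec` of a ring homomorphism -/
noncomputable abbrev sp {A B : Type u} [CommRing A] [CommRing B] (φ : A →+* B) :
    Spec (.of B) ⟶ Spec (.of A) := Spec.map (CommRingCat.ofHom φ)

/-- `X` is glued from two open subschemes along `U` -/
structure Gl2 {U Y₁ Y₂ X : Scheme.{u}} (a : U ⟶ Y₁) (b : U ⟶ Y₂) (i₁ : Y₁ ⟶ X) (i₂ : Y₂ ⟶ X) :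
    Prop where
  po : IsPushout a b i₁ i₂
  o1 : IsOpenImmersion i₁
  o2 : IsOpenImmersion i₂
  cov : ∀ z : X, (∃ p, i₁ p = z) ∨ ∃ q, i₂ q = z
  ov : ∀ p q, i₁ p = i₂ q → ∃ r, a r = p ∧ b r = q

/-- compatible actions on the two charts -/
structure AC (c : k) {B₁ B₂ L : Type u} [CommRing B₁] [CommRing B₂] [CommRing L] [Algebra k B₁]
    [Algebra k B₂] [Algebra k L] [Algebra B₁ L] [Algebra B₂ L] (w y₁ y₂ : B₁) (x s t : B₂)
    (α₁ : EE →* (B₁ ≃ₐ[k] B₁)) (α₂ : EE →* (B₂ ≃ₐ[k] B₂)) (α : EE →* (L ≃ₐ[k] L)) : Prop where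
  c1 : ∀ g b, α g (algebraMap B₁ L b) = algebraMap B₁ L (α₁ g b)
  c2 : ∀ g b, α g (algebraMap B₂ L b) = algebraMap B₂ L (α₂ g b)
  a1 : ∀ g, α₁ g y₁ = y₁ + (g.toAdd.2.val : B₁)
  a2 : ∀ g, α₁ g y₂ = y₂ + (g.toAdd.1.val : B₁)
  tx : α₂ ta x = x
  ts : α₂ ta s = s
  tt : α₂ ta t = t + s ^ 3
  sx : α₂ sg x = x
  ss : α₂ sg s = s + x ^ 3
  st : α₂ sg t = ST (algebraMap k B₂ c) x s t

/-- the local structure of the curve at the ramified point -/
structure PtD (c : k) {X : Scheme.{u}} (f : X ⟶ Spec (.of k)) (ρ : EE →* Aut X) (P : X)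
    (hP : ∀ g, (ρ g).hom P = P) (x s t : X.presheaf.stalk P) : Prop where
  max : maximalIdeal (X.presheaf.stalk P) = Ideal.span {t}
  t0 : t ≠ 0
  xm : x ∈ maximalIdeal (X.presheaf.stalk P)
  sm : s ∈ maximalIdeal (X.presheaf.stalk P)
  rel : R2 x s t
  tx : (locMap (ρ ta⁻¹).hom P (hP _)).hom x = x
  ts : (locMap (ρ ta⁻¹).hom P (hP _)).hom s = s
  tt : (locMap (ρ ta⁻¹).hom P (hP _)).hom t = t + s ^ 3
  sx : (locMap (ρ sg⁻¹).hom P (hP _)).hom x = x
  ss : (locMap (ρ sg⁻¹).hom P (hP _)).hom s = s + x ^ 3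
  st : (locMap (ρ sg⁻¹).hom P (hP _)).hom t = ST ((strMap f P).hom c) x s t

end Pool.Agent.MP_deef5c_ag.E

end

section

/-! Gluing two schemes along a common open subscheme. -/

open CategoryTheory AlgebraicGeometry IsLocalRing Function Pool.Agent.MP_deef5c_ag.O
open scoped Polynomial PowerSeries

namespace Pool.Agent.MP_deef5c_ag.E

universe u

open Limits in
theorem exists_gl2 {U Y₁ Y₂ : Scheme.{u}} (a : U ⟶ Y₁) (b : U ⟶ Y₂) [IsOpenImmersion a]
    [IsOpenImmersion b] : ∃ (X : Scheme.{u}) (i₁ : Y₁ ⟶ X) (i₂ : Y₂ ⟶ X), Gl2 a b i₁ i₂ := by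
  have h0 : ∀ {i j : WalkingSpan} (f : i ⟶ j), IsOpenImmersion ((span a b).map f) := by
    rintro i j (_ | (_ | _))
    · rw [WidePushoutShape.hom_id, CategoryTheory.Functor.map_id]; infer_instance
    · exact inferInstanceAs (IsOpenImmersion a)
    · exact inferInstanceAs (IsOpenImmersion b)
  refine ⟨colimit (span a b), colimit.ι (span a b) WalkingSpan.left,
    colimit.ι (span a b) WalkingSpan.right, IsPushout.of_hasPushout a b,
    inferInstanceAs (IsOpenImmersion (colimit.ι (span a b) WalkingSpan.left)),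
    inferInstanceAs (IsOpenImmersion (colimit.ι (span a b) WalkingSpan.right)), fun z => ?_,
    fun p q h => ?_⟩
  · obtain ⟨i, y, rfl⟩ := Scheme.IsLocallyDirected.ι_jointly_surjective (span a b) z
    rcases i with _ | _ | _
    · left
      refine ⟨a y, ?_⟩
      rw [← colimit.w (span a b) WalkingSpan.Hom.fst]
      rfl
    · exact Or.inl ⟨y, rfl⟩
    · exact Or.inr ⟨y, rfl⟩
  · obtain ⟨l, f1, f2, r, h1, h2⟩ :=
      (Scheme.IsLocallyDirected.ι_eq_ι_iff (span a b) (i := WalkingSpan.left) (j := WalkingSpan.right)).1 h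
    rcases l with _ | _ | _
    · have e1 : f1 = WalkingSpan.Hom.fst := Subsingleton.elim _ _
      have e2 : f2 = WalkingSpan.Hom.snd := Subsingleton.elim _ _
      subst e1 e2
      exact ⟨r, h1, h2⟩
    · exact nomatch f2
    · exact nomatch f1

variable {k B₁ B₂ L : Type u} [Field k] [CommRing B₁] [CommRing B₂] [CommRing L] [Algebra k B₁]
  [Algebra k B₂] [Algebra k L] [Algebra B₁ L] [Algebra B₂ L] {X : Scheme.{u}}
  {i₁ : Spec (.of B₁) ⟶ X} {i₂ : Spec (.of B₂) ⟶ X}

theorem GPush_comp {A B C : Type u} [CommRing A] [CommRing B] [CommRing C] (φ : A →+* B)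
    (ψ : B →+* C) : sp ψ ≫ sp φ = sp (ψ.comp φ) := by
  rw [sp, sp, sp, ← Spec.map_comp, CommRingCat.ofHom_comp]

theorem GPush_mul {B : Type u} [CommRing B] [Algebra k B] {H : Type*} [Group H]
    (β : H →* (B ≃ₐ[k] B)) (g h : H) :
    sp (β g : B →+* B) ≫ sp (β h : B →+* B) = sp (β (g * h) : B →+* B) := by
  rw [GPush_comp, map_mul]; rfl

theorem GPush_one {B : Type u} [CommRing B] [Algebra k B] {H : Type*} [Group H]
    (β : H →* (B ≃ₐ[k] B)) : sp (β 1 : B →+* B) = 𝟙 _ := by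
  rw [map_one, ← Spec.map_id]; rfl

theorem GPush_over {B : Type u} [CommRing B] [Algebra k B] (e : B ≃ₐ[k] B) :
    sp (e : B →+* B) ≫ sp (algebraMap k B) = sp (algebraMap k B) := by
  rw [GPush_comp]; congr 1; ext c; simp

theorem exists_act (G : Gl2 (sp (algebraMap B₁ L)) (sp (algebraMap B₂ L)) i₁ i₂)
    (f : X ⟶ Spec (.of k)) (h₁ : i₁ ≫ f = sp (algebraMap k B₁)) (h₂ : i₂ ≫ f = sp (algebraMap k B₂))
    {H : Type*} [Group H] (α₁ : H →* (B₁ ≃ₐ[k] B₁)) (α₂ : H →* (B₂ ≃ₐ[k] B₂)) (α : H →* (L ≃ₐ[k] L))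
    (c₁ : ∀ g b, α g (algebraMap B₁ L b) = algebraMap B₁ L (α₁ g b))
    (c₂ : ∀ g b, α g (algebraMap B₂ L b) = algebraMap B₂ L (α₂ g b)) :
    ∃ ρ : H →* Aut X, (∀ g, i₁ ≫ (ρ g).hom = sp (α₁ g⁻¹ : B₁ →+* B₁) ≫ i₁) ∧
      (∀ g, i₂ ≫ (ρ g).hom = sp (α₂ g⁻¹ : B₂ →+* B₂) ≫ i₂) ∧ ∀ g, (ρ g).hom ≫ f = f := by
  have e₁ (g : H) : sp (algebraMap B₁ L) ≫ sp (α₁ g : B₁ →+* B₁) =
      sp (α g : L →+* L) ≫ sp (algebraMap B₁ L) := by
    rw [GPush_comp, GPush_comp]; congr 1; ext b; exact (c₁ g b).symm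
  have e₂ (g : H) : sp (algebraMap B₂ L) ≫ sp (α₂ g : B₂ →+* B₂) =
      sp (α g : L →+* L) ≫ sp (algebraMap B₂ L) := by
    rw [GPush_comp, GPush_comp]; congr 1; ext b; exact (c₂ g b).symm
  have hd (g : H) : ∃ D : X ⟶ X, i₁ ≫ D = sp (α₁ g : B₁ →+* B₁) ≫ i₁ ∧
      i₂ ≫ D = sp (α₂ g : B₂ →+* B₂) ≫ i₂ :=
    ⟨G.po.desc (sp (α₁ g : B₁ →+* B₁) ≫ i₁) (sp (α₂ g : B₂ →+* B₂) ≫ i₂) (by
      rw [← Category.assoc, e₁, ← Category.assoc, e₂, Category.assoc, Category.assoc, G.po.w]),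
      G.po.inl_desc _ _ _, G.po.inr_desc _ _ _⟩
  choose D d₁ d₂ using hd
  have hm (g h : H) : D g ≫ D h = D (g * h) := by
    refine G.po.hom_ext ?_ ?_
    · rw [← Category.assoc, d₁, Category.assoc, d₁, ← Category.assoc, GPush_mul, d₁]
    · rw [← Category.assoc, d₂, Category.assoc, d₂, ← Category.assoc, GPush_mul, d₂]
  have ho : D 1 = 𝟙 X := by
    refine G.po.hom_ext ?_ ?_
    · rw [d₁, GPush_one, Category.id_comp, Category.comp_id]
    · rw [d₂, GPush_one, Category.id_comp, Category.comp_id]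
  let r (g : H) : Aut X :=
    ⟨D g⁻¹, D g, by rw [hm, inv_mul_cancel, ho], by rw [hm, mul_inv_cancel, ho]⟩
  refine ⟨MonoidHom.mk' r fun g h => Iso.ext ?_, fun g => d₁ _, fun g => d₂ _, fun g => ?_⟩
  · change D (g * h)⁻¹ = D h⁻¹ ≫ D g⁻¹
    rw [hm, mul_inv_rev]
  · change D g⁻¹ ≫ f = f
    refine G.po.hom_ext ?_ ?_
    · rw [← Category.assoc, d₁, Category.assoc, h₁, GPush_over]
    · rw [← Category.assoc, d₂, Category.assoc, h₂, GPush_over]

theorem integral_gl [IsDomain B₁] [IsDomain B₂] [Nontrivial L]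
    (G : Gl2 (sp (algebraMap B₁ L)) (sp (algebraMap B₂ L)) i₁ i₂) : IsIntegral X := by
  have := G.o1
  have := G.o2
  have hr : ∀ z : X, _root_.IsReduced (X.presheaf.stalk z) := by
    intro z
    rcases G.cov z with ⟨p, rfl⟩ | ⟨p, rfl⟩
    · exact isReduced_of_injective (i₁.stalkMap p).hom
        (asIso (i₁.stalkMap p)).commRingCatIsoToRingEquiv.injective
    · exact isReduced_of_injective (i₂.stalkMap p).hom
        (asIso (i₂.stalkMap p)).commRingCatIsoToRingEquiv.injective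
  have := isReduced_of_isReduced_stalk X
  have a1 : IsIrreducible (Set.range i₁) := by
    rw [← Set.image_univ]
    exact (IrreducibleSpace.isIrreducible_univ _).image _ i₁.continuous.continuousOn
  have a2 : IsIrreducible (Set.range i₂) := by
    rw [← Set.image_univ]
    exact (IrreducibleSpace.isIrreducible_univ _).image _ i₂.continuous.continuousOn
  obtain ⟨r⟩ : Nonempty (Spec (.of L)) := inferInstance
  have hV : (Set.range i₁ ∩ Set.range i₂).Nonempty :=
    ⟨i₁ (sp (algebraMap B₁ L) r), ⟨_, rfl⟩, sp (algebraMap B₂ L) r, by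
      rw [← Scheme.Hom.comp_apply, ← Scheme.Hom.comp_apply, G.po.w]⟩
  have key : ∀ u : Set X, IsOpen u → u.Nonempty → (Set.range i₁ ∩ u).Nonempty := by
    rintro u hu ⟨z, hz⟩
    rcases G.cov z with hp | hp
    · exact ⟨z, hp, hz⟩
    · obtain ⟨y, hy⟩ := a2.2 u (Set.range i₁) hu i₁.isOpenEmbedding.isOpen_range ⟨z, hp, hz⟩
        (by rw [Set.inter_comm]; exact hV)
      exact ⟨y, hy.2.2, hy.2.1⟩
  have : PreirreducibleSpace X := ⟨fun u v hu hv ⟨y, hy⟩ ⟨z, hz⟩ => by
    obtain ⟨t, ht⟩ := a1.2 u v hu hv (key u hu ⟨y, hy.2⟩) (key v hv ⟨z, hz.2⟩)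
    exact ⟨t, trivial, ht.2⟩⟩
  have : IrreducibleSpace X := ⟨⟨hV.some⟩⟩
  exact isIntegral_of_irreducibleSpace_of_isReduced X

theorem GPush_sm {B : Type u} [CommRing B] [Algebra k B]
    [h : Algebra.IsStandardSmoothOfRelativeDimension 1 k B] :
    SmoothOfRelativeDimension 1 (sp (algebraMap k B)) := by
  rw [HasRingHomProperty.Spec_iff (P := @SmoothOfRelativeDimension 1)]
  refine RingHom.locally_of RingHom.isStandardSmoothOfRelativeDimension_respectsIso _ ?_
  exact (RingHom.isStandardSmoothOfRelativeDimension_algebraMap 1).2 h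

theorem smooth_gl {x J : B₂} [IsLocalization.Away x L]
    (G : Gl2 (sp (algebraMap B₁ L)) (sp (algebraMap B₂ L)) i₁ i₂) (f : X ⟶ Spec (.of k))
    (h₁ : i₁ ≫ f = sp (algebraMap k B₁)) (h₂ : i₂ ≫ f = sp (algebraMap k B₂))
    (hJ : Ideal.span {x, J} = ⊤) [Algebra.IsStandardSmoothOfRelativeDimension 1 k B₁]
    [Algebra.IsStandardSmoothOfRelativeDimension 1 k (Localization.Away J)] :
    SmoothOfRelativeDimension 1 f := by
  have := G.o1
  have := G.o2
  have oJ : IsOpenImmersion (sp (algebraMap B₂ (Localization.Away J))) :=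
    IsOpenImmersion.of_isLocalization J
  have cov : ∀ z : X, (∃ p, i₁ p = z) ∨
      ∃ q, (sp (algebraMap B₂ (Localization.Away J)) ≫ i₂) q = z := by
    intro z
    rcases G.cov z with hp | ⟨q, rfl⟩
    · exact Or.inl hp
    by_cases hx : x ∈ PrimeSpectrum.asIdeal q
    · right
      have hj : J ∉ PrimeSpectrum.asIdeal q := fun hj => q.2.ne_top (by
        rw [eq_top_iff, ← hJ, Ideal.span_le]
        rintro _ (rfl | rfl) <;> assumption)
      have : q ∈ Set.range (PrimeSpectrum.comap (algebraMap B₂ (Localization.Away J))) := by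
        rw [PrimeSpectrum.localization_away_comap_range _ J]; exact hj
      obtain ⟨r, hr⟩ := this
      exact ⟨r, by rw [Scheme.Hom.comp_apply, ← hr]; rfl⟩
    · left
      have : q ∈ Set.range (PrimeSpectrum.comap (algebraMap B₂ L)) := by
        rw [PrimeSpectrum.localization_away_comap_range _ x]; exact hx
      obtain ⟨r, hr⟩ := this
      refine ⟨sp (algebraMap B₁ L) r, ?_⟩
      rw [← Scheme.Hom.comp_apply, G.po.w, Scheme.Hom.comp_apply, ← hr]; rfl
  let 𝒰 : X.OpenCover := Scheme.Cover.mkOfCovers Bool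
    (fun b => match b with
      | true => Spec (.of B₁)
      | false => Spec (.of (Localization.Away J)))
    (fun b => match b with
      | true => i₁
      | false => sp (algebraMap B₂ (Localization.Away J)) ≫ i₂)
    (fun z => (cov z).elim (fun ⟨p, h⟩ => ⟨true, p, h⟩) (fun ⟨p, h⟩ => ⟨false, p, h⟩))
    (fun b => match b with
      | true => G.o1
      | false => inferInstanceAs (IsOpenImmersion (sp (algebraMap B₂ (Localization.Away J)) ≫ i₂)))
  refine IsZariskiLocalAtSource.of_openCover (P := @SmoothOfRelativeDimension 1) 𝒰 ?_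
  rintro (_ | _)
  · change SmoothOfRelativeDimension 1 ((sp (algebraMap B₂ (Localization.Away J)) ≫ i₂) ≫ f)
    rw [Category.assoc, h₂, GPush_comp, ← IsScalarTower.algebraMap_eq]
    exact GPush_sm
  · change SmoothOfRelativeDimension 1 (i₁ ≫ f)
    rw [h₁]
    exact GPush_sm

end Pool.Agent.MP_deef5c_ag.E

end

section

/-! Properness by the valuative criterion. -/

open CategoryTheory AlgebraicGeometry IsLocalRing Function Pool.Agent.MP_deef5c_ag.O
open scoped Polynomial PowerSeries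

namespace Pool.Agent.MP_deef5c_ag.E

universe u

variable {k B₁ B₂ L : Type u} [Field k] [CommRing B₁] [CommRing B₂] [CommRing L] [Algebra k B₁]
  [Algebra k B₂] [Algebra k L] [Algebra B₁ L] [Algebra B₂ L] {X : Scheme.{u}}
  {i₁ : Spec (.of B₁) ⟶ X} {i₂ : Spec (.of B₂) ⟶ X}

theorem GProp_comp {A B C : Type u} [CommRing A] [CommRing B] [CommRing C] (φ : A →+* B)
    (ψ : B →+* C) : sp ψ ≫ sp φ = sp (ψ.comp φ) := by
  rw [sp, sp, sp, ← Spec.map_comp, CommRingCat.ofHom_comp]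

theorem GProp_inj {A B : Type u} [CommRing A] [CommRing B] {φ ψ : A →+* B} (h : sp φ = sp ψ) :
    φ = ψ := by
  have := Spec.map_injective h
  exact congrArg CommRingCat.Hom.hom this

theorem GProp_sur {A B : Type u} [CommRing A] [CommRing B] (g : Spec (.of B) ⟶ Spec (.of A)) :
    ∃ φ : A →+* B, sp φ = g :=
  ⟨(Spec.preimage g).hom, Spec.map_preimage g⟩

theorem GProp_fac {B R : Type u} [CommRing B] [CommRing R] [IsLocalRing R] {Y : Scheme.{u}}
    (i : Spec (.of B) ⟶ Y) [IsOpenImmersion i] (g : Spec (.of R) ⟶ Y)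
    (h : ∃ p, i p = g (closedPoint R)) : ∃ φ : B →+* R, sp φ ≫ i = g := by
  have H : Set.range g ⊆ Set.range i := by
    rintro _ ⟨q, rfl⟩
    have h1 : g q ⤳ g (closedPoint R) := (specializes_closedPoint q).map g.continuous
    exact h1.mem_open i.isOpenEmbedding.isOpen_range h
  obtain ⟨φ, hφ⟩ := GProp_sur (IsOpenImmersion.lift i g H)
  exact ⟨φ, by rw [hφ, IsOpenImmersion.lift_fac]⟩

theorem GProp_symT {w : B₁} {x : B₂} (T : TC k L w x) : TC k L x w :=
  ⟨T.t2, T.t1, T.l2, T.l1, by rw [mul_comm, T.inv], T.f2, T.f1, T.i2, T.i1⟩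

theorem GProp_symG {U Y₁ Y₂ Y : Scheme.{u}} {a : U ⟶ Y₁} {b : U ⟶ Y₂} {j₁ : Y₁ ⟶ Y} {j₂ : Y₂ ⟶ Y}
    (G : Gl2 a b j₁ j₂) : Gl2 b a j₂ j₁ :=
  ⟨G.po.flip, G.o2, G.o1, fun z => (G.cov z).symm, fun p q h => by
    obtain ⟨r, h1, h2⟩ := G.ov q p h.symm
    exact ⟨r, h2, h1⟩⟩

theorem GProp_switch {w : B₁} {x : B₂} (T : TC k L w x)
    (G : Gl2 (sp (algebraMap B₁ L)) (sp (algebraMap B₂ L)) i₁ i₂) {A : Type u} [CommRing A]
    (φ : B₂ →+* A) (h : IsUnit (φ x)) :
    ∃ φ' : B₁ →+* A, sp φ' ≫ i₁ = sp φ ≫ i₂ ∧ φ' w * φ x = 1 := by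
  have := T.l2
  let ψ : L →+* A := IsLocalization.Away.lift x h
  have hψ : ψ.comp (algebraMap B₂ L) = φ := IsLocalization.Away.lift_comp x h
  refine ⟨ψ.comp (algebraMap B₁ L), ?_, ?_⟩
  · rw [← hψ, ← GProp_comp, ← GProp_comp, Category.assoc, Category.assoc, G.po.w]
  · rw [← hψ, RingHom.comp_apply, RingHom.comp_apply, ← map_mul, T.inv, map_one]

theorem GProp_lift {A R K : Type u} [CommRing A] [CommRing R] [CommRing K] (a : R →+* K)
    (ha : Injective a) (φ : A →+* K) (h : ∀ b, ∃ r, a r = φ b) : ∃ θ : A →+* R, a.comp θ = φ := by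
  choose θ hθ using h
  refine ⟨⟨⟨⟨θ, ha ?_⟩, fun b c => ha ?_⟩, ha ?_, fun b c => ha ?_⟩, RingHom.ext hθ⟩
  all_goals simp only [hθ, map_one, map_mul, map_zero, map_add]

theorem GProp_int {B R K : Type u} [CommRing B] [Algebra k B] [CommRing R] [IsDomain R]
    [ValuationRing R] [Field K] [Algebra R K] [IsFractionRing R K] {x : B}
    (hi : ∀ b : B, IsIntegral (Algebra.adjoin k {x}) b) (φ : B →+* K) (κ : k →+* R)
    (hκ : (algebraMap R K).comp κ = φ.comp (algebraMap k B)) (hx : ∃ r, algebraMap R K r = φ x) :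
    ∃ θ : B →+* R, (algebraMap R K).comp θ = φ := by
  have ha : Injective (algebraMap R K) := IsFractionRing.injective R K
  have h1 : ∀ b ∈ Algebra.adjoin k {x}, φ b ∈ (algebraMap R K).range := by
    intro b hb
    induction hb using Algebra.adjoin_induction with
    | mem y hy => rw [Set.mem_singleton_iff.1 hy]; exact hx
    | algebraMap c => exact ⟨κ c, RingHom.congr_fun hκ c⟩
    | add y z _ _ hy hz => rw [map_add]; exact add_mem hy hz
    | mul y z _ _ hy hz => rw [map_mul]; exact mul_mem hy hz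
  obtain ⟨θ, hθ⟩ := GProp_lift (algebraMap R K) ha
    (φ.comp (algebraMap (Algebra.adjoin k {x}) B)) fun b => h1 b.1 b.2
  refine GProp_lift _ ha φ fun b => ?_
  exact IsIntegrallyClosed.isIntegral_iff.1 ((hi b).map_of_comp_eq θ φ hθ)

theorem GProp_ex1 {B : Type u} [CommRing B] [Algebra k B] {x : B}
    (hi : ∀ b : B, IsIntegral (Algebra.adjoin k {x}) b) {i : Spec (.of B) ⟶ X}
    {f : X ⟶ Spec (.of k)} (h : i ≫ f = sp (algebraMap k B)) (S : ValuativeCommSq f)
    (φ : B →+* S.K) (hφ : sp φ ≫ i = S.i₁) (hx : ∃ r, algebraMap S.R S.K r = φ x) :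
    S.commSq.HasLift := by
  obtain ⟨κ, hκ⟩ := GProp_sur S.i₂
  have h1 : (algebraMap S.R S.K).comp κ = φ.comp (algebraMap k B) := by
    apply GProp_inj
    rw [← GProp_comp, ← GProp_comp, hκ, ← h, ← Category.assoc, hφ]
    exact S.commSq.w.symm
  obtain ⟨θ, hθ⟩ := GProp_int hi φ κ h1 hx
  refine CommSq.HasLift.mk' ⟨sp θ ≫ i, ?_, ?_⟩
  · rw [← hφ, ← hθ, ← GProp_comp, Category.assoc]
  · rw [Category.assoc, h, GProp_comp, ← hκ]
    congr 1
    ext c
    apply IsFractionRing.injective S.R S.K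
    have := RingHom.congr_fun h1 c
    rw [← hθ] at this
    exact this.symm

theorem GProp_ex2 {w : B₁} {x : B₂} (T : TC k L w x)
    (G : Gl2 (sp (algebraMap B₁ L)) (sp (algebraMap B₂ L)) i₁ i₂) {f : X ⟶ Spec (.of k)}
    (h₁ : i₁ ≫ f = sp (algebraMap k B₁)) (h₂ : i₂ ≫ f = sp (algebraMap k B₂))
    (S : ValuativeCommSq f) (h : ∃ p, i₂ p = S.i₁ (closedPoint S.K)) : S.commSq.HasLift := by
  have := G.o2
  obtain ⟨φ, hφ⟩ := GProp_fac i₂ S.i₁ h
  by_cases hx : ∃ r, algebraMap S.R S.K r = φ x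
  · exact GProp_ex1 T.i2 h₂ S φ hφ hx
  have h0 : φ x ≠ 0 := fun h0 => hx ⟨0, by rw [h0, map_zero]⟩
  obtain ⟨φ', h1, h2⟩ := GProp_switch T G φ h0.isUnit
  refine GProp_ex1 T.i1 h₁ S φ' (h1.trans hφ) ?_
  rw [eq_inv_of_mul_eq_one_left h2]
  exact (ValuationRing.isInteger_or_isInteger S.R (φ x)).resolve_left hx

theorem GProp_un1 {B R K : Type u} [CommRing B] [CommRing R] [CommRing K] {a : R →+* K}
    (ha : Injective a) (i : Spec (.of B) ⟶ X) [IsOpenImmersion i] {φ φ' : B →+* R}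
    (h : sp a ≫ sp φ ≫ i = sp a ≫ sp φ' ≫ i) : sp φ ≫ i = sp φ' ≫ i := by
  rw [← Category.assoc, ← Category.assoc, cancel_mono, GProp_comp, GProp_comp] at h
  have := GProp_inj h
  have e : φ = φ' := RingHom.ext fun b => ha (RingHom.congr_fun this b)
  rw [e]

theorem GProp_un2 {w : B₁} {x : B₂} (T : TC k L w x)
    (G : Gl2 (sp (algebraMap B₁ L)) (sp (algebraMap B₂ L)) i₁ i₂) {R K : Type u} [CommRing R]
    [Field K] {a : R →+* K} (ha : Injective a) {φ₁ : B₁ →+* R} {φ₂ : B₂ →+* R}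
    (h : sp a ≫ sp φ₁ ≫ i₁ = sp a ≫ sp φ₂ ≫ i₂) : sp φ₁ ≫ i₁ = sp φ₂ ≫ i₂ := by
  have := G.o1
  have := G.o2
  have := T.l1
  have : IsOpenImmersion (sp (algebraMap B₁ L)) := IsOpenImmersion.of_isLocalization w
  have h' := h
  rw [← Category.assoc, ← Category.assoc, GProp_comp, GProp_comp] at h'
  obtain ⟨r, hr, -⟩ := G.ov (sp (a.comp φ₁) (closedPoint K)) (sp (a.comp φ₂) (closedPoint K)) (by
    rw [← Scheme.Hom.comp_apply, ← Scheme.Hom.comp_apply, h'])
  obtain ⟨ψ, hψ⟩ := GProp_fac (sp (algebraMap B₁ L)) (sp (a.comp φ₁)) ⟨r, hr⟩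
  have e2 : sp ψ ≫ sp (algebraMap B₂ L) = sp (a.comp φ₂) := by
    rw [← cancel_mono i₂, Category.assoc, ← G.po.w, ← Category.assoc, hψ, h']
  rw [GProp_comp] at hψ e2
  have e3 : φ₁ w * φ₂ x = 1 := by
    apply ha
    have a1 := RingHom.congr_fun (GProp_inj hψ) w
    have a2 := RingHom.congr_fun (GProp_inj e2) x
    simp only [RingHom.comp_apply] at a1 a2
    rw [map_mul, ← a1, ← a2, ← map_mul, T.inv, map_one, map_one]
  obtain ⟨φ', h1, -⟩ := GProp_switch T G φ₂ (IsUnit.of_mul_eq_one_right _ e3)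
  rw [← h1] at h ⊢
  exact GProp_un1 ha i₁ h

/-- `IsProper.of_valuativeCriterion`.  Quasi-compact: two compact opens cover.  Locally of finite type: local at
the source; so `X` is locally Noetherian, hence quasi-separated.  A morphism `Spec R ⟶ X` from a local ring
factors through a chart (`IsOpenImmersion.lift`, the chart containing the image of the closed point), so it
is `sp φ ≫ iⱼ` (`Spec.preimage`).  Existence: if `φ : B₂ → K` has `φ x ∈ R` then `φ B₂ ⊆ R` (`i2`, valuation rings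
are integrally closed); otherwise `φ x ≠ 0` and `(φ x)⁻¹ ∈ R`, `φ` extends to `L`, and its restriction to `B₁`
sends `w` into `R`.  Symmetrically for `B₁`.  Uniqueness: for lifts in the same chart use that `iⱼ` is a
monomorphism and `R → K` is injective.  For `φ₁ : B₁ → R`, `φ₂ : B₂ → R` with the same `K`-point, this point
lies in the overlap (`ov`), so it factors through `Spec L` (lift along the open immersion
`sp (algebraMap B₁ L)`), which gives `φ₁ w * φ₂ x = 1` in `K`, hence in `R`; then `φ₂` extends to `L` and the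
second lift also factors through the first chart. -/
theorem proper_gl {w : B₁} {x : B₂} (T : TC k L w x)
    (G : Gl2 (sp (algebraMap B₁ L)) (sp (algebraMap B₂ L)) i₁ i₂) (f : X ⟶ Spec (.of k))
    (h₁ : i₁ ≫ f = sp (algebraMap k B₁)) (h₂ : i₂ ≫ f = sp (algebraMap k B₂)) : IsProper f := by
  have := G.o1
  have := G.o2
  have : CompactSpace X := by
    refine ⟨?_⟩
    have e : (Set.univ : Set X) = Set.range i₁ ∪ Set.range i₂ :=
      (Set.eq_univ_of_forall fun z => G.cov z).symm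
    rw [e]
    exact (isCompact_range i₁.continuous).union (isCompact_range i₂.continuous)
  have : QuasiCompact f := (quasiCompact_iff_compactSpace f).2 this
  have : LocallyOfFiniteType f := by
    let 𝒰 : X.OpenCover := Scheme.Cover.mkOfCovers Bool
      (fun b => Bool.rec (Spec (.of B₁)) (Spec (.of B₂)) b) (fun b => Bool.rec i₁ i₂ b)
      (fun z => (G.cov z).elim (fun ⟨p, hp⟩ => ⟨false, p, hp⟩) fun ⟨p, hp⟩ => ⟨true, p, hp⟩)
      (fun b => by
        cases b
        · exact G.o1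
        · exact G.o2)
    refine IsZariskiLocalAtSource.of_openCover (P := @LocallyOfFiniteType) 𝒰 fun b => ?_
    cases b
    · change LocallyOfFiniteType (i₁ ≫ f)
      rw [h₁, HasRingHomProperty.Spec_iff (P := @LocallyOfFiniteType)]
      exact RingHom.finiteType_algebraMap.2 T.f1
    · change LocallyOfFiniteType (i₂ ≫ f)
      rw [h₂, HasRingHomProperty.Spec_iff (P := @LocallyOfFiniteType)]
      exact RingHom.finiteType_algebraMap.2 T.f2
  have : IsLocallyNoetherian X := LocallyOfFiniteType.isLocallyNoetherian f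
  refine IsProper.of_valuativeCriterion f (ValuativeCriterion.iff.2 ⟨fun S => ?_, fun S => ?_⟩)
  · rcases G.cov (S.i₁ (closedPoint S.K)) with h | h
    · exact GProp_ex2 (GProp_symT T) (GProp_symG G) h₂ h₁ S h
    · exact GProp_ex2 T G h₁ h₂ S h
  · refine ⟨fun l l' => CommSq.LiftStruct.ext ?_⟩
    have ha : Injective (algebraMap S.R S.K) := IsFractionRing.injective S.R S.K
    have h : sp (algebraMap S.R S.K) ≫ l.l = sp (algebraMap S.R S.K) ≫ l'.l :=
      l.fac_left.trans l'.fac_left.symm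
    rcases G.cov (l.l (closedPoint S.R)) with a | a <;>
      rcases G.cov (l'.l (closedPoint S.R)) with b | b <;>
      obtain ⟨φ, hφ⟩ := GProp_fac _ _ a <;> obtain ⟨φ', hφ'⟩ := GProp_fac _ _ b <;>
      rw [← hφ, ← hφ'] at h ⊢
    · exact GProp_un1 ha _ h
    · exact GProp_un2 T G ha h
    · exact GProp_un2 (GProp_symT T) (GProp_symG G) ha h
    · exact GProp_un1 ha _ h

end Pool.Agent.MP_deef5c_ag.E

end

section

/-! A projective embedding of a curve with two charts. -/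

open CategoryTheory AlgebraicGeometry IsLocalRing Function Pool.Agent.MP_deef5c_ag.O
open scoped Polynomial PowerSeries

namespace Pool.Agent.MP_deef5c_ag.E

universe u

section Aux

open HomogeneousLocalization

variable {σ : Type*} {A B B' L : Type u} [CommRing A] [SetLike σ A] [AddSubgroupClass σ A]
  (𝒜 : ℕ → σ) [GradedRing 𝒜] [CommRing B] [CommRing B'] [CommRing L]

/-- the chart map attached to `φ` -/
noncomputable def GProj_psi (φ : A →+* B) (a : A) (h : IsUnit (φ a)) : Away 𝒜 a →+* B :=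
  (IsLocalization.Away.lift a h : Localization.Away a →+* B).comp (algebraMap _ _)

theorem GProj_mk (φ : A →+* B) {a : A} (h : IsUnit (φ a)) {d : ℕ} (ha : a ∈ 𝒜 d) (n : ℕ) (p : A)
    (hp : p ∈ 𝒜 (n • d)) : GProj_psi 𝒜 φ a h (Away.mk 𝒜 ha n p hp) * φ a ^ n = φ p := by
  rw [GProj_psi, RingHom.comp_apply, HomogeneousLocalization.algebraMap_apply, Away.val_mk,
    ← IsLocalization.Away.lift_eq (S := Localization.Away a) a h a,
    ← IsLocalization.Away.lift_eq (S := Localization.Away a) a h p, ← map_pow, ← map_mul,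
    ← map_pow, Localization.mk_eq_mk']
  congr 1
  exact IsLocalization.mk'_spec _ p (⟨a ^ n, n, rfl⟩ : Submonoid.powers a)

theorem GProj_zero (φ : A →+* B) {a : A} (h : IsUnit (φ a)) (r : 𝒜 0) :
    GProj_psi 𝒜 φ a h (fromZeroRingHom 𝒜 _ r) = φ r := by
  rw [GProj_psi, RingHom.comp_apply, ← HomogeneousLocalization.algebraMap_eq,
    ← IsScalarTower.algebraMap_apply, IsScalarTower.algebraMap_apply (𝒜 0) A,
    IsLocalization.Away.lift_eq]
  rfl

theorem GProj_comp (φ : A →+* B) (θ : B →+* L) (φL : A →+* L) {u : L} (hu : IsUnit u)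
    (hθ : ∀ n, ∀ p ∈ 𝒜 n, θ (φ p) = u ^ n * φL p) {a g x : A} (ha : a ∈ 𝒜 1) (hg : g ∈ 𝒜 1)
    (hx : x = a * g) (h : IsUnit (φ a)) (hL : IsUnit (φL x)) :
    (GProj_psi 𝒜 φL x hL).comp (awayMap 𝒜 hg hx) = θ.comp (GProj_psi 𝒜 φ a h) := by
  ext z
  obtain ⟨n, p, hp, rfl⟩ := Away.mk_surjective 𝒜 ha z
  rw [RingHom.comp_apply, RingHom.comp_apply, awayMap_mk]
  refine (hL.pow n).mul_right_cancel ((hu.pow n).mul_left_cancel ?_)
  have h1 := congrArg θ (GProj_mk 𝒜 φ h ha n p hp)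
  rw [map_mul, map_pow, hθ 1 a ha, hθ _ p hp, smul_eq_mul, mul_one, pow_one] at h1
  rw [GProj_mk, hx, map_mul, map_mul, map_pow]
  linear_combination -(φL g ^ n) * h1

theorem GProj_glue (φ : A →+* B) (φ' : A →+* B') (θ : B →+* L) (θ' : B' →+* L) {u : L}
    (hu : IsUnit u) (hθ : ∀ n, ∀ p ∈ 𝒜 n, θ' (φ' p) = u ^ n * θ (φ p)) {a b : A} (ha : a ∈ 𝒜 1)
    (hb : b ∈ 𝒜 1) (h : IsUnit (φ b)) (h' : IsUnit (φ' a)) (hL : IsUnit (θ (φ a))) :
    sp θ ≫ sp (GProj_psi 𝒜 φ b h) ≫ Proj.awayι 𝒜 b hb one_pos =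
      sp θ' ≫ sp (GProj_psi 𝒜 φ' a h') ≫ Proj.awayι 𝒜 a ha one_pos := by
  have hx : IsUnit ((θ.comp φ) (b * a)) := by
    rw [map_mul]
    exact (h.map θ).mul hL
  have e1 := GProj_comp 𝒜 φ θ (θ.comp φ) isUnit_one (fun n p _ => by simp) hb ha rfl h hx
  have e2 := GProj_comp 𝒜 φ' θ' (θ.comp φ) hu hθ ha hb (mul_comm b a) h' hx
  rw [← Spec.map_comp_assoc, ← Spec.map_comp_assoc, ← CommRingCat.ofHom_comp,
    ← CommRingCat.ofHom_comp, ← e1, ← e2, CommRingCat.ofHom_comp, CommRingCat.ofHom_comp,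
    Spec.map_comp_assoc, Spec.map_comp_assoc, Proj.SpecMap_awayMap_awayι,
    Proj.SpecMap_awayMap_awayι]

theorem GProj_pre [Algebra B L] {X : Scheme.{u}} {j : Spec (.of B) ⟶ X} {j' : Spec (.of B') ⟶ X}
    [IsOpenImmersion j'] {θ' : B' →+* L} (hw : sp (algebraMap B L) ≫ j = sp θ' ≫ j')
    (cov : ∀ z : X, (∃ p, j p = z) ∨ ∃ q, j' q = z) (w : B) [IsLocalization.Away w L] {m : ℕ}
    (hm : 0 < m) (φ : A →+* B) {a b : A} (ha : a ∈ 𝒜 1) (hb : b ∈ 𝒜 1) (hb1 : φ b = 1)
    (ha1 : φ a = w ^ m) (h : IsUnit (φ b)) (i : X ⟶ Proj 𝒜)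
    (hi : j ≫ i = sp (GProj_psi 𝒜 φ b h) ≫ Proj.awayι 𝒜 b hb one_pos)
    (g : Spec (.of B') ⟶ Spec (.of (Away 𝒜 a))) (hi' : j' ≫ i = g ≫ Proj.awayι 𝒜 a ha one_pos) :
    i ⁻¹ᵁ (Proj.awayι 𝒜 a ha one_pos).opensRange = j'.opensRange := by
  ext z
  constructor
  · intro hz
    rcases cov z with ⟨p, rfl⟩ | hq
    · have h1 : p ∈ (j ≫ i) ⁻¹ᵁ Proj.basicOpen 𝒜 a := by
        rw [← Proj.opensRange_awayι 𝒜 a ha one_pos]
        exact hz
      rw [hi, Scheme.Hom.comp_preimage, Proj.awayι_preimage_basicOpen 𝒜 hb one_pos ha one_pos] at h1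
      have h2 : GProj_psi 𝒜 φ b h (Away.isLocalizationElem hb ha) ∉ p.asIdeal := h1
      have h3 : GProj_psi 𝒜 φ b h (Away.isLocalizationElem hb ha) = w ^ m := by
        have := GProj_mk 𝒜 φ h hb 1 (a ^ 1) (by simpa using ha)
        rw [hb1, one_pow, mul_one] at this
        exact this.trans (by rw [pow_one, ha1])
      rw [h3] at h2
      have h4 : p ∈ Set.range (PrimeSpectrum.comap (algebraMap B L)) := by
        rw [PrimeSpectrum.localization_away_comap_range L w]
        exact fun hw => h2 (Ideal.pow_mem_of_mem _ hw _ hm)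
      obtain ⟨r, hr⟩ : ∃ r : Spec (.of L), sp (algebraMap B L) r = p := h4
      refine ⟨sp θ' r, ?_⟩
      rw [← Scheme.Hom.comp_apply, ← hw, Scheme.Hom.comp_apply, hr]
    · exact hq
  · rintro ⟨q, rfl⟩
    refine ⟨g q, ?_⟩
    rw [← Scheme.Hom.comp_apply, ← hi', Scheme.Hom.comp_apply]

theorem GProj_res {U V X Y : Scheme.{u}} (g : U ⟶ V) (iU : U ⟶ X) (iV : V ⟶ Y) (f : X ⟶ Y)
    [IsOpenImmersion iU] [IsOpenImmersion iV] (H : iU ≫ f = g ≫ iV)
    (H' : f ⁻¹ᵁ iV.opensRange = iU.opensRange) [IsClosedImmersion g] :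
    IsImmersion (f ∣_ iV.opensRange) := by
  have h := IsOpenImmersion.isPullback g iU iV f H H'
  have : MorphismProperty.RespectsIso @IsImmersion.{u} := by
    apply MorphismProperty.RespectsIso.mk <;> intro X Y Z e f hf <;> infer_instance
  refine (MorphismProperty.arrow_mk_iso_iff (P := @IsImmersion.{u})
    (morphismRestrictOpensRange f iV)).2 ?_
  rw [← h.flip.isoPullback_inv_snd]
  infer_instance

theorem GProj_hom {k ι : Type*} [CommRing k] [Algebra k L] (u : L) (G : ι → L) {n : ℕ}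
    {p : MvPolynomial ι k} (hp : p.IsHomogeneous n) :
    MvPolynomial.aeval (fun i => u * G i) p = u ^ n * MvPolynomial.aeval G p := by
  rw [MvPolynomial.aeval_def, MvPolynomial.aeval_def, MvPolynomial.eval₂_eq,
    MvPolynomial.eval₂_eq, Finset.mul_sum]
  refine Finset.sum_congr rfl fun d hd => ?_
  have h1 : ∑ i ∈ d.support, d i = n := by
    have := hp (MvPolynomial.mem_support_iff.1 hd)
    simpa [Finsupp.weight_apply, Finsupp.sum] using this
  simp only [mul_pow, Finset.prod_mul_distrib, Finset.prod_pow_eq_pow_sum, h1]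
  ring

attribute [local instance] MvPolynomial.gradedAlgebra

theorem GProj_surj {k : Type u} {ι : Type} [CommRing k] [Algebra k B] (H : ι → B) (b : ι) (Hb : H b = 1)
    (gH : Algebra.adjoin k (Set.range H) = ⊤)
    (h : IsUnit ((MvPolynomial.aeval H : MvPolynomial ι k →ₐ[k] B).toRingHom (MvPolynomial.X b))) :
    Surjective (GProj_psi (MvPolynomial.homogeneousSubmodule ι k) _ _ h) := by
  intro y
  have hy : y ∈ Algebra.adjoin k (Set.range H) := gH ▸ Algebra.mem_top
  change y ∈ (GProj_psi (MvPolynomial.homogeneousSubmodule ι k) _ _ h).range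
  induction hy using Algebra.adjoin_induction with
  | mem y hy =>
    obtain ⟨i, rfl⟩ := hy
    have := GProj_mk (MvPolynomial.homogeneousSubmodule ι k) _ h (d := 1)
      (MvPolynomial.isHomogeneous_X k b) 1 (MvPolynomial.X i) (MvPolynomial.isHomogeneous_X k i)
    exact ⟨_, by simpa [Hb] using this⟩
  | algebraMap r =>
    refine ⟨_, (GProj_zero (MvPolynomial.homogeneousSubmodule ι k) _ h
      ⟨MvPolynomial.C r, MvPolynomial.isHomogeneous_C ι r⟩).trans ?_⟩
    simp
  | add y z _ _ hy hz => exact add_mem hy hz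
  | mul y z _ _ hy hz => exact mul_mem hy hz

theorem GProj_str {k : Type u} {ι : Type} [CommRing k] [Algebra k B] (H : ι → B) (b : ι)
    (h : IsUnit ((MvPolynomial.aeval H : MvPolynomial ι k →ₐ[k] B).toRingHom (MvPolynomial.X b)))
    (hb : MvPolynomial.X b ∈ MvPolynomial.homogeneousSubmodule ι k 1) :
    (sp (GProj_psi (MvPolynomial.homogeneousSubmodule ι k) _ _ h) ≫
      Proj.awayι (MvPolynomial.homogeneousSubmodule ι k) _ hb one_pos) ≫ Proj.toSpecZero _ ≫
      Spec.map (CommRingCat.ofHom (algebraMap k (MvPolynomial.homogeneousSubmodule ι k 0))) =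
      sp (algebraMap k B) := by
  rw [Category.assoc, Proj.awayι_toSpecZero_assoc, ← Spec.map_comp, ← Spec.map_comp,
    ← CommRingCat.ofHom_comp, ← CommRingCat.ofHom_comp]
  congr 2
  ext r
  rw [RingHom.comp_apply, RingHom.comp_apply, GProj_zero]
  simp

end Aux

attribute [local instance] MvPolynomial.gradedAlgebra

variable {k B₁ B₂ L : Type u} [Field k] [CommRing B₁] [CommRing B₂] [CommRing L] [Algebra k B₁]
  [Algebra k B₂] [Algebra k L] [Algebra B₁ L] [Algebra B₂ L] {X : Scheme.{u}}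
  {i₁ : Spec (.of B₁) ⟶ X} {i₂ : Spec (.of B₂) ⟶ X}

/-- Let `𝒜 = homogeneousSubmodule (Fin (N + 1)) k` (with `attribute [local instance] MvPolynomial.gradedAlgebra`).
For a `k`-algebra `B`, `F : Fin (N + 1) → B` and homogeneous `a` with `aeval F a` a unit, let
`ψ : HomogeneousLocalization.Away 𝒜 a →+* B` be `val` followed by `IsLocalization.Away.lift`; it does not change
when `F` is multiplied by a unit (homogeneity).  Glue `sp ψ₁ ≫ Proj.awayι 𝒜 (X b)` and `sp ψ₂ ≫ Proj.awayι 𝒜 (X a)`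
with `G.po.desc`: on `Spec L` both factor through `awayι 𝒜 (X a * X b)` (`Proj.SpecMap_awayMap_awayι`).  The
`ψ` are surjective, so the `sp ψ` are closed immersions.  The preimage of `basicOpen (X a)` is the range of `i₂`
(a prime of `B₁` not containing `w` comes from `L`; `Proj.awayι_preimage_basicOpen`), likewise for `b`; so the
squares are cartesian (`IsOpenImmersion.isPullback`) and `i` is an immersion
(`IsZariskiLocalAtTarget.of_range_subset_iSup`).  It is proper (`IsProper.of_comp`, `Proj.toSpecZero` is separated,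
and so is any `Spec.map`), so its range is closed: `IsClosedImmersion.of_isPreimmersion`. -/
theorem proj_gl {w : B₁} {x : B₂} (T : TC k L w x)
    (G : Gl2 (sp (algebraMap B₁ L)) (sp (algebraMap B₂ L)) i₁ i₂) (f : X ⟶ Spec (.of k))
    (h₁ : i₁ ≫ f = sp (algebraMap k B₁)) (h₂ : i₂ ≫ f = sp (algebraMap k B₂)) [IsProper f] {N m : ℕ}
    (hm : 0 < m) (H : Fin (N + 1) → B₁) (F : Fin (N + 1) → B₂) (a b : Fin (N + 1)) (Ha : H a = w ^ m)
    (Hb : H b = 1) (Fa : F a = 1) (Fb : F b = x ^ m)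
    (hc : ∀ i, algebraMap B₂ L (F i) = algebraMap B₂ L x ^ m * algebraMap B₁ L (H i))
    (gH : Algebra.adjoin k (Set.range H) = ⊤) (gF : Algebra.adjoin k (Set.range F) = ⊤) :
    IsProj f := by
  have := T.t1
  have := T.t2
  have := T.l1
  have := T.l2
  have := G.o1
  have := G.o2
  let 𝒜 := MvPolynomial.homogeneousSubmodule (Fin (N + 1)) k
  let φ₁ := (MvPolynomial.aeval H : MvPolynomial (Fin (N + 1)) k →ₐ[k] B₁).toRingHom
  let φ₂ := (MvPolynomial.aeval F : MvPolynomial (Fin (N + 1)) k →ₐ[k] B₂).toRingHom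
  have e1 : ∀ i, φ₁ (MvPolynomial.X i) = H i := fun i => MvPolynomial.aeval_X H i
  have e2 : ∀ i, φ₂ (MvPolynomial.X i) = F i := fun i => MvPolynomial.aeval_X F i
  have u1 : IsUnit (φ₁ (MvPolynomial.X b)) := by rw [e1, Hb]; exact isUnit_one
  have u2 : IsUnit (φ₂ (MvPolynomial.X a)) := by rw [e2, Fa]; exact isUnit_one
  have dX : ∀ i, MvPolynomial.X i ∈ 𝒜 1 := fun i => MvPolynomial.isHomogeneous_X k i
  have hglue := GProj_glue 𝒜 φ₁ φ₂ (algebraMap B₁ L) (algebraMap B₂ L)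
    (u := algebraMap B₂ L x ^ m) ((IsLocalization.Away.algebraMap_isUnit x).pow m)
    (fun n p hp => by
      have h1 : algebraMap B₂ L (φ₂ p) = MvPolynomial.aeval (fun i => algebraMap B₂ L (F i)) p :=
        (MvPolynomial.aeval_algebraMap_apply L F p).symm
      have h2 : algebraMap B₁ L (φ₁ p) = MvPolynomial.aeval (fun i => algebraMap B₁ L (H i)) p :=
        (MvPolynomial.aeval_algebraMap_apply L H p).symm
      rw [h1, h2, funext hc]
      exact GProj_hom _ _ hp)
    (dX a) (dX b) u1 u2 (by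
      rw [e1, Ha, map_pow]
      exact (IsLocalization.Away.algebraMap_isUnit w).pow m)
  let i := G.po.desc _ _ hglue
  have hi1 := G.po.inl_desc _ _ hglue
  have hi2 := G.po.inr_desc _ _ hglue
  have hf : i ≫ Proj.toSpecZero _ ≫ Spec.map (CommRingCat.ofHom
      (algebraMap k (MvPolynomial.homogeneousSubmodule (Fin (N + 1)) k 0))) = f := by
    refine G.po.hom_ext ?_ ?_
    · rw [← Category.assoc, hi1, h₁]
      exact GProj_str H b u1 _
    · rw [← Category.assoc, hi2, h₂]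
      exact GProj_str F a u2 _
  refine ⟨N, i, ?_, hf⟩
  have p2 := GProj_pre 𝒜 G.po.w G.cov w hm φ₁ (dX a) (dX b) (by rw [e1, Hb]) (by rw [e1, Ha]) u1
    i hi1 _ hi2
  have p1 := GProj_pre 𝒜 G.po.w.symm (fun z => (G.cov z).symm) x hm φ₂ (dX b) (dX a)
    (by rw [e2, Fa]) (by rw [e2, Fb]) u2 i hi2 _ hi1
  have c1 : IsClosedImmersion (sp (GProj_psi 𝒜 φ₁ _ u1)) :=
    IsClosedImmersion.spec_of_surjective _ (GProj_surj H b Hb gH u1)
  have c2 : IsClosedImmersion (sp (GProj_psi 𝒜 φ₂ _ u2)) :=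
    IsClosedImmersion.spec_of_surjective _ (GProj_surj F a Fa gF u2)
  have r1 := GProj_res _ _ _ i hi1 p1
  have r2 := GProj_res _ _ _ i hi2 p2
  have : MorphismProperty.RespectsRight @IsImmersion.{u} @IsOpenImmersion.{u} :=
    ⟨fun j hj g hg => inferInstance⟩
  have : IsImmersion i := by
    refine IsZariskiLocalAtTarget.of_range_subset_iSup (P := @IsImmersion)
      (fun t : Bool => cond t (Proj.awayι 𝒜 _ (dX b) one_pos).opensRange
        (Proj.awayι 𝒜 _ (dX a) one_pos).opensRange) ?_ ?_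
    · rintro _ ⟨z, rfl⟩
      simp only [TopologicalSpace.Opens.coe_iSup, Set.mem_iUnion]
      rcases G.cov z with hz | hz
      · refine ⟨true, ?_⟩
        have : z ∈ i ⁻¹ᵁ (Proj.awayι 𝒜 _ (dX b) one_pos).opensRange := by
          rw [p1]; exact hz
        exact this
      · refine ⟨false, ?_⟩
        have : z ∈ i ⁻¹ᵁ (Proj.awayι 𝒜 _ (dX a) one_pos).opensRange := by
          rw [p2]; exact hz
        exact this
    · rintro (_ | _)
      · exact r2
      · exact r1
  have : IsProper i := by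
    have : IsProper (i ≫ Proj.toSpecZero _ ≫ Spec.map (CommRingCat.ofHom
        (algebraMap k (MvPolynomial.homogeneousSubmodule (Fin (N + 1)) k 0)))) := by
      rw [hf]; infer_instance
    exact IsProper.of_comp i (Proj.toSpecZero _ ≫ Spec.map (CommRingCat.ofHom
      (algebraMap k (MvPolynomial.homogeneousSubmodule (Fin (N + 1)) k 0))))
  exact IsClosedImmersion.of_isPreimmersion i i.isClosedMap.isClosed_range

end Pool.Agent.MP_deef5c_ag.E

end

section

/-! The curve is projective. -/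

open CategoryTheory AlgebraicGeometry IsLocalRing Function Pool.Agent.MP_deef5c_ag.O
open scoped Polynomial PowerSeries

namespace Pool.Agent.MP_deef5c_ag.E

universe u

variable {k B₁ B₂ L : Type u} [Field k] [CommRing B₁] [CommRing B₂] [CommRing L] [Algebra k B₁]
  [Algebra k B₂] [Algebra k L] [Algebra B₁ L] [Algebra B₂ L] {X : Scheme.{u}}
  {i₁ : Spec (.of B₁) ⟶ X} {i₂ : Spec (.of B₂) ⟶ X}

theorem proj_ex {c : k} {w y₁ y₂ : B₁} {x s t : B₂} (p₁ : P1 c w y₁ y₂) (p₂ : P2 k x s t)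
    (T : TC k L w x) (hs : algebraMap B₂ L s = algebraMap B₁ L y₂ * algebraMap B₂ L x ^ 3)
    (ht : algebraMap B₂ L t = algebraMap B₂ L s ^ 3 *
      (algebraMap B₁ L y₁ - (algebraMap k L c + algebraMap B₂ L s) * algebraMap B₁ L y₂))
    (G : Gl2 (sp (algebraMap B₁ L)) (sp (algebraMap B₂ L)) i₁ i₂) (f : X ⟶ Spec (.of k))
    (h₁ : i₁ ≫ f = sp (algebraMap k B₁)) (h₂ : i₂ ≫ f = sp (algebraMap k B₂)) [IsProper f] :
    IsProj f := by
  have := T.t1
  have := T.t2
  have hi := T.inv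
  have hr := congrArg (algebraMap B₂ L) p₂.rel.1
  simp only [map_sub, map_mul, map_pow] at hr
  refine proj_gl T G f h₁ h₂ (N := 7) (m := 12) (by norm_num)
    ![w ^ 12, 1, w ^ 11, y₂ * w ^ 9, y₂ ^ 3 * w ^ 3 * (y₁ - algebraMap k B₁ c * y₂) - y₂ ^ 5, w, y₂, y₁]
    ![1, x ^ 12, x, s, t, x ^ 11, x ^ 9 * s,
      x ^ 9 * t * (s ^ 2 - x ^ 6) ^ 3 + (algebraMap k B₂ c + s) * s * x ^ 9] 0 1 rfl rfl rfl rfl
    (fun i => ?_) ?_ ?_
  · have hn : ∀ n, algebraMap B₂ L x ^ n * algebraMap B₁ L w ^ n = 1 := fun n => by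
      rw [← mul_pow, mul_comm, hi, one_pow]
    fin_cases i <;> simp only [Fin.reduceFinMk, Matrix.cons_val, map_sub, map_add, map_mul, map_pow,
      map_one, ← IsScalarTower.algebraMap_apply]
    · linear_combination -hn 12
    · ring
    · linear_combination -algebraMap B₂ L x * hn 11
    · linear_combination hs - algebraMap B₂ L x ^ 3 * algebraMap B₁ L y₂ * hn 9
    · rw [ht, hs]
      linear_combination -algebraMap B₂ L x ^ 9 * algebraMap B₁ L y₂ ^ 3 *
        (algebraMap B₁ L y₁ - algebraMap k L c * algebraMap B₁ L y₂) * hn 3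
    · linear_combination -algebraMap B₂ L x ^ 11 * hn 1
    · linear_combination algebraMap B₂ L x ^ 9 * hs
    · have h3 : (algebraMap B₂ L s * (algebraMap B₂ L s ^ 2 - algebraMap B₂ L x ^ 6)) ^ 3 =
          algebraMap B₂ L x ^ 3 := congrArg (· ^ 3) (by linear_combination hr)
      rw [ht]
      linear_combination algebraMap B₂ L x ^ 9 * (algebraMap B₁ L y₁ -
        (algebraMap k L c + algebraMap B₂ L s) * algebraMap B₁ L y₂) * h3 +
        (algebraMap k L c + algebraMap B₂ L s) * algebraMap B₂ L x ^ 9 * hs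
  · rw [eq_top_iff, ← p₁.gen]
    refine Algebra.adjoin_mono ?_
    rintro _ (rfl | rfl | rfl)
    exacts [⟨5, rfl⟩, ⟨7, rfl⟩, ⟨6, rfl⟩]
  · rw [eq_top_iff, ← p₂.gen]
    refine Algebra.adjoin_mono ?_
    rintro _ (rfl | rfl | rfl)
    exacts [⟨2, rfl⟩, ⟨3, rfl⟩, ⟨4, rfl⟩]

end Pool.Agent.MP_deef5c_ag.E

end

section

/-! The two coordinate rings. -/

open CategoryTheory AlgebraicGeometry IsLocalRing Function Pool.Agent.MP_deef5c_ag.O
open scoped Polynomial PowerSeries

namespace Pool.Agent.MP_deef5c_ag.E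

universe u

variable (k : Type u) [Field k] [CharP k 3]

theorem GRing_three (B : Type u) [CommRing B] [Algebra k B] : (3 : B) = 0 := by
  have h : ((3 : ℕ) : k) = 0 := CharP.cast_eq_zero k 3
  have h2 := congrArg (algebraMap k B) h
  rw [map_natCast, map_zero] at h2
  exact_mod_cast h2

/-- the Jacobian of the naive presentation with two relations -/
theorem GRing_jac {R : Type u} [CommRing R] {σ : Type} (v : Fin 2 → MvPolynomial σ R)
    (a : Fin 2 → σ) (ha : Function.Injective a) :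
    (Algebra.PreSubmersivePresentation.naive (v := v) a ha).jacobian =
      Ideal.Quotient.mk (Ideal.span (Set.range v))
        (MvPolynomial.pderiv (a 0) (v 0) * MvPolynomial.pderiv (a 1) (v 1) -
          MvPolynomial.pderiv (a 0) (v 1) * MvPolynomial.pderiv (a 1) (v 0)) := by
  rw [Algebra.PreSubmersivePresentation.jacobian_eq_jacobiMatrix_det, Matrix.det_fin_two]
  simp only [Algebra.PreSubmersivePresentation.jacobiMatrix_naive]
  rfl

/-- the polynomial ring in one variable -/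
noncomputable def GRing_pol (R : Type u) [CommRing R] :
    Algebra.SubmersivePresentation R R[X] Unit Empty where
  val _ := Polynomial.X
  σ' p := Polynomial.aeval (MvPolynomial.X ()) p
  aeval_val_σ' p := by
    rw [← Polynomial.aeval_algHom_apply]
    simp
  relation := Empty.elim
  span_range_relation_eq_ker := by
    rw [Set.range_eq_empty, Ideal.span_empty, eq_comm, eq_bot_iff]
    intro p hp
    rw [Algebra.Generators.ker_eq_ker_aeval_val, RingHom.mem_ker] at hp
    have h : ((Polynomial.aeval (MvPolynomial.X ()) : R[X] →ₐ[R] MvPolynomial Unit R).comp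
        (MvPolynomial.aeval fun _ : Unit => (Polynomial.X : R[X]))) = AlgHom.id R _ := by
      ext i
      simp
    have h2 := DFunLike.congr_fun h p
    rw [AlgHom.comp_apply, AlgHom.id_apply] at h2
    rw [Ideal.mem_bot, ← h2]
    erw [hp]
    rw [map_zero]
  map := Empty.elim
  map_inj := fun a => a.elim
  jacobian_isUnit := by
    rw [Algebra.PreSubmersivePresentation.jacobian_eq_jacobiMatrix_det, Matrix.det_isEmpty, map_one]
    exact isUnit_one

theorem GRing_pol_sm (R : Type u) [CommRing R] :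
    Algebra.IsStandardSmoothOfRelativeDimension 1 R R[X] :=
  (GRing_pol R).isStandardSmoothOfRelativeDimension (by simp [Algebra.Presentation.dimension])

/-- relations of the first chart -/
noncomputable def GRing_v1 (c : k) : Fin 2 → MvPolynomial (Fin 2) k[X] :=
  ![MvPolynomial.X 0 ^ 3 - MvPolynomial.X 0 -
      MvPolynomial.C (Polynomial.C c ^ 3 * Polynomial.X ^ 8 + Polynomial.X ^ 7),
    MvPolynomial.X 1 ^ 3 - MvPolynomial.X 1 - MvPolynomial.C (Polynomial.X ^ 8)]

/-- relations of the second chart -/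
noncomputable def GRing_v2 : Fin 2 → MvPolynomial (Fin 3) k :=
  ![MvPolynomial.X 1 ^ 3 - MvPolynomial.X 0 ^ 6 * MvPolynomial.X 1 - MvPolynomial.X 0,
    MvPolynomial.X 2 ^ 3 - MvPolynomial.X 1 ^ 6 * MvPolynomial.X 2 -
      TT (MvPolynomial.X 0) (MvPolynomial.X 1)]

theorem GRing_et (c : k) : Algebra.IsStandardSmoothOfRelativeDimension 0 k[X]
    (MvPolynomial (Fin 2) k[X] ⧸ Ideal.span (Set.range (GRing_v1 k c))) := by
  refine Algebra.SubmersivePresentation.isStandardSmoothOfRelativeDimension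
    ⟨Algebra.PreSubmersivePresentation.naive (v := GRing_v1 k c) id injective_id, ?_⟩
    (by simp [Algebra.Presentation.dimension])
  rw [GRing_jac]
  have h3 : (3 : MvPolynomial (Fin 2) k[X]) = 0 := GRing_three k _
  have h : MvPolynomial.pderiv (id 0) (GRing_v1 k c 0) * MvPolynomial.pderiv (id 1) (GRing_v1 k c 1) -
      MvPolynomial.pderiv (id 0) (GRing_v1 k c 1) * MvPolynomial.pderiv (id 1) (GRing_v1 k c 0) = 1 := by
    simp only [GRing_v1, id, Matrix.cons_val_zero, Matrix.cons_val_one, map_sub,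
      MvPolynomial.pderiv_C, Derivation.leibniz_pow, MvPolynomial.pderiv_X]
    simp [h3]
    ring
  rw [h, map_one]
  exact isUnit_one

/-- For instance `B = MvPolynomial (Fin 2) k[X] ⧸ (relations)`, which is standard smooth of relative dimension
`0` over `k[X]` (`PreSubmersivePresentation.naive`, the Jacobian matrix is `-1`), hence flat, so that `w = X`
is a non-zero-divisor; `k[X]` is standard smooth of relative dimension one over `k`
(`IsStandardSmoothOfRelativeDimension.trans`).  Alternatively `MvPolynomial (Fin 3) k ⧸ (relations)`, or a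
tower of two `AdjoinRoot` of monic polynomials (free modules). -/
theorem exists_p1 (c : k) : ∃ (B : Type u) (_ : CommRing B) (_ : Algebra k B) (w y₁ y₂ : B),
    P1 c w y₁ y₂ ∧ Algebra.IsStandardSmoothOfRelativeDimension 1 k B ∧ w ∈ nonZeroDivisors B := by
  let I := Ideal.span (Set.range (GRing_v1 k c))
  have hv : ∀ i, Ideal.Quotient.mk I (GRing_v1 k c i) = 0 := fun i =>
    Ideal.Quotient.eq_zero_iff_mem.2 (Ideal.subset_span ⟨i, rfl⟩)
  have he := GRing_et k c
  have hp := GRing_pol_sm k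
  refine ⟨MvPolynomial (Fin 2) k[X] ⧸ I, inferInstance, inferInstance,
    Ideal.Quotient.mk I (MvPolynomial.C Polynomial.X), Ideal.Quotient.mk I (MvPolynomial.X 0),
    Ideal.Quotient.mk I (MvPolynomial.X 1), ⟨⟨?_, ?_⟩, ?_, ?_⟩,
    Algebra.IsStandardSmoothOfRelativeDimension.trans (n := 1) (m := 0) k k[X] _, ?_⟩
  · have h := hv 1
    simp only [GRing_v1, Matrix.cons_val_one, Matrix.cons_val_zero, map_sub, map_pow] at h
    exact sub_eq_zero.1 h
  · have h := hv 0
    simp only [GRing_v1, Matrix.cons_val_zero, map_sub, map_pow, map_add, map_mul] at h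
    exact sub_eq_zero.1 h
  · rw [eq_top_iff]
    rintro b -
    obtain ⟨p, rfl⟩ := Ideal.Quotient.mk_surjective b
    induction p using MvPolynomial.induction_on with
    | C q =>
      induction q using Polynomial.induction_on' with
      | add q r hq hr =>
        rw [map_add, map_add]
        exact add_mem hq hr
      | monomial n a =>
        rw [← Polynomial.C_mul_X_pow_eq_monomial, map_mul, map_mul, map_pow, map_pow]
        exact mul_mem (Subalgebra.algebraMap_mem _ a)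
          (pow_mem (Algebra.subset_adjoin (by simp)) n)
    | add p q hp hq =>
      rw [map_add]
      exact add_mem hp hq
    | mul_X p i hp =>
      rw [map_mul]
      refine mul_mem hp (Algebra.subset_adjoin ?_)
      fin_cases i <;> simp
  · intro R _ _ w' y₁' y₂' hR
    let ψ : MvPolynomial (Fin 2) k[X] →ₐ[k] R :=
      MvPolynomial.aevalTower (Polynomial.aeval w') ![y₁', y₂']
    have hψ : ∀ a ∈ I, ψ a = 0 := by
      intro a ha
      refine (show I ≤ RingHom.ker ψ from Ideal.span_le.2 ?_) ha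
      rintro _ ⟨i, rfl⟩
      have h1 := hR.1
      have h2 := hR.2
      fin_cases i
      · simp [ψ, GRing_v1, h2]
      · simp [ψ, GRing_v1, h1]
    refine ⟨Ideal.Quotient.liftₐ I ψ hψ, ?_, ?_, ?_⟩ <;> simp [ψ]
  · have hs := Algebra.IsStandardSmoothOfRelativeDimension.isStandardSmooth (H := he)
    have hf : Module.Flat k[X] (MvPolynomial (Fin 2) k[X] ⧸ I) :=
      Algebra.Smooth.flat k[X] (MvPolynomial (Fin 2) k[X] ⧸ I)
    have hr : IsSMulRegular (MvPolynomial (Fin 2) k[X] ⧸ I) (Polynomial.X : k[X]) :=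
      Module.Flat.isSMulRegular_of_nonZeroDivisors
        (mem_nonZeroDivisors_of_ne_zero Polynomial.X_ne_zero)
    refine mem_nonZeroDivisors_iff_left.2 fun b hb => hr ?_
    change (Polynomial.X : k[X]) • b = (Polynomial.X : k[X]) • 0
    rw [smul_zero]
    exact (Algebra.smul_def (Polynomial.X : k[X]) b).trans hb

/-- `B = MvPolynomial (Fin 3) k ⧸ (relations)` with the `naive` presubmersive presentation for the variables
`x, s`: in characteristic three the Jacobian determinant is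
`(1 + x^15 s^3) (1 + 2 s - x - s^3 + x^6 s) = JJ x s` in `B`.  Compose with
`PreSubmersivePresentation.localizationAway` (`comp_jacobian_eq_jacobian_smul_jacobian`,
`dimension_comp_eq_dimension_add_dimension`). -/
theorem exists_p2 : ∃ (B : Type u) (_ : CommRing B) (_ : Algebra k B) (x s t : B),
    P2 k x s t ∧ Algebra.IsStandardSmoothOfRelativeDimension 1 k (Localization.Away (JJ x s)) := by
  let I := Ideal.span (Set.range (GRing_v2 k))
  have hv : ∀ i, Ideal.Quotient.mk I (GRing_v2 k i) = 0 := fun i =>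
    Ideal.Quotient.eq_zero_iff_mem.2 (Ideal.subset_span ⟨i, rfl⟩)
  have r1 : Ideal.Quotient.mk I (MvPolynomial.X 1) ^ 3 -
      Ideal.Quotient.mk I (MvPolynomial.X 0) ^ 6 * Ideal.Quotient.mk I (MvPolynomial.X 1) =
      Ideal.Quotient.mk I (MvPolynomial.X 0) := by
    have h := hv 0
    simp only [GRing_v2, Matrix.cons_val_zero, map_sub, map_pow, map_mul] at h
    exact sub_eq_zero.1 h
  refine ⟨MvPolynomial (Fin 3) k ⧸ I, inferInstance, inferInstance,
    Ideal.Quotient.mk I (MvPolynomial.X 0), Ideal.Quotient.mk I (MvPolynomial.X 1),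
    Ideal.Quotient.mk I (MvPolynomial.X 2), ⟨⟨r1, ?_⟩, ?_, ?_⟩, ?_⟩
  · have h := hv 1
    simp only [GRing_v2, TT, Matrix.cons_val_one, Matrix.cons_val_zero, map_sub, map_pow, map_mul,
      map_add, map_one] at h
    exact sub_eq_zero.1 h
  · rw [eq_top_iff]
    rintro b -
    obtain ⟨p, rfl⟩ := Ideal.Quotient.mk_surjective b
    induction p using MvPolynomial.induction_on with
    | C q => exact Subalgebra.algebraMap_mem _ q
    | add p q hp hq =>
      rw [map_add]
      exact add_mem hp hq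
    | mul_X p i hp =>
      rw [map_mul]
      refine mul_mem hp (Algebra.subset_adjoin ?_)
      fin_cases i <;> simp
  · intro R _ _ x' s' t' hR
    let ψ : MvPolynomial (Fin 3) k →ₐ[k] R := MvPolynomial.aeval ![x', s', t']
    have hψ : ∀ a ∈ I, ψ a = 0 := by
      intro a ha
      refine (show I ≤ RingHom.ker ψ from Ideal.span_le.2 ?_) ha
      rintro _ ⟨i, rfl⟩
      have h1 := hR.1
      have h2 := hR.2
      rw [TT] at h2
      fin_cases i
      · simp [ψ, GRing_v2, h1]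
      · simp [ψ, GRing_v2, TT, h2]
    refine ⟨Ideal.Quotient.liftₐ I ψ hψ, ?_, ?_, ?_⟩ <;> simp [ψ]
  · have ha : Function.Injective (![0, 1] : Fin 2 → Fin 3) := by decide
    let P := Algebra.PreSubmersivePresentation.naive (v := GRing_v2 k) ![0, 1] ha
    have h3 : (3 : MvPolynomial (Fin 3) k ⧸ I) = 0 := GRing_three k _
    have hj : P.jacobian =
        JJ (Ideal.Quotient.mk I (MvPolynomial.X 0)) (Ideal.Quotient.mk I (MvPolynomial.X 1)) := by
      have h3' : (3 : MvPolynomial (Fin 3) k) = 0 := GRing_three k _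
      have h6 : (6 : MvPolynomial (Fin 3) k) = 0 := by linear_combination 2 * h3'
      have h15 : (15 : MvPolynomial (Fin 3) k) = 0 := by linear_combination 5 * h3'
      have e : MvPolynomial.pderiv 0 (GRing_v2 k 0) * MvPolynomial.pderiv 1 (GRing_v2 k 1) -
          MvPolynomial.pderiv 0 (GRing_v2 k 1) * MvPolynomial.pderiv 1 (GRing_v2 k 0) =
          (1 + MvPolynomial.X 0 ^ 15 * MvPolynomial.X 1 ^ 3) *
            (1 + 2 * MvPolynomial.X 1 - MvPolynomial.X 0 - MvPolynomial.X 1 ^ 3 +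
              MvPolynomial.X 0 ^ 6 * MvPolynomial.X 1) := by
        simp only [GRing_v2, TT, Matrix.cons_val_zero, Matrix.cons_val_one, map_sub, map_add,
          Derivation.leibniz, Derivation.leibniz_pow, MvPolynomial.pderiv_X,
          Derivation.map_one_eq_zero]
        simp [h3', h6, h15]
        ring
      rw [GRing_jac]
      simp only [Matrix.cons_val_zero, Matrix.cons_val_one]
      rw [e, JJ]
      simp only [map_mul, map_add, map_sub, map_pow, map_one, map_ofNat]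
      congr 1
      linear_combination (-1 : MvPolynomial (Fin 3) k ⧸ I) * r1 +
        (Ideal.Quotient.mk I (MvPolynomial.X 1) - Ideal.Quotient.mk I (MvPolynomial.X 0)) * h3
    let J := JJ (Ideal.Quotient.mk I (MvPolynomial.X 0)) (Ideal.Quotient.mk I (MvPolynomial.X 1))
    let Q := Algebra.PreSubmersivePresentation.localizationAway (Localization.Away J) J
    refine Algebra.SubmersivePresentation.isStandardSmoothOfRelativeDimension ⟨Q.comp P, ?_⟩
      (by simp [Algebra.Presentation.dimension])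
    rw [Algebra.PreSubmersivePresentation.comp_jacobian_eq_jacobian_smul_jacobian, hj,
      Algebra.PreSubmersivePresentation.localizationAway_jacobian, Algebra.smul_def]
    have hu : IsUnit (algebraMap _ (Localization.Away J) J) := IsLocalization.Away.algebraMap_isUnit J
    exact hu.mul hu

end Pool.Agent.MP_deef5c_ag.E

end

section

/-! The second chart is a domain. -/

open PowerSeries IsLocalRing Function Pool.Agent.MP_deef5c_ag.O
open scoped Polynomial

namespace Pool.Agent.MP_deef5c_ag.E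

universe u

variable {k : Type u} [Field k] [CharP k 3]

section Aux

omit [CharP k 3]

theorem GDom_ord {f u g : k⟦X⟧} (h : f * u = g) (hu : constantCoeff u = 1) : order f = order g := by
  rw [← h, order_mul, order_zero_of_unit (f := u) (isUnit_iff_constantCoeff.2 (hu ▸ isUnit_one)), add_zero]

theorem GDom_li {ι : Type*} {f : ι → k⟦X⟧} {d : ι → ℕ} (hd : Injective d)
    (h : ∀ i, order (f i) = d i) : LinearIndependent k f := by
  classical
  rw [linearIndependent_iff']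
  intro S g hg
  by_contra hne
  push Not at hne
  obtain ⟨i, hi, hmin⟩ := Finset.exists_min_image (S.filter fun i => g i ≠ 0) d
    (hne.imp fun i hi => Finset.mem_filter.2 hi)
  obtain ⟨hiS, hgi⟩ := Finset.mem_filter.1 hi
  have h1 := congrArg (coeff (d i)) hg
  rw [map_sum, map_zero, Finset.sum_eq_single i (fun j hj hji => ?_) (fun h => absurd hiS h),
    map_smul, smul_eq_mul] at h1
  · exact mul_ne_zero hgi (order_eq_nat.1 (h i)).1 h1
  · by_cases hgj : g j = 0
    · rw [hgj, zero_smul, map_zero]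
    · have h2 := hmin j (Finset.mem_filter.2 ⟨hj, hgj⟩)
      rw [map_smul, (order_eq_nat.1 (h j)).2 _ (h2.lt_of_ne fun e => hji (hd e).symm), smul_zero]

variable {B : Type u} [CommRing B] [Algebra k B]

theorem GDom_cub {S : Set B} {y a₀ a₁ : B} (h0 : a₀ ∈ Algebra.adjoin k S)
    (h1 : a₁ ∈ Algebra.adjoin k S) (h : y ^ 3 = a₁ * y + a₀) {b : B}
    (hb : b ∈ Algebra.adjoin k (insert y S)) : ∃ p₀ ∈ Algebra.adjoin k S, ∃ p₁ ∈ Algebra.adjoin k S,
      ∃ p₂ ∈ Algebra.adjoin k S, b = p₀ + p₁ * y + p₂ * y ^ 2 := by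
  induction hb using Algebra.adjoin_induction with
  | mem z hz =>
    rcases hz with rfl | hz
    · exact ⟨0, zero_mem _, 1, one_mem _, 0, zero_mem _, by ring⟩
    · exact ⟨z, Algebra.subset_adjoin hz, 0, zero_mem _, 0, zero_mem _, by ring⟩
  | algebraMap r => exact ⟨_, Subalgebra.algebraMap_mem _ r, 0, zero_mem _, 0, zero_mem _, by ring⟩
  | add _ _ _ _ hp hq =>
    obtain ⟨p₀, a0, p₁, a1, p₂, a2, rfl⟩ := hp
    obtain ⟨q₀, b0, q₁, b1, q₂, b2, rfl⟩ := hq
    exact ⟨_, add_mem a0 b0, _, add_mem a1 b1, _, add_mem a2 b2, by ring⟩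
  | mul _ _ _ _ hp hq =>
    obtain ⟨p₀, a0, p₁, a1, p₂, a2, rfl⟩ := hp
    obtain ⟨q₀, b0, q₁, b1, q₂, b2, rfl⟩ := hq
    have c3 := add_mem (mul_mem a1 b2) (mul_mem a2 b1)
    have c4 := mul_mem a2 b2
    exact ⟨_, add_mem (mul_mem a0 b0) (mul_mem c3 h0),
      _, add_mem (add_mem (add_mem (mul_mem a0 b1) (mul_mem a1 b0)) (mul_mem c3 h1)) (mul_mem c4 h0),
      _, add_mem (add_mem (add_mem (mul_mem a0 b2) (mul_mem a1 b1)) (mul_mem a2 b0)) (mul_mem c4 h1),
      by linear_combination (p₁ * q₂ + p₂ * q₁ + p₂ * q₂ * y) * h⟩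

theorem GDom_two {x s t a₀ a₁ b₀ b₁ : B} (gen : Algebra.adjoin k (insert t (insert s {x})) = ⊤)
    (h0 : a₀ ∈ Algebra.adjoin k {x}) (h1 : a₁ ∈ Algebra.adjoin k {x}) (h : s ^ 3 = a₁ * s + a₀)
    (h0' : b₀ ∈ Algebra.adjoin k (insert s {x})) (h1' : b₁ ∈ Algebra.adjoin k (insert s {x}))
    (h' : t ^ 3 = b₁ * t + b₀) (M : AddSubgroup B)
    (hM : ∀ p ∈ Algebra.adjoin k {x}, ∀ i j : Fin 3, p * (s ^ (i : ℕ) * t ^ (j : ℕ)) ∈ M) (b : B) :
    b ∈ M := by
  have key : ∀ p ∈ Algebra.adjoin k (insert s {x}), ∀ j : Fin 3, p * t ^ (j : ℕ) ∈ M := by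
    intro p hp j
    obtain ⟨p₀, a0, p₁, a1, p₂, a2, rfl⟩ := GDom_cub h0 h1 h hp
    have := add_mem (add_mem (hM _ a0 0 j) (hM _ a1 1 j)) (hM _ a2 2 j)
    convert this using 1
    simp only [Fin.val_zero, Fin.val_one, Fin.val_two]
    ring
  obtain ⟨p₀, a0, p₁, a1, p₂, a2, rfl⟩ := GDom_cub h0' h1' h' (b := b) (gen ▸ Algebra.mem_top)
  have := add_mem (add_mem (key _ a0 0) (key _ a1 1)) (key _ a2 2)
  convert this using 1
  simp only [Fin.val_zero, Fin.val_one, Fin.val_two]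
  ring

theorem GDom_int {x s t a₀ a₁ b₀ b₁ : B} (gen : Algebra.adjoin k (insert t (insert s {x})) = ⊤)
    (h0 : a₀ ∈ Algebra.adjoin k {x}) (h1 : a₁ ∈ Algebra.adjoin k {x}) (h : s ^ 3 = a₁ * s + a₀)
    (h0' : b₀ ∈ Algebra.adjoin k (insert s {x})) (h1' : b₁ ∈ Algebra.adjoin k (insert s {x}))
    (h' : t ^ 3 = b₁ * t + b₀) :
    Algebra.FiniteType k B ∧ ∀ b : B, IsIntegral (Algebra.adjoin k {x}) b := by
  classical
  refine ⟨⟨⟨{t, s, x}, by simpa using gen⟩⟩, fun b => ?_⟩
  have : Module.Finite (Algebra.adjoin k {x}) B := by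
    refine ⟨(Submodule.fg_def).2 ⟨Set.range fun i : Fin 3 × Fin 3 => s ^ (i.1 : ℕ) * t ^ (i.2 : ℕ),
      Set.finite_range _, eq_top_iff.2 fun b _ => ?_⟩⟩
    refine GDom_two gen h0 h1 h h0' h1' h' (Submodule.span (Algebra.adjoin k {x}) (Set.range
      fun i : Fin 3 × Fin 3 => s ^ (i.1 : ℕ) * t ^ (i.2 : ℕ))).toAddSubgroup (fun p hp i j => ?_) b
    exact Submodule.smul_mem (Submodule.span (Algebra.adjoin k {x}) (Set.range
      fun i : Fin 3 × Fin 3 => s ^ (i.1 : ℕ) * t ^ (i.2 : ℕ))) ⟨p, hp⟩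
      (Submodule.subset_span (Set.mem_range_self (i, j)))
  exact IsIntegral.of_finite _ b

theorem GDom_mem {x s : B} : x ∈ Algebra.adjoin k (insert s {x}) ∧
    s ∈ Algebra.adjoin k (insert s {x}) :=
  ⟨Algebra.subset_adjoin (by simp), Algebra.subset_adjoin (by simp)⟩

theorem GDom_TT {x s : B} : TT x s ∈ Algebra.adjoin k (insert s {x}) := by
  obtain ⟨hx, hs⟩ := GDom_mem (k := k) (x := x) (s := s)
  exact mul_mem (mul_mem hs (add_mem (one_mem _) (mul_mem (pow_mem hx _) (pow_mem hs _))))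
    (sub_mem (sub_mem (add_mem (one_mem _) hs) hx) (pow_mem hs _))

theorem GDom_rel {x s t : B} (h : R2 x s t) :
    s ^ 3 = x ^ 6 * s + x ∧ t ^ 3 = s ^ 6 * t + TT x s :=
  ⟨eq_add_of_sub_eq' h.1, eq_add_of_sub_eq' h.2⟩

theorem GDom_gen {x s t : B} (h : Algebra.adjoin k {x, s, t} = ⊤) :
    Algebra.adjoin k (insert t (insert s {x})) = ⊤ := by
  rw [← h]
  congr 1
  ext z
  simp only [Set.mem_insert_iff, Set.mem_singleton_iff]
  tauto

end Aux

/-- `cub_ex` over `D = k` with `r = w = 0`: first `q = X^3`, `T = X` gives `x₁` with `X^3 - x₁^6 X = x₁`; then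
`q = X^3`, `T = TT x₁ X` (`TT_unit`) gives `φ`; `s = φ X`, `x = φ x₁`.  Orders: `x₁ = X^3 * unit` and
`s * unit = X^3 - s^6 X`. -/
theorem exists_model : ∃ x s : k⟦X⟧, R2 x s X ∧ order x = (9 : ℕ) ∧ order s = (3 : ℕ) := by
  have hm : ∀ a : k, a ∈ maximalIdeal k ↔ a = 0 := fun a => by
    rw [maximalIdeal_eq_bot, Ideal.mem_bot]
  obtain ⟨ψ, hψ, e1⟩ := cub_ex (D := k) (q := X ^ 3) (r := 0) (w := 0) (T := X) (by simp) (by simp)
    (by simp)
  obtain ⟨t1, t2⟩ := TT_unit (RingHom.id k) surjective_id hψ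
  obtain ⟨φ, hφ, e2⟩ := cub_ex (D := k) (q := X ^ 3) (r := 0) (w := 0) (by simp) t1 t2
  rw [ch_poly, map_zero, map_pow] at e1 e2
  rw [map_TT] at e2
  have e3 : X ^ 3 - ψ X ^ 6 * X = ψ X := by linear_combination e1
  have e4 := congrArg φ e3
  rw [map_sub, map_mul, map_pow, map_pow] at e4
  have e5 : X ^ 3 - φ X ^ 6 * X = TT (φ (ψ X)) (φ X) := by linear_combination e2
  have s0 := (hm _).1 hφ
  have x0 := (hm _).1 (en_mem φ hφ hψ)
  have hs : order (φ X) = (3 : ℕ) := by
    rw [← order_X_pow (R := k) 3]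
    refine GDom_ord (u := (1 + φ (ψ X) ^ 15 * φ X ^ 3) * (1 + φ X - φ (ψ X) - φ X ^ 3) +
      φ X ^ 5 * X) ?_ (by simp [s0, x0])
    rw [TT] at e5
    linear_combination -e5
  refine ⟨φ (ψ X), φ X, ⟨e4, e5⟩, ?_, hs⟩
  rw [GDom_ord (u := 1 + φ (ψ X) ^ 5 * φ X) (g := φ X ^ 3) (by linear_combination -e4)
    (by simp [s0]), order_pow, hs]
  rfl

/-- Every element is `∑_{i,j<3} p i j (x) s^i t^j` (the set of such sums is a subalgebra: it is stable under
multiplication by `x, s, t`; first reduce powers of `t` over `k[x, s]`, then powers of `s`).  The map to `k⟦X⟧`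
given by `exists_model` and `univ` is injective, since the non-zero terms have orders `9 n + 3 i + j`, which
are distinct. -/
theorem P2.dom {B : Type u} [CommRing B] [Algebra k B] {x s t : B} (h : P2 k x s t) :
    IsDomain B ∧ x ≠ 0 ∧ t ≠ 0 := by
  obtain ⟨x', s', hr, hx, hs⟩ := exists_model (k := k)
  obtain ⟨φ, φx, φs, φt⟩ := h.univ _ x' s' X hr
  let v : ℕ × Fin 3 × Fin 3 → B := fun i => x ^ i.1 * (s ^ (i.2.1 : ℕ) * t ^ (i.2.2 : ℕ))
  have hv : Submodule.span k (Set.range v) = ⊤ := by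
    refine eq_top_iff.2 fun b _ => GDom_two (GDom_gen h.gen) (Algebra.self_mem_adjoin_singleton k x)
      (pow_mem (Algebra.self_mem_adjoin_singleton k x) 6) (GDom_rel h.rel).1 GDom_TT
      (pow_mem GDom_mem.2 6) (GDom_rel h.rel).2
      (Submodule.span k (Set.range v)).toAddSubgroup
      (fun p hp i j => ?_) b
    rw [Algebra.adjoin_singleton_eq_range_aeval] at hp
    obtain ⟨q, rfl⟩ := hp
    change Polynomial.aeval x q * _ ∈ Submodule.span k (Set.range v)
    rw [Polynomial.aeval_eq_sum_range, Finset.sum_mul]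
    refine sum_mem fun n _ => ?_
    rw [smul_mul_assoc]
    exact Submodule.smul_mem _ _ (Submodule.subset_span ⟨(n, i, j), rfl⟩)
  have hli : LinearIndependent k (φ.toLinearMap ∘ v) := by
    refine GDom_li (d := fun i => 9 * i.1 + 3 * i.2.1 + i.2.2) ?_ fun i => ?_
    · rintro ⟨n, i, j⟩ ⟨n', i', j'⟩ e
      have := i.2
      have := j.2
      have := i'.2
      have := j'.2
      simp only at e
      exact Prod.ext (by simp only; omega) (Prod.ext (Fin.ext (by simp only; omega))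
        (Fin.ext (by simp only; omega)))
    · simp only [comp_apply, AlgHom.toLinearMap_apply, v, map_mul, map_pow, φx, φs, φt, order_mul,
        order_pow, hx, hs, order_X, nsmul_eq_mul]
      push_cast
      ring
  have hinj : Injective φ := LinearMap.injective_of_linearIndependent hv hli
  refine ⟨hinj.isDomain φ, fun e => ?_, fun e => ?_⟩
  · rw [e, map_zero] at φx
    rw [← φx, order_zero] at hx
    exact ENat.top_ne_natCast _ hx
  · rw [e, map_zero] at φt
    exact X_ne_zero φt.symm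

omit [CharP k 3] in
/-- `s` is integral over `k[x]`, `t` over `k[x, s]` -/
theorem P2.int {B : Type u} [CommRing B] [Algebra k B] {x s t : B} (h : P2 k x s t) :
    Algebra.FiniteType k B ∧ ∀ b : B, IsIntegral (Algebra.adjoin k {x}) b := by
  exact GDom_int (GDom_gen h.gen) (Algebra.self_mem_adjoin_singleton k x)
    (pow_mem (Algebra.self_mem_adjoin_singleton k x) 6) (GDom_rel h.rel).1 GDom_TT
    (pow_mem GDom_mem.2 6) (GDom_rel h.rel).2

omit [CharP k 3] in
theorem P1.int {c : k} {B : Type u} [CommRing B] [Algebra k B] {w y₁ y₂ : B} (h : P1 c w y₁ y₂) :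
    Algebra.FiniteType k B ∧ ∀ b : B, IsIntegral (Algebra.adjoin k {w}) b := by
  have hw : w ∈ Algebra.adjoin k {w} := Algebra.self_mem_adjoin_singleton k w
  exact GDom_int (GDom_gen h.gen) (add_mem (mul_mem (pow_mem (Subalgebra.algebraMap_mem _ c) 3)
    (pow_mem hw 8)) (pow_mem hw 7)) (one_mem _) (by linear_combination h.rel.2)
    (pow_mem GDom_mem.1 8) (one_mem _) (by linear_combination h.rel.1)

omit [CharP k 3] in
/-- modulo `x` the element `s` is nilpotent and `JJ x s ≡ 1 - s` -/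
theorem span_JJ {B : Type u} [CommRing B] {x s t : B} (h : R2 x s t) :
    Ideal.span {x, JJ x s} = ⊤ := by
  rw [Ideal.eq_top_iff_one, Ideal.mem_span_pair]
  refine ⟨1 + x ^ 5 * s - (1 + x ^ 14 * s ^ 3 * (1 - s + x)) * (1 + s + s ^ 2), 1 + s + s ^ 2, ?_⟩
  rw [JJ]
  linear_combination -h.1

end Pool.Agent.MP_deef5c_ag.E

end

section

/-! The overlap of the two charts. -/

open PowerSeries IsLocalRing Function Pool.Agent.MP_deef5c_ag.O
open scoped Polynomial

namespace Pool.Agent.MP_deef5c_ag.E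

universe u

variable {k : Type u} [Field k] [CharP k 3]

theorem GLink_a {L : Type u} [CommRing L] (h3 : (3 : L) = 0) {c x s w y z : L}
    (hc : c - c ^ 3 = 1) (h1 : y ^ 3 - y = w ^ 8) (h2 : s ^ 3 * w ^ 8 = w ^ 7 + x * y) :
    (z + (c + s) * y) ^ 3 - (z + (c + s) * y) - (c ^ 3 * w ^ 8 + w ^ 7) =
      z ^ 3 - z - (1 + s - x - s ^ 3) * y := by
  have f : ∀ a b : L, (a + b) ^ 3 = a ^ 3 + b ^ 3 := fun a b => by
    linear_combination (a ^ 2 * b + a * b ^ 2) * h3
  rw [f, mul_pow, f]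
  linear_combination (c ^ 3 + s ^ 3) * h1 - y * hc + h2

theorem GLink_b {L : Type u} [CommRing L] (h3 : (3 : L) = 0) {x s y : L}
    (h1 : s ^ 3 - x ^ 6 * s = x) (h2 : s = y * x ^ 3) :
    s ^ 9 * ((1 + s - x - s ^ 3) * y) = TT x s := by
  have e : s ^ 3 = x + x ^ 6 * s := by linear_combination h1
  have e9 : s ^ 9 = x ^ 3 * (1 + x ^ 15 * s ^ 3) := by
    rw [show s ^ 9 = (s ^ 3) ^ 3 by ring]
    conv_lhs => rw [e]
    linear_combination (x ^ 8 * s + x ^ 13 * s ^ 2) * h3
  rw [TT, e9]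
  linear_combination (-((1 + x ^ 15 * s ^ 3) * (1 + s - x - s ^ 3))) * h2

theorem GLink_pow {L : Type u} [CommRing L] {w x : L} (hw : w * x = 1) (n : ℕ) :
    w ^ n * x ^ n = 1 := by
  rw [← mul_pow, hw, one_pow]

theorem GLink_c {L : Type u} [CommRing L] {x s w : L} (h1 : s ^ 3 - x ^ 6 * s = x)
    (hw : w * x = 1) : s ^ 3 * w ^ 8 = w ^ 7 + x * (s * w ^ 3) := by
  linear_combination w ^ 8 * h1 + (w ^ 7 - s * w ^ 2) * hw + s * w ^ 2 * GLink_pow hw 6

theorem GLink_d {L : Type u} [CommRing L] {x s w : L} (h1 : s ^ 3 - x ^ 6 * s = x)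
    (hw : w * x = 1) : s * (w * (s ^ 2 - x ^ 6)) = 1 := by
  linear_combination w * h1 + hw

theorem GLink_e {L : Type u} [CommRing L] {x w y : L} (h1 : y ^ 3 - y = w ^ 8)
    (hw : w * x = 1) : (y * x ^ 3) ^ 3 - x ^ 6 * (y * x ^ 3) = x := by
  linear_combination x ^ 9 * h1 + x * GLink_pow hw 8

/-- from the second chart to the first: `y₂ = s w^3`, `z = t / s^3`, `y₁ = z + (c + s) y₂`; `s` is a unit since
`s (s^2 - x^6) = x`.  One has `s^9 = x^3 (1 + x^15 s^3)`, so `z^3 - z = (1 + s - x - s^3) y₂`, and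
`x^9 y₂^3 = s^3`. -/
theorem r1_of_r2 {L : Type u} [CommRing L] (h3 : (3 : L) = 0) {c x s t w : L} (hc : c - c ^ 3 = 1)
    (h : R2 x s t) (hw : w * x = 1) :
    R1 c w (t * (w * (s ^ 2 - x ^ 6)) ^ 3 + (c + s) * (s * w ^ 3)) (s * w ^ 3) := by
  obtain ⟨h1, h2⟩ := h
  have hv := GLink_d h1 hw
  generalize w * (s ^ 2 - x ^ 6) = v at hv
  have hy : (s * w ^ 3) ^ 3 - s * w ^ 3 = w ^ 8 := by
    linear_combination w ^ 9 * h1 + w ^ 8 * hw + s * w ^ 3 * GLink_pow hw 6
  refine ⟨hy, ?_⟩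
  have a := GLink_a h3 (z := t * v ^ 3) hc hy (GLink_c h1 hw)
  have b := GLink_b h3 (y := s * w ^ 3) h1 (by linear_combination (-s) * GLink_pow hw 3)
  rw [← h2] at b
  linear_combination a - v ^ 9 * b + (1 + s - x - s ^ 3) * (s * w ^ 3) * GLink_pow hv 9
    + t * v ^ 3 * GLink_pow hv 6

theorem r2_of_r1 {L : Type u} [CommRing L] (h3 : (3 : L) = 0) {c x w y₁ y₂ : L} (hc : c - c ^ 3 = 1)
    (h : R1 c w y₁ y₂) (hw : w * x = 1) :
    R2 x (y₂ * x ^ 3) ((y₂ * x ^ 3) ^ 3 * (y₁ - (c + y₂ * x ^ 3) * y₂)) := by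
  obtain ⟨h1, h2⟩ := h
  have e := GLink_e h1 hw
  refine ⟨e, ?_⟩
  have hs : y₂ * x ^ 3 * w ^ 3 = y₂ := by linear_combination y₂ * GLink_pow hw 3
  have c2 := GLink_c e hw
  rw [hs] at c2
  have b := GLink_b h3 e rfl
  generalize y₂ * x ^ 3 = s at *
  have a := GLink_a h3 (z := y₁ - (c + s) * y₂) hc h1 c2
  rw [sub_add_cancel] at a
  generalize y₁ - (c + s) * y₂ = z at *
  rw [← b]
  linear_combination s ^ 9 * (h2 - a)

/-- `φ` from `univ` and `r1_of_r2`.  Let `L₁ = Localization.Away w`; `r2_of_r1` gives `B₂ → L₁`; both maps extend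
to the localisations (`IsLocalization.Away.lift`) and are inverse to each other (check on generators,
`AlgHom.ext_of_adjoin_eq_top`, `IsLocalization.ringHom_ext`); transport with
`IsLocalization.isLocalization_of_algEquiv`. -/
theorem link {c : k} (hc : c - c ^ 3 = 1) {B₁ B₂ : Type u} [CommRing B₁] [CommRing B₂] [Algebra k B₁]
    [Algebra k B₂] {w y₁ y₂ : B₁} {x s t : B₂} (h₁ : P1 c w y₁ y₂) (h₂ : P2 k x s t)
    (L : Type u) [CommRing L] [Algebra k L] [Algebra B₂ L] [IsScalarTower k B₂ L]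
    [IsLocalization.Away x L] :
    ∃ _ : Algebra B₁ L, TC k L w x ∧
      algebraMap B₂ L s = algebraMap B₁ L y₂ * algebraMap B₂ L x ^ 3 ∧
      algebraMap B₂ L t = algebraMap B₂ L s ^ 3 *
        (algebraMap B₁ L y₁ - (algebraMap k L c + algebraMap B₂ L s) * algebraMap B₁ L y₂) := by
  have three : ∀ (R : Type u) [CommRing R] [Algebra k R], (3 : R) = 0 := fun R _ _ => by
    have := congrArg (algebraMap k R) (CharP.cast_eq_zero k 3)
    simpa [map_ofNat] using this
  have hcR : ∀ (R : Type u) [CommRing R] [Algebra k R],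
      algebraMap k R c - algebraMap k R c ^ 3 = 1 := fun R _ _ => by
    rw [← map_pow, ← map_sub, hc, map_one]
  let j₂ : B₂ →ₐ[k] L := IsScalarTower.toAlgHom k B₂ L
  obtain ⟨W, hW⟩ : ∃ W : L, W * j₂ x = 1 :=
    (IsLocalization.Away.algebraMap_isUnit (S := L) x).exists_left_inv
  have r2 : R2 (j₂ x) (j₂ s) (j₂ t) := by
    obtain ⟨a, b⟩ := h₂.rel
    refine ⟨by simpa using congrArg j₂ a, ?_⟩
    simpa [TT] using congrArg j₂ b
  obtain ⟨φ, φw, φ1, φ2⟩ := h₁.univ L _ _ _ (r1_of_r2 (three L) (hcR L) r2 hW)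
  have hv := GLink_d r2.1 hW
  have es : j₂ s = φ y₂ * j₂ x ^ 3 := by
    rw [φ2]
    linear_combination (-j₂ s) * GLink_pow hW 3
  have et : j₂ t = j₂ s ^ 3 * (φ y₁ - (algebraMap k L c + j₂ s) * φ y₂) := by
    rw [φ1, φ2]
    linear_combination (-j₂ t) * GLink_pow hv 3
  let L₁ := Localization.Away w
  let j₁ : B₁ →ₐ[k] L₁ := IsScalarTower.toAlgHom k B₁ L₁
  obtain ⟨X₁, hX⟩ : ∃ X₁ : L₁, j₁ w * X₁ = 1 :=
    (IsLocalization.Away.algebraMap_isUnit (S := L₁) w).exists_right_inv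
  have r1 : R1 (algebraMap k L₁ c) (j₁ w) (j₁ y₁) (j₁ y₂) := by
    obtain ⟨a, b⟩ := h₁.rel
    refine ⟨by simpa using congrArg j₁ a, ?_⟩
    simpa only [map_sub, map_add, map_mul, map_pow, AlgHom.commutes] using congrArg j₁ b
  obtain ⟨ψ, ψx, ψs, ψt⟩ := h₂.univ L₁ _ _ _ (r2_of_r1 (three L₁) (hcR L₁) r1 hX)
  have u1 : IsUnit (φ.toRingHom w) := IsUnit.of_mul_eq_one (j₂ x) (by rw [← hW, ← φw]; rfl)
  have u2 : IsUnit (ψ.toRingHom x) :=
    IsUnit.of_mul_eq_one (j₁ w) (by rw [← hX, ← ψx, mul_comm]; rfl)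
  let F : L₁ →+* L := IsLocalization.Away.lift w u1
  let G : L →+* L₁ := IsLocalization.Away.lift x u2
  have hF : ∀ b, F (j₁ b) = φ b := fun b => IsLocalization.Away.lift_eq w u1 b
  have hG : ∀ b, G (j₂ b) = ψ b := fun b => IsLocalization.Away.lift_eq x u2 b
  have hFk : ∀ a, F (algebraMap k L₁ a) = algebraMap k L a := fun a => by
    rw [← j₁.commutes, hF, φ.commutes]
  have hGk : ∀ a, G (algebraMap k L a) = algebraMap k L₁ a := fun a => by
    rw [← j₂.commutes, hG, ψ.commutes]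
  have FX : F X₁ = j₂ x := by
    have := congrArg F hX
    rw [map_mul, hF, φw, map_one] at this
    linear_combination j₂ x * this - F X₁ * hW
  have GW : G W = j₁ w := by
    have := congrArg G hW
    rw [map_mul, hG, ψx, map_one] at this
    linear_combination j₁ w * this - G W * hX
  have FG : ∀ b, F (ψ b) = j₂ b := by
    have : (AlgHom.mk F hFk).comp ψ = j₂ := by
      refine AlgHom.ext_of_adjoin_eq_top h₂.gen ?_
      rintro _ (rfl | rfl | rfl)
      · exact (congrArg F ψx).trans FX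
      · refine (congrArg F ψs).trans ?_
        rw [map_mul, map_pow, hF, FX, es]
      · refine (congrArg F ψt).trans ?_
        simp only [map_mul, map_pow, map_sub, map_add, hF, FX, hFk]
        rw [← es, ← et]
    exact fun b => DFunLike.congr_fun this b
  have GF : ∀ b, G (φ b) = j₁ b := by
    have g2 : G (φ y₂) = j₁ y₂ := by
      rw [φ2, map_mul, map_pow, hG, GW, ψs]
      linear_combination j₁ y₂ * GLink_pow hX 3
    have g1 : G (φ y₁) = j₁ y₁ := by
      have a := congrArg G et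
      have b := congrArg G hv
      simp only [map_mul, map_pow, map_sub, map_add, hG, g2, hGk, map_one] at a b
      rw [ψt, ← ψs] at a
      generalize G W * (ψ s ^ 2 - ψ x ^ 6) = v at b
      linear_combination (-v ^ 3) * a + (j₁ y₁ - G (φ y₁)) * GLink_pow b 3
    have : (AlgHom.mk G hGk).comp φ = j₁ := by
      refine AlgHom.ext_of_adjoin_eq_top h₁.gen ?_
      rintro _ (rfl | rfl | rfl)
      · exact (congrArg G φw).trans GW
      · exact g1
      · exact g2
    exact fun b => DFunLike.congr_fun this b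
  have e1 : G.comp F = RingHom.id _ := IsLocalization.ringHom_ext (Submonoid.powers w)
    (RingHom.ext fun b => (congrArg G (hF b)).trans (GF b))
  have e2 : F.comp G = RingHom.id _ := IsLocalization.ringHom_ext (Submonoid.powers x)
    (RingHom.ext fun b => (congrArg F (hG b)).trans (FG b))
  let _ : Algebra B₁ L := φ.toRingHom.toAlgebra
  let e : L₁ ≃ₐ[B₁] L := AlgEquiv.ofRingEquiv (f := RingEquiv.ofRingHom F G e2 e1) hF
  refine ⟨inferInstance, ⟨IsScalarTower.of_algebraMap_eq fun a => (φ.commutes a).symm,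
    inferInstance, IsLocalization.isLocalization_of_algEquiv _ e, inferInstance, ?_, h₁.int.1,
    h₂.int.1, h₁.int.2, h₂.int.2⟩, es, et⟩
  rw [← hW, ← φw]
  rfl

end Pool.Agent.MP_deef5c_ag.E

end

section

/-! The ramified point and the stabilisers. -/

open CategoryTheory AlgebraicGeometry IsLocalRing Function Pool.Agent.MP_deef5c_ag.O
open scoped Polynomial PowerSeries

namespace Pool.Agent.MP_deef5c_ag.E

universe u

variable {k B₁ B₂ L : Type u} [Field k] [CharP k 3] [CommRing B₁] [CommRing B₂] [CommRing L]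
  [Algebra k B₁] [Algebra k B₂] [Algebra k L] [Algebra B₁ L] [Algebra B₂ L] {X : Scheme.{u}}
  {i₁ : Spec (.of B₁) ⟶ X} {i₂ : Spec (.of B₂) ⟶ X} {c : k} {w y₁ y₂ : B₁} {x s t : B₂}
  {α₁ : EE →* (B₁ ≃ₐ[k] B₁)} {α₂ : EE →* (B₂ ≃ₐ[k] B₂)} {α : EE →* (L ≃ₐ[k] L)}

theorem GPtD_unit (k : Type u) [Field k] [CharP k 3] {B : Type u} [CommRing B] [Algebra k B]
    (n : ZMod 3) (h : n ≠ 0) : IsUnit (n.val : B) := by
  rw [← map_natCast (algebraMap k B)]
  refine (Ne.isUnit fun h0 => h ?_).map _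
  rw [CharP.cast_eq_zero_iff k 3] at h0
  exact (ZMod.val_eq_zero n).1 (Nat.eq_zero_of_dvd_of_lt h0 n.val_lt)

theorem GPtD_gen : ∀ g : EE, ∃ a b : Fin 3, g = sg ^ a.val * ta ^ b.val := by
  decide

omit [CharP k 3] in
theorem GPtD_fix (A : AC c w y₁ y₂ x s t α₁ α₂ α) (g : EE) : α₂ g x = x := by
  obtain ⟨a, b, rfl⟩ := GPtD_gen g
  let H : Subgroup EE := (MulAction.stabilizer (B₂ ≃ₐ[k] B₂) x).comap α₂
  exact H.mul_mem (H.pow_mem (x := sg) A.sx _) (H.pow_mem (x := ta) A.tx _)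

theorem GPtD_max {R : Type u} [CommRing R] [IsLocalRing R] {x s t : R} (h : R2 x s t)
    (hx : x ∈ maximalIdeal R) (hs : s ∈ maximalIdeal R) (ht : t ∈ maximalIdeal R)
    (hm : maximalIdeal R = Ideal.span {x, s, t}) : maximalIdeal R = Ideal.span {t} := by
  have hu : ∀ a ∈ maximalIdeal R, IsUnit (1 + a) := fun a ha => by
    simpa using isUnit_one_sub_self_of_mem_nonunits (-a) (neg_mem ha)
  have h1 := hu _ (Ideal.mul_mem_right (s ^ 3) _ (Ideal.pow_mem_of_mem _ hx 15 (by norm_num)))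
  have h2 := hu _ (sub_mem (sub_mem hs hx) (Ideal.pow_mem_of_mem _ hs 3 (by norm_num)))
  have h3 : t ∣ s := by
    refine (h1.mul h2).dvd_mul_right.1 ⟨t ^ 2 - s ^ 6, ?_⟩
    have := h.2
    rw [TT] at this
    linear_combination -this
  have h4 : t ∣ x := h3.trans ⟨s ^ 2 - x ^ 6, by linear_combination -h.1⟩
  refine le_antisymm ?_ ((Ideal.span_singleton_le_iff_mem _).2 ht)
  rw [hm, Ideal.span_le]
  rintro b (rfl | rfl | rfl)
  · exact Ideal.mem_span_singleton.2 h4
  · exact Ideal.mem_span_singleton.2 h3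
  · exact Ideal.mem_span_singleton_self _

theorem GPtD_app {U Y₁ Y₂ X : Scheme.{u}} {a : U ⟶ Y₁} {b : U ⟶ Y₂} {i₁ : Y₁ ⟶ X} {i₂ : Y₂ ⟶ X}
    (h : a ≫ i₁ = b ≫ i₂) (z : U) : i₁ (a z) = i₂ (b z) := by
  rw [← Scheme.Hom.comp_apply, h, Scheme.Hom.comp_apply]

theorem GPtD_st (B : CommRingCat.{u}) (i : Spec B ⟶ X) [IsOpenImmersion i] (p : Spec B) :
    ∃ st : B ⟶ X.presheaf.stalk (i p), Spec.map st ≫ i = X.fromSpecStalk (i p) ∧
      letI := st.hom.toAlgebra
      haveI : p.asIdeal.IsPrime := p.2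
      IsLocalization.AtPrime (X.presheaf.stalk (i p)) p.asIdeal := by
  let t0 : B ⟶ (Spec B).presheaf.stalk p := StructureSheaf.toStalk B p
  have h1 : Spec.map t0 = (Spec B).fromSpecStalk p := (Spec.fromSpecStalk_eq' B p).symm
  refine ⟨t0 ≫ inv (i.stalkMap p), ?_, ?_⟩
  · rw [Spec.map_comp, Category.assoc, h1, ← Scheme.SpecMap_stalkMap_fromSpecStalk,
      ← Category.assoc, ← Spec.map_comp, IsIso.hom_inv_id, Spec.map_id, Category.id_comp]
  have : p.asIdeal.IsPrime := p.2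
  let _ : Algebra B (X.presheaf.stalk (i p)) := (t0 ≫ inv (i.stalkMap p)).hom.toAlgebra
  let _ : Algebra B ((Spec B).presheaf.stalk p) := t0.hom.toAlgebra
  have hl : IsLocalization.AtPrime ((Spec B).presheaf.stalk p) p.asIdeal :=
    StructureSheaf.IsLocalization.to_stalk B p
  exact IsLocalization.isLocalization_of_algEquiv p.asIdeal.primeCompl
    (S := (Spec B).presheaf.stalk p)
    (AlgEquiv.ofRingEquiv (f := (asIso (i.stalkMap p)).symm.commRingCatIsoToRingEquiv)
      fun _ => rfl)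

theorem GPtD_str {B K : CommRingCat.{u}} (i : Spec B ⟶ X) (f : X ⟶ Spec K) (a : K ⟶ B)
    (hf : i ≫ f = Spec.map a) (p : Spec B) (st : B ⟶ X.presheaf.stalk (i p))
    (key : Spec.map st ≫ i = X.fromSpecStalk (i p)) : strMap f (i p) = a ≫ st := by
  apply Spec.map_injective
  rw [spec_strMap, ← key, Category.assoc, hf, Spec.map_comp]

theorem GPtD_loc {B : CommRingCat.{u}} (i : Spec B ⟶ X) [Mono i] (e : X ⟶ X) (φ : B ⟶ B)
    (he : i ≫ e = Spec.map φ ≫ i) (p : Spec B) (h : e (i p) = i p)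
    (st : B ⟶ X.presheaf.stalk (i p)) (key : Spec.map st ≫ i = X.fromSpecStalk (i p)) :
    st ≫ locMap e (i p) h = φ ≫ st := by
  apply Spec.map_injective
  rw [← cancel_mono i, Spec.map_comp, Category.assoc, key, spec_locMap, ← key, Category.assoc,
    he, Spec.map_comp, Category.assoc]

omit [CharP k 3] in
/-- The stalk of `X` at a point of an affine chart.  `st` is `toStalk` followed by the inverse of the
isomorphism `i.stalkMap p`; identities between maps to the stalk are checked with `stalk_ext`,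
`spec_locMap`, `spec_strMap` of `Glue.lean` (`Spec.map st ≫ i = X.fromSpecStalk _`). -/
theorem exists_st {B : Type u} [CommRing B] [Algebra k B] (i : Spec (.of B) ⟶ X) [IsOpenImmersion i]
    (f : X ⟶ Spec (.of k)) (hf : i ≫ f = sp (algebraMap k B)) (p : PrimeSpectrum B) :
    ∃ _ : Algebra B (X.presheaf.stalk (i p)),
      IsLocalization.AtPrime (X.presheaf.stalk (i p)) p.asIdeal ∧
      (∀ a, (strMap f (i p)).hom a = algebraMap B (X.presheaf.stalk (i p)) (algebraMap k B a)) ∧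
      ∀ (e : X ⟶ X) (φ : B →+* B) (_ : i ≫ e = sp φ ≫ i) (h : e (i p) = i p) (b : B),
        (locMap e (i p) h).hom (algebraMap B _ b) = algebraMap B _ (φ b) := by
  obtain ⟨st, key, hl⟩ := GPtD_st (.of B) i p
  refine ⟨st.hom.toAlgebra, hl, fun a => ?_, fun e φ he h b => ?_⟩
  · exact congrArg (fun ψ => ψ.hom a) (GPtD_str i f _ hf p st key)
  · exact congrArg (fun ψ => ψ.hom b) (GPtD_loc i e _ he p h st key)

omit [CharP k 3] in
/-- `p` is the kernel of `x, s, t ↦ 0` (`univ`); it equals `span {x, s, t}` (every element is congruent to a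
constant), and a prime containing `x` contains `s` and `t` -/
theorem P2.point (h : P2 k x s t) : ∃ p : PrimeSpectrum B₂, p.asIdeal.IsMaximal ∧
    p.asIdeal = Ideal.span {x, s, t} ∧ ∀ q : PrimeSpectrum B₂, x ∈ q.asIdeal → q = p := by
  obtain ⟨φ, hx, hs, ht⟩ := h.univ k 0 0 0 ⟨by simp, by simp [TT]⟩
  have hm : (RingHom.ker φ).IsMaximal :=
    RingHom.ker_isMaximal_of_surjective φ fun a => ⟨algebraMap k B₂ a, φ.commutes a⟩
  have h1 : ∀ b : B₂, b - algebraMap k B₂ (φ b) ∈ Ideal.span {x, s, t} := by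
    intro b
    have hb : b ∈ Algebra.adjoin k {x, s, t} := h.gen ▸ Algebra.mem_top
    induction hb using Algebra.adjoin_induction with
    | mem b hb =>
      have : φ b = 0 := by
        rcases hb with rfl | rfl | rfl <;> assumption
      rw [this, map_zero, sub_zero]
      exact Ideal.subset_span hb
    | algebraMap a => simp
    | add a b _ _ ha hb =>
      rw [map_add, map_add, add_sub_add_comm]
      exact add_mem ha hb
    | mul a b _ _ ha hb =>
      have e : a * b - algebraMap k B₂ (φ (a * b)) = a * (b - algebraMap k B₂ (φ b)) +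
          algebraMap k B₂ (φ b) * (a - algebraMap k B₂ (φ a)) := by
        rw [map_mul, map_mul]
        ring
      rw [e]
      exact add_mem (Ideal.mul_mem_left _ _ hb) (Ideal.mul_mem_left _ _ ha)
  have h2 : RingHom.ker φ = Ideal.span {x, s, t} := by
    refine le_antisymm (fun b hb => ?_) (Ideal.span_le.2 ?_)
    · have h3 := h1 b
      rwa [RingHom.mem_ker.1 hb, map_zero, sub_zero] at h3
    · rintro b (rfl | rfl | rfl) <;> assumption
  refine ⟨⟨RingHom.ker φ, hm.isPrime⟩, hm, h2, fun q hq => ?_⟩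
  have hsq : s ∈ q.asIdeal := by
    refine q.2.mem_of_pow_mem 3 ?_
    rw [eq_add_of_sub_eq h.rel.1]
    exact add_mem hq (Ideal.mul_mem_right _ _ (Ideal.pow_mem_of_mem _ hq _ (by norm_num)))
  have htq : t ∈ q.asIdeal := by
    refine q.2.mem_of_pow_mem 3 ?_
    rw [eq_add_of_sub_eq h.rel.2, TT]
    exact add_mem (Ideal.mul_mem_right _ _ (Ideal.mul_mem_right _ _ hsq))
      (Ideal.mul_mem_right _ _ (Ideal.pow_mem_of_mem _ hsq _ (by norm_num)))
  refine PrimeSpectrum.ext (hm.eq_of_le q.2.ne_top ?_).symm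
  rw [h2, Ideal.span_le]
  rintro b (rfl | rfl | rfl) <;> assumption

/-- `P = i₂ p`.  It is fixed since `α₂ g x = x` for all `g`.  It is closed: its preimage in the second chart is
`{p}`, in the first chart it is empty (`ov`, `x` is a unit of `L`).  In the local ring `s * unit = t^3 - s^6 t` and
`x = s (s^2 - x^6)`, so `t` generates the maximal ideal.  Every other point lies in the first chart. -/
theorem exists_ptd (h₂ : P2 k x s t) (T : TC k L w x)
    (G : Gl2 (sp (algebraMap B₁ L)) (sp (algebraMap B₂ L)) i₁ i₂) (f : X ⟶ Spec (.of k))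
    (hf : i₂ ≫ f = sp (algebraMap k B₂)) (A : AC c w y₁ y₂ x s t α₁ α₂ α) (ρ : EE →* Aut X)
    (hρ : ∀ g, i₂ ≫ (ρ g).hom = sp (α₂ g⁻¹ : B₂ →+* B₂) ≫ i₂) :
    ∃ (P : X) (hP : ∀ g, (ρ g).hom P = P) (x' s' t' : X.presheaf.stalk P), IsClosed {P} ∧
      PtD c f ρ P hP x' s' t' ∧ ∀ y : X, y ≠ P → ∃ q, i₁ q = y := by
  obtain ⟨p, hpm, hps, hpu⟩ := h₂.point
  obtain ⟨hd, -, ht0⟩ := h₂.dom
  have := G.o1
  have := G.o2
  have := T.l2
  have hxp : x ∈ p.asIdeal := hps ▸ Ideal.subset_span (by simp)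
  have hsp : s ∈ p.asIdeal := hps ▸ Ideal.subset_span (by simp)
  have htp : t ∈ p.asIdeal := hps ▸ Ideal.subset_span (by simp)
  have hP : ∀ g, (ρ g).hom (i₂ p) = i₂ p := by
    intro g
    refine (GPtD_app (hρ g) p).trans (congrArg i₂ (hpu _ ?_))
    change α₂ g⁻¹ x ∈ p.asIdeal
    rwa [GPtD_fix A]
  have hy : ∀ y : X, y ≠ i₂ p → ∃ q, i₁ q = y := by
    intro y hy
    rcases G.cov y with h | ⟨q, rfl⟩
    · exact h
    have h1 : q ∈ Set.range (PrimeSpectrum.comap (algebraMap B₂ L)) := by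
      rw [PrimeSpectrum.localization_away_comap_range L x]
      exact fun hq => hy (by rw [hpu q hq])
    obtain ⟨r, rfl⟩ := h1
    exact ⟨_, GPtD_app G.po.w r⟩
  have hn : ∀ q, i₁ q ≠ i₂ p := by
    intro q hq
    obtain ⟨r, -, hr⟩ := G.ov q p hq
    have h1 : algebraMap B₂ L x ∈ r.asIdeal := by
      rw [← hr] at hxp
      exact hxp
    exact r.2.ne_top (Ideal.eq_top_of_isUnit_mem _ h1 (IsLocalization.Away.algebraMap_isUnit x))
  obtain ⟨_, hl, hst, hloc⟩ := exists_st i₂ f hf p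
  have hm : ∀ b ∈ p.asIdeal, algebraMap B₂ (X.presheaf.stalk (i₂ p)) b ∈ maximalIdeal _ :=
    fun b hb => (IsLocalization.AtPrime.to_map_mem_maximal_iff _ p.asIdeal b).2 hb
  have hrel : R2 (algebraMap B₂ (X.presheaf.stalk (i₂ p)) x) (algebraMap B₂ _ s)
      (algebraMap B₂ _ t) := by
    constructor
    · simpa using congrArg (algebraMap B₂ (X.presheaf.stalk (i₂ p))) h₂.rel.1
    · simpa [TT] using congrArg (algebraMap B₂ (X.presheaf.stalk (i₂ p))) h₂.rel.2
  have hact : ∀ g b, (locMap (ρ g⁻¹).hom (i₂ p) (hP _)).hom (algebraMap B₂ _ b) =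
      algebraMap B₂ _ (α₂ g b) := fun g b => by
    have h1 := hloc _ _ (hρ g⁻¹) (hP _) b
    rw [inv_inv] at h1
    exact h1
  refine ⟨i₂ p, hP, algebraMap B₂ _ x, algebraMap B₂ _ s, algebraMap B₂ _ t, ?_,
    ⟨?_, ?_, hm x hxp, hm s hsp, hrel, ?_, ?_, ?_, ?_, ?_, ?_⟩, hy⟩
  · rw [← isOpen_compl_iff]
    have h1 : ({i₂ p}ᶜ : Set X) = Set.range i₁ :=
      Set.ext fun y => ⟨fun h => hy y h, fun ⟨q, hq⟩ h => hn q (hq.trans h)⟩
    rw [h1]
    exact i₁.isOpenEmbedding.isOpen_range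
  · refine GPtD_max hrel (hm x hxp) (hm s hsp) (hm t htp) ?_
    rw [← IsLocalization.AtPrime.map_eq_maximalIdeal p.asIdeal, hps, Ideal.map_span]
    simp only [Set.image_insert_eq, Set.image_singleton]
  · exact fun h0 => ht0 (IsLocalization.injective (X.presheaf.stalk (i₂ p))
      p.asIdeal.primeCompl_le_nonZeroDivisors (h0.trans (map_zero _).symm))
  · rw [hact, A.tx]
  · rw [hact, A.ts]
  · rw [hact, A.tt, map_add, map_pow]
  · rw [hact, A.sx]
  · rw [hact, A.ss, map_add, map_pow]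
  · rw [hact, A.st, hst]
    simp [ST]

/-- A closed point `i₁ q` has `q` maximal, with residue field `k` (`finite_of_finite_type_of_isJacobsonRing`,
`IsAlgClosed.algebraMap_bijective_of_isIntegral`).  If `g` fixes it then `α₁ g⁻¹` preserves `q`, so
`α₁ g⁻¹ b - b ∈ q` for all `b`; take `b = y₁, y₂`: a natural number `< 3` lying in `q` is zero. -/
theorem stab_chart [IsAlgClosed k] [Algebra.FiniteType k B₁] [IsOpenImmersion i₁]
    (A : AC c w y₁ y₂ x s t α₁ α₂ α) (ρ : EE →* Aut X)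
    (hρ : ∀ g, i₁ ≫ (ρ g).hom = sp (α₁ g⁻¹ : B₁ →+* B₁) ≫ i₁) (q : Spec (.of B₁))
    (hq : IsClosed {i₁ q}) : stab ρ (i₁ q) = ⊥ := by
  have hm : q.asIdeal.IsMaximal := by
    refine (PrimeSpectrum.isClosed_singleton_iff_isMaximal q).1 ?_
    have h1 : i₁ ⁻¹' {i₁ q} = {q} :=
      Set.ext fun y => ⟨fun h => i₁.isOpenEmbedding.injective h, fun h => congrArg i₁ h⟩
    have h2 := hq.preimage i₁.continuous
    rwa [h1] at h2
  refine (Subgroup.eq_bot_iff_forall _).2 fun g hg => ?_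
  have h1 : sp (α₁ g⁻¹ : B₁ →+* B₁) q = q :=
    i₁.isOpenEmbedding.injective ((GPtD_app (hρ g) q).symm.trans hg)
  have h2 : ∀ b ∈ q.asIdeal, α₁ g⁻¹ b ∈ q.asIdeal := fun b hb => by
    rw [← h1] at hb
    exact hb
  have h3 : ∀ b : B₁, α₁ g⁻¹ b - b ∈ q.asIdeal := by
    intro b
    let _ := Ideal.Quotient.field q.asIdeal
    have := finite_of_finite_type_of_isJacobsonRing k (B₁ ⧸ q.asIdeal)
    obtain ⟨a, ha⟩ := (IsAlgClosed.algebraMap_bijective_of_isIntegral (k := k)
      (K := B₁ ⧸ q.asIdeal)).2 (Ideal.Quotient.mk _ b)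
    have h4 : b - algebraMap k B₁ a ∈ q.asIdeal := Ideal.Quotient.eq.1 ha.symm
    have h5 := h2 _ h4
    rw [map_sub, AlgEquiv.commutes] at h5
    simpa using sub_mem h5 h4
  have h6 : ∀ n : ZMod 3, (n.val : B₁) ∈ q.asIdeal → n = 0 := fun n hn => by
    by_contra h0
    exact hm.ne_top (Ideal.eq_top_of_isUnit_mem _ hn (GPtD_unit k n h0))
  have h7 := h3 y₁
  have h8 := h3 y₂
  rw [A.a1, add_sub_cancel_left] at h7
  rw [A.a2, add_sub_cancel_left] at h8
  exact inv_eq_one.1 (Multiplicative.toAdd.injective (Prod.ext (h6 _ h8) (h6 _ h7)))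

/-- `i₁` is a monomorphism and `Spec` is faithful -/
theorem act_inj [Nontrivial B₁] [IsOpenImmersion i₁] (A : AC c w y₁ y₂ x s t α₁ α₂ α)
    (ρ : EE →* Aut X) (hρ : ∀ g, i₁ ≫ (ρ g).hom = sp (α₁ g⁻¹ : B₁ →+* B₁) ≫ i₁) : Injective ρ := by
  refine (injective_iff_map_eq_one ρ).2 fun g hg => ?_
  have h1 : sp (α₁ g⁻¹ : B₁ →+* B₁) = Spec.map (𝟙 _) := by
    rw [← cancel_mono i₁, ← hρ, hg, Spec.map_id, Category.id_comp]
    exact Category.comp_id _
  have h2 : ∀ b, α₁ g⁻¹ b = b := fun b => congrArg (fun ψ => ψ.hom b) (Spec.map_injective h1)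
  have h6 : ∀ n : ZMod 3, (n.val : B₁) = 0 → n = 0 := fun n hn => by
    by_contra h0
    exact (GPtD_unit k n h0).ne_zero hn
  have h7 := h2 y₁
  have h8 := h2 y₂
  rw [A.a1, add_eq_left] at h7
  rw [A.a2, add_eq_left] at h8
  exact inv_eq_one.1 (Multiplicative.toAdd.injective (Prod.ext (h6 _ h8) (h6 _ h7)))

end Pool.Agent.MP_deef5c_ag.E

end
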