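import Pool.Agent.Mg.Fdeef5c.G59577e
import Pool.Agent.MP_deef5c_ag.O.Stm

section

/-! Definitions for the example of an action of `(Z/3)^2` which lifts modulo `9` but not to
characteristic zero. -/

open PowerSeries IsLocalRing Function Pool.Agent.MP_deef5c_ag.O
open scoped Polynomial

namespace Pool.Agent.MP_deef5c_ag.E

universe u

instance clArt (A : Type u) [CommRing A] [IsLocalRing A] [IsArtinianRing A] : CL A :=
  ⟨inferInstance, inferInstance⟩

/-- the group `(Z/3)^2` -/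
abbrev EE : Type := Multiplicative (ZMod 3 × ZMod 3)

def sg : EE := Multiplicative.ofAdd (1, 0)

def ta : EE := Multiplicative.ofAdd (0, 1)

section Ring

variable {R : Type*} [CommRing R]

def TT (x s : R) : R := s * (1 + x ^ 15 * s ^ 3) * (1 + s - x - s ^ 3)

def ST (c x s t : R) : R :=
  t * (1 + x ^ 6 * (s ^ 2 - x ^ 6) ^ 3) + (s ^ 3 + x ^ 9) * (s - c - x ^ 3)

def Qf (u v : R) : R := u ^ 3 - u * v ^ 2

/-- the binary cubic form attached to the matrix `N = [[r, q], [-w, -r]]` and the value `T` -/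
def ch (q r w T Z Y : R) : R := Qf Z (r * Z + q * Y) - T * Qf Y (-(w * Z) - r * Y)

/-- the error term -/
def NE (a r w T Th β ρ ω : R) : R :=
  Qf β ((1 + ρ) * a - β * r) - Th * Qf (1 - ρ) (-(ω * a) - (1 - ρ) * r) +
    T * (Qf (1 + ρ) ((1 + ρ) * r - β * w) - Th * Qf (-ω) (-(ω * r) - (1 - ρ) * w))

end Ring

/-- the local action in characteristic three -/
structure Mod {k : Type u} [Field k] (c : k) (ρ : EE →* (k⟦X⟧ ≃ₐ[k] k⟦X⟧)) (x s : k⟦X⟧) : Prop where
  x0 : constantCoeff x = 0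
  s0 : constantCoeff s = 0
  e1 : s ^ 3 - x ^ 6 * s = x
  e2 : X ^ 3 - s ^ 6 * X = TT x s
  tx : ρ ta x = x
  ts : ρ ta s = s
  tt : ρ ta X = X + s ^ 3
  sx : ρ sg x = x
  ss : ρ sg s = s + x ^ 3
  st : ρ sg X = ST (C c) x s X

/-! ### Filtrations -/

/-- multiplicative filtrations -/
structure MF (A : Type u) [CommRing A] where
  F : ℕ → Ideal A
  zero : F 0 = ⊤
  anti : Antitone F
  mul : ∀ {i j : ℕ} {a b : A}, a ∈ F i → b ∈ F j → a * b ∈ F (i + j)

namespace MF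

variable {A : Type u} [CommRing A] (Φ : MF A)

theorem mem_zero (a : A) : a ∈ Φ.F 0 := Φ.zero ▸ Submodule.mem_top

theorem le {i j : ℕ} {a : A} (h : a ∈ Φ.F i) (hij : j ≤ i) : a ∈ Φ.F j := Φ.anti hij h

/-- the induced filtration on power series; `X` has weight one -/
def ps : MF A⟦X⟧ where
  F n :=
    { carrier := {f | ∀ j, coeff j f ∈ Φ.F (n - j)}
      add_mem' := fun hf hg j => by
        rw [map_add]
        exact add_mem (hf j) (hg j)
      zero_mem' := fun j => by simp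
      smul_mem' := fun g f hf j => by
        rw [smul_eq_mul, coeff_mul]
        refine sum_mem fun p hp => Ideal.mul_mem_left _ _ (Φ.le (hf p.2) ?_)
        have := Finset.HasAntidiagonal.mem_antidiagonal.1 hp
        omega }
  zero := eq_top_iff.2 fun f _ j => by
    rw [Nat.zero_sub]
    exact Φ.mem_zero _
  anti := fun i j hij f hf n => Φ.le (hf n) (by omega)
  mul := fun {i j f g} hf hg n => by
    rw [coeff_mul]
    refine sum_mem fun p hp => Φ.le (Φ.mul (hf p.1) (hg p.2)) ?_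
    have := Finset.HasAntidiagonal.mem_antidiagonal.1 hp
    omega

theorem mem_ps {n : ℕ} {f : A⟦X⟧} : f ∈ Φ.ps.F n ↔ ∀ j, coeff j f ∈ Φ.F (n - j) := Iff.rfl

/-- all weights multiplied by three -/
def tri : MF A where
  F i := Φ.F ((i + 2) / 3)
  zero := by rw [show (0 + 2) / 3 = 0 by omega, Φ.zero]
  anti := fun i j hij => Φ.anti (by omega)
  mul := fun ha hb => Φ.le (Φ.mul ha hb) (by omega)

theorem mem_tri {n : ℕ} {a : A} : a ∈ Φ.tri.F n ↔ a ∈ Φ.F ((n + 2) / 3) := Iff.rfl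

theorem X_mem : (X : A⟦X⟧) ∈ Φ.ps.F 1 := fun j => by
  rcases j with _ | j
  · simp
  · rw [show 1 - (j + 1) = 0 by omega]
    exact Φ.mem_zero _

theorem C_mem {n : ℕ} {a : A} (h : a ∈ Φ.F n) : (C a : A⟦X⟧) ∈ Φ.ps.F n := fun j => by
  rw [coeff_C]
  split_ifs with hj
  · subst hj
    exact h
  · exact zero_mem _

theorem pow {i : ℕ} {a : A} (h : a ∈ Φ.F i) (n : ℕ) : a ^ n ∈ Φ.F (i * n) := by
  induction n with
  | zero => exact Φ.mem_zero _
  | succ n ih =>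
    rw [pow_succ, Nat.mul_succ]
    exact Φ.mul ih h

/-- the filtration starts with the maximal ideal and stops after `e` steps -/
structure Loc [IsLocalRing A] (e : ℕ) : Prop where
  one : Φ.F 1 = maximalIdeal A
  top : Φ.F (e + 1) = ⊥

theorem Loc.tri [IsLocalRing A] {Φ : MF A} {e : ℕ} (h : Φ.Loc e) : Φ.tri.Loc (3 * e) :=
  ⟨h.one, by
    change Φ.F ((3 * e + 1 + 2) / 3) = ⊥
    rw [show (3 * e + 1 + 2) / 3 = e + 1 by omega, h.top]⟩

end MF

/-- Weight inference.  After `have : HW Φ a 3 := ⟨ha⟩` etc. for the atoms, a goal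
`a * b ^ 2 + 3 * c ∈ Φ.F 9` is closed by `HW.of (by norm_num)` or `HW.of (by decide)`. -/
class HW {A : Type u} [CommRing A] (Φ : MF A) (a : A) (n : outParam ℕ) : Prop where
  mem : a ∈ Φ.F n

namespace HW

variable {A : Type u} [CommRing A] {Φ : MF A} {a b : A} {i j : ℕ}

theorem of [h : HW Φ a i] (hj : j ≤ i) : a ∈ Φ.F j := Φ.le h.mem hj

instance (priority := low) base : HW Φ a 0 := ⟨Φ.mem_zero a⟩

instance add [h : HW Φ a i] [h' : HW Φ b j] : HW Φ (a + b) (min i j) :=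
  ⟨add_mem (Φ.le h.mem (min_le_left _ _)) (Φ.le h'.mem (min_le_right _ _))⟩

instance sub [h : HW Φ a i] [h' : HW Φ b j] : HW Φ (a - b) (min i j) :=
  ⟨sub_mem (Φ.le h.mem (min_le_left _ _)) (Φ.le h'.mem (min_le_right _ _))⟩

instance neg [h : HW Φ a i] : HW Φ (-a) i := ⟨neg_mem h.mem⟩

instance mul [h : HW Φ a i] [h' : HW Φ b j] : HW Φ (a * b) (i + j) := ⟨Φ.mul h.mem h'.mem⟩

instance pow [h : HW Φ a i] {n : ℕ} : HW Φ (a ^ n) (i * n) := ⟨Φ.pow h.mem n⟩

instance X : HW Φ.ps (X : A⟦X⟧) 1 := ⟨Φ.X_mem⟩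

instance C [h : HW Φ a i] : HW Φ.ps (C a : A⟦X⟧) i := ⟨Φ.C_mem h.mem⟩

example {a b c e : A} (ha : a ∈ Φ.F 3) (hb : b ∈ Φ.F 2) (h3 : (3 : A) ∈ Φ.F 16) (he : e ∈ Φ.F 9) :
    a * b ^ 3 * (1 + c) - 3 * c + 2 * e ∈ Φ.F 9 := by
  have : HW Φ a 3 := ⟨ha⟩
  have : HW Φ b 2 := ⟨hb⟩
  have : HW Φ (3 : A) 16 := ⟨h3⟩
  have : HW Φ e 9 := ⟨he⟩
  exact HW.of (by norm_num)

end HW

/-! ### The certificate -/

section Cert

variable {A : Type u} [CommRing A]

def cU (h1 : A) : A := h1 - h1 ^ 2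

def cB (v2 u3 : A) : A := u3 ^ 3 - v2 ^ 2 * u3

/-- `c₃ - v₂³` -/
def cC (v1 v2 u2 u3 h0 : A) : A :=
  -(v2 ^ 2 * u3) - 2 * v1 * v2 * u3 - v2 ^ 2 * u2 + u2 ^ 3 + h0 * v2 ^ 3

def cD (v1 v2 u2 u3 h0 h1 : A) : A :=
  cC v1 v2 u2 u3 h0 - u3 ^ 3 - ((v1 ^ 2 + 2 * v2) * u3 + 2 * v1 * v2 * u2 + v2 ^ 2 * cU h1) +
    h1 * v2 ^ 3

/-- the coefficients `c₀, ..., c₇` of `W = s^9 + ∑ c_j s^j` -/
def cc (v1 v2 u2 u3 h0 h1 : A) : ℕ → A
  | 0 => u3 ^ 3
  | 1 => u3 ^ 3
  | 2 => cB v2 u3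
  | 3 => cC v1 v2 u2 u3 h0 + v2 ^ 3
  | 4 => cD v1 v2 u2 u3 h0 h1
  | 5 => h1 ^ 2
  | 6 => h0 + v1 ^ 3
  | 7 => h1
  | _ => 0

structure Cert (Φ : MF A) (v1 v2 u2 u3 h0 h1 : A) : Prop where
  three : (3 : A) ∈ Φ.F 16
  mv1 : v1 ∈ Φ.F 1
  mv2 : v2 ∈ Φ.F 2
  mu2 : u2 ∈ Φ.F 2
  mu3 : u3 ∈ Φ.F 3
  mh0 : h0 ∈ Φ.F 3
  mh1 : h1 ∈ Φ.F 2
  e5 : h1 ^ 2 - cD v1 v2 u2 u3 h0 h1 + cB v2 u3 + 2 * v1 * u3 + (v1 ^ 2 + 2 * v2) * u2 +
    2 * v1 * v2 * cU h1 = 0
  e6 : h0 - h1 ^ 2 + cC v1 v2 u2 u3 h0 + u3 + 2 * v1 * u2 + (v1 ^ 2 + 2 * v2) * cU h1 - cU h1 ^ 3 -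
    h0 * v1 ^ 3 = 0
  e7 : h1 - h0 + cD v1 v2 u2 u3 h0 h1 + u2 + 2 * v1 * cU h1 - h1 * v1 ^ 3 = 0
  p3 : 2 * h1 * cD v1 v2 u2 u3 h0 h1 - cB v2 u3 - (h0 + v1 ^ 3) * h1 ^ 2 = 0
  p2 : cD v1 v2 u2 u3 h0 h1 ^ 2 + 2 * h1 * u3 ^ 3 - (h0 + v1 ^ 3) * cB v2 u3 -
    (cC v1 v2 u2 u3 h0 + v2 ^ 3) * h1 ^ 2 = 0
  p1 : 2 * cD v1 v2 u2 u3 h0 h1 * u3 ^ 3 - (cC v1 v2 u2 u3 h0 + v2 ^ 3) * cB v2 u3 -
    u3 ^ 3 * h1 ^ 2 = 0
  p0 : u3 ^ 4 * v2 ^ 2 = -3

noncomputable def w0 (c : ℕ → A) (x : A⟦X⟧) : A⟦X⟧ := x ^ 3 + C (c 6) * x ^ 2 + C (c 3) * x + C (c 0)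

noncomputable def w1 (c : ℕ → A) (x : A⟦X⟧) : A⟦X⟧ := C (c 7) * x ^ 2 + C (c 4) * x + C (c 1)

noncomputable def w2 (c : ℕ → A) (x : A⟦X⟧) : A⟦X⟧ := C (c 5) * x + C (c 2)

noncomputable def WW (c : ℕ → A) : A⟦X⟧ := w0 c (X ^ 3) + X * w1 c (X ^ 3) + X ^ 2 * w2 c (X ^ 3)

noncomputable def Th (A : Type u) [CommRing A] : A⟦X⟧ := 1 - X + X ^ 3

variable {k : Type u} [Field k]

/-- the certificate read in `A⟦s⟧` -/
structure Dat (Φ : MF A) (π : A →+* k) (a u H : A⟦X⟧) (c : ℕ → A) : Prop where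
  three : (3 : A) ∈ Φ.F 16
  ma : a ∈ Φ.ps.F 3
  mu : u ∈ Φ.ps.F 3
  mc : ∀ j < 8, c j ∈ Φ.F (9 - j)
  ra : PowerSeries.map π a = X ^ 3
  ru : PowerSeries.map π u = 0
  rH : PowerSeries.map π H = 0
  u3 : 3 * u = 0
  eqC : WW c * Th A + a ^ 2 * u - u ^ 3 = (Th A + H) * a ^ 3
  eqP : ∀ x, w1 c x ^ 2 - w0 c x * w2 c x = -3

/-- the lift of the action on the intermediate curve -/
structure SLv [IsLocalRing A] (Φ : MF A) (π : A →+* k) (W x : A⟦X⟧) (σ : En A) : Prop where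
  x0 : constantCoeff x ∈ maximalIdeal A
  s0 : constantCoeff (σ X) ∈ maximalIdeal A
  rx : X ^ 3 - PowerSeries.map π x ^ 6 * X = PowerSeries.map π x
  rs : PowerSeries.map π (σ X) = X + PowerSeries.map π x ^ 3
  sx : σ x = x
  s3 : σ ^ 3 = 1
  mx : x - X ^ 3 ∈ Φ.ps.F 19
  ms : σ X - X - (W - W * d⁄dX A W) ∈ Φ.ps.F 25

/-- the data of the top step, over the intermediate curve -/
structure DL (Φ : MF A) (π : A →+* k) (c : k) (x : A⟦X⟧) (σ : En A) (a r w β ρ ω : A⟦X⟧) :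
    Prop where
  ra : PowerSeries.map π a = X ^ 3
  rr : PowerSeries.map π r = 0
  rw' : PowerSeries.map π w = 0
  rb : X ^ 4 ∣ PowerSeries.map π β + C c * X ^ 3
  rel : r ^ 2 - a * w = -3
  ma : a ∈ Φ.ps.F 3
  mr : r ∈ Φ.ps.F 8
  mw : w ∈ Φ.ps.F 13
  mb : β ∈ Φ.ps.F 3
  mρ : ρ ∈ Φ.ps.F 8
  mω : ω ∈ Φ.ps.F 13
  d2 : σ r * β + σ a * (1 - ρ) = (1 + ρ) * a - β * r
  d3 : σ r * (1 + ρ) - σ a * ω = (1 + ρ) * r - β * w
  d4 : NE a r w (TT x X) (TT x (σ X)) β ρ ω ∈ Φ.ps.F 22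

end Cert

end Pool.Agent.MP_deef5c_ag.E

end

section

/-! Auxiliary constructions for the Artinian ring defined by a linear form. -/

open MvPolynomial

namespace Pool.Agent.MP_deef5c_ag.E

universe u

variable {W : Type u} [CommRing W]

/-- the ideals of coefficients -/
def ARing_J (W : Type u) [CommRing W] (i : ℕ) : Ideal W :=
  if i = 0 then ⊤ else if i ≤ 16 then Ideal.span {3} else Ideal.span {9}

theorem ARing_nine_le : (Ideal.span {9} : Ideal W) ≤ Ideal.span {3} :=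
  Ideal.span_singleton_le_span_singleton.2 ⟨3, by norm_num⟩

theorem ARing_J_zero : ARing_J W 0 = ⊤ := by simp [ARing_J]

theorem ARing_J_small {i : ℕ} (h1 : 1 ≤ i) (h2 : i ≤ 16) : ARing_J W i = Ideal.span {3} := by
  rw [ARing_J, if_neg (by omega), if_pos h2]

theorem ARing_J_big {i : ℕ} (h : 17 ≤ i) : ARing_J W i = Ideal.span {9} := by
  rw [ARing_J, if_neg (by omega), if_neg (by omega)]

theorem ARing_J_pos {i : ℕ} (h : 1 ≤ i) : ARing_J W i ≤ Ideal.span {3} := by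
  by_cases h2 : i ≤ 16
  · rw [ARing_J_small h h2]
  · rw [ARing_J_big (by omega)]
    exact ARing_nine_le

theorem ARing_nine_le_J (i : ℕ) : (Ideal.span {9} : Ideal W) ≤ ARing_J W i := by
  unfold ARing_J
  split_ifs
  · exact le_top
  · exact ARing_nine_le
  · exact le_rfl

theorem ARing_J_anti {i j : ℕ} (h : i ≤ j) : ARing_J W j ≤ ARing_J W i := by
  by_cases hi : i = 0
  · rw [hi, ARing_J_zero]
    exact le_top
  by_cases hi2 : i ≤ 16
  · rw [ARing_J_small (by omega) hi2]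
    exact ARing_J_pos (by omega)
  · rw [ARing_J_big (i := i) (by omega), ARing_J_big (i := j) (by omega)]

theorem ARing_J_mul {i j : ℕ} {a b : W} (ha : a ∈ ARing_J W i) (hb : b ∈ ARing_J W j) :
    a * b ∈ ARing_J W (i + j) := by
  by_cases hi : i = 0
  · rw [hi, zero_add]
    exact Ideal.mul_mem_left _ _ hb
  by_cases hj : j = 0
  · rw [hj, add_zero]
    exact Ideal.mul_mem_right _ _ ha
  obtain ⟨x, rfl⟩ := Ideal.mem_span_singleton.1 (ARing_J_pos (by omega) ha)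
  obtain ⟨y, rfl⟩ := Ideal.mem_span_singleton.1 (ARing_J_pos (by omega) hb)
  exact ARing_nine_le_J _ (Ideal.mem_span_singleton.2 ⟨x * y, by ring⟩)

/-- the weight of a monomial -/
def ARing_wgt (wt : Fin 6 → ℕ) (m : Fin 6 →₀ ℕ) : ℕ := ∑ i, wt i * m i

theorem ARing_wgt_add (wt : Fin 6 → ℕ) (m n : Fin 6 →₀ ℕ) :
    ARing_wgt wt (m + n) = ARing_wgt wt m + ARing_wgt wt n := by
  simp [ARing_wgt, mul_add, Finset.sum_add_distrib]

theorem ARing_wgt_zero (wt : Fin 6 → ℕ) : ARing_wgt wt 0 = 0 := by simp [ARing_wgt]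

theorem ARing_wgt_pos {wt : Fin 6 → ℕ} (hw : ∀ i, 0 < wt i) {m : Fin 6 →₀ ℕ} (hm : m ≠ 0) :
    1 ≤ ARing_wgt wt m := by
  by_contra h
  apply hm
  ext i
  have h0 : ∑ i, wt i * m i = 0 := by
    unfold ARing_wgt at h
    omega
  have := Finset.sum_eq_zero_iff.1 h0 i (Finset.mem_univ i)
  rcases Nat.mul_eq_zero.1 this with h1 | h1
  · exact absurd h1 (hw i).ne'
  · simpa using h1

theorem ARing_wgt_single (wt : Fin 6 → ℕ) (i : Fin 6) :
    ARing_wgt wt (Finsupp.single i 1) = wt i := by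
  unfold ARing_wgt
  rw [Finset.sum_eq_single i]
  · simp
  · intro j _ hj
    simp [hj.symm]
  · simp

/-- the filtration of the polynomial ring -/
def ARing_F (W : Type u) [CommRing W] (wt : Fin 6 → ℕ) : MF (MvPolynomial (Fin 6) W) where
  F n :=
    { carrier := {f | ∀ m, coeff m f ∈ ARing_J W (n - ARing_wgt wt m)}
      add_mem' := fun hf hg m => by
        rw [coeff_add]
        exact add_mem (hf m) (hg m)
      zero_mem' := fun m => by simp
      smul_mem' := fun g f hf m => by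
        rw [smul_eq_mul, coeff_mul]
        refine sum_mem fun p hp => Ideal.mul_mem_left _ _ (ARing_J_anti ?_ (hf p.2))
        have := Finset.HasAntidiagonal.mem_antidiagonal.1 hp
        rw [← this, ARing_wgt_add]
        omega }
  zero := eq_top_iff.2 fun f _ m => by
    rw [Nat.zero_sub, ARing_J_zero]
    exact Submodule.mem_top
  anti := fun i j hij f hf m => ARing_J_anti (by omega) (hf m)
  mul := fun {i j f g} hf hg m => by
    rw [coeff_mul]
    refine sum_mem fun p hp => ARing_J_anti ?_ (ARing_J_mul (hf p.1) (hg p.2))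
    have := Finset.HasAntidiagonal.mem_antidiagonal.1 hp
    rw [← this, ARing_wgt_add]
    omega

theorem ARing_mem_F {wt : Fin 6 → ℕ} {n : ℕ} {f : MvPolynomial (Fin 6) W} :
    f ∈ (ARing_F W wt).F n ↔ ∀ m, coeff m f ∈ ARing_J W (n - ARing_wgt wt m) := Iff.rfl

/-- the linear form -/
noncomputable def ARing_lam (W : Type u) [CommRing W] (l : (Fin 6 → ℕ) → ℤ) :
    MvPolynomial (Fin 6) W →ₗ[W] W :=
  (basisMonomials (Fin 6) W).constr W fun m => if m = 0 then 1 else 3 * (l m : W)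

theorem ARing_lam_monomial (l : (Fin 6 → ℕ) → ℤ) (m : Fin 6 →₀ ℕ) (c : W) :
    ARing_lam W l (monomial m c) = c * if m = 0 then 1 else 3 * (l m : W) := by
  have h : monomial m c = c • (basisMonomials (Fin 6) W) m := by
    rw [coe_basisMonomials, smul_monomial, smul_eq_mul, mul_one]
  rw [h, map_smul, ARing_lam, Module.Basis.constr_basis, smul_eq_mul]

/-- the ideal of relations -/
def ARing_I (W : Type u) [CommRing W] (l : (Fin 6 → ℕ) → ℤ) : Ideal (MvPolynomial (Fin 6) W) where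
  carrier := {f | ∀ g, ARing_lam W l (f * g) ∈ (Ideal.span {9} : Ideal W)}
  add_mem' := fun hf hg g => by
    rw [add_mul, map_add]
    exact add_mem (hf g) (hg g)
  zero_mem' := fun g => by simp
  smul_mem' := fun c f hf g => by
    rw [smul_eq_mul, mul_comm c f, mul_assoc]
    exact hf _

theorem ARing_mem_I {l : (Fin 6 → ℕ) → ℤ} {f : MvPolynomial (Fin 6) W}
    (h : ∀ e, ARing_lam W l (f * monomial e 1) ∈ (Ideal.span {9} : Ideal W)) : f ∈ ARing_I W l := by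
  intro g
  induction g using MvPolynomial.induction_on' with
  | monomial e c =>
    have h1 : f * monomial e c = c • (f * monomial e 1) := by
      rw [← mul_smul_comm, smul_monomial, smul_eq_mul, mul_one]
    rw [h1, map_smul, smul_eq_mul]
    exact Ideal.mul_mem_left _ _ (h e)
  | add p q hp hq =>
    rw [mul_add, map_add]
    exact add_mem hp hq

theorem ARing_F_le_I {wt : Fin 6 → ℕ} {l : (Fin 6 → ℕ) → ℤ}
    (hl : ∀ e, 17 ≤ ∑ i, wt i * e i → l e = 0) : (ARing_F W wt).F 17 ≤ ARing_I W l := by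
  intro f hf
  refine ARing_mem_I fun e => ?_
  rw [f.as_sum, Finset.sum_mul, map_sum]
  refine sum_mem fun m _ => ?_
  rw [monomial_mul, mul_one, ARing_lam_monomial]
  have hm := ARing_mem_F.1 hf m
  by_cases h0 : ARing_wgt wt m = 0
  · rw [h0, Nat.sub_zero, ARing_J_big le_rfl] at hm
    exact Ideal.mul_mem_right _ _ hm
  have hne : m + e ≠ 0 := by
    intro h
    have := ARing_wgt_add wt m e
    rw [h, ARing_wgt_zero] at this
    omega
  rw [if_neg hne]
  by_cases h1 : ARing_wgt wt m ≤ 16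
  · obtain ⟨x, hx⟩ := Ideal.mem_span_singleton.1 (ARing_J_pos (by omega) hm)
    rw [hx]
    exact Ideal.mem_span_singleton.2 ⟨x * l ⇑(m + e), by ring⟩
  · have h2 : l ⇑(m + e) = 0 := by
      apply hl
      have := ARing_wgt_add wt m e
      unfold ARing_wgt at this h1
      omega
    rw [h2]
    simp

theorem ARing_lam_sub (l : (Fin 6 → ℕ) → ℤ) (f : MvPolynomial (Fin 6) W) :
    ARing_lam W l f - constantCoeff f ∈ (Ideal.span {3} : Ideal W) := by
  induction f using MvPolynomial.induction_on' with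
  | monomial m c =>
    rw [ARing_lam_monomial, constantCoeff_monomial]
    split_ifs
    · simp
    · exact Ideal.mem_span_singleton.2 ⟨c * l m, by ring⟩
  | add p q hp hq =>
    rw [map_add, map_add, add_sub_add_comm]
    exact add_mem hp hq

theorem ARing_I_const {l : (Fin 6 → ℕ) → ℤ} {f : MvPolynomial (Fin 6) W} (hf : f ∈ ARing_I W l) :
    constantCoeff f ∈ (Ideal.span {3} : Ideal W) := by
  have h1 := ARing_nine_le (hf 1)
  rw [mul_one] at h1
  have h2 := sub_mem h1 (ARing_lam_sub l f)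
  rwa [sub_sub_cancel] at h2

theorem ARing_mem_F_one {wt : Fin 6 → ℕ} (hw : ∀ i, 0 < wt i) {f : MvPolynomial (Fin 6) W} :
    f ∈ (ARing_F W wt).F 1 ↔ constantCoeff f ∈ (Ideal.span {3} : Ideal W) := by
  rw [ARing_mem_F, constantCoeff_eq]
  constructor
  · intro h
    have := h 0
    rwa [ARing_wgt_zero, ARing_J_small (by omega) (by omega)] at this
  · intro h m
    by_cases hm : m = 0
    · rw [hm, ARing_wgt_zero, ARing_J_small (by omega) (by omega)]
      exact h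
    · have := ARing_wgt_pos hw hm
      rw [show 1 - ARing_wgt wt m = 0 by omega, ARing_J_zero]
      exact Submodule.mem_top

theorem ARing_three_mem (wt : Fin 6 → ℕ) : (3 : MvPolynomial (Fin 6) W) ∈ (ARing_F W wt).F 16 := by
  intro m
  rw [show (3 : MvPolynomial (Fin 6) W) = C 3 from rfl, coeff_C]
  split_ifs with h
  · rw [← h, ARing_wgt_zero, ARing_J_small (by omega) (by omega)]
    exact Ideal.mem_span_singleton_self _
  · exact zero_mem _

theorem ARing_X_mem (wt : Fin 6 → ℕ) (i : Fin 6) :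
    (X i : MvPolynomial (Fin 6) W) ∈ (ARing_F W wt).F (wt i) := by
  intro m
  rw [coeff_X]
  split_ifs with h
  · rw [← h, ARing_wgt_single, Nat.sub_self, ARing_J_zero]
    exact Submodule.mem_top
  · exact zero_mem _

theorem ARing_three_not_mem (l : (Fin 6 → ℕ) → ℤ) (h : (3 : W) ∉ (Ideal.span {9} : Ideal W)) :
    (3 : MvPolynomial (Fin 6) W) ∉ ARing_I W l := by
  intro h3
  have := h3 1
  rw [mul_one, show (3 : MvPolynomial (Fin 6) W) = monomial 0 3 from rfl, ARing_lam_monomial,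
    if_pos rfl, mul_one] at this
  exact h this

theorem ARing_prod (e : Fin 6 → ℕ) :
    ∏ i, (X i : MvPolynomial (Fin 6) W) ^ e i = monomial (Finsupp.equivFunOnFinite.symm e) 1 := by
  rw [monomial_eq, C_1, one_mul, Finsupp.prod_fintype _ _ (by simp)]
  rfl

theorem ARing_lam_list (l : (Fin 6 → ℕ) → ℤ) (e : Fin 6 →₀ ℕ) (L : List (ℤ × (Fin 6 → ℕ)))
    (hL : ∀ t ∈ L, t.2 ≠ 0) :
    ARing_lam W l ((L.map fun t => (t.1 : MvPolynomial (Fin 6) W) * ∏ i, X i ^ t.2 i).sum *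
      monomial e 1) = 3 * (((L.map fun t => t.1 * l (t.2 + e)).sum : ℤ) : W) := by
  induction L with
  | nil => simp
  | cons t L ih =>
    rw [List.map_cons, List.sum_cons, List.map_cons, List.sum_cons, add_mul, map_add,
      ih fun s hs => hL s (List.mem_cons_of_mem _ hs), ARing_prod,
      show ((t.1 : ℤ) : MvPolynomial (Fin 6) W) = C (t.1 : W) by simp, C_mul_monomial, monomial_mul,
      ARing_lam_monomial, if_neg]
    · have : ⇑(Finsupp.equivFunOnFinite.symm t.2 + e) = t.2 + ⇑e := by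
        ext i
        simp
      rw [this]
      push_cast
      ring
    · intro h
      apply hL t List.mem_cons_self
      ext i
      have := DFunLike.congr_fun h i
      simp only [Finsupp.add_apply, Finsupp.equivFunOnFinite_symm_apply_apply, Finsupp.zero_apply] at this
      simp only [Pi.zero_apply]
      omega

theorem ARing_list_mem (l : (Fin 6 → ℕ) → ℤ) (L : List (ℤ × (Fin 6 → ℕ)))
    (hL : ∀ t ∈ L, t.2 ≠ 0) (h : ∀ e, (3 : ℤ) ∣ (L.map fun t => t.1 * l (t.2 + e)).sum) :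
    (L.map fun t => (t.1 : MvPolynomial (Fin 6) W) * ∏ i, X i ^ t.2 i).sum ∈ ARing_I W l := by
  refine ARing_mem_I fun e => ?_
  rw [ARing_lam_list l e L hL]
  obtain ⟨x, hx⟩ := h e
  rw [hx]
  exact Ideal.mem_span_singleton.2 ⟨x, by push_cast; ring⟩

theorem ARing_top_mem {wt : Fin 6 → ℕ} (hw : ∀ i, 0 < wt i) {l : (Fin 6 → ℕ) → ℤ}
    (hl : ∀ e, 17 ≤ ∑ i, wt i * e i → l e = 0) (e : Fin 6 → ℕ) (he : ∑ i, wt i * e i = 16)
    (h3 : (3 : ℤ) ∣ l e + 1) :
    (∏ i, (X i : MvPolynomial (Fin 6) W) ^ e i) - -3 ∈ ARing_I W l := by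
  refine ARing_mem_I fun d => ?_
  have hwe : ARing_wgt wt (Finsupp.equivFunOnFinite.symm e) = 16 := he
  have hne : Finsupp.equivFunOnFinite.symm e + d ≠ 0 := by
    intro h
    have := ARing_wgt_add wt (Finsupp.equivFunOnFinite.symm e) d
    rw [h, ARing_wgt_zero] at this
    omega
  rw [sub_neg_eq_add, add_mul, map_add, ARing_prod, monomial_mul,
    show (3 : MvPolynomial (Fin 6) W) = C 3 from rfl, C_mul_monomial, ARing_lam_monomial,
    ARing_lam_monomial, if_neg hne]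
  by_cases hd : d = 0
  · rw [if_pos hd, hd, add_zero]
    obtain ⟨x, hx⟩ := h3
    have h1 : l ⇑(Finsupp.equivFunOnFinite.symm e) = 3 * x - 1 := by
      rw [← hx]
      simp
    rw [h1]
    exact Ideal.mem_span_singleton.2 ⟨x, by push_cast; ring⟩
  · have h2 : l ⇑(Finsupp.equivFunOnFinite.symm e + d) = 0 := by
      apply hl
      have := ARing_wgt_add wt (Finsupp.equivFunOnFinite.symm e) d
      have h4 := ARing_wgt_pos hw hd
      rw [hwe] at this
      unfold ARing_wgt at this h4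
      omega
    rw [if_neg hd, h2]
    exact Ideal.mem_span_singleton.2 ⟨l d, by push_cast; ring⟩

/-- the image of a filtration under a surjection -/
def ARing_map {Q A : Type u} [CommRing Q] [CommRing A] (Φ : MF Q) (f : Q →+* A)
    (hf : Function.Surjective f) : MF A where
  F n := (Φ.F n).map f
  zero := by rw [Φ.zero, Ideal.map_top]
  anti := fun i j hij => Ideal.map_mono (Φ.anti hij)
  mul := fun {i j a b} ha hb => by
    obtain ⟨x, hx, rfl⟩ := (Ideal.mem_map_iff_of_surjective f hf).1 ha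
    obtain ⟨y, hy, rfl⟩ := (Ideal.mem_map_iff_of_surjective f hf).1 hb
    rw [← map_mul]
    exact Ideal.mem_map_of_mem _ (Φ.mul hx hy)

theorem ARing_pow_le {A : Type u} [CommRing A] (Φ : MF A) (n : ℕ) : Φ.F 1 ^ n ≤ Φ.F n := by
  induction n with
  | zero =>
    rw [Φ.zero]
    exact le_top
  | succ n ih =>
    rw [pow_succ]
    exact Ideal.mul_le.2 fun a ha b hb => Φ.mul (ih ha) hb

theorem ARing_local {A k : Type u} [CommRing A] [Field k] (π : A →+* k)
    (hπ : Function.Surjective π) (h : ∀ a, π a = 0 → IsNilpotent a) : IsLocalRing A := by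
  have : Nontrivial A := π.domain_nontrivial
  refine IsLocalRing.of_isUnit_or_isUnit_one_sub_self fun a => ?_
  by_cases ha : π a = 0
  · exact Or.inr (h a ha).isUnit_one_sub
  · obtain ⟨b, hb⟩ := hπ (π a)⁻¹
    have h1 := (h (1 - a * b) (by rw [map_sub, map_one, map_mul, hb, mul_inv_cancel₀ ha,
      sub_self])).isUnit_one_sub
    rw [sub_sub_cancel] at h1
    exact Or.inl (isUnit_of_mul_isUnit_left h1)

end Pool.Agent.MP_deef5c_ag.E

end

section

/-! An Artinian ring defined by a linear form on a polynomial ring over the Witt vectors. -/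

open PowerSeries IsLocalRing Function Pool.Agent.MP_deef5c_ag.O
open scoped Polynomial

namespace Pool.Agent.MP_deef5c_ag.E

universe u

/-- Let `W = WittVector 3 k` (a discrete valuation ring with uniformiser `3`), `Q = MvPolynomial (Fin 6) W`,
`λ : Q →ₗ[W] W` with `λ (monomial m c) = c` for `m = 0` and `3 * l m * c` otherwise,
`I = {f | ∀ g, λ (f * g) ∈ (9)}` (enough to test monomials `g`), `A = Q ⧸ I`.  The filtration is the image
of `F n = {f | ∀ m, coeff m f ∈ J (n - weight m)}` with `J 0 = ⊤`, `J i = (3)` for `1 ≤ i ≤ 16`,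
`J i = (9)` for `i ≥ 17`.  Then `F 17 ≤ I ≤ F 1`, `F 1` is the kernel of `Q → W → k`
(`WittVector.mem_span_p_iff_coeff_zero_eq_zero`), so the kernel of `π` is nilpotent and `A` is local,
Noetherian, hence Artinian (`isArtinianRing_iff_isNilpotent_maximalIdeal`). -/
theorem exists_ring (k : Type u) [Field k] [IsAlgClosed k] [CharP k 3] (wt : Fin 6 → ℕ)
    (hw : ∀ i, 0 < wt i) (l : (Fin 6 → ℕ) → ℤ) (hl : ∀ e, 17 ≤ ∑ i, wt i * e i → l e = 0) :
    ∃ (A : Type u) (_ : CommRing A) (_ : IsLocalRing A) (_ : IsArtinianRing A)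
      (_ : Algebra (WittVector 3 k) A) (π : A →+* k) (Φ : MF A) (v : Fin 6 → A),
      (∀ w, π (algebraMap (WittVector 3 k) A w) = w.coeff 0) ∧ (3 : A) ≠ 0 ∧ Φ.Loc 16 ∧
      (3 : A) ∈ Φ.F 16 ∧ (∀ i, v i ∈ Φ.F (wt i)) ∧
      (∀ L : List (ℤ × (Fin 6 → ℕ)), (∀ t ∈ L, t.2 ≠ 0) →
        (∀ e, (3 : ℤ) ∣ (L.map fun t => t.1 * l (t.2 + e)).sum) →
        (L.map fun t => (t.1 : A) * ∏ i, v i ^ t.2 i).sum = 0) ∧
      ∀ e, ∑ i, wt i * e i = 16 → (3 : ℤ) ∣ l e + 1 → ∏ i, v i ^ e i = -3 := by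
  have hker : ∀ w : WittVector 3 k, w ∈ (Ideal.span {3} : Ideal (WittVector 3 k)) ↔ w.coeff 0 = 0 :=
    fun w => by simpa using WittVector.mem_span_p_iff_coeff_zero_eq_zero (p := 3) w
  have h39 : (3 : WittVector 3 k) ∉ (Ideal.span {9} : Ideal (WittVector 3 k)) := by
    intro h
    obtain ⟨x, hx⟩ := Ideal.mem_span_singleton.1 h
    have hirr : Irreducible (3 : WittVector 3 k) := by simpa using WittVector.irreducible 3 (k := k)
    have h1 : (3 : WittVector 3 k) * (3 * x - 1) = 0 := by linear_combination -hx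
    rcases mul_eq_zero.1 h1 with h2 | h2
    · exact hirr.ne_zero h2
    · exact hirr.not_isUnit (IsUnit.of_mul_eq_one x (sub_eq_zero.1 h2))
  let I := ARing_I (WittVector 3 k) l
  let A := MvPolynomial (Fin 6) (WittVector 3 k) ⧸ I
  let φ : MvPolynomial (Fin 6) (WittVector 3 k) →+* k :=
    (WittVector.constantCoeff (p := 3)).comp MvPolynomial.constantCoeff
  have hφ : ∀ f, φ f = 0 ↔ f ∈ (ARing_F (WittVector 3 k) wt).F 1 := fun f => by
    rw [ARing_mem_F_one hw, hker]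
    rfl
  let π : A →+* k := Ideal.Quotient.lift I φ fun f hf =>
    (hφ f).2 ((ARing_mem_F_one hw).2 (ARing_I_const hf))
  let q : MvPolynomial (Fin 6) (WittVector 3 k) →+* A := Ideal.Quotient.mk I
  have hq : Surjective q := Ideal.Quotient.mk_surjective
  have hπq : ∀ f, π (q f) = φ f := fun f => rfl
  let Φ : MF A := ARing_map (ARing_F (WittVector 3 k) wt) q hq
  have hΦ : ∀ n, Φ.F n = ((ARing_F (WittVector 3 k) wt).F n).map q := fun n => rfl
  have halg : ∀ w, π (algebraMap (WittVector 3 k) A w) = w.coeff 0 := fun w => by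
    change φ (MvPolynomial.C w) = _
    simp [φ]
  have hsurj : Surjective π := fun c =>
    ⟨algebraMap (WittVector 3 k) A (WittVector.teichmuller 3 c), by
      rw [halg, WittVector.teichmuller_coeff_zero]⟩
  have htop : Φ.F 17 = ⊥ := by
    rw [hΦ, Ideal.map_eq_bot_iff_le_ker, Ideal.mk_ker]
    exact ARing_F_le_I hl
  have hone : Φ.F 1 = RingHom.ker π := by
    ext a
    obtain ⟨f, rfl⟩ := hq a
    rw [RingHom.mem_ker, hπq, hφ, hΦ]
    refine ⟨fun h => ?_, Ideal.mem_map_of_mem _⟩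
    obtain ⟨g, hg, hgf⟩ := (Ideal.mem_map_iff_of_surjective q hq).1 h
    rw [← hφ, ← hπq, ← hgf, hπq, hφ]
    exact hg
  have hloc : IsLocalRing A := ARing_local π hsurj fun a ha => ⟨17, by
    have h1 : a ∈ Φ.F 1 := by
      rw [hone]
      exact ha
    have h2 := Φ.pow h1 17
    rw [one_mul, htop] at h2
    exact h2⟩
  have hmax : Φ.F 1 = maximalIdeal A := by
    rw [hone]
    exact eq_maximalIdeal (RingHom.ker_isMaximal_of_surjective π hsurj)
  have hart : IsArtinianRing A := (isArtinianRing_iff_isNilpotent_maximalIdeal A).2 ⟨17, by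
    rw [← hmax, Ideal.zero_eq_bot, eq_bot_iff, ← htop]
    exact ARing_pow_le Φ 17⟩
  have h3 : (3 : A) = q 3 := (map_ofNat q 3).symm
  refine ⟨A, inferInstance, hloc, hart, inferInstance, π, Φ, fun i => q (MvPolynomial.X i), halg,
    ?_, ⟨hmax, htop⟩, ?_, fun i => Ideal.mem_map_of_mem _ (ARing_X_mem wt i), ?_, ?_⟩
  · rw [h3]
    exact fun h => ARing_three_not_mem l h39 (Ideal.Quotient.eq_zero_iff_mem.1 h)
  · rw [h3]
    exact Ideal.mem_map_of_mem _ (ARing_three_mem wt)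
  · intro L hL h
    have h1 : q _ = 0 := Ideal.Quotient.eq_zero_iff_mem.2 (ARing_list_mem l L hL h)
    rw [map_list_sum, List.map_map] at h1
    rw [← h1]
    refine congrArg List.sum (List.map_congr_left fun t _ => ?_)
    simp
  · intro e he h
    have h1 : q _ = q _ := Ideal.Quotient.eq.2 (ARing_top_mem hw hl e he h)
    rw [map_neg, ← h3] at h1
    rw [← h1]
    simp

end Pool.Agent.MP_deef5c_ag.E

end

section

/-! The certificate: an explicit linear form, checked by evaluation. -/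

open PowerSeries IsLocalRing Function Pool.Agent.MP_deef5c_ag.O
open scoped Polynomial

namespace Pool.Agent.MP_deef5c_ag.E

universe u

namespace ACert

abbrev Tm : Type := ℤ × ℕ × ℕ × ℕ × ℕ × ℕ × ℕ

def tab : ℕ → ℕ → ℕ
  | 0, 0 => 0x100000000000000000000000000000000000000000000000000000000000000000000001000000000200000000000000000000000000000000000000000000000000000000000001a00000012a00000020400000000000000000000000000000000000000000000000000000000000016200000005200000229600000000000000000000000000000000000000000002200000002200000094900002084200000155900000000000000000000000000000000002600000021600000020a0000255100002146980001092690000000000000000000000000020000002a5000000195000000168000292505000090000000000000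
  | 0, 1 => 0x1000000000000000000000000000000000000000000000000000000000000000000000002800000011800000000000000000000000000000000000000000000000000000000000001a00000026400000026000000000000000000000000000000000000000000000000000002000000016a000000919000020a500000000000000000000000000000000000000000000140000002140000009800000149990002264a40000000000000000000000000000000000250000001a0000000095000025219000198168000181296
  | 0, 2 => 0x800000000000000000000000000000000000000000000000000000000000000000000000400000004900000000000000000000000000000000000000000000000000000000000000800000008500000089100000000000000000000000000000000000000000000000000000400000006900000046800000402200000000000000000000000000000000000000000000800000008a000000aa2000008269000085196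
  | 0, 3 => 0x1000000000000000000000000000000000000000000000000000000000000000000000002000000021000000000000000000000000000000000000000000000000000000000000001000000001000000102000000000000000000000000000000000000000000000000000002000000014000000124000002000
  | 0, 4 => 0x20000000000000000000000000000000000000000000000000000000000000000000000014000000205
  | 0, 5 => 0x4
  | 1, 0 => 0x20000000000000000000000000000000000000000000000000000000000000000000000014000000224000000000000000000000000000000000000000000000000000000000000026000000199000000192000000000000000000000000000000000000000000000000000010000000285000000624000010590000000000000000000000000000000000000000000028000000128000000448000028541000119841000000000000000000000000000000000019000000252000000069000019161000266000000240000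
  | 1, 1 => 0x400000000000000000000000000000000000000000000000000000000000000000000000900000008400000000000000000000000000000000000000000000000000000000000000500000006900000046200000000000000000000000000000000000000000000000000000800000008400000098200000822a000000000000000000000000000000000000000000006000000044000000649000006126000049196
  | 1, 2 => 0x1100000001a000000000000000000000000000000000000000000000000000000000000019000000100000000066
  | 1, 3 => 0x10000000000000000000000000000000000000000000000000000000000000000000000028000000108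
  | 1, 4 => 0x8
  | 2, 0 => 0x800000000000000000000000000000000000000000000000000000000000000000000000500000004a0000000000000000000000000000000000000000000000000000000000000090000000a400000089100000000000000000000000000000000000000000000000000000400000005a00000055600000420800000000000000000000000000000000000000000000a00000008900000089900000a288000084000
  | 2, 1 => 0x200000000000000000000000000000000000000000000000000000000000000000000000100000001200000000000000000000000000000000000000000000000000000000000000200000001000000021800000000000000000000000000000000000000000000000000000100000000500000001a000001065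
  | 2, 2 => 0x20000000000000000000000000000000000000000000000000000000000000000000000014000000205
  | 2, 3 => 0x4
  | 3, 0 => 0x2000000000000000000000000000000000000000000000000000000000000000000000001000000012000000000000000000000000000000000000000000000000000000000000002000000002000000201000000000000000000000000000000000000000000000000000001000000028000000218000001000
  | 3, 1 => 0x1000000000000000000000000000000000000000000000000000000000000000000000002800000010a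
  | 3, 2 => 0x8
  | 4, 0 => 0x20000000000000000000000000000000000000000000000000000000000000000000000014000000204
  | 4, 1 => 0x4
  | 5, 0 => 0x8
  | _, _ => 0

def Le5 : List Tm :=
  [(-1, 0, 3, 0, 0, 1, 0), (2, 1, 1, 0, 0, 0, 1), (1, 0, 2, 0, 0, 0, 1), (-1, 0, 3, 0, 0, 0, 1), (1, 0, 0, 0, 0, 0, 2), (-2, 1, 1, 0, 0, 0, 2), (-1, 0, 2, 0, 0, 0, 2), (2, 1, 1, 1, 0, 0, 0), (1, 2, 0, 1, 0, 0, 0), (2, 0, 1, 1, 0, 0, 0), (1, 0, 2, 1, 0, 0, 0), (-1, 0, 0, 3, 0, 0, 0), (2, 1, 0, 0, 1, 0, 0), (2, 1, 1, 0, 1, 0, 0), (1, 2, 0, 0, 1, 0, 0), (2, 0, 1, 0, 1, 0, 0), (2, 0, 0, 0, 3, 0, 0)]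

def Le6 : List Tm :=
  [(1, 0, 0, 0, 0, 1, 0), (-1, 3, 0, 0, 0, 1, 0), (1, 0, 3, 0, 0, 1, 0), (1, 2, 0, 0, 0, 0, 1), (2, 0, 1, 0, 0, 0, 1), (-1, 0, 0, 0, 0, 0, 2), (-1, 2, 0, 0, 0, 0, 2), (-2, 0, 1, 0, 0, 0, 2), (-1, 0, 0, 0, 0, 0, 3), (3, 0, 0, 0, 0, 0, 4), (-3, 0, 0, 0, 0, 0, 5), (1, 0, 0, 0, 0, 0, 6), (2, 1, 0, 1, 0, 0, 0), (-1, 0, 2, 1, 0, 0, 0), (1, 0, 0, 3, 0, 0, 0), (1, 0, 0, 0, 1, 0, 0), (-2, 1, 1, 0, 1, 0, 0), (-1, 0, 2, 0, 1, 0, 0)]

def Le7 : List Tm :=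
  [(-1, 0, 0, 0, 0, 1, 0), (1, 0, 3, 0, 0, 1, 0), (1, 0, 0, 0, 0, 0, 1), (2, 1, 0, 0, 0, 0, 1), (-1, 3, 0, 0, 0, 0, 1), (-1, 0, 2, 0, 0, 0, 1), (1, 0, 3, 0, 0, 0, 1), (-2, 1, 0, 0, 0, 0, 2), (1, 0, 2, 0, 0, 0, 2), (1, 0, 0, 1, 0, 0, 0), (-2, 1, 1, 1, 0, 0, 0), (-1, 0, 2, 1, 0, 0, 0), (1, 0, 0, 3, 0, 0, 0), (-2, 1, 1, 0, 1, 0, 0), (-1, 2, 0, 0, 1, 0, 0), (-2, 0, 1, 0, 1, 0, 0), (-1, 0, 2, 0, 1, 0, 0), (-1, 0, 0, 0, 3, 0, 0)]

def Lp3 : List Tm :=
  [(2, 0, 3, 0, 0, 1, 1), (-1, 0, 0, 0, 0, 1, 2), (-4, 1, 1, 1, 0, 0, 1), (-2, 0, 2, 1, 0, 0, 1), (2, 0, 0, 3, 0, 0, 1), (-4, 1, 1, 0, 1, 0, 1), (-2, 2, 0, 0, 1, 0, 1), (-4, 0, 1, 0, 1, 0, 1), (-2, 0, 2, 0, 1, 0, 1), (-2, 0, 0, 0, 3, 0, 1), (-1, 3, 0, 0, 0, 0, 2), (-2, 0, 2, 0, 0, 0, 2), (2, 0, 3, 0, 0, 0, 2), (2, 0, 2, 0, 0, 0, 3), (1, 0, 2, 0, 1, 0, 0), (-1, 0, 0, 0, 3, 0, 0)]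

def Lp2 : List Tm :=
  [(-2, 0, 5, 0, 0, 1, 1), (2, 0, 6, 0, 0, 1, 1), (-1, 0, 3, 0, 0, 1, 2), (2, 0, 5, 0, 0, 1, 2), (-4, 1, 4, 1, 0, 1, 0), (-2, 0, 5, 1, 0, 1, 0), (2, 0, 3, 3, 0, 1, 0), (-4, 1, 4, 0, 1, 1, 0), (-2, 2, 3, 0, 1, 1, 0), (1, 0, 2, 0, 1, 1, 0), (-4, 0, 4, 0, 1, 1, 0), (-2, 0, 5, 0, 1, 1, 0), (-1, 0, 0, 0, 3, 1, 0), (-2, 0, 3, 0, 3, 1, 0), (1, 0, 6, 0, 0, 2, 0), (4, 1, 3, 1, 0, 0, 1), (-4, 1, 4, 1, 0, 0, 1), (2, 0, 4, 1, 0, 0, 1), (-2, 0, 5, 1, 0, 0, 1), (-2, 0, 2, 3, 0, 0, 1), (2, 0, 3, 3, 0, 0, 1), (4, 1, 3, 0, 1, 0, 1), (-4, 1, 4, 0, 1, 0, 1), (2, 2, 2, 0, 1, 0, 1), (-2, 2, 3, 0, 1, 0, 1), (4, 0, 3, 0, 1, 0, 1), (-2, 0, 4, 0, 1, 0, 1), (-2, 0, 5, 0, 1, 0, 1), (2, 0, 0, 0, 3, 0, 1), (2, 0, 2, 0, 3, 0, 1), (-2, 0, 3, 0, 3, 0, 1), (-4, 1, 3, 1, 0, 0, 2), (1, 0, 2, 1, 0, 0, 2), (-2, 0, 4, 1, 0, 0, 2), (-1, 0, 0, 3, 0, 0, 2), (2, 0, 2, 3, 0, 0, 2), (2, 1, 1, 0, 1, 0, 2), (-4, 1, 3, 0, 1, 0, 2), (-2,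 2, 2, 0, 1, 0, 2), (1, 0, 2, 0, 1, 0, 2), (-4, 0, 3, 0, 1, 0, 2), (-2, 0, 4, 0, 1, 0, 2), (-2, 0, 2, 0, 3, 0, 2), (-1, 0, 3, 0, 0, 0, 2), (1, 0, 4, 0, 0, 0, 2), (-2, 0, 5, 0, 0, 0, 2), (1, 0, 6, 0, 0, 0, 2), (-2, 0, 4, 0, 0, 0, 3), (2, 0, 5, 0, 0, 0, 3), (1, 0, 4, 0, 0, 0, 4), (8, 1, 2, 1, 1, 0, 0), (8, 1, 3, 1, 1, 0, 0), (10, 2, 2, 1, 1, 0, 0), (4, 3, 1, 1, 1, 0, 0), (4, 0, 3, 1, 1, 0, 0), (2, 0, 4, 1, 1, 0, 0), (4, 1, 1, 1, 3, 0, 0), (2, 0, 2, 1, 3, 0, 0), (4, 1, 3, 2, 0, 0, 0), (4, 2, 2, 2, 0, 0, 0), (1, 0, 4, 2, 0, 0, 0), (-4, 1, 1, 3, 1, 0, 0), (-2, 2, 0, 3, 1, 0, 0), (-4, 0, 1, 3, 1, 0, 0), (-2, 0, 2, 3, 1, 0, 0), (-2, 0, 0, 3, 3, 0, 0), (-4, 1, 1, 4, 0, 0, 0), (-2, 0, 2, 4, 0, 0, 0), (1, 0, 0, 6, 0, 0, 0), (1, 3, 2, 0, 1, 0, 0), (8, 1, 2, 0, 2, 0, 0), (4, 1, 3, 0, 2, 0, 0), (4, 2, 1, 0, 2, 0, 0), (6, 2, 2, 0, 2, 0, 0), (4, 3, 1, 0, 2, 0, 0), (1, 4, 0, 0, 2, 0, 0), (4, 0, 2, 0, 2, 0, 0), (4, 0, 3, 0, 2, 0,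 0), (1, 0, 4, 0, 2, 0, 0), (-1, 3, 0, 0, 3, 0, 0), (4, 1, 1, 0, 4, 0, 0), (2, 2, 0, 0, 4, 0, 0), (4, 0, 1, 0, 4, 0, 0), (2, 0, 2, 0, 4, 0, 0), (1, 0, 0, 0, 6, 0, 0)]

def Lp1 : List Tm :=
  [(1, 0, 5, 0, 1, 1, 0), (1, 0, 3, 0, 3, 1, 0), (-2, 0, 2, 0, 3, 0, 1), (2, 0, 3, 0, 3, 0, 1), (-1, 0, 0, 0, 3, 0, 2), (2, 0, 2, 0, 3, 0, 2), (-1, 0, 4, 1, 1, 0, 0), (-4, 1, 1, 1, 3, 0, 0), (-1, 0, 2, 1, 3, 0, 0), (1, 0, 2, 3, 1, 0, 0), (1, 0, 0, 3, 3, 0, 0), (1, 0, 5, 0, 1, 0, 0), (-2, 1, 3, 0, 2, 0, 0), (-1, 0, 4, 0, 2, 0, 0), (-1, 0, 3, 0, 3, 0, 0), (-2, 1, 1, 0, 4, 0, 0), (-2, 2, 0, 0, 4, 0, 0), (-4, 0, 1, 0, 4, 0, 0), (-1, 0, 2, 0, 4, 0, 0), (-2, 0, 0, 0, 6, 0, 0)]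
/-- the value of the linear form on `v1^a v2^b u2^c u3^d h0^e h1^f` -/
def lv (a b c d e f : ℕ) : ℕ :=
  if a ≤ 1 ∧ a + 2 * b + 2 * c + 3 * d + 3 * e + 2 * f ≤ 16 then
    (tab d e >>> (2 * (a + 2 * (b + 9 * (c + 9 * f))))) % 4 else 0

def sm (L : List Tm) (a b c d e f : ℕ) : ℤ :=
  (L.map fun t => t.1 * (lv (t.2.1 + a) (t.2.2.1 + b) (t.2.2.2.1 + c) (t.2.2.2.2.1 + d)
    (t.2.2.2.2.2.1 + e) (t.2.2.2.2.2.2 + f) : ℤ)).sum

def chk (L : List Tm) (m : ℕ) : Bool :=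
  (L.all fun t => decide (m ≤ t.2.1 + 2 * t.2.2.1 + 2 * t.2.2.2.1 + 3 * t.2.2.2.2.1 +
    3 * t.2.2.2.2.2.1 + 2 * t.2.2.2.2.2.2)) &&
  (List.range 2).all fun a => (List.range 9).all fun b => (List.range (9 - b)).all fun c =>
    (List.range (9 - b - c)).all fun f => (List.range 6).all fun d => (List.range (6 - d)).all fun e =>
      decide (16 < m + a + 2 * b + 2 * c + 3 * d + 3 * e + 2 * f) || decide (sm L a b c d e f % 3 = 0)

theorem sm_dvd {L : List Tm} {m : ℕ} (h : chk L m = true) (a b c d e f : ℕ) :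
    (3 : ℤ) ∣ sm L a b c d e f := by
  simp only [chk, List.all_eq_true, List.mem_range, Bool.or_eq_true, Bool.and_eq_true,
    decide_eq_true_eq] at h
  by_cases hw : a ≤ 1 ∧ m + a + 2 * b + 2 * c + 3 * d + 3 * e + 2 * f ≤ 16
  · rcases h.2 a (by omega) b (by omega) c (by omega) f (by omega) d (by omega) e (by omega) with
      h | h
    · omega
    · exact Int.dvd_of_emod_eq_zero h
  · refine List.dvd_sum fun x hx => ?_
    obtain ⟨t, ht, rfl⟩ := List.mem_map.1 hx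
    have := h.1 t ht
    rw [lv, if_neg (by omega)]
    simp

def ex (t : Tm) : ℤ × (Fin 6 → ℕ) :=
  (t.1, ![t.2.1, t.2.2.1, t.2.2.2.1, t.2.2.2.2.1, t.2.2.2.2.2.1, t.2.2.2.2.2.2])

def ev {A : Type u} [CommRing A] (v : Fin 6 → A) (L : List Tm) : A :=
  (L.map fun t => (t.1 : A) * (v 0 ^ t.2.1 * v 1 ^ t.2.2.1 * v 2 ^ t.2.2.2.1 * v 3 ^ t.2.2.2.2.1 *
    v 4 ^ t.2.2.2.2.2.1 * v 5 ^ t.2.2.2.2.2.2)).sum

def ll (e : Fin 6 → ℕ) : ℤ := lv (e 0) (e 1) (e 2) (e 3) (e 4) (e 5)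

def nz (L : List Tm) : Bool :=
  L.all fun t => decide (0 < t.2.1 + t.2.2.1 + t.2.2.2.1 + t.2.2.2.2.1 + t.2.2.2.2.2.1 + t.2.2.2.2.2.2)

theorem ev_zero {A : Type u} [CommRing A] {v : Fin 6 → A}
    (H : ∀ L : List (ℤ × (Fin 6 → ℕ)), (∀ t ∈ L, t.2 ≠ 0) →
      (∀ e, (3 : ℤ) ∣ (L.map fun t => t.1 * ll (t.2 + e)).sum) →
      (L.map fun t => (t.1 : A) * ∏ i, v i ^ t.2 i).sum = 0)
    {L : List Tm} {m : ℕ} (h1 : nz L = true) (h2 : chk L m = true) : ev v L = 0 := by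
  have := H (L.map ex) (fun t ht h0 => ?_) fun e => ?_
  · simpa only [ev, List.map_map, Function.comp_def, ex, Fin.prod_univ_six, Matrix.cons_val] using this
  · obtain ⟨t, ht', rfl⟩ := List.mem_map.1 ht
    simp only [nz, List.all_eq_true, decide_eq_true_eq] at h1
    have h3 := h1 t ht'
    have e0 := congrFun h0 0
    have e1 := congrFun h0 1
    have e2 := congrFun h0 2
    have e3 := congrFun h0 3
    have e4 := congrFun h0 4
    have e5 := congrFun h0 5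
    simp only [ex, Matrix.cons_val, Pi.zero_apply] at e0 e1 e2 e3 e4 e5
    omega
  · simpa only [sm, List.map_map, Function.comp_def, ex, ll, Pi.add_apply, Matrix.cons_val] using
      sm_dvd h2 (e 0) (e 1) (e 2) (e 3) (e 4) (e 5)

theorem c5 : chk Le5 4 = true := by decide +kernel

theorem c6 : chk Le6 3 = true := by decide +kernel

theorem c7 : chk Le7 2 = true := by decide +kernel

theorem c3 : chk Lp3 7 = true := by decide +kernel

theorem c2 : chk Lp2 10 = true := by decide +kernel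

theorem c1 : chk Lp1 13 = true := by decide +kernel

end ACert

open ACert in
theorem exists_cert (k : Type u) [Field k] [IsAlgClosed k] [CharP k 3] :
    ∃ (A : Type u) (_ : CommRing A) (_ : IsLocalRing A) (_ : IsArtinianRing A)
      (_ : Algebra (WittVector 3 k) A) (π : A →+* k) (Φ : MF A) (v1 v2 u2 u3 h0 h1 : A),
      (∀ w, π (algebraMap (WittVector 3 k) A w) = w.coeff 0) ∧ (3 : A) ≠ 0 ∧ Φ.Loc 16 ∧
      Cert Φ v1 v2 u2 u3 h0 h1 := by
  obtain ⟨A, _, _, _, _, π, Φ, v, h1, h2, h3, h4, h5, h6, h7⟩ :=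
    exists_ring k ![1, 2, 2, 3, 3, 2] (by decide) ll fun e he => by
      simp only [Fin.sum_univ_six, Matrix.cons_val] at he
      rw [ll, lv, if_neg (by omega), Nat.cast_zero]
  have e5 := ev_zero h6 (by decide) c5
  have e6 := ev_zero h6 (by decide) c6
  have e7 := ev_zero h6 (by decide) c7
  have p3 := ev_zero h6 (by decide) c3
  have p2 := ev_zero h6 (by decide +kernel) c2
  have p1 := ev_zero h6 (by decide) c1
  have p0 := h7 ![0, 2, 0, 4, 0, 0] (by decide) (by decide +kernel)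
  simp only [ev, Le5, Le6, Le7, Lp3, Lp2, Lp1, List.map_cons, List.map_nil, List.sum_cons,
    List.sum_nil, Fin.prod_univ_six, Matrix.cons_val] at e5 e6 e7 p3 p2 p1 p0
  push_cast at e5 e6 e7 p3 p2 p1
  refine ⟨A, _, ‹_›, ‹_›, ‹_›, π, Φ, v 0, v 1, v 2, v 3, v 4, v 5, h1, h2, h3, h4, h5 0, h5 1, h5 2,
    h5 3, h5 4, h5 5, ?_, ?_, ?_, ?_, ?_, ?_, by linear_combination p0⟩ <;>
    simp only [cB, cC, cD, cU]
  · linear_combination e5
  · linear_combination e6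
  · linear_combination e7
  · linear_combination p3
  · linear_combination p2
  · linear_combination p1

end Pool.Agent.MP_deef5c_ag.E

end

section

/-! The congruences for the top step: definitions. -/

open PowerSeries IsLocalRing Function Pool.Agent.MP_deef5c_ag.O
open scoped Polynomial

namespace Pool.Agent.MP_deef5c_ag.E

universe u

variable {D : Type u} [CommRing D]

/-- `a1, a2` etc. play the role of first and second derivatives -/
structure DA (G : MF D) (s a a1 a2 b b1 b2 W W1 W2 θ : D) : Prop where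
  three : (3 : D) ∈ G.F 16
  ms : s ∈ G.F 1
  ma : a ∈ G.F 3
  ma1 : a1 ∈ G.F 2
  ma2 : a2 ∈ G.F 1
  mb : b ∈ G.F 3
  mb1 : b1 ∈ G.F 2
  mb2 : b2 ∈ G.F 1
  mW : W ∈ G.F 9
  mW1 : W1 ∈ G.F 8
  mW2 : W2 ∈ G.F 7
  inv : (1 - s + s ^ 3) * θ = 1
  e0 : b ^ 3 - a ^ 2 * b = (1 - s + s ^ 3) * W
  e1 : 3 * b ^ 2 * b1 - 2 * a * a1 * b - a ^ 2 * b1 = (-1 + 3 * s ^ 2) * W + (1 - s + s ^ 3) * W1
  e2 : 6 * b * b1 ^ 2 + 3 * b ^ 2 * b2 - 2 * a1 ^ 2 * b - 2 * a * a2 * b - 4 * a * a1 * b1 -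
    a ^ 2 * b2 = 6 * s * W + 2 * (-1 + 3 * s ^ 2) * W1 + (1 - s + s ^ 3) * W2
  p : W1 ^ 2 + W * W2 + 3 ∈ G.F 19

def dr (a1 b θ : D) : D := a1 * b ^ 2 * θ

def dr1 (s a1 a2 b b1 θ : D) : D :=
  a2 * b ^ 2 * θ + 2 * a1 * b * b1 * θ + a1 * b ^ 2 * θ ^ 2 * (1 - 3 * s ^ 2)

def dw (a a1 a2 b b1 b2 W θ : D) : D :=
  -(θ ^ 2 * (a * (2 * a1 * b + a * b1) ^ 2 + 2 * a * a1 ^ 2 * b ^ 2 -
    (b ^ 3 - a ^ 2 * b) * (2 * a2 * b + 4 * a1 * b1 + a * b2) - W * (2 * a1 * b + a * b1)))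

def dρ (a a1 b θ : D) : D := a1 * θ * a * b

def dω (a a1 b b1 b2 W θ : D) : D :=
  θ ^ 2 * b * (b2 * (b ^ 3 - a ^ 2 * b) + b1 * W - (2 * a1 * b + a * b1) ^ 2 - 2 * a1 ^ 2 * b ^ 2)

end Pool.Agent.MP_deef5c_ag.E

end
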