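import Pool.Agent.Mg.Fdeef5c.G30175f

section

/-! Definitions for the proof that the characteristic of the lifts is bounded. -/

open IsLocalRing Function Pool.Agent.MP_deef5c_ag.O
open scoped Polynomial PowerSeries

namespace Pool.Agent.MP_deef5c_ag.E

universe u

/-- generators of the four subgroups of order three -/
def rh : Fin 4 → EE :=
  ![Multiplicative.ofAdd (0, 1), Multiplicative.ofAdd (1, 0), Multiplicative.ofAdd (1, -1),
    Multiplicative.ofAdd (1, 1)]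

/-- the character with kernel generated by `rh j` -/
def chi (j : Fin 4) (g : EE) : ZMod 3 :=
  ![g.toAdd.1, g.toAdd.2, g.toAdd.1 + g.toAdd.2, g.toAdd.1 - g.toAdd.2] j

/-- the additive map `EE → k` with values `a`, `b` on `sg`, `ta` -/
def lin2 {k : Type u} [Field k] (a b : k) (g : EE) : k :=
  (g.toAdd.1.val : k) * a + (g.toAdd.2.val : k) * b

/-- leading terms of the action -/
structure Ld {k : Type u} [Field k] (ρ : EE →* (k⟦X⟧ ≃ₐ[k] k⟦X⟧)) (l₁ l₂ y₁ y₂ : k) : Prop where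
  ld : ∀ g, PowerSeries.X ^ 13 ∣ ρ g PowerSeries.X - PowerSeries.X - PowerSeries.X ^ 9 *
    (PowerSeries.C (lin2 l₁ l₂ g) + PowerSeries.C (lin2 y₁ y₂ g) * PowerSeries.X ^ 3)
  n1 : l₁ ≠ 0
  n2 : l₂ ≠ 0
  n3 : l₁ + l₂ ≠ 0
  n4 : l₁ - l₂ ≠ 0
  det : l₁ * y₂ ≠ l₂ * y₁

/-- the data on the top curve which survive products and passage to a valuation ring -/
structure CfT (R B : Type u) [CommRing R] [CommRing B] (J : Ideal R) where
  i : R →+* B
  x : B
  T : EE → B →+* B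
  W : Fin 4 → R[X]
  z : EE → B
  one : ∀ b, T 1 b = b
  mul : ∀ g h b, T (g * h) b = T g (T h b)
  fix : ∀ g a, T g (i a) = i a
  dv : ∀ g b, T g x - x ∣ T g b - b
  mon : ∀ c, (W c).Monic
  deg : ∀ c, (W c).natDegree = 9
  dist : ∀ c, ∀ n < 9, (W c).coeff n ∈ J
  as1 : ∀ c, T (rh c) x - x ∣ (W c).eval₂ i x
  as2 : ∀ c, (W c).eval₂ i x ∣ T (rh c) x - x
  surj : ∀ b, ∃ r : R[X], r.degree < 36 ∧ (∏ c, W c).eval₂ i x ∣ b - r.eval₂ i x
  inj : ∀ r : R[X], r.degree < 36 → (∏ c, W c).eval₂ i x ∣ r.eval₂ i x → r = 0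
  zmul : ∀ g h, z (g * h) = T g (z h) * z g
  z3 : ∀ c, T (rh c) x - x ∣ 1 + z (rh c) + z (rh c) ^ 2
  sim : ∀ c, ∃ U, T (rh c) x - x ∣ z (rh c) - 1 - U * (Polynomial.derivative (W c)).eval₂ i x

namespace CfT

variable {R B : Type u} [CommRing R] [CommRing B] {J : Ideal R} (c : CfT R B J)

/-- first conjugate of `x` under `rh j` -/
def x1 (j : Fin 4) : B := c.T (rh j) c.x

/-- second conjugate of `x` under `rh j` -/
def x2 (j : Fin 4) : B := c.T (rh j * rh j) c.x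

/-- the norm of `x`, a coordinate on the quotient by `rh j` -/
def S (j : Fin 4) : B := c.x * c.x1 j * c.x2 j

end CfT

/-- the data on the quotient by `rh j` -/
structure CfS {R B : Type u} [CommRing R] [CommRing B] {J : Ideal R} (c : CfT R B J) (j : Fin 4)
    (Ws Vs p₁ p₂ : R[X]) : Prop where
  mon : Ws.Monic
  deg : Ws.natDegree = 9
  dist : ∀ n < 9, Ws.coeff n ∈ J
  dV : Vs.degree < 9
  d1 : p₁.degree < 9
  d2 : p₂.degree < 9
  ws : ∀ g, chi j g = 1 → c.T g c.x - c.x ∣ Ws.eval₂ c.i (c.S j)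
  der : ∀ g, chi j g = 1 → c.T g c.x - c.x ∣ (c.x - c.x1 j) * (c.x - c.x2 j) *
    ((Polynomial.derivative Ws).eval₂ c.i (c.S j) - Vs.eval₂ c.i (c.S j) * (c.z g - 1))
  s1 : Ws.eval₂ c.i (c.S j) ∣ c.x + c.x1 j + c.x2 j - p₁.eval₂ c.i (c.S j)
  s2 : Ws.eval₂ c.i (c.S j) ∣
    c.x * c.x1 j + c.x * c.x2 j + c.x1 j * c.x2 j - p₂.eval₂ c.i (c.S j)

/-- all data -/
def Cfg (R B : Type u) [CommRing R] [CommRing B] (J : Ideal R) : Prop :=
  ∃ (c : CfT R B J) (Ws Vs p₁ p₂ : Fin 4 → R[X]), (∀ j, CfS c j (Ws j) (Vs j) (p₁ j) (p₂ j)) ∧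
    (∀ j, IsUnit ((Vs j).coeff 0)) ∧
    IsUnit ((Vs 0).coeff 0 * (Vs 1).coeff 1 - (Vs 1).coeff 0 * (Vs 0).coeff 1)

section Val

open Polynomial

variable {V : Type u} [CommRing V]

noncomputable def Qp (T : Fin 3 → V) : V[X] := (X - C (T 0)) * (X - C (T 1)) * (X - C (T 2))

/-- `Qp T * ∑ e i / (X - T i)` -/
noncomputable def np (e : Fin 3 → ℤ) (T : Fin 3 → V) : V[X] :=
  C (e 0 : V) * ((X - C (T 1)) * (X - C (T 2))) + C (e 1 : V) * ((X - C (T 0)) * (X - C (T 2))) +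
    C (e 2 : V) * ((X - C (T 0)) * (X - C (T 1)))

/-- `∑_c chi j (rh c) * n c * ∏_{c' ≠ c, j} q c'` -/
def NQ {P : Type u} [CommRing P] (n q : Fin 4 → P) : Fin 4 → P :=
  ![n 1 * q 2 * q 3 + n 2 * q 1 * q 3 + n 3 * q 1 * q 2,
    n 0 * q 2 * q 3 - n 2 * q 0 * q 3 + n 3 * q 0 * q 2,
    n 0 * q 1 * q 3 + n 1 * q 0 * q 3 - n 3 * q 0 * q 1,
    -(n 0 * q 1 * q 2) + n 1 * q 0 * q 2 - n 2 * q 0 * q 1]

/-- `∏_{c ≠ j} q c` -/
def WQ {P : Type u} [CommRing P] (q : Fin 4 → P) : Fin 4 → P :=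
  ![q 1 * q 2 * q 3, q 0 * q 2 * q 3, q 0 * q 1 * q 3, q 0 * q 1 * q 2]

/-- numerators of the four logarithmic forms -/
noncomputable def NN (e : Fin 4 → Fin 3 → ℤ) (T : Fin 4 → Fin 3 → V) : Fin 4 → V[X] :=
  NQ (fun c => np (e c) (T c)) fun c => Qp (T c)

/-- `chi j (rh c)` as an integer -/
def chZ : Fin 4 → Fin 4 → ℤ := ![![0, 1, 1, 1], ![1, 0, -1, 1], ![1, 1, 0, -1], ![-1, 1, -1, 0]]

/-- the branch points over a valuation ring -/
structure VD [IsLocalRing V] (ν : V) (T : Fin 4 → Fin 3 → V) (e : Fin 4 → Fin 3 → ℤ)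
    (M : Fin 4 → V[X]) : Prop where
  hν : ν ^ 2 = -3
  hT : ∀ c i, T c i ∈ maximalIdeal V
  ne : T 0 0 ≠ T 0 1
  he : ∀ c i, e c i = 1 ∨ e c i = -1
  hN : ∀ j, NN e T j = C ν * M j
  hu : ∀ j, IsUnit ((M j).coeff 0)
  hd : IsUnit ((M 0).coeff 0 * (M 1).coeff 1 - (M 1).coeff 0 * (M 0).coeff 1)

/-- the branch points after rescaling the disc -/
structure SD [IsLocalRing V] (ρ δ : V) (z : Fin 4 → Fin 3 → V) (e : Fin 4 → Fin 3 → ℤ)
    (G : Fin 4 → V[X]) (y : Fin 4 → V) : Prop where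
  hρ : ρ ∈ maximalIdeal V
  ρ0 : ρ ≠ 0
  δ0 : δ ≠ 0
  h3 : δ ^ 2 * ρ ^ 16 = -3
  he : ∀ c i, e c i = 1 ∨ e c i = -1
  hz : ∃ c i c' i', IsUnit (z c i - z c' i')
  hN : ∀ j, NN e z j = C δ * G j
  hG : ∀ j n, n ≠ 0 → (G j).coeff n ∈ maximalIdeal V
  hy : ∀ j, (G j).coeff 1 = ρ * y j
  hu : ∀ j, IsUnit ((G j).coeff 0)
  hd : IsUnit ((G 0).coeff 0 * y 1 - (G 1).coeff 0 * y 0)
  l2 : (G 2).coeff 0 - (G 0).coeff 0 - (G 1).coeff 0 ∈ maximalIdeal V
  l3 : (G 3).coeff 0 - (G 0).coeff 0 + (G 1).coeff 0 ∈ maximalIdeal V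
  y2 : y 2 - y 0 - y 1 ∈ maximalIdeal V
  y3 : y 3 - y 0 + y 1 ∈ maximalIdeal V

end Val

end Pool.Agent.MP_deef5c_ag.E

end

section

/-! The data are stable under products. -/

open Polynomial IsLocalRing Function

namespace Pool.Agent.MP_deef5c_ag.E

universe u

variable {R B : ℕ → Type u} [∀ n, CommRing (R n)] [∀ n, CommRing (B n)]

theorem poly_pi_ext {p q : (∀ n, R n)[X]}
    (h : ∀ n, p.map (Pi.evalRingHom R n) = q.map (Pi.evalRingHom R n)) : p = q := by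
  ext k n
  have := congrArg (fun f => coeff f k) (h n)
  simpa using this

theorem exists_poly_pi (d : ℕ) (p : ∀ n, (R n)[X]) (h : ∀ n, (p n).degree < d) :
    ∃ q : (∀ n, R n)[X], q.degree < d ∧ ∀ n, q.map (Pi.evalRingHom R n) = p n := by
  have hc : ∀ k, (∑ j ∈ Finset.range d, monomial j (fun n => (p n).coeff j) :
      (∀ n, R n)[X]).coeff k = if k < d then (fun n => (p n).coeff k) else 0 := fun k => by
    simp [finsetSum_coeff, coeff_monomial]
  refine ⟨∑ j ∈ Finset.range d, monomial j (fun n => (p n).coeff j), ?_, fun n => ?_⟩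
  · rw [degree_lt_iff_coeff_zero]
    intro m hm
    rw [hc, if_neg (by omega)]
  · ext k
    rw [coeff_map, hc]
    split_ifs with hk
    · rfl
    · rw [map_zero, (degree_lt_iff_coeff_zero _ _).1 (h n) k (by omega)]

theorem exists_monic_pi (d : ℕ) (p : ∀ n, (R n)[X]) (h : ∀ n, (p n).Monic)
    (hd : ∀ n, (p n).natDegree = d) [Nontrivial (∀ n, R n)] :
    ∃ q : (∀ n, R n)[X], q.Monic ∧ q.natDegree = d ∧ ∀ n, q.map (Pi.evalRingHom R n) = p n := by
  obtain ⟨q, h1, h2⟩ := exists_poly_pi d (fun n => p n - X ^ d) fun n => by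
    rw [degree_lt_iff_coeff_zero]
    intro m hm
    rw [coeff_sub, coeff_X_pow]
    split_ifs with hk
    · rw [hk, ← hd n, (h n).coeff_natDegree, sub_self]
    · rw [coeff_eq_zero_of_natDegree_lt (by rw [hd n]; omega), sub_self]
  refine ⟨X ^ d + q, monic_X_pow_add h1, ?_, fun n => ?_⟩
  · rw [natDegree_add_eq_left_of_degree_lt (by rwa [degree_X_pow]), natDegree_X_pow]
  · rw [Polynomial.map_add, h2, Polynomial.map_pow, map_X, add_sub_cancel]

/-- the componentwise homomorphism -/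
def BProd_h (f : ∀ n, R n →+* B n) : (∀ n, R n) →+* ∀ n, B n :=
  RingHom.pi fun n => (f n).comp (Pi.evalRingHom R n)

theorem BProd_app (f : ∀ n, R n →+* B n) (a : ∀ n, R n) (n : ℕ) : BProd_h f a n = f n (a n) := rfl

theorem BProd_ev (f : ∀ n, R n →+* B n) (p : (∀ n, R n)[X]) (x : ∀ n, B n) (n : ℕ) :
    p.eval₂ (BProd_h f) x n = (p.map (Pi.evalRingHom R n)).eval₂ (f n) (x n) := by
  rw [eval₂_map]
  exact hom_eval₂ p (BProd_h f) (Pi.evalRingHom B n) x

theorem BProd_co {p : (∀ n, R n)[X]} {q : ∀ n, (R n)[X]}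
    (h : ∀ n, p.map (Pi.evalRingHom R n) = q n) (k n : ℕ) : p.coeff k n = (q n).coeff k := by
  rw [← h, coeff_map]
  rfl

/-- the product of the data on the top curve -/
noncomputable def BProd_c {J : ∀ n, Ideal (R n)} (c : ∀ n, CfT (R n) (B n) (J n))
    (W : Fin 4 → (∀ n, R n)[X]) (h1 : ∀ j, (W j).Monic) (h2 : ∀ j, (W j).natDegree = 9)
    (h3 : ∀ j n, (W j).map (Pi.evalRingHom R n) = (c n).W j) :
    CfT (∀ n, R n) (∀ n, B n) (Ideal.pi J) where
  i := BProd_h fun n => (c n).i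
  x := fun n => (c n).x
  T := fun g => BProd_h fun n => (c n).T g
  W := W
  z := fun g n => (c n).z g
  one := fun b => funext fun n => (c n).one (b n)
  mul := fun g h b => funext fun n => (c n).mul g h (b n)
  fix := fun g a => funext fun n => (c n).fix g (a n)
  dv := fun g b => pi_dvd_iff.2 fun n => (c n).dv g (b n)
  mon := h1
  deg := h2
  dist := fun j k hk n => by
    rw [BProd_co (h3 j)]
    exact (c n).dist j k hk
  as1 := fun j => pi_dvd_iff.2 fun n => by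
    rw [BProd_ev, h3]
    exact (c n).as1 j
  as2 := fun j => pi_dvd_iff.2 fun n => by
    rw [BProd_ev, h3]
    exact (c n).as2 j
  surj := fun b => by
    choose r hr hr' using fun n => (c n).surj (b n)
    obtain ⟨q, hq, hq'⟩ := exists_poly_pi 36 r hr
    refine ⟨q, hq, pi_dvd_iff.2 fun n => ?_⟩
    rw [Pi.sub_apply, BProd_ev, BProd_ev, hq', Polynomial.map_prod]
    simp only [h3]
    exact hr' n
  inj := fun r hr hd => poly_pi_ext fun n => by
    have := pi_dvd_iff.1 hd n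
    rw [BProd_ev, BProd_ev, Polynomial.map_prod] at this
    simp only [h3] at this
    rw [Polynomial.map_zero]
    exact (c n).inj _ (degree_map_le.trans_lt hr) this
  zmul := fun g h => funext fun n => (c n).zmul g h
  z3 := fun j => pi_dvd_iff.2 fun n => (c n).z3 j
  sim := fun j => by
    choose U hU using fun n => (c n).sim j
    refine ⟨U, pi_dvd_iff.2 fun n => ?_⟩
    rw [Pi.sub_apply _ (_ * _), Pi.mul_apply, BProd_ev, ← derivative_map, h3]
    exact hU n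

/-- Everything is defined componentwise (`Pi.ringHom`, `RingHom.pi`); divisibility and units in a product are
checked componentwise; `(p.eval₂ i x) n = (p.map (eval n)).eval₂ (i n) (x n)` (`Polynomial.hom_eval₂`,
`eval₂_map`).  `R 0` is nontrivial because it has a monic polynomial of degree `9`. -/
theorem cfg_pi (J : ∀ n, Ideal (R n)) (h : ∀ n, Cfg (R n) (B n) (J n)) :
    Cfg (∀ n, R n) (∀ n, B n) (Ideal.pi J) := by
  choose c Ws Vs p₁ p₂ hS hU hD using h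
  have : Nontrivial (R 0) := by
    by_contra hn
    rw [not_nontrivial_iff_subsingleton] at hn
    have := (c 0).deg 0
    rw [natDegree_of_subsingleton] at this
    omega
  have : Nontrivial (∀ n, R n) := Pi.nontrivial_at 0
  choose W h1 h2 h3 using fun j => exists_monic_pi 9 (fun n => (c n).W j) (fun n => (c n).mon j)
    fun n => (c n).deg j
  choose W' a1 a2 a3 using fun j => exists_monic_pi 9 (fun n => Ws n j) (fun n => (hS n j).mon)
    fun n => (hS n j).deg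
  choose V' b1 b2 using fun j => exists_poly_pi 9 (fun n => Vs n j) fun n => (hS n j).dV
  choose q₁ c1 c2 using fun j => exists_poly_pi 9 (fun n => p₁ n j) fun n => (hS n j).d1
  choose q₂ d1 d2 using fun j => exists_poly_pi 9 (fun n => p₂ n j) fun n => (hS n j).d2
  have e : ∀ (p : (∀ n, R n)[X]) (j : Fin 4) (n : ℕ),
      p.eval₂ (BProd_c c W h1 h2 h3).i ((BProd_c c W h1 h2 h3).S j) n =
        (p.map (Pi.evalRingHom R n)).eval₂ (c n).i ((c n).S j) := fun p j n => BProd_ev _ p _ n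
  refine ⟨BProd_c c W h1 h2 h3, W', V', q₁, q₂, fun j => ⟨a1 j, a2 j, fun k hk n => ?_, b1 j, c1 j,
    d1 j, fun g hg => pi_dvd_iff.2 fun n => ?_, fun g hg => pi_dvd_iff.2 fun n => ?_,
    pi_dvd_iff.2 fun n => ?_, pi_dvd_iff.2 fun n => ?_⟩, fun j => Pi.isUnit_iff.2 fun n => ?_,
    Pi.isUnit_iff.2 fun n => ?_⟩
  · rw [BProd_co (a3 j)]
    exact (hS n j).dist k hk
  · rw [e, a3]
    exact (hS n j).ws g hg
  · rw [Pi.mul_apply _ (_ - _ * _), Pi.sub_apply _ (_ * _), Pi.mul_apply _ (_ - 1), e, e,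
      ← derivative_map, a3, b2]
    exact (hS n j).der g hg
  · rw [Pi.sub_apply, e, e, a3, c2]
    exact (hS n j).s1
  · rw [Pi.sub_apply, e, e, a3, d2]
    exact (hS n j).s2
  · rw [BProd_co (b2 j)]
    exact hU n j
  · simp only [Pi.sub_apply, Pi.mul_apply, BProd_co (b2 _)]
    exact hD n

end Pool.Agent.MP_deef5c_ag.E

end

section

/-! Passage to a valuation ring of characteristic zero. -/

open Polynomial IsLocalRing Function

namespace Pool.Agent.MP_deef5c_ag.E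

universe u

theorem BVal_split {Ω : Type u} [Field Ω] [IsAlgClosed Ω] (V : ValuationSubring Ω) (p : V[X])
    (hp : p.Monic) : p.roots.card = p.natDegree := by
  refine splits_iff_card_roots.1 (Splits.of_splits_map_of_injective (i := algebraMap V Ω)
    Subtype.val_injective (IsAlgClosed.splits _) fun a ha => ?_)
  have h1 : IsIntegral V a := ⟨p, hp, by
    rw [eval₂_eq_eval_map]
    exact (mem_roots'.1 ha).2⟩
  exact IsIntegrallyClosed.isIntegral_iff.1 h1

theorem BVal_val {R Ω : Type u} [CommRing R] [Field Ω] (φ : R →+* Ω) (I : Ideal R)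
    (hI : ∀ a ∈ I, IsUnit (1 - a)) : ∃ (V : ValuationSubring Ω) (ψ : R →+* V),
      (∀ a, (ψ a : Ω) = φ a) ∧ ∀ a ∈ I, ψ a ∈ maximalIdeal V := by
  have h1 : I.map φ.rangeRestrict ≠ ⊤ := by
    rw [Ideal.ne_top_iff_one, Ideal.mem_map_iff_of_surjective _ φ.rangeRestrict_surjective]
    rintro ⟨a, ha, e⟩
    have e1 : φ a = 1 := congrArg Subtype.val e
    have h2 := ((hI a ha).map φ).ne_zero
    rw [map_sub, map_one, e1, sub_self] at h2
    exact h2 rfl
  obtain ⟨V, hV, hn⟩ := Ideal.image_subset_nonunits_valuationSubring _ h1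
  refine ⟨V, φ.codRestrict V fun a => hV ⟨a, rfl⟩, fun _ => rfl, fun a ha => ?_⟩
  exact V.coe_mem_nonunits_iff.1 (hn ⟨_, Ideal.mem_map_of_mem φ.rangeRestrict ha, rfl⟩)

/-- Let `R = ∀ n, A n`.  The ideal generated by `Ideal.pi (maximalIdeal ·)` and the finitely supported
elements is proper; let `M` be a maximal ideal containing it.  If `s ∉ M` then `s n` is a unit for infinitely
many `n`, so `3^N * s ≠ 0` for all `N`; hence some prime `P` is disjoint from the multiplicative set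
`{3^N * s}` (`Ideal.exists_le_prime_disjoint`), so `P ≤ M`, `3 ∉ P`.  Let `Ω` be an algebraic closure of the
fraction field of `R ⧸ P`; the image of `M` is a proper ideal of the image of `R` in `Ω`, and
`Ideal.image_subset_nonunits_valuationSubring` (or `LocalSubring.exists_le_valuationSubring`) gives a
valuation subring `V`.  Monic polynomials over `V` split: roots in `Ω` are integral over `V`. -/
theorem exists_val (A : ℕ → Type u) [∀ n, CommRing (A n)] [∀ n, IsLocalRing (A n)]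
    (h : ∀ n, (3 : A n) ^ n ≠ 0) :
    ∃ (V : Type u) (_ : CommRing V) (_ : IsDomain V) (_ : ValuationRing V) (ψ : (∀ n, A n) →+* V),
      (∀ a ∈ Ideal.pi fun n => maximalIdeal (A n), ψ a ∈ maximalIdeal V) ∧ (3 : V) ≠ 0 ∧
      ∀ p : V[X], p.Monic → p.roots.card = p.natDegree := by
  have h3 : ¬ IsNilpotent (3 : ∀ n, A n) := by
    rintro ⟨N, hN⟩
    exact h N (congrFun hN N)
  rw [nilpotent_iff_mem_prime] at h3
  push Not at h3
  obtain ⟨P, hP, h3⟩ := h3
  let φ : (∀ n, A n) →+* AlgebraicClosure P.ResidueField :=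
    (algebraMap P.ResidueField _).comp (algebraMap _ P.ResidueField)
  have hφ : φ 3 ≠ 0 := fun e => h3 (Ideal.algebraMap_residueField_eq_zero.1
    ((map_eq_zero (algebraMap P.ResidueField (AlgebraicClosure P.ResidueField))).1 e))
  obtain ⟨V, ψ, h1, h2⟩ := BVal_val φ (Ideal.pi fun n => maximalIdeal (A n)) fun a ha =>
    Pi.isUnit_iff.2 fun n => isUnit_one_sub_self_of_mem_nonunits _ ((Ideal.mem_pi _ _).1 ha n)
  refine ⟨V, inferInstance, inferInstance, inferInstance, ψ, h2, fun e => hφ ?_, BVal_split V⟩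
  rw [← h1, map_ofNat, e]
  rfl

end Pool.Agent.MP_deef5c_ag.E

end

section

/-! Fixed points with values in a valuation ring. -/

open Polynomial IsLocalRing Function

namespace Pool.Agent.MP_deef5c_ag.E

universe u

variable {R B V : Type u} [CommRing R] [CommRing B] [CommRing V] {J : Ideal R} (c : CfT R B J)
  (ψ : R →+* V)

/-- points fixed by `rh t` -/
structure TP (φ : B →+* V) (t : Fin 4) : Prop where
  alg : ∀ a, φ (c.i a) = ψ a
  fix : φ (c.T (rh t) c.x) = φ c.x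

variable {c ψ}

theorem BPt_kill {φ : B →+* V} {t : Fin 4} (h : TP c ψ φ t) {y : B}
    (hy : c.T (rh t) c.x - c.x ∣ y) : φ y = 0 := by
  obtain ⟨d, rfl⟩ := hy
  rw [map_mul, map_sub, h.fix, sub_self, zero_mul]

theorem BPt_ev {φ : B →+* V} (h : ∀ a, φ (c.i a) = ψ a) (p : R[X]) :
    φ (p.eval₂ c.i c.x) = p.eval₂ ψ (φ c.x) := by
  rw [hom_eval₂]
  congr 1
  exact RingHom.ext h

theorem BPt_prod (t : Fin 4) {θ : V} (h : ((c.W t).map ψ).IsRoot θ) :
    (∏ s, c.W s).eval₂ ψ θ = 0 := by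
  rw [eval₂_finsetProd]
  refine Finset.prod_eq_zero (Finset.mem_univ t) ?_
  rw [IsRoot.def, eval_map] at h
  exact h

theorem BPt_gen : ∀ t t' : Fin 4, t ≠ t' → ∀ g : EE, ∃ m n : Fin 3, g = rh t ^ m.val * rh t' ^ n.val := by
  decide

theorem TP.fix_all {φ : B →+* V} {t : Fin 4} (h : TP c ψ φ t) (b : B) : φ (c.T (rh t) b) = φ b := by
  have := BPt_kill h (c.dv (rh t) b)
  rwa [map_sub, sub_eq_zero] at this

/-- the group is commutative -/
theorem TP.comp {φ : B →+* V} {t : Fin 4} (h : TP c ψ φ t) (g : EE) : TP c ψ (φ.comp (c.T g)) t := by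
  refine ⟨fun a => ?_, ?_⟩
  · rw [RingHom.comp_apply, c.fix, h.alg]
  · rw [RingHom.comp_apply, RingHom.comp_apply, ← c.mul, mul_comm, c.mul, h.fix_all]

theorem TP.root {φ : B →+* V} {t : Fin 4} (h : TP c ψ φ t) : ((c.W t).map ψ).IsRoot (φ c.x) := by
  rw [IsRoot.def, eval_map, ← BPt_ev h.alg]
  exact BPt_kill h (c.as1 t)

theorem TP.z3 {φ : B →+* V} {t : Fin 4} (h : TP c ψ φ t) :
    1 + φ (c.z (rh t)) + φ (c.z (rh t)) ^ 2 = 0 := by
  have := BPt_kill h (c.z3 t)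
  simpa using this

/-- both points kill `(∏ W).eval₂ i x`; use `surj` -/
theorem TP.ext {φ φ' : B →+* V} {t t' : Fin 4} (h : TP c ψ φ t) (h' : TP c ψ φ' t')
    (e : φ c.x = φ' c.x) : φ = φ' := by
  refine RingHom.ext fun b => ?_
  obtain ⟨r, -, d, hd⟩ := c.surj b
  have hb : b = r.eval₂ c.i c.x + (∏ s, c.W s).eval₂ c.i c.x * d := by rw [← hd]; ring
  rw [hb, map_add, map_add, map_mul, map_mul, BPt_ev h.alg, BPt_ev h.alg, BPt_ev h'.alg,
    BPt_ev h'.alg, BPt_prod t h.root, BPt_prod t' h'.root, e, zero_mul, zero_mul]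

/-- `R[X] → B ⧸ (w(x))`, `w = ∏ W`, is surjective (`surj`) with kernel contained in `(w)` (`inj` applied to
`r %ₘ w`), and `eval₂ ψ θ` kills `w`: `RingHom.liftOfSurjective` -/
theorem exists_tp (t : Fin 4) {θ : V} (h : ((c.W t).map ψ).IsRoot θ) :
    ∃ φ : B →+* V, TP c ψ φ t ∧ φ c.x = θ := by
  have hR : Nontrivial R := by
    by_contra hn
    rw [not_nontrivial_iff_subsingleton] at hn
    have h9 := c.deg 0
    rw [Subsingleton.elim (c.W 0) 0, natDegree_zero] at h9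
    exact absurd h9 (by norm_num)
  have hw : (∏ s, c.W s).Monic := monic_prod_of_monic _ _ fun s _ => c.mon s
  have hd : (∏ s, c.W s).degree = 36 := by
    rw [degree_eq_natDegree hw.ne_zero, natDegree_prod_of_monic _ _ fun s _ => c.mon s]
    simp [c.deg]
  let I : Ideal B := Ideal.span {(∏ s, c.W s).eval₂ c.i c.x}
  let f : R[X] →+* B ⧸ I := (Ideal.Quotient.mk I).comp (eval₂RingHom c.i c.x)
  have hf : Surjective f := by
    intro y
    obtain ⟨b, rfl⟩ := Ideal.Quotient.mk_surjective y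
    obtain ⟨r, -, hr⟩ := c.surj b
    refine ⟨r, ?_⟩
    show Ideal.Quotient.mk I (r.eval₂ c.i c.x) = Ideal.Quotient.mk I b
    rw [eq_comm, Ideal.Quotient.eq]
    exact Ideal.mem_span_singleton.2 hr
  have hk : RingHom.ker f ≤ RingHom.ker (eval₂RingHom ψ θ) := by
    intro r hr
    have h1 : (∏ s, c.W s).eval₂ c.i c.x ∣ r.eval₂ c.i c.x := by
      rw [RingHom.mem_ker] at hr
      exact Ideal.mem_span_singleton.1 (Ideal.Quotient.eq_zero_iff_mem.1 hr)
    have h2 := modByMonic_add_div r (∏ s, c.W s)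
    have h3 : (∏ s, c.W s).eval₂ c.i c.x ∣ (r %ₘ ∏ s, c.W s).eval₂ c.i c.x := by
      rw [← h2, eval₂_add, eval₂_mul] at h1
      exact (dvd_add_left (dvd_mul_right _ _)).1 h1
    have h4 := c.inj _ (hd ▸ degree_modByMonic_lt r hw) h3
    rw [h4, zero_add] at h2
    rw [RingHom.mem_ker, ← h2, map_mul]
    have h5 : eval₂RingHom ψ θ (∏ s, c.W s) = 0 := BPt_prod t h
    rw [h5, zero_mul]
  let φ : B →+* V := (f.liftOfSurjective hf ⟨eval₂RingHom ψ θ, hk⟩).comp (Ideal.Quotient.mk I)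
  have hφ : ∀ r : R[X], φ (r.eval₂ c.i c.x) = r.eval₂ ψ θ := fun r =>
    RingHom.liftOfRightInverse_comp_apply f _ (rightInverse_surjInv hf) ⟨eval₂RingHom ψ θ, hk⟩ r
  refine ⟨φ, ⟨fun a => ?_, ?_⟩, ?_⟩
  · simpa using hφ (C a)
  · obtain ⟨d, hd⟩ := c.as2 t
    rw [← sub_eq_zero, ← map_sub, hd, map_mul, hφ, ← eval_map, h.eq_zero, zero_mul]
  · simpa using hφ X

variable [IsDomain V]

/-- If `t ≠ t'` then `φ ∘ T g = φ` for all `g` (two of the `rh t` generate `EE`), so `g ↦ φ (z g)` is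
multiplicative.  `a = φ (z (rh 0))`, `b = φ (z (rh 1))`, `a b = φ (z (rh 3))` and `a^2 b = φ (z (rh 2))` would all
be roots of `1 + Z + Z^2`; then `(a - b) (1 + a + b) = 0`, and in both cases one of the products is `1`, so
`3 = 0`. -/
theorem TP.uniq (h3 : (3 : V) ≠ 0) {φ : B →+* V} {t t' : Fin 4} (h : TP c ψ φ t)
    (h' : TP c ψ φ t') : t = t' := by
  by_contra hne
  have hp : ∀ {s : Fin 4}, TP c ψ φ s → ∀ (m : ℕ) (b : B), φ (c.T (rh s ^ m) b) = φ b := by
    intro s hs m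
    induction m with
    | zero => intro b; rw [pow_zero, c.one]
    | succ m ih => intro b; rw [pow_succ, c.mul, ih, hs.fix_all]
  have hall : ∀ (g : EE) (b : B), φ (c.T g b) = φ b := by
    intro g b
    obtain ⟨m, n, rfl⟩ := BPt_gen t t' hne g
    rw [c.mul, hp h, hp h']
  have hz : ∀ s, 1 + φ (c.z (rh s)) + φ (c.z (rh s)) ^ 2 = 0 := fun s =>
    TP.z3 ⟨h.alg, hall _ _⟩
  have hm : ∀ g g' : EE, φ (c.z (g * g')) = φ (c.z g') * φ (c.z g) := by
    intro g g'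
    rw [c.zmul, map_mul, hall]
  have e3 : rh 3 = rh 0 * rh 1 := by decide
  have e2 : rh 2 = rh 0 * (rh 0 * rh 1) := by decide
  have h0 := hz 0
  have h1 := hz 1
  have h2 := hz 2
  have h4 := hz 3
  rw [e2, hm, hm] at h2
  rw [e3, hm] at h4
  generalize φ (c.z (rh 0)) = a at h0 h2 h4
  generalize φ (c.z (rh 1)) = b at h1 h2 h4
  have hab : (a - b) * (1 + a + b) = 0 := by linear_combination h0 - h1
  have ha : a ^ 3 = 1 := by linear_combination (a - 1) * h0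
  apply h3
  rcases mul_eq_zero.1 hab with e | e
  · have e' : b = a := by linear_combination -e
    have e1 : b * a * a = 1 := by rw [e']; linear_combination ha
    rw [e1] at h2
    linear_combination h2
  · have e' : b = a ^ 2 := by linear_combination e - h0
    have e1 : b * a = 1 := by rw [e']; linear_combination ha
    rw [e1] at h4
    linear_combination h4

/-- the roots of `W t` are simple by `sim`, `z3`, `exists_tp`; a monic polynomial of degree nine -/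
theorem exists_nine (h3 : (3 : V) ≠ 0) (hs : ∀ p : V[X], p.Monic → p.roots.card = p.natDegree)
    (t : Fin 4) : ∃ φ : Fin 9 → B →+* V, (∀ n, TP c ψ (φ n) t) ∧ Injective fun n => φ n c.x := by
  classical
  have hm : ((c.W t).map ψ).Monic := (c.mon t).map ψ
  have hc : ((c.W t).map ψ).roots.card = 9 := by
    rw [hs _ hm, (c.mon t).natDegree_map, c.deg]
  have hn : ((c.W t).map ψ).roots.Nodup := by
    rw [Multiset.nodup_iff_count_le_one]
    intro θ
    rw [count_roots]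
    by_contra hlt
    rw [not_le, one_lt_rootMultiplicity_iff_isRoot hm.ne_zero] at hlt
    obtain ⟨φ, hφ, hx⟩ := exists_tp t hlt.1
    obtain ⟨U, hU⟩ := c.sim t
    have h1 := BPt_kill hφ hU
    have h2 := hlt.2
    rw [IsRoot.def, derivative_map, eval_map] at h2
    rw [map_sub, map_sub, map_mul, BPt_ev hφ.alg, hx, h2, map_one, mul_zero, sub_zero,
      sub_eq_zero] at h1
    have h4 := hφ.z3
    rw [h1] at h4
    exact h3 (by linear_combination h4)
  have hf : ((c.W t).map ψ).roots.toFinset.card = 9 := by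
    rw [Multiset.toFinset_card_of_nodup hn, hc]
  let e := (Finset.equivFinOfCardEq hf).symm
  have hr : ∀ n : Fin 9, ((c.W t).map ψ).IsRoot (e n) := fun n =>
    (mem_roots hm.ne_zero).1 (Multiset.mem_toFinset.1 (e n).2)
  choose φ hφ hx using fun n => exists_tp t (hr n)
  refine ⟨φ, hφ, fun n n' hnn => ?_⟩
  have : (e n : V) = e n' := by rw [← hx, ← hx]; exact hnn
  exact e.injective (Subtype.ext this)

omit [IsDomain V] in
/-- `θ^9` lies in the maximal ideal -/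
theorem TP.mem [IsLocalRing V] (hJ : ∀ a ∈ J, ψ a ∈ maximalIdeal V) {φ : B →+* V} {t : Fin 4}
    (h : TP c ψ φ t) : φ c.x ∈ maximalIdeal V := by
  have h1 := h.root
  rw [IsRoot.def, eval_map, eval₂_eq_sum_range, c.deg, Finset.sum_range_succ] at h1
  have h9 : (c.W t).coeff 9 = 1 := by
    have := (c.mon t).coeff_natDegree
    rwa [c.deg] at this
  rw [h9, map_one, one_mul] at h1
  have h2 : φ c.x ^ 9 ∈ maximalIdeal V := by
    rw [eq_neg_of_add_eq_zero_right h1]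
    refine neg_mem (Ideal.sum_mem _ fun n hn => Ideal.mul_mem_right _ _ (hJ _ ?_))
    exact c.dist t n (Finset.mem_range.1 hn)
  exact (maximalIdeal.isMaximal V).isPrime.mem_of_pow_mem 9 h2

end Pool.Agent.MP_deef5c_ag.E

end

section

/-! The twelve branch points. -/

open Polynomial IsLocalRing Function

namespace Pool.Agent.MP_deef5c_ag.E

universe u

variable {R B V : Type u} [CommRing R] [CommRing B] [CommRing V] [IsDomain V] {J : Ideal R}
  {c : CfT R B J} {ψ : R →+* V}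

theorem BTw_chi : ∀ (t : Fin 4) (g g' : EE), chi t g = chi t g' →
    g' = g ∨ g' = rh t * g ∨ g' = rh t * (rh t * g) := by decide

theorem BTw_pair : ∀ t j j' : Fin 4, j ≠ t → j' ≠ t →
    (chi t (rh j) = chi t (rh j') ∧ chi t (rh j * rh j) = chi t (rh j' * rh j')) ∨
    (chi t (rh j) = chi t (rh j' * rh j') ∧ chi t (rh j * rh j) = chi t (rh j')) := by decide

theorem BTw_sign : ∀ j t : Fin 4, j ≠ t → (chZ j t = 1 ∧ chi j (rh t) = 1) ∨
    (chZ j t = -1 ∧ chi j (rh t * rh t) = 1) := by decide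

theorem BTw_four : ∀ j : Fin 4, rh j = rh j * rh j * (rh j * rh j) := by decide

theorem BTw_third : ∀ t t' : Fin 4, ∃ j, j ≠ t ∧ j ≠ t' := by decide

omit [IsDomain V] in
theorem BTw_cls {φ : B →+* V} {t : Fin 4} (h : TP c ψ φ t) {g g' : EE} (e : chi t g = chi t g')
    (b : B) : φ (c.T g b) = φ (c.T g' b) := by
  rcases BTw_chi t g g' e with rfl | rfl | rfl
  · rfl
  · rw [c.mul, h.fix_all]
  · rw [c.mul, h.fix_all, c.mul, h.fix_all]

omit [IsDomain V] in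
theorem BTw_ev {φ : B →+* V} {t : Fin 4} (h : TP c ψ φ t) (p : R[X]) (b : B) :
    φ (p.eval₂ c.i b) = (p.map ψ).eval (φ b) := by
  rw [hom_eval₂, eval_map]
  congr 1
  exact RingHom.ext h.alg

omit [IsDomain V] in
theorem BTw_zero (φ : B →+* V) {a b : B} (h : a ∣ b) (e : φ a = 0) : φ b = 0 := by
  obtain ⟨u, rfl⟩ := h
  rw [map_mul, e, zero_mul]

omit [IsDomain V] in
theorem BTw_sq {φ : B →+* V} {t : Fin 4} (h : TP c ψ φ t) (b : B) :
    φ (c.T (rh t * rh t) b - b) = 0 := by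
  rw [map_sub, c.mul, h.fix_all, h.fix_all, sub_self]

/-- `rh j' = rh t ^ i * rh j` or `rh t ^ i * (rh j * rh j)` (`decide`), and `φ ∘ T (rh t) = φ` -/
theorem TP.S_eq {φ : B →+* V} {t j j' : Fin 4} (h : TP c ψ φ t) (hj : j ≠ t) (hj' : j' ≠ t) :
    φ (c.S j) = φ (c.S j') := by
  simp only [CfT.S, CfT.x1, CfT.x2, map_mul]
  rcases BTw_pair t j j' hj hj' with ⟨e1, e2⟩ | ⟨e1, e2⟩
  · rw [BTw_cls h e1, BTw_cls h e2]
  · rw [BTw_cls h e1, BTw_cls h e2, mul_right_comm]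

/-- one of `g = rh t`, `g = rh t * rh t` has `chi j g = 1` (`decide`), and `φ (T g x) = φ x` -/
theorem TP.root_S {φ : B →+* V} {t j : Fin 4} (h : TP c ψ φ t) (hj : j ≠ t) {Ws Vs p₁ p₂ : R[X]}
    (s : CfS c j Ws Vs p₁ p₂) : (Ws.map ψ).IsRoot (φ (c.S j)) := by
  rw [IsRoot.def, ← BTw_ev h]
  rcases BTw_sign j t hj with ⟨-, e⟩ | ⟨-, e⟩
  · exact BTw_zero φ (s.ws _ e) (by rw [map_sub, h.fix, sub_self])
  · exact BTw_zero φ (s.ws _ e) (BTw_sq h _)

/-- by `s1`, `s2` the symmetric functions of `x, x1, x2` have the same values at `φ` and `φ'`, so `φ' x` is a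
root of `(Z - φ x) (Z - φ x1) (Z - φ x2)` -/
theorem TP.fibre {φ φ' : B →+* V} {t t' j : Fin 4} (h : TP c ψ φ t) (h' : TP c ψ φ' t') (hj : j ≠ t)
    (hj' : j ≠ t') {Ws Vs p₁ p₂ : R[X]} (s : CfS c j Ws Vs p₁ p₂) (e : φ (c.S j) = φ' (c.S j)) :
    φ' c.x = φ c.x ∨ φ' c.x = φ (c.x1 j) ∨ φ' c.x = φ (c.x2 j) := by
  have r : φ (Ws.eval₂ c.i (c.S j)) = 0 := (BTw_ev h _ _).trans (h.root_S hj s)
  have r' : φ' (Ws.eval₂ c.i (c.S j)) = 0 := (BTw_ev h' _ _).trans (h'.root_S hj' s)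
  have a1 := BTw_zero φ s.s1 r
  have a2 := BTw_zero φ s.s2 r
  have b1 := BTw_zero φ' s.s1 r'
  have b2 := BTw_zero φ' s.s2 r'
  simp only [map_sub, map_add, map_mul, BTw_ev h] at a1 a2
  simp only [map_sub, map_add, map_mul, BTw_ev h', ← e] at b1 b2
  have e' : φ c.x * φ (c.x1 j) * φ (c.x2 j) = φ' c.x * φ' (c.x1 j) * φ' (c.x2 j) := by
    simpa only [CfT.S, map_mul] using e
  have key : (φ' c.x - φ c.x) * ((φ' c.x - φ (c.x1 j)) * (φ' c.x - φ (c.x2 j))) = 0 := by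
    linear_combination -(φ' c.x) ^ 2 * (a1 - b1) + φ' c.x * (a2 - b2) - e'
  simpa only [mul_eq_zero, sub_eq_zero] using key

/-- For each `t` fix `j ≠ t`; the map `n ↦ φ n (S j)` on the nine points of `exists_nine` has fibres with at
most three elements (`TP.fibre`), so it takes at least three values.  Values for different types `t ≠ t'`
differ: take `j ∉ {t, t'}`, `TP.S_eq`, `TP.fibre`, `TP.comp`, `TP.ext`, `TP.uniq`. -/
theorem exists_twelve (h3 : (3 : V) ≠ 0) (hs : ∀ p : V[X], p.Monic → p.roots.card = p.natDegree)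
    {Ws Vs p₁ p₂ : Fin 4 → R[X]} (s : ∀ j, CfS c j (Ws j) (Vs j) (p₁ j) (p₂ j)) :
    ∃ (φ : Fin 4 → Fin 3 → B →+* V) (T : Fin 4 → Fin 3 → V), (∀ t i, TP c ψ (φ t i) t) ∧
      (∀ t i j, j ≠ t → φ t i (c.S j) = T t i) ∧
      ∀ t i t' i', T t i = T t' i' → t = t' ∧ i = i' := by
  classical
  have A : ∀ t : Fin 4, ∃ (φ : Fin 3 → B →+* V) (T : Fin 3 → V), (∀ i, TP c ψ (φ i) t) ∧
      (∀ i j, j ≠ t → φ i (c.S j) = T i) ∧ Injective T := by
    intro t
    obtain ⟨j, hj, -⟩ := BTw_third t t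
    obtain ⟨φ, hφ, hi⟩ := exists_nine (c := c) (ψ := ψ) h3 hs t
    have h1 := Finset.card_le_mul_card_image (f := fun n => φ n (c.S j)) Finset.univ 3 (by
      intro a ha
      obtain ⟨m, -, rfl⟩ := Finset.mem_image.1 ha
      refine le_trans (Finset.card_le_card_of_injOn (fun n => φ n c.x)
        (t := {φ m c.x, φ m (c.x1 j), φ m (c.x2 j)}) (fun n hn => ?_) hi.injOn)
        Finset.card_le_three
      have hn' : φ n (c.S j) = φ m (c.S j) := (Finset.mem_filter.1 hn).2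
      simpa using (hφ m).fibre (hφ n) hj hj (s j) hn'.symm)
    rw [Finset.card_univ, Fintype.card_fin] at h1
    obtain ⟨f, hf⟩ := Function.Embedding.exists_of_card_le_finset (α := Fin 3)
      (s := Finset.univ.image fun n => φ n (c.S j)) (by rw [Fintype.card_fin]; omega)
    have h2 : ∀ i, ∃ n, φ n (c.S j) = f i := fun i => by
      obtain ⟨n, -, hn⟩ := Finset.mem_image.1 (hf ⟨i, rfl⟩)
      exact ⟨n, hn⟩
    choose m hm using h2
    exact ⟨fun i => φ (m i), f, fun i => hφ _,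
      fun i j' hj' => ((hφ _).S_eq hj' hj).trans (hm i), f.injective⟩
  choose φ T h1 h2 h4 using A
  refine ⟨φ, T, h1, h2, fun t i t' i' e => ?_⟩
  have ht : t = t' := by
    obtain ⟨j, hj, hj'⟩ := BTw_third t t'
    have e1 := (h1 t i).fibre (h1 t' i') hj hj' (s j) (by rw [h2 t i j hj, h2 t' i' j hj', e])
    have key : ∀ g, φ t' i' c.x = φ t i (c.T g c.x) → t = t' := fun g hg => by
      have h5 := (h1 t i).comp g
      rw [← (h1 t' i').ext h5 hg] at h5
      exact h5.uniq h3 (h1 t' i')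
    rcases e1 with e1 | e1 | e1
    · exact key 1 (by rw [c.one]; exact e1)
    · exact key _ e1
    · exact key _ e1
  subst ht
  exact ⟨rfl, h4 t e⟩

/-- `φ (x - x1) ≠ 0`: otherwise `φ` is fixed by `rh j` (`TP.uniq`); the same for `x2`, since
`rh j = (rh j * rh j)^2` and `dv`.  With `z = φ (z (rh t))`: if `chZ j t = 1` use `der` for `g = rh t`, if
`chZ j t = -1` use `g = rh t * rh t`, `φ (z g) = z^2`, `2 z^2 + 1 = -(2 z + 1)`. -/
theorem TP.der_S (h3 : (3 : V) ≠ 0) {φ : B →+* V} {t j : Fin 4} (h : TP c ψ φ t) (hj : j ≠ t)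
    {Ws Vs p₁ p₂ : R[X]} (s : CfS c j Ws Vs p₁ p₂) :
    2 * (derivative (Ws.map ψ)).eval (φ (c.S j)) =
      (Vs.map ψ).eval (φ (c.S j)) * ((chZ j t : V) * (2 * φ (c.z (rh t)) + 1) - 3) := by
  have n1 : φ (c.x - c.x1 j) ≠ 0 := fun e =>
    hj (TP.uniq h3 ⟨h.alg, (sub_eq_zero.1 ((map_sub φ _ _).symm.trans e)).symm⟩ h)
  have n2 : φ (c.x - c.x2 j) ≠ 0 := fun e => by
    have e1 : ∀ b, φ (c.T (rh j * rh j) b) = φ b := fun b => by
      refine sub_eq_zero.1 ((map_sub φ _ _).symm.trans (BTw_zero φ (c.dv _ b) ?_))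
      rw [← neg_sub, map_neg]
      exact neg_eq_zero.2 e
    refine hj (TP.uniq h3 ⟨h.alg, ?_⟩ h)
    rw [BTw_four j, c.mul, e1, e1]
  have key : ∀ g, chi j g = 1 → φ (c.T g c.x - c.x) = 0 →
      (derivative (Ws.map ψ)).eval (φ (c.S j)) =
        (Vs.map ψ).eval (φ (c.S j)) * (φ (c.z g) - 1) := fun g hg e => by
    have a := BTw_zero φ (s.der g hg) e
    rw [map_mul, map_mul, mul_eq_zero, or_iff_right (mul_ne_zero n1 n2), map_sub, map_mul,
      BTw_ev h, BTw_ev h, map_sub, map_one, sub_eq_zero] at a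
    rwa [derivative_map]
  rcases BTw_sign j t hj with ⟨e0, e⟩ | ⟨e0, e⟩
  · rw [key _ e (by rw [map_sub, h.fix, sub_self]), e0]
    push_cast
    ring
  · rw [key _ e (BTw_sq h _), e0, c.zmul, map_mul, h.fix_all]
    push_cast
    linear_combination 2 * (Vs.map ψ).eval (φ (c.S j)) * h.z3

end Pool.Agent.MP_deef5c_ag.E

end

section

/-! Lagrange interpolation. -/

open Polynomial IsLocalRing Function

namespace Pool.Agent.MP_deef5c_ag.E

universe u

theorem BVD_zero {V : Type u} [CommRing V] [IsDomain V] {T : Fin 4 → Fin 3 → V}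
    (hT : ∀ t i t' i', T t i = T t' i' → t = t' ∧ i = i') (j : Fin 4) {P : V[X]}
    (hP : P.degree < 9) (hr : ∀ t i, j ≠ t → P.eval (T t i) = 0) : P = 0 := by
  by_cases h0 : P = 0
  · exact h0
  refine eq_zero_of_natDegree_lt_card_of_eval_eq_zero P
    (f := fun p : {t : Fin 4 // j ≠ t} × Fin 3 => T p.1.1 p.2) ?_ (fun p => hr _ _ p.1.2) ?_
  · rintro ⟨⟨t, ht⟩, i⟩ ⟨⟨t', ht'⟩, i'⟩ h
    obtain ⟨rfl, rfl⟩ := hT _ _ _ _ h
    rfl
  · have h1 : Fintype.card ({t : Fin 4 // j ≠ t} × Fin 3) = 9 := by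
      rw [Fintype.card_prod, Fintype.card_fin]
      clear hr
      revert j
      decide
    rw [h1]
    exact (natDegree_lt_iff_degree_lt h0).2 hP

theorem BVD_Qp_monic {V : Type u} [CommRing V] (T : Fin 3 → V) : (Qp T).Monic :=
  ((monic_X_sub_C _).mul (monic_X_sub_C _)).mul (monic_X_sub_C _)

theorem BVD_Qp_deg {V : Type u} [CommRing V] [Nontrivial V] (T : Fin 3 → V) :
    (Qp T).natDegree = 3 := by
  rw [Qp, ((monic_X_sub_C _).mul (monic_X_sub_C _)).natDegree_mul (monic_X_sub_C _),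
    (monic_X_sub_C _).natDegree_mul (monic_X_sub_C _)]
  simp

theorem BVD_np_deg {V : Type u} [CommRing V] (e : Fin 3 → ℤ) (T : Fin 3 → V) :
    (np e T).natDegree ≤ 2 := by
  unfold np
  compute_degree

theorem BVD_Qp_eval {V : Type u} [CommRing V] (T : Fin 3 → V) (i : Fin 3) :
    (Qp T).eval (T i) = 0 := by
  fin_cases i <;> simp [Qp]

theorem BVD_np_eval {V : Type u} [CommRing V] (e : Fin 3 → ℤ) (T : Fin 3 → V) (i : Fin 3) :
    (np e T).eval (T i) = (e i : V) * (derivative (Qp T)).eval (T i) := by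
  fin_cases i <;> simp [Qp, np]

theorem BVD_WQ_monic {V : Type u} [CommRing V] [Nontrivial V] {q : Fin 4 → V[X]}
    (hq : ∀ c, (q c).Monic) (hd : ∀ c, (q c).natDegree = 3) (j : Fin 4) :
    (WQ q j).Monic ∧ (WQ q j).natDegree = 9 := by
  have key : ∀ a b c, (q a * q b * q c).Monic ∧ (q a * q b * q c).natDegree = 9 := fun a b c =>
    ⟨((hq a).mul (hq b)).mul (hq c), by
      rw [((hq a).mul (hq b)).natDegree_mul (hq c), (hq a).natDegree_mul (hq b), hd, hd, hd]⟩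
  fin_cases j <;> exact key _ _ _

theorem BVD_WQ_eval {V : Type u} [CommRing V] {q : Fin 4 → V[X]} {θ : V} {j t : Fin 4}
    (hj : j ≠ t) (h : (q t).eval θ = 0) : (WQ q j).eval θ = 0 := by
  fin_cases j <;> fin_cases t <;> simp_all [WQ]

theorem BVD_NQ_deg {V : Type u} [CommRing V] {n q : Fin 4 → V[X]}
    (hn : ∀ c, (n c).natDegree ≤ 2) (hd : ∀ c, (q c).natDegree ≤ 3) (j : Fin 4) :
    (NQ n q j).natDegree ≤ 8 := by
  have key : ∀ a b c, (n a * q b * q c).natDegree ≤ 8 := fun a b c =>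
    natDegree_mul_le_of_le (natDegree_mul_le_of_le (hn a) (hd b)) (hd c)
  have ha : ∀ {x y : V[X]}, x.natDegree ≤ 8 → y.natDegree ≤ 8 → (x + y).natDegree ≤ 8 :=
    fun hx hy => (natDegree_add_le _ _).trans (max_le hx hy)
  have hs : ∀ {x y : V[X]}, x.natDegree ≤ 8 → y.natDegree ≤ 8 → (x - y).natDegree ≤ 8 :=
    fun hx hy => (natDegree_sub_le _ _).trans (max_le hx hy)
  fin_cases j
  · exact ha (ha (key _ _ _) (key _ _ _)) (key _ _ _)
  · exact ha (hs (key _ _ _) (key _ _ _)) (key _ _ _)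
  · exact hs (ha (key _ _ _) (key _ _ _)) (key _ _ _)
  · exact hs (ha ((natDegree_neg _).trans_le (key _ _ _)) (key _ _ _)) (key _ _ _)

theorem BVD_NQ_eval {V : Type u} [CommRing V] {n q : Fin 4 → V[X]} {θ ε : V} {j t : Fin 4}
    (hj : j ≠ t) (h : (q t).eval θ = 0) (hn : (n t).eval θ = ε * (derivative (q t)).eval θ) :
    (NQ n q j).eval θ = (chZ j t : V) * ε * (derivative (WQ q j)).eval θ := by
  fin_cases j <;> fin_cases t <;> simp_all [WQ, NQ, chZ] <;> ring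

theorem BVD_chZ_sq (V : Type u) [CommRing V] {j t : Fin 4} (hj : j ≠ t) :
    (chZ j t : V) ^ 2 = 1 := by
  have : chZ j t ^ 2 = 1 := by
    revert j t
    decide
  exact_mod_cast congrArg (Int.cast : ℤ → V) this

theorem BVD_unit_add {V : Type u} [CommRing V] [IsLocalRing V] {a b : V} (ha : IsUnit a)
    (hb : b ∈ maximalIdeal V) : IsUnit (a + b) := by
  by_contra h
  have h1 : a + b ∈ maximalIdeal V := h
  have h2 : a ∈ maximalIdeal V := by simpa using sub_mem h1 hb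
  exact h2 ha

/-- `W = WQ q j` because both are monic of degree nine with the same nine roots.  At a root `T = T t i`,
`t ≠ j`, the value of `NN e T j` is `χ e W'(T)` with `χ = chZ j t`; from `2 W' = V (χ e ν - 3) = ν V (χ e + ν)` one
gets `2 χ e W' = ν V (1 + χ e ν) = 2 ν (2 V + W')`.  Two polynomials of degree `< 9` with the same values at nine
points. -/
theorem lagr {V : Type u} [CommRing V] [IsDomain V] (h2 : (2 : V) ≠ 0) {ν : V} (hν : ν ^ 2 = -3)
    {T : Fin 4 → Fin 3 → V} (hT : ∀ t i t' i', T t i = T t' i' → t = t' ∧ i = i')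
    {e : Fin 4 → Fin 3 → ℤ} (he : ∀ t i, e t i = 1 ∨ e t i = -1) (j : Fin 4) {W Vs : V[X]}
    (hW : W.Monic) (hd : W.natDegree = 9) (hV : Vs.degree < 9)
    (hr : ∀ t i, j ≠ t → W.IsRoot (T t i))
    (hder : ∀ t i, j ≠ t → 2 * (derivative W).eval (T t i) =
      Vs.eval (T t i) * ((chZ j t : V) * ((e t i : V) * ν) - 3)) :
    NN e T j = C ν * (2 * Vs + derivative W) := by
  obtain ⟨hm, hn⟩ := BVD_WQ_monic (q := fun c => Qp (T c)) (fun c => BVD_Qp_monic _)
    (fun c => BVD_Qp_deg _) j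
  have hdW : W.degree = 9 := by rw [degree_eq_natDegree hW.ne_zero, hd]; rfl
  have hWQ : W = WQ (fun c => Qp (T c)) j := by
    refine sub_eq_zero.1 (BVD_zero hT j ?_ fun t i ht => ?_)
    · rw [← hdW]
      refine degree_sub_lt_left ?_ hW.ne_zero (by rw [hW.leadingCoeff, hm.leadingCoeff])
      rw [hdW, degree_eq_natDegree hm.ne_zero, hn]
      rfl
    · rw [eval_sub, BVD_WQ_eval ht (BVD_Qp_eval _ _), hr t i ht, sub_zero]
  refine sub_eq_zero.1 (BVD_zero hT j ?_ fun t i ht => ?_)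
  · refine (degree_sub_le _ _).trans_lt (max_lt ?_ ?_)
    · refine degree_le_natDegree.trans_lt ?_
      have := BVD_NQ_deg (n := fun c => np (e c) (T c)) (q := fun c => Qp (T c))
        (fun c => BVD_np_deg _ _) (fun c => (BVD_Qp_deg _).le) j
      exact_mod_cast Nat.lt_succ_of_le this
    · rw [← smul_eq_C_mul]
      refine (degree_smul_le _ _).trans_lt ((degree_add_le _ _).trans_lt (max_lt ?_ ?_))
      · rw [two_mul]
        exact (degree_add_le _ _).trans_lt (max_lt hV hV)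
      · rw [← hdW]
        exact degree_derivative_lt hW.ne_zero
  · have h1 := BVD_NQ_eval (n := fun c => np (e c) (T c)) (q := fun c => Qp (T c)) ht
      (BVD_Qp_eval (T t) i) (BVD_np_eval (e t) (T t) i)
    rw [← hWQ] at h1
    have h3 := hder t i ht
    have h4 := BVD_chZ_sq V ht
    have h5 : (e t i : V) ^ 2 = 1 := by rcases he t i with h | h <;> simp [h]
    rw [eval_sub, NN, h1, eval_mul, eval_C, eval_add, eval_mul, eval_ofNat]
    refine mul_left_cancel₀ h2 ?_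
    have h6 : ((chZ j t : V) * (e t i : V)) ^ 2 = 1 := by rw [mul_pow, h4, h5, one_mul]
    linear_combination ((chZ j t : V) * (e t i : V) - ν) * h3 + Vs.eval (T t i) * ν * h6 -
      Vs.eval (T t i) * ((chZ j t : V) * (e t i : V)) * hν

/-- `ν` is a root of `X^2 + 3`; `(2 z + 1)^2 = -3` gives `2 z + 1 = e ν`, `e = ± 1`.  `M j = 2 Vs + Ws'`, whose
coefficients of index `0, 1` are congruent to twice those of `Vs` (`dist`); `2` is a unit.  `T t i` is a product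
containing `φ x` (`TP.mem`). -/
theorem vd_of_cfg {R B V : Type u} [CommRing R] [CommRing B] [CommRing V] [IsDomain V]
    [IsLocalRing V] {J : Ideal R} (h : Cfg R B J) (ψ : R →+* V)
    (hJ : ∀ a ∈ J, ψ a ∈ maximalIdeal V) (h3 : (3 : V) ≠ 0) (h3' : (3 : V) ∈ maximalIdeal V)
    (hs : ∀ p : V[X], p.Monic → p.roots.card = p.natDegree) : ∃ (ν : V) (T : Fin 4 → Fin 3 → V)
      (e : Fin 4 → Fin 3 → ℤ) (M : Fin 4 → V[X]), VD ν T e M := by
  classical
  obtain ⟨c, Ws, Vs, p₁, p₂, s, hu, hd⟩ := h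
  have h2 : IsUnit (2 : V) := by
    have := BVD_unit_add (isUnit_one.neg) h3'
    rwa [show (-1 + 3 : V) = 2 by norm_num] at this
  obtain ⟨ν, hν⟩ : ∃ ν : V, ν ^ 2 = -3 := by
    have hm : (X ^ 2 + C 3 : V[X]).Monic := monic_X_pow_add_C _ two_ne_zero
    have hc := hs _ hm
    rw [natDegree_X_pow_add_C] at hc
    obtain ⟨ν, hν⟩ := Multiset.card_pos_iff_exists_mem.1 (hc ▸ two_pos)
    have := (mem_roots hm.ne_zero).1 hν
    simp only [IsRoot.def, eval_add, eval_pow, eval_X, eval_C] at this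
    exact ⟨ν, eq_neg_of_add_eq_zero_left this⟩
  obtain ⟨φ, T, hφ, hS, hT⟩ := exists_twelve (c := c) (ψ := ψ) h3 hs s
  let e : Fin 4 → Fin 3 → ℤ := fun t i => if 2 * φ t i (c.z (rh t)) + 1 = ν then 1 else -1
  have he : ∀ t i, e t i = 1 ∨ e t i = -1 := fun t i => by
    simp only [e]
    split_ifs <;> simp
  have hz : ∀ t i, 2 * φ t i (c.z (rh t)) + 1 = (e t i : V) * ν := fun t i => by
    have h1 : (2 * φ t i (c.z (rh t)) + 1) ^ 2 = ν ^ 2 := by
      linear_combination 4 * (hφ t i).z3 - hν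
    simp only [e]
    split_ifs with h4
    · simpa using h4
    · simpa using (sq_eq_sq_iff_eq_or_eq_neg.1 h1).resolve_left h4
  let M : Fin 4 → V[X] := fun j => 2 * (Vs j).map ψ + derivative ((Ws j).map ψ)
  have hM : ∀ j, ∀ n < 2, ∃ b ∈ maximalIdeal V, (M j).coeff n = 2 * ψ ((Vs j).coeff n) + b :=
    fun j n hn => ⟨ψ ((Ws j).coeff (n + 1)) * (n + 1),
      Ideal.mul_mem_right _ _ (hJ _ ((s j).dist _ (by omega))), by
        simp only [M, coeff_add, coeff_derivative, coeff_map, two_mul]⟩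
  refine ⟨ν, T, e, M, hν, fun t i => ?_, fun h => ?_, he, fun j => ?_, fun j => ?_, ?_⟩
  · obtain ⟨j, hj⟩ := exists_ne t
    rw [← hS t i j hj, CfT.S, map_mul, map_mul]
    exact Ideal.mul_mem_right _ _ (Ideal.mul_mem_right _ _ ((hφ t i).mem hJ))
  · exact absurd (hT _ _ _ _ h).2 (by decide)
  · refine lagr h2.ne_zero hν hT he j ((s j).mon.map ψ)
      (((s j).mon.natDegree_map ψ).trans (s j).deg) (degree_map_le.trans_lt (s j).dV)
      (fun t i ht => ?_) fun t i ht => ?_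
    · rw [← hS t i j ht]
      exact (hφ t i).root_S ht (s j)
    · rw [← hS t i j ht, ← hz]
      exact (hφ t i).der_S h3 ht (s j)
  · obtain ⟨b, hb, e0⟩ := hM j 0 two_pos
    rw [e0]
    exact BVD_unit_add (h2.mul ((hu j).map ψ)) hb
  · obtain ⟨b00, h00, e00⟩ := hM 0 0 two_pos
    obtain ⟨b01, h01, e01⟩ := hM 0 1 one_lt_two
    obtain ⟨b10, h10, e10⟩ := hM 1 0 two_pos
    obtain ⟨b11, h11, e11⟩ := hM 1 1 one_lt_two
    have h4 := BVD_unit_add ((h2.mul h2).mul (hd.map ψ))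
      (sub_mem (add_mem (Ideal.mul_mem_left _ (2 * ψ ((Vs 0).coeff 0)) h11)
          (Ideal.mul_mem_right (2 * ψ ((Vs 1).coeff 1) + b11) _ h00))
        (add_mem (Ideal.mul_mem_left _ (2 * ψ ((Vs 1).coeff 0)) h01)
          (Ideal.mul_mem_right (2 * ψ ((Vs 0).coeff 1) + b01) _ h10)))
    rw [e00, e01, e10, e11]
    convert h4 using 1
    rw [map_sub, map_mul, map_mul]
    ring

end Pool.Agent.MP_deef5c_ag.E

end

section

/-! Rescaling. -/

open Polynomial IsLocalRing Function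

namespace Pool.Agent.MP_deef5c_ag.E

universe u

theorem NQ_rel {P : Type u} [CommRing P] (n q : Fin 4 → P) :
    NQ n q 0 * q 0 + NQ n q 1 * q 1 - NQ n q 2 * q 2 = 3 * (n 3 * (q 0 * q 1 * q 2)) ∧
      NQ n q 0 * q 0 - NQ n q 1 * q 1 - NQ n q 3 * q 3 = 3 * (n 2 * (q 0 * q 1 * q 3)) := by
  constructor <;> simp only [NQ, Matrix.cons_val] <;> ring

theorem map_NN {V V' : Type u} [CommRing V] [CommRing V'] (φ : V →+* V') (e : Fin 4 → Fin 3 → ℤ)
    (T : Fin 4 → Fin 3 → V) (j : Fin 4) : (NN e T j).map φ = NN e (fun c i => φ (T c i)) j := by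
  fin_cases j <;> simp [NN, NQ, np, Qp, Polynomial.map_mul, Polynomial.map_sub, Polynomial.map_add,
    Polynomial.map_neg]

theorem map_Qp {V V' : Type u} [CommRing V] [CommRing V'] (φ : V →+* V') (T : Fin 3 → V) :
    (Qp T).map φ = Qp fun i => φ (T i) := by
  simp [Qp, Polynomial.map_mul, Polynomial.map_sub]

theorem BSD_hom {P P' : Type u} [CommRing P] [CommRing P'] (ψ : P →+* P') (n q : Fin 4 → P)
    (j : Fin 4) : ψ (NQ n q j) = NQ (fun c => ψ (n c)) (fun c => ψ (q c)) j := by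
  fin_cases j <;> simp [NQ]

theorem BSD_scale {P : Type u} [CommRing P] (a : P) (n q : Fin 4 → P) (j : Fin 4) :
    NQ (fun c => a ^ 2 * n c) (fun c => a ^ 3 * q c) j = a ^ 8 * NQ n q j := by
  fin_cases j <;> simp [NQ] <;> ring

theorem BSD_comp {V : Type u} [CommRing V] (ρ t : V) (e : Fin 4 → Fin 3 → ℤ)
    (z : Fin 4 → Fin 3 → V) (j : Fin 4) :
    (NN e (fun c i => ρ * z c i + t) j).comp (C ρ * X + C t) = C (ρ ^ 8) * NN e z j := by
  have h := BSD_hom (compRingHom (C ρ * X + C t)) (fun c => np (e c) fun i => ρ * z c i + t)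
    (fun c => Qp fun i => ρ * z c i + t) j
  have h1 : ∀ c, compRingHom (C ρ * X + C t) (np (e c) fun i => ρ * z c i + t) =
      C ρ ^ 2 * np (e c) (z c) := by
    intro c
    simp only [coe_compRingHom_apply, np, add_comp, mul_comp, sub_comp, C_comp, X_comp, C_add,
      C_mul]
    ring
  have h2 : ∀ c, compRingHom (C ρ * X + C t) (Qp fun i => ρ * z c i + t) = C ρ ^ 3 * Qp (z c) := by
    intro c
    simp only [coe_compRingHom_apply, Qp, add_comp, mul_comp, sub_comp, C_comp, X_comp, C_add,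
      C_mul]
    ring
  simp only [h1, h2, BSD_scale] at h
  rw [C_pow]
  exact h

theorem BSD_coeff {V : Type u} [CommRing V] (ρ t : V) (p : V[X]) (n : ℕ) :
    (p.comp (C ρ * X + C t)).coeff n = (taylor t p).coeff n * ρ ^ n := by
  rw [← comp_C_mul_X_coeff, taylor_apply, Polynomial.comp_assoc]
  simp

theorem BSD_ev {V : Type u} [CommRing V] [IsLocalRing V] {t : V} (ht : t ∈ maximalIdeal V)
    (p : V[X]) : residue V (p.eval t) = residue V (p.coeff 0) := by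
  rw [← sub_eq_zero, ← map_sub, residue_eq_zero_iff, coeff_zero_eq_eval_zero]
  exact Ideal.mem_of_dvd _ (sub_dvd_eval_sub t 0 p) (by simpa using ht)

theorem BSD_der {V : Type u} [CommRing V] [IsLocalRing V] {t : V} (ht : t ∈ maximalIdeal V)
    (p : V[X]) : residue V ((derivative p).eval t) = residue V (p.coeff 1) := by
  rw [BSD_ev ht, coeff_derivative]
  simp

variable {V : Type u} [CommRing V] [IsDomain V] [ValuationRing V]

/-- in a valuation ring one member of a finite family divides all the others -/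
theorem exists_dvd_all {ι : Type*} [Finite ι] [Nonempty ι] (f : ι → V) : ∃ i, ∀ j, f i ∣ f j := by
  classical
  have := Fintype.ofFinite ι
  have key : ∀ s : Finset ι, s.Nonempty → ∃ i, ∀ j ∈ s, f i ∣ f j := by
    intro s hs
    induction hs using Finset.Nonempty.cons_induction with
    | singleton a => exact ⟨a, fun j hj => by rw [Finset.mem_singleton.1 hj]⟩
    | cons a s ha hs ih =>
      obtain ⟨i, hi⟩ := ih
      rcases ValuationRing.dvd_total (f a) (f i) with h | h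
      · refine ⟨a, fun j hj => ?_⟩
        rcases Finset.mem_cons.1 hj with rfl | hj
        · exact dvd_rfl
        · exact h.trans (hi j hj)
      · refine ⟨i, fun j hj => ?_⟩
        rcases Finset.mem_cons.1 hj with rfl | hj
        · exact h
        · exact hi j hj
  obtain ⟨i, hi⟩ := key Finset.univ Finset.univ_nonempty
  exact ⟨i, fun j => hi j (Finset.mem_univ j)⟩

theorem BSD_add (h3 : (3 : V) ≠ 0) (h3' : (3 : V) ∈ maximalIdeal V) {ν : V}
    {T : Fin 4 → Fin 3 → V} {e : Fin 4 → Fin 3 → ℤ} {M : Fin 4 → V[X]} (h : VD ν T e M) (n : ℕ) :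
    residue V ((M 2).coeff n) = residue V ((M 0).coeff n) + residue V ((M 1).coeff n) ∧
      residue V ((M 3).coeff n) = residue V ((M 0).coeff n) - residue V ((M 1).coeff n) := by
  have hν0 : ν ≠ 0 := by
    rintro rfl
    exact h3 (by simpa using h.hν)
  have hνr : residue V ν = 0 := by
    have h1 := congrArg (residue V) h.hν
    rw [map_pow, map_neg, (residue_eq_zero_iff _).2 h3', neg_zero] at h1
    exact pow_eq_zero_iff two_ne_zero |>.1 h1
  have hC : (C ν : V[X]) ≠ 0 := C_ne_zero.2 hν0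
  have h33 : (3 : V[X]) = -(C ν * C ν) := by
    rw [← C_mul, ← sq, h.hν, C_neg, neg_neg]
    rfl
  have hQ : ∀ c, (Qp (T c)).map (residue V) = X ^ 3 := by
    intro c
    rw [map_Qp, Qp]
    simp only [(residue_eq_zero_iff _).2 (h.hT c _), map_zero, sub_zero]
    ring
  obtain ⟨r1, r2⟩ := NQ_rel (fun c => np (e c) (T c)) fun c => Qp (T c)
  have hN : ∀ j, NQ (fun c => np (e c) (T c)) (fun c => Qp (T c)) j = C ν * M j := h.hN
  simp only [hN, h33] at r1 r2
  have hX : (X : (ResidueField V)[X]) ^ 3 ≠ 0 := pow_ne_zero _ X_ne_zero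
  constructor
  · have e1 : M 0 * Qp (T 0) + M 1 * Qp (T 1) - M 2 * Qp (T 2) =
        -(C ν * (np (e 3) (T 3) * (Qp (T 0) * Qp (T 1) * Qp (T 2)))) :=
      mul_left_cancel₀ hC (by linear_combination r1)
    have e2 := congrArg (Polynomial.map (residue V)) e1
    simp only [Polynomial.map_sub, Polynomial.map_add, Polynomial.map_mul, Polynomial.map_neg, hQ,
      map_C, hνr, map_zero, zero_mul, neg_zero] at e2
    have e3 : (M 2).map (residue V) = (M 0).map (residue V) + (M 1).map (residue V) :=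
      mul_right_cancel₀ hX (by linear_combination -e2)
    simpa only [coeff_add, coeff_map] using congrArg (fun p => p.coeff n) e3
  · have e1 : M 0 * Qp (T 0) - M 1 * Qp (T 1) - M 3 * Qp (T 3) =
        -(C ν * (np (e 2) (T 2) * (Qp (T 0) * Qp (T 1) * Qp (T 3)))) :=
      mul_left_cancel₀ hC (by linear_combination r2)
    have e2 := congrArg (Polynomial.map (residue V)) e1
    simp only [Polynomial.map_sub, Polynomial.map_mul, Polynomial.map_neg, hQ,
      map_C, hνr, map_zero, zero_mul, neg_zero] at e2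
    have e3 : (M 3).map (residue V) = (M 0).map (residue V) - (M 1).map (residue V) :=
      mul_right_cancel₀ hX (by linear_combination -e2)
    simpa only [coeff_sub, coeff_map] using congrArg (fun p => p.coeff n) e3

/-- Let `T₀ = T 0 0`, `ρ` the member of the family `T c i - T₀` dividing all (`ρ ≠ 0` by `ne`),
`T c i = T₀ + ρ z c i` (so `z 0 0 = 0` and some `z c i = 1`), `G j = (M j).comp (C T₀ + C ρ * X)`,
`y j = (derivative (M j)).eval T₀`.  Composition gives `C (ρ^8) * NN e z j = C ν * G j`; the constant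
coefficient of `G 0` is a unit, so `ν = ρ^8 δ`.  Additivity: by `NQ_rel` and `3 = -ν^2`,
`M 0 Q 0 + M 1 Q 1 - M 2 Q 2 = - C ν * (...)`; reduce modulo the maximal ideal, where `Q c ↦ X^3`. -/
theorem sd_of_vd (h3 : (3 : V) ≠ 0) (h3' : (3 : V) ∈ maximalIdeal V) {ν : V}
    {T : Fin 4 → Fin 3 → V} {e : Fin 4 → Fin 3 → ℤ} {M : Fin 4 → V[X]} (h : VD ν T e M) :
    ∃ (ρ δ : V) (z : Fin 4 → Fin 3 → V) (G : Fin 4 → V[X]) (y : Fin 4 → V), SD ρ δ z e G y := by
  obtain ⟨⟨c0, i0⟩, hdiv⟩ := exists_dvd_all fun p : Fin 4 × Fin 3 => T p.1 p.2 - T 0 0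
  choose z hz using fun c i => hdiv (c, i)
  simp only at hz
  obtain ⟨ρ, hρ⟩ : ∃ ρ, ρ = T c0 i0 - T 0 0 := ⟨_, rfl⟩
  obtain ⟨t, ht⟩ : ∃ t, t = T 0 0 := ⟨_, rfl⟩
  rw [← hρ] at hz
  have htm : t ∈ maximalIdeal V := ht ▸ h.hT 0 0
  have hρm : ρ ∈ maximalIdeal V := hρ ▸ sub_mem (h.hT _ _) (h.hT _ _)
  have hρ0 : ρ ≠ 0 := by
    intro h0
    have h1 := hz 0 1
    rw [h0, zero_mul, sub_eq_zero] at h1
    exact h.ne h1.symm
  have hz0 : z 0 0 = 0 := mul_left_cancel₀ hρ0 (by rw [← hz, sub_self, mul_zero])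
  have hz1 : z c0 i0 = 1 := mul_left_cancel₀ hρ0 (by rw [← hz, mul_one, hρ])
  have hT : T = fun c i => ρ * z c i + t := by
    funext c i
    rw [← hz, ht, sub_add_cancel]
  have hc : ∀ j, C (ρ ^ 8) * NN e z j = C ν * (M j).comp (C ρ * X + C t) := by
    intro j
    rw [← BSD_comp ρ t, ← hT, h.hN, mul_comp, C_comp]
  have g0 : ∀ j, residue V (((M j).comp (C ρ * X + C t)).coeff 0) = residue V ((M j).coeff 0) := by
    intro j
    rw [BSD_coeff, taylor_coeff_zero, pow_zero, mul_one, BSD_ev htm]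
  have gu : ∀ j, IsUnit (((M j).comp (C ρ * X + C t)).coeff 0) := fun j =>
    (residue_ne_zero_iff_isUnit _).1 (by
      rw [g0]; exact (residue_ne_zero_iff_isUnit _).2 (h.hu j))
  obtain ⟨δ, hδ⟩ : ρ ^ 8 ∣ ν := by
    have h1 := congrArg (fun p => p.coeff 0) (hc 0)
    simp only [coeff_C_mul] at h1
    exact (gu 0).dvd_mul_right.1 ⟨_, h1.symm⟩
  have hν := h.hν
  obtain ⟨a0, b0⟩ := BSD_add h3 h3' h 0
  obtain ⟨a1, b1⟩ := BSD_add h3 h3' h 1
  refine ⟨ρ, δ, z, fun j => (M j).comp (C ρ * X + C t), fun j => (derivative (M j)).eval t,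
    hρm, hρ0, ?_, ?_, h.he, ⟨c0, i0, 0, 0, by rw [hz0, hz1, sub_zero]; exact isUnit_one⟩,
    fun j => ?_, fun j n hn => ?_, fun j => ?_, gu, ?_, ?_, ?_, ?_, ?_⟩
  · rintro rfl
    rw [hδ] at hν
    exact h3 (by simpa using hν)
  · rw [← hν, hδ]
    ring
  · refine mul_left_cancel₀ (C_ne_zero.2 (pow_ne_zero 8 hρ0)) ?_
    rw [hc, hδ, C_mul, mul_assoc]
  · rw [BSD_coeff]
    exact Ideal.mul_mem_left _ _ (Ideal.pow_mem_of_mem _ hρm n (Nat.pos_of_ne_zero hn))
  · rw [BSD_coeff, taylor_coeff_one, pow_one, mul_comm]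
  · refine (residue_ne_zero_iff_isUnit _).1 ?_
    have h1 := (residue_ne_zero_iff_isUnit _).2 h.hd
    simp only [map_sub, map_mul, g0, BSD_der htm] at h1 ⊢
    exact h1
  · rw [← residue_eq_zero_iff]
    simp only [map_sub, g0, a0]
    ring
  · rw [← residue_eq_zero_iff]
    simp only [map_sub, map_add, g0, b0]
    ring
  · rw [← residue_eq_zero_iff]
    simp only [map_sub, BSD_der htm, a1]
    ring
  · rw [← residue_eq_zero_iff]
    simp only [map_sub, map_add, BSD_der htm, b1]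
    ring

end Pool.Agent.MP_deef5c_ag.E

end

section

/-! The Cartier identity and the reduced equations. -/

open Polynomial IsLocalRing Function

namespace Pool.Agent.MP_deef5c_ag.E

universe u

/-- good pairs -/
def BCar_good {V : Type u} [CommRing V] (N w : V[X]) : Prop :=
  (3 : V[X]) ∣ derivative (derivative (N * w ^ 2)) + N ^ 3

theorem BCar_lin {V : Type u} [CommRing V] {e : ℤ} (he : e = 1 ∨ e = -1) (t : V) :
    BCar_good (C (e : V)) (X - C t) := by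
  have h : (C (e : V) : V[X]) ^ 2 = 1 := by
    rcases he with rfl | rfl <;> simp
  refine ⟨C (e : V), ?_⟩
  rw [sq (X - C t)]
  simp only [derivative_mul, derivative_add, derivative_sub, derivative_C, derivative_X,
    derivative_one, derivative_zero]
  linear_combination C (e : V) * h

theorem BCar_cube {V : Type u} [CommRing V] (A w : V[X]) :
    (3 : V[X]) ∣ derivative (derivative (A * w ^ 3)) - derivative (derivative A) * w ^ 3 := by
  refine ⟨2 * derivative A * w ^ 2 * derivative w + 2 * A * w * derivative w ^ 2 +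
    A * w ^ 2 * derivative (derivative w), ?_⟩
  rw [show w ^ 3 = w * w * w by ring]
  simp only [derivative_mul, derivative_add]
  ring

theorem BCar_mul {V : Type u} [CommRing V] {N₁ w₁ N₂ w₂ : V[X]} (h₁ : BCar_good N₁ w₁)
    (h₂ : BCar_good N₂ w₂) : BCar_good (N₁ * w₂ + N₂ * w₁) (w₁ * w₂) := by
  obtain ⟨a, ha⟩ := h₁
  obtain ⟨b, hb⟩ := h₂
  obtain ⟨c, hc⟩ := BCar_cube (N₁ * w₁ ^ 2) w₂
  obtain ⟨d, hd⟩ := BCar_cube (N₂ * w₂ ^ 2) w₁
  refine ⟨a * w₂ ^ 3 + b * w₁ ^ 3 + c + d + N₁ * w₂ * (N₂ * w₁) * (N₁ * w₂ + N₂ * w₁), ?_⟩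
  rw [show (N₁ * w₂ + N₂ * w₁) * (w₁ * w₂) ^ 2 = N₁ * w₁ ^ 2 * w₂ ^ 3 + N₂ * w₂ ^ 2 * w₁ ^ 3 by ring,
    derivative_add, derivative_add]
  linear_combination w₂ ^ 3 * ha + w₁ ^ 3 * hb + hc + hd

theorem BCar_three {V : Type u} [CommRing V] {N₁ w₁ N₂ w₂ N₃ w₃ : V[X]} (h₁ : BCar_good N₁ w₁)
    (h₂ : BCar_good N₂ w₂) (h₃ : BCar_good N₃ w₃) :
    BCar_good (N₁ * w₂ * w₃ + N₂ * w₁ * w₃ + N₃ * w₁ * w₂) (w₁ * w₂ * w₃) := by
  have := BCar_mul (BCar_mul h₁ h₂) h₃
  rwa [show (N₁ * w₂ + N₂ * w₁) * w₃ + N₃ * (w₁ * w₂) =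
    N₁ * w₂ * w₃ + N₂ * w₁ * w₃ + N₃ * w₁ * w₂ by ring] at this

theorem BCar_np {V : Type u} [CommRing V] {e : Fin 3 → ℤ} (he : ∀ i, e i = 1 ∨ e i = -1)
    (T : Fin 3 → V) : BCar_good (np e T) (Qp T) := by
  have := BCar_three (BCar_lin (he 0) (T 0)) (BCar_lin (he 1) (T 1)) (BCar_lin (he 2) (T 2))
  rwa [mul_assoc (C _), mul_assoc (C _), mul_assoc (C _)] at this

/-- Call `(N, w)` good if `3 ∣ (N w^2)'' + N^3`.  `(± 1, X - t)` is good; if `(N₁, w₁)`, `(N₂, w₂)` are good then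
so is `(N₁ w₂ + N₂ w₁, w₁ w₂)`: the form is `N₁ w₁^2 w₂^3 + N₂ w₂^2 w₁^3`, the derivative of a cube is a multiple
of `3`, and cubing is additive modulo `3`. -/
theorem cartier {V : Type u} [CommRing V] {e : Fin 4 → Fin 3 → ℤ}
    (he : ∀ c i, e c i = 1 ∨ e c i = -1) (z : Fin 4 → Fin 3 → V) :
    (3 : V[X]) ∣ derivative (derivative (NN e z 0 * WQ (fun c => Qp (z c)) 0 ^ 2)) + NN e z 0 ^ 3 := by
  exact BCar_three (BCar_np (he 1) (z 1)) (BCar_np (he 2) (z 2)) (BCar_np (he 3) (z 3))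

variable {V : Type u} [CommRing V] [IsDomain V] [IsLocalRing V] {ρ δ : V} {z : Fin 4 → Fin 3 → V}
  {e : Fin 4 → Fin 3 → ℤ} {G : Fin 4 → V[X]} {y : Fin 4 → V}

theorem SD.charP (h : SD ρ δ z e G y) : CharP (ResidueField V) 3 := by
  refine (CharP.charP_iff_prime_eq_zero Nat.prime_three).2 ?_
  have h1 := congrArg (residue V) h.h3
  rw [map_mul, map_pow, map_pow, (residue_eq_zero_iff ρ).2 h.hρ, map_neg, map_ofNat] at h1
  have h2 : (3 : ResidueField V) = 0 := by linear_combination h1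
  exact_mod_cast h2

theorem SD.mapG (h : SD ρ δ z e G y) (j : Fin 4) :
    (G j).map (residue V) = C (residue V ((G j).coeff 0)) := by
  ext n
  rw [coeff_map, coeff_C]
  split_ifs with hn
  · rw [hn]
  · exact (residue_eq_zero_iff _).2 (h.hG j n hn)

/-- `NQ_rel`, `3 = -δ^2 ρ^16`, cancel `C δ` -/
theorem SD.rel (h : SD ρ δ z e G y) :
    G 0 * Qp (z 0) + G 1 * Qp (z 1) - G 2 * Qp (z 2) =
        -(C (δ * ρ ^ 16) * (np (e 3) (z 3) * (Qp (z 0) * Qp (z 1) * Qp (z 2)))) ∧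
      G 0 * Qp (z 0) - G 1 * Qp (z 1) - G 3 * Qp (z 3) =
        -(C (δ * ρ ^ 16) * (np (e 2) (z 2) * (Qp (z 0) * Qp (z 1) * Qp (z 3)))) := by
  have h3 : (C δ : V[X]) ^ 2 * C ρ ^ 16 = -3 := by
    rw [← map_pow, ← map_pow, ← map_mul, h.h3, map_neg, map_ofNat]
  obtain ⟨a, b⟩ := NQ_rel (fun c => np (e c) (z c)) fun c => Qp (z c)
  have hN : ∀ j, NQ (fun c => np (e c) (z c)) (fun c => Qp (z c)) j = C δ * G j := h.hN
  simp only [hN] at a b
  have hδ : (C δ : V[X]) ≠ 0 := C_ne_zero.2 h.δ0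
  rw [map_mul, map_pow]
  refine ⟨mul_left_cancel₀ hδ ?_, mul_left_cancel₀ hδ ?_⟩
  · linear_combination a + np (e 3) (z 3) * (Qp (z 0) * Qp (z 1) * Qp (z 2)) * h3
  · linear_combination b + np (e 2) (z 2) * (Qp (z 0) * Qp (z 1) * Qp (z 3)) * h3

/-- in `cartier` put `NN = C δ * G 0`, `3 = -δ^2 ρ^16`, cancel `C δ`, reduce, cancel the unit `L 0` -/
theorem SD.red (h : SD ρ δ z e G y) {q : Fin 4 → (ResidueField V)[X]} {L : Fin 4 → ResidueField V}
    (hq : ∀ c, q c = Qp fun i => residue V (z c i)) (hL : ∀ j, L j = residue V ((G j).coeff 0)) :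
    C (L 2) * q 2 = C (L 0) * q 0 + C (L 1) * q 1 ∧ C (L 3) * q 3 = C (L 0) * q 0 - C (L 1) * q 1 ∧
      derivative (derivative ((q 1 * q 2 * q 3) ^ 2)) = C (-(residue V δ ^ 2 * L 0 ^ 2)) ∧
      ∀ j, NN e (fun c i => residue V (z c i)) j = C (residue V δ * L j) := by
  have hρ : residue V ρ = 0 := (residue_eq_zero_iff ρ).2 h.hρ
  have hQ : ∀ c, (Qp (z c)).map (residue V) = q c := fun c => by rw [map_Qp, hq]
  have hG : ∀ j, (G j).map (residue V) = C (L j) := fun j => by rw [h.mapG, hL]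
  have h0 : (C (δ * ρ ^ 16) : V[X]).map (residue V) = 0 := by
    rw [map_C, map_mul, map_pow, hρ]
    simp
  obtain ⟨a, b⟩ := h.rel
  have a' := congrArg (Polynomial.map (residue V)) a
  have b' := congrArg (Polynomial.map (residue V)) b
  simp only [Polynomial.map_sub, Polynomial.map_add, Polynomial.map_mul, Polynomial.map_neg, hQ, hG,
    h0, zero_mul, neg_zero] at a' b'
  refine ⟨by linear_combination -a', by linear_combination -b', ?_, fun j => ?_⟩
  · have h3 : (C δ : V[X]) ^ 2 * C ρ ^ 16 = -3 := by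
      rw [← map_pow, ← map_pow, ← map_mul, h.h3, map_neg, map_ofNat]
    have hδ : (C δ : V[X]) ≠ 0 := C_ne_zero.2 h.δ0
    obtain ⟨K, hK⟩ := cartier h.he z
    have hW : WQ (fun c => Qp (z c)) 0 = Qp (z 1) * Qp (z 2) * Qp (z 3) := rfl
    rw [h.hN, hW, mul_assoc (C δ), derivative_C_mul, derivative_C_mul] at hK
    have h4 : derivative (derivative (G 0 * (Qp (z 1) * Qp (z 2) * Qp (z 3)) ^ 2)) +
        C δ ^ 2 * G 0 ^ 3 = -(C (δ * ρ ^ 16) * K) := by
      refine mul_left_cancel₀ hδ ?_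
      rw [C_mul, C_pow]
      linear_combination hK + K * h3
    have h5 := congrArg (Polynomial.map (residue V)) h4
    simp only [Polynomial.map_add, Polynomial.map_mul, Polynomial.map_neg, Polynomial.map_pow,
      ← derivative_map, hQ, hG, h0, zero_mul, neg_zero, derivative_C_mul] at h5
    rw [map_C] at h5
    have hL0 : (C (L 0) : (ResidueField V)[X]) ≠ 0 :=
      C_ne_zero.2 (hL 0 ▸ ((h.hu 0).map (residue V)).ne_zero)
    refine mul_left_cancel₀ hL0 ?_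
    rw [C_neg, C_mul, C_pow, C_pow]
    linear_combination h5
  · rw [← map_NN, h.hN, Polynomial.map_mul, map_C, hG, map_mul]

end Pool.Agent.MP_deef5c_ag.E

end

section

/-! Classification of the limits in characteristic three. -/

open Polynomial IsLocalRing Function

namespace Pool.Agent.MP_deef5c_ag.E

universe u

variable {κ : Type u} [Field κ] [CharP κ 3]

theorem BK1_three : (3 : κ[X]) = 0 := by exact_mod_cast CharP.cast_eq_zero κ[X] 3

theorem BK1_cube (a : κ[X]) : derivative (a ^ 3) = 0 := by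
  rw [derivative_pow, CharP.cast_eq_zero κ 3, map_zero, zero_mul, zero_mul]

theorem BK1_red (a u : κ[X]) (Θ : κ) :
    derivative (derivative ((C Θ * a ^ 3 + u ^ 3 - a ^ 2 * u) ^ 2)) =
      (C Θ * a ^ 3 + u ^ 3) * derivative (derivative (a ^ 2 * u)) +
        a ^ 3 * derivative (derivative (a * u ^ 2)) := by
  have e : (C Θ * a ^ 3 + u ^ 3 - a ^ 2 * u) ^ 2 = (C Θ * a ^ 3 + u ^ 3) * (C Θ * a ^ 3 + u ^ 3) +
      (C Θ * a ^ 3 + u ^ 3) * (a ^ 2 * u) + a ^ 3 * (a * u ^ 2) := by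
    linear_combination (-(C Θ * a ^ 3 + u ^ 3) * (a ^ 2 * u)) * BK1_three (κ := κ)
  have h : derivative (C Θ * a ^ 3 + u ^ 3) = 0 := by simp [BK1_cube]
  rw [e]
  generalize C Θ * a ^ 3 + u ^ 3 = W at h
  generalize a ^ 2 * u = g
  generalize a * u ^ 2 = k
  simp [h, BK1_cube]

theorem BK1_g (v1 v2 v3 u1 u2 u3 : κ) :
    derivative (derivative ((X ^ 3 + C v1 * X ^ 2 + C v2 * X + C v3) ^ 2 *
      (C u1 * X ^ 2 + C u2 * X + C u3))) = C (-u1) * X ^ 6 +
      C (-v1 ^ 2 * u2 + v1 * v2 * u1 + v1 * u3 + v2 * u2 + v3 * u1) * X ^ 3 +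
      C (v1 * v3 * u3 - v2 ^ 2 * u3 + v2 * v3 * u2 - v3 ^ 2 * u1) := by
  simp only [pow_succ, pow_zero, one_mul, derivative_mul, derivative_X,
    derivative_C, derivative_one, derivative_zero, map_add, map_mul, map_sub, map_neg]
  grind

theorem BK1_h (v1 v2 v3 u1 u2 u3 : κ) :
    derivative (derivative ((X ^ 3 + C v1 * X ^ 2 + C v2 * X + C v3) *
      (C u1 * X ^ 2 + C u2 * X + C u3) ^ 2)) =
      C (v1 * u1 * u2 - v2 * u1 ^ 2 + u1 * u3 - u2 ^ 2) * X ^ 3 +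
      C (-v1 * u3 ^ 2 + v2 * u2 * u3 + v3 * u1 * u3 - v3 * u2 ^ 2) := by
  simp only [pow_succ, pow_zero, one_mul, derivative_mul, derivative_X,
    derivative_C, derivative_one, derivative_zero, map_add, map_mul, map_sub, map_neg]
  grind

theorem BK1_id (v1 v2 v3 u1 u2 u3 Θ g2 g1 g0 k1 k0 : κ) :
    (C Θ * (X ^ 3 + C v1 * X ^ 2 + C v2 * X + C v3) ^ 3 + (C u1 * X ^ 2 + C u2 * X + C u3) ^ 3) *
      (C g2 * X ^ 6 + C g1 * X ^ 3 + C g0) +
      (X ^ 3 + C v1 * X ^ 2 + C v2 * X + C v3) ^ 3 * (C k1 * X ^ 3 + C k0) =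
    C (Θ * g2) * X ^ 15 + C ((Θ * v1 ^ 3 + u1 ^ 3) * g2 + (Θ * g1 + k1)) * X ^ 12 +
      C ((Θ * v2 ^ 3 + u2 ^ 3) * g2 + v1 ^ 3 * (Θ * g1 + k1) + u1 ^ 3 * g1 + (Θ * g0 + k0)) * X ^ 9 +
      C ((Θ * v3 ^ 3 + u3 ^ 3) * g2 + v2 ^ 3 * (Θ * g1 + k1) + u2 ^ 3 * g1 +
        v1 ^ 3 * (Θ * g0 + k0) + u1 ^ 3 * g0) * X ^ 6 +
      C (v3 ^ 3 * (Θ * g1 + k1) + u3 ^ 3 * g1 + v2 ^ 3 * (Θ * g0 + k0) + u2 ^ 3 * g0) * X ^ 3 +
      C (v3 ^ 3 * (Θ * g0 + k0) + u3 ^ 3 * g0) := by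
  simp only [map_add, map_mul, map_pow]
  grind

omit [CharP κ 3] in
theorem BK1_coeff {c5 c4 c3 c2 c1 c0 d : κ} (h : C c5 * X ^ 15 + C c4 * X ^ 12 + C c3 * X ^ 9 +
    C c2 * X ^ 6 + C c1 * X ^ 3 + C c0 = C d) : c5 = 0 ∧ c4 = 0 ∧ c3 = 0 ∧ c2 = 0 ∧ d = c0 := by
  have h1 := fun n => congrArg (coeff · n) h
  simp only [coeff_add, coeff_C_mul, coeff_X_pow, coeff_C] at h1
  exact ⟨by simpa using h1 15, by simpa using h1 12, by simpa using h1 9, by simpa using h1 6,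
    by simpa using (h1 0).symm⟩

/-- Let `g = a^2 u`, `Ξ = Θ a^3 + u^3 - g`, so `Ξ' = -g'`, `Ξ'' = -g''`, and `(Ξ^2)'' = 2 Ξ'^2 + 2 Ξ Ξ''`.  Write
`a = X^3 + v₁ X^2 + v₂ X + v₃`, `u = u₁ X^2 + u₂ X + u₃`, and compare coefficients.  `X^15`: `u₁ = 0`.  Suppose
`u₂ ≠ 0`; after the translation `X ↦ X - u₃ / u₂` (`Polynomial.taylor` or `comp`) one may assume `u₃ = 0`.
With `A = v₁^2 - v₂`: `X^12`: `u₂ = -Θ A`; `X^9`: `v₃ v₁^2 = 0`; `X^6`: `Θ^2 A^3 = 0`, a contradiction.  So `u₂ = 0`.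
If `u₃ ≠ 0`: `X^12`: `v₁ = 0`; `X^9`: `v₂ = 0`.  In both remaining cases `g' = 0`. -/
theorem classify_aux {a u : κ[X]} (ha : a.Monic) (hd : a.natDegree = 3) (hu : u.degree < 3) {Θ d : κ}
    (hΘ : Θ ≠ 0) (h : derivative (derivative ((C Θ * a ^ 3 + u ^ 3 - a ^ 2 * u) ^ 2)) = C d) :
    d = 0 ∧ (u = 0 ∨ (derivative a = 0 ∧ derivative u = 0)) := by
  obtain ⟨v1, v2, v3, rfl⟩ : ∃ v1 v2 v3, a = X ^ 3 + C v1 * X ^ 2 + C v2 * X + C v3 := by
    refine ⟨a.coeff 2, a.coeff 1, a.coeff 0, ?_⟩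
    conv_lhs => rw [ha.as_sum, hd]
    simp only [Finset.sum_range_succ, Finset.sum_range_zero]
    ring
  obtain ⟨u1, u2, u3, rfl⟩ : ∃ u1 u2 u3, u = C u1 * X ^ 2 + C u2 * X + C u3 := by
    refine ⟨u.coeff 2, u.coeff 1, u.coeff 0, ?_⟩
    conv_lhs => rw [← sum_monomial_eq u, sum_over_range' u (by simp) 3 (by
      by_cases h0 : u = 0
      · simp [h0]
      · exact (natDegree_lt_iff_degree_lt h0).2 hu)]
    simp only [Finset.sum_range_succ, Finset.sum_range_zero, ← C_mul_X_pow_eq_monomial]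
    ring
  rw [BK1_red, BK1_g, BK1_h, BK1_id] at h
  obtain ⟨h5, h4, h3, h2, h0⟩ := BK1_coeff h
  obtain rfl : u1 = 0 := neg_eq_zero.1 ((mul_eq_zero.1 h5).resolve_left hΘ)
  obtain rfl : u2 = 0 := pow_eq_zero_iff (n := 5) (by norm_num) |>.1 (by
    linear_combination Θ * h2 - Θ * v1 ^ 3 * h3 - (Θ * v2 ^ 3 - Θ * v1 ^ 6 + u2 ^ 3) * h4)
  by_cases hu3 : u3 = 0
  · subst hu3
    exact ⟨by simpa using h0, Or.inl (by simp)⟩
  obtain rfl : v1 = 0 := by
    have : Θ * u3 * v1 = 0 := by linear_combination h4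
    exact (mul_eq_zero.1 this).resolve_left (mul_ne_zero hΘ hu3)
  obtain rfl : v2 = 0 := by
    have : Θ * u3 * v2 ^ 2 = 0 := by linear_combination -h3
    exact pow_eq_zero_iff two_ne_zero |>.1 ((mul_eq_zero.1 this).resolve_left (mul_ne_zero hΘ hu3))
  exact ⟨by simpa using h0, Or.inr ⟨by simp [BK1_cube], by simp⟩⟩

/-- `a = q₀`, `γ = L₁ / L₀`, `b = γ q₁ = γ a + u` with `u = γ (q₁ - q₀)`, `Θ = γ^3 - γ ≠ 0`;
`b^3 - a^2 b = Θ a^3 + u^3 - a^2 u` is a non-zero constant multiple of `q₁ q₂ q₃`. -/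
theorem classify {q₀ q₁ q₂ q₃ : κ[X]} (m₀ : q₀.Monic) (m₁ : q₁.Monic) (d₀ : q₀.natDegree = 3)
    (d₁ : q₁.natDegree = 3) {L₀ L₁ d : κ} (h₀ : L₀ ≠ 0) (h₁ : L₁ ≠ 0) (h₂ : L₀ + L₁ ≠ 0)
    (h₃ : L₀ - L₁ ≠ 0) (r₂ : C (L₀ + L₁) * q₂ = C L₀ * q₀ + C L₁ * q₁)
    (r₃ : C (L₀ - L₁) * q₃ = C L₀ * q₀ - C L₁ * q₁)
    (h : derivative (derivative ((q₁ * q₂ * q₃) ^ 2)) = C d) :
    d = 0 ∧ (q₀ = q₁ ∨ (derivative q₀ = 0 ∧ derivative q₁ = 0)) := by
  obtain ⟨γ, rfl⟩ : ∃ γ, L₁ = γ * L₀ := ⟨L₁ / L₀, by field_simp⟩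
  have g0 : γ ≠ 0 := left_ne_zero_of_mul h₁
  have g1 : 1 + γ ≠ 0 := fun e => h₂ (by linear_combination L₀ * e)
  have g2 : 1 - γ ≠ 0 := fun e => h₃ (by linear_combination L₀ * e)
  have c0 : (C L₀ : κ[X]) ≠ 0 := C_ne_zero.2 h₀
  have s₂ : (1 + C γ) * q₂ = q₀ + C γ * q₁ := mul_left_cancel₀ c0 (by
    simp only [map_add, map_mul] at r₂; linear_combination r₂)
  have s₃ : (1 - C γ) * q₃ = q₀ - C γ * q₁ := mul_left_cancel₀ c0 (by
    simp only [map_sub, map_mul] at r₃; linear_combination r₃)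
  have hΘ : γ ^ 3 - γ ≠ 0 := fun e =>
    mul_ne_zero g0 (mul_ne_zero g1 g2) (by linear_combination -e)
  have e1 : C (γ ^ 3 - γ) * q₀ ^ 3 + (C γ * (q₁ - q₀)) ^ 3 - q₀ ^ 2 * (C γ * (q₁ - q₀)) =
      C (γ ^ 3 - γ) * (q₁ * q₂ * q₃) := by
    simp only [map_sub, map_pow]
    linear_combination (C γ * q₁ * (1 - C γ) * q₃) * s₂ + (C γ * q₁ * (q₀ + C γ * q₁)) * s₃ +
      (C γ ^ 3 * (q₁ * q₀ ^ 2 - q₁ ^ 2 * q₀)) * BK1_three (κ := κ)
  have hu : (C γ * (q₁ - q₀)).degree < 3 := by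
    rw [degree_C_mul g0]
    have e₀ : q₀.degree = 3 := by rw [degree_eq_natDegree m₀.ne_zero, d₀]; rfl
    have e₁ : q₁.degree = 3 := by rw [degree_eq_natDegree m₁.ne_zero, d₁]; rfl
    exact e₁ ▸ degree_sub_lt_left (e₁.trans e₀.symm) m₁.ne_zero (m₁.leadingCoeff.trans m₀.leadingCoeff.symm)
  obtain ⟨k1, k2⟩ := classify_aux m₀ d₀ hu hΘ (d := (γ ^ 3 - γ) ^ 2 * d) (by
    rw [e1, mul_pow, ← C_pow, derivative_C_mul, derivative_C_mul, h, ← C_mul])
  have cg : (C γ : κ[X]) ≠ 0 := C_ne_zero.2 g0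
  refine ⟨(mul_eq_zero.1 k1).resolve_left (pow_ne_zero 2 hΘ), k2.imp (fun e => ?_) fun e => ⟨e.1, ?_⟩⟩
  · exact (sub_eq_zero.1 ((mul_eq_zero.1 e).resolve_left cg)).symm
  · have := e.2
    rw [derivative_C_mul, derivative_sub, e.1, sub_zero] at this
    exact (mul_eq_zero.1 this).resolve_left cg

end Pool.Agent.MP_deef5c_ag.E

end

section

/-! The two degenerate limits: signs. -/

open Polynomial IsLocalRing Function

namespace Pool.Agent.MP_deef5c_ag.E

universe u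

variable {κ : Type u} [Field κ] [CharP κ 3]

omit [CharP κ 3] in
lemma BK2_sum {a b c : ℤ} (ha : a = 1 ∨ a = -1) (hb : b = 1 ∨ b = -1) (hc : c = 1 ∨ c = -1)
    (h : (a : κ) + b + c = 0) : b = a ∧ c = a := by
  rcases ha with rfl | rfl <;> rcases hb with rfl | rfl <;> rcases hc with rfl | rfl <;>
    simp at h ⊢

omit [CharP κ 3] in
lemma BK2_der (z : Fin 3 → κ) (a : κ) : eval a (derivative (Qp z)) =
    (a - z 1) * (a - z 2) + (a - z 0) * (a - z 2) + (a - z 0) * (a - z 1) := by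
  simp only [Qp, derivative_mul, derivative_sub, derivative_X, derivative_C, eval_add, eval_mul,
    eval_sub, eval_X, eval_C, eval_one, eval_zero]
  ring

omit [CharP κ 3] in
lemma BK2_ev (z : Fin 3 → κ) (a : κ) : eval a (Qp z) = (a - z 0) * (a - z 1) * (a - z 2) := by
  simp only [Qp, eval_mul, eval_sub, eval_X, eval_C]

omit [CharP κ 3] in
lemma BK2_root (z : Fin 3 → κ) (i : Fin 3) : eval (z i) (Qp z) = 0 := by
  rw [BK2_ev]
  fin_cases i <;> simp

omit [CharP κ 3] in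
lemma BK2_np {e : Fin 3 → ℤ} (he : ∀ i, e i = 1 ∨ e i = -1) {z : Fin 3 → κ} {a : κ}
    (h : eval a (Qp z) = 0) :
    ∃ s : ℤ, (s = 1 ∨ s = -1) ∧ eval a (np e z) = s * eval a (derivative (Qp z)) := by
  rw [BK2_ev, mul_eq_zero, mul_eq_zero] at h
  rw [BK2_der]
  simp only [np, eval_add, eval_mul, eval_sub, eval_X, eval_C]
  rcases h with (h | h) | h
  · exact ⟨e 0, he 0, by rw [h]; ring⟩
  · exact ⟨e 1, he 1, by rw [h]; ring⟩
  · exact ⟨e 2, he 2, by rw [h]; ring⟩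

omit [CharP κ 3] in
lemma BK2_simple {z : Fin 4 → Fin 3 → κ} (hq : ∀ c, Qp (z c) = Qp (z 0))
    (hz : ∃ c i c' i', z c i ≠ z c' i') :
    ∃ a, eval a (Qp (z 0)) = 0 ∧ eval a (derivative (Qp (z 0))) ≠ 0 := by
  by_contra H
  have H' : ∀ i, eval (z 0 i) (derivative (Qp (z 0))) = 0 := fun i =>
    by_contra fun h => H ⟨_, BK2_root _ i, h⟩
  have e0 := H' 0
  have e1 := H' 1
  have e2 := H' 2
  rw [BK2_der] at e0 e1 e2
  have : z 0 1 = z 0 0 ∧ z 0 2 = z 0 0 := by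
    rcases mul_eq_zero.1 (show (z 0 0 - z 0 1) * (z 0 0 - z 0 2) = 0 by linear_combination e0)
      with h1 | h1
    · have h2 := (sub_eq_zero.1 h1).symm
      rw [h2] at e2
      exact ⟨h2, sub_eq_zero.1 (pow_eq_zero_iff two_ne_zero |>.1 (by linear_combination e2))⟩
    · have h2 := (sub_eq_zero.1 h1).symm
      rw [h2] at e1
      exact ⟨sub_eq_zero.1 (pow_eq_zero_iff two_ne_zero |>.1 (by linear_combination e1)), h2⟩
  have h3 : ∀ c i, z c i = z 0 0 := fun c i => by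
    have h4 := BK2_root (z c) i
    rw [hq c, BK2_ev, this.1, this.2] at h4
    exact sub_eq_zero.1 (pow_eq_zero_iff three_ne_zero |>.1 (by linear_combination h4))
  obtain ⟨c, i, c', i', h⟩ := hz
  exact h ((h3 c i).trans (h3 c' i').symm)

omit [CharP κ 3] in
lemma BK2_three {a₁ a₂ a₃ s₁ s₂ s₃ : κ} (h12 : a₁ ≠ a₂) (h13 : a₁ ≠ a₃) (h23 : a₂ ≠ a₃)
    (h : C s₁ * (X - C a₁) ^ 2 * (X - C a₂) ^ 3 * (X - C a₃) ^ 3 +
      C s₂ * (X - C a₂) ^ 2 * (X - C a₁) ^ 3 * (X - C a₃) ^ 3 +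
      C s₃ * (X - C a₃) ^ 2 * (X - C a₁) ^ 3 * (X - C a₂) ^ 3 = 0) : s₁ = 0 ∧ s₂ = 0 ∧ s₃ = 0 := by
  have h1 : ((X - C a₁) * (X - C a₂) * (X - C a₃)) ^ 2 * (C s₁ * (X - C a₂) * (X - C a₃) +
      C s₂ * (X - C a₁) * (X - C a₃) + C s₃ * (X - C a₁) * (X - C a₂)) = 0 := by
    linear_combination h
  have h2 := (mul_eq_zero.1 h1).resolve_left (pow_ne_zero 2 (mul_ne_zero
    (mul_ne_zero (X_sub_C_ne_zero _) (X_sub_C_ne_zero _)) (X_sub_C_ne_zero _)))
  have e1 := congrArg (Polynomial.eval a₁) h2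
  have e2 := congrArg (Polynomial.eval a₂) h2
  have e3 := congrArg (Polynomial.eval a₃) h2
  simp only [eval_add, eval_mul, eval_sub, eval_X, eval_C, eval_zero, sub_self, mul_zero, zero_mul,
    add_zero, zero_add, mul_eq_zero, sub_eq_zero, h12, h13, h23, h12.symm, h13.symm, h23.symm,
    or_false] at e1 e2 e3
  exact ⟨e1, e2, e3⟩

/-- All `Qp (z c)` equal `q`, which has two distinct roots, hence a simple root `a`.  For each `c` exactly one
`z c i` equals `a`, and `(np (e c) (z c)).eval a = e c i * q'(a)`.  `NN e z 0 = q^2 (n 1 + n 2 + n 3)` and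
`NN e z 1 = q^2 (n 0 - n 2 + n 3)` vanish, so the signs satisfy `s₁ + s₂ + s₃ = 0`, `s₀ - s₂ + s₃ = 0` in `κ`: the
first forces `s₂ = s₃`, then `s₀ = 0`. -/
theorem caseA {z : Fin 4 → Fin 3 → κ} {e : Fin 4 → Fin 3 → ℤ} (he : ∀ c i, e c i = 1 ∨ e c i = -1)
    (hq : ∀ c, Qp (z c) = Qp (z 0)) (hz : ∃ c i c' i', z c i ≠ z c' i') (h0 : NN e z 0 = 0)
    (h1 : NN e z 1 = 0) : False := by
  obtain ⟨a, ha, ha'⟩ := BK2_simple hq hz
  choose s hs hn using fun c => BK2_np (he c) (z := z c) (a := a) (by rw [hq c]; exact ha)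
  have q0 : Qp (z 0) ≠ 0 := fun h => ha' (by rw [h]; simp)
  simp only [hq] at hn
  have e0 : NN e z 0 = Qp (z 0) ^ 2 * (np (e 1) (z 1) + np (e 2) (z 2) + np (e 3) (z 3)) := by
    change np (e 1) (z 1) * Qp (z 2) * Qp (z 3) + np (e 2) (z 2) * Qp (z 1) * Qp (z 3) +
      np (e 3) (z 3) * Qp (z 1) * Qp (z 2) = _
    rw [hq 1, hq 2, hq 3]
    ring
  have e1 : NN e z 1 = Qp (z 0) ^ 2 * (np (e 0) (z 0) - np (e 2) (z 2) + np (e 3) (z 3)) := by
    change np (e 0) (z 0) * Qp (z 2) * Qp (z 3) - np (e 2) (z 2) * Qp (z 0) * Qp (z 3) +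
      np (e 3) (z 3) * Qp (z 0) * Qp (z 2) = _
    rw [hq 2, hq 3]
    ring
  have f0 := congrArg (Polynomial.eval a) ((mul_eq_zero.1 (e0.symm.trans h0)).resolve_left (pow_ne_zero 2 q0))
  have f1 := congrArg (Polynomial.eval a) ((mul_eq_zero.1 (e1.symm.trans h1)).resolve_left (pow_ne_zero 2 q0))
  rw [eval_add, eval_add, hn, hn, hn, eval_zero, ← add_mul, ← add_mul] at f0
  rw [eval_add, eval_sub, hn, hn, hn, eval_zero, ← sub_mul, ← add_mul] at f1
  have g0 := (BK2_sum (hs 1) (hs 2) (hs 3) ((mul_eq_zero.1 f0).resolve_right ha'))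
  have g1 := (mul_eq_zero.1 f1).resolve_right ha'
  rw [g0.1, g0.2, sub_add_cancel] at g1
  rcases hs 0 with h | h <;> simp [h] at g1

/-- a cubic with zero derivative is `(X - a)^3` -/
theorem Qp_der_zero {z : Fin 3 → κ} (h : derivative (Qp z) = 0) : ∀ i, z i = z 0 := by
  have e0 := congrArg (Polynomial.eval (z 0)) h
  have e1 := congrArg (Polynomial.eval (z 1)) h
  have e2 := congrArg (Polynomial.eval (z 2)) h
  rw [BK2_der, eval_zero] at e0 e1 e2
  have : z 1 = z 0 ∧ z 2 = z 0 := by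
    rcases mul_eq_zero.1 (show (z 0 - z 1) * (z 0 - z 2) = 0 by linear_combination e0) with h1 | h1
    · have h2 := (sub_eq_zero.1 h1).symm
      rw [h2] at e2
      exact ⟨h2, sub_eq_zero.1 (pow_eq_zero_iff two_ne_zero |>.1 (by linear_combination e2))⟩
    · have h2 := (sub_eq_zero.1 h1).symm
      rw [h2] at e1
      exact ⟨sub_eq_zero.1 (pow_eq_zero_iff two_ne_zero |>.1 (by linear_combination e1)), h2⟩
  intro i
  fin_cases i
  · rfl
  · exact this.1
  · exact this.2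

/-- `np (e c) (z c) = (∑ e c i) (X - a c)^2`, `Qp (z c) = (X - a c)^3`.  Take the second derivative of
`NN e z 0 = 0`, `NN e z 1 = 0` and evaluate at `a c` (or divide by `(X - a c)^2` and evaluate): `∑ e c i = 0` in
`κ`, so the three signs agree. -/
theorem signs {a : Fin 4 → κ} (ha : Injective a) {e : Fin 4 → Fin 3 → ℤ}
    (he : ∀ c i, e c i = 1 ∨ e c i = -1) (h0 : NN e (fun c _ => a c) 0 = 0)
    (h1 : NN e (fun c _ => a c) 1 = 0) (c : Fin 4) (i : Fin 3) : e c i = e c 0 := by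
  have d : ∀ {c c' : Fin 4}, c ≠ c' → a c ≠ a c' := fun h e => h (ha e)
  have hn : ∀ c, np (e c) (fun _ => a c) =
      C ((e c 0 : κ) + e c 1 + e c 2) * (X - C (a c)) ^ 2 := fun c => by
    simp only [np, map_add]
    ring
  have hq : ∀ c, Qp (fun _ : Fin 3 => a c) = (X - C (a c)) ^ 3 := fun c => by
    simp only [Qp]
    ring
  have f0 := BK2_three (d (c := 1) (c' := 2) (by decide)) (d (c := 1) (c' := 3) (by decide))
    (d (c := 2) (c' := 3) (by decide)) (s₁ := (e 1 0 : κ) + e 1 1 + e 1 2)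
    (s₂ := (e 2 0 : κ) + e 2 1 + e 2 2) (s₃ := (e 3 0 : κ) + e 3 1 + e 3 2) (by
      rw [← hn, ← hn, ← hn, ← hq, ← hq, ← hq]
      exact h0)
  have f1 := BK2_three (d (c := 0) (c' := 2) (by decide)) (d (c := 0) (c' := 3) (by decide))
    (d (c := 2) (c' := 3) (by decide)) (s₁ := (e 0 0 : κ) + e 0 1 + e 0 2)
    (s₂ := -((e 2 0 : κ) + e 2 1 + e 2 2)) (s₃ := (e 3 0 : κ) + e 3 1 + e 3 2) (by
      rw [map_neg, neg_mul, neg_mul, neg_mul, ← sub_eq_add_neg, ← hn, ← hn, ← hn, ← hq, ← hq, ← hq]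
      exact h1)
  have hs : (e c 0 : κ) + e c 1 + e c 2 = 0 := by
    fin_cases c
    · exact f1.1
    · exact f0.1
    · exact f0.2.1
    · exact f0.2.2
  have := BK2_sum (he c 0) (he c 1) (he c 2) hs
  fin_cases i
  · rfl
  · exact this.1
  · exact this.2

end Pool.Agent.MP_deef5c_ag.E

end

section

/-! The second degenerate limit: linear algebra in the residue field. -/

open Polynomial IsLocalRing Function

namespace Pool.Agent.MP_deef5c_ag.E

universe u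

variable {κ : Type u} [Field κ] [CharP κ 3]

theorem BK3_three : (3 : κ) = 0 := by
  exact_mod_cast CharP.cast_eq_zero κ 3

theorem BK3_gam {L γ : Fin 4 → κ} (hL : ∀ j, L j ≠ 0) (l2 : L 2 = L 0 + L 1)
    (l3 : L 3 = L 0 - L 1) (g2 : L 2 * γ 2 = L 0 * γ 0 + L 1 * γ 1)
    (g3 : L 3 * γ 3 = L 0 * γ 0 - L 1 * γ 1) (h : γ 0 ≠ γ 1) :
    ∃ u : κ, u ≠ 0 ∧ γ 0 - γ 1 = L 2 * L 3 * u ∧ γ 0 - γ 2 = L 1 * L 3 * u ∧
      γ 2 - γ 1 = L 0 * L 3 * u ∧ γ 3 - γ 0 = L 1 * L 2 * u ∧ γ 3 - γ 1 = L 0 * L 2 * u ∧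
      γ 2 - γ 3 = L 0 * L 1 * u := by
  have h2 := hL 2
  have h3 := hL 3
  obtain ⟨u, hu⟩ : ∃ u, γ 0 - γ 1 = L 2 * L 3 * u :=
    ⟨(γ 0 - γ 1) / (L 2 * L 3), by field_simp⟩
  have e1 : γ 2 - γ 1 = L 0 * L 3 * u := by
    apply mul_left_cancel₀ h2
    linear_combination g2 + L 0 * hu - γ 1 * l2
  have e2 : γ 3 - γ 1 = L 0 * L 2 * u := by
    apply mul_left_cancel₀ h3
    linear_combination g3 + L 0 * hu - γ 1 * l3
  refine ⟨u, fun h0 => h (sub_eq_zero.1 (by rw [hu, h0, mul_zero])), hu, ?_, e1, ?_, e2, ?_⟩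
  · linear_combination hu - e1 + L 3 * u * l2
  · linear_combination e2 - hu - L 2 * u * l3
  · linear_combination e1 - e2 + L 0 * u * l3 - L 0 * u * l2 - L 0 * L 1 * u * BK3_three (κ := κ)

omit [CharP κ 3] in
theorem BK3_NQ0 (n q : Fin 4 → κ) :
    NQ n q 0 = n 1 * q 2 * q 3 + n 2 * q 1 * q 3 + n 3 * q 1 * q 2 := rfl

omit [CharP κ 3] in
theorem BK3_NQ1 (n q : Fin 4 → κ) :
    NQ n q 1 = n 0 * q 2 * q 3 - n 2 * q 0 * q 3 + n 3 * q 0 * q 2 := rfl

omit [CharP κ 3] in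
theorem BK3_der (n q : Fin 4 → κ[X]) (hq : ∀ c, derivative (q c) = 0) (j : Fin 4) :
    derivative (NQ n q j) = NQ (fun c => derivative (n c)) q j := by
  fin_cases j <;> simp [NQ, hq]

omit [CharP κ 3] in
theorem BK3_eval (n q : Fin 4 → κ[X]) (x : κ) (j : Fin 4) :
    (NQ n q j).eval x = NQ (fun c => (n c).eval x) (fun c => (q c).eval x) j := by
  fin_cases j <;> simp [NQ]

theorem BK3_form {A B s0 s1 s2 s3 : κ} (hA : A ≠ 0) (hB : B ≠ 0) (hp : A + B ≠ 0) (hm : A - B ≠ 0)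
    (h0 : s0 = 1 ∨ s0 = -1) (h1 : s1 = 1 ∨ s1 = -1) (h2 : s2 = 1 ∨ s2 = -1)
    (h3 : s3 = 1 ∨ s3 = -1) : s0 * A - s1 * B - s2 * (A + B) + s3 * (A - B) ≠ 0 := by
  intro h
  have h4 : (3 : κ) = 0 := BK3_three
  rcases h0 with rfl | rfl <;> rcases h1 with rfl | rfl <;> rcases h2 with rfl | rfl <;>
    rcases h3 with rfl | rfl <;> grind

/-- With `Δ = γ 0 - γ 1`: `γ 2 - γ 0 = -L 1 Δ / L 2`, `γ 2 - γ 1 = L 0 Δ / L 2`, `γ 3 - γ 0 = L 1 Δ / L 3`,
`γ 3 - γ 1 = L 0 Δ / L 3`, `γ 2 - γ 3 = L 0 L 1 Δ / (L 2 L 3)`. -/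
theorem gam_inj {L γ : Fin 4 → κ} (hL : ∀ j, L j ≠ 0) (l2 : L 2 = L 0 + L 1) (l3 : L 3 = L 0 - L 1)
    (g2 : L 2 * γ 2 = L 0 * γ 0 + L 1 * γ 1) (g3 : L 3 * γ 3 = L 0 * γ 0 - L 1 * γ 1)
    (h : γ 0 ≠ γ 1) : Injective γ := by
  obtain ⟨u, hu, e1, e2, e3, e4, e5, e6⟩ := BK3_gam hL l2 l3 g2 g3 h
  have k : ∀ {x y : κ} {i j : Fin 4}, x - y = L i * L j * u → x ≠ y := fun {x y i j} e =>
    sub_ne_zero.1 (e ▸ mul_ne_zero (mul_ne_zero (hL i) (hL j)) hu)
  have k2 := k e2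
  have k3 := k e3
  have k4 := k e4
  have k5 := k e5
  have k6 := k e6
  intro i j hij
  fin_cases i <;> fin_cases j <;>
    first
    | rfl
    | exact absurd hij h
    | exact absurd hij h.symm
    | exact absurd hij k2
    | exact absurd hij k2.symm
    | exact absurd hij k3
    | exact absurd hij k3.symm
    | exact absurd hij k4
    | exact absurd hij k4.symm
    | exact absurd hij k5
    | exact absurd hij k5.symm
    | exact absurd hij k6
    | exact absurd hij k6.symm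

/-- `γ c = -(t c)^3`.  Differentiate `h0`, `h1` (cubes have derivative zero) and evaluate at `t c`: `a c = 0`.
Evaluate `h0`, `h1` at `t c`; with `K = d L 2 L 3 / (L 0 L 1 Δ^2)`: `L 0 b 0 = - s 0 K (L 0)^2`,
`L 1 b 1 = s 1 K (L 1)^2`, `L 2 b 2 = s 2 K (L 2)^2`, `L 3 b 3 = - s 3 K (L 3)^2`.  The terms with `r` are
`η / L 2` and `- η / L 3`, `η = r Δ (Y 0 L 1 - Y 1 L 0)`.  So `L 2 * r2 + L 3 * r3` reads
`K (s 0 L 0 - s 1 L 1 - s 2 L 2 + s 3 L 3)^3 = 0`; the linear form is `m L 0 + n L 1` with `m, n ∈ F_3` not both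
zero, so it is `± L j ≠ 0`.  Hence `d = 0`, `b = 0`, `η = 0`. -/
theorem caseB {L Y t a b : Fin 4 → κ} {s : Fin 4 → ℤ} {d r : κ} (hs : ∀ c, s c = 1 ∨ s c = -1)
    (hL : ∀ j, L j ≠ 0) (l2 : L 2 = L 0 + L 1) (l3 : L 3 = L 0 - L 1) (y2 : Y 2 = Y 0 + Y 1)
    (y3 : Y 3 = Y 0 - Y 1) (hd : L 0 * Y 1 - L 1 * Y 0 ≠ 0)
    (g2 : L 2 * t 2 ^ 3 = L 0 * t 0 ^ 3 + L 1 * t 1 ^ 3)
    (g3 : L 3 * t 3 ^ 3 = L 0 * t 0 ^ 3 - L 1 * t 1 ^ 3) (ht : t 0 ≠ t 1)
    (h0 : NQ (fun c => C (s c : κ) * (C (2 * a c) * X + C (b c))) (fun c => X ^ 3 - C (t c ^ 3)) 0 =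
      C (d * L 0))
    (h1 : NQ (fun c => C (s c : κ) * (C (2 * a c) * X + C (b c))) (fun c => X ^ 3 - C (t c ^ 3)) 1 =
      C (d * L 1))
    (r2 : L 0 * b 0 + L 1 * b 1 - L 2 * b 2 -
      r * (Y 0 * t 0 ^ 3 + Y 1 * t 1 ^ 3 - Y 2 * t 2 ^ 3) = 0)
    (r3 : L 0 * b 0 - L 1 * b 1 - L 3 * b 3 -
      r * (Y 0 * t 0 ^ 3 - Y 1 * t 1 ^ 3 - Y 3 * t 3 ^ 3) = 0) :
    d = 0 ∧ r = 0 ∧ (∀ c, a c = 0) ∧ ∀ c, b c = 0 := by
  have h3 : (3 : κ) = 0 := BK3_three
  have ht' : t 0 ^ 3 ≠ t 1 ^ 3 := fun h => ht (by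
    have h4 : (t 0 - t 1) ^ 3 = 0 := by
      linear_combination h + (t 0 * t 1 ^ 2 - t 0 ^ 2 * t 1) * h3
    exact sub_eq_zero.1 (pow_eq_zero_iff (by norm_num) |>.1 h4))
  obtain ⟨u, hu, -, e2, e3, e4, e5, e6⟩ := BK3_gam (γ := fun c => t c ^ 3) hL l2 l3 g2 g3 ht'
  have hs' : ∀ c, (s c : κ) = 1 ∨ (s c : κ) = -1 := fun c => by
    rcases hs c with h | h <;> simp [h]
  have hs2 : ∀ c, (s c : κ) * s c = 1 := fun c => by
    rcases hs' c with h | h <;> simp [h]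
  have hs0 : ∀ c, (s c : κ) ≠ 0 := fun c => left_ne_zero_of_mul_eq_one (hs2 c)
  have h2 : (2 : κ) ≠ 0 := fun h => one_ne_zero (by linear_combination h3 - h : (1 : κ) = 0)
  have hq : ∀ c, derivative (X ^ 3 - C (t c ^ 3) : κ[X]) = 0 := fun c => by
    rw [derivative_sub, derivative_C, derivative_X_pow, Nat.cast_ofNat, h3, C_0, zero_mul, sub_zero]
  have E0 := fun x => congrArg (Polynomial.eval x) h0
  have E1 := fun x => congrArg (Polynomial.eval x) h1
  have D0 := fun x => congrArg (Polynomial.eval x) (congrArg derivative h0)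
  have D1 := fun x => congrArg (Polynomial.eval x) (congrArg derivative h1)
  simp only [BK3_der _ _ hq] at D0 D1
  simp only [BK3_eval, derivative_mul, derivative_C, derivative_add, derivative_X, eval_mul, eval_add,
    eval_sub, eval_C, eval_X, eval_pow, eval_zero, zero_mul, zero_add, add_zero, mul_one]
    at E0 E1 D0 D1
  simp only [BK3_NQ0, BK3_NQ1] at E0 E1 D0 D1
  have k : ∀ {x : κ} (c i j i' j' : Fin 4), s c * 2 * (L i * L j * u) * (L i' * L j' * u) * x = 0 →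
      x = 0 := fun c i j i' j' h => (mul_eq_zero.1 h).resolve_left (mul_ne_zero (mul_ne_zero
        (mul_ne_zero (hs0 c) h2) (mul_ne_zero (mul_ne_zero (hL i) (hL j)) hu))
        (mul_ne_zero (mul_ne_zero (hL i') (hL j')) hu))
  have a0 : a 0 = 0 := k 0 1 3 1 2 (by rw [← e2, ← e4]; linear_combination -D1 (t 0))
  have a1 : a 1 = 0 := k 1 0 3 0 2 (by rw [← e3, ← e5]; linear_combination D0 (t 1))
  have a2 : a 2 = 0 := k 2 0 3 0 1 (by rw [← e3, ← e6]; linear_combination D0 (t 2))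
  have a3 : a 3 = 0 := k 3 0 2 0 1 (by rw [← e5, ← e6]; linear_combination -D0 (t 3))
  have f0 : -(s 0 * b 0 * (L 1 * L 3 * u) * (L 1 * L 2 * u)) = d * L 1 := by
    rw [← e2, ← e4]
    linear_combination E1 (t 0) - s 0 * 2 * t 0 * (t 0 ^ 3 - t 2 ^ 3) * (t 0 ^ 3 - t 3 ^ 3) * a0
  have f1 : s 1 * b 1 * (L 0 * L 3 * u) * (L 0 * L 2 * u) = d * L 0 := by
    rw [← e3, ← e5]
    linear_combination E0 (t 1) - s 1 * 2 * t 1 * (t 1 ^ 3 - t 2 ^ 3) * (t 1 ^ 3 - t 3 ^ 3) * a1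
  have f2 : s 2 * b 2 * (L 0 * L 3 * u) * (L 0 * L 1 * u) = d * L 0 := by
    rw [← e3, ← e6]
    linear_combination E0 (t 2) - s 2 * 2 * t 2 * (t 2 ^ 3 - t 1 ^ 3) * (t 2 ^ 3 - t 3 ^ 3) * a2
  have f3 : -(s 3 * b 3 * (L 0 * L 2 * u) * (L 0 * L 1 * u)) = d * L 0 := by
    rw [← e5, ← e6]
    linear_combination E0 (t 3) - s 3 * 2 * t 3 * (t 3 ^ 3 - t 1 ^ 3) * (t 3 ^ 3 - t 2 ^ 3) * a3
  have hN : L 0 * L 1 * L 2 * L 3 * u ^ 2 ≠ 0 := mul_ne_zero (mul_ne_zero (mul_ne_zero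
    (mul_ne_zero (hL 0) (hL 1)) (hL 2)) (hL 3)) (pow_ne_zero 2 hu)
  obtain ⟨K, hK⟩ : ∃ K, d = K * (L 0 * L 1 * L 2 * L 3 * u ^ 2) :=
    ⟨d / _, (div_mul_cancel₀ d hN).symm⟩
  have b0 : b 0 = -(s 0 * K * L 0) := by
    apply mul_left_cancel₀ (mul_ne_zero (hL 1) hN)
    linear_combination -(s 0 * L 0) * f0 - s 0 * L 0 * L 1 * hK -
      L 0 * L 1 ^ 2 * L 2 * L 3 * u ^ 2 * b 0 * hs2 0
  have b1 : b 1 = s 1 * K * L 1 := by
    apply mul_left_cancel₀ (mul_ne_zero (hL 0) hN)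
    linear_combination s 1 * L 1 * f1 + s 1 * L 0 * L 1 * hK -
      L 0 ^ 2 * L 1 * L 2 * L 3 * u ^ 2 * b 1 * hs2 1
  have b2 : b 2 = s 2 * K * L 2 := by
    apply mul_left_cancel₀ (mul_ne_zero (hL 0) hN)
    linear_combination s 2 * L 2 * f2 + s 2 * L 0 * L 2 * hK -
      L 0 ^ 2 * L 1 * L 2 * L 3 * u ^ 2 * b 2 * hs2 2
  have b3 : b 3 = -(s 3 * K * L 3) := by
    apply mul_left_cancel₀ (mul_ne_zero (hL 0) hN)
    linear_combination -(s 3 * L 3) * f3 - s 3 * L 0 * L 3 * hK -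
      L 0 ^ 2 * L 1 * L 2 * L 3 * u ^ 2 * b 3 * hs2 3
  have r2' : L 0 * b 0 + L 1 * b 1 - L 2 * b 2 + r * u * L 3 * (L 0 * Y 1 - L 1 * Y 0) = 0 := by
    linear_combination r2 - r * t 2 ^ 3 * y2 + r * Y 0 * e2 - r * Y 1 * e3
  have r3' : L 0 * b 0 - L 1 * b 1 - L 3 * b 3 - r * u * L 2 * (L 0 * Y 1 - L 1 * Y 0) = 0 := by
    linear_combination r3 - r * t 3 ^ 3 * y3 - r * Y 0 * e4 + r * Y 1 * e5
  have c2 : L 2 ^ 3 = L 0 ^ 3 + L 1 ^ 3 := by
    rw [l2]
    linear_combination (L 0 ^ 2 * L 1 + L 0 * L 1 ^ 2) * h3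
  have c3 : L 3 ^ 3 = L 0 ^ 3 - L 1 ^ 3 := by
    rw [l3]
    linear_combination (L 0 * L 1 ^ 2 - L 0 ^ 2 * L 1) * h3
  have hF := BK3_form (pow_ne_zero 3 (hL 0)) (pow_ne_zero 3 (hL 1)) (c2 ▸ pow_ne_zero 3 (hL 2))
    (c3 ▸ pow_ne_zero 3 (hL 3)) (hs' 0) (hs' 1) (hs' 2) (hs' 3)
  rw [← c2, ← c3] at hF
  have hK0 : K = 0 := by
    refine (mul_eq_zero.1 ?_).resolve_left hF
    rw [b0, b1, b2] at r2'
    rw [b0, b1, b3] at r3'
    linear_combination L 2 * r2' + L 3 * r3' +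
      K * (s 0 * L 0 ^ 2 - s 1 * L 1 ^ 2) * l2 + K * (s 0 * L 0 ^ 2 + s 1 * L 1 ^ 2) * l3 +
      K * (s 0 * L 0 ^ 3 - s 1 * L 1 ^ 3) * h3
  rw [hK0, mul_zero, zero_mul] at b0 b1 b2 b3
  rw [neg_zero] at b0 b3
  refine ⟨by rw [hK, hK0, zero_mul], ?_, fun c => ?_, fun c => ?_⟩
  · refine (mul_eq_zero.1 ?_).resolve_left (mul_ne_zero (mul_ne_zero hu (hL 3)) hd)
    rw [b0, b1, b2] at r2'
    linear_combination r2'
  · fin_cases c
    exacts [a0, a1, a2, a3]
  · fin_cases c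
    exacts [b0, b1, b2, b3]

end Pool.Agent.MP_deef5c_ag.E

end

section

/-! No configuration over a valuation ring. -/

open Polynomial IsLocalRing Function

namespace Pool.Agent.MP_deef5c_ag.E

universe u

variable {V : Type u} [CommRing V] [IsDomain V] [ValuationRing V] {ρ δ : V} {z : Fin 4 → Fin 3 → V}
  {e : Fin 4 → Fin 3 → ℤ} {G : Fin 4 → V[X]} {y : Fin 4 → V}

theorem BFin_Qp {R : Type u} [CommRing R] (T : Fin 3 → R) :
    Qp T = X ^ 3 + C (-(T 0 + T 1 + T 2)) * X ^ 2 + C (T 0 * T 1 + T 0 * T 2 + T 1 * T 2) * X +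
      C (-(T 0 * T 1 * T 2)) := by
  simp only [Qp, map_neg, map_add, map_mul]
  ring

theorem BFin_monic {R : Type u} [CommRing R] [Nontrivial R] (T : Fin 3 → R) :
    (Qp T).Monic ∧ (Qp T).natDegree = 3 := by
  have h01 := (monic_X_sub_C (T 0)).mul (monic_X_sub_C (T 1))
  refine ⟨h01.mul (monic_X_sub_C _), ?_⟩
  rw [Qp, h01.natDegree_mul (monic_X_sub_C _), (monic_X_sub_C _).natDegree_mul (monic_X_sub_C _)]
  simp

theorem BFin_cube {κ : Type u} [Field κ] [CharP κ 3] (a : κ) :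
    (Qp fun _ => a) = X ^ 3 - C (a ^ 3) := by
  have h3 : (3 : κ[X]) = 0 := by
    have h := CharP.cast_eq_zero κ 3
    rw [← map_ofNat C 3, show (OfNat.ofNat 3 : κ) = ((3 : ℕ) : κ) by simp, h, map_zero]
  simp only [Qp, map_pow]
  linear_combination (X * C a ^ 2 - X ^ 2 * C a) * h3

theorem BFin_np {R : Type u} [CommRing R] {s : Fin 3 → ℤ} (hs : ∀ i, s i = s 0) {T : Fin 3 → R}
    {μ m a b : R} (hm : 3 = μ * m) (ha : -(T 0 + T 1 + T 2) = μ * a)
    (hb : T 0 * T 1 + T 0 * T 2 + T 1 * T 2 = μ * b) :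
    np s T = C μ * (C (s 0 : R) * (C m * X ^ 2 + C (2 * a) * X + C b)) := by
  have h1 := congrArg C hm
  have h2 := congrArg C ha
  have h3 := congrArg C hb
  simp only [map_neg, map_add, map_mul, map_ofNat] at h1 h2 h3
  rw [np, hs 1, hs 2, map_mul, map_ofNat]
  linear_combination C (s 0 : R) * (X ^ 2 * h1 + 2 * X * h2 + h3)

theorem BFin_NQ_mul {P : Type u} [CommRing P] (c : P) (n q : Fin 4 → P) (j : Fin 4) :
    NQ (fun i => c * n i) q j = c * NQ n q j := by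
  fin_cases j <;> simp [NQ] <;> ring

theorem BFin_NQ_map {P P' : Type u} [CommRing P] [CommRing P'] (φ : P →+* P') (n q : Fin 4 → P)
    (j : Fin 4) : φ (NQ n q j) = NQ (fun i => φ (n i)) (fun i => φ (q i)) j := by
  fin_cases j <;> simp [NQ]

theorem BFin_coeff {R : Type u} [CommRing R] (g : R[X]) (T : Fin 3 → R) :
    (g * Qp T).coeff 1 = g.coeff 0 * (T 0 * T 1 + T 0 * T 2 + T 1 * T 2) +
      g.coeff 1 * -(T 0 * T 1 * T 2) := by
  rw [coeff_mul, Finset.Nat.antidiagonal_succ, Finset.sum_cons, Finset.Nat.antidiagonal_zero,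
    Finset.map_singleton, Finset.sum_singleton, BFin_Qp]
  simp only [coeff_add, coeff_X_pow, coeff_C_mul, coeff_X, coeff_C]
  simp

theorem BFin_L (h : SD ρ δ z e G y) {L : Fin 4 → ResidueField V}
    (hL : ∀ j, L j = residue V ((G j).coeff 0)) :
    (∀ j, L j ≠ 0) ∧ L 2 = L 0 + L 1 ∧ L 3 = L 0 - L 1 := by
  have h2 := (residue_eq_zero_iff _).2 h.l2
  have h3 := (residue_eq_zero_iff _).2 h.l3
  simp only [map_add, map_sub, ← hL] at h2 h3
  refine ⟨fun j => ?_, by linear_combination h2, by linear_combination h3⟩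
  rw [hL]
  exact ((h.hu j).map (residue V)).ne_zero

theorem BFin_g (h : SD ρ δ z e G y) {t L : Fin 4 → ResidueField V}
    (ht : ∀ c i, residue V (z c i) = t c) (hL : ∀ j, L j = residue V ((G j).coeff 0)) :
    L 2 * t 2 ^ 3 = L 0 * t 0 ^ 3 + L 1 * t 1 ^ 3 ∧
      L 3 * t 3 ^ 3 = L 0 * t 0 ^ 3 - L 1 * t 1 ^ 3 := by
  have := h.charP
  obtain ⟨h2, h3, -⟩ := h.red (q := fun c => X ^ 3 - C (t c ^ 3)) (fun c => by
    rw [← BFin_cube]
    exact congrArg Qp (funext fun i => (ht c i).symm)) hL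
  have h4 := congrArg (Polynomial.eval 0) h2
  have h5 := congrArg (Polynomial.eval 0) h3
  simp only [eval_mul, eval_add, eval_sub, eval_pow, eval_C, eval_X] at h4 h5
  exact ⟨by linear_combination -h4, by linear_combination -h5⟩

/-- The second rescaling.  `Qp (z c) = X^3 + α c X^2 + β c X + γ c` and `np (e c) (z c) = e c 0 * (Qp (z c))'`.
Let `μ` be the member of the family `δ, ρ, α c, β c` which divides all (`exists_dvd_all`, index type
`Bool ⊕ Fin 4 ⊕ Fin 4`); `μ ≠ 0`; write `δ = μ d`, `ρ = μ r`, `α = μ a`, `β = μ b`, so one of `d, r, a c, b c` is `1`,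
and `3 = μ m` with `m = - d δ ρ^16` in the maximal ideal.  Cancel `C μ` in `hN` and in the coefficient of `X^1` of
`SD.rel` (`G.coeff 0 * β + ρ y γ`), reduce, and apply `caseB` (`residue (γ c) = - t c ^ 3`). -/
theorem SD.false_b (h : SD ρ δ z e G y) {t : Fin 4 → ResidueField V}
    (ht : ∀ c i, residue V (z c i) = t c) (h01 : t 0 ≠ t 1) (he : ∀ c i, e c i = e c 0) : False := by
  have := h.charP
  let f : Bool ⊕ Fin 4 ⊕ Fin 4 → V := Sum.elim (fun b => if b then δ else ρ)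
    (Sum.elim (fun c => -(z c 0 + z c 1 + z c 2))
      fun c => z c 0 * z c 1 + z c 0 * z c 2 + z c 1 * z c 2)
  obtain ⟨i₀, hi₀⟩ := exists_dvd_all f
  choose g hg using hi₀
  obtain ⟨μ, hμ⟩ : ∃ μ, μ = f i₀ := ⟨_, rfl⟩
  rw [← hμ] at hg
  obtain ⟨d, hd⟩ : ∃ d, d = g (.inl true) := ⟨_, rfl⟩
  obtain ⟨r, hr⟩ : ∃ r, r = g (.inl false) := ⟨_, rfl⟩
  obtain ⟨a, ha⟩ : ∃ a : Fin 4 → V, ∀ c, a c = g (.inr (.inl c)) := ⟨_, fun _ => rfl⟩
  obtain ⟨b, hb⟩ : ∃ b : Fin 4 → V, ∀ c, b c = g (.inr (.inr c)) := ⟨_, fun _ => rfl⟩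
  have hδ : δ = μ * d := by
    rw [hd]
    exact hg (.inl true)
  have hρ : ρ = μ * r := by
    rw [hr]
    exact hg (.inl false)
  have hα : ∀ c, -(z c 0 + z c 1 + z c 2) = μ * a c := fun c => by
    rw [ha]
    exact hg (.inr (.inl c))
  have hβ : ∀ c, z c 0 * z c 1 + z c 0 * z c 2 + z c 1 * z c 2 = μ * b c := fun c => by
    rw [hb]
    exact hg (.inr (.inr c))
  have hμ0 : μ ≠ 0 := by
    rintro rfl
    exact h.δ0 (by rw [hδ, zero_mul])
  have hg1 : g i₀ = 1 := by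
    apply mul_left_cancel₀ hμ0
    rw [← hg, mul_one, hμ]
  have hρ0 : residue V ρ = 0 := (residue_eq_zero_iff _).2 h.hρ
  have hm : 3 = μ * -(d * δ * ρ ^ 16) := by
    have h1 := h.h3
    linear_combination h1 - δ * ρ ^ 16 * hδ
  obtain ⟨L, hL⟩ : ∃ L : Fin 4 → ResidueField V, ∀ j, L j = residue V ((G j).coeff 0) :=
    ⟨_, fun _ => rfl⟩
  obtain ⟨hL0, l2, l3⟩ := BFin_L h hL
  obtain ⟨g2, g3⟩ := BFin_g h ht hL
  have hN : ∀ j, NQ (fun c => C (e c 0 : ResidueField V) *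
      (C (2 * residue V (a c)) * X + C (residue V (b c)))) (fun c => X ^ 3 - C (t c ^ 3)) j =
        C (residue V d * L j) := by
    intro j
    have h1 := h.hN j
    rw [NN, funext fun c => BFin_np (he c) hm (hα c) (hβ c), BFin_NQ_mul] at h1
    have h2 : C δ * G j = C μ * (C d * G j) := by rw [hδ, map_mul, mul_assoc]
    have h3 := congrArg (mapRingHom (residue V))
      (mul_left_cancel₀ (C_ne_zero.2 hμ0) (h1.trans h2))
    rw [BFin_NQ_map, map_mul, coe_mapRingHom, h.mapG, map_C, ← map_mul, ← hL] at h3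
    rw [← h3]
    congr 1
    · funext c
      simp only [Polynomial.map_mul, Polynomial.map_add, Polynomial.map_pow, map_C, map_X]
      simp [hρ0, map_ofNat]
    · funext c
      rw [map_Qp, ← BFin_cube]
      exact congrArg Qp (funext fun i => (ht c i).symm)
  have hc : ∀ c, (G c * Qp (z c)).coeff 1 =
      μ * ((G c).coeff 0 * b c + r * y c * -(z c 0 * z c 1 * z c 2)) := fun c => by
    rw [BFin_coeff, hβ, h.hy]
    linear_combination y c * -(z c 0 * z c 1 * z c 2) * hρ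
  have hc' : ∀ c, residue V ((G c).coeff 0 * b c + r * y c * -(z c 0 * z c 1 * z c 2)) =
      L c * residue V (b c) - residue V r * (residue V (y c) * t c ^ 3) := fun c => by
    simp only [map_add, map_mul, map_neg, ht, ← hL]
    ring
  have key : ∀ (u : V) (p : V[X]), μ * u = (-(C (δ * ρ ^ 16) * p)).coeff 1 → residue V u = 0 := by
    intro u p hu
    rw [coeff_neg, coeff_C_mul] at hu
    have h1 : u = -(d * ρ ^ 16 * p.coeff 1) := by
      apply mul_left_cancel₀ hμ0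
      linear_combination hu - ρ ^ 16 * p.coeff 1 * hδ
    simp [h1, hρ0]
  have h2 := congrArg (coeff · 1) h.rel.1
  have h3 := congrArg (coeff · 1) h.rel.2
  simp only [coeff_add, coeff_sub, hc, ← mul_add, ← mul_sub] at h2 h3
  have h4 := key _ _ h2
  have h5 := key _ _ h3
  rw [map_sub, map_add, hc', hc', hc'] at h4
  rw [map_sub, map_sub, hc', hc', hc'] at h5
  have y2 := (residue_eq_zero_iff _).2 h.y2
  have y3 := (residue_eq_zero_iff _).2 h.y3
  have hdet := (h.hd.map (residue V)).ne_zero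
  simp only [map_add, map_sub, map_mul, ← hL] at y2 y3 hdet
  obtain ⟨k1, k2, k3, k4⟩ := caseB (L := L) (Y := fun c => residue V (y c)) (t := t)
    (a := fun c => residue V (a c)) (b := fun c => residue V (b c)) (s := fun c => e c 0)
    (d := residue V d) (r := residue V r) (fun c => h.he c 0) hL0 l2 l3
    (by linear_combination y2) (by linear_combination y3) hdet g2 g3 h01 (hN 0) (hN 1)
    (by linear_combination h4) (by linear_combination h5)
  have hall : ∀ i, residue V (g i) = 0 := by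
    rintro ((_ | _) | c | c)
    · rw [← hr, k2]
    · rw [← hd, k1]
    · rw [← ha, k3]
    · rw [← hb, k4]
  have h6 := hall i₀
  rw [hg1, map_one] at h6
  exact one_ne_zero h6

/-- `SD.red`, `classify`: the residue of `δ` is zero.  If `q 0 = q 1` all `q c` agree, use `caseA`.  Otherwise
all derivatives vanish, `Qp_der_zero`, `gam_inj` (for `γ c = t c ^ 3`, constant coefficients of the
relations), `signs`, `SD.false_b`. -/
theorem SD.false (h : SD ρ δ z e G y) : False := by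
  have := h.charP
  obtain ⟨L, hL⟩ : ∃ L : Fin 4 → ResidueField V, ∀ j, L j = residue V ((G j).coeff 0) :=
    ⟨_, fun _ => rfl⟩
  obtain ⟨q, hq⟩ : ∃ q : Fin 4 → (ResidueField V)[X], ∀ c, q c = Qp fun i => residue V (z c i) :=
    ⟨_, fun _ => rfl⟩
  obtain ⟨hL0, l2, l3⟩ := BFin_L h hL
  obtain ⟨r2, r3, hder, hN⟩ := h.red hq hL
  have hm : ∀ c, (q c).Monic ∧ (q c).natDegree = 3 := fun c => by
    rw [hq]
    exact BFin_monic _
  obtain ⟨hd, hcase⟩ := classify (q₂ := q 2) (q₃ := q 3) (hm 0).1 (hm 1).1 (hm 0).2 (hm 1).2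
    (hL0 0) (hL0 1) (by rw [← l2]; exact hL0 2) (by rw [← l3]; exact hL0 3)
    (by rw [← l2]; exact r2) (by rw [← l3]; exact r3) hder
  have hδ : residue V δ = 0 := by simpa [hL0 0] using hd
  have hN0 : ∀ j, NN e (fun c i => residue V (z c i)) j = 0 := fun j => by
    rw [hN, hδ, zero_mul, map_zero]
  by_cases h01 : q 0 = q 1
  · refine caseA h.he (fun c => ?_) ?_ (hN0 0) (hN0 1)
    · rw [← hq, ← hq]
      fin_cases c
      · rfl
      · exact h01.symm
      · apply mul_left_cancel₀ (C_ne_zero.2 (hL0 2))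
        change C (L 2) * q 2 = C (L 2) * q 0
        rw [r2, ← h01, l2, map_add, add_mul]
      · apply mul_left_cancel₀ (C_ne_zero.2 (hL0 3))
        change C (L 3) * q 3 = C (L 3) * q 0
        rw [r3, ← h01, l3, map_sub, sub_mul]
    · obtain ⟨c, i, c', i', hz⟩ := h.hz
      refine ⟨c, i, c', i', ?_⟩
      have h1 := (hz.map (residue V)).ne_zero
      rwa [map_sub, sub_ne_zero] at h1
  · obtain ⟨d0, d1⟩ := hcase.resolve_left h01
    have hdq : ∀ c, derivative (q c) = 0 := by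
      intro c
      fin_cases c
      · exact d0
      · exact d1
      · have h1 := congrArg derivative r2
        rw [map_add, derivative_C_mul, derivative_C_mul, derivative_C_mul, d0, d1, mul_zero,
          mul_zero, add_zero] at h1
        exact (mul_eq_zero.1 h1).resolve_left (C_ne_zero.2 (hL0 2))
      · have h1 := congrArg derivative r3
        rw [map_sub, derivative_C_mul, derivative_C_mul, derivative_C_mul, d0, d1, mul_zero,
          mul_zero, sub_zero] at h1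
        exact (mul_eq_zero.1 h1).resolve_left (C_ne_zero.2 (hL0 3))
    obtain ⟨t, ht⟩ : ∃ t : Fin 4 → ResidueField V, ∀ c i, residue V (z c i) = t c :=
      ⟨fun c => residue V (z c 0), fun c =>
        Qp_der_zero (z := fun i => residue V (z c i)) (by rw [← hq]; exact hdq c)⟩
    have hz : (fun c i => residue V (z c i)) = fun c _ => t c := by
      funext c i
      exact ht c i
    have ht01 : t 0 ≠ t 1 := fun h1 => h01 (by
      rw [hq, hq, congrFun hz 0, congrFun hz 1, h1])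
    obtain ⟨g2, g3⟩ := BFin_g h ht hL
    have hne : t 0 ^ 3 ≠ t 1 ^ 3 := fun h1 => ht01 (by
      have h3 : (3 : ResidueField V) = 0 := by exact_mod_cast CharP.cast_eq_zero (ResidueField V) 3
      have h2 : (t 0 - t 1) ^ 3 = 0 := by
        linear_combination h1 + (t 0 * t 1 ^ 2 - t 0 ^ 2 * t 1) * h3
      exact sub_eq_zero.1 (pow_eq_zero_iff (by norm_num) |>.1 h2))
    have hinj := gam_inj (γ := fun c => t c ^ 3) hL0 l2 l3 g2 g3 hne
    rw [hz] at hN0
    have hti : Injective t := fun c c' h1 => hinj (congrArg (· ^ 3) h1)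
    exact h.false_b ht ht01 (signs hti h.he (hN0 0) (hN0 1))

end Pool.Agent.MP_deef5c_ag.E

end
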