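import Pool.Agent.Mg.Fdeef5c.G59577e
import Pool.Agent.MP_deef5c_ag.O.Stm
import Pool.Agent.Mg.Fdeef5c.Gbae07f

section

/-! Norms, traces and relations. -/

open PowerSeries IsLocalRing Finset Function
open scoped Polynomial

namespace Pool.Agent.MP_deef5c_ag.O

universe u

section Ring
variable {D : Type u} [CommRing D]

theorem SpA_succ (σ : En D) (i : ℕ) (f : D⟦X⟧) : σ ((σ ^ i) f) = (σ ^ (i + 1)) f := by
  rw [pow_succ', AlgHom.mul_apply]

theorem SpA_lin (σ : En D) (i : ℕ) (f : D⟦X⟧) : (σ.toLinearMap ^ i) f = (σ ^ i) f := by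
  induction i with
  | zero => rfl
  | succ i ih => rw [pow_succ', Module.End.mul_apply, ih, ← SpA_succ, AlgHom.toLinearMap_apply]

theorem en_inj {σ : En D} {N : ℕ} (hN : 0 < N) (h : σ ^ N = 1) : Injective σ := by
  obtain ⟨M, rfl⟩ : ∃ M, N = M + 1 := ⟨N - 1, by omega⟩
  refine LeftInverse.injective (g := (σ ^ M : En D)) fun f => ?_
  rw [← AlgHom.mul_apply, ← pow_succ, h, AlgHom.one_apply]

theorem nrm_inv {σ : En D} {q : ℕ} (h : σ ^ q = 1) (f : D⟦X⟧) : σ (nrm σ q f) = nrm σ q f := by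
  cases q with
  | zero => simp [nrm]
  | succ m =>
    simp only [nrm, map_prod, SpA_succ]
    rw [prod_range_succ, h, prod_range_succ', pow_zero]

theorem trc_inv {σ : En D} {q : ℕ} (h : σ ^ q = 1) (f : D⟦X⟧) : σ (trc σ q f) = trc σ q f := by
  cases q with
  | zero => simp [trc]
  | succ m =>
    simp only [trc, map_sum, SpA_succ]
    rw [sum_range_succ, h, sum_range_succ', pow_zero]

theorem pow_sub_eq_trc (σ : En D) (a : ℕ) (f : D⟦X⟧) : (σ ^ a) f - f = trc σ a (σ f - f) := by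
  have := sum_range_sub (fun i => (σ ^ i) f) a
  simp only [pow_zero, AlgHom.one_apply] at this
  rw [← this, trc]
  refine sum_congr rfl fun i _ => ?_
  rw [map_sub, pow_succ, AlgHom.mul_apply]

theorem rel_pow {τ σ : En D} {α : ℕ} (h : τ * σ = σ ^ α * τ) (i j : ℕ) :
    τ ^ j * σ ^ i = σ ^ (α ^ j * i) * τ ^ j := by
  have h1 : ∀ i : ℕ, τ * σ ^ i = σ ^ (α * i) * τ := by
    intro i
    induction i with
    | zero => simp
    | succ i ih => rw [pow_succ, ← mul_assoc, ih, mul_assoc, h, ← mul_assoc, ← pow_add, mul_add, mul_one]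
  induction j with
  | zero => simp
  | succ j ih =>
    rw [pow_succ', mul_assoc, ih, ← mul_assoc, h1, mul_assoc, ← mul_assoc α, ← pow_succ' α]

/-- `i ↦ α i` permutes the residues mod `q` -/
theorem tau_nrm {q α : ℕ} {z : D} {σ : En D} (h : Rel q α z σ) (hα : α.Coprime q) :
    tau z (nrm σ q X) = C (z ^ q) * nrm σ q X := by
  have h1 : ∀ i, tau z ((σ ^ i) X) = C z * (σ ^ (α * i % q)) X := by
    intro i
    have h2 := rel_pow h.2 i 1
    simp only [pow_one] at h2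
    rw [← AlgHom.mul_apply, h2, AlgHom.mul_apply, tau_X, map_mul, ← pow_eq_pow_mod _ h.1]
    congr 1
    exact (σ ^ (α * i)).commutes z
  simp only [nrm, map_prod, h1, prod_mul_distrib, prod_const, card_range, map_pow]
  congr 1
  have h3 : Set.MapsTo (fun i => α * i % q) (range q) (range q) := fun i hi =>
    mem_coe.2 (mem_range.2 (Nat.mod_lt _ (Nat.zero_lt_of_lt (mem_range.1 (mem_coe.1 hi)))))
  have h4 : Set.InjOn (fun i => α * i % q) (range q) := fun i hi j hj hij =>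
    Nat.ModEq.eq_of_lt_of_lt (Nat.ModEq.cancel_left_of_coprime hα.symm hij)
      (mem_range.1 (mem_coe.1 hi)) (mem_range.1 (mem_coe.1 hj))
  exact prod_nbij (fun i => α * i % q) h3 h4 (surjOn_of_injOn_of_card_le _ h3 h4 le_rfl)
    fun _ _ => rfl

/-- `(T - 1)^(q-1) = ∑_{i<q} T^i` and `(T-1)^q = T^q - 1` in characteristic `p` -/
theorem dl_pow (p n : ℕ) [Fact p.Prime] [CharP D p] {σ : En D} (h : σ ^ p ^ n = 1) (f : D⟦X⟧) :
    (dl σ ^ (p ^ n - 1)) f = trc σ (p ^ n) f ∧ (dl σ ^ p ^ n) f = 0 := by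
  have hq : 0 < p ^ n := pow_pos (Fact.out : p.Prime).pos n
  have h1 : (Polynomial.X - 1 : D[X]) ^ p ^ n = Polynomial.X ^ p ^ n - 1 := by
    rw [sub_pow_char_pow, one_pow]
  have h2 : (Polynomial.X - 1 : D[X]) ^ (p ^ n - 1) = ∑ i ∈ range (p ^ n), Polynomial.X ^ i := by
    refine (Polynomial.monic_X_sub_C (1 : D)).isRegular.right ?_
    simp only [Polynomial.C_1]
    rw [geom_sum_mul, ← pow_succ, Nat.sub_add_cancel hq, h1]
  have h3 := congrArg (Polynomial.aeval σ.toLinearMap) h1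
  have h4 := congrArg (Polynomial.aeval σ.toLinearMap) h2
  simp only [map_pow, map_sub, map_sum, map_one, Polynomial.aeval_X] at h3 h4
  rw [dl, h3, h4]
  simp [trc, SpA_lin, h]

end Ring

end Pool.Agent.MP_deef5c_ag.O

end

section

/-! Automorphisms of finite order of a power series ring over a field. -/

open PowerSeries IsLocalRing Finset Function
open scoped Polynomial

namespace Pool.Agent.MP_deef5c_ag.O

universe u

variable {k : Type u} [Field k]

theorem SpB_le_iff (n : ℕ) (f : k⟦X⟧) : (n : ℕ∞) ≤ order f ↔ X ^ n ∣ f := by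
  rw [X_pow_dvd_iff]
  exact ⟨fun h m hm => coeff_of_lt_order m (lt_of_lt_of_le (by exact_mod_cast hm) h),
    nat_le_order f n⟩

/-- every endomorphism preserves the maximal ideal -/
theorem SpB_cc (σ : En k) : constantCoeff (σ X) = 0 := by
  by_contra h
  have h1 : IsUnit (X - C (constantCoeff (σ X)) : k⟦X⟧) := by
    rw [PowerSeries.isUnit_iff_constantCoeff, map_sub, constantCoeff_X, constantCoeff_C, zero_sub]
    exact (neg_ne_zero.2 h).isUnit
  have h2 := PowerSeries.isUnit_iff_constantCoeff.1 (h1.map σ)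
  rw [map_sub, Base_en_C, map_sub, constantCoeff_C, sub_self] at h2
  exact not_isUnit_zero h2

theorem SpB_mem (σ : En k) : constantCoeff (σ X) ∈ maximalIdeal k := by
  rw [SpB_cc]
  exact zero_mem _

theorem SpB_cc_map (σ : En k) (g : k⟦X⟧) : constantCoeff (σ g) = constantCoeff g := by
  conv_lhs => rw [eq_X_mul_shift_add_const g]
  rw [map_add, map_mul, Base_en_C, map_add, map_mul, SpB_cc, zero_mul, zero_add, constantCoeff_C]

theorem SpB_coeff (n : ℕ) (g : k⟦X⟧) : coeff n (X ^ n * g) = constantCoeff g := by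
  have := coeff_X_pow_mul g n 0
  rwa [zero_add, coeff_zero_eq_constantCoeff_apply] at this

theorem SpB_lead (σ : En k) {n : ℕ} {f : k⟦X⟧} (h : X ^ n ∣ f) :
    X ^ n ∣ σ f ∧ coeff n (σ f) = coeff 1 (σ X) ^ n * coeff n f := by
  obtain ⟨g, rfl⟩ := h
  obtain ⟨u, hu⟩ := X_dvd_iff.2 (SpB_cc σ)
  have h1 : σ (X ^ n * g) = X ^ n * (u ^ n * σ g) := by
    rw [map_mul, map_pow, hu, mul_pow, mul_assoc]
  have h2 : coeff 1 (σ X) = constantCoeff u := by
    rw [hu, ← SpB_coeff 1 u, pow_one]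
  rw [h1, h2, SpB_coeff, SpB_coeff, map_mul, map_pow, SpB_cc_map]
  exact ⟨dvd_mul_right _ _, rfl⟩

theorem SpB_one_mul (σ ψ : En k) :
    coeff 1 ((σ * ψ) X) = coeff 1 (σ X) * coeff 1 (ψ X) := by
  have h : (X : k⟦X⟧) ^ 1 ∣ ψ X := by rw [pow_one]; exact X_dvd_iff.2 (SpB_cc ψ)
  rw [AlgHom.mul_apply, (SpB_lead σ h).2, pow_one]

theorem SpB_one_pow (σ : En k) (i : ℕ) : coeff 1 ((σ ^ i) X) = coeff 1 (σ X) ^ i := by
  induction i with
  | zero => rw [pow_zero, pow_zero, AlgHom.one_apply, coeff_one_X]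
  | succ i ih => rw [pow_succ, SpB_one_mul, ih, pow_succ]

theorem SpB_root {σ : En k} {N : ℕ} (h : σ ^ N = 1) : coeff 1 (σ X) ^ N = 1 := by
  rw [← SpB_one_pow, h, AlgHom.one_apply, coeff_one_X]

/-- an automorphism preserves the maximal ideal generated by `X` -/
theorem order_one {σ : En k} {N : ℕ} (hN : 0 < N) (h : σ ^ N = 1) : order (σ X) = 1 := by
  refine (order_eq_nat (n := 1)).2 ⟨fun h0 => ?_, fun i hi => ?_⟩
  · have := SpB_root h
    rw [h0, zero_pow hN.ne'] at this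
    exact zero_ne_one this
  · rw [Nat.lt_one_iff.1 hi, coeff_zero_eq_constantCoeff_apply, SpB_cc]

theorem coeff_one_mul {σ ψ : En k} (hσ : constantCoeff (σ X) = 0) (hψ : constantCoeff (ψ X) = 0) :
    coeff 1 ((σ * ψ) X) = coeff 1 (σ X) * coeff 1 (ψ X) :=
  SpB_one_mul σ ψ

theorem pow_X_inj {σ : En k} {q : ℕ} (hq : 0 < q) (h : orderOf σ = q) :
    ∀ i < q, ∀ j < q, (σ ^ i) X = (σ ^ j) X → i = j := by
  intro i hi j hj e
  rw [← h] at hi hj
  exact pow_injOn_Iio_orderOf hi hj (en_ext e (SpB_mem _))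

theorem order_nrm {σ : En k} {N : ℕ} (hN : 0 < N) (h : σ ^ N = 1) (q : ℕ) (f : k⟦X⟧) :
    order (nrm σ q f) = q * order f := by
  have h1 : ∀ i, order ((σ ^ i) f) = order f := fun i => by
    have h2 : (σ ^ i) ^ N = 1 := by rw [← pow_mul, mul_comm, pow_mul, h, one_pow]
    rw [order_en (σ ^ i) 1 one_pos (order_one hN h2), Nat.cast_one, one_mul]
  rw [nrm, order_prod, sum_congr rfl fun i _ => h1 i, sum_const, card_range, nsmul_eq_mul]

/-- the linear coefficient is a `p^n`-th root of unity, so `1` -/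
theorem exists_jump (p n : ℕ) [Fact p.Prime] [CharP k p] {σ : En k} (h : σ ^ p ^ n = 1)
    (h1 : σ ≠ 1) : ∃ l : ℕ, 0 < l ∧ order (σ X - X) = ((l + 1 : ℕ) : ℕ∞) := by
  have h2 : coeff 1 (σ X) = 1 := by
    have h3 : (coeff 1 (σ X) - 1) ^ p ^ n = 0 := by
      rw [sub_pow_char_pow, SpB_root h, one_pow, sub_self]
    exact sub_eq_zero.1 (eq_zero_of_pow_eq_zero h3)
  have h4 : σ X - X ≠ 0 := fun e => h1 (en_ext (sub_eq_zero.1 e) (SpB_mem _))
  have h5 : ((2 : ℕ) : ℕ∞) ≤ order (σ X - X) := by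
    refine nat_le_order _ 2 fun i hi => ?_
    interval_cases i
    · rw [coeff_zero_eq_constantCoeff_apply, map_sub, SpB_cc, constantCoeff_X, sub_self]
    · rw [map_sub, h2, coeff_one_X, sub_self]
  rw [← coe_toNat_order h4] at h5 ⊢
  have h6 : 2 ≤ (order (σ X - X)).toNat := by exact_mod_cast h5
  exact ⟨(order (σ X - X)).toNat - 1, by omega, by rw [Nat.sub_add_cancel (by omega)]⟩

/-- `σ g - g` has order `> l + 1` when `g` has order `≥ 2` -/
theorem lead_pow {σ : En k} {l : ℕ} (hl : 0 < l) (hσ : ((l + 1 : ℕ) : ℕ∞) ≤ order (σ X - X))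
    (i : ℕ) : ((l + 1 : ℕ) : ℕ∞) ≤ order ((σ ^ i) X - X) ∧
      coeff (l + 1) ((σ ^ i) X - X) = (i : k) * coeff (l + 1) (σ X - X) := by
  rw [SpB_le_iff] at hσ ⊢
  have h1 : coeff 1 (σ X) = 1 := by
    have := X_pow_dvd_iff.1 hσ 1 (by omega)
    rwa [map_sub, coeff_one_X, sub_eq_zero] at this
  induction i with
  | zero =>
    rw [pow_zero σ, AlgHom.one_apply, sub_self, map_zero, Nat.cast_zero, zero_mul]
    exact ⟨dvd_zero _, rfl⟩
  | succ i ih =>
    have h2 : (σ ^ (i + 1)) X - X = σ ((σ ^ i) X - X) + (σ X - X) := by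
      rw [pow_succ' σ, AlgHom.mul_apply, map_sub, sub_add_sub_cancel]
    obtain ⟨h3, h4⟩ := SpB_lead σ ih.1
    rw [h2, map_add, h4, h1, one_pow, one_mul, ih.2, Nat.cast_succ, add_mul, one_mul]
    exact ⟨dvd_add h3 hσ, rfl⟩

theorem SpB_diff (ρ : En k) {n : ℕ} (h : X ^ n ∣ ρ X - X) (f : k⟦X⟧) :
    coeff n (ρ f - f) = coeff 1 f * coeff n (ρ X - X) := by
  obtain ⟨g, hg⟩ : (X : k⟦X⟧) ^ 2 ∣ f - C (coeff 0 f) - C (coeff 1 f) * X := by
    refine X_pow_dvd_iff.2 fun i hi => ?_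
    interval_cases i <;> simp
  have hf : f = C (coeff 0 f) + C (coeff 1 f) * X + X ^ 2 * g := by rw [← hg]; ring
  obtain ⟨u, hu⟩ := X_dvd_iff.2 (SpB_cc ρ)
  obtain ⟨w, hw⟩ := sub_dvd ρ 1 (SpB_mem _) (SpB_mem _) g
  rw [AlgHom.one_apply, AlgHom.one_apply] at hw
  have h1 : ρ f - f = C (coeff 1 f) * (ρ X - X) + (ρ X - X) * X * ((u + 1) * ρ g + X * w) := by
    have h2 := congrArg ρ hf
    rw [map_add, map_add, map_mul, map_mul, map_pow, Base_en_C, Base_en_C] at h2
    linear_combination h2 - hf + X ^ 2 * hw + (ρ X - X) * ρ g * hu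
  have h3 : X ^ (n + 1) ∣ (ρ X - X) * X * ((u + 1) * ρ g + X * w) := by
    rw [pow_succ]
    exact (mul_dvd_mul_right h X).mul_right _
  rw [h1, map_add, coeff_C_mul, X_pow_dvd_iff.1 h3 n (Nat.lt_succ_self n), add_zero]

/-- compare the coefficients of `X^(l+1)` in `τ (σ X - X) = σ^α (τ X) - τ X` -/
theorem lead {σ τ : En k} {l α : ℕ} (hl : 0 < l) (hσ : order (σ X - X) = ((l + 1 : ℕ) : ℕ∞))
    (hτ : constantCoeff (τ X) = 0) (h : τ * σ = σ ^ α * τ) :
    coeff 1 (τ X) ^ (l + 1) = (α : k) * coeff 1 (τ X) := by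
  obtain ⟨h1, h2⟩ := lead_pow hl hσ.ge α
  have h3 := (SpB_lead τ ((SpB_le_iff _ _).1 hσ.ge)).2
  have h4 := SpB_diff (σ ^ α) ((SpB_le_iff _ _).1 h1) (τ X)
  have h5 : τ (σ X - X) = (σ ^ α) (τ X) - τ X := by
    rw [map_sub, ← AlgHom.mul_apply, h, AlgHom.mul_apply]
  rw [h5, h4, h2] at h3
  refine mul_right_cancel₀ (order_eq_nat.1 hσ).1 ?_
  rw [← h3]
  ring

end Pool.Agent.MP_deef5c_ag.O

end

section

/-! Numerical facts on the special fibre. -/

open PowerSeries IsLocalRing Finset Function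
open scoped Polynomial

namespace Pool.Agent.MP_deef5c_ag.O

universe u

variable {k : Type u} [Field k]

variable {p n m α : ℕ} [Fact p.Prime] [CharP k p] {ζ : k} {σ : En k}

theorem Sp.pow (S : Sp p n m α ζ σ) : σ ^ p ^ n = 1 := by
  rw [← S.ord]
  exact pow_orderOf_eq_one σ

theorem Sp.m_ne (S : Sp p n m α ζ σ) : (m : k) ≠ 0 := by
  haveI : NeZero m := ⟨S.mpos.ne'⟩
  exact S.prim.neZero'.out

theorem Sp.prim_pow (S : Sp p n m α ζ σ) (i : ℕ) : IsPrimitiveRoot (ζ ^ p ^ i) m := by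
  refine S.prim.pow_of_coprime _ (Nat.Coprime.pow_left i ?_)
  rw [(Fact.out : p.Prime).coprime_iff_not_dvd, ← CharP.cast_eq_zero_iff k p]
  exact S.m_ne

theorem Sp.alpha_pow (S : Sp p n m α ζ σ) : (α : k) ^ m = 1 := by
  rcases S.hyp with h | h
  · rw [h, one_pow]
  · have h1 := congrArg (· ^ m) h
    simp only [mul_pow, (S.prim_pow n).pow_eq_one, mul_one, one_pow] at h1
    exact h1

theorem Sp.cop (S : Sp p n m α ζ σ) (i : ℕ) : α.Coprime (p ^ i) := by
  refine Nat.Coprime.pow_right i (Nat.Coprime.symm ?_)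
  rw [(Fact.out : p.Prime).coprime_iff_not_dvd, ← CharP.cast_eq_zero_iff k p]
  intro h
  have h1 := S.alpha_pow
  rw [h, zero_pow S.mpos.ne'] at h1
  exact zero_ne_one h1

/-- `rel_pow` with `j = m`, where `τ^m = 1` -/
theorem Sp.apow (S : Sp p n m α ζ σ) : α ^ m ≡ 1 [MOD p ^ n] := by
  have h := rel_pow S.rel 1 m
  rw [tau_pow, S.prim.pow_eq_one, tau_one, one_mul, mul_one, mul_one] at h
  have hfin : IsOfFinOrder σ :=
    isOfFinOrder_iff_pow_eq_one.2 ⟨p ^ n, pow_pos (Fact.out : p.Prime).pos n, S.pow⟩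
  rw [← S.ord]
  exact hfin.pow_eq_pow_iff_modEq.1 h.symm

theorem Sp.order_xb (S : Sp p n m α ζ σ) : order (xb p n σ) = ((p ^ n : ℕ) : ℕ∞) := by
  rw [xb, order_nrm (pow_pos (Fact.out : p.Prime).pos n) S.pow, order_X, mul_one]

theorem Sp.isW_unique (S : Sp p n m α ζ σ) {w w' : ℕ} (h : IsW p n σ w) (h' : IsW p n σ w') :
    w = w' := by
  rcases h with ⟨h0, h1⟩ | ⟨h0, h1⟩ <;> rcases h' with ⟨h2, h3⟩ | ⟨h2, h3⟩
  · rw [h1, h3]
  · omega
  · omega
  · have h4 : p ^ n * w = p ^ n * w' := by exact_mod_cast h1.trans h3.symm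
    exact Nat.eq_of_mul_eq_mul_left (pow_pos (Fact.out : p.Prime).pos n) h4

/-- leading coefficients in `der_tau` for `xb`, and `lead` for `σ^(p^(n-1))` -/
theorem Sp.isW_spec (S : Sp p n m α ζ σ) (hn : 0 < n) {w : ℕ} (h : IsW p n σ w) :
    ∃ β l : ℕ, 0 < l ∧ order (d⁄dX k (xb p n σ)) = β ∧
      order ((σ ^ p ^ (n - 1)) X - X) = ((l + 1 : ℕ) : ℕ∞) ∧ p ^ n * w = β + (l + 1) ∧
      ζ ^ (β + 1) = ζ ^ p ^ n ∧ (ζ ^ p ^ n) ^ w = (α : k) * ζ ^ p ^ n := by
  have hp : p.Prime := Fact.out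
  obtain ⟨n, rfl⟩ : ∃ n', n = n' + 1 := ⟨n - 1, by omega⟩
  rw [Nat.add_sub_cancel]
  have hW : ((p ^ (n + 1) * w : ℕ) : ℕ∞) =
      order (d⁄dX k (xb p (n + 1) σ)) + order ((σ ^ p ^ n) X - X) := by
    rcases h with ⟨h0, -⟩ | ⟨-, h1⟩
    · omega
    · exact h1
  have h1 : (σ ^ p ^ n) ^ p ^ 1 = 1 := by
    rw [← pow_mul, ← pow_add]
    exact S.pow
  have h2 : σ ^ p ^ n ≠ 1 := by
    intro e
    have hd := orderOf_dvd_of_pow_eq_one e
    rw [S.ord, Nat.pow_dvd_pow_iff_le_right hp.one_lt] at hd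
    omega
  obtain ⟨l, hl, hjump⟩ := exists_jump p 1 h1 h2
  have hne : order (d⁄dX k (xb p (n + 1) σ)) ≠ ⊤ := by
    intro e
    rw [e, top_add] at hW
    exact ENat.natCast_ne_top _ hW
  obtain ⟨β, hβ⟩ := ENat.ne_top_iff_exists.1 hne
  have hw : p ^ (n + 1) * w = β + (l + 1) := by
    rw [← hβ, hjump] at hW
    exact_mod_cast hW
  have hc : coeff β (d⁄dX k (xb p (n + 1) σ)) ≠ 0 := (order_eq_nat.1 hβ.symm).1
  have heig : tau ζ (xb p (n + 1) σ) = C (ζ ^ p ^ (n + 1)) * xb p (n + 1) σ :=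
    tau_nrm ⟨S.pow, S.rel⟩ (S.cop _)
  have hz : ζ ^ (β + 1) = ζ ^ p ^ (n + 1) := by
    have e := der_tau ζ (xb p (n + 1) σ)
    rw [heig, ← smul_eq_C_mul, Derivation.map_smul] at e
    have e' := congrArg (coeff β) e
    rw [coeff_C_mul, coeff_tau, map_smul, smul_eq_mul] at e'
    refine mul_right_cancel₀ hc ?_
    rw [e']
    ring
  have hrel : tau ζ * σ ^ p ^ n = (σ ^ p ^ n) ^ α * tau ζ := by
    have e := rel_pow S.rel (p ^ n) 1
    rw [pow_one, pow_one, mul_comm α, pow_mul] at e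
    exact e
  have hlead := lead hl hjump (τ := tau ζ) (by rw [tau_X]; simp) hrel
  have hc1 : coeff 1 (tau ζ X) = ζ := by rw [coeff_tau, coeff_one_X, pow_one, mul_one]
  rw [hc1] at hlead
  refine ⟨β, l, hl, hβ.symm, hjump, hw, hz, ?_⟩
  rw [← pow_mul, hw, pow_add, hlead, ← hz]
  ring

end Pool.Agent.MP_deef5c_ag.O

end

section

/-! Linearisation and homomorphisms from relations. -/

open PowerSeries IsLocalRing Finset Function
open scoped Polynomial

namespace Pool.Agent.MP_deef5c_ag.O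

universe u

variable {k : Type u} [Field k]

theorem GrpA_mem {a : k} : a ∈ maximalIdeal k ↔ a = 0 := by
  rw [maximalIdeal_eq_bot, Ideal.mem_bot]

theorem GrpA_order {f : k⟦X⟧} : order f = 1 ↔ constantCoeff f = 0 ∧ coeff 1 f ≠ 0 := by
  have h := order_eq_nat (φ := f) (n := 1)
  rw [Nat.cast_one] at h
  rw [h]
  constructor
  · rintro ⟨h1, h2⟩
    exact ⟨by simpa using h2 0 one_pos, h1⟩
  · rintro ⟨h1, h2⟩
    refine ⟨h2, fun i hi => ?_⟩
    obtain rfl : i = 0 := by omega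
    simpa using h1

theorem GrpA_pow {τ : En k} (h : constantCoeff (τ X) = 0) (i : ℕ) :
    constantCoeff ((τ ^ i) X) = 0 ∧ coeff 1 ((τ ^ i) X) = coeff 1 (τ X) ^ i := by
  induction i with
  | zero => simp
  | succ i ih =>
    rw [pow_succ', pow_succ']
    refine ⟨GrpA_mem.mp (en_mem τ (GrpA_mem.mpr h) (GrpA_mem.mpr ih.1)), ?_⟩
    rw [coeff_one_mul h ih.1, ih.2]

theorem GrpA_le {f g : k⟦X⟧} (h : f ∣ g) : order f ≤ order g := by
  obtain ⟨c, rfl⟩ := h
  rw [order_mul]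
  exact le_self_add

theorem GrpA_rel {N : Type*} [Monoid N] {s t : N} {α : ℕ} (h : t * s = s ^ α * t) (i j : ℕ) :
    t ^ j * s ^ i = s ^ (α ^ j * i) * t ^ j := by
  have h1 : ∀ i : ℕ, t * s ^ i = s ^ (α * i) * t := fun i => by
    induction i with
    | zero => simp
    | succ i ih => rw [pow_succ, ← mul_assoc, ih, mul_assoc, h, ← mul_assoc, ← pow_add, mul_add,
        mul_one]
  induction j with
  | zero => simp
  | succ j ih =>
    rw [pow_succ' t, mul_assoc, ih, ← mul_assoc, h1, mul_assoc, pow_succ' α, mul_assoc]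

/-- `Φ = sub t'` with `t' = (1/m) ∑_{i<m} ζ^(-i) τ^i X = X + ..`, `τ t' = ζ t'`; `exists_inv` -/
theorem lin {τ : En k} {m : ℕ} (hm : 0 < m) (hτ : τ ^ m = 1)
    (hζ : IsPrimitiveRoot (coeff 1 (τ X)) m) :
    ∃ Φ Ψ : En k, Φ * Ψ = 1 ∧ Ψ * Φ = 1 ∧ order (Φ X) = 1 ∧ τ * Φ = Φ * tau (coeff 1 (τ X)) := by
  have h0 : constantCoeff (τ X) = 0 := (GrpA_order.mp (order_one hm hτ)).1
  have hp := GrpA_pow h0
  generalize coeff 1 (τ X) = ζ at hζ hp
  have hz : ζ ≠ 0 := hζ.ne_zero hm.ne'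
  have : NeZero m := ⟨hm.ne'⟩
  have hmk : (m : k) ≠ 0 := hζ.neZero'.out
  obtain ⟨t, ht⟩ : ∃ t : k⟦X⟧, t = ∑ i ∈ range m, C (ζ⁻¹ ^ i) * (τ ^ i) X := ⟨_, rfl⟩
  have c0 : constantCoeff t = 0 := by
    rw [ht, map_sum]
    exact sum_eq_zero fun i _ => by rw [map_mul, (hp i).1, mul_zero]
  have c1 : coeff 1 t = m := by
    rw [ht, map_sum, sum_congr rfl (g := fun _ => (1 : k)) fun i _ => by
      rw [coeff_C_mul, (hp i).2, ← mul_pow, inv_mul_cancel₀ hz, one_pow]]
    simp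
  have hτt : τ t = C ζ * t := by
    have e1 : τ t = C ζ * ∑ i ∈ range m, C (ζ⁻¹ ^ (i + 1)) * (τ ^ (i + 1)) X := by
      rw [ht, map_sum, mul_sum]
      refine sum_congr rfl fun i _ => ?_
      rw [map_mul, Base_en_C, ← mul_assoc, ← map_mul, pow_succ' ζ⁻¹, mul_inv_cancel_left₀ hz,
        pow_succ' τ, AlgHom.mul_apply]
    have e2 := sum_range_succ' (fun i => C (ζ⁻¹ ^ i) * (τ ^ i) X) m
    rw [sum_range_succ, hτ, inv_pow, hζ.pow_eq_one, inv_one, pow_zero, pow_zero, ← ht] at e2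
    rw [e1, add_right_cancel e2]
  have hs : sub t X = t := sub_X (GrpA_mem.mpr c0)
  have ho : order (sub t X) = 1 := by
    rw [hs]
    exact GrpA_order.mpr ⟨c0, by rw [c1]; exact hmk⟩
  obtain ⟨Ψ, h1, h2⟩ := exists_inv (RingHom.id k) surjective_id (sub t) (by
    rw [PowerSeries.map_id]; exact ho)
  refine ⟨sub t, Ψ, h1, h2, ho, en_ext ?_ ?_⟩
  · rw [AlgHom.mul_apply, AlgHom.mul_apply, tau_X, map_mul, Base_en_C, hs, hτt]
  · rw [AlgHom.mul_apply, hs, hτt, map_mul, c0, mul_zero]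
    exact zero_mem _

/-- the order of `σ X - X` does not depend on the coordinate: both divide each other (`sub_dvd`) -/
theorem order_conj {σ Φ Ψ : En k} (h1 : Φ * Ψ = 1) (h2 : Ψ * Φ = 1) (hΦ : order (Φ X) = 1)
    (hσ : constantCoeff (σ X) = 0) : order ((Ψ * σ * Φ) X - X) = order (σ X - X) := by
  have e1 : Φ (Ψ X) = X := by rw [← AlgHom.mul_apply, h1, AlgHom.one_apply]
  have e2 : Ψ (Φ X) = X := by rw [← AlgHom.mul_apply, h2, AlgHom.one_apply]
  have hΨ : order (Ψ X) = 1 := by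
    have := order_en Φ 1 one_pos (by rw [hΦ, Nat.cast_one]) (Ψ X)
    rw [e1, order_X, Nat.cast_one, one_mul] at this
    exact this.symm
  have e3 : (Ψ * σ * Φ) X - X = Ψ (σ (Φ X) - Φ X) := by
    rw [map_sub, e2, AlgHom.mul_apply, AlgHom.mul_apply]
  have m1 := GrpA_mem.mpr hσ
  have m2 := GrpA_mem.mpr (GrpA_order.mp hΦ).1
  rw [e3, order_en Ψ 1 one_pos (by rw [hΨ, Nat.cast_one]), Nat.cast_one, one_mul]
  refine le_antisymm (GrpA_le ?_) (GrpA_le ?_)
  · have := sub_dvd (σ * Φ) Φ (en_mem σ m1 m2) m2 (Ψ X)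
    rwa [AlgHom.mul_apply, AlgHom.mul_apply, e1] at this
  · exact sub_dvd σ 1 m1 (GrpA_mem.mpr constantCoeff_X) (Φ X)

/-- The subgroup `H` of `G × M` generated by `(σ, a)`, `(τ, b)` consists of the
`(σ^i τ^j, a^i b^j)`; its projection to `G` is bijective. -/
theorem hom_of_rel {G M : Type*} [Group G] [Group M] (σ τ : G) (a b : M) (q m α : ℕ) (hq : 0 < q)
    (hm : 0 < m) (hσ : σ ^ q = 1) (hτ : τ ^ m = 1) (ha : a ^ q = 1) (hb : b ^ m = 1)
    (h1 : τ * σ = σ ^ α * τ) (h2 : b * a = a ^ α * b) (hgen : ∀ g : G, ∃ i j : ℕ, g = σ ^ i * τ ^ j)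
    (hinj : ∀ i j : ℕ, σ ^ i * τ ^ j = 1 → q ∣ i ∧ m ∣ j) :
    ∃ φ : G →* M, φ σ = a ∧ φ τ = b := by
  obtain ⟨s, hs⟩ : ∃ s : G × M, s = (σ, a) := ⟨_, rfl⟩
  obtain ⟨t, ht⟩ : ∃ t : G × M, t = (τ, b) := ⟨_, rfl⟩
  have hsq : s ^ q = 1 := by rw [hs, Prod.pow_mk, hσ, ha, Prod.mk_one_one]
  have htm : t ^ m = 1 := by rw [ht, Prod.pow_mk, hτ, hb, Prod.mk_one_one]
  have hr : t * s = s ^ α * t := by
    rw [hs, ht, Prod.pow_mk, Prod.mk_mul_mk, Prod.mk_mul_mk, h1, h2]
  have hmul : ∀ i j i' j' : ℕ, s ^ i * t ^ j * (s ^ i' * t ^ j') =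
      s ^ (i + α ^ j * i') * t ^ (j + j') := fun i j i' j' => by
    rw [mul_assoc, ← mul_assoc (t ^ j), GrpA_rel hr, pow_add, pow_add]
    simp only [mul_assoc]
  have hinv : ∀ (x : G × M) (n i : ℕ), 0 < n → x ^ n = 1 → (x ^ i)⁻¹ = x ^ ((n - 1) * i) :=
    fun x n i hn hx => by
      obtain ⟨n, rfl⟩ : ∃ n', n = n' + 1 := ⟨n - 1, by omega⟩
      rw [_root_.inv_eq_iff_mul_eq_one, ← pow_add, Nat.add_sub_cancel,
        show i + n * i = (n + 1) * i by ring, pow_mul, hx, one_pow]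
  let H : Subgroup (G × M) :=
    { carrier := {x | ∃ i j : ℕ, x = s ^ i * t ^ j}
      mul_mem' := by
        rintro _ _ ⟨i, j, rfl⟩ ⟨i', j', rfl⟩
        exact ⟨_, _, hmul i j i' j'⟩
      one_mem' := ⟨0, 0, by simp⟩
      inv_mem' := by
        rintro _ ⟨i, j, rfl⟩
        exact ⟨_, _, by rw [mul_inv_rev, hinv t m j hm htm, hinv s q i hq hsq, GrpA_rel hr]⟩ }
  have hf : ∀ i j : ℕ, (s ^ i * t ^ j).1 = σ ^ i * τ ^ j := fun i j => by
    rw [hs, ht]; rfl
  have hbij : Bijective ((MonoidHom.fst G M).comp H.subtype) := by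
    refine ⟨(injective_iff_map_eq_one _).mpr ?_, fun g => ?_⟩
    · rintro ⟨_, i, j, rfl⟩ h
      obtain ⟨⟨c, rfl⟩, d, rfl⟩ := hinj i j ((hf i j).symm.trans h)
      exact Subtype.ext (by
        show s ^ (q * c) * t ^ (m * d) = 1
        rw [pow_mul, pow_mul, hsq, htm, one_pow, one_pow, one_mul])
    · obtain ⟨i, j, rfl⟩ := hgen g
      exact ⟨⟨_, i, j, rfl⟩, hf i j⟩
  have key : ∀ x : H, (((MonoidHom.snd G M).comp H.subtype).comp
      (MulEquiv.ofBijective _ hbij).symm.toMonoidHom) x.1.1 = x.1.2 := fun x => by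
    have : (MulEquiv.ofBijective _ hbij).symm x.1.1 = x :=
      (MulEquiv.symm_apply_eq _).mpr rfl
    show ((MulEquiv.ofBijective _ hbij).symm x.1.1).1.2 = _
    rw [this]
  have k1 := key ⟨s, 1, 0, by simp⟩
  have k2 := key ⟨t, 0, 1, by simp⟩
  have a1 : s.1 = σ := by rw [hs]
  have a2 : s.2 = a := by rw [hs]
  have a3 : t.1 = τ := by rw [ht]
  have a4 : t.2 = b := by rw [ht]
  exact ⟨_, a1 ▸ a2 ▸ k1, a3 ▸ a4 ▸ k2⟩

end Pool.Agent.MP_deef5c_ag.O

end

section

/-! The structure of a finite group of automorphisms of a power series ring. -/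

open PowerSeries IsLocalRing Finset Function
open scoped Polynomial

namespace Pool.Agent.MP_deef5c_ag.O

universe u

variable {k : Type u} [Field k] (p : ℕ) [Fact p.Prime] [CharP k p] {G : Type*} [Group G] [Finite G]

theorem Grp_pure (χ : G →* k) (hker : ∀ (g : G) (l : ℕ), χ g = 1 → g ^ l = 1 → ¬ p ∣ l → g = 1)
    (σ₀ : G) (hσ : orderOf σ₀ = ordProj[p] (Nat.card G)) : ∃ (τ₀ : G) (α : ℕ),
      τ₀ ^ ordCompl[p] (Nat.card G) = 1 ∧ τ₀ * σ₀ = σ₀ ^ α * τ₀ ∧
      IsPrimitiveRoot (χ τ₀) (ordCompl[p] (Nat.card G)) ∧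
      (∀ g : G, ∃ i j : ℕ, g = σ₀ ^ i * τ₀ ^ j) ∧ (IsCyclic G → α = 1) := by
  have hp : p.Prime := Fact.out
  have hN : Nat.card G ≠ 0 := Nat.card_pos.ne'
  have hqm := Nat.ordProj_mul_ordCompl_eq_self (Nat.card G) p
  have hfr : ∀ (x : k) (a : ℕ), x ^ p ^ a = 1 → x = 1 := fun x a h => by
    have := (ExpChar.pow_prime_pow_mul_eq_one_iff p a 1 x).1 (by rwa [mul_one])
    rwa [pow_one] at this
  have hmem : ∀ g, g ∈ χ.toHomUnits.ker ↔ χ g = 1 := fun g => by
    rw [MonoidHom.mem_ker, Units.ext_iff]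
    rfl
  have hall : ∀ g : G, (g ^ ordProj[p] (Nat.card G)) ^ ordCompl[p] (Nat.card G) = 1 := fun g => by
    rw [← pow_mul, hqm, pow_card_eq_one']
  have hK : IsPGroup p χ.toHomUnits.ker := fun g =>
    ⟨(Nat.card G).factorization p, Subtype.ext (hker _ _
      (by rw [Subgroup.coe_pow, map_pow, (hmem g).1 g.2, one_pow]) (hall g)
      (Nat.not_dvd_ordCompl hp hN))⟩
  obtain ⟨b, hb⟩ := IsPGroup.iff_card.1 hK
  have hc := χ.toHomUnits.ker.card_mul_index
  rw [Subgroup.index_ker, hb] at hc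
  have : Finite χ.toHomUnits.range :=
    Finite.of_surjective _ χ.toHomUnits.rangeRestrict_surjective
  have hR : ¬ p ∣ Nat.card χ.toHomUnits.range := fun h => by
    obtain ⟨x, hx⟩ := exists_prime_orderOf_dvd_card' p h
    have h1 : ((x : kˣ) : k) ^ p ^ 1 = 1 := by
      rw [pow_one, ← Units.val_pow_eq_pow_val, ← Subgroup.coe_pow, ← hx, pow_orderOf_eq_one]
      rfl
    have h2 : x = 1 := Subtype.ext (Units.ext (hfr _ _ h1))
    rw [h2, orderOf_one] at hx
    exact hp.one_lt.ne hx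
  have hm : ordCompl[p] (Nat.card G) = Nat.card χ.toHomUnits.range := by
    rw [← hc]
    exact Nat.ordCompl_pow_mul_of_not_dvd b hp hR
  have hm0 : 0 < ordCompl[p] (Nat.card G) := Nat.ordCompl_pos p hN
  have hq : ordProj[p] (Nat.card G) = p ^ b :=
    Nat.eq_of_mul_eq_mul_right hm0 (by rw [hqm, hm, hc])
  have hz : Subgroup.zpowers σ₀ = χ.toHomUnits.ker := by
    refine Subgroup.eq_of_le_of_card_ge (Subgroup.zpowers_le.2 ((hmem _).2 (hfr _ b ?_))) ?_
    · rw [← map_pow, ← hq, ← hσ, pow_orderOf_eq_one, map_one]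
    · rw [Nat.card_zpowers, hσ, hq, hb]
  have hpow : ∀ g, χ g = 1 → ∃ i : ℕ, σ₀ ^ i = g := fun g hg =>
    mem_powers_iff_mem_zpowers.2 (hz ▸ (hmem g).2 hg)
  obtain ⟨⟨_, g, rfl⟩, hg⟩ := IsCyclic.exists_ofOrder_eq_natCard (α := χ.toHomUnits.range)
  have h1 : IsPrimitiveRoot (χ g) (ordCompl[p] (Nat.card G)) := by
    rw [hm, ← hg, ← Subgroup.orderOf_coe, ← orderOf_units]
    exact IsPrimitiveRoot.orderOf _
  have h2 : IsPrimitiveRoot (χ (g ^ ordProj[p] (Nat.card G))) (ordCompl[p] (Nat.card G)) := by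
    rw [map_pow]
    exact h1.pow_of_coprime _ ((Nat.coprime_ordCompl hp hN).pow_left _)
  have h3 : ∀ x : G, ∃ i j : ℕ, x = σ₀ ^ i * (g ^ ordProj[p] (Nat.card G)) ^ j := fun x => by
    have : NeZero (ordCompl[p] (Nat.card G)) := ⟨hm0.ne'⟩
    have h4 : χ x ^ ordCompl[p] (Nat.card G) = 1 := by
      have h5 := pow_card_eq_one' (x := χ.toHomUnits.rangeRestrict x)
      rw [← hm] at h5
      exact congrArg (fun y : χ.toHomUnits.range => ((y : kˣ) : k)) h5
    obtain ⟨j, -, hj⟩ := h2.eq_pow_of_pow_eq_one h4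
    obtain ⟨i, hi⟩ := hpow (x * ((g ^ ordProj[p] (Nat.card G)) ^ j)⁻¹) (by
      rw [map_mul, ← hj, ← map_pow, ← map_mul, mul_inv_cancel, map_one])
    exact ⟨i, j, by rw [hi, inv_mul_cancel_right]⟩
  by_cases hcy : IsCyclic G
  · exact ⟨_, 1, hall g, by rw [pow_one]; exact hcy.isMulCommutative.is_comm.comm _ _, h2, h3,
      fun _ => rfl⟩
  · obtain ⟨α, hα⟩ := hpow _ ((hmem _).1 (χ.toHomUnits.normal_ker.conj_mem σ₀
      (hz ▸ Subgroup.mem_zpowers σ₀) (g ^ ordProj[p] (Nat.card G))))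
    exact ⟨_, α, hall g, by rw [hα, inv_mul_cancel_right], h2, h3, fun h => absurd h hcy⟩

omit [Fact p.Prime] in
theorem Grp_ker {σ : En k} (h0 : constantCoeff (σ X) = 0) (h1 : coeff 1 (σ X) = 1) {l : ℕ}
    (hl : σ ^ l = 1) (hp : ¬ p ∣ l) : σ = 1 := by
  by_contra hne
  have h2 : σ X - X ≠ 0 := fun h =>
    hne (en_ext (sub_eq_zero.1 h) (by rw [h0]; exact zero_mem _))
  have h3 := coeff_order h2
  have h4 : ((order (σ X - X)).toNat : ℕ∞) = order (σ X - X) := coe_toNat_order h2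
  generalize (order (σ X - X)).toNat = n at h3 h4
  match n with
  | 0 => exact h3 (by simp [h0])
  | 1 => exact h3 (by simp [h1])
  | n + 2 =>
    have h5 := (lead_pow (σ := σ) (l := n + 1) n.succ_pos h4.le l).2
    rw [hl, AlgHom.one_apply, sub_self, map_zero] at h5
    exact hp ((CharP.cast_eq_zero_iff k p l).1 ((mul_eq_zero.1 h5.symm).resolve_right h3))

/-- `χ g = coeff 1 (ρ g X)` is a character (`coeff_one_mul`, `order_one`).  An element of `ker χ` of prime
order `ℓ` has `ℓ = 0` in `k` (`lead_pow`), so `P = ker χ` is a `p`-group; the image of `χ` is a finite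
subgroup of `kˣ`, cyclic of order `m` prime to `p`; so `P` is a normal Sylow subgroup, cyclic, and
contains every element of `p`-power order.  For `g` with `χ g` a generator, `τ₀ = g^(p^a)` with
`p^a = ordProj[p] (orderOf g)` has `τ₀^m ∈ P` of order prime to `p`.  If `G` is cyclic take `α = 1`. -/
theorem grp (hG : ∀ P : Sylow p G, IsCyclic P) (ρ : G →* (k⟦X⟧ ≃ₐ[k] k⟦X⟧)) (hρ : Injective ρ) :
    (∃ σ₀ : G, orderOf σ₀ = ordProj[p] (Nat.card G)) ∧
    ∀ σ₀ : G, orderOf σ₀ = ordProj[p] (Nat.card G) → ∃ (τ₀ : G) (α : ℕ),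
      τ₀ ^ ordCompl[p] (Nat.card G) = 1 ∧ τ₀ * σ₀ = σ₀ ^ α * τ₀ ∧
      IsPrimitiveRoot (coeff 1 (ρ τ₀ X)) (ordCompl[p] (Nat.card G)) ∧
      (∀ g : G, ∃ i j : ℕ, g = σ₀ ^ i * τ₀ ^ j) ∧ (IsCyclic G → α = 1) := by
  refine ⟨?_, fun σ₀ hσ => ?_⟩
  · obtain ⟨P⟩ : Nonempty (Sylow p G) := inferInstance
    obtain ⟨x, hx⟩ := (hG P).exists_ofOrder_eq_natCard
    exact ⟨x, by rw [Subgroup.orderOf_coe, hx, P.card_eq_multiplicity]⟩
  let ρ' : G →* En k :=
    { toFun := fun g => (ρ g : En k)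
      map_one' := by rw [map_one]; rfl
      map_mul' := fun a b => by rw [map_mul]; rfl }
  have h0 : ∀ g, constantCoeff (ρ' g X) = 0 := fun g => by
    have h1 := order_one (σ := ρ' g) (Nat.card_pos (α := G))
      (by rw [← map_pow, pow_card_eq_one', map_one])
    rw [← coeff_zero_eq_constantCoeff_apply]
    exact coeff_of_lt_order 0 (by rw [h1]; exact zero_lt_one)
  let χ : G →* k :=
    { toFun := fun g => coeff 1 (ρ' g X)
      map_one' := by rw [map_one, AlgHom.one_apply, coeff_one_X]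
      map_mul' := fun a b => by rw [map_mul, coeff_one_mul (h0 a) (h0 b)] }
  refine Grp_pure p χ (fun g l h1 h2 h3 => hρ ?_) σ₀ hσ
  have h4 := Grp_ker p (h0 g) h1 (by rw [← map_pow, h2, map_one]) h3
  rw [map_one]
  exact AlgEquiv.ext fun f => DFunLike.congr_fun h4 f

end Pool.Agent.MP_deef5c_ag.O

end

section

/-! A lift beyond characteristic p forces the obstruction to vanish. -/

open PowerSeries IsLocalRing Finset Function
open scoped Polynomial

namespace Pool.Agent.MP_deef5c_ag.O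

universe u

theorem TwoThree_flat (A : Type u) [CommRing A] [IsNoetherianRing A] : Module.Flat A A⟦X⟧ := by
  have h1 : Module.Flat (MvPolynomial Unit A) (MvPowerSeries Unit A) :=
    .of_linearEquiv (MvPowerSeries.toAdicCompletionAlgEquiv Unit A).toLinearEquiv
  exact Module.Flat.trans A (MvPolynomial Unit A) (MvPowerSeries Unit A)

theorem TwoThree_setup {k : Type u} [Field k] (A : Type u) [CommRing A] [IsLocalRing A]
    [IsNoetherianRing A] (π : A →+* k) (hπ : Surjective π) :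
    Setup A (PowerSeries.map π) (X : A⟦X⟧) where
  surj := PowerSeries.map_surjective π hπ
  ker := by
    refine le_antisymm (fun f hf => ?_) (Ideal.map_le_iff_le_comap.2 fun a ha => ?_)
    · have hf' : ∀ a, coeff a f ∈ maximalIdeal A := fun a => by
        rw [← pi_eq_zero_iff π hπ, ← coeff_map, RingHom.mem_ker.1 hf, map_zero]
      obtain ⟨n, s, hs⟩ := Submodule.fg_iff_exists_fin_generating_family.1
        (IsNoetherian.noetherian (maximalIdeal A))
      have h1 : ∀ a, ∃ c : Fin n → A, ∑ i, c i • s i = coeff a f := fun a =>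
        (Submodule.mem_span_range_iff_exists_fun A).1 (hs ▸ hf' a)
      choose c hc using h1
      have h2 : f = ∑ i, C (s i) * PowerSeries.mk fun a => c a i := by
        ext a
        rw [map_sum, ← hc a]
        exact sum_congr rfl fun i _ => by rw [coeff_C_mul, coeff_mk, smul_eq_mul, mul_comm]
      rw [h2]
      exact sum_mem fun i _ => Ideal.mul_mem_right _ _
        (Ideal.mem_map_of_mem _ (hs ▸ Submodule.subset_span ⟨i, rfl⟩))
    · change PowerSeries.map π (C a) = 0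
      rw [map_C, (pi_eq_zero_iff π hπ a).2 ha, map_zero]
  ne := by
    rw [map_X]
    exact X_ne_zero
  nu := by
    rw [map_X]
    exact X_prime.not_isUnit
  res := fun y => by
    obtain ⟨a, ha⟩ := hπ (constantCoeff y)
    refine ⟨a, ?_⟩
    change _ ∣ y - PowerSeries.map π (C a)
    rw [map_X, map_C, X_dvd_iff, map_sub, constantCoeff_C, ha, sub_self]
  pw := fun y hy => by
    have hu : IsUnit (divXPowOrder y) := by
      rw [isUnit_iff_constantCoeff, isUnit_iff_ne_zero]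
      exact fun h => hy (constantCoeff_divXPowOrder_eq_zero_iff.1 h)
    refine ⟨(order y).toNat, ?_⟩
    rw [map_X]
    conv_lhs => rw [← X_pow_order_mul_divXPowOrder (f := y)]
    exact associated_mul_unit_left _ _ hu

theorem TwoThree_add {G K : Type*} [Group G] [CommRing K] (φ : G → K)
    (h : ∀ g g', φ (g * g') = φ g + φ g') (g : G) (i : ℕ) : φ (g ^ i) = i * φ g := by
  induction i with
  | zero =>
    have := h 1 1
    rw [mul_one, left_eq_add] at this
    rw [pow_zero, this, Nat.cast_zero, zero_mul]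
  | succ i ih => rw [pow_succ, h, ih, Nat.cast_succ, add_one_mul]

variable {k : Type u} [Field k] (p : ℕ) [Fact p.Prime] [CharP k p] {G : Type*} [Group G] [Finite G]

/-- Suppose `G` is not cyclic and `m ∤ order (ρ σ₀ X - X) = l + 1`; with `τ₀, α, ζ` from `grp`,
`ζ^(l+1) = α ζ ≠ 1` (`lead`), and `ζ ≠ 1`.  Apply `Act.main_wt` (file `Wt.lean`, structures `Setup` in
`Div.lean` and `Act` in `Alg.lean`) with `B = A⟦X⟧`, `ψ = map π`, `t = X`, `T g = ρ' g⁻¹`, `H = G`,
`P = zpowers σ₀`, `γ = τ₀`, `c` a lift of `ζ⁻¹`: an additive `φ` has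
`α φ σ₀ = φ (τ₀ σ₀ τ₀⁻¹) = ζ⁻¹ φ σ₀`.  `A⟦X⟧` is flat over the Noetherian ring `A`
(`AdicCompletion.flat_of_isNoetherian` with `MvPowerSeries.toAdicCompletionAlgEquiv`, or as a
product of copies of `A`), and `ker (map π) = m A⟦X⟧` because `m` is finitely generated. -/
theorem two_three (hG : ∀ P : Sylow p G, IsCyclic P) (ρ : G →* (k⟦X⟧ ≃ₐ[k] k⟦X⟧))
    (hρ : Injective ρ) (A : Type u) [CommRing A] [IsLocalRing A] [IsArtinianRing A] (π : A →+* k)
    (hπ : Surjective π) (hp : (p : A) ≠ 0) (h : LocLifts ρ π) :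
    IsCyclic G ∨ ∀ σ : G, orderOf σ = ordProj[p] (Nat.card G) →
      ((ordCompl[p] (Nat.card G) : ℕ) : ℕ∞) ∣ order (ρ σ X - X) := by
  by_contra hh
  push Not at hh
  obtain ⟨hcy, σ₀, hσ₀, hnd⟩ := hh
  obtain ⟨τ₀, α, hτm, hrel, hprim, hgen, -⟩ := (grp p hG ρ hρ).2 σ₀ hσ₀
  generalize ordCompl[p] (Nat.card G) = m at *
  generalize (Nat.card G).factorization p = n at *
  obtain ⟨ρ', hρ'⟩ := h
  let r : G →* En k := (Units.coeHom _).comp
    ((AlgEquiv.algHomUnitsEquiv k k⟦X⟧).symm.toMonoidHom.comp ρ)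
  have hr : ∀ g f, r g f = ρ g f := fun _ _ => rfl
  have hri : Injective r := fun a b e => hρ (AlgEquiv.ext fun f => DFunLike.congr_fun e f)
  have h0 : ∀ g, constantCoeff (r g X) = 0 := fun g => (GrpA_order.1
    (order_one (Nat.card_pos (α := G)) (by rw [← map_pow, pow_card_eq_one', map_one]))).1
  have hne : r σ₀ ≠ 1 := fun e => hcy ⟨τ₀, fun g => by
    obtain ⟨i, j, rfl⟩ := hgen g
    exact ⟨j, by simp [(map_eq_one_iff r hri).1 e]⟩⟩
  obtain ⟨l, hl, ho⟩ := exists_jump p n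
    (by rw [← map_pow, ← hσ₀, pow_orderOf_eq_one, map_one]) hne
  have h3 := lead hl ho (h0 τ₀) (α := α) (by rw [← map_pow, ← map_mul, ← map_mul, hrel])
  have h4 := coeff_one_mul (h0 τ₀) (h0 τ₀⁻¹)
  rw [← map_mul, mul_inv_cancel, map_one, AlgHom.one_apply, coeff_one_X] at h4
  rw [← hr] at hprim hnd
  generalize coeff 1 (r τ₀ X) = ζ at *
  have h5 : ζ ^ (l + 1) ≠ 1 := fun e => hnd (by
    rw [ho]
    exact Nat.cast_dvd_cast ((hprim.pow_eq_one_iff_dvd _).1 e))
  obtain ⟨c, hc⟩ := hπ (coeff 1 (r τ₀⁻¹ X))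
  rw [← hc] at h4
  have hunit : ∀ a : A, π a ≠ 0 → IsUnit a := fun a ha => by
    by_contra hu
    exact ha ((pi_eq_zero_iff π hπ a).2 hu)
  have S := TwoThree_setup A π hπ
  have := TwoThree_flat A
  let T : G → A⟦X⟧ →ₐ[A] A⟦X⟧ := fun g => (ρ' g⁻¹ : A⟦X⟧ ≃ₐ[A] A⟦X⟧)
  have hT : ∀ g, PowerSeries.map π (T g X) = r g⁻¹ X := fun g => by
    rw [hr, ← map_X π, ← hρ']
    rfl
  have hne' : ∀ g, g ≠ 1 → PowerSeries.map π (T g X - X) ≠ 0 := fun g hg e => by
    rw [map_sub, hT, map_X, sub_eq_zero] at e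
    have e1 : r g⁻¹ = 1 := en_ext e (GrpA_mem.2 (h0 _))
    exact hg (inv_eq_one.1 ((map_eq_one_iff r hri).1 e1))
  have hone : ∀ b, T 1 b = b := fun b => by
    change ρ' 1⁻¹ b = b
    rw [inv_one, map_one, AlgEquiv.one_apply]
  have hact : Act (PowerSeries.map π) X T :=
    ⟨hone, fun g g' b => by
      change ρ' (g * g')⁻¹ b = ρ' g'⁻¹ (ρ' g⁻¹ b)
      rw [mul_inv_rev, map_mul, AlgEquiv.mul_apply],
    fun g => (eq_or_ne g 1).symm.imp (hne' g) (by rintro rfl; exact hone),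
    fun g => by rw [hT, map_X, X_dvd_iff, h0]⟩
  refine hp (hact.main_wt S hne' hcy (Subgroup.zpowers σ₀) τ₀ ?_ (fun g hg => ?_) c ?_ ?_
    (fun φ hφ1 hφ2 g => ?_) p (unit_of_prime_ne hπ p))
  · rw [eq_top_iff]
    rintro g -
    obtain ⟨i, j, rfl⟩ := hgen g
    exact mul_mem (pow_mem (Subgroup.subset_closure
      (Set.mem_insert_of_mem _ (Subgroup.mem_zpowers σ₀))) i)
      (pow_mem (Subgroup.subset_closure (Set.mem_insert _ _)) j)
  · obtain ⟨i, hi⟩ := mem_powers_iff_mem_zpowers.2 (inv_mem hg)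
    rw [map_sub, hT, map_X, ← hi, map_pow, X_pow_dvd_iff]
    intro j hj
    refine coeff_of_lt_order j (lt_of_lt_of_le ?_ (lead_pow hl ho.ge i).1)
    exact_mod_cast (by omega : j < l + 1)
  · change _ ∣ _ - PowerSeries.map π (C c) * _
    rw [hT, map_X, map_C, X_pow_dvd_iff]
    intro j hj
    obtain rfl | rfl : j = 0 ∨ j = 1 := by omega
    · rw [coeff_zero_eq_constantCoeff_apply, map_sub, h0, map_mul, constantCoeff_X, mul_zero,
        sub_zero]
    · rw [map_sub, coeff_C_mul, coeff_one_X, mul_one, hc, sub_self]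
  · refine hunit _ fun e => h5 ?_
    rw [map_sub, map_one, sub_eq_zero] at e
    rw [e, mul_one] at h4
    rw [← h4, one_pow]
  · have hu : IsUnit ((α : A) - c) := hunit _ fun e => h5 (by
      rw [map_sub, map_natCast, sub_eq_zero] at e
      rw [h3, e, mul_comm, ← h4])
    let s : Subgroup.zpowers σ₀ := ⟨σ₀, Subgroup.mem_zpowers σ₀⟩
    have e1 := hφ2 s (s ^ α) (eq_mul_inv_of_mul_eq hrel.symm)
    rw [TwoThree_add φ hφ1, ← sub_eq_zero, ← sub_mul, ← map_natCast (residue A), ← map_sub,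
      (hu.map (residue A)).mul_right_eq_zero] at e1
    obtain ⟨i, hi⟩ := mem_powers_iff_mem_zpowers.2 g.2
    have e2 : g = s ^ i := Subtype.ext hi.symm
    rw [e2, TwoThree_add φ hφ1, e1, mul_zero]

end Pool.Agent.MP_deef5c_ag.O

end

section

/-! First order variation of the powers of a substitution. -/

open PowerSeries IsLocalRing Finset Function
open scoped Polynomial

namespace Pool.Agent.MP_deef5c_ag.O

universe u

variable {D k : Type u} [CommRing D] [IsLocalRing D] [CL D] [Field k]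

/-- the linear maps that describe the first order variation -/
noncomputable def CalcA_L (σ : En D) : ℕ → D⟦X⟧ →ₗ[D] D⟦X⟧
  | 0 => 0
  | a + 1 => LinearMap.mulRight D (σ (d⁄dX D ((σ ^ a) X))) + σ.toLinearMap ∘ₗ CalcA_L σ a

omit [IsLocalRing D] [CL D] in
theorem CalcA_succ (σ : En D) (a : ℕ) (g : D⟦X⟧) :
    CalcA_L σ (a + 1) g = g * σ (d⁄dX D ((σ ^ a) X)) + σ (CalcA_L σ a g) := rfl

theorem CalcA_cin (σ : En D) {I : Ideal D} {e : D⟦X⟧} (he : CIn I e) (a : ℕ) :
    CIn I (CalcA_L σ a e) := by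
  induction a with
  | zero => exact fun _ => by simp [CalcA_L]
  | succ a ih =>
    intro n
    rw [CalcA_succ, map_add]
    refine add_mem ?_ (cin_map σ ih n)
    have := cin_mul (J := ⊤) (g := σ (d⁄dX D ((σ ^ a) X))) he (fun _ => Submodule.mem_top) n
    rwa [Ideal.mul_top] at this

omit [IsLocalRing D] [CL D] in
theorem CalcA_zero {I : Ideal D} (hI : I * I = ⊥) {f g : D⟦X⟧} (hf : CIn I f) (hg : CIn I g) :
    f * g = 0 := by
  ext n
  have := cin_mul hf hg n
  rwa [hI, Ideal.mem_bot] at this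

/-- `der_eq` for `δ = sub (s + e) - sub s` along `sub s`; `δ f ∈ (e)` by `sub_dvd` -/
theorem sub_add (s e : D⟦X⟧) (hs : constantCoeff s ∈ maximalIdeal D) (he : e * e = 0)
    (f : D⟦X⟧) : sub (s + e) f = sub s f + e * sub s (d⁄dX D f) := by
  have h1 : constantCoeff e ∈ maximalIdeal D := by
    refine (maximalIdeal.isMaximal D).isPrime.mem_of_pow_mem 2 ?_
    rw [sq, ← map_mul, he, map_zero]
    exact zero_mem _
  have h2 : constantCoeff (s + e) ∈ maximalIdeal D := by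
    rw [map_add]
    exact add_mem hs h1
  have h3 : ∀ g, e ∣ sub (s + e) g - sub s g := fun g => by
    have := sub_dvd (sub (s + e)) (sub s) (by rwa [sub_X h2]) (by rwa [sub_X hs]) g
    rwa [sub_X h2, sub_X hs, add_sub_cancel_left] at this
  have h4 := der_eq (maximalIdeal D⟦X⟧) (sub s : D⟦X⟧ →+* D⟦X⟧)
    ((mem_max_iff _).2 (by rw [RingHom.coe_coe, sub_X hs]; exact hs))
    ((sub (s + e) : D⟦X⟧ →+* D⟦X⟧).toAddMonoidHom - (sub s : D⟦X⟧ →+* D⟦X⟧).toAddMonoidHom)
    (fun a => by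
      show sub (s + e) (C a) - sub s (C a) = 0
      rw [Base_en_C, Base_en_C, sub_self])
    (fun f g => by
      show sub (s + e) (f * g) - sub s (f * g) =
        sub s f * (sub (s + e) g - sub s g) + sub s g * (sub (s + e) f - sub s f)
      obtain ⟨a, ha⟩ := h3 f
      obtain ⟨b, hb⟩ := h3 g
      rw [map_mul, map_mul, ha, hb, sub_eq_iff_eq_add'.1 ha, sub_eq_iff_eq_add'.1 hb]
      linear_combination a * b * he) f
  change sub (s + e) f - sub s f = sub s (d⁄dX D f) * (sub (s + e) X - sub s X) at h4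
  rw [sub_X h2, sub_X hs] at h4
  linear_combination h4

/-- `L 0 = 0`, `L (a+1) g = g * σ' (d (σ'^a X)) + σ' (L a g)` with `σ' = sub s`.  For the reduction use
the chain rule `d x = d (σ^a x) = σ^a (d x) * d (σ^a X)`. -/
theorem calc_pow (π : D →+* k) (hπ : Surjective π) (σ : En k) (h0 : constantCoeff (σ X) = 0)
    (x : k⟦X⟧) (hx : σ x = x) (s : D⟦X⟧) (hs : PowerSeries.map π s = σ X) :
    ∃ L : ℕ → D⟦X⟧ →ₗ[D] D⟦X⟧,
      (∀ I : Ideal D, I * I = ⊥ → ∀ e, CIn I e → ∀ a, (sub (s + e) ^ a) X = (sub s ^ a) X + L a e) ∧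
      ∀ a g, PowerSeries.map π (L a g) * (σ ^ a) (d⁄dX k x) =
        trc σ a (PowerSeries.map π g * σ (d⁄dX k x)) := by
  have h1 : constantCoeff s ∈ maximalIdeal D := by
    rw [← pi_eq_zero_iff π hπ, ← h0, ← hs, ← coeff_zero_eq_constantCoeff_apply,
      ← coeff_zero_eq_constantCoeff_apply, coeff_map]
  have h2 : constantCoeff (σ X) ∈ maximalIdeal k := by
    rw [h0]
    exact zero_mem _
  have h3 : PowerSeries.map π (sub s X) = σ X := by rw [sub_X h1, hs]
  refine ⟨CalcA_L (sub s), fun I hI e he a => ?_, fun a g => ?_⟩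
  · induction a with
    | zero => simp [CalcA_L]
    | succ a ih =>
      have h4 : e * sub s (d⁄dX D (CalcA_L (sub s) a e)) = 0 :=
        CalcA_zero hI he (cin_map _ fun n => by
          rw [coeff_derivative]
          exact Ideal.mul_mem_right _ _ (CalcA_cin _ he a _))
      rw [pow_succ', pow_succ', AlgHom.mul_apply, AlgHom.mul_apply, ih,
        sub_add s e h1 (CalcA_zero hI he he), CalcA_succ, map_add, map_add, map_add, mul_add, h4]
      ring
  · induction a with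
    | zero => simp [CalcA_L, trc]
    | succ a ih =>
      have h4 : constantCoeff ((σ ^ a) X) ∈ maximalIdeal k := by
        clear ih
        induction a with
        | zero => simp
        | succ a ih => rw [pow_succ', AlgHom.mul_apply]; exact en_mem σ h2 ih
      have h5 : (σ ^ a) x = x := by
        clear ih h4
        induction a with
        | zero => rfl
        | succ a ih => rw [pow_succ, AlgHom.mul_apply, hx, ih]
      have h6 := der_en (σ ^ a) h4 x
      rw [h5] at h6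
      have h7 : ∀ h, trc σ (a + 1) h = σ (trc σ a h) + h := fun h => by
        rw [trc, trc, sum_range_succ', map_sum]
        simp only [pow_succ', AlgHom.mul_apply, pow_zero, AlgHom.one_apply]
      rw [h7, ← ih, CalcA_succ, map_add, map_mul, map_en π _ σ h3 h2, map_en π _ σ h3 h2, map_der,
        map_en_pow π _ σ h3 h2, PowerSeries.map_X, pow_succ', AlgHom.mul_apply, map_mul]
      have h8 := congrArg σ h6
      rw [map_mul] at h8
      linear_combination (-PowerSeries.map π g) * h8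

/-- if `ε m = 0` then `C ε * g` only depends on the reduction of `g` -/
theorem eps_mul_eq (π : D →+* k) (hπ : Surjective π) {ε : D} (hε : ∀ a ∈ maximalIdeal D, a * ε = 0)
    {g g' : D⟦X⟧} (h : PowerSeries.map π g = PowerSeries.map π g') : C ε * g = C ε * g' := by
  ext n
  have h1 : coeff n g - coeff n g' ∈ maximalIdeal D := by
    rw [← pi_eq_zero_iff π hπ, map_sub, ← coeff_map, ← coeff_map, h, sub_self]
  rw [coeff_C_mul, coeff_C_mul]
  linear_combination hε _ h1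

theorem eps_cancel (π : D →+* k) (hπ : Surjective π) {ε : D} (h0 : ε ≠ 0)
    {g g' : D⟦X⟧} (h : C ε * g = C ε * g') : PowerSeries.map π g = PowerSeries.map π g' := by
  ext n
  have h1 := congrArg (coeff n) h
  rw [coeff_C_mul, coeff_C_mul] at h1
  rw [coeff_map, coeff_map, ← sub_eq_zero, ← map_sub, pi_eq_zero_iff π hπ, mem_maximalIdeal,
    mem_nonunits_iff]
  exact fun hu => h0 (hu.mul_left_eq_zero.1 (by rw [mul_sub, h1, sub_self]))

end Pool.Agent.MP_deef5c_ag.O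

end

section

/-! The relations modulo an ideal. -/

open PowerSeries IsLocalRing Finset Function
open scoped Polynomial

namespace Pool.Agent.MP_deef5c_ag.O

universe u

variable {D k : Type u} [CommRing D] [IsLocalRing D] [CL D] [Field k]

theorem Calc_core {D₀ : Type u} [CommRing D₀] (φ : D₀ →+* D) (q α : ℕ) (z : D₀) (σ₀ : En D₀)
    (σ : En D) (h : PowerSeries.map φ (σ₀ X) = σ X) (hm : constantCoeff (σ X) ∈ maximalIdeal D) :
    Rel q α (φ z) σ ↔ PowerSeries.map φ ((σ₀ ^ q) X - X) = 0 ∧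
      PowerSeries.map φ (tau z (σ₀ X) - (σ₀ ^ α) (C z * X)) = 0 := by
  rw [map_sub, map_sub, map_en_pow φ σ₀ σ h hm, map_en_pow φ σ₀ σ h hm, map_tau, h, map_mul, map_C,
    map_X, sub_eq_zero, sub_eq_zero, ← tau_X, ← AlgHom.mul_apply, ← AlgHom.mul_apply]
  refine and_congr ⟨fun h => by rw [h]; rfl, fun h => en_ext h ?_⟩
    ⟨fun h => by rw [h], fun h => en_ext h ?_⟩
  · rw [h, constantCoeff_X]
    exact zero_mem _
  · rw [AlgHom.mul_apply, ← coeff_zero_eq_constantCoeff_apply, coeff_tau, pow_zero, one_mul,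
      coeff_zero_eq_constantCoeff_apply]
    exact hm

omit [CL D] in
theorem Calc_mem {D' : Type u} [CommRing D'] [IsLocalRing D'] (φ : D →+* D') (hφ : Surjective φ)
    {s : D⟦X⟧} (hs : constantCoeff s ∈ maximalIdeal D) :
    constantCoeff (PowerSeries.map φ s) ∈ maximalIdeal D' := by
  have := IsLocalHom.of_surjective φ hφ
  rw [← coeff_zero_eq_constantCoeff_apply, coeff_map, coeff_zero_eq_constantCoeff_apply]
  exact map_nonunit φ _ hs

/-- `Good` means that the relations hold after base change -/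
theorem good_iff {D' : Type u} [CommRing D'] [IsLocalRing D'] [CL D'] (φ : D →+* D')
    (hφ : Surjective φ) (q α : ℕ) (z : D) (s : D⟦X⟧) (hs : constantCoeff s ∈ maximalIdeal D) :
    Good q α z (RingHom.ker φ) s ↔ Rel q α (φ z) (sub (PowerSeries.map φ s)) := by
  have hm := Calc_mem φ hφ hs
  have hc : ∀ f : D⟦X⟧, CIn (RingHom.ker φ) f ↔ PowerSeries.map φ f = 0 := fun f => by
    rw [PowerSeries.ext_iff]
    refine forall_congr' fun a => ?_
    rw [coeff_map, map_zero, RingHom.mem_ker]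
  rw [Calc_core φ q α z (sub s) _ (by rw [sub_X hs, sub_X hm]) (by rwa [sub_X hm]), Good, hc, hc,
    sub_X hs]

theorem good_congr {q α : ℕ} {z : D} {J : Ideal D} (hJ : J ≠ ⊤) {s s' : D⟦X⟧}
    (hs : constantCoeff s ∈ maximalIdeal D) (h : CIn J (s' - s)) (hg : Good q α z J s) :
    Good q α z J s' := by
  have := local_quot J hJ
  have : CL (D ⧸ J) := CL.of_surj (Ideal.Quotient.mk J) Ideal.Quotient.mk_surjective
  have hs' : constantCoeff s' ∈ maximalIdeal D := by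
    have h1 := le_maximalIdeal hJ (h 0)
    rw [coeff_zero_eq_constantCoeff_apply, map_sub] at h1
    simpa using add_mem h1 hs
  rw [cin_iff, map_sub, sub_eq_zero] at h
  have h1 := good_iff (Ideal.Quotient.mk J) Ideal.Quotient.mk_surjective q α z s hs
  have h2 := good_iff (Ideal.Quotient.mk J) Ideal.Quotient.mk_surjective q α z s' hs'
  rw [Ideal.mk_ker] at h1 h2
  rw [h2, h]
  exact h1.1 hg

/-- base change of the relations along any map with `σ' X` in the maximal ideal -/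
theorem Rel.map {D₀ : Type u} [CommRing D₀] (φ : D₀ →+* D) {q α : ℕ} {z : D₀} {σ₀ : En D₀}
    (h : Rel q α z σ₀) (hm : constantCoeff (PowerSeries.map φ (σ₀ X)) ∈ maximalIdeal D) :
    Rel q α (φ z) (sub (PowerSeries.map φ (σ₀ X))) := by
  rw [Calc_core φ q α z σ₀ _ (sub_X hm).symm (by rwa [sub_X hm]), h.1, ← tau_X,
    ← AlgHom.mul_apply, ← AlgHom.mul_apply, h.2]
  simp

end Pool.Agent.MP_deef5c_ag.O

end

section

/-! Linear compactness of complete Noetherian local rings. -/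

open PowerSeries IsLocalRing Finset Function
open scoped Polynomial

namespace Pool.Agent.MP_deef5c_ag.O

universe u

theorem LinC_art (S : Type u) [CommRing S] [IsLocalRing S] [IsNoetherianRing S] (N : ℕ) :
    IsArtinianRing (S ⧸ maximalIdeal S ^ N) :=
  have : Ring.KrullDimLE 0 (S ⧸ maximalIdeal S ^ N) := Ring.krullDimLE_zero_iff.mpr fun J hJ =>
    Ideal.isMaximal_of_isIntegral_of_isMaximal_comap _ <| by
      have h1 := hJ.comap (Ideal.Quotient.mk (maximalIdeal S ^ N))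
      have h2 : maximalIdeal S ^ N ≤ J.comap (Ideal.Quotient.mk (maximalIdeal S ^ N)) :=
        le_trans (by simp) (Ideal.ker_le_comap _)
      have h3 := le_antisymm (le_maximalIdeal h1.1) (h1.le_of_pow_le h2)
      convert! IsLocalRing.maximalIdeal.isMaximal S
  IsNoetherianRing.isArtinianRing_of_krullDimLE_zero

theorem LinC_least {S : Type u} [CommRing S] [IsLocalRing S] [IsNoetherianRing S] {ι : Type u}
    [Nonempty ι] (J : ι → Ideal S) (hdir : ∀ i j, ∃ l, J l ≤ J i ∧ J l ≤ J j) (N : ℕ) :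
    ∃ i, ∀ j, J i ≤ J j ⊔ maximalIdeal S ^ N := by
  have := LinC_art S N
  let π := Ideal.Quotient.mk (maximalIdeal S ^ N)
  obtain ⟨_, ⟨i, rfl⟩, hi⟩ := (wellFounded_lt (α := Ideal (S ⧸ maximalIdeal S ^ N))).has_min
    (Set.range fun i => (J i).map π) (Set.range_nonempty _)
  refine ⟨i, fun j => ?_⟩
  obtain ⟨l, h1, h2⟩ := hdir i j
  have h3 : (J l).map π = (J i).map π :=
    eq_of_le_of_not_lt (Ideal.map_mono h1) (hi _ ⟨l, rfl⟩)
  have h4 : (J i).map π ≤ (J j).map π := h3 ▸ Ideal.map_mono h2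
  have h5 := Ideal.map_le_iff_le_comap.1 h4
  rwa [Ideal.comap_map_of_surjective π Ideal.Quotient.mk_surjective, ← RingHom.ker_eq_comap_bot,
    Ideal.mk_ker] at h5

theorem LinC_krull {S : Type u} [CommRing S] [IsLocalRing S] [IsNoetherianRing S] (J : Ideal S)
    {x : S} (h : ∀ N, x ∈ J ⊔ maximalIdeal S ^ N) : x ∈ J := by
  have h1 := (maximalIdeal S).iInf_pow_smul_eq_bot_of_isLocalRing (M := S ⧸ J)
    (maximalIdeal.isMaximal S).ne_top
  rw [← Ideal.Quotient.eq_zero_iff_mem, ← Submodule.mem_bot S, ← h1, Submodule.mem_iInf]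
  intro N
  obtain ⟨y, hy, z, hz, rfl⟩ := Submodule.mem_sup.1 (h N)
  rw [map_add, Ideal.Quotient.eq_zero_iff_mem.2 hy, zero_add]
  have := Submodule.smul_mem_smul hz (Submodule.mem_top (x := (1 : S ⧸ J)))
  rwa [← Algebra.algebraMap_eq_smul_one] at this

/-- Chevalley: with `J∞ = ⨅ J i`, for each `N` some `J i ≤ J∞ + m^N` (the images of the `J i` in the
Artinian ring `S ⧸ m^N` have a least element `K N`; the `K N` are compatible and by completeness
every element of `K N` is congruent mod `m^N` to an element of `⋂_N K N = J∞`).  Then choose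
`i N` decreasing with `J (i N) ≤ J∞ + m^N`, write `a (i (N+1)) - a (i N) = j N + x N` with
`x N ∈ m^N`, put `b = a (i 0) + ∑ x N`, and use `⋂_N (J i + m^N) = J i`. -/
theorem lin_compact {S : Type u} [CommRing S] [IsLocalRing S] [CL S] {ι : Type u} [Nonempty ι]
    (J : ι → Ideal S) (a : ι → S) (hdir : ∀ i j, ∃ l, J l ≤ J i ∧ J l ≤ J j)
    (hcomp : ∀ i j, J i ≤ J j → a i - a j ∈ J j) : ∃ b, ∀ i, b - a i ∈ J i := by
  choose t ht using LinC_least J hdir
  let P : ℕ → S → Prop := fun N x => ∀ i, x - a i ∈ J i ⊔ maximalIdeal S ^ N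
  have h0 : ∀ N, P N (a (t N)) := fun N i => by
    obtain ⟨l, h1, h2⟩ := hdir i (t N)
    have e : a (t N) - a i = (a l - a i) - (a l - a (t N)) := by ring
    rw [e]
    exact sub_mem (Ideal.mem_sup_left (hcomp l i h1)) (ht N i (hcomp l _ h2))
  have h1 : ∀ N x, P N x → ∃ y, P (N + 1) y ∧ x - y ∈ maximalIdeal S ^ N := fun N x hx => by
    obtain ⟨y, hy, z, hz, e⟩ := Submodule.mem_sup.1 (hx (t (N + 1)))
    refine ⟨a (t (N + 1)) + y, fun i => ?_, ?_⟩
    · rw [add_sub_right_comm]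
      exact add_mem (h0 _ i) (ht _ i hy)
    · rw [← sub_sub, ← e, add_sub_cancel_left]
      exact hz
  choose! f hf using h1
  let x : ℕ → S := fun N => Nat.rec (a (t 0)) f N
  have hx : ∀ N, P N (x N) := fun N => by
    induction N with
    | zero => exact h0 0
    | succ N ih => exact (hf N _ ih).1
  have hs : ∀ m n, m ≤ n → x m - x n ∈ maximalIdeal S ^ m := fun m n hmn => by
    induction n, hmn using Nat.le_induction with
    | base => simp
    | succ n hmn ih =>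
      have := add_mem ih (Ideal.pow_le_pow_right hmn (hf n _ (hx n)).2)
      rwa [sub_add_sub_cancel] at this
  obtain ⟨b, hb⟩ := IsPrecomplete.prec' (I := maximalIdeal S) x fun {m n} hmn => by
    rw [SModEq.sub_mem, smul_eq_mul, Ideal.mul_top]
    exact hs m n hmn
  refine ⟨b, fun i => LinC_krull _ fun N => ?_⟩
  have h2 := hb N
  rw [SModEq.sub_mem, smul_eq_mul, Ideal.mul_top] at h2
  have e : b - a i = (x N - a i) - (x N - b) := by ring
  rw [e]
  exact sub_mem (hx N i) (Ideal.mem_sup_right h2)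

end Pool.Agent.MP_deef5c_ag.O

end

section

/-! A minimal ideal modulo which the relations can be solved. -/

open PowerSeries IsLocalRing Finset Function
open scoped Polynomial

namespace Pool.Agent.MP_deef5c_ag.O

universe u

variable {R : Type u} [CommRing R] [IsLocalRing R] [CL R]

/-- Zorn's lemma for the pairs `(J, s)` with `J ≤ J₂`, `s ≡ s₂ mod J₂`, `Good J s`, ordered by
`(J', s') ≤ (J, s)` iff `J' ≤ J` and `s' ≡ s mod J`.  For a non-empty chain take `J = ⨅ J i` and each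
coefficient of `s` from `lin_compact`; `good_congr`. -/
theorem zorn_min (q α : ℕ) (z : R) (J₂ : Ideal R) (hJ₂ : J₂ ≠ ⊤) (s₂ : R⟦X⟧)
    (hs : constantCoeff s₂ ∈ maximalIdeal R) (hg : Good q α z J₂ s₂) :
    ∃ (J : Ideal R) (s : R⟦X⟧), J ≤ J₂ ∧ CIn J₂ (s - s₂) ∧ Good q α z J s ∧
      ∀ (J' : Ideal R) (s' : R⟦X⟧), J' ≤ J → CIn J (s' - s) → Good q α z J' s' → J' = J := by
  have tr : ∀ {I J : Ideal R} {f g h : R⟦X⟧}, I ≤ J → CIn I (f - g) → CIn J (g - h) →
      CIn J (f - h) := fun hI h1 h2 a => by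
    have := add_mem (hI (h1 a)) (h2 a)
    rwa [← map_add, sub_add_sub_cancel] at this
  have rf : ∀ (I : Ideal R) (f : R⟦X⟧), CIn I (f - f) := fun I f a => by simp
  let T := {p : Ideal R × R⟦X⟧ // p.1 ≤ J₂ ∧ CIn J₂ (p.2 - s₂) ∧ Good q α z p.1 p.2}
  have : Nonempty T := ⟨⟨(J₂, s₂), le_rfl, rf _ _, hg⟩⟩
  obtain ⟨m, hm⟩ := exists_maximal_of_nonempty_chains_bounded
    (r := fun a b : T => b.1.1 ≤ a.1.1 ∧ CIn a.1.1 (b.1.2 - a.1.2)) (fun c hc ⟨i₀, hi₀⟩ => by
      have : Nonempty c := ⟨⟨i₀, hi₀⟩⟩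
      have tot : ∀ i j : c, (j.1.1.1 ≤ i.1.1.1 ∧ CIn i.1.1.1 (j.1.1.2 - i.1.1.2)) ∨
          (i.1.1.1 ≤ j.1.1.1 ∧ CIn j.1.1.1 (i.1.1.2 - j.1.1.2)) := fun i j => by
        by_cases h : i.1 = j.1
        · exact Or.inl (h ▸ ⟨le_rfl, rf _ _⟩)
        · exact hc i.2 j.2 h
      choose b hb using fun n => lin_compact (fun i : c => i.1.1.1) (fun i => coeff n i.1.1.2)
        (fun i j => (tot i j).elim (fun h => ⟨j, h.1, le_rfl⟩) fun h => ⟨i, le_rfl, h.1⟩)
        fun i j h => (tot i j).elim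
          (fun h' => h (by simpa using neg_mem (h'.2 n))) fun h' => by simpa using h'.2 n
      have h1 : ∀ i : c, CIn i.1.1.1 (mk b - i.1.1.2) := fun i n => by simpa using hb n i
      have h2 : ∀ i : c, Good q α z i.1.1.1 (mk b) := fun i => by
        refine good_congr (ne_top_of_le_ne_top hJ₂ i.1.2.1) ?_ (h1 i) i.1.2.2.2
        simpa using add_mem (le_maximalIdeal hJ₂ (i.1.2.2.1 0)) hs
      exact ⟨⟨(⨅ i : c, i.1.1.1, mk b), iInf_le_of_le ⟨i₀, hi₀⟩ i₀.2.1,
        tr le_rfl (fun n => i₀.2.1 (h1 ⟨i₀, hi₀⟩ n)) i₀.2.2.1,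
        fun n => Ideal.mem_iInf.2 fun i => (h2 i).1 n,
        fun n => Ideal.mem_iInf.2 fun i => (h2 i).2 n⟩,
        fun a ha => ⟨iInf_le (fun i : c => i.1.1.1) ⟨a, ha⟩, h1 ⟨a, ha⟩⟩⟩)
    fun h h' => ⟨h'.1.trans h.1, tr h.1 h'.2 h.2⟩
  exact ⟨m.1.1, m.1.2, m.2.1, m.2.2.1, m.2.2.2, fun J' s' h1 h2 h3 => le_antisymm h1
    (hm ⟨(J', s'), h1.trans m.2.1, tr m.2.1 h2 m.2.2.1, h3⟩ ⟨h1, h2⟩).1⟩

end Pool.Agent.MP_deef5c_ag.O

end

section

/-! Base change of local lifts. -/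

open PowerSeries IsLocalRing Finset Function
open scoped Polynomial

namespace Pool.Agent.MP_deef5c_ag.O

universe u

variable {k : Type u} [Field k] {G : Type*} [Group G]

theorem OneTwo_const (σ : k⟦X⟧ ≃ₐ[k] k⟦X⟧) : constantCoeff (σ X) = 0 := by
  by_contra h
  have h1 : IsUnit (σ X) := isUnit_iff_constantCoeff.2 (Ne.isUnit h)
  have h2 : IsUnit (X : k⟦X⟧) := by simpa using h1.map σ.symm
  have h3 := isUnit_iff_constantCoeff.1 h2
  simp at h3

/-- `ρ'' g = sub (map φ (ρ' g X))`, multiplicative by `map_en` and `en_ext` -/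
theorem LocLifts.map {ρ : G →* (k⟦X⟧ ≃ₐ[k] k⟦X⟧)} {A A' : Type u} [CommRing A] [CommRing A']
    [IsLocalRing A'] [CL A'] {π : A →+* k} (h : LocLifts ρ π) (φ : A →+* A') (π' : A' →+* k)
    (hπ' : Surjective π') (hφ : ∀ a, π' (φ a) = π a) : LocLifts ρ π' := by
  obtain ⟨ρ', hρ'⟩ := h
  have hc : π'.comp φ = π := RingHom.ext hφ
  have hred : ∀ g, PowerSeries.map π' (PowerSeries.map φ (ρ' g X)) = ρ g X := fun g => by
    rw [← RingHom.comp_apply, ← PowerSeries.map_comp, hc, hρ', map_X]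
  have hs : ∀ g, constantCoeff (PowerSeries.map φ (ρ' g X)) ∈ maximalIdeal A' := fun g => by
    rw [← pi_eq_zero_iff π' hπ', ← coeff_zero_eq_constantCoeff_apply, ← coeff_map, hred,
      coeff_zero_eq_constantCoeff_apply, OneTwo_const]
  let τ : G → En A' := fun g => sub (PowerSeries.map φ (ρ' g X))
  have hX : ∀ g, τ g X = PowerSeries.map φ (ρ' g X) := fun g => sub_X (hs g)
  have hm : ∀ g, constantCoeff (τ g X) ∈ maximalIdeal A' := fun g => by rw [hX]; exact hs g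
  have hmap : ∀ g f, PowerSeries.map φ (ρ' g f) = τ g (PowerSeries.map φ f) := fun g f =>
    map_en φ (ρ' g : En A) (τ g) (hX g).symm (hm g) f
  have hmul : ∀ g g', τ (g * g') = τ g * τ g' := fun g g' => by
    refine en_ext ?_ (hm _)
    rw [hX, AlgHom.mul_apply, hX, ← hmap, map_mul, AlgEquiv.mul_apply]
  have hone : τ 1 = 1 := by
    refine en_ext ?_ (hm _)
    rw [hX, map_one, AlgEquiv.one_apply, map_X, AlgHom.one_apply]
  have hinv : ∀ g g', g * g' = 1 → (τ g).comp (τ g') = AlgHom.id A' A'⟦X⟧ := fun g g' e => by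
    have h1 := hmul g g'
    rw [e, hone] at h1
    exact h1.symm
  refine ⟨MonoidHom.mk' (fun g => AlgEquiv.ofAlgHom (τ g) (τ g⁻¹) (hinv _ _ (mul_inv_cancel g))
    (hinv _ _ (inv_mul_cancel g))) fun g g' => AlgEquiv.ext fun f => ?_, fun g f => ?_⟩
  · change τ (g * g') f = τ g (τ g' f)
    rw [hmul, AlgHom.mul_apply]
  · change PowerSeries.map π' (τ g f) = _
    refine map_en π' (τ g) (ρ g : En k) (by rw [hX]; exact hred g) ?_ f
    change constantCoeff (ρ g X) ∈ _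
    rw [OneTwo_const]
    exact zero_mem _

/-- `A = O ⧸ m^M` with `p^N ∉ m^M` (Krull intersection) -/
theorem one_two (p N : ℕ) [Fact p.Prime] (ρ : G →* (k⟦X⟧ ≃ₐ[k] k⟦X⟧)) (O : Type u) [CommRing O]
    [IsDomain O] [IsDiscreteValuationRing O] [CharZero O] (π : O →+* k) (hπ : Surjective π)
    (h : LocLifts ρ π) :
    ∃ (A : Type u) (_ : CommRing A) (_ : IsLocalRing A) (_ : IsArtinianRing A) (π' : A →+* k),
      Surjective π' ∧ (p : A) ^ N ≠ 0 ∧ LocLifts ρ π' := by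
  have h0 : (p : O) ^ N ≠ 0 := pow_ne_zero N (Nat.cast_ne_zero.2 (Fact.out : p.Prime).ne_zero)
  have h1 : ∃ M : ℕ, (p : O) ^ N ∉ maximalIdeal O ^ M := by
    by_contra hc
    push Not at hc
    have h2 : (p : O) ^ N ∈ ⨅ M : ℕ, maximalIdeal O ^ M := Ideal.mem_iInf.2 hc
    rw [Ideal.iInf_pow_eq_bot_of_isLocalRing _ (maximalIdeal.isMaximal O).ne_top] at h2
    exact h0 h2
  obtain ⟨M, hM⟩ := h1
  have hJ : maximalIdeal O ^ M ≠ ⊤ := fun e => hM (by rw [e]; trivial)
  have := local_quot _ hJ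
  obtain ⟨π', hπ', hφ⟩ := exists_pi_quot π hπ _ hJ
  have : IsArtinianRing (O ⧸ maximalIdeal O ^ M) := by
    rw [isArtinianRing_iff_isNilpotent_maximalIdeal,
      ← map_maximalIdeal_of_surjective (Ideal.Quotient.mk (maximalIdeal O ^ M))
        Ideal.Quotient.mk_surjective]
    exact ⟨M, by rw [← Ideal.map_pow, Ideal.map_quotient_self]; rfl⟩
  have : CL (O ⧸ maximalIdeal O ^ M) := ⟨inferInstance, inferInstance⟩
  refine ⟨O ⧸ maximalIdeal O ^ M, inferInstance, inferInstance, inferInstance, π', hπ', ?_,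
    h.map (Ideal.Quotient.mk _) π' hπ' hφ⟩
  rw [← map_natCast (Ideal.Quotient.mk (maximalIdeal O ^ M)), ← map_pow, Ne,
    Ideal.Quotient.eq_zero_iff_mem]
  exact hM

end Pool.Agent.MP_deef5c_ag.O

end
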