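import Pool.Agent.Mg.Fdeef5c.Gbe004d
import Pool.Agent.Mg.Fdeef5c.Gdbb068
import Pool.Agent.Mg.Fdeef5c.G5297dc

section

/-! Assembling the lifted action. -/

open PowerSeries IsLocalRing Function Pool.Agent.MP_deef5c_ag.O
open scoped Polynomial

namespace Pool.Agent.MP_deef5c_ag.E

universe u

variable {k : Type u} [Field k]

/-- the higher order terms of the second equation -/
def AFin_V {R : Type*} [CommRing R] (x s t : R) : R :=
  s - x - s ^ 3 + x ^ 15 * s ^ 3 * (1 + s - x - s ^ 3) + s ^ 5 * t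

theorem AFin_eq {R : Type*} [CommRing R] {x s t : R} (h : t ^ 3 - s ^ 6 * t = TT x s) :
    s = t ^ 3 - s * AFin_V x s t := by
  unfold TT at h
  unfold AFin_V
  linear_combination -h

theorem AFin_dvd {R : Type*} [CommRing R] {x s b : R} (t : R) (hx : b ∣ x) (hs : b ∣ s) :
    b ∣ AFin_V x s t := by
  obtain ⟨x, rfl⟩ := hx
  obtain ⟨s, rfl⟩ := hs
  exact ⟨s - x - b ^ 2 * s ^ 3 + b ^ 17 * x ^ 15 * s ^ 3 * (1 + b * s - b * x - (b * s) ^ 3) +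
    b ^ 4 * s ^ 5 * t, by unfold AFin_V; ring⟩

theorem AFin_q {R : Type*} [CommRing R] {b u v : R} :
    b ∣ u - v ↔ Ideal.Quotient.mk (Ideal.span {b}) u = Ideal.Quotient.mk (Ideal.span {b}) v := by
  rw [Ideal.Quotient.eq, Ideal.mem_span_singleton]

theorem AFin_step {R : Type*} [CommRing R] {b t s s' u u' : R} (h1 : b ∣ s - s') (h2 : b ∣ u - u')
    (h3 : t ∣ u) (h4 : t ∣ s') : b * t ∣ s * u - s' * u' := by
  rw [show s * u - s' * u' = (s - s') * u + (u - u') * s' by ring]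
  exact dvd_add (mul_dvd_mul h1 h3) (mul_dvd_mul h2 h4)

theorem AFin_ord {R : Type*} [CommRing R] {x s t : R} (x0 : t ∣ x) (s0 : t ∣ s)
    (e1 : s ^ 3 - x ^ 6 * s = x) (e2 : t ^ 3 - s ^ 6 * t = TT x s) :
    t ^ 6 ∣ s - t ^ 3 ∧ t ^ 9 ∣ x := by
  have e := AFin_eq e2
  have v1 := AFin_dvd t x0 s0
  have s2 : t ^ 2 ∣ s := by
    rw [e]
    exact dvd_sub (pow_dvd_pow t (by norm_num)) (by rw [pow_two]; exact mul_dvd_mul s0 v1)
  have s3 : t ^ 3 ∣ s := by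
    rw [e]
    exact dvd_sub dvd_rfl (by rw [pow_succ]; exact mul_dvd_mul s2 v1)
  have x9 : t ^ 9 ∣ x := by
    rw [← e1]
    refine dvd_sub ?_ ?_
    · rw [show t ^ 9 = (t ^ 3) ^ 3 by ring]
      exact pow_dvd_pow_of_dvd s3 3
    · rw [show t ^ 9 = t ^ 6 * t ^ 3 by ring]
      exact mul_dvd_mul (pow_dvd_pow_of_dvd x0 6) s3
  refine ⟨?_, x9⟩
  rw [show s - t ^ 3 = -(s * AFin_V x s t) by linear_combination e, dvd_neg,
    show t ^ 6 = t ^ 3 * t ^ 3 by ring]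
  exact mul_dvd_mul s3 (AFin_dvd t ((pow_dvd_pow t (by norm_num)).trans x9) s3)

theorem AFin_zero {f : k⟦X⟧} (h : ∀ n, X ^ n ∣ f) : f = 0 := by
  ext n
  exact X_pow_dvd_iff.1 (h (n + 1)) n (Nat.lt_succ_self n)

/-- the ideal `I = (x - x', s - s')` satisfies `I ≤ X I`; or show `X^n ∣ x - x'`, `X^n ∣ s - s'` by
induction: `x - x'` is a combination with coefficients in `(X)`, and so is `s - s'` by the second
equation, `TT x s = s + (terms of degree ≥ 2)` -/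
theorem mod_uniq {x s x' s' : k⟦X⟧} (x0 : constantCoeff x = 0) (s0 : constantCoeff s = 0)
    (x0' : constantCoeff x' = 0) (s0' : constantCoeff s' = 0) (e1 : s ^ 3 - x ^ 6 * s = x)
    (e2 : X ^ 3 - s ^ 6 * X = TT x s) (e1' : s' ^ 3 - x' ^ 6 * s' = x')
    (e2' : X ^ 3 - s' ^ 6 * X = TT x' s') : x = x' ∧ s = s' := by
  rw [← X_dvd_iff] at x0 s0 x0' s0'
  have key : ∀ n, X ^ n ∣ x - x' ∧ X ^ n ∣ s - s' := by
    intro n
    induction n with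
    | zero => simp
    | succ n ih =>
      have q1 := AFin_q.1 ih.1
      have q2 := AFin_q.1 ih.2
      rw [pow_succ]
      constructor
      · rw [show x - x' = s * (s ^ 2 - x ^ 6) - s' * (s' ^ 2 - x' ^ 6) by
          linear_combination e1' - e1]
        exact AFin_step ih.2 (AFin_q.2 (by simp only [map_sub, map_pow, q1, q2]))
          (dvd_sub (dvd_pow s0 two_ne_zero) (dvd_pow x0 (by norm_num))) s0'
      · rw [show s - s' = -(s * AFin_V x s X - s' * AFin_V x' s' X) by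
          linear_combination AFin_eq e2 - AFin_eq e2', dvd_neg]
        exact AFin_step ih.2 (AFin_q.2 (by
          simp only [AFin_V, map_sub, map_add, map_mul, map_pow, q1, q2])) (AFin_dvd _ x0 s0) s0'
  exact ⟨sub_eq_zero.1 (AFin_zero fun n => (key n).1), sub_eq_zero.1 (AFin_zero fun n => (key n).2)⟩

/-- `X ∣ s`, so `X^3 ∣ x`, `X^3 ∣ s (unit)`, `X^9 ∣ x`, ... -/
theorem Mod.ord {c : k} {ρ : EE →* (k⟦X⟧ ≃ₐ[k] k⟦X⟧)} {x s : k⟦X⟧} (M : Mod c ρ x s) :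
    X ^ 6 ∣ s - X ^ 3 ∧ X ^ 9 ∣ x := by
  exact AFin_ord (X_dvd_iff.2 M.x0) (X_dvd_iff.2 M.s0) M.e1 M.e2

/-- the action as a homomorphism to the endomorphisms -/
noncomputable def AFin_r (ρ : EE →* (k⟦X⟧ ≃ₐ[k] k⟦X⟧)) : EE →* En k :=
  (Units.coeHom _).comp ((AlgEquiv.algHomUnitsEquiv k k⟦X⟧).symm.toMonoidHom.comp ρ)

theorem AFin_ch {R : Type*} [CommRing R] (q T Z : R) :
    ch q 0 0 T Z 1 = Z ^ 3 - q ^ 2 * Z - T := by
  rw [ch_poly]
  ring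

theorem AFin_ST (c : k⟦X⟧) {x s : k⟦X⟧} (hs : X ^ 3 ∣ s) (hx : X ^ 9 ∣ x) :
    X ^ 10 ∣ ST c x s X - X + c * s ^ 3 := by
  obtain ⟨s, rfl⟩ := hs
  obtain ⟨x, rfl⟩ := hx
  exact ⟨X ^ 45 * x ^ 6 * ((X ^ 3 * s) ^ 2 - (X ^ 9 * x) ^ 6) ^ 3 + X ^ 2 * s ^ 4 -
    X ^ 26 * s ^ 3 * x ^ 3 + X ^ 71 * x ^ 9 * (X ^ 3 * s - c - (X ^ 9 * x) ^ 3), by
      unfold ST; ring⟩

theorem AFin_sh {x s : k⟦X⟧} (hs : X ^ 6 ∣ s - X ^ 3) (hx : X ^ 9 ∣ x) :
    X ^ 3 ∣ s ∧ (s ≠ 0 ∧ s + x ^ 3 ≠ 0) ∧ ¬ X ^ 20 ∣ (s + x ^ 3) ^ 6 := by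
  have key : ∀ f : k⟦X⟧, X ^ 6 ∣ f - X ^ 3 → ¬ X ^ 20 ∣ f ^ 6 := by
    rintro f ⟨m, hm⟩ h
    rw [show f = X ^ 3 * (1 + X ^ 3 * m) by linear_combination hm, mul_pow, ← pow_mul,
      show 20 = 3 * 6 + 2 from rfl, pow_add,
      mul_dvd_mul_iff_left (pow_ne_zero _ X_ne_zero)] at h
    have := X_dvd_iff.1 ((dvd_pow_self X two_ne_zero).trans h)
    simp at this
  have h1 : X ^ 6 ∣ s + x ^ 3 - X ^ 3 := by
    rw [add_sub_right_comm]
    exact dvd_add hs (dvd_pow ((pow_dvd_pow X (by norm_num)).trans hx) three_ne_zero)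
  refine ⟨?_, ⟨fun e => key s hs ?_, fun e => key _ h1 ?_⟩, key _ h1⟩
  · have := dvd_add ((pow_dvd_pow X (by norm_num : 3 ≤ 6)).trans hs) (dvd_refl (X ^ 3))
    rwa [sub_add_cancel] at this
  · rw [e, zero_pow (by norm_num)]
    exact dvd_zero _
  · rw [e, zero_pow (by norm_num)]
    exact dvd_zero _

variable {A : Type u} [CommRing A] [IsLocalRing A] [IsArtinianRing A]

omit [IsArtinianRing A] in
theorem AFin_cc (π : A →+* k) (hπ : Surjective π) (f : A⟦X⟧) :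
    constantCoeff f ∈ maximalIdeal A ↔ constantCoeff (PowerSeries.map π f) = 0 := by
  rw [← pi_eq_zero_iff π hπ, ← coeff_zero_eq_constantCoeff_apply,
    ← coeff_zero_eq_constantCoeff_apply, coeff_map]

/-- `hom_of_rel` with `q = m = 3`, `α = 1` into the units of `En A` (`Units.ofPowEqOne`,
`AlgEquiv.algHomUnitsEquiv`, see `three_one` in `O/ThreeOne.lean`); reductions by `map_en`. -/
theorem locLifts_of (π : A →+* k) (hπ : Surjective π) (ρ : EE →* (k⟦X⟧ ≃ₐ[k] k⟦X⟧)) (σ τ : En A)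
    (hσ : σ ^ 3 = 1) (hτ : τ ^ 3 = 1) (hc : τ * σ = σ * τ)
    (h1 : PowerSeries.map π (σ X) = ρ sg X) (h2 : PowerSeries.map π (τ X) = ρ ta X)
    (h3 : constantCoeff (ρ sg X) = 0) (h4 : constantCoeff (ρ ta X) = 0) : LocLifts ρ π := by
  have hgen : ∀ g : EE, g = sg ^ g.toAdd.1.val * ta ^ g.toAdd.2.val := by decide
  obtain ⟨φ, hφσ, hφτ⟩ := hom_of_rel sg ta (Units.ofPowEqOne σ 3 hσ three_ne_zero)
    (Units.ofPowEqOne τ 3 hτ three_ne_zero) 3 3 1 three_pos three_pos (by decide) (by decide)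
    (Units.pow_ofPowEqOne _ _) (Units.pow_ofPowEqOne _ _) (by decide)
    (Units.ext (by rw [pow_one]; exact hc)) (fun g => ⟨_, _, hgen g⟩) fun i j e => by
      have e1 := congrArg Multiplicative.toAdd e
      simp only [sg, ta, toAdd_mul, toAdd_pow, toAdd_ofAdd, toAdd_one, Prod.smul_mk, smul_zero,
        nsmul_eq_mul, mul_one, Prod.mk_add_mk, add_zero, zero_add, Prod.mk_eq_zero] at e1
      exact ⟨(ZMod.natCast_eq_zero_iff i 3).1 e1.1, (ZMod.natCast_eq_zero_iff j 3).1 e1.2⟩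
  refine ⟨(AlgEquiv.algHomUnitsEquiv A A⟦X⟧).toMonoidHom.comp φ, fun g f => ?_⟩
  change PowerSeries.map π ((φ g : En A) f) = AFin_r ρ g (PowerSeries.map π f)
  rw [hgen g]
  simp only [map_mul, map_pow, hφσ, hφτ, Units.val_mul, Units.val_pow_eq_pow_val,
    Units.val_ofPowEqOne, AlgHom.mul_apply]
  rw [map_en_pow π σ (AFin_r ρ sg) h1 (GrpA_mem.2 h3),
    map_en_pow π τ (AFin_r ρ ta) h2 (GrpA_mem.2 h4)]

/-- Let `σ' = sub ξ`; `cub_uniq` (`TT_unit`) gives `σ' * Sg = Sg * σ`.  The reductions of `Sg x`, `Sg X` satisfy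
the equations of `mod_uniq`, so they are `x₀, s₀`.  The reduction `η` of `ξ` and `ρ sg X` (apply `ρ sg` to
`e2`) are roots of `Z^3 - sh^6 Z - TT x₀ sh`, `sh = s₀ + x₀^3`, congruent modulo `X^10` (`Mod.ord`); their
difference `d` satisfies `d (d^2 - sh^6) = 0` and `sh^6` is not divisible by `X^19`, so `d = 0`.  Then
`τ^3 X`, `σ'^3 X` are roots of the cubic of `X`, and `τ (σ' X)`, `σ' (τ X)` are roots of the cubic of `ξ`, with
the right reductions (`map_en`, relations in `EE`), so `ch_uniq`, `en_ext` give the relations. -/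
theorem lift_of [CharP k 3] {Φ : MF A} (π : A →+* k) (hπ : Surjective π) {W x : A⟦X⟧} {σ : En A}
    (S : SLv Φ π W x σ) {c : k} {a r w β ρ₁ ω : A⟦X⟧} (h : DL Φ π c x σ a r w β ρ₁ ω)
    {Sg τ : En A} (g1 : constantCoeff (Sg X) ∈ maximalIdeal A)
    (g2 : constantCoeff (τ X) ∈ maximalIdeal A)
    (g3 : ch (Sg a) (Sg r) (Sg w) (Sg (TT x X)) X 1 = 0) (g4 : τ * Sg = Sg)
    (g5 : PowerSeries.map π (τ X) = X + PowerSeries.map π (Sg X) ^ 3) {ξ : A⟦X⟧}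
    (g6 : ch (Sg (σ a)) (Sg (σ r)) (Sg (σ w)) (Sg (σ (TT x X))) ξ 1 = 0)
    (g7 : X ^ 10 ∣ PowerSeries.map π ξ - X + C c * PowerSeries.map π (Sg X) ^ 3)
    {ρ : EE →* (k⟦X⟧ ≃ₐ[k] k⟦X⟧)} {x₀ s₀ : k⟦X⟧} (M : Mod c ρ x₀ s₀) : LocLifts ρ π := by
  obtain ⟨o1, o2⟩ := M.ord
  obtain ⟨o3, o4, o5⟩ := AFin_sh o1 o2
  have hs0 := (AFin_cc π hπ _).1 g1
  have hσ0 := (AFin_cc π hπ _).1 S.s0
  have hS := map_en π Sg _ (sub_X (GrpA_mem.2 hs0)).symm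
    (by rw [sub_X (GrpA_mem.2 hs0)]; exact GrpA_mem.2 hs0)
  have hσ := map_en π σ _ (sub_X (GrpA_mem.2 hσ0)).symm
    (by rw [sub_X (GrpA_mem.2 hσ0)]; exact GrpA_mem.2 hσ0)
  generalize sub (PowerSeries.map π (Sg X)) = Sb at hS
  generalize sub (PowerSeries.map π (σ X)) = σb at hσ
  have hSX : Sb X = PowerSeries.map π (Sg X) := by rw [hS, map_X]
  have ra : PowerSeries.map π (Sg a) = PowerSeries.map π (Sg X) ^ 3 := by
    rw [hS a, h.ra, map_pow, hSX]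
  have rr : PowerSeries.map π (Sg r) = 0 := by rw [hS, h.rr, map_zero]
  have rw' : PowerSeries.map π (Sg w) = 0 := by rw [hS, h.rw', map_zero]
  obtain ⟨hx, hs⟩ : PowerSeries.map π (Sg x) = x₀ ∧ PowerSeries.map π (Sg X) = s₀ := by
    refine mod_uniq ((AFin_cc π hπ _).1 (en_mem Sg g1 S.x0)) hs0 M.x0 M.s0 ?_ ?_ M.e1 M.e2
    · have := congrArg Sb S.rx
      rwa [map_sub, map_mul, map_pow, map_pow, ← hS, hSX] at this
    · have := congrArg (PowerSeries.map π) g3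
      rw [map_ch, ra, rr, rw', map_TT, map_TT, map_X, map_one, map_zero, AFin_ch] at this
      linear_combination this
  rw [hs] at g5 g7 ra hSX
  have rsX : PowerSeries.map π (Sg (σ X)) = s₀ + x₀ ^ 3 := by
    rw [hS, S.rs, map_add, map_pow, hSX, ← hS, hx]
  have rsa : PowerSeries.map π (Sg (σ a)) = (s₀ + x₀ ^ 3) ^ 3 := by
    rw [← rsX, hS, hS, hσ, hσ, h.ra, map_pow, map_pow, map_X]
  have rsr : PowerSeries.map π (Sg (σ r)) = 0 := by rw [hS, hσ, h.rr, map_zero, map_zero]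
  have rsw : PowerSeries.map π (Sg (σ w)) = 0 := by rw [hS, hσ, h.rw', map_zero, map_zero]
  have hη : PowerSeries.map π ξ = ρ sg X := by
    have e1 := congrArg (PowerSeries.map π) g6
    rw [map_ch, rsa, rsr, rsw, map_TT, map_TT, map_TT, S.sx, hx, rsX, map_one, map_zero,
      AFin_ch] at e1
    have e2 := congrArg (ρ sg) M.e2
    rw [map_sub, map_mul, map_pow, map_pow, map_TT, M.sx, M.ss] at e2
    have e3 : X ^ 10 ∣ PowerSeries.map π ξ - ρ sg X := by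
      have := dvd_sub g7 (AFin_ST (C c) o3 o2)
      rwa [← M.st, add_sub_add_right_eq_sub, sub_sub_sub_cancel_right] at this
    have e4 : (3 : k⟦X⟧) = 0 := by
      rw [← map_ofNat (C (R := k)) 3, show (OfNat.ofNat 3 : k) = 0 from CharP.cast_eq_zero k 3,
        map_zero]
    generalize PowerSeries.map π ξ = η at e1 e3
    generalize ρ sg X = ζ at e2 e3
    have e5 : (η - ζ) * ((η - ζ) ^ 2 - (s₀ + x₀ ^ 3) ^ 6) = 0 := by
      linear_combination e1 - e2 + (η * ζ ^ 2 - η ^ 2 * ζ) * e4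
    refine sub_eq_zero.1 ((mul_eq_zero.1 e5).resolve_right fun e => o5 ?_)
    rw [← sub_eq_zero.1 e]
    exact pow_mul (X : k⟦X⟧) 10 2 ▸ pow_dvd_pow_of_dvd e3 2
  have hX3 : (X : k⟦X⟧) ∣ s₀ ^ 3 := dvd_pow ((dvd_pow_self X three_ne_zero).trans o3) three_ne_zero
  have c1 : constantCoeff (ρ sg X) = 0 := by
    have := (dvd_pow_self X (by norm_num)).trans (AFin_ST (C c) o3 o2)
    rw [← M.st] at this
    have h2 := dvd_add (dvd_sub this (hX3.mul_left (C c))) (dvd_refl X)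
    rwa [add_sub_cancel_right, sub_add_cancel, X_dvd_iff] at h2
  have c2 : constantCoeff (ρ ta X) = 0 := by
    rw [M.tt]
    exact X_dvd_iff.1 (dvd_add dvd_rfl hX3)
  have hξ : constantCoeff ξ ∈ maximalIdeal A := (AFin_cc π hπ _).2 (hη ▸ c1)
  have hσ'X := sub_X hξ
  generalize sub ξ = σ' at hσ'X
  subst hσ'X
  rw [← M.tt] at g5
  have tr : ∀ φ : En A, ch (φ (Sg a)) (φ (Sg r)) (φ (Sg w)) (φ (Sg (TT x X))) (φ X) 1 = 0 :=
    fun φ => by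
      have := congrArg φ g3
      rwa [map_ch, map_one, map_zero] at this
  have hT := TT_unit π hπ S.x0
  have hcm : σ' * Sg = Sg * σ :=
    cub_uniq ((AFin_cc π hπ _).2 (by rw [h.rr, map_zero])) hT.1 hT.2 (en_mem σ' hξ g1)
      (en_mem Sg g1 S.s0) hξ (tr σ') g6
  have hcm' : ∀ f, σ' (Sg f) = Sg (σ f) := fun f => DFunLike.congr_fun hcm f
  have g4' : ∀ f, τ (Sg f) = Sg f := fun f => DFunLike.congr_fun g4 f
  have fix : ∀ φ : En A, φ * Sg = Sg → PowerSeries.map π (φ X) = X → φ = 1 := fun φ h1 h2 => by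
    have h3 : ∀ f, φ (Sg f) = Sg f := fun f => DFunLike.congr_fun h1 f
    have h4 := tr φ
    simp only [h3] at h4
    have h5 : φ X = X := ch_uniq π hπ (by rw [ra]; exact pow_ne_zero _ o4.1) rr rw' h4 g3
      (by rw [h2, map_X])
    exact en_ext h5 (by rw [h5, constantCoeff_X]; exact zero_mem _)
  have m1 := map_en π σ' (AFin_r ρ sg) hη (GrpA_mem.2 c1)
  have m2 := map_en π τ (AFin_r ρ ta) g5 (GrpA_mem.2 c2)
  refine locLifts_of π hπ ρ σ' τ (fix _ ?_ ?_) (fix _ ?_ ?_) (en_ext ?_ (en_mem τ g2 hξ)) hη g5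
    c1 c2
  · rw [show σ' ^ 3 * Sg = Sg * σ ^ 3 from (SemiconjBy.pow_right hcm.symm 3).symm, S.s3, mul_one]
  · rw [map_en_pow π σ' (AFin_r ρ sg) hη (GrpA_mem.2 c1), ← map_pow,
      show sg ^ 3 = 1 by decide, map_one, map_X, AlgHom.one_apply]
  · rw [pow_three, mul_assoc, mul_assoc, g4, g4, g4]
  · rw [map_en_pow π τ (AFin_r ρ ta) g5 (GrpA_mem.2 c2), ← map_pow,
      show ta ^ 3 = 1 by decide, map_one, map_X, AlgHom.one_apply]
  · have h1 := congrArg τ g6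
    rw [map_ch, map_one, map_zero, g4', g4', g4', g4'] at h1
    have h2 := tr (σ' * τ)
    simp only [AlgHom.mul_apply, g4', hcm'] at h2
    refine ch_uniq π hπ (by rw [rsa]; exact pow_ne_zero _ o4.2) rsr rsw h1 h2 ?_
    rw [AlgHom.mul_apply, AlgHom.mul_apply, m2, m1, m1, m2, ← AlgHom.mul_apply, ← AlgHom.mul_apply, ← map_mul, ← map_mul, mul_comm]

end Pool.Agent.MP_deef5c_ag.E

end

section

/-! Leading terms of the action. -/

open PowerSeries IsLocalRing Function Pool.Agent.MP_deef5c_ag.O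
open scoped Polynomial

namespace Pool.Agent.MP_deef5c_ag.E

universe u

variable {k : Type u} [Field k] [CharP k 3]

theorem BLd_comp (φ ψ : k⟦X⟧ ≃ₐ[k] k⟦X⟧) {l y l' y' : k}
    (h1 : X ^ 13 ∣ φ X - X - X ^ 9 * (C l + C y * X ^ 3))
    (h2 : X ^ 13 ∣ ψ X - X - X ^ 9 * (C l' + C y' * X ^ 3)) :
    X ^ 13 ∣ (φ * ψ) X - X - X ^ 9 * (C (l + l') + C (y + y') * X ^ 3) := by
  obtain ⟨e, he⟩ := h1
  obtain ⟨f, hf⟩ := h2
  have hC : ∀ a : k, φ (C a) = C a := fun a => φ.commutes a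
  have hu : φ X = X * (1 + X ^ 8 * (C l + C y * X ^ 3 + X ^ 4 * e)) := by linear_combination he
  have hψ : ψ X = X + X ^ 9 * (C l' + C y' * X ^ 3) + X ^ 13 * f := by linear_combination hf
  generalize hE : C l + C y * X ^ 3 + X ^ 4 * e = E at hu
  have hp : ∀ n : ℕ, ∃ F : k⟦X⟧, (1 + X ^ 8 * E) ^ n = 1 + X ^ 8 * F := fun n => by
    obtain ⟨F, hF⟩ := sub_dvd_pow_sub_pow (1 + X ^ 8 * E : k⟦X⟧) 1 n
    exact ⟨E * F, by linear_combination hF⟩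
  obtain ⟨F, hF⟩ := hp 9
  obtain ⟨G, hG⟩ := hp 12
  rw [AlgEquiv.mul_apply, hψ]
  simp only [map_add, map_mul, map_pow, hC, hu]
  generalize 1 + X ^ 8 * E = u at hF hG hu
  refine ⟨e + X ^ 4 * F * C l' + X ^ 7 * G * C y' + u ^ 13 * φ f, ?_⟩
  linear_combination he - hu + X ^ 9 * C l' * hF + X ^ 12 * C y' * hG

theorem BLd_pow (φ : k⟦X⟧ ≃ₐ[k] k⟦X⟧) {l y : k}
    (h1 : X ^ 13 ∣ φ X - X - X ^ 9 * (C l + C y * X ^ 3)) (n : ℕ) :
    X ^ 13 ∣ (φ ^ n) X - X - X ^ 9 * (C ((n : k) * l) + C ((n : k) * y) * X ^ 3) := by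
  induction n with
  | zero => simp
  | succ n ih =>
    have h := BLd_comp _ _ ih h1
    rw [pow_succ, Nat.cast_succ, add_mul, add_mul, one_mul, one_mul]
    exact h

theorem BLd_gen : ∀ g : EE, g = sg ^ g.toAdd.1.val * ta ^ g.toAdd.2.val := by
  decide

/-- If `g X ≡ X + X^9 (l + y X^3)` modulo `X^13`, then `g X = X (1 + X^8 e)`, so `g f ≡ f` modulo `X^13` for
`f = X^9 (l' + y' X^3) + X^13 f₁`: the congruences add under composition.  Every element of `EE` is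
`sg^i * ta^j` with `i, j < 3`. -/
theorem ld_all (ρ : EE →* (k⟦X⟧ ≃ₐ[k] k⟦X⟧)) {l₁ l₂ y₁ y₂ : k}
    (h1 : X ^ 13 ∣ ρ sg X - X - X ^ 9 * (C l₁ + C y₁ * X ^ 3))
    (h2 : X ^ 13 ∣ ρ ta X - X - X ^ 9 * (C l₂ + C y₂ * X ^ 3)) (g : EE) :
    X ^ 13 ∣ ρ g X - X - X ^ 9 * (C (lin2 l₁ l₂ g) + C (lin2 y₁ y₂ g) * X ^ 3) := by
  have h := BLd_comp _ _ (BLd_pow _ h1 g.toAdd.1.val) (BLd_pow _ h2 g.toAdd.2.val)
  rw [← map_pow, ← map_pow, ← map_mul, ← BLd_gen g] at h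
  exact h

/-- `s = X^3 + X^6 e`, so `s^3 = X^9 + X^18 e^3` in characteristic three, and `X^9 ∣ x` (`Mod.ord`) -/
theorem Mod.ld {c : k} (hc : c - c ^ 3 = 1) {ρ : EE →* (k⟦X⟧ ≃ₐ[k] k⟦X⟧)} {x s : k⟦X⟧}
    (M : Mod c ρ x s) : Ld ρ (-c) 1 1 0 := by
  obtain ⟨⟨e, he⟩, ⟨f, hf⟩⟩ := M.ord
  have h3 : (3 : k⟦X⟧) = 0 := by
    have h : ((3 : ℕ) : k) = 0 := CharP.cast_eq_zero k 3
    have h' := congrArg (C : k →+* k⟦X⟧) h
    rw [map_natCast, map_zero] at h'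
    exact_mod_cast h'
  have hs : s = X ^ 3 + X ^ 6 * e := by linear_combination he
  have hs3 : s ^ 3 = X ^ 9 + X ^ 18 * e ^ 3 := by
    rw [hs]
    linear_combination (X ^ 12 * e + X ^ 15 * e ^ 2) * h3
  refine ⟨ld_all ρ ?_ ?_, ?_, one_ne_zero, ?_, ?_, ?_⟩
  · rw [M.st, ST, hs3, map_neg, map_one]
    generalize (s ^ 2 - x ^ 6) ^ 3 = v
    refine ⟨X ^ 42 * f ^ 6 * v + (X ^ 5 * e ^ 3 + X ^ 68 * f ^ 9) * (s - C c - x ^ 3) +
      X ^ 2 * e - X ^ 23 * f ^ 3, ?_⟩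
    rw [hf, hs]
    ring
  · rw [M.tt, hs3, map_one, map_zero]
    exact ⟨X ^ 5 * e ^ 3, by ring⟩
  · intro h
    have h' : c = 0 := by linear_combination -h
    rw [h'] at hc
    norm_num at hc
  · intro h
    have h' : c = 1 := by linear_combination -h
    rw [h'] at hc
    norm_num at hc
  · intro h
    have h' : c = -1 := by linear_combination -h
    rw [h'] at hc
    norm_num at hc
  · simp

end Pool.Agent.MP_deef5c_ag.E

end

section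

/-! Invariants of an automorphism of order three; the special fibre. -/

open PowerSeries IsLocalRing Function Pool.Agent.MP_deef5c_ag.O
open scoped Polynomial

namespace Pool.Agent.MP_deef5c_ag.E

universe u

/-- By `qspan`, `f = a₀ + a₁ X + a₂ X^2` with `aᵢ = sub S gᵢ` fixed by `τ` (`τ * sub S = sub S` by `en_ext`).
Apply `τ` and `τ^2`, subtract and cancel the non-zero-divisors (`nzd`): `a₁ + a₂ (τ X + X) = 0`,
`a₁ + a₂ (τ^2 X + X) = 0`, so `a₂ = 0`, `a₁ = 0`. -/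
theorem inv3 {D k : Type u} [CommRing D] [IsLocalRing D] [CL D] [Field k] (π : D →+* k)
    (hπ : Surjective π) (τ : En D) (h3 : τ (τ (τ X)) = X)
    (h1 : PowerSeries.map π (τ X) ≠ X) (h2 : PowerSeries.map π (τ (τ X)) ≠ X)
    (h12 : PowerSeries.map π (τ X) ≠ PowerSeries.map π (τ (τ X)))
    (ho : order (PowerSeries.map π (X * τ X * τ (τ X))) = (3 : ℕ)) (f : D⟦X⟧) (hf : τ f = f) :
    ∃ g, sub (X * τ X * τ (τ X)) g = f := by
  have hm := Qb_mem π hπ _ 3 (by norm_num) ho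
  have hS : τ (X * τ X * τ (τ X)) = X * τ X * τ (τ X) := by
    rw [map_mul, map_mul, h3]
    ring
  have e : τ * sub (X * τ X * τ (τ X)) = sub (X * τ X * τ (τ X)) := by
    refine en_ext ?_ ?_
    · rw [AlgHom.mul_apply, sub_X hm, hS]
    · rw [AlgHom.mul_apply, sub_X hm, hS]
      exact hm
  have e' : ∀ g, τ (sub (X * τ X * τ (τ X)) g) = sub (X * τ X * τ (τ X)) g := fun g => by
    rw [← AlgHom.mul_apply, e]
  obtain ⟨g, hg⟩ := qspan π hπ _ 3 (by norm_num) ho f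
  simp only [Finset.sum_range_succ, Finset.sum_range_zero, zero_add, pow_zero, mul_one,
    pow_one] at hg
  refine ⟨g 0, ?_⟩
  have e0 := e' (g 0)
  have e1 := e' (g 1)
  have e2 := e' (g 2)
  generalize sub (X * τ X * τ (τ X)) (g 0) = a₀ at hg e0 ⊢
  generalize sub (X * τ X * τ (τ X)) (g 1) = a₁ at hg e1
  generalize sub (X * τ X * τ (τ X)) (g 2) = a₂ at hg e2
  have f1 : f = a₀ + a₁ * τ X + a₂ * τ X ^ 2 := by
    rw [← hf, hg, map_add, map_add, map_mul, map_mul, map_pow, e0, e1, e2]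
  have f2 : f = a₀ + a₁ * τ (τ X) + a₂ * τ (τ X) ^ 2 := by
    rw [← hf, f1, map_add, map_add, map_mul, map_mul, map_pow, e0, e1, e2]
  have g1 : a₁ + a₂ * (τ X + X) = 0 := by
    refine nzd π hπ (F := τ X - X) ?_ (by linear_combination hg - f1)
    rw [map_sub, PowerSeries.map_X]
    exact sub_ne_zero.2 h1
  have g2 : a₁ + a₂ * (τ (τ X) + X) = 0 := by
    refine nzd π hπ (F := τ (τ X) - X) ?_ (by linear_combination hg - f2)
    rw [map_sub, PowerSeries.map_X]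
    exact sub_ne_zero.2 h2
  have g3 : a₂ = 0 := by
    refine nzd π hπ (F := τ X - τ (τ X)) ?_ (by linear_combination g1 - g2)
    rw [map_sub]
    exact sub_ne_zero.2 h12
  rw [g3, zero_mul, add_zero] at g1
  rw [hg, g1, g3, zero_mul, zero_mul, add_zero, add_zero]

theorem BSp_dvd {k : Type u} [Field k] {n : ℕ} {f : k⟦X⟧} : X ^ n ∣ f ↔ (n : ℕ∞) ≤ order f :=
  ⟨fun h => nat_le_order f n (X_pow_dvd_iff.1 h), fun h => X_pow_dvd_iff.2 fun m hm =>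
    coeff_of_lt_order m (lt_of_lt_of_le (by exact_mod_cast hm) h)⟩

theorem BSp_ord {k : Type u} [Field k] (φ : En k) (hφ : order (φ X) = (3 : ℕ)) (n : ℕ) {f : k⟦X⟧}
    (h : X ^ (3 * n + 1) ∣ φ f) : X ^ (n + 1) ∣ f := by
  rw [BSp_dvd] at h ⊢
  rw [order_en φ 3 (by norm_num) hφ] at h
  generalize order f = o at h ⊢
  induction o using ENat.recTopCoe with
  | top => exact le_top
  | coe o =>
    have h' : 3 * n + 1 ≤ 3 * o := by exact_mod_cast h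
    exact_mod_cast (by omega : n + 1 ≤ o)

theorem BSp_diff {k : Type u} [Field k] (φ ψ : En k) (hφ : X ^ 3 ∣ φ X) (hψ : X ^ 3 ∣ ψ X)
    {c : k⟦X⟧} (hc : X ^ 2 ∣ c) : (φ X - ψ X) * X ^ 3 ∣ φ c - ψ c := by
  have h0 : ∀ f : k⟦X⟧, X ^ 3 ∣ f → constantCoeff f ∈ maximalIdeal k := by
    rintro _ ⟨g, rfl⟩
    simp
  obtain ⟨d, rfl⟩ := hc
  obtain ⟨r, hr⟩ := sub_dvd φ ψ (h0 _ hφ) (h0 _ hψ) d
  obtain ⟨p, hp⟩ := hφ
  obtain ⟨q, hq⟩ := hψ
  refine ⟨(p + q) * φ d + X ^ 3 * q ^ 2 * r, ?_⟩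
  rw [map_mul, map_mul, map_pow, map_pow]
  linear_combination (φ X - ψ X) * φ d * (hp + hq) + ψ X ^ 2 * hr +
    (φ X - ψ X) * r * (ψ X + X ^ 3 * q) * hq

variable {k : Type u} [Field k] [CharP k 3]

/-- Let `S = X * τ X * τ^2 X`, `E₁, E₂` the other symmetric functions.  Apply `σ` to
`X^3 - E₁ X^2 + E₂ X - S = 0` and compare with
`(σ X - X) (σ X - τ X) (σ X - τ^2 X) = (σ X)^3 - E₁ (σ X)^2 + E₂ σ X - S`: the product equals
`(σ E₁ - E₁) (σ X)^2 - (σ E₂ - E₂) σ X + (σ S - S)`.  Since `X^9 ∣ Eᵢ` (characteristic three) and `S` has order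
three, `X^2 ∣ cᵢ` (`order_en`), say `cᵢ = X^2 dᵢ`; then with `φ = σ * sub S`, `ψ = sub S`,
`σ Eᵢ - Eᵢ = ((σ S)^2 - S^2) φ dᵢ + S^2 (φ dᵢ - ψ dᵢ)` is divisible by `(σ S - S) X^3` (`sub_dvd`).  So the
product is `(σ S - S) (1 + X^4 e)`, and `σ S - S ≡ X^27 (u₀ + u₁ X^3)` modulo `X^31`.  As `S ≡ X^3` modulo
`X^11`, the series `h' = h - X^9 (u₀ + u₁ X)` has `X^31 ∣ sub S h'`, so `3 * order h' ≥ 31`. -/
theorem spec_fib (σ τ : En k) {a b y y' : k}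
    (hσ : X ^ 13 ∣ σ X - X - X ^ 9 * (C a + C y * X ^ 3))
    (hτ1 : X ^ 13 ∣ τ X - X - X ^ 9 * (C b + C y' * X ^ 3))
    (hτ2 : X ^ 13 ∣ τ (τ X) - X + X ^ 9 * (C b + C y' * X ^ 3)) {h c₁ c₂ : k⟦X⟧}
    (hh : sub (X * τ X * τ (τ X)) h = σ (X * τ X * τ (τ X)) - X * τ X * τ (τ X))
    (h1 : sub (X * τ X * τ (τ X)) c₁ = X + τ X + τ (τ X))
    (h2 : sub (X * τ X * τ (τ X)) c₂ = X * τ X + X * τ (τ X) + τ X * τ (τ X)) :
    X ^ 11 ∣ h - X ^ 9 * (C (a ^ 3 - b ^ 2 * a) + C (a * b * y' - b ^ 2 * y) * X) := by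
  have h3 : (3 : k⟦X⟧) = 0 := by
    rw [← map_ofNat (C : k →+* k⟦X⟧) 3, show (3 : k) = 0 from CharP.cast_eq_zero k 3, map_zero]
  have hP : (σ X - X) * (σ X - τ X) * (σ X - τ (τ X)) =
      (σ (X + τ X + τ (τ X)) - (X + τ X + τ (τ X))) * σ X ^ 2 -
        (σ (X * τ X + X * τ (τ X) + τ X * τ (τ X)) - (X * τ X + X * τ (τ X) + τ X * τ (τ X))) *
          σ X + (σ (X * τ X * τ (τ X)) - X * τ X * τ (τ X)) := by
    simp only [map_add, map_mul]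
    ring
  obtain ⟨p₀, hp₀⟩ := hσ
  obtain ⟨p₁, hp₁⟩ := hτ1
  obtain ⟨p₂, hp₂⟩ := hτ2
  generalize τ (τ X) = t₂ at *
  generalize τ X = t₁ at *
  obtain ⟨B, hB⟩ : ∃ B : k⟦X⟧, B = C b + C y' * X ^ 3 := ⟨_, rfl⟩
  obtain ⟨A, hA⟩ : ∃ A : k⟦X⟧, A = C a + C y * X ^ 3 := ⟨_, rfl⟩
  rw [← hB] at hp₁ hp₂
  rw [← hA] at hp₀
  have e0 : σ X = X * (1 + X ^ 8 * (A + X ^ 4 * p₀)) := by linear_combination hp₀
  have e1 : t₁ = X + X ^ 9 * (B + X ^ 4 * p₁) := by linear_combination hp₁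
  have e2 : t₂ = X + X ^ 9 * (-B + X ^ 4 * p₂) := by linear_combination hp₂
  obtain ⟨T, hT, hT1⟩ : ∃ T : k⟦X⟧, X * t₁ * t₂ = X ^ 3 * T ∧ (X : k⟦X⟧) ^ 4 ∣ T - 1 :=
    ⟨(1 + X ^ 8 * (B + X ^ 4 * p₁)) * (1 + X ^ 8 * (-B + X ^ 4 * p₂)), by rw [e1, e2]; ring,
      X ^ 4 * ((B + X ^ 4 * p₁) + (-B + X ^ 4 * p₂) +
        X ^ 8 * (B + X ^ 4 * p₁) * (-B + X ^ 4 * p₂)), by ring⟩
  have hE1 : X ^ (3 * 1 + 1) ∣ X + t₁ + t₂ :=
    ⟨X ^ 9 * (p₁ + p₂), by rw [e1, e2]; linear_combination X * h3⟩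
  have hE2 : X ^ (3 * 1 + 1) ∣ X * t₁ + X * t₂ + t₁ * t₂ :=
    ⟨2 * X ^ 10 * (p₁ + p₂) + X ^ 14 * (B + X ^ 4 * p₁) * (-B + X ^ 4 * p₂), by
      rw [e1, e2]; linear_combination X ^ 2 * h3⟩
  have hd : (σ X - X) * (σ X - t₁) * (σ X - t₂) =
      X ^ 27 * ((A + X ^ 4 * p₀) * (A - B + X ^ 4 * (p₀ - p₁)) * (A + B + X ^ 4 * (p₀ - p₂))) := by
    rw [e0, e1, e2]
    ring
  generalize X + t₁ + t₂ = E₁ at *
  generalize X * t₁ + X * t₂ + t₁ * t₂ = E₂ at *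
  generalize X * t₁ * t₂ = S at *
  have hT0 : constantCoeff T = 1 := by
    obtain ⟨r, hr⟩ := hT1
    rw [sub_eq_iff_eq_add.1 hr]
    simp
  have hm : constantCoeff S ∈ maximalIdeal k := by
    rw [hT]
    simp
  have ho : order (sub S X) = (3 : ℕ) := by
    rw [sub_X hm, hT, order_mul, order_X_pow, order_zero_of_unit (by
      rw [isUnit_iff_constantCoeff, hT0]; exact isUnit_one), add_zero]
  have hφ : (σ * sub S) X = σ S := by rw [AlgHom.mul_apply, sub_X hm]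
  have hdiff : ∀ c E, sub S c = E → X ^ (3 * 1 + 1) ∣ E → (σ S - S) * X ^ 3 ∣ σ E - E := by
    intro c E hc hE
    have := BSp_diff (σ * sub S) (sub S)
      ⟨(1 + X ^ 8 * (A + X ^ 4 * p₀)) ^ 3 * σ T, by rw [hφ, hT, map_mul, map_pow, e0]; ring⟩
      ⟨T, by rw [sub_X hm, hT]⟩ (BSp_ord (sub S) ho 1 (hc ▸ hE))
    rwa [hφ, sub_X hm, AlgHom.mul_apply, hc] at this
  obtain ⟨d₁, hd₁⟩ := hdiff _ _ h1 hE1
  obtain ⟨d₂, hd₂⟩ := hdiff _ _ h2 hE2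
  obtain ⟨e, he⟩ : ∃ e : k⟦X⟧, (σ X - X) * (σ X - t₁) * (σ X - t₂) = (σ S - S) * (1 + X ^ 4 * e) :=
    ⟨(d₁ * σ X - d₂) * (1 + X ^ 8 * (A + X ^ 4 * p₀)), by
      rw [hP, hd₁, hd₂]
      linear_combination (σ S - S) * X ^ 3 * (d₁ * σ X - d₂) * e0⟩
  obtain ⟨w, hw⟩ : X ^ 27 ∣ σ S - S := by
    have hu : IsUnit (1 + X ^ 4 * e) := by
      rw [isUnit_iff_constantCoeff]
      simp
    rw [← hu.dvd_mul_right, ← he, hd]
    exact Dvd.intro _ rfl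
  obtain ⟨v, hv⟩ : X ^ 4 ∣ (A + X ^ 4 * p₀) * (A - B + X ^ 4 * (p₀ - p₁)) *
      (A + B + X ^ 4 * (p₀ - p₂)) -
      (C (a ^ 3 - b ^ 2 * a) + C (a * b * y' - b ^ 2 * y) * X ^ 3) := by
    have e3 : (A + X ^ 4 * p₀) * (A - B + X ^ 4 * (p₀ - p₁)) * (A + B + X ^ 4 * (p₀ - p₂)) -
        (C (a ^ 3 - b ^ 2 * a) + C (a * b * y' - b ^ 2 * y) * X ^ 3) =
        X ^ 4 * (p₀ * (A - B + X ^ 4 * (p₀ - p₁)) * (A + B + X ^ 4 * (p₀ - p₂)) +
          A * (p₀ - p₁) * (A + B + X ^ 4 * (p₀ - p₂)) + A * (A - B) * (p₀ - p₂)) +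
        (A * (A - B) * (A + B) -
          (C (a ^ 3 - b ^ 2 * a) + C (a * b * y' - b ^ 2 * y) * X ^ 3)) := by ring
    rw [e3]
    refine dvd_add (Dvd.intro _ rfl) ⟨X ^ 2 * (C y ^ 3 * X ^ 3 - C a * C y' ^ 2 -
      2 * C y * C b * C y' - C y * C y' ^ 2 * X ^ 3), ?_⟩
    simp only [map_sub, map_mul, map_pow]
    rw [hA, hB]
    linear_combination (C a ^ 2 * C y * X ^ 3 + C a * C y ^ 2 * X ^ 6 -
      C a * C b * C y' * X ^ 3) * h3
  obtain ⟨r₁, hr₁⟩ := hT1.trans (sub_one_dvd_pow_sub_one T 9)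
  obtain ⟨r₂, hr₂⟩ := hT1.trans (sub_one_dvd_pow_sub_one T 10)
  refine BSp_ord (sub S) ho 10 ?_
  rw [map_sub, hh, map_mul, map_add, map_mul, map_pow, sub_X hm, Base_en_C, Base_en_C]
  generalize C (a ^ 3 - b ^ 2 * a) = u₀ at *
  generalize C (a * b * y' - b ^ 2 * y) = u₁ at *
  refine ⟨v - e * w - (u₀ * r₁ + u₁ * X ^ 3 * r₂), ?_⟩
  rw [hd] at he
  have hS : S ^ 9 * (u₀ + u₁ * S) = X ^ 27 * (u₀ * T ^ 9 + u₁ * X ^ 3 * T ^ 10) := by
    rw [hT]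
    ring
  rw [hS]
  linear_combination -he + X ^ 27 * hv - X ^ 4 * e * hw - X ^ 27 * u₀ * hr₁ -
    X ^ 30 * u₁ * hr₂

end Pool.Agent.MP_deef5c_ag.E

end

section

/-! The data on the quotient curves over an Artinian ring. -/

open PowerSeries IsLocalRing Function Pool.Agent.MP_deef5c_ag.O
open scoped Polynomial

namespace Pool.Agent.MP_deef5c_ag.E

universe u

section Aux

variable {D : Type u} [CommRing D]

theorem BS_coe (φ : En D) (P : D[X]) : φ (P : D⟦X⟧) = P.eval₂ C (φ X) := by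
  have h : φ (P : D⟦X⟧) = Polynomial.aeval (φ X) P := by
    rw [Polynomial.aeval_algHom_apply, Polynomial.aeval_def, ← Polynomial.eval₂_C_X_eq_coe]
    rfl
  rw [h, Polynomial.aeval_def]
  rfl

theorem BS_dmul (f g : D⟦X⟧) : d⁄dX D (f * g) = f * d⁄dX D g + g * d⁄dX D f := by
  rw [Derivation.leibniz, smul_eq_mul, smul_eq_mul]

variable [IsLocalRing D] [CL D]

theorem BS_ws (σ Φ : En D) (hσ : constantCoeff (σ X) ∈ maximalIdeal D) {S W U : D⟦X⟧}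
    (hU : IsUnit U) (h : Φ (W * U) = σ S - S) : σ X - X ∣ Φ W := by
  have h1 : σ X - X ∣ σ S - S := sub_dvd σ 1 hσ (by simp) S
  rw [← h, map_mul] at h1
  exact (hU.map Φ).dvd_mul_right.1 h1

theorem BS_der (σ Φ : En D) (hσ : constantCoeff (σ X) ∈ maximalIdeal D) {x₁ x₂ W U V c₁ c₂ : D⟦X⟧}
    (hΦ : Φ X = X * x₁ * x₂) (hU : IsUnit U) (h : Φ (W * U) = σ (Φ X) - Φ X) (hV : W ∣ V * U - 1)
    (h1 : Φ c₁ = X + x₁ + x₂) (h2 : Φ c₂ = X * x₁ + X * x₂ + x₁ * x₂) :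
    σ X - X ∣ (X - x₁) * (X - x₂) * (Φ (d⁄dX D W) - Φ V * (d⁄dX D (σ X) - 1)) := by
  have hm : constantCoeff (Φ X) ∈ maximalIdeal D := by rw [hΦ]; simp
  obtain ⟨e₁, he₁⟩ := BS_ws σ Φ hσ hU h
  obtain ⟨e₂, he₂⟩ : σ X - X ∣ σ (d⁄dX D (Φ X)) - d⁄dX D (Φ X) := sub_dvd σ 1 hσ (by simp) _
  obtain ⟨e₃, he₃⟩ := hV
  have he₄ : Φ V * Φ U - 1 = Φ W * Φ e₃ := by
    simpa only [map_sub, map_mul, map_one] using congrArg Φ he₃
  have hd := congrArg (d⁄dX D) h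
  rw [der_en Φ hm, map_sub, der_en σ hσ, BS_dmul, map_add, map_mul, map_mul] at hd
  have hc : X * X * X - Φ c₁ * (X * X) + Φ c₂ * X - Φ X = 0 := by
    rw [h1, h2, hΦ]; ring
  have hd2 := congrArg (d⁄dX D) hc
  simp only [map_sub, map_add, BS_dmul, derivative_X, map_zero] at hd2
  rw [der_en Φ hm c₁, der_en Φ hm c₂] at hd2
  have e : (X - x₁) * (X - x₂) =
      (Φ (d⁄dX D c₁) * X ^ 2 - Φ (d⁄dX D c₂) * X + 1) * d⁄dX D (Φ X) := by
    rw [h1, h2] at hd2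
    linear_combination hd2
  rw [e, mul_assoc]
  refine Dvd.dvd.mul_left ⟨Φ V * e₂ * d⁄dX D (σ X) - e₁ * Φ V * Φ (d⁄dX D U) * d⁄dX D (Φ X) -
    e₁ * Φ e₃ * Φ (d⁄dX D W) * d⁄dX D (Φ X), ?_⟩ _
  linear_combination Φ V * hd + Φ V * d⁄dX D (σ X) * he₂ -
    (Φ V * Φ (d⁄dX D U) * d⁄dX D (Φ X) + Φ e₃ * Φ (d⁄dX D W) * d⁄dX D (Φ X)) * he₁ -
    Φ (d⁄dX D W) * d⁄dX D (Φ X) * he₄

variable {k : Type u} [Field k]

theorem BS_prep (π : D →+* k) (hπ : Surjective π) {h : D⟦X⟧} {u₀ u₁ : k} (hu : u₀ ≠ 0)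
    (hh : X ^ 11 ∣ PowerSeries.map π h - X ^ 9 * (C u₀ + C u₁ * X)) :
    ∃ (W : D[X]) (U : D⟦X⟧), W.Monic ∧ W.natDegree = 9 ∧ (∀ n < 9, W.coeff n ∈ maximalIdeal D) ∧
      IsUnit U ∧ h = W * U ∧ (∀ f : D⟦X⟧, ∃ r : D[X], r.degree < 9 ∧ (W : D⟦X⟧) ∣ f - r) ∧
      ∀ V : D[X], (W : D⟦X⟧) ∣ V * U - 1 → π (V.coeff 0) * u₀ = 1 ∧
        π (V.coeff 0) * u₁ + π (V.coeff 1) * u₀ = 0 := by
  obtain ⟨w, hw⟩ := hh
  have e : PowerSeries.map π h = X ^ 9 * (C u₀ + C u₁ * X + X ^ 2 * w) := by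
    linear_combination hw
  have ho : order (PowerSeries.map π h) = (9 : ℕ) := by
    rw [e, order_eq_nat]
    refine ⟨?_, fun i hi => ?_⟩
    · simpa [coeff_X_pow_mul'] using hu
    · rw [coeff_X_pow_mul', if_neg (by omega)]
  obtain ⟨hg0, hg1⟩ := Qb_ord π hπ h 9 ho
  obtain ⟨W, U, hW⟩ := exists_isWeierstrassFactorization hg0
  have hdeg : W.natDegree = 9 := hW.natDegree_eq_toNat_order_map.trans hg1
  have hdist : ∀ n < 9, W.coeff n ∈ maximalIdeal D := fun n hn =>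
    hW.isDistinguishedAt.mem (by omega)
  have hWr : PowerSeries.map π (W : D⟦X⟧) = X ^ 9 := by
    ext n
    rw [coeff_map, Polynomial.coeff_coe, coeff_X_pow]
    rcases lt_trichotomy n 9 with hn | rfl | hn
    · rw [if_neg hn.ne, (pi_eq_zero_iff π hπ _).2 (hdist n hn)]
    · rw [if_pos rfl, ← hdeg, hW.isDistinguishedAt.monic.coeff_natDegree, map_one]
    · rw [if_neg hn.ne', Polynomial.coeff_eq_zero_of_natDegree_lt (by omega), map_zero]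
  have hWo : order (PowerSeries.map π (W : D⟦X⟧)) = (9 : ℕ) := by rw [hWr, order_X_pow]
  obtain ⟨hW0, hW1⟩ := Qb_ord π hπ _ 9 hWo
  refine ⟨W, U, hW.isDistinguishedAt.monic, hdeg, hdist, hW.isUnit, hW.eq_mul, fun f => ?_, ?_⟩
  · obtain ⟨q, r, hqr⟩ := exists_isWeierstrassDivision f hW0
    refine ⟨r, ?_, q, ?_⟩
    · have := hqr.degree_lt
      rwa [hW1] at this
    · rw [hqr.eq_mul_add]; ring
  · rintro V ⟨q, hq⟩
    have hU : PowerSeries.map π U = C u₀ + C u₁ * X + X ^ 2 * w := by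
      have h1 := congrArg (PowerSeries.map π) hW.eq_mul
      rw [e, map_mul, hWr] at h1
      exact (mul_left_cancel₀ (pow_ne_zero 9 X_ne_zero) h1).symm
    have h2 := congrArg (PowerSeries.map π) hq
    rw [map_sub, map_mul, map_mul, hWr, hU, map_one] at h2
    have h3 : PowerSeries.map π (V : D⟦X⟧) * C u₀ + PowerSeries.map π (V : D⟦X⟧) * C u₁ * X =
        1 + X ^ 2 * (X ^ 7 * PowerSeries.map π q - PowerSeries.map π (V : D⟦X⟧) * w) := by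
      linear_combination h2
    have h4 := congrArg (coeff 0) h3
    have h5 := congrArg (coeff 1) h3
    rw [map_add, map_add, coeff_X_pow_mul', if_neg (by omega), coeff_mul_C, coeff_zero_mul_X,
      coeff_map, Polynomial.coeff_coe] at h4
    rw [map_add, map_add, coeff_X_pow_mul', if_neg (by omega), coeff_mul_C,
      show (1 : ℕ) = 0 + 1 from rfl, coeff_succ_mul_X, coeff_mul_C, coeff_map, coeff_map,
      Polynomial.coeff_coe, Polynomial.coeff_coe] at h5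
    refine ⟨by simpa using h4, ?_⟩
    have h6 : coeff (0 + 1) (1 : k⟦X⟧) = 0 := by simp [coeff_one]
    rw [h6] at h5
    linear_combination h5

theorem BS_lead {f g : k⟦X⟧} (h : X ^ 13 ∣ f - X - X ^ 9 * g) :
    order f = (1 : ℕ) ∧ coeff 9 f = constantCoeff g ∧ constantCoeff f = 0 := by
  obtain ⟨w, hw⟩ := h
  have e : f = X + X ^ 9 * g + X ^ 13 * w := by linear_combination hw
  refine ⟨?_, ?_, ?_⟩
  · rw [e, order_eq_nat]
    refine ⟨by simp [coeff_X_pow_mul', coeff_X], fun i hi => ?_⟩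
    obtain rfl : i = 0 := by omega
    simp
  · rw [e]; simp [coeff_X_pow_mul', coeff_X]
  · rw [e]; simp

theorem BS_lin2 [CharP k 3] (a b : k) (g : EE) : lin2 a b (g * g) = -lin2 a b g := by
  have h : ∀ x : ZMod 3, (((x + x).val : ℕ) : k) = -((x.val : ℕ) : k) := by
    intro x
    have h3 : (3 : k) = 0 := CharP.cast_eq_zero k 3
    have e : ∀ y : ZMod 3, ((y.val : ℕ) : k) = ZMod.castHom (dvd_refl 3) k y := fun y => by
      rw [ZMod.castHom_apply, ZMod.natCast_val]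
    rw [e, e, map_add]
    linear_combination (ZMod.castHom (dvd_refl 3) k x) * h3
  simp only [lin2, toAdd_mul, Prod.fst_add, Prod.snd_add, h]
  ring

theorem BS_rh (j : Fin 4) : rh j * (rh j * rh j) = 1 := by
  revert j
  decide

set_option synthInstance.maxSize 2048 in
theorem BS_chi (j : Fin 4) (g₀ g : EE) (h₀ : chi j g₀ = 1) (h : chi j g = 1) :
    g = g₀ ∨ g = g₀ * rh j ∨ g = g₀ * (rh j * rh j) := by
  revert j g₀ g
  decide

end Aux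

variable {A k : Type u} [CommRing A] [IsLocalRing A] [IsArtinianRing A] [Field k] [CharP k 3]

/-- Let `τ = ρ' (rh j)`, `S = c.S j`, `Σ = sub S`.  `inv3` gives `h, c₁, c₂` with `Σ h = ρ' g₀ S - S`,
`Σ cᵢ = Eᵢ` (the group is commutative; `lin2 l₁ l₂ (rh j * rh j) = - lin2 l₁ l₂ (rh j)`).  Reduce (`map_en`
with `sub (map π S)`) and use `spec_fib`: the reduction of `h` is `X^9 (u₀ + u₁ X + ...)`.  Weierstrass
preparation `h = Ws * U`; `Vs`, `p₁`, `p₂` are the remainders of `U⁻¹`, `c₁`, `c₂` in the Weierstrass division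
by `Ws`, and `Σ ↑p = eval₂ C S p`.  If `chi j g = 1` then `g = g₀ * rh j ^ i` (`decide`), so `ρ' g S = ρ' g₀ S`,
and `Σ Ws * Σ U = ρ' g S - S` is divisible by `ε = ρ' g X - X`.  For `der`: differentiate (`der_en`)
`Σ h = ρ' g S - S` to get `Σ h' * S' ≡ S' (z - 1)` modulo `ε`, use `h' = Ws' U + Ws U'`, `Vs U ≡ 1` modulo `Ws`;
differentiate `X^3 - Σ c₁ X^2 + Σ c₂ X - S = 0` to see that
`(X - τ X) (X - τ^2 X) = 3 X^2 - 2 E₁ X + E₂` is a multiple of `S'`.  The reduction of `Ws` is `X^9`, so the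
reduction of `U` is `u₀ + u₁ X` modulo `X^2`. -/
theorem cfs (π : A →+* k) (hπ : Surjective π) {ρ : EE →* (k⟦X⟧ ≃ₐ[k] k⟦X⟧)} {l₁ l₂ y₁ y₂ : k}
    (L : Ld ρ l₁ l₂ y₁ y₂) (ρ' : EE →* (A⟦X⟧ ≃ₐ[A] A⟦X⟧))
    (hρ' : ∀ g f, PowerSeries.map π (ρ' g f) = ρ g (PowerSeries.map π f))
    (c : CfT A A⟦X⟧ (maximalIdeal A)) (hi : c.i = C) (hx : c.x = X) (hT : ∀ g b, c.T g b = ρ' g b)
    (hz : ∀ g, c.z g = d⁄dX A (ρ' g X)) (j : Fin 4) (g₀ : EE) (hg : chi j g₀ = 1) {a b y y' : k}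
    (ha : a = lin2 l₁ l₂ g₀) (hb : b = lin2 l₁ l₂ (rh j)) (hy : y = lin2 y₁ y₂ g₀)
    (hy' : y' = lin2 y₁ y₂ (rh j)) (hb0 : b ≠ 0) (hu : a ^ 3 - b ^ 2 * a ≠ 0) :
    ∃ Ws Vs p₁ p₂, CfS c j Ws Vs p₁ p₂ ∧ π (Vs.coeff 0) * (a ^ 3 - b ^ 2 * a) = 1 ∧
      π (Vs.coeff 0) * (a * b * y' - b ^ 2 * y) + π (Vs.coeff 1) * (a ^ 3 - b ^ 2 * a) = 0 := by
  have hm : ∀ g, constantCoeff (ρ' g X) ∈ maximalIdeal A := fun g => by
    rw [← pi_eq_zero_iff π hπ, ← (BS_lead (L.ld g)).2.2, ← map_X π, ← hρ',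
      ← coeff_zero_eq_constantCoeff_apply, ← coeff_zero_eq_constantCoeff_apply, coeff_map]
  have hX : ∀ g, PowerSeries.map π (ρ' g X) = ρ g X := fun g => by rw [hρ', map_X]
  have hmul : ∀ g h f, ρ' (g * h) f = ρ' g (ρ' h f) := fun g h f => by rw [map_mul]; rfl
  have hmulk : ∀ g h f, ρ (g * h) f = ρ g (ρ h f) := fun g h f => by rw [map_mul]; rfl
  let τ : En A := (ρ' (rh j) : A⟦X⟧ →ₐ[A] A⟦X⟧)
  have hτ : ∀ f, τ f = ρ' (rh j) f := fun _ => rfl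
  have h3 : τ (τ (τ X)) = X := by
    rw [hτ, hτ, hτ, ← hmul (rh j) (rh j) X, ← hmul, BS_rh, map_one]; rfl
  have l1 := L.ld (rh j)
  have l2 := L.ld (rh j * rh j)
  rw [BS_lin2, BS_lin2] at l2
  rw [← hb, ← hy'] at l1 l2
  have l0 := L.ld g₀
  rw [← ha, ← hy] at l0
  have r1 : PowerSeries.map π (τ X) = ρ (rh j) X := hX _
  have r2 : PowerSeries.map π (τ (τ X)) = ρ (rh j * rh j) X := by rw [hτ, hτ, ← hmul, hX]
  have c1 : coeff 9 (ρ (rh j) X) = b := by simpa using (BS_lead l1).2.1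
  have c2 : coeff 9 (ρ (rh j * rh j) X) = -b := by simpa using (BS_lead l2).2.1
  have c0 : coeff 9 (X : k⟦X⟧) = 0 := by simp [coeff_X]
  have inv := inv3 π hπ τ h3
    (by rw [r1]; intro h; rw [h, c0] at c1; exact hb0 c1.symm)
    (by rw [r2]; intro h; rw [h, c0] at c2; exact hb0 (neg_eq_zero.1 c2.symm))
    (by
      rw [r1, r2]
      intro h
      rw [h, c2] at c1
      have h3 : (3 : k) = 0 := CharP.cast_eq_zero k 3
      exact hb0 (by linear_combination c1 + b * h3))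
    (by
      rw [map_mul, map_mul, map_X, r1, r2, order_mul, order_mul, order_X, (BS_lead l1).1,
        (BS_lead l2).1]
      rfl)
  set S := X * τ X * τ (τ X) with hS
  have hSm : constantCoeff S ∈ maximalIdeal A := by rw [hS]; simp
  have hSX : sub S X = S := sub_X hSm
  have hτS : ρ' (rh j) S = S := by
    rw [← hτ, hS, map_mul, map_mul, h3]; ring
  have hgS : ∀ g, chi j g = 1 → ρ' g S = ρ' g₀ S := fun g hg' => by
    rcases BS_chi j g₀ g hg hg' with h | h | h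
    · rw [h]
    · rw [h, hmul, hτS]
    · rw [h, hmul, hmul, hτS, hτS]
  obtain ⟨h, hh⟩ := inv (ρ' g₀ S - S) (by
    rw [hτ, map_sub, hτS, ← hmul, mul_comm, hmul, hτS])
  obtain ⟨c₁, hc₁⟩ := inv (X + τ X + τ (τ X)) (by rw [map_add, map_add, h3]; ring)
  obtain ⟨c₂, hc₂⟩ := inv (X * τ X + X * τ (τ X) + τ X * τ (τ X)) (by
    rw [map_add, map_add, map_mul, map_mul, map_mul, h3]; ring)
  let τk : En k := (ρ (rh j) : k⟦X⟧ →ₐ[k] k⟦X⟧)
  let σk : En k := (ρ g₀ : k⟦X⟧ →ₐ[k] k⟦X⟧)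
  have q1 : PowerSeries.map π (τ X) = τk X := r1
  have q2 : PowerSeries.map π (τ (τ X)) = τk (τk X) := r2.trans (hmulk _ _ _)
  have qS : PowerSeries.map π S = X * τk X * τk (τk X) := by
    rw [hS, map_mul, map_mul, map_X, q1, q2]
  have hSk : constantCoeff (X * τk X * τk (τk X)) ∈ maximalIdeal k := by simp
  have red : ∀ f, PowerSeries.map π (sub S f) =
      sub (X * τk X * τk (τk X)) (PowerSeries.map π f) :=
    map_en π _ _ (by rw [hSX, sub_X hSk, qS]) (by rw [sub_X hSk]; exact hSk)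
  have sf := spec_fib σk τk (a := a) (b := b) (y := y) (y' := y') l0 l1
    (by
      have e : τk (τk X) - X + X ^ 9 * (C b + C y' * X ^ 3) =
          ρ (rh j * rh j) X - X - X ^ 9 * (C (-b) + C (-y') * X ^ 3) := by
        rw [hmulk, map_neg, map_neg]
        change _ = τk (τk X) - X - _
        ring
      rw [e]
      exact l2)
    (h := PowerSeries.map π h) (c₁ := PowerSeries.map π c₁) (c₂ := PowerSeries.map π c₂)
    (by rw [← red, hh, map_sub, hρ', qS]; rfl)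
    (by rw [← red, hc₁, map_add, map_add, map_X, q1, q2])
    (by rw [← red, hc₂, map_add, map_add, map_mul, map_mul, map_mul, map_X, q1, q2])
  obtain ⟨W, U, hmon, hdeg, hdist, hU, hWU, hdiv, hco⟩ := BS_prep π hπ hu sf
  obtain ⟨U', hU'⟩ := hU.exists_left_inv
  obtain ⟨V, dV, hV⟩ := hdiv U'
  obtain ⟨p₁, d1, hp₁⟩ := hdiv c₁
  obtain ⟨p₂, d2, hp₂⟩ := hdiv c₂
  have hVU : (W : A⟦X⟧) ∣ V * U - 1 := by
    have e : (V : A⟦X⟧) * U - 1 = (U' - V) * -U := by linear_combination hU'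
    rw [e]
    exact hV.mul_right _
  have x1 : c.x1 j = τ X := by rw [CfT.x1, hT, hx, hτ]
  have x2 : c.x2 j = τ (τ X) := by rw [CfT.x2, hT, hx, hmul, hτ, hτ]
  have xS : c.S j = S := by rw [CfT.S, hx, x1, x2]
  have ev : ∀ P : A[X], P.eval₂ c.i (c.S j) = sub S (P : A⟦X⟧) := fun P => by
    rw [hi, xS, BS_coe, hSX]
  refine ⟨W, V, p₁, p₂, ⟨hmon, hdeg, hdist, dV, d1, d2, fun g hg' => ?_, fun g hg' => ?_, ?_, ?_⟩,
    hco V hVU⟩
  · rw [ev, hT, hx]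
    exact BS_ws (ρ' g : A⟦X⟧ →ₐ[A] A⟦X⟧) (sub S) (hm g) (S := S) hU
      (by rw [← hWU, hh, ← hgS g hg']; rfl)
  · rw [ev, ev, hT, hx, x1, x2, hz, ← derivative_coe]
    exact BS_der (ρ' g : A⟦X⟧ →ₐ[A] A⟦X⟧) (sub S) (hm g) hSX hU
      (by rw [← hWU, hh, ← hgS g hg', hSX]; rfl) hVU hc₁ hc₂
  · rw [ev, ev, hx, x1, x2, ← hc₁, ← map_sub]
    exact map_dvd _ hp₁
  · rw [ev, ev, hx, x1, x2, ← hc₂, ← map_sub]
    exact map_dvd _ hp₂

end Pool.Agent.MP_deef5c_ag.E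

end
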