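import Pool.Agent.Mg.Fdeef5c.Gbe004d

section

/-! Newton and Hensel for a cubic over a filtered ring. -/

open PowerSeries IsLocalRing Function Pool.Agent.MP_deef5c_ag.O
open scoped Polynomial

namespace Pool.Agent.MP_deef5c_ag.E

universe u

variable {A : Type u} [CommRing A] [IsLocalRing A] [IsArtinianRing A] {Φ : MF A}

theorem AHen_cubic {R : Type u} [CommRing R] [IsLocalRing R] [CL R] (a₂ a₁ a₀ θ₀ : R)
    (h0 : θ₀ ^ 3 + a₂ * θ₀ ^ 2 + a₁ * θ₀ + a₀ ∈ maximalIdeal R)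
    (h1 : IsUnit (3 * θ₀ ^ 2 + 2 * a₂ * θ₀ + a₁)) :
    ∃ θ : R, θ ^ 3 + a₂ * θ ^ 2 + a₁ * θ + a₀ = 0 ∧ θ - θ₀ ∈ maximalIdeal R := by
  have hm : (Polynomial.X ^ 3 + Polynomial.C a₂ * Polynomial.X ^ 2 + Polynomial.C a₁ * Polynomial.X
      + Polynomial.C a₀ : R[X]).Monic := by monicity!
  obtain ⟨θ, h2, h3⟩ := HenselianRing.is_henselian (I := maximalIdeal R) _ hm θ₀
    (by simpa using h0) (by
      refine IsUnit.map _ ?_
      convert h1 using 1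
      simp
      ring)
  exact ⟨θ, by simpa using h2, h3⟩

theorem AHen_unit {R : Type u} [CommRing R] [IsLocalRing R] {u m : R} (hu : IsUnit u)
    (hm : m ∈ maximalIdeal R) : IsUnit (u + m) := by
  by_contra h
  have h1 : u + m - m ∈ maximalIdeal R := sub_mem ((mem_maximalIdeal _).2 h) hm
  rw [add_sub_cancel_right] at h1
  exact (mem_maximalIdeal _).1 h1 hu

/-- Let `p` be the cubic.  `p ξ₀ = p' ξ₀ * z` with `z` of weight `e` (`div_mem`); `ξ₁ = ξ₀ - z` has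
`p ξ₁` of weight `2 e`, and `b = p' ξ₁` still has weight `d` with unit coefficient of `X^d` (the
difference has weight `e ≥ d + 1`).  Dividing twice, `p ξ₁ = b^2 y` with `y` of weight `2e - 2d ≥ 1`.
Look for `ξ = ξ₁ + b η` with `y + η + E₂ η^2 + e₃ b η^3 = 0`, `E₂ = 3 e₃ ξ₁ + e₂`: put `η = y / θ` where `θ`
is the root near `-1` of the monic polynomial `θ^3 + θ^2 + E₂ y θ + e₃ b y^2` (the ring `A⟦X⟧` is
complete local by `CL.powerSeries`, so Henselian: `IsAdicComplete.henselianRing`). -/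
theorem hen {e d : ℕ} (hΦ : Φ.Loc e) (hd : 0 < d) (he : 2 * d ≤ e) {e₃ e₂ e₁ e₀ ξ₀ : A⟦X⟧}
    (h0 : e₃ * ξ₀ ^ 3 + e₂ * ξ₀ ^ 2 + e₁ * ξ₀ + e₀ ∈ Φ.ps.F (e + d))
    (h1 : 3 * e₃ * ξ₀ ^ 2 + 2 * e₂ * ξ₀ + e₁ ∈ Φ.ps.F d)
    (hu : IsUnit (coeff d (3 * e₃ * ξ₀ ^ 2 + 2 * e₂ * ξ₀ + e₁))) :
    ∃ ξ, e₃ * ξ ^ 3 + e₂ * ξ ^ 2 + e₁ * ξ + e₀ = 0 ∧ ξ - ξ₀ ∈ Φ.ps.F d := by
  obtain ⟨z, hz, ez⟩ := div_mem hΦ h1 hu le_rfl h0
  obtain ⟨b, hb⟩ : ∃ b, b = 3 * e₃ * ξ₀ ^ 2 + 2 * e₂ * ξ₀ + e₁ +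
      z * (3 * e₃ * z - 2 * (3 * e₃ * ξ₀ + e₂)) := ⟨_, rfl⟩
  have hz' : z * (3 * e₃ * z - 2 * (3 * e₃ * ξ₀ + e₂)) ∈ Φ.ps.F e := Ideal.mul_mem_right _ _ hz
  have hbd : b ∈ Φ.ps.F d := hb ▸ add_mem h1 (Φ.ps.le hz' (by omega))
  have hbu : IsUnit (coeff d b) := by
    rw [hb, map_add]
    exact AHen_unit hu (hΦ.one ▸ Φ.le (hz' d) (by omega))
  have hp : z * z * (3 * e₃ * ξ₀ + e₂ - e₃ * z) ∈ Φ.ps.F (2 * e - d + d) :=
    Ideal.mul_mem_right _ _ (Φ.ps.le (Φ.ps.mul hz hz) (by omega))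
  obtain ⟨y₁, hy₁, ey₁⟩ := div_mem hΦ hbd hbu (by omega) hp
  obtain ⟨y, hy, ey⟩ := div_mem (n := 2 * e - 2 * d) hΦ hbd hbu (by omega)
    (Φ.ps.le hy₁ (by omega))
  have hym : y ∈ maximalIdeal A⟦X⟧ :=
    (mem_max_iff y).2 ((mem_one_iff hΦ).1 (Φ.ps.le hy (by omega)))
  obtain ⟨θ, eθ, hθ⟩ := AHen_cubic (1 : A⟦X⟧) ((3 * e₃ * (ξ₀ - z) + e₂) * y) (e₃ * b * y ^ 2) (-1)
    (by
      have : (-1 : A⟦X⟧) ^ 3 + 1 * (-1) ^ 2 + (3 * e₃ * (ξ₀ - z) + e₂) * y * -1 + e₃ * b * y ^ 2 =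
        (e₃ * b * y - (3 * e₃ * (ξ₀ - z) + e₂)) * y := by ring
      exact this ▸ Ideal.mul_mem_left _ _ hym)
    (by
      have : (3 : A⟦X⟧) * (-1) ^ 2 + 2 * 1 * -1 + (3 * e₃ * (ξ₀ - z) + e₂) * y =
        1 + (3 * e₃ * (ξ₀ - z) + e₂) * y := by ring
      exact this ▸ AHen_unit isUnit_one (Ideal.mul_mem_left _ _ hym))
  have hθu : IsUnit θ := by
    have := AHen_unit isUnit_one.neg hθ
    rwa [add_sub_cancel] at this
  obtain ⟨ι, hι⟩ := hθu.exists_right_inv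
  refine ⟨ξ₀ - z + b * (y * ι), ?_, ?_⟩
  · have e1 : y + y * ι + (3 * e₃ * (ξ₀ - z) + e₂) * (y * ι) ^ 2 + e₃ * b * (y * ι) ^ 3 = 0 := by
      linear_combination y * ι ^ 3 * eθ - (y * (θ ^ 2 * ι ^ 2 + θ * ι + 1) + y * ι * (θ * ι + 1)
        + (3 * e₃ * (ξ₀ - z) + e₂) * y ^ 2 * ι ^ 2) * hι
    have e2 : e₃ * (ξ₀ - z) ^ 3 + e₂ * (ξ₀ - z) ^ 2 + e₁ * (ξ₀ - z) + e₀ = b * (b * y) := by
      linear_combination ez + ey₁ + b * ey
    linear_combination e2 + b ^ 2 * e1 - b * (y * ι) * hb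
  · have : ξ₀ - z + b * (y * ι) - ξ₀ = b * (y * ι) - z := by ring
    exact this ▸ sub_mem (Ideal.mul_mem_right _ _ hbd) (Φ.ps.le hz (by omega))

/-- Artin-Schreier equations have solutions (Hensel; the derivative `3 γ^2 - 1` is a unit) -/
theorem as_root {k : Type u} [Field k] [CharP k 3] (π : A →+* k) (hπ : Surjective π) (f : A⟦X⟧)
    (c : k) (hc : c ^ 3 - c = π (constantCoeff f)) :
    ∃ γ : A⟦X⟧, γ ^ 3 - γ = f ∧ π (constantCoeff γ) = c := by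
  obtain ⟨a, rfl⟩ := hπ c
  have hk : ∀ x : A, x ∈ maximalIdeal A ↔ π x = 0 := fun x => by
    rw [← ker_eq_maximalIdeal π hπ, RingHom.mem_ker]
  have h3 : (3 : k) = 0 := by exact_mod_cast CharP.cast_eq_zero k 3
  obtain ⟨γ, eγ, hγ⟩ := AHen_cubic (0 : A⟦X⟧) (-1) (-f) (C a)
    (by
      rw [mem_max_iff, hk]
      simp only [map_add, map_mul, map_pow, map_neg, map_zero, map_one, constantCoeff_C]
      linear_combination hc)
    (by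
      have : (3 : A⟦X⟧) * C a ^ 2 + 2 * 0 * C a + -1 = -1 + 3 * C a ^ 2 := by ring
      refine this ▸ AHen_unit isUnit_one.neg ?_
      rw [mem_max_iff, hk]
      simp only [map_mul, map_pow, map_ofNat, constantCoeff_C, h3, zero_mul])
  refine ⟨γ, by linear_combination eγ, ?_⟩
  rw [mem_max_iff, hk, map_sub, map_sub, constantCoeff_C] at hγ
  exact sub_eq_zero.1 hγ

end Pool.Agent.MP_deef5c_ag.E

end

section

/-! The lift of the second generator. -/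

open PowerSeries IsLocalRing Function Pool.Agent.MP_deef5c_ag.O
open scoped Polynomial

namespace Pool.Agent.MP_deef5c_ag.E

universe u

/-- the second row of the intertwining relation follows from the first one -/
theorem row2 {D : Type u} [CommRing D] {a r w ah rh wh β ρ ω : D} (h : r ^ 2 - a * w = -3)
    (hh : rh ^ 2 - ah * wh = -3) (d2 : rh * β + ah * (1 - ρ) = (1 + ρ) * a - β * r)
    (d3 : rh * (1 + ρ) - ah * ω = (1 + ρ) * r - β * w) (hn : ∀ y, ah * y = 0 → y = 0) :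
    -(wh * (1 + ρ)) + rh * ω = -(ω * r) - (1 - ρ) * w ∧
      -(wh * β) - rh * (1 - ρ) = -(ω * a) - (1 - ρ) * r :=
  ⟨sub_eq_zero.1 (hn _ (by linear_combination -(rh + r) * d3 + w * d2 + (1 + ρ) * (hh - h))),
    sub_eq_zero.1 (hn _ (by linear_combination (r - rh) * d2 - a * d3 + β * (hh - h)))⟩

/-- `bic` for `(l, m) = (1 + ρ, β)` and `(l, m) = (-ω, 1 - ρ)` -/
theorem ch_NE {D : Type u} [CommRing D] {a r w ah rh wh β ρ ω T Th t : D} (h : r ^ 2 - a * w = -3)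
    (d2 : rh * β + ah * (1 - ρ) = (1 + ρ) * a - β * r)
    (d3 : rh * (1 + ρ) - ah * ω = (1 + ρ) * r - β * w)
    (r1 : -(wh * (1 + ρ)) + rh * ω = -(ω * r) - (1 - ρ) * w)
    (r2 : -(wh * β) - rh * (1 - ρ) = -(ω * a) - (1 - ρ) * r) (ht : ch a r w T t 1 = 0) :
    (1 - r ^ 2) * ch ah rh wh Th ((1 + ρ) * t + β) (-ω * t + (1 - ρ)) =
      Qf 1 (-(w * t) - r) * NE a r w T Th β ρ ω := by
  have e1 : rh * ((1 + ρ) * t + β) + ah * (-ω * t + (1 - ρ)) =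
      (1 + ρ) * (r * t + a) + β * (-(w * t) - r) := by linear_combination t * d3 + d2
  have e2 : -(wh * ((1 + ρ) * t + β)) - rh * (-ω * t + (1 - ρ)) =
      -ω * (r * t + a) + (1 - ρ) * (-(w * t) - r) := by linear_combination t * r1 + r2
  have b1 := bic h (1 + ρ) β t
  have b2 := bic h (-ω) (1 - ρ) t
  rw [ch, mul_one, mul_one] at ht
  rw [ch, e1, e2, NE, ← neg_mul ω a, ← neg_mul ω r]
  linear_combination b1 - Th * b2 + (Qf (1 + ρ) ((1 + ρ) * r - β * w) -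
    Th * Qf (-ω) (-ω * r - (1 - ρ) * w)) * ht

variable {A k : Type u} [CommRing A] [IsLocalRing A] [IsArtinianRing A] [Field k] [CharP k 3]
  {Φ : MF A}

omit [CharP k 3] [IsArtinianRing A] in
theorem ATopB_red (π : A →+* k) (hπ : Surjective π) (σ : En A)
    (hσ : constantCoeff (σ X) ∈ maximalIdeal A) :
    ∃ σ' : En k, σ' X = PowerSeries.map π (σ X) ∧
      ∀ f, PowerSeries.map π (σ f) = σ' (PowerSeries.map π f) := by
  have hm : constantCoeff (PowerSeries.map π (σ X)) ∈ maximalIdeal k := by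
    rw [← coeff_zero_eq_constantCoeff_apply, coeff_map, coeff_zero_eq_constantCoeff_apply,
      (pi_eq_zero_iff π hπ _).2 hσ]
    exact zero_mem _
  refine ⟨sub (PowerSeries.map π (σ X)), sub_X hm, map_en π σ _ (sub_X hm).symm ?_⟩
  rwa [sub_X hm]

omit [IsArtinianRing A] in
theorem ATopB_unit {e : ℕ} (hΦ : Φ.Loc e) {y : A⟦X⟧} (hy : y ∈ Φ.ps.F 1) :
    ∃ u, u * (1 - y) = 1 :=
  (isUnit_one_sub_self_of_mem_nonunits y ((mem_max_iff y).2 ((mem_one_iff hΦ).1 hy))).exists_left_inv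

/-- the step on the top curve -/
theorem ATopB_top (hΦ : Φ.Loc 48) (h3 : (3 : A⟦X⟧) ∈ Φ.ps.F 48) (π : A →+* k) (hπ : Surjective π)
    {r ah rh wh Th β ρ ω : A⟦X⟧} (mr : r ∈ Φ.ps.F 24) (ma : ah ∈ Φ.ps.F 9) (mrh : rh ∈ Φ.ps.F 24)
    (mwh : wh ∈ Φ.ps.F 39) (mρ : ρ ∈ Φ.ps.F 24) (mω : ω ∈ Φ.ps.F 39)
    (ra : X ^ 10 ∣ PowerSeries.map π ah - X ^ 9)
    (h : (1 - r ^ 2) * ch ah rh wh Th ((1 + ρ) * X + β) (-ω * X + (1 - ρ)) ∈ Φ.ps.F 66) :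
    ∃ ξ, ch ah rh wh Th ξ 1 = 0 ∧ ξ - X - β ∈ Φ.ps.F 18 := by
  have : HW Φ.ps (3 : A⟦X⟧) 48 := ⟨h3⟩
  have : HW Φ.ps r 24 := ⟨mr⟩
  have : HW Φ.ps ah 9 := ⟨ma⟩
  have : HW Φ.ps rh 24 := ⟨mrh⟩
  have : HW Φ.ps wh 39 := ⟨mwh⟩
  have : HW Φ.ps ρ 24 := ⟨mρ⟩
  have : HW Φ.ps ω 39 := ⟨mω⟩
  obtain ⟨u, hu⟩ := ATopB_unit hΦ (y := r ^ 2) (HW.of (by norm_num))
  obtain ⟨v, hv⟩ := ATopB_unit hΦ (y := ω * X + ρ) (HW.of (by norm_num))
  obtain ⟨z, hz⟩ : ∃ z, z = v * ((1 + ρ) * X + β) := ⟨_, rfl⟩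
  have h0 : ch ah rh wh Th z 1 ∈ Φ.ps.F (48 + 18) := by
    have e : ch ah rh wh Th z 1 = v ^ 3 * u *
        ((1 - r ^ 2) * ch ah rh wh Th ((1 + ρ) * X + β) (-ω * X + (1 - ρ))) := by
      rw [mul_assoc, ← mul_assoc u, hu, one_mul, ← ch_smul, ← hz,
        show v * (-ω * X + (1 - ρ)) = 1 by linear_combination hv]
    rw [e]
    exact Ideal.mul_mem_left _ _ h
  rw [ch_poly] at h0
  obtain ⟨y, hy⟩ : ∃ y, y = 3 * ((1 - rh ^ 2) * z ^ 2) + wh ^ 2 * (2 * Th * z) -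
    rh * ah * (4 * z) + rh * wh * (2 * Th) := ⟨_, rfl⟩
  have my : y ∈ Φ.ps.F 19 := by
    rw [hy]
    exact HW.of (by norm_num)
  have e : 3 * (1 - rh ^ 2) * z ^ 2 + 2 * (Th * wh ^ 2 - 2 * rh * ah) * z +
      (2 * rh * wh * Th - ah ^ 2) = y - ah ^ 2 := by
    rw [hy]
    ring
  obtain ⟨ξ, h1, h2⟩ := hen hΦ (d := 18) (by norm_num) (by norm_num) h0
    (by
      have : HW Φ.ps y 19 := ⟨my⟩
      rw [e]
      exact HW.of (by norm_num))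
    (by
      obtain ⟨g, hg⟩ := ra
      obtain ⟨g', hg'⟩ := dvd_red hΦ π hπ my
      refine unit_coeff π hπ ?_
      rw [e, map_sub, map_pow, hg', eq_add_of_sub_eq hg,
        show (X : k⟦X⟧) ^ 19 * g' - (X ^ 10 * g + X ^ 9) ^ 2 =
          X ^ 18 * (X * (g' - 2 * g - X * g ^ 2) - 1) by ring, coeff_X_pow_mul']
      simp)
  refine ⟨ξ, by rw [ch_poly, h1], ?_⟩
  have : HW Φ.ps (ξ - z) 18 := ⟨h2⟩
  rw [show ξ - X - β = (ξ - z) + (ρ * (v * (2 * X + β)) + ω * (v * X * (X + β))) by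
    rw [hz]
    linear_combination (X + β) * hv]
  exact HW.of (by norm_num)

/-- `σ a` has reduction `(X + xb^3)^3 ≠ 0` (`map_en`), so `nzd` and `row2` apply in `A⟦X⟧`; map everything by
`Sg` and use `ch_NE` with `t = X`.  Weights are multiplied by three (`en_mem3`; `σ` preserves weights by
`en_mem1`).  `V = -ω X + 1 - ρ` and `1 - r^2` are units, `ξ₀ = ((1 + ρ) X + β) / V` satisfies
`ch ... ξ₀ 1 ∈ F 66` (`ch_smul`).  Use `ch_poly` and `hen` with `e = 48`, `d = 18` (`Loc.tri`; `3` has weight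
`48`): the derivative is `-(Sg (σ a))^2` plus terms of weight `≥ 19`, and the reduction of `Sg (σ a)` is
`(s + xb^3)^3 ≡ X^9` modulo `X^10` (`xb = map π (Sg x)` has weight `9`).  Finally `ξ - X - Sg β` has weight
`18`, and the reduction of `Sg β` is `≡ -c s^3` modulo `s^4`. -/
theorem top_b (hΦ : Φ.Loc 16) (h3 : (3 : A) ∈ Φ.F 16) (π : A →+* k) (hπ : Surjective π)
    {W x : A⟦X⟧} {σ : En A} (S : SLv Φ π W x σ) {c : k} {a r w β ρ ω : A⟦X⟧}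
    (h : DL Φ π c x σ a r w β ρ ω) {Sg : En A}
    (h1 : ch (Sg a) (Sg r) (Sg w) (Sg (TT x X)) X 1 = 0) (h2 : Sg X ∈ Φ.tri.ps.F 3)
    (h4 : X ^ 4 ∣ PowerSeries.map π (Sg X) - X ^ 3) :
    ∃ ξ, ch (Sg (σ a)) (Sg (σ r)) (Sg (σ w)) (Sg (σ (TT x X))) ξ 1 = 0 ∧
      X ^ 10 ∣ PowerSeries.map π ξ - X + C c * PowerSeries.map π (Sg X) ^ 3 := by
  have hT : Φ.tri.Loc 48 := hΦ.tri
  have s1 : σ X ∈ Φ.ps.F 1 := (mem_one_iff hΦ).2 S.s0
  obtain ⟨σ', σX, hσ⟩ := ATopB_red π hπ σ S.s0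
  obtain ⟨G, GX, hG⟩ := ATopB_red π hπ Sg ((mem_one_iff hT).1 (Φ.tri.ps.le h2 (by norm_num)))
  obtain ⟨e, he⟩ := h4
  have he' := eq_add_of_sub_eq he
  obtain ⟨x', hx⟩ := dvd_red hΦ π hπ S.mx
  rw [map_sub, map_pow, map_X] at hx
  have ra : X ^ 10 ∣ PowerSeries.map π (Sg (σ a)) - X ^ 9 := by
    rw [hG, hσ, h.ra, map_pow, σX, S.rs, eq_add_of_sub_eq hx]
    simp only [map_pow, map_add, map_mul, GX]
    obtain ⟨q, hq⟩ : ∃ q, PowerSeries.map π (Sg X) + (PowerSeries.map π (Sg X) ^ 19 * G x' +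
        PowerSeries.map π (Sg X) ^ 3) ^ 3 = X ^ 3 * (1 + X * q) :=
      ⟨e + X ^ 23 * (1 + X * e) ^ 9 * (PowerSeries.map π (Sg X) ^ 16 * G x' + 1) ^ 3, by
        have : PowerSeries.map π (Sg X) ^ 9 = X ^ 27 * (1 + X * e) ^ 9 := by
          rw [he', show (X : k⟦X⟧) ^ 4 * e + X ^ 3 = X ^ 3 * (1 + X * e) by ring, mul_pow,
            ← pow_mul]
        generalize (1 + X * e) ^ 9 = E at this ⊢
        linear_combination he + (PowerSeries.map π (Sg X) ^ 16 * G x' + 1) ^ 3 * this⟩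
    rw [hq]
    exact ⟨3 * q + 3 * X * q ^ 2 + X ^ 2 * q ^ 3, by ring⟩
  have hn : PowerSeries.map π (σ a) ≠ 0 := by
    intro h0
    rw [hG, h0, map_zero, zero_sub, dvd_neg, X_pow_dvd_iff] at ra
    simpa [coeff_X_pow] using ra 9 (by norm_num)
  have hh : σ r ^ 2 - σ a * σ w = -3 := by
    simpa [map_ofNat] using congrArg σ h.rel
  obtain ⟨r1, r2⟩ := row2 h.rel hh h.d2 h.d3 fun y => nzd π hπ hn
  have key := ch_NE (ah := Sg (σ a)) (rh := Sg (σ r)) (wh := Sg (σ w)) (β := Sg β) (ρ := Sg ρ)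
    (ω := Sg ω) (Th := Sg (σ (TT x X))) (by simpa [map_ofNat] using congrArg Sg h.rel)
    (by simpa using congrArg Sg h.d2) (by simpa using congrArg Sg h.d3)
    (by simpa using congrArg Sg r1) (by simpa using congrArg Sg r2) h1
  rw [← map_NE, map_TT σ, S.sx] at key
  rw [map_TT σ, S.sx]
  obtain ⟨ξ, e1, e2⟩ := ATopB_top hT
    (by
      rw [← map_ofNat (C : A →+* A⟦X⟧) 3]
      exact Φ.tri.C_mem h3)
    π hπ (en_mem3 Sg h2 h.mr) (en_mem3 Sg h2 (en_mem1 σ s1 h.ma))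
    (en_mem3 Sg h2 (en_mem1 σ s1 h.mr)) (en_mem3 Sg h2 (en_mem1 σ s1 h.mw)) (en_mem3 Sg h2 h.mρ)
    (en_mem3 Sg h2 h.mω) ra (key ▸ Ideal.mul_mem_left _ _ (en_mem3 Sg h2 h.d4))
  refine ⟨ξ, e1, ?_⟩
  obtain ⟨g, hg⟩ := dvd_red hT π hπ e2
  obtain ⟨b, hb⟩ := h.rb
  have hb' := congrArg G hb
  simp only [map_add, map_mul, map_pow, GX, Base_en_C, ← hG] at hb'
  rw [map_sub, map_sub, map_X] at hg
  refine ⟨X ^ 8 * g + X ^ 2 * (1 + X * e) ^ 4 * G b, ?_⟩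
  have : PowerSeries.map π (Sg X) ^ 4 = X ^ 12 * (1 + X * e) ^ 4 := by
    rw [he']
    ring
  linear_combination hg + hb' + G b * this

end Pool.Agent.MP_deef5c_ag.E

end
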