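import Pool.Agent.Mg.Fdeef5c.G30175f
import Pool.Agent.Mg.Fdeef5c.Gbe004d
import Pool.Agent.Mg.Fdeef5c.Gb63dfd

section

/-! The congruences for the top step, first part. -/

open PowerSeries IsLocalRing Function Pool.Agent.MP_deef5c_ag.O
open scoped Polynomial

namespace Pool.Agent.MP_deef5c_ag.E

universe u

variable {D : Type u} [CommRing D] {G : MF D} {s a a1 a2 b b1 b2 W W1 W2 θ : D}

theorem AD1_W (h : DA G s a a1 a2 b b1 b2 W W1 W2 θ) : W = θ * (b ^ 3 - a ^ 2 * b) := by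
  linear_combination (-W) * h.inv - θ * h.e0

theorem AD1_wt (h : DA G s a a1 a2 b b1 b2 W W1 W2 θ) :
    dr a1 b θ ∈ G.F 8 ∧ dr1 s a1 a2 b b1 θ ∈ G.F 7 ∧ dw a a1 a2 b b1 b2 W θ ∈ G.F 13 ∧
      dρ a a1 b θ ∈ G.F 8 ∧ dω a a1 b b1 b2 W θ ∈ G.F 13 := by
  have : HW G a 3 := ⟨h.ma⟩
  have : HW G a1 2 := ⟨h.ma1⟩
  have : HW G a2 1 := ⟨h.ma2⟩
  have : HW G b 3 := ⟨h.mb⟩
  have : HW G b1 2 := ⟨h.mb1⟩
  have : HW G b2 1 := ⟨h.mb2⟩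
  have : HW G W 9 := ⟨h.mW⟩
  unfold dr dr1 dw dρ dω
  exact ⟨HW.of (by norm_num), HW.of (by norm_num), HW.of (by norm_num), HW.of (by norm_num),
    HW.of (by norm_num)⟩

theorem AD1_var {x y : D} {n : ℕ} (h : x - y ∈ G.F n) : ∃ e ∈ G.F n, x = y + e :=
  ⟨x - y, h, by ring⟩

/-- Put `Θ = 1 - s + s^3`, `Ξ = b^3 - a^2 b = Θ W`, `p = 2 a1 b + a b1`.  Modulo multiples of `3` (weight `16`
plus the weight of the cofactor): `Θ W1 = -a p + W`, `Θ W2 = Ξ2 + 2 W1` with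
`Ξ2 = -2 a1^2 b - a (2 a2 b + 4 a1 b1 + a b2)`, so
`Θ^2 (W1^2 + W W2) = (a p)^2 + Ξ Ξ2 - W a p = a1^2 b^4 - Θ^2 a dw`.  Multiply by `θ^2`.
Method: introduce `W1 = θ (...)`, `W2 = θ (...)` from `e1`, `e2`, `inv`; prove an exact identity
`lhs = (W1^2 + W W2 + 3) + 3 * (...)` by `linear_combination`, then use `HW.of`. -/
theorem d1 (h : DA G s a a1 a2 b b1 b2 W W1 W2 θ) :
    dr a1 b θ ^ 2 + 3 - a * dw a a1 a2 b b1 b2 W θ ∈ G.F 19 ∧ dw a a1 a2 b b1 b2 W θ ∈ G.F 13 := by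
  refine ⟨?_, (AD1_wt h).2.2.1⟩
  have hW := AD1_W h
  obtain ⟨α, e1⟩ : ∃ α, W1 = θ * (W - a * (2 * a1 * b + a * b1)) + 3 * α :=
    ⟨θ * (b ^ 2 * b1 - s ^ 2 * W), by linear_combination (-W1) * h.inv - θ * h.e1⟩
  obtain ⟨β, e2⟩ : ∃ β, W2 = θ * (-2 * a1 ^ 2 * b - a * (2 * a2 * b + 4 * a1 * b1 + a * b2) +
      2 * W1) + 3 * β :=
    ⟨θ * (2 * b * b1 ^ 2 + b ^ 2 * b2 - 2 * s * W - 2 * s ^ 2 * W1), by
      linear_combination (-W2) * h.inv - θ * h.e2⟩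
  have e : dr a1 b θ ^ 2 + 3 - a * dw a a1 a2 b b1 b2 W θ = (W1 ^ 2 + W * W2 + 3) +
      3 * (θ ^ 2 * a1 ^ 2 * b ^ 4 - 2 * α * θ * (W - a * (2 * a1 * b + a * b1)) - 3 * α ^ 2 -
        2 * θ * W * α - W * β - θ ^ 2 * (W ^ 2 - a * (2 * a1 * b + a * b1) * W)) := by
    rw [e2, e1]
    unfold dr dw
    linear_combination
      (-θ * (-2 * a1 ^ 2 * b - a * (2 * a2 * b + 4 * a1 * b1 + a * b2))) * hW
  rw [e]
  refine add_mem h.p ?_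
  have : HW G (3 : D) 16 := ⟨h.three⟩
  have : HW G a 3 := ⟨h.ma⟩
  have : HW G b 3 := ⟨h.mb⟩
  have : HW G W 9 := ⟨h.mW⟩
  exact HW.of (by norm_num)

/-- Modulo weight `19`: `ah - a ≡ a1 W = a1 θ (b^3 - a^2 b)`, the second term is `2 b r = 2 a1 b^3 θ`, the
third is `2 a1 θ a^2 b`; the sum is a multiple of `3`. -/
theorem d2 (h : DA G s a a1 a2 b b1 b2 W W1 W2 θ) {δ ah rh : D} (hδ : δ - W ∈ G.F 17)
    (ha : ah - a - a1 * δ ∈ G.F 19) (hr : rh - dr a1 b θ ∈ G.F 16) :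
    ah - a + (b - b1 * W) * (dr a1 b θ + rh) - dρ a a1 b θ * (a + ah) ∈ G.F 19 := by
  have hW := AD1_W h
  obtain ⟨w1, -, -, w2, -⟩ := AD1_wt h
  obtain ⟨ε, hε, rfl⟩ := AD1_var hδ
  obtain ⟨η, hη, e1⟩ := AD1_var (show ah - (a + a1 * (W + ε)) ∈ G.F 19 by rwa [← sub_sub])
  obtain ⟨ζ, hζ, e2⟩ := AD1_var hr
  have e : ah - a + (b - b1 * W) * (dr a1 b θ + rh) - dρ a a1 b θ * (a + ah) =
      3 * (a1 * θ * (b ^ 3 - a ^ 2 * b)) + a1 * ε + η + b * ζ -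
        b1 * W * (2 * dr a1 b θ + ζ) - dρ a a1 b θ * (a1 * (W + ε) + η) := by
    rw [e1, e2]
    unfold dr dρ
    linear_combination a1 * hW
  rw [e]
  generalize dr a1 b θ = r at w1 ⊢
  generalize dρ a a1 b θ = t at w2 ⊢
  have : HW G (3 : D) 16 := ⟨h.three⟩
  have : HW G a 3 := ⟨h.ma⟩
  have : HW G a1 2 := ⟨h.ma1⟩
  have : HW G b 3 := ⟨h.mb⟩
  have : HW G b1 2 := ⟨h.mb1⟩
  have : HW G W 9 := ⟨h.mW⟩
  have : HW G r 8 := ⟨w1⟩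
  have : HW G t 8 := ⟨w2⟩
  have : HW G ε 17 := ⟨hε⟩
  have : HW G η 19 := ⟨hη⟩
  have : HW G ζ 16 := ⟨hζ⟩
  exact HW.of (by norm_num)

/-- Modulo weight `19` the expression is `b dw + dr1 W - a dω`, which is a multiple of `3` of weight
`32` after using `W = θ (b^3 - a^2 b)` in the terms `a2 b^2 θ W` and `2 a1 b b1 θ W`. -/
theorem d3 (h : DA G s a a1 a2 b b1 b2 W W1 W2 θ) {δ ah rh w ρ : D} (hδ : δ - W ∈ G.F 17)
    (ha : ah - a - a1 * δ ∈ G.F 19) (hr : rh - dr a1 b θ - dr1 s a1 a2 b b1 θ * δ ∈ G.F 19)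
    (hw : w - dw a a1 a2 b b1 b2 W θ ∈ G.F 16) (hρ : ρ ∈ G.F 8) :
    (b - b1 * W) * w + (1 + ρ) * (rh - dr a1 b θ) - ah * dω a a1 b b1 b2 W θ ∈ G.F 19 ∧
      dω a a1 b b1 b2 W θ ∈ G.F 13 := by
  have hW := AD1_W h
  obtain ⟨-, w1, w2, -, w3⟩ := AD1_wt h
  refine ⟨?_, w3⟩
  obtain ⟨ε, hε, rfl⟩ := AD1_var hδ
  obtain ⟨η, hη, e1⟩ := AD1_var (show ah - (a + a1 * (W + ε)) ∈ G.F 19 by rwa [← sub_sub])
  obtain ⟨ζ, hζ, e2⟩ := AD1_var hr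
  obtain ⟨ν, hν, e3⟩ := AD1_var hw
  have e : (b - b1 * W) * w + (1 + ρ) * (rh - dr a1 b θ) - ah * dω a a1 b b1 b2 W θ =
      3 * (θ ^ 2 * (b * (b ^ 3 - a ^ 2 * b) * (a2 * b + 2 * a1 * b1) +
        a1 * b ^ 2 * W * (1 - s ^ 2))) + b * ν - b1 * W * (dw a a1 a2 b b1 b2 W θ + ν) +
        dr1 s a1 a2 b b1 θ * ε + ζ + ρ * (dr1 s a1 a2 b b1 θ * (W + ε) + ζ) -
        (a1 * (W + ε) + η) * dω a a1 b b1 b2 W θ := by
    have e0 : b * dw a a1 a2 b b1 b2 W θ + dr1 s a1 a2 b b1 θ * W - a * dω a a1 b b1 b2 W θ =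
        3 * (θ ^ 2 * (b * (b ^ 3 - a ^ 2 * b) * (a2 * b + 2 * a1 * b1) +
          a1 * b ^ 2 * W * (1 - s ^ 2))) := by
      unfold dw dr1 dω
      linear_combination (a2 * b ^ 2 * θ + 2 * a1 * b * b1 * θ) * hW
    rw [e1, e3]
    linear_combination e0 + (1 + ρ) * e2
  rw [e]
  generalize dr1 s a1 a2 b b1 θ = r at w1 ⊢
  generalize dw a a1 a2 b b1 b2 W θ = t at w2 ⊢
  generalize dω a a1 b b1 b2 W θ = v at w3 ⊢
  have : HW G (3 : D) 16 := ⟨h.three⟩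
  have : HW G a1 2 := ⟨h.ma1⟩
  have : HW G b 3 := ⟨h.mb⟩
  have : HW G b1 2 := ⟨h.mb1⟩
  have : HW G W 9 := ⟨h.mW⟩
  have : HW G r 7 := ⟨w1⟩
  have : HW G t 13 := ⟨w2⟩
  have : HW G v 13 := ⟨w3⟩
  have : HW G ρ 8 := ⟨hρ⟩
  have : HW G ε 17 := ⟨hε⟩
  have : HW G η 19 := ⟨hη⟩
  have : HW G ζ 19 := ⟨hζ⟩
  have : HW G ν 16 := ⟨hν⟩
  exact HW.of (by norm_num)

end Pool.Agent.MP_deef5c_ag.E

end

section

/-! The congruences for the top step, second part. -/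

open PowerSeries IsLocalRing Function Pool.Agent.MP_deef5c_ag.O
open scoped Polynomial

namespace Pool.Agent.MP_deef5c_ag.E

universe u

variable {D : Type u} [CommRing D] {G : MF D} {s a a1 a2 b b1 b2 W W1 W2 θ : D}

theorem AD4_B {a r ρ ω : D} (h3 : (3 : D) ∈ G.F 16) (ha : a ∈ G.F 3) (hr : r ∈ G.F 8)
    (hρ : ρ ∈ G.F 8) (hω : ω ∈ G.F 13) :
    Qf (1 - ρ) (-(ω * a) - (1 - ρ) * r) - (1 - r ^ 2) ∈ G.F 21 := by
  have : HW G (3 : D) 16 := ⟨h3⟩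
  have : HW G a 3 := ⟨ha⟩
  have : HW G r 8 := ⟨hr⟩
  have : HW G ρ 8 := ⟨hρ⟩
  have : HW G ω 13 := ⟨hω⟩
  have e : Qf (1 - ρ) (-(ω * a) - (1 - ρ) * r) - (1 - r ^ 2) =
      (1 - r ^ 2) * (3 * ρ ^ 2 - 3 * ρ - ρ ^ 3) -
        (1 - ρ) * (ω ^ 2 * a ^ 2 + 2 * ω * a * (1 - ρ) * r) := by
    unfold Qf
    ring
  rw [e]
  exact HW.of (by norm_num)

theorem AD4_C {β r ρ w : D} (h3 : (3 : D) ∈ G.F 16) (hb : β ∈ G.F 3) (hr : r ∈ G.F 8)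
    (hρ : ρ ∈ G.F 8) (hw : w ∈ G.F 13) :
    Qf (1 + ρ) ((1 + ρ) * r - β * w) - (1 - r ^ 2) ∈ G.F 21 := by
  have : HW G (3 : D) 16 := ⟨h3⟩
  have : HW G β 3 := ⟨hb⟩
  have : HW G r 8 := ⟨hr⟩
  have : HW G ρ 8 := ⟨hρ⟩
  have : HW G w 13 := ⟨hw⟩
  have e : Qf (1 + ρ) ((1 + ρ) * r - β * w) - (1 - r ^ 2) =
      (1 - r ^ 2) * (3 * ρ ^ 2 + 3 * ρ + ρ ^ 3) -
        (1 + ρ) * (β ^ 2 * w ^ 2 - 2 * β * w * (1 + ρ) * r) := by
    unfold Qf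
    ring
  rw [e]
  exact HW.of (by norm_num)

theorem AD4_E {r ρ w ω : D} (hr : r ∈ G.F 8) (hw : w ∈ G.F 13) (hω : ω ∈ G.F 13) :
    Qf (-ω) (-(ω * r) - (1 - ρ) * w) ∈ G.F 39 := by
  have : HW G r 8 := ⟨hr⟩
  have : HW G w 13 := ⟨hw⟩
  have : HW G ω 13 := ⟨hω⟩
  unfold Qf
  exact HW.of (by norm_num)

theorem AD4_A {e : D} (h3 : (3 : D) ∈ G.F 16) (ha : a ∈ G.F 3) (ha1 : a1 ∈ G.F 2)
    (hb : b ∈ G.F 3) (hb1 : b1 ∈ G.F 2) (hW : W ∈ G.F 9) (he : e ∈ G.F 19) :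
    Qf (b - b1 * W) (a - a1 * W + e) -
      (b ^ 3 - a ^ 2 * b + 2 * a * a1 * b * W + a ^ 2 * b1 * W) ∈ G.F 22 := by
  have : HW G (3 : D) 16 := ⟨h3⟩
  have : HW G a 3 := ⟨ha⟩
  have : HW G a1 2 := ⟨ha1⟩
  have : HW G b 3 := ⟨hb⟩
  have : HW G b1 2 := ⟨hb1⟩
  have : HW G W 9 := ⟨hW⟩
  have : HW G e 19 := ⟨he⟩
  have e1 : Qf (b - b1 * W) (a - a1 * W + e) -
      (b ^ 3 - a ^ 2 * b + 2 * a * a1 * b * W + a ^ 2 * b1 * W) =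
      3 * b * b1 ^ 2 * W ^ 2 - 3 * b ^ 2 * b1 * W - b1 ^ 3 * W ^ 3 - 2 * a * b * e -
        b * (e - a1 * W) ^ 2 + 2 * a * b1 * W * (e - a1 * W) + b1 * W * (e - a1 * W) ^ 2 := by
    unfold Qf
    ring
  rw [e1]
  exact HW.of (by norm_num)

theorem AD4_T (h : DA G s a a1 a2 b b1 b2 W W1 W2 θ) {e : D} (he : e ∈ G.F 22) :
    s + (W - W * W1 + e) + (s + (W - W * W1 + e)) ^ 2 - 2 * (s + (W - W * W1 + e)) ^ 4 -
      (s + s ^ 2 - 2 * s ^ 4) -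
      (b ^ 3 - a ^ 2 * b + 2 * a * a1 * b * W + a ^ 2 * b1 * W) ∈ G.F 22 := by
  have : HW G (3 : D) 16 := ⟨h.three⟩
  have : HW G s 1 := ⟨h.ms⟩
  have : HW G b 3 := ⟨h.mb⟩
  have : HW G b1 2 := ⟨h.mb1⟩
  have : HW G W 9 := ⟨h.mW⟩
  have : HW G W1 8 := ⟨h.mW1⟩
  have : HW G e 22 := ⟨he⟩
  obtain ⟨δ, hδ⟩ : ∃ δ, δ = W - W * W1 + e := ⟨_, rfl⟩
  have : HW G δ 9 := ⟨by rw [hδ]; exact HW.of (by norm_num)⟩
  have e1 : s + δ + (s + δ) ^ 2 - 2 * (s + δ) ^ 4 - (s + s ^ 2 - 2 * s ^ 4) -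
      (b ^ 3 - a ^ 2 * b + 2 * a * a1 * b * W + a ^ 2 * b1 * W) =
      3 * (s - 3 * s ^ 3) * δ - 3 * (4 * s ^ 2 * δ ^ 2) - 8 * s * δ ^ 3 - 2 * δ ^ 4 +
        (e - W * W1) * (δ + W) + (1 - s + s ^ 3) * e - 3 * b ^ 2 * b1 * W + 3 * s ^ 2 * W ^ 2 := by
    linear_combination (1 - s + s ^ 3 + δ + W) * hδ - h.e0 + W * h.e1
  rw [← hδ, e1]
  exact HW.of (by norm_num)

/-- All congruences modulo weight `22`; `r = dr`, `β = b - b1 W`, `Θ = 1 - s + s^3`.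
(1) `Qf (1 - ρ) (-(ω a) - (1 - ρ) r) ≡ 1 - r^2 ≡ Qf (1 + ρ) ((1 + ρ) r - β w)` modulo weight `21` (the terms
`3 ρ`, `ρ^3` have weight `24`), and the last `Qf` has weight `39`; so the terms with `T`, `Th` give
`-(Th - T) (1 - r^2) ≡ -(Th - T)` since `Th - T` has weight `9`.
(2) `(1 + ρ) a - β r = a + ε`, `ε ≡ dρ a - b r = - a1 θ (b^3 - a^2 b) = - a1 W` modulo weight `19`, so the first
`Qf` is `≡ b^3 - a^2 b + 2 a1 a b W + a^2 b1 W`.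
(3) `Th - T ≡ (1 + 2 s - 8 s^3) δ + δ^2 ≡ Θ δ + W^2 ≡ Θ W - Θ W W1 + W^2`, and
`Θ W1 ≡ -2 a a1 b - a^2 b1 + W` by `e1`.  Everything cancels. -/
theorem d4 (h : DA G s a a1 a2 b b1 b2 W W1 W2 θ) {δ w ρ ω T Th : D}
    (hδ : δ - (W - W * W1) ∈ G.F 22) (hw : w ∈ G.F 13) (hω : ω ∈ G.F 13)
    (hρ : ρ - dρ a a1 b θ ∈ G.F 16) (hT : T ∈ G.F 1)
    (hd : Th - T - (s + δ + (s + δ) ^ 2 - 2 * (s + δ) ^ 4 - (s + s ^ 2 - 2 * s ^ 4)) ∈ G.F 22) :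
    NE a (dr a1 b θ) w T Th (b - b1 * W) ρ ω ∈ G.F 22 := by
  have : HW G a 3 := ⟨h.ma⟩
  have : HW G a1 2 := ⟨h.ma1⟩
  have : HW G b 3 := ⟨h.mb⟩
  have : HW G b1 2 := ⟨h.mb1⟩
  have : HW G W 9 := ⟨h.mW⟩
  have hr : dr a1 b θ ∈ G.F 8 := by
    unfold dr
    exact HW.of (by norm_num)
  have hρ0 : dρ a a1 b θ ∈ G.F 8 := by
    unfold dρ
    exact HW.of (by norm_num)
  have hρ8 : ρ ∈ G.F 8 := by
    have := add_mem (G.le hρ (by norm_num : 8 ≤ 16)) hρ0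
    rwa [sub_add_cancel] at this
  have hβ : b - b1 * W ∈ G.F 3 := HW.of (by norm_num)
  have hB := AD4_B h.three h.ma hr hρ8 hω
  have hC := AD4_C h.three hβ hr hρ8 hw
  have hE := AD4_E (ρ := ρ) hr hw hω
  have hT' := AD4_T h hδ
  rw [show W - W * W1 + (δ - (W - W * W1)) = δ by ring] at hT'
  obtain ⟨η, hη⟩ : ∃ η, η = ρ - dρ a a1 b θ := ⟨_, rfl⟩
  obtain ⟨r, hr'⟩ : ∃ r, r = dr a1 b θ := ⟨_, rfl⟩
  rw [← hη] at hρ
  have : HW G η 16 := ⟨hρ⟩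
  have : HW G r 8 := ⟨hr' ▸ hr⟩
  have he : η * a + b1 * W * r ∈ G.F 19 := HW.of (by norm_num)
  have hA := AD4_A h.three h.ma h.ma1 h.mb h.mb1 h.mW he
  have e1 : a - a1 * W + (η * a + b1 * W * r) = (1 + ρ) * a - (b - b1 * W) * r := by
    unfold dρ at hη
    unfold dr at hr'
    linear_combination a * hη + b * hr' + a1 * θ * h.e0 + a1 * W * h.inv
  rw [e1] at hA
  rw [← hr'] at hB hC hE ⊢
  unfold NE
  obtain ⟨P, hP⟩ : ∃ P, P = b ^ 3 - a ^ 2 * b + 2 * a * a1 * b * W + a ^ 2 * b1 * W := ⟨_, rfl⟩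
  have : HW G P 9 := ⟨by rw [hP]; exact HW.of (by norm_num)⟩
  rw [← hP] at hA hT'
  have hTT : Th - T - P ∈ G.F 22 := by
    have := add_mem hd hT'
    rwa [sub_add_sub_cancel] at this
  generalize Qf (b - b1 * W) ((1 + ρ) * a - (b - b1 * W) * r) = qA at hA ⊢
  generalize Qf (1 - ρ) (-(ω * a) - (1 - ρ) * r) = qB at hB ⊢
  generalize Qf (1 + ρ) ((1 + ρ) * r - (b - b1 * W) * w) = qC at hC ⊢
  generalize Qf (-ω) (-(ω * r) - (1 - ρ) * w) = qE at hE ⊢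
  obtain ⟨xA, rfl⟩ : ∃ x, qA = x + P := ⟨qA - P, by ring⟩
  obtain ⟨xB, rfl⟩ : ∃ x, qB = x + (1 - r ^ 2) := ⟨qB - (1 - r ^ 2), by ring⟩
  obtain ⟨xC, rfl⟩ : ∃ x, qC = x + (1 - r ^ 2) := ⟨qC - (1 - r ^ 2), by ring⟩
  obtain ⟨xT, rfl⟩ : ∃ x, Th = x + P + T := ⟨Th - T - P, by ring⟩
  rw [add_sub_cancel_right] at hA hB hC
  rw [show xT + P + T - T - P = xT by ring] at hTT
  have : HW G xA 22 := ⟨hA⟩
  have : HW G xB 21 := ⟨hB⟩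
  have : HW G xC 21 := ⟨hC⟩
  have : HW G qE 39 := ⟨hE⟩
  have : HW G xT 22 := ⟨hTT⟩
  have : HW G T 1 := ⟨hT⟩
  have e2 : xA + P - (xT + P + T) * (xB + (1 - r ^ 2)) +
      T * (xC + (1 - r ^ 2) - (xT + P + T) * qE) =
      xA - xT + (xT + P) * r ^ 2 - (xT + P + T) * xB + T * xC - T * (xT + P + T) * qE := by
    ring
  rw [e2]
  exact HW.of (by norm_num)

end Pool.Agent.MP_deef5c_ag.E

end

section

/-! The data of the top step. -/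

open PowerSeries IsLocalRing Function Pool.Agent.MP_deef5c_ag.O
open scoped Polynomial

namespace Pool.Agent.MP_deef5c_ag.E

universe u

variable {A k : Type u} [CommRing A] [IsLocalRing A] [IsArtinianRing A] [Field k] [CharP k 3]
  {Φ : MF A}

omit [IsLocalRing A] [IsArtinianRing A] in
theorem ADl_mul (f g : A⟦X⟧) : d⁄dX A (f * g) = f * d⁄dX A g + g * d⁄dX A f := by
  rw [Derivation.leibniz, smul_eq_mul, smul_eq_mul]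

omit [IsLocalRing A] [IsArtinianRing A] in
theorem ADl_sq (f : A⟦X⟧) : d⁄dX A (f ^ 2) = 2 * f * d⁄dX A f := by
  rw [pow_two, ADl_mul]
  ring

omit [IsLocalRing A] [IsArtinianRing A] in
theorem ADl_cube (f : A⟦X⟧) : d⁄dX A (f ^ 3) = 3 * f ^ 2 * d⁄dX A f := by
  rw [pow_succ, ADl_mul, ADl_sq]
  ring

omit [IsLocalRing A] [IsArtinianRing A] in
theorem ADl_two : d⁄dX A (2 : A⟦X⟧) = 0 := by
  rw [← map_ofNat (C : A →+* A⟦X⟧) 2, derivative_C]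

omit [IsLocalRing A] [IsArtinianRing A] in
theorem ADl_three : d⁄dX A (3 : A⟦X⟧) = 0 := by
  rw [← map_ofNat (C : A →+* A⟦X⟧) 3, derivative_C]

theorem ADl_three0 : (3 : k⟦X⟧) = 0 := by
  rw [← map_ofNat (C : k →+* k⟦X⟧) 3, show (3 : k) = 0 from CharP.cast_eq_zero k 3, map_zero]

/-- `γ` from `as_root` (`f = Th A + H`, residue `-c`), `b = γ a + u`; `b^3 - a^2 b = Θ W` by `eqC`, `u3`.
Differentiate once and twice (`Derivation.leibniz`, `Derivation.leibniz_pow`); weights by `der_mem`. -/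
theorem exists_da (hΦ : Φ.Loc 16) (π : A →+* k) (hπ : Surjective π) {a u H : A⟦X⟧} {c : ℕ → A}
    (h : Dat Φ π a u H c) {c₀ : k} (hc : c₀ - c₀ ^ 3 = 1) :
    ∃ b θ : A⟦X⟧, DA Φ.ps X a (d⁄dX A a) (d⁄dX A (d⁄dX A a)) b (d⁄dX A b) (d⁄dX A (d⁄dX A b)) (WW c)
      (d⁄dX A (WW c)) (d⁄dX A (d⁄dX A (WW c))) θ ∧
      d⁄dX A (dr (d⁄dX A a) b θ) = dr1 X (d⁄dX A a) (d⁄dX A (d⁄dX A a)) b (d⁄dX A b) θ ∧
      X ^ 4 ∣ PowerSeries.map π b + C c₀ * X ^ 3 := by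
  have hH : π (constantCoeff H) = 0 := by
    have := congrArg (coeff 0) h.rH
    rwa [coeff_map, coeff_zero_eq_constantCoeff_apply, map_zero] at this
  obtain ⟨γ, hγ, hγ0⟩ := as_root π hπ (Th A + H) (-c₀) (by
    simp only [Th, map_add, map_sub, map_one, map_pow, constantCoeff_X, hH, map_zero]
    linear_combination hc)
  have hΘ : IsUnit (1 - X + X ^ 3 : A⟦X⟧) := by
    rw [PowerSeries.isUnit_iff_constantCoeff]
    simp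
  obtain ⟨θ, hθ⟩ := hΘ.exists_right_inv
  obtain ⟨b, hb⟩ : ∃ b, b = γ * a + u := ⟨_, rfl⟩
  have hbm : b ∈ Φ.ps.F 3 := hb ▸ add_mem (Ideal.mul_mem_left _ _ h.ma) h.mu
  have hW := WW_mem h
  have e0 : b ^ 3 - a ^ 2 * b = (1 - X + X ^ 3) * WW c := by
    have h1 := h.eqC
    rw [← hγ, Th] at h1
    rw [hb]
    linear_combination -h1 + (γ ^ 2 * a ^ 2 + γ * a * u) * h.u3
  have e1 : 3 * b ^ 2 * d⁄dX A b - 2 * a * d⁄dX A a * b - a ^ 2 * d⁄dX A b =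
      (-1 + 3 * X ^ 2) * WW c + (1 - X + X ^ 3) * d⁄dX A (WW c) := by
    have h1 := congrArg (d⁄dX A) e0
    simp only [map_sub, map_add, ADl_mul, ADl_sq, ADl_cube, derivative_X, derivative_one] at h1
    linear_combination h1
  refine ⟨b, θ, ⟨?_, Φ.X_mem, h.ma, der_mem h.ma, der_mem (der_mem h.ma), hbm, der_mem hbm,
    der_mem (der_mem hbm), hW, der_mem hW, der_mem (der_mem hW), hθ, e0, e1, ?_, WW_P h⟩, ?_, ?_⟩
  · rw [← map_ofNat (C : A →+* A⟦X⟧) 3]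
    exact Φ.C_mem h.three
  · have h1 := congrArg (d⁄dX A) e1
    simp only [map_sub, map_add, map_neg, ADl_mul, ADl_sq, ADl_cube, derivative_X, derivative_one,
      ADl_two, ADl_three] at h1
    linear_combination h1
  · have h1 := congrArg (d⁄dX A) hθ
    simp only [map_sub, map_add, ADl_mul, ADl_cube, derivative_X, derivative_one] at h1
    have h2 : d⁄dX A θ = θ ^ 2 * (1 - 3 * X ^ 2) := by
      linear_combination θ * h1 - d⁄dX A θ * hθ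
    simp only [dr, dr1, ADl_mul, ADl_sq, h2]
    ring
  · have h1 : X ∣ PowerSeries.map π γ + C c₀ := by
      rw [X_dvd_iff, map_add, constantCoeff_C, ← coeff_zero_eq_constantCoeff_apply, coeff_map,
        coeff_zero_eq_constantCoeff_apply, hγ0, neg_add_cancel]
    obtain ⟨g, hg⟩ := h1
    refine ⟨g, ?_⟩
    rw [hb, map_add, map_mul, h.ra, h.ru]
    linear_combination X ^ 3 * hg

/-- Take `b, θ` from `exists_da`, `r = dr`, `β = b - b' W`, `δ = σ X - X`.  `w = dw + w₁` where `w₁` (weight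
`16`) comes from `d1` and `div_mem` for `a`; `ρ = dρ + ρ₁` from `d2` and `div_mem` for `a + σ a` (reduction
`2 X^3 + xb^9`); `ω = dω + ω₁` from `d3` and `div_mem` for `σ a`.  The hypotheses of `d2, d3` come from
`taylor`, `taylor0`.  For `d4`: `TT x X - (X + X^2 - 2 X^4)` has weight `20` (`mx`), apply `taylor0` to it;
`σ (TT x X) = TT x (σ X)`.  Reductions: `map π a' = (X^3)' = 0` (`map_der`), so `r ↦ 0`, and
`a w = r^2 + 3` gives `w ↦ 0`. -/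
theorem exists_dl (hΦ : Φ.Loc 16) (π : A →+* k) (hπ : Surjective π) {a u H : A⟦X⟧} {c : ℕ → A}
    (h : Dat Φ π a u H c) {c₀ : k} (hc : c₀ - c₀ ^ 3 = 1) {x : A⟦X⟧} {σ : En A}
    (S : SLv Φ π (WW c) x σ) : ∃ r w β ρ ω, DL Φ π c₀ x σ a r w β ρ ω := by
  obtain ⟨b, θ, hd, hr1, hb4⟩ := exists_da hΦ π hπ h hc
  have i1 : HW Φ.ps a 3 := ⟨hd.ma⟩
  have i2 : HW Φ.ps (d⁄dX A a) 2 := ⟨hd.ma1⟩
  have i3 : HW Φ.ps b 3 := ⟨hd.mb⟩
  have i4 : HW Φ.ps (d⁄dX A b) 2 := ⟨hd.mb1⟩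
  have i5 : HW Φ.ps (WW c) 9 := ⟨hd.mW⟩
  have i6 : HW Φ.ps (d⁄dX A (WW c)) 8 := ⟨hd.mW1⟩
  have hδ17 : σ X - X - WW c ∈ Φ.ps.F 17 := by
    have h1 : WW c * d⁄dX A (WW c) ∈ Φ.ps.F 17 := Φ.ps.mul hd.mW hd.mW1
    have h2 := sub_mem (Φ.ps.le S.ms (by norm_num : 17 ≤ 25)) h1
    convert h2 using 1
    ring
  have hδ9 : σ X - X ∈ Φ.ps.F 9 := by
    have h2 := add_mem (Φ.ps.le hδ17 (by norm_num : 9 ≤ 17)) hd.mW
    rwa [sub_add_cancel] at h2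
  have hr8 : dr (d⁄dX A a) b θ ∈ Φ.ps.F 8 := by
    unfold dr
    exact HW.of (by norm_num)
  have ta : σ a - a - d⁄dX A a * (σ X - X) ∈ Φ.ps.F 19 := taylor σ hδ9 hd.ma
  have ta0 : σ a - a ∈ Φ.ps.F 11 := taylor0 σ hδ9 hd.ma
  have tr0 : σ (dr (d⁄dX A a) b θ) - dr (d⁄dX A a) b θ ∈ Φ.ps.F 16 := taylor0 σ hδ9 hr8
  have tr : σ (dr (d⁄dX A a) b θ) - dr (d⁄dX A a) b θ -
      dr1 X (d⁄dX A a) (d⁄dX A (d⁄dX A a)) b (d⁄dX A b) θ * (σ X - X) ∈ Φ.ps.F 19 := by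
    rw [← hr1]
    exact Φ.ps.le (taylor σ hδ9 hr8) (by norm_num)
  have hca : coeff 3 (PowerSeries.map π a) = 1 := by rw [h.ra, coeff_X_pow_self]
  have hcs : coeff 3 (PowerSeries.map π (σ a)) = 1 := by
    have h1 := X_pow_dvd_iff.1 (dvd_red hΦ π hπ ta0) 3 (by norm_num)
    rwa [map_sub, map_sub, hca, sub_eq_zero] at h1
  have hsa : σ a ∈ Φ.ps.F 3 := by
    have h2 := add_mem (Φ.ps.le ta0 (by norm_num : 3 ≤ 11)) hd.ma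
    rwa [sub_add_cancel] at h2
  have h2k : (2 : k) ≠ 0 := fun h0 => one_ne_zero (α := k) (by
    have h3 : (3 : k) = 0 := CharP.cast_eq_zero k 3
    linear_combination h3 - h0)
  obtain ⟨hd1, hdw⟩ := d1 hd
  obtain ⟨w₁, hw₁, ew⟩ := div_mem hΦ (n := 16) hd.ma
    (unit_coeff π hπ (by rw [hca]; exact one_ne_zero)) le_rfl hd1
  obtain ⟨ρ₁, hρ₁, eρ⟩ := div_mem hΦ (n := 16) (add_mem hd.ma hsa)
    (unit_coeff π hπ (by rw [map_add, map_add, hca, hcs, one_add_one_eq_two]; exact h2k)) le_rfl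
    (d2 hd hδ17 ta tr0)
  have hρ8 : dρ a (d⁄dX A a) b θ + ρ₁ ∈ Φ.ps.F 8 := by
    refine add_mem ?_ (Φ.ps.le hρ₁ (by norm_num))
    unfold dρ
    exact HW.of (by norm_num)
  obtain ⟨hd3, hdω⟩ := d3 hd (w := dw a (d⁄dX A a) (d⁄dX A (d⁄dX A a)) b (d⁄dX A b)
    (d⁄dX A (d⁄dX A b)) (WW c) θ + w₁) hδ17 ta tr (by rwa [add_sub_cancel_left]) hρ8
  obtain ⟨ω₁, hω₁, eω⟩ := div_mem hΦ (n := 16) hsa
    (unit_coeff π hπ (by rw [hcs]; exact one_ne_zero)) le_rfl hd3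
  have hw13 := add_mem hdw (Φ.ps.le hw₁ (by norm_num : 13 ≤ 16))
  have hω13 := add_mem hdω (Φ.ps.le hω₁ (by norm_num : 13 ≤ 16))
  have hr0 : PowerSeries.map π (dr (d⁄dX A a) b θ) = 0 := by
    rw [dr, map_mul, map_mul, map_der, h.ra, ADl_cube, ADl_three0]
    simp
  refine ⟨_, _, b - d⁄dX A b * WW c, _, _, h.ra, hr0, ?_, ?_, by linear_combination ew, hd.ma, hr8,
    hw13, HW.of (by norm_num), hρ8, hω13, by linear_combination eρ, by linear_combination eω, ?_⟩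
  · have h1 : a * (dw a (d⁄dX A a) (d⁄dX A (d⁄dX A a)) b (d⁄dX A b)
        (d⁄dX A (d⁄dX A b)) (WW c) θ + w₁) = dr (d⁄dX A a) b θ ^ 2 + 3 := by
      linear_combination -ew
    have h2 := congrArg (PowerSeries.map π) h1
    rw [map_mul, h.ra, map_add (PowerSeries.map π) (_ ^ 2), map_pow, hr0, map_ofNat, ADl_three0,
      zero_pow two_ne_zero, add_zero] at h2
    exact (mul_eq_zero.1 h2).resolve_left (pow_ne_zero _ X_ne_zero)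
  · have h1 : (X : k⟦X⟧) ^ 4 ∣ PowerSeries.map π (d⁄dX A b * WW c) :=
      dvd_red hΦ π hπ (HW.of (by norm_num))
    have h2 := dvd_sub hb4 h1
    convert h2 using 1
    rw [map_sub]
    ring
  · obtain ⟨e, he⟩ : ∃ e, e = x - X ^ 3 := ⟨_, rfl⟩
    have i7 : HW Φ.ps e 19 := ⟨he ▸ S.mx⟩
    have hx : x = X ^ 3 + e := by rw [he]; ring
    have hg : TT x X - (X + X ^ 2 - 2 * X ^ 4) ∈ Φ.ps.F 20 := by
      have h1 : TT x X - (X + X ^ 2 - 2 * X ^ 4) =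
          X ^ 4 * (X ^ 3 + e) ^ 15 * (1 + X - x - X ^ 3) - X * e := by
        rw [← hx, he, TT]
        ring
      rw [h1]
      generalize (1 + X - x - X ^ 3 : A⟦X⟧) = y
      exact HW.of (by norm_num)
    have hT : TT x X ∈ Φ.ps.F 1 := by
      rw [TT, mul_assoc]
      exact Ideal.mul_mem_right _ _ Φ.X_mem
    refine d4 hd (δ := σ X - X) (Φ.ps.le S.ms (by norm_num)) hw13 hω13
      (by rwa [add_sub_cancel_left]) hT ?_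
    have h1 := Φ.ps.le (taylor0 σ hδ9 hg) (by norm_num : 22 ≤ 20 + 8)
    convert h1 using 1
    rw [map_sub, map_TT, S.sx, map_sub, map_add, map_mul, map_pow, map_pow, map_ofNat]
    ring

end Pool.Agent.MP_deef5c_ag.E

end
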