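import Pool.Agent.Mg.Fdeef5c.G59577e
import Pool.Agent.Mg.Fdeef5c.Gdbb068
import Pool.Agent.MP_deef5c_ag.O.Stm

section

/-! Further definitions: data attached to one step of the tower. -/

open PowerSeries IsLocalRing Finset Function
open scoped Polynomial

namespace Pool.Agent.MP_deef5c_ag.O

universe u

open WithZero

variable {k : Type u} [Field k]

/-- Artin-Schreier-Witt data of level `n` -/
structure WD (p n : ℕ) [Fact p.Prime] (σ : En k) (y f : WittVector p (LaurentSeries k))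
    (r : ℕ → k[X]) : Prop where
  sig : ∀ j < n, lext σ (y.coeff j) = (y + 1).coeff j
  frob : ∀ j < n, y.coeff j ^ p = (y + f).coeff j
  hf : ∀ j < n, f.coeff j = Polynomial.aeval (lc k (xb p n σ))⁻¹ (r j)
  red : ∀ j < n, Red p (r j)
  pos : 0 < n → r 0 ≠ 0

/-- an equivariant Artin-Schreier generator `Y / x^N` of the top step (level `n+1`) -/
structure ASD (p n α : ℕ) (ζ : k) (σ : En k) (s : k⟦X⟧) (N : ℕ) (Y W G : k⟦X⟧) : Prop where
  hN : p ^ (n + 1) ≤ N
  rho : (σ ^ p ^ n) Y = Y + xb p (n + 1) σ ^ N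
  sig : σ Y - Y = sub s W
  art : Y ^ p - (xb p (n + 1) σ ^ N) ^ (p - 1) * Y = sub s G
  eig : C (α : k) * tau ζ Y = C ((ζ ^ p ^ (n + 1)) ^ N) * Y

/-- pole orders of the term `c` coming from the lower levels; `x` has order `q` -/
structure PO (p q : ℕ) (x : k⟦X⟧) (κ u' : ℕ) (c : LaurentSeries k) : Prop where
  hκ : order (d⁄dX k x) + 1 = ((κ + q : ℕ) : ℕ∞)
  hc : vv k c ≤ exp ((q * (p * u') : ℕ) : ℤ)
  hc' : (u' = 0 ∧ c = 0 ∧ κ = 0) ∨
    (κ < q * u' ∧ vv k (th c) = exp (((q * (p * u') : ℕ) : ℤ) - κ))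

/-- the symbols of the filtration of `M = (dx/dX)` by the kernels of the powers of `σ - 1` -/
structure SL (p n : ℕ) (σ : En k) (c : ℕ → ℕ) : Prop where
  zero : c 0 = 0
  mono : ∀ i < p ^ n, c i ≤ c (i + 1)
  dvd : ∀ i < p ^ n, ∀ a, d⁄dX k (xb p n σ) ∣ a → (dl σ ^ (i + 1)) a = 0 →
    xb p n σ ^ c (i + 1) ∣ (dl σ ^ i) a
  ex : ∀ i < p ^ n, ∃ a, d⁄dX k (xb p n σ) ∣ a ∧ (dl σ ^ (i + 1)) a = 0 ∧
    (dl σ ^ i) a = xb p n σ ^ c (i + 1)

open Classical in
/-- indices of tangent vectors (`i ≥ 1`) and of framings (`i = 0`) -/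
noncomputable def TT (q : ℕ) (c : ℕ → ℕ) (ξ α : k) : Finset (ℕ × ℕ) :=
  (range q ×ˢ range (c q)).filter fun t => c t.1 ≤ t.2 ∧ t.2 < c (t.1 + 1) ∧ ξ ^ t.2 = ξ * α ^ t.1

open Classical in
/-- indices of obstructions -/
noncomputable def JJ (w cq : ℕ) (ξ α : k) : Finset ℕ := (Ico w cq).filter fun j => ξ ^ j = α * ξ

/-- `e` is an equivariant first order deformation of `σ X` with symbol `x^j` in degree `i + 1` -/
structure TV (p n α : ℕ) (ζ : k) (σ : En k) (i j : ℕ) (e : k⟦X⟧) : Prop where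
  ker : (dl σ ^ (i + 1)) (e * σ (d⁄dX k (xb p n σ))) = 0
  sym : (dl σ ^ i) (e * σ (d⁄dX k (xb p n σ))) = xb p n σ ^ j
  eqv : tau ζ (e * σ (d⁄dX k (xb p n σ))) =
    C (ζ ^ p ^ n) * trc σ α (e * σ (d⁄dX k (xb p n σ)))

variable {D : Type u} [CommRing D] [Algebra k D]

/-- the first order family with parameters `a t`, `t ∈ T` -/
noncomputable def sfam (σ : En k) (T : Finset (ℕ × ℕ)) (e : ℕ × ℕ → k⟦X⟧) (a : ℕ × ℕ → D) : D⟦X⟧ :=
  cst D (σ X) + ∑ t ∈ T.filter (fun t => t.1 ≠ 0), C (a t) * cst D (e t)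

/-- the framing with parameters `a (0, j)` of the substitution `X ↦ s` -/
noncomputable def xfam (q : ℕ) (T : Finset (ℕ × ℕ)) (a : ℕ × ℕ → D) (s : D⟦X⟧) : D⟦X⟧ :=
  nrm (sub s) q X + ∑ t ∈ T.filter (fun t => t.1 = 0), C (a t) * nrm (sub s) q X ^ t.2

/-- the family becomes trivial on a quotient domain of codimension at most `d` -/
def TrivCut (π : D →ₐ[k] k) (d : ℕ) (g : k⟦X⟧) (x : D⟦X⟧) : Prop :=
  ∃ (D' : Type u) (_ : CommRing D') (_ : IsDomain D') (_ : IsLocalRing D') (_ : CL D')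
    (_ : Algebra k D') (φ : D →ₐ[k] D') (π' : D' →ₐ[k] k), Surjective φ ∧ (∀ a, π' (φ a) = π a) ∧
    ringKrullDim D ≤ ringKrullDim D' + d ∧ Triv π' g (PowerSeries.map (φ : D →+* D') x)

/-- a family of level `n+1` whose level `n` part is constant in the coordinate `sD` -/
structure Lev (p n α : ℕ) (ζ : k) (σ σ' : En k) (s : k⟦X⟧) (π : D →ₐ[k] k) (σD : En D)
    (x sD : D⟦X⟧) : Prop where
  fam : Fam p (n + 1) α ζ σ π σD x
  red : PowerSeries.map (π : D →+* k) sD = s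
  hx : sub sD (cst D (xb p n σ')) = x
  inv : (σD ^ p ^ n) sD = sD
  comm : ∀ g, sub sD (cst D (σ' g)) = σD (sub sD (cst D g))
  tcomm : ∀ g, sub sD (cst D (tau (ζ ^ p) g)) = tau (algebraMap k D ζ) (sub sD (cst D g))

/-- the branch polynomial `Wf` of the top step -/
structure WF [IsLocalRing D] (p n l : ℕ) (ξ : D) (σD : En D) (x sD x' : D⟦X⟧) (Wf : D[X])
    (GF υ : D⟦X⟧) : Prop where
  dist : Wf.IsDistinguishedAt (maximalIdeal D)
  deg : Wf.natDegree = l + 1
  eqv : Wf.comp (Polynomial.C ξ * Polynomial.X) = Polynomial.C (ξ ^ (l + 1)) * Wf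
  dvd : ∀ j, 0 < j → j < p ^ (n + 1) → X - (σD ^ j) X ∣ Polynomial.aeval x Wf
  hG : sub sD GF = ∏ i ∈ range p, (((σD ^ p ^ n) ^ (i + 1)) X - ((σD ^ p ^ n) ^ i) X)
  unit : IsUnit υ
  hW : Polynomial.aeval x' Wf = υ * GF ^ p ^ n

/-- the normalised Artin-Schreier generator `Y / g(x)`, `g = (X Wf)^N`, of the family -/
structure NF (p n N : ℕ) (π : D →ₐ[k] k) (σD : En D) (x sD : D⟦X⟧) (G : k⟦X⟧) (Wf P₀ : D[X])
    (Y : D⟦X⟧) : Prop where
  rho : (σD ^ p ^ n) Y = Y + Polynomial.aeval x ((Polynomial.X * Wf) ^ N)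
  art : Y ^ p - Polynomial.aeval x ((Polynomial.X * Wf) ^ N) ^ (p - 1) * Y =
    Polynomial.aeval x Wf ^ (p * N) * sub sD (cst D G) + Polynomial.aeval x P₀
  deg : P₀.degree < (((p - 1) * ((Polynomial.X * Wf) ^ N).natDegree : ℕ) : WithBot ℕ)
  red : P₀.map (π : D →+* k) = 0

/-- the expansion of `P / g^p` at every point has reduced principal part given by `c` -/
def Pol (p : ℕ) (g P : k[X]) (c : k → ℕ → k) : Prop :=
  ∀ (xb : k⟦X⟧) (b : k) (d : ℕ), 0 < d → order (xb - C b) = d →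
    ∃ (r : k[X]) (h u : LaurentSeries k), (∀ j, r.coeff j = c b j) ∧ vv k h ≤ 1 ∧
      lc k (Polynomial.aeval xb P) / lc k (Polynomial.aeval xb g) ^ p =
        Polynomial.aeval (lc k (xb - C b))⁻¹ r + h + (u ^ p - u)

end Pool.Agent.MP_deef5c_ag.O

end

section

/-! Passing to the quotient by the subgroup of order p. -/

open PowerSeries IsLocalRing Finset Function
open scoped Polynomial

namespace Pool.Agent.MP_deef5c_ag.O

universe u

variable {k : Type u} [Field k] {p n m α : ℕ} [Fact p.Prime] [CharP k p] {ζ : k} {σ σ' : En k}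
  {s : k⟦X⟧}

theorem DescA_prod {M : Type*} [CommMonoid M] (f : ℕ → M) (a b : ℕ) :
    ∏ t ∈ range (a * b), f t = ∏ i ∈ range a, ∏ j ∈ range b, f (i + a * j) := by
  induction b with
  | zero => simp
  | succ b ih =>
    rw [Nat.mul_succ, prod_range_add, ih]
    simp only [prod_range_succ, prod_mul_distrib, add_comm (a * b)]

theorem DescA_mem {x : k⟦X⟧} {d : ℕ} (hd : 0 < d) (hx : order x = d) :
    constantCoeff x ∈ maximalIdeal k := by
  rw [Lau_cc hd hx]
  exact zero_mem _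

theorem DescA_pos : 0 < p := (Fact.out : p.Prime).pos

theorem DescA_pow (S : Sp p (n + 1) m α ζ σ) : (σ ^ p ^ n) ^ p = 1 := by
  rw [← pow_mul, ← pow_succ, S.pow]

theorem DescA_ord (S : Sp p (n + 1) m α ζ σ) : orderOf (σ ^ p ^ n) = p := by
  refine orderOf_eq_prime (DescA_pow S) fun h => ?_
  have h1 := orderOf_dvd_of_pow_eq_one h
  rw [S.ord, Nat.pow_dvd_pow_iff_le_right (Fact.out : p.Prime).one_lt] at h1
  omega

theorem DescA_order (S : Sp p (n + 1) m α ζ σ) (hs : s = nrm (σ ^ p ^ n) p X) : order s = p := by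
  rw [hs, order_nrm DescA_pos (DescA_pow S), order_X, mul_one]

theorem DescA_subX (S : Sp p (n + 1) m α ζ σ) (hs : s = nrm (σ ^ p ^ n) p X) : sub s X = s :=
  sub_X (DescA_mem DescA_pos (DescA_order S hs))

theorem DescA_inj (S : Sp p (n + 1) m α ζ σ) (hs : s = nrm (σ ^ p ^ n) p X) :
    Injective (sub s) :=
  Lau_inj DescA_pos ((congrArg order (DescA_subX S hs)).trans (DescA_order S hs))

theorem DescA_cancel (S : Sp p (n + 1) m α ζ σ) (hs : s = nrm (σ ^ p ^ n) p X) {φ ψ : En k}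
    (h : sub s * φ = sub s * ψ) : φ = ψ :=
  AlgHom.ext fun f => DescA_inj S hs (AlgHom.congr_fun h f)

theorem DescA_ext (S : Sp p (n + 1) m α ζ σ) (hs : s = nrm (σ ^ p ^ n) p X) :
    σ ^ p ^ n * sub s = sub s := by
  refine (en_ext ?_ ?_).symm
  · rw [AlgHom.mul_apply, DescA_subX S hs, hs, nrm_inv (DescA_pow S)]
  · rw [DescA_subX S hs]
    exact DescA_mem DescA_pos (DescA_order S hs)

theorem DescA_tau (S : Sp p (n + 1) m α ζ σ) (hs : s = nrm (σ ^ p ^ n) p X) :
    tau ζ * sub s = sub s * tau (ζ ^ p) := by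
  have h1 : Rel p α ζ (σ ^ p ^ n) := ⟨DescA_pow S, by
    have := rel_pow S.rel (p ^ n) 1
    rwa [pow_one, pow_one, mul_comm α, pow_mul] at this⟩
  have h2 := tau_nrm h1 (by simpa using S.cop 1)
  rw [← hs] at h2
  refine en_ext ?_ ?_
  · rw [AlgHom.mul_apply, AlgHom.mul_apply, DescA_subX S hs, h2, tau_X, map_mul, Base_en_C,
      DescA_subX S hs]
  · rw [AlgHom.mul_apply, DescA_subX S hs, h2, map_mul]
    exact Ideal.mul_mem_left _ _ (DescA_mem DescA_pos (DescA_order S hs))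

theorem DescA_fix (S : Sp p (n + 1) m α ζ σ) (hs : s = nrm (σ ^ p ^ n) p X) {f : k⟦X⟧}
    (hf : (σ ^ p ^ n) f = f) : ∃ g, sub s g = f :=
  qinv (RingHom.id k) surjective_id s p DescA_pos (by simpa using DescA_order S hs) _
    (by rw [hs, nrm_inv (DescA_pow S)]) (pow_X_inj DescA_pos (DescA_ord S)) f hf

theorem DescA_root (S : Sp p (n + 1) m α ζ σ) (hs : s = nrm (σ ^ p ^ n) p X) {ψ : En k}
    (h : ψ * sub s = sub s) : ∃ j, ψ X = ((σ ^ p ^ n) ^ j) X := by
  classical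
  obtain ⟨g, hg⟩ := qspan (RingHom.id k) surjective_id s p DescA_pos
    (by simpa using DescA_order S hs) (X ^ p)
  set Q : (k⟦X⟧)[X] := ∑ i ∈ range p, Polynomial.C (sub s (g i)) * Polynomial.X ^ i with hQ
  have hd : Q.degree < p := by
    refine (Polynomial.degree_sum_le _ _).trans_lt ((Finset.sup_lt_iff (WithBot.bot_lt_coe _)).2
      fun i hi => (Polynomial.degree_C_mul_X_pow_le _ _).trans_lt ?_)
    exact_mod_cast mem_range.1 hi
  have hm : (Polynomial.X ^ p - Q).Monic := Polynomial.monic_X_pow_sub hd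
  have hn : (Polynomial.X ^ p - Q).natDegree = p := by
    refine Polynomial.natDegree_eq_of_degree_eq_some ?_
    rw [Polynomial.degree_sub_eq_left_of_degree_lt (by rwa [Polynomial.degree_X_pow]),
      Polynomial.degree_X_pow]
  have hr : ∀ φ : En k, φ * sub s = sub s → φ X ∈ (Polynomial.X ^ p - Q).roots := by
    intro φ hφ
    rw [Polynomial.mem_roots hm.ne_zero, Polynomial.IsRoot.def, Polynomial.eval_sub,
      Polynomial.eval_pow, Polynomial.eval_X, sub_eq_zero, ← map_pow, hg, map_sum, hQ,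
      Polynomial.eval_finsetSum]
    refine sum_congr rfl fun i _ => ?_
    rw [map_mul, map_pow, ← AlgHom.mul_apply, hφ]
    simp
  have hj : ∀ j, (σ ^ p ^ n) ^ j * sub s = sub s := by
    intro j
    induction j with
    | zero => rw [pow_zero, one_mul]
    | succ j ih => rw [pow_succ, mul_assoc, DescA_ext S hs, ih]
  by_contra hc
  push Not at hc
  have h1 := Polynomial.card_le_degree_of_subset_roots (p := Polynomial.X ^ p - Q)
    (Z := insert (ψ X) ((range p).image fun j => ((σ ^ p ^ n) ^ j) X)) fun z hz => by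
      rcases mem_insert.1 (mem_def.2 hz) with rfl | hz
      · exact hr ψ h
      · obtain ⟨j, -, rfl⟩ := mem_image.1 hz
        exact hr _ (hj j)
  rw [hn, card_insert_of_notMem, card_image_of_injOn, card_range] at h1
  · omega
  · intro i hi j hj
    exact pow_X_inj DescA_pos (DescA_ord S) i (mem_range.1 hi) j (mem_range.1 hj)
  · intro hz
    obtain ⟨j, -, e⟩ := mem_image.1 hz
    exact hc j e.symm

/-- `ρ = σ^(p^n)` has order `p`; `σ s` is `ρ`-invariant, so `σ s = sub s g` (`qinv` with `π = id`); put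
`σ' = sub g`.  If `σ'^i = 1` then `σ^i` fixes the coefficients of `∏_j (T - ρ^j X)`, so `σ^i X = ρ^j X`
for some `j` and `p^n ∣ i`. -/
theorem exists_desc (S : Sp p (n + 1) m α ζ σ) :
    ∃ σ' s, Desc p n σ σ' s ∧ Sp p n m α (ζ ^ p) σ' := by
  obtain ⟨s, hs⟩ : ∃ s, s = nrm (σ ^ p ^ n) p X := ⟨_, rfl⟩
  have hq : 0 < p ^ (n + 1) := pow_pos DescA_pos _
  have ho := DescA_order S hs
  obtain ⟨g, hg⟩ := DescA_fix S hs (f := σ s) (by
    rw [← AlgHom.mul_apply, ← pow_succ, pow_succ', AlgHom.mul_apply, hs, nrm_inv (DescA_pow S)])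
  have h1 : order (σ s) = p := by
    rw [order_en σ 1 one_pos (order_one hq S.pow), ho, Nat.cast_one, one_mul]
  have h2 : constantCoeff g ∈ maximalIdeal k := by
    have h3 := order_en (sub s) p DescA_pos (by rw [DescA_subX S hs, ho]) g
    rw [hg, h1] at h3
    have h4 : order g ≠ 0 := fun h4 => by
      rw [h4, mul_zero] at h3
      exact DescA_pos.ne' (by exact_mod_cast h3)
    rw [order_ne_zero_iff_constCoeff_eq_zero.1 h4]
    exact zero_mem _
  have hc : sub s * sub g = σ * sub s := by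
    refine en_ext ?_ ?_
    · rw [AlgHom.mul_apply, AlgHom.mul_apply, sub_X h2, hg, DescA_subX S hs]
    · rw [AlgHom.mul_apply, sub_X h2, hg]
      exact DescA_mem DescA_pos h1
  have hi : ∀ i, sub s * sub g ^ i = σ ^ i * sub s := fun i => SemiconjBy.pow_right hc i
  refine ⟨sub g, s, ⟨hs, hc, ?_⟩, Nat.dvd_antisymm ?_ ?_, S.mpos, ?_, ?_, ?_⟩
  · rw [xb, xb, nrm, nrm, map_prod, pow_succ, DescA_prod]
    refine prod_congr rfl fun i _ => ?_
    rw [← AlgHom.mul_apply, hi, AlgHom.mul_apply, DescA_subX S hs, hs, nrm, map_prod]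
    refine prod_congr rfl fun j _ => ?_
    rw [← AlgHom.mul_apply, ← pow_mul, ← pow_add]
  · refine orderOf_dvd_of_pow_eq_one (DescA_cancel S hs ?_)
    rw [hi, DescA_ext S hs, mul_one]
  · have h3 := hi (orderOf (sub g))
    rw [pow_orderOf_eq_one, mul_one] at h3
    obtain ⟨j, hj⟩ := DescA_root S hs h3.symm
    have h4 : (σ ^ orderOf (sub g)) ^ p ^ (n + 1) = 1 := by
      rw [← pow_mul, mul_comm, pow_mul, S.pow, one_pow]
    have h5 := en_ext hj (DescA_mem one_pos (order_one hq h4))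
    have h6 : IsOfFinOrder σ := isOfFinOrder_iff_pow_eq_one.2 ⟨_, hq, S.pow⟩
    rw [← pow_mul, h6.pow_eq_pow_iff_modEq, S.ord] at h5
    exact ((h5.of_dvd (pow_dvd_pow p n.le_succ)).dvd_iff dvd_rfl).2 (dvd_mul_right _ _)
  · simpa using S.prim_pow 1
  · refine DescA_cancel S hs ?_
    rw [← mul_assoc, ← DescA_tau S hs, mul_assoc, hc, ← mul_assoc, S.rel, ← mul_assoc, hi,
      mul_assoc, mul_assoc, DescA_tau S hs]
  · rw [← pow_mul, ← pow_succ']
    exact S.hyp

theorem Desc.order_s (S : Sp p (n + 1) m α ζ σ) (h : Desc p n σ σ' s) : order s = p := by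
  exact DescA_order S h.hs

theorem Desc.tau_s (S : Sp p (n + 1) m α ζ σ) (h : Desc p n σ σ' s) :
    tau ζ * sub s = sub s * tau (ζ ^ p) := by
  exact DescA_tau S h.hs

theorem Desc.fix (S : Sp p (n + 1) m α ζ σ) (h : Desc p n σ σ' s) (f : k⟦X⟧) :
    (σ ^ p ^ n) f = f ↔ ∃ g, sub s g = f := by
  refine ⟨DescA_fix S h.hs, ?_⟩
  rintro ⟨g, rfl⟩
  rw [← AlgHom.mul_apply, DescA_ext S h.hs]

theorem Desc.lfix (S : Sp p (n + 1) m α ζ σ) (h : Desc p n σ σ' s) (z : LaurentSeries k) :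
    lext (σ ^ p ^ n) z = z ↔ ∃ y, lext (sub s) y = z := by
  have hi : Injective (σ ^ p ^ n : En k) := en_inj DescA_pos (DescA_pow S)
  refine ⟨linv s p DescA_pos (DescA_order S h.hs) _ hi (by rw [h.hs, nrm_inv (DescA_pow S)])
    (pow_X_inj DescA_pos (DescA_ord S)) z, ?_⟩
  rintro ⟨y, rfl⟩
  rw [← lext_mul hi (DescA_inj S h.hs), DescA_ext S h.hs]

end Pool.Agent.MP_deef5c_ag.O

end

section

/-! Base change and descent of families. -/

open PowerSeries IsLocalRing Finset Function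
open scoped Polynomial

namespace Pool.Agent.MP_deef5c_ag.O

universe u

variable {k : Type u} [Field k] {p n m α : ℕ} [Fact p.Prime] [CharP k p] {ζ : k} {σ σ' : En k}
  {s : k⟦X⟧}

variable {D : Type u} [CommRing D] [IsLocalRing D] [CL D] [Algebra k D]

omit [IsLocalRing D] [CL D] in
theorem Desc_surj (π : D →ₐ[k] k) : Surjective (π : D →+* k) :=
  fun y => ⟨algebraMap k D y, π.commutes y⟩

omit [IsLocalRing D] [CL D] in
theorem Desc_mm {D₀ : Type u} [CommRing D₀] [Algebra k D₀] {π₀ : D₀ →ₐ[k] k} (φ : D₀ →ₐ[k] D)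
    (π : D →ₐ[k] k) (hπ : ∀ a, π (φ a) = π₀ a) (f : D₀⟦X⟧) :
    PowerSeries.map (π : D →+* k) (PowerSeries.map (φ : D₀ →+* D) f) =
      PowerSeries.map (π₀ : D₀ →+* k) f := by
  ext a
  simp only [coeff_map, RingHom.coe_coe, hπ]

theorem Desc_fix {ψ : En D} {x : D⟦X⟧} (hm : constantCoeff x ∈ maximalIdeal D) (h : ψ x = x) :
    ψ * sub x = sub x :=
  (en_ext (by rw [AlgHom.mul_apply, sub_X hm, h]) (by rwa [sub_X hm])).symm

theorem Desc_tau (z : D) {f : D⟦X⟧} (hf : constantCoeff f ∈ maximalIdeal D) :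
    constantCoeff (tau z f) ∈ maximalIdeal D :=
  en_mem _ (by simp [tau_X]) hf

theorem Desc_one (S : Sp p n m α ζ σ) : order (σ X) = (1 : ℕ) :=
  order_one (pow_pos (Fact.out : p.Prime).pos n) S.pow

omit [IsLocalRing D] [CL D] in
theorem Desc_pow (S : Sp p n m α ζ σ) {π : D →ₐ[k] k} {σD : En D}
    (h : PowerSeries.map (π : D →+* k) (σD X) = σ X) (i : ℕ) (f : D⟦X⟧) :
    PowerSeries.map (π : D →+* k) ((σD ^ i) f) = (σ ^ i) (PowerSeries.map (π : D →+* k) f) :=
  map_en_pow _ σD σ h (by simp [Lau_cc one_pos (Desc_one S)]) i f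

omit [IsLocalRing D] [CL D] in
theorem Desc_inj (S : Sp p n m α ζ σ) {π : D →ₐ[k] k} {σD : En D}
    (h : PowerSeries.map (π : D →+* k) (σD X) = σ X) :
    ∀ i < p ^ n, ∀ j < p ^ n, (σD ^ i) X = (σD ^ j) X → i = j := fun i hi j hj e => by
  refine pow_X_inj (pow_pos (Fact.out : p.Prime).pos n) S.ord i hi j hj ?_
  have h1 := Desc_pow S h i X
  rwa [e, Desc_pow S h, map_X, eq_comm] at h1

/-- base change of a family, by `map_en` and `en_ext` -/
theorem Fam.map {D₀ : Type u} [CommRing D₀] [Algebra k D₀] (S : Sp p n m α ζ σ)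
    {π₀ : D₀ →ₐ[k] k} {σD : En D₀} {x : D₀⟦X⟧} (F : Fam p n α ζ σ π₀ σD x) (φ : D₀ →ₐ[k] D)
    (π : D →ₐ[k] k) (hπ : ∀ a, π (φ a) = π₀ a) :
    Fam p n α ζ σ π (sub (PowerSeries.map (φ : D₀ →+* D) (σD X)))
      (PowerSeries.map (φ : D₀ →+* D) x) := by
  have h1 := (Desc_mm φ π hπ (σD X)).trans F.red
  have hm := Qb_mem _ (Desc_surj π) _ 1 one_pos (h1 ▸ Desc_one S)
  have hX := sub_X hm
  have h2 := map_en_pow (φ : D₀ →+* D) σD _ hX.symm (by rwa [hX])
  have h3 := map_en (φ : D₀ →+* D) σD _ hX.symm (by rwa [hX])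
  have hz : ∀ c, (φ : D₀ →+* D) (algebraMap k D₀ c) = algebraMap k D c := φ.commutes
  refine ⟨by rw [hX, h1], (Desc_mm φ π hπ x).trans F.redx, ⟨?_, ?_⟩, ?_, ?_⟩
  · refine (en_ext ?_ (by simp)).symm
    have := h2 (p ^ n) X
    rwa [F.rel.1, AlgHom.one_apply, map_X] at this
  · refine en_ext ?_ (by rw [AlgHom.mul_apply, hX]; exact Desc_tau _ hm)
    have := h2 α (tau (algebraMap k D₀ ζ) X)
    rw [← AlgHom.mul_apply, ← F.rel.2, AlgHom.mul_apply, map_tau, map_tau, hz, map_X] at this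
    rw [AlgHom.mul_apply, AlgHom.mul_apply, hX, this]
  · rw [← h3, F.inv]
  · rw [← hz, ← map_tau, F.eig, map_mul, map_C, hz]

theorem Triv.map {D₀ : Type u} [CommRing D₀] [Algebra k D₀] {π₀ : D₀ →ₐ[k] k} {g : k⟦X⟧}
    {x : D₀⟦X⟧} (T : Triv π₀ g x) (φ : D₀ →ₐ[k] D) (π : D →ₐ[k] k) (hπ : ∀ a, π (φ a) = π₀ a) :
    Triv π g (PowerSeries.map (φ : D₀ →+* D) x) := by
  obtain ⟨Φ, h1, h2⟩ := T
  have h3 := (Desc_mm φ π hπ (Φ X)).trans h1
  have hm := Qb_mem _ (Desc_surj π) _ 1 one_pos (by rw [h3]; exact order_X)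
  have hX := sub_X hm
  refine ⟨sub (PowerSeries.map (φ : D₀ →+* D) (Φ X)), by rw [hX, h3], ?_⟩
  rw [← h2, map_en (φ : D₀ →+* D) Φ _ hX.symm (by rwa [hX]) (cst D₀ g)]
  refine congrArg (sub (PowerSeries.map (φ : D₀ →+* D) (Φ X))) (PowerSeries.ext fun a => ?_)
  simp only [coeff_map, RingHom.coe_coe, AlgHom.commutes]

/-- the invariants of a family: `qinv`, the `σD^i X` being distinct because their reductions are -/
theorem Fam.fix [IsDomain D] (S : Sp p n m α ζ σ) {π : D →ₐ[k] k} {σD : En D} {x : D⟦X⟧}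
    (F : Fam p n α ζ σ π σD x) (f : D⟦X⟧) : σD f = f ↔ ∃ g, sub x g = f := by
  have hq := pow_pos (Fact.out : p.Prime).pos n
  have ho := F.redx ▸ S.order_xb
  refine ⟨qinv _ (Desc_surj π) x _ hq ho σD F.inv (Desc_inj S F.red) f, ?_⟩
  rintro ⟨g, rfl⟩
  rw [← AlgHom.mul_apply, Desc_fix (Qb_mem _ (Desc_surj π) x _ hq ho) F.inv]

/-- the invariants of the subgroup of order `p` -/
theorem Fam.rho_fix [IsDomain D] (S : Sp p (n + 1) m α ζ σ) (h : Desc p n σ σ' s) {π : D →ₐ[k] k}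
    {σD : En D} {x : D⟦X⟧} (F : Fam p (n + 1) α ζ σ π σD x) {sD : D⟦X⟧}
    (hs : PowerSeries.map (π : D →+* k) sD = s) (hi : (σD ^ p ^ n) sD = sD) (f : D⟦X⟧) :
    (σD ^ p ^ n) f = f ↔ ∃ g, sub sD g = f := by
  have hp := (Fact.out : p.Prime).pos
  have ho := hs ▸ h.order_s S
  refine ⟨qinv _ (Desc_surj π) sD p hp ho _ hi (fun i h1 j h2 e => ?_) f, ?_⟩
  · rw [← pow_mul, ← pow_mul] at e
    exact Nat.eq_of_mul_eq_mul_left (pow_pos hp n) (Desc_inj S F.red _
      (by rw [pow_succ]; gcongr) _ (by rw [pow_succ]; gcongr) e)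
  · rintro ⟨g, rfl⟩
    rw [← AlgHom.mul_apply, Desc_fix (Qb_mem _ (Desc_surj π) sD _ hp ho) hi]

/-- as `exists_desc`, with `sD = nrm (σD^(p^n)) p X`, `Fam.rho_fix` and injectivity of `sub sD` -/
theorem Fam.desc [IsDomain D] (S : Sp p (n + 1) m α ζ σ) (h : Desc p n σ σ' s)
    (S' : Sp p n m α (ζ ^ p) σ') {π : D →ₐ[k] k} {σD : En D} {x : D⟦X⟧}
    (F : Fam p (n + 1) α ζ σ π σD x) :
    ∃ (σD' : En D) (x' sD : D⟦X⟧), Fam p n α (ζ ^ p) σ' π σD' x' ∧
      PowerSeries.map (π : D →+* k) sD = s ∧ (σD ^ p ^ n) sD = sD ∧ sub sD x' = x := by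
  have hp := (Fact.out : p.Prime).pos
  have hρ : (σD ^ p ^ n) ^ p = 1 := by rw [← pow_mul, ← pow_succ, F.rel.1]
  have hR : Rel p α (algebraMap k D ζ) (σD ^ p ^ n) := ⟨hρ, by
    have := rel_pow F.rel.2 (p ^ n) 1
    rwa [pow_one, pow_one, mul_comm α, pow_mul] at this⟩
  have ht := tau_nrm hR (by simpa using S.cop 1)
  have hi := nrm_inv hρ X
  have hs : PowerSeries.map (π : D →+* k) (nrm (σD ^ p ^ n) p X) = s := by
    rw [h.hs, nrm, nrm, map_prod]
    refine prod_congr rfl fun i _ => ?_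
    rw [← pow_mul, ← pow_mul, Desc_pow S F.red, map_X]
  generalize nrm (σD ^ p ^ n) p X = sD at ht hi hs
  have ho := hs ▸ h.order_s S
  have hm := Qb_mem _ (Desc_surj π) sD p hp ho
  have hms : constantCoeff s ∈ maximalIdeal k := by simp [Lau_cc hp (h.order_s S)]
  have inj := sub_injective _ (Desc_surj π) sD p hp ho
  have inj' := sub_injective (RingHom.id k) surjective_id s p hp (by simpa using h.order_s S)
  have hc : ∀ {a b : En D}, sub sD * a = sub sD * b → a = b := fun e =>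
    AlgHom.ext fun f => inj (by rw [← AlgHom.mul_apply, e, AlgHom.mul_apply])
  have hmap := map_en (π : D →+* k) (sub sD) (sub s) (by rw [sub_X hm, sub_X hms, hs])
    (by rwa [sub_X hms])
  obtain ⟨g, hg⟩ := (F.rho_fix S h hs hi (σD sD)).1 (by
    rw [← AlgHom.mul_apply, ← pow_succ, pow_succ', AlgHom.mul_apply, hi])
  obtain ⟨x', hx⟩ := (F.rho_fix S h hs hi x).1 (by
    rw [AlgHom.coe_pow]
    exact iterate_fixed F.inv _)
  have hred : PowerSeries.map (π : D →+* k) g = σ' X := inj' (by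
    have := Desc_pow S F.red 1 sD
    rw [pow_one, pow_one, hs] at this
    rw [← hmap, hg, this, ← AlgHom.mul_apply, h.comm, AlgHom.mul_apply, sub_X hms])
  have hmg := Qb_mem _ (Desc_surj π) g 1 one_pos (hred ▸ Desc_one S')
  have h1 : sub sD * sub g = σD * sub sD := en_ext
    (by rw [AlgHom.mul_apply, AlgHom.mul_apply, sub_X hmg, sub_X hm, hg])
    (by rw [AlgHom.mul_apply, sub_X hmg]; exact en_mem _ (by rwa [sub_X hm]) hmg)
  have h2 : ∀ i, sub sD * sub g ^ i = σD ^ i * sub sD := fun i => SemiconjBy.pow_right h1 i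
  have h3 : tau (algebraMap k D ζ) * sub sD = sub sD * tau (algebraMap k D (ζ ^ p)) := en_ext
    (by rw [AlgHom.mul_apply, AlgHom.mul_apply, tau_X, map_mul, Base_en_C, sub_X hm, ht,
      map_pow (algebraMap k D)])
    (by rw [AlgHom.mul_apply, sub_X hm]; exact Desc_tau _ hm)
  refine ⟨sub g, x', sD, ⟨by rw [sub_X hmg, hred], inj' ?_, ⟨hc ?_, hc ?_⟩, inj ?_, inj ?_⟩, hs,
    hi, hx⟩
  · rw [← hmap, hx, F.redx, h.hx]
  · rw [h2, Desc_fix hm hi, mul_one]
  · rw [← mul_assoc, ← h3, mul_assoc, h1, ← mul_assoc, F.rel.2, ← mul_assoc, h2, mul_assoc,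
      mul_assoc, h3]
  · rw [← AlgHom.mul_apply, h1, AlgHom.mul_apply, hx, F.inv]
  · rw [← AlgHom.mul_apply, ← h3, AlgHom.mul_apply, map_mul, Base_en_C, hx, F.eig, ← pow_mul,
      ← pow_succ']

end Pool.Agent.MP_deef5c_ag.O

end

section

/-! Extending Artin-Schreier-Witt data by one step. -/

open PowerSeries IsLocalRing Finset Function
open scoped Polynomial

namespace Pool.Agent.MP_deef5c_ag.O

universe u

open WittVector

namespace We.Aux

section

variable (p : ℕ) [Fact p.Prime] (L : Type u) [CommRing L]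

/-- the vectors whose first `i` coefficients vanish -/
noncomputable def I (i : ℕ) : Ideal (WittVector p L) := RingHom.ker (WittVector.truncate i)

variable {L}

/-- the vector with the single coefficient `c` in place `n` -/
def V (n : ℕ) (c : L) : WittVector p L := WittVector.mk p fun j => if j = n then c else 0

variable {p}

theorem mem_I {i : ℕ} {z : WittVector p L} : z ∈ I p L i ↔ ∀ j < i, z.coeff j = 0 :=
  mem_ker_truncate _ _

theorem sub_mem_I {i : ℕ} {a b : WittVector p L} :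
    a - b ∈ I p L i ↔ ∀ j < i, a.coeff j = b.coeff j := by
  rw [I, RingHom.mem_ker, map_sub, sub_eq_zero]
  constructor
  · intro h j hj
    have := congrArg (TruncatedWittVector.coeff ⟨j, hj⟩) h
    rwa [coeff_truncate, coeff_truncate] at this
  · intro h
    ext j
    rw [coeff_truncate, coeff_truncate, h j j.2]

theorem map_mem_I (φ : L →+* L) {i : ℕ} {z : WittVector p L} (hz : z ∈ I p L i) :
    WittVector.map φ z ∈ I p L i :=
  mem_I.2 fun j hj => by rw [map_coeff, mem_I.1 hz j hj, map_zero]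

theorem mem_succ {i : ℕ} {z : WittVector p L} :
    z ∈ I p L (i + 1) ↔ z ∈ I p L i ∧ z.coeff i = 0 := by
  rw [mem_I, mem_I]
  constructor
  · exact fun h => ⟨fun j hj => h j (by omega), h i (by omega)⟩
  · rintro ⟨h1, h2⟩ j hj
    rcases Nat.lt_succ_iff_lt_or_eq.1 hj with h | rfl
    · exact h1 j h
    · exact h2

theorem co_add {i : ℕ} (a : WittVector p L) {z : WittVector p L} (hz : z ∈ I p L i) :
    (a + z).coeff i = a.coeff i + z.coeff i := (wv_add p a z i (mem_I.1 hz)).2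

theorem co_low {i j : ℕ} (a : WittVector p L) {z : WittVector p L} (hz : z ∈ I p L i)
    (hj : j < i) : (a + z).coeff j = a.coeff j := (wv_add p a z i (mem_I.1 hz)).1 j hj

theorem co_sub {i : ℕ} (a : WittVector p L) {z : WittVector p L} (hz : z ∈ I p L i) :
    (a - z).coeff i = a.coeff i - z.coeff i := by
  have := co_add (a - z) hz
  rw [sub_add_cancel] at this
  rw [this, add_sub_cancel_right]

theorem co_sum {i : ℕ} (z : ℕ → WittVector p L) (hz : ∀ a, z a ∈ I p L i) (N : ℕ) :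
    (∑ a ∈ range N, z a).coeff i = ∑ a ∈ range N, (z a).coeff i := by
  induction N with
  | zero => simp
  | succ N ih => rw [sum_range_succ, sum_range_succ, co_add _ (hz N), ih]

omit [Fact p.Prime] in
theorem V_coeff (n : ℕ) (c : L) : (V p n c).coeff n = c := by
  simp [V]

theorem V_mem (n : ℕ) (c : L) : V p n c ∈ I p L n :=
  mem_I.2 fun j hj => by simp [V, hj.ne]

theorem map_V (φ : L →+* L) (n : ℕ) (c : L) : WittVector.map φ (V p n c) = V p n (φ c) := by
  ext j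
  rw [map_coeff]
  simp only [V, coeff_mk]
  split_ifs <;> simp

theorem init_sub (n : ℕ) (a : WittVector p L) : init n a - a ∈ I p L n :=
  sub_mem_I.2 fun j hj => by rw [Wv1_init, if_pos hj]

theorem map_comm {φ ψ φ' ψ' : L →+* L} (h : ∀ z, φ (ψ z) = ψ' (φ' z)) (a : WittVector p L) :
    WittVector.map φ (WittVector.map ψ a) = WittVector.map ψ' (WittVector.map φ' a) := by
  ext j
  simp only [map_coeff, h]

theorem map_succ (σ : L →+* L) (i : ℕ) (a : WittVector p L) :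
    WittVector.map (σ ^ (i + 1)) a = WittVector.map (σ ^ i) (WittVector.map σ a) := by
  ext j
  simp only [map_coeff, pow_succ]
  rfl

theorem map_zero' (σ : L →+* L) (a : WittVector p L) : WittVector.map (σ ^ 0) a = a := by
  ext j
  simp only [map_coeff, pow_zero]
  rfl

theorem tele (σ : L →+* L) (a : WittVector p L) (N : ℕ) :
    ∑ i ∈ range N, WittVector.map (σ ^ i) (WittVector.map σ a - a - 1) =
      WittVector.map (σ ^ N) a - a - (N : WittVector p L) := by
  induction N with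
  | zero => rw [map_zero', sum_range_zero, sub_self, Nat.cast_zero, sub_zero]
  | succ N ih =>
    rw [sum_range_succ, ih, map_succ, map_sub, map_sub, map_one]
    push_cast
    ring

variable [CharP L p]

theorem pow_mem (n : ℕ) : ((p ^ n : ℕ) : WittVector p L) ∈ I p L n :=
  mem_I.2 fun j hj => by
    rw [Nat.cast_pow]
    exact coeff_p_pow_eq_zero p L hj.ne

theorem pow_coeff (n : ℕ) : ((p ^ n : ℕ) : WittVector p L).coeff n = 1 := by
  rw [Nat.cast_pow]
  exact coeff_p_pow p L n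

theorem step1 {n : ℕ} (σ : L →+* L) (hσ : ∀ a, (σ ^ p ^ (n + 1)) a = a) (Θ : L)
    (hΘ : ∑ i ∈ range (p ^ (n + 1)), (σ ^ i) Θ = 1) (a : WittVector p L)
    (ha : WittVector.map σ a - a - 1 ∈ I p L n) :
    ∃ t, σ t - t = -(WittVector.map σ a - a - 1).coeff n := by
  have h1 := tele σ a (p ^ (n + 1))
  have h2 : WittVector.map (σ ^ p ^ (n + 1)) a = a := by
    ext j
    rw [map_coeff, hσ]
  rw [h2, sub_self, zero_sub] at h1
  have h3 := co_sum (fun i => WittVector.map (σ ^ i) (WittVector.map σ a - a - 1))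
    (fun i => map_mem_I _ ha) (p ^ (n + 1))
  rw [h1, (mem_succ.1 (neg_mem (pow_mem (n + 1)))).2] at h3
  obtain ⟨t, ht⟩ := h90 σ _ hσ Θ 1 (-(WittVector.map σ a - a - 1).coeff n) hΘ (by
    simp only [map_neg, sum_neg_distrib, neg_eq_zero]
    exact h3.symm)
  exact ⟨t, by rw [ht, one_mul]⟩

omit [CharP L p] in
theorem step2 {n : ℕ} (σ : L →+* L) (a : WittVector p L)
    (ha : WittVector.map σ a - a - 1 ∈ I p L n) {t : L}
    (ht : σ t - t = -(WittVector.map σ a - a - 1).coeff n) :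
    WittVector.map σ (a + V p n t) - (a + V p n t) - 1 ∈ I p L (n + 1) := by
  have e : WittVector.map σ (a + V p n t) - (a + V p n t) - 1 =
      WittVector.map σ a - a - 1 + V p n (σ t) - V p n t := by
    rw [map_add, map_V]
    ring
  rw [e, mem_succ]
  refine ⟨sub_mem (add_mem ha (V_mem _ _)) (V_mem _ _), ?_⟩
  rw [co_sub _ (V_mem _ _), co_add _ (V_mem _ _), V_coeff, V_coeff, add_sub_assoc, ht,
    add_neg_cancel]

theorem step3 {n : ℕ} (σ : L →+* L) (y : WittVector p L)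
    (hy : WittVector.map σ y - y - 1 ∈ I p L (n + 1)) :
    (σ ^ p ^ n) (y.coeff n) = y.coeff n + 1 := by
  have h1 : WittVector.map (σ ^ p ^ n) y - y - ((p ^ n : ℕ) : WittVector p L) ∈ I p L (n + 1) := by
    rw [← tele]
    exact Ideal.sum_mem _ fun i _ => map_mem_I _ hy
  rw [sub_sub, sub_mem_I] at h1
  have h2 := h1 n (Nat.lt_succ_self n)
  rwa [map_coeff, co_add _ (pow_mem n), pow_coeff] at h2

theorem main {n : ℕ} (σ σ' j ξ : L →+* L) (hσ : ∀ a, (σ ^ p ^ (n + 1)) a = a) (Θ : L)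
    (hΘ : ∑ i ∈ range (p ^ (n + 1)), (σ ^ i) Θ = 1) (hj : ∀ z, σ (j z) = j (σ' z))
    (hξ : ∀ z, σ (ξ z) = ξ z) (hfix : ∀ z, σ z = z → ∃ w, ξ w = z) {y' f' : WittVector p L}
    (hsig : ∀ i < n, σ' (y'.coeff i) = (y' + 1).coeff i)
    (hfrob : ∀ i < n, y'.coeff i ^ p = (y' + f').coeff i)
    (hf : ∀ i < n, σ' (f'.coeff i) = f'.coeff i) (P : L → Prop)
    (hP : ∀ z, ∃ ρ u, P ρ ∧ z = ρ + (u ^ p - u)) :
    ∃ (y f : WittVector p L) (ρ : L), P ρ ∧ (∀ i < n + 1, σ (y.coeff i) = (y + 1).coeff i) ∧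
      (∀ i < n + 1, y.coeff i ^ p = (y + f).coeff i) ∧ (∀ i < n, f.coeff i = j (f'.coeff i)) ∧
      f.coeff n = ξ ρ ∧ (σ ^ p ^ n) (y.coeff n) = y.coeff n + 1 ∧
      y.coeff n ^ p - y.coeff n = j ((init n y' + init n f').coeff n) + ξ ρ := by
  obtain ⟨F, hF⟩ : ∃ F : L →+* L, ∀ z, F z = z ^ p := ⟨_root_.frobenius L p, fun _ => rfl⟩
  have hFc : ∀ (φ : L →+* L) (a : WittVector p L),
      WittVector.map F (WittVector.map φ a) = WittVector.map φ (WittVector.map F a) :=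
    fun φ a => map_comm (fun z => by rw [hF, hF, map_pow]) a
  obtain ⟨a, ha⟩ : ∃ a, a = WittVector.map j (init n y') := ⟨_, rfl⟩
  obtain ⟨b, hb⟩ : ∃ b, b = WittVector.map j (init n f') := ⟨_, rfl⟩
  have hea : WittVector.map σ a - a - 1 ∈ I p L n := by
    have h1 : WittVector.map σ' y' - (y' + 1) ∈ I p L n := sub_mem_I.2 hsig
    have h2 := map_mem_I j (sub_mem (add_mem (map_mem_I σ' (init_sub n y')) h1) (init_sub n y'))
    rw [ha, map_comm hj]
    convert h2 using 1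
    simp only [map_sub, map_add, map_one]
    ring
  have hg : WittVector.map F a - a - b ∈ I p L n := by
    have h1 : WittVector.map F y' - (y' + f') ∈ I p L n :=
      sub_mem_I.2 fun i hi => by rw [map_coeff, hF, hfrob i hi]
    have h2 := map_mem_I j (sub_mem (sub_mem (add_mem (map_mem_I F (init_sub n y')) h1)
      (init_sub n y')) (init_sub n f'))
    rw [ha, hb, hFc]
    convert h2 using 1
    simp only [map_sub, map_add]
    ring
  have hσb : WittVector.map σ b = b := by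
    rw [hb, map_comm hj]
    congr 1
    ext i
    rw [map_coeff, Wv1_init]
    split_ifs with hi
    · exact hf i hi
    · exact map_zero _
  have hgt : ∀ t, WittVector.map F (a + V p n t) - (a + V p n t) - b ∈ I p L n ∧
      (WittVector.map F (a + V p n t) - (a + V p n t) - b).coeff n =
        (WittVector.map F a - a - b).coeff n + (t ^ p - t) := by
    intro t
    have e : WittVector.map F (a + V p n t) - (a + V p n t) - b =
        WittVector.map F a - a - b + V p n (t ^ p) - V p n t := by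
      rw [map_add, map_V, hF]
      ring
    rw [e]
    refine ⟨sub_mem (add_mem hg (V_mem _ _)) (V_mem _ _), ?_⟩
    rw [co_sub _ (V_mem _ _), co_add _ (V_mem _ _), V_coeff, V_coeff, add_sub_assoc]
  obtain ⟨t, ht⟩ := step1 σ hσ Θ hΘ a hea
  have hinv : σ ((WittVector.map F a - a - b).coeff n + (t ^ p - t)) =
      (WittVector.map F a - a - b).coeff n + (t ^ p - t) := by
    have h1 := step2 σ a hea ht
    rw [← (hgt t).2]
    generalize a + V p n t = y at h1
    have h2 : WittVector.map σ (WittVector.map F y - y - b) - (WittVector.map F y - y - b) ∈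
        I p L (n + 1) := by
      convert sub_mem (map_mem_I F h1) h1 using 1
      simp only [map_sub, map_one, hσb, hFc]
      ring
    exact sub_mem_I.1 h2 n (Nat.lt_succ_self n)
  obtain ⟨z, hz⟩ := hfix _ hinv
  obtain ⟨ρ, u, hρ, hu⟩ := hP z
  have ht1 : σ (t - ξ u) - (t - ξ u) = -(WittVector.map σ a - a - 1).coeff n := by
    rw [map_sub, hξ, ← ht]
    ring
  have hy1 := step2 σ a hea ht1
  have hc : (WittVector.map F a - a - b).coeff n + ((t - ξ u) ^ p - (t - ξ u)) = ξ ρ := by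
    rw [hu, map_add, map_sub, map_pow] at hz
    rw [sub_pow_char]
    linear_combination -hz
  have hy2 : WittVector.map F (a + V p n (t - ξ u)) - (a + V p n (t - ξ u) + (b + V p n (ξ ρ))) ∈
      I p L (n + 1) := by
    have e : ∀ y : WittVector p L, WittVector.map F y - (y + (b + V p n (ξ ρ))) =
        WittVector.map F y - y - b - V p n (ξ ρ) := fun y => by ring
    rw [e, mem_succ]
    refine ⟨sub_mem (hgt _).1 (V_mem _ _), ?_⟩
    rw [co_sub _ (V_mem _ _), (hgt _).2, hc, V_coeff, sub_self]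
  have hfr : ∀ i < n + 1, (a + V p n (t - ξ u)).coeff i ^ p =
      (a + V p n (t - ξ u) + (b + V p n (ξ ρ))).coeff i := fun i hi => by
    rw [← sub_mem_I.1 hy2 i hi, map_coeff, hF]
  have hinit : ∀ (c : WittVector p L) (w : L),
      init n (WittVector.map j (init n c) + V p n w) = WittVector.map j (init n c) := by
    intro c w
    ext i
    rw [Wv1_init]
    split_ifs with hi
    · exact co_low _ (V_mem _ _) hi
    · rw [map_coeff, Wv1_init, if_neg hi, map_zero]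
  have hfn : (b + V p n (ξ ρ)).coeff n = ξ ρ := by
    rw [co_add _ (V_mem _ _), V_coeff, hb, map_coeff, Wv1_init, if_neg (lt_irrefl n), map_zero,
      zero_add]
  refine ⟨a + V p n (t - ξ u), b + V p n (ξ ρ), ρ, hρ, fun i hi => ?_, hfr, fun i hi => ?_, hfn,
    step3 σ _ hy1, ?_⟩
  · rw [sub_sub] at hy1
    exact sub_mem_I.1 hy1 i hi
  · rw [co_low _ (V_mem _ _) hi, hb, map_coeff, Wv1_init, if_pos hi]
  · rw [hfr n (Nat.lt_succ_self n), wv_add_init, hfn, ha, hb, hinit, hinit, ← map_add, map_coeff]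
    ring

end

theorem lext_aeval {k : Type u} [Field k] {φ : En k} (hφ : Injective φ) (x : k⟦X⟧) (r : k[X]) :
    lext φ (Polynomial.aeval (lc k x)⁻¹ r) = Polynomial.aeval (lc k (φ x))⁻¹ r := by
  let ψ : LaurentSeries k →ₐ[k] LaurentSeries k :=
    { lext φ with commutes' := lext_algebraMap hφ }
  have e : ψ (lc k x)⁻¹ = (lc k (φ x))⁻¹ := by
    show lext φ _ = _
    rw [map_inv₀, lext_lc hφ]
  rw [← e, Polynomial.aeval_algHom_apply]
  rfl

end We.Aux

open We.Aux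

variable {k : Type u} [Field k] {p n m α : ℕ} [Fact p.Prime] [CharP k p] {ζ : k} {σ σ' : En k}
  {s : k⟦X⟧}

/-- Let `ĵ = lext (sub s)`, `σ̂ = lext σ`, `a = map ĵ (init n y')`.  The coefficients `< n` of
`e = map σ̂ a - a - 1` vanish (`WD.sig`, `Desc.comm`, `wv_congr`), and
`∑_{i<q} map σ̂^i e = - q` (`q = p^(n+1)`) has zero `n`-th coefficient; by `wv_add` the trace of
`e.coeff n` is zero, so `h90` (with `exists_trace` for `t = lc X`, `Δ = 1`) gives `y₀` with
`σ̂ y₀ - y₀ = - e.coeff n`.  Let `y = a + V^n [y₀]`, so `map σ̂ y ≡ y + 1` in the coefficients `≤ n`.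
`g = F y - y - map ĵ (init n f')` has vanishing coefficients `< n` and is `σ̂`-invariant in the
coefficients `≤ n`, so `g.coeff n = lext (sub x) z` (`linv`); write `z = r(1/X) + u^p - u` (`asr`) and
replace `y₀` by `y₀ - lext (sub x) u`.  Iterating `p^n` times, `map σ̂^(p^n) y ≡ y + p^n` and
`p^n = V^n 1`.  If `n = 0` and `r 0 = 0` then `y₀^p = y₀` lies in the prime field, absurd. -/
theorem we [IsAlgClosed k] (S : Sp p (n + 1) m α ζ σ) (h : Desc p n σ σ' s)
    (S' : Sp p n m α (ζ ^ p) σ') {y' f' : WittVector p (LaurentSeries k)} {r' : ℕ → k[X]}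
    (W : WD p n σ' y' f' r') :
    ∃ y f r, WD p (n + 1) σ y f r ∧ (∀ j < n, r j = r' j) ∧
      lext (σ ^ p ^ n) (y.coeff n) = y.coeff n + 1 ∧
      y.coeff n ^ p - y.coeff n = lext (sub s) ((init n y' + init n f').coeff n +
        Polynomial.aeval (lc k (xb p n σ'))⁻¹ (r n)) := by
  have hp : p.Prime := Fact.out
  have : CharP (LaurentSeries k) p :=
    charP_of_injective_algebraMap (algebraMap k (LaurentSeries k)).injective p
  have hq : 0 < p ^ (n + 1) := pow_pos hp.pos _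
  have hq' : 0 < p ^ n := pow_pos hp.pos _
  have hσi : Injective σ := en_inj hq S.pow
  have hσi' : Injective σ' := en_inj hq' S'.pow
  have hs0 : sub s X = s := sub_X (by simp [Lau_cc hp.pos (h.order_s S)])
  have hsi : Injective (sub s) := Lau_inj hp.pos (by rw [hs0]; exact h.order_s S)
  have hx0 : constantCoeff (xb p (n + 1) σ) ∈ maximalIdeal k := by simp [Lau_cc hq S.order_xb]
  have hxX : sub (xb p (n + 1) σ) X = xb p (n + 1) σ := sub_X hx0
  have hxi : Injective (sub (xb p (n + 1) σ)) := Lau_inj hq (by rw [hxX]; exact S.order_xb)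
  have hσx : σ (xb p (n + 1) σ) = xb p (n + 1) σ := nrm_inv S.pow X
  have hσx' : σ' (xb p n σ') = xb p n σ' := nrm_inv S'.pow X
  have hinj := pow_X_inj hq S.ord
  have hσ : ∀ a, (lext σ ^ p ^ (n + 1)) a = a := fun a => by
    rw [← lext_pow hσi, S.pow, lext_one]
  have hpi : ∀ i : ℕ, Injective (σ ^ i : En k) := fun i =>
    en_inj hq (by rw [← pow_mul, mul_comm, pow_mul, S.pow, one_pow])
  have hinj' : ∀ i < p ^ (n + 1), ∀ j < p ^ (n + 1),
      (lext σ ^ i) (lc k X) = (lext σ ^ j) (lc k X) → i = j := by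
    intro i hi j hj e
    rw [← lext_pow hσi, ← lext_pow hσi, lext_lc (hpi i), lext_lc (hpi j)] at e
    exact hinj i hi j hj (HahnSeries.ofPowerSeries_injective e)
  obtain ⟨Θ, hΘ⟩ := exists_trace (lext σ) _ hq hσ (lc k X) hinj' 1 (map_one _) (by
    refine (IsUnit.mk0 _ (prod_ne_zero_iff.2 fun j hj e => ?_)).dvd
    rw [mem_Ico] at hj
    have := hinj' 0 hq j hj.2 (sub_eq_zero.1 e)
    omega)
  have hj : ∀ z, lext σ (lext (sub s) z) = lext (sub s) (lext σ' z) := fun z => by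
    rw [← lext_mul hσi hsi, ← lext_mul hsi hσi', h.comm]
  have hξ : ∀ z, lext σ (lext (sub (xb p (n + 1) σ)) z) = lext (sub (xb p (n + 1) σ)) z := by
    intro z
    have e : σ * sub (xb p (n + 1) σ) = sub (xb p (n + 1) σ) := by
      have e1 : (σ * sub (xb p (n + 1) σ)) X = xb p (n + 1) σ := by
        rw [AlgHom.mul_apply, hxX, hσx]
      exact en_ext (by rw [e1, hxX]) (by rw [e1]; exact hx0)
    rw [← lext_mul hσi hxi, e]
  obtain ⟨y, f, ρ, ⟨r, hr, rfl⟩, h1, h2, h3, h4, h5, h6⟩ := main (lext σ) (lext σ') (lext (sub s))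
    (lext (sub (xb p (n + 1) σ))) hσ Θ hΘ hj hξ
    (linv _ _ hq S.order_xb σ hσi hσx hinj) W.sig W.frob
    (fun i hi => by rw [W.hf i hi, lext_aeval hσi', hσx'])
    (fun ρ => ∃ r : k[X], Red p r ∧ ρ = Polynomial.aeval (lc k X)⁻¹ r)
    (fun z => by
      obtain ⟨r, u, hr, e⟩ := asr p z
      exact ⟨_, u, ⟨r, hr, rfl⟩, e⟩)
  rw [lext_aeval hxi, hxX] at h4 h6
  have hup : ∀ i < n, update r' n r i = r' i := fun i hi => update_of_ne hi.ne _ _
  refine ⟨y, f, update r' n r, ⟨h1, h2, fun i hi => ?_, fun i hi => ?_, fun _ h0 => ?_⟩, hup, ?_, ?_⟩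
  · rcases Nat.lt_succ_iff_lt_or_eq.1 hi with hi | rfl
    · rw [h3 i hi, W.hf i hi, lext_aeval hsi, h.hx, hup i hi]
    · rw [h4, update_self]
  · rcases Nat.lt_succ_iff_lt_or_eq.1 hi with hi | rfl
    · rw [hup i hi]
      exact W.red i hi
    · rw [update_self]
      exact hr
  · rcases Nat.eq_zero_or_pos n with rfl | hn
    · rw [update_self] at h0
      have e1 := h1 0 Nat.one_pos
      have e2 := h2 0 Nat.one_pos
      rw [add_coeff_zero, one_coeff_zero] at e1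
      rw [add_coeff_zero, h4, h0, map_zero, add_zero,
        ← Subfield.mem_bot_iff_pow_eq_self, mem_bot_iff_intCast p] at e2
      obtain ⟨c, hc⟩ := e2
      rw [← hc, map_intCast] at e1
      exact one_ne_zero (left_eq_add.1 e1)
    · rw [hup 0 hn] at h0
      exact W.pos hn h0
  · rw [lext_pow hσi]
    exact h5
  · rw [update_self, map_add, lext_aeval hsi, h.hx]
    exact h6

end Pool.Agent.MP_deef5c_ag.O

end

section

/-! The jumps of a cyclic tower. -/

open PowerSeries IsLocalRing Finset Function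
open scoped Polynomial

namespace Pool.Agent.MP_deef5c_ag.O

universe u

open WittVector WithZero

variable {k : Type u} [Field k] {p n m α : ℕ} [Fact p.Prime] [CharP k p] {ζ : k} {σ σ' : En k}
  {s : k⟦X⟧}

theorem WsUU (p : ℕ) {d d' : ℕ → ℕ} (i : ℕ) (h : ∀ j < i, d j = d' j) : UU p d i = UU p d' i := by
  induction i with
  | zero => rfl
  | succ i ih =>
    show max (p * UU p d i) (d i) = max (p * UU p d' i) (d' i)
    rw [ih fun j hj => h j (by omega), h i (by omega)]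

omit [Fact p.Prime] [CharP k p] in
theorem WsOrd (f : k⟦X⟧) (a : ℕ) :
    vv k (th (lc k f)) = exp (-(a : ℤ)) ↔ order (d⁄dX k f) + 1 = (a : ℕ∞) := by
  rw [th_lc, vv_lc_eq, order_mul, order_X, add_comm]

omit [Fact p.Prime] [CharP k p] in
theorem WsExp (a : ℤ) (d : ℕ) :
    (exp a : WithZero (Multiplicative ℤ)) ^ d = exp ((d : ℤ) * a) := by
  rw [← exp_nsmul, nsmul_eq_mul]

/-- the order of the derivative of the coordinate of the quotient -/
theorem WsKap (S' : Sp p n m α ζ σ') (u' : ℕ) (hw : 0 < n → IsW p n σ' (u' + 1)) :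
    ∃ κ : ℕ, order (d⁄dX k (xb p n σ')) + 1 = ((κ + p ^ n : ℕ) : ℕ∞) ∧ (n = 0 → κ = 0) ∧
      (0 < n → κ < p ^ n * u') := by
  rcases Nat.eq_zero_or_pos n with rfl | hn
  · refine ⟨0, ?_, fun _ => rfl, fun h => absurd h (lt_irrefl 0)⟩
    simp [xb, nrm, derivative_X]
  · obtain ⟨β, l, hl, hβ, -, hq, -⟩ := S'.isW_spec hn (hw hn)
    have h1 : vv k (th (lc k (xb p n σ'))) = exp (-((β + 1 : ℕ) : ℤ)) :=
      (WsOrd _ _).2 (by rw [hβ]; push_cast; rfl)
    have h2 := vv_th_le (lc k (xb p n σ'))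
    rw [h1, vv_lc_eq.2 S'.order_xb, exp_le_exp] at h2
    have h3 : p ^ n ≤ β + 1 := by omega
    refine ⟨β + 1 - p ^ n, ?_, fun h => by omega, fun _ => ?_⟩
    · rw [Nat.sub_add_cancel h3, hβ]; push_cast; rfl
    · rw [mul_add, mul_one] at hq
      omega

/-- the pole orders of the term coming from the lower levels -/
theorem WsPO (S' : Sp p n m α ζ σ') {y' f' : WittVector p (LaurentSeries k)} {r' : ℕ → k[X]}
    (W : WD p n σ' y' f' r')
    (hw : 0 < n → IsW p n σ' (UU p (fun j => (r' j).natDegree) n + 1)) :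
    (0 < n → 0 < UU p (fun j => (r' j).natDegree) n) ∧
    ∃ κ : ℕ, PO p (p ^ n) (xb p n σ') κ (UU p (fun j => (r' j).natDegree) n)
      ((init n y' + init n f').coeff n) := by
  have hp : p.Prime := Fact.out
  have : CharP (LaurentSeries k) p :=
    charP_of_injective_algebraMap (algebraMap k (LaurentSeries k)).injective p
  obtain ⟨κ, hκ, hκ0, hκ1⟩ := WsKap S' _ hw
  have hq : 0 < p ^ n := pow_pos hp.pos n
  have hx := S'.order_xb
  set x' := xb p n σ' with hx'
  have v1 : vv k (lc k x') = exp (-((p ^ n : ℕ) : ℤ)) := vv_lc_eq.2 hx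
  have v2 : vv k (th (lc k x')) = exp (-((κ + p ^ n : ℕ) : ℤ)) := (WsOrd _ _).2 hκ
  have v3 : vv k (lc k x' / th (lc k x')) = exp (κ : ℤ) := by
    rw [map_div₀, v1, v2, ← exp_sub]
    congr 1
    push_cast
    ring
  have v4 : vv k (lc k x')⁻¹ = exp ((p ^ n : ℕ) : ℤ) := by
    rw [map_inv₀, v1, ← exp_neg, neg_neg]
  let δ : LaurentSeries k →+ LaurentSeries k :=
    AddMonoidHom.mk' (fun z => th z * (lc k x' / th (lc k x'))) fun a b => by
      rw [th_add, add_mul]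
  have hδ : ∀ z, δ z = th z * (lc k x' / th (lc k x')) := fun _ => rfl
  have h := wa p (vv k) δ (fun f g => by rw [hδ, hδ, hδ, th_mul]; ring) (lc k x')⁻¹
    (by rw [v4]; exact RedP_one_lt (by exact_mod_cast hq)) n y' f' (fun j => (r' j).natDegree)
    (fun hn => Nat.pos_of_ne_zero fun h0 =>
      (vv_red p x' (p ^ n) κ hq hx hκ _ (W.red 0 hn) (W.pos hn)).1 (by rw [h0]; exact dvd_zero p))
    W.frob (fun j hj => by
      by_cases h0 : r' j = 0
      · left
        rw [W.hf j hj, h0]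
        simp
      · right
        obtain ⟨a1, a2, a3⟩ := vv_red p x' (p ^ n) κ hq hx hκ _ (W.red j hj) h0
        refine ⟨a1, ?_, ?_⟩
        · rw [W.hf j hj, a2, v4, WsExp]
          congr 1
          push_cast
          ring
        · rw [W.hf j hj, hδ, map_mul, a3, v3, v4, WsExp, ← exp_add]
          congr 1
          push_cast
          ring)
  rw [v4, WsExp] at h
  refine ⟨fun hn => (h.2 hn).1, κ, hκ, h.1.trans_eq ?_, ?_⟩
  · congr 1
    push_cast
    ring
  · rcases Nat.eq_zero_or_pos n with hn | hn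
    · left
      refine ⟨by rw [hn]; rfl, ?_, hκ0 hn⟩
      subst hn
      rw [WittVector.add_coeff_zero, Wa_init_ge y' le_rfl, Wa_init_ge f' le_rfl, add_zero]
    · right
      refine ⟨hκ1 hn, ?_⟩
      have h2 := (h.2 hn).2
      rw [hδ, map_mul, v3] at h2
      rw [eq_div_of_mul_eq exp_ne_zero h2, ← exp_sub]
      congr 1
      push_cast
      ring

omit [CharP k p] in
/-- the valuation of a root of an Artin-Schreier equation -/
theorem WsAS (y : LaurentSeries k) (a : ℕ) (ha : 0 < a)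
    (h : vv k (y ^ p - y) = exp ((p : ℤ) * a)) : vv k y = exp (a : ℤ) := by
  have hp : p.Prime := Fact.out
  have hp0 : (0 : ℤ) < p := by exact_mod_cast hp.pos
  have ha0 : (0 : ℤ) < a := by exact_mod_cast ha
  have h1 : 1 < vv k y := by
    by_contra h1
    push Not at h1
    have h2 : vv k (y ^ p - y) ≤ 1 :=
      (vv k).map_sub_le (by rw [map_pow]; exact pow_le_one₀ zero_le h1) h1
    rw [h] at h2
    exact absurd (RedP_one_lt (mul_pos hp0 ha0)) (not_lt.2 h2)
  have hlt : vv k y < vv k (y ^ p) := by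
    rw [map_pow]
    exact lt_self_pow₀ h1 hp.one_lt
  rw [(vv k).map_sub_eq_of_lt_left hlt, map_pow] at h
  have h0 : vv k y ≠ 0 := (zero_lt_one.trans h1).ne'
  rw [← exp_log h0, WsExp] at h
  rw [← exp_log h0, mul_left_cancel₀ hp0.ne' (exp_injective h)]

/-- the jump and the different of the top step -/
theorem WsTop (S : Sp p (n + 1) m α ζ σ) (h : Desc p n σ σ' s) (y g : LaurentSeries k) (lam : ℕ)
    (hl : ¬ p ∣ lam) (hg : vv k g = exp (lam : ℤ)) (hy : lext (σ ^ p ^ n) y = y + 1)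
    (hyg : y ^ p - y = lext (sub s) g) :
    order ((σ ^ p ^ n) X - X) = ((lam + 1 : ℕ) : ℕ∞) ∧
      vv k (th (lc k s)) = exp ((lam : ℤ) - p - p * lam) := by
  have hp : p.Prime := Fact.out
  have hs := h.order_s S
  have hsX : sub s X = s := sub_X (by rw [Lau_cc hp.pos hs]; exact zero_mem _)
  have hs' : order (sub s X) = p := by rw [hsX, hs]
  have hl0 : 0 < lam := Nat.pos_of_ne_zero fun h0 => hl (by rw [h0]; exact dvd_zero p)
  have hlk : (((lam : ℕ) : ℤ) : k) ≠ 0 := by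
    rw [Int.cast_natCast]
    exact fun h0 => hl ((CharP.cast_eq_zero_iff k p lam).1 h0)
  have vy : vv k y = exp (lam : ℤ) :=
    WsAS (p := p) y lam hl0 (by rw [hyg, vv_lext hp.pos hs', hg, WsExp])
  constructor
  · have h1 : (σ ^ p ^ n) ^ p ^ 1 = 1 := by rw [← pow_mul, ← pow_add, S.pow]
    have h2 : σ ^ p ^ n ≠ 1 := fun h2 => by
      have h3 := Nat.le_of_dvd (pow_pos hp.pos n) (orderOf_dvd_of_pow_eq_one h2)
      rw [S.ord] at h3
      exact absurd (Nat.pow_lt_pow_right hp.one_lt (Nat.lt_succ_self n)) (not_lt.2 h3)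
    obtain ⟨l, hl1, hl2⟩ := exists_jump p 1 h1 h2
    have h3 := (vv_sub _ l hl1 hl2 y lam vy).2 hlk
    rw [hy, add_sub_cancel_left, map_one, ← exp_zero] at h3
    have h4 := exp_injective h3
    have h5 : lam = l := by omega
    rw [h5, hl2]
  · have h1 := congrArg (vv k) (th_lext hp.pos hs' g)
    rw [← hyg, RedP_th_sub, th_pow_char p, zero_sub, map_mul, map_mul, Valuation.map_neg,
      vv_th_eq vy hlk, vv_lext hp.pos hs', vv_th_eq hg hlk, hsX, vv_lc_eq.2 hs, WsExp,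
      mul_comm (exp ((p : ℤ) * lam))] at h1
    rw [eq_div_of_mul_eq exp_ne_zero h1.symm, ← exp_add, ← exp_sub]
    congr 1

/-- Take `y, f, r` from `we`, `c = (init n y' + init n f').coeff n`, `x' = xb p n σ'` of order `q' = p^n`,
`order (d x') + 1 = κ + q'` (for `n = 0`, `x' = X`, `κ = 0`; else `isW_spec` gives `q' U' = κ + l'`).
Apply `wa` in `k((X))` with `δ z = th z * (lc x' / th (lc x'))`, `x = (lc x')⁻¹`, `d j = deg (r' j)` and
`vv_red`.  `loc0` with `h = 0` gives `lam + κ = q' U`, `U = UU (n+1)`, and `u`; `y₁ = y_n - ĵ u` has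
`ρ y₁ = y₁ + 1` and `vv y₁ = exp lam` (`vv_lext`), so `lam = l` by `vv_sub`.  `th_lext` applied to
`th y₁ = - th (ĵ f_red)` gives `order (d s) = (p-1)(l+1)`, and `d x = sub s (d x') * d s`. -/
theorem ws [IsAlgClosed k] (S : Sp p (n + 1) m α ζ σ) (h : Desc p n σ σ' s)
    (S' : Sp p n m α (ζ ^ p) σ') {y' f' : WittVector p (LaurentSeries k)} {r' : ℕ → k[X]}
    (W : WD p n σ' y' f' r')
    (hw : 0 < n → IsW p n σ' (UU p (fun j => (r' j).natDegree) n + 1)) :
    ∃ y f r, WD p (n + 1) σ y f r ∧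
      IsW p (n + 1) σ (UU p (fun j => (r j).natDegree) (n + 1) + 1) ∧
      ∃ (c : LaurentSeries k) (κ l : ℕ), lext (σ ^ p ^ n) (y.coeff n) = y.coeff n + 1 ∧
        y.coeff n ^ p - y.coeff n =
          lext (sub s) (c + Polynomial.aeval (lc k (xb p n σ'))⁻¹ (r n)) ∧
        PO p (p ^ n) (xb p n σ') κ (UU p (fun j => (r' j).natDegree) n) c ∧
        order ((σ ^ p ^ n) X - X) = ((l + 1 : ℕ) : ℕ∞) ∧
        p ^ n * (UU p (fun j => (r j).natDegree) (n + 1) + 1) = κ + p ^ n + l := by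
  have hp : p.Prime := Fact.out
  have : CharP (LaurentSeries k) p :=
    charP_of_injective_algebraMap (algebraMap k (LaurentSeries k)).injective p
  obtain ⟨y, f, r, Wn, hr, hρ, hy⟩ := we S h S' W
  obtain ⟨hu, κ, P⟩ := WsPO S' W hw
  have hq : 0 < p ^ n := pow_pos hp.pos n
  have hx := S'.order_xb
  have hUU : UU p (fun j => (r j).natDegree) (n + 1) =
      max (p * UU p (fun j => (r' j).natDegree) n) (r n).natDegree := by
    show max (p * UU p (fun j => (r j).natDegree) n) (r n).natDegree = _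
    rw [WsUU p (d' := fun j => (r' j).natDegree) n fun j hj => by rw [hr j hj]]
  have hU : 0 < max (p * UU p (fun j => (r' j).natDegree) n) (r n).natDegree := by
    rcases Nat.eq_zero_or_pos n with hn | hn
    · refine lt_max_of_lt_right (Nat.pos_of_ne_zero fun h0 => ?_)
      refine (vv_red p _ (p ^ n) κ hq hx P.hκ (r n) (Wn.red n (Nat.lt_succ_self n)) ?_).1
        (by rw [h0]; exact dvd_zero p)
      rw [hn]
      exact Wn.pos (Nat.succ_pos _)
    · exact lt_max_of_lt_left (Nat.mul_pos hp.pos (hu hn))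
  obtain ⟨lam, u, e1, e2, e3⟩ := loc0 p _ (p ^ n) κ _ hq hx P.hκ _ 0 P.hc P.hc' (by simp) (r n)
    (Wn.red n (Nat.lt_succ_self n)) hU
  rw [← hUU] at e1
  obtain ⟨t1, t2⟩ := WsTop S h (y.coeff n - lext (sub s) u) _ lam e2 e3
    (by rw [map_sub, hρ, (h.lfix S _).2 ⟨u, rfl⟩]; ring)
    (by rw [sub_pow_char, add_zero, map_sub, ← hy, map_sub, map_pow]; ring)
  refine ⟨y, f, r, Wn, Or.inr ⟨Nat.succ_pos n, ?_⟩, _, κ, lam, hρ, hy, P, t1, ?_⟩
  · have hs := h.order_s S
    have hsX : sub s X = s := sub_X (by rw [Lau_cc hp.pos hs]; exact zero_mem _)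
    have hs' : order (sub s X) = p := by rw [hsX, hs]
    have h1 := congrArg (vv k) (th_lext hp.pos hs' (lc k (xb p n σ')))
    rw [lext_lc (Lau_inj hp.pos hs'), h.hx, map_mul, map_mul, vv_lext hp.pos hs',
      (WsOrd _ _).2 P.hκ, hsX, t2, vv_lc_eq.2 hs, WsExp] at h1
    set U := UU p (fun j => (r j).natDegree) (n + 1) with hUdef
    have hle : lam ≤ p ^ (n + 1) * (U + 1) := by
      have a1 : lam ≤ p ^ n * U := by omega
      have a2 : p ^ n * U ≤ p ^ (n + 1) * (U + 1) :=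
        Nat.mul_le_mul (Nat.pow_le_pow_right hp.pos (Nat.le_succ n)) (Nat.le_succ U)
      omega
    have h2 : vv k (th (lc k (xb p (n + 1) σ))) =
        exp (-((p ^ (n + 1) * (U + 1) - lam : ℕ) : ℤ)) := by
      rw [eq_div_of_mul_eq exp_ne_zero h1, ← exp_add, ← exp_sub, Nat.cast_sub hle]
      congr 1
      have a1 : ((lam + κ : ℕ) : ℤ) = ((p ^ n * U : ℕ) : ℤ) := by rw [e1]
      push_cast at a1 ⊢
      linear_combination (-(p : ℤ)) * a1
    have h3 := (WsOrd _ _).1 h2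
    rw [Nat.add_sub_cancel, t1, ← Nat.sub_add_cancel hle, Nat.cast_add, ← h3, Nat.cast_add,
      Nat.cast_one, add_assoc, add_comm (1 : ℕ∞)]
  · rw [mul_add, mul_one, ← e1]
    ring

end Pool.Agent.MP_deef5c_ag.O

end

section

/-! An equivariant Artin-Schreier generator. -/

open PowerSeries IsLocalRing Finset Function
open scoped Polynomial

namespace Pool.Agent.MP_deef5c_ag.O

universe u

variable {k : Type u} [Field k] {p n m α : ℕ} [Fact p.Prime] [CharP k p] {ζ : k} {σ σ' : En k}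
  {s : k⟦X⟧}

theorem Asd_iter {L : Type u} [CommRing L] (R : L →+* L) {y : L} (hy : R y = y + 1) (c : ℕ) :
    (R ^ c) y = y + c := by
  induction c with
  | zero => simp
  | succ c ih =>
    rw [pow_succ', RingHom.coe_mul, comp_apply, ih, map_add, hy, map_natCast]
    push_cast
    ring

omit [Fact p.Prime] [CharP k p] in
theorem Asd_tau_pow (S : Sp p n m α ζ σ) : tau ζ ^ m = 1 := by
  rw [tau_pow, S.prim.pow_eq_one, tau_one]

theorem Asd_step (S : Sp p (n + 1) m α ζ σ) {y : LaurentSeries k}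
    (hy : lext (σ ^ p ^ n) y = y + 1) :
    lext (σ ^ p ^ n) (α * lext (tau ζ) y) = α * lext (tau ζ) y + 1 := by
  have hp : 0 < p ^ (n + 1) := pow_pos (Fact.out : p.Prime).pos _
  have hτ : Injective (tau ζ) := en_inj S.mpos (Asd_tau_pow S)
  have hσ : ∀ i : ℕ, Injective (σ ^ i : En k) := fun i =>
    en_inj hp (by rw [← pow_mul, mul_comm, pow_mul, S.pow, one_pow])
  obtain ⟨l, rfl⟩ : ∃ l, m = l + 1 := ⟨m - 1, by have := S.mpos; omega⟩
  have h1 := rel_pow S.rel (p ^ n * α ^ l) 1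
  have h2 : α ^ 1 * (p ^ n * α ^ l) ≡ p ^ n [MOD p ^ (n + 1)] := by
    have := S.apow.mul_left (p ^ n)
    rw [mul_one] at this
    convert this using 1
    ring
  rw [pow_eq_pow_of_modEq h2 S.pow, pow_one, pow_mul] at h1
  have h3 : ((α : LaurentSeries k)) ^ (l + 1) = 1 := by
    rw [← map_natCast (algebraMap k (LaurentSeries k)), ← map_pow, S.alpha_pow, map_one]
  rw [map_mul, map_natCast, ← lext_mul (hσ _) hτ, ← h1,
    lext_mul hτ (by rw [← pow_mul]; exact hσ _), lext_pow (hσ _), Asd_iter _ hy, map_add,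
    map_natCast, mul_add, Nat.cast_pow, ← pow_succ', h3]

theorem Asd_avg (S : Sp p (n + 1) m α ζ σ) {y : LaurentSeries k}
    (hy : lext (σ ^ p ^ n) y = y + 1) : ∃ y₁ : LaurentSeries k,
      lext (σ ^ p ^ n) y₁ = y₁ + 1 ∧ α * lext (tau ζ) y₁ = y₁ := by
  have hτ : ∀ i : ℕ, Injective (tau ζ ^ i : En k) := fun i =>
    en_inj S.mpos (by rw [← pow_mul, mul_comm, pow_mul, Asd_tau_pow S, one_pow])
  have hτ1 : Injective (tau ζ) := en_inj S.mpos (Asd_tau_pow S)
  set v : ℕ → LaurentSeries k := fun i => (α : LaurentSeries k) ^ i * lext (tau ζ ^ i) y with hv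
  have h1 : ∀ i, v (i + 1) = α * lext (tau ζ) (v i) := fun i => by
    simp only [hv]
    rw [map_mul, map_pow, map_natCast, ← lext_mul hτ1 (hτ i), ← pow_succ', pow_succ', mul_assoc]
  have h0 : v 0 = y := by simp only [hv, pow_zero, one_mul, lext_one]
  have h2 : ∀ i, lext (σ ^ p ^ n) (v i) = v i + 1 := fun i => by
    induction i with
    | zero => rwa [h0]
    | succ i ih => rw [h1]; exact Asd_step S ih
  have h3 : v m = v 0 := by
    simp only [hv]
    rw [Asd_tau_pow S, pow_zero, pow_zero, ← map_natCast (algebraMap k (LaurentSeries k)),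
      ← map_pow, S.alpha_pow, map_one]
  have hm : (m : LaurentSeries k) ≠ 0 := by
    rw [← map_natCast (algebraMap k (LaurentSeries k))]
    exact (map_ne_zero _).2 S.m_ne
  refine ⟨(m : LaurentSeries k)⁻¹ * ∑ i ∈ range m, v i, ?_, ?_⟩
  · rw [map_mul, map_inv₀, map_natCast, map_sum]
    simp only [h2]
    rw [sum_add_distrib, sum_const, card_range, nsmul_eq_mul, mul_one, mul_add,
      inv_mul_cancel₀ hm]
  · have h4 := (sum_range_succ v m).symm.trans (sum_range_succ' v m)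
    rw [h3, add_left_inj] at h4
    rw [map_mul, map_inv₀, map_natCast, map_sum, mul_left_comm, mul_sum]
    simp only [← h1]
    rw [← h4]

/-- With `ρ̂ = lext (σ^(p^n))`, `τ̂ = lext (tau ζ)`: if `ρ̂ y = y + 1` then `ρ̂ (α τ̂ y) = α τ̂ y + 1`
(`ρ^α τ = τ ρ` and `ρ = (ρ^α)^α'` with `α α' ≡ 1 mod p`).  So `y₁ = (1/m) ∑_{i<m} α^i τ̂^i y` satisfies
`ρ̂ y₁ = y₁ + 1`, `α τ̂ y₁ = y₁`, and `y₁ - y = lext (sub s) z` (`Desc.lfix`).  Choose `N ≥ p^(n+1)` with
`lc Y = (lc x)^N y₁`; `W`, `G` come from `Desc.fix`. -/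
theorem asd (S : Sp p (n + 1) m α ζ σ) (h : Desc p n σ σ' s) (S' : Sp p n m α (ζ ^ p) σ')
    (y f : LaurentSeries k) (hy : lext (σ ^ p ^ n) y = y + 1) (hf : y ^ p - y = lext (sub s) f) :
    ∃ (N : ℕ) (Y W G : k⟦X⟧) (z : LaurentSeries k), ASD p n α ζ σ s N Y W G ∧
      lc k G = lc k (xb p n σ') ^ (p * N) * (f + (z ^ p - z)) := by
  have hp0 : 0 < p := (Fact.out : p.Prime).pos
  have hp : 0 < p ^ (n + 1) := pow_pos hp0 _
  have hlc : Injective (lc k) := HahnSeries.ofPowerSeries_injective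
  have : CharP k⟦X⟧ p := charP_of_injective_algebraMap (algebraMap k k⟦X⟧).injective p
  have : CharP (LaurentSeries k) p :=
    charP_of_injective_algebraMap (algebraMap k (LaurentSeries k)).injective p
  have hτ : Injective (tau ζ) := en_inj S.mpos (Asd_tau_pow S)
  have hρ : Injective (σ ^ p ^ n) :=
    en_inj hp (by rw [← pow_mul, mul_comm, pow_mul, S.pow, one_pow])
  have hs0 : sub s X = s := sub_X (by rw [Lau_cc hp0 (h.order_s S)]; exact zero_mem _)
  have hs : Injective (sub s) := Lau_inj hp0 (by rw [hs0]; exact h.order_s S)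
  obtain ⟨y₁, h1, h2⟩ := Asd_avg S hy
  obtain ⟨z, hz⟩ := (h.lfix S (y₁ - y)).1 (by rw [map_sub, h1, hy]; ring)
  set x := xb p (n + 1) σ with hx
  have hσx : σ x = x := nrm_inv S.pow X
  have hρx : ∀ i, (σ ^ i) x = x := fun i => by
    induction i with
    | zero => rfl
    | succ i ih => rw [pow_succ, AlgHom.mul_apply, hσx, ih]
  have hτx : tau ζ x = C (ζ ^ p ^ (n + 1)) * x := tau_nrm ⟨S.pow, S.rel⟩ (S.cop _)
  obtain ⟨x₁, hx₁⟩ : X ∣ x := X_dvd_iff.2 (Lau_cc hp S.order_xb)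
  obtain ⟨b, g, hg⟩ := Lau_ex y₁
  obtain ⟨Y, hY⟩ : ∃ Y, lc k Y = lc k x ^ (p ^ (n + 1) + b) * y₁ :=
    ⟨x ^ p ^ (n + 1) * x₁ ^ b * g, by
      have h3 : lc k x ^ b = lc k X ^ b * lc k x₁ ^ b := by rw [hx₁, map_mul, mul_pow]
      rw [map_mul, map_mul, map_pow, map_pow, ← hg, pow_add (lc k x), h3]
      ring⟩
  set N := p ^ (n + 1) + b with hN
  have e1 : (σ ^ p ^ n) Y = Y + x ^ N := hlc (by
    rw [← lext_lc hρ, hY, map_mul, map_pow, lext_lc hρ, hρx, h1, map_add, hY, map_pow]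
    ring)
  have hpp : (x ^ N) ^ (p - 1) * x ^ N = (x ^ N) ^ p := by
    rw [← pow_succ, Nat.sub_add_cancel hp0]
  obtain ⟨W, hW⟩ := (h.fix S (σ Y - Y)).1 (by
    rw [map_sub, ← AlgHom.mul_apply, ← pow_succ, pow_succ', AlgHom.mul_apply, e1, map_add,
      map_pow, hσx]
    ring)
  obtain ⟨G, hG⟩ := (h.fix S (Y ^ p - (x ^ N) ^ (p - 1) * Y)).1 (by
    rw [map_sub, map_mul, map_pow, map_pow, map_pow, e1, hρx, add_pow_char, mul_add, hpp]
    ring)
  refine ⟨N, Y, W, G, z, ⟨Nat.le_add_right _ _, e1, hW.symm, hG.symm, hlc ?_⟩,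
    (lext (sub s)).injective ?_⟩
  · rw [map_mul, map_natCast, map_natCast, ← lext_lc hτ, hY, map_mul, map_pow, lext_lc hτ, hτx,
      mul_left_comm, h2, map_mul, map_mul, hY, map_pow C _ N, map_pow (lc k) _ N, mul_pow,
      mul_assoc]
  · have h3 : lc k x ^ (p * N) = (lc k x ^ N) ^ (p - 1) * lc k x ^ N := by
      rw [← pow_succ, Nat.sub_add_cancel hp0, ← pow_mul, mul_comm]
    rw [lext_lc hs, hG, map_mul, map_pow, lext_lc hs, h.hx, map_add, map_sub, map_sub, map_pow,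
      map_pow, hz, ← hf, sub_pow_char, map_mul, map_pow, map_pow, hY, ← hx, mul_pow, ← pow_mul,
      mul_comm N p, h3]
    ring

end Pool.Agent.MP_deef5c_ag.O

end

section

/-! The special fibre data of one step. -/

open PowerSeries IsLocalRing Finset Function
open scoped Polynomial

namespace Pool.Agent.MP_deef5c_ag.O

universe u

variable {k : Type u} [Field k] {p n m α : ℕ} [Fact p.Prime] [CharP k p] {ζ : k} {σ σ' : En k}
  {s : k⟦X⟧}

/-- induction on `n` with `exists_desc` and `ws` -/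
theorem exists_wd [IsAlgClosed k] (S : Sp p n m α ζ σ) :
    ∃ y f r, WD p n σ y f r ∧ (0 < n → IsW p n σ (UU p (fun j => (r j).natDegree) n + 1)) := by
  induction n generalizing ζ σ with
  | zero =>
    exact ⟨0, 0, 0, ⟨fun j hj => absurd hj (Nat.not_lt_zero j),
      fun j hj => absurd hj (Nat.not_lt_zero j), fun j hj => absurd hj (Nat.not_lt_zero j),
      fun j hj => absurd hj (Nat.not_lt_zero j), fun h0 => absurd h0 (lt_irrefl 0)⟩,
      fun h0 => absurd h0 (lt_irrefl 0)⟩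
  | succ n ih =>
    obtain ⟨σ', s, h, S'⟩ := exists_desc S
    obtain ⟨y', f', r', W, hw⟩ := ih S'
    obtain ⟨y, f, r, W1, h1, -⟩ := ws S h S' W hw
    exact ⟨y, f, r, W1, fun _ => h1⟩

theorem exists_isW [IsAlgClosed k] (S : Sp p n m α ζ σ) : ∃ w, IsW p n σ w := by
  rcases Nat.eq_zero_or_pos n with hn | hn
  · exact ⟨0, Or.inl ⟨hn, rfl⟩⟩
  · obtain ⟨y, f, r, -, h⟩ := exists_wd S
    exact ⟨_, h hn⟩

/-- `exists_wd` for `σ'`, `ws`, `asd`, `isW_unique`, `isW_spec`; `0 < UU` from `PO.hc'` -/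
theorem sf [IsAlgClosed k] (S : Sp p (n + 1) m α ζ σ) (h : Desc p n σ σ' s)
    (S' : Sp p n m α (ζ ^ p) σ') {w w' : ℕ} (hw : IsW p (n + 1) σ w) (hw' : IsW p n σ' w') :
    ∃ (N : ℕ) (Y W G : k⟦X⟧) (κ u' l : ℕ) (c₀ z : LaurentSeries k) (r₀ : k[X]),
      ASD p n α ζ σ s N Y W G ∧ PO p (p ^ n) (xb p n σ') κ u' c₀ ∧ Red p r₀ ∧
      lc k G = lc k (xb p n σ') ^ (p * N) *
        (c₀ + Polynomial.aeval (lc k (xb p n σ'))⁻¹ r₀ + (z ^ p - z)) ∧
      order ((σ ^ p ^ n) X - X) = ((l + 1 : ℕ) : ℕ∞) ∧ p ^ n * w = κ + p ^ n + l ∧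
      (w' = 0 ∨ (0 < u' ∧ w' = u' + 1 ∧ (ζ ^ p ^ (n + 1)) ^ w' = (α : k) * ζ ^ p ^ (n + 1))) := by
  obtain ⟨y', f', r', W', hw0⟩ := exists_wd S'
  obtain ⟨y, f, r, W1, h1, c, κ, l, h2, h3, hPO, hl, heq⟩ := ws S h S' W' hw0
  obtain ⟨N, Y, W, G, z, hA, hG⟩ := asd S h S' _ _ h2 h3
  refine ⟨N, Y, W, G, κ, _, l, c, z, r n, hA, hPO, W1.red n (Nat.lt_succ_self n), hG, hl, ?_, ?_⟩
  · rw [S.isW_unique hw h1]
    exact heq
  · rcases Nat.eq_zero_or_pos n with hn | hn
    · rcases hw' with ⟨-, h0⟩ | ⟨h0, -⟩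
      · exact Or.inl h0
      · omega
    · have e1 := S'.isW_unique hw' (hw0 hn)
      obtain ⟨β, l', hl', hβ, -, e2, -, e3⟩ := S'.isW_spec hn hw'
      rw [← pow_mul ζ p, ← pow_succ'] at e3
      refine Or.inr ⟨?_, e1, e3⟩
      rcases hPO.hc' with ⟨h4, -, h5⟩ | ⟨h4, -⟩
      · exfalso
        have h6 := hPO.hκ
        rw [hβ, h5] at h6
        have h7 : β + 1 = 0 + p ^ n := by exact_mod_cast h6
        rw [e1, h4] at e2
        omega
      · exact Nat.pos_of_ne_zero fun h0 => by rw [h0] at h4; omega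

end Pool.Agent.MP_deef5c_ag.O

end

section

/-! Rigidity of maps over the quotient. -/

open PowerSeries IsLocalRing Finset Function
open scoped Polynomial

namespace Pool.Agent.MP_deef5c_ag.O

universe u

variable {k : Type u} [Field k] {D : Type u} [CommRing D] [IsDomain D] [IsLocalRing D] [CL D]
  [Algebra k D]

omit [IsDomain D] [IsLocalRing D] [CL D] in
theorem Uniq_surj (π : D →ₐ[k] k) : Surjective (π : D →+* k) := fun c =>
  ⟨algebraMap k D c, π.commutes c⟩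

omit [IsDomain D] [IsLocalRing D] [CL D] in
theorem Uniq_cst (π : D →ₐ[k] k) (f : k⟦X⟧) : PowerSeries.map (π : D →+* k) (cst D f) = f := by
  ext n
  simp

theorem Uniq_mem {x : k⟦X⟧} {d : ℕ} (hd : 0 < d) (hx : order x = d) :
    constantCoeff x ∈ maximalIdeal k :=
  Qb_mem (RingHom.id k) surjective_id x d hd (by rw [map_id]; exact hx)

omit [IsDomain D] [CL D] in
theorem Uniq_mem' {x : k⟦X⟧} {d : ℕ} (hd : 0 < d) (hx : order x = d) :
    constantCoeff (cst D x) ∈ maximalIdeal D := by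
  have h := Uniq_mem hd hx
  rw [maximalIdeal_eq_bot, Ideal.mem_bot] at h
  rw [← coeff_zero_eq_constantCoeff_apply, coeff_map, coeff_zero_eq_constantCoeff_apply, h,
    map_zero]
  exact zero_mem _

omit [IsDomain D] in
theorem Uniq_pow (σ : En k) {d : ℕ} (hd : 0 < d) (hσ : order (σ X) = d) (i : ℕ) (f : k⟦X⟧) :
    cst D ((σ ^ i) f) = (sub (cst D (σ X)) ^ i) (cst D f) := by
  have h := Uniq_mem' (D := D) hd hσ
  exact map_en_pow _ σ _ (sub_X h).symm (by rwa [sub_X h]) i f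

omit [IsDomain D] in
theorem Uniq_one (σ : En k) {d : ℕ} (hd : 0 < d) (hσ : order (σ X) = d) (f : k⟦X⟧) :
    cst D (σ f) = sub (cst D (σ X)) (cst D f) := by
  simpa using Uniq_pow (D := D) σ hd hσ 1 f

omit [IsDomain D] [IsLocalRing D] [CL D] in
theorem Uniq_red (π : D →ₐ[k] k) (Φ : En D) {a : k⟦X⟧} {d : ℕ} (hd : 0 < d) (ha : order a = d)
    (h : PowerSeries.map (π : D →+* k) (Φ X) = a) (f : D⟦X⟧) :
    PowerSeries.map (π : D →+* k) (Φ f) = sub a (PowerSeries.map (π : D →+* k) f) := by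
  have h' := Uniq_mem hd ha
  exact map_en _ Φ _ (by rw [sub_X h', h]) (by rwa [sub_X h']) f

/-- The coefficients of `H = ∏_i (T - σ^i X)` are series in `x = nrm σ q X` (`qinv` over `k`), so `Φ₁` and
`Φ₂` agree on their constant extensions (`map_en`, `en_ext`).  Hence `Φ₁ X` is a root of
`∏_i (T - Φ₂ (cst (σ^i X)))`; reducing, `sub a (σ^i X) = sub a X` for the common reduction `a`, and
`sub a` is injective. -/
theorem uniq (π : D →ₐ[k] k) (σ : En k) (q : ℕ) (hq : 0 < q) (hσ : orderOf σ = q) (Φ₁ Φ₂ : En D)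
    (hx : Φ₁ (cst D (nrm σ q X)) = Φ₂ (cst D (nrm σ q X)))
    (hr : PowerSeries.map (π : D →+* k) (Φ₁ X) = PowerSeries.map (π : D →+* k) (Φ₂ X))
    (d : ℕ) (hd : 0 < d) (ho : order (PowerSeries.map (π : D →+* k) (Φ₁ X)) = d) : Φ₁ = Φ₂ := by
  have hp : σ ^ q = 1 := hσ ▸ pow_orderOf_eq_one σ
  have ox : order (nrm σ q X) = q := by rw [order_nrm hq hp, order_X, mul_one]
  have m1 := Qb_mem _ (Uniq_surj π) _ d hd ho
  have mx := Uniq_mem hq ox
  have mx' := Uniq_mem' (D := D) hq ox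
  have hA : ∀ f, σ f = f → Φ₁ (cst D f) = Φ₂ (cst D f) := fun f hf => by
    obtain ⟨g, rfl⟩ := qinv (RingHom.id k) surjective_id _ q hq (by rw [map_id]; exact ox) σ
      (nrm_inv hp X) (pow_X_inj hq hσ) f hf
    have e : Φ₁ * sub (cst D (nrm σ q X)) = Φ₂ * sub (cst D (nrm σ q X)) :=
      en_ext (by rw [AlgHom.mul_apply, AlgHom.mul_apply, sub_X mx', hx])
        (by rw [AlgHom.mul_apply, sub_X mx']; exact en_mem _ m1 mx')
    rw [Uniq_one (sub (nrm σ q X)) hq (by rw [sub_X mx, ox]), sub_X mx]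
    exact DFunLike.congr_fun e _
  have hH : ∀ {R : Type u} [CommRing R] (φ : k⟦X⟧ →+* R),
      (∏ i ∈ range q, (Polynomial.X - Polynomial.C ((σ ^ i) X))).map φ =
        ∏ i ∈ range q, (Polynomial.X - Polynomial.C (φ ((σ ^ i) X))) := fun φ => by
    simp only [Polynomial.map_prod, Polynomial.map_sub, Polynomial.map_X, Polynomial.map_C]
  have hB : (∏ i ∈ range q, (Polynomial.X - Polynomial.C ((σ ^ i) X))).map
      (σ : k⟦X⟧ →+* k⟦X⟧) = ∏ i ∈ range q, (Polynomial.X - Polynomial.C ((σ ^ i) X)) := by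
    have e := prod_range_succ' (fun i => Polynomial.X - Polynomial.C ((σ ^ i) X)) q
    rw [prod_range_succ, hp, pow_zero] at e
    rw [hH, mul_right_cancel₀ (Polynomial.X_sub_C_ne_zero _) e]
    exact prod_congr rfl fun i _ => by rw [pow_succ']; rfl
  have hC : (∏ i ∈ range q, (Polynomial.X - Polynomial.C ((σ ^ i) X))).map
      ((Φ₁ : D⟦X⟧ →+* D⟦X⟧).comp (cst D)) =
      (∏ i ∈ range q, (Polynomial.X - Polynomial.C ((σ ^ i) X))).map
      ((Φ₂ : D⟦X⟧ →+* D⟦X⟧).comp (cst D)) := by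
    ext1 j
    rw [Polynomial.coeff_map, Polynomial.coeff_map]
    exact hA _ (by simpa only [Polynomial.coeff_map, RingHom.coe_coe] using congrArg (Polynomial.coeff · j) hB)
  have hD := congrArg (Polynomial.eval (Φ₁ X)) hC
  rw [hH, hH, Polynomial.eval_prod, Polynomial.eval_prod,
    prod_eq_zero (mem_range.2 hq) (by simp), eq_comm, prod_eq_zero_iff] at hD
  obtain ⟨i, -, hi⟩ := hD
  rw [Polynomial.eval_sub, Polynomial.eval_X, Polynomial.eval_C, sub_eq_zero] at hi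
  change Φ₁ X = Φ₂ (cst D ((σ ^ i) X)) at hi
  have h1 := congrArg (PowerSeries.map (π : D →+* k)) hi
  rw [Uniq_red π Φ₂ hd ho hr.symm, Uniq_cst] at h1
  have h2 := sub_injective (RingHom.id k) surjective_id _ d hd (by rw [map_id]; exact ho)
    ((sub_X (Uniq_mem hd ho)).trans h1)
  rw [← h2, map_X] at hi
  exact en_ext hi m1

variable {p n m α : ℕ} [Fact p.Prime] [CharP k p] {ζ : k} {σ σ' : En k} {s : k⟦X⟧}

/-- `uniq` for `σD * sub sD` and `sub sD * sub (cst (σ' X))`, and for `tau ζ * sub sD` and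
`sub sD * tau (ζ^p)` -/
theorem lev_of (S : Sp p (n + 1) m α ζ σ) (h : Desc p n σ σ' s) (S' : Sp p n m α (ζ ^ p) σ')
    {π : D →ₐ[k] k} {σD : En D} {x sD : D⟦X⟧} (F : Fam p (n + 1) α ζ σ π σD x)
    (hs : PowerSeries.map (π : D →+* k) sD = s) (hx : sub sD (cst D (xb p n σ')) = x) :
    Lev p n α ζ σ σ' s π σD x sD := by
  have hp : 0 < p := (Fact.out : p.Prime).pos
  have os := h.order_s S
  have o1 : order (σ X) = (1 : ℕ) := order_one (pow_pos hp _) S.pow
  have o2 : order (σ' X) = (1 : ℕ) := order_one (pow_pos hp _) S'.pow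
  have ms := Uniq_mem hp os
  have mD : constantCoeff sD ∈ maximalIdeal D := Qb_mem _ (Uniq_surj π) _ p hp (by rw [hs, os])
  have r1 : ∀ f, PowerSeries.map (π : D →+* k) (sub sD f) =
      sub s (PowerSeries.map (π : D →+* k) f) := Uniq_red π _ hp os (by rw [sub_X mD, hs])
  have r2 : PowerSeries.map (π : D →+* k) ((σD * sub sD) X) = σ s := by
    rw [AlgHom.mul_apply, sub_X mD, map_en _ σD σ F.red (Uniq_mem one_pos o1), hs]
  have e1 : σD * sub sD = sub sD * sub (cst D (σ' X)) := by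
    refine uniq π σ' _ (pow_pos hp _) S'.ord _ _ ?_ ?_ p hp ?_
    · rw [AlgHom.mul_apply, AlgHom.mul_apply, ← Uniq_one σ' one_pos o2, nrm_inv S'.pow]
      change σD (sub sD (cst D (xb p n σ'))) = sub sD (cst D (xb p n σ'))
      rw [hx, F.inv]
    · rw [r2, AlgHom.mul_apply, sub_X (Uniq_mem' one_pos o2), r1, Uniq_cst, ← AlgHom.mul_apply,
        h.comm, AlgHom.mul_apply, sub_X ms]
    · rw [r2, order_en σ 1 one_pos o1, os, Nat.cast_one, one_mul]
  have r3 : PowerSeries.map (π : D →+* k) ((tau (algebraMap k D ζ) * sub sD) X) =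
      C (ζ ^ p) * s := by
    have e := DFunLike.congr_fun (h.tau_s S) X
    rw [AlgHom.mul_apply, AlgHom.mul_apply, sub_X ms, tau_X, map_mul, Base_en_C, sub_X ms] at e
    rw [AlgHom.mul_apply, sub_X mD, map_tau, hs, ← e]
    exact congrArg (tau · s) (π.commutes ζ)
  have e2 : tau (algebraMap k D ζ) * sub sD = sub sD * tau (algebraMap k D (ζ ^ p)) := by
    refine uniq π σ' _ (pow_pos hp _) S'.ord _ _ ?_ ?_ p hp ?_
    · rw [AlgHom.mul_apply, AlgHom.mul_apply, ← map_tau, tau_nrm ⟨S'.pow, S'.rel⟩ (S'.cop n),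
        map_mul, map_C, map_mul, Base_en_C]
      change tau _ (sub sD (cst D (xb p n σ'))) = _ * sub sD (cst D (xb p n σ'))
      rw [hx, F.eig, ← pow_mul, ← pow_succ']
    · rw [r3, AlgHom.mul_apply, r1, map_tau, map_X, tau_X, map_mul, Base_en_C, sub_X ms]
      exact congrArg (C · * s) (π.commutes _).symm
    · rw [r3, order_mul, os, order_zero_of_unit
        (((S.prim.isUnit S.mpos.ne').pow p).map (C (R := k))), zero_add]
  refine ⟨F, hs, hx, ?_, fun g => ?_, fun g => ?_⟩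
  · have e := DFunLike.congr_fun (SemiconjBy.pow_right e1.symm (p ^ n)).eq X
    rw [AlgHom.mul_apply, AlgHom.mul_apply, sub_X mD] at e
    have e' := Uniq_pow (D := D) σ' one_pos o2 (p ^ n) X
    rw [S'.pow, AlgHom.one_apply, map_X] at e'
    rw [← e, ← e', sub_X mD]
  · rw [Uniq_one σ' one_pos o2]
    exact (DFunLike.congr_fun e1 _).symm
  · rw [map_tau]
    exact (DFunLike.congr_fun e2 _).symm

/-- a trivialisation intertwines the actions -/
theorem triv_comm (S : Sp p n m α ζ σ) {π : D →ₐ[k] k} {σD : En D} {x : D⟦X⟧}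
    (F : Fam p n α ζ σ π σD x) (Φ : En D) (h1 : PowerSeries.map (π : D →+* k) (Φ X) = X)
    (h2 : Φ (cst D (xb p n σ)) = x) : Φ * sub (cst D (σ X)) = σD * Φ := by
  have hp : 0 < p := (Fact.out : p.Prime).pos
  have o1 : order (σ X) = (1 : ℕ) := order_one (pow_pos hp _) S.pow
  have r1 : PowerSeries.map (π : D →+* k) ((Φ * sub (cst D (σ X))) X) = σ X := by
    rw [AlgHom.mul_apply, sub_X (Uniq_mem' one_pos o1),
      map_en _ Φ 1 h1 (Uniq_mem one_pos order_X), Uniq_cst, AlgHom.one_apply]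
  refine uniq π σ _ (pow_pos hp _) S.ord _ _ ?_ ?_ 1 one_pos (by rw [r1, o1])
  · rw [AlgHom.mul_apply, AlgHom.mul_apply, ← Uniq_one σ one_pos o1, nrm_inv S.pow]
    change Φ (cst D (xb p n σ)) = σD (Φ (cst D (xb p n σ)))
    rw [h2, F.inv]
  · rw [r1, AlgHom.mul_apply, map_en _ σD σ F.red (Uniq_mem one_pos o1), h1]

/-- level zero: `Φ = sub x` -/
theorem triv_zero (S : Sp p 0 m α ζ σ) {π : D →ₐ[k] k} {σD : En D} {x : D⟦X⟧}
    (F : Fam p 0 α ζ σ π σD x) : Triv π (xb p 0 σ) x := by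
  have mD : constantCoeff x ∈ maximalIdeal D :=
    Qb_mem _ (Uniq_surj π) _ _ (pow_pos (Fact.out : p.Prime).pos 0) (by rw [F.redx, S.order_xb])
  have e : xb p 0 σ = X := by simp [xb, nrm]
  exact ⟨sub x, by rw [sub_X mD, F.redx, e], by rw [e, map_X, sub_X mD]⟩

end Pool.Agent.MP_deef5c_ag.O

end

section

/-! The branch polynomial of the top step of a family. -/

open PowerSeries IsLocalRing Finset Function
open scoped Polynomial

namespace Pool.Agent.MP_deef5c_ag.O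

universe u

section Aux

variable {D k : Type u} [CommRing D] [IsLocalRing D] [Field k]

theorem Wf_assoc (π : D →+* k) (hπ : Surjective π) {F g : D⟦X⟧} {d : ℕ} (h : F ∣ g)
    (hF : order (PowerSeries.map π F) = d) (hg : order (PowerSeries.map π g) = d) :
    Associated F g := by
  obtain ⟨c, rfl⟩ := h
  rw [map_mul, order_mul, hF] at hg
  have h0 : order (PowerSeries.map π c) = 0 :=
    WithTop.add_left_cancel (ENat.natCast_ne_top d) (hg.trans (add_zero _).symm)
  have hc : IsUnit c := by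
    rw [isUnit_of_map π hπ, PowerSeries.isUnit_iff_constantCoeff, isUnit_iff_ne_zero]
    exact fun h1 => order_ne_zero_iff_constCoeff_eq_zero.2 h1 h0
  exact ⟨hc.unit, rfl⟩

omit [IsLocalRing D] in
theorem Wf_coe (φ : En D) (P : D[X]) : φ (P : D⟦X⟧) = Polynomial.aeval (φ X) P := by
  rw [Polynomial.aeval_algHom_apply, Polynomial.aeval_def, ← Polynomial.eval₂_C_X_eq_coe]
  rfl

omit [IsLocalRing D] in
theorem Wf_nrm {φ : En D} {F : D⟦X⟧} (h : ∀ i, Associated F ((φ ^ i) F)) (q : ℕ) :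
    Associated (F ^ q) (nrm φ q F) := by
  have h1 := Associated.prod (range q) (fun _ => F) (fun i => (φ ^ i) F) fun i _ => h i
  rwa [prod_const, card_range] at h1

omit [IsLocalRing D] in
theorem Wf_inv [IsDomain D] (φ : En D) {a b u : D⟦X⟧} (ha : a ≠ 0) (h : a * u = b) (h1 : φ a = a)
    (h2 : φ b = b) : φ u = u := by
  apply mul_left_cancel₀ ha
  rw [h, ← h2, ← h, map_mul, h1]

variable [CL D]

theorem Wf_pow_mem (φ : En D) (hm : constantCoeff (φ X) ∈ maximalIdeal D) (i : ℕ) :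
    constantCoeff ((φ ^ i) X) ∈ maximalIdeal D := by
  induction i with
  | zero =>
    rw [pow_zero, AlgHom.one_apply, constantCoeff_X]
    exact zero_mem _
  | succ i ih =>
    rw [pow_succ', AlgHom.mul_apply]
    exact en_mem φ hm ih

theorem Wf_dvd_one (φ : En D) (hm : constantCoeff (φ X) ∈ maximalIdeal D) (f : D⟦X⟧) :
    φ X - X ∣ φ f - f :=
  sub_dvd φ 1 hm (by rw [AlgHom.one_apply, constantCoeff_X]; exact zero_mem _) f

theorem Wf_dvd_pow (φ : En D) (hm : constantCoeff (φ X) ∈ maximalIdeal D) (c : ℕ) :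
    φ X - X ∣ (φ ^ c) X - X := by
  induction c with
  | zero =>
    rw [pow_zero, AlgHom.one_apply, sub_self]
    exact dvd_zero _
  | succ c ih =>
    rw [pow_succ', AlgHom.mul_apply, ← sub_add_sub_cancel (φ ((φ ^ c) X)) ((φ ^ c) X) X]
    exact dvd_add (Wf_dvd_one φ hm _) ih

theorem Wf_unit (φ : En D) (hm : constantCoeff (φ X) ∈ maximalIdeal D) {υ : D⟦X⟧}
    (h : IsUnit (φ υ)) : IsUnit υ := by
  by_contra h1
  exact (mem_maximalIdeal _).1 ((mem_max_iff _).2 (en_mem φ hm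
    ((mem_max_iff _).1 ((mem_maximalIdeal _).2 h1)))) h

theorem Wf_eqv {W : D[X]} (hW : W.IsDistinguishedAt (maximalIdeal D)) (ξ : D) (υ : D⟦X⟧)
    (h : (W : D⟦X⟧) * υ = (W.comp (Polynomial.C ξ * Polynomial.X) : D[X])) :
    W.comp (Polynomial.C ξ * Polynomial.X) = Polynomial.C (ξ ^ W.natDegree) * W := by
  have h1 : (W : D⟦X⟧).IsWeierstrassFactorizationAt W 1 (maximalIdeal D) :=
    ⟨hW, isUnit_one, (mul_one _).symm⟩
  have h2 := h1.natDegree_eq_toNat_order_map_of_ne_top (maximalIdeal.isMaximal D).ne_top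
  refine sub_eq_zero.1 (hW.isWeierstrassDivisorAt'.eq_zero_of_mul_eq
    (q := υ - C (ξ ^ W.natDegree)) ?_ ?_).2
  · rw [← h2, Polynomial.degree_lt_iff_coeff_zero]
    intro j hj
    rw [Polynomial.coeff_sub, Polynomial.comp_C_mul_X_coeff, Polynomial.coeff_C_mul]
    rcases hj.eq_or_lt with rfl | hj
    · rw [mul_comm, sub_self]
    · rw [Polynomial.coeff_eq_zero_of_natDegree_lt hj, zero_mul, mul_zero, sub_self]
  · rw [mul_sub, h, Polynomial.coe_sub, Polynomial.coe_mul, Polynomial.coe_C,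
      mul_comm (W : D⟦X⟧)]

end Aux

theorem Wf_exp {M : Type u} [Monoid M] {p n j : ℕ} (hp : p.Prime) {a : M} (ha : a ^ p ^ (n + 1) = 1)
    (h0 : 0 < j) (hj : j < p ^ (n + 1)) : ∃ c, (a ^ j) ^ c = a ^ p ^ n := by
  have h1 : j.gcd (p ^ (n + 1)) < p ^ (n + 1) := (Nat.gcd_le_left _ h0).trans_lt hj
  obtain ⟨c, -, hc⟩ := Nat.exists_mul_mod_eq_gcd h1
  obtain ⟨b, hb, hb'⟩ := (Nat.dvd_prime_pow hp).1 (Nat.gcd_dvd_right j (p ^ (n + 1)))
  have h2 : b ≤ n := by
    rw [hb'] at h1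
    exact Nat.lt_succ_iff.1 ((Nat.pow_lt_pow_iff_right hp.one_lt).1 h1)
  refine ⟨c * p ^ (n - b), ?_⟩
  rw [pow_mul, ← pow_mul a, pow_eq_pow_mod (j * c) ha, hc, hb', ← pow_mul, ← pow_add,
    Nat.add_sub_cancel' h2]

variable {k : Type u} [Field k] {p n m α : ℕ} [Fact p.Prime] [CharP k p] {ζ : k} {σ σ' : En k}
  {s : k⟦X⟧}

variable {D : Type u} [CommRing D] [IsDomain D] [IsLocalRing D] [CL D] [Algebra k D]

/-- Let `ρ = σD^(p^n)`, `F = ρ X - X`, `q = p^(n+1)`.  The elements `σD^i F` (`sub_dvd ρ 1`), `ρ^α X - X`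
(`lead_pow`) and so `tau F` are multiples of `F` whose reductions have the same order `l + 1`, hence
unit multiples (`isUnit_of_map`).  `nrm σD q F = sub x g` (`Fam.fix`), `g` has reduction of order
`l + 1`; `Wf` is its Weierstrass polynomial.  A unit of `D⟦X⟧` relating two non-zero invariants is
invariant, and `sub x υ` (or `sub sD υ`) is a unit only if `υ` is.  Uniqueness in Weierstrass
preparation gives `eqv`.  For `0 < j < q`, `ρ` is a power of `σD^j`, so `X - σD^j X ∣ F`. -/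
theorem exists_wf (S : Sp p (n + 1) m α ζ σ) (h : Desc p n σ σ' s) (S' : Sp p n m α (ζ ^ p) σ')
    {π : D →ₐ[k] k} {σD : En D} {x sD : D⟦X⟧} (L : Lev p n α ζ σ σ' s π σD x sD) {l : ℕ}
    (hl : order ((σ ^ p ^ n) X - X) = ((l + 1 : ℕ) : ℕ∞)) :
    ∃ Wf GF υ, WF p n l (algebraMap k D (ζ ^ p ^ (n + 1))) σD x sD (cst D (xb p n σ')) Wf GF υ := by
  have hp : p.Prime := Fact.out
  have hπ : Surjective (π : D →+* k) := fun a => ⟨algebraMap k D a, π.commutes a⟩
  have hq : 0 < p ^ (n + 1) := pow_pos hp.pos _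
  have hid : ∀ (y : k⟦X⟧) (d : ℕ), 0 < d → order y = d → constantCoeff y ∈ maximalIdeal k :=
    fun y d hd hy => by
      rw [Lau_cc hd hy]
      exact zero_mem _
  have hσ1 : ∀ i, order ((σ ^ i) X) = (1 : ℕ) := fun i =>
    order_one hq (by rw [← pow_mul, mul_comm, pow_mul, S.pow, one_pow])
  have hσ1' : order (σ X) = (1 : ℕ) := by
    have := hσ1 1
    rwa [pow_one] at this
  have hred := map_en_pow (π : D →+* k) σD σ L.fam.red (hid _ 1 one_pos hσ1')
  have hm : constantCoeff (σD X) ∈ maximalIdeal D :=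
    Qb_mem _ hπ _ 1 one_pos (by rw [L.fam.red, hσ1'])
  have hmi := Wf_pow_mem σD hm
  have hxo : order (PowerSeries.map (π : D →+* k) x) = ((p ^ (n + 1) : ℕ) : ℕ∞) := by
    rw [L.fam.redx, S.order_xb]
  have hxm := Qb_mem _ hπ _ _ hq hxo
  have hso : order (PowerSeries.map (π : D →+* k) sD) = p := by
    rw [L.red, Desc.order_s S h]
  have hsm := Qb_mem _ hπ _ _ hp.pos hso
  have hρ : (σD ^ p ^ n) ^ p = 1 := by rw [← pow_mul, ← pow_succ, L.fam.rel.1]
  obtain ⟨F, hFd⟩ : ∃ F, F = (σD ^ p ^ n) X - X := ⟨_, rfl⟩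
  have hF : order (PowerSeries.map (π : D →+* k) F) = ((l + 1 : ℕ) : ℕ∞) := by
    rw [hFd, map_sub, hred, map_X, hl]
  have hF0 : F ≠ 0 := by
    rintro rfl
    rw [map_zero, order_zero] at hF
    exact ENat.top_ne_natCast _ hF
  have hA : ∀ i, Associated F ((σD ^ i) F) := fun i => by
    refine Wf_assoc _ hπ ?_ hF ?_
    · have h1 : (σD ^ i) F = (σD ^ p ^ n) ((σD ^ i) X) - (σD ^ i) X := by
        rw [hFd, map_sub, ← AlgHom.mul_apply, pow_mul_comm, AlgHom.mul_apply]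
      rw [h1, hFd]
      exact Wf_dvd_one _ (hmi _) _
    · rw [hred, order_en _ 1 one_pos (hσ1 i), hF, Nat.cast_one, one_mul]
  have hτ : Associated F (tau (algebraMap k D ζ) F) := by
    refine Wf_assoc _ hπ ?_ hF ?_
    · have h1 := rel_pow L.fam.rel.2 (p ^ n) 1
      rw [pow_one, pow_one, mul_comm α, pow_mul] at h1
      have h2 : tau (algebraMap k D ζ) F = ((σD ^ p ^ n) ^ α) (tau (algebraMap k D ζ) X) -
          tau (algebraMap k D ζ) X := by
        rw [hFd, map_sub, ← AlgHom.mul_apply, h1, AlgHom.mul_apply]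
      rw [h2, hFd]
      exact (Wf_dvd_pow _ (hmi _) α).trans (Wf_dvd_one _ (Wf_pow_mem _ (hmi _) α) _)
    · have h1 : (π : D →+* k) (algebraMap k D ζ) = ζ := π.commutes ζ
      have h2 : order (tau ζ X) = (1 : ℕ) := order_one S.mpos (by
        rw [tau_pow, S.prim.pow_eq_one, tau_one])
      rw [map_tau, h1, order_en _ 1 one_pos h2, hF, Nat.cast_one, one_mul]
  obtain ⟨g, hg⟩ := (Fam.fix S L.fam _).1 (nrm_inv L.fam.rel.1 F)
  have hgo : order (PowerSeries.map (π : D →+* k) g) = ((l + 1 : ℕ) : ℕ∞) := by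
    have hx' := hid _ _ hq S.order_xb
    have h1 := map_en (π : D →+* k) (sub x) (sub (xb p (n + 1) σ))
      (by rw [sub_X hxm, sub_X hx', L.fam.redx]) (by rw [sub_X hx']; exact hx') g
    have h2 : PowerSeries.map (π : D →+* k) (nrm σD (p ^ (n + 1)) F) =
        nrm σ (p ^ (n + 1)) (PowerSeries.map (π : D →+* k) F) := by
      rw [nrm, nrm, map_prod]
      exact prod_congr rfl fun i _ => hred i F
    have h3 := order_en (sub (xb p (n + 1) σ)) _ hq (by rw [sub_X hx', S.order_xb])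
      (PowerSeries.map (π : D →+* k) g)
    rw [← h1, hg, h2, order_nrm hq S.pow, hF] at h3
    have h4 : order (PowerSeries.map (π : D →+* k) g) ≠ ⊤ := by
      intro h5
      rw [h5, ENat.mul_top (Nat.cast_ne_zero.2 hq.ne'), ← Nat.cast_mul] at h3
      exact ENat.natCast_ne_top _ h3
    obtain ⟨b, hb⟩ := ENat.ne_top_iff_exists.1 h4
    rw [← hb, ← Nat.cast_mul, ← Nat.cast_mul, Nat.cast_inj] at h3
    rw [← hb, Nat.eq_of_mul_eq_mul_left hq h3]
  obtain ⟨hg0, hg1⟩ := Qb_ord _ hπ g _ hgo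
  obtain ⟨W, u, hW⟩ := exists_isWeierstrassFactorization hg0
  have hdeg : W.natDegree = l + 1 := hW.natDegree_eq_toNat_order_map.trans hg1
  have hsub : ∀ P : D[X], sub x (P : D⟦X⟧) = Polynomial.aeval x P := fun P => by
    rw [Wf_coe, sub_X hxm]
  have hfix : ∀ (i : ℕ) (P : D[X]), (σD ^ i) (Polynomial.aeval x P) = Polynomial.aeval x P := by
    intro i P
    have h1 : (σD ^ i) x = x := by
      rw [AlgHom.coe_pow]
      exact iterate_fixed L.fam.inv i
    rw [← Polynomial.aeval_algHom_apply, h1]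
  have hWA : Associated (F ^ p ^ (n + 1)) (Polynomial.aeval x W) := by
    refine (Wf_nrm hA _).trans ?_
    rw [← hg, hW.eq_mul, map_mul, hsub]
    exact associated_mul_unit_left _ _ (hW.isUnit.map _)
  have hW0 : Polynomial.aeval x W ≠ 0 := hWA.ne_zero_iff.1 (pow_ne_zero _ hF0)
  obtain ⟨GF, hGF⟩ := (Fam.rho_fix S h L.fam L.red L.inv _).1 (nrm_inv hρ F)
  have hGA : Associated (F ^ p ^ (n + 1)) (sub sD (GF ^ p ^ n)) := by
    have h1 : Associated (F ^ p) (nrm (σD ^ p ^ n) p F) :=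
      Wf_nrm (fun i => by rw [← pow_mul]; exact hA _) p
    rw [map_pow, hGF, pow_succ', pow_mul]
    exact h1.pow_pow
  obtain ⟨v, hv⟩ := hGA.symm.trans hWA
  obtain ⟨υ, hυ⟩ := (Fam.rho_fix S h L.fam L.red L.inv _).1 (Wf_inv (σD ^ p ^ n)
    (hGA.ne_zero_iff.1 (pow_ne_zero _ hF0)) hv
    ((Fam.rho_fix S h L.fam L.red L.inv _).2 ⟨_, rfl⟩) (hfix _ W))
  refine ⟨W, GF, υ, hW.isDistinguishedAt, hdeg, ?_, fun j h0 hj => ?_, ?_, ?_, ?_⟩
  · have h1 : tau (algebraMap k D ζ) (Polynomial.aeval x W) = Polynomial.aeval x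
        (W.comp (Polynomial.C (algebraMap k D (ζ ^ p ^ (n + 1))) * Polynomial.X)) := by
      rw [← Polynomial.aeval_algHom_apply, L.fam.eig, Polynomial.aeval_comp, map_mul,
        Polynomial.aeval_C, Polynomial.aeval_X]
      rfl
    have h2 := hWA.map (tau (algebraMap k D ζ))
    rw [map_pow, h1] at h2
    obtain ⟨w, hw⟩ := hWA.symm.trans (hτ.pow_pow.trans h2)
    have h3 := Wf_inv (σD ^ 1) hW0 hw (hfix _ _) (hfix _ _)
    rw [pow_one] at h3
    obtain ⟨w', hw'⟩ := (Fam.fix S L.fam _).1 h3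
    rw [← hdeg]
    refine Wf_eqv hW.isDistinguishedAt _ w' (sub_injective _ hπ x _ hq hxo ?_)
    rw [map_mul, hsub, hsub, hw', hw]
  · obtain ⟨c, hc⟩ := Wf_exp hp L.fam.rel.1 h0 hj
    have h1 := Wf_dvd_pow _ (hmi j) c
    rw [hc, ← hFd] at h1
    rw [← neg_sub, neg_dvd]
    exact h1.trans ((dvd_pow_self F hq.ne').trans hWA.dvd)
  · rw [hGF, nrm]
    refine prod_congr rfl fun i _ => ?_
    rw [hFd, map_sub, pow_succ, AlgHom.mul_apply]
  · refine Wf_unit (sub sD) (by rw [sub_X hsm]; exact hsm) ?_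
    rw [hυ]
    exact v.isUnit
  · refine sub_injective _ hπ sD _ hp.pos hso ?_
    rw [← Polynomial.aeval_algHom_apply, L.hx, map_mul, hυ, ← hv, mul_comm]

end Pool.Agent.MP_deef5c_ag.O

end

section

/-! The normalised generator of a family. -/

open PowerSeries IsLocalRing Finset Function
open scoped Polynomial

namespace Pool.Agent.MP_deef5c_ag.O

universe u

variable {k : Type u} [Field k] {p n m α : ℕ} [Fact p.Prime] [CharP k p] {ζ : k} {σ σ' : En k}
  {s : k⟦X⟧}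

variable {D : Type u} [CommRing D] [IsDomain D] [IsLocalRing D] [CL D] [Algebra k D]

section General

variable {R : Type u} [CommRing R]

theorem St1_coe_pow (φ : En R) (i : ℕ) (f : R⟦X⟧) :
    ((φ : R⟦X⟧ →+* R⟦X⟧) ^ i) f = (φ ^ i) f := by
  rw [RingHom.coe_pow, AlgHom.coe_pow]
  rfl

theorem St1_pow_succ (φ : En R) (i : ℕ) (f : R⟦X⟧) : (φ ^ (i + 1)) f = φ ((φ ^ i) f) := by
  rw [pow_succ']
  rfl

theorem St1_pow_add (φ : En R) (i j : ℕ) (f : R⟦X⟧) : (φ ^ (i + j)) f = (φ ^ j) ((φ ^ i) f) := by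
  rw [add_comm, pow_add]
  rfl

theorem St1_pow_fix (φ : En R) {f : R⟦X⟧} (h : φ f = f) (i : ℕ) : (φ ^ i) f = f := by
  induction i with
  | zero => rfl
  | succ i ih => rw [St1_pow_succ, ih, h]

theorem St1_trc_mul (φ : En R) {a : ℕ} {f : R⟦X⟧} (h : (φ ^ a) f = f) (b : ℕ) :
    trc φ (a * b) f = (b : R⟦X⟧) * trc φ a f := by
  induction b with
  | zero => simp [trc]
  | succ b ih =>
    have h1 : (φ ^ (a * b)) f = f := by
      rw [pow_mul]
      exact St1_pow_fix _ h b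
    have h2 : trc φ (a * (b + 1)) f = trc φ (a * b) f + trc φ a f := by
      unfold trc
      rw [Nat.mul_succ, Finset.sum_range_add]
      congr 1
      refine Finset.sum_congr rfl fun i _ => ?_
      rw [St1_pow_add, h1]
    rw [h2, ih]
    push_cast
    ring

theorem St1_trc_smul (φ : En R) {e : R⟦X⟧} (h : φ e = e) (a : ℕ) (f : R⟦X⟧) :
    trc φ a (e * f) = e * trc φ a f := by
  unfold trc
  rw [Finset.mul_sum]
  refine Finset.sum_congr rfl fun i _ => ?_
  rw [map_mul, St1_pow_fix φ h]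

theorem St1_trc_comm {R' : Type u} [CommRing R'] (φ : En R) (ψ : En R') (J : R⟦X⟧ →+* R'⟦X⟧)
    (h : ∀ g, J (φ g) = ψ (J g)) (a : ℕ) (f : R⟦X⟧) :
    J ((φ ^ a) f) = (ψ ^ a) (J f) ∧ J (trc φ a f) = trc ψ a (J f) := by
  have h1 : ∀ i, J ((φ ^ i) f) = (ψ ^ i) (J f) := by
    intro i
    induction i with
    | zero => rfl
    | succ i ih => rw [St1_pow_succ, St1_pow_succ, h, ih]
  refine ⟨h1 a, ?_⟩
  unfold trc
  rw [map_sum]
  exact Finset.sum_congr rfl fun i _ => h1 i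

theorem St1_aeval_fix (φ : En R) {x : R⟦X⟧} (h : φ x = x) (P : R[X]) :
    φ (Polynomial.aeval x P) = Polynomial.aeval x P := by
  rw [← Polynomial.aeval_algHom_apply, h]

theorem St1_dist_pow {I : Ideal R} {f : R[X]} (hf : f.IsDistinguishedAt I) (N : ℕ) (hN : 0 < N) :
    (f ^ N).IsDistinguishedAt I := by
  induction N, hN using Nat.le_induction with
  | base => rwa [Nat.succ_eq_add_one, zero_add, pow_one]
  | succ N _ ih => rw [pow_succ]; exact ih.mul hf

theorem St1_dist_X [Nontrivial R] (I : Ideal R) : (Polynomial.X : R[X]).IsDistinguishedAt I := by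
  refine ⟨⟨fun {i} hi => ?_⟩, Polynomial.monic_X⟩
  rw [Polynomial.natDegree_X] at hi
  have h : i = 0 := by omega
  rw [h, Polynomial.coeff_X_zero]
  exact I.zero_mem

theorem St1_charP (p : ℕ) [CharP R p] : CharP R⟦X⟧ p :=
  charP_of_injective_ringHom (f := (C : R →+* R⟦X⟧)) C_injective p

end General

omit [IsDomain D] [IsLocalRing D] [CL D] in
theorem St1_surj (π : D →ₐ[k] k) : Surjective (π : D →+* k) := fun c =>
  ⟨algebraMap k D c, π.commutes c⟩

omit [IsDomain D] [IsLocalRing D] [CL D] in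
theorem St1_red_cst (π : D →ₐ[k] k) (g : k⟦X⟧) :
    PowerSeries.map (π : D →+* k) (cst D g) = g := by
  ext i
  rw [coeff_map, coeff_map]
  exact π.commutes _

omit [IsDomain D] [CL D] in
theorem St1_map_dist (π : D →ₐ[k] k) {f : D[X]} (hf : f.IsDistinguishedAt (maximalIdeal D)) :
    f.map (π : D →+* k) = Polynomial.X ^ f.natDegree := by
  ext i
  rw [Polynomial.coeff_map, Polynomial.coeff_X_pow]
  split_ifs with h
  · rw [h, hf.monic.coeff_natDegree, map_one]
  · rcases lt_or_gt_of_ne h with h | h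
    · exact (pi_eq_zero_iff _ (St1_surj π) _).2 (hf.mem h)
    · rw [Polynomial.coeff_eq_zero_of_natDegree_lt h, map_zero]

omit [IsDomain D] [CL D] in
theorem St1_red_aeval (π : D →ₐ[k] k) {f : D[X]} (hf : f.IsDistinguishedAt (maximalIdeal D))
    (x : D⟦X⟧) : PowerSeries.map (π : D →+* k) (Polynomial.aeval x f) =
      PowerSeries.map (π : D →+* k) x ^ f.natDegree := by
  rw [Polynomial.map_aeval_eq_aeval_map (φ := (π : D →+* k))
    (ψ := PowerSeries.map (π : D →+* k)) (RingHom.ext fun a => by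
      change C (π a) = PowerSeries.map (π : D →+* k) (C a)
      rw [map_C]; rfl), St1_map_dist π hf, map_pow, Polynomial.aeval_X]

omit [IsDomain D] in
theorem St1_red_sub (π : D →ₐ[k] k) {x : D⟦X⟧} {d : ℕ} (hd : 0 < d)
    (hx : order (PowerSeries.map (π : D →+* k) x) = d) (f : D⟦X⟧) :
    PowerSeries.map (π : D →+* k) (sub x f) =
      sub (PowerSeries.map (π : D →+* k) x) (PowerSeries.map (π : D →+* k) f) := by
  have h1 := Qb_mem (π : D →+* k) (St1_surj π) x d hd hx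
  have h2 : constantCoeff (PowerSeries.map (π : D →+* k) x) ∈ maximalIdeal k :=
    Qb_mem (RingHom.id k) Function.surjective_id _ d hd (by rw [map_id]; exact hx)
  refine map_en (π : D →+* k) (sub x) (sub _) ?_ ?_ f
  · rw [sub_X h1, sub_X h2]
  · rw [sub_X h2]; exact h2

theorem St1_sub_inj {x : k⟦X⟧} {d : ℕ} (hd : 0 < d) (hx : order x = d) : Injective (sub x) :=
  sub_injective (RingHom.id k) Function.surjective_id x d hd (by rw [map_id]; exact hx)

theorem St1_mem {σ : En k} {q : ℕ} (hq : 0 < q) (h : σ ^ q = 1) :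
    constantCoeff (σ X) ∈ maximalIdeal k :=
  Qb_mem (RingHom.id k) Function.surjective_id _ 1 one_pos
    (by rw [map_id]; exact order_one hq h)

/-- the two identities of the lower level -/
theorem St1_low (S : Sp p (n + 1) m α ζ σ) (h : Desc p n σ σ' s) {N : ℕ} {Y₀ W G : k⟦X⟧}
    (A : ASD p n α ζ σ s N Y₀ W G) :
    trc σ' (p ^ n) W = xb p n σ' ^ N ∧
      σ' G - G = W ^ p - (xb p n σ' ^ N) ^ (p - 1) * W := by
  have hp : p.Prime := Fact.out
  have := St1_charP (R := k) p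
  have hinj : Injective (sub s) := St1_sub_inj hp.pos (h.order_s S)
  have hc : ∀ g, sub s (σ' g) = σ (sub s g) := fun g => congrArg (fun φ : En k => φ g) h.comm
  constructor
  · apply hinj
    have h1 := (St1_trc_comm σ' σ (sub s : k⟦X⟧ →+* k⟦X⟧) hc (p ^ n) W).2
    rw [RingHom.coe_coe] at h1
    rw [h1, map_pow, h.hx, ← A.sig, ← pow_sub_eq_trc, A.rho, add_sub_cancel_left]
  · apply hinj
    have h1 : σ (xb p (n + 1) σ) = xb p (n + 1) σ := nrm_inv S.pow X
    have h2 : σ Y₀ = Y₀ + sub s W := by rw [← A.sig, add_sub_cancel]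
    simp only [map_sub, map_mul, map_pow]
    rw [hc, ← A.art, h.hx]
    simp only [map_sub, map_mul, map_pow]
    rw [h1, h2, add_pow_char]
    ring

/-- a solution of `σ Y - Y = Δ J W` with the right reduction -/
theorem St1_first (S : Sp p (n + 1) m α ζ σ) (h : Desc p n σ σ' s) (S' : Sp p n m α (ζ ^ p) σ')
    {π : D →ₐ[k] k} {σD : En D} {x sD : D⟦X⟧} (L : Lev p n α ζ σ σ' s π σD x sD)
    {N : ℕ} {Y₀ W G : k⟦X⟧} (A : ASD p n α ζ σ s N Y₀ W G) {l : ℕ} {ξ : D} {Wf : D[X]}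
    {x' GF υ : D⟦X⟧} (B : WF p n l ξ σD x sD x' Wf GF υ) :
    trc σD (p ^ n) (sub sD (cst D W)) = x ^ N ∧
      ∃ Y, σD Y - Y = Polynomial.aeval x Wf ^ N * sub sD (cst D W) ∧
      PowerSeries.map (π : D →+* k) Y = xb p (n + 1) σ ^ (N * (l + 1)) * Y₀ := by
  have hp : p.Prime := Fact.out
  have hq : 0 < p ^ (n + 1) := pow_pos hp.pos _
  have : CharP D p := charP_of_injective_algebraMap (algebraMap k D).injective p
  have := St1_charP (R := D) p
  have hJ := St1_trc_comm σ' σD ((sub sD : D⟦X⟧ →+* D⟦X⟧).comp (cst D)) L.comm (p ^ n) W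
  simp only [RingHom.comp_apply, RingHom.coe_coe] at hJ
  obtain ⟨hJ1, hJ2⟩ := hJ
  rw [S'.pow] at hJ1
  have hJ1' : (σD ^ p ^ n) (sub sD (cst D W)) = sub sD (cst D W) := hJ1.symm
  rw [(St1_low S h A).1, map_pow, map_pow, L.hx] at hJ2
  refine ⟨hJ2.symm, ?_⟩
  have h0 : trc σD (p ^ (n + 1)) (sub sD (cst D W)) = 0 := by
    rw [pow_succ, St1_trc_mul σD hJ1', CharP.cast_eq_zero, zero_mul]
  have hm := St1_mem hq S.pow
  have hσ : ∀ a, ((σD : D⟦X⟧ →+* D⟦X⟧) ^ p ^ (n + 1)) a = a := by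
    intro a
    rw [St1_coe_pow, L.fam.rel.1]
    rfl
  have hΔ : σD (Polynomial.aeval x Wf ^ N) = Polynomial.aeval x Wf ^ N := by
    rw [map_pow, St1_aeval_fix σD L.fam.inv]
  obtain ⟨Θ, hΘ⟩ := exists_trace (σD : D⟦X⟧ →+* D⟦X⟧) (p ^ (n + 1)) hq hσ X (by
      intro i hi j hj hij
      rw [St1_coe_pow, St1_coe_pow] at hij
      have h1 := congrArg (PowerSeries.map (π : D →+* k)) hij
      rw [map_en_pow _ σD σ L.fam.red hm, map_en_pow _ σD σ L.fam.red hm, map_X] at h1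
      exact pow_X_inj hq S.ord i hi j hj h1) (Polynomial.aeval x Wf ^ N) hΔ (by
      have h1 : ∏ j ∈ Ico 1 (p ^ (n + 1)), (X - ((σD : D⟦X⟧ →+* D⟦X⟧) ^ j) X) ∣
          ∏ _j ∈ Ico 1 (p ^ (n + 1)), Polynomial.aeval x Wf := by
        refine Finset.prod_dvd_prod_of_dvd _ _ fun j hj => ?_
        rw [St1_coe_pow]
        exact B.dvd j (mem_Ico.1 hj).1 (mem_Ico.1 hj).2
      rw [Finset.prod_const, Nat.card_Ico] at h1
      exact h1.trans (pow_dvd_pow _ ((Nat.sub_le _ _).trans A.hN)))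
  obtain ⟨Y₁, hY₁⟩ := h90 (σD : D⟦X⟧ →+* D⟦X⟧) (p ^ (n + 1)) hσ Θ _ (sub sD (cst D W)) hΘ (by
    rw [← h0]
    exact Finset.sum_congr rfl fun i _ => St1_coe_pow σD i _)
  rw [RingHom.coe_coe] at hY₁
  have hox : order (PowerSeries.map (π : D →+* k) x) = ((p ^ (n + 1) : ℕ) : ℕ∞) := by
    rw [L.fam.redx]; exact S.order_xb
  have hos : order (PowerSeries.map (π : D →+* k) sD) = p := by
    rw [L.red]; exact h.order_s S
  have hxk : σ (xb p (n + 1) σ) = xb p (n + 1) σ := nrm_inv S.pow X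
  have hr := congrArg (PowerSeries.map (π : D →+* k)) hY₁
  rw [map_sub, map_en _ σD σ L.fam.red hm, map_mul, map_pow, St1_red_aeval π B.dist, B.deg,
    L.fam.redx, St1_red_sub π hp.pos hos, L.red, St1_red_cst, ← pow_mul, mul_comm (l + 1) N,
    ← A.sig] at hr
  obtain ⟨g, hg⟩ := qinv (RingHom.id k) Function.surjective_id (xb p (n + 1) σ) (p ^ (n + 1)) hq
    (by rw [map_id]; exact S.order_xb) σ hxk (pow_X_inj hq S.ord)
    (PowerSeries.map (π : D →+* k) Y₁ - xb p (n + 1) σ ^ (N * (l + 1)) * Y₀) (by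
      rw [map_sub, map_mul, map_pow, hxk]
      linear_combination hr)
  refine ⟨Y₁ - sub x (cst D g), ?_, ?_⟩
  · rw [map_sub, (L.fam.fix S _).2 ⟨_, rfl⟩, ← hY₁]
    ring
  · rw [map_sub, St1_red_sub π hq hox, L.fam.redx, St1_red_cst, hg]
    ring

/-- Let `J g = sub sD (cst g)`, `Δ = (aeval x Wf)^N`, `q = p^(n+1)`, `q' = p^n`.  From `ASD`,
`sub s (trc σ' q' W) = ρ Y₀ - Y₀ = x^N`, so `trc σD q' (J W) = x^N` and `trc σD q (J W) = p x^N = 0`.
`exists_trace` (as `N ≥ q - 1`) and `h90` give `Y₁` with `σD Y₁ - Y₁ = Δ J W`.  The reduction of `Δ` is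
`x^(N(l+1))`; `red Y₁ - x^(N(l+1)) Y₀` is `σ`-invariant, `= sub x g`; subtract `sub x (cst g)`.  Then
`Y₂^p - g(x)^(p-1) Y₂ - (aeval x Wf)^(pN) J G` is invariant with zero reduction, `= sub x Ψ`; subtract
`sub x V` with `V` from `nf_exists` for the distinguished polynomial `(X Wf)^N`. -/
theorem exists_nf (S : Sp p (n + 1) m α ζ σ) (h : Desc p n σ σ' s) (S' : Sp p n m α (ζ ^ p) σ')
    {π : D →ₐ[k] k} {σD : En D} {x sD : D⟦X⟧} (L : Lev p n α ζ σ σ' s π σD x sD)
    {N : ℕ} {Y₀ W G : k⟦X⟧} (A : ASD p n α ζ σ s N Y₀ W G) {l : ℕ} {ξ : D} {Wf : D[X]}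
    {x' GF υ : D⟦X⟧} (B : WF p n l ξ σD x sD x' Wf GF υ) :
    ∃ P₀ Y, NF p n N π σD x sD G Wf P₀ Y ∧
      σD Y - Y = Polynomial.aeval x Wf ^ N * sub sD (cst D W) ∧
      PowerSeries.map (π : D →+* k) Y = xb p (n + 1) σ ^ (N * (l + 1)) * Y₀ := by
  have hp : p.Prime := Fact.out
  have hq : 0 < p ^ (n + 1) := pow_pos hp.pos _
  have : CharP D p := charP_of_injective_algebraMap (algebraMap k D).injective p
  have := St1_charP (R := D) p
  obtain ⟨htr, Y, hY, hr⟩ := St1_first S h S' L A B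
  obtain ⟨p', hp'⟩ : ∃ p', p = p' + 1 := ⟨p - 1, (Nat.sub_add_cancel hp.pos).symm⟩
  have hp1 : p - 1 = p' := by omega
  have hm := St1_mem hq S.pow
  have hox : order (PowerSeries.map (π : D →+* k) x) = ((p ^ (n + 1) : ℕ) : ℕ∞) := by
    rw [L.fam.redx]; exact S.order_xb
  have hos : order (PowerSeries.map (π : D →+* k) sD) = p := by
    rw [L.red]; exact h.order_s S
  have hxm := Qb_mem (π : D →+* k) (St1_surj π) x _ hq hox
  have hw : σD (Polynomial.aeval x Wf) = Polynomial.aeval x Wf := St1_aeval_fix σD L.fam.inv Wf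
  have hrw : PowerSeries.map (π : D →+* k) (Polynomial.aeval x Wf) = xb p (n + 1) σ ^ (l + 1) := by
    rw [St1_red_aeval π B.dist, B.deg, L.fam.redx]
  have he : Polynomial.aeval x ((Polynomial.X * Wf) ^ N) = (x * Polynomial.aeval x Wf) ^ N := by
    rw [map_pow, map_mul, Polynomial.aeval_X]
  have hG : σD (sub sD (cst D G)) = sub sD (cst D G) +
      (sub sD (cst D W) ^ p - (x ^ N) ^ (p - 1) * sub sD (cst D W)) := by
    have h1 := congrArg (fun g => sub sD (cst D g)) (St1_low S h A).2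
    simp only [map_sub, map_mul, map_pow] at h1
    rw [L.comm, L.hx] at h1
    rw [← h1, add_sub_cancel]
  have hY' : σD Y = Y + Polynomial.aeval x Wf ^ N * sub sD (cst D W) := by
    rw [← hY, add_sub_cancel]
  generalize hwd : Polynomial.aeval x Wf = w at hw hrw he hY hY'
  obtain ⟨Ψ, hΨ⟩ := (L.fam.fix S (Y ^ p - ((x * w) ^ N) ^ (p - 1) * Y -
      w ^ (p * N) * sub sD (cst D G))).1 (by
    simp only [map_sub, map_mul, map_pow]
    rw [hY', hG, hw, L.fam.inv, add_pow_char, hp1, mul_pow (w ^ N), ← pow_mul w N p,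
      mul_comm N p]
    have h1 : w ^ (p * N) = (w ^ N) ^ p' * w ^ N := by
      rw [← pow_succ, ← pow_mul, ← hp', mul_comm]
    rw [h1, mul_pow, mul_pow]
    ring)
  have hΨ0 : PowerSeries.map (π : D →+* k) Ψ = 0 := by
    apply St1_sub_inj hq S.order_xb
    rw [map_zero, ← L.fam.redx, ← St1_red_sub π hq hox, hΨ]
    simp only [map_sub, map_mul, map_pow]
    rw [hr, hrw, L.fam.redx, St1_red_sub π hp.pos hos, L.red, St1_red_cst, ← A.art, hp1]
    generalize xb p (n + 1) σ = z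
    have h1 : z ^ (N * (l + 1)) = (z ^ (l + 1)) ^ N := by rw [← pow_mul, mul_comm]
    have h2 : (z ^ (l + 1)) ^ (p * N) = ((z ^ (l + 1)) ^ N) ^ p := by
      rw [← pow_mul _ N, mul_comm N]
    rw [h1, h2, mul_pow z]
    generalize (z ^ (l + 1)) ^ N = u
    generalize z ^ N = v
    rw [mul_pow, mul_pow, hp', pow_succ u]
    ring
  obtain ⟨V, P, hV, hP, hdeg, hVP⟩ := nf_exists p (π : D →+* k) (St1_surj π)
    ((Polynomial.X * Wf) ^ N)
    (St1_dist_pow ((St1_dist_X _).mul B.dist) N (hq.trans_le A.hN)) Ψ hΨ0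
  have hfix : σD (sub x V) = sub x V := (L.fam.fix S _).2 ⟨_, rfl⟩
  refine ⟨P, Y - sub x V, ⟨?_, ?_, hdeg, hP⟩, ?_, ?_⟩
  · have h1 := pow_sub_eq_trc σD (p ^ n) Y
    rw [hY, St1_trc_smul σD (by rw [map_pow, hw]), htr] at h1
    rw [map_sub, St1_pow_fix σD hfix, he, mul_pow]
    linear_combination h1
  · have h1 := congrArg (sub x) hVP
    rw [hΨ, map_add, map_sub, map_mul, map_pow, map_pow, sub_coe hxm, sub_coe hxm, he] at h1
    rw [he, hwd, sub_pow_char]
    linear_combination h1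
  · rw [map_sub, hfix, ← hY]
    ring
  · rw [map_sub, St1_red_sub π hq hox, hV, map_zero, sub_zero, hr]

end Pool.Agent.MP_deef5c_ag.O

end

section

/-! Equivariance of the normal form. -/

open PowerSeries IsLocalRing Finset Function
open scoped Polynomial

namespace Pool.Agent.MP_deef5c_ag.O

universe u

variable {k : Type u} [Field k] {p n m α : ℕ} [Fact p.Prime] [CharP k p] {ζ : k} {σ σ' : En k}
  {s : k⟦X⟧}

variable {D : Type u} [CommRing D] [IsDomain D] [IsLocalRing D] [CL D] [Algebra k D]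

theorem St2_trc {A B : Type u} [CommRing A] [CommRing B] (J : A⟦X⟧ →+* B⟦X⟧) (φ : En A)
    (ψ : En B) (h : ∀ g, J (φ g) = ψ (J g)) (a : ℕ) (g : A⟦X⟧) :
    J (trc φ a g) = trc ψ a (J g) := by
  have h' : ∀ (i : ℕ) g, J ((φ ^ i) g) = (ψ ^ i) (J g) := by
    intro i
    induction i with
    | zero => intro g; simp
    | succ i ih => intro g; rw [pow_succ', pow_succ', AlgHom.mul_apply, AlgHom.mul_apply, h, ih]
  unfold trc
  rw [map_sum]
  exact Finset.sum_congr rfl fun i _ => h' i g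

theorem St2_fix {B : Type u} [CommRing B] {ψ : En B} {f : B⟦X⟧} (h : ψ f = f) (i : ℕ) :
    (ψ ^ i) f = f := by
  induction i with
  | zero => simp
  | succ i ih => rw [pow_succ', AlgHom.mul_apply, ih, h]

theorem St2_trc_mul {B : Type u} [CommRing B] {ψ : En B} {f : B⟦X⟧} (h : ψ f = f) (a : ℕ)
    (g : B⟦X⟧) : trc ψ a (f * g) = f * trc ψ a g := by
  unfold trc
  rw [Finset.mul_sum]
  exact Finset.sum_congr rfl fun i _ => by rw [map_mul, St2_fix h]

theorem St2_enC {B : Type u} [CommRing B] (ψ : En B) (a : B) : ψ (C a) = C a := ψ.commutes a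

theorem St2_aeval {B : Type u} [CommRing B] {ψ : En B} {x : B⟦X⟧} {ξ : B} (h : ψ x = C ξ * x)
    (P : B[X]) : ψ (Polynomial.aeval x P) =
      Polynomial.aeval x (P.comp (Polynomial.C ξ * Polynomial.X)) := by
  rw [← Polynomial.aeval_algHom_apply, h, Polynomial.aeval_comp, map_mul, Polynomial.aeval_C,
    Polynomial.aeval_X]
  rfl

theorem St2_dist {B : Type u} [CommRing B] [Nontrivial B] {I : Ideal B} {Wf : B[X]}
    (h : Wf.IsDistinguishedAt I) (N : ℕ) : ((Polynomial.X * Wf) ^ N).IsDistinguishedAt I := by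
  have hX : (Polynomial.X : B[X]).IsDistinguishedAt I :=
    ⟨⟨fun {n} hn => by
      rw [Polynomial.natDegree_X, Nat.lt_one_iff] at hn
      rw [hn, Polynomial.coeff_X_zero]; exact I.zero_mem⟩, Polynomial.monic_X⟩
  induction N with
  | zero =>
    rw [pow_zero]
    exact ⟨⟨fun {n} hn => by simp at hn⟩, Polynomial.monic_one⟩
  | succ N ih => rw [pow_succ]; exact ih.mul (hX.mul h)

theorem St2_natC (B : Type u) [CommRing B] [CharP B p] (a : ℕ) :
    (C (a : B) : B⟦X⟧) ^ p = C (a : B) := by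
  rw [← map_pow, ← frobenius_def, map_natCast]

theorem St2_art {R : Type u} [CommRing R] (a y g : R) :
    (a * y) ^ p - (a * g) ^ (p - 1) * (a * y) = a ^ p * (y ^ p - g ^ (p - 1) * y) := by
  obtain ⟨q, hq⟩ : ∃ q, p = q + 1 := ⟨p - 1, by have := (Fact.out : p.Prime).pos; omega⟩
  rw [hq, Nat.add_sub_cancel]
  ring

theorem St2_taux (S : Sp p (n + 1) m α ζ σ) :
    tau ζ (xb p (n + 1) σ) = C (ζ ^ p ^ (n + 1)) * xb p (n + 1) σ :=
  tau_nrm ⟨S.pow, S.rel⟩ (S.cop _)

theorem St2_inj (S : Sp p (n + 1) m α ζ σ) (h : Desc p n σ σ' s) : Injective (sub s) :=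
  sub_injective (RingHom.id k) surjective_id s p (Fact.out : p.Prime).pos
    (by rw [map_id]; exact h.order_s S)

theorem St2_W (S : Sp p (n + 1) m α ζ σ) (h : Desc p n σ σ' s) {N : ℕ} {Y₀ W G : k⟦X⟧}
    (A : ASD p n α ζ σ s N Y₀ W G) :
    C (α : k) * tau (ζ ^ p) W = C ((ζ ^ p ^ (n + 1)) ^ N) * trc σ' α W := by
  apply St2_inj S h
  have e1 : sub s (tau (ζ ^ p) W) = tau ζ (sub s W) := by
    rw [← AlgHom.mul_apply, ← h.tau_s S, AlgHom.mul_apply]
  have e2 : sub s (trc σ' α W) = trc σ α (sub s W) :=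
    St2_trc (sub s : k⟦X⟧ →+* k⟦X⟧) σ' σ (fun g => by
      change sub s (σ' g) = σ (sub s g)
      rw [← AlgHom.mul_apply, h.comm, AlgHom.mul_apply]) α W
  have e3 : tau ζ (σ Y₀) = (σ ^ α) (tau ζ Y₀) := by
    rw [← AlgHom.mul_apply, S.rel, AlgHom.mul_apply]
  have e4 := congrArg (σ ^ α) A.eig
  rw [map_mul, map_mul, St2_enC, St2_enC] at e4
  rw [map_mul, map_mul, St2_enC, St2_enC, e1, e2, ← A.sig, ← pow_sub_eq_trc, map_sub, e3, mul_sub,
    e4, A.eig, mul_sub]

theorem St2_G (S : Sp p (n + 1) m α ζ σ) (h : Desc p n σ σ' s) {N : ℕ} {Y₀ W G : k⟦X⟧}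
    (A : ASD p n α ζ σ s N Y₀ W G) :
    C (α : k) * tau (ζ ^ p) G = C ((ζ ^ p ^ (n + 1)) ^ N) ^ p * G := by
  apply St2_inj S h
  have e1 : sub s (tau (ζ ^ p) G) = tau ζ (sub s G) := by
    rw [← AlgHom.mul_apply, ← h.tau_s S, AlgHom.mul_apply]
  have e2 : (C (α : k) * tau ζ Y₀) ^ p = C (α : k) * tau ζ Y₀ ^ p := by
    rw [mul_pow, St2_natC]
  rw [map_mul, map_mul, map_pow (sub s), St2_enC, St2_enC, e1, ← A.art, ← St2_art, ← A.eig, e2,
    map_sub, map_mul, map_pow (tau ζ), map_pow (tau ζ), map_pow (tau ζ), St2_taux S,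
    map_pow C _ N]
  ring

/-- Let `E = N (l + 2)`, `τ = tau ζ`, `δ = α τ Y - ξ^E Y`.  Its reduction is zero (`ASD.eig`).  With
`α α' ≡ 1 mod p^(n+1)`, `σ τ = τ σ^α'`, `σD^α' Y - Y = Δ J (trc σ' α' W)` and
`α τ' (trc σ' α' W) = ξ^N W` (apply the injective `sub s`), so `δ` is `σD`-invariant, `δ = sub x V₁`.
Also `α τ' G = ξ^(pN) G`, so `δ^p - (ξ^E g(x))^(p-1) δ = α P₀(ξ x) - ξ^(pE) P₀(x)`; apply `nf_unique` to
`ξ^(-E) V₁`. -/
theorem nf_eqv (S : Sp p (n + 1) m α ζ σ) (h : Desc p n σ σ' s) (S' : Sp p n m α (ζ ^ p) σ')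
    {π : D →ₐ[k] k} {σD : En D} {x sD : D⟦X⟧} (L : Lev p n α ζ σ σ' s π σD x sD)
    {N : ℕ} {Y₀ W G : k⟦X⟧} (A : ASD p n α ζ σ s N Y₀ W G) {l : ℕ} {Wf : D[X]}
    {x' GF υ : D⟦X⟧} (B : WF p n l (algebraMap k D (ζ ^ p ^ (n + 1))) σD x sD x' Wf GF υ)
    {P₀ : D[X]} {Y : D⟦X⟧} (H : NF p n N π σD x sD G Wf P₀ Y)
    (h1 : σD Y - Y = Polynomial.aeval x Wf ^ N * sub sD (cst D W))
    (h2 : PowerSeries.map (π : D →+* k) Y = xb p (n + 1) σ ^ (N * (l + 1)) * Y₀) :
    Polynomial.C (α : D) *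
        P₀.comp (Polynomial.C (algebraMap k D (ζ ^ p ^ (n + 1))) * Polynomial.X) =
      Polynomial.C (algebraMap k D (ζ ^ p ^ (n + 1)) ^
        (p * ((Polynomial.X * Wf) ^ N).natDegree)) * P₀ := by
  classical
  have hπ : Surjective (π : D →+* k) := fun c => ⟨algebraMap k D c, π.commutes c⟩
  have : CharP D p := charP_of_injective_algebraMap (algebraMap k D).injective p
  have : CharP D⟦X⟧ p := charP_of_injective_ringHom (C_injective (R := D)) p
  have F := L.fam
  set ξ₀ : k := ζ ^ p ^ (n + 1) with hξ₀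
  set ξ : D := algebraMap k D ξ₀ with hξ
  set τ : En D := tau (algebraMap k D ζ) with hτ
  set g : D[X] := (Polynomial.X * Wf) ^ N with hg
  have hgd : g.IsDistinguishedAt (maximalIdeal D) := St2_dist B.dist N
  have hE : g.natDegree = N * (l + 2) := by
    rw [hg, (Polynomial.monic_X.mul B.dist.monic).natDegree_pow,
      Polynomial.monic_X.natDegree_mul B.dist.monic, Polynomial.natDegree_X, B.deg]
    ring
  have hq : 0 < p ^ (n + 1) := pow_pos (Fact.out : p.Prime).pos _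
  have hox : order (PowerSeries.map (π : D →+* k) x) = ((p ^ (n + 1) : ℕ) : ℕ∞) := by
    rw [F.redx]; exact S.order_xb
  have hxm : constantCoeff x ∈ maximalIdeal D := Qb_mem _ hπ x _ hq hox
  have hπξ : (π : D →+* k) ξ = ξ₀ := π.commutes _
  have cC : ∀ c : k, cst D (C c) = C (algebraMap k D c) := fun c => map_C _ _
  let J : k⟦X⟧ →+* D⟦X⟧ := (sub sD : D⟦X⟧ →+* D⟦X⟧).comp (cst D)
  have hJ : ∀ f, sub sD (cst D f) = J f := fun _ => rfl
  have JC : ∀ c : k, J (C c) = C (algebraMap k D c) := fun c => by rw [← hJ, cC, St2_enC]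
  have tW : τ (Polynomial.aeval x Wf) = C ξ ^ (l + 1) * Polynomial.aeval x Wf := by
    rw [St2_aeval F.eig, B.eqv, map_mul, Polynomial.aeval_C, map_pow]
    rfl
  have gx : Polynomial.aeval x g = (x * Polynomial.aeval x Wf) ^ N := by
    rw [hg, map_pow, map_mul, Polynomial.aeval_X]
  have tg : τ (Polynomial.aeval x g) = C ξ ^ (N * (l + 2)) * Polynomial.aeval x g := by
    rw [gx, map_pow, map_mul, tW, F.eig]
    ring
  have sW : σD (Polynomial.aeval x Wf ^ N) = Polynomial.aeval x Wf ^ N := by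
    rw [map_pow, ← Polynomial.aeval_algHom_apply, F.inv]
  have jW := congrArg J (St2_W S h A)
  have jG := congrArg J (St2_G S h A)
  rw [map_mul, map_mul, JC, JC, map_natCast (algebraMap k D), map_pow (algebraMap k D),
    St2_trc J σ' σD L.comm, ← hJ (tau _ W), L.tcomm, hJ, map_pow C] at jW
  rw [map_mul, map_mul, map_pow J, JC, JC, map_natCast (algebraMap k D), map_pow (algebraMap k D),
    ← hJ (tau _ G), L.tcomm, hJ, map_pow C] at jG
  rw [← hξ₀, ← hξ, ← hτ] at jW jG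
  set δ : D⟦X⟧ := C (α : D) * τ Y - C ξ ^ (N * (l + 2)) * Y with hδ
  have d1 : (σD ^ α) δ = δ := by
    have e1 : (σD ^ α) (τ Y) = τ (σD Y) := by
      rw [← AlgHom.mul_apply, ← F.rel.2, AlgHom.mul_apply]
    have e2 : σD Y = Y + Polynomial.aeval x Wf ^ N * J W := by rw [← hJ, ← h1]; ring
    have e3 : (σD ^ α) Y = Y + Polynomial.aeval x Wf ^ N * trc σD α (J W) := by
      rw [← St2_trc_mul sW, ← hJ, ← h1, ← pow_sub_eq_trc]; ring
    rw [hδ, map_sub, map_mul, map_mul, map_pow (σD ^ α), St2_enC, St2_enC, e1, e2, e3, map_add,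
      map_mul, map_pow, tW]
    linear_combination (C ξ ^ (l + 1) * Polynomial.aeval x Wf) ^ N * jW
  have d2 : σD δ = δ := by
    obtain ⟨m', hm'⟩ : ∃ m', m = m' + 1 := ⟨m - 1, by have := S.mpos; omega⟩
    have e1 : (σD ^ α ^ m) δ = δ := by
      rw [hm', pow_succ', pow_mul]; exact St2_fix d1 _
    have e2 : σD ^ α ^ m = σD ^ 1 := pow_eq_pow_of_modEq S.apow F.rel.1
    rwa [e2, pow_one] at e1
  obtain ⟨V₁, hV₁⟩ := (F.fix S δ).1 d2
  have r1 : PowerSeries.map (π : D →+* k) δ = 0 := by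
    have e1 : (π : D →+* k) (algebraMap k D ζ) = ζ := π.commutes _
    rw [hδ, map_sub, map_mul, map_mul, map_pow, map_C, map_C, hπξ, map_natCast (π : D →+* k), hτ,
      map_tau, e1, h2, map_mul, map_pow, St2_taux S]
    have e2 := A.eig
    rw [map_pow C] at e2
    rw [← hξ₀] at e2 ⊢
    linear_combination (C ξ₀ * xb p (n + 1) σ) ^ (N * (l + 1)) * e2
  have r2 : PowerSeries.map (π : D →+* k) V₁ = 0 := by
    have hx0 : constantCoeff (xb p (n + 1) σ) ∈ maximalIdeal k := by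
      rw [Lau_cc hq S.order_xb]; exact zero_mem _
    have e1 := map_en (π : D →+* k) (sub x) (sub (xb p (n + 1) σ))
      (by rw [sub_X hxm, sub_X hx0, F.redx]) (by rw [sub_X hx0]; exact hx0) V₁
    rw [hV₁, r1] at e1
    refine sub_injective (RingHom.id k) surjective_id (xb p (n + 1) σ) _ hq
      (by rw [map_id]; exact S.order_xb) ?_
    rw [← e1, map_zero]
  have hξ0 : ξ₀ ≠ 0 := pow_ne_zero _ (S.prim.ne_zero S.mpos.ne')
  set η : D := algebraMap k D (ξ₀ ^ (N * (l + 2)))⁻¹ with hη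
  have hηξ : (C η : D⟦X⟧) * C ξ ^ (N * (l + 2)) = 1 := by
    rw [← map_pow, ← map_mul, hη, hξ, ← map_pow, ← map_mul, inv_mul_cancel₀ (pow_ne_zero _ hξ0),
      map_one, map_one]
  have hη0 : η ≠ 0 := by
    rintro e
    rw [e, map_zero, zero_mul] at hηξ
    exact zero_ne_one hηξ
  set Q : D[X] := Polynomial.C (α : D) * P₀.comp (Polynomial.C ξ * Polynomial.X) -
    Polynomial.C (ξ ^ (p * g.natDegree)) * P₀ with hQ
  have a1 : δ ^ p - (C ξ ^ (N * (l + 2)) * Polynomial.aeval x g) ^ (p - 1) * δ =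
      Polynomial.aeval x Q := by
    have e1 := congrArg τ H.art
    rw [← hg, map_sub, map_mul, map_pow τ, map_pow τ, map_add, map_mul, map_pow τ, tW, tg, hJ,
      St2_aeval F.eig] at e1
    have e2 := St2_art (p := p) (C ξ ^ (N * (l + 2))) Y (Polynomial.aeval x g)
    rw [H.art, hJ] at e2
    have e3 : δ ^ p = C (α : D) * τ Y ^ p - (C ξ ^ (N * (l + 2)) * Y) ^ p := by
      rw [hδ, sub_pow_char, mul_pow, St2_natC]
    have e4 : ∀ a : D, Polynomial.aeval x (Polynomial.C a) = C a := fun a => Polynomial.aeval_C _ _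
    rw [e3, hQ, map_sub, map_mul, map_mul, e4, e4, hE, map_pow C, hδ]
    linear_combination C (α : D) * e1 - e2 +
      (C ξ ^ (l + 1) * Polynomial.aeval x Wf) ^ (p * N) * jG
  have a2 : (C η * V₁) ^ p - (g : D⟦X⟧) ^ (p - 1) * (C η * V₁) =
      ((Polynomial.C (η ^ p) * Q : D[X]) : D⟦X⟧) := by
    apply sub_injective _ hπ x _ hq hox
    have e4 : Polynomial.aeval x (Polynomial.C (η ^ p)) = C η ^ p := by
      rw [← map_pow C]; exact Polynomial.aeval_C _ _
    rw [sub_coe hxm, map_sub, map_mul, map_pow (sub x), map_pow (sub x), map_mul, St2_enC, hV₁,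
      sub_coe hxm, map_mul, e4, ← a1, ← St2_art, ← mul_assoc (C η) _ (Polynomial.aeval x g), hηξ,
      one_mul]
  have a3 : (Polynomial.C (η ^ p) * Q).degree < (((p - 1) * g.natDegree : ℕ) : WithBot ℕ) := by
    rw [Polynomial.degree_lt_iff_coeff_zero]
    intro j hj
    have e1 := (Polynomial.degree_lt_iff_coeff_zero _ _).1 H.deg j hj
    rw [hQ, Polynomial.coeff_C_mul, Polynomial.coeff_sub, Polynomial.coeff_C_mul,
      Polynomial.coeff_C_mul, Polynomial.comp_C_mul_X_coeff, e1]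
    ring
  have a4 := nf_unique p _ hπ g hgd (C η * V₁) _ (by rw [map_mul, r2, mul_zero]) a3 a2
  rw [a4, zero_pow (Fact.out : p.Prime).ne_zero, mul_zero, sub_zero, eq_comm,
    Polynomial.coe_eq_zero_iff, mul_eq_zero, Polynomial.C_eq_zero] at a2
  rcases a2 with a2 | a2
  · exact absurd a2 (pow_ne_zero _ hη0)
  · exact sub_eq_zero.1 a2

end Pool.Agent.MP_deef5c_ag.O

end

section

/-! Local expansion of principal parts. -/

open PowerSeries IsLocalRing Finset Function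
open scoped Polynomial

namespace Pool.Agent.MP_deef5c_ag.O

universe u

theorem PolL_div {ι L : Type*} [Field L] [DecidableEq ι] (p : ℕ) (Z : Finset ι) (e : ι → ℕ)
    (t : ι → L) (ht : ∀ b, t b ≠ 0) (a : ι → ℕ → L) :
    (∑ b ∈ Z, (∑ j ∈ Icc 1 (p * e b), a b j * t b ^ (p * e b - j)) *
      ∏ b' ∈ Z.erase b, t b' ^ (p * e b')) / (∏ b ∈ Z, t b ^ e b) ^ p =
      ∑ b ∈ Z, ∑ j ∈ Icc 1 (p * e b), a b j * (t b)⁻¹ ^ j := by
  rw [sum_div]
  refine sum_congr rfl fun b hb => ?_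
  have h1 : (∏ b ∈ Z, t b ^ e b) ^ p = t b ^ (p * e b) * ∏ b' ∈ Z.erase b, t b' ^ (p * e b') := by
    rw [mul_prod_erase Z (fun b' => t b' ^ (p * e b')) hb, ← prod_pow]
    exact prod_congr rfl fun b' _ => by rw [← pow_mul, mul_comm]
  rw [h1, mul_div_mul_right _ _ (prod_ne_zero_iff.mpr fun b' _ => pow_ne_zero _ (ht b')), sum_div]
  refine sum_congr rfl fun j hj => ?_
  rw [pow_sub₀ _ (ht b) (mem_Icc.mp hj).2, inv_pow]
  have := ht b
  field_simp

theorem PolL_cc {Ω : Type u} [Field Ω] (xb : Ω⟦X⟧) (W : Polynomial Ω) :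
    constantCoeff (Polynomial.aeval xb W) = W.eval (constantCoeff xb) := by
  induction W using Polynomial.induction_on' with
  | add a b ha hb => simp [ha, hb]
  | monomial n a => simp [Polynomial.aeval_monomial]

theorem PolL_C {Ω : Type u} [Field Ω] (a : Ω) :
    algebraMap Ω (LaurentSeries Ω) a = lc Ω (C a) := by
  rw [LaurentSeries.algebraMap_apply]
  exact (PowerSeries.coe_C a).symm

/-- divide the identity by `g(xb)^p`; the terms with `b' ≠ b` have unit denominators -/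
theorem pol_of (p : ℕ) [Fact p.Prime] {Ω : Type u} [Field Ω] [CharP Ω p] [DecidableEq Ω]
    (Z : Finset Ω) (e : Ω → ℕ) (g P Z₁ : Polynomial Ω)
    (hg : g = ∏ b ∈ Z, (Polynomial.X - Polynomial.C b) ^ e b) (c : Ω → ℕ → Ω)
    (h0 : ∀ b, c b 0 = 0) (hc : ∀ b j, c b j ≠ 0 → b ∈ Z ∧ j ≤ p * e b)
    (hP : P = polar p Z e c + Z₁ ^ p - Z₁ * g ^ (p - 1)) : Pol p g P c := by
  intro xb b d hd hx
  have hp : p ≠ 0 := (Fact.out : p.Prime).ne_zero
  have hb : constantCoeff xb = b := by simpa [sub_eq_zero] using Lau_cc hd hx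
  have hu : ∀ b', b' ≠ b → IsUnit (xb - C b') := fun b' h => by
    rw [isUnit_iff_constantCoeff, map_sub, hb, constantCoeff_C, isUnit_iff_ne_zero]
    exact sub_ne_zero.mpr h.symm
  have ht : ∀ b', lc Ω (xb - C b') ≠ 0 := fun b' => Lau_ne (by
    by_cases h : b' = b
    · intro h1
      rw [← h, h1, order_zero] at hx
      exact ENat.top_ne_natCast d hx
    · exact (hu b' h).ne_zero)
  have hv : ∀ b', b' ≠ b → vv Ω (lc Ω (xb - C b'))⁻¹ ≤ 1 := fun b' h => by
    obtain ⟨w, hw⟩ := (hu b' h).exists_right_inv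
    rw [← eq_inv_of_mul_eq_one_right (b := lc Ω w) (by rw [← map_mul, hw, map_one])]
    exact vv_lc_le w
  have hG : lc Ω (Polynomial.aeval xb g) = ∏ b' ∈ Z, lc Ω (xb - C b') ^ e b' := by
    simp only [hg, map_prod, map_pow, map_sub, Polynomial.aeval_X, Polynomial.aeval_C,
      ← C_eq_algebraMap]
  have hG0 : lc Ω (Polynomial.aeval xb g) ≠ 0 := by
    rw [hG]
    exact prod_ne_zero_iff.mpr fun b' _ => pow_ne_zero _ (ht b')
  have hpol : lc Ω (Polynomial.aeval xb (polar p Z e c)) / lc Ω (Polynomial.aeval xb g) ^ p =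
      ∑ b' ∈ Z, ∑ j ∈ Icc 1 (p * e b'), lc Ω (C (c b' j)) * (lc Ω (xb - C b'))⁻¹ ^ j := by
    rw [← PolL_div p Z e _ ht, hG]
    simp only [polar, map_sum, map_mul, map_prod, map_pow, map_sub, Polynomial.aeval_X,
      Polynomial.aeval_C, ← C_eq_algebraMap]
  refine ⟨∑ j ∈ Icc 1 (p * e b), Polynomial.monomial j (c b j),
    ∑ b' ∈ Z.erase b, ∑ j ∈ Icc 1 (p * e b'), lc Ω (C (c b' j)) * (lc Ω (xb - C b'))⁻¹ ^ j,
    lc Ω (Polynomial.aeval xb Z₁) / lc Ω (Polynomial.aeval xb g), fun j => ?_, ?_, ?_⟩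
  · simp only [Polynomial.finsetSum_coeff, Polynomial.coeff_monomial, sum_ite_eq']
    split_ifs with h
    · rfl
    · by_contra h1
      refine h (mem_Icc.mpr ⟨Nat.pos_of_ne_zero ?_, (hc b j (Ne.symm h1)).2⟩)
      rintro rfl
      exact h1 (h0 b).symm
  · refine Valuation.map_sum_le _ fun b' hb' => Valuation.map_sum_le _ fun j _ => ?_
    rw [map_mul, map_pow]
    exact mul_le_one' (vv_lc_le _) (pow_le_one' (hv b' (mem_erase.mp hb').1) j)
  · have h1 : Polynomial.aeval (lc Ω (xb - C b))⁻¹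
        (∑ j ∈ Icc 1 (p * e b), Polynomial.monomial j (c b j)) =
        ∑ j ∈ Icc 1 (p * e b), lc Ω (C (c b j)) * (lc Ω (xb - C b))⁻¹ ^ j := by
      simp only [map_sum, Polynomial.aeval_monomial, PolL_C]
    have h2 : ∑ b' ∈ Z, ∑ j ∈ Icc 1 (p * e b'), lc Ω (C (c b' j)) * (lc Ω (xb - C b'))⁻¹ ^ j =
        ∑ j ∈ Icc 1 (p * e b), lc Ω (C (c b j)) * (lc Ω (xb - C b))⁻¹ ^ j + ∑ b' ∈ Z.erase b,
          ∑ j ∈ Icc 1 (p * e b'), lc Ω (C (c b' j)) * (lc Ω (xb - C b'))⁻¹ ^ j := by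
      by_cases h : b ∈ Z
      · exact (add_sum_erase Z _ h).symm
      · rw [erase_eq_of_notMem h, sum_eq_zero (s := Icc 1 (p * e b)), zero_add]
        intro j _
        have : c b j = 0 := by
          by_contra h3
          exact h (hc b j h3).1
        rw [this, map_zero, map_zero, zero_mul]
    rw [h1, ← h2, ← hpol, hP]
    simp only [map_sub, map_add, map_mul, map_pow]
    rw [pow_sub₀ _ hG0 (Nat.pos_of_ne_zero hp), div_pow]
    field_simp
    ring

/-- `W = (X - b)^μ W₁` with `W₁(b) ≠ 0` -/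
theorem order_aeval {Ω : Type u} [Field Ω] (W : Polynomial Ω) (hW : W ≠ 0) (xb : Ω⟦X⟧) (b : Ω)
    (d : ℕ) (hd : 0 < d) (hx : order (xb - C b) = d) :
    order (Polynomial.aeval xb W) = ((d * W.rootMultiplicity b : ℕ) : ℕ∞) := by
  have hb : constantCoeff xb = b := by simpa [sub_eq_zero] using Lau_cc hd hx
  obtain ⟨W₁, h1, h2⟩ := Polynomial.exists_eq_pow_rootMultiplicity_mul_and_not_dvd W hW b
  have h3 : order (Polynomial.aeval xb W₁) = (0 : ℕ) := by
    refine order_eq_nat.mpr ⟨?_, fun i hi => absurd hi (Nat.not_lt_zero i)⟩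
    rw [coeff_zero_eq_constantCoeff_apply, PolL_cc, hb]
    exact fun h => h2 (Polynomial.dvd_iff_isRoot.mpr h)
  conv_lhs => rw [h1]
  rw [map_mul, map_pow, map_sub, Polynomial.aeval_X, Polynomial.aeval_C, ← C_eq_algebraMap,
    order_mul, order_pow, hx, h3]
  simp [mul_comm]

end Pool.Agent.MP_deef5c_ag.O

end

section

/-! Ramification at a point of the generic fibre. -/

open PowerSeries IsLocalRing Finset Function
open scoped Polynomial

namespace Pool.Agent.MP_deef5c_ag.O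

universe u

open WithZero

variable {k : Type u} [Field k] {p n m α : ℕ} [Fact p.Prime] [CharP k p] {ζ : k} {σ σ' : En k}
  {s : k⟦X⟧}

variable {D : Type u} [CommRing D] [IsDomain D] [IsLocalRing D] [CL D] [Algebra k D]

variable {Ω : Type u} [Field Ω] [IsAlgClosed Ω] [Algebra k Ω]

/-- Put `xb = ev (cst x')`.  First part: apply `ev` to `WF.hW` (`ev υ` is a unit,
`ev (aeval (cst x') Wf) = aeval xb (Wf.map ι)`) and use `order_aeval`.  Second part: take `r, h, u` from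
`Pol`; apply `lasc` with `A = B = D⟦X⟧`, `j = sub sD`, `ρ = σD^(p^n)` (`Fam.rho_fix`), `t = X`,
`e = aeval (cst x') ((X Wf)^N)`, `H = (aeval (cst x') Wf)^(pN) cst G + aeval (cst x') P₀`; here
`ev H / (ev e)^p = ev (cst G) / xb^(pN) + P₀(xb) / g(xb)^p`. -/
theorem gen_pt (S : Sp p (n + 1) m α ζ σ) (h : Desc p n σ σ' s) (S' : Sp p n m α (ζ ^ p) σ')
    {π : D →ₐ[k] k} {σD : En D} {x sD : D⟦X⟧} (L : Lev p n α ζ σ σ' s π σD x sD)
    {N l : ℕ} {G : k⟦X⟧} {ξ : D} {Wf P₀ : D[X]} {GF υ Y : D⟦X⟧}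
    (B : WF p n l ξ σD x sD (cst D (xb p n σ')) Wf GF υ) (H : NF p n N π σD x sD G Wf P₀ Y)
    (ι : D →ₐ[k] Ω) (c : Ω → ℕ → Ω)
    (hc : Pol p (((Polynomial.X * Wf) ^ N).map (ι : D →+* Ω)) (P₀.map (ι : D →+* Ω)) c)
    (ev : D⟦X⟧ →+* Ω⟦X⟧) (hev : Injective ev) (hC : ∀ a, ev (C a) = C (ι a)) (b : Ω) (d : ℕ)
    (hd : 0 < d) (hb : order (ev (cst D (xb p n σ')) - C b) = d) :
    ∃ μ : ℕ, d * (Wf.map (ι : D →+* Ω)).rootMultiplicity b = p ^ n * μ ∧
      ∃ (r : Polynomial Ω) (h₀ : LaurentSeries Ω), (∀ j, r.coeff j = c b j) ∧ vv Ω h₀ ≤ 1 ∧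
        ∀ (lam : ℕ) (u : LaurentSeries Ω), ¬ p ∣ lam →
          vv Ω (lc Ω (ev (cst D G)) / lc Ω (ev (cst D (xb p n σ'))) ^ (p * N) +
            Polynomial.aeval (lc Ω (ev (cst D (xb p n σ')) - C b))⁻¹ r + h₀ - (u ^ p - u)) =
            exp (lam : ℤ) → lam + 1 ≤ μ := by
  have hp : 0 < p := (Fact.out : p.Prime).pos
  have hΩ : CharP Ω p := charP_of_injective_algebraMap (algebraMap k Ω).injective p
  have hL : CharP (LaurentSeries Ω) p :=
    charP_of_injective_algebraMap (algebraMap Ω (LaurentSeries Ω)).injective p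
  have hD : CharP D⟦X⟧ p := charP_of_injective_algebraMap (algebraMap k D⟦X⟧).injective p
  have hπ : Surjective (π : D →+* k) := fun a => ⟨algebraMap k D a, π.commutes a⟩
  have hx0 : cst D (xb p n σ') ≠ 0 := by
    rw [map_ne_zero_iff _ (PowerSeries.map_injective _ (algebraMap k D).injective)]
    intro e
    have := S'.order_xb
    rw [e, order_zero] at this
    exact ENat.top_ne_natCast _ this
  have hx := L.hx
  have hW := B.hW
  generalize cst D (xb p n σ') = x' at hx0 hx hW hb ⊢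
  have hae : ∀ P : D[X], ev (Polynomial.aeval x' P) =
      Polynomial.aeval (ev x') (P.map (ι : D →+* Ω)) := fun P =>
    Polynomial.map_aeval_eq_aeval_map (RingHom.ext fun a => (hC a).symm) P x'
  have hje : ∀ P : D[X], sub sD (Polynomial.aeval x' P) = Polynomial.aeval x P := fun P => by
    rw [← Polynomial.aeval_algHom_apply, hx]
  have ho := order_aeval _ (B.dist.monic.map (ι : D →+* Ω)).ne_zero (ev x') b d hd hb
  have hW0 : Polynomial.aeval (ev x') (Wf.map (ι : D →+* Ω)) ≠ 0 := by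
    intro e
    rw [e, order_zero] at ho
    exact ENat.top_ne_natCast _ ho
  have hu0 : order (ev υ) = 0 := order_zero_of_unit (B.unit.map ev)
  have hG0 : ev GF ≠ 0 := by
    intro e
    apply hW0
    rw [← hae, hW, map_mul, map_pow, e, zero_pow (pow_pos hp n).ne', mul_zero]
  obtain ⟨μ, hμ⟩ := ENat.ne_top_iff_exists.1 (order_eq_top.not.2 hG0)
  rw [← hae, hW, map_mul, map_pow, order_mul, order_pow, hu0, zero_add, ← hμ, nsmul_eq_mul,
    ← Nat.cast_mul, Nat.cast_inj] at ho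
  obtain ⟨r, h₀, u₀, hr, hh, hP⟩ := hc (ev x') b d hd hb
  refine ⟨μ, ho.symm, r, h₀, hr, hh, fun lam u hl hu => ?_⟩
  have hρ : ∀ (i : ℕ) a, (((σD ^ p ^ n : En D) : D⟦X⟧ →+* D⟦X⟧) ^ i) a = ((σD ^ p ^ n) ^ i) a := by
    intro i a
    rw [RingHom.coe_pow, AlgHom.coe_pow]
    rfl
  have he : ev (Polynomial.aeval x' ((Polynomial.X * Wf) ^ N)) =
      (ev x' * Polynomial.aeval (ev x') (Wf.map (ι : D →+* Ω))) ^ N := by
    rw [map_pow, map_pow, map_mul, map_mul, Polynomial.aeval_X, hae]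
  have hx1 : ev x' ≠ 0 := (map_ne_zero_iff _ hev).2 hx0
  have key := lasc p (sub sD : D⟦X⟧ →+* D⟦X⟧)
    (sub_injective (π : D →+* k) hπ sD p hp (by rw [L.red, h.order_s S]))
    ((σD ^ p ^ n : En D) : D⟦X⟧ →+* D⟦X⟧)
    (fun a => by rw [hρ, ← pow_mul, ← pow_succ, L.fam.rel.1]; rfl)
    (fun a => L.fam.rho_fix S h L.red L.inv a) Y X
    (Polynomial.aeval x' ((Polynomial.X * Wf) ^ N))
    (Polynomial.aeval x' Wf ^ (p * N) * cst D G + Polynomial.aeval x' P₀) GF
    (fun e => by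
      rw [e, map_zero] at he
      exact pow_ne_zero N (mul_ne_zero hx1 hW0) he.symm)
    (by rw [RingHom.coe_coe, RingHom.coe_coe, hje]; exact H.rho)
    (by rw [RingHom.coe_coe, hje, map_add, map_mul, map_pow, hje, hje, H.art])
    (by simp only [hρ]; exact B.hG) ev hev lam hl (u + u₀) (by
      rw [← hu, map_add ev, map_add (lc Ω), add_div, hae P₀, hae ((Polynomial.X * Wf) ^ N), hP,
        ← hae, he, map_mul, map_pow, hae, add_pow_char]
      congr 1
      have h1 := Lau_ne hx1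
      have h2 := Lau_ne hW0
      simp only [map_mul, map_pow]
      generalize lc Ω (ev x') = a at h1 ⊢
      generalize lc Ω (Polynomial.aeval (ev x') (Wf.map (ι : D →+* Ω))) = w at h2 ⊢
      have e1 : w ^ (p * N) * lc Ω (ev (cst D G)) / ((a * w) ^ N) ^ p =
          lc Ω (ev (cst D G)) / a ^ (p * N) := by
        rw [← pow_mul, mul_comm N p, mul_pow]
        field_simp
      rw [e1]
      ring)
  rw [← hμ] at key
  exact_mod_cast key

end Pool.Agent.MP_deef5c_ag.O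

end

section

/-! Expansion of power series at a root of a distinguished polynomial. -/

open PowerSeries IsLocalRing Finset Function
open scoped Polynomial

namespace Pool.Agent.MP_deef5c_ag.O

universe u

variable {D k Ω : Type u} [CommRing D] [IsDomain D] [IsLocalRing D] [CL D] [Field k] [Field Ω]

omit [IsDomain D] in
theorem Pt_hom (ι : D →+* Ω) (W : D[X]) (hW : W.IsDistinguishedAt (maximalIdeal D)) (b : Ω)
    (hb : W.eval₂ ι b = 0) :
    ∃ ρ : D⟦X⟧ →+* Ω, (∀ a, ρ (C a) = ι a) ∧ ρ X = b := by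
  let l : (D[X] ⧸ Ideal.span {W}) →+* Ω :=
    Ideal.Quotient.lift _ (Polynomial.eval₂RingHom ι b) fun a ha => by
      obtain ⟨c, rfl⟩ := Ideal.mem_span_singleton'.1 ha
      rw [map_mul, Polynomial.coe_eval₂RingHom, hb, mul_zero]
  let e := hW.algEquivQuotient
  have he : ∀ p : D[X], e.symm (Ideal.Quotient.mk _ (p : D⟦X⟧)) = Ideal.Quotient.mk _ p := by
    intro p
    rw [AlgEquiv.symm_apply_eq]
    change _ = Ideal.Quotient.mk _ (Polynomial.coeToPowerSeries.algHom D p)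
    rw [Polynomial.coeToPowerSeries.algHom_apply, Algebra.algebraMap_self, PowerSeries.map_id]
    rfl
  have key : ∀ p : D[X], l (e.symm (Ideal.Quotient.mk _ (p : D⟦X⟧))) = p.eval₂ ι b := by
    intro p
    rw [he]
    rfl
  refine ⟨l.comp (e.symm.toRingEquiv.toRingHom.comp (Ideal.Quotient.mk _)), fun a => ?_, ?_⟩
  · have := key (Polynomial.C a)
    rw [Polynomial.coe_C, Polynomial.eval₂_C] at this
    exact this
  · have := key Polynomial.X
    rw [Polynomial.coe_X, Polynomial.eval₂_X] at this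
    exact this

/-- `D⟦X⟧ → D⟦X⟧ / W ≃ D[X] / W → Ω`, `X ↦ b` (`Polynomial.IsDistinguishedAt.algEquivQuotient`); take
`D'` the quotient of `D⟦X⟧` by the kernel, `CL.of_surj`, `exists_pi_quot` for `π ∘ constantCoeff`. -/
theorem adjoin_root (π : D →+* k) (hπ : Surjective π) (ι : D →+* Ω) (W : D[X])
    (hW : W.IsDistinguishedAt (maximalIdeal D)) (b : Ω) (hb : W.eval₂ ι b = 0) :
    ∃ (D' : Type u) (_ : CommRing D') (_ : IsDomain D') (_ : IsLocalRing D') (_ : CL D')
      (φ : D →+* D') (ι' : D' →+* Ω) (π' : D' →+* k) (b₀ : D'), Injective ι' ∧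
      (∀ a, ι' (φ a) = ι a) ∧ (∀ a, π' (φ a) = π a) ∧ π' b₀ = 0 ∧ ι' b₀ = b := by
  obtain ⟨ρ, hρC, hρX⟩ := Pt_hom ι W hW b hb
  have hp : (RingHom.ker ρ).IsPrime := RingHom.ker_isPrime ρ
  have hl : IsLocalRing (D⟦X⟧ ⧸ RingHom.ker ρ) := local_quot _ hp.ne_top
  have hc : CL (D⟦X⟧ ⧸ RingHom.ker ρ) :=
    CL.of_surj (Ideal.Quotient.mk (RingHom.ker ρ)) Ideal.Quotient.mk_surjective
  have hs : Surjective (π.comp (constantCoeff : D⟦X⟧ →+* D)) := fun z => by
    obtain ⟨a, rfl⟩ := hπ z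
    exact ⟨C a, by rw [RingHom.comp_apply, constantCoeff_C]⟩
  obtain ⟨π', -, hπ'⟩ := exists_pi_quot _ hs (RingHom.ker ρ) hp.ne_top
  refine ⟨D⟦X⟧ ⧸ RingHom.ker ρ, inferInstance, inferInstance, hl, hc,
    (Ideal.Quotient.mk (RingHom.ker ρ)).comp (C : D →+* D⟦X⟧), RingHom.kerLift ρ, π',
    Ideal.Quotient.mk _ X, RingHom.kerLift_injective ρ, fun a => ?_, fun a => ?_, ?_, ?_⟩
  · rw [RingHom.comp_apply, RingHom.kerLift_mk, hρC]
  · rw [RingHom.comp_apply, hπ', RingHom.comp_apply, constantCoeff_C]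
  · rw [hπ', RingHom.comp_apply, constantCoeff_X, map_zero]
  · rw [RingHom.kerLift_mk, hρX]

omit [CL D] [IsLocalRing D] [IsDomain D] in
/-- the shifted expansion over a ring which contains the centre -/
theorem Pt_shift {D' : Type u} [CommRing D'] [IsLocalRing D'] [CL D'] (ι : D →+* Ω)
    (hι : Injective ι) (φ : D →+* D') (ι' : D' →+* Ω) (hι' : Injective ι') (π' : D' →+* k)
    (hπ' : Surjective π') (b₀ : D') (h1 : ∀ a, ι' (φ a) = ι a) (h2 : π' b₀ = 0) :
    ∃ ev : D⟦X⟧ →+* Ω⟦X⟧, Injective ev ∧ (∀ a, ev (C a) = C (ι a)) ∧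
      ev X = C (ι' b₀) + X ∧ ∀ f, d⁄dX Ω (ev f) = ev (d⁄dX D f) := by
  have hm : constantCoeff (C b₀ + X : D'⟦X⟧) ∈ maximalIdeal D' := by
    rw [map_add, constantCoeff_C, constantCoeff_X, add_zero]
    exact (pi_eq_zero_iff π' hπ' _).1 h2
  have hX : sub (C b₀ + X : D'⟦X⟧) X = C b₀ + X := sub_X hm
  have ho : order (PowerSeries.map π' (C b₀ + X : D'⟦X⟧)) = (1 : ℕ) := by
    rw [map_add, map_C, h2, map_zero, zero_add, map_X, order_X, Nat.cast_one]
  have hφ : Injective φ := fun a a' h => hι (by rw [← h1, ← h1, h])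
  refine ⟨(PowerSeries.map ι').comp (((sub (C b₀ + X : D'⟦X⟧) : En D') : D'⟦X⟧ →+* D'⟦X⟧).comp
    (PowerSeries.map φ)), ?_, fun a => ?_, ?_, fun f => ?_⟩
  · exact (PowerSeries.map_injective ι' hι').comp
      ((sub_injective π' hπ' _ 1 one_pos ho).comp (PowerSeries.map_injective φ hφ))
  · change PowerSeries.map ι' (sub (C b₀ + X : D'⟦X⟧) (PowerSeries.map φ (C a))) = _
    rw [map_C, Base_en_C, map_C, h1]
  · change PowerSeries.map ι' (sub (C b₀ + X : D'⟦X⟧) (PowerSeries.map φ X)) = _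
    rw [map_X, hX, map_add, map_C, map_X]
  · change d⁄dX Ω (PowerSeries.map ι' (sub (C b₀ + X : D'⟦X⟧) (PowerSeries.map φ f))) =
      PowerSeries.map ι' (sub (C b₀ + X : D'⟦X⟧) (PowerSeries.map φ (d⁄dX D f)))
    rw [← map_der, der_en _ (by rw [hX]; exact hm), hX, map_add, derivative_C, derivative_X,
      zero_add, mul_one, map_der φ]

/-- Adjoin `b`, then a root `b'` of the Weierstrass polynomial of `g - b` (degree `d > 0`); over the
resulting `D''` put `ev = map ι'' ∘ sub (C b' + X) ∘ map φ`; the shift is invertible (`exists_inv`),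
`der_en`, `map_der`. -/
theorem exists_ev [IsAlgClosed Ω] (π : D →+* k) (hπ : Surjective π) (ι : D →+* Ω)
    (hι : Injective ι) (W : D[X]) (hW : W.IsDistinguishedAt (maximalIdeal D)) (b : Ω)
    (hb : W.eval₂ ι b = 0) (g : D⟦X⟧) (d : ℕ) (hd : 0 < d) (hg : order (PowerSeries.map π g) = d) :
    ∃ (ev : D⟦X⟧ →+* Ω⟦X⟧) (b' : Ω), Injective ev ∧ (∀ a, ev (C a) = C (ι a)) ∧
      ev X = C b' + X ∧ (∀ f, d⁄dX Ω (ev f) = ev (d⁄dX D f)) ∧ constantCoeff (ev g) = b := by
  obtain ⟨D₁, _, _, _, _, φ₁, ι₁, π₁, b₁, hι₁, h1, h2, h3, h4⟩ := adjoin_root π hπ ι W hW b hb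
  have hπ₁ : Surjective π₁ := fun z => by
    obtain ⟨a, rfl⟩ := hπ z
    exact ⟨φ₁ a, h2 a⟩
  have ho : order (PowerSeries.map π₁ (PowerSeries.map φ₁ g - C b₁)) = d := by
    have e : PowerSeries.map π₁ (PowerSeries.map φ₁ g) = PowerSeries.map π g := by
      ext n
      rw [coeff_map, coeff_map, coeff_map, h2]
    rw [map_sub, map_C, h3, map_zero, sub_zero, e, hg]
  obtain ⟨hne, hdeg⟩ := Qb_ord π₁ hπ₁ _ d ho
  obtain ⟨V, w, hV⟩ := exists_isWeierstrassFactorization hne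
  have hVd : V.natDegree = d := by
    rw [hV.natDegree_eq_toNat_order_map]
    exact hdeg
  have hV0 : V.degree ≠ 0 := fun h => by
    rw [Polynomial.natDegree_eq_zero_iff_degree_le_zero.2 h.le] at hVd
    omega
  obtain ⟨b', hb'⟩ := IsAlgClosed.exists_eval₂_eq_zero_of_injective ι₁ hι₁ V hV0
  obtain ⟨D₂, _, _, _, _, φ₂, ι₂, π₂, b₂, hι₂, k1, k2, k3, k4⟩ :=
    adjoin_root π₁ hπ₁ ι₁ V hV.isDistinguishedAt b' hb'
  have hπ₂ : Surjective π₂ := fun z => by
    obtain ⟨a, rfl⟩ := hπ₁ z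
    exact ⟨φ₂ a, k2 a⟩
  obtain ⟨ev, e1, e2, e3, e4⟩ := Pt_shift ι₁ hι₁ φ₂ ι₂ hι₂ π₂ hπ₂ b₂ k1 k3
  rw [k4] at e3
  have hφ₁ : Injective φ₁ := fun a a' h => hι (by rw [← h1, ← h1, h])
  have hp : ∀ p : D₁[X], constantCoeff (ev (p : D₁⟦X⟧)) = p.eval₂ ι₁ b' := by
    intro p
    have : ((constantCoeff : Ω⟦X⟧ →+* Ω).comp ev).comp Polynomial.coeToPowerSeries.ringHom =
        Polynomial.eval₂RingHom ι₁ b' := by
      refine Polynomial.ringHom_ext (fun a => ?_) ?_
      · change constantCoeff (ev ((Polynomial.C a : D₁[X]) : D₁⟦X⟧)) = Polynomial.eval₂ _ _ _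
        rw [Polynomial.coe_C, e2, constantCoeff_C, Polynomial.eval₂_C]
      · change constantCoeff (ev ((Polynomial.X : D₁[X]) : D₁⟦X⟧)) = Polynomial.eval₂ _ _ _
        rw [Polynomial.coe_X, e3, map_add, constantCoeff_C, constantCoeff_X, add_zero,
          Polynomial.eval₂_X]
    exact DFunLike.congr_fun this p
  refine ⟨ev.comp (PowerSeries.map φ₁), b', e1.comp (PowerSeries.map_injective φ₁ hφ₁),
    fun a => ?_, ?_, fun f => ?_, ?_⟩
  · rw [RingHom.comp_apply, map_C, e2, h1]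
  · rw [RingHom.comp_apply, map_X, e3]
  · rw [RingHom.comp_apply, RingHom.comp_apply, e4, map_der]
  · have e : PowerSeries.map φ₁ g = (V : D₁⟦X⟧) * w + C b₁ := by
      rw [← hV.eq_mul, sub_add_cancel]
    rw [RingHom.comp_apply, e, map_add, map_mul, map_add, map_mul, hp, hb', zero_mul, zero_add,
      e2, constantCoeff_C, h4]

end Pool.Agent.MP_deef5c_ag.O

end

section

/-! Branch points of the generic fibre. -/

open PowerSeries IsLocalRing Finset Function
open scoped Polynomial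

namespace Pool.Agent.MP_deef5c_ag.O

universe u

open WithZero

variable {k : Type u} [Field k] {p n m α : ℕ} [Fact p.Prime] [CharP k p] {ζ : k} {σ σ' : En k}
  {s : k⟦X⟧}

variable {D : Type u} [CommRing D] [IsDomain D] [IsLocalRing D] [CL D] [Algebra k D]

variable {Ω : Type u} [Field Ω] [IsAlgClosed Ω] [Algebra k Ω]

/-- Take `ev`, `b'` from `exists_ev` with `g = cst x'`.  `b' ≠ 0` because `X ∣ x'`.  As `d x' = X^β u`
with `u` a unit, `d (ev x') = ev (d x')` is a unit, so `ev x' - b` has order one.  In `gen_pt` the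
first term is a power series since `ev x'` is a unit; if `r ≠ 0` apply `loc0` to `x = ev x' - b` with
`q = 1`, `κ = u' = 0`, `c = 0`. -/
theorem gen_loc (S : Sp p (n + 1) m α ζ σ) (h : Desc p n σ σ' s) (S' : Sp p n m α (ζ ^ p) σ')
    {π : D →ₐ[k] k} {σD : En D} {x sD : D⟦X⟧} (L : Lev p n α ζ σ σ' s π σD x sD)
    {N l : ℕ} {G : k⟦X⟧} {ξ : D} {Wf P₀ : D[X]} {GF υ Y : D⟦X⟧}
    (B : WF p n l ξ σD x sD (cst D (xb p n σ')) Wf GF υ) (H : NF p n N π σD x sD G Wf P₀ Y)
    (hd : d⁄dX k (xb p n σ') ≠ 0) (ι : D →ₐ[k] Ω) (hι : Injective ι) (c : Ω → ℕ → Ω)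
    (hc : Pol p (((Polynomial.X * Wf) ^ N).map (ι : D →+* Ω)) (P₀.map (ι : D →+* Ω)) c)
    (hp : ∀ b j, p ∣ j → c b j = 0) (b : Ω) (hb0 : b ≠ 0)
    (hb : (Wf.map (ι : D →+* Ω)).IsRoot b) :
    ∃ μ : ℕ, (Wf.map (ι : D →+* Ω)).rootMultiplicity b = p ^ n * μ ∧ 0 < μ ∧
      ∀ j, c b j ≠ 0 → j + 1 ≤ μ := by
  have hp0 : 0 < p ^ n := pow_pos (Fact.out : p.Prime).pos n
  have hΩ : CharP Ω p := charP_of_injective_algebraMap (algebraMap k Ω).injective p
  have hπ : Surjective (π : D →+* k) := fun a => ⟨algebraMap k D a, π.commutes a⟩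
  have hx := S'.order_xb
  have hred : PowerSeries.map (π : D →+* k) (cst D (xb p n σ')) = xb p n σ' := by
    ext i
    simp
  obtain ⟨ev, b', hev, hC, hX, hder, hcc⟩ := exists_ev (π : D →+* k) hπ (ι : D →+* Ω) hι Wf B.dist b
    (by rw [← Polynomial.eval_map]; exact hb) (cst D (xb p n σ')) (p ^ n) hp0 (by rw [hred, hx])
  have hcX : ev (cst D (X : k⟦X⟧)) = C b' + X := by rw [map_X, hX]
  have hb' : b' ≠ 0 := by
    rintro rfl
    obtain ⟨v, hv⟩ := X_dvd_iff.2 (Lau_cc hp0 hx)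
    apply hb0
    rw [← hcc, hv, map_mul, map_mul, map_mul, hcX]
    simp
  have hdu : constantCoeff (d⁄dX Ω (ev (cst D (xb p n σ')) - C b)) ≠ 0 := by
    rw [← isUnit_iff_ne_zero, ← isUnit_iff_constantCoeff, map_sub, derivative_C, sub_zero, hder,
      ← map_der, ← X_pow_order_mul_divXPowOrder (f := d⁄dX k (xb p n σ')), map_mul, map_mul,
      map_pow, map_pow, hcX]
    refine IsUnit.mul (IsUnit.pow _ ?_) (((isUnit_divided_by_X_pow_order hd).map _).map _)
    rw [isUnit_iff_constantCoeff]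
    simpa using hb'
  have ho : order (ev (cst D (xb p n σ')) - C b) = (1 : ℕ) := by
    rw [order_eq_nat]
    refine ⟨?_, fun i hi => ?_⟩
    · rw [← coeff_zero_eq_constantCoeff_apply, coeff_derivative] at hdu
      exact left_ne_zero_of_mul hdu
    · obtain rfl : i = 0 := by omega
      rw [coeff_zero_eq_constantCoeff_apply, map_sub, hcc, constantCoeff_C, sub_self]
  have ho0 : ∀ f : Ω⟦X⟧, constantCoeff f ≠ 0 → order f = (0 : ℕ) := by
    intro f hf
    rw [order_eq_nat]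
    exact ⟨by simpa using hf, fun i hi => absurd hi (Nat.not_lt_zero i)⟩
  obtain ⟨μ, hμ, r, h₀, hr, hh, hl⟩ := gen_pt S h S' L B H ι c hc ev hev hC b 1 one_pos ho
  rw [one_mul] at hμ
  refine ⟨μ, hμ, ?_, fun j hj => ?_⟩
  · have := (Polynomial.rootMultiplicity_pos (B.dist.monic.map (ι : D →+* Ω)).ne_zero).2 hb
    rw [hμ] at this
    exact Nat.pos_of_mul_pos_left this
  · have hjr : j ≤ r.natDegree := Polynomial.le_natDegree_of_ne_zero (by rw [hr]; exact hj)
    have hj0 : j ≠ 0 := by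
      rintro rfl
      exact hj (hp b 0 (dvd_zero p))
    have h1 : vv Ω (lc Ω (ev (cst D (xb p n σ')))) = 1 := by
      have := vv_lc_eq.2 (ho0 _ (hcc ▸ hb0))
      simpa using this
    have h2 : vv Ω (lc Ω (ev (cst D G)) / lc Ω (ev (cst D (xb p n σ'))) ^ (p * N) + h₀) ≤ 1 := by
      refine Valuation.map_add_le _ ?_ hh
      rw [map_div₀, map_pow, h1, one_pow, div_one]
      exact vv_lc_le _
    obtain ⟨lam, u, e1, e2, e3⟩ := loc0 (p := p) (ev (cst D (xb p n σ')) - C b) 1 0 0 one_pos ho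
      (by rw [ho0 _ hdu]; rfl) 0 _ (by simp) (Or.inl ⟨rfl, rfl, rfl⟩) h2 r
      (fun i hi => (hr i).trans (hp b i hi)) (by omega)
    have e4 := hl lam u e2 (by rw [← e3]; congr 1; ring)
    omega

end Pool.Agent.MP_deef5c_ag.O

end

section

/-! The origin of the generic fibre. -/

open PowerSeries IsLocalRing Finset Function
open scoped Polynomial

namespace Pool.Agent.MP_deef5c_ag.O

universe u

open WithZero

variable {k : Type u} [Field k] {p n m α : ℕ} [Fact p.Prime] [CharP k p] {ζ : k} {σ σ' : En k}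
  {s : k⟦X⟧}

variable {D : Type u} [CommRing D] [IsDomain D] [IsLocalRing D] [CL D] [Algebra k D]

variable {Ω : Type u} [Field Ω] [IsAlgClosed Ω] [Algebra k Ω]

theorem GenZ_order {k Ω : Type u} [Field k] [Field Ω] (φ : k →+* Ω) {f : k⟦X⟧} {d : ℕ}
    (h : order f = d) : order (PowerSeries.map φ f) = d := by
  rw [← vv_lc_eq, ← lmap_lc, vv_lmap, vv_lc_eq, h]

theorem GenZ_aeval {k Ω : Type u} [Field k] [Field Ω] (φ : k →+* Ω) (y : LaurentSeries k)
    (r : k[X]) : lmap φ (Polynomial.aeval y r) = Polynomial.aeval (lmap φ y) (r.map φ) := by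
  refine Polynomial.map_aeval_eq_aeval_map ?_ r y
  ext1 c
  have e : ∀ (K : Type u) [Field K] (c : K), algebraMap K (LaurentSeries K) c = lc K (C c) :=
    fun K _ c => rfl
  rw [RingHom.comp_apply, RingHom.comp_apply, e, e, lmap_lc, PowerSeries.map_C]

/-- `gen_pt` with `ev = map ι`, `b = 0`, `d = p^n`.  Then `lc (ev (cst G)) = lmap (lc G)`, so the series
is `lmap c + r₁(1/x') + h₀` up to `z^p - z`, with `r₁ = r + r₀.map`; `r₁` is reduced.  Let
`U = max (p u') (deg r₁)`; if `U = 0` take `w'' = 0`, else `w'' = U + 1` and use `loc0` over `Ω`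
(`vv_lmap`, `th_lmap`). For `j > deg r₁`, `c 0 j = - r₀.coeff j`. -/
theorem gen_zero (S : Sp p (n + 1) m α ζ σ) (h : Desc p n σ σ' s) (S' : Sp p n m α (ζ ^ p) σ')
    {π : D →ₐ[k] k} {σD : En D} {x sD : D⟦X⟧} (L : Lev p n α ζ σ σ' s π σD x sD)
    {N l : ℕ} {G : k⟦X⟧} {ξ : D} {Wf P₀ : D[X]} {GF υ Y : D⟦X⟧}
    (B : WF p n l ξ σD x sD (cst D (xb p n σ')) Wf GF υ) (H : NF p n N π σD x sD G Wf P₀ Y)
    {κ u' : ℕ} {c₀ z : LaurentSeries k} {r₀ : k[X]} (O : PO p (p ^ n) (xb p n σ') κ u' c₀)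
    (hr : Red p r₀) (hG : lc k G = lc k (xb p n σ') ^ (p * N) *
      (c₀ + Polynomial.aeval (lc k (xb p n σ'))⁻¹ r₀ + (z ^ p - z)))
    (ι : D →ₐ[k] Ω) (hι : Injective ι) (c : Ω → ℕ → Ω)
    (hc : Pol p (((Polynomial.X * Wf) ^ N).map (ι : D →+* Ω)) (P₀.map (ι : D →+* Ω)) c)
    (hp : ∀ b j, p ∣ j → c b j = 0) :
    ∃ w'' : ℕ, p ^ n * w'' + 1 ≤ (Wf.map (ι : D →+* Ω)).rootMultiplicity 0 + κ + p ^ n ∧
      (∀ j, w'' ≤ j → c 0 j ∈ Set.range (algebraMap k Ω)) ∧
      ((u' = 0 ∧ w'' = 0) ∨ p * u' + 1 ≤ w'') := by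
  have hpp : p.Prime := Fact.out
  have hq : 0 < p ^ n := pow_pos hpp.pos n
  have : CharP Ω p := charP_of_injective_algebraMap (algebraMap k Ω).injective p
  have : CharP (LaurentSeries Ω) p :=
    charP_of_injective_algebraMap (algebraMap Ω (LaurentSeries Ω)).injective p
  have hm : ∀ f : k⟦X⟧, PowerSeries.map (ι : D →+* Ω) (cst D f) =
      PowerSeries.map (algebraMap k Ω) f := by
    intro f
    ext a
    simp
  have hx : order (PowerSeries.map (algebraMap k Ω) (xb p n σ')) = ((p ^ n : ℕ) : ℕ∞) :=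
    GenZ_order _ S'.order_xb
  obtain ⟨μ, hμ, r, h₀, hrc, hh, hmain⟩ := gen_pt S h S' L B H ι c hc
    (PowerSeries.map (ι : D →+* Ω)) (PowerSeries.map_injective _ hι)
    (fun a => PowerSeries.map_C _ a) 0 (p ^ n) hq (by rw [hm, map_zero, sub_zero, hx])
  have hμ' := Nat.eq_of_mul_eq_mul_left hq hμ
  simp only [hm, map_zero, sub_zero] at hmain
  set φ := algebraMap k Ω with hφ
  set x' := xb p n σ' with hx'
  set r₁ := r + r₀.map φ with hr₁
  have hred : Red p r₁ := by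
    intro j hj
    rw [hr₁, Polynomial.coeff_add, Polynomial.coeff_map, hrc, hp 0 j hj, hr j hj, map_zero,
      add_zero]
  have hrange : ∀ j, r₁.natDegree < j → c 0 j ∈ Set.range φ := by
    intro j hj
    have h1 := Polynomial.coeff_eq_zero_of_natDegree_lt hj
    rw [hr₁, Polynomial.coeff_add, Polynomial.coeff_map, hrc] at h1
    exact ⟨- r₀.coeff j, by rw [map_neg]; exact (eq_neg_of_add_eq_zero_left h1).symm⟩
  rcases Nat.eq_zero_or_pos (max (p * u') r₁.natDegree) with hU | hU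
  · refine ⟨0, by omega, fun j _ => ?_, Or.inl ⟨?_, rfl⟩⟩
    · rcases Nat.eq_zero_or_pos j with rfl | hj
      · exact ⟨0, by rw [map_zero, hp 0 0 (dvd_zero p)]⟩
      · exact hrange j (by omega)
    · have h1 : p * u' = 0 := by omega
      exact (Nat.mul_eq_zero.1 h1).resolve_left hpp.ne_zero
  · have hκ : order (d⁄dX Ω (PowerSeries.map φ x')) + 1 = ((κ + p ^ n : ℕ) : ℕ∞) := by
      have h1 := O.hκ
      have h2 : order (d⁄dX k x') ≠ ⊤ := by
        intro h2
        rw [h2, top_add] at h1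
        exact ENat.top_ne_natCast _ h1
      obtain ⟨β, hβ⟩ := ENat.ne_top_iff_exists.1 h2
      rw [← map_der, GenZ_order φ hβ.symm, hβ, h1]
    obtain ⟨lam, u, h1, h2, h3⟩ := loc0 p (PowerSeries.map φ x') (p ^ n) κ u' hq hx hκ
      (lmap φ c₀) h₀ (by rw [vv_lmap]; exact O.hc)
      (O.hc'.imp (fun h => ⟨h.1, by rw [h.2.1, map_zero], h.2.2⟩)
        (fun h => ⟨h.1, by rw [th_lmap, vv_lmap]; exact h.2⟩)) hh r₁ hred hU
    have hne : lc Ω (PowerSeries.map φ x') ≠ 0 := by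
      refine Lau_ne fun h0 => ?_
      rw [h0, order_zero] at hx
      exact ENat.top_ne_natCast _ hx
    have h4 := hmain lam (u + lmap φ z) h2 (by
      rw [← h3]
      congr 1
      rw [← lmap_lc φ G, hG, map_mul, map_pow, lmap_lc,
        mul_div_cancel_left₀ _ (pow_ne_zero _ hne), map_add, map_add, map_sub, map_pow, GenZ_aeval,
        map_inv₀, lmap_lc, add_pow_char, hr₁, map_add]
      ring)
    refine ⟨max (p * u') r₁.natDegree + 1, ?_, fun j hj => hrange j (by omega), Or.inr (by omega)⟩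
    rw [mul_add, ← h1, hμ']
    omega

end Pool.Agent.MP_deef5c_ag.O

end

section

/-! Counting parameters. -/

open PowerSeries IsLocalRing Finset Function
open scoped Polynomial

namespace Pool.Agent.MP_deef5c_ag.O

universe u

/-- orbit representatives for multiplication by a primitive root of unity -/
theorem orb {Ω : Type u} [Field Ω] {m : ℕ} (hm : 0 < m) {ξ : Ω} (hξ : IsPrimitiveRoot ξ m)
    (Z : Finset Ω) (h0 : (0 : Ω) ∉ Z) (hZ : ∀ b ∈ Z, ξ * b ∈ Z) (μ : Ω → ℕ)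
    (hμ : ∀ b ∈ Z, μ (ξ * b) = μ b) :
    ∃ Z₀ ⊆ Z, (∀ b ∈ Z, ∃ i : ℕ, ∃ b₀ ∈ Z₀, b = ξ ^ i * b₀) ∧ m * ∑ b ∈ Z₀, μ b = ∑ b ∈ Z, μ b := by
  classical
  induction Z using Finset.strongInduction with
  | H Z ih =>
    rcases Z.eq_empty_or_nonempty with rfl | ⟨b, hb⟩
    · exact ⟨∅, Subset.rfl, by simp, by simp⟩
    have hb0 : b ≠ 0 := fun e => h0 (e ▸ hb)
    have hx0 : ξ ≠ 0 := hξ.ne_zero hm.ne'
    have h1 : ∀ i : ℕ, ξ ^ i * b ∈ Z ∧ μ (ξ ^ i * b) = μ b := fun i => by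
      induction i with
      | zero => simpa using hb
      | succ i ih => rw [pow_succ', mul_assoc, hμ _ ih.1]; exact ⟨hZ _ ih.1, ih.2⟩
    let P := (range m).image fun i => ξ ^ i * b
    have hP : ∀ c, c ∈ P ↔ ∃ i : ℕ, c = ξ ^ i * b := fun c => by
      simp only [P, mem_image, mem_range]
      refine ⟨fun ⟨i, _, e⟩ => ⟨i, e.symm⟩, fun ⟨i, e⟩ => ⟨i % m, Nat.mod_lt _ hm, ?_⟩⟩
      rw [e, ← pow_eq_pow_mod i hξ.pow_eq_one]
    have hPZ : P ⊆ Z := fun c hc => by
      obtain ⟨i, rfl⟩ := (hP c).1 hc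
      exact (h1 i).1
    have hbP : b ∈ P := (hP b).2 ⟨0, by simp⟩
    obtain ⟨Z₀, h2, h3, h4⟩ := ih (Z \ P) (sdiff_ssubset hPZ ⟨b, hbP⟩)
      (fun h => h0 (mem_sdiff.1 h).1) (fun c hc => mem_sdiff.2 ⟨hZ c (mem_sdiff.1 hc).1, fun h => by
        obtain ⟨i, e⟩ := (hP _).1 h
        refine (mem_sdiff.1 hc).2 ((hP c).2 ⟨m - 1 + i, ?_⟩)
        rw [pow_add, mul_assoc, ← e, ← mul_assoc, pow_sub_one_mul hm.ne', hξ.pow_eq_one, one_mul]⟩)
      fun c hc => hμ c (mem_sdiff.1 hc).1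
    refine ⟨insert b Z₀, insert_subset hb (h2.trans sdiff_subset), fun c hc => ?_, ?_⟩
    · by_cases h : c ∈ P
      · obtain ⟨i, e⟩ := (hP c).1 h
        exact ⟨i, b, mem_insert_self _ _, e⟩
      · obtain ⟨i, b₀, h5, e⟩ := h3 c (mem_sdiff.2 ⟨hc, h⟩)
        exact ⟨i, b₀, mem_insert_of_mem h5, e⟩
    · rw [sum_insert fun h => (mem_sdiff.1 (h2 h)).2 hbP, mul_add, h4, ← sum_sdiff hPZ, add_comm,
        sum_image fun i hi j hj e => hξ.pow_inj (by simpa using hi) (by simpa using hj)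
          (mul_right_cancel₀ hb0 e), sum_congr rfl fun i _ => (h1 i).2]
      simp

theorem Cnt3_aux {p r : ℕ} {A S : Finset ℕ} (hA : ∀ j ∈ A, j ∈ S ∧ ¬ p ∣ j) (f : ℕ → ℕ)
    (hf : Injective f) (h : ∀ i < r, f i ∈ S ∧ p ∣ f i) : A.card + r ≤ S.card := by
  have h1 : Disjoint A ((range r).image f) := disjoint_left.2 fun j hj hj' => by
    obtain ⟨i, hi, rfl⟩ := mem_image.1 hj'
    exact (hA _ hj).2 (h i (mem_range.1 hi)).2
  have h2 := card_union_of_disjoint h1
  rw [card_image_of_injective _ hf, card_range] at h2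
  rw [← h2]
  refine card_le_card (union_subset (fun j hj => (hA j hj).1) fun j hj => ?_)
  obtain ⟨i, hi, rfl⟩ := mem_image.1 hj
  exact (h i (mem_range.1 hi)).1

open Classical in
/-- Case `α = 1` (so `m ∣ j`): for `m = 1` count the `j < w''` prime to `p`; for `m > 1`, `m ∣ u'`.
Case `α ξ = 1`, `m > 1`: there are `w'' / m` numbers `j < w''` with `j ≡ -1 mod m`, and the `j = p j'`
with `0 < j' ≤ u'` in the non-zero class `-1/p` number at least `(u' + 1) / m`. -/
theorem cnt3 (p : ℕ) [Fact p.Prime] {k : Type u} [Field k] [CharP k p] {m : ℕ} (hm : 0 < m)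
    {ξ α : k} (hξ : IsPrimitiveRoot ξ m) (hα : α = 1 ∨ α * ξ = 1) (u' w' w'' : ℕ)
    (h : w' = 0 ∨ (w' = u' + 1 ∧ ξ ^ w' = α * ξ ∧ p * u' + 1 ≤ w'')) :
    ((range w'').filter fun j => ¬ p ∣ j ∧ ξ ^ j = α).card + w' / m ≤ w'' / m := by
  have hp : p.Prime := Fact.out
  have hx0 : ξ ≠ 0 := hξ.ne_zero hm.ne'
  by_cases h1 : α * ξ = 1
  · have hpm : Nat.Coprime m p := by
      refine ((Nat.Prime.coprime_iff_not_dvd hp).2 fun h => ?_).symm
      have : NeZero m := ⟨hm.ne'⟩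
      exact hξ.neZero'.out ((CharP.cast_eq_zero_iff k p m).2 h)
    obtain ⟨v, hv, hv'⟩ : ∃ v < m, m ∣ p * v + 1 := by
      obtain ⟨v, h1, h2⟩ := Nat.chineseRemainder hpm (m - 1) 0
      obtain ⟨v, rfl⟩ := (Nat.modEq_zero_iff_dvd).1 h2
      refine ⟨v % m, Nat.mod_lt _ hm, (Nat.modEq_zero_iff_dvd).1 ?_⟩
      refine ((((Nat.mod_modEq v m).mul_left p).trans h1).add_right 1).trans ?_
      rw [Nat.sub_add_cancel hm]
      exact Nat.modulus_modEq_zero
    rw [← Nat.card_multiples w'' m]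
    refine Cnt3_aux (p := p) (fun j hj => ?_) (fun i => p * (v + m * i)) (fun i j e => ?_)
      fun i hi => ⟨?_, dvd_mul_right _ _⟩
    · simp only [mem_filter] at hj ⊢
      refine ⟨⟨hj.1, (hξ.pow_eq_one_iff_dvd _).1 ?_⟩, hj.2.1⟩
      rw [pow_succ, hj.2.2, h1]
    · exact Nat.eq_of_mul_eq_mul_left hm (Nat.add_left_cancel (Nat.eq_of_mul_eq_mul_left hp.pos e))
    · rcases h with rfl | ⟨rfl, -, h3⟩
      · simp at hi
      have h4 : (i + 1) * m ≤ u' + 1 := (Nat.le_div_iff_mul_le hm).1 hi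
      have h5 : p * (v + m * i) ≤ p * u' := Nat.mul_le_mul_left _ (by nlinarith)
      rw [mem_filter, mem_range, mul_add, add_right_comm]
      exact ⟨by rw [← mul_add]; omega, dvd_add hv' ((dvd_mul_right m i).mul_left p)⟩
  · obtain rfl := hα.resolve_right h1
    have hm1 : 1 < m := by
      by_contra h2
      obtain rfl : m = 1 := by omega
      exact h1 (by simpa using hξ.pow_eq_one)
    rw [← Nat.Ioc_filter_dvd_card_eq_div w'' m]
    refine Cnt3_aux (p := p) (fun j hj => ?_) (fun i => p * (m * (i + 1))) (fun i j e => ?_)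
      fun i hi => ⟨?_, dvd_mul_right _ _⟩
    · simp only [mem_filter, mem_range, mem_Ioc] at hj ⊢
      exact ⟨⟨⟨Nat.pos_of_ne_zero fun e => hj.2.1 (e ▸ dvd_zero p), hj.1.le⟩,
        (hξ.pow_eq_one_iff_dvd _).1 hj.2.2⟩, hj.2.1⟩
    · exact Nat.add_right_cancel
        (Nat.eq_of_mul_eq_mul_left hm (Nat.eq_of_mul_eq_mul_left hp.pos e))
    · rcases h with rfl | ⟨rfl, h2, h3⟩
      · simp at hi
      rw [pow_succ] at h2
      obtain ⟨r, rfl⟩ := (hξ.pow_eq_one_iff_dvd _).1 (mul_right_cancel₀ hx0 h2)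
      rw [Nat.mul_add_div hm, Nat.div_eq_of_lt hm1, add_zero] at hi
      have h5 : p * (m * (i + 1)) ≤ p * (m * r) :=
        Nat.mul_le_mul_left _ (Nat.mul_le_mul_left _ hi)
      rw [mem_filter, mem_Ioc]
      exact ⟨⟨Nat.mul_pos hp.pos (Nat.mul_pos hm i.succ_pos), by omega⟩,
        (dvd_mul_right m _).mul_left p⟩

end Pool.Agent.MP_deef5c_ag.O

end

section

/-! The number of parameters of one step. -/

open PowerSeries IsLocalRing Finset Function
open scoped Polynomial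

namespace Pool.Agent.MP_deef5c_ag.O

universe u

variable {k : Type u} [Field k] {p n m α : ℕ} [Fact p.Prime] [CharP k p] {ζ : k} {σ σ' : En k}
  {s : k⟦X⟧}

variable {D : Type u} [CommRing D] [IsDomain D] [IsLocalRing D] [CL D] [Algebra k D]

variable {Ω : Type u} [Field Ω] [IsAlgClosed Ω] [Algebra k Ω]

section Aux
variable {E : Type u} [Field E]

theorem Genf_mult (F : Polynomial E) (hF : F ≠ 0) {ξ t : E} (hξ : ξ ≠ 0) (ht : t ≠ 0)
    (h : F.comp (Polynomial.C ξ * Polynomial.X) = Polynomial.C t * F) (b : E) :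
    F.rootMultiplicity (ξ * b) = F.rootMultiplicity b := by
  have h1 := Polynomial.rootMultiplicity_comp_C_mul_X_add_C F ξ 0 b hξ.isUnit
  rw [map_zero, add_zero, add_zero, h, Polynomial.rootMultiplicity_mul
    (mul_ne_zero (Polynomial.C_ne_zero.2 ht) hF), Polynomial.rootMultiplicity_C, zero_add] at h1
  exact h1.symm

theorem Genf_prod [IsAlgClosed E] [DecidableEq E] (F : Polynomial E) (hF : F.Monic) :
    F = ∏ b ∈ F.roots.toFinset, (Polynomial.X - Polynomial.C b) ^ F.rootMultiplicity b := by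
  conv_lhs => rw [(IsAlgClosed.splits F).eq_prod_roots_of_monic hF]
  rw [Finset.prod_multiset_map_count]
  exact Finset.prod_congr rfl fun b _ => by rw [Polynomial.count_roots]

theorem Genf_deg [IsAlgClosed E] [DecidableEq E] (F : Polynomial E) :
    F.natDegree = F.rootMultiplicity 0 + ∑ b ∈ F.roots.toFinset.erase 0, F.rootMultiplicity b := by
  rw [← IsAlgClosed.card_roots_eq_natDegree, ← Multiset.toFinset_sum_count_eq]
  simp only [Polynomial.count_roots]
  by_cases h : (0 : E) ∈ F.roots.toFinset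
  · rw [Finset.add_sum_erase _ (fun b => F.rootMultiplicity b) h]
  · rw [Finset.erase_eq_of_notMem h, ← Polynomial.count_roots, Multiset.count_eq_zero.2
      (fun h' => h (Multiset.mem_toFinset.2 h')), zero_add]

variable {F : Type u} [Field F] [Algebra F E] (A : Subalgebra F E)

theorem Genf_mem (Q : Polynomial E) :
    Q ∈ Polynomial.liftsRing (algebraMap A E) ↔ ∀ i, Q.coeff i ∈ A := by
  rw [← Polynomial.lifts_iff_liftsRing, Polynomial.lifts_iff_coeff_lifts]
  exact forall_congr' fun i => ⟨fun ⟨a, ha⟩ => ha ▸ a.2, fun h => ⟨⟨_, h⟩, rfl⟩⟩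

theorem Genf_C {a : E} (ha : a ∈ A) : Polynomial.C a ∈ Polynomial.liftsRing (algebraMap A E) := by
  rw [← Polynomial.lifts_iff_liftsRing]
  exact Polynomial.C'_mem_lifts ⟨⟨a, ha⟩, rfl⟩

theorem Genf_lin {a : E} (ha : a ∈ A) (i : ℕ) :
    (Polynomial.X - Polynomial.C a) ^ i ∈ Polynomial.liftsRing (algebraMap A E) := by
  refine pow_mem (sub_mem ?_ (Genf_C A ha)) i
  rw [← Polynomial.lifts_iff_liftsRing]
  exact Polynomial.X_mem_lifts _

theorem Genf_den (Z : Finset E) (hZ : ∀ b ∈ Z, b ∈ A) (e : E → ℕ) :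
    ∏ b ∈ Z, (Polynomial.X - Polynomial.C b) ^ e b ∈ Polynomial.liftsRing (algebraMap A E) :=
  prod_mem fun b hb => Genf_lin A (hZ b hb) _

theorem Genf_polar [DecidableEq E] (q : ℕ) (Z : Finset E) (hZ : ∀ b ∈ Z, b ∈ A) (e : E → ℕ)
    (c : E → ℕ → E) (hc : ∀ b j, c b j ∈ A) :
    polar q Z e c ∈ Polynomial.liftsRing (algebraMap A E) := by
  unfold polar
  refine sum_mem fun b hb => mul_mem (sum_mem fun j _ => mul_mem (Genf_C A (hc b j))
    (Genf_lin A (hZ b hb) _)) ?_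
  exact Genf_den A _ (fun b' hb' => hZ b' (Finset.mem_of_mem_erase hb')) _

end Aux

/-- Let `W = Wf.map ι`, `Z = insert 0 W.roots.toFinset`, `e b = N (mult_b W + [b = 0])`,
`g = ((X Wf)^N).map ι = ∏ (X - b)^(e b)`; `Z` and `mult` are invariant under `ξ` (`WF.eqv`).  Take `c`, `Z₁`
from `pf`, `pol_of`, then `μ b` from `gen_loc` (for `b ∈ Z \ {0}`, invariant), `w''` from `gen_zero`,
`Z₀` from `orb`.  `P` consists of the `b ∈ Z₀`, the `c b j` with `b ∈ Z₀`, `0 < j < μ b`, and the `c 0 j`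
with `j < w''`, `p ∤ j`, `ξ^j = α`; so `#P ≤ ∑_{Z₀} μ b + N₀`, `N₀ + w'/m ≤ w''/m` (`cnt3`), and
`l + 1 = deg W = mult_0 + p^n m ∑_{Z₀} μ b` gives `w'' + m ∑ μ b ≤ w`.  All `b ∈ Z` and all `c b j` lie in
`adjoin k P` (equivariance of `c`; `c 0 j (ξ^j - α) = 0`), hence the coefficients of `W`, `g`, `polar`;
finish with `gl_descend`. -/
theorem genf (S : Sp p (n + 1) m α ζ σ) (h : Desc p n σ σ' s) (S' : Sp p n m α (ζ ^ p) σ')
    {π : D →ₐ[k] k} {σD : En D} {x sD : D⟦X⟧} (L : Lev p n α ζ σ σ' s π σD x sD)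
    {N l : ℕ} {G : k⟦X⟧} {Wf P₀ : D[X]} {GF υ Y : D⟦X⟧}
    (B : WF p n l (algebraMap k D (ζ ^ p ^ (n + 1))) σD x sD (cst D (xb p n σ')) Wf GF υ)
    (H : NF p n N π σD x sD G Wf P₀ Y)
    (hE : Polynomial.C (α : D) *
        P₀.comp (Polynomial.C (algebraMap k D (ζ ^ p ^ (n + 1))) * Polynomial.X) =
      Polynomial.C (algebraMap k D (ζ ^ p ^ (n + 1)) ^
        (p * ((Polynomial.X * Wf) ^ N).natDegree)) * P₀)
    {κ u' : ℕ} {c₀ z : LaurentSeries k} {r₀ : k[X]} (O : PO p (p ^ n) (xb p n σ') κ u' c₀)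
    (hr : Red p r₀) (hG : lc k G = lc k (xb p n σ') ^ (p * N) *
      (c₀ + Polynomial.aeval (lc k (xb p n σ'))⁻¹ r₀ + (z ^ p - z)))
    {w w' : ℕ} (hw : p ^ n * w = κ + p ^ n + l)
    (hw' : w' = 0 ∨ (0 < u' ∧ w' = u' + 1 ∧ (ζ ^ p ^ (n + 1)) ^ w' = (α : k) * ζ ^ p ^ (n + 1)))
    (ι : D →ₐ[k] Ω) (hι : Injective ι) :
    ∃ P : Finset Ω, P.card + w' / m ≤ w / m ∧
      (∀ i, ι (Wf.coeff i) ∈ Algebra.adjoin k (P : Set Ω)) ∧
      (∀ i, ι (P₀.coeff i) ∈ Algebra.adjoin k (P : Set Ω)) := by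
  classical
  have hp1 : 1 < p := (Fact.out : p.Prime).one_lt
  have hq0 : 0 < p ^ n := pow_pos (by omega) n
  have hΩ : CharP Ω p := charP_of_injective_algebraMap (algebraMap k Ω).injective p
  have hinj : Injective (algebraMap k Ω) := (algebraMap k Ω).injective
  set ξ₀ : k := ζ ^ p ^ (n + 1) with hξ₀
  have hprim₀ : IsPrimitiveRoot ξ₀ m := S.prim_pow (n + 1)
  set ξ : Ω := algebraMap k Ω ξ₀ with hξd
  have hprim : IsPrimitiveRoot ξ m := hprim₀.map_of_injective hinj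
  have hξ : ξ ≠ 0 := hprim.ne_zero S.mpos.ne'
  have hα0 : (α : k) ≠ 0 := by
    intro h0
    have := S.alpha_pow
    rw [h0, zero_pow S.mpos.ne'] at this
    exact zero_ne_one this
  have hιξ : (ι : D →+* Ω) (algebraMap k D ξ₀) = ξ := ι.commutes ξ₀
  set W : Polynomial Ω := Wf.map (ι : D →+* Ω) with hWd
  have hWm : W.Monic := B.dist.monic.map _
  have hWdeg : W.natDegree = l + 1 := by rw [hWd, B.dist.monic.natDegree_map, B.deg]
  have hWe : W.comp (Polynomial.C ξ * Polynomial.X) = Polynomial.C (ξ ^ (l + 1)) * W := by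
    have := congrArg (Polynomial.map (ι : D →+* Ω)) B.eqv
    rwa [Polynomial.map_comp, Polynomial.map_mul, Polynomial.map_mul, Polynomial.map_C,
      Polynomial.map_C, Polynomial.map_X, hιξ, map_pow (ι : D →+* Ω), hιξ] at this
  have hWμ := Genf_mult W hWm.ne_zero hξ (pow_ne_zero _ hξ) hWe
  set V : Polynomial Ω := Polynomial.X * W with hVd
  have hVm : V.Monic := Polynomial.monic_X.mul hWm
  have hVe : V.comp (Polynomial.C ξ * Polynomial.X) = Polynomial.C (ξ ^ (l + 2)) * V := by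
    rw [hVd, Polynomial.mul_comp, Polynomial.X_comp, hWe, pow_succ ξ (l + 1), map_mul]
    ring
  have hVμ := Genf_mult V hVm.ne_zero hξ (pow_ne_zero _ hξ) hVe
  set Z : Finset Ω := V.roots.toFinset with hZd
  have hZm : ∀ b, b ∈ Z ↔ 0 < V.rootMultiplicity b := fun b => by
    rw [hZd, Multiset.mem_toFinset, Polynomial.mem_roots hVm.ne_zero,
      Polynomial.rootMultiplicity_pos hVm.ne_zero]
  have hZW : ∀ b, b ∈ Z ↔ b = 0 ∨ W.IsRoot b := fun b => by
    rw [hZd, Multiset.mem_toFinset, Polynomial.mem_roots hVm.ne_zero, hVd, Polynomial.root_mul,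
      Polynomial.IsRoot.def, Polynomial.eval_X]
  set g : Polynomial Ω := ((Polynomial.X * Wf) ^ N).map (ι : D →+* Ω) with hgd
  have hgV : g = V ^ N := by
    rw [hgd, Polynomial.map_pow, Polynomial.map_mul, Polynomial.map_X]
  have hgm : g.Monic := hgV ▸ hVm.pow N
  have hgn : g.natDegree = ((Polynomial.X * Wf) ^ N).natDegree :=
    ((Polynomial.monic_X.mul B.dist.monic).pow N).natDegree_map _
  set e : Ω → ℕ := fun b => V.rootMultiplicity b * N with hed
  have hg : g = ∏ b ∈ Z, (Polynomial.X - Polynomial.C b) ^ e b := by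
    rw [hgV]
    conv_lhs => rw [Genf_prod V hVm]
    rw [← Finset.prod_pow]
    exact Finset.prod_congr rfl fun b _ => by rw [← pow_mul]
  set P : Polynomial Ω := P₀.map (ι : D →+* Ω) with hPd
  have hPdeg : P.degree < (((p - 1) * g.natDegree : ℕ) : WithBot ℕ) := by
    rw [hgn]
    exact (Polynomial.degree_map_le).trans_lt H.deg
  have hPe : Polynomial.C (α : Ω) * P.comp (Polynomial.C ξ * Polynomial.X) =
      Polynomial.C (ξ ^ (p * g.natDegree)) * P := by
    have := congrArg (Polynomial.map (ι : D →+* Ω)) hE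
    rwa [Polynomial.map_mul, Polynomial.map_mul, Polynomial.map_comp, Polynomial.map_mul,
      Polynomial.map_C, Polynomial.map_C, Polynomial.map_C, Polynomial.map_X, hιξ,
      map_pow (ι : D →+* Ω), hιξ, map_natCast, ← hgn] at this
  obtain ⟨c, Z₁, hcp, hcZ, hce, hZ₁, hpol, hP⟩ := pf p Z e g P hg
    (hPdeg.trans_le (by exact_mod_cast Nat.mul_le_mul_right _ (Nat.sub_le p 1))) ξ α hξ
    (map_natCast (frobenius Ω p) α) (fun b => by rw [hZm, hZm, hVμ])
    (fun b => by simp only [hed, hVμ]) hPe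
  have hPol : Pol p g P c := pol_of p Z e g P Z₁ hg c (fun b => hcp b 0 (dvd_zero p)) hcZ hP
  have hd : d⁄dX k (xb p n σ') ≠ 0 := by
    intro h0
    have := O.hκ
    rw [h0, order_zero, top_add] at this
    exact ENat.top_ne_natCast _ this
  set Z' : Finset Ω := W.roots.toFinset.erase 0 with hZ'd
  have hZ'm : ∀ b, b ∈ Z' ↔ b ≠ 0 ∧ W.IsRoot b := fun b => by
    rw [hZ'd, Finset.mem_erase, Multiset.mem_toFinset, Polynomial.mem_roots hWm.ne_zero]
  set μ : Ω → ℕ := fun b => W.rootMultiplicity b / p ^ n with hμd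
  have hμ : ∀ b ∈ Z', W.rootMultiplicity b = p ^ n * μ b ∧ 0 < μ b ∧
      ∀ j, c b j ≠ 0 → j + 1 ≤ μ b := by
    intro b hb
    obtain ⟨h1, h2⟩ := (hZ'm b).1 hb
    obtain ⟨ν, e1, e2, e3⟩ := gen_loc S h S' L B H hd ι hι c hPol hcp b h1 h2
    have : μ b = ν := by
      simp only [hμd]
      rw [hWd, e1, Nat.mul_div_cancel_left _ hq0]
    rw [this]
    exact ⟨e1, e2, e3⟩
  obtain ⟨w'', hw1, hw2, hw3⟩ := gen_zero S h S' L B H O hr hG ι hι c hPol hcp
  obtain ⟨Z₀, hZ₀, horb, hsum⟩ := orb S.mpos hprim Z' (Finset.notMem_erase _ _)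
    (fun b hb => by
      obtain ⟨h1, h2⟩ := (hZ'm b).1 hb
      refine (hZ'm _).2 ⟨mul_ne_zero hξ h1, ?_⟩
      rw [← Polynomial.rootMultiplicity_pos hWm.ne_zero] at h2 ⊢
      rwa [hWμ]) μ (fun b _ => by simp only [hμd, hWμ])
  have hcnt := cnt3 p S.mpos hprim₀ S.hyp u' w' w'' (by
    rcases hw' with h0 | ⟨h1, h2, h3⟩
    · exact Or.inl h0
    · refine Or.inr ⟨h2, h3, ?_⟩
      rcases hw3 with ⟨h4, -⟩ | h4
      · omega
      · exact h4)
  set J : Finset ℕ := (range w'').filter fun j => ¬ p ∣ j ∧ ξ₀ ^ j = (α : k) with hJd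
  have hw4 : w'' + m * ∑ b ∈ Z₀, μ b ≤ w := by
    have h1 := Genf_deg W
    rw [hWdeg, ← hZ'd, Finset.sum_congr rfl (fun b hb => (hμ b hb).1), ← Finset.mul_sum,
      ← hsum] at h1
    refine Nat.le_of_mul_le_mul_left ?_ hq0
    rw [mul_add, hw]
    change p ^ n * w'' + 1 ≤ W.rootMultiplicity 0 + κ + p ^ n at hw1
    omega
  let P₁ : Finset Ω := Z₀.biUnion fun b => (range (μ b)).image fun j => if j = 0 then b else c b j
  let P₂ : Finset Ω := J.image (c 0)
  set A : Subalgebra k Ω := Algebra.adjoin k ((P₁ ∪ P₂ : Finset Ω) : Set Ω) with hAd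
  have hA1 : ∀ a ∈ P₁, a ∈ A := fun a ha =>
    Algebra.subset_adjoin (Finset.mem_coe.2 (Finset.mem_union_left _ ha))
  have hA2 : ∀ a ∈ P₂, a ∈ A := fun a ha =>
    Algebra.subset_adjoin (Finset.mem_coe.2 (Finset.mem_union_right _ ha))
  have hξA : ξ ∈ A := A.algebraMap_mem ξ₀
  have hstep : ∀ b j, c b j ∈ A → c (ξ * b) j ∈ A := by
    intro b j hb
    have h1 : c (ξ * b) j = algebraMap k Ω (α : k)⁻¹ * (c b j * ξ ^ j) := by
      rw [hce, ← mul_assoc, ← map_natCast (algebraMap k Ω) α, ← map_mul, inv_mul_cancel₀ hα0,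
        map_one, one_mul]
    rw [h1]
    exact mul_mem (A.algebraMap_mem _) (mul_mem hb (pow_mem hξA j))
  have hZ'A : ∀ b ∈ Z', b ∈ A ∧ ∀ j, c b j ∈ A := by
    intro b hb
    obtain ⟨i, b₀, hb₀, rfl⟩ := horb b hb
    obtain ⟨-, h2, h3⟩ := hμ b₀ (hZ₀ hb₀)
    refine ⟨mul_mem (pow_mem hξA i) (hA1 _ (Finset.mem_biUnion.2 ⟨b₀, hb₀,
      Finset.mem_image.2 ⟨0, Finset.mem_range.2 h2, if_pos rfl⟩⟩)), fun j => ?_⟩
    clear hb
    induction i with
    | zero =>
      rw [pow_zero, one_mul]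
      by_cases h0 : c b₀ j = 0
      · rw [h0]; exact zero_mem A
      · have hj : j ≠ 0 := by
          rintro rfl
          exact h0 (hcp b₀ 0 (dvd_zero p))
        exact hA1 _ (Finset.mem_biUnion.2 ⟨b₀, hb₀,
          Finset.mem_image.2 ⟨j, Finset.mem_range.2 (h3 j h0), if_neg hj⟩⟩)
    | succ i ih =>
      rw [pow_succ', mul_assoc]
      exact hstep _ _ ih
  have h0A : ∀ j, c 0 j ∈ A := by
    intro j
    by_cases h0 : c 0 j = 0
    · rw [h0]; exact zero_mem A
    by_cases hj : w'' ≤ j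
    · obtain ⟨a, ha⟩ := hw2 j hj
      rw [← ha]
      exact A.algebraMap_mem a
    refine hA2 _ (Finset.mem_image.2 ⟨j, Finset.mem_filter.2 ⟨Finset.mem_range.2 (by omega),
      fun hpj => h0 (hcp 0 j hpj), hinj ?_⟩, rfl⟩)
    have h1 := hce 0 j
    rw [mul_zero, mul_comm (α : Ω)] at h1
    rw [map_pow, map_natCast]
    exact mul_left_cancel₀ h0 h1
  have hZA : ∀ b ∈ Z, b ∈ A ∧ ∀ j, c b j ∈ A := by
    intro b hb
    by_cases h0 : b = 0
    · rw [h0]
      exact ⟨zero_mem A, h0A⟩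
    · exact hZ'A b ((hZ'm b).2 ⟨h0, ((hZW b).1 hb).resolve_left h0⟩)
  have hcA : ∀ b j, c b j ∈ A := by
    intro b j
    by_cases h0 : c b j = 0
    · rw [h0]; exact zero_mem A
    · exact (hZA b (hcZ b j h0).1).2 j
  refine ⟨P₁ ∪ P₂, ?_, fun i => ?_, fun i => ?_⟩
  · have h1 : P₁.card ≤ ∑ b ∈ Z₀, μ b := Finset.card_biUnion_le.trans
      (Finset.sum_le_sum fun b _ => Finset.card_image_le.trans (Finset.card_range _).le)
    have h2 : P₂.card ≤ J.card := Finset.card_image_le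
    have h3 := Finset.card_union_le P₁ P₂
    have h4 : (w'' + m * ∑ b ∈ Z₀, μ b) / m ≤ w / m := Nat.div_le_div_right hw4
    rw [Nat.add_mul_div_left _ _ S.mpos] at h4
    have h5 : J.card + w' / m ≤ w'' / m := by convert hcnt
    omega
  · have h1 : W ∈ Polynomial.liftsRing (algebraMap A Ω) := by
      rw [Genf_prod W hWm]
      refine Genf_den A _ (fun b hb => (hZA b ((hZW b).2 (Or.inr ?_))).1) _
      rwa [Multiset.mem_toFinset, Polynomial.mem_roots hWm.ne_zero] at hb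
    have h2 := (Genf_mem A W).1 h1 i
    rwa [hWd, Polynomial.coeff_map] at h2
  · have h1 : g ∈ Polynomial.liftsRing (algebraMap A Ω) := by
      rw [hg]
      exact Genf_den A _ (fun b hb => (hZA b hb).1) _
    have h2 := gl_descend p A g (polar p Z e c) Z₁ hgm ((Genf_mem A g).1 h1)
      ((Genf_mem A _).1 (Genf_polar A p Z (fun b hb => (hZA b hb).1) e c hcA)) hpol hZ₁
      (hP ▸ hPdeg) i
    rwa [← hP, hPd, Polynomial.coeff_map] at h2

end Pool.Agent.MP_deef5c_ag.O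

end

section

/-! Cutting a local domain along elements of small transcendence degree. -/

open PowerSeries IsLocalRing Finset Function
open scoped Polynomial

namespace Pool.Agent.MP_deef5c_ag.O

universe u

theorem Dim_le_card {k Ω : Type u} [Field k] [CommRing Ω] [Algebra k Ω] {s : ℕ}
    (f : MvPolynomial (Fin s) k →ₐ[k] Ω) (hf : Injective f) (P : Finset Ω)
    (h : ∀ x, f x ∈ Algebra.adjoin k (P : Set Ω)) : s ≤ P.card := by
  have h1 := lift_trdeg_le_of_injective (f.codRestrict _ h)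
    (fun x y hxy => hf (congrArg Subtype.val hxy))
  have hr : ∀ x, MvPolynomial.aeval (R := k) (fun a : P => (a : Ω)) x ∈
      Algebra.adjoin k (P : Set Ω) := fun x => by
    have := Algebra.adjoin_range_eq_range_aeval k (fun a : P => (a : Ω))
    rw [Subtype.range_coe_subtype] at this
    exact this.ge ⟨x, rfl⟩
  have h2 := lift_trdeg_le_of_surjective
    ((MvPolynomial.aeval (R := k) (fun a : P => (a : Ω))).codRestrict _ hr) (by
      rintro ⟨y, hy⟩
      have := Algebra.adjoin_range_eq_range_aeval k (fun a : P => (a : Ω))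
      rw [Subtype.range_coe_subtype] at this
      obtain ⟨x, hx⟩ := this.le hy
      exact ⟨x, Subtype.ext hx⟩)
  simp only [MvPolynomial.trdeg_of_isDomain, Cardinal.mk_fintype, Fintype.card_fin,
    Fintype.card_coe, Cardinal.lift_natCast, Cardinal.lift_id] at h1 h2
  exact_mod_cast h1.trans h2

/-- Noether normalisation (`exists_finite_inj_algHom_of_fg`) of `adjoin k T ⊆ D` gives algebraically
independent `z_1 .. z_e` over which `T` is integral; `e ≤ P.card` because `adjoin k T` embeds in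
`adjoin k P` (transcendence degree).  Replace `z_i` by `z_i - π z_i ∈ m`, take `Q` from
`exists_prime_dim` over the ideal they generate and use
`ringKrullDim_le_ringKrullDim_quotient_add_card`.  Modulo `Q` an `a ∈ T` is a root of a monic
`X^e g` over `k` with `g 0 ≠ 0`, and `g a` is a unit, so `a ∈ Q`. -/
theorem dim_cut {k D Ω : Type u} [Field k] [CommRing D] [IsDomain D] [IsLocalRing D]
    [IsNoetherianRing D] [Algebra k D] (π : D →ₐ[k] k) [Field Ω] [Algebra k Ω] (ι : D →ₐ[k] Ω)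
    (hι : Injective ι) (P : Finset Ω) (T : Set D) (hT : T.Finite) (hTm : ∀ a ∈ T, π a = 0)
    (hTP : ∀ a ∈ T, ι a ∈ Algebra.adjoin k (P : Set Ω)) :
    ∃ Q : Ideal D, Q.IsPrime ∧ T ⊆ Q ∧ ringKrullDim D ≤ ringKrullDim (D ⧸ Q) + (P.card : ℕ) := by
  classical
  have : Algebra.FiniteType k (Algebra.adjoin k T) := Algebra.FiniteType.adjoin_of_finite hT
  obtain ⟨s, g, hg, hint⟩ := exists_integral_inj_algHom_of_fg k (Algebra.adjoin k T)
  let G : MvPolynomial (Fin s) k →ₐ[k] D := (Algebra.adjoin k T).val.comp g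
  have hs : s ≤ P.card := by
    refine Dim_le_card (ι.comp G) (hι.comp (Subtype.val_injective.comp hg)) P fun x => ?_
    have : Algebra.adjoin k T ≤ (Algebra.adjoin k (P : Set Ω)).comap ι := Algebra.adjoin_le hTP
    exact this (g x).2
  let c : Fin s → k := fun i => π (G (MvPolynomial.X i))
  let z : Fin s → D := fun i => G (MvPolynomial.X i) - algebraMap k D (c i)
  have hz : ((univ.image z : Finset D) : Set D) ⊆ maximalIdeal D := by
    intro a ha
    obtain ⟨i, -, rfl⟩ := mem_image.1 (mem_coe.1 ha)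
    intro hu
    have := (hu.map π).ne_zero
    simp [z, c] at this
  have hJ : Ideal.span ((univ.image z : Finset D) : Set D) ≠ ⊤ :=
    ne_top_of_le_ne_top (maximalIdeal.isMaximal D).ne_top (Ideal.span_le.2 hz)
  obtain ⟨Q, hQ, hJQ, hd⟩ := exists_prime_dim _ hJ
  refine ⟨Q, hQ, fun a ha => ?_, ?_⟩
  · obtain ⟨π', hπ'⟩ := exists_piAlg_quot π Q hQ.ne_top
    have hG : (Ideal.Quotient.mkₐ k Q).comp G =
        (Algebra.ofId k (D ⧸ Q)).comp (MvPolynomial.aeval c) := by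
      ext i
      have : z i ∈ Q := hJQ (Ideal.subset_span (mem_coe.2 (mem_image_of_mem _ (mem_univ i))))
      simpa using Ideal.Quotient.eq.2 this
    obtain ⟨p, hp, hpa⟩ := hint ⟨a, Algebra.subset_adjoin ha⟩
    have hi : IsIntegral k (Ideal.Quotient.mk Q a) := by
      refine ⟨p.map (MvPolynomial.aeval c : MvPolynomial (Fin s) k →ₐ[k] k), hp.map _, ?_⟩
      have h1 := congrArg ((Ideal.Quotient.mk Q).comp (Algebra.adjoin k T).val.toRingHom) hpa
      rw [Polynomial.hom_eval₂, map_zero] at h1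
      rw [Polynomial.eval₂_map, ← h1]
      congr 1
      exact congrArg AlgHom.toRingHom hG.symm
    by_contra hna
    have := ((hi.isUnit fun h => hna (Ideal.Quotient.eq_zero_iff_mem.1 h)).map π').ne_zero
    exact this ((hπ' a).trans (hTm a ha))
  · refine (ringKrullDim_le_ringKrullDim_quotient_add_card (univ.image z)
      (by rwa [ringJacobson_eq_maximalIdeal])).trans (add_le_add hd ?_)
    have : (univ.image z).card ≤ P.card := card_image_le.trans (by simpa using hs)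
    exact_mod_cast this

end Pool.Agent.MP_deef5c_ag.O

end

section

/-! Auxiliary facts on polynomials for the comparison of integral models. -/

open Polynomial Finset Function

namespace Pool.Agent.MP_deef5c_ag.O

universe u

namespace TrivA.Aux

theorem pow_dvd {A : Type u} [CommRing A] [IsDomain A] {ϖ : A} (hϖ : Prime ϖ) {Q : A[X]}
    (hQ : Q.Monic) (M : ℕ) : ∀ u : A, (Q.scaleRoots (ϖ ^ M)).eval u = 0 → ϖ ^ M ∣ u := by
  induction M with
  | zero => intro u _; simp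
  | succ M ih =>
    intro u hu
    rw [pow_succ, scaleRoots_mul] at hu
    have hR : (Q.scaleRoots (ϖ ^ M)).Monic := (monic_scaleRoots_iff _).mpr hQ
    set R := Q.scaleRoots (ϖ ^ M) with hRdef
    have h1 : ϖ ∣ u := by
      have h2 := hu
      rw [eval_eq_sum_range, natDegree_scaleRoots, Finset.sum_range_succ,
        coeff_scaleRoots_natDegree, hR.leadingCoeff, one_mul, add_eq_zero_iff_neg_eq] at h2
      refine hϖ.dvd_of_dvd_pow (n := R.natDegree) ?_
      rw [← h2, dvd_neg]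
      refine Finset.dvd_sum fun i hi => ?_
      rw [coeff_scaleRoots]
      have := Finset.mem_range.mp hi
      exact Dvd.dvd.mul_right (Dvd.dvd.mul_left (dvd_pow_self _ (by omega)) _) _
    obtain ⟨u₁, rfl⟩ := h1
    rw [scaleRoots_eval_mul, mul_eq_zero] at hu
    have h3 := ih u₁ (hu.resolve_left (pow_ne_zero _ hϖ.ne_zero))
    rw [pow_succ']
    exact mul_dvd_mul_left _ h3

theorem dvd_root {A : Type u} [CommRing A] [IsDomain A] {ϖ : A} (hϖ : Prime ϖ) {Q : A[X]}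
    (hQ : Q.Monic) {M : ℕ} {E u : A} (hE : E ∣ ϖ ^ M) (hu : (Q.scaleRoots E).eval u = 0) :
    E ∣ u := by
  obtain ⟨t, ht⟩ := hE
  have ht0 : t ≠ 0 := by
    rintro rfl
    exact pow_ne_zero M hϖ.ne_zero (by simpa using ht)
  have h1 := pow_dvd hϖ hQ M (t * u) (by
    rw [ht, scaleRoots_mul, scaleRoots_eval_mul, hu, mul_zero])
  rw [ht, mul_comm] at h1
  exact (mul_dvd_mul_iff_left ht0).mp h1

theorem lift_fix {A B : Type u} [CommRing A] [CommRing B] (j : B →+* A) (ρ : A →+* A)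
    (hfix : ∀ a, ρ a = a ↔ ∃ b, j b = a) {a : A[X]} (ha : a.map ρ = a) : a ∈ lifts j := by
  rw [lifts_iff_coeff_lifts]
  intro n
  refine (hfix _).1 ?_
  rw [← coeff_map, ha]

theorem ker_le (p : ℕ) [Fact p.Prime] {A A₀ B : Type u} [CommRing A] [IsDomain A] [CharP A p]
    [CommRing A₀] [CommRing B] (j : B →+* A) (hj : Injective j) (j₀ : B →+* A₀)
    (ρ : A →+* A) (hρ : ∀ b, ρ (j b) = j b)
    (Y : A) (Y₀ : A₀) (e g : B) (he : e ≠ 0) (hY : ρ Y = Y + j e)
    (hg : Y ^ p - j e ^ (p - 1) * Y = j g) (hg₀ : Y₀ ^ p - j₀ e ^ (p - 1) * Y₀ = j₀ g)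
    (a : B[X]) (ha : a.eval₂ j Y = 0) : a.eval₂ j₀ Y₀ = 0 := by
  have hp : 1 < p := (Fact.out : p.Prime).one_lt
  have : Nontrivial B := j.domain_nontrivial
  let P : B[X] := X ^ p - (C (e ^ (p - 1)) * X + C g)
  have hlt : (C (e ^ (p - 1)) * X + C g : B[X]).degree < (p : ℕ) :=
    lt_of_le_of_lt degree_linear_le (by exact_mod_cast hp)
  have hP : P.Monic := monic_X_pow_sub hlt
  have hPd : P.degree = p := by
    rw [degree_sub_eq_left_of_degree_lt] <;> rw [degree_X_pow]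
    exact hlt
  have hPY : P.eval₂ j Y = 0 := by
    simp only [P, eval₂_sub, eval₂_add, eval₂_mul, eval₂_C, eval₂_X, eval₂_X_pow]
    rw [← hg, map_pow]; ring
  have hPY₀ : P.eval₂ j₀ Y₀ = 0 := by
    simp only [P, eval₂_sub, eval₂_add, eval₂_mul, eval₂_C, eval₂_X, eval₂_X_pow]
    rw [← hg₀, map_pow]; ring
  have hdiv := modByMonic_add_div a P
  have hr : (a %ₘ P).eval₂ j Y = 0 := by
    have := congrArg (eval₂ j Y) hdiv
    rwa [eval₂_add, eval₂_mul, hPY, zero_mul, add_zero, ha] at this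
  have hr0 : a %ₘ P = 0 := by
    by_contra hne
    have hd : (a %ₘ P).natDegree < p := by
      have := degree_modByMonic_lt a hP
      rw [hPd] at this
      exact (natDegree_lt_iff_degree_lt hne).mpr this
    have he' : j e ≠ 0 := (map_ne_zero_iff j hj).mpr he
    have h0 : (a %ₘ P).map j = 0 := by
      refine eq_zero_of_natDegree_lt_card_of_eval_eq_zero _
        (f := fun i : Fin p => Y + ((i : ℕ) : A) * j e) ?_ ?_ ?_
      · intro i i' h
        have h1 : ((i : ℕ) : A) = ((i' : ℕ) : A) := mul_right_cancel₀ he' (add_left_cancel h)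
        exact Fin.ext (CharP.natCast_injOn_Iio A p i.2 i'.2 h1)
      · intro i
        rw [eval_map, ← Abs.Aux.pow_shift ρ (hρ e) hY i]
        have h1 := congrArg (ρ ^ (i : ℕ)) hr
        rw [map_zero, hom_eval₂] at h1
        have h2 : (ρ ^ (i : ℕ)).comp j = j := RingHom.ext fun b => Abs.Aux.pow_fix ρ (hρ b) i
        rwa [h2] at h1
      · rw [Fintype.card_fin]
        exact lt_of_le_of_lt natDegree_map_le hd
    exact hne ((Polynomial.map_eq_zero_iff hj).mp h0)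
  rw [← hdiv, hr0, zero_add, eval₂_mul, hPY₀, zero_mul]

theorem integral (p : ℕ) [Fact p.Prime] {A B : Type u} [CommRing A] [CommRing B] (j : B →+* A)
    (ρ : A →+* A) (hρ : ∀ a, (ρ ^ p) a = a) (hfix : ∀ a, ρ a = a ↔ ∃ b, j b = a) (z : A) :
    ∃ Q : B[X], Q.Monic ∧ Q.eval₂ j z = 0 := by
  have hp : 0 < p := (Fact.out : p.Prime).pos
  let Q : A[X] := ∏ i ∈ range p, (X - C ((ρ ^ i) z))
  have hQ : Q.Monic := monic_prod_of_monic _ _ fun i _ => monic_X_sub_C _
  have hm : Q.map ρ = Q := by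
    simp only [Q, Polynomial.map_prod, Polynomial.map_sub, map_X, map_C,
      ← Abs.Aux.pow_succ_apply]
    obtain ⟨q, rfl⟩ : ∃ q, p = q + 1 := ⟨p - 1, by omega⟩
    rw [Finset.prod_range_succ, Finset.prod_range_succ' (fun i => X - C ((ρ ^ i) z)), hρ]
    rfl
  obtain ⟨Q', h1, -, h2⟩ := lifts_and_natDegree_eq_and_monic (lift_fix j ρ hfix hm) hQ
  refine ⟨Q', h2, ?_⟩
  rw [← eval_map, h1, eval_prod]
  exact Finset.prod_eq_zero (Finset.mem_range.mpr hp) (by simp)

end TrivA.Aux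

end Pool.Agent.MP_deef5c_ag.O

end

section

/-! Comparison of two integral models of an Artin-Schreier cover. -/

open PowerSeries IsLocalRing Finset Function
open scoped Polynomial

namespace Pool.Agent.MP_deef5c_ag.O

universe u

/-- Let `κ : B[T] → A`, `T ↦ Y`, and `κ₀ : B[T] → A₀`.  `ker κ` is generated by the monic
`T^p - e^(p-1) T - g` (a remainder of degree `< p` vanishing at `Y` vanishes at the `p` points
`Y + i e`), so `ker κ ≤ ker κ₀`.  By `interp`, `e^(p-1) z = κ a`; put `Ψ₀ z = κ₀ a / j₀ e^(p-1)` in the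
fraction field of `A₀`, a ring map.  `Ψ₀ z` is integral over `A₀` (`z` is a root of `∏ (T - ρ^i z)`) and
`ϖ^M' Ψ₀ z ∈ A₀`; as `ϖ` is prime, `Ψ₀ z ∈ A₀` (if `ϖ^M' w = u` with `M' > 0`, the integral equation
gives `ϖ ∣ u^d`). -/
theorem triv_abs (p : ℕ) [Fact p.Prime] {A A₀ B : Type u} [CommRing A] [IsDomain A] [CharP A p]
    [CommRing A₀] [IsDomain A₀] [CommRing B] (j : B →+* A) (hj : Injective j) (j₀ : B →+* A₀)
    (ρ : A →+* A) (hρ : ∀ a, (ρ ^ p) a = a) (hfix : ∀ a, ρ a = a ↔ ∃ b, j b = a)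
    (Y : A) (Y₀ : A₀) (e g : B) (he : e ≠ 0) (hY : ρ Y = Y + j e)
    (hg : Y ^ p - j e ^ (p - 1) * Y = j g) (hg₀ : Y₀ ^ p - j₀ e ^ (p - 1) * Y₀ = j₀ g)
    (ϖ : A₀) (hϖ : Prime ϖ) (M : ℕ) (hM : j₀ e ∣ ϖ ^ M) :
    ∃ Ψ : A →+* A₀, (∀ b, Ψ (j b) = j₀ b) ∧ Ψ Y = Y₀ := by
  have hfj : ∀ b, ρ (j b) = j b := fun b => (hfix _).2 ⟨b, rfl⟩
  have hker := TrivA.Aux.ker_le p j hj j₀ ρ hfj Y Y₀ e g he hY hg hg₀
  have heq : ∀ a a' : B[X], a.eval₂ j Y = a'.eval₂ j Y → a.eval₂ j₀ Y₀ = a'.eval₂ j₀ Y₀ := by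
    intro a a' h
    have := hker (a - a') (by rw [Polynomial.eval₂_sub, h, sub_self])
    rwa [Polynomial.eval₂_sub, sub_eq_zero] at this
  set s : B := e ^ (p - 1) with hs
  have hdvd : j₀ s ∣ ϖ ^ (M * (p - 1)) := by
    rw [hs, map_pow, pow_mul]
    exact pow_dvd_pow_of_dvd hM _
  have hs0 : j₀ s ≠ 0 := by
    intro h
    rw [h, zero_dvd_iff] at hdvd
    exact pow_ne_zero _ hϖ.ne_zero hdvd
  have hex : ∀ z : A, ∃ (w : A₀) (a : B[X]), a.eval₂ j Y = j s * z ∧ a.eval₂ j₀ Y₀ = j₀ s * w := by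
    intro z
    obtain ⟨a', -, h1, h2⟩ := interp p ρ hρ Y (j e) (hfj e) hY z
    obtain ⟨a, rfl⟩ := (Polynomial.mem_lifts _).1 (TrivA.Aux.lift_fix j ρ hfix h1)
    rw [Polynomial.eval_map, ← map_pow] at h2
    obtain ⟨Q, hQ, hQz⟩ := TrivA.Aux.integral p j ρ hρ hfix z
    have h3 := hker ((Q.scaleRoots s).comp a) (by
      rw [Polynomial.eval₂_comp, h2]
      exact Polynomial.scaleRoots_eval₂_eq_zero j hQz)
    rw [Polynomial.eval₂_comp, ← Polynomial.eval_map,
      Polynomial.map_scaleRoots _ _ _ (by rw [hQ.leadingCoeff, map_one]; exact one_ne_zero)] at h3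
    obtain ⟨w, hw⟩ := TrivA.Aux.dvd_root hϖ (hQ.map j₀) hdvd h3
    exact ⟨w, a, h2, hw⟩
  choose Ψ a ha ha₀ using hex
  have huniq : ∀ (z : A) (w : A₀) (b : B[X]), b.eval₂ j Y = j s * z → b.eval₂ j₀ Y₀ = j₀ s * w →
      Ψ z = w := by
    intro z w b h1 h2
    have := heq (a z) b (by rw [ha, h1])
    rw [ha₀, h2] at this
    exact mul_left_cancel₀ hs0 this
  have hj' : ∀ b, Ψ (j b) = j₀ b := fun b => huniq _ _ (Polynomial.C (s * b)) (by simp) (by simp)
  refine ⟨{ toFun := Ψ, map_one' := ?_, map_mul' := ?_, map_zero' := ?_, map_add' := ?_ }, hj', ?_⟩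
  · simpa using hj' 1
  · intro z z'
    have := heq (Polynomial.C s * a (z * z')) (a z * a z') (by
      simp only [Polynomial.eval₂_mul, Polynomial.eval₂_C, ha]; ring)
    simp only [Polynomial.eval₂_mul, Polynomial.eval₂_C, ha₀] at this
    apply mul_left_cancel₀ (mul_ne_zero hs0 hs0)
    linear_combination this
  · simpa using hj' 0
  · intro z z'
    refine huniq _ _ (a z + a z') ?_ ?_
    · rw [Polynomial.eval₂_add, ha, ha, mul_add]
    · rw [Polynomial.eval₂_add, ha₀, ha₀, mul_add]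
  · exact huniq _ _ (Polynomial.C s * Polynomial.X) (by simp) (by simp)

end Pool.Agent.MP_deef5c_ag.O

end

section

/-! A family with constant Artin-Schreier equation is trivial. -/

open PowerSeries IsLocalRing Finset Function
open scoped Polynomial

namespace Pool.Agent.MP_deef5c_ag.O

universe u

variable {k : Type u} [Field k] {p n m α : ℕ} [Fact p.Prime] [CharP k p] {ζ : k} {σ σ' : En k}
  {s : k⟦X⟧}

theorem TrivC_pow {R : Type u} [CommRing R] (φ : En R) (i : ℕ) (a : R⟦X⟧) :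
    ((φ : R⟦X⟧ →+* R⟦X⟧) ^ i) a = (φ ^ i) a := by
  induction i with
  | zero => rfl
  | succ i ih =>
    rw [pow_succ', pow_succ', RingHom.mul_def, RingHom.comp_apply, ih]
    rfl

theorem TrivC_map_cst {R : Type u} [CommRing R] [Algebra k R] (π : R →ₐ[k] k) (f : k⟦X⟧) :
    PowerSeries.map (π : R →+* k) (cst R f) = f := by
  ext a
  simp

theorem TrivC_eval {A B : Type u} [CommRing A] [CommRing B] (F G : A →+* B) (a : A[X]) (Y : A)
    (ha : ∀ i, F (a.coeff i) = G (a.coeff i)) (hY : F Y = G Y) : F (a.eval Y) = G (a.eval Y) := by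
  rw [Polynomial.eval_eq_sum_range, map_sum, map_sum]
  refine Finset.sum_congr rfl fun i _ => ?_
  rw [map_mul, map_mul, map_pow, map_pow, ha, hY]

variable {D : Type u} [CommRing D] [IsDomain D] [IsLocalRing D] [CL D] [Algebra k D]

/-- `triv_abs` with `A = A₀ = B = D⟦X⟧`, `j = sub sD`, `j₀ = sub (cst s)`, `Y₀ = cst (map π Y)`, `ϖ = X`
(`X_prime`), `Fam.rho_fix`.  `Ψ` is `D`-linear.  Apply `Ψ` to `j e^(p-1) X = ∑ j (a i) Y^i` (`interp`) and
reduce: `map π (Ψ X) = X`.  The inverse `Φ` of `Ψ` (`exists_inv`) sends `cst s` to `sD`, hence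
`cst x = sub (cst s) (cst x')` to `x`. -/
theorem triv_conc (S : Sp p (n + 1) m α ζ σ) (h : Desc p n σ σ' s) (S' : Sp p n m α (ζ ^ p) σ')
    {π : D →ₐ[k] k} {σD : En D} {x sD : D⟦X⟧} (L : Lev p n α ζ σ σ' s π σD x sD)
    (e g : k⟦X⟧) (he : e ≠ 0) (Y : D⟦X⟧) (hY : (σD ^ p ^ n) Y = Y + sub sD (cst D e))
    (hg : Y ^ p - sub sD (cst D e) ^ (p - 1) * Y = sub sD (cst D g)) :
    Triv π (xb p (n + 1) σ) x := by
  have hp : 0 < p := (Fact.out : p.Prime).pos
  have hπ : Surjective (π : D →+* k) := fun c => ⟨algebraMap k D c, π.commutes c⟩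
  have hid : Surjective (RingHom.id k) := fun c => ⟨c, rfl⟩
  have : CharP D⟦X⟧ p := charP_of_injective_algebraMap (algebraMap k D⟦X⟧).injective p
  have os : order s = p := h.order_s S
  have os0 : order (PowerSeries.map (RingHom.id k) s) = p := by rwa [PowerSeries.map_id]
  have osD : order (PowerSeries.map (π : D →+* k) sD) = p := by rwa [L.red]
  have osC : order (PowerSeries.map (π : D →+* k) (cst D s)) = p := by rwa [TrivC_map_cst]
  have ms := Qb_mem _ hid s p hp os0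
  have mD := Qb_mem _ hπ sD p hp osD
  have mC := Qb_mem _ hπ _ p hp osC
  have rD : ∀ f, PowerSeries.map (π : D →+* k) (sub sD f) =
      sub s (PowerSeries.map (π : D →+* k) f) :=
    map_en _ _ _ (by rw [sub_X mD, sub_X ms, L.red]) (by rwa [sub_X ms])
  have rC : ∀ f, PowerSeries.map (π : D →+* k) (sub (cst D s) f) =
      sub s (PowerSeries.map (π : D →+* k) f) :=
    map_en _ _ _ (by rw [sub_X mC, sub_X ms, TrivC_map_cst]) (by rwa [sub_X ms])
  have cC : ∀ f, cst D (sub s f) = sub (cst D s) (cst D f) :=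
    map_en _ _ _ (by rw [sub_X mC, sub_X ms]) (by rwa [sub_X mC])
  have hρ : ∀ a, (((σD ^ p ^ n : En D) : D⟦X⟧ →+* D⟦X⟧) ^ p) a = a := fun a => by
    rw [TrivC_pow, ← pow_mul, ← pow_succ, L.fam.rel.1]
    rfl
  have hfix := L.fam.rho_fix S h L.red L.inv
  have he' : cst D e ≠ 0 := fun h0 => he (by rw [← TrivC_map_cst π e, h0, map_zero])
  have hse : sub s e ≠ 0 := fun h0 =>
    he (sub_injective _ hid s p hp os0 (h0.trans (map_zero _).symm))
  have hg₀ : cst D (PowerSeries.map (π : D →+* k) Y) ^ p -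
      sub (cst D s) (cst D e) ^ (p - 1) * cst D (PowerSeries.map (π : D →+* k) Y) =
      sub (cst D s) (cst D g) := by
    have h1 := congrArg (fun f => cst D (PowerSeries.map (π : D →+* k) f)) hg
    simpa only [map_sub, map_mul, map_pow, rD, TrivC_map_cst, cC] using h1
  obtain ⟨M, hM⟩ := IsDiscreteValuationRing.associated_pow_irreducible hse
    (PowerSeries.X_irreducible (R := k))
  have hM' : sub (cst D s) (cst D e) ∣ X ^ M := by
    have h1 := map_dvd (cst D) hM.dvd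
    rwa [cC, map_pow, PowerSeries.map_X] at h1
  obtain ⟨Ψ, hΨ, hΨY⟩ := triv_abs p (sub sD : D⟦X⟧ →+* D⟦X⟧) (sub_injective _ hπ sD p hp osD)
    (sub (cst D s) : D⟦X⟧ →+* D⟦X⟧) ((σD ^ p ^ n : En D) : D⟦X⟧ →+* D⟦X⟧) hρ hfix Y
    (cst D (PowerSeries.map (π : D →+* k) Y)) (cst D e) (cst D g) he' hY hg hg₀ X
    PowerSeries.X_prime M hM'
  have hΨ' : ∀ b, Ψ (sub sD b) = sub (cst D s) b := hΨ
  let Ψ' : En D :=
    { Ψ with
      commutes' := fun a => by
        have h1 := hΨ' (C a)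
        rw [Base_en_C, Base_en_C] at h1
        exact h1 }
  have hΨe : ∀ f, Ψ' f = Ψ f := fun _ => rfl
  obtain ⟨a, -, ha, hev⟩ := interp p ((σD ^ p ^ n : En D) : D⟦X⟧ →+* D⟦X⟧) hρ Y
    (sub sD (cst D e)) ((hfix _).2 ⟨_, rfl⟩) hY X
  have hX : PowerSeries.map (π : D →+* k) (Ψ X) = X := by
    have h1 := TrivC_eval ((PowerSeries.map (π : D →+* k)).comp Ψ)
      (PowerSeries.map (π : D →+* k)) a Y (fun i => ?_) ?_
    · rw [hev, RingHom.comp_apply] at h1
      simp only [map_mul, map_pow, hΨ', rC, rD, TrivC_map_cst, PowerSeries.map_X] at h1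
      exact mul_left_cancel₀ (pow_ne_zero _ hse) h1
    · have h2 : (σD ^ p ^ n) (a.coeff i) = a.coeff i := by
        conv_rhs => rw [← ha, Polynomial.coeff_map]
        rfl
      obtain ⟨b, hb⟩ := (hfix _).1 h2
      rw [← hb, RingHom.comp_apply, hΨ', rC, rD]
    · rw [RingHom.comp_apply, hΨY, TrivC_map_cst]
  obtain ⟨Φ, h1, h2⟩ := exists_inv _ hπ Ψ' (by rw [hΨe, hX, order_X])
  refine ⟨Φ, ?_, ?_⟩
  · have h3 := map_en (π : D →+* k) Ψ' 1 hX (by simp) (Φ X)
    have h4 : Ψ' (Φ X) = X := by rw [← AlgHom.mul_apply, h1, AlgHom.one_apply]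
    rw [h4, PowerSeries.map_X, AlgHom.one_apply] at h3
    exact h3.symm
  · rw [← h.hx, cC, ← hΨ', L.hx, ← hΨe, ← AlgHom.mul_apply, h2, AlgHom.one_apply]

end Pool.Agent.MP_deef5c_ag.O

end

section

/-! One step of the upper bound. -/

open PowerSeries IsLocalRing Finset Function
open scoped Polynomial

namespace Pool.Agent.MP_deef5c_ag.O

universe u

variable {k : Type u} [Field k] {p n m α : ℕ} [Fact p.Prime] [CharP k p] {ζ : k} {σ σ' : En k}
  {s : k⟦X⟧}

variable {D : Type u} [CommRing D] [IsDomain D] [IsLocalRing D] [CL D] [Algebra k D]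

omit [IsDomain D] [IsLocalRing D] [CL D] in
theorem Step_surj (π : D →ₐ[k] k) : Surjective (π : D →+* k) :=
  fun y => ⟨algebraMap k D y, π.commutes y⟩

omit [IsDomain D] [IsLocalRing D] [CL D] in
theorem Step_mm {D₀ : Type u} [CommRing D₀] [Algebra k D₀] {π₀ : D₀ →ₐ[k] k} (φ : D₀ →ₐ[k] D)
    (π : D →ₐ[k] k) (hπ : ∀ a, π (φ a) = π₀ a) (f : D₀⟦X⟧) :
    PowerSeries.map (π : D →+* k) (PowerSeries.map (φ : D₀ →+* D) f) =
      PowerSeries.map (π₀ : D₀ →+* k) f := by
  ext i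
  simp only [coeff_map, RingHom.coe_coe, hπ]

omit [IsDomain D] [IsLocalRing D] [CL D] in
theorem Step_cst {D₀ : Type u} [CommRing D₀] [Algebra k D₀] (φ : D₀ →ₐ[k] D) (g : k⟦X⟧) :
    PowerSeries.map (φ : D₀ →+* D) (cst D₀ g) = cst D g := by
  ext i
  simp only [coeff_map, RingHom.coe_coe, AlgHom.commutes]

theorem Step_aeval {D₀ D₁ : Type u} [CommRing D₀] [CommRing D₁] (φ : D₀ →+* D₁) (x : D₀⟦X⟧)
    (P : D₀[X]) : PowerSeries.map φ (Polynomial.aeval x P) =
      Polynomial.aeval (PowerSeries.map φ x) (P.map φ) := by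
  refine Polynomial.map_aeval_eq_aeval_map (φ := φ) (ψ := PowerSeries.map φ) ?_ P x
  ext1 a
  show C (φ a) = PowerSeries.map φ (C a)
  rw [map_C]

/-- the base change of a family in which `Wf` becomes `X^(l+1)` and `P₀` vanishes is trivial -/
theorem Step_triv (S : Sp p (n + 1) m α ζ σ) (h : Desc p n σ σ' s) (S' : Sp p n m α (ζ ^ p) σ')
    {D₀ : Type u} [CommRing D₀] [IsLocalRing D₀] [CL D₀] [Algebra k D₀]
    {π₀ : D₀ →ₐ[k] k} {σD : En D₀} {x sD : D₀⟦X⟧} (L : Lev p n α ζ σ σ' s π₀ σD x sD)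
    {N l : ℕ} {G : k⟦X⟧} {Wf P₀ : D₀[X]} {Y : D₀⟦X⟧} (H : NF p n N π₀ σD x sD G Wf P₀ Y)
    (φ : D₀ →ₐ[k] D) (π : D →ₐ[k] k) (hπ : ∀ a, π (φ a) = π₀ a)
    (hW : Wf.map (φ : D₀ →+* D) = Polynomial.X ^ (l + 1)) (hP : P₀.map (φ : D₀ →+* D) = 0) :
    Triv π (xb p (n + 1) σ) (PowerSeries.map (φ : D₀ →+* D) x) := by
  have hp : 0 < p := (Fact.out : p.Prime).pos
  have F := Fam.map S L.fam φ π hπ
  have hs : PowerSeries.map (π : D →+* k) (PowerSeries.map (φ : D₀ →+* D) sD) = s := by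
    rw [Step_mm φ π hπ, L.red]
  have hm0 : constantCoeff sD ∈ maximalIdeal D₀ :=
    Qb_mem (π₀ : D₀ →+* k) (Step_surj π₀) sD p hp (by rw [L.red, Desc.order_s S h])
  have hm : constantCoeff (PowerSeries.map (φ : D₀ →+* D) sD) ∈ maximalIdeal D :=
    Qb_mem (π : D →+* k) (Step_surj π) _ p hp (by rw [hs, Desc.order_s S h])
  have hJ : ∀ g : k⟦X⟧, PowerSeries.map (φ : D₀ →+* D) (sub sD (cst D₀ g)) =
      sub (PowerSeries.map (φ : D₀ →+* D) sD) (cst D g) := fun g => by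
    rw [map_en (φ : D₀ →+* D) (sub sD) (sub (PowerSeries.map (φ : D₀ →+* D) sD))
      (by rw [sub_X hm0, sub_X hm]) (by rwa [sub_X hm]), Step_cst]
  have hx : sub (PowerSeries.map (φ : D₀ →+* D) sD) (cst D (xb p n σ')) =
      PowerSeries.map (φ : D₀ →+* D) x := by
    rw [← hJ, L.hx]
  have hσ : constantCoeff (PowerSeries.map (φ : D₀ →+* D) (σD X)) ∈ maximalIdeal D :=
    Qb_mem (π : D →+* k) (Step_surj π) _ 1 one_pos (by
      rw [Step_mm φ π hπ, L.fam.red, order_one (pow_pos hp _) S.pow, Nat.cast_one])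
  have L' := lev_of S h S' F hs hx
  have he : sub (PowerSeries.map (φ : D₀ →+* D) sD) (cst D (xb p n σ' ^ (N * (l + 2)))) =
      PowerSeries.map (φ : D₀ →+* D) (Polynomial.aeval x ((Polynomial.X * Wf) ^ N)) := by
    rw [map_pow, map_pow, hx, Step_aeval, Polynomial.map_pow, Polynomial.map_mul, hW,
      Polynomial.map_X, map_pow, map_mul, map_pow, Polynomial.aeval_X]
    ring
  refine triv_conc S h S' L' (xb p n σ' ^ (N * (l + 2))) (xb p n σ' ^ ((l + 1) * (p * N)) * G)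
    (pow_ne_zero _ fun h0 => ?_) (PowerSeries.map (φ : D₀ →+* D) Y) ?_ ?_
  · have h1 := S'.order_xb
    rw [h0, order_zero] at h1
    exact ENat.top_ne_natCast _ h1
  · rw [he, ← map_add, ← H.rho]
    exact (map_en_pow (φ : D₀ →+* D) σD _ (sub_X hσ).symm (by rwa [sub_X hσ]) _ Y).symm
  · have h1 := congrArg (PowerSeries.map (φ : D₀ →+* D)) H.art
    have h2 : PowerSeries.map (φ : D₀ →+* D) (Polynomial.aeval x Wf) =
        PowerSeries.map (φ : D₀ →+* D) x ^ (l + 1) := by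
      rw [Step_aeval, hW, map_pow, Polynomial.aeval_X]
    have h3 : PowerSeries.map (φ : D₀ →+* D) (Polynomial.aeval x P₀) = 0 := by
      rw [Step_aeval, hP, map_zero]
    rw [he]
    generalize Polynomial.aeval x ((Polynomial.X * Wf) ^ N) = a at h1 ⊢
    generalize Polynomial.aeval x Wf = b at h1 h2
    rw [map_add, h3, add_zero, map_sub, map_mul, map_mul, hJ, map_pow, map_pow, map_pow, h2,
      ← pow_mul] at h1
    rw [h1, map_mul, map_mul, map_pow, map_pow, hx]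

/-- `sf`, `exists_wf`, `exists_nf`, `nf_eqv`, `genf` with `Ω = AlgebraicClosure (FractionRing D)`, then
`dim_cut` for `T` the coefficients of `P₀` and the non-leading coefficients of `Wf`.  Over `D' = D ⧸ Q`
(`local_quot`, `CL.of_surj`, `exists_piAlg_quot`, `Fam.map`, `lev_of`) `Wf` becomes `X^(l+1)` and `P₀`
becomes `0`; apply `triv_conc` with `e = x'^(N(l+2))`, `g = x'^((l+1) p N) G`. -/
theorem step [IsAlgClosed k] (S : Sp p (n + 1) m α ζ σ) (h : Desc p n σ σ' s)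
    (S' : Sp p n m α (ζ ^ p) σ') {w w' : ℕ} (hw : IsW p (n + 1) σ w) (hw' : IsW p n σ' w')
    {π : D →ₐ[k] k} {σD : En D} {x sD : D⟦X⟧} (L : Lev p n α ζ σ σ' s π σD x sD) :
    ∃ d : ℕ, d + w' / m ≤ w / m ∧ TrivCut π d (xb p (n + 1) σ) x := by
  obtain ⟨N, Y₀, W, G, κ, u', l, c₀, z, r₀, A, O, hr, hG, hl, hw1, hw2⟩ := sf S h S' hw hw'
  obtain ⟨Wf, GF, υ, B⟩ := exists_wf S h S' L hl
  obtain ⟨P₀, Y, H, h1, h2⟩ := exists_nf S h S' L A B
  have hE := nf_eqv S h S' L A B H h1 h2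
  have hι : Injective (IsScalarTower.toAlgHom k D (AlgebraicClosure (FractionRing D))) := by
    intro a b hab
    have h3 : algebraMap (FractionRing D) (AlgebraicClosure (FractionRing D))
        (algebraMap D (FractionRing D) a) = algebraMap (FractionRing D)
          (AlgebraicClosure (FractionRing D)) (algebraMap D (FractionRing D) b) := by
      rw [← IsScalarTower.algebraMap_apply, ← IsScalarTower.algebraMap_apply]
      exact hab
    exact IsFractionRing.injective D (FractionRing D) ((algebraMap (FractionRing D) _).injective h3)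
  obtain ⟨P, hc, hP1, hP2⟩ := genf S h S' L B H hE O hr hG hw1 hw2 _ hι
  have hfin : ((fun i => P₀.coeff i) '' Set.Iic P₀.natDegree ∪
      (fun i => Wf.coeff i) '' Set.Iio (l + 1)).Finite :=
    ((Set.finite_Iic _).image _).union ((Set.finite_Iio _).image _)
  obtain ⟨Q, hQ, hTQ, hd⟩ := dim_cut π _ hι P _ hfin (by
      rintro a (⟨i, -, rfl⟩ | ⟨i, hi, rfl⟩)
      · have h3 := congrArg (fun R : k[X] => R.coeff i) H.red
        simp only [Polynomial.coeff_map, Polynomial.coeff_zero] at h3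
        exact h3
      · exact (pi_eq_zero_iff (π : D →+* k) (Step_surj π) _).2
          (B.dist.mem (by rw [B.deg]; exact hi))) (by
      rintro a (⟨i, -, rfl⟩ | ⟨i, -, rfl⟩)
      · exact hP2 i
      · exact hP1 i)
  haveI := local_quot Q hQ.ne_top
  haveI : CL (D ⧸ Q) := CL.of_surj (Ideal.Quotient.mk Q) Ideal.Quotient.mk_surjective
  obtain ⟨π', hπ'⟩ := exists_piAlg_quot π Q hQ.ne_top
  refine ⟨P.card, hc, D ⧸ Q, inferInstance, inferInstance, inferInstance, inferInstance,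
    inferInstance, Ideal.Quotient.mkₐ k Q, π', Ideal.Quotient.mk_surjective, hπ', hd, ?_⟩
  refine Step_triv (l := l) S h S' L H _ π' hπ' ?_ ?_
  · have hD : Wf.IsDistinguishedAt Q :=
      ⟨⟨fun {i} hi => hTQ (Or.inr ⟨i, by rwa [B.deg] at hi, rfl⟩)⟩, B.dist.monic⟩
    rw [← B.deg]
    exact hD.map_eq_X_pow
  · ext i
    rw [Polynomial.coeff_map, Polynomial.coeff_zero]
    rcases le_or_gt i P₀.natDegree with hi | hi
    · exact Ideal.Quotient.eq_zero_iff_mem.2 (hTQ (Or.inl ⟨i, hi, rfl⟩))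
    · rw [Polynomial.coeff_eq_zero_of_natDegree_lt hi, map_zero]

end Pool.Agent.MP_deef5c_ag.O

end

section

/-! The upper bound for families in characteristic p. -/

open PowerSeries IsLocalRing Finset Function
open scoped Polynomial

namespace Pool.Agent.MP_deef5c_ag.O

universe u

theorem Up_mem {k D : Type u} [Field k] [CommRing D] [IsLocalRing D] [Algebra k D] (π : D →ₐ[k] k)
    {f : D⟦X⟧} (h : constantCoeff (PowerSeries.map (π : D →+* k) f) = 0) :
    constantCoeff f ∈ maximalIdeal D :=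
  (pi_eq_zero_iff (π : D →+* k) (fun c => ⟨_, π.commutes c⟩) _).1 h

/-- Induction on `n`.  `triv_zero`; for the step use `exists_desc`, `exists_isW`, `Fam.desc`, the
induction hypothesis (giving `φ : D → D'` and `Φ'`), `Fam.map`, `lev_of` with
`sD' = sub (map φ sD) (Φ' X)`, then `step` over `D'` and compose the surjections. -/
theorem up {k : Type u} [Field k] [IsAlgClosed k] {p m α : ℕ} [Fact p.Prime] [CharP k p] (n : ℕ) :
    ∀ {ζ : k} {σ : En k} (_ : Sp p n m α ζ σ) {w : ℕ} (_ : IsW p n σ w) (D : Type u) [CommRing D]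
      [IsDomain D] [IsLocalRing D] [CL D] [Algebra k D] (π : D →ₐ[k] k) (σD : En D) (x : D⟦X⟧)
      (_ : Fam p n α ζ σ π σD x), TrivCut π (w / m) (xb p n σ) x := by
  induction n with
  | zero =>
    intro ζ σ S w _ D _ _ _ _ _ π σD x F
    refine ⟨D, _, ‹_›, ‹_›, ‹_›, _, AlgHom.id k D, π, surjective_id, fun _ => rfl,
      le_add_of_nonneg_right (Nat.cast_nonneg _), ?_⟩
    exact triv_zero S F
  | succ n ih =>
    intro ζ σ S w hw D _ _ _ _ _ π σD x F
    obtain ⟨σ', s, h, S'⟩ := exists_desc S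
    obtain ⟨w', hw'⟩ := exists_isW S'
    obtain ⟨σD', x', sD, F', hs, -, hx⟩ := F.desc S h S'
    obtain ⟨D', _, _, _, _, _, φ, π', h1, h2, h3, Φ, h4, h5⟩ := ih S' hw' D π σD' x' F'
    have s0 : constantCoeff s = 0 := by
      refine coeff_zero_eq_constantCoeff_apply s ▸ coeff_of_lt_order 0 ?_
      rw [h.order_s S]
      exact_mod_cast (Fact.out : p.Prime).pos
    have s1 : constantCoeff s ∈ maximalIdeal k := s0 ▸ zero_mem _
    have e : PowerSeries.map (π' : D' →+* k) (PowerSeries.map (φ : D →+* D') sD) = s :=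
      hs ▸ PowerSeries.ext fun i => h2 _
    have t0 := Up_mem π' (e ▸ s0)
    have t1 := Up_mem π (hs ▸ s0)
    have t2 := Up_mem π' (h4 ▸ constantCoeff_X)
    have t3 := (sub_X t0).symm ▸ t0
    have L := lev_of S h S' (F.map S φ π' h2) (sD := sub (PowerSeries.map (φ : D →+* D') sD) (Φ X))
      (by rw [map_en _ _ (sub s) (by rw [sub_X t0, sub_X s1, e]) ((sub_X s1).symm ▸ s1), h4,
        sub_X s1])
      (by
        rw [← hx, map_en _ _ _ (by rw [sub_X t0, sub_X t1]) t3, ← h5]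
        exact (DFunLike.congr_fun (eq_sub (_ * Φ) (en_mem _ t3 t2)) _).symm)
    obtain ⟨d, hd, D'', _, _, _, _, _, φ', π'', g1, g2, g3, g4⟩ := step S h S' hw hw' L
    refine ⟨D'', _, ‹_›, ‹_›, ‹_›, _, φ'.comp φ, π'', g1.comp h1, fun a => (g2 _).trans (h2 a),
      h3.trans ((add_le_add_left g3 _).trans ?_), g4⟩
    rw [add_assoc, ← Nat.cast_add]
    exact add_le_add_right (Nat.cast_le.2 hd) _

end Pool.Agent.MP_deef5c_ag.O

end

section

/-! The first order family is effective. -/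

open PowerSeries IsLocalRing Finset Function
open scoped Polynomial

namespace Pool.Agent.MP_deef5c_ag.O

universe u

namespace TanE

variable {k : Type u} [Field k] {A : Type u} [CommRing A] [Algebra k A]

/-- coefficientwise action of a linear form -/
noncomputable def lam (l : A →ₗ[k] k) : A⟦X⟧ →+ k⟦X⟧ where
  toFun f := PowerSeries.mk fun a => l (coeff a f)
  map_zero' := by ext a; simp
  map_add' f g := by ext a; simp

theorem coeff_lam (l : A →ₗ[k] k) (f : A⟦X⟧) (a : ℕ) : coeff a (lam l f) = l (coeff a f) :=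
  coeff_mk a fun a => l (coeff a f)

theorem lam_C (l : A →ₗ[k] k) (c : A) : lam l (C c) = C (l c) := by
  ext a
  rw [coeff_lam, coeff_C, coeff_C]
  split_ifs <;> simp

theorem pi_surj (π : A →ₐ[k] k) : Surjective (π : A →+* k) := fun c =>
  ⟨algebraMap k A c, π.commutes c⟩

theorem map_cst (π : A →ₐ[k] k) (g : k⟦X⟧) : PowerSeries.map (π : A →+* k) (cst A g) = g := by
  ext a
  rw [coeff_map, coeff_map]
  exact π.commutes _

variable [IsLocalRing A]

theorem cin_C {c : A} (hc : c ∈ maximalIdeal A) : CIn (maximalIdeal A) (C c) := fun a => by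
  rw [coeff_C]
  split_ifs
  exacts [hc, zero_mem _]

theorem l_mul (l : A →ₗ[k] k) (π : A →ₐ[k] k) (h2 : maximalIdeal A * maximalIdeal A = ⊥)
    {c : A} (hc : c ∈ maximalIdeal A) (d : A) : l (c * d) = l c * π d := by
  have h1 : d - algebraMap k A (π d) ∈ maximalIdeal A := by
    rw [← pi_eq_zero_iff (π : A →+* k) (pi_surj π), map_sub, sub_eq_zero]
    exact (π.commutes _).symm
  have h3 : c * (d - algebraMap k A (π d)) = 0 := by
    rw [← Ideal.mem_bot, ← h2]
    exact Ideal.mul_mem_mul hc h1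
  have h4 : c * d = π d • c := by
    rw [mul_sub, sub_eq_zero] at h3
    rw [h3, Algebra.smul_def, mul_comm]
  rw [h4, map_smul, smul_eq_mul, mul_comm]

theorem lam_mul (l : A →ₗ[k] k) (π : A →ₐ[k] k) (h2 : maximalIdeal A * maximalIdeal A = ⊥)
    {f : A⟦X⟧} (hf : CIn (maximalIdeal A) f) (g : A⟦X⟧) :
    lam l (f * g) = lam l f * PowerSeries.map (π : A →+* k) g := by
  ext a
  rw [coeff_lam, coeff_mul, coeff_mul, map_sum]
  refine sum_congr rfl fun x _ => ?_
  rw [l_mul l π h2 (hf _), coeff_lam, coeff_map]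
  rfl

theorem lam_C_mul (l : A →ₗ[k] k) (π : A →ₐ[k] k) (h2 : maximalIdeal A * maximalIdeal A = ⊥)
    {c : A} (hc : c ∈ maximalIdeal A) (g : A⟦X⟧) :
    lam l (C c * g) = C (l c) * PowerSeries.map (π : A →+* k) g := by
  rw [lam_mul l π h2 (cin_C hc), lam_C]

theorem lam_en [CL A] (l : A →ₗ[k] k) (π : A →ₐ[k] k)
    (h2 : maximalIdeal A * maximalIdeal A = ⊥) (ψ : En A) (σ : En k)
    (h : PowerSeries.map (π : A →+* k) (ψ X) = σ X) (h0 : constantCoeff (σ X) ∈ maximalIdeal k)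
    {f : A⟦X⟧} (hf : CIn (maximalIdeal A) f) : lam l (ψ f) = σ (lam l f) := by
  obtain ⟨n, s, hs⟩ := Submodule.fg_iff_exists_fin_generating_family.1
    (IsNoetherian.noetherian (maximalIdeal A))
  have h1 : ∀ a, ∃ c : Fin n → A, ∑ i, c i • s i = coeff a f := fun a =>
    (Submodule.mem_span_range_iff_exists_fun A).1 (hs ▸ hf a)
  choose c hc using h1
  have h3 : f = ∑ i, C (s i) * PowerSeries.mk fun a => c a i := by
    ext a
    rw [map_sum, ← hc a]
    exact sum_congr rfl fun i _ => by rw [coeff_C_mul, coeff_mk, smul_eq_mul, mul_comm]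
  have hm : ∀ i, s i ∈ maximalIdeal A := fun i => hs ▸ Submodule.subset_span ⟨i, rfl⟩
  rw [h3, map_sum, map_sum, map_sum, map_sum]
  refine sum_congr rfl fun i _ => ?_
  rw [map_mul, Base_en_C, lam_C_mul l π h2 (hm i), lam_C_mul l π h2 (hm i), map_mul, Base_en_C,
    map_en (π : A →+* k) ψ σ h h0]

theorem poly_zero {x : k⟦X⟧} (h0 : constantCoeff x = 0) (hx : x ≠ 0) (N : ℕ) :
    ∀ P : k[X], P.degree < N → x ^ N ∣ Polynomial.aeval x P → P = 0 := by
  induction N with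
  | zero =>
    intro P hP _
    by_contra h
    exact absurd (Polynomial.zero_le_degree_iff.2 h) (not_le.2 hP)
  | succ N ih =>
    intro P hP hd
    have e : Polynomial.aeval x P = Polynomial.aeval x P.divX * x + C (P.coeff 0) := by
      conv_lhs => rw [← Polynomial.divX_mul_X_add P]
      rw [map_add, map_mul, Polynomial.aeval_X, Polynomial.aeval_C]
      rfl
    have h1 : P.coeff 0 = 0 := by
      obtain ⟨g, hg⟩ := hd
      have := congrArg constantCoeff (e.symm.trans hg)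
      simpa [h0] using this
    have h3 : x ^ N ∣ Polynomial.aeval x P.divX := by
      rw [e, h1, map_zero, add_zero, pow_succ] at hd
      exact (mul_dvd_mul_iff_right hx).1 hd
    have h4 : P.divX.degree < N := by
      rw [Polynomial.degree_lt_iff_coeff_zero] at hP ⊢
      intro j hj
      rw [Polynomial.coeff_divX]
      exact hP _ (by omega)
    rw [← Polynomial.divX_mul_X_add P, ih _ h4 h3, h1]
    simp

theorem indep {x : k⟦X⟧} (h0 : constantCoeff x = 0) (hx : x ≠ 0) {N i : ℕ} (T : Finset (ℕ × ℕ))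
    (c : ℕ × ℕ → k) (hT : ∀ t ∈ T, t.1 = i → t.2 < N)
    (h : x ^ N ∣ ∑ t ∈ T.filter (fun t => t.1 = i), C (c t) * x ^ t.2) :
    ∀ t ∈ T, t.1 = i → c t = 0 := by
  have h1 := poly_zero h0 hx N (∑ t ∈ T.filter (fun t => t.1 = i), Polynomial.monomial t.2 (c t))
    (by
      rw [Polynomial.degree_lt_iff_coeff_zero]
      intro j hj
      rw [Polynomial.finsetSum_coeff]
      refine sum_eq_zero fun t ht => ?_
      have := hT t (mem_filter.1 ht).1 (mem_filter.1 ht).2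
      rw [Polynomial.coeff_monomial, if_neg (by omega)])
    (by
      rw [map_sum]
      simp only [Polynomial.aeval_monomial]
      exact h)
  intro t ht hi
  have h2 := congrArg (fun P : k[X] => P.coeff t.2) h1
  simp only [Polynomial.finsetSum_coeff, Polynomial.coeff_monomial, Polynomial.coeff_zero] at h2
  rw [sum_eq_single t, if_pos rfl] at h2
  · exact h2
  · intro t' ht' hne
    exact if_neg fun h3 => hne (Prod.ext ((mem_filter.1 ht').2.trans hi.symm) h3)
  · intro h3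
    exact absurd (mem_filter.2 ⟨ht, hi⟩) h3

theorem dl_apply (σ : En k) (f : k⟦X⟧) : dl σ f = σ f - f := rfl

theorem lin_C (L : Module.End k k⟦X⟧) (c : k) (f : k⟦X⟧) : L (C c * f) = C c * L f := by
  rw [← smul_eq_C_mul, ← smul_eq_C_mul, map_smul]

end TanE

variable {k : Type u} [Field k] {p n m α : ℕ} [Fact p.Prime] [CharP k p] {ζ : k} {σ : En k}

variable {A : Type u} [CommRing A] [IsLocalRing A] [CL A] [Algebra k A]

/-- `Φ X = X + θ` with `θ` in `m⟦X⟧`, `Φ f = f + θ * d f` (`sub_add` with `s = X`).  Fix a `k`-linear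
`λ : A → k` and let `λ_*` act coefficientwise; `λ_* (f * g) = λ_* f * map π g` and
`λ_* (sub s f) = σ (λ_* f)` for `f` in `m⟦X⟧`.  With `b = λ_* θ * d x ∈ M`, `hΦ` at `X` gives
`∑ λ (a t) * (e t * σ (d x)) = - dl σ b`.  If some `λ (a t) ≠ 0` with `t.1 ≠ 0`, take `i = t.1` maximal:
`dl^(i+1) b = 0`, so `x^(c (i+1))` divides `dl^i b = - ∑_j λ (a (i, j)) x^j` with all `j < c (i+1)`,
absurd.  Hence all these `a t` vanish, `sfam = cst (σ X)`, `dl b = 0`, `x^(c 1) ∣ b`, and `hx` gives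
`b = ∑_j λ (a (0, j)) x^j` with `j < c 1`. -/
theorem tan_eff (S : Sp p n m α ζ σ) {c : ℕ → ℕ} (hc : SL p n σ c) (π : A →ₐ[k] k)
    (h2 : maximalIdeal A * maximalIdeal A = ⊥) (T : Finset (ℕ × ℕ)) (e : ℕ × ℕ → k⟦X⟧)
    (a : ℕ × ℕ → A) (ha : ∀ t ∈ T, π (a t) = 0)
    (hT : ∀ t ∈ T, t.1 < p ^ n ∧ t.2 < c (t.1 + 1))
    (he : ∀ t ∈ T, t.1 ≠ 0 → TV p n α ζ σ (t.1 - 1) t.2 (e t)) (Φ : En A)
    (h1 : PowerSeries.map (π : A →+* k) (Φ X) = X)
    (hΦ : Φ * sub (cst A (σ X)) = sub (sfam σ T e a) * Φ)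
    (hx : Φ (cst A (xb p n σ)) = xfam (p ^ n) T a (sfam σ T e a)) : ∀ t ∈ T, a t = 0 := by
  have hπ := TanE.pi_surj π
  have hq : 0 < p ^ n := pow_pos (Fact.out : p.Prime).pos n
  have h0 : constantCoeff (σ X) = 0 := Lau_cc one_pos (order_one hq S.pow)
  have h0' : constantCoeff (σ X) ∈ maximalIdeal k := by rw [h0]; exact zero_mem _
  have hx0 : constantCoeff (xb p n σ) = 0 := Lau_cc hq S.order_xb
  have hx1 : xb p n σ ≠ 0 := fun h => by
    have := S.order_xb
    rw [h, order_zero] at this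
    exact ENat.top_ne_natCast _ this
  have hσx : σ (xb p n σ) = xb p n σ := nrm_inv S.pow X
  have ham : ∀ t ∈ T, a t ∈ maximalIdeal A := fun t ht =>
    (pi_eq_zero_iff (π : A →+* k) hπ _).1 (ha t ht)
  have hmem : ∀ f : A⟦X⟧, constantCoeff (PowerSeries.map (π : A →+* k) f) = 0 →
      constantCoeff f ∈ maximalIdeal A := fun f hf => by
    rw [← pi_eq_zero_iff (π : A →+* k) hπ, ← hf, ← coeff_zero_eq_constantCoeff_apply,
      ← coeff_zero_eq_constantCoeff_apply, coeff_map]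
  obtain ⟨θ, hθ⟩ : ∃ θ, Φ X = X + θ := ⟨Φ X - X, by ring⟩
  have hθm : CIn (maximalIdeal A) θ := fun j => by
    rw [hθ, map_add, map_X, add_eq_left] at h1
    rw [← pi_eq_zero_iff (π : A →+* k) hπ, ← coeff_map, h1, map_zero]
  have hθ2 : θ * θ = 0 := by
    ext j
    have := cin_mul hθm hθm j
    rwa [h2, Ideal.mem_bot] at this
  have hXm : constantCoeff (X : A⟦X⟧) ∈ maximalIdeal A := by
    rw [constantCoeff_X]; exact zero_mem _
  have hsubX : sub (X : A⟦X⟧) = 1 := (eq_sub (1 : En A) hXm).symm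
  have hΦf : ∀ f, Φ f = f + θ * d⁄dX A f := fun f => by
    have hm : constantCoeff (Φ X) ∈ maximalIdeal A := hmem _ (by rw [h1, constantCoeff_X])
    rw [eq_sub Φ hm, hθ, sub_add X θ hXm hθ2, hsubX]
    rfl
  have hs0 : sub (cst A (σ X)) X = cst A (σ X) :=
    sub_X (hmem _ (by rw [TanE.map_cst, h0]))
  have hsred : PowerSeries.map (π : A →+* k) (sfam σ T e a) = σ X := by
    rw [sfam, map_add, TanE.map_cst, map_sum, sum_eq_zero, add_zero]
    intro t ht
    rw [map_mul, map_C]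
    change C (π (a t)) * _ = 0
    rw [ha t (mem_filter.1 ht).1, map_zero, zero_mul]
  have hs : sub (sfam σ T e a) X = sfam σ T e a := sub_X (hmem _ (by rw [hsred, h0]))
  have hchain : σ (d⁄dX k (xb p n σ)) * d⁄dX k (σ X) = d⁄dX k (xb p n σ) := by
    rw [← der_en σ h0', hσx]
  have key : ∀ l : A →ₗ[k] k, dl σ (TanE.lam l θ * d⁄dX k (xb p n σ)) =
      -∑ t ∈ T.filter (fun t => t.1 ≠ 0), C (l (a t)) * (e t * σ (d⁄dX k (xb p n σ))) := by
    intro l
    have e1 : Φ (sub (cst A (σ X)) X) = sub (sfam σ T e a) (Φ X) := congrArg (fun φ => φ X) hΦ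
    rw [hs0, hΦf, hθ, map_add, hs] at e1
    have e2 : θ * d⁄dX A (cst A (σ X)) = ∑ t ∈ T.filter (fun t => t.1 ≠ 0),
        C (a t) * cst A (e t) + sub (sfam σ T e a) θ := by
      apply add_left_cancel (a := cst A (σ X))
      rw [e1, ← add_assoc]
      rfl
    have e3 := congrArg (TanE.lam l) e2
    rw [TanE.lam_mul l π h2 hθm, map_der, TanE.map_cst, map_add, map_sum,
      TanE.lam_en l π h2 _ σ (hs.symm ▸ hsred) h0' hθm,
      sum_congr rfl fun t ht => TanE.lam_C_mul l π h2 (ham t (mem_filter.1 ht).1) _] at e3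
    simp only [TanE.map_cst] at e3
    simp only [← mul_assoc, ← sum_mul]
    rw [TanE.dl_apply, map_mul]
    linear_combination (-σ (d⁄dX k (xb p n σ))) * e3 + TanE.lam l θ * hchain
  have hfix : ∀ (c : k) (j : ℕ), dl σ (C c * xb p n σ ^ j) = 0 := fun c j => by
    rw [TanE.dl_apply, map_mul, map_pow, hσx, Base_en_C, sub_self]
  have step1 : ∀ (l : A →ₗ[k] k), ∀ t ∈ T, t.1 ≠ 0 → l (a t) = 0 := by
    intro l
    classical
    by_contra hne
    push Not at hne
    obtain ⟨t₁, ht₁, ht₁', hl₁⟩ := hne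
    obtain ⟨t₀, ht₀, hmax⟩ := exists_max_image (T.filter fun t => t.1 ≠ 0 ∧ l (a t) ≠ 0)
      (fun t => t.1) ⟨t₁, mem_filter.2 ⟨ht₁, ht₁', hl₁⟩⟩
    obtain ⟨ht₀, hi0, hl₀⟩ := mem_filter.1 ht₀
    obtain ⟨i, hi⟩ : ∃ i, t₀.1 = i + 1 := Nat.exists_eq_succ_of_ne_zero hi0
    have e4 : (dl σ ^ (i + 1)) (TanE.lam l θ * d⁄dX k (xb p n σ)) =
        -∑ t ∈ T.filter (fun t => t.1 = i + 1), C (l (a t)) * xb p n σ ^ t.2 := by
      rw [pow_succ, Module.End.mul_apply, key, map_neg, map_sum, sum_filter, sum_filter]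
      congr 1
      refine sum_congr rfl fun t ht => ?_
      by_cases h3 : t.1 = i + 1
      · have h4 := (he t ht (by omega)).sym
        rw [h3, Nat.add_sub_cancel] at h4
        rw [if_pos (by omega), if_pos h3, TanE.lin_C, h4]
      · rw [if_neg h3]
        split_ifs with h4
        · by_cases h5 : l (a t) = 0
          · rw [h5, map_zero, zero_mul, map_zero]
          · have h6 := hmax t (mem_filter.2 ⟨ht, h4, h5⟩)
            have h7 := (he t ht h4).ker
            obtain ⟨r, hr⟩ : ∃ r, i = r + (t.1 - 1 + 1) := ⟨i - t.1, by omega⟩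
            rw [TanE.lin_C, hr, pow_add, Module.End.mul_apply, h7, map_zero, mul_zero]
        · rfl
    have e5 : (dl σ ^ (i + 1 + 1)) (TanE.lam l θ * d⁄dX k (xb p n σ)) = 0 := by
      rw [pow_succ', Module.End.mul_apply, e4, map_neg, map_sum, sum_eq_zero, neg_zero]
      exact fun t _ => hfix _ _
    have e6 := hc.dvd (i + 1) (hi ▸ (hT t₀ ht₀).1) _ (dvd_mul_left _ _) e5
    rw [e4, dvd_neg] at e6
    exact hl₀ (TanE.indep hx0 hx1 T (fun t => l (a t))
      (fun t ht h3 => h3 ▸ (hT t ht).2) e6 t₀ ht₀ hi)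
  have hz : ∀ t ∈ T, t.1 ≠ 0 → a t = 0 := fun t ht h3 =>
    (Module.forall_dual_apply_eq_zero_iff k _).1 fun l => step1 l t ht h3
  have hsf : sfam σ T e a = cst A (σ X) := by
    rw [sfam, sum_eq_zero, add_zero]
    intro t ht
    rw [hz t (mem_filter.1 ht).1 (mem_filter.1 ht).2, map_zero, zero_mul]
  have hn : nrm (sub (cst A (σ X))) (p ^ n) X = cst A (xb p n σ) := by
    rw [xb, nrm, nrm, map_prod]
    refine prod_congr rfl fun i _ => ?_
    rw [map_en_pow (algebraMap k A) σ (sub (cst A (σ X))) hs0.symm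
      (hmem _ (by rw [hs0, TanE.map_cst, h0])), map_X]
  rw [hΦf, hsf, xfam, hn, add_right_inj] at hx
  intro t ht
  by_cases h3 : t.1 = 0
  · refine (Module.forall_dual_apply_eq_zero_iff k _).1 fun l => ?_
    have e3 := congrArg (TanE.lam l) hx
    rw [TanE.lam_mul l π h2 hθm, map_der, TanE.map_cst, map_sum,
      sum_congr rfl fun t ht => TanE.lam_C_mul l π h2 (ham t (mem_filter.1 ht).1) _] at e3
    simp only [map_pow, TanE.map_cst] at e3
    have e5 : (dl σ ^ (0 + 1)) (TanE.lam l θ * d⁄dX k (xb p n σ)) = 0 := by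
      rw [zero_add, pow_one, key, sum_eq_zero, neg_zero]
      intro t ht
      rw [step1 l t (mem_filter.1 ht).1 (mem_filter.1 ht).2, map_zero, zero_mul]
    have e6 := hc.dvd 0 hq _ (dvd_mul_left _ _) e5
    rw [pow_zero, Module.End.one_apply, e3] at e6
    exact TanE.indep hx0 hx1 T (fun t => l (a t)) (fun t ht h3 => h3 ▸ (hT t ht).2) e6 t ht h3
  · exact hz t ht h3

end Pool.Agent.MP_deef5c_ag.O

end

section

/-! Effective families in characteristic p have small dimension. -/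

open PowerSeries IsLocalRing Finset Function
open scoped Polynomial

namespace Pool.Agent.MP_deef5c_ag.O

universe u

section Aux

variable {k : Type u} [Field k]

theorem Eff_surj {D : Type u} [CommRing D] [Algebra k D] (π : D →ₐ[k] k) :
    Surjective (π : D →+* k) := fun c => ⟨algebraMap k D c, π.commutes c⟩

theorem Eff_map_cst {D D' : Type u} [CommRing D] [Algebra k D] [CommRing D'] [Algebra k D']
    (ψ : D →ₐ[k] D') (g : k⟦X⟧) : PowerSeries.map (ψ : D →+* D') (cst D g) = cst D' g := by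
  ext j
  simp [coeff_map]

theorem Eff_cst_self (g : k⟦X⟧) : cst k g = g := by
  ext j
  simp [coeff_map]

theorem Eff_map_sfam {D D' : Type u} [CommRing D] [Algebra k D] [CommRing D'] [Algebra k D']
    (ψ : D →ₐ[k] D') (σ : En k) (T : Finset (ℕ × ℕ)) (e : ℕ × ℕ → k⟦X⟧) (a : ℕ × ℕ → D) :
    PowerSeries.map (ψ : D →+* D') (sfam σ T e a) = sfam σ T e fun t => ψ (a t) := by
  simp only [sfam, map_add, map_sum, map_mul, Eff_map_cst, map_C, RingHom.coe_coe]

theorem Eff_map_xfam {D D' : Type u} [CommRing D] [IsLocalRing D] [CL D] [CommRing D']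
    [IsLocalRing D'] [CL D'] (φ : D →+* D') (q : ℕ) (T : Finset (ℕ × ℕ)) (a : ℕ × ℕ → D) {s : D⟦X⟧}
    (hs : constantCoeff s ∈ maximalIdeal D)
    (hs' : constantCoeff (PowerSeries.map φ s) ∈ maximalIdeal D') :
    PowerSeries.map φ (xfam q T a s) = xfam q T (fun t => φ (a t)) (PowerSeries.map φ s) := by
  have h : PowerSeries.map φ (nrm (sub s) q X) = nrm (sub (PowerSeries.map φ s)) q X := by
    rw [nrm, nrm, map_prod]
    refine prod_congr rfl fun i _ => ?_
    rw [map_en_pow φ (sub s) (sub (PowerSeries.map φ s)) (by rw [sub_X hs, sub_X hs'])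
      (by rwa [sub_X hs']), map_X]
  simp only [xfam, map_add, map_sum, map_mul, map_pow, map_C, h]

theorem Eff_map_map {D D' D'' : Type u} [CommRing D] [CommRing D'] [CommRing D''] (φ : D →+* D')
    (ψ : D' →+* D'') (χ : D →+* D'') (h : ∀ a, ψ (φ a) = χ a) (f : D⟦X⟧) :
    PowerSeries.map ψ (PowerSeries.map φ f) = PowerSeries.map χ f := by
  ext j
  simp only [coeff_map, h]

theorem Eff_map_eq {D D' : Type u} [CommRing D] [CommRing D'] (φ : D →+* D') {J : Ideal D}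
    (h : ∀ a ∈ J, φ a = 0) {f g : D⟦X⟧} (hf : CIn J (f - g)) :
    PowerSeries.map φ f = PowerSeries.map φ g := by
  rw [← sub_eq_zero, ← map_sub]
  ext j
  rw [coeff_map, h _ (hf j), map_zero]

end Aux

variable {k : Type u} [Field k] {p n m α : ℕ} [Fact p.Prime] [CharP k p] {ζ : k} {σ : En k}

variable {D : Type u} [CommRing D] [IsDomain D] [IsLocalRing D] [CL D] [Algebra k D]

omit [IsDomain D] in
/-- the parameters of a trivial family lie in the square of the maximal ideal -/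
theorem Eff_sq (S : Sp p n m α ζ σ) {c : ℕ → ℕ} (hc : SL p n σ c) (T : Finset (ℕ × ℕ))
    (e : ℕ × ℕ → k⟦X⟧) (hT : ∀ t ∈ T, t.1 < p ^ n ∧ t.2 < c (t.1 + 1))
    (he : ∀ t ∈ T, t.1 ≠ 0 → TV p n α ζ σ (t.1 - 1) t.2 (e t)) (π : D →ₐ[k] k) (a : ℕ × ℕ → D)
    (ha : ∀ t ∈ T, π (a t) = 0) (s : D⟦X⟧) (hred : PowerSeries.map (π : D →+* k) s = σ X)
    (hs : CIn (maximalIdeal D * maximalIdeal D) (s - sfam σ T e a)) (Φ : En D)
    (h1 : PowerSeries.map (π : D →+* k) (Φ X) = X) (hΦ : Φ * sub (cst D (σ X)) = sub s * Φ)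
    (hx : Φ (cst D (xb p n σ)) = xfam (p ^ n) T a s) :
    ∀ t ∈ T, a t ∈ maximalIdeal D * maximalIdeal D := by
  have hσ : order (σ X) = ((1 : ℕ) : ℕ∞) :=
    order_one (pow_pos (Fact.out : p.Prime).pos n) S.pow
  set J := maximalIdeal D * maximalIdeal D with hJd
  have hJ : J ≠ ⊤ := fun h => (maximalIdeal.isMaximal D).ne_top (top_le_iff.1
    (h ▸ (Ideal.mul_le_right : J ≤ maximalIdeal D)))
  have := local_quot J hJ
  have := CL.of_surj (Ideal.Quotient.mk J) Ideal.Quotient.mk_surjective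
  obtain ⟨π', hπ'⟩ := exists_piAlg_quot π J hJ
  let ψ : D →ₐ[k] D ⧸ J := Ideal.Quotient.mkₐ k J
  have hmm : ∀ f, PowerSeries.map (π' : D ⧸ J →+* k) (PowerSeries.map (ψ : D →+* D ⧸ J) f) =
      PowerSeries.map (π : D →+* k) f := Eff_map_map _ _ _ hπ'
  have m1 : constantCoeff s ∈ maximalIdeal D :=
    Qb_mem _ (Eff_surj π) s 1 one_pos (by rw [hred, hσ])
  have m2 : constantCoeff (PowerSeries.map (ψ : D →+* D ⧸ J) s) ∈ maximalIdeal (D ⧸ J) :=
    Qb_mem _ (Eff_surj π') _ 1 one_pos (by rw [hmm, hred, hσ])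
  have m3 : constantCoeff (PowerSeries.map (ψ : D →+* D ⧸ J) (Φ X)) ∈ maximalIdeal (D ⧸ J) :=
    Qb_mem _ (Eff_surj π') _ 1 one_pos (by rw [hmm, h1, order_X]; rfl)
  have m4 : constantCoeff (cst D (σ X)) ∈ maximalIdeal D :=
    Qb_mem _ (Eff_surj π) _ 1 one_pos (by rw [Eff_map_cst, Eff_cst_self, hσ])
  have m5 : constantCoeff (cst (D ⧸ J) (σ X)) ∈ maximalIdeal (D ⧸ J) :=
    Qb_mem _ (Eff_surj π') _ 1 one_pos (by rw [Eff_map_cst, Eff_cst_self, hσ])
  have e1 : PowerSeries.map (ψ : D →+* D ⧸ J) s = sfam σ T e fun t => ψ (a t) := by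
    rw [Eff_map_eq (ψ : D →+* D ⧸ J) (fun b hb => Ideal.Quotient.eq_zero_iff_mem.2 hb) hs,
      Eff_map_sfam]
  have e2 := map_en (ψ : D →+* D ⧸ J) Φ (sub (PowerSeries.map (ψ : D →+* D ⧸ J) (Φ X)))
    (sub_X m3).symm (by rwa [sub_X m3])
  have e3 := map_en (ψ : D →+* D ⧸ J) (sub s) (sub (PowerSeries.map (ψ : D →+* D ⧸ J) s))
    (by rw [sub_X m1, sub_X m2]) (by rwa [sub_X m2])
  have key := tan_eff S hc π' (by
      rw [← IsLocalRing.map_maximalIdeal_of_surjective (Ideal.Quotient.mk J)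
        Ideal.Quotient.mk_surjective, ← Ideal.map_mul]
      exact Ideal.map_quotient_self J) T e (fun t => ψ (a t))
    (fun t ht => (hπ' _).trans (ha t ht)) hT he
    (sub (PowerSeries.map (ψ : D →+* D ⧸ J) (Φ X))) (by rw [sub_X m3, hmm, h1]) ?_ ?_
  · exact fun t ht => Ideal.Quotient.eq_zero_iff_mem.1 (key t ht)
  · refine en_ext ?_ ?_
    · have h3 := congrArg (fun F : En D => PowerSeries.map (ψ : D →+* D ⧸ J) (F X)) hΦ
      simp only [AlgHom.mul_apply] at h3 ⊢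
      rw [sub_X m4, e2, e3, Eff_map_cst, e1] at h3
      rw [sub_X m5, sub_X m3, h3]
    · rw [AlgHom.mul_apply, sub_X m5]
      exact en_mem _ (by rwa [sub_X m3]) m5
  · rw [← Eff_map_cst ψ, ← e2, hx, Eff_map_xfam _ _ _ _ m1 m2, e1]
    rfl

/-- `x = xfam q T a s` makes `(sub s, x)` a `Fam` (`nrm_inv`, `tau_nrm`, `ξ^j = ξ` for `(0, j) ∈ TT`).
`up` gives `φ : D → D'`, `Φ`; `triv_comm` for `Fam.map`.  Let `n'` be the maximal ideal of `D'`,
`A = D' ⧸ n'^2`; transport `Φ`, `s`, `x` to `A` (`map_en`), where `s` becomes `sfam`, and apply `tan_eff`: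
all `φ (a t) ∈ n'^2`, so `n' ≤ n'^2`, `n' = ⊥` (Nakayama), `D'` is a field of dimension zero. -/
theorem eff [IsAlgClosed k] (S : Sp p n m α ζ σ) {w : ℕ} (hw : IsW p n σ w) {c : ℕ → ℕ}
    (hc : SL p n σ c) (e : ℕ × ℕ → k⟦X⟧)
    (he : ∀ t ∈ TT (p ^ n) c (ζ ^ p ^ n) (α : k), t.1 ≠ 0 → TV p n α ζ σ (t.1 - 1) t.2 (e t))
    (π : D →ₐ[k] k) (a : ℕ × ℕ → D)
    (ha : maximalIdeal D = Ideal.span (a '' (TT (p ^ n) c (ζ ^ p ^ n) (α : k) : Finset (ℕ × ℕ))))
    (s : D⟦X⟧) (hs : CIn (maximalIdeal D * maximalIdeal D)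
      (s - sfam σ (TT (p ^ n) c (ζ ^ p ^ n) (α : k)) e a))
    (hr : Rel (p ^ n) α (algebraMap k D ζ) (sub s)) : ringKrullDim D ≤ (w / m : ℕ) := by
  have hσ : order (σ X) = ((1 : ℕ) : ℕ∞) :=
    order_one (pow_pos (Fact.out : p.Prime).pos n) S.pow
  have hTm : ∀ t ∈ TT (p ^ n) c (ζ ^ p ^ n) (α : k), t.1 < p ^ n ∧ t.2 < c (t.1 + 1) ∧
      (ζ ^ p ^ n) ^ t.2 = ζ ^ p ^ n * (α : k) ^ t.1 := by
    intro t ht
    simp only [TT, mem_filter, mem_product, mem_range] at ht
    exact ⟨ht.1.1, ht.2.2⟩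
  generalize TT (p ^ n) c (ζ ^ p ^ n) (α : k) = T at he ha hs hTm
  have ha0 : ∀ t ∈ T, π (a t) = 0 := fun t ht =>
    (pi_eq_zero_iff _ (Eff_surj π) _).2 (ha ▸ Ideal.subset_span ⟨t, ht, rfl⟩)
  have hred : PowerSeries.map (π : D →+* k) s = σ X := by
    rw [Eff_map_eq (π : D →+* k) (fun b hb => (pi_eq_zero_iff _ (Eff_surj π) _).2
      (Ideal.mul_le_right hb)) hs, Eff_map_sfam, sfam, Eff_cst_self, sum_eq_zero, add_zero]
    intro t ht
    rw [ha0 t (mem_filter.1 ht).1, map_zero, zero_mul]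
  have m1 : constantCoeff s ∈ maximalIdeal D :=
    Qb_mem _ (Eff_surj π) s 1 one_pos (by rw [hred, hσ])
  have m0 : constantCoeff (σ X) ∈ maximalIdeal k :=
    Qb_mem (RingHom.id k) surjective_id _ 1 one_pos (by rw [PowerSeries.map_id]; exact hσ)
  have F : Fam p n α ζ σ π (sub s) (xfam (p ^ n) T a s) := by
    refine ⟨by rw [sub_X m1, hred], ?_, hr, ?_, ?_⟩
    · rw [Eff_map_xfam _ _ _ _ m1 (by rwa [hred]), hred, xfam, ← eq_sub σ m0, sum_eq_zero, add_zero]
      · rfl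
      · intro t ht
        have : (π : D →+* k) (a t) = 0 := ha0 t (mem_filter.1 ht).1
        rw [this, map_zero, zero_mul]
    · simp only [xfam, map_add, map_sum, map_mul, map_pow, nrm_inv hr.1, Base_en_C]
    · simp only [xfam, map_add, map_sum, map_mul, map_pow, tau_nrm hr (S.cop n), Base_en_C]
      rw [mul_add, mul_sum]
      congr 1
      refine sum_congr rfl fun t ht => ?_
      obtain ⟨h1, h2⟩ := mem_filter.1 ht
      have h3 := (hTm t h1).2.2
      rw [h2, pow_zero, mul_one] at h3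
      have h4 := congrArg (fun z => (C (algebraMap k D z) : D⟦X⟧)) h3
      simp only [map_pow] at h4
      rw [mul_pow, h4]
      ring
  obtain ⟨D', _, _, _, _, _, φ, π', hφ, hπ', hdim, Φ, h1, h2⟩ := up n S hw D π _ _ F
  have hmm : ∀ f, PowerSeries.map (π' : D' →+* k) (PowerSeries.map (φ : D →+* D') f) =
      PowerSeries.map (π : D →+* k) f := Eff_map_map _ _ _ hπ'
  have m2 : constantCoeff (PowerSeries.map (φ : D →+* D') s) ∈ maximalIdeal D' :=
    Qb_mem _ (Eff_surj π') _ 1 one_pos (by rw [hmm, hred, hσ])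
  have hΦ := triv_comm S (F.map S φ π' hπ') Φ h1 h2
  rw [sub_X m1] at hΦ
  rw [Eff_map_xfam _ _ _ _ m1 m2] at h2
  have hmax : Ideal.map (φ : D →+* D') (maximalIdeal D) = maximalIdeal D' :=
    IsLocalRing.map_maximalIdeal_of_surjective _ hφ
  have key := Eff_sq S hc T e (fun t ht => ⟨(hTm t ht).1, (hTm t ht).2.1⟩) he π'
    (fun t => φ (a t)) (fun t ht => (hπ' _).trans (ha0 t ht)) _ (by rw [hmm, hred]) (by
      intro j
      rw [← Eff_map_sfam, ← map_sub, coeff_map, ← hmax, ← Ideal.map_mul]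
      exact Ideal.mem_map_of_mem _ (hs j)) Φ h1 hΦ h2
  have hle : maximalIdeal D' ≤ maximalIdeal D' • maximalIdeal D' := by
    conv_lhs => rw [← hmax, ha, Ideal.map_span]
    refine Ideal.span_le.2 ?_
    rintro _ ⟨_, ⟨t, ht, rfl⟩, rfl⟩
    exact key t ht
  have hbot := Submodule.eq_bot_of_le_smul_of_le_jacobson_bot _ _
    (IsNoetherian.noetherian _) hle (maximalIdeal_le_jacobson _)
  rw [ringKrullDim_eq_zero_of_isField (isField_iff_maximalIdeal_eq.2 hbot), zero_add] at hdim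
  exact hdim

end Pool.Agent.MP_deef5c_ag.O

end

section

/-! Bounding the number of generators of an ideal. -/

open PowerSeries IsLocalRing Finset Function
open scoped Polynomial

namespace Pool.Agent.MP_deef5c_ag.O

universe u

open TensorProduct in
theorem Gen_nak {S k M : Type u} [CommRing S] [IsLocalRing S] [Field k] [Algebra S k]
    (hs : Surjective (algebraMap S k)) [AddCommGroup M] [Module S M] [Module.Finite S M]
    (N : Submodule S M) (hN : N.map (TensorProduct.mk S k M 1) = ⊤) : N = ⊤ := by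
  have hk : RingHom.ker (Algebra.ofId S k) = maximalIdeal S :=
    IsLocalRing.eq_maximalIdeal (RingHom.ker_isMaximal_of_surjective (algebraMap S k) hs)
  let e : k ≃ₐ[S] ResidueField S :=
    (Ideal.quotientKerAlgEquivOfSurjective (f := Algebra.ofId S k) hs).symm.trans
      (Ideal.quotientEquivAlgOfEq S hk)
  have h1 : TensorProduct.mk S (ResidueField S) M 1 =
      LinearMap.rTensor M e.toLinearMap ∘ₗ TensorProduct.mk S k M 1 := by
    ext x
    simp
  rw [← IsLocalRing.map_tensorProduct_mk_eq_top, h1, Submodule.map_comp, hN, Submodule.map_top,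
    LinearMap.range_eq_top]
  exact LinearMap.rTensor_surjective M e.surjective

open TensorProduct in
/-- `J →ₗ[S] k` is the dual of the `k`-vector space `J / m J`; so that space has dimension at most
`card ι`, and Nakayama's lemma lifts a basis to generators. -/
theorem gen_le {S k : Type u} [CommRing S] [IsLocalRing S] [IsNoetherianRing S] [Field k]
    [Algebra S k] (hs : Surjective (algebraMap S k)) (J : Ideal S) {ι : Type} [Fintype ι]
    (L : (J →ₗ[S] k) →ₗ[k] (ι → k)) (hL : Injective L) :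
    ∃ T : Finset S, T.card ≤ Fintype.card ι ∧ Ideal.span (T : Set S) = J := by
  classical
  have hn : Module.finrank k (k ⊗[S] J) ≤ Fintype.card ι := by
    rw [← Subspace.dual_finrank_eq, ← (LinearMap.liftBaseChangeEquiv k).finrank_eq,
      ← Module.finrank_fintype_fun_eq_card k]
    exact LinearMap.finrank_le_finrank_of_injective hL
  let b := Module.finBasis k (k ⊗[S] J)
  choose f hf using fun i => TensorProduct.mk_surjective S J k hs (b i)
  have h1 : Submodule.span S (Set.range f) = ⊤ := by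
    refine Gen_nak hs _ ?_
    rw [Submodule.map_span, ← Submodule.restrictScalars_span S k hs,
      Submodule.restrictScalars_eq_top_iff, ← Set.range_comp, Function.comp_def, funext hf,
      b.span_eq]
  refine ⟨univ.image fun i => (f i : S), card_image_le.trans (by simpa using hn), ?_⟩
  have h2 := congrArg (Submodule.map J.subtype) h1
  rw [Submodule.map_span, Submodule.map_top, Submodule.range_subtype, ← Set.range_comp] at h2
  rw [coe_image, coe_univ, Set.image_univ]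
  exact h2

end Pool.Agent.MP_deef5c_ag.O

end

section

/-! The refined obstruction space. -/

open PowerSeries IsLocalRing Finset Function
open scoped Polynomial

namespace Pool.Agent.MP_deef5c_ag.O

universe u

variable {k : Type u} [Field k] {p n m α : ℕ} [Fact p.Prime] [CharP k p] {ζ : k} {σ : En k}

variable {A : Type u} [CommRing A] [IsLocalRing A] [CL A]

theorem Obs1_conj {M : Type*} [Monoid M] {a b c : M} (h1 : a * c = 1) (h2 : c * a = 1) (i : ℕ) :
    (a * b * c) ^ i = a * b ^ i * c := by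
  induction i with
  | zero => rw [pow_zero, pow_zero, mul_one, h1]
  | succ i ih =>
    rw [pow_succ, ih, pow_succ]
    calc a * b ^ i * c * (a * b * c) = a * b ^ i * (c * a) * b * c := by simp only [mul_assoc]
      _ = _ := by rw [h2, mul_one]; simp only [mul_assoc]

theorem Obs1_pow_mem (φ : En A) (h : constantCoeff (φ X) ∈ maximalIdeal A) (i : ℕ) :
    constantCoeff ((φ ^ i) X) ∈ maximalIdeal A := by
  induction i with
  | zero => simp
  | succ i ih =>
    rw [← SpA_succ]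
    exact en_mem φ h ih

theorem Obs1_sub_X : sub (X : A⟦X⟧) = 1 := by
  have h : constantCoeff (X : A⟦X⟧) ∈ maximalIdeal A := by simp
  exact en_ext (sub_X h) (by rwa [sub_X h])

theorem Obs1_tay {φ : En A} {e : A⟦X⟧} (he : e * e = 0) (hm : constantCoeff e ∈ maximalIdeal A)
    (h : φ X = X + e) (f : A⟦X⟧) : φ f = f + e * d⁄dX A f := by
  have h1 : φ = sub (X + e) := by
    rw [← h]
    refine eq_sub φ ?_
    rw [h, map_add]
    exact add_mem (by simp) hm
  rw [h1, sub_add X e (by simp) he, Obs1_sub_X]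
  rfl

theorem Obs1_dvd (φ : En A) (h : constantCoeff (φ X) ∈ maximalIdeal A) (i : ℕ) :
    φ X - X ∣ (φ ^ i) X - X := by
  induction i with
  | zero => simp
  | succ i ih =>
    have h1 : φ X - X ∣ φ ((φ ^ i) X) - (φ ^ i) X := sub_dvd φ 1 h (by simp) _
    rw [← SpA_succ]
    have := dvd_add h1 ih
    rwa [sub_add_sub_cancel] at this

omit [Fact p.Prime] [CharP k p] in
theorem Obs1_coeff {x γ : k⟦X⟧} {q w j : ℕ} (hq : 0 < q) (hx : order x = q)
    (h : ((q * w : ℕ) : ℕ∞) ≤ order (sub x γ)) (hj : j < w) : coeff j γ = 0 := by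
  have h0 : constantCoeff x ∈ maximalIdeal k := Qb_mem (RingHom.id k) surjective_id x q hq (by simpa)
  rw [order_en (sub x) q hq (by rw [sub_X h0, hx])] at h
  refine coeff_of_lt_order j ?_
  by_contra h1
  rw [not_lt] at h1
  have h2 : ((q * w : ℕ) : ℕ∞) ≤ ((q * j : ℕ) : ℕ∞) := by
    refine h.trans ?_
    rw [Nat.cast_mul]
    gcongr
  have h3 : q * w ≤ q * j := by exact_mod_cast h2
  have := Nat.le_of_mul_le_mul_left h3 hq
  omega

/-- Let `σ' = sub s`, `ō = map π o`, `x = xb p n σ`.  `σ'^q = sub (X + ε o)` commutes with `σ'`, so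
(`sub_add`) `σ ō = ō * d (σ X)` and `ō * d x` is invariant, `= sub x γ`.  With `ρ' = σ'^(q/p)`,
`F = ρ' X - X`: `ε o = trc ρ' p F = F g` (`sub_dvd ρ' 1`); `cin_of_mul` modulo `(ε)` gives `g = ε g₁`, so
the reduction of `F` divides `ō`, and `order (ō * d x) ≥ l + 1 + β = q w` (`isW_spec`, `order_en`).
Equivariance: `κ = tau z⁻¹ * σ'^α * tau z` (`z⁻¹ = z^(m-1)`) has `κ X = s - ε tau z⁻¹ o₂`, and
`κ^q X - X = z α ε tau z⁻¹ o`; by `calc_pow` this is `ε o + ε L q g`, so
`α ξ tau ζ⁻¹ (ō * d x) = ō * d x + trc σ q a` with `a ∈ M`, and `x^(c q) ∣ trc σ q a` (`SL.dvd`,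
`dl_pow`).  Compare coefficients of `γ` below `c q`. -/
theorem obs1 (S : Sp p n m α ζ σ) (hn : 0 < n) {w : ℕ} (hw : IsW p n σ w) {c : ℕ → ℕ}
    (hc : SL p n σ c) (π : A →+* k) (hπ : Surjective π) {z ε : A} (hz : z ^ m = 1) (hπz : π z = ζ)
    (hε : ∀ a ∈ maximalIdeal A, a * ε = 0) (hεm : ε ∈ maximalIdeal A) (h0 : ε ≠ 0)
    {s o o₂ : A⟦X⟧} (hs : PowerSeries.map π s = σ X) (ho : (sub s ^ p ^ n) X - X = C ε * o)
    (ho₂ : tau z s - (sub s ^ α) (C z * X) = C ε * o₂) :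
    ∃ γ : k⟦X⟧, PowerSeries.map π o * d⁄dX k (xb p n σ) = sub (xb p n σ) γ ∧
      ∀ j < c (p ^ n), j ∉ JJ w (c (p ^ n)) (ζ ^ p ^ n) (α : k) → coeff j γ = 0 := by
  have hp : p.Prime := Fact.out
  have hq : 0 < p ^ n := pow_pos hp.pos n
  have hσ1 : order (σ X) = 1 := order_one hq S.pow
  have hσ0 : constantCoeff (σ X) = 0 := by
    rw [← coeff_zero_eq_constantCoeff_apply]
    exact coeff_of_lt_order 0 (by rw [hσ1]; norm_num)
  have hσm : constantCoeff (σ X) ∈ maximalIdeal k := by rw [hσ0]; exact zero_mem _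
  have hsm : constantCoeff s ∈ maximalIdeal A := Qb_mem π hπ s 1 one_pos (by rw [hs, hσ1]; rfl)
  have hsX : sub s X = s := sub_X hsm
  have hsm' : constantCoeff (sub s X) ∈ maximalIdeal A := by rwa [hsX]
  have hred : PowerSeries.map π (sub s X) = σ X := by rw [hsX, hs]
  have hεε : (C ε : A⟦X⟧) * C ε = 0 := by rw [← map_mul, hε ε hεm, map_zero]
  have hee : ∀ g : A⟦X⟧, (C ε * g) * (C ε * g) = 0 := fun g => by
    rw [mul_mul_mul_comm, hεε, zero_mul]
  have hem : ∀ g : A⟦X⟧, constantCoeff (C ε * g) ∈ maximalIdeal A := fun g => by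
    rw [map_mul, constantCoeff_C]
    exact Ideal.mul_mem_right _ _ hεm
  set x := xb p n σ with hxdef
  have hx : σ x = x := nrm_inv S.pow X
  have hxo : order x = ((p ^ n : ℕ) : ℕ∞) := S.order_xb
  have hxm : constantCoeff x ∈ maximalIdeal k :=
    Qb_mem (RingHom.id k) surjective_id x _ hq (by simpa using hxo)
  have hdx : d⁄dX k x = σ (d⁄dX k x) * d⁄dX k (σ X) := by
    rw [← der_en σ hσm, hx]
  have ho' : (sub s ^ p ^ n) X = X + C ε * o := by rw [← ho]; ring
  have htay := Obs1_tay (hee o) (hem o) ho'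
  -- invariance
  have hinv : σ (PowerSeries.map π o) = PowerSeries.map π o * d⁄dX k (σ X) := by
    have h1 : sub s ((sub s ^ p ^ n) X) = (sub s ^ p ^ n) (sub s X) := by
      rw [SpA_succ, pow_succ]
      rfl
    rw [htay (sub s X), ho', map_add, map_mul, Base_en_C, add_right_inj, mul_assoc] at h1
    have h2 := eps_cancel π hπ h0 h1
    rwa [map_en π (sub s) σ hred hσm, map_mul, map_der, hred] at h2
  obtain ⟨γ, hγ⟩ := qinv (RingHom.id k) surjective_id x (p ^ n) hq (by simpa using hxo) σ hx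
    (pow_X_inj hq S.ord) (PowerSeries.map π o * d⁄dX k x) (by
      rw [map_mul, hinv, mul_assoc, mul_comm (d⁄dX k (σ X)), ← hdx])
  refine ⟨γ, hγ.symm, fun j hj hJ => ?_⟩
  rcases lt_or_ge j w with hjw | hjw
  · -- the order estimate
    obtain ⟨β, l, -, hβ, hl, hw', -, -⟩ := S.isW_spec hn hw
    obtain ⟨g, hg⟩ := Obs1_dvd (sub s ^ p ^ (n - 1)) (Obs1_pow_mem _ hsm' _) p
    rw [← pow_mul, ← pow_succ, Nat.sub_add_cancel hn, ho] at hg
    have hF : PowerSeries.map π ((sub s ^ p ^ (n - 1)) X - X) = (σ ^ p ^ (n - 1)) X - X := by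
      rw [map_sub, map_en_pow π (sub s) σ hred hσm, map_X]
    have h1 : CIn (Ideal.span {ε}) g := by
      refine cin_of_mul π hπ _ ((sub s ^ p ^ (n - 1)) X - X) g ?_ ?_
      · rw [hF]
        intro h
        rw [h, order_zero] at hl
        exact ENat.top_ne_natCast _ hl
      · exact (cin_span_singleton ε _).2 ⟨o, hg.symm⟩
    obtain ⟨g₁, rfl⟩ := (cin_span_singleton ε _).1 h1
    rw [mul_left_comm] at hg
    have h2 := eps_cancel π hπ h0 hg
    rw [map_mul, hF] at h2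
    refine Obs1_coeff hq hxo ?_ hjw
    rw [hγ, h2, order_mul, order_mul, hl, hβ, hw', add_comm β, Nat.cast_add (l + 1)]
    gcongr
    exact le_self_add
  -- equivariance
  have hm1 : m - 1 + 1 = m := Nat.sub_add_cancel S.mpos
  have hzz : z ^ (m - 1) * z = 1 := by rw [← pow_succ, hm1, hz]
  have ht1 : tau (z ^ (m - 1)) * tau z = 1 := by rw [tau_mul, hzz, tau_one]
  have ht2 : tau z * tau (z ^ (m - 1)) = 1 := by rw [tau_mul, mul_comm, hzz, tau_one]
  have ht3 : ∀ f : A⟦X⟧, tau (z ^ (m - 1)) (tau z f) = f := fun f =>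
    (AlgHom.congr_fun ht1 f : _)
  have hκX : (tau (z ^ (m - 1)) * sub s ^ α * tau z) X =
      s + C ε * (-tau (z ^ (m - 1)) o₂) := by
    have h1 : (sub s ^ α) (C z * X) = tau z s - C ε * o₂ := by rw [← ho₂]; ring
    change tau (z ^ (m - 1)) ((sub s ^ α) (tau z X)) = _
    rw [tau_X, h1, map_sub, ht3, map_mul, Base_en_C]
    ring
  have hκ : tau (z ^ (m - 1)) * sub s ^ α * tau z = sub (s + C ε * (-tau (z ^ (m - 1)) o₂)) := by
    rw [← hκX]
    refine eq_sub _ ?_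
    rw [hκX, map_add]
    exact add_mem hsm (hem _)
  have hα : ∀ a : ℕ, ((sub s ^ p ^ n) ^ a) X = X + C ε * ((a : A⟦X⟧) * o) := by
    intro a
    induction a with
    | zero => simp
    | succ a ih =>
      rw [← SpA_succ, ih, map_add, map_mul, Base_en_C, ho', htay]
      push_cast
      linear_combination (o * d⁄dX A ((a : A⟦X⟧) * o)) * hεε
  obtain ⟨L, hL1, hL2⟩ := calc_pow π hπ σ hσ0 x hx s hs
  have hI : Ideal.span {ε} * Ideal.span {ε} = (⊥ : Ideal A) := by
    rw [Ideal.span_singleton_mul_span_singleton, hε ε hεm, Ideal.span_singleton_eq_bot]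
  have h1 := hL1 _ hI (C ε * (-tau (z ^ (m - 1)) o₂)) ((cin_span_singleton ε _).2 ⟨_, rfl⟩) (p ^ n)
  have hL3 : ∀ g, L (p ^ n) (C ε * g) = C ε * L (p ^ n) g := fun g => by
    rw [← smul_eq_C_mul, map_smul, smul_eq_C_mul]
  rw [← hκ, Obs1_conj ht1 ht2, ← pow_mul, mul_comm α, pow_mul, ho', hL3] at h1
  have h2 : C ε * (C z * (α : A⟦X⟧) * tau (z ^ (m - 1)) o) =
      C ε * (o + L (p ^ n) (-tau (z ^ (m - 1)) o₂)) := by
    have h3 : (tau (z ^ (m - 1)) * (sub s ^ p ^ n) ^ α * tau z) X =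
        X + C ε * (C z * (α : A⟦X⟧) * tau (z ^ (m - 1)) o) := by
      change tau (z ^ (m - 1)) (((sub s ^ p ^ n) ^ α) (tau z X)) = _
      have h4 : (C z : A⟦X⟧) * C (z ^ (m - 1)) = 1 := by rw [← map_mul, mul_comm, hzz, map_one]
      rw [tau_X, map_mul, Base_en_C, hα, map_mul, Base_en_C, map_add, tau_X, map_mul, Base_en_C,
        map_mul, map_natCast]
      linear_combination X * h4
    rw [h3] at h1
    linear_combination h1
  have h3 := eps_cancel π hπ h0 h2
  have h4 := hL2 (p ^ n) (-tau (z ^ (m - 1)) o₂)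
  rw [S.pow, AlgHom.one_apply] at h4
  rw [map_mul, map_mul, map_C, map_natCast, map_tau, map_pow, hπz, map_add] at h3
  have hτx : tau ζ x = C (ζ ^ p ^ n) * x := tau_nrm ⟨S.pow, S.rel⟩ (S.cop n)
  have hτi : ∀ i : ℕ, tau (ζ ^ i) x = C ((ζ ^ p ^ n) ^ i) * x := by
    intro i
    induction i with
    | zero => simp [tau_one]
    | succ i ih =>
      rw [pow_succ, ← tau_mul, AlgHom.mul_apply, hτx, map_mul, Base_en_C, ih, pow_succ, map_mul]
      ring
  have hζ : ζ ^ (m - 1) * ζ = 1 := by rw [← pow_succ, hm1, S.prim.pow_eq_one]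
  have hτd : C ζ * d⁄dX k x = C (ζ ^ p ^ n) * tau (ζ ^ (m - 1)) (d⁄dX k x) := by
    have h5 := der_tau ζ x
    rw [hτx, ← smul_eq_C_mul, Derivation.map_smul, smul_eq_C_mul] at h5
    have h6 := congrArg (tau (ζ ^ (m - 1))) h5
    rw [map_mul, map_mul, Base_en_C, Base_en_C, ← AlgHom.mul_apply, tau_mul, hζ, tau_one,
      AlgHom.one_apply] at h6
    exact h6.symm
  have hτs : tau (ζ ^ (m - 1)) * sub x = sub x * tau ((ζ ^ p ^ n) ^ (m - 1)) := by
    have h5 : (tau (ζ ^ (m - 1)) * sub x) X = C ((ζ ^ p ^ n) ^ (m - 1)) * x := by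
      rw [AlgHom.mul_apply, sub_X hxm, hτi]
    refine en_ext ?_ ?_
    · rw [h5, AlgHom.mul_apply, tau_X, map_mul, Base_en_C, sub_X hxm]
    · rw [h5, map_mul]
      exact Ideal.mul_mem_left _ _ hxm
  set a := PowerSeries.map π (-tau (z ^ (m - 1)) o₂) * σ (d⁄dX k x) with ha
  have h5 : sub x (C ((α : k) * ζ ^ p ^ n) * tau ((ζ ^ p ^ n) ^ (m - 1)) γ - γ) =
      trc σ (p ^ n) a := by
    have h6 : sub x (tau ((ζ ^ p ^ n) ^ (m - 1)) γ) = tau (ζ ^ (m - 1)) (sub x γ) :=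
      (AlgHom.congr_fun hτs γ).symm
    rw [map_sub, map_mul, Base_en_C, h6, hγ, ← h4, map_mul, map_mul, map_natCast]
    linear_combination (d⁄dX k x) * h3 -
      (α : k⟦X⟧) * tau (ζ ^ (m - 1)) (PowerSeries.map π o) * hτd
  have h6 : d⁄dX k x ∣ a := by
    have h7 : IsUnit (d⁄dX k (σ X)) := by
      rw [isUnit_iff_constantCoeff, ← coeff_zero_eq_constantCoeff_apply, coeff_derivative]
      have h8 := (order_eq_nat.1 (hσ1.trans Nat.cast_one.symm)).1
      simpa using h8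
    refine Dvd.dvd.mul_left ?_ _
    refine (h7.dvd_mul_right).1 ?_
    rw [← hdx]
  have h7 := hc.dvd (p ^ n - 1) (by omega) a h6 (by
    rw [Nat.sub_add_cancel hq]; exact (dl_pow p n S.pow a).2)
  rw [Nat.sub_add_cancel hq, (dl_pow p n S.pow a).1, ← h5] at h7
  have h8 : coeff j (C ((α : k) * ζ ^ p ^ n) * tau ((ζ ^ p ^ n) ^ (m - 1)) γ - γ) = 0 := by
    refine Obs1_coeff hq hxo ?_ hj
    obtain ⟨b, hb⟩ := h7
    rw [hb, order_mul, order_pow, hxo, nsmul_eq_mul, ← Nat.cast_mul, mul_comm]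
    exact le_self_add
  rw [map_sub, coeff_C_mul, coeff_tau] at h8
  by_contra h9
  apply hJ
  simp only [JJ, mem_filter, mem_Ico]
  refine ⟨⟨hjw, hj⟩, ?_⟩
  have h10 : (α : k) * ζ ^ p ^ n * ((ζ ^ p ^ n) ^ (m - 1)) ^ j = 1 :=
    mul_right_cancel₀ h9 (by linear_combination h8)
  have h11 : ((ζ ^ p ^ n) ^ (m - 1)) ^ j * (ζ ^ p ^ n) ^ j = 1 := by
    rw [← mul_pow, ← pow_succ, hm1, (S.prim_pow n).pow_eq_one, one_pow]
  linear_combination (α : k) * ζ ^ p ^ n * h11 - (ζ ^ p ^ n) ^ j * h10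

end Pool.Agent.MP_deef5c_ag.O

end

section

/-! Lifting when the obstruction vanishes. -/

open PowerSeries IsLocalRing Finset Function
open scoped Polynomial

namespace Pool.Agent.MP_deef5c_ag.O

universe u

variable {k : Type u} [Field k] {p n m α : ℕ} [Fact p.Prime] [CharP k p] {ζ : k} {σ : En k}

variable {A : Type u} [CommRing A] [IsLocalRing A] [CL A]

theorem Obs2_conj {M : Type*} [Monoid M] {t u : M} (h1 : t * u = 1) (h2 : u * t = 1) (φ : M)
    (j : ℕ) : (u * φ * t) ^ j = u * φ ^ j * t := by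
  induction j with
  | zero => simp [h2]
  | succ j ih =>
    rw [pow_succ, ih, pow_succ]
    calc u * φ ^ j * t * (u * φ * t) = u * φ ^ j * (t * u) * φ * t := by simp only [mul_assoc]
      _ = u * (φ ^ j * φ) * t := by rw [h1]; simp only [mul_assoc, one_mul]

theorem Obs2_iter {M : Type*} [Monoid M] {t u : M} (h1 : t * u = 1) (h2 : u * t = 1) (α : ℕ)
    (φ : ℕ → M) (hφ : ∀ i, φ (i + 1) = u * φ i ^ α * t) (j : ℕ) :
    φ j = u ^ j * φ 0 ^ α ^ j * t ^ j := by
  have hc : Commute t u := h1.trans h2.symm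
  induction j with
  | zero => simp
  | succ j ih =>
    rw [hφ, ih, Obs2_conj (by rw [← hc.mul_pow, h1, one_pow])
      (by rw [← hc.symm.mul_pow, h2, one_pow]), ← pow_mul, ← pow_succ, pow_succ' u, pow_succ t]
    simp only [mul_assoc]

theorem Obs2_C (φ : En A) (a : A) (f : A⟦X⟧) : φ (C a * f) = C a * φ f := by
  rw [map_mul, Base_en_C]

theorem Obs2_lin (L : A⟦X⟧ →ₗ[A] A⟦X⟧) (a : A) (f : A⟦X⟧) : L (C a * f) = C a * L f := by
  rw [← smul_eq_C_mul, ← smul_eq_C_mul, map_smul]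

theorem Obs2_pow_mem (φ : En A) (hm : constantCoeff (φ X) ∈ maximalIdeal A) (j : ℕ) :
    constantCoeff ((φ ^ j) X) ∈ maximalIdeal A := by
  induction j with
  | zero => simp
  | succ j ih =>
    rw [pow_succ', AlgHom.mul_apply]
    exact en_mem φ hm ih

/-- averaging over the group generated by `tau z` -/
theorem Obs2_avg {q : ℕ} (hm : 0 < m) (hu : IsUnit (m : A)) (hα : α ^ m ≡ 1 [MOD q]) {z ε : A}
    (hz : z ^ m = 1) (hεm : ε ∈ maximalIdeal A) {s o o₂ : A⟦X⟧}
    (hs : constantCoeff s ∈ maximalIdeal A) (L : ℕ → A⟦X⟧ →ₗ[A] A⟦X⟧)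
    (hL : ∀ g a, (sub (s + C ε * g) ^ a) X = (sub s ^ a) X + C ε * L a g)
    (ho : (sub s ^ q) X - X = C ε * o) (ho₂ : tau z s - (sub s ^ α) (C z * X) = C ε * o₂)
    (g₀ : A⟦X⟧) (hg₀ : C ε * (o + L q g₀) = 0) : ∃ g, Rel q α z (sub (s + C ε * g)) := by
  have hmem : ∀ g, constantCoeff (s + C ε * g) ∈ maximalIdeal A := fun g => by
    rw [map_add, map_mul, constantCoeff_C]
    exact Ideal.add_mem _ hs (Ideal.mul_mem_right _ _ hεm)
  have hX : ∀ g, sub (s + C ε * g) X = s + C ε * g := fun g => sub_X (hmem g)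
  have hq : ∀ g, sub (s + C ε * g) ^ q = 1 ↔ C ε * (o + L q g) = 0 := fun g => by
    have h1 : (sub (s + C ε * g) ^ q) X = X + C ε * (o + L q g) := by
      rw [hL, mul_add, ← ho]
      ring
    constructor
    · intro h
      rw [h, AlgHom.one_apply] at h1
      exact left_eq_add.1 h1
    · intro h
      rw [h, add_zero] at h1
      exact en_ext h1 (by rw [h1]; simp)
  obtain ⟨y, hy⟩ : ∃ y : A, y = z ^ (m - 1) := ⟨_, rfl⟩
  have hzy : z * y = 1 := by rw [hy, ← pow_succ', Nat.sub_add_cancel hm, hz]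
  have h1 : tau z * tau y = 1 := by rw [tau_mul, hzy, tau_one]
  have h2 : tau y * tau z = 1 := by rw [tau_mul, mul_comm, hzy, tau_one]
  obtain ⟨Λ, hΛ⟩ : ∃ Λ : A⟦X⟧ →ₗ[A] A⟦X⟧, ∀ g, Λ g = C z * tau y (L α g) :=
    ⟨z • ((tau y).toLinearMap ∘ₗ L α), fun g => by rw [← smul_eq_C_mul]; rfl⟩
  have hK : ∀ g, sub (s + C ε * (Λ g - tau y o₂)) = tau y * sub (s + C ε * g) ^ α * tau z := by
    intro g
    refine en_ext ?_ (by rw [hX]; exact hmem _)
    have h3 := congrArg (tau y) ho₂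
    rw [map_sub, ← AlgHom.mul_apply, h2, AlgHom.one_apply, Obs2_C, Obs2_C, Obs2_C] at h3
    rw [hX, AlgHom.mul_apply, AlgHom.mul_apply, tau_X, Obs2_C, Obs2_C, hL, map_add, Obs2_C, hΛ,
      mul_sub, ← h3]
    ring
  let g : ℕ → A⟦X⟧ := fun i => (fun f => Λ f - tau y o₂)^[i] g₀
  have hg : ∀ i, g (i + 1) = Λ (g i) - tau y o₂ := fun i => iterate_succ_apply' _ _ _
  have hit := Obs2_iter h1 h2 α (fun i => sub (s + C ε * g i)) fun i => by
    show sub (s + C ε * g (i + 1)) = _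
    rw [hg, hK]
  have hq0 : sub (s + C ε * g 0) ^ q = 1 := (hq g₀).2 hg₀
  have hqi : ∀ i, sub (s + C ε * g i) ^ q = 1 := by
    intro i
    induction i with
    | zero => exact hq0
    | succ i ih => rw [hg, hK, Obs2_conj h1 h2, ← pow_mul, mul_comm α, pow_mul, ih, one_pow,
        mul_one, h2]
  have hgm : C ε * g m = C ε * g 0 := by
    have h3 := hit m
    have hym : y ^ m = 1 := by rw [hy, ← pow_mul, mul_comm, pow_mul, hz, one_pow]
    rw [tau_pow, tau_pow, hz, hym, tau_one, one_mul, mul_one, pow_eq_pow_of_modEq hα hq0,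
      pow_one] at h3
    have h4 := congrArg (fun φ : En A => φ X) h3
    simp only [hX] at h4
    exact add_left_cancel h4
  obtain ⟨v, hv⟩ := hu.exists_left_inv
  have hv' : (C v : A⟦X⟧) * m = 1 := by rw [← map_natCast (C (R := A)), ← map_mul, hv, map_one]
  refine ⟨C v * ∑ i ∈ range m, g i, (hq _).2 ?_, ?_⟩
  · have h3 : ∑ i ∈ range m, C ε * (o + L q (g i)) = 0 :=
      sum_eq_zero fun i _ => (hq _).1 (hqi i)
    rw [← mul_sum, sum_add_distrib, sum_const, card_range, nsmul_eq_mul, ← map_sum] at h3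
    rw [Obs2_lin]
    linear_combination C v * h3 - C ε * o * hv'
  · have h3 : ∑ i ∈ range m, g (i + 1) = ∑ i ∈ range m, g i + g m - g 0 := by
      rw [← sum_range_succ, sum_range_succ', add_sub_cancel_right]
    simp only [hg] at h3
    rw [sum_sub_distrib, sum_const, card_range, nsmul_eq_mul, ← map_sum] at h3
    have h4 : C ε * (Λ (C v * ∑ i ∈ range m, g i) - tau y o₂) =
        C ε * (C v * ∑ i ∈ range m, g i) := by
      rw [Obs2_lin]
      linear_combination C ε * C v * h3 + C v * hgm + C ε * tau y o₂ * hv'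
    have h5 := hK (C v * ∑ i ∈ range m, g i)
    rw [h4] at h5
    conv_lhs => rw [h5]
    rw [← mul_assoc, ← mul_assoc, h1, one_mul]

/-- Choose `g₀` with `map π g₀ * σ (d x) = - a`; `s₁ = s + ε g₀` has `(sub s₁)^q = 1` (`calc_pow`,
`d x ≠ 0`).  For lifts `s' = s₁ + e`, `e ∈ ε A⟦X⟧`, let `κ s' = (tau z⁻¹ * (sub s')^α * tau z) X`; then
`κ (s₁ + e) = κ s₁ + Λ e` with `Λ e = z tau z⁻¹ (L α e)` linear, `κ s₁ - s₁ ∈ ε A⟦X⟧`,
`sub (κ s') = tau z⁻¹ * (sub s')^α * tau z`, so `κ` preserves `(sub s')^q = 1`, i.e. `L q e = 0`, and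
`κ^m s₁ = s₁` (`Sp.apow`).  With `κ^i s₁ = s₁ + e i`, the average `s₁ + (1/m) ∑_{i<m} e i` is fixed by
`κ`; `m` is a unit of `A`. -/
theorem obs2 (S : Sp p n m α ζ σ) (hd : d⁄dX k (xb p n σ) ≠ 0) (π : A →+* k) (hπ : Surjective π)
    {z ε : A} (hz : z ^ m = 1) (hπz : π z = ζ) (hε : ∀ a ∈ maximalIdeal A, a * ε = 0)
    (hεm : ε ∈ maximalIdeal A) {s o o₂ : A⟦X⟧} (hs : PowerSeries.map π s = σ X)
    (ho : (sub s ^ p ^ n) X - X = C ε * o) (ho₂ : tau z s - (sub s ^ α) (C z * X) = C ε * o₂)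
    (a : k⟦X⟧) (ha : d⁄dX k (xb p n σ) ∣ a)
    (h : PowerSeries.map π o * d⁄dX k (xb p n σ) = trc σ (p ^ n) a) :
    ∃ g, Rel (p ^ n) α z (sub (s + C ε * g)) := by
  have hx : σ (xb p n σ) = xb p n σ := nrm_inv S.pow X
  have h0 : constantCoeff (σ X) = 0 := by
    have h1 := order_one (pow_pos (Fact.out : p.Prime).pos n) S.pow
    rw [← coeff_zero_eq_constantCoeff_apply]
    exact coeff_of_lt_order 0 (by rw [h1]; simp)
  have hs0 : constantCoeff s ∈ maximalIdeal A := by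
    rw [← pi_eq_zero_iff π hπ, ← h0, ← hs, ← coeff_zero_eq_constantCoeff_apply,
      ← coeff_zero_eq_constantCoeff_apply, coeff_map]
  obtain ⟨L, hL1, hL2⟩ := calc_pow π hπ σ h0 _ hx s hs
  obtain ⟨b, rfl⟩ := ha
  have hch := der_en σ (by rw [h0]; exact Ideal.zero_mem _) (xb p n σ)
  rw [hx] at hch
  obtain ⟨g₀, hg₀⟩ := PowerSeries.map_surjective π hπ (-(d⁄dX k (σ X) * b))
  refine Obs2_avg S.mpos ?_ S.apow hz hεm hs0 L (fun g j => ?_) ho ho₂ g₀ ?_
  · by_contra hu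
    have h1 := (pi_eq_zero_iff π hπ (m : A)).2 hu
    rw [map_natCast] at h1
    exact S.m_ne h1
  · rw [hL1 (Ideal.span {ε}) (by rw [Ideal.span_singleton_mul_span_singleton, hε ε hεm]; simp) _
      ((cin_span_singleton ε _).2 ⟨g, rfl⟩), Obs2_lin]
  · have h1 := hL2 (p ^ n) g₀
    have h2 : -(d⁄dX k (σ X) * b) * σ (d⁄dX k (xb p n σ)) = -(d⁄dX k (xb p n σ) * b) := by
      linear_combination b * hch
    have h3 : ∀ f, trc σ (p ^ n) (-f) = -trc σ (p ^ n) f := fun f => by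
      simp [trc]
    rw [hg₀, S.pow, AlgHom.one_apply, h2, h3, ← h] at h1
    have h4 : PowerSeries.map π (o + L (p ^ n) g₀) = PowerSeries.map π 0 := by
      rw [map_zero, map_add]
      exact (mul_eq_zero.1 (by linear_combination h1)).resolve_right hd
    rw [eps_mul_eq π hπ hε h4, mul_zero]

end Pool.Agent.MP_deef5c_ag.O

end

section

/-! The number of relations of the framed deformation ring. -/

open PowerSeries IsLocalRing Finset Function
open scoped Polynomial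

namespace Pool.Agent.MP_deef5c_ag.O

universe u

variable {k : Type u} [Field k] {p n m α : ℕ} [Fact p.Prime] [CharP k p] {ζ : k} {σ : En k}

variable {R : Type u} [CommRing R] [IsLocalRing R] [CL R]

theorem Low_c0 {D : Type u} [CommRing D] [IsLocalRing D] (S : Sp p n m α ζ σ) (π : D →+* k)
    (hπ : Surjective π) {s : D⟦X⟧} (hs : PowerSeries.map π s = σ X) :
    constantCoeff s ∈ maximalIdeal D := by
  have h := order_one (pow_pos (Fact.out : p.Prime).pos n) S.pow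
  rw [← pi_eq_zero_iff π hπ, ← coeff_zero_eq_constantCoeff_apply, ← coeff_map, hs]
  exact coeff_of_lt_order 0 (by rw [h]; exact zero_lt_one)

theorem Low_trc (S : Sp p n m α ζ σ) {c : ℕ → ℕ} (hc : SL p n σ c) {γ : k⟦X⟧}
    (hγ : ∀ j < c (p ^ n), coeff j γ = 0) :
    ∃ a, d⁄dX k (xb p n σ) ∣ a ∧ sub (xb p n σ) γ = trc σ (p ^ n) a := by
  have hq := pow_pos (Fact.out : p.Prime).pos n
  obtain ⟨γ₁, rfl⟩ := X_pow_dvd_iff.2 hγ
  obtain ⟨a, h1, -, h2⟩ := hc.ex (p ^ n - 1) (by omega)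
  rw [(dl_pow p n S.pow a).1, Nat.sub_add_cancel hq] at h2
  have hx := sub_X (Qb_mem (RingHom.id k) surjective_id (xb p n σ) _ hq (by simpa using S.order_xb))
  have hm := Qb_mem (RingHom.id k) surjective_id (xb p n σ) _ hq (by simpa using S.order_xb)
  have hi : σ (xb p n σ) = xb p n σ := nrm_inv S.pow X
  have h3 : σ * sub (xb p n σ) = sub (xb p n σ) :=
    en_ext (by rw [AlgHom.mul_apply, hx, hi]) (by rwa [AlgHom.mul_apply, hx, hi])
  have h4 : ∀ i, (σ ^ i) (sub (xb p n σ) γ₁) = sub (xb p n σ) γ₁ := fun i => by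
    induction i with
    | zero => rfl
    | succ i ih => rw [← SpA_succ, ih, ← AlgHom.mul_apply, h3]
  refine ⟨sub (xb p n σ) γ₁ * a, h1.mul_left _, ?_⟩
  rw [map_mul, map_pow, hx, ← h2, mul_comm]
  simp only [trc, map_mul, h4, mul_sum]

theorem Low_key (S : Sp p n m α ζ σ) (hn : 0 < n) {w : ℕ} (hw : IsW p n σ w) {c : ℕ → ℕ}
    (hc : SL p n σ c) [Algebra R k] (hπ : Surjective (algebraMap R k)) {z : R} (hz : z ^ m = 1)
    (hπz : algebraMap R k z = ζ) {J : Ideal R} (hJ : J ≠ ⊤) {s : R⟦X⟧}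
    (hs : PowerSeries.map (algebraMap R k) s = σ X) (hg : Good (p ^ n) α z J s)
    (hmin : ∀ (J' : Ideal R) (s' : R⟦X⟧), J' ≤ J → CIn J (s' - s) → Good (p ^ n) α z J' s' → J' = J)
    (l : J →ₗ[R] k) (hl : ∀ γ, (mk fun a => l ⟨_, hg.1 a⟩) * d⁄dX k (xb p n σ) = sub (xb p n σ) γ →
      ∀ j ∈ JJ w (c (p ^ n)) (ζ ^ p ^ n) (α : k), coeff j γ = 0) : l = 0 := by
  by_contra hne
  obtain ⟨e, he⟩ : ∃ e, l e = 1 := by
    obtain ⟨e, he⟩ := DFunLike.ne_iff.1 hne
    obtain ⟨r, hr⟩ := hπ (l e)⁻¹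
    exact ⟨r • e, by rw [map_smul, Algebra.smul_def, hr, inv_mul_cancel₀ he]⟩
  set J' : Ideal R := (LinearMap.ker l).map J.subtype with hJ'
  have hle : J' ≤ J := Submodule.map_subtype_le _ _
  have hmem : ∀ a : J, (a : R) ∈ J' ↔ l a = 0 := fun a =>
    ⟨fun ⟨b, hb, h⟩ => Subtype.ext h ▸ hb, fun h => ⟨a, h, rfl⟩⟩
  have hJt : J' ≠ ⊤ := ne_top_of_le_ne_top hJ hle
  have := local_quot J' hJt
  have hφ : Surjective (Ideal.Quotient.mk J') := Ideal.Quotient.mk_surjective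
  have : CL (R ⧸ J') := CL.of_surj _ hφ
  obtain ⟨π', hπ', hc'⟩ := exists_pi_quot (algebraMap R k) hπ J' hJt
  have hε : ∀ a ∈ maximalIdeal (R ⧸ J'), a * Ideal.Quotient.mk J' e = 0 := fun a ha => by
    obtain ⟨r, rfl⟩ := hφ a
    rw [← pi_eq_zero_iff π' hπ', hc'] at ha
    rw [← map_mul, Ideal.Quotient.eq_zero_iff_mem]
    exact (hmem (r • e)).2 (by rw [map_smul, Algebra.smul_def, ha, zero_mul])
  have hem : (e : R) ∈ maximalIdeal R := le_maximalIdeal hJ e.2
  have hεm : Ideal.Quotient.mk J' e ∈ maximalIdeal (R ⧸ J') := by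
    rwa [← pi_eq_zero_iff π' hπ', hc', pi_eq_zero_iff _ hπ]
  have he' : (e : R) ∉ J' := fun h => one_ne_zero (he.symm.trans ((hmem e).1 h))
  have hdec : ∀ (f : R⟦X⟧) (hf : CIn J f), ∃ o, PowerSeries.map (Ideal.Quotient.mk J') f =
      C (Ideal.Quotient.mk J' e) * o ∧ PowerSeries.map π' o = mk fun a => l ⟨_, hf a⟩ := by
    intro f hf
    choose r hr using fun a => hπ (l ⟨_, hf a⟩)
    refine ⟨mk fun a => Ideal.Quotient.mk J' (r a), ?_, ?_⟩
    · ext a
      rw [coeff_map, coeff_C_mul, coeff_mk, ← map_mul, Ideal.Quotient.eq, mul_comm]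
      exact (hmem (⟨_, hf a⟩ - r a • e)).2 (by
        rw [map_sub, map_smul, Algebra.smul_def, hr, he, mul_one, sub_self])
    · ext a
      rw [coeff_map, coeff_mk, coeff_mk, hc', hr]
  obtain ⟨o, ho, ho'⟩ := hdec _ hg.1
  obtain ⟨o₂, ho₂, -⟩ := hdec _ hg.2
  have hs' : PowerSeries.map π' (PowerSeries.map (Ideal.Quotient.mk J') s) = σ X := by
    rw [← hs]
    ext a
    simp only [coeff_map, hc']
  have m1 := Low_c0 S _ hπ hs
  have m2 := Low_c0 S _ hπ' hs'
  have hp := map_en_pow (Ideal.Quotient.mk J') (sub s) (sub (PowerSeries.map _ s))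
    (by rw [sub_X m1, sub_X m2]) (by rwa [sub_X m2])
  rw [map_sub, hp, map_X] at ho
  rw [map_sub, hp, map_tau, map_mul, map_C, map_X] at ho₂
  have hz' : Ideal.Quotient.mk J' z ^ m = 1 := by rw [← map_pow, hz, map_one]
  have hπz' : π' (Ideal.Quotient.mk J' z) = ζ := (hc' z).trans hπz
  obtain ⟨γ, h1, h2⟩ := obs1 S hn hw hc π' hπ' hz' hπz' hε hεm
    (fun h => he' (Ideal.Quotient.eq_zero_iff_mem.1 h)) hs' ho ho₂
  obtain ⟨a, h3, h4⟩ := Low_trc S hc (γ := γ) fun j hj => by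
    by_cases h : j ∈ JJ w (c (p ^ n)) (ζ ^ p ^ n) (α : k)
    exacts [hl γ (ho' ▸ h1) j h, h2 j hj h]
  obtain ⟨β, -, -, hβ, -⟩ := S.isW_spec hn hw
  obtain ⟨g, hg'⟩ := obs2 S (fun h => by simp [h] at hβ) π' hπ' hz' hπz' hε hεm hs' ho ho₂ a h3
    (h1.trans h4)
  obtain ⟨g, rfl⟩ := PowerSeries.map_surjective _ hφ g
  have h5 := (good_iff _ hφ (p ^ n) α z (s + C e.1 * g) (by
    rw [map_add, map_mul, constantCoeff_C]
    exact add_mem m1 (Ideal.mul_mem_right _ _ hem))).2 (by rwa [map_add, map_mul, map_C])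
  rw [Ideal.mk_ker] at h5
  refine he' ((hmin _ _ hle (fun a => ?_) h5).symm ▸ e.2)
  rw [add_sub_cancel_left, coeff_C_mul]
  exact J.mul_mem_right _ e.2

/-- Take `(J, s)` from `zorn_min`, `O = (sub s^q) X - X`, `letI := π.toAlgebra`.  For `λ : J →ₗ[R] k` let
`λ_* O = mk fun a => λ ⟨coeff a O, _⟩`, and `L λ j = coeff j (ret (λ_* O * d x))` for `j ∈ JJ`, where
`ret` is a linear left inverse of the injective `sub x`.  `gen_le` applies once `L` is injective.  If
`L λ = 0`, `λ ≠ 0`: let `J' = (ker λ).map J.subtype`, `A = R ⧸ J'`, `ε` the class of `e₀` with `λ e₀ = 1`;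
every `c ∈ J` is `≡ c' e₀` with `π c' = λ c`.  `obs1` gives `γ` with all coefficients below `c q` zero,
so `λ_* O * d x = x^(c q) sub x γ₁ = trc σ q (sub x γ₁ * a)` with `a` from `SL.ex` (`dl_pow`); `obs2` and
`good_iff` give a good pair `(J', s + e₀ g)`, contradicting minimality. -/
theorem low (S : Sp p n m α ζ σ) (hn : 0 < n) {w : ℕ} (hw : IsW p n σ w) {c : ℕ → ℕ}
    (hc : SL p n σ c) (π : R →+* k) (hπ : Surjective π) {z : R} (hz : z ^ m = 1) (hπz : π z = ζ)
    (J₂ : Ideal R) (hJ₂ : J₂ ≠ ⊤) (s₂ : R⟦X⟧) (hs : PowerSeries.map π s₂ = σ X)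
    (hg : Good (p ^ n) α z J₂ s₂) :
    ∃ (T : Finset R) (s : R⟦X⟧), T.card ≤ (JJ w (c (p ^ n)) (ζ ^ p ^ n) (α : k)).card ∧
      Ideal.span (T : Set R) ≤ J₂ ∧ CIn J₂ (s - s₂) ∧ Good (p ^ n) α z (Ideal.span (T : Set R)) s := by
  obtain ⟨J, s, h1, h2, h3, h4⟩ := zorn_min (p ^ n) α z J₂ hJ₂ s₂ (Low_c0 S π hπ hs) hg
  have hs' : PowerSeries.map π s = σ X := by
    rw [← hs]
    ext a
    rw [coeff_map, coeff_map, ← sub_eq_zero, ← map_sub, ← map_sub]
    exact Quot_ker π hπ J₂ hJ₂ _ (h2 a)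
  letI := π.toAlgebra
  obtain ⟨ret, hret⟩ := (sub (xb p n σ)).toLinearMap.exists_leftInverse_of_injective
    (LinearMap.ker_eq_bot.2 (sub_injective (RingHom.id k) surjective_id (xb p n σ) _
      (pow_pos (Fact.out : p.Prime).pos n) (by simpa using S.order_xb)))
  let P : (J →ₗ[R] k) →ₗ[k] k⟦X⟧ :=
    { toFun := fun l => mk fun a => l ⟨_, h3.1 a⟩
      map_add' := fun _ _ => by ext a; simp
      map_smul' := fun _ _ => by ext a; simp }
  obtain ⟨T, hT, rfl⟩ := gen_le (k := k) hπ J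
    (LinearMap.pi fun j : JJ w (c (p ^ n)) (ζ ^ p ^ n) (α : k) => coeff j.1 ∘ₗ ret ∘ₗ
      LinearMap.mulRight k (d⁄dX k (xb p n σ)) ∘ₗ P)
    ((injective_iff_map_eq_zero _).2 fun l hl =>
      Low_key S hn hw hc hπ hz hπz (ne_top_of_le_ne_top hJ₂ h1) hs' h3 h4 l fun γ hγ j hj => by
        have h5 : coeff j (ret (P l * d⁄dX k (xb p n σ))) = 0 := congrFun hl ⟨j, hj⟩
        have h6 : ret (sub (xb p n σ) γ) = γ := LinearMap.congr_fun hret γ
        rw [← h6, ← hγ]
        exact h5)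
  exact ⟨T, s, by simpa using hT, h1, h2, h3⟩

end Pool.Agent.MP_deef5c_ag.O

end

section

/-! The first order family satisfies the relations. -/

open PowerSeries IsLocalRing Finset Function
open scoped Polynomial

namespace Pool.Agent.MP_deef5c_ag.O

universe u

variable {k : Type u} [Field k] {p n m α : ℕ} [Fact p.Prime] [CharP k p] {ζ : k} {σ : En k}

variable {A : Type u} [CommRing A] [IsLocalRing A] [CL A] [Algebra k A]

/-- `s₀ = cst (σ X)` satisfies the relations (`Rel.map`).  By `calc_pow` with `I` the maximal ideal,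
`(sub s^a) X = (sub s₀^a) X + ∑ C (a t) * L a (cst (e t))`.  For `a = q` the reductions vanish
(`trc σ q = dl^(q-1)` kills, as `t.1 ≤ q - 1`, and `d x ≠ 0`); for `a = α` use `TV.eqv` and
`tau ζ (σ (d x)) * ζ = ξ * σ^α (d x)` (`der_tau`) to get `tau ζ (e t) = ζ * red (L α (cst (e t)))`. -/
theorem tan_good (S : Sp p n m α ζ σ) (hd : d⁄dX k (xb p n σ) ≠ 0) (π : A →ₐ[k] k)
    (h2 : maximalIdeal A * maximalIdeal A = ⊥) (T : Finset (ℕ × ℕ)) (e : ℕ × ℕ → k⟦X⟧)
    (a : ℕ × ℕ → A) (ha : ∀ t ∈ T, π (a t) = 0)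
    (he : ∀ t ∈ T, t.1 ≠ 0 → t.1 < p ^ n ∧ TV p n α ζ σ (t.1 - 1) t.2 (e t)) :
    Rel (p ^ n) α (algebraMap k A ζ) (sub (sfam σ T e a)) := by
  have hq : 0 < p ^ n := pow_pos (Fact.out : p.Prime).pos n
  have hπ : Surjective (π : A →+* k) := fun c => ⟨algebraMap k A c, π.commutes c⟩
  have hcst : ∀ g : k⟦X⟧, PowerSeries.map (π : A →+* k) (cst A g) = g := fun g => by
    ext i
    simp [coeff_map]
  have h0 : constantCoeff (σ X) = 0 := by
    have h1 := order_one hq S.pow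
    rw [← coeff_zero_eq_constantCoeff_apply]
    exact coeff_of_lt_order 0 (by rw [h1]; norm_num)
  have hx : σ (xb p n σ) = xb p n σ := nrm_inv S.pow X
  have hs0 : constantCoeff (cst A (σ X)) ∈ maximalIdeal A := by
    rw [← coeff_zero_eq_constantCoeff_apply, coeff_map, coeff_zero_eq_constantCoeff_apply, h0,
      map_zero]
    exact zero_mem _
  have ham : ∀ t ∈ T.filter (fun t => t.1 ≠ 0), a t ∈ maximalIdeal A := fun t ht =>
    (pi_eq_zero_iff (π : A →+* k) hπ _).1 (ha t (mem_filter.1 ht).1)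
  have hε : ∀ t ∈ T.filter (fun t => t.1 ≠ 0), ∀ b ∈ maximalIdeal A, b * a t = 0 :=
    fun t ht b hb => by
      have h1 := Ideal.mul_mem_mul hb (ham t ht)
      rwa [h2, Ideal.mem_bot] at h1
  have hE : CIn (maximalIdeal A) (∑ t ∈ T.filter (fun t => t.1 ≠ 0), C (a t) * cst A (e t)) := by
    intro i
    rw [map_sum]
    refine sum_mem fun t ht => ?_
    rw [coeff_C_mul]
    exact Ideal.mul_mem_right _ _ (ham t ht)
  have hs : constantCoeff (sfam σ T e a) ∈ maximalIdeal A := by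
    rw [sfam, map_add]
    refine add_mem hs0 ?_
    rw [← coeff_zero_eq_constantCoeff_apply]
    exact hE 0
  have hR0 : Rel (p ^ n) α (algebraMap k A ζ) (sub (cst A (σ X))) :=
    Rel.map (algebraMap k A) ⟨S.pow, S.rel⟩ hs0
  obtain ⟨L, hL1, hL2⟩ := calc_pow (π : A →+* k) hπ σ h0 _ hx (cst A (σ X)) (hcst _)
  have hL : ∀ b, (sub (sfam σ T e a) ^ b) X = (sub (cst A (σ X)) ^ b) X +
      ∑ t ∈ T.filter (fun t => t.1 ≠ 0), C (a t) * L b (cst A (e t)) := by
    intro b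
    rw [sfam, hL1 _ h2 _ hE b, map_sum]
    refine congrArg _ (sum_congr rfl fun t _ => ?_)
    rw [← smul_eq_C_mul, map_smul, smul_eq_C_mul]
  constructor
  · have h1 : (sub (sfam σ T e a) ^ p ^ n) X = X := by
      rw [hL, hR0.1, AlgHom.one_apply, sum_eq_zero, add_zero]
      intro t ht
      obtain ⟨ht1, ht2⟩ := mem_filter.1 ht
      obtain ⟨h3, h4⟩ := he t ht1 ht2
      rw [eps_mul_eq (π : A →+* k) hπ (hε t ht) (g' := 0), mul_zero]
      have h5 := hL2 (p ^ n) (cst A (e t))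
      obtain ⟨c, hc⟩ : ∃ c, p ^ n - 1 = c + (t.1 - 1 + 1) := ⟨p ^ n - 1 - t.1, by omega⟩
      rw [hcst, S.pow, AlgHom.one_apply, ← (dl_pow p n S.pow _).1, hc, pow_add,
        Module.End.mul_apply, h4.ker, map_zero] at h5
      rw [map_zero]
      exact (mul_eq_zero.1 h5).resolve_right hd
    refine en_ext h1 ?_
    rw [h1, constantCoeff_X]
    exact zero_mem _
  · have hζ : ζ ≠ 0 := S.prim.ne_zero S.mpos.ne'
    have hd1 : C (ζ ^ p ^ n) * (σ ^ α) (d⁄dX k (xb p n σ)) =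
        C ζ * tau ζ (σ (d⁄dX k (xb p n σ))) := by
      have h3 := der_tau ζ (xb p n σ)
      have h4 : tau ζ (xb p n σ) = C (ζ ^ p ^ n) * xb p n σ := tau_nrm ⟨S.pow, S.rel⟩ (S.cop n)
      rw [h4, ← smul_eq_C_mul, Derivation.map_smul, smul_eq_C_mul] at h3
      have h5 := congrArg (σ ^ α) h3
      rw [map_mul, map_mul, Base_en_C, Base_en_C, ← AlgHom.mul_apply, ← S.rel,
        AlgHom.mul_apply] at h5
      exact h5
    have hd2 : tau ζ (σ (d⁄dX k (xb p n σ))) ≠ 0 := by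
      intro h3
      rw [h3, mul_zero] at hd1
      rcases mul_eq_zero.1 hd1 with h4 | h4
      · exact pow_ne_zero _ hζ (C_injective (by rw [h4, map_zero]))
      · have h5 : Injective (σ ^ α) := en_inj hq (by rw [← pow_mul, mul_comm, pow_mul, S.pow, one_pow])
        exact hd (h5 (by rw [h4, map_zero]))
    refine en_ext ?_ ?_
    · have h3 := congrArg (fun φ : En A => φ X) hR0.2
      simp only [AlgHom.mul_apply] at h3
      rw [sub_X hs0, tau_X, map_mul, Base_en_C] at h3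
      rw [AlgHom.mul_apply, AlgHom.mul_apply, sub_X hs, tau_X, map_mul, Base_en_C, hL, mul_add,
        ← h3, sfam, map_add, map_sum, mul_sum]
      refine congrArg _ (sum_congr rfl fun t ht => ?_)
      obtain ⟨ht1, ht2⟩ := mem_filter.1 ht
      obtain ⟨-, h4⟩ := he t ht1 ht2
      rw [map_mul, Base_en_C, mul_left_comm]
      refine eps_mul_eq (π : A →+* k) hπ (hε t ht) ?_
      have h5 := h4.eqv
      have h6 := hL2 α (cst A (e t))
      rw [hcst] at h6
      rw [map_mul, ← h6, mul_left_comm, hd1, ← mul_assoc] at h5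
      rw [map_tau, map_mul, map_C, hcst, RingHom.coe_coe, AlgHom.commutes, Algebra.algebraMap_self,
        RingHom.id_apply, mul_right_cancel₀ hd2 h5, mul_comm]
    · rw [AlgHom.mul_apply, sub_X hs]
      refine en_mem _ ?_ hs
      rw [tau_X, map_mul, constantCoeff_X, mul_zero]
      exact zero_mem _

end Pool.Agent.MP_deef5c_ag.O

end

section

/-! Equivariant tangent vectors. -/

open PowerSeries IsLocalRing Finset Function
open scoped Polynomial

namespace Pool.Agent.MP_deef5c_ag.O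

universe u

theorem Tanv_geom {R : Type*} [Semiring R] (s : R) (a b : ℕ) :
    ∑ l ∈ range (a * b), s ^ l = (∑ l ∈ range b, (s ^ a) ^ l) * ∑ l ∈ range a, s ^ l := by
  induction b with
  | zero => simp
  | succ b ih =>
    rw [Nat.mul_succ, sum_range_add, ih, sum_range_succ, add_mul, ← pow_mul, mul_sum (range a) _ (s ^ _)]
    simp only [pow_add]

theorem Tanv_pow {R K : Type*} [CommRing K] [Ring R] [Algebra K R] {s u : R} {α : ℕ}
    (h : u * s ^ α = s * u) (ξ : K) (b : ℕ) :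
    (ξ • (u * ∑ l ∈ range α, s ^ l)) ^ b = ξ ^ b • (u ^ b * ∑ l ∈ range (α ^ b), s ^ l) := by
  have hs : SemiconjBy u (s ^ α) s := h
  have h1 : ∀ c : ℕ, (∑ l ∈ range c, s ^ l) * u = u * ∑ l ∈ range c, (s ^ α) ^ l := by
    intro c
    rw [sum_mul, mul_sum]
    exact sum_congr rfl fun l _ => (hs.pow_right l).eq.symm
  induction b with
  | zero => simp
  | succ b ih =>
    rw [pow_succ, ih, smul_mul_smul_comm, ← pow_succ, pow_succ' α, Tanv_geom, pow_succ u,
      mul_assoc, ← mul_assoc _ u, h1]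
    simp only [mul_assoc]

theorem Tanv_avg {K V : Type*} [Field K] [AddCommGroup V] [Module K V] {s t u : Module.End K V}
    {α m q r i : ℕ} (htu : t * u = 1) (h : u * s ^ α = s * u) (hum : u ^ m = 1) {ξ : K}
    (hξ : ξ ^ m = 1) (hm : (m : K) ≠ 0) (hα : α ^ m = q * r + 1) (N : Submodule K V)
    (hNs : ∀ a ∈ N, s a ∈ N) (hNu : ∀ a ∈ N, u a ∈ N) {y : V} (hy : s y = y)
    (hyu : (ξ * (α : K) ^ (i + 1)) • u y = y) {a₀ : V} (ha : a₀ ∈ N)
    (hT : (∑ l ∈ range q, s ^ l) a₀ = 0) (h1 : ((s - 1) ^ i) a₀ = y) :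
    ∃ a ∈ N, ((s - 1) ^ i) a = y ∧ t a = ξ • (∑ l ∈ range α, s ^ l) a := by
  set T : Module.End K V := ∑ l ∈ range α, s ^ l with hTd
  set μ : Module.End K V := ξ • (u * T) with hμ
  have hs : SemiconjBy u (s ^ α) s := h
  have hNp : ∀ l : ℕ, ∀ a ∈ N, (s ^ l) a ∈ N := by
    intro l
    induction l with
    | zero => exact fun a ha => ha
    | succ l ih => exact fun a ha => by rw [pow_succ', Module.End.mul_apply]; exact hNs _ (ih a ha)
  have hNμ : ∀ a ∈ N, μ a ∈ N := by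
    intro a ha
    rw [hμ, LinearMap.smul_apply, Module.End.mul_apply, hTd, LinearMap.sum_apply]
    exact N.smul_mem _ (hNu _ (N.sum_mem fun l _ => hNp l a ha))
  have hyp : ∀ l : ℕ, (s ^ l) y = y := by
    intro l
    induction l with
    | zero => rfl
    | succ l ih => rw [pow_succ', Module.End.mul_apply, ih, hy]
  have hTy : T y = (α : K) • y := by
    rw [hTd, LinearMap.sum_apply, sum_congr rfl fun l _ => hyp l, sum_const, card_range,
      Nat.cast_smul_eq_nsmul]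
  have hTk : ∀ l : ℕ, (T ^ l) y = (α : K) ^ l • y := by
    intro l
    induction l with
    | zero => simp
    | succ l ih => rw [pow_succ', Module.End.mul_apply, ih, map_smul, hTy, smul_smul, pow_succ]
  have hc : Commute T (s - 1) :=
    Commute.sum_left _ _ _ fun l _ => ((Commute.refl s).sub_right (Commute.one_right s)).pow_left l
  have hδ : (s - 1) ^ i * (u * T) = u * (T ^ (i + 1) * (s - 1) ^ i) := by
    have h2 := ((hs.sub_right (SemiconjBy.one_right u)).pow_right i).eq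
    rw [← mul_assoc, ← h2, ← geom_sum_mul, ← hTd, hc.mul_pow, mul_assoc, mul_assoc,
      ← (hc.pow_right i).eq, pow_succ, mul_assoc]
  have hμy : ∀ a, ((s - 1) ^ i) a = y → ((s - 1) ^ i) (μ a) = y := by
    intro a h2
    rw [hμ, LinearMap.smul_apply, map_smul, ← Module.End.mul_apply, hδ, Module.End.mul_apply,
      Module.End.mul_apply, h2, hTk, map_smul, smul_smul, hyu]
  have hit : ∀ b : ℕ, (μ ^ b) a₀ ∈ N ∧ ((s - 1) ^ i) ((μ ^ b) a₀) = y := by
    intro b
    induction b with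
    | zero => exact ⟨ha, h1⟩
    | succ b ih =>
      rw [pow_succ', Module.End.mul_apply]
      exact ⟨hNμ _ ih.1, hμy _ ih.2⟩
  have hper : (μ ^ m) a₀ = a₀ := by
    rw [hμ, hTd, Tanv_pow h, hξ, hum, one_smul, one_mul, hα, geom_sum_succ, Tanv_geom,
      LinearMap.add_apply, Module.End.mul_apply, Module.End.mul_apply, hT, map_zero, map_zero,
      zero_add, Module.End.one_apply]
  have hfix : μ ((∑ b ∈ range m, μ ^ b) a₀) = (∑ b ∈ range m, μ ^ b) a₀ := by
    have h2 := congrArg (fun z : Module.End K V => z a₀) (mul_geom_sum μ m)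
    simp only [Module.End.mul_apply, LinearMap.sub_apply, Module.End.one_apply, hper,
      sub_self] at h2
    exact sub_eq_zero.1 h2
  refine ⟨(m : K)⁻¹ • (∑ b ∈ range m, μ ^ b) a₀, ?_, ?_, ?_⟩
  · rw [LinearMap.sum_apply]
    exact N.smul_mem _ (N.sum_mem fun b _ => (hit b).1)
  · rw [map_smul, LinearMap.sum_apply, map_sum, sum_congr rfl fun b _ => (hit b).2, sum_const,
      card_range, ← Nat.cast_smul_eq_nsmul K, smul_smul, inv_mul_cancel₀ hm, one_smul]
  · rw [map_smul, map_smul, smul_comm ξ]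
    congr 1
    generalize (∑ b ∈ range m, μ ^ b) a₀ = z at hfix
    conv_lhs => rw [← hfix]
    rw [hμ, LinearMap.smul_apply, map_smul, ← Module.End.mul_apply, ← mul_assoc, htu, one_mul]

variable {k : Type u} [Field k] {p n m α : ℕ} [Fact p.Prime] [CharP k p] {ζ : k} {σ : En k}

theorem Tanv_trc (σ : En k) (a : ℕ) (f : k⟦X⟧) :
    (∑ l ∈ range a, (σ.toLinearMap : Module.End k k⟦X⟧) ^ l) f = trc σ a f := by
  rw [LinearMap.sum_apply, trc]
  exact sum_congr rfl fun l _ => SpA_lin σ l f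

theorem Tanv_dl_mul {y : k⟦X⟧} (hy : σ y = y) (l : ℕ) (a : k⟦X⟧) :
    (dl σ ^ l) (y * a) = y * (dl σ ^ l) a := by
  induction l with
  | zero => rfl
  | succ l ih =>
    rw [pow_succ', Module.End.mul_apply, Module.End.mul_apply, ih]
    change σ (y * (dl σ ^ l) a) - y * (dl σ ^ l) a = y * (σ ((dl σ ^ l) a) - (dl σ ^ l) a)
    rw [map_mul, hy, mul_sub]

/-- Start from `a₀ = x^(j - c (i+1)) a` with `a` from `SL.ex`.  Let `μ a = ξ τ⁻¹ (trc σ α a)` with
`τ⁻¹ = tau ζ⁻¹`.  It preserves `M = (d x)` and the kernel of `dl^(i+1)`,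
`μ^b a = ξ^b τ^(-b) (trc σ (α^b) a)`, so `μ^m a = a` when `trc σ q a = 0` (`Sp.apow`, `dl_pow`), and
`dl^i (μ a) = ξ α^(i+1) τ⁻¹ (dl^i a)`, which fixes `x^j`.  Average `a₀` over `μ^b`, `b < m`, and divide
by `σ (d x)`, an associate of `d x`. -/
theorem tanv (S : Sp p n m α ζ σ) {c : ℕ → ℕ} (hc : SL p n σ c) (i j : ℕ) (hi : i + 1 < p ^ n)
    (hj : c (i + 1) ≤ j) (hξ : (ζ ^ p ^ n) ^ j = ζ ^ p ^ n * (α : k) ^ (i + 1)) :
    ∃ e, TV p n α ζ σ i j e := by
  have hq : 0 < p ^ n := by omega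
  have hζ : ζ ≠ 0 := S.prim.ne_zero S.mpos.ne'
  have hξ0 : ζ ^ p ^ n ≠ 0 := pow_ne_zero _ hζ
  have htu : tau ζ * tau ζ⁻¹ = 1 := by rw [tau_mul, mul_inv_cancel₀ hζ, tau_one]
  have hut : tau ζ⁻¹ * tau ζ = 1 := by rw [tau_mul, inv_mul_cancel₀ hζ, tau_one]
  have hsu : tau ζ⁻¹ * σ ^ α = σ * tau ζ⁻¹ := by
    calc tau ζ⁻¹ * σ ^ α = tau ζ⁻¹ * (σ ^ α * tau ζ) * tau ζ⁻¹ := by
          rw [mul_assoc, mul_assoc, htu, mul_one]
      _ = σ * tau ζ⁻¹ := by rw [← S.rel, ← mul_assoc, hut, one_mul]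
  have hum : tau ζ⁻¹ ^ m = 1 := by rw [tau_pow, inv_pow, S.prim.pow_eq_one, inv_one, tau_one]
  set x := xb p n σ with hx
  have hσx : σ x = x := nrm_inv S.pow X
  have htx : tau ζ x = C (ζ ^ p ^ n) * x := tau_nrm ⟨S.pow, S.rel⟩ (S.cop n)
  have hux : tau ζ⁻¹ x = C (ζ ^ p ^ n)⁻¹ * x := by
    have h1 : tau ζ⁻¹ (tau ζ x) = x := by
      change (tau ζ⁻¹ * tau ζ) x = x
      rw [hut]
      rfl
    rw [htx, map_mul, Base_en_C] at h1
    conv_rhs => rw [← h1]
    rw [← mul_assoc, ← map_mul, inv_mul_cancel₀ hξ0, map_one, one_mul]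
  have ho := order_one hq S.pow
  have h0 : constantCoeff (σ X) = 0 := by
    rw [← coeff_zero_eq_constantCoeff_apply]
    exact coeff_of_lt_order 0 (by rw [ho]; exact zero_lt_one)
  have hder : d⁄dX k x = σ (d⁄dX k x) * d⁄dX k (σ X) := by
    have h1 := der_en σ (by rw [h0]; exact zero_mem _) x
    rwa [hσx] at h1
  have hun : IsUnit (d⁄dX k (σ X)) := by
    rw [isUnit_iff_constantCoeff, ← coeff_zero_eq_constantCoeff_apply, coeff_derivative]
    have h1 : coeff 1 (σ X) ≠ 0 := by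
      have h2 := coeff_order (φ := σ X) (by rintro h; rw [h, order_zero] at ho; simp at ho)
      rwa [ho] at h2
    simpa using h1
  have hd1 : d⁄dX k x ∣ σ (d⁄dX k x) := by
    conv_lhs => rw [hder]
    exact (IsUnit.mul_right_dvd hun).2 dvd_rfl
  have hd2 : d⁄dX k x ∣ tau ζ⁻¹ (d⁄dX k x) := by
    have h1 := der_tau ζ⁻¹ x
    rw [hux, ← smul_eq_C_mul, Derivation.map_smul, smul_eq_C_mul] at h1
    refine ⟨C ζ * C (ζ ^ p ^ n)⁻¹, ?_⟩
    calc tau ζ⁻¹ (d⁄dX k x) = C ζ * (C ζ⁻¹ * tau ζ⁻¹ (d⁄dX k x)) := by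
          rw [← mul_assoc, ← map_mul, mul_inv_cancel₀ hζ, map_one, one_mul]
      _ = _ := by rw [← h1]; ring
  obtain ⟨a₁, ha1, ha2, ha3⟩ := hc.ex i (by omega)
  have hα0 : 1 ≤ α ^ m := by
    refine Nat.one_le_pow _ _ (Nat.pos_of_ne_zero ?_)
    rintro rfl
    have h1 := S.alpha_pow
    rw [Nat.cast_zero, zero_pow S.mpos.ne'] at h1
    exact zero_ne_one h1
  obtain ⟨r, hr⟩ := (Nat.modEq_iff_dvd' hα0).1 S.apow.symm
  have hpw : ∀ l : ℕ, σ (x ^ l) = x ^ l := fun l => by rw [map_pow, hσx]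
  obtain ⟨a, haN, ha4, ha5⟩ := Tanv_avg (K := k) (V := k⟦X⟧) (s := σ.toLinearMap)
    (t := (tau ζ).toLinearMap) (u := (tau ζ⁻¹).toLinearMap) (α := α) (m := m) (q := p ^ n) (r := r)
    (i := i) (LinearMap.ext fun f => DFunLike.congr_fun htu f)
    (LinearMap.ext fun f => by
      have h1 := DFunLike.congr_fun hsu f
      rw [Module.End.mul_apply, SpA_lin]
      exact h1)
    (LinearMap.ext fun f => by rw [SpA_lin, hum]; rfl)
    (S.prim_pow n).pow_eq_one S.m_ne (by omega)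
    ((Ideal.span {d⁄dX k x}).restrictScalars k)
    (fun a ha => Ideal.mem_span_singleton.2
      (hd1.trans (map_dvd σ (Ideal.mem_span_singleton.1 ha))))
    (fun a ha => Ideal.mem_span_singleton.2
      (hd2.trans (map_dvd (tau ζ⁻¹) (Ideal.mem_span_singleton.1 ha))))
    (y := x ^ j) (hpw j)
    (by
      change _ • tau ζ⁻¹ (x ^ j) = _
      rw [map_pow, hux, mul_pow, ← map_pow, ← smul_eq_C_mul, smul_smul, ← hξ, inv_pow,
        mul_inv_cancel₀ (pow_ne_zero _ hξ0), one_smul])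
    (a₀ := x ^ (j - c (i + 1)) * a₁) (Ideal.mem_span_singleton.2 (ha1.mul_left _))
    (by
      obtain ⟨l, hl⟩ : ∃ l, p ^ n - 1 = l + (i + 1) := ⟨p ^ n - 1 - (i + 1), by omega⟩
      rw [Tanv_trc, ← (dl_pow p n S.pow _).1, Tanv_dl_mul (hpw _), hl, pow_add,
        Module.End.mul_apply, ha2, map_zero, mul_zero])
    (by
      change (dl σ ^ i) _ = _
      rw [Tanv_dl_mul (hpw _), ha3, ← pow_add, Nat.sub_add_cancel hj])
  have hdv : σ (d⁄dX k x) ∣ a := (Dvd.intro _ hder.symm).trans (Ideal.mem_span_singleton.1 haN)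
  obtain ⟨e, he⟩ := hdv
  rw [mul_comm] at he
  have ha6 : (dl σ ^ i) a = x ^ j := ha4
  refine ⟨e, ?_, ?_, ?_⟩
  · rw [← hx, ← he, pow_succ', Module.End.mul_apply, ha6]
    change σ (x ^ j) - x ^ j = 0
    rw [hpw, sub_self]
  · rw [← hx, ← he, ha6]
  · rw [← hx, ← he, ← smul_eq_C_mul, ← Tanv_trc]
    exact ha5

end Pool.Agent.MP_deef5c_ag.O

end

section

/-! The symbols of the kernel filtration. -/

open PowerSeries IsLocalRing Finset Function
open scoped Polynomial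

namespace Pool.Agent.MP_deef5c_ag.O

universe u

variable {k : Type u} [Field k] {p n m α : ℕ} [Fact p.Prime] [CharP k p] {ζ : k} {σ : En k}

theorem Sfl1_dvd_iff {f : k⟦X⟧} {b : ℕ} : X ^ b ∣ f ↔ (b : ℕ∞) ≤ order f := by
  rw [X_pow_dvd_iff]
  exact ⟨nat_le_order f b, fun h i hi =>
    coeff_of_lt_order i (lt_of_lt_of_le (by exact_mod_cast hi) h)⟩

theorem Sfl1_assoc {f : k⟦X⟧} {b : ℕ} (h : order f = b) (a : k⟦X⟧) : f ∣ a ↔ X ^ b ∣ a := by
  have h0 : f ≠ 0 := by
    rintro rfl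
    simp at h
  have h1 := X_pow_order_mul_divXPowOrder (f := f)
  rw [h, ENat.toNat_natCast] at h1
  rw [← h1]
  exact (isUnit_divided_by_X_pow_order h0).mul_right_dvd

theorem Sfl1_dl (σ : En k) (a : k⟦X⟧) : dl σ a = σ a - a := rfl

theorem Sfl1_dl_mul {h : k⟦X⟧} (hh : σ h = h) (i : ℕ) (a : k⟦X⟧) :
    (dl σ ^ i) (h * a) = h * (dl σ ^ i) a := by
  induction i with
  | zero => simp
  | succ i ih =>
    rw [pow_succ', Module.End.mul_apply, Module.End.mul_apply, ih, Sfl1_dl, Sfl1_dl, map_mul, hh]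
    ring

theorem Sfl1_dvd_en (hσ : X ∣ σ X) {b : ℕ} {a : k⟦X⟧} (h : X ^ b ∣ a) : X ^ b ∣ σ a := by
  obtain ⟨g, rfl⟩ := h
  rw [map_mul, map_pow]
  exact (pow_dvd_pow_of_dvd hσ b).mul_right _

theorem Sfl1_dvd_dl (hσ : X ∣ σ X) {b : ℕ} (i : ℕ) {a : k⟦X⟧} (h : X ^ b ∣ a) :
    X ^ b ∣ (dl σ ^ i) a := by
  induction i with
  | zero => simpa using h
  | succ i ih =>
    rw [pow_succ', Module.End.mul_apply, Sfl1_dl]
    exact dvd_sub (Sfl1_dvd_en hσ ih) ih

theorem Sfl1_gain {ρ : En k} {l : ℕ} (hρ : X ^ (l + 1) ∣ ρ X - X) {b : ℕ} {a : k⟦X⟧}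
    (h : X ^ b ∣ a) : X ^ (b + l) ∣ ρ a - a := by
  obtain ⟨g, rfl⟩ := h
  obtain ⟨e, he⟩ := hρ
  have h1 : ρ X = X * (1 + X ^ l * e) := by
    rw [sub_eq_iff_eq_add] at he
    rw [he]; ring
  have h2 : constantCoeff (ρ X) ∈ maximalIdeal k := by
    rw [h1]; simp
  have h3 : ρ X - X ∣ ρ g - g := sub_dvd ρ 1 h2 (by simp) g
  have h4 : X ^ l ∣ ρ g - g :=
    ((pow_dvd_pow X (Nat.le_succ l)).trans ⟨e, he⟩).trans h3
  have h5 : X ^ l ∣ (1 + X ^ l * e) ^ b - 1 := by
    have := sub_dvd_pow_sub_pow (1 + X ^ l * e) 1 b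
    rw [add_sub_cancel_left, one_pow] at this
    exact (Dvd.intro _ rfl).trans this
  have h6 : ρ (X ^ b * g) - X ^ b * g =
      X ^ b * (((1 + X ^ l * e) ^ b - 1) * ρ g + (ρ g - g)) := by
    rw [map_mul, map_pow, h1, mul_pow]; ring
  rw [h6, pow_add]
  exact mul_dvd_mul_left _ (dvd_add (h5.mul_right _) h4)

theorem Sfl1_frob (p : ℕ) [Fact p.Prime] [CharP k p] (σ : En k) (j : ℕ) :
    dl σ ^ p ^ j = dl (σ ^ p ^ j) := by
  have : CharP (Module.End k k⟦X⟧) p :=
    charP_of_injective_algebraMap (algebraMap k (Module.End k k⟦X⟧)).injective p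
  unfold dl
  rw [sub_pow_char_pow_of_commute p j (Commute.one_right _), one_pow]
  congr 1
  generalize p ^ j = N
  induction N with
  | zero => rfl
  | succ N ih => rw [pow_succ, pow_succ, ih]; rfl

theorem Sfl1_trc {q : ℕ} (hq : 0 < q) (h : orderOf σ = q) : ∃ f, trc σ q f ≠ 0 := by
  by_contra hc
  push Not at hc
  let F : Fin q → (k⟦X⟧ →* k⟦X⟧) := fun i => ((σ ^ (i : ℕ) : En k) : k⟦X⟧ →* k⟦X⟧)
  have hF : Injective F := fun i j hij =>
    Fin.ext (pow_X_inj hq h i i.2 j j.2 (DFunLike.congr_fun hij X))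
  have hli := (linearIndependent_monoidHom k⟦X⟧ k⟦X⟧).comp F hF
  have := Fintype.linearIndependent_iff.1 hli (fun _ => 1) (by
    funext f
    have h1 := hc f
    rw [trc, Finset.sum_range] at h1
    simpa [F] using h1) ⟨0, hq⟩
  exact one_ne_zero this

theorem Sfl1_step (S : Sp p n m α ζ σ) {β : ℕ} {i : ℕ} (hi : i < p ^ n) :
    ∃ c : ℕ, (∀ a, X ^ β ∣ a → (dl σ ^ (i + 1)) a = 0 → xb p n σ ^ c ∣ (dl σ ^ i) a) ∧
      ∃ a, X ^ β ∣ a ∧ (dl σ ^ (i + 1)) a = 0 ∧ (dl σ ^ i) a = xb p n σ ^ c := by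
  have hq : 0 < p ^ n := Nat.zero_lt_of_lt hi
  have hx := S.order_xb
  have hxi : σ (xb p n σ) = xb p n σ := nrm_inv S.pow X
  set x := xb p n σ with hxd
  have hx0 : constantCoeff x = 0 := Lau_cc hq hx
  have hxm : constantCoeff x ∈ maximalIdeal k := by simp [hx0]
  have hσ0 : constantCoeff (σ X) = 0 := Lau_cc one_pos (order_one hq S.pow)
  have hσ : X ∣ σ X := X_dvd_iff.2 hσ0
  have hsub : ∀ g, σ (sub x g) = sub x g := fun g => by
    have : σ * sub x = sub x := en_ext (by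
      show σ (sub x X) = _
      rw [sub_X hxm, hxi]) (by
      show constantCoeff (σ (sub x X)) ∈ _
      rwa [sub_X hxm, hxi])
    exact DFunLike.congr_fun this g
  have hfix : ∀ a, (dl σ ^ (i + 1)) a = 0 → ∃ g, sub x g = (dl σ ^ i) a := fun a ha => by
    refine qinv (RingHom.id k) surjective_id x (p ^ n) hq (by simpa using hx) σ hxi
      (pow_X_inj hq S.ord) _ ?_
    rwa [pow_succ', Module.End.mul_apply, Sfl1_dl, sub_eq_zero] at ha
  let I : Ideal k⟦X⟧ :=
    { carrier := {g | ∃ a, X ^ β ∣ a ∧ (dl σ ^ (i + 1)) a = 0 ∧ (dl σ ^ i) a = sub x g}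
      zero_mem' := ⟨0, by simp, by simp, by simp⟩
      add_mem' := by
        rintro g g' ⟨a, h1, h2, h3⟩ ⟨a', h1', h2', h3'⟩
        exact ⟨a + a', dvd_add h1 h1', by rw [map_add, h2, h2', add_zero],
          by rw [map_add, h3, h3', map_add]⟩
      smul_mem' := by
        rintro h g ⟨a, h1, h2, h3⟩
        exact ⟨sub x h * a, h1.mul_left _, by rw [Sfl1_dl_mul (hsub h), h2, mul_zero],
          by rw [Sfl1_dl_mul (hsub h), h3, smul_eq_mul, map_mul]⟩ }
  have hI : I ≠ ⊥ := by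
    obtain ⟨f, hf⟩ := Sfl1_trc hq S.ord
    have hxne : x ≠ 0 := by
      intro h0
      rw [h0, order_zero] at hx
      exact ENat.top_ne_natCast _ hx
    have hxβ : σ (x ^ β) = x ^ β := by rw [map_pow, hxi]
    have h1 : X ^ β ∣ x ^ β * f := (pow_dvd_pow_of_dvd (X_dvd_iff.2 hx0) β).mul_right _
    have h2 : (dl σ ^ (i + 1)) ((dl σ ^ (p ^ n - 1 - i)) (x ^ β * f)) = 0 := by
      rw [← Module.End.mul_apply, ← pow_add, show i + 1 + (p ^ n - 1 - i) = p ^ n by omega]
      exact (dl_pow p n S.pow _).2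
    have h3 : (dl σ ^ i) ((dl σ ^ (p ^ n - 1 - i)) (x ^ β * f)) ≠ 0 := by
      rw [← Module.End.mul_apply, ← pow_add, show i + (p ^ n - 1 - i) = p ^ n - 1 by omega,
        Sfl1_dl_mul hxβ, (dl_pow p n S.pow _).1]
      exact mul_ne_zero (pow_ne_zero _ hxne) hf
    obtain ⟨g, hg⟩ := hfix _ h2
    intro h0
    have : g ∈ I := ⟨_, Sfl1_dvd_dl hσ _ h1, h2, hg.symm⟩
    rw [h0, Ideal.mem_bot] at this
    rw [this, map_zero] at hg
    exact h3 hg.symm
  obtain ⟨c, hc⟩ := IsDiscreteValuationRing.ideal_eq_span_pow_irreducible hI X_irreducible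
  refine ⟨c, fun a h1 h2 => ?_, ?_⟩
  · obtain ⟨g, hg⟩ := hfix a h2
    have : g ∈ I := ⟨a, h1, h2, hg.symm⟩
    rw [hc, Ideal.mem_span_singleton] at this
    obtain ⟨h, rfl⟩ := this
    rw [← hg, map_mul, map_pow, sub_X hxm]
    exact Dvd.intro _ rfl
  · have : (X : k⟦X⟧) ^ c ∈ I := by
      rw [hc]; exact Ideal.mem_span_singleton_self _
    obtain ⟨a, h1, h2, h3⟩ := this
    exact ⟨a, h1, h2, by rw [h3, map_pow, sub_X hxm]⟩

/-- Let `x = xb p n σ`, `q = p^n`, `M = (d x) = (X^β)`, which is `σ`-stable.  For `i < q` the elements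
`dl^i a` (`a ∈ M`, `dl^(i+1) a = 0`) are invariant, so `sub x g` (`qinv`); the `g` form an ideal of
`k⟦X⟧` (`dl` commutes with multiplication by `sub x h`), non-zero: by Dedekind
(`linearIndependent_monoidHom`) `trc σ q ≠ 0` on `k⟦X⟧`, so `trc σ q a₀ ≠ 0` for some `a₀ ∈ M` (multiply
by a power of `x`), and `dl^(q-1-i) a₀` works (`dl_pow`).  It is `(X^(c (i+1)))`; put `c 0 = 0`.
Monotone: replace `a` by `dl a`.  Finally `trc σ q a = trc σ (q/p) (dl ρ^(p-1) a)` with
`ρ = σ^(q/p)` has order `≥ β + l = q w - 1`, so `q * c q ≥ q w - 1` and `c q ≥ w`. -/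
theorem sfl1 (S : Sp p n m α ζ σ) (hn : 0 < n) {w : ℕ} (hw : IsW p n σ w) :
    ∃ c, SL p n σ c ∧ w ≤ c (p ^ n) := by
  obtain ⟨β, l, -, hβ, hl, hql, -, -⟩ := S.isW_spec hn hw
  have hp : 2 ≤ p := (Fact.out : p.Prime).two_le
  have hq : 0 < p ^ n := by positivity
  have hx := S.order_xb
  have hσ : X ∣ σ X := X_dvd_iff.2 (Lau_cc one_pos (order_one hq S.pow))
  have hxne : xb p n σ ≠ 0 := by
    intro h0
    rw [h0, order_zero] at hx
    exact ENat.top_ne_natCast _ hx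
  have hxu : ¬ IsUnit (xb p n σ) := by
    rw [isUnit_iff_constantCoeff, Lau_cc hq hx]
    exact not_isUnit_zero
  choose! c hc1 hc2 using fun i (hi : i < p ^ n) => Sfl1_step (β := β) S hi
  refine ⟨fun i => if i = 0 then 0 else c (i - 1), ⟨rfl, fun i hi => ?_, fun i hi a h1 h2 => ?_,
    fun i hi => ?_⟩, ?_⟩
  · rcases i with _ | j
    · simp
    · obtain ⟨a, h1, h2, h3⟩ := hc2 (j + 1) hi
      have h4 := hc1 j (by omega) (dl σ a) (by simpa using Sfl1_dvd_dl hσ 1 h1)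
        (by rw [← Module.End.mul_apply, ← pow_succ, h2])
      rw [← Module.End.mul_apply, ← pow_succ, h3, pow_dvd_pow_iff hxne hxu] at h4
      simpa using h4
  · simpa using hc1 i hi a ((Sfl1_assoc hβ a).1 h1) h2
  · obtain ⟨a, h1, h2, h3⟩ := hc2 i hi
    exact ⟨a, (Sfl1_assoc hβ a).2 h1, h2, by simpa using h3⟩
  · obtain ⟨a, h1, -, h3⟩ := hc2 (p ^ n - 1) (by omega)
    have hq' : 0 < p ^ (n - 1) := by positivity
    have h4 : p ^ n = p * p ^ (n - 1) := by
      rw [← pow_succ']; congr 1; omega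
    have h5 : 2 * p ^ (n - 1) ≤ p ^ n := by
      rw [h4]; exact Nat.mul_le_mul_right _ hp
    have h6 : X ^ (β + l) ∣ xb p n σ ^ c (p ^ n - 1) := by
      rw [← h3, show p ^ n - 1 = (p ^ n - 1 - p ^ (n - 1)) + p ^ (n - 1) by omega,
        pow_add (dl σ), Module.End.mul_apply, Sfl1_frob]
      exact Sfl1_dvd_dl hσ _ (Sfl1_gain (Sfl1_dvd_iff.2 hl.ge) h1)
    rw [Sfl1_dvd_iff, order_pow, hx, nsmul_eq_mul] at h6
    have h7 : β + l ≤ c (p ^ n - 1) * p ^ n := by exact_mod_cast h6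
    show w ≤ if p ^ n = 0 then 0 else c (p ^ n - 1)
    rw [if_neg hq.ne']
    by_contra h8
    have h9 := Nat.mul_le_mul_right (p ^ n) (show c (p ^ n - 1) + 1 ≤ w by omega)
    rw [add_mul, mul_comm w] at h9
    omega

end Pool.Agent.MP_deef5c_ag.O

end

section

/-! Eigenvalues on the graded pieces. -/

open PowerSeries IsLocalRing Finset Function
open scoped Polynomial

namespace Pool.Agent.MP_deef5c_ag.O

universe u

variable {k : Type u} [Field k] {p n m α : ℕ} [Fact p.Prime] [CharP k p] {ζ : k} {σ : En k}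

theorem Sfl2_dvd {f a : k⟦X⟧} {β : ℕ} (hf : order f = β) :
    f ∣ a ↔ ∀ i < β, coeff i a = 0 := by
  have h0 : f ≠ 0 := fun h => by simp [h] at hf
  have h1 : X ^ β * divXPowOrder f = f := by
    have := X_pow_order_mul_divXPowOrder (f := f)
    rwa [hf, ENat.toNat_natCast] at this
  rw [← X_pow_dvd_iff, ← h1]
  exact (isUnit_divided_by_X_pow_order h0).mul_right_dvd

theorem Sfl2_lin {x : k⟦X⟧} (hx : σ x = x) (j : ℕ) (b : k⟦X⟧) :
    (dl σ ^ j) (x * b) = x * (dl σ ^ j) b := by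
  induction j with
  | zero => simp
  | succ j ih =>
    rw [pow_succ', Module.End.mul_apply, Module.End.mul_apply, ih]
    simp [dl, hx, mul_sub]

theorem Sfl2_pow (j : ℕ) : (σ ^ j).toLinearMap = σ.toLinearMap ^ j := by
  induction j with
  | zero => rfl
  | succ j ih => rw [pow_succ, pow_succ, ← ih]; rfl

theorem Sfl2_geom {y : k⟦X⟧} (hy : σ y = y) (a i : ℕ) :
    ((∑ j ∈ range a, σ.toLinearMap ^ j) ^ i) y = (a : k) ^ i • y := by
  have h1 : ∀ j, (σ.toLinearMap ^ j) y = y := by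
    intro j
    induction j with
    | zero => rfl
    | succ j ih => rw [pow_succ, Module.End.mul_apply, AlgHom.toLinearMap_apply, hy, ih]
  induction i with
  | zero => simp
  | succ i ih =>
    rw [pow_succ', Module.End.mul_apply, ih, map_smul, LinearMap.sum_apply]
    simp only [h1, sum_const, card_range]
    rw [pow_succ, mul_smul, Nat.cast_smul_eq_nsmul]

theorem Sfl2_tau (S : Sp p n m α ζ σ) {i : ℕ} (hi : i < p ^ n) {z : k⟦X⟧}
    (hz : σ ((dl σ ^ i) z) = (dl σ ^ i) z) :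
    (α : k) ^ i • (dl σ ^ i) (tau ζ z) = tau ζ ((dl σ ^ i) z) := by
  obtain ⟨a, ha⟩ : ∃ a, α * a ≡ 1 [MOD p ^ n] :=
    ⟨α ^ (m - 1), by rw [← pow_succ', Nat.sub_add_cancel S.mpos]; exact S.apow⟩
  have h1 : tau ζ * σ ^ a = σ * tau ζ := by
    have h := rel_pow S.rel a 1
    rw [pow_one, pow_one] at h
    rw [h]
    congr 1
    conv_rhs => rw [← pow_one σ]
    rw [← pow_mod_orderOf, ← pow_mod_orderOf σ 1, S.ord, ha]
  have h2 : SemiconjBy (tau ζ).toLinearMap (σ.toLinearMap ^ a - 1) (dl σ) := by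
    rw [SemiconjBy, dl, mul_sub, sub_mul, mul_one, one_mul, ← Sfl2_pow]
    congr 1
    exact congrArg AlgHom.toLinearMap h1
  have h3 : Commute (∑ j ∈ range a, σ.toLinearMap ^ j) (dl σ) :=
    Commute.sum_left _ _ _ fun j _ =>
      ((Commute.refl _).sub_right (Commute.one_right _)).pow_left j
  have h4 := LinearMap.congr_fun (h2.pow_right i).eq z
  rw [← geom_sum_mul, ← dl, h3.mul_pow] at h4
  simp only [Module.End.mul_apply, AlgHom.toLinearMap_apply] at h4
  rw [← h4, Sfl2_geom hz, map_smul, smul_smul, ← mul_pow]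
  rcases Nat.eq_zero_or_pos n with rfl | hn
  · have : i = 0 := by simpa using hi
    simp [this]
  · have h5 : ((α * a : ℕ) : k) = ((1 : ℕ) : k) :=
      (CharP.natCast_eq_natCast k p).2 (ha.of_dvd (dvd_pow_self p hn.ne'))
    rw [← Nat.cast_mul, h5]
    simp

/-- For `i < q` consider the `a` as in `SL.ex`.  Their order is `≥ β` and `< β + q` (else `a / x` lies in
`M` and contradicts `SL.dvd`); let `z i` have maximal order `v i`.  If `i < i'` and `v i = v i'`,
subtract a multiple of `z i` from `z i'` (killed by `dl^i'`).  From `τ σ = σ^α τ`: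
`τ dl^i = (σ^α - 1)^i τ`, `σ^α - 1 = trc σ α ∘ dl`, and on invariants `trc σ α` is `α`; so
`α^i dl^i (τ z) = ξ^(c (i+1)) x^(c (i+1))`.  If `γ = ζ^v α^i / ξ^c ≠ 1` an affine combination of `z` and
`(α^i / ξ^c) τ z` has larger order. -/
theorem sfl2 (S : Sp p n m α ζ σ) {c : ℕ → ℕ} (hc : SL p n σ c) {β : ℕ}
    (hβ : order (d⁄dX k (xb p n σ)) = β) :
    ∃ v : ℕ → ℕ, Set.InjOn v (range (p ^ n) : Finset ℕ) ∧ ∀ i < p ^ n, β ≤ v i ∧ v i < β + p ^ n ∧
      ζ ^ v i * (α : k) ^ i = (ζ ^ p ^ n) ^ c (i + 1) := by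
  classical
  set x := xb p n σ with hx
  have hq : 0 < p ^ n := pow_pos (Fact.out : p.Prime).pos n
  have hox : order x = ((p ^ n : ℕ) : ℕ∞) := S.order_xb
  have hx0 : x ≠ 0 := fun h => by
    rw [h, order_zero] at hox
    exact ENat.top_ne_natCast _ hox
  have hinv : σ x = x := nrm_inv S.pow X
  have htx : tau ζ x = C (ζ ^ p ^ n) * x := tau_nrm ⟨S.pow, S.rel⟩ (S.cop n)
  let A : ℕ → k⟦X⟧ → Prop := fun i a =>
    d⁄dX k x ∣ a ∧ (dl σ ^ (i + 1)) a = 0 ∧ (dl σ ^ i) a = x ^ c (i + 1)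
  have hA : ∀ i < p ^ n, ∀ a, A i a → ∃ w : ℕ, order a = w ∧ β ≤ w ∧ w < β + p ^ n := by
    rintro i hi a ⟨h1, h2, h3⟩
    have ha0 : a ≠ 0 := fun h => pow_ne_zero _ hx0 (by rw [← h3, h, map_zero])
    refine ⟨_, (coe_toNat_order ha0).symm, ?_, ?_⟩
    · by_contra h
      exact coeff_order ha0 ((Sfl2_dvd hβ).1 h1 _ (not_le.1 h))
    · by_contra h
      have h4 : order (x * d⁄dX k x) = ((β + p ^ n : ℕ) : ℕ∞) := by
        rw [order_mul, hox, hβ, add_comm, Nat.cast_add]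
      obtain ⟨b, rfl⟩ := (Sfl2_dvd h4).2 fun j hj =>
        coeff_of_lt_order_toNat j (lt_of_lt_of_le hj (not_lt.1 h))
      rw [mul_assoc, Sfl2_lin hinv] at h2 h3
      obtain ⟨t, ht⟩ := hc.dvd i hi _ (dvd_mul_right _ b) ((mul_eq_zero.1 h2).resolve_left hx0)
      rw [ht, ← hx, mul_left_comm] at h3
      have h5 : x * t = 1 := mul_left_cancel₀ (pow_ne_zero _ hx0) (by rw [h3, mul_one])
      have h6 := order_zero_of_unit (IsUnit.of_mul_eq_one _ h5)
      rw [hox] at h6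
      exact hq.ne' (by exact_mod_cast h6)
  let P : ℕ → ℕ → Prop := fun i w => ∃ a, A i a ∧ order a = w
  let v : ℕ → ℕ := fun i => Nat.findGreatest (P i) (β + p ^ n)
  have hv : ∀ i < p ^ n, P i (v i) := by
    intro i hi
    obtain ⟨a, ha⟩ := hc.ex i hi
    obtain ⟨w, h1, -, h2⟩ := hA i hi a ha
    exact Nat.findGreatest_spec h2.le ⟨a, ha, h1⟩
  have hb : ∀ i < p ^ n, β ≤ v i ∧ v i < β + p ^ n := by
    intro i hi
    obtain ⟨a, ha, h1⟩ := hv i hi
    obtain ⟨w, h2, h3⟩ := hA i hi a ha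
    have : v i = w := by exact_mod_cast h1.symm.trans h2
    rwa [this]
  have key : ∀ i < p ^ n, ∀ b, (dl σ ^ i) b = 0 → (∀ j < v i, coeff j b = 0) →
      coeff (v i) b = 0 := by
    intro i hi b h1 h2
    by_contra h3
    obtain ⟨a, ⟨h4, h5, h6⟩, h7⟩ := hv i hi
    have h8 : A i (a - (coeff (v i) a / coeff (v i) b) • b) := by
      refine ⟨dvd_sub h4 ((Sfl2_dvd hβ).2 fun j hj => ?_), ?_, ?_⟩
      · rw [map_smul, h2 j (lt_of_lt_of_le hj (hb i hi).1), smul_zero]
      · rw [map_sub, map_smul, h5, pow_succ', Module.End.mul_apply, h1]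
        simp
      · rw [map_sub, map_smul, h6, h1]
        simp
    obtain ⟨w, h9, -, h10⟩ := hA i hi _ h8
    have h11 : w ≤ v i := Nat.le_findGreatest h10.le ⟨_, h8, h9⟩
    refine (order_eq_nat.1 h9).1 ?_
    rw [map_sub, map_smul, smul_eq_mul]
    rcases h11.lt_or_eq with h | h
    · rw [(order_eq_nat.1 h7).2 w h, h2 w h, mul_zero, sub_zero]
    · rw [h, div_mul_cancel₀ _ h3, sub_self]
  have hne : ∀ i < p ^ n, ∀ i' < p ^ n, i < i' → v i ≠ v i' := by
    intro i hi i' hi' h h1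
    obtain ⟨a, ⟨-, h5, -⟩, h7⟩ := hv i hi
    rw [h1] at h7
    refine (order_eq_nat.1 h7).1 (key i' hi' a ?_ (order_eq_nat.1 h7).2)
    obtain ⟨e, rfl⟩ := Nat.exists_eq_add_of_lt h
    rw [show i + e + 1 = e + (i + 1) by ring, pow_add, Module.End.mul_apply, h5, map_zero]
  refine ⟨v, fun i hi i' hi' h => ?_, fun i hi => ⟨(hb i hi).1, (hb i hi).2, ?_⟩⟩
  · have h1 : i < p ^ n := by simpa using hi
    have h2 : i' < p ^ n := by simpa using hi'
    rcases lt_trichotomy i i' with h3 | h3 | h3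
    · exact absurd h (hne i h1 i' h2 h3)
    · exact h3
    · exact absurd h.symm (hne i' h2 i h1 h3)
  · obtain ⟨a, ⟨-, -, h6⟩, h7⟩ := hv i hi
    have h1 := Sfl2_tau S hi (z := a) (by rw [h6, map_pow, hinv])
    rw [h6, map_pow, htx, mul_pow, ← map_pow, ← smul_eq_C_mul] at h1
    have h2 := key i hi ((α : k) ^ i • tau ζ a - (ζ ^ p ^ n) ^ c (i + 1) • a)
      (by rw [map_sub, map_smul, map_smul, h1, h6, sub_self]) (fun j hj => by
        rw [map_sub, map_smul, map_smul, coeff_tau, (order_eq_nat.1 h7).2 j hj]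
        simp)
    rw [map_sub, map_smul, map_smul, coeff_tau, smul_eq_mul, smul_eq_mul, ← mul_assoc,
      ← sub_mul] at h2
    rw [mul_comm]
    exact sub_eq_zero.1 ((mul_eq_zero.1 h2).resolve_right (order_eq_nat.1 h7).1)

end Pool.Agent.MP_deef5c_ag.O

end

section

/-! Tangent vectors minus obstructions. -/

open PowerSeries IsLocalRing Finset Function
open scoped Polynomial

namespace Pool.Agent.MP_deef5c_ag.O

universe u

theorem Cnt2_int (c : ℕ → ℕ) (h0 : c 0 = 0) (N j : ℕ) (hj : j < c N) :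
    ∃ i < N, c i ≤ j ∧ j < c (i + 1) := by
  induction N with
  | zero => omega
  | succ N ih =>
    by_cases h : j < c N
    · obtain ⟨i, hi, h'⟩ := ih h
      exact ⟨i, by omega, h'⟩
    · exact ⟨N, by omega, by omega, hj⟩

theorem Cnt2_mono (c : ℕ → ℕ) (q : ℕ) (hmono : ∀ i < q, c i ≤ c (i + 1)) (d i : ℕ)
    (h : i + d ≤ q) : c i ≤ c (i + d) := by
  induction d with
  | zero => exact le_rfl
  | succ d ih => exact (ih (by omega)).trans (hmono (i + d) (by omega))

theorem Cnt2_enum (c : ℕ → ℕ) (h0 : c 0 = 0) (N a : ℕ) (ha : a < N + c N) :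
    ∃ i < N, a = c (i + 1) + i ∨ ∃ j, c i ≤ j ∧ j < c (i + 1) ∧ a = j + i := by
  induction N with
  | zero => omega
  | succ N ih =>
    by_cases h : a < N + c N
    · obtain ⟨i, hi, h'⟩ := ih h
      exact ⟨i, by omega, h'⟩
    · refine ⟨N, by omega, ?_⟩
      by_cases h' : a = c (N + 1) + N
      · exact Or.inl h'
      · exact Or.inr ⟨a - N, by omega, by omega, by omega⟩

open Classical in
theorem Cnt2_low {k : Type u} [Field k] {m : ℕ} (hm : 0 < m) {ξ η : k} (hξ : ξ ^ m = 1) (w : ℕ)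
    (hw : ξ ^ w = η) : w / m ≤ ((range w).filter fun j => ξ ^ j = η).card := by
  have h1 : ξ ^ (w % m) = η := by
    rw [← hw]
    conv_rhs => rw [← Nat.mod_add_div w m, pow_add, pow_mul, hξ, one_pow, mul_one]
  conv_lhs => rw [← card_range (w / m)]
  refine card_le_card_of_injOn (fun t => w % m + m * t) (fun t ht => ?_) fun t _ t' _ h => ?_
  · have ht' : t + 1 ≤ w / m := mem_range.1 (mem_coe.1 ht)
    have h2 : m * (t + 1) ≤ m * (w / m) := Nat.mul_le_mul_left m ht'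
    have h3 := Nat.mod_add_div w m
    have h4 := Nat.mod_lt w hm
    rw [Nat.mul_succ] at h2
    have h5 : w % m + m * t < w := by
      generalize m * (w / m) = A at h2 h3
      generalize m * t = B at h2 ⊢
      generalize w % m = R at h3 h4 ⊢
      omega
    refine mem_coe.2 (mem_filter.2 ⟨mem_range.2 h5, ?_⟩)
    rw [pow_add, pow_mul, hξ, one_pow, mul_one, h1]
  · exact Nat.eq_of_mul_eq_mul_left hm (Nat.add_left_cancel h)

open Classical in
theorem Cnt2_split {k : Type u} [Field k] (ξ α : k) (w N : ℕ) (hw : w ≤ N) :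
    (JJ w N ξ α).card + ((range w).filter fun j => ξ ^ j = α * ξ).card ≤
      ((range N).filter fun j => ξ ^ j = α * ξ).card := by
  rw [JJ, ← card_union_of_disjoint]
  · refine card_le_card fun j hj => ?_
    simp only [mem_union, mem_filter, mem_Ico, mem_range] at hj ⊢
    rcases hj with h | h
    · exact ⟨h.1.2, h.2⟩
    · exact ⟨by omega, h.2⟩
  · refine disjoint_left.2 fun j h1 h2 => ?_
    simp only [mem_filter, mem_Ico, mem_range] at h1 h2
    omega

open Classical in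
theorem Cnt2_one {k : Type u} [Field k] (ξ : k) (c : ℕ → ℕ) (h0 : c 0 = 0) (q : ℕ) :
    ((range (c q)).filter fun j => ξ ^ j = 1 * ξ).card ≤ (TT q c ξ 1).card := by
  refine card_le_card_of_surjOn Prod.snd fun j hj => ?_
  obtain ⟨h1, h2⟩ := mem_filter.1 (mem_coe.1 hj)
  obtain ⟨i, hi, h3, h4⟩ := Cnt2_int c h0 q j (mem_range.1 h1)
  refine ⟨(i, j), mem_coe.2 (mem_filter.2 ⟨mem_product.2 ⟨mem_range.2 hi, h1⟩, h3, h4, ?_⟩), rfl⟩
  rw [h2, one_pow, one_mul, mul_one]

open Classical in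
theorem Cnt2_two {k : Type u} [Field k] {ζ α : k} (hα : α * ζ = 1) (q : ℕ) (hq : ζ ^ q = ζ)
    (c v : ℕ → ℕ) (β : ℕ) (h0 : c 0 = 0) (hmono : ∀ i < q, c i ≤ c (i + 1)) (hβ : ζ ^ β = 1)
    (hinj : Set.InjOn v (range q : Finset ℕ))
    (hv : ∀ i < q, β ≤ v i ∧ v i < β + q ∧ ζ ^ v i * α ^ i = ζ ^ c (i + 1)) :
    ((range (c q)).filter fun j => ζ ^ j = α * ζ).card ≤ (TT q c ζ α).card := by
  have hz : ζ ≠ 0 := right_ne_zero_of_mul_eq_one hα
  have hp : ∀ i, α ^ i * ζ ^ i = 1 := fun i => by rw [← mul_pow, hα, one_pow]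
  have h1 : ((range (q + c q)).filter fun a => ζ ^ a = ζ).card =
      ((range q).filter fun a => ζ ^ a = ζ).card +
        ((range (c q)).filter fun j => ζ ^ j = α * ζ).card := by
    rw [← Nat.count_eq_card_filter_range, ← Nat.count_eq_card_filter_range,
      ← Nat.count_eq_card_filter_range, Nat.count_add]
    congr 1
    rw [Nat.count_eq_card_filter_range, Nat.count_eq_card_filter_range]
    congr 1
    refine filter_congr fun j _ => ?_
    rw [pow_add, hq, hα, mul_eq_left₀ hz]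
  have h2 : ((range q).filter fun i => ζ ^ (c (i + 1) + i) = ζ).card ≤
      ((range q).filter fun a => ζ ^ a = ζ).card := by
    refine card_le_card_of_injOn (fun i => v i - β) (fun i hi => ?_) fun i hi i' hi' h => ?_
    · obtain ⟨h3, h4⟩ := mem_filter.1 (mem_coe.1 hi)
      obtain ⟨h5, h6, h7⟩ := hv i (mem_range.1 h3)
      refine mem_coe.2 (mem_filter.2 ⟨mem_range.2 (by show v i - β < q; omega), ?_⟩)
      rw [pow_add, ← h7, mul_assoc, hp, mul_one, ← Nat.sub_add_cancel h5, pow_add, hβ,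
        mul_one] at h4
      exact h4
    · have h3 := (mem_filter.1 (mem_coe.1 hi)).1
      have h4 := (mem_filter.1 (mem_coe.1 hi')).1
      have h5 := (hv i (mem_range.1 h3)).1
      have h6 := (hv i' (mem_range.1 h4)).1
      have h7 : v i - β = v i' - β := h
      exact hinj (mem_coe.2 h3) (mem_coe.2 h4) (by omega)
  have h3 : ((range (q + c q)).filter fun a => ζ ^ a = ζ) ⊆
      ((range q).filter fun i => ζ ^ (c (i + 1) + i) = ζ).image (fun i => c (i + 1) + i) ∪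
        (TT q c ζ α).image fun t => t.2 + t.1 := by
    intro a ha
    obtain ⟨h4, h5⟩ := mem_filter.1 ha
    obtain ⟨i, hi, h | ⟨j, h6, h7, h⟩⟩ := Cnt2_enum c h0 q a (mem_range.1 h4)
    · exact mem_union_left _ (mem_image.2 ⟨i, mem_filter.2 ⟨mem_range.2 hi, h ▸ h5⟩, h.symm⟩)
    · have h8 := Cnt2_mono c q hmono (q - (i + 1)) (i + 1) (by omega)
      rw [show i + 1 + (q - (i + 1)) = q by omega] at h8
      refine mem_union_right _ (mem_image.2 ⟨(i, j), mem_filter.2 ⟨mem_product.2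
        ⟨mem_range.2 hi, mem_range.2 (by show j < c q; omega)⟩, h6, h7, ?_⟩, h.symm⟩)
      show ζ ^ j = ζ * α ^ i
      rw [h, pow_add] at h5
      calc ζ ^ j = ζ ^ j * (α ^ i * ζ ^ i) := by rw [hp, mul_one]
        _ = ζ ^ j * ζ ^ i * α ^ i := by ring
        _ = ζ * α ^ i := by rw [h5]
  have h4 := (card_le_card h3).trans ((card_union_le _ _).trans
    (Nat.add_le_add card_image_le card_image_le))
  omega

/-- Every `j < c q` lies in exactly one interval `[c i, c (i+1))`, call it `i(j)`.  Case `α = 1`: all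
conditions read `j ≡ 1 mod m`, and `[0, w)` contains at least `w / m` such `j`.  Case `α ξ = 1`,
`m > 1`: `α` is in the prime field, so `ξ^p = ξ`, `ζ = ξ`, `q ≡ 1`, `β ≡ 0`, `w ≡ 0 mod m`.  The numbers
`j + i(j)` (`j < c q`) and `g i = c (i+1) + i` (`i < q`) enumerate `[0, c q + q)` without repetition;
`t ∈ TT` iff `j + i(j) ≡ 1`; `g i ≡ v i`, and the `v i` enumerate `[β, β + q)`, which contains `q / m`
numbers `≡ 1`.  So `|TT| = |{a < c q + q : a ≡ 1}| - q / m = |{j < c q : m ∣ j}| = |JJ| + w / m`. -/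
theorem cnt2 (p n : ℕ) [Fact p.Prime] {k : Type u} [Field k] [CharP k p] {m α : ℕ} (hm : 0 < m)
    {ζ : k} (hζ : IsPrimitiveRoot ζ m) (hα : (α : k) = 1 ∨ (α : k) * ζ ^ p ^ n = 1)
    (c v : ℕ → ℕ) (β w : ℕ) (h0 : c 0 = 0) (hmono : ∀ i < p ^ n, c i ≤ c (i + 1))
    (hw : w ≤ c (p ^ n)) (hβ : ζ ^ (β + 1) = ζ ^ p ^ n)
    (hξ : (ζ ^ p ^ n) ^ w = (α : k) * ζ ^ p ^ n) (hinj : Set.InjOn v (range (p ^ n) : Finset ℕ))
    (hv : ∀ i < p ^ n, β ≤ v i ∧ v i < β + p ^ n ∧
      ζ ^ v i * (α : k) ^ i = (ζ ^ p ^ n) ^ c (i + 1)) :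
    (JJ w (c (p ^ n)) (ζ ^ p ^ n) (α : k)).card + w / m ≤
      (TT (p ^ n) c (ζ ^ p ^ n) (α : k)).card := by
  classical
  have hm1 : (ζ ^ p ^ n) ^ m = 1 := by rw [← pow_mul, mul_comm, pow_mul, hζ.pow_eq_one, one_pow]
  have h1 := Cnt2_low hm hm1 w hξ
  have h2 := Cnt2_split (ζ ^ p ^ n) (α : k) w _ hw
  refine le_trans (le_trans (Nat.add_le_add_left h1 _) h2) ?_
  rcases hα with hα | hα
  · rw [hα]
    exact Cnt2_one _ c h0 _
  · have ha : (α : k) ^ p ^ n = α := by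
      rw [← iterateFrobenius_def, map_natCast]
    have ha0 : (α : k) ≠ 0 := left_ne_zero_of_mul_eq_one hα
    have h3 : (ζ ^ p ^ n) ^ p ^ n = ζ ^ p ^ n := by
      refine mul_left_cancel₀ ha0 ?_
      rw [hα]
      conv_lhs => rw [← ha, ← mul_pow, hα, one_pow]
    have h4 : ζ ^ p ^ n = ζ := (iterateFrobenius k p n).injective h3
    rw [h4] at hα hβ ⊢
    simp only [h4] at hv
    have hz : ζ ≠ 0 := right_ne_zero_of_mul_eq_one hα
    rw [pow_succ, mul_eq_right₀ hz] at hβ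
    exact Cnt2_two hα _ h4 c v β h0 hmono hβ hinj hv

end Pool.Agent.MP_deef5c_ag.O

end

section

/-! Power series rings in several variables, as an existence statement. -/

open PowerSeries IsLocalRing Finset Function
open scoped Polynomial

namespace Pool.Agent.MP_deef5c_ag.O

universe u

theorem ExS_max {S : Type u} [CommRing S] [IsLocalRing S] :
    maximalIdeal S⟦X⟧ = (maximalIdeal S).map (C : S →+* S⟦X⟧) ⊔ Ideal.span {X} := by
  refine le_antisymm (fun f hf => ?_) (sup_le ?_ ?_)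
  · rw [mem_max_iff] at hf
    rw [eq_X_mul_shift_add_const f]
    exact add_mem (Ideal.mem_sup_right (Ideal.mul_mem_right _ _ (Ideal.subset_span rfl)))
      (Ideal.mem_sup_left (Ideal.mem_map_of_mem _ hf))
  · rw [Ideal.map_le_iff_le_comap]
    intro a ha
    rw [Ideal.mem_comap, mem_max_iff, constantCoeff_C]
    exact ha
  · rw [Ideal.span_singleton_le_iff_mem, mem_max_iff, constantCoeff_X]
    exact zero_mem _

/-- induction on `h`, replacing `S` by `S⟦X⟧`; use `CL.powerSeries`, `mem_max_iff` and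
`ringKrullDim_succ_le_ringKrullDim_powerseries`. -/
theorem exists_S (W : Type u) [CommRing W] [IsLocalRing W] [CL W] (h : ℕ) :
    ∃ (S : Type u) (_ : CommRing S) (_ : IsLocalRing S) (_ : CL S) (_ : Algebra W S)
      (r : S →ₐ[W] W) (x : Fin h → S), (∀ i, r (x i) = 0) ∧
      maximalIdeal S = (maximalIdeal W).map (algebraMap W S) ⊔ Ideal.span (Set.range x) ∧
      ringKrullDim W + h ≤ ringKrullDim S := by
  induction h with
  | zero =>
    refine ⟨W, inferInstance, inferInstance, inferInstance, inferInstance, AlgHom.id W W,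
      Fin.elim0, fun i => i.elim0, ?_, by simp⟩
    simp
  | succ h ih =>
    obtain ⟨S, _, _, _, _, r, x, h1, h2, h3⟩ := ih
    let c : S⟦X⟧ →ₐ[W] S :=
      { (constantCoeff : S⟦X⟧ →+* S) with
        commutes' := fun a => by simp [PowerSeries.algebraMap_apply] }
    refine ⟨S⟦X⟧, inferInstance, inferInstance, inferInstance, inferInstance, r.comp c,
      Fin.cons X fun i => C (x i), fun i => ?_, ?_, ?_⟩
    · refine Fin.cases ?_ (fun i => ?_) i
      · simp [c]
      · simpa [c] using h1 i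
    · have ha : algebraMap W S⟦X⟧ = (C : S →+* S⟦X⟧).comp (algebraMap W S) := by
        ext1 a
        simp [PowerSeries.algebraMap_apply]
      rw [ExS_max, h2, Ideal.map_sup, Ideal.map_map, ha, Fin.range_cons, Ideal.span_insert,
        Ideal.map_span, ← Set.range_comp, sup_assoc, sup_comm (Ideal.span {X})]
      rfl
    · refine le_trans ?_ ringKrullDim_succ_le_ringKrullDim_powerseries
      rw [Nat.cast_succ, ← add_assoc]
      gcongr

end Pool.Agent.MP_deef5c_ag.O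

end

section

/-! Lifting the two generators to characteristic zero. -/

open PowerSeries IsLocalRing Finset Function
open scoped Polynomial

namespace Pool.Agent.MP_deef5c_ag.O

universe u

variable {k : Type u} [Field k] {p n m α : ℕ} [Fact p.Prime] [CharP k p] {ζ : k} {σ : En k}

namespace Main

variable (p) in
/-- coefficientwise Teichmuller lift -/
noncomputable def tl {S : Type u} [CommRing S] [Algebra (WittVector p k) S] (g : k⟦X⟧) : S⟦X⟧ :=
  PowerSeries.mk fun i => algebraMap (WittVector p k) S (WittVector.teichmuller p (coeff i g))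

omit [CharP k p] in
theorem map_tl {S A : Type u} [CommRing S] [Algebra (WittVector p k) S] [CommRing A] [Algebra k A]
    (ψ : S →+* A) (hψ : ∀ w : WittVector p k,
      algebraMap k A (w.coeff 0) = ψ (algebraMap (WittVector p k) S w)) (g : k⟦X⟧) :
    PowerSeries.map ψ (tl p g) = cst A g := by
  ext i
  simp [tl, ← hψ]

omit [CharP k p] in
theorem map_fam {S A : Type u} [CommRing S] [Algebra (WittVector p k) S] [CommRing A] [Algebra k A]
    (ψ : S →+* A) (hψ : ∀ w : WittVector p k,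
      algebraMap k A (w.coeff 0) = ψ (algebraMap (WittVector p k) S w))
    (T : Finset (ℕ × ℕ)) (e : ℕ × ℕ → k⟦X⟧) (a : ℕ × ℕ → S) :
    PowerSeries.map ψ (tl p (σ X) + ∑ t ∈ T.filter (fun t => t.1 ≠ 0), C (a t) * tl p (e t)) =
      sfam σ T e (fun t => ψ (a t)) := by
  simp only [sfam, map_add, map_sum, map_mul, map_tl ψ hψ, map_C]

theorem map_max {S A : Type u} [CommRing S] [IsLocalRing S] [CommRing A] [IsLocalRing A]
    (ψ : S →+* A) (hψ : Surjective ψ) : maximalIdeal A = (maximalIdeal S).map ψ := by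
  have := IsLocalHom.of_surjective ψ hψ
  rw [← maximalIdeal_comap ψ, Ideal.map_comap_of_surjective ψ hψ]

/-- quotients killed by `p` are `k`-algebras -/
theorem kquot [PerfectRing k p] {S : Type u} [CommRing S] [IsLocalRing S]
    [Algebra (WittVector p k) S] (π : S →+* k)
    (hπ : ∀ w, π (algebraMap (WittVector p k) S w) = w.coeff 0) (J : Ideal S) (hJ : J ≠ ⊤)
    (hp : (p : S) ∈ J) :
    ∃ (_ : Algebra k (S ⧸ J)) (π' : (S ⧸ J) →ₐ[k] k), (∀ a, π' (Ideal.Quotient.mk J a) = π a) ∧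
      ∀ w : WittVector p k, algebraMap k (S ⧸ J) (w.coeff 0) =
        Ideal.Quotient.mk J (algebraMap (WittVector p k) S w) := by
  have hs : Surjective π := fun c => ⟨_, (hπ (WittVector.teichmuller p c)).trans rfl⟩
  obtain ⟨ι, hι⟩ := exists_kalg p ((Ideal.Quotient.mk J).comp (algebraMap (WittVector p k) S))
    (by rw [← map_natCast (Ideal.Quotient.mk J)]; exact Ideal.Quotient.eq_zero_iff_mem.2 hp)
  obtain ⟨π', -, hπ'⟩ := exists_pi_quot π hs J hJ
  let := ι.toAlgebra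
  refine ⟨inferInstance, { π' with commutes' := fun c => ?_ }, hπ', hι⟩
  have := hι (WittVector.teichmuller p c)
  rw [WittVector.teichmuller_coeff_zero] at this
  change π' (ι c) = c
  rw [this, RingHom.comp_apply, hπ', hπ, WittVector.teichmuller_coeff_zero]

end Main

open Main in
/-- a domain of characteristic zero over which the relations have a solution -/
theorem exists_dom [IsAlgClosed k] (S : Sp p n m α ζ σ) (hn : 0 < n) :
    ∃ (R : Type u) (_ : CommRing R) (_ : IsDomain R) (_ : IsLocalRing R) (_ : CL R)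
      (_ : Algebra (WittVector p k) R) (π : R →+* k) (z : R) (s : R⟦X⟧),
      (∀ w, π (algebraMap (WittVector p k) R w) = w.coeff 0) ∧ (p : R) ≠ 0 ∧ z ^ m = 1 ∧ π z = ζ ∧
      PowerSeries.map π s = σ X ∧ Rel (p ^ n) α z (sub s) := by
  classical
  obtain ⟨w, hw⟩ := exists_isW S
  obtain ⟨c, hc, hwc⟩ := sfl1 S hn hw
  obtain ⟨β, l, -, hβ, -, -, hζβ, hξw⟩ := S.isW_spec hn hw
  obtain ⟨v, hv1, hv2⟩ := sfl2 S hc hβ
  have hcnt := cnt2 p n S.mpos S.prim S.hyp c v β w hc.zero hc.mono hwc hζβ hξw hv1 hv2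
  have hd : d⁄dX k (xb p n σ) ≠ 0 := fun h => by simp [h] at hβ
  set T := TT (p ^ n) c (ζ ^ p ^ n) (α : k) with hT
  have hTm : ∀ t ∈ T, t.1 < p ^ n ∧ c t.1 ≤ t.2 ∧
      (ζ ^ p ^ n) ^ t.2 = ζ ^ p ^ n * (α : k) ^ t.1 := fun t ht => by
    simp only [hT, TT, mem_filter, mem_product, mem_range] at ht
    exact ⟨ht.1.1, ht.2.1, ht.2.2.2⟩
  have he0 : ∀ t : ℕ × ℕ, ∃ e, t ∈ T → t.1 ≠ 0 → TV p n α ζ σ (t.1 - 1) t.2 e := fun t => by
    by_cases h : t ∈ T ∧ t.1 ≠ 0
    · obtain ⟨h1, h2, h3⟩ := hTm t h.1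
      have e1 : t.1 - 1 + 1 = t.1 := by omega
      obtain ⟨e, he⟩ := tanv S hc (t.1 - 1) t.2 (by omega) (by rwa [e1]) (by rwa [e1])
      exact ⟨e, fun _ _ => he⟩
    · exact ⟨0, fun h1 h2 => absurd ⟨h1, h2⟩ h⟩
  choose e he using he0
  obtain ⟨hW, hWm, hWd⟩ := witt_cl p k
  obtain ⟨S0, _, _, _, _, r, x, hr, hm, hdim⟩ := exists_S (WittVector p k) T.card
  let π : S0 →+* k := (WittVector.constantCoeff : WittVector p k →+* k).comp (r : S0 →+* _)
  have hπ : ∀ w, π (algebraMap (WittVector p k) S0 w) = w.coeff 0 := fun w => by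
    simp [π]
  have hs : Surjective π := fun c => ⟨_, (hπ (WittVector.teichmuller p c)).trans rfl⟩
  let a : ℕ × ℕ → S0 := fun t => if h : t ∈ T then x (T.equivFin ⟨t, h⟩) else 0
  have ha : ∀ t, π (a t) = 0 := fun t => by
    by_cases h : t ∈ T <;> simp [a, h, π, hr]
  have hax : a '' (T : Set (ℕ × ℕ)) = Set.range x := by
    ext y
    constructor
    · rintro ⟨t, ht, rfl⟩
      exact ⟨T.equivFin ⟨t, ht⟩, by simp [a, mem_coe.1 ht]⟩
    · rintro ⟨i, rfl⟩
      exact ⟨(T.equivFin.symm i).1, (T.equivFin.symm i).2, by simp [a]⟩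
  let z : S0 := algebraMap (WittVector p k) S0 (WittVector.teichmuller p ζ)
  have hz : z ^ m = 1 := by
    rw [← map_pow, ← map_pow, S.prim.pow_eq_one, map_one, map_one]
  have hπz : π z = ζ := hπ _
  let s₂ : S0⟦X⟧ := tl p (σ X) + ∑ t ∈ T.filter (fun t => t.1 ≠ 0), C (a t) * tl p (e t)
  have hs₂ : PowerSeries.map π s₂ = σ X := by
    rw [map_fam π (fun w => (hπ w).symm)]
    ext i
    simp [sfam, ha]
  have hσ0 : constantCoeff (σ X) = 0 := by
    have := order_one (pow_pos (Fact.out : p.Prime).pos n) S.pow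
    exact coeff_zero_eq_constantCoeff_apply (σ X) ▸ coeff_of_lt_order 0 (by rw [this]; norm_num)
  have hcm : ∀ s : S0⟦X⟧, PowerSeries.map π s = σ X → constantCoeff s ∈ maximalIdeal S0 :=
    fun s h => (pi_eq_zero_iff π hs _).1 (by
      rw [← hσ0, ← h, ← coeff_zero_eq_constantCoeff_apply, ← coeff_zero_eq_constantCoeff_apply,
        coeff_map])
  have hpm : (p : S0) ∈ maximalIdeal S0 := (pi_eq_zero_iff π hs _).1 (by simp)
  let J₂ : Ideal S0 := maximalIdeal S0 * maximalIdeal S0 ⊔ Ideal.span {(p : S0)}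
  have hJ₂m : J₂ ≤ maximalIdeal S0 :=
    sup_le Ideal.mul_le_left ((Ideal.span_singleton_le_iff_mem _).2 hpm)
  have hJ₂ : J₂ ≠ ⊤ := fun h => (maximalIdeal.isMaximal S0).ne_top (top_le_iff.1 (h ▸ hJ₂m))
  have hg : Good (p ^ n) α z J₂ s₂ := by
    have := local_quot J₂ hJ₂
    have := CL.of_surj (Ideal.Quotient.mk J₂) Ideal.Quotient.mk_surjective
    obtain ⟨_, π', h1, h2⟩ := kquot π hπ J₂ hJ₂
      (Ideal.mem_sup_right (Ideal.mem_span_singleton_self _))
    have h3 := (good_iff (Ideal.Quotient.mk J₂) Ideal.Quotient.mk_surjective (p ^ n) α z s₂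
      (hcm _ hs₂)).2 (by
        rw [map_fam _ h2, ← h2, WittVector.teichmuller_coeff_zero]
        refine tan_good S hd π' ?_ T e _ (fun t _ => by rw [h1, ha])
          fun t ht h0 => ⟨(hTm t ht).1, he t ht h0⟩
        rw [map_max _ (Ideal.Quotient.mk_surjective (I := J₂)), ← Ideal.map_mul,
          Ideal.map_eq_bot_iff_le_ker, Ideal.mk_ker]
        exact le_sup_left)
    rwa [Ideal.mk_ker] at h3
  obtain ⟨T', s, hcard, hle, hss, hgs⟩ := low S hn hw hc π hs hz hπz J₂ hJ₂ s₂ hs₂ hg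
  have hJ : Ideal.span (T' : Set S0) ≠ ⊤ := fun h => hJ₂ (top_le_iff.1 (h ▸ hle))
  obtain ⟨Q, hQ, hJQ, hdQ⟩ := exists_prime_dim _ hJ
  have hd1 := ringKrullDim_le_ringKrullDim_quotient_add_card T' (fun y hy => by
    rw [ringJacobson_eq_maximalIdeal]
    exact hJ₂m (hle (Ideal.subset_span hy)))
  have hs1 : PowerSeries.map π s = σ X := by
    rw [← hs₂, ← sub_eq_zero, ← map_sub]
    ext i
    rw [coeff_map, map_zero]
    exact (pi_eq_zero_iff π hs _).2 (hJ₂m (hss i))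
  have := local_quot Q hQ.ne_top
  have := CL.of_surj (Ideal.Quotient.mk Q) Ideal.Quotient.mk_surjective
  have hrel : Rel (p ^ n) α (Ideal.Quotient.mk Q z)
      (sub (PowerSeries.map (Ideal.Quotient.mk Q) s)) :=
    (good_iff (Ideal.Quotient.mk Q) Ideal.Quotient.mk_surjective (p ^ n) α z s (hcm _ hs1)).1 (by
      rw [Ideal.mk_ker]
      exact ⟨fun i => hJQ (hgs.1 i), fun i => hJQ (hgs.2 i)⟩)
  have hp : (p : S0) ∉ Q := fun hp => by
    obtain ⟨_, π', h1, h2⟩ := kquot π hπ Q hQ.ne_top hp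
    have hp0 : Ideal.Quotient.mk Q (p : S0) = 0 := Ideal.Quotient.eq_zero_iff_mem.2 hp
    have h4 := eff S hw hc e he π' (fun t => Ideal.Quotient.mk Q (a t)) (by
        rw [map_max _ (Ideal.Quotient.mk_surjective (I := Q)), hm, hWm, Ideal.map_sup,
          Ideal.map_span, Ideal.map_span, Ideal.map_span, ← hax, Set.image_singleton,
          Set.image_singleton, map_natCast, hp0, Set.image_image]
        simp [hT])
      (PowerSeries.map (Ideal.Quotient.mk Q) s) (fun i => by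
        rw [← map_fam _ h2, ← map_sub, coeff_map,
          map_max _ (Ideal.Quotient.mk_surjective (I := Q)), ← Ideal.map_mul]
        obtain ⟨y, hy, y', hy', e1⟩ := Submodule.mem_sup.1 (hss i)
        obtain ⟨b, rfl⟩ := Ideal.mem_span_singleton'.1 hy'
        rw [← e1, map_add, map_mul, hp0, mul_zero, add_zero]
        exact Ideal.mem_map_of_mem _ hy)
      (by rwa [← WittVector.teichmuller_coeff_zero p ζ, h2])
    rw [hWd] at hdim
    have h5 : (1 : WithBot ℕ∞) + (T.card : ℕ) ≤ ((w / m : ℕ) : WithBot ℕ∞) + (T'.card : ℕ) :=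
      hdim.trans (hd1.trans (add_le_add_left (hdQ.trans h4) _))
    have h6 : 1 + T.card ≤ w / m + T'.card := by exact_mod_cast h5
    omega
  obtain ⟨π', -, h1⟩ := exists_pi_quot π hs Q hQ.ne_top
  refine ⟨S0 ⧸ Q, _, inferInstance, inferInstance, inferInstance, inferInstance, π',
    Ideal.Quotient.mk Q z, PowerSeries.map (Ideal.Quotient.mk Q) s, fun w => ?_, fun h => hp ?_,
    by rw [← map_pow, hz, map_one], by rw [h1, hπz], ?_, hrel⟩
  · rw [← hπ, ← h1]; rfl
  · rwa [← Ideal.Quotient.eq_zero_iff_mem, map_natCast]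
  · rw [← hs1]
    ext i
    simp [h1]

theorem main_sp [IsAlgClosed k] (S : Sp p n m α ζ σ) :
    ∃ (O : Type u) (_ : CommRing O) (_ : IsDomain O) (_ : IsDiscreteValuationRing O)
      (_ : IsAdicComplete (maximalIdeal O) O) (_ : CharZero O) (π : O →+* k) (z : O) (σO : En O),
      Surjective π ∧ z ^ m = 1 ∧ π z = ζ ∧ PowerSeries.map π (σO X) = σ X ∧ Rel (p ^ n) α z σO := by
  have hσ0 : constantCoeff (σ X) = 0 := by
    have := order_one (pow_pos (Fact.out : p.Prime).pos n) S.pow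
    exact coeff_zero_eq_constantCoeff_apply (σ X) ▸ coeff_of_lt_order 0 (by rw [this]; norm_num)
  obtain ⟨R, _, _, _, _, _, π, z, σR, hπ, hp, hz, hπz, hs, hr⟩ :
      ∃ (R : Type u) (_ : CommRing R) (_ : IsDomain R) (_ : IsLocalRing R) (_ : CL R)
      (_ : Algebra (WittVector p k) R) (π : R →+* k) (z : R) (σR : En R),
      (∀ w, π (algebraMap (WittVector p k) R w) = w.coeff 0) ∧ (p : R) ≠ 0 ∧ z ^ m = 1 ∧ π z = ζ ∧
      PowerSeries.map π (σR X) = σ X ∧ Rel (p ^ n) α z σR := by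
    rcases Nat.eq_zero_or_pos n with rfl | hn
    · have h1 : σ = 1 := by simpa using S.pow
      refine ⟨WittVector p k, _, inferInstance, inferInstance, (witt_cl p k).1, inferInstance,
        WittVector.constantCoeff, WittVector.teichmuller p ζ, 1, fun w => rfl,
        WittVector.p_nonzero p k, by rw [← map_pow, S.prim.pow_eq_one, map_one], rfl,
        by simp [h1], by simp [Rel]⟩
    · obtain ⟨R, _, _, _, _, _, π, z, s, hπ, hp, hz, hπz, hs, hr⟩ := exists_dom S hn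
      have hsj : Surjective π := fun c => ⟨_, (hπ (WittVector.teichmuller p c)).trans rfl⟩
      refine ⟨R, _, ‹_›, ‹_›, ‹_›, ‹_›, π, z, sub s, hπ, hp, hz, hπz, ?_, hr⟩
      rw [sub_X ((pi_eq_zero_iff π hsj _).1 (by
        rw [← hσ0, ← hs, ← coeff_zero_eq_constantCoeff_apply, ← coeff_zero_eq_constantCoeff_apply,
          coeff_map])), hs]
  have hsj : Surjective π := fun c => ⟨_, (hπ (WittVector.teichmuller p c)).trans rfl⟩
  obtain ⟨Q, hQ, hpQ, hfin⟩ := exists_fin_quot p k R π hπ hp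
  have := local_quot Q hQ.ne_top
  obtain ⟨π', -, h1⟩ := exists_pi_quot π hsj Q hQ.ne_top
  obtain ⟨O, _, _, _, _, _, πO, φ, hO, h2⟩ := exists_dvr p k (R ⧸ Q) π'
    (fun w => by rw [← hπ, ← h1]; rfl)
    (fun h => hpQ (by rwa [← Ideal.Quotient.eq_zero_iff_mem, map_natCast]))
  have : CL O := ⟨inferInstance, inferInstance⟩
  let ψ : R →+* O := φ.comp (Ideal.Quotient.mk Q)
  have hψ : ∀ a, πO (ψ a) = π a := fun a => by rw [← h1, ← h2]; rfl
  have h3 : PowerSeries.map πO (PowerSeries.map ψ (σR X)) = σ X := by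
    rw [← hs]
    ext i
    simp [hψ]
  have hm : constantCoeff (PowerSeries.map ψ (σR X)) ∈ maximalIdeal O :=
    (pi_eq_zero_iff πO hO _).1 (by
      rw [← hσ0, ← h3, ← coeff_zero_eq_constantCoeff_apply, ← coeff_zero_eq_constantCoeff_apply,
        coeff_map πO])
  exact ⟨O, _, ‹_›, ‹_›, ‹_›, ‹_›, πO, ψ z, _, hO, by rw [← map_pow, hz, map_one],
    by rw [hψ, hπz], by rw [sub_X hm, h3], hr.map ψ hm⟩

end Pool.Agent.MP_deef5c_ag.O

end

section

/-! Vanishing of the obstruction implies lifting to characteristic zero. -/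

open PowerSeries IsLocalRing Finset Function
open scoped Polynomial

namespace Pool.Agent.MP_deef5c_ag.O

universe u

variable {k : Type u} [Field k] (p : ℕ) [Fact p.Prime] [CharP k p] {G : Type*} [Group G] [Finite G]

theorem ThreeOne_one (n : ℕ) {σ : En k} (h : σ ^ p ^ n = 1) : coeff 1 (σ X) = 1 := by
  rcases eq_or_ne σ 1 with rfl | h1
  · simp
  obtain ⟨l, hl, ho⟩ := exists_jump p n h h1
  have := coeff_of_lt_order (φ := σ X - X) 1 (by rw [ho]; exact_mod_cast Nat.succ_lt_succ hl)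
  rwa [map_sub, coeff_one_X, sub_eq_zero] at this

theorem ThreeOne_dvd {a b : ℕ} (ha : 0 < a) (h : (a : ℕ∞) ∣ (b : ℕ∞)) : a ∣ b := by
  obtain ⟨d, hd⟩ := h
  induction d with
  | top => simp [ENat.mul_top (Nat.cast_ne_zero.2 ha.ne')] at hd
  | coe d => exact ⟨d, by exact_mod_cast hd⟩

/-- Take `σ₀, τ₀, α` from `grp`, `Φ, Ψ` from `lin`, `σ = Ψ * ρ σ₀ * Φ`; then `Sp p n m α ζ σ` holds: in the
non-cyclic case `n > 0` may be assumed (else `G` is generated by `τ₀`), `exists_jump`, `lead` give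
`ζ^(l+1) = α ζ`, so `m ∣ l + 1` gives `α ζ = 1`, and `ζ^(p^n) = ζ` since `α^p = α`.  `main_sp` gives
`σO`, `z`; lift `Φ X` to `t ∈ O⟦X⟧`, `ΦO = sub t` is invertible (`exists_inv`), and
`ΦO σO ΦO⁻¹`, `ΦO (tau z) ΦO⁻¹` are units of `En O` (`AlgEquiv.algHomUnitsEquiv`); use `hom_of_rel`
(`σ₀^i τ₀^j = 1` gives `ζ^j = 1` by `coeff_one_mul`) and `map_en`. -/
theorem three_one [IsAlgClosed k] (hG : ∀ P : Sylow p G, IsCyclic P)
    (ρ : G →* (k⟦X⟧ ≃ₐ[k] k⟦X⟧)) (hρ : Injective ρ)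
    (h : IsCyclic G ∨ ∀ σ : G, orderOf σ = ordProj[p] (Nat.card G) →
      ((ordCompl[p] (Nat.card G) : ℕ) : ℕ∞) ∣ order (ρ σ X - X)) :
    ∃ (O : Type u) (_ : CommRing O) (_ : IsDomain O) (_ : IsDiscreteValuationRing O)
      (_ : IsAdicComplete (maximalIdeal O) O) (_ : CharZero O) (π : O →+* k),
      Surjective π ∧ LocLifts ρ π := by
  obtain ⟨⟨σ₀, hσ₀⟩, H⟩ := grp p hG ρ hρ
  obtain ⟨τ₀, α, hτm, hrel, hprim, hgen, hcyc⟩ := H σ₀ hσ₀
  have hm : 0 < ordCompl[p] (Nat.card G) := Nat.ordCompl_pos p Nat.card_pos.ne'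
  replace h := h.imp_right fun h => h σ₀ hσ₀
  generalize ordCompl[p] (Nat.card G) = m at *
  generalize (Nat.card G).factorization p = n at *
  have hq : 0 < p ^ n := pow_pos (Fact.out : p.Prime).pos n
  have hσq : σ₀ ^ p ^ n = 1 := hσ₀ ▸ pow_orderOf_eq_one σ₀
  let r : G →* En k := (Units.coeHom _).comp
    ((AlgEquiv.algHomUnitsEquiv k k⟦X⟧).symm.toMonoidHom.comp ρ)
  have hr : ∀ g f, r g f = ρ g f := fun _ _ => rfl
  obtain ⟨Φ, Ψ, h1, h2, hΦ, hlin⟩ := lin (τ := r τ₀) hm (by rw [← map_pow, hτm, map_one]) hprim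
  rw [hr] at hlin
  generalize coeff 1 (ρ τ₀ X) = ζ at *
  have h1' : ∀ f, Φ (Ψ f) = f := fun f => DFunLike.congr_fun h1 f
  have h2' : ∀ f, Ψ (Φ f) = f := fun f => DFunLike.congr_fun h2 f
  let c : G →* En k :=
    { toFun := fun g => Ψ * r g * Φ
      map_one' := by rw [map_one, mul_one, h2]
      map_mul' := fun a b => by
        rw [map_mul]
        exact AlgHom.ext fun f => by simp only [AlgHom.mul_apply, h1'] }
  have hc : ∀ g f, c g f = Ψ (ρ g (Φ f)) := fun _ _ => rfl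
  have hci : Injective c := fun a b e => hρ (AlgEquiv.ext fun f => by
    have := congrArg Φ (DFunLike.congr_fun e (Ψ f))
    simpa only [hc, h1'] using this)
  have hcτ : c τ₀ = tau ζ := by
    change Ψ * r τ₀ * Φ = _
    rw [mul_assoc, hlin, ← mul_assoc, h2, one_mul]
  have hcq : ∀ i, (c σ₀ ^ i) ^ p ^ n = 1 := fun i => by
    rw [← pow_mul, mul_comm, pow_mul, ← map_pow, hσq, map_one, one_pow]
  have hc1 : c σ₀ ^ p ^ n = 1 := by simpa using hcq 1
  have hcrel : tau ζ * c σ₀ = c σ₀ ^ α * tau ζ := by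
    rw [← hcτ, ← map_pow, ← map_mul, ← map_mul, hrel]
  have hτ0 : ∀ a : k, constantCoeff (tau a X) = 0 := fun a => by simp [tau_X]
  have hτ1 : ∀ a : k, coeff 1 (tau a X) = a := fun a => by simp [tau_X]
  have S : Sp p n m α ζ (c σ₀) := by
    refine ⟨(orderOf_injective c hci σ₀).trans hσ₀, hm, hprim, hcrel, ?_⟩
    by_cases hcy : IsCyclic G
    · exact Or.inl (by rw [hcyc hcy, Nat.cast_one])
    have hne : c σ₀ ≠ 1 := fun e => hcy ⟨τ₀, fun g => by
      obtain ⟨i, j, rfl⟩ := hgen g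
      exact ⟨j, by simp [(map_eq_one_iff c hci).1 e]⟩⟩
    obtain ⟨l, hl, ho⟩ := exists_jump p n hc1 hne
    have h3 := lead hl ho (hτ0 ζ) hcrel
    have h4 := h.resolve_left hcy
    rw [← hr, ← order_conj h1 h2 hΦ (Lau_cc one_pos
      (order_one hq (by rw [← map_pow, hσq, map_one])))] at h4
    rw [hτ1, (hprim.pow_eq_one_iff_dvd _).2 (ThreeOne_dvd hm (ho ▸ h4))] at h3
    have h5 : (α : k) ^ p ^ n = α := map_natCast (iterateFrobenius k p n) α
    exact Or.inr (by rw [← h5, ← mul_pow, ← h3, one_pow])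
  obtain ⟨O, _, _, _, _, _, π, z, σO, hπ, hz, hπz, hσO, hR⟩ := main_sp S
  have : CL O := ⟨inferInstance, inferInstance⟩
  have hΦ0 := Lau_cc one_pos hΦ
  obtain ⟨t, ht⟩ := PowerSeries.map_surjective π hπ (Φ X)
  have ht' : PowerSeries.map π (sub t X) = Φ X := by
    rw [sub_X ((pi_eq_zero_iff π hπ _).1 (by
      rw [← hΦ0, ← ht, ← coeff_zero_eq_constantCoeff_apply, ← coeff_zero_eq_constantCoeff_apply,
        coeff_map])), ht]
  obtain ⟨Ψ', g1, g2⟩ := exists_inv π hπ (sub t) (by rw [ht', hΦ])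
  have g3 := map_en π (sub t) Φ ht' (by simp [hΦ0])
  obtain ⟨φ, hφσ, hφτ⟩ := hom_of_rel σ₀ τ₀ (Units.ofPowEqOne σO _ hR.1 hq.ne')
    (Units.ofPowEqOne (tau z) m (by rw [tau_pow, hz, tau_one]) hm.ne') (p ^ n) m α hq hm hσq hτm
    (Units.pow_ofPowEqOne _ _) (Units.pow_ofPowEqOne _ _) hrel (Units.ext hR.2) hgen fun i j e => by
      have e1 := congrArg (fun g => coeff 1 (c g X)) e
      simp only [map_mul, map_pow, map_one, hcτ, tau_pow] at e1
      rw [coeff_one_mul (Lau_cc one_pos (order_one hq (hcq i))) (hτ0 _), ThreeOne_one p n (hcq i),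
        hτ1, one_mul, AlgHom.one_apply, coeff_one_X, hprim.pow_eq_one_iff_dvd] at e1
      obtain ⟨j', rfl⟩ := e1
      rw [pow_mul, hτm, one_pow, mul_one] at e
      exact ⟨hσ₀ ▸ orderOf_dvd_of_pow_eq_one e, dvd_mul_right _ _⟩
  have hφ : ∀ g f, PowerSeries.map π ((φ g : En O) f) = c g (PowerSeries.map π f) := fun g f => by
    obtain ⟨i, j, rfl⟩ := hgen g
    simp only [map_mul, map_pow, hφσ, hφτ, hcτ, Units.val_mul, Units.val_pow_eq_pow_val,
      Units.val_ofPowEqOne, AlgHom.mul_apply, tau_pow]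
    rw [map_en_pow π σO (c σ₀) hσO (by simp [Lau_cc one_pos (order_one hq hc1)]), map_tau, map_pow,
      hπz]
  refine ⟨O, _, ‹_›, ‹_›, ‹_›, ‹_›, π, hπ, (AlgEquiv.algHomUnitsEquiv O O⟦X⟧).toMonoidHom.comp
    ((MulAut.conj (⟨sub t, Ψ', g1, g2⟩ : (En O)ˣ)).toMonoidHom.comp φ), fun g f => ?_⟩
  change PowerSeries.map π (sub t ((φ g : En O) (Ψ' f))) = _
  rw [g3, hφ, hc, h1', ← g3]
  exact congrArg (fun x => ρ g (PowerSeries.map π x)) (DFunLike.congr_fun g1 f)

end Pool.Agent.MP_deef5c_ag.O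

end
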