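import Pool.Agent.Mg.Fdeef5c.G739345
import Pool.Agent.Mg.Fdeef5c.Gdbb068
import Pool.Agent.Results.MP_deef5c_ag.WeightObstruction
import Pool.Agent.Mg.Fdeef5c.G8486d1
import Pool.Agent.MP_deef5c_ag.Defs
import Pool.Agent.Mg.Fdeef5c.G59577e

section

/-! The obstruction at a point of a curve. -/

open CategoryTheory AlgebraicGeometry IsLocalRing Function
open scoped Polynomial PowerSeries

namespace Pool.Agent.MP_deef5c_ag.O

universe u

section GTwoAlg

open PowerSeries

variable {k : Type u} [Field k] {R : Type*} [CommRing R] [IsLocalRing R] {J : R →+* k⟦X⟧} {t : R}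

theorem GTwo_max (hJ : ∀ a b, J a ∣ J b → a ∣ b) (ht : J t = X) :
    maximalIdeal R = Ideal.span {t} := by
  ext y
  rw [mem_maximalIdeal, mem_nonunits_iff, Ideal.mem_span_singleton]
  constructor
  · intro hy
    refine hJ _ _ ?_
    rw [ht, X_dvd_iff]
    by_contra h
    refine hy (isUnit_of_dvd_one (hJ _ _ ?_))
    exact (isUnit_iff_constantCoeff.2 (IsUnit.mk0 _ h)).dvd
  · intro hy hu
    have := (isUnit_of_dvd_unit hy hu).map J
    rw [ht] at this
    exact X_prime.not_isUnit this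

theorem GTwo_mem (hJ : ∀ a b, J a ∣ J b → a ∣ b) (ht : J t = X) (d : ℕ) (y : R) :
    y ∈ maximalIdeal R ^ d ↔ X ^ d ∣ J y := by
  rw [GTwo_max hJ ht, Ideal.span_singleton_pow, Ideal.mem_span_singleton, ← ht, ← map_pow]
  exact ⟨fun h => map_dvd J h, hJ _ _⟩

theorem GTwo_dvd {σ : En k} (h0 : constantCoeff (σ X) = 0) (g : k⟦X⟧) : σ X - X ∣ σ g - g :=
  sub_dvd σ 1 (GrpA_mem.2 h0) (GrpA_mem.2 constantCoeff_X) g

theorem GTwo_span (hJ : ∀ a b, J a ∣ J b → a ∣ b) (ht : J t = X) {L : R →+* R} {σ : En k}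
    (h0 : constantCoeff (σ X) = 0) (hL : ∀ y, J (L y) = σ (J y)) (d : ℕ) :
    Ideal.span (Set.range fun y => L y - y) = maximalIdeal R ^ d ↔ order (σ X - X) = d := by
  have ha : J (L t - t) = σ X - X := by rw [map_sub, hL, ht]
  have h1 : Ideal.span (Set.range fun y => L y - y) = Ideal.span {L t - t} := by
    refine le_antisymm (Ideal.span_le.2 ?_) (Ideal.span_mono ?_)
    · rintro _ ⟨y, rfl⟩
      refine Ideal.mem_span_singleton.2 (hJ _ _ ?_)
      rw [ha, map_sub, hL]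
      exact GTwo_dvd h0 _
    · rintro _ rfl
      exact ⟨t, rfl⟩
  have hb : J (t ^ d) = X ^ d := by rw [map_pow, ht]
  rw [h1, GTwo_max hJ ht, Ideal.span_singleton_pow, le_antisymm_iff,
    Ideal.span_singleton_le_span_singleton, Ideal.span_singleton_le_span_singleton]
  constructor
  · rintro ⟨h2, h3⟩
    have h4 := GrpA_le (map_dvd J h2)
    have h5 := GrpA_le (map_dvd J h3)
    rw [ha, hb, order_X_pow] at h4 h5
    exact le_antisymm h5 h4
  · intro h
    have hy : σ X - X ≠ 0 := fun e => by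
      rw [e, order_zero] at h
      exact ENat.top_ne_natCast _ h
    have hu : IsUnit (divXPowOrder (σ X - X)) := by
      rw [isUnit_iff_constantCoeff, isUnit_iff_ne_zero]
      exact fun h => hy (constantCoeff_divXPowOrder_eq_zero_iff.1 h)
    have h2 := X_pow_order_mul_divXPowOrder (f := σ X - X)
    rw [h, ENat.toNat_natCast] at h2
    have h3 := associated_mul_unit_left (X ^ d) _ hu
    rw [h2] at h3
    exact ⟨hJ _ _ (by rw [ha, hb]; exact h3.symm.dvd), hJ _ _ (by rw [ha, hb]; exact h3.dvd)⟩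

theorem GTwo_lin (hJ : ∀ a b, J a ∣ J b → a ∣ b) (ht : J t = X) {L : R →+* R} {σ : En k}
    (h0 : constantCoeff (σ X) = 0) (hL : ∀ y, J (L y) = σ (J y)) {c : R}
    (hc : J c = C (coeff 1 (σ X))) : ∀ y ∈ maximalIdeal R, L y - c * y ∈ maximalIdeal R ^ 2 := by
  intro y hy
  rw [GTwo_max hJ ht, Ideal.mem_span_singleton] at hy
  obtain ⟨z, rfl⟩ := hy
  have h1 : (X : k⟦X⟧) ^ 2 ∣ σ X - C (coeff 1 (σ X)) * X := by
    rw [X_pow_dvd_iff]
    intro j hj
    obtain rfl | rfl : j = 0 ∨ j = 1 := by omega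
    · rw [coeff_zero_eq_constantCoeff_apply, map_sub, h0, map_mul, constantCoeff_X, mul_zero,
        sub_zero]
    · rw [map_sub, coeff_C_mul, coeff_one_X, mul_one, sub_self]
  have h2 : (X : k⟦X⟧) ∣ σ (J z) - J z :=
    (X_dvd_iff.2 (by rw [map_sub, h0, constantCoeff_X, sub_zero])).trans (GTwo_dvd h0 _)
  have h3 := mul_dvd_mul_left X h2
  rw [← pow_two] at h3
  rw [GTwo_mem hJ ht, map_sub, hL, map_mul, map_mul, map_mul, map_mul, hc, ht]
  convert dvd_add (h1.mul_right (σ (J z))) (h3.mul_left (C (coeff 1 (σ X)))) using 1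
  ring

theorem GTwo_cast {m d : ℕ} (hm : 0 < m) (h : (m : ℕ∞) ∣ (d : ℕ∞)) : m ∣ d := by
  obtain ⟨c, hc⟩ := h
  induction c with
  | top =>
    rw [ENat.mul_top (by exact_mod_cast hm.ne')] at hc
    exact absurd hc (ENat.natCast_ne_top d)
  | coe c => exact ⟨c, by exact_mod_cast hc⟩

/-- the action by algebra endomorphisms -/
noncomputable def GTwo_en {H : Type*} [Group H] (ρx : H →* (k⟦X⟧ ≃ₐ[k] k⟦X⟧)) : H →* En k :=
  (Units.coeHom _).comp ((AlgEquiv.algHomUnitsEquiv k k⟦X⟧).symm.toMonoidHom.comp ρx)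

end GTwoAlg

theorem GTwo_ex {k : Type u} [Field k] {X : Scheme.{u}} [IsIntegral X] (f : X ⟶ Spec (.of k))
    {G : Type*} [Group G] (ρ : G →* Aut X) {x : X}
    {j : X.functionField →+* LaurentSeries k} {t : X.functionField}
    (C : letI := (fa f).toAlgebra; CP (Ox x) j t) {ρx : stab ρ x →* (k⟦X⟧ ≃ₐ[k] k⟦X⟧)}
    (hρ : LA (fun h : stab ρ x => fT (ρ h)) j ρx) :
    ∃ (J : X.presheaf.stalk x →+* k⟦X⟧) (t₀ : X.presheaf.stalk x),
      (∀ a b, J a ∣ J b → a ∣ b) ∧ J t₀ = PowerSeries.X ∧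
      (∀ (σ : stab ρ x) y, J ((locMap (ρ σ).hom x σ.2).hom y) = ρx σ⁻¹ (J y)) ∧
      ∀ c, J ((strMap f x).hom c) = PowerSeries.C c := by
  let := (fa f).toAlgebra
  have hi : Injective (lc k) := HahnSeries.ofPowerSeries_injective
  have hex : ∀ y : X.presheaf.stalk x, ∃ g, lc k g = j (algebraMap _ X.functionField y) :=
    fun y => exists_lc_of_le ((C.mem _).1 ⟨y, rfl⟩)
  choose J0 hJ0 using hex
  let J : X.presheaf.stalk x →+* k⟦X⟧ :=
    { toFun := J0
      map_one' := hi (by rw [hJ0, map_one, map_one, map_one])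
      map_mul' := fun a b => hi (by rw [map_mul, hJ0, hJ0, hJ0, map_mul, map_mul])
      map_zero' := hi (by rw [hJ0, map_zero, map_zero, map_zero])
      map_add' := fun a b => hi (by rw [map_add, hJ0, hJ0, hJ0, map_add, map_add]) }
  have hJ : ∀ y, lc k (J y) = j (algebraMap _ X.functionField y) := hJ0
  have hinj : Injective (algebraMap (X.presheaf.stalk x) X.functionField) :=
    IsFractionRing.injective _ _
  obtain ⟨t₀, ht₀⟩ : t ∈ Ox x := (C.mem t).2 (by rw [C.uni]; exact vv_lc_le _)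
  refine ⟨J, t₀, fun a b hab => ?_, hi (by rw [hJ, ht₀, C.uni]), fun σ y => hi ?_, fun c => hi ?_⟩
  · obtain ⟨w, hw⟩ := hab
    have h1 := congrArg (lc k) hw
    rw [map_mul, hJ, hJ] at h1
    rcases eq_or_ne a 0 with rfl | ha
    · rw [map_zero, map_zero, zero_mul, map_eq_zero, map_eq_zero_iff _ hinj] at h1
      rw [h1]
    · have ha' : algebraMap _ X.functionField a ≠ 0 := (map_ne_zero_iff _ hinj).2 ha
      obtain ⟨z, hz⟩ : algebraMap _ X.functionField b / algebraMap _ X.functionField a ∈ Ox x :=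
        (C.mem _).2 (by
          rw [map_div₀, h1, mul_div_cancel_left₀ _ ((map_ne_zero j).2 ha')]
          exact vv_lc_le _)
      exact ⟨z, hinj (by rw [map_mul, hz, mul_div_cancel₀ _ ha'])⟩
  · have h1 := hρ.2 σ⁻¹ _ _ (hJ y).symm
    rw [inv_inv] at h1
    rw [hJ, ← fT_locMap, h1]
  · rw [hJ, fa_stalk]
    refine (C.alg c).trans ?_
    rw [LaurentSeries.algebraMap_apply]
    exact (PowerSeries.coe_C c).symm

variable (p : ℕ) [Fact p.Prime] {k : Type u} [Field k] [CharP k p] {X : Scheme.{u}} [IsIntegral X]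
  (f : X ⟶ Spec (.of k)) {G : Type*} [Group G] [Finite G] (ρ : G →* Aut X)

/-- Let `i y = j (algebraMap y) = lc (j₀ y)`; `y ∈ m^d ↔ d ≤ order (j₀ y)` (`t` generates `m`), and
`j₀ (locMap σ y) = ρx σ⁻¹ (j₀ y)` (`fT_locMap`), which is `≡ j₀ y` modulo `ρx σ⁻¹ X - X` (`sub_dvd`).  So
the ideal is `m^d` iff `order (ρx σ⁻¹ X - X) = d`.  Use `σ ↔ σ⁻¹`; if `σ = 1` the group is cyclic by
`grp`. -/
theorem gc_iff {x : X} (hG : ∀ P : Sylow p (stab ρ x), IsCyclic P)
    {j : X.functionField →+* LaurentSeries k} {t : X.functionField}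
    (C : letI := (fa f).toAlgebra; CP (Ox x) j t) {ρx : stab ρ x →* (k⟦X⟧ ≃ₐ[k] k⟦X⟧)}
    (hρ : LA (fun h : stab ρ x => fT (ρ h)) j ρx) : GC p ρ x ↔ LC p ρx := by
  have _ := hG
  obtain ⟨J, t₀, hJ, ht, hL, -⟩ := GTwo_ex f ρ C hρ
  have h0 : ∀ g, PowerSeries.constantCoeff (ρx g PowerSeries.X) = 0 := fun g =>
    (GrpA_order.1 (order_one (σ := GTwo_en ρx g) (Nat.card_pos (α := stab ρ x))
      (by rw [← map_pow, pow_card_eq_one', map_one]))).1
  have key : ∀ (σ : stab ρ x) (d : ℕ),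
      Ideal.span (Set.range fun y => (locMap (ρ σ).hom x σ.2).hom y - y) =
        maximalIdeal (X.presheaf.stalk x) ^ d ↔
      (ρx σ⁻¹ PowerSeries.X - PowerSeries.X).order = (d : ℕ∞) := fun σ d =>
    GTwo_span hJ ht (σ := GTwo_en ρx σ⁻¹) (h0 _) (hL σ) d
  have hm : 0 < ordCompl[p] (Nat.card (stab ρ x)) := Nat.ordCompl_pos p Nat.card_pos.ne'
  refine or_congr_right ⟨fun h σ hσ => ?_, fun h σ hσ d hd => ?_⟩
  · have h1 := h σ⁻¹ (by rw [orderOf_inv, hσ])
    simp only [key, inv_inv] at h1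
    generalize (ρx σ PowerSeries.X - PowerSeries.X).order = e at h1
    induction e with
    | top => exact ⟨⊤, (ENat.mul_top (by exact_mod_cast hm.ne')).symm⟩
    | coe d => exact Nat.cast_dvd_cast (h1 d rfl)
  · have h1 := h σ⁻¹ (by rw [orderOf_inv, hσ])
    rw [(key σ d).1 hd] at h1
    exact GTwo_cast hm h1

/-- As `two_three`, but with `Pool.Agent.Results.MP_deef5c_ag.WeightObstruction.result` applied to
`P = zpowers σ₀`, `γ = τ₀` (from `grp` for `ρx`), `c = strMap f x ζ⁻¹`, `s = pointOfClosedPoint`. -/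
theorem lc_of_lifts [IsAlgClosed k] [IsSeparated f] [SmoothOfRelativeDimension 1 f]
    (hρi : Injective ρ) (hρk : ∀ g, (ρ g).hom ≫ f = f) {x : X} (hx : IsClosed {x})
    (hG : ∀ P : Sylow p (stab ρ x), IsCyclic P)
    {j : X.functionField →+* LaurentSeries k} {t : X.functionField}
    (C : letI := (fa f).toAlgebra; CP (Ox x) j t) {ρx : stab ρ x →* (k⟦X⟧ ≃ₐ[k] k⟦X⟧)}
    (hρ : LA (fun h : stab ρ x => fT (ρ h)) j ρx) (A : Type u) [CommRing A] [IsLocalRing A]
    [IsArtinianRing A] (π : A →+* k) (hπ : Surjective π) (hp : (p : A) ≠ 0)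
    (h : LiftsTo f ρ π) : LC p ρx := by
  obtain ⟨J, t₀, hJ, ht, hL, hC⟩ := GTwo_ex f ρ C hρ
  by_contra hh
  rw [LC] at hh
  push Not at hh
  obtain ⟨hcy, σ₀, hσ₀, hnd⟩ := hh
  obtain ⟨τ₀, α, hτm, hrel, hprim, hgen, -⟩ := (grp p hG ρx hρ.1).2 σ₀ hσ₀
  generalize ordCompl[p] (Nat.card (stab ρ x)) = m at *
  generalize (Nat.card (stab ρ x)).factorization p = n at *
  let r : stab ρ x →* En k := GTwo_en ρx
  have hr : ∀ g a, r g a = ρx g a := fun _ _ => rfl
  have hri : Injective r := fun a b e => hρ.1 (AlgEquiv.ext fun a => DFunLike.congr_fun e a)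
  have h0 : ∀ g, PowerSeries.constantCoeff (r g PowerSeries.X) = 0 := fun g => (GrpA_order.1
    (order_one (Nat.card_pos (α := stab ρ x))
      (by rw [← map_pow, pow_card_eq_one', map_one]))).1
  have hne : r σ₀ ≠ 1 := fun e => hcy ⟨τ₀, fun g => by
    obtain ⟨i, j, rfl⟩ := hgen g
    exact ⟨j, by simp [(map_eq_one_iff r hri).1 e]⟩⟩
  obtain ⟨l, hl, ho⟩ := exists_jump p n
    (by rw [← map_pow, ← hσ₀, pow_orderOf_eq_one, map_one]) hne
  have h3 := lead hl ho (h0 τ₀) (α := α) (by rw [← map_pow, ← map_mul, ← map_mul, hrel])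
  have h4 := coeff_one_mul (h0 τ₀) (h0 τ₀⁻¹)
  rw [← map_mul, mul_inv_cancel, map_one, AlgHom.one_apply, PowerSeries.coeff_one_X] at h4
  rw [← hr] at hprim hnd
  generalize PowerSeries.coeff 1 (r τ₀ PowerSeries.X) = ζ at *
  have h5 : ζ ^ (l + 1) ≠ 1 := fun e => hnd (by
    rw [ho]
    exact Nat.cast_dvd_cast ((hprim.pow_eq_one_iff_dvd _).1 e))
  have hlin := GTwo_lin hJ ht (h0 τ₀⁻¹) (hL τ₀) (hC _)
  generalize PowerSeries.coeff 1 (r τ₀⁻¹ PowerSeries.X) = c at *
  have hP : Subgroup.zpowers (σ₀ : G) ≤ stab ρ x := Subgroup.zpowers_le.2 σ₀.2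
  have hcl : Subgroup.closure (insert (τ₀ : G) (Subgroup.zpowers (σ₀ : G) : Set G)) =
      stab ρ x := by
    refine le_antisymm ((Subgroup.closure_le _).2 ?_) fun g hg => ?_
    · rintro g (rfl | hg)
      · exact τ₀.2
      · exact hP hg
    · obtain ⟨i, j, e⟩ := hgen ⟨g, hg⟩
      rw [show g = (σ₀ : G) ^ i * (τ₀ : G) ^ j from congrArg Subtype.val e]
      exact mul_mem (pow_mem (Subgroup.subset_closure
        (Set.mem_insert_of_mem _ (Subgroup.mem_zpowers (σ₀ : G)))) i)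
        (pow_mem (Subgroup.subset_closure (Set.mem_insert _ _)) j)
  have : Smooth f := SmoothOfRelativeDimension.smooth 1 f
  have hchar := Pool.Agent.Results.MP_deef5c_ag.WeightObstruction.result p k X f G ρ hρi hρk x
    (pointOfClosedPoint f x hx) (pointOfClosedPoint_comp f x hx)
    (pointOfClosedPoint_apply f x hx _) (Subgroup.zpowers (σ₀ : G)) τ₀ (fun g hg => hP hg) τ₀.2
    (by rw [hcl]; exact hcy) (fun g hg y _ => ?_) ((strMap f x).hom c) hlin ?_
    (fun φ hφ1 hφ2 g => ?_) A π hπ h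
  · exact hp (by rw [← hchar]; exact ringChar.Nat.cast_ringChar)
  · obtain ⟨i, hi⟩ := mem_powers_iff_mem_zpowers.2 (inv_mem hg)
    have e : (⟨g, hP hg⟩ : stab ρ x)⁻¹ = σ₀ ^ i := Subtype.ext hi.symm
    rw [GTwo_mem hJ ht, map_sub, hL ⟨g, hP hg⟩, ← hr]
    refine Dvd.dvd.trans ?_ (GTwo_dvd (h0 _) _)
    rw [e, map_pow, PowerSeries.X_pow_dvd_iff]
    intro j hj
    refine PowerSeries.coeff_of_lt_order j (lt_of_lt_of_le ?_ (lead_pow hl ho.ge i).1)
    exact_mod_cast (by omega : j < l + 1)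
  · have hc1 : c - 1 ≠ 0 := fun e => h5 (by
      rw [sub_eq_zero] at e
      rw [e, mul_one] at h4
      rw [← h4, one_pow])
    have hu := (IsUnit.mk0 _ hc1).map (strMap f x).hom
    rw [map_sub, map_one] at hu
    exact fun hm => (mem_maximalIdeal _).1 hm hu
  · have hc1 : (α : k) - c ≠ 0 := fun e => h5 (by
      rw [sub_eq_zero] at e
      rw [h3, e, mul_comm, ← h4])
    have hu := (IsUnit.mk0 _ hc1).map (strMap f x).hom
    rw [map_sub, map_natCast] at hu
    let s : Subgroup.zpowers (σ₀ : G) := ⟨σ₀, Subgroup.mem_zpowers _⟩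
    have e1 := hφ2 s (s ^ α) (eq_mul_inv_of_mul_eq (congrArg Subtype.val hrel).symm)
    rw [TwoThree_add φ hφ1, ← sub_eq_zero, ← sub_mul, ← map_natCast (residue _), ← map_sub,
      (hu.map (residue _)).mul_right_eq_zero] at e1
    obtain ⟨i, hi⟩ := mem_powers_iff_mem_zpowers.2 g.2
    have e2 : g = s ^ i := Subtype.ext hi.symm
    rw [e2, TwoThree_add φ hφ1, e1, mul_zero]

end Pool.Agent.MP_deef5c_ag.O

end

section

/-! Lifting local actions to finite extensions of the Witt vectors. -/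

open PowerSeries IsLocalRing Finset Function
open scoped Polynomial

namespace Pool.Agent.MP_deef5c_ag.O

universe u

variable {k : Type u} [Field k] (p : ℕ) [Fact p.Prime] [CharP k p] {G : Type*} [Group G] [Finite G]

theorem main_fin [IsAlgClosed k] {n m α : ℕ} {ζ : k} {σ : En k} (S : Sp p n m α ζ σ) :
    ∃ (O : Type u) (_ : CommRing O) (_ : IsLocalRing O) (_ : CL O) (_ : Algebra (WittVector p k) O)
      (π : O →+* k) (z : O) (σO : En O), FW p π ∧
      Surjective π ∧ z ^ m = 1 ∧ π z = ζ ∧ PowerSeries.map π (σO X) = σ X ∧ Rel (p ^ n) α z σO := by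
  have hσ0 : constantCoeff (σ X) = 0 := by
    have := order_one (pow_pos (Fact.out : p.Prime).pos n) S.pow
    exact coeff_zero_eq_constantCoeff_apply (σ X) ▸ coeff_of_lt_order 0 (by rw [this]; norm_num)
  obtain ⟨R, _, _, _, _, _, π, z, σR, hπ, hp, hz, hπz, hs, hr⟩ :
      ∃ (R : Type u) (_ : CommRing R) (_ : IsDomain R) (_ : IsLocalRing R) (_ : CL R)
      (_ : Algebra (WittVector p k) R) (π : R →+* k) (z : R) (σR : En R),
      (∀ w, π (algebraMap (WittVector p k) R w) = w.coeff 0) ∧ (p : R) ≠ 0 ∧ z ^ m = 1 ∧ π z = ζ ∧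
      PowerSeries.map π (σR X) = σ X ∧ Rel (p ^ n) α z σR := by
    rcases Nat.eq_zero_or_pos n with rfl | hn
    · have h1 : σ = 1 := by simpa using S.pow
      refine ⟨WittVector p k, _, inferInstance, inferInstance, (witt_cl p k).1, inferInstance,
        WittVector.constantCoeff, WittVector.teichmuller p ζ, 1, fun w => rfl,
        WittVector.p_nonzero p k, by rw [← map_pow, S.prim.pow_eq_one, map_one], rfl,
        by simp [h1], by simp [Rel]⟩
    · obtain ⟨R, _, _, _, _, _, π, z, s, hπ, hp, hz, hπz, hs, hr⟩ := exists_dom S hn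
      have hsj : Surjective π := fun c => ⟨_, (hπ (WittVector.teichmuller p c)).trans rfl⟩
      refine ⟨R, _, ‹_›, ‹_›, ‹_›, ‹_›, π, z, sub s, hπ, hp, hz, hπz, ?_, hr⟩
      rw [sub_X ((pi_eq_zero_iff π hsj _).1 (by
        rw [← hσ0, ← hs, ← coeff_zero_eq_constantCoeff_apply, ← coeff_zero_eq_constantCoeff_apply,
          coeff_map])), hs]
  have hsj : Surjective π := fun c => ⟨_, (hπ (WittVector.teichmuller p c)).trans rfl⟩
  obtain ⟨Q, hQ, hpQ, hfin⟩ := exists_fin_quot p k R π hπ hp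
  have := local_quot Q hQ.ne_top
  obtain ⟨π', -, h1⟩ := exists_pi_quot π hsj Q hQ.ne_top
  have : CL (R ⧸ Q) := CL.of_surj (Ideal.Quotient.mk Q) Ideal.Quotient.mk_surjective
  let ψ : R →+* R ⧸ Q := Ideal.Quotient.mk Q
  have hψ : ∀ a, π' (ψ a) = π a := h1
  have hO : Surjective π' := fun c => by
    obtain ⟨a, rfl⟩ := hsj c
    exact ⟨ψ a, hψ a⟩
  have h3 : PowerSeries.map π' (PowerSeries.map ψ (σR X)) = σ X := by
    rw [← hs]
    ext i
    simp [hψ]
  have hm : constantCoeff (PowerSeries.map ψ (σR X)) ∈ maximalIdeal (R ⧸ Q) :=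
    (pi_eq_zero_iff π' hO _).1 (by
      rw [← hσ0, ← h3, ← coeff_zero_eq_constantCoeff_apply, ← coeff_zero_eq_constantCoeff_apply,
        coeff_map π'])
  exact ⟨R ⧸ Q, _, ‹_›, ‹_›, inferInstance, π', ψ z, _,
    ⟨inferInstance, hfin, fun w => by rw [← hπ, ← h1]; rfl,
      fun h => hpQ (by rwa [← Ideal.Quotient.eq_zero_iff_mem, map_natCast])⟩, hO,
    by rw [← map_pow, hz, map_one], by rw [hψ, hπz], by rw [sub_X hm, h3], hr.map ψ hm⟩

theorem three_one' [IsAlgClosed k] (hG : ∀ P : Sylow p G, IsCyclic P)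
    (ρ : G →* (k⟦X⟧ ≃ₐ[k] k⟦X⟧)) (hρ : Injective ρ) (h : LC p ρ) :
    ∃ (O : Type u) (_ : CommRing O) (_ : IsLocalRing O) (_ : Algebra (WittVector p k) O)
      (π : O →+* k), FW p π ∧ LocLifts ρ π := by
  obtain ⟨⟨σ₀, hσ₀⟩, H⟩ := grp p hG ρ hρ
  obtain ⟨τ₀, α, hτm, hrel, hprim, hgen, hcyc⟩ := H σ₀ hσ₀
  have hm : 0 < ordCompl[p] (Nat.card G) := Nat.ordCompl_pos p Nat.card_pos.ne'
  replace h := h.imp_right fun h => h σ₀ hσ₀
  generalize ordCompl[p] (Nat.card G) = m at *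
  generalize (Nat.card G).factorization p = n at *
  have hq : 0 < p ^ n := pow_pos (Fact.out : p.Prime).pos n
  have hσq : σ₀ ^ p ^ n = 1 := hσ₀ ▸ pow_orderOf_eq_one σ₀
  let r : G →* En k := (Units.coeHom _).comp
    ((AlgEquiv.algHomUnitsEquiv k k⟦X⟧).symm.toMonoidHom.comp ρ)
  have hr : ∀ g f, r g f = ρ g f := fun _ _ => rfl
  obtain ⟨Φ, Ψ, h1, h2, hΦ, hlin⟩ := lin (τ := r τ₀) hm (by rw [← map_pow, hτm, map_one]) hprim
  rw [hr] at hlin
  generalize coeff 1 (ρ τ₀ X) = ζ at *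
  have h1' : ∀ f, Φ (Ψ f) = f := fun f => DFunLike.congr_fun h1 f
  have h2' : ∀ f, Ψ (Φ f) = f := fun f => DFunLike.congr_fun h2 f
  let c : G →* En k :=
    { toFun := fun g => Ψ * r g * Φ
      map_one' := by rw [map_one, mul_one, h2]
      map_mul' := fun a b => by
        rw [map_mul]
        exact AlgHom.ext fun f => by simp only [AlgHom.mul_apply, h1'] }
  have hc : ∀ g f, c g f = Ψ (ρ g (Φ f)) := fun _ _ => rfl
  have hci : Injective c := fun a b e => hρ (AlgEquiv.ext fun f => by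
    have := congrArg Φ (DFunLike.congr_fun e (Ψ f))
    simpa only [hc, h1'] using this)
  have hcτ : c τ₀ = tau ζ := by
    change Ψ * r τ₀ * Φ = _
    rw [mul_assoc, hlin, ← mul_assoc, h2, one_mul]
  have hcq : ∀ i, (c σ₀ ^ i) ^ p ^ n = 1 := fun i => by
    rw [← pow_mul, mul_comm, pow_mul, ← map_pow, hσq, map_one, one_pow]
  have hc1 : c σ₀ ^ p ^ n = 1 := by simpa using hcq 1
  have hcrel : tau ζ * c σ₀ = c σ₀ ^ α * tau ζ := by
    rw [← hcτ, ← map_pow, ← map_mul, ← map_mul, hrel]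
  have hτ0 : ∀ a : k, constantCoeff (tau a X) = 0 := fun a => by simp [tau_X]
  have hτ1 : ∀ a : k, coeff 1 (tau a X) = a := fun a => by simp [tau_X]
  have S : Sp p n m α ζ (c σ₀) := by
    refine ⟨(orderOf_injective c hci σ₀).trans hσ₀, hm, hprim, hcrel, ?_⟩
    by_cases hcy : IsCyclic G
    · exact Or.inl (by rw [hcyc hcy, Nat.cast_one])
    have hne : c σ₀ ≠ 1 := fun e => hcy ⟨τ₀, fun g => by
      obtain ⟨i, j, rfl⟩ := hgen g
      exact ⟨j, by simp [(map_eq_one_iff c hci).1 e]⟩⟩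
    obtain ⟨l, hl, ho⟩ := exists_jump p n hc1 hne
    have h3 := lead hl ho (hτ0 ζ) hcrel
    have h4 := h.resolve_left hcy
    rw [← hr, ← order_conj h1 h2 hΦ (Lau_cc one_pos
      (order_one hq (by rw [← map_pow, hσq, map_one])))] at h4
    rw [hτ1, (hprim.pow_eq_one_iff_dvd _).2 (ThreeOne_dvd hm (ho ▸ h4))] at h3
    have h5 : (α : k) ^ p ^ n = α := map_natCast (iterateFrobenius k p n) α
    exact Or.inr (by rw [← h5, ← mul_pow, ← h3, one_pow])
  obtain ⟨O, _, _, _, _, π, z, σO, hfw, hπ, hz, hπz, hσO, hR⟩ := main_fin p S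
  have hΦ0 := Lau_cc one_pos hΦ
  obtain ⟨t, ht⟩ := PowerSeries.map_surjective π hπ (Φ X)
  have ht' : PowerSeries.map π (sub t X) = Φ X := by
    rw [sub_X ((pi_eq_zero_iff π hπ _).1 (by
      rw [← hΦ0, ← ht, ← coeff_zero_eq_constantCoeff_apply, ← coeff_zero_eq_constantCoeff_apply,
        coeff_map])), ht]
  obtain ⟨Ψ', g1, g2⟩ := exists_inv π hπ (sub t) (by rw [ht', hΦ])
  have g3 := map_en π (sub t) Φ ht' (by simp [hΦ0])
  obtain ⟨φ, hφσ, hφτ⟩ := hom_of_rel σ₀ τ₀ (Units.ofPowEqOne σO _ hR.1 hq.ne')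
    (Units.ofPowEqOne (tau z) m (by rw [tau_pow, hz, tau_one]) hm.ne') (p ^ n) m α hq hm hσq hτm
    (Units.pow_ofPowEqOne _ _) (Units.pow_ofPowEqOne _ _) hrel (Units.ext hR.2) hgen fun i j e => by
      have e1 := congrArg (fun g => coeff 1 (c g X)) e
      simp only [map_mul, map_pow, map_one, hcτ, tau_pow] at e1
      rw [coeff_one_mul (Lau_cc one_pos (order_one hq (hcq i))) (hτ0 _), ThreeOne_one p n (hcq i),
        hτ1, one_mul, AlgHom.one_apply, coeff_one_X, hprim.pow_eq_one_iff_dvd] at e1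
      obtain ⟨j', rfl⟩ := e1
      rw [pow_mul, hτm, one_pow, mul_one] at e
      exact ⟨hσ₀ ▸ orderOf_dvd_of_pow_eq_one e, dvd_mul_right _ _⟩
  have hφ : ∀ g f, PowerSeries.map π ((φ g : En O) f) = c g (PowerSeries.map π f) := fun g f => by
    obtain ⟨i, j, rfl⟩ := hgen g
    simp only [map_mul, map_pow, hφσ, hφτ, hcτ, Units.val_mul, Units.val_pow_eq_pow_val,
      Units.val_ofPowEqOne, AlgHom.mul_apply, tau_pow]
    rw [map_en_pow π σO (c σ₀) hσO (by simp [Lau_cc one_pos (order_one hq hc1)]), map_tau, map_pow,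
      hπz]
  refine ⟨O, _, ‹_›, ‹_›, π, hfw, (AlgEquiv.algHomUnitsEquiv O O⟦X⟧).toMonoidHom.comp
    ((MulAut.conj (⟨sub t, Ψ', g1, g2⟩ : (En O)ˣ)).toMonoidHom.comp φ), fun g f => ?_⟩
  change PowerSeries.map π (sub t ((φ g : En O) (Ψ' f))) = _
  rw [g3, hφ, hc, h1', ← g3]
  exact congrArg (fun x => ρ g (PowerSeries.map π x)) (DFunLike.congr_fun g1 f)

end Pool.Agent.MP_deef5c_ag.O

end

section

/-! An invariant separating element. -/

open CategoryTheory AlgebraicGeometry IsLocalRing Function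
open scoped Polynomial PowerSeries

namespace Pool.Agent.MP_deef5c_ag.O

universe u

theorem GSep_exists_D_ne {k K : Type u} [Field k] [Field K] [Algebra k K]
    (h1 : Module.finrank K (KaehlerDifferential k K) = 1) :
    ∃ b : K, KaehlerDifferential.D k K b ≠ 0 := by
  by_contra hcon
  push Not at hcon
  have htop := KaehlerDifferential.span_range_derivation k K
  have hbot : Submodule.span K (Set.range (KaehlerDifferential.D k K)) = ⊥ := by
    rw [Submodule.span_eq_bot]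
    rintro _ ⟨b, rfl⟩
    exact hcon b
  have hsub : Subsingleton (KaehlerDifferential k K) := by
    refine ⟨fun x y => ?_⟩
    have hx : x ∈ (⊥ : Submodule K (KaehlerDifferential k K)) := by
      rw [← hbot, htop]; exact Submodule.mem_top
    have hy : y ∈ (⊥ : Submodule K (KaehlerDifferential k K)) := by
      rw [← hbot, htop]; exact Submodule.mem_top
    rw [Submodule.mem_bot] at hx hy
    rw [hx, hy]
  rw [Module.finrank_zero_of_subsingleton] at h1
  exact zero_ne_one h1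

theorem GSep_exists_inv {k K M : Type u} [Field k] [Field K] [Algebra k K] [AddCommGroup M]
    [Module k M] [Module K M] (d : Derivation k K M) {G : Type*} [Group G] [Finite G]
    (T : G → K →+* K) (hT : RA fun g b => T g b) {f₀ : K} (hf₀ : d f₀ ≠ 0) :
    ∃ f : K, (∀ g, T g f = f) ∧ d f ≠ 0 := by
  classical
  have := Fintype.ofFinite G
  set S : Finset K := Finset.univ.image fun g => T g f₀ with hS
  set q : K[X] := ∏ y ∈ S, (Polynomial.X - Polynomial.C y) with hq
  have hmem : f₀ ∈ S := by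
    rw [hS, Finset.mem_image]
    exact ⟨1, Finset.mem_univ _, hT.one f₀⟩
  have himg : ∀ g, S.image (T g) = S := by
    intro g
    refine Finset.eq_of_subset_of_card_le ?_ ?_
    · intro y hy
      rw [Finset.mem_image] at hy
      obtain ⟨z, hz, rfl⟩ := hy
      rw [hS, Finset.mem_image] at hz ⊢
      obtain ⟨h, -, rfl⟩ := hz
      exact ⟨h * g, Finset.mem_univ _, hT.mul h g f₀⟩
    · rw [Finset.card_image_of_injective _ (T g).injective]
  have hmap : ∀ g, q.map (T g) = q := by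
    intro g
    rw [hq, Polynomial.map_prod]
    conv_rhs => rw [← himg g]
    rw [Finset.prod_image fun x _ y _ h => (T g).injective h]
    simp
  have hsep : q.Separable := by
    rw [hq]
    exact Polynomial.separable_prod_X_sub_C_iff'.mpr fun x _ y _ h => h
  have hroot : q.eval f₀ = 0 := by
    rw [hq, Polynomial.eval_prod]
    exact Finset.prod_eq_zero hmem (by simp)
  have hder : (Polynomial.derivative q).eval f₀ ≠ 0 := by
    have := hsep.aeval_derivative_ne_zero (x := f₀) (by simpa using hroot)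
    simpa using this
  by_contra hcon
  push Not at hcon
  have hc : ∀ i, d (q.coeff i) = 0 := fun i => hcon _ fun g => by
    conv_rhs => rw [← hmap g]
    rw [Polynomial.coeff_map]
  have h0 : d.mapCoeffs q = 0 := by
    ext i
    simp [hc i]
  have e := d.apply_eval_eq f₀ q
  rw [hroot, h0, map_zero, map_zero, zero_add] at e
  rcases smul_eq_zero.mp e.symm with h | h
  · exact hder h
  · exact hf₀ h

theorem GSep_sep {k L K : Type u} [Field k] [Field L] [Field K] [Algebra k L] [Algebra k K]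
    [Algebra L K] [IsScalarTower k L K] [Algebra.EssFiniteType k K]
    (h1 : Module.finrank K (KaehlerDifferential k K) = 1) (f : L)
    (hf : KaehlerDifferential.D k K (algebraMap L K f) ≠ 0) :
    Algebra.IsSeparable L K ∧ Module.Finite L K := by
  have hE : Algebra.EssFiniteType L K := Algebra.EssFiniteType.of_comp k L K
  have hU : Algebra.FormallyUnramified L K := by
    refine ⟨⟨fun x y => ?_⟩⟩
    have hz : ∀ x : KaehlerDifferential L K, x = 0 := by
      intro x
      obtain ⟨z, rfl⟩ := KaehlerDifferential.map_surjective k L K x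
      obtain ⟨c, rfl⟩ := (finrank_eq_one_iff_of_nonzero' _ hf).mp h1 z
      rw [map_smul, KaehlerDifferential.map_D]
      simp
    rw [hz x, hz y]
  have hS : Algebra.IsSeparable L K := (Algebra.FormallyUnramified.iff_isSeparable L K).mp hU
  exact ⟨hS, Algebra.finite_of_essFiniteType_of_isAlgebraic⟩

theorem GSep_core {A L K : Type u} [CommRing A] [IsDomain A] [IsIntegrallyClosed A] [Field L]
    [Algebra A L] [IsFractionRing A L] [Field K] [Algebra A K] [Algebra L K]
    [IsScalarTower A L K] [Module.Finite L K] [Algebra.IsSeparable L K] :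
    ∃ (θ : K) (P : A[X]), P.Monic ∧ (∀ Q : A[X], Polynomial.aeval θ Q = 0 ↔ P ∣ Q) ∧
      Polynomial.aeval θ (Polynomial.derivative P) ≠ 0 ∧
      ∀ b : K, ∃ (Q : A[X]) (c : A), c ≠ 0 ∧ algebraMap A K c * b = Polynomial.aeval θ Q := by
  have hinj : Injective (algebraMap A K) := by
    rw [IsScalarTower.algebraMap_eq A L K]
    exact (algebraMap L K).injective.comp (IsFractionRing.injective A L)
  have hF : FaithfulSMul A K := (faithfulSMul_iff_algebraMap_injective A K).mpr hinj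
  obtain ⟨θ₀, hθ₀⟩ := Field.exists_primitive_element L K
  have halg : IsAlgebraic A θ₀ :=
    (IsFractionRing.isAlgebraic_iff A L K).mpr (Algebra.IsAlgebraic.isAlgebraic θ₀)
  obtain ⟨c, hc, hint⟩ := halg.exists_integral_multiple
  have hcL : algebraMap A L c ≠ 0 := fun h => hc (IsFractionRing.injective A L (by simpa using h))
  set θ := c • θ₀ with hθ
  have hmin := minpoly.isIntegrallyClosed_eq_field_fractions' L hint
  refine ⟨θ, minpoly A θ, minpoly.monic hint, fun Q => minpoly.isIntegrallyClosed_dvd_iff hint Q,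
    ?_, fun b => ?_⟩
  · have hs : (minpoly L θ).Separable := Algebra.IsSeparable.isSeparable L θ
    have := hs.aeval_derivative_ne_zero (x := θ) (minpoly.aeval L θ)
    rwa [hmin, Polynomial.derivative_map, Polynomial.aeval_map_algebraMap] at this
  · have hb : b ∈ Algebra.adjoin L {θ₀} := by
      rw [← IntermediateField.adjoin_simple_toSubalgebra_of_isAlgebraic
        (Algebra.IsAlgebraic.isAlgebraic θ₀), hθ₀]
      exact Algebra.mem_top
    have hle : Algebra.adjoin L {θ₀} ≤ Algebra.adjoin L {θ} := by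
      refine Algebra.adjoin_le (Set.singleton_subset_iff.mpr ?_)
      have e : θ₀ = (algebraMap A L c)⁻¹ • θ := by
        rw [hθ, ← algebraMap_smul L c θ₀, smul_smul, inv_mul_cancel₀ hcL, one_smul]
      have hm : (algebraMap A L c)⁻¹ • θ ∈ Algebra.adjoin L {θ} :=
        Subalgebra.smul_mem _ (Algebra.subset_adjoin (Set.mem_singleton _)) _
      rw [← e] at hm
      exact hm
    have hb' := hle hb
    rw [Algebra.adjoin_singleton_eq_range_aeval] at hb'
    obtain ⟨Q', hQ'⟩ := hb'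
    obtain ⟨s, hs, hsQ⟩ := IsLocalization.integerNormalization_spec (nonZeroDivisors A) Q'
    refine ⟨IsLocalization.integerNormalization (nonZeroDivisors A) Q', s,
      nonZeroDivisors.ne_zero hs, ?_⟩
    rw [← Polynomial.aeval_map_algebraMap L, hsQ, ← algebraMap_smul L s Q', map_smul,
      Algebra.smul_def, ← IsScalarTower.algebraMap_apply]
    congr 1
    exact hQ'.symm

/-- The differentials `d b` span `Ω[K⁄k] ≠ 0`; take `f₀` with `d f₀ ≠ 0` and the separable polynomial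
`∏ (T - y)` over the orbit of `f₀`, whose coefficients are invariant; differentiating, some coefficient
`f` has `d f ≠ 0`.  Then `f ∉ k`, so `f` is transcendental, and `Ω[K⁄k(f)] = 0`
(`KaehlerDifferential.exact_mapBaseChange_map`), so `K / k(f)` is separable
(`Algebra.FormallyUnramified.iff_isSeparable`) and finite.  Take a primitive element `θ`, integral over
`k[f]` after scaling, and `P` its minimal polynomial over the normal ring `k[f]`. -/
theorem exists_sep {k K : Type u} [Field k] [IsAlgClosed k] [Field K] [Algebra k K]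
    [Algebra.EssFiniteType k K] (h1 : Module.finrank K (KaehlerDifferential k K) = 1)
    {G : Type*} [Group G] [Finite G] (T : G → K →+* K) (hT : RA fun g b => T g b)
    (hk : ∀ g c, T g (algebraMap k K c) = algebraMap k K c) :
    ∃ (f θ : K) (P : k[X][X]), (∀ g, T g f = f) ∧ Transcendental k f ∧ P.Monic ∧
      (∀ Q : k[X][X], Q.eval₂ (Polynomial.aeval f : k[X] →ₐ[k] K) θ = 0 ↔ P ∣ Q) ∧
      (Polynomial.derivative P).eval₂ (Polynomial.aeval f : k[X] →ₐ[k] K) θ ≠ 0 ∧
      ∀ b : K, ∃ (Q : k[X][X]) (c : k[X]), c ≠ 0 ∧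
        Polynomial.aeval f c * b = Q.eval₂ (Polynomial.aeval f : k[X] →ₐ[k] K) θ := by
  obtain ⟨f₀, hf₀⟩ := GSep_exists_D_ne h1
  obtain ⟨f, hfT, hf⟩ := GSep_exists_inv (KaehlerDifferential.D k K) T hT hf₀
  have htr : Transcendental k f := by
    intro halg
    obtain ⟨c, hc⟩ := minpoly.mem_range_of_degree_eq_one k f
      (IsAlgClosed.degree_eq_one_of_irreducible k (minpoly.irreducible halg.isIntegral))
    exact hf (hc ▸ Derivation.map_algebraMap _ c)
  let _ : Algebra k[X] K := (Polynomial.aeval f : k[X] →ₐ[k] K).toRingHom.toAlgebra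
  have hA : ∀ c : k[X], algebraMap k[X] K c = Polynomial.aeval f c := fun _ => rfl
  have hinj : Injective (algebraMap k[X] K) := transcendental_iff_injective.mp htr
  have hF : FaithfulSMul k[X] K := (faithfulSMul_iff_algebraMap_injective _ _).mpr hinj
  let _ : Algebra (FractionRing k[X]) K := FractionRing.liftAlgebra k[X] K
  have hT1 : IsScalarTower k[X] (FractionRing k[X]) K := FractionRing.isScalarTower_liftAlgebra _ _
  have hT2 : IsScalarTower k (FractionRing k[X]) K := by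
    refine IsScalarTower.of_algebraMap_eq fun c => ?_
    rw [IsScalarTower.algebraMap_apply k k[X] (FractionRing k[X]),
      ← IsScalarTower.algebraMap_apply k[X] (FractionRing k[X]) K, hA]
    simp
  obtain ⟨hS, hFin⟩ := GSep_sep (k := k) (L := FractionRing k[X]) h1
    (algebraMap k[X] (FractionRing k[X]) Polynomial.X) (by
      rw [← IsScalarTower.algebraMap_apply k[X] (FractionRing k[X]) K, hA, Polynomial.aeval_X]
      exact hf)
  obtain ⟨θ, P, h2, h3, h4, h5⟩ := GSep_core (A := k[X]) (L := FractionRing k[X]) (K := K)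
  exact ⟨f, θ, P, hfT, htr, h2, h3, h4, h5⟩

end Pool.Agent.MP_deef5c_ag.O

end

section

/-! The lift of the function field. -/

open CategoryTheory AlgebraicGeometry IsLocalRing Function
open scoped Polynomial PowerSeries

namespace Pool.Agent.MP_deef5c_ag.O

universe u

variable {k A K : Type u} [Field k] [CommRing A] [IsLocalRing A] [IsArtinianRing A] [Field K]
  [Algebra k K]

theorem GKl_unit {R L : Type*} [CommRing R] [CommRing L] (r : R →+* L)
    (hn : ∀ a, r a = 0 → IsNilpotent a) {x s : R} (h : r x * r s = 1) : IsUnit x := by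
  have h1 := (hn (x * s - 1) (by rw [map_sub, map_mul, h, map_one, sub_self])).isUnit_add_one
  rw [sub_add_cancel] at h1
  exact isUnit_of_mul_isUnit_left h1

theorem GKl_root {R L : Type*} [CommRing R] [CommRing L] (ψ : R →+* L) (p : R[X]) (x : L)
    (h : IsNilpotent (p.eval₂ ψ x)) (h' : IsUnit ((Polynomial.derivative p).eval₂ ψ x)) :
    ∃! y, IsNilpotent (x - y) ∧ p.eval₂ ψ y = 0 :=
  letI := ψ.toAlgebra
  Polynomial.existsUnique_nilpotent_sub_and_aeval_eq_zero (P := p) (x := x) h h'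

theorem GKl_root_eq {R L : Type*} [CommRing R] [CommRing L] (ψ : R →+* L) (p : R[X]) {x y : L}
    (hx : p.eval₂ ψ x = 0) (hy : p.eval₂ ψ y = 0) (hn : IsNilpotent (x - y))
    (h' : IsUnit ((Polynomial.derivative p).eval₂ ψ x)) : x = y :=
  (GKl_root ψ p x (by rw [hx]; exact IsNilpotent.zero) h').unique
    ⟨by rw [sub_self]; exact IsNilpotent.zero, hx⟩ ⟨hn, hy⟩

/-- the localisation at `N` of `A[X][T] / (P)` -/
structure GKlM {A K' : Type u} [CommRing A] [CommRing K'] [Algebra A K'] (P : A[X][X])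
    (N : Submonoid A[X]) (ψ : A[X] →+* K') (θ : K') : Prop where
  flat : Module.Flat A K'
  alg : ∀ a, ψ (Polynomial.C a) = algebraMap A K' a
  root : P.eval₂ ψ θ = 0
  unit : ∀ c ∈ N, IsUnit (ψ c)
  gen : ∀ b, ∃ Q : A[X][X], ∃ c ∈ N, ψ c * b = Q.eval₂ ψ θ
  lift : ∀ (L : Type u) [CommRing L] (χ : A[X] →+* L) (t : L), P.eval₂ χ t = 0 →
    (∀ c ∈ N, IsUnit (χ c)) → ∃ e : K' →+* L, e.comp ψ = χ ∧ e θ = t

theorem GKl_model {A : Type u} [CommRing A] (P : A[X][X]) (hP : P.Monic) (N : Submonoid A[X]) :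
    ∃ (K' : Type u) (_ : CommRing K') (_ : Algebra A K') (ψ : A[X] →+* K') (θ : K'),
      GKlM P N ψ θ := by
  let M : Submonoid (AdjoinRoot P) := N.map (AdjoinRoot.of P)
  let i := algebraMap (AdjoinRoot P) (Localization M)
  have hev : ∀ Q : A[X][X], Q.eval₂ (i.comp (AdjoinRoot.of P)) (i (AdjoinRoot.root P)) =
      i (AdjoinRoot.mk P Q) := fun Q => by
    rw [← Polynomial.hom_eval₂, ← AdjoinRoot.aeval_eq, Polynomial.aeval_def,
      AdjoinRoot.algebraMap_eq]
  refine ⟨Localization M, inferInstance, inferInstance, i.comp (AdjoinRoot.of P),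
    i (AdjoinRoot.root P), ?_, fun a => ?_, ?_, fun c hc => ?_, fun b => ?_,
    fun L _ χ t h1 h2 => ?_⟩
  · have := hP.free_adjoinRoot
    have : Module.Flat A (AdjoinRoot P) := Module.Flat.trans A A[X] (AdjoinRoot P)
    have : Module.Flat (AdjoinRoot P) (Localization M) := IsLocalization.flat _ M
    exact Module.Flat.trans A (AdjoinRoot P) (Localization M)
  · rw [IsScalarTower.algebraMap_apply A (AdjoinRoot P) (Localization M),
      AdjoinRoot.algebraMap_eq']
    rfl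
  · rw [hev, AdjoinRoot.mk_self, map_zero]
  · exact IsLocalization.map_units (Localization M) (⟨_, c, hc, rfl⟩ : M)
  · obtain ⟨⟨x, _, c, hc, rfl⟩, h⟩ := IsLocalization.surj M b
    obtain ⟨Q, rfl⟩ := AdjoinRoot.mk_surjective x
    exact ⟨Q, c, hc, by rw [hev, mul_comm]; exact h⟩
  · have hu : ∀ y : M, IsUnit (AdjoinRoot.lift χ t h1 y) := by
      rintro ⟨_, c, hc, rfl⟩
      have := h2 c hc
      rwa [← AdjoinRoot.lift_of h1] at this
    refine ⟨IsLocalization.lift (S := Localization M) hu, ?_, ?_⟩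
    · rw [← RingHom.comp_assoc, IsLocalization.lift_comp, AdjoinRoot.lift_comp_of]
    · rw [IsLocalization.lift_eq, AdjoinRoot.lift_root]

theorem GKlM.ext {A K' : Type u} [CommRing A] [CommRing K'] [Algebra A K'] {P : A[X][X]}
    {N : Submonoid A[X]} {ψ : A[X] →+* K'} {θ : K'} (H : GKlM P N ψ θ) {L : Type u} [CommRing L]
    {e₁ e₂ : K' →+* L} (h1 : e₁.comp ψ = e₂.comp ψ) (h2 : e₁ θ = e₂ θ) : e₁ = e₂ := by
  ext b
  obtain ⟨Q, c, hc, h⟩ := H.gen b
  refine ((H.unit c hc).map e₁).mul_left_cancel ?_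
  have h3 : e₁ (ψ c) = e₂ (ψ c) := RingHom.congr_fun h1 c
  rw [← map_mul, h3, ← map_mul, h, Polynomial.hom_eval₂, Polynomial.hom_eval₂, h1, h2]

theorem GKl_ker {K' : Type u} [CommRing K'] [Algebra A K'] (π : A →+* k) (hπ : Surjective π)
    {ψ : A[X] →+* K'} (hψ : ∀ a, ψ (Polynomial.C a) = algebraMap A K' a) (θ : K') {Q : A[X][X]}
    (hQ : Q.map (Polynomial.mapRingHom π) = 0) :
    Q.eval₂ ψ θ ∈ (maximalIdeal A).map (algebraMap A K') := by
  have h1 : Q ∈ RingHom.ker (Polynomial.mapRingHom (Polynomial.mapRingHom π)) := hQ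
  rw [Polynomial.ker_mapRingHom, Polynomial.ker_mapRingHom, ker_eq_maximalIdeal π hπ] at h1
  have h2 := Ideal.mem_map_of_mem (Polynomial.eval₂RingHom ψ θ) h1
  rw [Ideal.map_map, Ideal.map_map] at h2
  have h3 : ((Polynomial.eval₂RingHom ψ θ).comp Polynomial.C).comp Polynomial.C =
      algebraMap A K' := RingHom.ext fun a => by
    simp only [RingHom.comp_apply, Polynomial.coe_eval₂RingHom, Polynomial.eval₂_C, hψ]
  rwa [h3] at h2

theorem GKl_nil {K' : Type u} [CommRing K'] [Algebra A K'] {b : K'}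
    (hb : b ∈ (maximalIdeal A).map (algebraMap A K')) : IsNilpotent b := by
  obtain ⟨n, hn⟩ := IsArtinianRing.isNilpotent_jacobson_bot (R := A)
  rw [jacobson_eq_maximalIdeal _ bot_ne_top] at hn
  have h := Ideal.pow_mem_pow hb n
  rw [← Ideal.map_pow, hn, Ideal.zero_eq_bot, Ideal.map_bot] at h
  exact ⟨n, h⟩

/-- Let `P'` be a monic lift of `P` to `A[X][T]`, `B' = AdjoinRoot P'` (free over `A[X]`), and `K'` the
localisation of `B'` at the image of `{c : A[X] | c.map π ≠ 0}`.  For `ex`, `uniq`, `fin` use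
`Polynomial.existsUnique_nilpotent_sub_and_aeval_eq_zero` (a simple root of `P'(F, T)` lifts uniquely
along a nil kernel) and that an element with invertible image is invertible.  For `fin`, if
`c(f') b' = Q(f', θ')` take `Z = {θ, (P_T(f, θ))⁻¹, (c̄(f))⁻¹}` and solve inside `S`. -/
theorem exists_kl (π : A →+* k) (hπ : Surjective π) (f θ : K) (P : k[X][X])
    (hf : Transcendental k f) (hP : P.Monic)
    (h1 : ∀ Q : k[X][X], Q.eval₂ (Polynomial.aeval f : k[X] →ₐ[k] K) θ = 0 ↔ P ∣ Q)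
    (h2 : (Polynomial.derivative P).eval₂ (Polynomial.aeval f : k[X] →ₐ[k] K) θ ≠ 0)
    (h3 : ∀ b : K, ∃ (Q : k[X][X]) (c : k[X]), c ≠ 0 ∧
      Polynomial.aeval f c * b = Q.eval₂ (Polynomial.aeval f : k[X] →ₐ[k] K) θ) :
    ∃ (K' : Type u) (_ : CommRing K') (_ : Algebra A K') (red : K' →+* K) (f' : K'),
      KL π red f f' := by
  classical
  have hπ1 : Surjective (Polynomial.mapRingHom π) := Polynomial.map_surjective π hπ
  have hπ2 := Polynomial.map_surjective _ hπ1
  obtain ⟨P', hP', -, hm⟩ := Polynomial.lifts_and_natDegree_eq_and_monic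
    ((Polynomial.mem_lifts P).2 (hπ2 P)) hP
  obtain ⟨K', _, _, ψ, θ', H⟩ :=
    GKl_model P' hm ((nonZeroDivisors k[X]).comap (Polynomial.mapRingHom π))
  obtain ⟨γ, hγ⟩ : ∃ γ : A[X] →+* K, γ =
    ((Polynomial.aeval f : k[X] →ₐ[k] K) : k[X] →+* K).comp (Polynomial.mapRingHom π) := ⟨_, rfl⟩
  have hγ1 : ∀ Q : A[X][X], Q.eval₂ γ θ = (Q.map (Polynomial.mapRingHom π)).eval₂
      (Polynomial.aeval f : k[X] →ₐ[k] K) θ := fun Q => by rw [Polynomial.eval₂_map, hγ]
  have hγ2 : ∀ c, γ c = Polynomial.aeval f (c.map π) := fun c => by rw [hγ]; rfl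
  have hγC : ∀ a, γ (Polynomial.C a) = algebraMap k K (π a) := fun a => by
    rw [hγ2, Polynomial.map_C, Polynomial.aeval_C]
  have hγX : γ Polynomial.X = f := by rw [hγ2, Polynomial.map_X, Polynomial.aeval_X]
  have hγN : ∀ c ∈ (nonZeroDivisors k[X]).comap (Polynomial.mapRingHom π), γ c ≠ 0 :=
    fun c hc e => nonZeroDivisors.ne_zero hc
      ((transcendental_iff.1 hf) _ (by rw [← e, hγ2]; rfl))
  have hroot : P'.eval₂ γ θ = 0 := by rw [hγ1, hP']; exact (h1 P).2 dvd_rfl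
  have hD : (Polynomial.derivative P').eval₂ γ θ ≠ 0 := by
    rw [hγ1, ← Polynomial.derivative_map, hP']
    exact h2
  obtain ⟨red, hr1, hr2⟩ := H.lift K γ θ hroot fun c hc => (hγN c hc).isUnit
  have hrψ : ∀ c, red (ψ c) = γ c := fun c => RingHom.congr_fun hr1 c
  have hrev : ∀ (Q : A[X][X]) t, red (Q.eval₂ ψ t) = Q.eval₂ γ (red t) := fun Q t => by
    rw [Polynomial.hom_eval₂, hr1]
  have halg : ∀ a, red (algebraMap A K' a) = algebraMap k K (π a) := fun a => by
    rw [← H.alg, hrψ, hγC]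
  have hsurj : Surjective red := fun b => by
    obtain ⟨Q, c, hc, h⟩ := h3 b
    obtain ⟨Q', rfl⟩ := hπ2 Q
    obtain ⟨c', rfl⟩ := hπ1 c
    have hc' : c' ∈ (nonZeroDivisors k[X]).comap (Polynomial.mapRingHom π) :=
      mem_nonZeroDivisors_of_ne_zero hc
    obtain ⟨u, hu⟩ := (H.unit c' hc').exists_right_inv
    refine ⟨u * Q'.eval₂ ψ θ', mul_left_cancel₀ (hγN c' hc') ?_⟩
    rw [← hrψ, ← map_mul, ← mul_assoc, hu, one_mul, hrev, hr2, hrψ, hγ1, hγ2]
    exact h.symm
  have hker : ∀ b, red b = 0 → b ∈ (maximalIdeal A).map (algebraMap A K') := fun b hb => by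
    obtain ⟨Q, c, hc, h⟩ := H.gen b
    have h4 : Q.eval₂ γ θ = 0 := by rw [← hr2, ← hrev, ← h, map_mul, hb, mul_zero]
    rw [hγ1] at h4
    obtain ⟨G, hG⟩ := (h1 _).1 h4
    obtain ⟨G', rfl⟩ := hπ2 G
    have h5 := GKl_ker π hπ H.alg θ' (Q := Q - P' * G')
      (by rw [Polynomial.map_sub, Polynomial.map_mul, hP', hG, sub_self])
    rw [Polynomial.eval₂_sub, Polynomial.eval₂_mul, H.root, zero_mul, sub_zero, ← h] at h5
    exact (Ideal.unit_mul_mem_iff_mem _ (H.unit c hc)).1 h5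
  have hnil : ∀ b, red b = 0 → IsNilpotent b := fun b hb => GKl_nil (hker b hb)
  have hu : IsUnit ((Polynomial.derivative P').eval₂ ψ θ') := by
    obtain ⟨s, hs⟩ := hsurj ((Polynomial.derivative P').eval₂ γ θ)⁻¹
    exact GKl_unit red hnil (s := s) (by rw [hrev, hr2, hs, mul_inv_cancel₀ hD])
  refine ⟨K', inferInstance, inferInstance, red, ψ Polynomial.X, H.flat, hsurj,
    le_antisymm hker (Ideal.map_le_iff_le_comap.2 fun a ha => ?_), halg, by rw [hrψ, hγX],
    fun L' L _ _ _ r hr hn j hj F hF => ?_, fun L' L _ _ _ r hn e₁ e₂ he hf' => ?_, fun b => ?_⟩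
  · rw [← ker_eq_maximalIdeal π hπ, RingHom.mem_ker] at ha
    rw [Ideal.mem_comap, RingHom.mem_ker, halg, ha, map_zero]
  · obtain ⟨χ, hχC, hχX⟩ : ∃ χ : A[X] →+* L', (∀ a, χ (Polynomial.C a) = algebraMap A L' a) ∧
        χ Polynomial.X = F :=
      ⟨(Polynomial.aeval F : A[X] →ₐ[A] L'), Polynomial.aeval_C F, Polynomial.aeval_X F⟩
    have hc : r.comp χ = j.comp γ := Polynomial.ringHom_ext
      (fun a => by rw [RingHom.comp_apply, RingHom.comp_apply, hχC, hγC, hj])
      (by rw [RingHom.comp_apply, RingHom.comp_apply, hχX, hγX, hF])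
    have hun : ∀ (x : L') (y : K), y ≠ 0 → r x = j y → IsUnit x := fun x y hy e => by
      obtain ⟨s, hs⟩ := hr (j y⁻¹)
      exact GKl_unit r hn (s := s) (by rw [e, hs, ← map_mul, mul_inv_cancel₀ hy, map_one])
    obtain ⟨t, ht⟩ := hr (j θ)
    have hev : ∀ Q : A[X][X], r (Q.eval₂ χ t) = j (Q.eval₂ γ θ) := fun Q => by
      rw [Polynomial.hom_eval₂, Polynomial.hom_eval₂, hc, ht]
    obtain ⟨t', ⟨h4, h5⟩, -⟩ := GKl_root χ P' t (hn _ (by rw [hev, hroot, map_zero]))
      (hun _ _ hD (hev _))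
    have h6 : j θ = r t' := GKl_root_eq (j.comp γ) P'
      (by rw [← Polynomial.hom_eval₂, hroot, map_zero])
      (by rw [← hc, ← Polynomial.hom_eval₂, h5, map_zero])
      (by rw [← ht, ← map_sub]; exact h4.map r)
      (by rw [← Polynomial.hom_eval₂]; exact hD.isUnit.map j)
    obtain ⟨e, he1, he2⟩ := H.lift L' χ t' h5 fun c hc' =>
      hun _ _ (hγN c hc') (RingHom.congr_fun hc c)
    have he3 : ∀ c, e (ψ c) = χ c := fun c => RingHom.congr_fun he1 c
    have h7 : r.comp e = j.comp red := H.ext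
      (by rw [RingHom.comp_assoc, RingHom.comp_assoc, he1, hr1, hc])
      (by rw [RingHom.comp_apply, RingHom.comp_apply, he2, hr2, h6])
    exact ⟨{ e with commutes' := fun a => (congrArg e (H.alg a).symm).trans ((he3 _).trans (hχC a)) },
      fun b => RingHom.congr_fun h7 b, (he3 _).trans hχX⟩
  · have hc : (e₁ : K' →+* L').comp ψ = (e₂ : K' →+* L').comp ψ := Polynomial.ringHom_ext
      (fun a => by
        rw [RingHom.comp_apply, RingHom.comp_apply, H.alg]
        exact (e₁.commutes a).trans (e₂.commutes a).symm) hf'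
    have h4 : (e₁ : K' →+* L') θ' = (e₂ : K' →+* L') θ' :=
      GKl_root_eq ((e₁ : K' →+* L').comp ψ) P'
        (by rw [← Polynomial.hom_eval₂, H.root, map_zero])
        (by rw [hc, ← Polynomial.hom_eval₂, H.root, map_zero])
        (hn _ (by rw [map_sub]; exact sub_eq_zero.2 (he θ')))
        (by rw [← Polynomial.hom_eval₂]; exact hu.map _)
    exact AlgHom.coe_ringHom_injective (H.ext hc h4)
  · obtain ⟨Q, c, hc, h⟩ := H.gen b
    refine ⟨{θ, ((Polynomial.derivative P').eval₂ γ θ)⁻¹, (γ c)⁻¹}, fun S hS hZ => ?_⟩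
    obtain ⟨s₁, hs₁, e₁⟩ := hZ θ (by simp)
    obtain ⟨s₂, hs₂, e₂⟩ := hZ ((Polynomial.derivative P').eval₂ γ θ)⁻¹ (by simp)
    obtain ⟨s₃, hs₃, e₃⟩ := hZ (γ c)⁻¹ (by simp)
    obtain ⟨ι, hι, hιi⟩ : ∃ ι : S →+* K', (∀ x, ι x = x) ∧ Injective ι :=
      ⟨S.val, fun _ => rfl, Subtype.val_injective⟩
    obtain ⟨χ, hχ⟩ : ∃ χ : A[X] →+* S, ι.comp χ = ψ :=
      ⟨(Polynomial.aeval (⟨_, hS⟩ : S) : A[X] →ₐ[A] S), Polynomial.ringHom_ext
        (fun a => by
          rw [RingHom.comp_apply, hι, H.alg, RingHom.coe_coe, Polynomial.aeval_C]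
          rfl)
        (by rw [RingHom.comp_apply, hι, RingHom.coe_coe, Polynomial.aeval_X])⟩
    have hn : ∀ a, (red.comp ι) a = 0 → IsNilpotent a := fun a ha =>
      (IsNilpotent.map_iff hιi).1 (hnil _ ha)
    have hev : ∀ (G : A[X][X]) t, ι (G.eval₂ χ t) = G.eval₂ ψ (ι t) := fun G t => by
      rw [Polynomial.hom_eval₂, hχ]
    have hev' : ∀ G : A[X][X], (red.comp ι) (G.eval₂ χ ⟨s₁, hs₁⟩) = G.eval₂ γ θ := fun G => by
      rw [RingHom.comp_apply, hev, hrev, hι, e₁]
    obtain ⟨t, ⟨h4, h5⟩, -⟩ := GKl_root χ P' ⟨s₁, hs₁⟩ (hn _ (by rw [hev', hroot]))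
      (GKl_unit _ hn (s := ⟨s₂, hs₂⟩)
        (by rw [hev', RingHom.comp_apply, hι, e₂, mul_inv_cancel₀ hD]))
    have h6 : θ' = ι t := by
      refine GKl_root_eq ψ P' H.root (by rw [← hev, h5, map_zero]) ?_ hu
      have h7 := h4.map ι
      rw [map_sub, hι] at h7
      have h8 := hnil (θ' - s₁) (by rw [map_sub, hr2, e₁, sub_self])
      have h9 := (Commute.all _ _).isNilpotent_add h8 h7
      rwa [sub_add_sub_cancel] at h9
    have h7 : ι (χ c) = ψ c := RingHom.congr_fun hχ c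
    obtain ⟨u, hu'⟩ := (GKl_unit _ hn (x := χ c) (s := ⟨s₃, hs₃⟩) (by
      rw [RingHom.comp_apply, RingHom.comp_apply, h7, hrψ, hι, e₃,
        mul_inv_cancel₀ (hγN c hc)])).exists_left_inv
    have h8 : b = ι (u * Q.eval₂ χ t) := by
      rw [map_mul, hev, ← h6, ← h, ← h7, ← mul_assoc, ← map_mul, hu', map_one, one_mul]
    rw [h8, hι]
    exact Subtype.property _

end Pool.Agent.MP_deef5c_ag.O

end

section

/-! Flat lifts of smooth algebras and of localisations. -/

open CategoryTheory AlgebraicGeometry IsLocalRing Function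
open scoped Polynomial PowerSeries

namespace Pool.Agent.MP_deef5c_ag.O

universe u

variable {k A : Type u} [Field k] [CommRing A] [IsLocalRing A] [IsArtinianRing A]

theorem GAlg_nil : IsNilpotent (maximalIdeal A) := by
  rw [← jacobson_eq_maximalIdeal (⊥ : Ideal A) bot_ne_top]
  exact IsArtinianRing.isNilpotent_jacobson_bot

theorem GAlg_nak {M : Type u} [AddCommGroup M] [Module A M] (N : Submodule A M)
    (h : ⊤ ≤ N ⊔ maximalIdeal A • (⊤ : Submodule A M)) : N = ⊤ := by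
  have h1 : ∀ n : ℕ, ⊤ ≤ N ⊔ maximalIdeal A ^ n • (⊤ : Submodule A M) := by
    intro n
    induction n with
    | zero =>
      rw [pow_zero, Ideal.one_eq_top, Submodule.top_smul]
      exact le_sup_right
    | succ n ih =>
      refine h.trans (sup_le le_sup_left ((Submodule.smul_mono le_rfl ih).trans ?_))
      rw [Submodule.smul_sup, pow_succ', Submodule.mul_smul]
      exact sup_le_sup_right Submodule.smul_le_right _
  obtain ⟨n, hn⟩ := GAlg_nil (A := A)
  have h2 := h1 n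
  rwa [hn, Submodule.zero_eq_bot, Submodule.bot_smul, sup_bot_eq, top_le_iff] at h2

omit [IsArtinianRing A] in
theorem GAlg_mem {B : Type u} [CommRing B] [Algebra A B] {x : B}
    (h : x ∈ (maximalIdeal A).map (algebraMap A B)) :
    x ∈ maximalIdeal A • (⊤ : Submodule A B) := by
  rw [Ideal.smul_top_eq_map]
  exact h

theorem GAlg_unit {B C : Type u} [CommRing B] [CommRing C] [Algebra A B] (r : B →+* C)
    (hr : Surjective r) (hk : RingHom.ker r = (maximalIdeal A).map (algebraMap A B)) {x : B}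
    (hx : IsUnit (r x)) : IsUnit x := by
  obtain ⟨y, hy⟩ := hx.exists_right_inv
  obtain ⟨y, rfl⟩ := hr y
  have h1 : x * y - 1 ∈ (maximalIdeal A).map (algebraMap A B) := by
    rw [← hk, RingHom.mem_ker, map_sub, map_mul, hy, map_one, sub_self]
  obtain ⟨n, hn⟩ := GAlg_nil (A := A)
  have h2 := Ideal.pow_mem_pow h1 n
  rw [← Ideal.map_pow, hn, Ideal.zero_eq_bot, Ideal.map_bot, Ideal.mem_bot] at h2
  have h3 := IsNilpotent.isUnit_add_one ⟨n, h2⟩
  rw [sub_add_cancel] at h3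
  exact isUnit_of_mul_isUnit_left h3

/-- a map to a flat module that is bijective modulo the maximal ideal is bijective -/
theorem GAlg_bij {L P : Type u} [AddCommGroup L] [Module A L] [AddCommGroup P] [Module A P]
    [Module.Flat A P] (f : L →ₗ[A] P)
    (hs : ∀ z, ∃ x, z - f x ∈ maximalIdeal A • (⊤ : Submodule A P))
    (hi : ∀ x, f x = 0 → x ∈ maximalIdeal A • (⊤ : Submodule A L)) : Bijective f := by
  have h1 : Surjective f := by
    rw [← LinearMap.range_eq_top]
    refine GAlg_nak _ fun z _ => ?_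
    obtain ⟨x, hx⟩ := hs z
    have := Submodule.add_mem_sup (LinearMap.mem_range_self f x) hx
    rwa [add_sub_cancel] at this
  refine ⟨?_, h1⟩
  have h2 := LinearMap.lTensor_injective_of_exact_of_flat f h1 _
    (LinearMap.ker f).subtype_injective (LinearMap.exact_subtype_ker_map f) (A ⧸ maximalIdeal A)
  have h3 : (⊥ : Submodule A (LinearMap.ker f)) = ⊤ := by
    refine GAlg_nak _ fun x _ => Submodule.mem_sup_right ?_
    have h4 := hi x.1 x.2
    rw [← LinearMap.ker_tensorProductMk, LinearMap.mem_ker] at h4 ⊢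
    apply h2
    rw [map_zero]
    exact h4
  rw [← LinearMap.ker_eq_bot, eq_bot_iff]
  intro x hx
  have h5 : (⟨x, hx⟩ : LinearMap.ker f) ∈ (⊥ : Submodule A (LinearMap.ker f)) := by
    rw [h3]
    exact Submodule.mem_top
  exact congrArg Subtype.val ((Submodule.mem_bot A).1 h5)

omit [IsArtinianRing A] in
theorem GAlg_pushout (π : A →+* k) (hπ : Surjective π) {R' R : Type u} [CommRing R'] [CommRing R]
    (a : A →+* R') (b : k →+* R) (r : R' →+* R) (hr : Surjective r)
    (hk : RingHom.ker r = (maximalIdeal A).map a) (hc : ∀ x, r (a x) = b (π x)) :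
    IsPushout (CommRingCat.ofHom a) (CommRingCat.ofHom π) (CommRingCat.ofHom r)
      (CommRingCat.ofHom b) := by
  have w : CommRingCat.ofHom a ≫ CommRingCat.ofHom r =
      CommRingCat.ofHom π ≫ CommRingCat.ofHom b := CommRingCat.hom_ext (RingHom.ext hc)
  have hw : ∀ (s : Limits.PushoutCocone (CommRingCat.ofHom a) (CommRingCat.ofHom π)) (x : A),
      s.inl.hom (a x) = s.inr.hom (π x) := fun s x =>
    congrArg (fun f : CommRingCat.of A ⟶ s.pt => f.hom x) s.condition
  have hs : ∀ s : Limits.PushoutCocone (CommRingCat.ofHom a) (CommRingCat.ofHom π),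
      RingHom.ker r ≤ RingHom.ker s.inl.hom := by
    intro s
    rw [hk, Ideal.map_le_iff_le_comap]
    intro x hx
    rw [← ker_eq_maximalIdeal π hπ, RingHom.mem_ker] at hx
    rw [Ideal.mem_comap, RingHom.mem_ker, hw, hx, map_zero]
  refine ⟨⟨w⟩, ⟨Limits.PushoutCocone.IsColimit.mk w
    (fun s => CommRingCat.ofHom (r.liftOfSurjective hr ⟨s.inl.hom, hs s⟩)) (fun s => ?_)
    (fun s => ?_) fun s m h1 _ => ?_⟩⟩
  · exact CommRingCat.hom_ext (r.liftOfSurjective_comp hr ⟨s.inl.hom, hs s⟩)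
  · refine CommRingCat.hom_ext (RingHom.ext fun c => ?_)
    obtain ⟨x, rfl⟩ := hπ c
    change r.liftOfSurjective hr ⟨s.inl.hom, hs s⟩ (b (π x)) = s.inr.hom (π x)
    rw [← hc, r.liftOfSurjective_comp_apply hr ⟨s.inl.hom, hs s⟩, ← hw]
  · exact CommRingCat.hom_ext (r.eq_liftOfSurjective hr _ (hs s) m.hom
      (congrArg CommRingCat.Hom.hom h1))

theorem GAlg_ft (π : A →+* k) (hπ : Surjective π) {R' R : Type u} [CommRing R'] [Algebra A R']
    [CommRing R] [Algebra k R] [Algebra.FiniteType k R] (r : R' →+* R)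
    (hr : Surjective r) (hk : RingHom.ker r = (maximalIdeal A).map (algebraMap A R'))
    (ha : ∀ a, r (algebraMap A R' a) = algebraMap k R (π a)) : Algebra.FiniteType A R' := by
  classical
  obtain ⟨s, hs⟩ := Algebra.FiniteType.out (R := k) (A := R)
  choose g hg using hr
  refine ⟨s.image g, ?_⟩
  have h1 : ∀ y ∈ Algebra.adjoin k (s : Set R),
      ∃ x ∈ Algebra.adjoin A (s.image g : Set R'), r x = y := by
    intro y hy
    induction hy using Algebra.adjoin_induction with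
    | mem y hy =>
      exact ⟨g y, Algebra.subset_adjoin (Finset.mem_coe.2 (Finset.mem_image_of_mem g hy)), hg y⟩
    | algebraMap c =>
      obtain ⟨c, rfl⟩ := hπ c
      exact ⟨_, Subalgebra.algebraMap_mem _ c, ha c⟩
    | add _ _ _ _ h1 h2 =>
      obtain ⟨x, hx, rfl⟩ := h1
      obtain ⟨y, hy, rfl⟩ := h2
      exact ⟨x + y, add_mem hx hy, map_add r x y⟩
    | mul _ _ _ _ h1 h2 =>
      obtain ⟨x, hx, rfl⟩ := h1
      obtain ⟨y, hy, rfl⟩ := h2
      exact ⟨x * y, mul_mem hx hy, map_mul r x y⟩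
  have h2 : Subalgebra.toSubmodule (Algebra.adjoin A (s.image g : Set R')) = ⊤ := by
    refine GAlg_nak _ fun z _ => ?_
    obtain ⟨x, hx, e⟩ := h1 (r z) (by rw [hs]; exact Algebra.mem_top)
    have h3 : z - x ∈ (maximalIdeal A).map (algebraMap A R') := by
      rw [← hk, RingHom.mem_ker, map_sub, e, sub_self]
    have := Submodule.add_mem_sup
      (S := Subalgebra.toSubmodule (Algebra.adjoin A (s.image g : Set R'))) hx (GAlg_mem h3)
    rwa [add_sub_cancel] at this
  exact Algebra.toSubmodule_eq_top.1 h2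

/-- `R'` is of finite type over `A` (lift generators, the maximal ideal of `A` is nilpotent), hence of
finite presentation; its only fibre is `R`; `Algebra.Smooth.of_formallySmooth_fiber`. -/
theorem smooth_of_flat (π : A →+* k) (hπ : Surjective π) {R' R : Type u} [CommRing R'] [Algebra A R']
    [Module.Flat A R'] [CommRing R] [Algebra k R] [Algebra.Smooth k R] (r : R' →+* R)
    (hr : Surjective r) (hk : RingHom.ker r = (maximalIdeal A).map (algebraMap A R'))
    (ha : ∀ a, r (algebraMap A R' a) = algebraMap k R (π a)) : Algebra.Smooth A R' := by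
  have := GAlg_ft π hπ r hr hk ha
  have : Algebra.FinitePresentation A R' := Algebra.FinitePresentation.of_finiteType.1 this
  let _ : Algebra A k := π.toAlgebra
  let _ : Algebra R' R := r.toAlgebra
  let _ : Algebra A R := ((algebraMap k R).comp π).toAlgebra
  have : IsScalarTower A k R := .of_algebraMap_eq' rfl
  have : IsScalarTower A R' R := .of_algebraMap_eq fun a => (ha a).symm
  have : Algebra.IsPushout A k R' R := (CommRingCat.isPushout_iff_isPushout.1
    (GAlg_pushout π hπ (algebraMap A R') (algebraMap k R) r hr hk ha)).symm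
  have : Algebra.FormallySmooth k (TensorProduct A k R') :=
    .of_equiv (Algebra.IsPushout.equiv A k R' R).symm
  refine Algebra.Smooth.of_formallySmooth_fiber fun I _ => ?_
  have hI : RingHom.ker π ≤ RingHom.ker (algebraMap A I.ResidueField) := by
    rw [ker_eq_maximalIdeal π hπ, Ideal.ker_algebraMap_residueField,
      eq_maximalIdeal (IsArtinianRing.isMaximal_of_isPrime I)]
  let _ : Algebra k I.ResidueField := (π.liftOfSurjective hπ ⟨_, hI⟩).toAlgebra
  have : IsScalarTower A k I.ResidueField :=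
    .of_algebraMap_eq' (π.liftOfSurjective_comp hπ ⟨_, hI⟩).symm
  exact .of_equiv (Algebra.TensorProduct.cancelBaseChange A k I.ResidueField I.ResidueField R')

/-- The image of `h'` is a unit (nilpotent kernel).  The map `R₁'[1/h'] → R₂'` is bijective modulo the
maximal ideal `m` of `A`, so surjective (`m` nilpotent); its kernel `N` satisfies `N = m N` because `R₂'`
is flat (`LinearMap.lTensor_injective_of_exact_of_flat`), so `N = 0`. -/
theorem away_of_flat {R₁' R₂' R₁ R₂ : Type u} [CommRing R₁'] [CommRing R₂'] [CommRing R₁]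
    [CommRing R₂] [Algebra A R₁'] [Algebra A R₂'] [Module.Flat A R₂'] (φ' : R₁' →ₐ[A] R₂')
    (φ : R₁ →+* R₂) (r₁ : R₁' →+* R₁) (r₂ : R₂' →+* R₂) (h₁ : Surjective r₁) (h₂ : Surjective r₂)
    (hk₁ : RingHom.ker r₁ = (maximalIdeal A).map (algebraMap A R₁'))
    (hk₂ : RingHom.ker r₂ = (maximalIdeal A).map (algebraMap A R₂'))
    (hc : ∀ s, r₂ (φ' s) = φ (r₁ s)) (h' : R₁')
    (hφ : letI := φ.toAlgebra; IsLocalization.Away (r₁ h') R₂) :
    letI := (φ' : R₁' →+* R₂').toAlgebra; IsLocalization.Away h' R₂' := by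
  let _ := φ.toAlgebra
  let _ := (φ' : R₁' →+* R₂').toAlgebra
  have : IsScalarTower A R₁' R₂' := .of_algebraMap_eq fun a => (φ'.commutes a).symm
  have hu : IsUnit (Algebra.ofId R₁' R₂' h') := by
    refine GAlg_unit r₂ h₂ hk₂ ?_
    exact (hc h').symm ▸ IsLocalization.Away.algebraMap_isUnit (S := R₂) (r₁ h')
  let ψ : Localization.Away h' →ₐ[R₁'] R₂' := IsLocalization.Away.liftAlgHom h' hu
  have hψ : ∀ a, ψ (algebraMap R₁' _ a) = φ' a := ψ.commutes
  have hb : Bijective (ψ.restrictScalars A).toLinearMap := by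
    refine GAlg_bij _ (fun z => ?_) fun x hx => ?_
    · obtain ⟨n, a, e⟩ := IsLocalization.Away.surj (r₁ h') (r₂ z)
      obtain ⟨a, rfl⟩ := h₁ a
      obtain ⟨v, hv⟩ := (IsLocalization.Away.algebraMap_pow_isUnit
        (S := Localization.Away h') h' n).exists_right_inv
      refine ⟨algebraMap R₁' _ a * v, GAlg_mem ?_⟩
      have e1 : z * φ' h' ^ n - φ' a ∈ (maximalIdeal A).map (algebraMap A R₂') := by
        rw [← hk₂, RingHom.mem_ker, map_sub, map_mul, map_pow, hc, hc, sub_eq_zero]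
        exact e
      have e2 := congrArg ψ hv
      rw [map_mul, map_pow, hψ, map_one] at e2
      have e3 := Ideal.mul_mem_right (ψ v) _ e1
      rw [sub_mul, mul_assoc, e2, mul_one, ← hψ, ← map_mul] at e3
      exact e3
    · obtain ⟨n, a, e⟩ := IsLocalization.Away.surj h' x
      have e1 : φ' a = 0 := by
        have hx' : ψ x = 0 := hx
        rw [← hψ, ← e, map_mul, hx', zero_mul]
      have e2 : algebraMap R₁ R₂ (r₁ a) = algebraMap R₁ R₂ 0 := by
        rw [map_zero]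
        exact (hc a).symm.trans (by rw [e1, map_zero])
      obtain ⟨j, hj⟩ := IsLocalization.Away.exists_of_eq (r₁ h') e2
      have e3 : h' ^ j * a ∈ (maximalIdeal A).map (algebraMap A R₁') := by
        rw [← hk₁, RingHom.mem_ker, map_mul, map_pow, hj, mul_zero]
      have e4 := Ideal.mem_map_of_mem (algebraMap R₁' (Localization.Away h')) e3
      rw [Ideal.map_map, ← IsScalarTower.algebraMap_eq, map_mul, map_pow, ← e,
        Ideal.unit_mul_mem_iff_mem _ (IsLocalization.Away.algebraMap_pow_isUnit h' j),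
        Ideal.mul_unit_mem_iff_mem _ (IsLocalization.Away.algebraMap_pow_isUnit h' n)] at e4
      exact GAlg_mem e4
  exact IsLocalization.isLocalization_of_algEquiv _ (AlgEquiv.ofBijective ψ hb)

/-- `R = R' ⊗_A k` -/
theorem pushout_of_ker (π : A →+* k) (hπ : Surjective π) {R' R : Type u} [CommRing R'] [CommRing R]
    (a : A →+* R') (b : k →+* R) (r : R' →+* R) (hr : Surjective r)
    (hk : RingHom.ker r = (maximalIdeal A).map a) (hc : ∀ x, r (a x) = b (π x)) :
    IsPushout (CommRingCat.ofHom a) (CommRingCat.ofHom π) (CommRingCat.ofHom r)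
      (CommRingCat.ofHom b) :=
  GAlg_pushout π hπ a b r hr hk hc

end Pool.Agent.MP_deef5c_ag.O

end

section

/-! Gluing schemes indexed by the affine opens of a scheme, with a group action. -/

open CategoryTheory AlgebraicGeometry Limits Function

namespace Pool.Agent.MP_deef5c_ag.O

universe u

/-- thickenings of the affine opens of `X` over `Y`, compatible with the action -/
structure GlueD {X : Scheme.{u}} {G : Type*} [Group G] (ρ : G →* Aut X) (Y : Scheme.{u}) where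
  S : X.AffineZariskiSite → Scheme.{u}
  t : ∀ (g : G) (U V : X.AffineZariskiSite), V.1 ≤ (ρ g).hom ⁻¹ᵁ U.1 → (S V ⟶ S U)
  r : ∀ U : X.AffineZariskiSite, Spec Γ(X, U.1) ⟶ S U
  a : ∀ U, S U ⟶ Y
  t1 : ∀ U h, t 1 U U h = 𝟙 _
  tc : ∀ g g' U V W h h' h'', t g' V W h' ≫ t g U V h = t (g * g') U W h''
  tr : ∀ g U V h, r V ≫ t g U V h = Spec.map ((ρ g).hom.appLE U.1 V.1 h) ≫ r U
  ta : ∀ g U V h, t g U V h ≫ a U = a V
  op : ∀ U V h, V ≤ U → IsOpenImmersion (t 1 U V h)
  bij : ∀ U, Bijective (r U)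

variable {X Y : Scheme.{u}} {G : Type*} [Group G] {ρ : G →* Aut X}

theorem GlueOne (ρ : G →* Aut X) : (ρ 1).hom = 𝟙 X := by
  rw [map_one]
  rfl

theorem GlueMul (ρ : G →* Aut X) (g g' : G) : (ρ (g * g')).hom = (ρ g').hom ≫ (ρ g).hom := by
  rw [map_mul]
  rfl

theorem GlueLe (ρ : G →* Aut X) {U V : X.Opens} (h : V ≤ U) : V ≤ (ρ 1).hom ⁻¹ᵁ U := by
  rw [GlueOne]
  exact h

theorem GlueApp (e : X ⟶ X) (he : e = 𝟙 X) {U V : X.Opens} (h : V ≤ e ⁻¹ᵁ U) (i : V ⟶ U) :
    e.appLE U V h = X.presheaf.map i.op := by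
  subst he
  simp only [Scheme.Hom.appLE, Scheme.Hom.id_app]
  rfl

/-- the translate of an affine open -/
def GlueAct (ρ : G →* Aut X) (g : G) (V : X.AffineZariskiSite) : X.AffineZariskiSite :=
  ⟨(ρ g⁻¹).hom ⁻¹ᵁ V.1,
    haveI : IsIso (ρ g⁻¹).hom := Iso.isIso_hom (ρ g⁻¹)
    V.2.preimage_of_isIso _⟩

theorem GlueAct_le (ρ : G →* Aut X) (g : G) (V : X.AffineZariskiSite) :
    V.1 ≤ (ρ g).hom ⁻¹ᵁ (GlueAct ρ g V).1 := by
  change V.1 ≤ ((ρ g).hom ≫ (ρ g⁻¹).hom) ⁻¹ᵁ V.1
  rw [← GlueMul, inv_mul_cancel]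
  exact GlueLe ρ le_rfl

theorem GlueAct_mono (ρ : G →* Aut X) (g : G) {U V : X.AffineZariskiSite} (h : U ≤ V) :
    GlueAct ρ g U ≤ GlueAct ρ g V := by
  obtain ⟨s, hs⟩ := h
  refine ⟨(ρ g⁻¹).hom.app V.1 s, ?_⟩
  change X.basicOpen ((ρ g⁻¹).hom.app V.1 s) = (ρ g⁻¹).hom ⁻¹ᵁ U.1
  rw [← Scheme.preimage_basicOpen]
  exact congrArg (fun W => (ρ g⁻¹).hom ⁻¹ᵁ W) hs

theorem GlueAct_one (ρ : G →* Aut X) (V : X.AffineZariskiSite) : GlueAct ρ 1 V = V := by
  refine Subtype.ext ?_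
  change (ρ 1⁻¹).hom ⁻¹ᵁ V.1 = V.1
  rw [inv_one, GlueOne]
  rfl

theorem GlueAct_mul (ρ : G →* Aut X) (g g' : G) (V : X.AffineZariskiSite) :
    GlueAct ρ (g * g') V = GlueAct ρ g (GlueAct ρ g' V) := by
  refine Subtype.ext ?_
  change (ρ (g * g')⁻¹).hom ⁻¹ᵁ V.1 = ((ρ g⁻¹).hom ≫ (ρ g'⁻¹).hom) ⁻¹ᵁ V.1
  rw [mul_inv_rev, GlueMul]

namespace GlueD

variable (D : GlueD ρ Y)

theorem tc1 (g U V W h h' h'') : D.t 1 V W h' ≫ D.t g U V h = D.t g U W h'' := by
  have : ∀ g₀, g₀ = g → ∀ h₀, D.t g₀ U W h₀ = D.t g U W h'' := by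
    rintro _ rfl _
    rfl
  exact (D.tc g 1 U V W h h' (by rw [mul_one]; exact h'')).trans (this _ (mul_one g) _)

theorem tc2 (g U V W h h' h'') : D.t g V W h' ≫ D.t 1 U V h = D.t g U W h'' := by
  have : ∀ g₀, g₀ = g → ∀ h₀, D.t g₀ U W h₀ = D.t g U W h'' := by
    rintro _ rfl _
    rfl
  exact (D.tc 1 g U V W h h' (by rw [one_mul]; exact h'')).trans (this _ (one_mul g) _)

/-- the diagram of thickenings -/
def F : X.AffineZariskiSite ⥤ Scheme.{u} where
  obj := D.S
  map {U V} i := D.t 1 V U (GlueLe ρ (Scheme.AffineZariskiSite.toOpens_mono i.le))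
  map_id U := D.t1 U _
  map_comp _ _ := (D.tc1 1 _ _ _ _ _ _).symm

instance {U V : X.AffineZariskiSite} (i : U ⟶ V) : IsOpenImmersion (D.F.map i) :=
  D.op V U _ i.le

theorem pt {U V : X.AffineZariskiSite} (i : V ⟶ U) (y : Spec Γ(X, V.1)) (y' : Spec Γ(X, U.1)) :
    D.F.map i (D.r V y) = D.r U y' ↔ V.2.fromSpec y = U.2.fromSpec y' := by
  have h := GlueLe ρ (Scheme.AffineZariskiSite.toOpens_mono i.le)
  have h1 : D.F.map i (D.r V y) = D.r U (Spec.map ((ρ 1).hom.appLE U.1 V.1 h) y) :=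
    congrArg (fun φ : Spec Γ(X, V.1) ⟶ D.S U => φ y) (D.tr 1 U V h)
  have h2 : U.2.fromSpec (Spec.map ((ρ 1).hom.appLE U.1 V.1 h) y) = V.2.fromSpec y := by
    rw [← Scheme.Hom.comp_apply, IsAffineOpen.SpecMap_appLE_fromSpec _ U.2 V.2,
      Scheme.Hom.comp_apply, GlueOne]
    rfl
  rw [h1, ← h2]
  exact (D.bij U).1.eq_iff.trans U.2.fromSpec.isOpenEmbedding.injective.eq_iff.symm

instance : (D.F ⋙ Scheme.forget).IsLocallyDirected where
  cond {i j k} fi fj xi xj heq := by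
    obtain ⟨yi, rfl⟩ := (D.bij i).2 xi
    obtain ⟨yj, rfl⟩ := (D.bij j).2 xj
    change D.F.map fi (D.r i yi) = D.F.map fj (D.r j yj) at heq
    obtain ⟨yk, hk⟩ := (D.bij k).2 (D.F.map fj (D.r j yj))
    have h1 := (D.pt fi yi yk).1 (heq.trans hk.symm)
    have h2 := (D.pt fj yj yk).1 hk.symm
    have hi : i.2.fromSpec yi ∈ i.1 := by
      rw [← SetLike.mem_coe, ← i.2.range_fromSpec]
      exact ⟨yi, rfl⟩
    have hj : i.2.fromSpec yi ∈ j.1 := by
      rw [← SetLike.mem_coe, ← j.2.range_fromSpec]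
      exact ⟨yj, h2.trans h1.symm⟩
    obtain ⟨s, s', e, hx⟩ := exists_basicOpen_le_affine_inter i.2 j.2 _ ⟨hi, hj⟩
    have hx' : i.2.fromSpec yi ∈ Set.range (i.basicOpen s).2.fromSpec := by
      rw [(i.basicOpen s).2.range_fromSpec]
      exact hx
    obtain ⟨z, hz⟩ := hx'
    have l1 : i.basicOpen s ≤ i := i.basicOpen_le s
    have l2 : i.basicOpen s ≤ j := ⟨s', e.symm⟩
    exact ⟨i.basicOpen s, homOfLE l1, homOfLE l2, D.r _ z, (D.pt _ z yi).2 hz,
      (D.pt _ z yj).2 (hz.trans (h1.trans h2.symm))⟩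

/-- the inclusion of a piece -/
noncomputable def j (U : X.AffineZariskiSite) : D.S U ⟶ colimit D.F := colimit.ι D.F U

instance (U : X.AffineZariskiSite) : IsOpenImmersion (D.j U) :=
  inferInstanceAs (IsOpenImmersion (colimit.ι D.F U))

theorem jw {U V : X.AffineZariskiSite} (i : U ≤ V) (h) : D.t 1 V U h ≫ D.j V = D.j U :=
  colimit.w D.F (homOfLE i)

theorem ext {Z : Scheme.{u}} {φ ψ : colimit D.F ⟶ Z} (h : ∀ U, D.j U ≫ φ = D.j U ≫ ψ) : φ = ψ :=
  colimit.hom_ext h

theorem desc {Z : Scheme.{u}} (φ : ∀ U, D.S U ⟶ Z)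
    (hφ : ∀ U V h, U ≤ V → D.t 1 V U h ≫ φ V = φ U) :
    ∃ Φ : colimit D.F ⟶ Z, ∀ U, D.j U ≫ Φ = φ U :=
  ⟨colimit.desc D.F ⟨Z, φ, fun U V i => (hφ U V _ i.le).trans (Category.comp_id _).symm⟩,
    fun U => colimit.ι_desc _ U⟩

theorem ex_f : ∃ f' : colimit D.F ⟶ Y, ∀ U, D.j U ≫ f' = D.a U :=
  D.desc D.a fun U V h _ => D.ta 1 V U h

theorem ex_phi (g : G) : ∃ φ : colimit D.F ⟶ colimit D.F,
    ∀ V W h, W = GlueAct ρ g V → D.j V ≫ φ = D.t g W V h ≫ D.j W := by
  obtain ⟨φ, hφ⟩ := D.desc (fun V => D.t g (GlueAct ρ g V) V (GlueAct_le ρ g V) ≫ D.j _)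
    fun U V h hUV => by
      have h1 := GlueAct_mono ρ g hUV
      have h2 : U.1 ≤ (ρ g).hom ⁻¹ᵁ (GlueAct ρ g V).1 :=
        (Scheme.AffineZariskiSite.toOpens_mono hUV).trans (GlueAct_le ρ g V)
      rw [← Category.assoc, D.tc1 g _ _ _ _ _ h2,
        ← D.jw h1 (GlueLe ρ (Scheme.AffineZariskiSite.toOpens_mono h1)), ← Category.assoc,
        D.tc2 g _ _ _ _ _ h2]
  refine ⟨φ, ?_⟩
  rintro V _ h rfl
  exact hφ V

theorem xext {Z : Scheme.{u}} {φ ψ : X ⟶ Z}
    (h : ∀ U : X.AffineZariskiSite, U.2.fromSpec ≫ φ = U.2.fromSpec ≫ ψ) : φ = ψ :=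
  (Scheme.AffineZariskiSite.isColimitCocone X).hom_ext h

theorem ex_iota : ∃ ι : X ⟶ colimit D.F, ∀ U : X.AffineZariskiSite,
    U.2.fromSpec ≫ ι = D.r U ≫ D.j U := by
  refine ⟨(Scheme.AffineZariskiSite.isColimitCocone X).desc
    ⟨colimit D.F, fun U => D.r U ≫ D.j U, fun U V i => ?_⟩, fun U =>
      (Scheme.AffineZariskiSite.isColimitCocone X).fac _ U⟩
  have h0 := Scheme.AffineZariskiSite.toOpens_mono i.le
  have h := GlueLe ρ h0
  change Spec.map (X.presheaf.map (homOfLE h0).op) ≫ D.r V ≫ D.j V = (D.r U ≫ D.j U) ≫ 𝟙 _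
  rw [Category.comp_id, ← D.jw i.le h, ← GlueApp _ (GlueOne ρ) h, ← Category.assoc, ← D.tr,
    Category.assoc]

theorem pre {ι : X ⟶ colimit D.F}
    (hι : ∀ U : X.AffineZariskiSite, U.2.fromSpec ≫ ι = D.r U ≫ D.j U)
    (U : X.AffineZariskiSite) : IsPullback (D.r U) U.2.fromSpec (D.j U) ι := by
  refine IsOpenImmersion.isPullback _ _ _ _ (hι U) ?_
  have hp : ∀ (V : X.AffineZariskiSite) y, ι (V.2.fromSpec y) = D.j V (D.r V y) := fun V y => by
    rw [← Scheme.Hom.comp_apply, hι, Scheme.Hom.comp_apply]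
  ext x
  constructor
  · rintro ⟨z, hz⟩
    obtain ⟨V, hxV⟩ := TopologicalSpace.Opens.mem_iSup.1
      ((iSup_affineOpens_eq_top X).ge (Set.mem_univ x))
    let V' : X.AffineZariskiSite := ⟨V.1, V.2⟩
    have hx' : x ∈ Set.range V'.2.fromSpec := by
      rw [V'.2.range_fromSpec]
      exact hxV
    obtain ⟨y, rfl⟩ := hx'
    obtain ⟨z, rfl⟩ := (D.bij U).2 z
    rw [hp] at hz
    obtain ⟨l, f1, f2, w, e1, e2⟩ := (Scheme.IsLocallyDirected.ι_eq_ι_iff D.F).1 hz
    obtain ⟨w, rfl⟩ := (D.bij l).2 w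
    exact ⟨z, ((D.pt f1 w z).1 e1).symm.trans ((D.pt f2 w y).1 e2)⟩
  · rintro ⟨y, rfl⟩
    exact ⟨D.r U y, (hp U y).symm⟩

end GlueD

theorem GlueAbs {Z : Scheme.{u}} (D : GlueD ρ Y) (f : X ⟶ Z) (p : Z ⟶ Y)
    (hp : ∀ U, IsPullback (D.r U) (U.2.fromSpec ≫ f) (D.a U) p) (hs : ∀ U, Smooth (D.a U)) :
    ∃ (X' : Scheme.{u}) (f' : X' ⟶ Y) (ι : X ⟶ X') (ρ' : G →* Aut X'),
      Smooth f' ∧ IsPullback ι f f' p ∧
        (∀ g, (ρ' g).hom ≫ f' = f') ∧ ∀ g, ι ≫ (ρ' g).hom = (ρ g).hom ≫ ι := by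
  obtain ⟨f', hf⟩ := D.ex_f
  obtain ⟨ι, hι⟩ := D.ex_iota
  choose φ hφ using D.ex_phi
  have h1 : φ 1 = 𝟙 _ := D.ext fun V => by
    rw [hφ 1 V V (GlueLe ρ le_rfl) (GlueAct_one ρ V).symm, D.t1, Category.id_comp,
      Category.comp_id]
  have hm : ∀ g g', φ (g * g') = φ g' ≫ φ g := fun g g' => D.ext fun V => by
    have e := GlueAct_mul ρ g g' V
    have h := GlueAct_le ρ (g * g') V
    rw [e] at h
    rw [hφ (g * g') V _ h e.symm, ← Category.assoc, hφ g' V _ (GlueAct_le ρ g' V) rfl,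
      Category.assoc, hφ g _ _ (GlueAct_le ρ g _) rfl, ← Category.assoc, D.tc]
  let ρ' : G →* Aut (colimit D.F) := MonoidHom.mk'
    (fun g => ⟨φ g, φ g⁻¹, by rw [← hm, inv_mul_cancel, h1], by rw [← hm, mul_inv_cancel, h1]⟩)
    fun g g' => Iso.ext (hm g g')
  refine ⟨colimit D.F, f', ι, ρ', ?_, ?_, fun g => D.ext fun V => ?_,
    fun g => GlueD.xext fun V => ?_⟩
  · have : IsZariskiLocalAtSource @Smooth.{u} := HasRingHomProperty.instIsZariskiLocalAtSource
    have key : ∀ U, Smooth (D.j U ≫ f') := fun U => by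
      rw [hf]
      exact hs U
    exact IsZariskiLocalAtSource.of_openCover (P := @Smooth)
      (Scheme.IsLocallyDirected.openCover D.F) key
  · have key : ∀ U, IsPullback (pullback.snd ι (D.j U)) (pullback.fst ι (D.j U) ≫ f)
        (D.j U ≫ f') p := fun U => by
      rw [hf]
      have h := (D.pre hι U).flip
      exact (hp U).of_iso h.isoPullback (Iso.refl _) (Iso.refl _) (Iso.refl _) (by simp) (by simp)
        (by simp) (by simp)
    exact Scheme.isPullback_of_openCover _ _ _ _ (Scheme.IsLocallyDirected.openCover D.F) key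
  · change D.j V ≫ φ g ≫ f' = _
    rw [← Category.assoc, hφ g V _ (GlueAct_le ρ g V) rfl, Category.assoc, hf, hf, D.ta]
  · change V.2.fromSpec ≫ ι ≫ φ g = _
    rw [← Category.assoc, hι, Category.assoc, hφ g V _ (GlueAct_le ρ g V) rfl, ← Category.assoc,
      D.tr, Category.assoc, ← hι, ← Category.assoc,
      IsAffineOpen.SpecMap_appLE_fromSpec _ _ V.2, Category.assoc]

end Pool.Agent.MP_deef5c_ag.O

end

section

/-! Gluing flat lifts of the affine opens. -/

open CategoryTheory AlgebraicGeometry IsLocalRing Function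
open scoped Polynomial PowerSeries

namespace Pool.Agent.MP_deef5c_ag.O

universe u

theorem GlueBij {A R' : Type u} [CommRing A] [IsLocalRing A] [IsArtinianRing A] [CommRing R']
    [Algebra A R'] {R : CommRingCat.{u}} (r : R' →+* R) (hr : Surjective r)
    (hk : RingHom.ker r = (maximalIdeal A).map (algebraMap A R')) :
    Bijective (Spec.map (CommRingCat.ofHom r : CommRingCat.of R' ⟶ R)) := by
  have h : IsHomeomorph (PrimeSpectrum.comap r) := by
    refine PrimeSpectrum.isHomeomorph_comap r (fun x => ⟨1, one_pos, ?_⟩) ?_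
    · rw [pow_one]
      exact hr x
    · rw [hk, Ideal.map_le_iff_le_comap]
      intro a ha
      have h1 : a ∈ nilradical A := by
        rw [nilradical, ← IsArtinianRing.jacobson_eq_radical,
          IsLocalRing.jacobson_eq_maximalIdeal _ (by simp)]
        exact ha
      exact mem_nilradical.2 ((mem_nilradical.1 h1).map (algebraMap A R'))
  exact h.bijective

theorem GlueStr {k : Type u} [Field k] {X : Scheme.{u}} (f : X ⟶ Spec (.of k)) {U : X.Opens}
    (hU : IsAffineOpen U) :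
    Spec.map ((Scheme.ΓSpecIso (.of k)).inv ≫ f.appLE ⊤ U le_top) = hU.fromSpec ≫ f := by
  rw [Spec.map_comp, ← IsAffineOpen.SpecMap_appLE_fromSpec f (isAffineOpen_top _) hU le_top,
    IsAffineOpen.fromSpec_top, Scheme.isoSpec_Spec_inv]

/-- Let `F : X.AffineZariskiSite ⥤ Scheme`, `U ↦ Spec (R U)`, with transition maps `T 1`.  They are open
immersions (`away_of_flat`, `IsAffineOpen.isLocalization_of_eq_basicOpen`), and `F ⋙ forget` is locally
directed (for `D(h₁), D(h₂) ≤ U` use `D(h₁ h₂)`), so `X' = colimit F` has the open cover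
`Scheme.IsLocallyDirected.openCover F`.  `f'` and `ι` are induced on colimits
(`Scheme.AffineZariskiSite.isColimitCocone`), `ι` from `U.isoSpec.hom ≫ Spec.map (red U)`, a bijection
on points (surjective with nilpotent kernel).  With `ι_eq_ι_iff`, `ι ⁻¹ (Spec (R U)) = U`, so
`IsOpenImmersion.isPullback` and `pushout_of_ker` give the cartesian square by
`Scheme.isPullback_of_openCover`.  Smoothness is local on the source (`smooth_of_flat`).  `ρ' g` is
induced by `Spec.map (T g (gU) U) ≫ colimit.ι (gU)` with `gU = (ρ g⁻¹).hom ⁻¹ᵁ U`; first show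
`colimit.ι U ≫ ρ' g = Spec.map (T g W U) ≫ colimit.ι W` whenever `W = gU`. -/
theorem glue {k : Type u} [Field k] {X : Scheme.{u}} (f : X ⟶ Spec (.of k)) [Smooth f]
    {G : Type*} [Group G] (ρ : G →* Aut X) {A : Type u} [CommRing A] [IsLocalRing A]
    [IsArtinianRing A] (π : A →+* k) (hπ : Surjective π)
    (R : X.affineOpens → Type u) [∀ U, CommRing (R U)] [∀ U, Algebra A (R U)]
    (T : ∀ (g : G) (U V : X.affineOpens), V.1 ≤ (ρ g).hom ⁻¹ᵁ U.1 → (R U →ₐ[A] R V))
    (red : ∀ U, R U →+* Γ(X, U.1)) (hT1 : ∀ U h s, T 1 U U h s = s)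
    (hT : ∀ g g' U V W h h' h'' s, T g' V W h' (T g U V h s) = T (g * g') U W h'' s)
    (hred : ∀ g U V h s, red V (T g U V h s) = ((ρ g).hom.appLE U.1 V.1 h).hom (red U s))
    (halg : ∀ U a, red U (algebraMap A (R U) a) =
      (f.appLE ⊤ U.1 le_top).hom ((Scheme.ΓSpecIso (.of k)).inv.hom (π a)))
    (hsurj : ∀ U, Surjective (red U))
    (hker : ∀ U, RingHom.ker (red U) = (maximalIdeal A).map (algebraMap A (R U)))
    (hflat : ∀ U, Module.Flat A (R U)) : LiftsTo f ρ π := by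
  let D : GlueD ρ (Spec (.of A)) :=
    { S := fun U => Spec (.of (R ⟨U.1, U.2⟩))
      t := fun g U V h => Spec.map (CommRingCat.ofHom (T g ⟨U.1, U.2⟩ ⟨V.1, V.2⟩ h).toRingHom)
      r := fun U => Spec.map (CommRingCat.ofHom (red ⟨U.1, U.2⟩) : _ ⟶ Γ(X, U.1))
      a := fun U => Spec.map (CommRingCat.ofHom (algebraMap A (R ⟨U.1, U.2⟩)))
      t1 := fun U h => by
        rw [← Spec.map_id]
        exact congrArg Spec.map (CommRingCat.hom_ext (RingHom.ext fun s => hT1 _ h s))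
      tc := fun g g' U V W h h' h'' => by
        rw [← Spec.map_comp]
        exact congrArg Spec.map
          (CommRingCat.hom_ext (RingHom.ext fun s => hT g g' _ _ _ h h' h'' s))
      tr := fun g U V h => by
        rw [← Spec.map_comp, ← Spec.map_comp]
        exact congrArg Spec.map (CommRingCat.hom_ext (RingHom.ext fun s => hred g _ _ h s))
      ta := fun g U V h => by
        rw [← Spec.map_comp]
        exact congrArg Spec.map
          (CommRingCat.hom_ext (RingHom.ext fun a =>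
            (T g ⟨U.1, U.2⟩ ⟨V.1, V.2⟩ h).commutes a))
      op := fun U V h hle => by
        obtain ⟨s, hs⟩ := hle
        obtain ⟨s', rfl⟩ := hsurj ⟨U.1, U.2⟩ s
        have i : V.1 ⟶ U.1 := homOfLE (Scheme.AffineZariskiSite.toOpens_mono ⟨_, hs⟩)
        have := hflat ⟨V.1, V.2⟩
        have h1 := away_of_flat (T 1 ⟨U.1, U.2⟩ ⟨V.1, V.2⟩ h) (X.presheaf.map i.op).hom
          (red ⟨U.1, U.2⟩) (red ⟨V.1, V.2⟩) (hsurj _) (hsurj _) (hker _) (hker _)
          (fun s => by
            rw [← GlueApp _ (GlueOne ρ) h i]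
            exact hred 1 _ _ h s) s' (U.2.isLocalization_of_eq_basicOpen _ i hs.symm)
        let := (T 1 ⟨U.1, U.2⟩ ⟨V.1, V.2⟩ h : R ⟨U.1, U.2⟩ →+* R ⟨V.1, V.2⟩).toAlgebra
        exact IsOpenImmersion.of_isLocalization (S := R ⟨V.1, V.2⟩) s'
      bij := fun U => GlueBij (red ⟨U.1, U.2⟩) (hsurj _) (hker _) }
  refine GlueAbs D f _ (fun U => ?_) fun U => ?_
  · rw [← GlueStr f U.2]
    exact isPullback_SpecMap_of_isPushout _ _ _ _ (pushout_of_ker π hπ
      (algebraMap A (R ⟨U.1, U.2⟩)) ((Scheme.ΓSpecIso (.of k)).inv ≫ f.appLE ⊤ U.1 le_top).hom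
      (red ⟨U.1, U.2⟩) (hsurj _) (hker _) (halg ⟨U.1, U.2⟩))
  · have h1 : Smooth (Spec.map ((Scheme.ΓSpecIso (.of k)).inv ≫ f.appLE ⊤ U.1 le_top)) := by
      rw [GlueStr f U.2]
      infer_instance
    have h2 := (HasRingHomProperty.Spec_iff (P := @Smooth)).1 h1
    let : Algebra k Γ(X, U.1) :=
      ((Scheme.ΓSpecIso (.of k)).inv ≫ f.appLE ⊤ U.1 le_top).hom.toAlgebra
    have h3 : Algebra.Smooth k Γ(X, U.1) := h2
    have := hflat ⟨U.1, U.2⟩
    exact (HasRingHomProperty.Spec_iff (P := @Smooth)).2 (RingHom.smooth_algebraMap.2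
      (smooth_of_flat π hπ (red ⟨U.1, U.2⟩) (hsurj _) (hker _) (halg ⟨U.1, U.2⟩)))

end Pool.Agent.MP_deef5c_ag.O

end

section

/-! Intersections of flat models. -/

open CategoryTheory AlgebraicGeometry IsLocalRing Function
open scoped Polynomial PowerSeries

namespace Pool.Agent.MP_deef5c_ag.O

universe u

namespace GInt.Aux

open scoped TensorProduct

variable {A : Type u} [CommRing A]

theorem flat_of_exact {M N P : Type u} [AddCommGroup M] [Module A M] [AddCommGroup N] [Module A N]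
    [AddCommGroup P] [Module A P] [Module.Flat A N] [Module.Flat A P] (f : N →ₗ[A] P)
    (hf : Surjective f) (g : M →ₗ[A] N) (hg : Injective g) (H : Function.Exact g f) :
    Module.Flat A M := by
  rw [Module.Flat.iff_rTensor_injective']
  intro I
  have h1 := LinearMap.lTensor_injective_of_exact_of_flat f hf g hg H I
  have h2 := Module.Flat.iff_rTensor_injective'.1 (inferInstance : Module.Flat A N) I
  have h3 : Injective (g.lTensor A ∘ₗ I.subtype.rTensor M) := by
    rw [LinearMap.lTensor_comp_rTensor, ← LinearMap.rTensor_comp_lTensor]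
    exact h2.comp h1
  exact Injective.of_comp (f := g.lTensor A) h3

theorem mem_smul_of_exact {M N P : Type u} [AddCommGroup M] [Module A M] [AddCommGroup N]
    [Module A N] [AddCommGroup P] [Module A P] [Module.Flat A P] (f : N →ₗ[A] P)
    (hf : Surjective f) (g : M →ₗ[A] N) (hg : Injective g) (H : Function.Exact g f) (I : Ideal A)
    {x : M} (hx : g x ∈ I • (⊤ : Submodule A N)) : x ∈ I • (⊤ : Submodule A M) := by
  have h1 := LinearMap.lTensor_injective_of_exact_of_flat f hf g hg H (A ⧸ I)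
  have h2 : (1 : A ⧸ I) ⊗ₜ[A] g x = 0 := by
    rw [← TensorProduct.quotTensorEquivQuotSMul_symm_mk, (Submodule.Quotient.mk_eq_zero _).2 hx,
      map_zero]
  have h3 : (1 : A ⧸ I) ⊗ₜ[A] x = 0 := h1 (by rw [LinearMap.lTensor_tmul, h2, map_zero])
  rw [← Submodule.Quotient.mk_eq_zero, ← TensorProduct.quotTensorEquivQuotSMul_mk_one_tmul, h3,
    map_zero]

theorem map_mem_smul {M N : Type u} [AddCommGroup M] [Module A M] [AddCommGroup N] [Module A N]
    (f : M →ₗ[A] N) (I : Ideal A) {x : M} (hx : x ∈ I • (⊤ : Submodule A M)) :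
    f x ∈ I • (⊤ : Submodule A N) := by
  have := Submodule.mem_map_of_mem (f := f) hx
  rw [Submodule.map_smul''] at this
  exact Submodule.smul_mono le_rfl le_top this

theorem eq_top_of_nilpotent {M : Type u} [AddCommGroup M] [Module A M] {I : Ideal A}
    (hI : IsNilpotent I) {N : Submodule A M} (h : ⊤ ≤ N ⊔ I • ⊤) : N = ⊤ := by
  obtain ⟨n, hn⟩ := hI
  have key : ∀ k : ℕ, ⊤ ≤ N ⊔ I ^ k • (⊤ : Submodule A M) := by
    intro k
    induction k with
    | zero => simp
    | succ k ih =>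
      refine ih.trans (sup_le le_sup_left ?_)
      refine (Submodule.smul_mono le_rfl h).trans ?_
      rw [Submodule.smul_sup, pow_succ, Submodule.mul_smul]
      exact sup_le_sup_right Submodule.smul_le_right _
  have := key n
  rw [hn, Submodule.zero_eq_bot, Submodule.bot_smul, sup_bot_eq] at this
  exact top_le_iff.1 this

theorem dfinsupp_mem_smul {Y : Type u} {M : Y → Type u} [∀ x, AddCommGroup (M x)]
    [∀ x, Module A (M x)] (I : Ideal A) (z : Π₀ x, M x)
    (hz : ∀ x, z x ∈ I • (⊤ : Submodule A (M x))) : z ∈ I • (⊤ : Submodule A (Π₀ x, M x)) := by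
  classical
  rw [← DFinsupp.sum_single (f := z), DFinsupp.sum]
  exact Submodule.sum_mem _ fun x _ => map_mem_smul (DFinsupp.lsingle x) I (hz x)

/-- The map to the direct sum of the quotients. -/
noncomputable def qq {N Y : Type u} [AddCommGroup N] [Module A N] (O : Y → Submodule A N)
    (hfin : ∀ b, {x | b ∉ O x}.Finite) : N →ₗ[A] Π₀ x, N ⧸ O x where
  toFun b := ⟨fun x => Submodule.Quotient.mk b, Trunc.mk ⟨(hfin b).toFinset.val, fun x => by
    by_cases h : b ∈ O x
    · exact Or.inr ((Submodule.Quotient.mk_eq_zero _).2 h)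
    · exact Or.inl ((hfin b).mem_toFinset.2 h)⟩⟩
  map_add' _ _ := DFinsupp.ext fun _ => rfl
  map_smul' _ _ := DFinsupp.ext fun _ => rfl

theorem qq_apply {N Y : Type u} [AddCommGroup N] [Module A N] (O : Y → Submodule A N)
    (hfin : ∀ b, {x | b ∉ O x}.Finite) (b : N) (x : Y) :
    qq O hfin b x = Submodule.Quotient.mk b := rfl

end GInt.Aux

open GInt.Aux in
/-- Let `Q = ⨁_x K' ⧸ O' x`, a flat module, and `q : K' → Q` (finite support by `hfin`) with kernel
`B' = ⨅ O' x`.  `q` is surjective modulo `m Q` by `hcrt` (an element whose reduction lies in the image of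
`O' x` is in `O' x + m K'`), hence surjective (`m` nilpotent).  From `0 → B' → K' → Q → 0` with `K'`, `Q`
flat: `I ⊗ B' → I ⊗ K'` is injective (`LinearMap.lTensor_injective_of_exact_of_flat`), so `B'` is flat and
`B' ∩ m K' = m B'`.  If `red b' ∈ red (O' x)` for all `x` then `q b' ∈ m Q = q (m K')`. -/
theorem inter {A K K' Y : Type u} [CommRing A] [IsLocalRing A] [IsArtinianRing A] [CommRing K]
    [CommRing K'] [Algebra A K'] [Module.Flat A K'] (red : K' →+* K) (hs : Surjective red)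
    (hk : RingHom.ker red = (maximalIdeal A).map (algebraMap A K')) (O' : Y → Subalgebra A K')
    (hfl : ∀ x, Module.Flat A (K' ⧸ Subalgebra.toSubmodule (O' x)))
    (hfin : ∀ b', {x | b' ∉ O' x}.Finite)
    (hcrt : ∀ x₀ b, ∃ b₀, (∃ s ∈ O' x₀, red s = b₀ - b) ∧ ∀ x ≠ x₀, ∃ s ∈ O' x, red s = b₀) :
    Module.Flat A (⨅ x, O' x : Subalgebra A K') ∧
      (∀ b, (∀ x, ∃ s ∈ O' x, red s = b) → ∃ s ∈ ⨅ x, O' x, red s = b) ∧
      RingHom.ker (red.comp ((⨅ x, O' x : Subalgebra A K').val : _ →+* K')) =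
        (maximalIdeal A).map (algebraMap A (⨅ x, O' x : Subalgebra A K')) := by
  classical
  have hm : IsNilpotent (maximalIdeal A) := by
    rw [← IsLocalRing.jacobson_eq_maximalIdeal ⊥ bot_ne_top]
    exact IsArtinianRing.isNilpotent_jacobson_bot
  have hker : ∀ b : K', red b = 0 ↔ b ∈ maximalIdeal A • (⊤ : Submodule A K') := by
    intro b
    rw [Ideal.smul_top_eq_map, Submodule.restrictScalars_mem, ← hk, RingHom.mem_ker]
  let q : K' →ₗ[A] Π₀ x, K' ⧸ Subalgebra.toSubmodule (O' x) :=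
    qq (fun x => Subalgebra.toSubmodule (O' x)) hfin
  have hQ : Module.Flat A (Π₀ x, K' ⧸ Subalgebra.toSubmodule (O' x)) :=
    Module.Flat.dfinsupp_iff.2 hfl
  have hq : ∀ (x : Y) (b : K'), (∃ s ∈ O' x, red s = red b) →
      (Submodule.Quotient.mk b : K' ⧸ Subalgebra.toSubmodule (O' x)) ∈
        maximalIdeal A • (⊤ : Submodule A (K' ⧸ Subalgebra.toSubmodule (O' x))) := by
    rintro x b ⟨s, hs1, hs2⟩
    have h1 : b - s ∈ maximalIdeal A • (⊤ : Submodule A K') :=
      (hker _).1 (by rw [map_sub, hs2, sub_self])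
    have h2 := map_mem_smul (Subalgebra.toSubmodule (O' x)).mkQ _ h1
    rwa [map_sub, Submodule.mkQ_apply, Submodule.mkQ_apply,
      (Submodule.Quotient.mk_eq_zero _).2 (show s ∈ Subalgebra.toSubmodule (O' x) from hs1),
      sub_zero] at h2
  have hsurj : Surjective q := by
    rw [← LinearMap.range_eq_top]
    refine eq_top_of_nilpotent (M := Π₀ x, K' ⧸ Subalgebra.toSubmodule (O' x)) hm fun z _ => ?_
    rw [← DFinsupp.sum_single (f := z), DFinsupp.sum]
    refine Submodule.sum_mem _ fun x₀ _ => ?_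
    obtain ⟨b', hb'⟩ := Submodule.Quotient.mk_surjective _ (z x₀)
    obtain ⟨b₀, h1, h2⟩ := hcrt x₀ (red b')
    obtain ⟨c, rfl⟩ := hs b₀
    have h3 : q c - DFinsupp.single x₀ (z x₀) ∈ maximalIdeal A •
        (⊤ : Submodule A (Π₀ x, K' ⧸ Subalgebra.toSubmodule (O' x))) := by
      refine dfinsupp_mem_smul _ _ fun x => ?_
      rw [DFinsupp.sub_apply, qq_apply]
      by_cases e : x = x₀
      · subst e
        rw [DFinsupp.single_eq_same, ← hb', ← Submodule.Quotient.mk_sub]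
        exact hq x _ (by rw [map_sub]; exact h1)
      · rw [DFinsupp.single_eq_of_ne e, sub_zero]
        exact hq x _ (h2 x e)
    rw [← sub_sub_cancel (q c) (DFinsupp.single x₀ (z x₀))]
    refine Submodule.sub_mem (M := Π₀ x, K' ⧸ Subalgebra.toSubmodule (O' x)) _ ?_ ?_
    · exact le_sup_left (α := Submodule A (Π₀ x, K' ⧸ Subalgebra.toSubmodule (O' x)))
        (LinearMap.mem_range_self q c)
    · exact le_sup_right (α := Submodule A (Π₀ x, K' ⧸ Subalgebra.toSubmodule (O' x))) h3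
  have hq0 : ∀ b, q b = 0 ↔ b ∈ ⨅ x, O' x := by
    intro b
    rw [Algebra.mem_iInf, DFinsupp.ext_iff]
    exact forall_congr' fun x => Submodule.Quotient.mk_eq_zero _
  have hex : Function.Exact (⨅ x, O' x : Subalgebra A K').val.toLinearMap q := fun b =>
    (hq0 b).trans ⟨fun h => ⟨⟨b, h⟩, rfl⟩, fun ⟨c, hc⟩ => hc ▸ c.2⟩
  have hinj : Injective (⨅ x, O' x : Subalgebra A K').val.toLinearMap := Subtype.val_injective
  refine ⟨flat_of_exact (M := (⨅ x, O' x : Subalgebra A K')) (N := K')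
    (P := Π₀ x, K' ⧸ Subalgebra.toSubmodule (O' x)) q hsurj _ hinj hex, fun b hb => ?_, ?_⟩
  · obtain ⟨b', rfl⟩ := hs b
    have h1 : q b' ∈ maximalIdeal A •
        (⊤ : Submodule A (Π₀ x, K' ⧸ Subalgebra.toSubmodule (O' x))) :=
      dfinsupp_mem_smul _ _ fun x => hq x _ (hb x)
    rw [← LinearMap.range_eq_top.2 hsurj, ← Submodule.map_top, ← Submodule.map_smul''] at h1
    obtain ⟨c, hc1, hc2⟩ := h1
    refine ⟨b' - c, (hq0 _).1 (by rw [map_sub, hc2, sub_self]), ?_⟩
    rw [map_sub, (hker c).2 hc1, sub_zero]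
  · ext b
    rw [RingHom.mem_ker, ← Submodule.restrictScalars_mem A, ← Ideal.smul_top_eq_map]
    refine (hker _).trans ⟨fun h => mem_smul_of_exact (M := (⨅ x, O' x : Subalgebra A K'))
      (N := K') (P := Π₀ x, K' ⧸ Subalgebra.toSubmodule (O' x)) q hsurj _ hinj hex _ h,
      fun h => map_mem_smul (⨅ x, O' x : Subalgebra A K').val.toLinearMap _ h⟩

end Pool.Agent.MP_deef5c_ag.O

end

section

/-! Approximation on affine opens of a curve. -/

open CategoryTheory AlgebraicGeometry IsLocalRing Function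
open scoped Polynomial PowerSeries

namespace Pool.Agent.MP_deef5c_ag.O

universe u

theorem GDed_fin {B : Type u} [CommRing B] [IsNoetherianRing B] [Ring.DimensionLEOne B] {d : B}
    (hd : d ≠ 0) : {P : PrimeSpectrum B | d ∈ P.asIdeal}.Finite := by
  refine Set.Finite.of_finite_image (f := fun P => P.asIdeal) ?_ fun P _ Q _ h => PrimeSpectrum.ext h
  refine (Ideal.finite_minimalPrimes_of_isNoetherianRing B (Ideal.span {d})).subset ?_
  rintro _ ⟨P, hP, rfl⟩
  obtain ⟨Q, hQ, hQP⟩ := Ideal.exists_minimalPrimes_le (J := P.asIdeal)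
    ((Ideal.span_singleton_le_iff_mem _).2 hP)
  have h1 : Q ≠ ⊥ := by
    rintro rfl
    exact hd ((Ideal.span_singleton_le_iff_mem _).1 hQ.1.2)
  have h2 := (Ring.DimensionLEOne.maximalOfPrime h1 hQ.1.1).eq_of_le P.2.ne_top hQP
  rwa [h2] at hQ

theorem GDed_sep {B : Type u} [CommRing B] [Ring.DimensionLEOne B] {d : B} (hd : d ≠ 0)
    {Q P : PrimeSpectrum B} (h : Q ≠ P) : ∃ z ∉ P.asIdeal, ∃ s ∉ Q.asIdeal, d ∣ s * z := by
  by_cases hdQ : d ∈ Q.asIdeal
  swap
  · exact ⟨1, (Ideal.ne_top_iff_one _).1 P.2.ne_top, d, hdQ, dvd_mul_right _ _⟩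
  have hmax : ∀ I : Ideal B, I.IsPrime → d ∈ I → I.IsMaximal := fun I hI hdI =>
    Ring.DimensionLEOne.maximalOfPrime (by rintro rfl; exact hd hdI) hI
  obtain ⟨y, hyQ, hyP⟩ : ∃ y ∈ Q.asIdeal, y ∉ P.asIdeal := by
    by_contra h1
    push Not at h1
    exact h (PrimeSpectrum.ext ((hmax _ Q.2 hdQ).eq_of_le P.2.ne_top h1))
  by_contra h1
  push Not at h1
  have := Q.2
  obtain ⟨I, hI, hdI, hdis⟩ := (Ideal.span {d}).exists_le_prime_disjoint
    (Q.asIdeal.primeCompl ⊔ Submonoid.powers y) (by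
      rw [Set.disjoint_left]
      intro a ha hb
      obtain ⟨s, hs, _, ⟨n, rfl⟩, rfl⟩ := Submonoid.mem_sup.1 hb
      exact h1 (y ^ n) (fun h2 => hyP (P.2.mem_of_pow_mem n h2)) s hs
        (Ideal.mem_span_singleton.1 ha))
  rw [Set.disjoint_left] at hdis
  have h2 : I ≤ Q.asIdeal := fun a ha => by
    by_contra h3
    exact hdis ha (Submonoid.mem_sup_left h3)
  have h3 := (hmax I hI ((Ideal.span_singleton_le_iff_mem _).1 hdI)).eq_of_le Q.2.ne_top h2
  exact hdis (h3 ▸ hyQ : y ∈ I) (Submonoid.mem_sup_right (Submonoid.mem_powers y))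

/-- the contraction of the ideal generated by `d` in the localisation at `P` -/
def GDed_loc {B : Type u} [CommRing B] (d : B) (P : PrimeSpectrum B) : Ideal B where
  carrier := {a | ∃ s ∉ P.asIdeal, d ∣ s * a}
  zero_mem' := ⟨1, (Ideal.ne_top_iff_one _).1 P.2.ne_top, by simp⟩
  add_mem' := by
    rintro a b ⟨s, hs, h1⟩ ⟨t, ht, h2⟩
    refine ⟨s * t, fun h => (P.2.mem_or_mem h).elim hs ht, ?_⟩
    have : s * t * (a + b) = s * a * t + t * b * s := by ring
    rw [this]
    exact dvd_add (h1.mul_right _) (h2.mul_right _)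
  smul_mem' := by
    rintro c a ⟨s, hs, h1⟩
    refine ⟨s, hs, ?_⟩
    rw [smul_eq_mul, mul_left_comm]
    exact h1.mul_left _

theorem GDed_one {B : Type u} [CommRing B] [IsNoetherianRing B] [Ring.DimensionLEOne B] {d : B}
    (hd : d ≠ 0) (P : PrimeSpectrum B) :
    ∃ α β : B, α + β = 1 ∧ α ∈ GDed_loc d P ∧ ∀ Q ≠ P, β ∈ GDed_loc d Q := by
  classical
  have h1 : GDed_loc d P ⊔ (⨅ Q : {Q // Q ≠ P}, GDed_loc d Q.1) = ⊤ := by
    by_contra h
    obtain ⟨M, hM, hle⟩ := Ideal.exists_le_maximal _ h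
    by_cases hMP : P = ⟨M, hM.isPrime⟩
    · have h2 : ∀ Q : {Q // Q ≠ P}, ∃ z ∉ P.asIdeal, z ∈ GDed_loc d Q.1 := fun Q => GDed_sep hd Q.2
      choose z hz1 hz2 using h2
      have hfin : {Q : {Q // Q ≠ P} | d ∈ Q.1.asIdeal}.Finite :=
        (GDed_fin hd).preimage Subtype.val_injective.injOn
      have := P.2
      have h3 : ∏ Q ∈ hfin.toFinset, z Q ∈ P.asIdeal.primeCompl := prod_mem fun Q _ => hz1 Q
      refine h3 ?_
      have h4 : M = P.asIdeal := by rw [hMP]
      refine h4 ▸ hle (Submodule.mem_sup_right (Ideal.mem_iInf.2 fun Q => ?_))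
      by_cases hQ : d ∈ Q.1.asIdeal
      · exact Ideal.mem_of_dvd _ (Finset.dvd_prod_of_mem z (hfin.mem_toFinset.2 hQ)) (hz2 Q)
      · exact ⟨d, hQ, dvd_mul_right _ _⟩
    · obtain ⟨z, hz1, hz2⟩ := GDed_sep hd hMP
      exact hz1 (hle (Submodule.mem_sup_left hz2))
  obtain ⟨α, hα, β, hβ, h⟩ := Submodule.mem_sup.1 ((Ideal.eq_top_iff_one _).1 h1)
  exact ⟨α, β, h, hα, fun Q hQ => Ideal.mem_iInf.1 hβ ⟨Q, hQ⟩⟩

section Algebra

variable {B K : Type u} [CommRing B] [IsDomain B] [IsNoetherianRing B] [Ring.DimensionLEOne B]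
  [Field K] [Algebra B K] [IsFractionRing B K]

/-- `b = a / d`; a prime containing `d ≠ 0` is minimal over `(d)` -/
theorem ded_fin (b : K) : {P : PrimeSpectrum B |
    ¬ ∃ a d : B, d ∉ P.asIdeal ∧ algebraMap B K d * b = algebraMap B K a}.Finite := by
  obtain ⟨⟨a, d⟩, h⟩ := IsLocalization.surj (nonZeroDivisors B) b
  refine (GDed_fin (nonZeroDivisors.ne_zero d.2)).subset fun P hP => ?_
  by_contra h1
  exact hP ⟨a, d, h1, by rw [mul_comm]; exact h⟩

/-- `b = a / d`.  `I = {α | α ∈ d B_P}` contains a power of `P` (or `1`), `J = {β | ∀ Q ≠ P, β ∈ d B_Q}`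
contains a product of powers of the primes `Q ≠ P` containing `d`; so `1 = α + β`; `b₀ = β b`. -/
theorem ded_crt (P : PrimeSpectrum B) (b : K) : ∃ b₀ : K,
    (∃ a d : B, d ∉ P.asIdeal ∧ algebraMap B K d * (b₀ - b) = algebraMap B K a) ∧
    ∀ Q : PrimeSpectrum B, Q ≠ P →
      ∃ a d : B, d ∉ Q.asIdeal ∧ algebraMap B K d * b₀ = algebraMap B K a := by
  obtain ⟨⟨a, d⟩, h⟩ := IsLocalization.surj (nonZeroDivisors B) b
  obtain ⟨α, β, h1, ⟨s, hs, e, he⟩, hβ⟩ := GDed_one (nonZeroDivisors.ne_zero d.2) P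
  refine ⟨algebraMap B K β * b, ⟨-(e * a), s, hs, ?_⟩, fun Q hQ => ?_⟩
  · have h2 := congrArg (algebraMap B K) h1
    have h3 := congrArg (algebraMap B K) he
    rw [map_add, map_one] at h2
    rw [map_mul, map_mul] at h3
    rw [map_neg, map_mul, ← h]
    linear_combination algebraMap B K s * b * h2 - b * h3
  · obtain ⟨s', hs', e', he'⟩ := hβ Q hQ
    refine ⟨e' * a, s', hs', ?_⟩
    have h3 := congrArg (algebraMap B K) he'
    rw [map_mul, map_mul] at h3
    rw [map_mul, ← h]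
    linear_combination b * h3

end Algebra

variable {k : Type u} [Field k] [IsAlgClosed k] {X : Scheme.{u}} [IsIntegral X]
  (f : X ⟶ Spec (.of k)) [SmoothOfRelativeDimension 1 f]

theorem GDed_mem (U : X.Opens) (hU : IsAffineOpen U) [Nonempty U] (x : U) (b : X.functionField) :
    b ∈ Ox x.1 ↔ ∃ a d : Γ(X, U), d ∉ (hU.primeIdealOf x).asIdeal ∧
      algebraMap Γ(X, U) X.functionField d * b = algebraMap Γ(X, U) X.functionField a := by
  let _ := TopCat.Presheaf.algebra_section_stalk X.presheaf x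
  have h1 := hU.isLocalization_stalk x
  have h2 := functionField_isScalarTower X U x
  constructor
  · rintro ⟨y, rfl⟩
    obtain ⟨⟨a, d⟩, h⟩ := IsLocalization.surj (hU.primeIdealOf x).asIdeal.primeCompl y
    refine ⟨a, d, d.2, ?_⟩
    rw [IsScalarTower.algebraMap_apply Γ(X, U) (X.presheaf.stalk x.1) X.functionField,
      IsScalarTower.algebraMap_apply Γ(X, U) (X.presheaf.stalk x.1) X.functionField a, ← map_mul,
      mul_comm]
    exact congrArg _ h
  · rintro ⟨a, d, hd, h⟩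
    obtain ⟨v, hv⟩ := (IsLocalization.map_units (X.presheaf.stalk x.1)
      (⟨d, hd⟩ : (hU.primeIdealOf x).asIdeal.primeCompl)).exists_left_inv
    refine ⟨v * algebraMap Γ(X, U) (X.presheaf.stalk x.1) a, ?_⟩
    rw [map_mul, ← IsScalarTower.algebraMap_apply, ← h,
      IsScalarTower.algebraMap_apply Γ(X, U) (X.presheaf.stalk x.1) X.functionField d, ← mul_assoc,
      ← map_mul, hv, map_one, one_mul]

omit [IsIntegral X] in
theorem GDed_inj (U : X.Opens) (hU : IsAffineOpen U) : Function.Injective hU.primeIdealOf :=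
  fun x y h => Subtype.ext ((hU.fromSpec_primeIdealOf x).symm.trans
    ((congrArg (fun P => hU.fromSpec P) h).trans (hU.fromSpec_primeIdealOf y)))

include f in
/-- points of `U` are primes of `Γ(X, U)` (`IsAffineOpen.primeIdealOf`, `isLocalization_stalk`) -/
theorem aff_fin (U : X.Opens) (hU : IsAffineOpen U) (b : X.functionField) :
    {x : X | x ∈ U ∧ b ∉ Ox x}.Finite := by
  rcases isEmpty_or_nonempty U with h | h
  · exact Set.finite_empty.subset fun x hx => h.elim ⟨x, hx.1⟩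
  obtain ⟨h1, h2⟩ := dim_le_one f U hU
  have h3 := functionField_isFractionRing_of_isAffineOpen X U hU
  have h4 := (ded_fin (B := Γ(X, U)) b).preimage (GDed_inj U hU).injOn
  refine (h4.image Subtype.val).subset fun x hx => ⟨⟨x, hx.1⟩, fun h5 => hx.2 ?_, rfl⟩
  exact (GDed_mem U hU ⟨x, hx.1⟩ b).2 h5

include f in
theorem aff_crt (U : X.Opens) (hU : IsAffineOpen U) (x₀ : X) (hx₀ : x₀ ∈ U) (b : X.functionField) :
    ∃ b₀, b₀ - b ∈ Ox x₀ ∧ ∀ x ∈ U, x ≠ x₀ → b₀ ∈ Ox x := by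
  have h : Nonempty U := ⟨⟨x₀, hx₀⟩⟩
  obtain ⟨h1, h2⟩ := dim_le_one f U hU
  have h3 := functionField_isFractionRing_of_isAffineOpen X U hU
  obtain ⟨b₀, h4, h5⟩ := ded_crt (B := Γ(X, U)) (hU.primeIdealOf ⟨x₀, hx₀⟩) b
  refine ⟨b₀, (GDed_mem U hU ⟨x₀, hx₀⟩ _).2 h4, fun x hx hne => ?_⟩
  refine (GDed_mem U hU ⟨x, hx⟩ _).2 (h5 _ fun h6 => hne ?_)
  exact congrArg Subtype.val (GDed_inj U hU h6)

include f in
theorem GDed_all [QuasiCompact f] (b : X.functionField) : {x : X | b ∉ Ox x}.Finite := by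
  have : CompactSpace X := QuasiCompact.compactSpace_of_compactSpace f
  obtain ⟨T, hT⟩ := isCompact_univ.elim_finite_subcover
    (fun U : X.affineOpens => (U.1 : Set X)) (fun U => U.1.isOpen) (fun x _ => by
      obtain ⟨_, ⟨U, hU, rfl⟩, hx, -⟩ :=
        X.isBasis_affineOpens.exists_subset_of_mem_open (Set.mem_univ x) isOpen_univ
      exact Set.mem_iUnion.2 ⟨⟨U, hU⟩, hx⟩)
  refine (T.finite_toSet.biUnion fun U _ => aff_fin f U.1 U.2 b).subset fun x hx => ?_
  obtain ⟨U, hU, hxU⟩ := Set.mem_iUnion₂.1 (hT (Set.mem_univ x))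
  exact Set.mem_biUnion hU ⟨hxU, hx⟩

theorem GDed_fix (e : Aut X) (he : e.hom ≫ f = f) {x : X} (hx : IsClosed {x}) (h : e.hom x = x)
    {b : X.functionField} (hb : b ∈ Ox x) (hc : fT e b - b ≠ 0) : (fT e b - b)⁻¹ ∉ Ox x := by
  obtain ⟨y, rfl⟩ := hb
  rintro ⟨y', hy'⟩
  have := SmoothOfRelativeDimension.smooth 1 f
  obtain ⟨ε, -, h1, -⟩ := exists_retr (f := f) (pointOfClosedPoint f x hx)
    (pointOfClosedPoint_comp f x hx) (pointOfClosedPoint_apply f x hx _)
  have h2 : IsLocalHom (locMap e.hom x h).hom := by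
    have : IsLocalHom (X.presheaf.stalkSpecializes (specializes_of_eq h)).hom :=
      isLocalHom_of_iso (X.presheaf.stalkCongr (Inseparable.of_eq h.symm))
    exact CommRingCat.isLocalHom_comp _ _
  have h3 : (locMap e.hom x h).hom (y - (strMap f x).hom (ε.hom y)) ∈ maximalIdeal _ :=
    map_nonunit _ _ (h1 y)
  have h4 : (locMap e.hom x h).hom ((strMap f x).hom (ε.hom y)) = (strMap f x).hom (ε.hom y) :=
    congrArg (fun φ => φ.hom (ε.hom y)) (strMap_locMap f x e.hom h he)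
  rw [map_sub, h4] at h3
  have h5 := sub_mem h3 (h1 y)
  rw [sub_sub_sub_cancel_right] at h5
  refine h5 (IsUnit.of_mul_eq_one y' ?_)
  apply IsFractionRing.injective (X.presheaf.stalk x) X.functionField
  rw [map_mul, map_sub, ← fT_locMap, hy', map_one, mul_inv_cancel₀ hc]

/-- For `g ≠ 1` take `b` with `c = fT (ρ g) b - b ≠ 0`.  If `g` fixes a closed `x` and `b ∈ Ox x` then `c` is
in the maximal ideal (`exists_retr`, `strMap_locMap`), so `c⁻¹ ∉ Ox x`.  Cover `X` by finitely many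
affine opens. -/
theorem ram_fin [IsSeparated f] [QuasiCompact f] {G : Type*} [Group G] [Finite G] (ρ : G →* Aut X)
    (hρ : Injective ρ) (hρk : ∀ g, (ρ g).hom ≫ f = f) :
    {x : X | IsClosed {x} ∧ stab ρ x ≠ ⊥}.Finite := by
  have h1 : ∀ g : {g : G // g ≠ 1}, ∃ b, fT (ρ g.1) b - b ≠ 0 := fun g => by
    by_contra h
    push Not at h
    refine g.2 (hρ ?_)
    rw [map_one]
    exact fT_faithful f _ (hρk _) fun b => sub_eq_zero.1 (h b)
  choose b hb using h1
  refine (Set.finite_iUnion fun g => (GDed_all f (b g)).union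
    (GDed_all f (fT (ρ g.1) (b g) - b g)⁻¹)).subset ?_
  rintro x ⟨hx, hs⟩
  obtain ⟨⟨g, hg⟩, hg1⟩ := Subgroup.ne_bot_iff_exists_ne_one.1 hs
  have hg2 : g ≠ 1 := fun h => hg1 (Subtype.ext h)
  refine Set.mem_iUnion.2 ⟨⟨g, hg2⟩, ?_⟩
  by_cases h2 : b ⟨g, hg2⟩ ∈ Ox x
  · exact Or.inr (GDed_fix f (ρ g) (hρk g) hx hg h2 (hb ⟨g, hg2⟩))
  · exact Or.inl h2

end Pool.Agent.MP_deef5c_ag.O

end

section

/-! A global lift from an equivariant family of flat local models. -/

open CategoryTheory AlgebraicGeometry IsLocalRing Function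
open scoped Polynomial PowerSeries

namespace Pool.Agent.MP_deef5c_ag.O

universe u

section Algebra

variable {A K K' : Type u} [CommRing A] [CommRing K] [CommRing K'] [Algebra A K']

/-- constant functions with values in the given subalgebras -/
def GMkrCS {Y : Type u} (O : Y → Subalgebra A K') : Subalgebra A (Y → K') where
  carrier := {s | (∀ x y, s x = s y) ∧ ∀ x, s x ∈ O x}
  mul_mem' := fun {a b} ha hb =>
    ⟨fun x y => by rw [Pi.mul_apply, Pi.mul_apply, ha.1 x y, hb.1 x y],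
      fun x => mul_mem (ha.2 x) (hb.2 x)⟩
  add_mem' := fun {a b} ha hb =>
    ⟨fun x y => by rw [Pi.add_apply, Pi.add_apply, ha.1 x y, hb.1 x y],
      fun x => add_mem (ha.2 x) (hb.2 x)⟩
  algebraMap_mem' := fun a => ⟨fun _ _ => rfl, fun x => (O x).algebraMap_mem a⟩

/-- transport of constant functions -/
def GMkrT {Y Z : Type u} (O : Y → Subalgebra A K') (O₂ : Z → Subalgebra A K') (φ : Z → Y)
    (t : K' →ₐ[A] K') (h : ∀ z, ∀ b ∈ O (φ z), t b ∈ O₂ z) : GMkrCS O →ₐ[A] GMkrCS O₂ where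
  toFun s := ⟨fun z => t (s.1 (φ z)), fun _ _ => congrArg t (s.2.1 _ _), fun z => h z _ (s.2.2 _)⟩
  map_one' := Subtype.ext (funext fun _ => map_one t)
  map_mul' _ _ := Subtype.ext (funext fun _ => map_mul t _ _)
  map_zero' := Subtype.ext (funext fun _ => map_zero t)
  map_add' _ _ := Subtype.ext (funext fun _ => map_add t _ _)
  commutes' a := Subtype.ext (funext fun _ => t.commutes a)

/-- evaluation at a point -/
def GMkrEv {Y : Type u} (O : Y → Subalgebra A K') (y : Y) :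
    GMkrCS O ≃ₐ[A] (⨅ x, O x : Subalgebra A K') where
  toFun s := ⟨s.1 y, Algebra.mem_iInf.2 fun x => by rw [s.2.1 y x]; exact s.2.2 x⟩
  invFun b := ⟨fun _ => b.1, fun _ _ => rfl, fun x => Algebra.mem_iInf.1 b.2 x⟩
  left_inv s := Subtype.ext (funext fun x => s.2.1 y x)
  right_inv _ := rfl
  map_mul' _ _ := rfl
  map_add' _ _ := rfl
  commutes' _ := rfl

theorem GMkr_alg [IsLocalRing A] [IsArtinianRing A] [Module.Flat A K'] {Y : Type u}
    (red : K' →+* K) (hs : Surjective red)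
    (hk : RingHom.ker red = (maximalIdeal A).map (algebraMap A K')) (O : Y → Subalgebra A K')
    (hfl : ∀ x, Module.Flat A (K' ⧸ Subalgebra.toSubmodule (O x)))
    (hfin : ∀ b', {x | b' ∉ O x}.Finite)
    (hcrt : ∀ x₀ b, ∃ b₀, (∃ s ∈ O x₀, red s = b₀ - b) ∧ ∀ x ≠ x₀, ∃ s ∈ O x, red s = b₀)
    {B : Type u} [CommRing B] (γ : B →+* K) (hγ : Injective γ)
    (hB : ∀ b, (∃ s, γ s = b) ↔ ∀ x, ∃ s ∈ O x, red s = b) (y : Y) :
    ∃ r : GMkrCS O →+* B, (∀ s x, γ (r s) = red (s.1 x)) ∧ Surjective r ∧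
      RingHom.ker r = (maximalIdeal A).map (algebraMap A (GMkrCS O)) ∧
      Module.Flat A (GMkrCS O) := by
  obtain ⟨h1, h2, h3⟩ := inter red hs hk O hfl hfin hcrt
  have hex : ∀ s : GMkrCS O, ∃ b, γ b = red (s.1 y) := fun s =>
    (hB _).2 fun x => ⟨s.1 x, s.2.2 x, by rw [s.2.1 x y]⟩
  choose r hr using hex
  let r' : GMkrCS O →+* B :=
    { toFun := r
      map_one' := hγ (by rw [hr, map_one]; exact map_one red)
      map_mul' := fun a b => hγ (by rw [map_mul, hr, hr, hr]; exact map_mul red _ _)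
      map_zero' := hγ (by rw [hr, map_zero]; exact map_zero red)
      map_add' := fun a b => hγ (by rw [map_add, hr, hr, hr]; exact map_add red _ _) }
  refine ⟨r', fun s x => (hr s).trans (by rw [s.2.1 y x]), fun b => ?_, ?_,
    Module.Flat.of_linearEquiv (GMkrEv O y).toLinearEquiv⟩
  · obtain ⟨s, hs1, hs2⟩ := h2 (γ b) ((hB _).1 ⟨b, rfl⟩)
    exact ⟨(GMkrEv O y).symm ⟨s, hs1⟩, hγ ((hr _).trans hs2)⟩
  · apply le_antisymm
    · intro s hs1
      have h4 : GMkrEv O y s ∈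
          (maximalIdeal A).map (algebraMap A (⨅ x, O x : Subalgebra A K')) := by
        rw [← h3, RingHom.mem_ker]
        change red (s.1 y) = 0
        rw [← hr, show r s = 0 from hs1, map_zero]
      have h5 := Ideal.mem_map_of_mem ((GMkrEv O y).symm : _ →+* GMkrCS O) h4
      have h6 : ((GMkrEv O y).symm : _ →+* GMkrCS O).comp
          (algebraMap A (⨅ x, O x : Subalgebra A K')) = algebraMap A (GMkrCS O) :=
        RingHom.ext fun a => (GMkrEv O y).symm.commutes a
      rw [Ideal.map_map, h6] at h5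
      rw [← (GMkrEv O y).symm_apply_apply s]
      exact h5
    · rw [Ideal.map_le_iff_le_comap]
      intro a ha
      rw [Ideal.mem_comap, RingHom.mem_ker]
      refine hγ ((hr _).trans ?_)
      rw [map_zero]
      have h4 : algebraMap A K' a ∈ RingHom.ker red := hk ▸ Ideal.mem_map_of_mem _ ha
      exact h4

theorem GMkr_empty [IsLocalRing A] {R B : Type u} [CommRing R] [Algebra A R] [Subsingleton R]
    [CommRing B] [Subsingleton B] : ∃ r : R →+* B, Surjective r ∧
      RingHom.ker r = (maximalIdeal A).map (algebraMap A R) ∧ Module.Flat A R :=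
  ⟨{ toFun := fun _ => 0
     map_one' := Subsingleton.elim _ _
     map_mul' := fun _ _ => Subsingleton.elim _ _
     map_zero' := rfl
     map_add' := fun _ _ => Subsingleton.elim _ _ },
    fun _ => ⟨0, Subsingleton.elim _ _⟩, Subsingleton.elim _ _, inferInstance⟩

end Algebra

theorem GMkr_sub {X : Scheme.{u}} (U : X.Opens) (h : ¬ ∃ x, x ∈ U) : Subsingleton Γ(X, U) := by
  have : U = ⊥ := eq_bot_iff.2 fun x hx => (h ⟨x, hx⟩).elim
  subst this
  infer_instance

theorem GMkr_ext {X : Scheme.{u}} [IsIntegral X] (U : X.Opens) (a b : Γ(X, U))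
    (h : ∀ (x : X) (_ : x ∈ U) [Nonempty U],
      (X.germToFunctionField U).hom a = (X.germToFunctionField U).hom b) : a = b := by
  by_cases hU : ∃ x, x ∈ U
  · obtain ⟨x, hx⟩ := hU
    have : Nonempty U := ⟨⟨x, hx⟩⟩
    exact X.germToFunctionField_injective U (h x hx)
  · exact (GMkr_sub U hU).elim a b

theorem GMkr_red {k : Type u} [Field k] [IsAlgClosed k] {X : Scheme.{u}} [IsIntegral X]
    (f : X ⟶ Spec (.of k)) [SmoothOfRelativeDimension 1 f]
    {A K' : Type u} [CommRing A] [IsLocalRing A] [IsArtinianRing A] [CommRing K'] [Algebra A K']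
    [Module.Flat A K'] (red : K' →+* X.functionField)
    (hs : Surjective red) (hk : RingHom.ker red = (maximalIdeal A).map (algebraMap A K'))
    (O' : X → Subalgebra A K') (hO : ∀ x b, b ∈ Ox x ↔ ∃ b' ∈ O' x, red b' = b)
    (hfl : ∀ x, Module.Flat A (K' ⧸ Subalgebra.toSubmodule (O' x))) (U : X.affineOpens)
    (hfin : ∀ b', {x : X | x ∈ U.1 ∧ b' ∉ O' x}.Finite) :
    ∃ r : GMkrCS (fun x : {x : X // x ∈ U.1} => O' x.1) →+* Γ(X, U.1),
      (∀ [Nonempty U.1] s x, (X.germToFunctionField U.1).hom (r s) = red (s.1 x)) ∧ Surjective r ∧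
      RingHom.ker r = (maximalIdeal A).map (algebraMap A _) ∧
      Module.Flat A (GMkrCS fun x : {x : X // x ∈ U.1} => O' x.1) := by
  by_cases hU : ∃ x, x ∈ U.1
  · obtain ⟨y, hy⟩ := hU
    have : Nonempty U.1 := ⟨⟨y, hy⟩⟩
    obtain ⟨r, h1, h2⟩ := GMkr_alg red hs hk (fun x : {x : X // x ∈ U.1} => O' x.1)
      (fun x => hfl x.1)
      (fun b' => ((hfin b').preimage Subtype.val_injective.injOn).subset fun x hx => ⟨x.2, hx⟩)
      (fun x₀ b => by
        obtain ⟨b₀, h1, h2⟩ := aff_crt f U.1 U.2 x₀.1 x₀.2 b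
        exact ⟨b₀, (hO _ _).1 h1, fun x hx => (hO _ _).1 (h2 x.1 x.2 fun e => hx (Subtype.ext e))⟩)
      (X.germToFunctionField U.1).hom (X.germToFunctionField_injective U.1)
      (fun b => (range_germ U.1 U.2 b).trans
        ⟨fun h x => (hO _ _).1 (h x.1 x.2), fun h x hx => (hO _ _).2 (h ⟨x, hx⟩)⟩) ⟨y, hy⟩
    exact ⟨r, fun s x => h1 s x, h2⟩
  · have := GMkr_sub U.1 hU
    have : IsEmpty {x : X // x ∈ U.1} := ⟨fun x => hU ⟨x.1, x.2⟩⟩
    obtain ⟨r, h⟩ := GMkr_empty (A := A) (R := GMkrCS fun x : {x : X // x ∈ U.1} => O' x.1)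
      (B := Γ(X, U.1))
    exact ⟨r, fun _ x => isEmptyElim x, h⟩

/-- Apply `glue` with `R U` the subalgebra of `U → K'` of the constant functions `s` with `s x ∈ O' x`,
`T g U V s x = T' g (s (ρ g x))`.  For empty `U` everything is trivial; for non-empty `U` evaluation at
a point identifies `R U` with `⨅ x : U, O' x`, `red U s` is the section with germ `red (s x)`
(`range_germ`, `germToFunctionField_injective`), and `inter`, `aff_crt`, `fT_germ`, `fa_germ` apply. -/
theorem lifts_of_model {k : Type u} [Field k] [IsAlgClosed k] {X : Scheme.{u}} [IsIntegral X]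
    (f : X ⟶ Spec (.of k)) [SmoothOfRelativeDimension 1 f] {G : Type*} [Group G] (ρ : G →* Aut X)
    {A K' : Type u} [CommRing A] [IsLocalRing A] [IsArtinianRing A] [CommRing K'] [Algebra A K']
    [Module.Flat A K'] (π : A →+* k) (hπ : Surjective π) (red : K' →+* X.functionField)
    (hs : Surjective red) (hk : RingHom.ker red = (maximalIdeal A).map (algebraMap A K'))
    (ha : ∀ a, red (algebraMap A K' a) = fa f (π a)) (T' : G → K' →ₐ[A] K')
    (hT' : RA fun g b => T' g b) (hr : ∀ g b, red (T' g b) = fT (ρ g) (red b))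
    (O' : X → Subalgebra A K') (hO : ∀ x b, b ∈ Ox x ↔ ∃ b' ∈ O' x, red b' = b)
    (hfl : ∀ x, Module.Flat A (K' ⧸ Subalgebra.toSubmodule (O' x)))
    (hG : ∀ g x, ∀ b ∈ O' ((ρ g).hom x), T' g b ∈ O' x)
    (hfin : ∀ U : X.affineOpens, ∀ b', {x : X | x ∈ U.1 ∧ b' ∉ O' x}.Finite) : LiftsTo f ρ π := by
  have := SmoothOfRelativeDimension.smooth 1 f
  choose r h1 h2 h3 h4 using fun U => GMkr_red f red hs hk O' hO hfl U (hfin U)
  refine glue f ρ π hπ (fun U => GMkrCS fun x : {x : X // x ∈ U.1} => O' x.1)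
    (fun g U V h => GMkrT _ _ (fun x => ⟨(ρ g).hom x.1, h x.2⟩) (T' g) fun x => hG g x.1) r
    (fun U h s => Subtype.ext (funext fun x => (hT'.one _).trans (s.2.1 _ _)))
    (fun g g' U V W h h' h'' s => Subtype.ext (funext fun x =>
      (hT'.mul g g' _).symm.trans (congrArg (T' (g * g')) (s.2.1 _ _))))
    (fun g U V h s => GMkr_ext _ _ _ fun x hx _ => ?_) (fun U a => GMkr_ext _ _ _ fun x hx _ => ?_)
    h2 h3 h4
  · have : Nonempty U.1 := ⟨⟨(ρ g).hom x, h hx⟩⟩
    rw [h1 V _ ⟨x, hx⟩, ← fT_germ (ρ g) U.1 V.1 h, h1 U s ⟨(ρ g).hom x, h hx⟩]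
    exact hr g _
  · rw [h1 U _ ⟨x, hx⟩, ← fa_germ f U.1]
    exact ha a

end Pool.Agent.MP_deef5c_ag.O

end

section

/-! A common base for finitely many local lifts. -/

open CategoryTheory AlgebraicGeometry IsLocalRing Function
open scoped Polynomial PowerSeries

namespace Pool.Agent.MP_deef5c_ag.O

universe u

theorem GCom_pow {O : Type u} [CommRing O] (P J : Ideal O) {e : ℕ} (he : P ^ e ≤ J) (hJ : J ≤ P)
    (h : IsPrecomplete J O) : IsPrecomplete P O := by
  refine ⟨fun f hf => ?_⟩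
  have h1 : ∀ m, P ^ ((e + 1) * m) ≤ J ^ m := fun m => by
    rw [pow_mul]
    exact Ideal.pow_right_mono ((Ideal.pow_le_pow_right (Nat.le_succ e)).trans he) m
  obtain ⟨L, hL⟩ := h.prec (f := fun n => f ((e + 1) * n)) fun {m n} hmn =>
    (hf (Nat.mul_le_mul_left (e + 1) hmn)).mono (Submodule.smul_mono_left (h1 m))
  have hle : ∀ n, n ≤ (e + 1) * n := fun n => Nat.le_mul_of_pos_left n (Nat.succ_pos e)
  exact ⟨L, fun n => (hf (hle n)).trans
    ((hL n).mono (Submodule.smul_mono_left (Ideal.pow_right_mono hJ n)))⟩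

theorem GCom_cl (A R : Type u) [CommRing A] [IsLocalRing A] [CL A] [CommRing R] [IsLocalRing R]
    [Algebra A R] [Module.Finite A R] : CL R := by
  have hN : IsNoetherianRing R := IsNoetherianRing.of_finite A R
  have hpre : IsPrecomplete ((maximalIdeal A).map (algebraMap A R)) R :=
    IsPrecomplete.map_algebraMap_iff.2 (Dvr_prec (maximalIdeal A))
  have hJ : (maximalIdeal A).map (algebraMap A R) ≤ maximalIdeal R :=
    Ideal.map_le_iff_le_comap.2 (eq_maximalIdeal
      (Ideal.isMaximal_comap_of_isIntegral_of_isMaximal (R := A) (maximalIdeal R))).ge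
  have hrad : maximalIdeal R ≤ ((maximalIdeal A).map (algebraMap A R)).radical := by
    rw [Ideal.radical_eq_sInf]
    refine le_sInf fun P hP => ?_
    have := hP.2
    have h1 : maximalIdeal A = P.comap (algebraMap A R) :=
      (maximalIdeal.isMaximal A).eq_of_le (Ideal.comap_ne_top _ hP.2.ne_top)
        (Ideal.map_le_iff_le_comap.1 hP.1)
    exact (eq_maximalIdeal (Ideal.isMaximal_of_isIntegral_of_isMaximal_comap (R := A) P
      (h1 ▸ maximalIdeal.isMaximal A))).ge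
  obtain ⟨e, he⟩ := Ideal.exists_pow_le_of_le_radical_of_fg_radical hrad
    (IsNoetherian.noetherian _)
  exact ⟨hN, { toIsHausdorff := inferInstance, toIsPrecomplete := GCom_pow _ _ he hJ hpre }⟩

theorem GCom_sub {A K R T : Type u} [CommRing A] [Field K] [CommRing R] [IsLocalRing R] [CommRing T]
    [Algebra A R] [Algebra A T] [Algebra.IsIntegral A T] (ρ : A →+* K) (hρ : Surjective ρ)
    (π : R →+* K) (hπ : ∀ w, π (algebraMap A R w) = ρ w) (φ : R →ₐ[A] T) (M : Ideal T)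
    [M.IsMaximal] (a : R) : ∃ w, φ a - algebraMap A T w ∈ M ∧ π a = ρ w := by
  obtain ⟨w, hw⟩ := hρ (π a)
  have hs : Surjective π := fun c => by
    obtain ⟨v, rfl⟩ := hρ c
    exact ⟨_, hπ v⟩
  have hint : (φ : R →+* T).IsIntegral := by
    refine RingHom.IsIntegral.tower_top (algebraMap A R) _ ?_
    rw [φ.comp_algebraMap]
    exact algebraMap_isIntegral_iff.2 inferInstance
  have h1 : M.comap (φ : R →+* T) = maximalIdeal R :=
    eq_maximalIdeal (Ideal.isMaximal_comap_of_isIntegral_of_isMaximal' _ hint M)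
  have h2 : a - algebraMap A R w ∈ M.comap (φ : R →+* T) := by
    rw [h1, ← ker_eq_maximalIdeal π hs, RingHom.mem_ker, map_sub, hπ, hw, sub_self]
  rw [Ideal.mem_comap, map_sub, RingHom.coe_coe, φ.commutes] at h2
  exact ⟨w, h2, hw.symm⟩

open scoped TensorProduct in
theorem GCom_common {A K R₁ R₂ : Type u} [CommRing A] [IsDedekindDomain A] [IsLocalRing A] [Field K]
    (ρ : A →+* K) (hρ : Surjective ρ) [CommRing R₁] [IsDomain R₁] [IsLocalRing R₁] [Algebra A R₁]
    [Module.Finite A R₁] [FaithfulSMul A R₁] [CommRing R₂] [IsLocalRing R₂] [Algebra A R₂]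
    [Module.Finite A R₂] [FaithfulSMul A R₂] (π₁ : R₁ →+* K) (π₂ : R₂ →+* K)
    (h₁ : ∀ w, π₁ (algebraMap A R₁ w) = ρ w) (h₂ : ∀ w, π₂ (algebraMap A R₂ w) = ρ w)
    (q : A) (hq : q ≠ 0) :
    ∃ (R : Type u) (_ : CommRing R) (_ : IsLocalRing R) (_ : Algebra A R) (π : R →+* K)
      (φ₁ : R₁ →+* R) (φ₂ : R₂ →+* R), IsDomain R ∧ Module.Finite A R ∧
      (∀ w, π (algebraMap A R w) = ρ w) ∧ algebraMap A R q ≠ 0 ∧ (∀ a, π (φ₁ a) = π₁ a) ∧
      ∀ a, π (φ₂ a) = π₂ a := by
  let _ : Algebra A K := ρ.toAlgebra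
  let a₁ : R₁ →ₐ[A] K := { π₁ with commutes' := h₁ }
  let a₂ : R₂ →ₐ[A] K := { π₂ with commutes' := h₂ }
  obtain ⟨τ, hτ⟩ : ∃ τ : R₁ ⊗[A] R₂ →ₐ[A] K, ∀ a b, τ (a ⊗ₜ b) = π₁ a * π₂ b :=
    ⟨Algebra.TensorProduct.productMap a₁ a₂, fun a b => rfl⟩
  have hτA : ∀ w, τ (algebraMap A _ w) = ρ w := fun w => τ.commutes w
  have hτs : Surjective (τ : R₁ ⊗[A] R₂ →+* K) := fun c => by
    obtain ⟨v, rfl⟩ := hρ c
    exact ⟨_, hτA v⟩
  have hker : ∀ M : Ideal (R₁ ⊗[A] R₂), M.IsMaximal → M = RingHom.ker (τ : R₁ ⊗[A] R₂ →+* K) := by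
    intro M hM
    have key : ∀ t, ∃ w, t - algebraMap A _ w ∈ M ∧ τ t = ρ w := fun t => by
      induction t with
      | zero => exact ⟨0, by simp, by simp⟩
      | tmul a b =>
        obtain ⟨w₁, e₁, f₁⟩ := GCom_sub ρ hρ π₁ h₁ Algebra.TensorProduct.includeLeft M a
        obtain ⟨w₂, e₂, f₂⟩ := GCom_sub ρ hρ π₂ h₂ Algebra.TensorProduct.includeRight M b
        refine ⟨w₁ * w₂, ?_, by rw [hτ, f₁, f₂, map_mul]⟩
        have e₃ : a ⊗ₜ[A] b = (Algebra.TensorProduct.includeLeft : R₁ →ₐ[A] R₁ ⊗[A] R₂) a *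
            (Algebra.TensorProduct.includeRight : R₂ →ₐ[A] R₁ ⊗[A] R₂) b := by simp
        have e₄ := M.add_mem (M.mul_mem_right
          ((Algebra.TensorProduct.includeRight : R₂ →ₐ[A] R₁ ⊗[A] R₂) b) e₁)
          (M.mul_mem_left (algebraMap A _ w₁) e₂)
        rw [e₃, map_mul]
        convert e₄ using 1
        ring
      | add s t hs ht =>
        obtain ⟨w₁, e₁, f₁⟩ := hs
        obtain ⟨w₂, e₂, f₂⟩ := ht
        refine ⟨w₁ + w₂, ?_, by rw [map_add, map_add, f₁, f₂]⟩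
        rw [map_add, add_sub_add_comm]
        exact M.add_mem e₁ e₂
    refine ((RingHom.ker_isMaximal_of_surjective _ hτs).eq_of_le hM.ne_top fun t ht => ?_).symm
    obtain ⟨w, e₁, f₁⟩ := key t
    have h3 : w ∈ M.comap (algebraMap A (R₁ ⊗[A] R₂)) := by
      rw [eq_maximalIdeal (Ideal.isMaximal_comap_of_isIntegral_of_isMaximal (R := A) M),
        ← ker_eq_maximalIdeal ρ hρ, RingHom.mem_ker, ← f₁]
      exact ht
    simpa using M.add_mem e₁ h3
  have hloc : IsLocalRing (R₁ ⊗[A] R₂) :=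
    IsLocalRing.of_unique_max_ideal ⟨_, RingHom.ker_isMaximal_of_surjective _ hτs, hker⟩
  have hinj : Injective (Algebra.TensorProduct.includeLeft : R₁ →ₐ[A] R₁ ⊗[A] R₂) :=
    Algebra.TensorProduct.includeLeft_injective (FaithfulSMul.algebraMap_injective A R₂)
  have hnil : ¬ IsNilpotent (algebraMap A (R₁ ⊗[A] R₂) q) := by
    rintro ⟨n, hn⟩
    rw [← (Algebra.TensorProduct.includeLeft : R₁ →ₐ[A] R₁ ⊗[A] R₂).commutes, ← map_pow,
      map_eq_zero_iff _ hinj, ← map_pow,
      map_eq_zero_iff _ (FaithfulSMul.algebraMap_injective A R₁)] at hn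
    exact pow_ne_zero n hq hn
  rw [nilpotent_iff_mem_prime] at hnil
  push Not at hnil
  obtain ⟨Q, hQ, hqQ⟩ := hnil
  have := local_quot Q hQ.ne_top
  obtain ⟨π, -, hπ⟩ := exists_pi_quot (τ : R₁ ⊗[A] R₂ →+* K) hτs Q hQ.ne_top
  refine ⟨(R₁ ⊗[A] R₂) ⧸ Q, inferInstance, inferInstance, inferInstance, π,
    (Ideal.Quotient.mk Q).comp
      (Algebra.TensorProduct.includeLeft : R₁ →ₐ[A] R₁ ⊗[A] R₂),
    (Ideal.Quotient.mk Q).comp
      (Algebra.TensorProduct.includeRight : R₂ →ₐ[A] R₁ ⊗[A] R₂), inferInstance, inferInstance,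
    fun w => (hπ _).trans (hτA w), fun e => hqQ (Ideal.Quotient.eq_zero_iff_mem.1 e),
    fun a => (hπ _).trans ?_, fun a => (hπ _).trans ?_⟩
  · exact (hτ a 1).trans (by simp)
  · exact (hτ 1 a).trans (by simp)

theorem GCom_art {K O : Type u} [Field K] [CommRing O] [IsDomain O] [IsLocalRing O]
    [IsNoetherianRing O] (π : O →+* K) (hπ : Surjective π) (q : O) (h0 : q ≠ 0) :
    ∃ (A : Type u) (_ : CommRing A) (_ : IsLocalRing A) (_ : IsArtinianRing A) (π' : A →+* K)
      (φ : O →+* A), Surjective π' ∧ φ q ≠ 0 ∧ ∀ a, π' (φ a) = π a := by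
  have h1 : ∃ M : ℕ, q ∉ maximalIdeal O ^ M := by
    by_contra hc
    push Not at hc
    have h2 : q ∈ ⨅ M : ℕ, maximalIdeal O ^ M := Ideal.mem_iInf.2 hc
    rw [Ideal.iInf_pow_eq_bot_of_isLocalRing _ (maximalIdeal.isMaximal O).ne_top] at h2
    exact h0 h2
  obtain ⟨M, hM⟩ := h1
  have hJ : maximalIdeal O ^ M ≠ ⊤ := fun e => hM (by rw [e]; trivial)
  have := local_quot _ hJ
  obtain ⟨π', hπ', hφ⟩ := exists_pi_quot π hπ _ hJ
  have : IsArtinianRing (O ⧸ maximalIdeal O ^ M) := by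
    rw [isArtinianRing_iff_isNilpotent_maximalIdeal,
      ← map_maximalIdeal_of_surjective (Ideal.Quotient.mk (maximalIdeal O ^ M))
        Ideal.Quotient.mk_surjective]
    exact ⟨M, by rw [← Ideal.map_pow, Ideal.map_quotient_self]; rfl⟩
  exact ⟨O ⧸ maximalIdeal O ^ M, inferInstance, inferInstance, inferInstance, π',
    Ideal.Quotient.mk _, hπ', fun e => hM (Ideal.Quotient.eq_zero_iff_mem.1 e), hφ⟩

variable (p : ℕ) [Fact p.Prime] {k : Type u} [Field k] [CharP k p] [PerfectRing k p]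

theorem GCom_surj {R : Type u} [CommRing R] [Algebra (WittVector p k) R] {π : R →+* k}
    (h : FW p π) : Surjective π := fun c =>
  ⟨algebraMap (WittVector p k) R (WittVector.teichmuller p c), h.alg _⟩

theorem GCom_faithful {R : Type u} [CommRing R] [Algebra (WittVector p k) R] {π : R →+* k}
    (h : FW p π) : FaithfulSMul (WittVector p k) R := by
  have := h.dom
  rw [faithfulSMul_iff_algebraMap_injective, injective_iff_map_eq_zero]
  intro w hw
  by_contra h0
  obtain ⟨n, u, rfl⟩ := WittVector.exists_eq_pow_p_mul' w h0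
  rw [map_mul, map_pow, map_natCast] at hw
  exact mul_ne_zero (pow_ne_zero _ h.ne) (u.isUnit.map _).ne_zero hw

theorem GCom_witt : FW p (WittVector.constantCoeff : WittVector p k →+* k) :=
  ⟨inferInstance, inferInstance, fun _ => rfl, WittVector.p_nonzero p k⟩

/-- a finite module over the complete Noetherian ring `W` is `p`-adically complete, and a power of the
maximal ideal lies in `(p)` -/
theorem FW.cl {R : Type u} [CommRing R] [IsLocalRing R] [Algebra (WittVector p k) R] {π : R →+* k}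
    (h : FW p π) : CL R := by
  have := (witt_cl p k).1
  have := h.fin
  exact GCom_cl (WittVector p k) R

/-- `T = R₁ ⊗_W R₂` is finite and flat over `W` (torsion-free modules over a valuation ring); every
maximal ideal of `T` contains `p` and the maximal ideals of the `R_i` (integrality), and
`R_i = W + m_i`, so it is the kernel of the map `T → k` induced by `π₁`, `π₂`; a minimal prime `Q` of `T`
consists of zero-divisors, so `p ∉ Q`; `R = T ⧸ Q`. -/
theorem common {R₁ R₂ : Type u} [CommRing R₁] [IsLocalRing R₁] [Algebra (WittVector p k) R₁]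
    [CommRing R₂] [IsLocalRing R₂] [Algebra (WittVector p k) R₂] {π₁ : R₁ →+* k} {π₂ : R₂ →+* k}
    (h₁ : FW p π₁) (h₂ : FW p π₂) :
    ∃ (R : Type u) (_ : CommRing R) (_ : IsLocalRing R) (_ : Algebra (WittVector p k) R)
      (π : R →+* k) (φ₁ : R₁ →+* R) (φ₂ : R₂ →+* R), FW p π ∧ (∀ a, π (φ₁ a) = π₁ a) ∧
      ∀ a, π (φ₂ a) = π₂ a := by
  have := h₁.dom
  have := h₁.fin
  have := h₂.fin
  have := GCom_faithful p h₁
  have := GCom_faithful p h₂
  obtain ⟨R, _, _, _, π, φ₁, φ₂, e₁, e₂, e₃, e₄, e₅, e₆⟩ :=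
    GCom_common (WittVector.constantCoeff : WittVector p k →+* k) (GCom_surj p (GCom_witt p))
      π₁ π₂ h₁.alg h₂.alg p (WittVector.p_nonzero p k)
  rw [map_natCast] at e₄
  exact ⟨R, inferInstance, inferInstance, inferInstance, π, φ₁, φ₂, ⟨e₁, e₂, e₃, e₄⟩, e₅, e₆⟩

theorem GCom_ind {Y : Type u} (S : Set Y) (hS : S.Finite) (H : Y → Type*) [∀ x, Group (H x)]
    (ρx : ∀ x, H x →* (k⟦X⟧ ≃ₐ[k] k⟦X⟧))
    (h : ∀ x ∈ S, ∃ (R : Type u) (_ : CommRing R) (_ : IsLocalRing R)
      (_ : Algebra (WittVector p k) R) (π : R →+* k), FW p π ∧ LocLifts (ρx x) π) :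
    ∃ (R : Type u) (_ : CommRing R) (_ : IsLocalRing R) (_ : Algebra (WittVector p k) R)
      (π : R →+* k), FW p π ∧ ∀ x ∈ S, LocLifts (ρx x) π := by
  induction S, hS using Set.Finite.induction_on with
  | empty =>
    exact ⟨WittVector p k, inferInstance, inferInstance, inferInstance, WittVector.constantCoeff,
      GCom_witt p, fun x hx => hx.elim⟩
  | @insert a s _ _ ih =>
    obtain ⟨R₁, _, _, _, π₁, h₁, l₁⟩ := h a (Set.mem_insert a s)
    obtain ⟨R₂, _, _, _, π₂, h₂, l₂⟩ := ih fun x hx => h x (Set.mem_insert_of_mem a hx)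
    obtain ⟨R, _, _, _, π, φ₁, φ₂, hR, e₁, e₂⟩ := common p h₁ h₂
    have := FW.cl p hR
    refine ⟨R, inferInstance, inferInstance, inferInstance, π, hR, fun x hx => ?_⟩
    rcases hx with rfl | hx
    · exact l₁.map φ₁ π (GCom_surj p hR) e₁
    · exact (l₂ x hx).map φ₂ π (GCom_surj p hR) e₂

/-- induction on the finite set with `common`, `FW.cl`, `LocLifts.map`, starting from `W`; then
`A = R ⧸ m^M` with `p^N ∉ m^M` -/
theorem common_art {Y : Type u} (S : Set Y) (hS : S.Finite) (H : Y → Type*) [∀ x, Group (H x)]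
    (ρx : ∀ x, H x →* (k⟦X⟧ ≃ₐ[k] k⟦X⟧))
    (h : ∀ x ∈ S, ∃ (R : Type u) (_ : CommRing R) (_ : IsLocalRing R)
      (_ : Algebra (WittVector p k) R) (π : R →+* k), FW p π ∧ LocLifts (ρx x) π) (N : ℕ) :
    ∃ (A : Type u) (_ : CommRing A) (_ : IsLocalRing A) (_ : IsArtinianRing A) (π : A →+* k),
      Surjective π ∧ (p : A) ^ N ≠ 0 ∧ ∀ x ∈ S, LocLifts (ρx x) π := by
  obtain ⟨R, _, _, _, π, hR, l⟩ := GCom_ind p S hS H ρx h
  have := hR.dom
  have := FW.cl p hR
  obtain ⟨A, _, _, _, π', φ, e₁, e₂, e₃⟩ :=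
    GCom_art π (GCom_surj p hR) ((p : R) ^ N) (pow_ne_zero N hR.ne)
  rw [map_pow, map_natCast] at e₂
  have : CL A := ⟨inferInstance, inferInstance⟩
  exact ⟨A, inferInstance, inferInstance, inferInstance, π', e₁, e₂,
    fun x hx => (l x hx).map φ π' e₁ e₃⟩

end Pool.Agent.MP_deef5c_ag.O

end

section

/-! The local-global principle and the global theorem. -/

open CategoryTheory AlgebraicGeometry IsLocalRing Function
open scoped Polynomial PowerSeries

namespace Pool.Agent.MP_deef5c_ag.O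

universe u

variable {k : Type u} [Field k] [IsAlgClosed k] {X : Scheme.{u}} [IsIntegral X]
  (f : X ⟶ Spec (.of k)) [IsSeparated f] [SmoothOfRelativeDimension 1 f]
  {G : Type*} [Group G] (ρ : G →* Aut X)

/-- the local data at a point -/
def LD (x : X) (ρx : stab ρ x →* (k⟦X⟧ ≃ₐ[k] k⟦X⟧)) : Prop :=
  Ox x = ⊤ ∨ (IsClosed {x} ∧ ∃ (j : X.functionField →+* LaurentSeries k) (t : X.functionField),
    (letI := (fa f).toAlgebra; CP (Ox x) j t) ∧ LA (fun h : stab ρ x => fT (ρ h)) j ρx)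

theorem exists_ld (hρ : Injective ρ) (hρk : ∀ g, (ρ g).hom ≫ f = f) (x : X) :
    ∃ ρx, LD f ρ x ρx := by
  letI := (fa f).toAlgebra
  rcases point_cases f x with h | ⟨hx, j, t, C⟩
  · exact ⟨1, Or.inl h⟩
  · obtain ⟨ρx, h⟩ := exists_la C (fun h : stab ρ x => fT (ρ h))
      ⟨fun b => (fT_ra ρ).one b, fun g h b => (fT_ra ρ).mul g h b⟩
      (fun g c => fT_fa f _ (hρk g) c)
      (fun h b hb => (fT_mem (ρ h) x b).1 (by rwa [show (ρ h).hom x = x from h.2]))
      (fun h hh => Subtype.ext (hρ ((fT_faithful f _ (hρk h) hh).trans (map_one ρ).symm)))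
    exact ⟨ρx, Or.inr ⟨hx, j, t, C, h⟩⟩

/-- local-global principle: local lifts at all points give a global lift -/
theorem loc_glob [Finite G] (hρk : ∀ g, (ρ g).hom ≫ f = f)
    (ρx : ∀ x, stab ρ x →* (k⟦X⟧ ≃ₐ[k] k⟦X⟧)) (hd : ∀ x, LD f ρ x (ρx x))
    {A : Type u} [CommRing A] [IsLocalRing A] [IsArtinianRing A] (π : A →+* k) (hπ : Surjective π)
    (hl : ∀ x, IsClosed {x} → LocLifts (ρx x) π) : LiftsTo f ρ π := by
  letI := (fa f).toAlgebra
  obtain ⟨h1, h2⟩ := omega_rank f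
  have hk : ∀ g c, fT (ρ g) (algebraMap k X.functionField c) = algebraMap k X.functionField c :=
    fun g c => fT_fa f _ (hρk g) c
  obtain ⟨F, θ, P, hF, ht, hP, e1, e2, e3⟩ := exists_sep h2 (fun g => fT (ρ g)) (fT_ra ρ) hk
  obtain ⟨K', _, _, red, F', L⟩ := exists_kl π hπ F θ P ht hP e1 e2 e3
  obtain ⟨T', hT', hr, hF'⟩ := kl_act L (fun g => fT (ρ g)) (fT_ra ρ) hk hF
  obtain ⟨O', hO, hG⟩ := model (red := red) (f := F) (f' := F') (fun g x => (ρ g).hom x)
    (fun x => by rw [map_one]; rfl)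
    (fun g h x => by
      rw [map_mul]
      exact Scheme.Hom.comp_apply (ρ h).hom (ρ g).hom x)
    (fun g => fT (ρ g)) (fT_ra ρ) hF T' hT' hr hF' Ox (fun g x b => fT_mem (ρ g) x b) fun x => by
      rcases hd x with h | ⟨hx, j, t, C, h⟩
      · exact ⟨⊤, h ▸ pm_top L.surj F F', fun _ _ _ _ => trivial⟩
      · obtain ⟨O', h1, h2⟩ := loc_model hπ L C (fun h : stab ρ x => fT (ρ h)) (fun h => T' h)
          (fun h b => hr h b) (fun h => hF' h) h (hl x hx)
        exact ⟨O', h1, fun g hg => h2 ⟨g, hg⟩⟩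
  have := L.flat
  refine lifts_of_model f ρ π hπ red L.surj L.ker L.alg T' hT' hr O' (fun x => (hO x).mem)
    (fun x => (hO x).flat) hG fun U b' => ?_
  obtain ⟨Z, hZ⟩ := L.fin b'
  refine ((aff_fin f U.1 U.2 F).union (Z.finite_toSet.biUnion fun z _ => aff_fin f U.1 U.2 z)).subset
    fun x hx => ?_
  by_contra hn
  simp only [Set.mem_union, Set.mem_setOf_eq, Set.mem_iUnion, not_or, not_and, not_not,
    not_exists] at hn
  exact hx.2 (hZ _ ((hO x).hf (hn.1 hx.1)) fun z hz => ((hO x).mem z).1 (hn.2 z hz hx.1))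

theorem gfinal (p : ℕ) [Fact p.Prime] [CharP k p] [QuasiCompact f] [Finite G] (hρ : Injective ρ)
    (hρk : ∀ g, (ρ g).hom ≫ f = f)
    (hG : ∀ x : X, IsClosed {x} → ∀ P : Sylow p (stab ρ x), IsCyclic P) :
    List.TFAE [
      ∀ N : ℕ, ∃ (A : Type u) (_ : CommRing A) (_ : IsLocalRing A) (_ : IsArtinianRing A)
        (π : A →+* k), Surjective π ∧ (p : A) ^ N ≠ 0 ∧ LiftsTo f ρ π,
      ∃ (A : Type u) (_ : CommRing A) (_ : IsLocalRing A) (_ : IsArtinianRing A)
        (π : A →+* k), Surjective π ∧ (p : A) ≠ 0 ∧ LiftsTo f ρ π,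
      ∀ x : X, IsClosed {x} → GC p ρ x] := by
  choose ρx hd using exists_ld f ρ hρ hρk
  tfae_have 1 → 2 := fun h => by
    obtain ⟨A, _, _, _, π, hπ, h1, h2⟩ := h 1
    exact ⟨A, _, ‹_›, ‹_›, π, hπ, by simpa using h1, h2⟩
  tfae_have 2 → 3 := by
    rintro ⟨A, _, _, _, π, hπ, h1, h2⟩ x hx
    rcases hd x with h | ⟨-, j, t, C, h⟩
    · left
      rw [stab_bot f ρ hρ hρk x hx h]
      infer_instance
    · exact (gc_iff p f ρ (hG x hx) C h).2
        (lc_of_lifts p f ρ hρ hρk hx (hG x hx) C h A π hπ h1 h2)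
  tfae_have 3 → 1 := fun h N => by
    obtain ⟨A, _, _, _, π, hπ, h1, h2⟩ := common_art p _ (ram_fin f ρ hρ hρk)
      (fun x => stab ρ x) ρx (fun x hx => by
        rcases hd x with h' | ⟨-, j, t, C, h'⟩
        · exact absurd (stab_bot f ρ hρ hρk x hx.1 h') hx.2
        · exact three_one' p (hG x hx.1) (ρx x) h'.1
            ((gc_iff p f ρ (hG x hx.1) C h').1 (h x hx.1))) N
    refine ⟨A, _, ‹_›, ‹_›, π, hπ, h1, loc_glob f ρ hρk ρx hd π hπ fun x hx => ?_⟩
    by_cases hb : stab ρ x = ⊥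
    · refine ⟨1, fun g φ => ?_⟩
      have : g = 1 := Subtype.ext (Subgroup.mem_bot.1 (hb ▸ g.2))
      simp [this]
    · exact h2 x ⟨hx, hb⟩
  tfae_finish

end Pool.Agent.MP_deef5c_ag.O

end
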