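import Pool.Agent.Mg.Fdeef5c.G30175f
import Pool.Agent.Mg.Fdeef5c.Gbe004d
import Pool.Agent.Mg.Fdeef5c.G65843d
import Pool.Agent.Mg.Fdeef5c.Gb63dfd
import Pool.Agent.Mg.Fdeef5c.G6583b2
import Pool.Agent.Mg.Fdeef5c.G5297dc
import Pool.Agent.Mg.Fdeef5c.G1be627
import Pool.Agent.Mg.Fdeef5c.Gff4579
import Pool.Agent.MP_deef5c_ag.E.VDef

section

/-! The local action lifts to a ring in which three is not zero. -/

open PowerSeries IsLocalRing Function Pool.Agent.MP_deef5c_ag.O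
open scoped Polynomial

namespace Pool.Agent.MP_deef5c_ag.E

universe u

theorem lift_a {k : Type u} [Field k] [IsAlgClosed k] [CharP k 3] {c : k} (hc : c - c ^ 3 = 1)
    {ρ : EE →* (k⟦X⟧ ≃ₐ[k] k⟦X⟧)} {x₀ s₀ : k⟦X⟧} (M : Mod c ρ x₀ s₀) :
    ∃ (A : Type u) (_ : CommRing A) (_ : IsLocalRing A) (_ : IsArtinianRing A)
      (_ : Algebra (WittVector 3 k) A) (π : A →+* k),
      (∀ w, π (algebraMap (WittVector 3 k) A w) = w.coeff 0) ∧ (3 : A) ≠ 0 ∧ LocLifts ρ π := by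
  obtain ⟨A, _, _, _, _, π, Φ, v1, v2, u2, u3, h0, h1, hπ, h3, hΦ, H⟩ := exists_cert k
  have hs : Surjective π := fun a => ⟨algebraMap _ A (WittVector.teichmuller 3 a), by
    rw [hπ, WittVector.teichmuller_coeff_zero]⟩
  have D := dat_of_cert hΦ π hs H
  obtain ⟨x, σ, S⟩ := slv hΦ π hs D
  obtain ⟨r, w, β, ρ₁, ω, h⟩ := exists_dl hΦ π hs D hc S
  obtain ⟨Sg, τ, g1, g2, g3, g4, g5, g6, g7⟩ := top_a hΦ π hs S h
  obtain ⟨ξ, g8, g9⟩ := top_b hΦ H.three π hs S h g3 g6 g7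
  exact ⟨A, _, ‹_›, ‹_›, ‹_›, π, hπ, h3, lift_of π hs S h g1 g2 g3 g4 g5 g8 g9 M⟩

end Pool.Agent.MP_deef5c_ag.E

end

section

/-! The data on the top curve over an Artinian ring. -/

open PowerSeries IsLocalRing Function Pool.Agent.MP_deef5c_ag.O
open scoped Polynomial

namespace Pool.Agent.MP_deef5c_ag.E

universe u

/-- Second order Taylor formula.  With `ε = σ X - X`, `f ↦ f + f' ε` is a ring homomorphism to the quotient
by `ε^2`; use `ringHom_ext_of_mem` as in `sub_dvd` (`O/Base.lean`). -/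
theorem tay2 {D : Type u} [CommRing D] [IsLocalRing D] [CL D] (σ : En D)
    (hσ : constantCoeff (σ X) ∈ maximalIdeal D) (f : D⟦X⟧) :
    (σ X - X) ^ 2 ∣ σ f - f - d⁄dX D f * (σ X - X) := by
  set ε : D⟦X⟧ := σ X - X with hε
  set J : Ideal D⟦X⟧ := Ideal.span {ε ^ 2} with hJ
  have hH : IsHausdorff ((maximalIdeal D⟦X⟧).map (algebraMap D⟦X⟧ (D⟦X⟧ ⧸ J))) (D⟦X⟧ ⧸ J) :=
    IsHausdorff.map_algebraMap_iff.2 inferInstance
  let ψ : D⟦X⟧ →+* D⟦X⟧ ⧸ J :=
    { toFun := fun f => Ideal.Quotient.mk J (f + d⁄dX D f * ε)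
      map_one' := by simp
      map_mul' := fun f g => by
        rw [← map_mul]
        refine Ideal.Quotient.eq.2 (Ideal.mem_span_singleton.2 ⟨-(d⁄dX D f * d⁄dX D g), ?_⟩)
        rw [Derivation.leibniz, smul_eq_mul, smul_eq_mul]
        ring
      map_zero' := by simp
      map_add' := fun f g => by
        rw [← map_add, map_add (d⁄dX D)]
        congr 1
        ring }
  have h1 : (Ideal.Quotient.mk J).comp (σ : D⟦X⟧ →+* D⟦X⟧) = ψ := by
    refine ringHom_ext_of_mem ((maximalIdeal D⟦X⟧).map (algebraMap D⟦X⟧ (D⟦X⟧ ⧸ J))) _ _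
      (fun a => ?_) ?_ ?_
    · show Ideal.Quotient.mk J (σ (C a)) = Ideal.Quotient.mk J (C a + d⁄dX D (C a) * ε)
      rw [Base_en_C, derivative_C, zero_mul, add_zero]
    · show Ideal.Quotient.mk J (σ X) = Ideal.Quotient.mk J (X + d⁄dX D X * ε)
      rw [derivative_X, one_mul, hε, add_sub_cancel]
    · exact Ideal.mem_map_of_mem _ ((mem_max_iff _).2 hσ)
  have h2 : Ideal.Quotient.mk J (σ f) = Ideal.Quotient.mk J (f + d⁄dX D f * ε) :=
    RingHom.congr_fun h1 f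
  have h3 := Ideal.mem_span_singleton.1 (Ideal.Quotient.eq.1 h2)
  rwa [← sub_sub] at h3

variable {A k : Type u} [CommRing A] [IsLocalRing A] [IsArtinianRing A] [Field k] [CharP k 3]

theorem BT_lin {ρ : EE →* (k⟦X⟧ ≃ₐ[k] k⟦X⟧)} {l₁ l₂ y₁ y₂ : k} (L : Ld ρ l₁ l₂ y₁ y₂)
    (c : Fin 4) : lin2 l₁ l₂ (rh c) ≠ 0 := by
  have h3 : (3 : k) = 0 := CharP.cast_eq_zero k 3
  have v0 : (0 : ZMod 3).val = 0 := rfl
  have v1 : (1 : ZMod 3).val = 1 := rfl
  have v2 : (-1 : ZMod 3).val = 2 := rfl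
  fin_cases c
  · show ((0 : ZMod 3).val : k) * l₁ + ((1 : ZMod 3).val : k) * l₂ ≠ 0
    rw [v0, v1]
    intro h
    exact L.n2 (by push_cast at h; linear_combination h)
  · show ((1 : ZMod 3).val : k) * l₁ + ((0 : ZMod 3).val : k) * l₂ ≠ 0
    rw [v0, v1]
    intro h
    exact L.n1 (by push_cast at h; linear_combination h)
  · show ((1 : ZMod 3).val : k) * l₁ + ((-1 : ZMod 3).val : k) * l₂ ≠ 0
    rw [v1, v2]
    intro h
    exact L.n4 (by push_cast at h; linear_combination h - l₂ * h3)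
  · show ((1 : ZMod 3).val : k) * l₁ + ((1 : ZMod 3).val : k) * l₂ ≠ 0
    rw [v1]
    intro h
    exact L.n3 (by push_cast at h; linear_combination h)

theorem BT_cube (c : Fin 4) : rh c * (rh c * rh c) = 1 := by
  fin_cases c <;> decide

omit [CharP k 3] in
theorem BT_c0 {ρ : EE →* (k⟦X⟧ ≃ₐ[k] k⟦X⟧)} {l₁ l₂ y₁ y₂ : k} (L : Ld ρ l₁ l₂ y₁ y₂)
    (g : EE) : constantCoeff (ρ g X) = 0 := by
  obtain ⟨q, hq⟩ := L.ld g
  have h := congrArg (constantCoeff (R := k)) hq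
  simpa using h

theorem BT_ord {ρ : EE →* (k⟦X⟧ ≃ₐ[k] k⟦X⟧)} {l₁ l₂ y₁ y₂ : k} (L : Ld ρ l₁ l₂ y₁ y₂)
    (c : Fin 4) : order (ρ (rh c) X - X) = (9 : ℕ) := by
  obtain ⟨q, hq⟩ := L.ld (rh c)
  have h : ρ (rh c) X - X =
      X ^ 9 * (C (lin2 l₁ l₂ (rh c)) + C (lin2 y₁ y₂ (rh c)) * X ^ 3 + X ^ 4 * q) := by
    linear_combination hq
  have h0 : order (C (lin2 l₁ l₂ (rh c)) + C (lin2 y₁ y₂ (rh c)) * X ^ 3 + X ^ 4 * q) = 0 := by
    by_contra hne
    have := coeff_of_lt_order (φ := C (lin2 l₁ l₂ (rh c)) + C (lin2 y₁ y₂ (rh c)) * X ^ 3 +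
      X ^ 4 * q) 0 (by simpa [pos_iff_ne_zero] using hne)
    exact BT_lin L c (by simpa using this)
  rw [h, order_mul, h0, order_X_pow, add_zero]

omit [CharP k 3] in
/-- the relation `1 + z + z^2 = 0` on the fixed locus of an automorphism of order three -/
theorem BT_z3 (π : A →+* k) (hπ : Surjective π) (σ : En A)
    (hσ : constantCoeff (σ X) ∈ maximalIdeal A) (h3 : σ (σ (σ X)) = X)
    (h0 : PowerSeries.map π (σ X - X) ≠ 0) :
    σ X - X ∣ 1 + d⁄dX A (σ X) + d⁄dX A (σ X) ^ 2 := by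
  obtain ⟨t, ht⟩ := tay2 σ hσ (σ X - X)
  rw [map_sub (d⁄dX A), derivative_X] at ht
  set ε : A⟦X⟧ := σ X - X with hε
  set z : A⟦X⟧ := d⁄dX A (σ X) with hz
  have hc : σ ε = ε * (z + ε * t) := by linear_combination ht
  obtain ⟨s, hs⟩ := sub_dvd σ 1 hσ (by simp) (z + ε * t)
  have hs' : σ (z + ε * t) = z + ε * t + ε * s := by
    rw [AlgHom.one_apply, AlgHom.one_apply] at hs
    linear_combination hs
  have h1 : ε + σ ε + σ (σ ε) = 0 := by
    rw [hε, map_sub, map_sub, h3]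
    ring
  have h2 : 1 + (z + ε * t) + (z + ε * t) * (z + ε * t + ε * s) = 0 := by
    refine nzd π hπ h0 ?_
    rw [hc, map_mul, hc, hs'] at h1
    linear_combination h1
  exact ⟨-(t + 2 * z * t + ε * t ^ 2 + z * s + ε * t * s), by linear_combination h2⟩

/-- `ε = ρ' (rh c) X - X` has reduction of order `9` (`lin2 l₁ l₂ (rh c) ≠ 0`); Weierstrass preparation
(`PowerSeries.exists_isWeierstrassFactorization`, `order_map_residue`) gives `ε = W * U`.  The product of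
the four `W c` is distinguished of degree `36`; `surj`, `inj` are existence and uniqueness of Weierstrass
division (`eval₂ C X p = ↑p`).  `dv` is `sub_dvd` with `ψ = 1`, `zmul` is `der_en`.  For `z3`: by `tay2`,
`T ε = ε * c` with `c ≡ 1 + ε' = z` modulo `ε`; `T^3 = 1` gives `ε (1 + c + c * T c) = 0`, cancel `ε` (`nzd`),
and `T c ≡ c`.  For `sim` differentiate `ε = W U`. -/
theorem cft (π : A →+* k) (hπ : Surjective π) {ρ : EE →* (k⟦X⟧ ≃ₐ[k] k⟦X⟧)} {l₁ l₂ y₁ y₂ : k}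
    (L : Ld ρ l₁ l₂ y₁ y₂) (ρ' : EE →* (A⟦X⟧ ≃ₐ[A] A⟦X⟧))
    (hρ' : ∀ g f, PowerSeries.map π (ρ' g f) = ρ g (PowerSeries.map π f)) :
    ∃ c : CfT A A⟦X⟧ (maximalIdeal A), c.i = C ∧ c.x = X ∧ (∀ g b, c.T g b = ρ' g b) ∧
      ∀ g, c.z g = d⁄dX A (ρ' g X) := by
  have hm : ∀ g, constantCoeff (ρ' g X) ∈ maximalIdeal A := fun g => by
    rw [← pi_eq_zero_iff π hπ, ← coeff_zero_eq_constantCoeff_apply, ← coeff_map, hρ', map_X,
      coeff_zero_eq_constantCoeff_apply, BT_c0 L]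
  have ho : ∀ c, order (PowerSeries.map π (ρ' (rh c) X - X)) = (9 : ℕ) := fun c => by
    rw [map_sub, hρ', map_X, BT_ord L]
  have hne : ∀ c, PowerSeries.map π (ρ' (rh c) X - X) ≠ 0 := fun c h => by
    have := ho c
    rw [h, order_zero] at this
    exact ENat.top_ne_natCast 9 this
  choose W U hW using fun c => exists_isWeierstrassFactorization (Qb_ord π hπ _ 9 (ho c)).1
  have hdeg : ∀ c, (W c).natDegree = 9 := fun c =>
    (hW c).natDegree_eq_toNat_order_map.trans (Qb_ord π hπ _ 9 (ho c)).2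
  have hP : (∏ c, W c).IsDistinguishedAt (maximalIdeal A) := by
    rw [Fin.prod_univ_four]
    exact (((hW 0).1.mul (hW 1).1).mul (hW 2).1).mul (hW 3).1
  have hF : IsWeierstrassFactorization ((∏ c, W c : A[X]) : A⟦X⟧) (∏ c, W c) 1 :=
    ⟨hP, isUnit_one, (mul_one _).symm⟩
  have h36 : (PowerSeries.map (Ideal.Quotient.mk (maximalIdeal A))
      ((∏ c, W c : A[X]) : A⟦X⟧)).order.toNat = 36 := by
    refine hF.natDegree_eq_toNat_order_map.symm.trans ?_
    rw [Polynomial.natDegree_prod_of_monic _ _ fun c _ => (hW c).1.monic]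
    simp [hdeg]
  have hWd : ∀ c, ρ' (rh c) X - X ∣ (W c : A⟦X⟧) := fun c => by
    obtain ⟨u, hu⟩ := (hW c).2
    exact ⟨↑u⁻¹, by rw [(hW c).3, ← hu, mul_assoc, Units.mul_inv, mul_one]⟩
  refine ⟨{
    i := C
    x := X
    T := fun g => ((ρ' g : A⟦X⟧ →ₐ[A] A⟦X⟧) : A⟦X⟧ →+* A⟦X⟧)
    W := W
    z := fun g => d⁄dX A (ρ' g X)
    one := fun b => ?_
    mul := fun g h b => ?_
    fix := fun g a => Base_en_C (ρ' g : A⟦X⟧ →ₐ[A] A⟦X⟧) a
    dv := fun g b => sub_dvd (ρ' g : A⟦X⟧ →ₐ[A] A⟦X⟧) 1 (hm g) (by simp) b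
    mon := fun c => (hW c).1.monic
    deg := hdeg
    dist := fun c n hn => (hW c).1.mem (by rw [hdeg]; exact hn)
    as1 := fun c => ?_
    as2 := fun c => ?_
    surj := fun b => ?_
    inj := fun r hr hd => ?_
    zmul := fun g h => ?_
    z3 := fun c => ?_
    sim := fun c => ⟨U c, ?_⟩ }, rfl, rfl, fun _ _ => rfl, fun _ => rfl⟩
  · show ρ' 1 b = b
    rw [map_one, AlgEquiv.one_apply]
  · show ρ' (g * h) b = ρ' g (ρ' h b)
    rw [map_mul, AlgEquiv.mul_apply]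
  · rw [Polynomial.eval₂_C_X_eq_coe]
    exact hWd c
  · rw [Polynomial.eval₂_C_X_eq_coe]
    exact ⟨U c, (hW c).3⟩
  · obtain ⟨q, r, h1, h2⟩ := exists_isWeierstrassDivision b hF.map_ne_zero
    rw [h36] at h1
    refine ⟨r, h1, q, ?_⟩
    rw [Polynomial.eval₂_C_X_eq_coe, Polynomial.eval₂_C_X_eq_coe]
    linear_combination h2
  · rw [Polynomial.eval₂_C_X_eq_coe, Polynomial.eval₂_C_X_eq_coe] at hd
    obtain ⟨q, hq⟩ := hd
    exact ((IsWeierstrassDivisor.of_map_ne_zero hF.map_ne_zero).eq_zero_of_mul_eq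
      (by rw [h36]; exact hr) hq.symm).2
  · show d⁄dX A (ρ' (g * h) X) = ρ' g (d⁄dX A (ρ' h X)) * d⁄dX A (ρ' g X)
    rw [map_mul, AlgEquiv.mul_apply]
    exact der_en (ρ' g : A⟦X⟧ →ₐ[A] A⟦X⟧) (hm g) (ρ' h X)
  · refine BT_z3 π hπ (ρ' (rh c) : A⟦X⟧ →ₐ[A] A⟦X⟧) (hm _) ?_ (hne c)
    show ρ' (rh c) (ρ' (rh c) (ρ' (rh c) X)) = X
    rw [← AlgEquiv.mul_apply, ← AlgEquiv.mul_apply, ← map_mul, ← map_mul, mul_assoc, BT_cube,
      map_one, AlgEquiv.one_apply]
  · show ρ' (rh c) X - X ∣ d⁄dX A (ρ' (rh c) X) - 1 -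
      U c * (Polynomial.derivative (W c)).eval₂ C X
    have h := congrArg (d⁄dX A) (hW c).3
    rw [map_sub, derivative_X, Derivation.leibniz, smul_eq_mul, smul_eq_mul, derivative_coe] at h
    rw [Polynomial.eval₂_C_X_eq_coe, h, add_sub_cancel_right]
    exact (hWd c).mul_right _

end Pool.Agent.MP_deef5c_ag.E

end

section

/-! All data over an Artinian ring, and products. -/

open PowerSeries IsLocalRing Function Pool.Agent.MP_deef5c_ag.O
open scoped Polynomial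

namespace Pool.Agent.MP_deef5c_ag.E

universe u

theorem BCfg_unit {A k : Type u} [CommRing A] [IsLocalRing A] [Field k] (π : A →+* k)
    (hπ : Surjective π) {a : A} (h : π a ≠ 0) : IsUnit a := by
  rw [← notMem_maximalIdeal, ← ker_eq_maximalIdeal π hπ]
  exact h

theorem BCfg_det {k : Type u} [Field k] {a0 a1 b0 b1 u0 u1 v0 v1 : k} (e1 : a0 * u0 = 1)
    (e2 : a0 * u1 + a1 * u0 = 0) (f1 : b0 * v0 = 1) (f2 : b0 * v1 + b1 * v0 = 0) :
    (a0 * b1 - b0 * a1) * (u0 * v0) ^ 2 = u1 * v0 - v1 * u0 := by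
  linear_combination (b1 * u0 * v0 ^ 2 + u1 * v0) * e1 + u0 * v0 * f2 -
    (v1 * u0 + a1 * u0 ^ 2 * v0) * f1 - u0 * v0 * e2

theorem BCfg_lin {k : Type u} [Field k] (a b : k) (i j : ZMod 3) (m n : ℕ) (hi : i.val = m)
    (hj : j.val = n) : lin2 a b (Multiplicative.ofAdd (i, j)) = m * a + n * b := by
  rw [← hi, ← hj]
  rfl

theorem BCfg_sg {k : Type u} [Field k] (a b : k) : a = lin2 a b sg := by
  rw [sg, BCfg_lin a b 1 0 1 0 rfl rfl]
  simp

theorem BCfg_ta {k : Type u} [Field k] (a b : k) : b = lin2 a b ta := by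
  rw [ta, BCfg_lin a b 0 1 0 1 rfl rfl]
  simp

theorem BCfg_r2 {k : Type u} [Field k] (a b : k) : a + 2 * b = lin2 a b (rh 2) := by
  rw [show rh 2 = Multiplicative.ofAdd (1, -1) from rfl, BCfg_lin a b 1 (-1) 1 2 rfl rfl]
  simp

theorem BCfg_r3 {k : Type u} [Field k] (a b : k) : a + b = lin2 a b (rh 3) := by
  rw [show rh 3 = Multiplicative.ofAdd (1, 1) from rfl, BCfg_lin a b 1 1 1 1 rfl rfl]
  simp

/-- `cft`, and `cfs` with `g₀ = sg, ta, sg, sg`.  With `u₀ = l₁^3 - l₂^2 l₁`, `u₀' = l₂^3 - l₁^2 l₂`, `u₁, u₁'`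
accordingly, the residue of the determinant is `(u₁ u₀' - u₁' u₀) / (u₀ u₀')^2` and
`u₁ u₀' - u₁' u₀ = (l₁ y₂ - l₂ y₁) (l₂^2 - l₁^2) (l₂^2 - l₁^2)`. -/
theorem cfg_art {A k : Type u} [CommRing A] [IsLocalRing A] [IsArtinianRing A] [Field k] [CharP k 3]
    (π : A →+* k) (hπ : Surjective π) {ρ : EE →* (k⟦X⟧ ≃ₐ[k] k⟦X⟧)} {l₁ l₂ y₁ y₂ : k}
    (L : Ld ρ l₁ l₂ y₁ y₂) (h : LocLifts ρ π) : Cfg A A⟦X⟧ (maximalIdeal A) := by
  obtain ⟨ρ', hρ'⟩ := h
  obtain ⟨c, hi, hx, hT, hz⟩ := cft π hπ L ρ' hρ'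
  have h3 : (3 : k) = 0 := by exact_mod_cast CharP.cast_eq_zero k 3
  have n := mul_ne_zero L.n3 L.n4
  obtain ⟨W0, V0, p0, q0, a0, b0, c0⟩ := cfs π hπ L ρ' hρ' c hi hx hT hz 0 sg (by decide)
    (BCfg_sg _ _) (BCfg_ta _ _) (BCfg_sg _ _) (BCfg_ta _ _) L.n2
    fun e => mul_ne_zero L.n1 n (by linear_combination e)
  obtain ⟨W1, V1, p1, q1, a1, b1, c1⟩ := cfs π hπ L ρ' hρ' c hi hx hT hz 1 ta (by decide)
    (BCfg_ta _ _) (BCfg_sg _ _) (BCfg_ta _ _) (BCfg_sg _ _) L.n1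
    fun e => mul_ne_zero L.n2 n (by linear_combination -e)
  obtain ⟨W2, V2, p2, q2, a2, b2, -⟩ := cfs π hπ L ρ' hρ' c hi hx hT hz 2 sg (by decide)
    (BCfg_sg _ _) (BCfg_r2 _ _) (BCfg_sg _ _) (BCfg_r2 _ _)
    (fun e => L.n4 (by linear_combination e - l₂ * h3))
    fun e => mul_ne_zero (mul_ne_zero L.n1 L.n2) L.n3
      (by linear_combination -e - l₁ * l₂ * (l₁ + l₂) * h3)
  obtain ⟨W3, V3, p3, q3, a3, b3, -⟩ := cfs π hπ L ρ' hρ' c hi hx hT hz 3 sg (by decide)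
    (BCfg_sg _ _) (BCfg_r3 _ _) (BCfg_sg _ _) (BCfg_r3 _ _) L.n3
    fun e => mul_ne_zero (mul_ne_zero L.n1 L.n2) L.n4
      (by linear_combination e + l₁ ^ 2 * l₂ * h3)
  refine ⟨c, ![W0, W1, W2, W3], ![V0, V1, V2, V3], ![p0, p1, p2, p3], ![q0, q1, q2, q3],
    fun j => ?_, fun j => ?_, BCfg_unit π hπ fun e => ?_⟩
  · fin_cases j
    exacts [a0, a1, a2, a3]
  · fin_cases j
    exacts [BCfg_unit π hπ (left_ne_zero_of_mul_eq_one b0),
      BCfg_unit π hπ (left_ne_zero_of_mul_eq_one b1),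
      BCfg_unit π hπ (left_ne_zero_of_mul_eq_one b2),
      BCfg_unit π hπ (left_ne_zero_of_mul_eq_one b3)]
  · have e' : π (V0.coeff 0 * V1.coeff 1 - V1.coeff 0 * V0.coeff 1) = 0 := e
    have d := BCfg_det b0 c0 b1 c1
    rw [map_sub, map_mul, map_mul] at e'
    rw [e', zero_mul] at d
    exact mul_ne_zero (sub_ne_zero.2 L.det) (pow_ne_zero 2 n) (by linear_combination -d)

end Pool.Agent.MP_deef5c_ag.E

end

section

/-! The characteristic of the local lifts is bounded. -/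

open PowerSeries IsLocalRing Function Pool.Agent.MP_deef5c_ag.O
open scoped Polynomial

namespace Pool.Agent.MP_deef5c_ag.E

universe u

theorem bound_ld {k : Type u} [Field k] [CharP k 3] {ρ : EE →* (k⟦X⟧ ≃ₐ[k] k⟦X⟧)} {l₁ l₂ y₁ y₂ : k}
    (L : Ld ρ l₁ l₂ y₁ y₂) : ∃ N : ℕ, ∀ (A : Type u) [CommRing A] [IsLocalRing A] [IsArtinianRing A]
      (π : A →+* k), Surjective π → LocLifts ρ π → (3 : A) ^ N = 0 := by
  by_contra h
  push Not at h
  choose A i1 i2 i3 π hπ hl h3 using h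
  obtain ⟨V, _, _, _, ψ, hψ, hV, hs⟩ := exists_val A h3
  have h3' : (3 : V) ∈ maximalIdeal V := by
    rw [← map_ofNat ψ 3]
    refine hψ _ fun n => (pi_eq_zero_iff (π n) (hπ n) _).1 ?_
    change π n 3 = 0
    rw [map_ofNat]
    exact CharP.cast_eq_zero k 3
  obtain ⟨ν, T, e, M, hd⟩ := vd_of_cfg (cfg_pi _ fun n => cfg_art (π n) (hπ n) L (hl n)) ψ hψ hV h3' hs
  obtain ⟨r, δ, z, G, y, h⟩ := sd_of_vd hV h3' hd
  exact h.false

end Pool.Agent.MP_deef5c_ag.E

end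

section

/-! The action on the coordinate rings. -/

open PowerSeries IsLocalRing Function Pool.Agent.MP_deef5c_ag.O
open scoped Polynomial

namespace Pool.Agent.MP_deef5c_ag.E

universe u

theorem GAc_lift {k B : Type u} [CommRing k] [CommRing B] [Algebra k B] (φ : EE → B →ₐ[k] B)
    (h1 : φ 1 = AlgHom.id k B) (hm : ∀ g g', φ (g * g') = (φ g).comp (φ g')) :
    ∃ α : EE →* (B ≃ₐ[k] B), ∀ g b, α g b = φ g b :=
  ⟨MonoidHom.mk' (fun g => AlgEquiv.ofAlgHom (φ g) (φ g⁻¹) (by rw [← hm, mul_inv_cancel, h1])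
    (by rw [← hm, inv_mul_cancel, h1])) fun g g' => AlgEquiv.ext fun b =>
      DFunLike.congr_fun (hm g g') b, fun _ _ => rfl⟩

theorem GAc_three (k : Type u) [Field k] [CharP k 3] (B : Type u) [CommRing B] [Algebra k B] :
    (3 : B) = 0 := by
  rw [← map_ofNat (algebraMap k B), show (3 : k) = 0 from CharP.cast_eq_zero k 3, map_zero]

theorem GAc_add {B : Type u} [CommRing B] (h3 : (3 : B) = 0) (a b : ZMod 3) :
    ((a + b).val : B) = a.val + b.val := by
  have h := congrArg (Nat.cast : ℕ → B) (Nat.div_add_mod (a.val + b.val) 3)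
  rw [ZMod.val_add]
  push_cast at h
  rwa [h3, zero_mul, zero_add] at h

theorem GAc_cube {B : Type u} [CommRing B] (h3 : (3 : B) = 0) (a : ZMod 3) (y : B) :
    (y + a.val) ^ 3 - (y + a.val) = y ^ 3 - y := by
  have h := a.val_lt
  generalize a.val = n at h
  interval_cases n
  · simp
  · push_cast; linear_combination (y ^ 2 + y) * h3
  · push_cast; linear_combination (2 * y ^ 2 + 4 * y + 2) * h3

theorem GAc_gen : ∀ g : EE, g = sg ^ g.toAdd.1.val * ta ^ g.toAdd.2.val := by decide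

variable {k : Type u} [Field k] [CharP k 3]

/-- `univ` gives endomorphisms `w ↦ w`, `y₁ ↦ y₁ + j`, `y₂ ↦ y₂ + i` (`n^3 = n` in characteristic three); they
are multiplicative by `AlgHom.ext_of_adjoin_eq_top` (use the ring map `ZMod.castHom`, `ZMod.natCast_val`);
a monoid homomorphism from a group to `B →ₐ[k] B` lifts to units (`MonoidHom.toHomUnits`,
`AlgEquiv.algHomUnitsEquiv`). -/
theorem exists_a1 {c : k} {B : Type u} [CommRing B] [Algebra k B] {w y₁ y₂ : B} (h : P1 c w y₁ y₂) :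
    ∃ α₁ : EE →* (B ≃ₐ[k] B), (∀ g, α₁ g w = w) ∧ (∀ g, α₁ g y₁ = y₁ + (g.toAdd.2.val : B)) ∧
      ∀ g, α₁ g y₂ = y₂ + (g.toAdd.1.val : B) := by
  have h3 := GAc_three k B
  choose φ hw h1 h2 using fun g : EE => h.univ B w (y₁ + (g.toAdd.2.val : B))
    (y₂ + (g.toAdd.1.val : B)) ⟨(GAc_cube h3 _ _).trans h.rel.1, (GAc_cube h3 _ _).trans h.rel.2⟩
  obtain ⟨α, hα⟩ := GAc_lift φ (AlgHom.ext_of_adjoin_eq_top h.gen (by
      rintro _ (rfl | rfl | rfl) <;> simp [hw, h1, h2]))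
    fun g g' => AlgHom.ext_of_adjoin_eq_top h.gen (by
      rintro _ (rfl | rfl | rfl) <;>
        simp only [AlgHom.coe_comp, comp_apply, hw, h1, h2, map_add, map_natCast, toAdd_mul,
          Prod.fst_add, Prod.snd_add, GAc_add h3, add_assoc])
  exact ⟨α, fun g => by rw [hα, hw], fun g => by rw [hα, h1], fun g => by rw [hα, h2]⟩

/-- `α g` extends `α₁ g` to the localisation away from the fixed element `w`.  In `L`: `α g x = x`,
`α sg s = s + x^3`, `α ta s = s`, `α ta t = t + s^3`, and with `z = y₁ - (c + s) y₂`, `t = s^3 z`, `x^3 y₂ = s`: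
`α sg z = z - c + s - x^3` (characteristic three), `x^9 z = x^6 (s^2 - x^6)^3 t`.  So `sg` and `ta`, hence all `g`,
map the image of `B₂` (generated by `x, s, t`) into itself, and `α₂` is the restriction. -/
theorem exists_ac {c : k} {B₁ B₂ L : Type u} [CommRing B₁] [CommRing B₂] [CommRing L] [Algebra k B₁]
    [Algebra k B₂] [Algebra k L] [Algebra B₁ L] [Algebra B₂ L] {w y₁ y₂ : B₁} {x s t : B₂}
    (h₁ : P1 c w y₁ y₂) (h₂ : P2 k x s t) (T : TC k L w x) (hi : Injective (algebraMap B₂ L))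
    (hs : algebraMap B₂ L s = algebraMap B₁ L y₂ * algebraMap B₂ L x ^ 3)
    (ht : algebraMap B₂ L t = algebraMap B₂ L s ^ 3 *
      (algebraMap B₁ L y₁ - (algebraMap k L c + algebraMap B₂ L s) * algebraMap B₁ L y₂)) :
    ∃ α₁ α₂ α, AC c w y₁ y₂ x s t α₁ α₂ (α : EE →* (L ≃ₐ[k] L)) := by
  obtain ⟨α₁, hw, a1, a2⟩ := exists_a1 h₁
  have := T.t1
  have := T.t2
  have := T.l1
  have h3 := GAc_three k L
  have hex : ∀ g : EE, ∃ ψ : L →ₐ[k] L, ∀ b, ψ (algebraMap B₁ L b) = algebraMap B₁ L (α₁ g b) :=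
    fun g => ⟨IsLocalization.liftAlgHom (M := Submonoid.powers w)
      (f := (IsScalarTower.toAlgHom k B₁ L).comp (α₁ g : B₁ →ₐ[k] B₁)) (by
        rintro ⟨_, n, rfl⟩
        have h := IsLocalization.map_units L (⟨_, n, rfl⟩ : Submonoid.powers w)
        simpa [hw] using h), fun b => by simp⟩
  choose ψ hψ using hex
  have hext : ∀ f f' : L →ₐ[k] L, (∀ b, f (algebraMap B₁ L b) = f' (algebraMap B₁ L b)) → f = f' :=
    fun f f' h => AlgHom.coe_ringHom_injective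
      (IsLocalization.ringHom_ext (Submonoid.powers w) (RingHom.ext h))
  obtain ⟨α, hα⟩ := GAc_lift ψ (hext _ _ fun b => by simp [hψ])
    fun g g' => hext _ _ fun b => by simp [hψ]
  have c1 : ∀ g b, α g (algebraMap B₁ L b) = algebraMap B₁ L (α₁ g b) := fun g b => by
    rw [hα, hψ]
  have hx : ∀ g, α g (algebraMap B₂ L x) = algebraMap B₂ L x := fun g => by
    have h := congrArg (α g) T.inv
    rw [map_mul, c1, hw, map_one] at h
    linear_combination algebraMap B₂ L x * h - α g (algebraMap B₂ L x) * T.inv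
  have hs' : ∀ g, α g (algebraMap B₂ L s) =
      algebraMap B₂ L s + (g.toAdd.1.val : L) * algebraMap B₂ L x ^ 3 := fun g => by
    rw [hs, map_mul, map_pow, hx, c1, a2, map_add, map_natCast, add_mul]
  have ts : α ta (algebraMap B₂ L s) = algebraMap B₂ L s := by simp [hs', ta]
  have ss : α sg (algebraMap B₂ L s) = algebraMap B₂ L (s + x ^ 3) := by
    simp [hs', sg, ZMod.val_one]
  have tt : α ta (algebraMap B₂ L t) = algebraMap B₂ L (t + s ^ 3) := by
    rw [map_add, map_pow, ht]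
    simp only [map_mul, map_pow, map_sub, map_add, ts, c1, a1, a2, AlgEquiv.commutes, map_natCast]
    simp only [ta, toAdd_ofAdd, ZMod.val_zero, ZMod.val_one, Nat.cast_zero, Nat.cast_one]
    ring
  have st : α sg (algebraMap B₂ L t) = algebraMap B₂ L (ST (algebraMap k B₂ c) x s t) := by
    have hr := congrArg (algebraMap B₂ L) h₂.rel.1
    simp only [map_sub, map_mul, map_pow] at hr
    rw [ST]
    simp only [map_mul, map_pow, map_sub, map_add, map_one, ← IsScalarTower.algebraMap_apply]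
    rw [ht]
    simp only [map_mul, map_pow, map_sub, map_add, ss, c1, a1, a2, AlgEquiv.commutes, map_natCast]
    simp only [sg, toAdd_ofAdd, ZMod.val_zero, ZMod.val_one, Nat.cast_zero, Nat.cast_one]
    generalize algebraMap B₂ L x = X at *
    generalize algebraMap B₂ L s = S at *
    generalize algebraMap B₁ L y₁ = Y₁ at *
    generalize algebraMap B₁ L y₂ = Y₂ at *
    generalize algebraMap k L c = C at *
    have e1 : (S + X ^ 3) ^ 3 = S ^ 3 + X ^ 9 := by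
      linear_combination (S ^ 2 * X ^ 3 + S * X ^ 6) * h3
    have e2 : S ^ 3 * (S ^ 2 - X ^ 6) ^ 3 = X ^ 3 := by
      rw [← mul_pow, show S * (S ^ 2 - X ^ 6) = X by linear_combination hr]
    have e3 : Y₁ + 0 - (C + (S + X ^ 3)) * (Y₂ + 1) = Y₁ - (C + S) * Y₂ + (S - C - X ^ 3) := by
      linear_combination hs - S * h3
    rw [e1, e3]
    linear_combination -(X ^ 6 * (Y₁ - (C + S) * Y₂)) * e2
  have key : ∀ g, α g (algebraMap B₂ L s) ∈ (IsScalarTower.toAlgHom k B₂ L).range →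
      α g (algebraMap B₂ L t) ∈ (IsScalarTower.toAlgHom k B₂ L).range →
      ∀ z ∈ (IsScalarTower.toAlgHom k B₂ L).range, α g z ∈ (IsScalarTower.toAlgHom k B₂ L).range := by
    rintro g h4 h5 _ ⟨b, rfl⟩
    have h6 : Algebra.adjoin k {x, s, t} ≤ (IsScalarTower.toAlgHom k B₂ L).range.comap
        ((α g : L →ₐ[k] L).comp (IsScalarTower.toAlgHom k B₂ L)) := Algebra.adjoin_le (by
      rintro _ (rfl | rfl | rfl)
      exacts [⟨_, (hx g).symm⟩, h4, h5])
    exact h6 (h₂.gen ▸ Algebra.mem_top)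
  have hpow : ∀ g, (∀ z ∈ (IsScalarTower.toAlgHom k B₂ L).range,
      α g z ∈ (IsScalarTower.toAlgHom k B₂ L).range) → ∀ n : ℕ,
      ∀ z ∈ (IsScalarTower.toAlgHom k B₂ L).range,
        α (g ^ n) z ∈ (IsScalarTower.toAlgHom k B₂ L).range := fun g h n z hz => by
    induction n with
    | zero => simpa using hz
    | succ n ih => rw [pow_succ', map_mul, AlgEquiv.mul_apply]; exact h _ ih
  have hall : ∀ g b, ((α g : L →ₐ[k] L).comp (IsScalarTower.toAlgHom k B₂ L)) b ∈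
      (IsScalarTower.toAlgHom k B₂ L).range := fun g b => by
    rw [GAc_gen g, map_mul]
    exact hpow _ (key _ ⟨_, ss.symm⟩ ⟨_, st.symm⟩) _ _
      (hpow _ (key _ ⟨_, ts.symm⟩ ⟨_, tt.symm⟩) _ _ ⟨b, rfl⟩)
  have hex2 : ∀ g : EE, ∃ φ : B₂ →ₐ[k] B₂, ∀ b,
      algebraMap B₂ L (φ b) = α g (algebraMap B₂ L b) := fun g =>
    ⟨(AlgEquiv.ofInjective (IsScalarTower.toAlgHom k B₂ L) hi).symm.toAlgHom.comp
      (AlgHom.codRestrict _ _ (hall g)), fun b => congrArg Subtype.val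
        ((AlgEquiv.ofInjective (IsScalarTower.toAlgHom k B₂ L) hi).apply_symm_apply
          ⟨_, hall g b⟩)⟩
  choose φ hφ using hex2
  obtain ⟨α₂, hα₂⟩ := GAc_lift φ (AlgHom.ext fun b => hi (by simp [hφ]))
    fun g g' => AlgHom.ext fun b => hi (by simp [hφ])
  have c2 : ∀ g b, α g (algebraMap B₂ L b) = algebraMap B₂ L (α₂ g b) := fun g b => by
    rw [hα₂, hφ]
  exact ⟨α₁, α₂, α, c1, c2, a1, a2, hi ((c2 _ _).symm.trans (hx _)), hi ((c2 _ _).symm.trans ts),
    hi ((c2 _ _).symm.trans tt), hi ((c2 _ _).symm.trans (hx _)), hi ((c2 _ _).symm.trans ss),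
    hi ((c2 _ _).symm.trans st)⟩

end Pool.Agent.MP_deef5c_ag.E

end

section

/-! The local action at the ramified point. -/

open CategoryTheory AlgebraicGeometry IsLocalRing Function Pool.Agent.MP_deef5c_ag.O
open scoped Polynomial PowerSeries

namespace Pool.Agent.MP_deef5c_ag.E

universe u

theorem GMd_cp {k K O : Type u} [Field k] [Field K] [Algebra k K] [CommRing O] [IsDomain O]
    [IsDiscreteValuationRing O] [Algebra O K] [IsFractionRing O K] (s : k →+* O)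
    (hs : ∀ c, algebraMap O K (s c) = algebraMap k K c)
    (hres : ∀ y : O, ∃ c, y - s c ∈ maximalIdeal O) {ϖ : O} (hϖ : Irreducible ϖ) :
    ∃ (j : K →+* LaurentSeries k) (φ : O →+* k⟦X⟧), CP (algebraMap O K).range j (algebraMap O K ϖ) ∧
      (∀ y, j (algebraMap O K y) = lc k (φ y)) ∧ φ ϖ = PowerSeries.X ∧
      ∀ c, φ (s c) = PowerSeries.C c := by
  have hm : ∀ y, y ∈ maximalIdeal O ↔ ϖ ∣ y := fun y => by
    rw [hϖ.maximalIdeal_eq, Ideal.mem_span_singleton]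
  obtain ⟨φ, h1, h2⟩ := GCp_hom s hϖ.ne_zero hϖ.not_isUnit fun y => by
    obtain ⟨c, hc⟩ := hres y
    obtain ⟨z, hz⟩ := (hm _).1 hc
    exact ⟨c, z, by rw [← hz, add_sub_cancel]⟩
  have hi : Injective ((lc k).comp φ) := (injective_iff_map_eq_zero _).2 fun y hy => by
    by_contra h0
    obtain ⟨n, u, rfl⟩ := IsDiscreteValuationRing.eq_unit_mul_pow_irreducible h0 hϖ
    refine Lau_ne ?_ hy
    rw [map_mul, map_pow, h2]
    exact mul_ne_zero (u.isUnit.map φ).ne_zero (pow_ne_zero _ PowerSeries.X_ne_zero)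
  have hj : ∀ y, IsFractionRing.lift (K := K) hi (algebraMap O K y) = lc k (φ y) := fun y =>
    IsFractionRing.lift_algebraMap hi y
  refine ⟨IsFractionRing.lift hi, φ, ⟨fun c => by rw [← hs, hj, h1, GCp_C],
    fun b => ⟨?_, fun hb => ?_⟩, by rw [hj, h2]⟩, hj, h2, h1⟩
  · rintro ⟨y, rfl⟩
    exact hj y ▸ vv_lc_le _
  rcases ValuationRing.isInteger_or_isInteger O b with h | ⟨y, hy⟩
  · exact h
  by_cases hu : IsUnit y
  · obtain ⟨u, rfl⟩ := hu
    exact ⟨↑u⁻¹, by rw [map_units_inv, hy, inv_inv]⟩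
  by_cases hb0 : b = 0
  · exact hb0 ▸ zero_mem _
  obtain ⟨z, rfl⟩ := (hm y).1 hu
  have e := congrArg (fun x => vv k (IsFractionRing.lift (K := K) hi (x * b))) hy
  simp only [inv_mul_cancel₀ hb0, map_one, map_mul, hj, h2] at e
  exact absurd e (mul_lt_one_of_lt_of_le (mul_lt_one_of_lt_of_le GCp_X (vv_lc_le _)) hb).ne

variable {k : Type u} [Field k] [IsAlgClosed k] {X : Scheme.{u}} [IsIntegral X]
  (f : X ⟶ Spec (.of k)) [IsSeparated f] [SmoothOfRelativeDimension 1 f]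

theorem exists_mod {c : k} {ρ : EE →* Aut X} (hρ : Injective ρ) (hρk : ∀ g, (ρ g).hom ≫ f = f)
    {P : X} (hc : IsClosed {P}) {hP : ∀ g, (ρ g).hom P = P} {x s t : X.presheaf.stalk P}
    (h : PtD c f ρ P hP x s t) :
    ∃ (j : X.functionField →+* LaurentSeries k) (t₀ : X.functionField)
      (ρx : stab ρ P →* (k⟦X⟧ ≃ₐ[k] k⟦X⟧)) (x₀ s₀ : k⟦X⟧),
      (letI := (fa f).toAlgebra; CP (Ox P) j t₀) ∧ LA (fun h : stab ρ P => fT (ρ h)) j ρx ∧
      Mod c (ρx.comp ((MonoidHom.id EE).codRestrict (stab ρ P) hP)) x₀ s₀ := by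
  letI := (fa f).toAlgebra
  obtain ⟨hN, hpr, hres⟩ := GPt.Aux.closed_principal f P hc
  have hF : ¬IsField (X.presheaf.stalk P) := fun hF => h.t0 (by
    rw [← Ideal.mem_bot, ← IsLocalRing.isField_iff_maximalIdeal_eq.1 hF, h.max]
    exact Ideal.mem_span_singleton_self t)
  have hD : IsDiscreteValuationRing (X.presheaf.stalk P) :=
    ((IsDiscreteValuationRing.TFAE (X.presheaf.stalk P) hF).out 0 4).2 hpr
  obtain ⟨j, φ, C, hj, ht, hC⟩ := GMd_cp (K := X.functionField) (strMap f P).hom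
    (fun c => fa_stalk f P c) hres ((IsDiscreteValuationRing.irreducible_iff_uniformizer t).2 h.max)
  obtain ⟨ρx, hL⟩ := exists_la C (fun h : stab ρ P => fT (ρ h))
    ⟨fun b => (fT_ra ρ).one b, fun g h b => (fT_ra ρ).mul g h b⟩
    (fun g c => fT_fa f _ (hρk g) c)
    (fun h b hb => (fT_mem (ρ h) P b).1 (by rwa [show (ρ h).hom P = P from h.2]))
    (fun h hh => Subtype.ext (hρ ((fT_faithful f _ (hρk h) hh).trans (map_one ρ).symm)))
  have hi : Injective (lc k) := HahnSeries.ofPowerSeries_injective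
  have key : ∀ (g : EE) y, ρx ⟨g, hP g⟩ (φ y) = φ ((locMap (ρ g⁻¹).hom P (hP _)).hom y) :=
    fun g y => hi (by
      rw [← hL.2 ⟨g, hP g⟩ _ _ (hj y), ← hj, ← fT_locMap]
      rfl)
  have hm : ∀ y ∈ maximalIdeal (X.presheaf.stalk P), PowerSeries.constantCoeff (φ y) = 0 :=
    fun y hy => by
      rw [h.max, Ideal.mem_span_singleton] at hy
      obtain ⟨z, rfl⟩ := hy
      rw [map_mul, ht, map_mul, PowerSeries.constantCoeff_X, zero_mul]
  have e1 := congrArg φ h.rel.1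
  have e2 := congrArg φ h.rel.2
  simp only [map_sub, map_mul, map_pow, map_TT, ht] at e1 e2
  refine ⟨j, _, ρx, φ x, φ s, C, hL, hm x h.xm, hm s h.sm, e1, e2, ?_, ?_, ?_, ?_, ?_, ?_⟩
  · exact (key ta x).trans (by rw [h.tx])
  · exact (key ta s).trans (by rw [h.ts])
  · rw [← ht]
    exact (key ta t).trans (by rw [h.tt, map_add, map_pow])
  · exact (key sg x).trans (by rw [h.sx])
  · exact (key sg s).trans (by rw [h.ss, map_add, map_pow])
  · rw [← ht]
    exact (key sg t).trans (by rw [h.st, map_ST, hC])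

end Pool.Agent.MP_deef5c_ag.E

end

section

/-! Global lifts give local lifts. -/

open CategoryTheory AlgebraicGeometry IsLocalRing Function Pool.Agent.MP_deef5c_ag.O
open scoped Polynomial PowerSeries

namespace Pool.Agent.MP_deef5c_ag.E

universe u

section Aux

open PowerSeries

variable {A B : Type u} [CommRing A] [CommRing B] [Algebra A B] {t : B}

theorem GGl_dvd (h0 : ∀ b, t * b = 0 → b = 0) (hu : ∀ a : A, t ∣ algebraMap A B a → a = 0)
    (n : ℕ) : ∀ P : A[X], t ^ n ∣ Polynomial.aeval t P → Polynomial.X ^ n ∣ P := by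
  induction n with
  | zero => simp
  | succ n ih =>
    intro P hP
    rw [← P.X_mul_divX_add, map_add, map_mul, Polynomial.aeval_X, Polynomial.aeval_C] at hP
    have hc : P.coeff 0 = 0 := hu _
      ((dvd_add_right (dvd_mul_right _ _)).1 ((dvd_pow_self t n.succ_ne_zero).trans hP))
    rw [hc, map_zero, add_zero, pow_succ'] at hP
    obtain ⟨z, hz⟩ := hP
    have h1 := h0 (Polynomial.aeval t P.divX - t ^ n * z) (by linear_combination hz)
    rw [← P.X_mul_divX_add, hc, map_zero, add_zero, pow_succ']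
    exact mul_dvd_mul_left _ (ih _ ⟨z, sub_eq_zero.1 h1⟩)

theorem GGl_ext {g g' : A⟦X⟧} (h : ∀ n, X ^ n ∣ g - g') : g = g' := by
  ext n
  rw [← sub_eq_zero, ← map_sub]
  exact X_pow_dvd_iff.1 (h (n + 1)) n n.lt_succ_self

/-- `g` is the expansion of `y` -/
def GGl_R (t y : B) (g : A⟦X⟧) : Prop :=
  ∀ n, ∃ P : A[X], t ^ n ∣ y - Polynomial.aeval t P ∧ X ^ n ∣ g - (P : A⟦X⟧)

theorem GGl_hom (h0 : ∀ b, t * b = 0 → b = 0) (hu : ∀ a : A, t ∣ algebraMap A B a → a = 0)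
    (hres : ∀ y, ∃ c z, y = algebraMap A B c + t * z) : ∃ φ : B →ₐ[A] A⟦X⟧, φ t = X := by
  choose c z hz using hres
  have hG : ∀ y, GGl_R t y (mk fun n => c (z^[n] y)) := fun y n => by
    induction n generalizing y with
    | zero => exact ⟨0, by simp, by simp⟩
    | succ n ih =>
      obtain ⟨P, h1, h2⟩ := ih (z y)
      refine ⟨Polynomial.X * P + Polynomial.C (c y), ?_, ?_⟩
      · rw [map_add, map_mul, Polynomial.aeval_X, Polynomial.aeval_C, pow_succ']
        convert mul_dvd_mul_left t h1 using 1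
        linear_combination hz y
      · rw [eq_X_mul_shift_add_const (mk _), pow_succ']
        convert mul_dvd_mul_left X h2 using 1
        simp [mul_sub, ← coeff_zero_eq_constantCoeff_apply]
  have hU : ∀ {y g}, GGl_R t y g → (mk fun n => c (z^[n] y)) = g := fun {y g} h =>
    GGl_ext fun n => by
      obtain ⟨P, h1, h2⟩ := hG y n
      obtain ⟨Q, h3, h4⟩ := h n
      have h5 := GGl_dvd h0 hu n (P - Q) (by
        rw [map_sub]
        convert dvd_sub h3 h1 using 1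
        ring)
      have h6 := map_dvd (Polynomial.coeToPowerSeries.ringHom (R := A)) h5
      simp only [map_pow, map_sub, Polynomial.coeToPowerSeries.ringHom_apply,
        Polynomial.coe_X] at h6
      convert dvd_add (dvd_sub h2 h4) h6 using 1
      ring
  refine ⟨{ toFun := fun y => mk fun n => c (z^[n] y)
            map_one' := hU fun n => ⟨1, by simp, by simp⟩
            map_zero' := hU fun n => ⟨0, by simp, by simp⟩
            map_mul' := fun a b => hU fun n => ?_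
            map_add' := fun a b => hU fun n => ?_
            commutes' := fun a => hU fun n =>
              ⟨Polynomial.C a, by simp, by simp [PowerSeries.algebraMap_apply]⟩ },
    hU fun n => ⟨Polynomial.X, by simp, by simp⟩⟩
  · obtain ⟨P, h1, h2⟩ := hG a n
    obtain ⟨Q, h3, h4⟩ := hG b n
    refine ⟨P * Q, ?_, ?_⟩
    · rw [map_mul]
      convert dvd_add (h1.mul_right b) (h3.mul_left (Polynomial.aeval t P)) using 1
      ring
    · rw [Polynomial.coe_mul]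
      convert dvd_add (h2.mul_right (mk fun n => c (z^[n] b))) (h4.mul_left P) using 1
      ring
  · obtain ⟨P, h1, h2⟩ := hG a n
    obtain ⟨Q, h3, h4⟩ := hG b n
    refine ⟨P + Q, ?_, ?_⟩
    · rw [map_add]
      convert dvd_add h1 h3 using 1
      ring
    · rw [Polynomial.coe_add]
      convert dvd_add h2 h4 using 1
      ring

/-- the expansion map of the special fibre gives the setting of the division theorem -/
theorem GGl_setup [IsLocalRing A] {k O : Type u} [Field k] [CommRing O] {π : A →+* k}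
    (hπ : Surjective π) {ψ : B →+* O} (hs : Surjective ψ)
    (hk : RingHom.ker ψ = (maximalIdeal A).map (algebraMap A B)) {J : O →+* k⟦X⟧}
    (hJ : ∀ a b, J a ∣ J b → a ∣ b) (ht : J (ψ t) = X)
    (hC : ∀ a, J (ψ (algebraMap A B a)) = C (π a)) [IsDomain O] : Setup A ψ t where
  surj := hs
  ker := hk
  ne := fun h => X_ne_zero (R := k) (by rw [← ht, h, map_zero])
  nu := fun h => X_prime.not_isUnit (ht ▸ h.map J)
  res := fun y => by
    obtain ⟨a, ha⟩ := hπ (constantCoeff (J y))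
    refine ⟨a, hJ _ _ ?_⟩
    rw [ht, X_dvd_iff, map_sub, hC, map_sub, constantCoeff_C, ha, sub_self]
  pw := fun y hy => by
    have h0 : J y ≠ 0 := fun e => hy (zero_dvd_iff.1 (hJ 0 y (by rw [e]; exact dvd_zero _)))
    have hu : IsUnit (divXPowOrder (J y)) := by
      rw [isUnit_iff_constantCoeff, isUnit_iff_ne_zero]
      exact fun h => h0 (constantCoeff_divXPowOrder_eq_zero_iff.1 h)
    have h3 := associated_mul_unit_left (X ^ (order (J y)).toNat) _ hu
    rw [X_pow_order_mul_divXPowOrder] at h3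
    exact ⟨_, associated_of_dvd_dvd (hJ _ _ (by rw [map_pow, ht]; exact h3.dvd))
      (hJ _ _ (by rw [map_pow, ht]; exact h3.symm.dvd))⟩

end Aux

/-- Expansion in powers of `t`. -/
theorem exists_expand {A B O : Type u} [CommRing A] [IsLocalRing A] [IsArtinianRing A] [CommRing B]
    [Algebra A B] [Module.Flat A B] [CommRing O] [IsDomain O] {ψ : B →+* O} {t : B}
    (S : Setup A ψ t) : ∃ J' : B →ₐ[A] A⟦X⟧, J' t = PowerSeries.X := by
  refine GGl_hom (fun b hb => S.nzd S.ne hb) (fun a ha => ?_) fun y => ?_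
  · obtain ⟨z, hz⟩ := ha
    have h1 : Setup.dv A t t 1 (fun _ => a, -z) = Setup.dv A t t 1 0 := by
      rw [Setup.dv_apply, map_zero]
      simp [hz]
    exact congrFun (congrArg Prod.fst (S.dv_inj (d := 1) (by simp) h1)) 0
  · obtain ⟨⟨a, z⟩, rfl⟩ := S.dv_surj (δ := t) (d := 1) (by simp) y
    exact ⟨a 0, z, by simp [Setup.dv_apply]⟩

/-- two homomorphisms to a separated ring which agree on `A` and on `t`: `b = p(t) + t^n b'` -/
theorem setup_ext {A B O C : Type u} [CommRing A] [IsLocalRing A] [IsArtinianRing A] [CommRing B]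
    [Algebra A B] [CommRing O] [IsDomain O] {ψ : B →+* O} {t : B} (S : Setup A ψ t) [CommRing C]
    (I : Ideal C) [IsHausdorff I C] (φ φ' : B →+* C)
    (h : ∀ a, φ (algebraMap A B a) = φ' (algebraMap A B a)) (ht : φ t = φ' t) (hI : φ t ∈ I) :
    φ = φ' := by
  refine RingHom.ext fun b => sub_eq_zero.1 (BaseA_haus I fun n => ?_)
  obtain ⟨⟨a, z⟩, rfl⟩ := S.dv_surj (δ := t ^ n) (d := n) (by simp) b
  rw [Setup.dv_apply]
  simp only [map_add, map_sum, map_mul, map_pow, h, ← ht]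
  rw [add_sub_add_left_eq_sub, ← mul_sub]
  exact Ideal.mul_mem_right _ _ (Ideal.pow_mem_pow hI n)

/-- the algebraic part -/
theorem GGl_alg {A B O k : Type u} [CommRing A] [IsLocalRing A] [IsArtinianRing A] [CommRing B]
    [Algebra A B] [Module.Flat A B] [CommRing O] [IsDomain O] [Field k] {π : A →+* k}
    (hπ : Surjective π) {ψ : B →+* O} {t : B} (S : Setup A ψ t) {J : O →+* k⟦X⟧}
    (ht : J (ψ t) = PowerSeries.X) (hC : ∀ a, J (ψ (algebraMap A B a)) = PowerSeries.C (π a))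
    {H : Type*} [Group H] (T : H → B →ₐ[A] B) (h1 : ∀ b, T 1 b = b)
    (hm : ∀ g h b, T (g * h) b = T h (T g b)) {ρx : H →* (k⟦X⟧ ≃ₐ[k] k⟦X⟧)}
    (hT : ∀ h b, J (ψ (T h b)) = ρx h⁻¹ (J (ψ b))) : LocLifts ρx π := by
  obtain ⟨J', hJ'⟩ := exists_expand S
  have hred : ∀ b, PowerSeries.map π (J' b) = J (ψ b) := fun b =>
    RingHom.congr_fun (setup_ext S (maximalIdeal k⟦X⟧) ((PowerSeries.map π).comp J') (J.comp ψ)
      (fun a => by
        change PowerSeries.map π (J' (algebraMap A B a)) = J (ψ (algebraMap A B a))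
        rw [hC, AlgHom.commutes]
        exact PowerSeries.map_C π a)
      (by
        change PowerSeries.map π (J' t) = J (ψ t)
        rw [ht, hJ', PowerSeries.map_X])
      (by
        change PowerSeries.map π (J' t) ∈ _
        rw [hJ', PowerSeries.map_X, mem_max_iff, PowerSeries.constantCoeff_X]
        exact zero_mem _)) b
  have ha : ∀ h, PowerSeries.map π (J' (T h⁻¹ t)) = ρx h PowerSeries.X := fun h => by
    rw [hred, hT, inv_inv, ht]
  have h0 : ∀ h, PowerSeries.constantCoeff (ρx h PowerSeries.X) ∈ maximalIdeal k := fun h => by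
    rw [← mem_max_iff]
    intro hu
    have := hu.map (ρx h).symm
    rw [AlgEquiv.symm_apply_apply] at this
    exact PowerSeries.X_prime.not_isUnit this
  have hx : ∀ h, PowerSeries.constantCoeff (J' (T h⁻¹ t)) ∈ maximalIdeal A := fun h => by
    rw [← mem_max_iff]
    intro hu
    rw [isUnit_of_map π hπ, ha] at hu
    exact (mem_max_iff _).2 (h0 h) hu
  have key : ∀ h b, sub (J' (T h⁻¹ t)) (J' b) = J' (T h⁻¹ b) := fun h b =>
    RingHom.congr_fun (setup_ext S (maximalIdeal A⟦X⟧)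
      ((sub (J' (T h⁻¹ t))).comp J' : B →ₐ[A] A⟦X⟧) (J'.comp (T h⁻¹) : B →ₐ[A] A⟦X⟧)
      (fun a => (((sub (J' (T h⁻¹ t))).comp J').commutes a).trans
        ((J'.comp (T h⁻¹)).commutes a).symm)
      (by
        change sub (J' (T h⁻¹ t)) (J' t) = J' (T h⁻¹ t)
        rw [hJ', sub_X (hx h)])
      (by
        change sub (J' (T h⁻¹ t)) (J' t) ∈ _
        rw [hJ', sub_X (hx h), mem_max_iff]
        exact hx h)) b
  let r : H →* En A :=
    { toFun := fun h => sub (J' (T h⁻¹ t))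
      map_one' := en_ext (by rw [sub_X (hx 1), inv_one, h1, hJ', AlgHom.one_apply])
        (by rw [sub_X (hx 1)]; exact hx 1)
      map_mul' := fun g h => en_ext (by
        rw [sub_X (hx _), AlgHom.mul_apply, sub_X (hx h), key, mul_inv_rev, hm])
        (by rw [sub_X (hx _)]; exact hx _) }
  refine ⟨(AlgEquiv.algHomUnitsEquiv A A⟦X⟧).toMonoidHom.comp r.toHomUnits, fun g φ => ?_⟩
  exact map_en π (sub (J' (T g⁻¹ t))) (ρx g : k⟦X⟧ →ₐ[k] k⟦X⟧)
    (by rw [sub_X (hx g)]; exact ha g) (h0 g) φ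

variable {k : Type u} [Field k] [IsAlgClosed k] {X : Scheme.{u}} [IsIntegral X]
  (f : X ⟶ Spec (.of k)) [IsSeparated f] [SmoothOfRelativeDimension 1 f]

/-- A global lift gives a lift of the local action at a point. -/
theorem glob_loc {G : Type*} [Group G] [Finite G] {ρ : G →* Aut X} (hρ : Injective ρ)
    (hρk : ∀ g, (ρ g).hom ≫ f = f) {x : X} (hx : IsClosed {x}) (g₀ : stab ρ x) (hg : g₀ ≠ 1)
    {j : X.functionField →+* LaurentSeries k} {t : X.functionField}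
    (C : letI := (fa f).toAlgebra; CP (Ox x) j t) {ρx : stab ρ x →* (k⟦X⟧ ≃ₐ[k] k⟦X⟧)}
    (h : LA (fun h : stab ρ x => fT (ρ h)) j ρx) {A : Type u} [CommRing A] [IsLocalRing A]
    [IsArtinianRing A] (π : A →+* k) (hπ : Surjective π) (hl : LiftsTo f ρ π) : LocLifts ρx π := by
  obtain ⟨X', f', ι, ρ', hsm, hι, hρA, hc⟩ := hl
  obtain ⟨J, t₀, hJ, ht₀, hσ, hk⟩ := GTwo_ex f ρ C h
  have hK' : ∀ g : stab ρ x, (ρ' g).hom (ι x) = ι x := fun g => by
    rw [← Scheme.Hom.comp_apply, hc, Scheme.Hom.comp_apply, g.2]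
  have := closedImm hπ hι
  have hsurj : Surjective (ι.stalkMap x).hom := ι.stalkMap_surjective x
  obtain ⟨t', rfl⟩ := hsurj t₀
  let _ : Algebra A (X'.presheaf.stalk (ι x)) := (strMap f' (ι x)).hom.toAlgebra
  have hfl : Module.Flat A (X'.presheaf.stalk (ι x)) := strMap_flat f' (ι x)
  let T : stab ρ x → X'.presheaf.stalk (ι x) →ₐ[A] X'.presheaf.stalk (ι x) := fun g =>
    { (locMap (ρ' g).hom (ι x) (hK' g)).hom with
      commutes' := fun a => congrArg (fun φ => φ.hom a) (strMap_locMap f' (ι x) _ (hK' g) (hρA g)) }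
  have hT : ∀ (g : stab ρ x) b, (ι.stalkMap x).hom (T g b) =
      (locMap (ρ g).hom x g.2).hom ((ι.stalkMap x).hom b) := fun g b =>
    congrArg (fun φ => φ.hom b) (locMap_stalkMap ι _ _ x g.2 (hK' g) (hc g))
  have hC : ∀ a, J ((ι.stalkMap x).hom (algebraMap A _ a)) = PowerSeries.C (π a) := fun a => by
    rw [← hk]
    exact congrArg (fun φ => J (φ.hom a)) (strMap_stalkMap hι x)
  have hone : ∀ b, T 1 b = b := fun b =>
    congrArg (fun φ => φ.hom b) (locMap_id _ (ι x) (hK' 1) (by simp; rfl))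
  have hmul : ∀ g h b, T (g * h) b = T h (T g b) := fun g h b =>
    congrArg (fun φ => φ.hom b) (locMap_comp _ _ _ (ι x) (hK' g) (hK' h) (hK' (g * h))
      (by rw [Subgroup.coe_mul, map_mul]; rfl))
  exact GGl_alg hπ (GGl_setup hπ hsurj (ker_stalkMap hπ hι x) hJ ht₀ hC) ht₀ hC T hone hmul
    fun g b => by rw [hT, hσ]

end Pool.Agent.MP_deef5c_ag.E

end

section

/-! The example. -/

open CategoryTheory AlgebraicGeometry IsLocalRing Function Pool.Agent.MP_deef5c_ag.O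
open scoped Polynomial PowerSeries

namespace Pool.Agent.MP_deef5c_ag.E

universe u

variable (k : Type u) [Field k] [IsAlgClosed k] [CharP k 3]

theorem exists_curve : ∃ (c : k) (X : Scheme.{u}) (f : X ⟶ Spec (.of k)) (ρ : EE →* Aut X) (P : X)
    (hP : ∀ g, (ρ g).hom P = P) (x s t : X.presheaf.stalk P), c - c ^ 3 = 1 ∧ IsIntegral X ∧
    IsProper f ∧ IsProj f ∧ SmoothOfRelativeDimension 1 f ∧ Injective ρ ∧ (∀ g, (ρ g).hom ≫ f = f) ∧
    IsClosed {P} ∧ PtD c f ρ P hP x s t ∧ ∀ y : X, IsClosed {y} → y ≠ P → stab ρ y = ⊥ := by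
  obtain ⟨c, hc⟩ : ∃ c : k, c - c ^ 3 = 1 := by
    obtain ⟨c, hc⟩ := IsAlgClosed.exists_root (Polynomial.X ^ 3 - Polynomial.X + 1 : k[X]) (by
      have : (Polynomial.X ^ 3 - Polynomial.X + 1 : k[X]).degree = 3 := by compute_degree!
      rw [this]
      norm_num)
    simp only [Polynomial.IsRoot, Polynomial.eval_add, Polynomial.eval_sub, Polynomial.eval_pow,
      Polynomial.eval_X, Polynomial.eval_one] at hc
    exact ⟨c, by linear_combination -hc⟩
  obtain ⟨B₁, _, _, w, y₁, y₂, h₁, s₁, hw⟩ := exists_p1 k c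
  obtain ⟨B₂, _, _, x, s, t, h₂, s₂⟩ := exists_p2 k
  obtain ⟨_, hx, -⟩ := h₂.dom
  have hx' : Submonoid.powers x ≤ nonZeroDivisors B₂ :=
    powers_le_nonZeroDivisors_of_noZeroDivisors hx
  let L := Localization.Away x
  have : IsDomain L := IsLocalization.isDomain_localization hx'
  obtain ⟨_, T, hs, ht⟩ := link hc h₁ h₂ L
  have := T.l1
  have := T.t1
  have := T.f1
  have : IsDomain B₁ := (IsLocalization.injective L (Submonoid.powers_le.2 hw)).isDomain _
  obtain ⟨α₁, α₂, α, A⟩ := exists_ac h₁ h₂ T (IsLocalization.injective L hx') hs ht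
  have o1 : IsOpenImmersion (sp (algebraMap B₁ L)) := IsOpenImmersion.of_isLocalization w
  have o2 : IsOpenImmersion (sp (algebraMap B₂ L)) := IsOpenImmersion.of_isLocalization x
  obtain ⟨X, i₁, i₂, G⟩ := exists_gl2 (sp (algebraMap B₁ L)) (sp (algebraMap B₂ L))
  have := G.o1
  let f : X ⟶ Spec (.of k) := G.po.desc (sp (algebraMap k B₁)) (sp (algebraMap k B₂)) (by
    rw [← Spec.map_comp, ← Spec.map_comp, ← CommRingCat.ofHom_comp, ← CommRingCat.ofHom_comp,
      ← IsScalarTower.algebraMap_eq, ← IsScalarTower.algebraMap_eq])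
  have f₁ : i₁ ≫ f = sp (algebraMap k B₁) := G.po.inl_desc _ _ _
  have f₂ : i₂ ≫ f = sp (algebraMap k B₂) := G.po.inr_desc _ _ _
  obtain ⟨ρ, r₁, r₂, r₃⟩ := exists_act G f f₁ f₂ α₁ α₂ α A.c1 A.c2
  obtain ⟨P, hP, x', s', t', hcl, D, ho⟩ := exists_ptd h₂ T G f f₂ A ρ r₂
  have := proper_gl T G f f₁ f₂
  refine ⟨c, X, f, ρ, P, hP, x', s', t', hc, integral_gl G, this, proj_ex h₁ h₂ T hs ht G f f₁ f₂,
    smooth_gl G f f₁ f₂ (span_JJ h₂.rel), act_inj A ρ r₁, r₃, hcl, D, fun y hy hne => ?_⟩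
  obtain ⟨q, rfl⟩ := ho y hne
  exact stab_chart A ρ r₁ q hy

theorem locLifts_comp {k : Type u} [Field k] {G H : Type*} [Group G] [Group H]
    {ρ : G →* (k⟦X⟧ ≃ₐ[k] k⟦X⟧)} {A : Type u} [CommRing A] {π : A →+* k} (h : LocLifts ρ π)
    (e : H →* G) : LocLifts (ρ.comp e) π := by
  obtain ⟨ρ', h⟩ := h
  exact ⟨ρ'.comp e, fun g f => h (e g) f⟩

theorem two_parts : ∃ (X : Scheme.{u}) (f : X ⟶ Spec (.of k)) (ρ : EE →* Aut X), IsIntegral X ∧
    IsProj f ∧ SmoothOfRelativeDimension 1 f ∧ Injective ρ ∧ (∀ g, (ρ g).hom ≫ f = f) ∧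
    (∃ (A : Type u) (_ : CommRing A) (_ : IsLocalRing A) (_ : IsArtinianRing A)
      (_ : Algebra (WittVector 3 k) A) (π : A →+* k),
      (∀ w, π (algebraMap (WittVector 3 k) A w) = w.coeff 0) ∧ (3 : A) ≠ 0 ∧ LiftsTo f ρ π) ∧
    ∃ N : ℕ, ∀ (A : Type u) [CommRing A] [IsLocalRing A] [IsArtinianRing A] (π : A →+* k),
      Surjective π → LiftsTo f ρ π → (3 : A) ^ N = 0 := by
  classical
  obtain ⟨c, X, f, ρ, P, hP, x, s, t, hc, _, _, _, _, hρ, hρk, hcl, D, ho⟩ := exists_curve k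
  obtain ⟨j, t₀, ρP, x₀, s₀, C, hL, M⟩ := exists_mod f hρ hρk hcl D
  refine ⟨X, f, ρ, ‹_›, ‹_›, ‹_›, hρ, hρk, ?_, ?_⟩
  · obtain ⟨A, _, _, _, _, π, hπ, h3, hl⟩ := lift_a hc M
    have hs : Surjective π := fun a => ⟨algebraMap _ A (WittVector.teichmuller 3 a), by
      rw [hπ, WittVector.teichmuller_coeff_zero]⟩
    have hd : ∀ y, ∃ ρy, LD f ρ y ρy ∧ (IsClosed {y} → LocLifts ρy π) := fun y => by
      by_cases hy : y = P
      · subst hy
        exact ⟨ρP, Or.inr ⟨hcl, j, t₀, C, hL⟩, fun _ => locLifts_comp hl (stab ρ y).subtype⟩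
      · obtain ⟨ρy, h⟩ := exists_ld f ρ hρ hρk y
        refine ⟨ρy, h, fun hc => ⟨1, fun g φ => ?_⟩⟩
        have : g = 1 := Subtype.ext (Subgroup.mem_bot.1 (ho y hc hy ▸ g.2))
        simp [this]
    choose ρx h1 h2 using hd
    exact ⟨A, _, ‹_›, ‹_›, ‹_›, π, hπ, h3, loc_glob f ρ hρk ρx h1 π hs h2⟩
  · obtain ⟨N, hN⟩ := bound_ld (M.ld hc)
    refine ⟨N, fun A _ _ _ π hπ hl => hN A π hπ (locLifts_comp ?_ _)⟩
    exact glob_loc f hρ hρk hcl ⟨sg, hP _⟩ (fun h => (show ¬sg = 1 by decide) (congrArg Subtype.val h))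
      C hL π hπ hl

theorem final : ∃ (X : Scheme.{u}) (f : X ⟶ Spec (.of k)) (ρ : EE →* Aut X) (n : ℕ),
    IsIntegral X ∧ IsProj f ∧ SmoothOfRelativeDimension 1 f ∧ Injective ρ ∧
    (∀ g, (ρ g).hom ≫ f = f) ∧ 2 ≤ n ∧
    IsGreatest {m : ℕ | ∃ (A : Type u) (_ : CommRing A) (_ : IsLocalRing A) (_ : IsArtinianRing A)
      (_ : Algebra (WittVector 3 k) A) (π : A →+* k),
      (∀ w, π (algebraMap (WittVector 3 k) A w) = w.coeff 0) ∧ LiftsTo f ρ π ∧ ringChar A = m}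
      (3 ^ n) ∧
    ∀ (R : Type u) [CommRing R] [IsLocalRing R] [IsNoetherianRing R] [Algebra (WittVector 3 k) R]
      (π : R →+* k), (∀ w, π (algebraMap (WittVector 3 k) R w) = w.coeff 0) → Versal 3 f ρ π →
      ringChar R = 3 ^ n := by
  classical
  obtain ⟨X, f, ρ, h1, h2, h3, h4, h5, ⟨A₀, _, _, _, _, π₀, a1, a2, a3⟩, N, hN⟩ := two_parts k
  have hex : ∃ n : ℕ, ∀ (A : Type u) [CommRing A] [IsLocalRing A] [IsArtinianRing A]
      [Algebra (WittVector 3 k) A] (π : A →+* k),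
      (∀ w, π (algebraMap (WittVector 3 k) A w) = w.coeff 0) → LiftsTo f ρ π → (3 : A) ^ n = 0 :=
    ⟨N, fun A _ _ _ _ π hπ => hN A π fun a => ⟨algebraMap _ A (WittVector.teichmuller 3 a), by
      rw [hπ, WittVector.teichmuller_coeff_zero]⟩⟩
  have hn := Nat.find_spec hex
  have h2n : 2 ≤ Nat.find hex := by
    by_contra h
    have h0 := hn A₀ π₀ a1 a3
    exact a2 ((pow_one _).symm.trans (pow_eq_zero_of_le (show Nat.find hex ≤ 1 by omega) h0))
  have hdvd : ∀ (A : Type u) [CommRing A] (n : ℕ), (3 : A) ^ n = 0 ↔ ringChar A ∣ 3 ^ n :=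
    fun A _ n => by rw [← ringChar.spec]; simp
  have hm := Nat.find_min hex (m := Nat.find hex - 1) (by omega)
  push Not at hm
  obtain ⟨A, _, _, _, _, π, b1, b2, b3⟩ := hm
  have key : ∀ (R : Type u) [CommRing R], (3 : R) ^ Nat.find hex = 0 →
      (3 : R) ^ (Nat.find hex - 1) ≠ 0 → ringChar R = 3 ^ Nat.find hex := fun R _ c1 c2 => by
    obtain ⟨i, hi, e⟩ := (Nat.dvd_prime_pow Nat.prime_three).1 ((hdvd R _).1 c1)
    rw [e]
    rcases hi.eq_or_lt with h | h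
    · rw [h]
    · exact absurd ((hdvd R _).2 (e ▸ pow_dvd_pow 3 (by omega))) c2
  refine ⟨X, f, ρ, Nat.find hex, h1, h2, h3, h4, h5, h2n,
    ⟨⟨A, _, ‹_›, ‹_›, ‹_›, π, b1, b2, key A (hn A π b1 b2) b3⟩, ?_⟩, ?_⟩
  · rintro m ⟨A, _, _, _, _, π, b1, b2, rfl⟩
    exact Nat.le_of_dvd (by positivity) ((hdvd A _).1 (hn A π b1 b2))
  · intro R _ _ _ _ πR hR hV
    have hs : Surjective πR := fun a => ⟨algebraMap _ R (WittVector.teichmuller 3 a), by
      rw [hR, WittVector.teichmuller_coeff_zero]⟩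
    refine key R ?_ fun h0 => ?_
    · rw [← Ideal.mem_bot, ← Ideal.iInf_pow_eq_bot_of_isLocalRing _ (maximalIdeal.isMaximal R).ne_top,
        Ideal.mem_iInf]
      intro i
      have hJ : maximalIdeal R ^ (i + 1) ≠ ⊤ := ne_top_of_le_ne_top
        (maximalIdeal.isMaximal R).ne_top (Ideal.pow_le_self (Nat.succ_ne_zero i))
      have := local_quot _ hJ
      have : IsArtinianRing (R ⧸ maximalIdeal R ^ (i + 1)) := by
        rw [isArtinianRing_iff_isNilpotent_maximalIdeal, ← map_maximalIdeal_of_surjective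
          (Ideal.Quotient.mk (maximalIdeal R ^ (i + 1))) Ideal.Quotient.mk_surjective]
        exact ⟨i + 1, by rw [← Ideal.map_pow, Ideal.map_quotient_self]; rfl⟩
      obtain ⟨π', -, hc⟩ := exists_pi_quot πR hs _ hJ
      have h0 := hn _ π' (fun w => (hc _).trans (hR w)) (hV.1 i π' (RingHom.ext hc))
      refine Ideal.pow_le_pow_right (Nat.le_succ i) (Ideal.Quotient.eq_zero_iff_mem.1 ?_)
      rwa [map_pow, map_ofNat]
    · obtain ⟨φ, -⟩ := hV.2 A π b1 b2
      have := congrArg φ h0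
      rw [map_pow, map_ofNat, map_zero] at this
      exact b3 this

end Pool.Agent.MP_deef5c_ag.E

end
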